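import Mathlib

set_option autoImplicit false

/-!
Definitions for the proportion of quadratic L-functions without real zeros.
-/

open Finset MeasureTheory Filter Topology
open scoped Real ContDiff

namespace Pool.Agent.MP0016c7.Rz

/-- Smooth function supported in the open interval `(a, b)`. -/
structure Bump (F : ℝ → ℝ) (a b : ℝ) : Prop where
  smooth : ContDiff ℝ ∞ F
  supp : ∀ t, F t ≠ 0 → a < t ∧ t < b

/-- The Jacobi symbol `(k / n)` for odd `n`, and `0` for even `n`. -/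
noncomputable def jr (k : ℤ) (n : ℕ) : ℝ := if Odd n then ((jacobiSym k n : ℤ) : ℝ) else 0

/-- The product of the primes dividing `n` to an odd power. -/
def sq1 (n : ℕ) : ℕ := ∏ p ∈ n.primeFactors with Odd (n.factorization p), p

/-- The largest `b` with `b ^ 2 ∣ n` (for `n ≠ 0`). -/
def sq2 (n : ℕ) : ℕ := ∏ p ∈ n.primeFactors, p ^ (n.factorization p / 2)

/-- The normalised Gauss-type sum `G_k(N) / N` in Poisson summation over odd `d`. -/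
noncomputable def gg (k : ℤ) (N : ℕ) : ℝ :=
  (∑ e ∈ (sq2 N).divisors.filter (fun e : ℕ => ((sq2 N : ℕ) : ℤ) ^ 2 ∣ k * (e : ℤ)),
    (ArithmeticFunction.moebius e : ℝ) / e * jr (k * (e : ℤ) ^ 2 / ((sq2 N : ℕ) : ℤ) ^ 2) (sq1 N)) /
      √(sq1 N : ℝ)

/-- The real transform `∫ F(t) (cos 2πξt + σ sin 2πξt) dt`. -/
noncomputable def Ft (F : ℝ → ℝ) (σ : ℤ) (ξ : ℝ) : ℝ :=
  ∫ t : ℝ, F t * (Real.cos (2 * π * ξ * t) + σ * Real.sin (2 * π * ξ * t))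

/-- The contribution of the squares `k = j²` (with `k = 0`) to Poisson summation. -/
noncomputable def MM (F : ℝ → ℝ) (σ : ℤ) (Y : ℝ) (N : ℕ) : ℝ :=
  ∑' j : ℕ, (-1 : ℝ) ^ j * gg ((j : ℤ) ^ 2) N * Ft F σ ((j : ℝ) ^ 2 * Y / (2 * N))

open Classical in
/-- The contribution of the nonsquare `k` to Poisson summation. -/
noncomputable def NS (F : ℝ → ℝ) (σ : ℤ) (Y : ℝ) (N : ℕ) : ℝ :=
  ∑' k : ℤ, if IsSquare k then 0 else (-1 : ℝ) ^ k.natAbs * gg k N * Ft F σ ((k : ℝ) * Y / (2 * N))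

/-- The kernel of the theta function (parity `a`). -/
noncomputable def kap (a x : ℝ) : ℝ := Real.exp ((a + 1 / 2) * x - π * Real.exp (2 * x))

noncomputable def Gam0 (a : ℝ) : ℝ := ∫ x : ℝ, kap a x

/-- The tail integral of `h`. -/
noncomputable def HH (h : ℝ → ℝ) (v : ℝ) : ℝ := ∫ t in Set.Ioi v, h t

/-- The smoothed kernel of the mollified theta process. -/
noncomputable def kL (a : ℝ) (ρ h : ℝ → ℝ) (L z u : ℝ) : ℝ :=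
  (∫ x : ℝ, ∫ y : ℝ, kap a x * ρ y * HH h (u + |z + x / L - y|)) / Gam0 a

/-- The mollified theta process of the discriminant `8σd` at the height `Y` (scale `X`). -/
noncomputable def ytil (a : ℝ) (σ : ℤ) (ρ h : ℝ → ℝ) (X : ℝ) (d : ℕ) (Y : ℝ) : ℝ :=
  ∑' p : ℕ × ℕ, (ArithmeticFunction.moebius p.2 : ℝ) * jr (2 * σ * d) (p.1 * p.2) /
    √((p.1 : ℝ) * p.2) *
      kL a ρ h (Real.log X) (Y - Real.log p.1 / Real.log X) (Real.log p.2 / Real.log X)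

/-- The limit covariance. -/
noncomputable def CC (ρ₁ ρ₂ h : ℝ → ℝ) (Y₁ Y₂ : ℝ) : ℝ :=
  ∫ x : ℝ, ∫ y : ℝ, ρ₁ x * ρ₂ y * (HH h (x - Y₁) * HH h (y - Y₂) +
    (∫ t : ℝ, h t ^ 2) * (max (min (Y₁ - x) (Y₂ - y)) 0 - max (Y₁ - x + (Y₂ - y) - 1) 0))

/-- The truncated weight (smooth cut-off at `n l = X ^ (Y + θ₁ + 2 δ)`). -/
noncomputable def Wt (a : ℝ) (ρ h : ℝ → ℝ) (X θ₁ δ Y : ℝ) (l n : ℕ) : ℝ :=
  kL a ρ h (Real.log X) (Y - Real.log n / Real.log X) (Real.log l / Real.log X) *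
    (1 - Real.smoothTransition (((Real.log n + Real.log l) / Real.log X - Y - θ₁ - δ) / δ))

/-- The quadruple sums over `n₁, l₁, n₂, l₂ ≤ M`, all coprime to `2 r`. -/
noncomputable def quad (W₁ W₂ : ℕ → ℕ → ℝ) (r M : ℕ) (f : ℕ → ℝ) : ℝ :=
  ∑ n₁ ∈ Icc 1 M, ∑ l₁ ∈ Icc 1 M, ∑ n₂ ∈ Icc 1 M, ∑ l₂ ∈ Icc 1 M,
    if Nat.Coprime (n₁ * l₁ * n₂ * l₂) (2 * r) then
      (ArithmeticFunction.moebius l₁ : ℝ) * (ArithmeticFunction.moebius l₂ : ℝ) *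
        W₁ l₁ n₁ * W₂ l₂ n₂ / √((n₁ * l₁ * n₂ * l₂ : ℕ) : ℝ) * f (n₁ * l₁ * n₂ * l₂)
    else 0

/-- General weights for the error term: bounded, Lipschitz in `log n`, supported in
`l ≤ X ^ θ`, `l n ≤ X ^ (1/2 + θ)`. -/
structure LipW (θ X C : ℝ) (W : ℕ → ℕ → ℝ) : Prop where
  bd : ∀ l n : ℕ, |W l n| ≤ C
  lip : ∀ l m n : ℕ, 1 ≤ m → 1 ≤ n → |W l m - W l n| ≤ C * |Real.log m - Real.log n|
  supp₁ : ∀ l n : ℕ, X ^ θ < (l : ℝ) → W l n = 0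
  supp₂ : ∀ l n : ℕ, X ^ (1 / 2 + θ) < (l : ℝ) * n → W l n = 0

/-- The error term of the second moment is negligible for the mollifier length `θ₁`. -/
def ErrS (θ₁ δ : ℝ) : Prop :=
  ∀ (F : ℝ → ℝ) (a b : ℝ), 0 < a → Bump F a b → ∀ σ : ℤ, (σ = 1 ∨ σ = -1) →
  ∀ r : ℕ, Odd r → Squarefree r → ∀ c : ℝ, (c = 0 ∨ c = 1) →
  ∀ (ρ₁ ρ₂ h : ℝ → ℝ), Bump ρ₁ (-(δ / 2)) (δ / 2) → Bump ρ₂ (-(δ / 2)) (δ / 2) → Bump h 0 θ₁ →
  ∀ ε : ℝ, 0 < ε → ∃ X₀ : ℝ, ∀ X : ℝ, X₀ ≤ X → ∀ Y₁ ∈ Set.Icc (-1 : ℝ) (1 / 2 + δ),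
    ∀ Y₂ ∈ Set.Icc (-1 : ℝ) (1 / 2 + δ),
    |quad (Wt c ρ₁ h X θ₁ δ Y₁) (Wt c ρ₂ h X θ₁ δ Y₂) r ⌊X ^ 2⌋₊ (NS F σ (X / r ^ 2))| ≤ ε

/-- The main term of the second moment. -/
noncomputable def MT (a : ℝ) (σ : ℤ) (ρ₁ ρ₂ h F : ℝ → ℝ) (X : ℝ) (r : ℕ) (Y₁ Y₂ : ℝ) : ℝ :=
  ∑' q : (ℕ × ℕ) × (ℕ × ℕ),
    if Nat.Coprime (q.1.1 * q.1.2 * q.2.1 * q.2.2) (2 * r) then
      (ArithmeticFunction.moebius q.1.2 : ℝ) * (ArithmeticFunction.moebius q.2.2 : ℝ) *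
        kL a ρ₁ h (Real.log X) (Y₁ - Real.log q.1.1 / Real.log X) (Real.log q.1.2 / Real.log X) *
        kL a ρ₂ h (Real.log X) (Y₂ - Real.log q.2.1 / Real.log X) (Real.log q.2.2 / Real.log X) /
        √((q.1.1 * q.1.2 * q.2.1 * q.2.2 : ℕ) : ℝ) *
        MM F σ (X / r ^ 2) (q.1.1 * q.1.2 * q.2.1 * q.2.2)
    else 0

end Pool.Agent.MP0016c7.Rz
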