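import Mathlib
import Pool.Agent.Lib.MP_0016c7_nt.Rz.Defs

set_option autoImplicit false

/-!
Complex-analytic definitions (transforms, Dirichlet series) for the main term.
-/

open Finset MeasureTheory Filter Topology
open scoped Real ContDiff

namespace Pool.Agent.MP0016c7.Rz

/-- `∫ ρ(y) e^{-sy} dy`. -/
noncomputable def rhat (ρ : ℝ → ℝ) (s : ℂ) : ℂ := ∫ y : ℝ, (ρ y : ℂ) * Complex.exp (-s * y)

/-- `∫ h(t) e^{wt} dt`. -/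
noncomputable def hhat (h : ℝ → ℝ) (w : ℂ) : ℂ := ∫ t : ℝ, (h t : ℂ) * Complex.exp (w * t)

/-- The Mellin factor of the theta kernel in the scale `L`. -/
noncomputable def Gh (a L : ℝ) (s : ℂ) : ℂ :=
  (∫ x : ℝ, (kap a x : ℂ) * Complex.exp (s * (x / L : ℝ))) / (Gam0 a : ℂ)

/-- The transform of the kernel `kL`. -/
noncomputable def wtc (a L : ℝ) (ρ h : ℝ → ℝ) (s w : ℂ) : ℂ :=
  rhat ρ s * Gh a L s * (2 * hhat h w / (w ^ 2 - s ^ 2))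

/-- `n ↦ n^{-s}`. -/
noncomputable def pwA (s : ℂ) : ArithmeticFunction ℂ :=
  ⟨fun n => if n = 0 then 0 else (n : ℂ) ^ (-s), by simp⟩

/-- `n ↦ μ(n) n^{-w}`. -/
noncomputable def pmA (w : ℂ) : ArithmeticFunction ℂ :=
  ⟨fun n => if n = 0 then 0 else (ArithmeticFunction.moebius n : ℂ) * (n : ℂ) ^ (-w), by simp⟩

/-- The coefficients of `ζ(s₁) ζ(s₂) / (ζ(w₁) ζ(w₂))`. -/
noncomputable def cfA (s₁ w₁ s₂ w₂ : ℂ) : ArithmeticFunction ℂ :=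
  pwA s₁ * pmA w₁ * (pwA s₂ * pmA w₂)

/-- `∏ (1 - 1/p)` over `p ∣ sq2 N`, `p ∤ sq1 N`. -/
noncomputable def rhoN (N : ℕ) : ℝ := ∏ p ∈ (sq2 N).primeFactors.filter (fun p => ¬ p ∣ sq1 N), (1 - 1 / (p : ℝ))

/-- The arithmetic weight of the main term (`z = 0`: only squares). -/
noncomputable def bz (z : ℂ) (N : ℕ) : ℂ :=
  (rhoN N : ℂ) / (√(sq1 N : ℝ) : ℂ) *
    ∑ e ∈ (sq1 N).divisors, (ArithmeticFunction.moebius e : ℂ) * (((sq1 N : ℝ) / (e : ℝ) ^ 2 : ℝ) : ℂ) ^ z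

/-- The Dirichlet series of the main term. -/
noncomputable def OO (r : ℕ) (s₁ w₁ s₂ w₂ z : ℂ) : ℂ :=
  ∑' N : ℕ, if Nat.Coprime N (2 * r) then cfA s₁ w₁ s₂ w₂ N * bz z N / (√(N : ℝ) : ℂ) else 0

/-- The zeta quotient without `z`. -/
noncomputable def Z0 (s₁ w₁ s₂ w₂ : ℂ) : ℂ :=
  riemannZeta (1 + 2 * s₁) * riemannZeta (1 + 2 * s₂) * riemannZeta (1 + (s₁ + s₂)) *
      riemannZeta (1 + (w₁ + w₂)) /
    (riemannZeta (1 + (s₁ + w₁)) * riemannZeta (1 + (s₁ + w₂)) * riemannZeta (1 + (s₂ + w₁)) *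
      riemannZeta (1 + (s₂ + w₂)))

/-- The zeta quotient depending on `z`. -/
noncomputable def VV (s₁ w₁ s₂ w₂ z : ℂ) : ℂ :=
  (riemannZeta (1 + (s₁ - z)) / riemannZeta (1 + (w₁ - z))) *
  (riemannZeta (1 + (s₂ - z)) / riemannZeta (1 + (w₂ - z))) *
  (riemannZeta (1 + (w₁ + z)) / riemannZeta (1 + (s₁ + z))) *
  (riemannZeta (1 + (w₂ + z)) / riemannZeta (1 + (s₂ + z)))

/-- The cut-off function of the square terms. -/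
noncomputable def BB (F : ℝ → ℝ) (σ : ℤ) (y : ℝ) : ℝ :=
  -2 / (∫ t : ℝ, F t) * ∑' j : ℕ, (-1 : ℝ) ^ (j + 1) * Ft F σ (((j + 1 : ℕ) : ℝ) ^ 2 * y)

/-- The Mellin transform of `-B'(y) y`. -/
noncomputable def bb (F : ℝ → ℝ) (σ : ℤ) (z : ℂ) : ℂ :=
  ∫ x : ℝ, ((-deriv (fun x => BB F σ (Real.exp x)) x : ℝ) : ℂ) * Complex.exp (z * x)

/-- The Dirichlet series of the main term with pure exponential weights (scale `L`). -/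
noncomputable def QX (F : ℝ → ℝ) (σ : ℤ) (r : ℕ) (X : ℝ) (s₁ w₁ s₂ w₂ : ℂ) : ℂ :=
  OO r (s₁ / Real.log X) (w₁ / Real.log X) (s₂ / Real.log X) (w₂ / Real.log X) 0 -
  1 / 2 * (1 / (2 * π)) * ∫ ζ : ℝ, bb F σ (1 / Real.log X + Complex.I * ζ) *
    (((X / (2 * r ^ 2) : ℝ)) : ℂ) ^ (-(1 / Real.log X + Complex.I * ζ : ℂ)) *
    OO r (s₁ / Real.log X) (w₁ / Real.log X) (s₂ / Real.log X) (w₂ / Real.log X)
      (1 / Real.log X + Complex.I * ζ) / (1 / Real.log X + Complex.I * ζ)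

noncomputable def R0 (s₁ w₁ s₂ w₂ : ℂ) : ℂ :=
  (s₁ + w₁) * (s₁ + w₂) * (s₂ + w₁) * (s₂ + w₂) / (4 * s₁ * s₂ * (s₁ + s₂) * (w₁ + w₂))

noncomputable def II (s₁ w₁ s₂ w₂ : ℂ) : ℂ :=
  2 * (s₁ + s₂) * (w₁ - s₁) * (w₂ - s₁) / ((s₂ - s₁) * (w₁ + s₁) * (w₂ + s₁)) * Complex.exp (-s₁) +
  2 * (s₁ + s₂) * (w₁ - s₂) * (w₂ - s₂) / ((s₁ - s₂) * (w₁ + s₂) * (w₂ + s₂)) * Complex.exp (-s₂)

/-- The limit of `QX`. -/
noncomputable def Qinf (s₁ w₁ s₂ w₂ : ℂ) : ℂ := R0 s₁ w₁ s₂ w₂ * (1 - II s₁ w₁ s₂ w₂ / 2)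

end Pool.Agent.MP0016c7.Rz
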