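import Mathlib
import Pool.Agent.Lib.MP_0016c7_nt.Rz.Defs

set_option autoImplicit false

/-!
Definitions for the final assembly.
-/

open Finset MeasureTheory Filter Topology
open scoped Real ContDiff

namespace Pool.Agent.MP0016c7.Rz

/-- The ideal profile. -/
noncomputable def Hid (θ₀ x : ℝ) : ℝ :=
  if θ₀ ≤ x then 0 else (θ₀ - max x 0) / 2 + (θ₀ ^ 2 - (max x 0) ^ 2) / 2

/-- The weight function. -/
noncomputable def ww (γ₀ V τ₀ v : ℝ) : ℝ := γ₀ / (V - v + τ₀)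

/-- The quadratic functional `∫ w f² + g₀ (∫ f)²`. -/
noncomputable def qf (w : ℝ → ℝ) (g₀ V : ℝ) (f : ℝ → ℝ) : ℝ :=
  (∫ v in (0 : ℝ)..V, w v * f v ^ 2) + g₀ * (∫ v in (0 : ℝ)..V, f v) ^ 2

/-- The dual functional. -/
noncomputable def Kf (w : ℝ → ℝ) (g₀ V : ℝ) (c : ℝ → ℝ) : ℝ :=
  (∫ v in (0 : ℝ)..V, c v ^ 2 / w v) -
    (∫ v in (0 : ℝ)..V, c v / w v) ^ 2 / ((∫ v in (0 : ℝ)..V, 1 / w v) + 1 / g₀)

/-- The bound for the mean value of the quadratic functional. -/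
noncomputable def qb (w : ℝ → ℝ) (g₀ V s : ℝ) (e : ℝ → ℝ) : ℝ :=
  (∫ v in (0 : ℝ)..V, w v * (s * (V - v) + e v ^ 2)) +
    g₀ * (s * V ^ 3 / 3 + (∫ v in (0 : ℝ)..V, e v) ^ 2)

/-- The test profile on `[0, V]`. -/
noncomputable def y00 (θ₀ κ V v : ℝ) : ℝ := Hid θ₀ 0 * (1 + κ * (V ^ 2 - v ^ 2))

/-- The lower bound for `∫ cosh (a v) (y₀ - y)` for a bad discriminant. -/
noncomputable def PP (θ₀ κ V a : ℝ) : ℝ :=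
  (∫ v in V..(V + θ₀), Real.cosh (a * v) * Hid θ₀ (v - V)) +
    ∫ v in (0 : ℝ)..V, Real.cosh (a * v) * y00 θ₀ κ V v

/-- The numerical certificate. -/
structure Cert (θ₀ δ κ τ₀ γ₀ g₀ μ E : ℝ) : Prop where
  hθ₀ : 0 < θ₀
  hδ : 0 < δ
  hδ' : δ ≤ 1 / 100
  hκ : 0 < κ
  hτ₀ : 0 < τ₀
  hγ₀ : 0 < γ₀
  hg₀ : 0 < g₀
  hμ : 0 < μ
  hlen : θ₀ + 6 * δ < 1 / 2
  main : ∀ a : ℝ, (1 + μ) * Kf (ww γ₀ (1 / 2 + δ) τ₀) g₀ (1 / 2 + δ) (fun v => Real.cosh (a * v)) ≤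
    PP θ₀ κ (1 / 2 + δ) a ^ 2
  en : qb (ww γ₀ (1 / 2 + δ) τ₀) g₀ (1 / 2 + δ) (((θ₀ + 1 / 2) ^ 3 - 1 / 8) / 3)
    (fun v => Hid θ₀ 0 * κ * ((1 / 2 + δ) ^ 2 - v ^ 2)) ≤ E

/-- No zero on `(0, 1)` for the primitive quadratic characters modulo `8 d` of the given parity. -/
def NoZero (σ : ℤ) (d : ℕ) : Prop :=
  ∀ (_ : NeZero (8 * d)) (χ : DirichletCharacter ℂ (8 * d)), χ.IsPrimitive → χ ^ 2 = 1 →
    ((σ = 1 ∧ χ.Even) ∨ (σ = -1 ∧ χ.Odd)) → ∀ s : ℝ, 0 < s → s < 1 → χ.LFunction s ≠ 0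

end Pool.Agent.MP0016c7.Rz
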