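import Mathlib
import Pool.Agent.Lib.MP_0016c7_nt.Rz.Defs
import Pool.Agent.Lib.MP_0016c7_nt.Rz.DefsC
import Pool.Agent.Lib.MP_0016c7_nt.Rz.DefsF

set_option autoImplicit false

/-!
Definitions for sub-pieces (local Euler factors, limit integrals, moments, truncated sums).
-/

open Finset MeasureTheory Filter Topology
open scoped Real ContDiff

namespace Pool.Agent.MP0016c7.Rz

/-- The local factor of `OO` (`x = p^{-s₁}`, `y = p^{-w₁}`, `x' = p^{-s₂}`, `y' = p^{-w₂}`,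
`u = p^z`, `v = p^{-z}`, `q = p`). -/
noncomputable def locOx (q x y x' y' u v : ℂ) : ℂ :=
  1 / q + (1 - 1 / q) *
    ((1 + (x * x' + y * y' - (x + x') * (y + y')) / q + x * x' * y * y' / q ^ 2) /
      ((1 - x ^ 2 / q) * (1 - x' ^ 2 / q))) +
  (u - v) * (((x + x' - y - y') / q + ((x + x') * (y * y') - x * x' * (y + y')) / q ^ 2) /
      ((1 - x ^ 2 / q) * (1 - x' ^ 2 / q)))

/-- The local factor of `Z0 * VV`. -/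
noncomputable def locZx (q x y x' y' u v : ℂ) : ℂ :=
  ((1 - x * y / q) * (1 - x * y' / q) * (1 - x' * y / q) * (1 - x' * y' / q)) /
    ((1 - x ^ 2 / q) * (1 - x' ^ 2 / q) * (1 - x * x' / q) * (1 - y * y' / q)) *
  ((1 - y * u / q) * (1 - y' * u / q) * (1 - x * v / q) * (1 - x' * v / q)) /
    ((1 - x * u / q) * (1 - x' * u / q) * (1 - y * v / q) * (1 - y' * v / q))

noncomputable def locO (p : ℕ) (s₁ w₁ s₂ w₂ z : ℂ) : ℂ :=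
  locOx p ((p : ℂ) ^ (-s₁)) ((p : ℂ) ^ (-w₁)) ((p : ℂ) ^ (-s₂)) ((p : ℂ) ^ (-w₂)) ((p : ℂ) ^ z)
    ((p : ℂ) ^ (-z))

noncomputable def locZ (p : ℕ) (s₁ w₁ s₂ w₂ z : ℂ) : ℂ :=
  locZx p ((p : ℂ) ^ (-s₁)) ((p : ℂ) ^ (-w₁)) ((p : ℂ) ^ (-s₂)) ((p : ℂ) ^ (-w₂)) ((p : ℂ) ^ z)
    ((p : ℂ) ^ (-z))

/-- The weights of the limit integral. -/
noncomputable def wti (ρ h : ℝ → ℝ) (s w : ℂ) : ℂ := rhat ρ s * (2 * hhat h w / (w ^ 2 - s ^ 2))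

/-- The rational version of `VV`. -/
noncomputable def Vr (s₁ w₁ s₂ w₂ z : ℂ) : ℂ :=
  ((w₁ - z) / (s₁ - z)) * ((w₂ - z) / (s₂ - z)) * ((s₁ + z) / (w₁ + z)) * ((s₂ + z) / (w₂ + z))

/-- `x ζ(1 + x)`, continued by `1` at `x = 0`. -/
noncomputable def kz (x : ℂ) : ℂ := if x = 0 then 1 else x * riemannZeta (1 + x)

/-- The basic integrals of the limit formula. -/
noncomputable def JJ (ρ₁ ρ₂ h : ℝ → ℝ) (Y₁ Y₂ : ℝ) (K : ℂ → ℂ → ℂ → ℂ → ℂ) : ℂ :=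
  1 / (2 * π) ^ 4 * ∫ x₁ : ℝ, ∫ y₁ : ℝ, ∫ x₂ : ℝ, ∫ y₂ : ℝ,
    rhat ρ₁ (2 + Complex.I * x₁) * hhat h (3 + Complex.I * y₁) *
      (rhat ρ₂ (5 / 2 + Complex.I * x₂) * hhat h (3 + Complex.I * y₂)) *
      Complex.exp ((2 + Complex.I * x₁) * Y₁ + (5 / 2 + Complex.I * x₂) * Y₂) *
      K (2 + Complex.I * x₁) (3 + Complex.I * y₁) (5 / 2 + Complex.I * x₂) (3 + Complex.I * y₂)

/-- The truncated process. -/
noncomputable def TT (a : ℝ) (σ : ℤ) (ρ h : ℝ → ℝ) (X θ δ : ℝ) (d : ℕ) (Y : ℝ) : ℝ :=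
  ∑ n ∈ Icc 1 ⌊X ^ 2⌋₊, ∑ l ∈ Icc 1 ⌊X ^ 2⌋₊, (ArithmeticFunction.moebius l : ℝ) *
    jr (2 * σ * d) (n * l) / √((n * l : ℕ) : ℝ) * Wt a ρ h X θ δ Y l n

/-- Even moments of the lower-bound functional. -/
noncomputable def dN (θ₀ κ V : ℝ) (n : ℕ) : ℝ :=
  (∫ v in V..(V + θ₀), v ^ (2 * n) * Hid θ₀ (v - V)) +
    ∫ v in (0 : ℝ)..V, v ^ (2 * n) * y00 θ₀ κ V v

/-- Even moments of `1 / w`. -/
noncomputable def eN (τ₀ γ₀ V : ℝ) (n : ℕ) : ℝ :=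
  ∫ v in (0 : ℝ)..V, v ^ (2 * n) / ww γ₀ V τ₀ v

end Pool.Agent.MP0016c7.Rz
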