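import Mathlib
import Pool.Agent.Lib.MP_0016c7_nt.Rz.DefsF

set_option autoImplicit false

/-!
The certificate of rank two for the final assembly (version 2).
-/

open Finset MeasureTheory Filter Topology
open scoped Real ContDiff

namespace Pool.Agent.MP0016c7.Rz

/-- The quadratic functional `∫ w f² + g (∫ u f)²`. -/
noncomputable def qu (w u : ℝ → ℝ) (g V : ℝ) (f : ℝ → ℝ) : ℝ :=
  (∫ v in (0 : ℝ)..V, w v * f v ^ 2) + g * (∫ v in (0 : ℝ)..V, u v * f v) ^ 2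

/-- The bound for the mean value of the quadratic functional `qu`. -/
noncomputable def qbu (w u : ℝ → ℝ) (g V s : ℝ) (e : ℝ → ℝ) : ℝ :=
  (∫ v in (0 : ℝ)..V, w v * (s * (V - v) + e v ^ 2)) +
    g * (s * (∫ v in (0 : ℝ)..V, u v * ∫ v' in (0 : ℝ)..V, u v' * min (V - v) (V - v')) +
      (∫ v in (0 : ℝ)..V, u v * e v) ^ 2)

/-- The lower bound for `∫ cosh (a v) (y - ytil)` for a bad discriminant. -/
noncomputable def PP2 (θ₀ V : ℝ) (y : ℝ → ℝ) (a : ℝ) : ℝ :=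
  (∫ v in V..(V + θ₀), Real.cosh (a * v) * Hid θ₀ (v - V)) +
    ∫ v in (0 : ℝ)..V, Real.cosh (a * v) * y v

/-- The numerical certificate (rank two): the quadratic functional is
`qu w u₁ g₁ V f + qu w u₂ g₂ V f`, the test profile is `y`, and `V = 1 / 2 + δ`. -/
structure Cert2 (θ₀ δ μ E : ℝ) (w u₁ u₂ y : ℝ → ℝ) (g₁ g₂ : ℝ) : Prop where
  hθ₀ : 0 < θ₀
  hδ : 0 < δ
  hδ' : δ ≤ 1 / 100
  hμ : 0 < μ
  hlen : θ₀ + 6 * δ < 1 / 2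
  hw : Continuous w
  hwp : ∀ v, 0 < w v
  hg₁ : 0 < g₁
  hg₂ : 0 < g₂
  hu₁ : Continuous u₁
  hu₂ : Continuous u₂
  hu₁p : ∀ v ∈ Set.Icc 0 (1 / 2 + δ), 0 ≤ u₁ v
  hu₂p : ∀ v ∈ Set.Icc 0 (1 / 2 + δ), 0 ≤ u₂ v
  hy : Continuous y
  hyp : ∀ v ∈ Set.Icc 0 (1 / 2 + δ), Hid θ₀ 0 ≤ y v
  main : ∀ (a : ℝ) (f : ℝ → ℝ), ContinuousOn f (Set.Icc 0 (1 / 2 + δ)) →
    (1 + μ) * (∫ v in (0 : ℝ)..(1 / 2 + δ), Real.cosh (a * v) * f v) ^ 2 ≤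
      (qu w u₁ g₁ (1 / 2 + δ) f + qu w u₂ g₂ (1 / 2 + δ) f) * PP2 θ₀ (1 / 2 + δ) y a ^ 2
  en : qbu w u₁ g₁ (1 / 2 + δ) (((θ₀ + 1 / 2) ^ 3 - 1 / 8) / 3) (fun v => y v - Hid θ₀ 0) +
    qbu w u₂ g₂ (1 / 2 + δ) (((θ₀ + 1 / 2) ^ 3 - 1 / 8) / 3) (fun v => y v - Hid θ₀ 0) ≤ E

end Pool.Agent.MP0016c7.Rz
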