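import Mathlib
import Pool.Agent.Lib.MP_0016c7_nt.Rz.Defs
import Pool.Agent.Lib.MP_0016c7_nt.Rz.DefsF
import Pool.Agent.Lib.MP_0016c7_nt.Rz.DefsF2

set_option autoImplicit false

/-!
Definitions for the final assembly, generic in the family of discriminants.
-/

open Finset MeasureTheory Filter Topology
open scoped Real ContDiff

namespace Pool.Agent.MP0016c7.Rz

/-- The normalised average over the class `R` of density `D`. -/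
noncomputable def avR (R : ℕ → Prop) (D : ℝ) (F : ℝ → ℝ) (r : ℕ) (X : ℝ) (g : ℕ → ℝ) : ℝ :=
  r ^ 2 / (D * X) * ∑' d : ℕ, (@ite ℝ (R d) (Classical.dec _) (F (d * r ^ 2 / X) * g d) 0)

/-- The class `R` has density `D`. -/
def Dens (R : ℕ → Prop) (D : ℝ) : Prop :=
  ∀ F : ℝ → ℝ, Bump F (1 / 2) 4 → (∀ t, 0 ≤ F t) → 0 < ∫ t, F t →
  ∀ r : ℕ, Odd r → Squarefree r → ∀ ε : ℝ, 0 < ε → ∃ X₀ : ℝ, ∀ X : ℝ, X₀ ≤ X →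
    |avR R D F r X (fun _ => 1) - ∫ t, F t| ≤ ε

/-- The second moment of the process `T₀` in the class `R`. -/
def Mom2 (R : ℕ → Prop) (D δ : ℝ) (ρ h : ℝ → ℝ) (T₀ : ℝ → ℕ → ℝ → ℝ) : Prop :=
  ∀ F : ℝ → ℝ, Bump F (1 / 2) 4 → (∀ t, 0 ≤ F t) → 0 < ∫ t, F t →
  ∀ r : ℕ, Odd r → Squarefree r → ∀ ε : ℝ, 0 < ε → ∃ X₀ : ℝ, ∀ X : ℝ, X₀ ≤ X →
    ∀ Y₁ ∈ Set.Icc (-(1 / 2) : ℝ) (1 / 2 + δ), ∀ Y₂ ∈ Set.Icc (-(1 / 2) : ℝ) (1 / 2 + δ),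
    |avR R D F r X (fun d => T₀ X (r ^ 2 * d) Y₁ * T₀ X (r ^ 2 * d) Y₂) -
      (∫ t, F t) * CC ρ ρ h Y₁ Y₂| ≤ ε

/-- The first moment of the process `T₀` in the class `R`. -/
def Mom1 (R : ℕ → Prop) (D δ : ℝ) (ρ h : ℝ → ℝ) (T₀ : ℝ → ℕ → ℝ → ℝ) : Prop :=
  ∀ F : ℝ → ℝ, Bump F (1 / 2) 4 → (∀ t, 0 ≤ F t) → 0 < ∫ t, F t →
  ∀ r : ℕ, Odd r → Squarefree r → ∀ ε : ℝ, 0 < ε → ∃ X₀ : ℝ, ∀ X : ℝ, X₀ ≤ X →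
    ∀ Y ∈ Set.Icc (-(1 / 2) : ℝ) (1 / 2 + δ),
    |avR R D F r X (fun d => T₀ X (r ^ 2 * d) Y) - (∫ t, F t) * ∫ y, ρ y * HH h (y - Y)| ≤ ε

/-- The shifted process `τ` is close to the base process `T₀`. -/
def Per (R : ℕ → Prop) (δ : ℝ) (T₀ : ℝ → ℕ → ℝ → ℝ) (τ : ℝ → ℕ → ℝ → ℝ) : Prop :=
  ∀ ε : ℝ, 0 < ε → ∃ X₀ : ℝ, ∀ X : ℝ, X₀ ≤ X → ∀ S : Finset ℕ,
    (∀ d ∈ S, R d ∧ X < d ∧ (d : ℝ) ≤ 2 * X) →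
    ∑ d ∈ S, ∫ v in (0 : ℝ)..(1 / 2 + δ), (T₀ X d (1 / 2 - v) - τ X d v) ^ 2 ≤ ε * X

/-- The linear relation for the discriminants with a zero, with the lower bound of the tail. -/
def Bad (R NZ : ℕ → Prop) (θ₀ δ : ℝ) (τ : ℝ → ℕ → ℝ → ℝ) : Prop :=
  ∀ ε : ℝ, 0 < ε → ∃ X₀ : ℝ, ∀ X : ℝ, X₀ ≤ X → ∀ d : ℕ, X < d → (d : ℝ) ≤ 2 * X → R d →
    Squarefree d → ¬ NZ d → ∃ a : ℝ,
    IntegrableOn (fun v : ℝ => Real.cosh (a * v) * τ X d v) (Set.Ioi 0) ∧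
    (∫ v in Set.Ioi (0 : ℝ), Real.cosh (a * v) * τ X d v) = 0 ∧
    (1 - ε) * (∫ v in Set.Ioc (1 / 2 + δ) (1 / 2 + δ + θ₀), Real.cosh (a * v) *
        Hid θ₀ (v - (1 / 2 + δ))) - ε ≤
      ∫ v in Set.Ioi (1 / 2 + δ), Real.cosh (a * v) * τ X d v

/-- A family of discriminants: the class `R` of density `D`, and `NZ d`: no zero. -/
structure FamH (R NZ : ℕ → Prop) (D θ₀ δ : ℝ) : Prop where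
  odd : ∀ d, R d → Odd d
  sq : ∀ r d : ℕ, Odd r → (R (r ^ 2 * d) ↔ R d)
  hD : 0 < D
  dens : Dens R D
  data : ∀ ρ h : ℝ → ℝ, Bump ρ (-(δ / 2)) (δ / 2) → (∀ y, 0 ≤ ρ y) → (∀ y, ρ (-y) = ρ y) →
    (∫ y, ρ y) = 1 → Bump h (2 * δ) (θ₀ + 3 * δ) → (∀ t, 0 ≤ h t) → 0 < HH h 0 →
    (∀ t, Hid θ₀ (t - 2 * δ) ≤ HH h t) →
    ∃ T₀ τ : ℝ → ℕ → ℝ → ℝ, (∀ X : ℝ, 1 < X → ∀ d, Continuous (T₀ X d)) ∧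
      (∀ X : ℝ, 1 < X → ∀ d, Continuous (τ X d)) ∧
      Mom1 R D δ ρ h T₀ ∧ Mom2 R D δ ρ h T₀ ∧ Per R δ T₀ τ ∧ Bad R NZ θ₀ δ τ

end Pool.Agent.MP0016c7.Rz
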