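import Mathlib
import Pool.Agent.Lib.MP_0016c7_nt.Rz.Defs
import Pool.Agent.Lib.MP_0016c7_nt.Rz.DefsF

set_option autoImplicit false

/-!
Definitions for the union over all fundamental discriminants.
-/

open Finset MeasureTheory Filter Topology
open scoped Real ContDiff

namespace Pool.Agent.MP0016c7.Rz

/-- No zero on `(0, 1)` for the primitive quadratic characters modulo `4 d`. -/
def NoZeroB (d : ℕ) : Prop :=
  ∀ (_ : NeZero (4 * d)) (χ : DirichletCharacter ℂ (4 * d)), χ.IsPrimitive → χ ^ 2 = 1 →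
    ∀ s : ℝ, 0 < s → s < 1 → χ.LFunction s ≠ 0

/-- No zero on `(0, 1)` for the nontrivial primitive quadratic characters modulo `d`. -/
def NoZeroC (d : ℕ) : Prop :=
  ∀ (_ : NeZero d) (χ : DirichletCharacter ℂ d), χ.IsPrimitive → χ ^ 2 = 1 → χ ≠ 1 →
    ∀ s : ℝ, 0 < s → s < 1 → χ.LFunction s ≠ 0

/-- The nontrivial primitive quadratic characters of conductor at most `Q`. -/
def PQ (Q : ℕ) : Set ((q : ℕ) × DirichletCharacter ℂ q) :=
  {x | (0 < x.1 ∧ x.1 ≤ Q) ∧ x.2.IsPrimitive ∧ x.2 ^ 2 = 1 ∧ x.2 ≠ 1}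

end Pool.Agent.MP0016c7.Rz
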