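import Mathlib
import Pool.Agent.Lib.MP_0016c7_nt.Rz.Defs
import Pool.Agent.Lib.MP_0016c7_nt.Rz.DefsF
import Pool.Agent.Lib.MP_0016c7_nt.Rz.DefsF2
import Pool.Agent.Lib.MP_0016c7_nt.Rz.DefsU
import Pool.Agent.Lib.MP_0016c7_nt.Rz.Gen0

set_option autoImplicit false

/-!
Definitions for the zeros outside a window of length `1 / log q` around `1 / 2`.
-/

open Finset MeasureTheory Filter Topology
open scoped Real ContDiff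

namespace Pool.Agent.MP0016c7.Rz

/-- The relation for the discriminants with a zero, the parameter `a` satisfies `A ≤ |a|`. -/
def BadW (A : ℝ) (R NZ : ℕ → Prop) (θ₀ δ : ℝ) (τ : ℝ → ℕ → ℝ → ℝ) : Prop :=
  ∀ ε : ℝ, 0 < ε → ∃ X₀ : ℝ, ∀ X : ℝ, X₀ ≤ X → ∀ d : ℕ, X < d → (d : ℝ) ≤ 2 * X → R d →
    Squarefree d → ¬ NZ d → ∃ a : ℝ, A ≤ |a| ∧
    IntegrableOn (fun v : ℝ => Real.cosh (a * v) * τ X d v) (Set.Ioi 0) ∧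
    (∫ v in Set.Ioi (0 : ℝ), Real.cosh (a * v) * τ X d v) = 0 ∧
    (1 - ε) * (∫ v in Set.Ioc (1 / 2 + δ) (1 / 2 + δ + θ₀), Real.cosh (a * v) *
        Hid θ₀ (v - (1 / 2 + δ))) - ε ≤
      ∫ v in Set.Ioi (1 / 2 + δ), Real.cosh (a * v) * τ X d v

/-- A family of discriminants: the class `R` of density `D`, and `NZ d`: no zero outside the
window. -/
structure FamW (A : ℝ) (R NZ : ℕ → Prop) (D θ₀ δ : ℝ) : Prop where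
  odd : ∀ d, R d → Odd d
  sq : ∀ r d : ℕ, Odd r → (R (r ^ 2 * d) ↔ R d)
  hD : 0 < D
  dens : Dens R D
  data : ∀ ρ h : ℝ → ℝ, Bump ρ (-(δ / 2)) (δ / 2) → (∀ y, 0 ≤ ρ y) → (∀ y, ρ (-y) = ρ y) →
    (∫ y, ρ y) = 1 → Bump h (2 * δ) (θ₀ + 3 * δ) → (∀ t, 0 ≤ h t) → 0 < HH h 0 →
    (∀ t, Hid θ₀ (t - 2 * δ) ≤ HH h t) →
    ∃ T₀ τ : ℝ → ℕ → ℝ → ℝ, (∀ X : ℝ, 1 < X → ∀ d, Continuous (T₀ X d)) ∧
      (∀ X : ℝ, 1 < X → ∀ d, Continuous (τ X d)) ∧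
      Mom1 R D δ ρ h T₀ ∧ Mom2 R D δ ρ h T₀ ∧ Per R δ T₀ τ ∧ BadW A R NZ θ₀ δ τ

/-- The certificate for the parameters `A ≤ |a|`, with the weight `w` and the constant test
profile. -/
structure CertW (A θ₀ δ μ E : ℝ) (w : ℝ → ℝ) : Prop where
  hθ₀ : 0 < θ₀
  hδ : 0 < δ
  hδ' : δ ≤ 1 / 100
  hμ : 0 < μ
  hlen : θ₀ + 6 * δ < 1 / 2
  hw : Continuous w
  hwp : ∀ v, 0 < w v
  main : ∀ a : ℝ, A ≤ |a| → ∀ f : ℝ → ℝ, ContinuousOn f (Set.Icc 0 (1 / 2 + δ)) →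
    (1 + μ) * (∫ v in (0 : ℝ)..(1 / 2 + δ), Real.cosh (a * v) * f v) ^ 2 ≤
      (∫ v in (0 : ℝ)..(1 / 2 + δ), w v * f v ^ 2) *
        PP2 θ₀ (1 / 2 + δ) (fun _ => Hid θ₀ 0) a ^ 2
  en : (∫ v in (0 : ℝ)..(1 / 2 + δ), w v * ((((θ₀ + 1 / 2) ^ 3 - 1 / 8) / 3) *
    (1 / 2 + δ - v))) ≤ E

/-- No zero outside the window for the primitive quadratic characters modulo `8 d` of the given
parity. -/
def NoZW (A : ℝ) (σ : ℤ) (d : ℕ) : Prop :=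
  ∀ (_ : NeZero (8 * d)) (χ : DirichletCharacter ℂ (8 * d)), χ.IsPrimitive → χ ^ 2 = 1 →
    ((σ = 1 ∧ χ.Even) ∨ (σ = -1 ∧ χ.Odd)) → ∀ s : ℝ, 0 < s → s < 1 →
      A ≤ |s - 1 / 2| * Real.log (8 * d : ℕ) → χ.LFunction s ≠ 0

/-- No zero outside the window for the primitive quadratic characters modulo `κ d`. -/
def NoZWG (A : ℝ) (κ d : ℕ) : Prop :=
  ∀ (_ : NeZero (κ * d)) (χ : DirichletCharacter ℂ (κ * d)), χ.IsPrimitive → χ ^ 2 = 1 →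
    ∀ s : ℝ, 0 < s → s < 1 → A ≤ |s - 1 / 2| * Real.log (κ * d : ℕ) → χ.LFunction s ≠ 0

/-- No zero outside the window. -/
def NZxW (A : ℝ) (x : (q : ℕ) × DirichletCharacter ℂ q) : Prop :=
  ∀ (_ : NeZero x.1), ∀ s : ℝ, 0 < s → s < 1 → A ≤ |s - 1 / 2| * Real.log x.1 →
    x.2.LFunction s ≠ 0

end Pool.Agent.MP0016c7.Rz
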