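import Mathlib
import Pool.Agent.Lib.MP_0016c7_nt.Theta
import Pool.Agent.Lib.MP_0016c7_nt.Rz.Defs
import Pool.Agent.Lib.MP_0016c7_nt.Rz.DefsC
import Pool.Agent.Lib.MP_0016c7_nt.Rz.DefsF
import Pool.Agent.Lib.MP_0016c7_nt.Rz.DefsE

set_option autoImplicit false

open Finset MeasureTheory Filter Topology
open scoped Real ContDiff

namespace Pool.Agent.MP0016c7.Rz

theorem sq1_mul_sq2 (n : ℕ) (hn : n ≠ 0) : sq1 n * sq2 n ^ 2 = n := by
  unfold sq1 sq2
  rw [Finset.prod_filter, ← Finset.prod_pow, ← Finset.prod_mul_distrib]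
  conv_rhs => rw [← Nat.prod_factorization_pow_eq_self hn]
  rw [Nat.prod_factorization_eq_prod_primeFactors]
  refine Finset.prod_congr rfl fun p _ => ?_
  rw [← pow_mul]
  split_ifs with h
  · rw [← pow_succ']
    congr 1
    obtain ⟨k, hk⟩ := h
    omega
  · rw [one_mul]
    congr 1
    rw [Nat.not_odd_iff_even] at h
    obtain ⟨k, hk⟩ := h
    omega

private theorem squarefree_prod_primes (s : Finset ℕ) (hs : ∀ p ∈ s, p.Prime) :
    Squarefree (∏ p ∈ s, p) := by
  induction s using Finset.induction_on with
  | empty => simp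
  | insert a s ha ih =>
    rw [Finset.prod_insert ha, Nat.squarefree_mul_iff]
    refine ⟨?_, (hs a (Finset.mem_insert_self a s)).squarefree,
      ih fun p hp => hs p (Finset.mem_insert_of_mem hp)⟩
    refine Nat.Coprime.prod_right fun p hp => ?_
    rw [Nat.coprime_primes (hs a (Finset.mem_insert_self a s)) (hs p (Finset.mem_insert_of_mem hp))]
    rintro rfl
    exact ha hp

theorem squarefree_sq1 (n : ℕ) : Squarefree (sq1 n) := by
  unfold sq1
  exact squarefree_prod_primes _ fun p hp =>
    Nat.prime_of_mem_primeFactors (Finset.mem_of_mem_filter p hp)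

private theorem fact_left {m n : ℕ} (h : Nat.Coprime m n) {p : ℕ} (hp : p ∈ m.primeFactors) :
    (m * n).factorization p = m.factorization p := by
  rw [Nat.factorization_mul_of_coprime h, Finsupp.add_apply]
  have h1 : n.factorization p = 0 := by
    rw [← Finsupp.notMem_support_iff, Nat.support_factorization]
    exact Finset.disjoint_left.mp h.disjoint_primeFactors hp
  omega

private theorem fact_right {m n : ℕ} (h : Nat.Coprime m n) {p : ℕ} (hp : p ∈ n.primeFactors) :
    (m * n).factorization p = n.factorization p := by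
  rw [mul_comm]
  exact fact_left h.symm hp

theorem sq1_mul {m n : ℕ} (h : Nat.Coprime m n) : sq1 (m * n) = sq1 m * sq1 n := by
  unfold sq1
  rw [Finset.prod_filter, Finset.prod_filter, Finset.prod_filter, h.primeFactors_mul,
    Finset.prod_union h.disjoint_primeFactors]
  congr 1
  · exact Finset.prod_congr rfl fun p hp => by rw [fact_left h hp]
  · exact Finset.prod_congr rfl fun p hp => by rw [fact_right h hp]

theorem sq2_mul {m n : ℕ} (h : Nat.Coprime m n) : sq2 (m * n) = sq2 m * sq2 n := by
  unfold sq2
  rw [h.primeFactors_mul, Finset.prod_union h.disjoint_primeFactors]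
  congr 1
  · exact Finset.prod_congr rfl fun p hp => by rw [fact_left h hp]
  · exact Finset.prod_congr rfl fun p hp => by rw [fact_right h hp]

end Pool.Agent.MP0016c7.Rz
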