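import Mathlib
import Pool.Agent.Lib.MP_0016c7_nt.Theta
import Pool.Agent.Lib.MP_0016c7_nt.Rz.Defs
import Pool.Agent.Lib.MP_0016c7_nt.Rz.DefsC
import Pool.Agent.Lib.MP_0016c7_nt.Rz.DefsF
import Pool.Agent.Lib.MP_0016c7_nt.Rz.DefsE
import Pool.Agent.Lib.MP_0016c7_nt.Rz.ArithA1

set_option autoImplicit false

open Finset MeasureTheory Filter Topology
open scoped Real ContDiff

namespace Pool.Agent.MP0016c7.Rz

private theorem A4_abs_jr_le (k : ℤ) (n : ℕ) : |jr k n| ≤ 1 := by
  unfold jr
  split_ifs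
  · rcases jacobiSym.trichotomy k n with h | h | h <;> rw [h] <;> norm_num
  · norm_num

private theorem A4_abs_mu_le (e : ℕ) : |(ArithmeticFunction.moebius e : ℝ)| ≤ 1 := by
  have h := ArithmeticFunction.abs_moebius_le_one (n := e)
  exact_mod_cast h

private theorem A4_pos (N : ℕ) (hN : 0 < N) : 0 < sq1 N ∧ 0 < sq2 N := by
  have h := sq1_mul_sq2 N hN.ne'
  constructor
  · rcases Nat.eq_zero_or_pos (sq1 N) with h0 | h0
    · rw [h0, zero_mul] at h
      omega
    · exact h0
  · rcases Nat.eq_zero_or_pos (sq2 N) with h0 | h0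
    · rw [h0] at h
      simp at h
      omega
    · exact h0

theorem abs_gg_le (k : ℤ) (N : ℕ) (hN : 0 < N) :
    |gg k N| ≤ (N.divisors.card : ℝ) * √((Nat.gcd k.natAbs N : ℝ) / N) := by
  obtain ⟨ha, hb⟩ := A4_pos N hN
  have hab := sq1_mul_sq2 N hN.ne'
  set a := sq1 N with ha_def
  set b := sq2 N with hb_def
  have haR : (0 : ℝ) < a := by exact_mod_cast ha
  have hbR : (0 : ℝ) < b := by exact_mod_cast hb
  have hNR : (0 : ℝ) < N := by exact_mod_cast hN
  have hsa : 0 < √(a : ℝ) := Real.sqrt_pos.2 haR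
  unfold gg
  rw [← ha_def, ← hb_def, abs_div, abs_of_pos hsa, div_le_iff₀ hsa]
  have key : ∀ e ∈ b.divisors.filter (fun e : ℕ => ((b : ℕ) : ℤ) ^ 2 ∣ k * (e : ℤ)),
      |(ArithmeticFunction.moebius e : ℝ) / e * jr (k * (e : ℤ) ^ 2 / ((b : ℕ) : ℤ) ^ 2) a| ≤
        √((Nat.gcd k.natAbs N : ℝ) / N) * √(a : ℝ) := by
    intro e he
    rw [Finset.mem_filter, Nat.mem_divisors] at he
    obtain ⟨⟨heb, -⟩, hek⟩ := he
    have he0 : 0 < e := Nat.pos_of_dvd_of_pos heb hb
    have heR : (0 : ℝ) < e := by exact_mod_cast he0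
    have h1 : |(ArithmeticFunction.moebius e : ℝ) / e * jr (k * (e : ℤ) ^ 2 / ((b : ℕ) : ℤ) ^ 2) a| ≤
        1 / e := by
      rw [abs_mul, abs_div, abs_of_pos heR]
      calc |(ArithmeticFunction.moebius e : ℝ)| / e * |jr (k * (e : ℤ) ^ 2 / ((b : ℕ) : ℤ) ^ 2) a|
          ≤ |(ArithmeticFunction.moebius e : ℝ)| / e * 1 := by
            refine mul_le_mul_of_nonneg_left (A4_abs_jr_le _ _) (by positivity)
        _ = |(ArithmeticFunction.moebius e : ℝ)| / e := mul_one _
        _ ≤ 1 / e := by
            exact div_le_div_of_nonneg_right (A4_abs_mu_le e) heR.le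
    refine h1.trans ?_
    -- the divisor b^2/e
    obtain ⟨c, hc⟩ := heb
    have hek' : b ^ 2 ∣ k.natAbs * e := by
      have := Int.natAbs_dvd_natAbs.2 hek
      rw [Int.natAbs_pow, Int.natAbs_natCast, Int.natAbs_mul, Int.natAbs_natCast] at this
      exact this
    have hg : b * c ∣ Nat.gcd k.natAbs N := by
      refine Nat.dvd_gcd ?_ ?_
      · refine Nat.dvd_of_mul_dvd_mul_right he0 ?_
        have : b * c * e = b ^ 2 := by rw [pow_two]; conv_rhs => rw [hc]
                                       rw [hc]; ring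
        rw [this]
        exact hek'
      · rw [← hab]
        refine Dvd.dvd.mul_left ?_ a
        refine ⟨e, ?_⟩
        rw [pow_two]
        conv_lhs => rw [hc]
        rw [hc]; ring
    have hgpos : 0 < Nat.gcd k.natAbs N := Nat.gcd_pos_of_pos_right _ hN
    have hgle := Nat.le_of_dvd hgpos hg
    have hgR : (b : ℝ) * c ≤ (Nat.gcd k.natAbs N : ℝ) := by exact_mod_cast hgle
    rw [← Real.sqrt_mul (by positivity)]
    refine Real.le_sqrt_of_sq_le ?_
    have hNe : (N : ℝ) = a * b ^ 2 := by exact_mod_cast hab.symm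
    have hbe : (b : ℝ) = e * c := by exact_mod_cast hc
    have hcR : (0 : ℝ) < c := by
      rcases Nat.eq_zero_or_pos c with h0 | h0
      · rw [h0] at hc
        simp at hc
        omega
      · exact_mod_cast h0
    have he1 : (1 : ℝ) ≤ e := by exact_mod_cast he0
    calc (1 / (e : ℝ)) ^ 2 ≤ 1 / e := by
          rw [div_pow, one_pow]
          exact one_div_le_one_div_of_le heR (by nlinarith)
      _ = (b * c) / N * a := by
          rw [hNe, hbe]
          field_simp
      _ ≤ (Nat.gcd k.natAbs N : ℝ) / N * a := by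
          refine mul_le_mul_of_nonneg_right ?_ haR.le
          exact div_le_div_of_nonneg_right hgR hNR.le
  refine (Finset.abs_sum_le_sum_abs _ _).trans ?_
  refine (Finset.sum_le_sum key).trans ?_
  rw [Finset.sum_const, nsmul_eq_mul, mul_assoc]
  refine mul_le_mul_of_nonneg_right ?_ (by positivity)
  have h2 : (b.divisors.filter (fun e : ℕ => ((b : ℕ) : ℤ) ^ 2 ∣ k * (e : ℤ))).card ≤
      N.divisors.card := by
    refine (Finset.card_filter_le _ _).trans (Finset.card_le_card ?_)
    refine Nat.divisors_subset_of_dvd hN.ne' ?_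
    rw [← hab]
    exact Dvd.dvd.mul_left (dvd_pow_self b two_ne_zero) a
  exact_mod_cast h2

theorem gg_ne_zero (k : ℤ) (hk : k ≠ 0) (N : ℕ) (hN : Odd N) (h : gg k N ≠ 0) (p : ℕ) (hp : p.Prime) :
    N.factorization p ≤ k.natAbs.factorization p + 1 := by
  have hN0 : N ≠ 0 := by
    rintro rfl
    simp at hN
  obtain ⟨ha, hb⟩ := A4_pos N (Nat.pos_of_ne_zero hN0)
  have hab := sq1_mul_sq2 N hN0
  have hsq := squarefree_sq1 N
  set a := sq1 N with ha_def
  set b := sq2 N with hb_def
  unfold gg at h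
  rw [← ha_def, ← hb_def] at h
  have h' := left_ne_zero_of_mul (div_eq_mul_inv _ (√(a : ℝ)) ▸ h)
  obtain ⟨e, he, hne⟩ := Finset.exists_ne_zero_of_sum_ne_zero h'
  rw [Finset.mem_filter, Nat.mem_divisors] at he
  obtain ⟨⟨heb, -⟩, hek⟩ := he
  have he0 : 0 < e := Nat.pos_of_dvd_of_pos heb hb
  have hmu : ArithmeticFunction.moebius e ≠ 0 := by
    intro h0
    apply hne
    rw [h0]
    simp
  have hesq : Squarefree e := ArithmeticFunction.moebius_ne_zero_iff_squarefree.1 hmu
  have hjr : jr (k * (e : ℤ) ^ 2 / ((b : ℕ) : ℤ) ^ 2) a ≠ 0 := right_ne_zero_of_mul hne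
  have hk0 : k.natAbs ≠ 0 := Int.natAbs_ne_zero.2 hk
  have hek' : b ^ 2 ∣ k.natAbs * e := by
    have := Int.natAbs_dvd_natAbs.2 hek
    rw [Int.natAbs_pow, Int.natAbs_natCast, Int.natAbs_mul, Int.natAbs_natCast] at this
    exact this
  have e1 : N.factorization p = a.factorization p + 2 * b.factorization p := by
    rw [← hab, Nat.factorization_mul ha.ne' (pow_ne_zero 2 hb.ne'), Nat.factorization_pow]
    simp
  have e2 : 2 * b.factorization p ≤ k.natAbs.factorization p + e.factorization p := by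
    have := (Nat.factorization_le_iff_dvd (pow_ne_zero 2 hb.ne')
      (mul_ne_zero hk0 he0.ne')).2 hek' p
    rw [Nat.factorization_mul hk0 he0.ne', Nat.factorization_pow] at this
    simpa using this
  have e3 : e.factorization p ≤ 1 := (Nat.squarefree_iff_factorization_le_one he0.ne').1 hesq p
  have e4 : a.factorization p ≤ 1 := (Nat.squarefree_iff_factorization_le_one ha.ne').1 hsq p
  rcases Nat.lt_or_ge (a.factorization p) 1 with h0 | h1
  · omega
  · -- `p ∣ a`
    have hpa : p ∣ a := (hp.dvd_iff_one_le_factorization ha.ne').2 h1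
    set K : ℤ := k * (e : ℤ) ^ 2 / ((b : ℕ) : ℤ) ^ 2 with hK
    have hdvd : ((b : ℕ) : ℤ) ^ 2 ∣ k * (e : ℤ) ^ 2 := by
      have : k * (e : ℤ) ^ 2 = k * e * e := by ring
      rw [this]
      exact Dvd.dvd.mul_right hek _
    have hKe : K * ((b : ℕ) : ℤ) ^ 2 = k * (e : ℤ) ^ 2 := Int.ediv_mul_cancel hdvd
    have hKn : K.natAbs * b ^ 2 = k.natAbs * e ^ 2 := by
      have := congrArg Int.natAbs hKe
      rw [Int.natAbs_mul, Int.natAbs_mul, Int.natAbs_pow, Int.natAbs_pow, Int.natAbs_natCast,
        Int.natAbs_natCast] at this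
      exact this
    have hK0 : K.natAbs ≠ 0 := by
      intro h0
      rw [h0, zero_mul] at hKn
      exact mul_ne_zero hk0 (pow_ne_zero 2 he0.ne') hKn.symm
    have hpK : ¬ p ∣ K.natAbs := by
      intro hpK
      apply hjr
      unfold jr
      split_ifs
      · have : jacobiSym K a = 0 := by
          have hne : NeZero a := ⟨ha.ne'⟩
          rw [jacobiSym.eq_zero_iff_not_coprime]
          intro hc
          have h5 : p ∣ Int.gcd K a := by
            rw [Int.gcd_eq_natAbs]
            exact Nat.dvd_gcd hpK (by simpa using hpa)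
          rw [hc] at h5
          exact hp.one_lt.ne' (Nat.dvd_one.1 h5)
        rw [this]
        simp
      · rfl
    have e5 : K.natAbs.factorization p = 0 := Nat.factorization_eq_zero_of_not_dvd hpK
    have e6 : K.natAbs.factorization p + 2 * b.factorization p =
        k.natAbs.factorization p + 2 * e.factorization p := by
      have : (K.natAbs * b ^ 2).factorization p = (k.natAbs * e ^ 2).factorization p := by
        rw [hKn]
      rw [Nat.factorization_mul hK0 (pow_ne_zero 2 hb.ne'),
        Nat.factorization_mul hk0 (pow_ne_zero 2 he0.ne'), Nat.factorization_pow,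
        Nat.factorization_pow] at this
      simpa using this
    omega

end Pool.Agent.MP0016c7.Rz
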