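import Mathlib
import Pool.Agent.Lib.MP_0016c7_nt.Theta
import Pool.Agent.Lib.MP_0016c7_nt.Rz.Defs
import Pool.Agent.Lib.MP_0016c7_nt.Rz.DefsC
import Pool.Agent.Lib.MP_0016c7_nt.Rz.DefsF
import Pool.Agent.Lib.MP_0016c7_nt.Rz.DefsE

set_option autoImplicit false

open Finset MeasureTheory Filter Topology
open scoped Real ContDiff

namespace Pool.Agent.MP0016c7.Rz

open FourierTransform in
theorem Ft_schwartz {F : ℝ → ℝ} {a b : ℝ} (hF : Bump F a b) (σ : ℤ) :
    ∃ φ : SchwartzMap ℝ ℝ, ∀ ξ : ℝ, φ ξ = Ft F σ ξ := by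
  have hcs : HasCompactSupport F := by
    refine HasCompactSupport.intro (isCompact_Icc (a := a) (b := b)) fun x hx => ?_
    by_contra h
    exact hx ⟨(hF.supp x h).1.le, (hF.supp x h).2.le⟩
  have h1 : HasCompactSupport (fun t => (F t : ℂ)) := hcs.comp_left Complex.ofReal_zero
  have h2 : ContDiff ℝ ∞ (fun t => (F t : ℂ)) := Complex.ofRealCLM.contDiff.comp hF.smooth
  refine ⟨SchwartzMap.postcompCLM (𝕜 := ℝ) (Complex.reCLM - (σ : ℝ) • Complex.imCLM)
    (𝓕 (h1.toSchwartzMap h2)), fun ξ => ?_⟩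
  rw [SchwartzMap.postcompCLM_apply]
  have h3 : (𝓕 (h1.toSchwartzMap h2)) ξ = 𝓕 (fun t : ℝ => (F t : ℂ)) ξ := rfl
  rw [h3, Real.fourier_real_eq_integral_exp_smul]
  have hint : Integrable (fun v : ℝ => Complex.exp (↑(-2 * π * v * ξ) * Complex.I) • (F v : ℂ)) := by
    refine Continuous.integrable_of_hasCompactSupport ?_ ?_
    · exact (by fun_prop : Continuous fun v : ℝ => Complex.exp (↑(-2 * π * v * ξ) * Complex.I)).smul
        (Complex.continuous_ofReal.comp hF.smooth.continuous)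
    · simp only [smul_eq_mul]
      exact h1.mul_left
  rw [← ContinuousLinearMap.integral_comp_comm _ hint]
  unfold Ft
  refine integral_congr_ae (ae_of_all _ fun v => ?_)
  simp only [sub_apply, smul_apply, Complex.reCLM_apply,
    Complex.imCLM_apply, smul_eq_mul]
  rw [Complex.re_mul_ofReal, Complex.im_mul_ofReal, Complex.exp_ofReal_mul_I_re,
    Complex.exp_ofReal_mul_I_im]
  have e : -2 * π * v * ξ = -(2 * π * ξ * v) := by ring
  rw [e, Real.cos_neg, Real.sin_neg]
  ring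

end Pool.Agent.MP0016c7.Rz
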