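import Mathlib
import Pool.Agent.Lib.MP_0016c7_nt.Theta
import Pool.Agent.Lib.MP_0016c7_nt.Rz.Defs
import Pool.Agent.Lib.MP_0016c7_nt.Rz.DefsC
import Pool.Agent.Lib.MP_0016c7_nt.Rz.DefsF
import Pool.Agent.Lib.MP_0016c7_nt.Rz.DefsE

set_option autoImplicit false

open Finset MeasureTheory Filter Topology
open scoped Real ContDiff

namespace Pool.Agent.MP0016c7.Rz

namespace K1x

theorem kap_pos (a x : ℝ) : 0 < kap a x := Real.exp_pos _

theorem kap_cont (a : ℝ) : Continuous (kap a) := by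
  unfold kap
  fun_prop

/-- for `x ≥ 0` -/
theorem kap_le_pos {a : ℝ} (ha : a = 0 ∨ a = 1) {x : ℝ} (hx : 0 ≤ x) : kap a x ≤ Real.exp (-x) := by
  unfold kap
  apply Real.exp_le_exp.mpr
  have h1 : 2 * x + 1 ≤ Real.exp (2 * x) := Real.add_one_le_exp (2 * x)
  have h2 : (3 : ℝ) < π := Real.pi_gt_three
  have h3 : 3 * (2 * x + 1) ≤ π * Real.exp (2 * x) := by
    apply mul_le_mul h2.le h1 (by linarith) (by linarith)
  rcases ha with rfl | rfl <;> nlinarith

theorem kap_le_neg {a : ℝ} (ha : a = 0 ∨ a = 1) {x : ℝ} (hx : x ≤ 0) :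
    kap a x ≤ Real.exp ((1 / 2) * x) := by
  unfold kap
  apply Real.exp_le_exp.mpr
  have h2 : 0 ≤ π * Real.exp (2 * x) := by positivity
  rcases ha with rfl | rfl <;> nlinarith

theorem kap_int {a : ℝ} (ha : a = 0 ∨ a = 1) : Integrable (kap a) := by
  rw [← integrableOn_univ, ← Set.Iic_union_Ioi (a := (0 : ℝ))]
  apply IntegrableOn.union
  · refine Integrable.mono' (integrableOn_exp_mul_Iic (a := (1 / 2 : ℝ)) (by norm_num) 0)
      (kap_cont a).aestronglyMeasurable ?_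
    refine (ae_restrict_iff' measurableSet_Iic).mpr (Eventually.of_forall fun x hx => ?_)
    rw [Real.norm_of_nonneg (kap_pos a x).le]
    exact kap_le_neg ha hx
  · refine Integrable.mono' (integrableOn_exp_neg_Ioi 0)
      (kap_cont a).aestronglyMeasurable ?_
    refine (ae_restrict_iff' measurableSet_Ioi).mpr (Eventually.of_forall fun x hx => ?_)
    rw [Real.norm_of_nonneg (kap_pos a x).le]
    exact kap_le_pos ha (le_of_lt hx)

theorem Gam0_pos {a : ℝ} (ha : a = 0 ∨ a = 1) : 0 < Gam0 a := by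
  unfold Gam0
  rw [integral_pos_iff_support_of_nonneg (fun x => (kap_pos a x).le) (kap_int ha)]
  have : Function.support (kap a) = Set.univ := by
    ext x; simp [(kap_pos a x).ne']
  rw [this]
  simp

theorem bump_compact {F : ℝ → ℝ} {a b : ℝ} (hF : Bump F a b) : HasCompactSupport F := by
  refine HasCompactSupport.intro (isCompact_Icc (a := a) (b := b)) fun x hx => ?_
  by_contra h
  have := hF.supp x h
  exact hx ⟨this.1.le, this.2.le⟩

theorem bump_int {F : ℝ → ℝ} {a b : ℝ} (hF : Bump F a b) : Integrable F :=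
  hF.smooth.continuous.integrable_of_hasCompactSupport (bump_compact hF)

theorem bump_bd {F : ℝ → ℝ} {a b : ℝ} (hF : Bump F a b) : ∃ S : ℝ, 0 ≤ S ∧ ∀ t, |F t| ≤ S := by
  obtain ⟨S, hS⟩ := (bump_compact hF).exists_bound_of_continuous hF.smooth.continuous
  exact ⟨S, (norm_nonneg _).trans (hS 0), fun t => hS t⟩

theorem HH_abs {h : ℝ → ℝ} {a b : ℝ} (hh : Bump h a b) (v : ℝ) : |HH h v| ≤ ∫ t, |h t| := by
  unfold HH
  calc |∫ t in Set.Ioi v, h t| ≤ ∫ t in Set.Ioi v, |h t| := by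
        simpa [Real.norm_eq_abs] using norm_integral_le_integral_norm (μ := volume.restrict (Set.Ioi v)) h
    _ ≤ ∫ t, |h t| := setIntegral_le_integral (bump_int hh).abs
        (Eventually.of_forall fun t => abs_nonneg _)

theorem HH_lip {h : ℝ → ℝ} {a b S : ℝ} (hh : Bump h a b) (hS : ∀ t, |h t| ≤ S) (v w : ℝ) :
    |HH h v - HH h w| ≤ S * |v - w| := by
  have key : ∀ v w : ℝ, v ≤ w → |HH h v - HH h w| ≤ S * |v - w| := by
    intro v w hvw
    have h1 : HH h v - HH h w = ∫ t in v..w, h t := by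
      unfold HH
      rw [intervalIntegral.integral_of_le hvw, ← Set.Ioc_union_Ioi_eq_Ioi hvw,
        setIntegral_union (Set.Ioc_disjoint_Ioi_same) measurableSet_Ioi
          (bump_int hh).integrableOn (bump_int hh).integrableOn]
      ring
    rw [h1]
    have h2 := intervalIntegral.norm_integral_le_of_norm_le_const (a := v) (b := w) (C := S) (f := h)
      (fun x _ => hS x)
    rw [abs_sub_comm v w]
    exact h2
  rcases le_total v w with hvw | hvw
  · exact key v w hvw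
  · rw [abs_sub_comm, abs_sub_comm v w]
    exact key w v hvw

theorem HH_cont {h : ℝ → ℝ} {a b : ℝ} (hh : Bump h a b) : Continuous (HH h) := by
  obtain ⟨S, hS0, hS⟩ := bump_bd hh
  refine continuous_iff_continuousAt.mpr fun v => ?_
  rw [Metric.continuousAt_iff]
  intro ε hε
  refine ⟨ε / (S + 1), by positivity, fun {w} hw => ?_⟩
  rw [Real.dist_eq] at hw ⊢
  refine (HH_lip hh hS w v).trans_lt ?_
  rw [lt_div_iff₀ (by positivity)] at hw
  nlinarith [abs_nonneg (w - v)]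

/-- the inner integral -/
noncomputable def kJ (ρ h : ℝ → ℝ) (u t : ℝ) : ℝ := ∫ y : ℝ, ρ y * HH h (u + |t - y|)

theorem kL_eq (a : ℝ) (ρ h : ℝ → ℝ) (L z u : ℝ) :
    kL a ρ h L z u = (∫ x : ℝ, kap a x * kJ ρ h u (z + x / L)) / Gam0 a := by
  unfold kL kJ
  congr 1
  apply integral_congr_ae
  refine Eventually.of_forall fun x => ?_
  simp only
  rw [← integral_const_mul]
  apply integral_congr_ae
  refine Eventually.of_forall fun y => ?_
  simp only
  ring

theorem kJ_bd {ρ h : ℝ → ℝ} {a b c d : ℝ} (hρ : Bump ρ a b) (hh : Bump h c d) (u t : ℝ) :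
    |kJ ρ h u t| ≤ (∫ y, |ρ y|) * ∫ y, |h y| := by
  unfold kJ
  rw [← integral_mul_const]
  rw [← Real.norm_eq_abs]
  refine norm_integral_le_of_norm_le ((bump_int hρ).abs.mul_const _) (Eventually.of_forall fun y => ?_)
  rw [norm_mul, Real.norm_eq_abs, Real.norm_eq_abs]
  exact mul_le_mul_of_nonneg_left (HH_abs hh _) (abs_nonneg _)

theorem kJ_int {ρ h : ℝ → ℝ} {a b c d : ℝ} (hρ : Bump ρ a b) (hh : Bump h c d) (u t : ℝ) :
    Integrable fun y : ℝ => ρ y * HH h (u + |t - y|) := by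
  apply Continuous.integrable_of_hasCompactSupport
  · have h1 := HH_cont hh
    have h2 := hρ.smooth.continuous
    fun_prop
  · exact (bump_compact hρ).mul_right

theorem kJ_lip {ρ h : ℝ → ℝ} {a b c d S : ℝ} (hρ : Bump ρ a b) (hh : Bump h c d)
    (hS : ∀ t, |h t| ≤ S) (u t t' : ℝ) :
    |kJ ρ h u t - kJ ρ h u t'| ≤ (∫ y, |ρ y|) * (S * |t - t'|) := by
  have hS0 : 0 ≤ S := (abs_nonneg _).trans (hS 0)
  unfold kJ
  rw [← integral_sub (kJ_int hρ hh u t) (kJ_int hρ hh u t'), ← integral_mul_const]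
  rw [← Real.norm_eq_abs]
  refine norm_integral_le_of_norm_le ((bump_int hρ).abs.mul_const _) (Eventually.of_forall fun y => ?_)
  rw [← mul_sub, norm_mul, Real.norm_eq_abs, Real.norm_eq_abs]
  refine mul_le_mul_of_nonneg_left ?_ (abs_nonneg _)
  refine (HH_lip hh hS _ _).trans ?_
  refine mul_le_mul_of_nonneg_left ?_ hS0
  have h1 : u + |t - y| - (u + |t' - y|) = |t - y| - |t' - y| := by ring
  rw [h1]
  have h2 := abs_abs_sub_abs_le_abs_sub (t - y) (t' - y)
  have h3 : t - y - (t' - y) = t - t' := by ring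
  rw [h3] at h2
  exact h2

theorem kJ_cont {ρ h : ℝ → ℝ} {a b c d : ℝ} (hρ : Bump ρ a b) (hh : Bump h c d) (u : ℝ) :
    Continuous (kJ ρ h u) := by
  obtain ⟨S, hS0, hS⟩ := bump_bd hh
  have hI : 0 ≤ ∫ y, |ρ y| := integral_nonneg fun y => abs_nonneg _
  refine continuous_iff_continuousAt.mpr fun v => ?_
  rw [Metric.continuousAt_iff]
  intro ε hε
  refine ⟨ε / ((∫ y, |ρ y|) * S + 1), by positivity, fun {w} hw => ?_⟩
  rw [Real.dist_eq] at hw ⊢
  refine (kJ_lip hρ hh hS u w v).trans_lt ?_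
  rw [lt_div_iff₀ (by positivity)] at hw
  have := abs_nonneg (w - v)
  nlinarith

theorem kk_int {ρ h : ℝ → ℝ} {α b c d a : ℝ} (hρ : Bump ρ α b) (hh : Bump h c d)
    (ha : a = 0 ∨ a = 1) (L z u : ℝ) :
    Integrable fun x : ℝ => kap a x * kJ ρ h u (z + x / L) := by
  refine Integrable.mono' ((kap_int ha).mul_const ((∫ y, |ρ y|) * ∫ y, |h y|)) ?_ ?_
  · apply Continuous.aestronglyMeasurable
    have h1 := kap_cont a
    have h2 := kJ_cont hρ hh u
    exact h1.mul (h2.comp (by fun_prop))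
  · refine Eventually.of_forall fun x => ?_
    rw [norm_mul, Real.norm_of_nonneg (kap_pos a x).le, Real.norm_eq_abs]
    exact mul_le_mul_of_nonneg_left (kJ_bd hρ hh _ _) (kap_pos a x).le

end K1x

theorem HH_eq_zero {h : ℝ → ℝ} {a θ : ℝ} (hh : Bump h a θ) {v : ℝ} (hv : θ ≤ v) : HH h v = 0 := by
  unfold HH
  apply setIntegral_eq_zero_of_forall_eq_zero
  intro t ht
  by_contra hne
  have := (hh.supp t hne).2
  have h2 : v < t := ht
  linarith

theorem kL_eq_zero {ρ h : ℝ → ℝ} {a θ : ℝ} (hh : Bump h a θ) (c L z u : ℝ) (hu : θ ≤ u) :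
    kL c ρ h L z u = 0 := by
  unfold kL
  have : ∀ x y : ℝ, kap c x * ρ y * HH h (u + |z + x / L - y|) = 0 := by
    intro x y
    rw [HH_eq_zero hh (by have := abs_nonneg (z + x / L - y); linarith), mul_zero]
  simp [this]

theorem abs_kL_le {ρ h : ℝ → ℝ} {a b θ : ℝ} (hρ : Bump ρ a b) (hh : Bump h 0 θ) (c : ℝ)
    (hc : c = 0 ∨ c = 1) : ∃ C : ℝ, 0 < C ∧ ∀ L z u : ℝ, 0 < L → |kL c ρ h L z u| ≤ C := by
  have hI : 0 ≤ (∫ y, |ρ y|) * ∫ y, |h y| :=
    mul_nonneg (integral_nonneg fun y => abs_nonneg _) (integral_nonneg fun y => abs_nonneg _)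
  refine ⟨(∫ y, |ρ y|) * (∫ y, |h y|) + 1, by positivity, fun L z u _ => ?_⟩
  have hG := K1x.Gam0_pos hc
  rw [K1x.kL_eq, abs_div, abs_of_pos hG, div_le_iff₀ hG]
  have h1 : |∫ x : ℝ, kap c x * K1x.kJ ρ h u (z + x / L)| ≤
      ∫ x : ℝ, kap c x * ((∫ y, |ρ y|) * ∫ y, |h y|) := by
    rw [← Real.norm_eq_abs]
    refine norm_integral_le_of_norm_le ((K1x.kap_int hc).mul_const _) (Eventually.of_forall fun x => ?_)
    rw [norm_mul, Real.norm_of_nonneg (K1x.kap_pos c x).le, Real.norm_eq_abs]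
    exact mul_le_mul_of_nonneg_left (K1x.kJ_bd hρ hh _ _) (K1x.kap_pos c x).le
  refine h1.trans ?_
  rw [integral_mul_const]
  change Gam0 c * _ ≤ _
  nlinarith

theorem kL_lip {ρ h : ℝ → ℝ} {a b θ : ℝ} (hρ : Bump ρ a b) (hh : Bump h 0 θ) (c : ℝ)
    (hc : c = 0 ∨ c = 1) : ∃ C : ℝ, 0 < C ∧ ∀ L z z' u : ℝ, 0 < L →
      |kL c ρ h L z u - kL c ρ h L z' u| ≤ C * |z - z'| := by
  obtain ⟨S, hS0, hS⟩ := K1x.bump_bd hh
  have hI : 0 ≤ (∫ y, |ρ y|) := integral_nonneg fun y => abs_nonneg _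
  refine ⟨(∫ y, |ρ y|) * S + 1, by positivity, fun L z z' u _ => ?_⟩
  have hG := K1x.Gam0_pos hc
  rw [K1x.kL_eq, K1x.kL_eq, ← sub_div, abs_div, abs_of_pos hG, div_le_iff₀ hG,
    ← integral_sub (K1x.kk_int hρ hh hc L z u) (K1x.kk_int hρ hh hc L z' u)]
  have h1 : |∫ x : ℝ, (kap c x * K1x.kJ ρ h u (z + x / L) - kap c x * K1x.kJ ρ h u (z' + x / L))| ≤
      ∫ x : ℝ, kap c x * ((∫ y, |ρ y|) * (S * |z - z'|)) := by
    rw [← Real.norm_eq_abs]
    refine norm_integral_le_of_norm_le ((K1x.kap_int hc).mul_const _) (Eventually.of_forall fun x => ?_)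
    rw [← mul_sub, norm_mul, Real.norm_of_nonneg (K1x.kap_pos c x).le, Real.norm_eq_abs]
    refine mul_le_mul_of_nonneg_left ?_ (K1x.kap_pos c x).le
    have := K1x.kJ_lip hρ hh hS u (z + x / L) (z' + x / L)
    have h3 : z + x / L - (z' + x / L) = z - z' := by ring
    rwa [h3] at this
  refine h1.trans ?_
  rw [integral_mul_const]
  change Gam0 c * _ ≤ _
  have h5 : 0 ≤ Gam0 c * |z - z'| := by positivity
  nlinarith

end Pool.Agent.MP0016c7.Rz
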