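import Mathlib
import Pool.Agent.Lib.MP_0016c7_nt.Theta
import Pool.Agent.Lib.MP_0016c7_nt.Rz.Defs
import Pool.Agent.Lib.MP_0016c7_nt.Rz.DefsC
import Pool.Agent.Lib.MP_0016c7_nt.Rz.DefsF
import Pool.Agent.Lib.MP_0016c7_nt.Rz.DefsE
import Pool.Agent.Lib.MP_0016c7_nt.Rz.Ker1

set_option autoImplicit false

open Finset MeasureTheory Filter Topology
open scoped Real ContDiff

namespace Pool.Agent.MP0016c7.Rz

/-- the kernel beyond a positive point -/
private theorem kap_le_tail {c : ℝ} (hc : c = 0 ∨ c = 1) {b x : ℝ} (hb : 0 ≤ b) (hx : b ≤ x) :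
    kap c x ≤ Real.exp (-Real.exp (2 * b)) * Real.exp (-x) := by
  rw [← Real.exp_add]
  unfold kap
  apply Real.exp_le_exp.mpr
  have h0 : 0 ≤ x := hb.trans hx
  have h1 : 2 * x + 1 ≤ Real.exp (2 * x) := Real.add_one_le_exp (2 * x)
  have h2 : (3 : ℝ) < π := Real.pi_gt_three
  have h3 : Real.exp (2 * b) ≤ Real.exp (2 * x) := Real.exp_le_exp.mpr (by linarith)
  have h4 : 3 * Real.exp (2 * x) ≤ π * Real.exp (2 * x) :=
    mul_le_mul_of_nonneg_right h2.le (Real.exp_pos _).le
  rcases hc with rfl | rfl <;> nlinarith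

private theorem kJ_zero {ρ h : ℝ → ℝ} {δ θ : ℝ} (hρ : Bump ρ (-(δ / 2)) (δ / 2))
    (hh : Bump h 0 θ) {u t : ℝ} (ht : t ≤ u - θ - δ / 2) : K1x.kJ ρ h u t = 0 := by
  unfold K1x.kJ
  have : ∀ y : ℝ, ρ y * HH h (u + |t - y|) = 0 := by
    intro y
    by_cases hy : ρ y = 0
    · rw [hy, zero_mul]
    · have h1 := (hρ.supp y hy).1
      rw [HH_eq_zero hh, mul_zero]
      have h2 := neg_abs_le (t - y)
      linarith
  simp [this]

theorem kL_tail {ρ h : ℝ → ℝ} {δ θ : ℝ} (hδ : 0 < δ) (hρ : Bump ρ (-(δ / 2)) (δ / 2))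
    (hh : Bump h 0 θ) (c : ℝ) (hc : c = 0 ∨ c = 1) :
    ∃ C : ℝ, 0 < C ∧ ∀ L z u : ℝ, 0 < L → θ + δ ≤ u - z →
      |kL c ρ h L z u| ≤ C * Real.exp (-Real.exp (2 * (u - z - θ - δ / 2) * L)) := by
  have hG := K1x.Gam0_pos hc
  set I : ℝ := (∫ y, |ρ y|) * ∫ y, |h y| with hI
  have hI0 : 0 ≤ I :=
    mul_nonneg (integral_nonneg fun y => abs_nonneg _) (integral_nonneg fun y => abs_nonneg _)
  refine ⟨I / Gam0 c + 1, by positivity, fun L z u hL huz => ?_⟩
  set b : ℝ := (u - z - θ - δ / 2) * L with hb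
  have hb0 : 0 ≤ b := by rw [hb]; apply mul_nonneg _ hL.le; linarith
  set E : ℝ := Real.exp (-Real.exp (2 * b)) with hE
  have hE0 : 0 < E := Real.exp_pos _
  have h2b : Real.exp (-Real.exp (2 * (u - z - θ - δ / 2) * L)) = E := by
    rw [hE, hb]; congr 3; ring
  rw [h2b, K1x.kL_eq, abs_div, abs_of_pos hG]
  have hbound : |∫ x : ℝ, kap c x * K1x.kJ ρ h u (z + x / L)| ≤ E * I := by
    have e1 : |∫ x : ℝ, kap c x * K1x.kJ ρ h u (z + x / L)| ≤
        ∫ x : ℝ, (Set.Ioi (0 : ℝ)).indicator (fun x => E * I * Real.exp (-x)) x := by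
      rw [← Real.norm_eq_abs]
      refine norm_integral_le_of_norm_le ?_ (Eventually.of_forall fun x => ?_)
      · rw [integrable_indicator_iff measurableSet_Ioi]
        exact (integrableOn_exp_neg_Ioi 0).const_mul _
      · by_cases hx : x ≤ b
        · have h0 : K1x.kJ ρ h u (z + x / L) = 0 := by
            apply kJ_zero hρ hh
            have : x / L ≤ u - z - θ - δ / 2 := by
              rw [div_le_iff₀ hL]; exact hx
            linarith
          rw [h0, mul_zero, norm_zero]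
          apply Set.indicator_nonneg
          intro y _
          positivity
        · push Not at hx
          have hx0 : x ∈ Set.Ioi (0 : ℝ) := lt_of_le_of_lt hb0 hx
          rw [Set.indicator_of_mem hx0, norm_mul, Real.norm_of_nonneg (K1x.kap_pos c x).le,
            Real.norm_eq_abs]
          have e2 := kap_le_tail hc hb0 hx.le
          have e3 := K1x.kJ_bd hρ hh u (z + x / L)
          calc kap c x * |K1x.kJ ρ h u (z + x / L)| ≤ (E * Real.exp (-x)) * I :=
                mul_le_mul e2 e3 (abs_nonneg _) (by positivity)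
            _ = E * I * Real.exp (-x) := by ring
    rw [integral_indicator measurableSet_Ioi, integral_const_mul] at e1
    have e4 : ∫ x in Set.Ioi (0 : ℝ), Real.exp (-x) = 1 := by
      have := integral_exp_neg_Ioi (0 : ℝ)
      simpa using this
    rw [e4, mul_one] at e1
    exact e1
  calc |∫ x : ℝ, kap c x * K1x.kJ ρ h u (z + x / L)| / Gam0 c ≤ E * I / Gam0 c :=
        div_le_div_of_nonneg_right hbound hG.le
    _ = (I / Gam0 c) * E := by ring
    _ ≤ (I / Gam0 c + 1) * E := by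
        apply mul_le_mul_of_nonneg_right _ hE0.le
        linarith

end Pool.Agent.MP0016c7.Rz
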