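import Mathlib
import Pool.Agent.Lib.MP_0016c7_nt.Theta
import Pool.Agent.Lib.MP_0016c7_nt.Rz.Defs
import Pool.Agent.Lib.MP_0016c7_nt.Rz.DefsC
import Pool.Agent.Lib.MP_0016c7_nt.Rz.DefsF
import Pool.Agent.Lib.MP_0016c7_nt.Rz.DefsE
import Pool.Agent.Lib.MP_0016c7_nt.Rz.Ker2

set_option autoImplicit false

open Finset MeasureTheory Filter Topology
open scoped Real ContDiff

namespace Pool.Agent.MP0016c7.Rz

private theorem k4_bump_deriv {ρ : ℝ → ℝ} {a b : ℝ} (hρ : Bump ρ a b) : Bump (deriv ρ) a b := by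
  have hs := (contDiff_infty_iff_deriv.1 hρ.smooth)
  refine ⟨hs.2, ?_⟩
  intro t ht
  have hd : HasDerivAt ρ (deriv ρ t) t := (hs.1 t).hasDerivAt
  constructor
  · by_contra hc
    push Not at hc
    apply ht
    have hz : ∀ s ∈ Set.Iic t, ρ s = 0 := by
      intro s hs'
      by_contra h0
      exact absurd (hρ.supp s h0).1 (not_lt.2 (le_trans hs' hc))
    have h1 : HasDerivWithinAt ρ 0 (Set.Iic t) t :=
      (hasDerivWithinAt_const t (Set.Iic t) (0 : ℝ)).congr hz (hz t (Set.self_mem_Iic))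
    exact (uniqueDiffWithinAt_Iic t).eq_deriv _ hd.hasDerivWithinAt h1
  · by_contra hc
    push Not at hc
    apply ht
    have hz : ∀ s ∈ Set.Ici t, ρ s = 0 := by
      intro s hs'
      by_contra h0
      exact absurd (hρ.supp s h0).2 (not_lt.2 (le_trans hc hs'))
    have h1 : HasDerivWithinAt ρ 0 (Set.Ici t) t :=
      (hasDerivWithinAt_const t (Set.Ici t) (0 : ℝ)).congr hz (hz t (Set.self_mem_Ici))
    exact (uniqueDiffWithinAt_Ici t).eq_deriv _ hd.hasDerivWithinAt h1

private theorem k4_cs {ρ : ℝ → ℝ} {a b : ℝ} (hρ : Bump ρ a b) : HasCompactSupport ρ := by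
  refine HasCompactSupport.intro (isCompact_Icc (a := a) (b := b)) ?_
  intro x hx
  by_contra h0
  exact hx ⟨(hρ.supp x h0).1.le, (hρ.supp x h0).2.le⟩

private theorem k4_int {ρ : ℝ → ℝ} {a b : ℝ} (hρ : Bump ρ a b) : Integrable ρ :=
  hρ.smooth.continuous.integrable_of_hasCompactSupport (k4_cs hρ)

private theorem k4_HH_cont {h : ℝ → ℝ} {a b : ℝ} (hh : Bump h a b) : Continuous (HH h) := by
  have hi := k4_int hh
  have e : HH h = fun v => HH h 0 - ∫ t in (0 : ℝ)..v, h t := by
    funext v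
    have := intervalIntegral.integral_Ioi_sub_Ioi' (f := h) (μ := volume) (a := 0) (b := v)
      hi.integrableOn hi.integrableOn
    unfold HH
    linarith
  rw [e]
  exact continuous_const.sub (intervalIntegral.continuous_primitive
    (fun a b => hi.intervalIntegrable) 0)

private theorem k4_HH_bd {h : ℝ → ℝ} {a b : ℝ} (hh : Bump h a b) (v : ℝ) :
    |HH h v| ≤ ∫ t, |h t| := by
  have hi := k4_int hh
  unfold HH
  calc |∫ t in Set.Ioi v, h t| ≤ ∫ t in Set.Ioi v, |h t| := abs_integral_le_integral_abs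
    _ ≤ ∫ t, |h t| := setIntegral_le_integral hi.abs (Eventually.of_forall fun t => abs_nonneg _)

/-- the inner integral -/
private noncomputable def k4G (ρ h : ℝ → ℝ) (u w : ℝ) : ℝ := ∫ y : ℝ, ρ y * HH h (u + |w - y|)

private theorem k4G_deriv {ρ h : ℝ → ℝ} {a b a' b' : ℝ} (hρ : Bump ρ a b) (hh : Bump h a' b')
    (u w : ℝ) : HasDerivAt (k4G ρ h u) (k4G (deriv ρ) h u w) w := by
  have hg : Continuous (fun t => HH h (u + |t|)) :=
    (k4_HH_cont hh).comp (continuous_const.add continuous_abs)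
  have h1 := (k4_cs hρ).hasDerivAt_convolution_left (μ := volume) (𝕜 := ℝ)
    (ContinuousLinearMap.mul ℝ ℝ)
    (hρ.smooth.of_le (by exact_mod_cast le_top)) (hg.locallyIntegrable) w
  exact h1

private theorem k4G_bd {ρ h : ℝ → ℝ} {a b a' b' : ℝ} (hρ : Bump ρ a b) (hh : Bump h a' b')
    (u w : ℝ) : |k4G ρ h u w| ≤ (∫ y, |ρ y|) * ∫ t, |h t| := by
  have hi := k4_int hρ
  unfold k4G
  calc |∫ y : ℝ, ρ y * HH h (u + |w - y|)| ≤ ∫ y : ℝ, |ρ y * HH h (u + |w - y|)| :=
        abs_integral_le_integral_abs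
    _ ≤ ∫ y : ℝ, |ρ y| * ∫ t, |h t| := by
        apply integral_mono_of_nonneg (Eventually.of_forall fun t => abs_nonneg _)
          (hi.abs.mul_const _)
        refine Eventually.of_forall fun y => ?_
        simp only [abs_mul]
        exact mul_le_mul_of_nonneg_left (k4_HH_bd hh _) (abs_nonneg _)
    _ = (∫ y, |ρ y|) * ∫ t, |h t| := integral_mul_const _ _

private theorem k4_kap_cont (a : ℝ) : Continuous (kap a) := by
  unfold kap
  fun_prop

private theorem k4_kap_int (c : ℝ) (hc : c = 0 ∨ c = 1) : Integrable (kap c) := by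
  have hc0 : 0 ≤ c := by
    rcases hc with h | h
    · exact h.ge
    · rw [h]; exact zero_le_one
  have hc1 : c ≤ 1 := by
    rcases hc with h | h
    · rw [h]; exact zero_le_one
    · exact h.le
  rw [← integrableOn_univ, ← Set.Iic_union_Ioi (a := (0 : ℝ))]
  refine IntegrableOn.union ?_ ?_
  · refine Integrable.mono' (integrableOn_exp_mul_Iic (a := 1 / 2) (by norm_num) 0)
      (k4_kap_cont c).aestronglyMeasurable.restrict ?_
    refine (ae_restrict_iff' measurableSet_Iic).2 (Eventually.of_forall ?_)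
    intro x hx
    have hx' : x ≤ 0 := hx
    rw [kap, Real.norm_eq_abs, abs_of_pos (Real.exp_pos _), Real.exp_le_exp]
    have := mul_pos Real.pi_pos (Real.exp_pos (2 * x))
    nlinarith only [this, hc0, hx']
  · refine Integrable.mono' (integrableOn_exp_mul_Ioi (a := -1) (by norm_num) 0)
      (k4_kap_cont c).aestronglyMeasurable.restrict ?_
    refine (ae_restrict_iff' measurableSet_Ioi).2 (Eventually.of_forall ?_)
    intro x hx
    have hx' : 0 < x := hx
    rw [kap, Real.norm_eq_abs, abs_of_pos (Real.exp_pos _), Real.exp_le_exp]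
    have h1 : 2 * x + 1 ≤ Real.exp (2 * x) := Real.add_one_le_exp _
    have h2 : 3 * Real.exp (2 * x) ≤ π * Real.exp (2 * x) :=
      mul_le_mul_of_nonneg_right Real.pi_gt_three.le (Real.exp_pos _).le
    nlinarith only [hx', h1, h2, hc1]

private theorem k4_kL_eq {ρ h : ℝ → ℝ} (c L z u : ℝ) :
    kL c ρ h L z u = (∫ x : ℝ, kap c x * k4G ρ h u (z + x / L)) / Gam0 c := by
  unfold kL k4G
  congr 1
  apply integral_congr_ae
  refine Eventually.of_forall fun x => ?_
  simp only
  rw [← integral_const_mul]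
  apply integral_congr_ae
  refine Eventually.of_forall fun y => ?_
  simp only
  ring

private theorem k4_kL_deriv {ρ h : ℝ → ℝ} {a b a' b' : ℝ} (hρ : Bump ρ a b) (hh : Bump h a' b')
    (c : ℝ) (hc : c = 0 ∨ c = 1) (L z u : ℝ) :
    HasDerivAt (fun z => kL c ρ h L z u) (kL c (deriv ρ) h L z u) z := by
  simp only [k4_kL_eq]
  apply HasDerivAt.div_const
  have hG : Continuous (k4G ρ h u) :=
    (show Differentiable ℝ (k4G ρ h u) from fun w => (k4G_deriv hρ hh u w).differentiableAt).continuous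
  have hG' : Continuous (k4G (deriv ρ) h u) :=
    (show Differentiable ℝ (k4G (deriv ρ) h u) from
      fun w => (k4G_deriv (k4_bump_deriv hρ) hh u w).differentiableAt).continuous
  have hki := k4_kap_int c hc
  refine (hasDerivAt_integral_of_dominated_loc_of_deriv_le (μ := volume) (𝕜 := ℝ)
    (F := fun z x => kap c x * k4G ρ h u (z + x / L))
    (F' := fun z x => kap c x * k4G (deriv ρ) h u (z + x / L))
    (bound := fun x => kap c x * ((∫ y, |deriv ρ y|) * ∫ t, |h t|))
    (s := Set.univ) Filter.univ_mem ?_ ?_ ?_ ?_ ?_ ?_).2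
  · refine Eventually.of_forall fun z' => ?_
    exact ((k4_kap_cont c).mul (hG.comp (by fun_prop))).aestronglyMeasurable
  · refine Integrable.mono' (hki.mul_const ((∫ y, |ρ y|) * ∫ t, |h t|))
      (((k4_kap_cont c).mul (hG.comp (by fun_prop))).aestronglyMeasurable) ?_
    refine Eventually.of_forall fun x => ?_
    rw [Real.norm_eq_abs, abs_mul, abs_of_pos (show 0 < kap c x from Real.exp_pos _)]
    exact mul_le_mul_of_nonneg_left (k4G_bd hρ hh _ _) (Real.exp_pos _).le
  · exact ((k4_kap_cont c).mul (hG'.comp (by fun_prop))).aestronglyMeasurable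
  · refine Eventually.of_forall fun x z' _ => ?_
    rw [Real.norm_eq_abs, abs_mul, abs_of_pos (show 0 < kap c x from Real.exp_pos _)]
    exact mul_le_mul_of_nonneg_left (k4G_bd (k4_bump_deriv hρ) hh _ _) (Real.exp_pos _).le
  · exact hki.mul_const _
  · refine Eventually.of_forall fun x z' _ => ?_
    have := (k4G_deriv hρ hh u (z' + x / L)).comp_add_const z' (x / L)
    exact this.const_mul _

private theorem k4_coef_bd (k : ℤ) (p : ℕ × ℕ) :
    |(ArithmeticFunction.moebius p.2 : ℝ) * jr k (p.1 * p.2) / √((p.1 : ℝ) * p.2)| ≤ 1 := by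
  by_cases h0 : p.1 * p.2 = 0
  · have : (p.1 : ℝ) * p.2 = 0 := by exact_mod_cast h0
    rw [this]
    simp
  · have h1 : 1 ≤ p.1 * p.2 := Nat.one_le_iff_ne_zero.2 h0
    have h1' : (1 : ℝ) ≤ (p.1 : ℝ) * p.2 := by exact_mod_cast h1
    have hs : 1 ≤ √((p.1 : ℝ) * p.2) := Real.one_le_sqrt.2 h1'
    have hm : |(ArithmeticFunction.moebius p.2 : ℝ)| ≤ 1 := by
      exact_mod_cast (ArithmeticFunction.abs_moebius_le_one (n := p.2))
    have hj : |jr k (p.1 * p.2)| ≤ 1 := by
      unfold jr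
      split_ifs
      · rcases jacobiSym.trichotomy k (p.1 * p.2) with h | h | h <;> rw [h] <;> simp
      · simp
    rw [abs_div, abs_mul, abs_of_nonneg (Real.sqrt_nonneg _)]
    rw [div_le_one (by linarith)]
    calc _ ≤ (1 : ℝ) * 1 := mul_le_mul hm hj (abs_nonneg _) zero_le_one
      _ ≤ _ := by linarith

private theorem k4_bound {ρ h : ℝ → ℝ} {δ θ : ℝ} (hδ : 0 < δ) (hρ : Bump ρ (-(δ / 2)) (δ / 2))
    (hh : Bump h 0 θ) (c : ℝ) (hc : c = 0 ∨ c = 1) (k : ℤ) (L : ℝ) (hL : 0 < L) (T : ℝ) :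
    ∃ v : ℕ × ℕ → ℝ, Summable v ∧ ∀ (p : ℕ × ℕ) (Y : ℝ), Y ≤ T →
      ‖(ArithmeticFunction.moebius p.2 : ℝ) * jr k (p.1 * p.2) / √((p.1 : ℝ) * p.2) *
        kL c ρ h L (Y - Real.log p.1 / L) (Real.log p.2 / L)‖ ≤ v p := by
  obtain ⟨C₁, hC₁, hk1⟩ := abs_kL_le hρ hh c hc
  obtain ⟨C₂, hC₂, hk2⟩ := kL_tail hδ hρ hh c hc
  set B : ℝ := Real.exp (2 * (T + θ + δ) * L) with hB
  have hBpos : 0 < B := Real.exp_pos _
  set q : ℝ := Real.exp (-(1 / B)) with hq
  have hq1 : q < 1 := by
    have h1 : 0 < 1 / B := by positivity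
    have h2 : Real.exp (-(1 / B)) < Real.exp 0 := Real.exp_lt_exp.2 (by linarith)
    rw [Real.exp_zero] at h2
    exact h2
  have hq0 : 0 < q := Real.exp_pos _
  set N : ℕ := ⌈Real.exp (θ * L)⌉₊ with hN
  set f : ℕ → ℝ := fun n => (C₁ * Real.exp 1 + C₂) * q ^ n with hf
  set g : ℕ → ℝ := fun l => if l ≤ N then 1 else 0 with hg
  have hfs : Summable f := (summable_geometric_of_lt_one hq0.le hq1).mul_left _
  have hgs : Summable g := by
    apply summable_of_ne_finset_zero (s := Finset.range (N + 1))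
    intro b hb
    have : ¬ b ≤ N := by
      intro h
      exact hb (Finset.mem_range.2 (Nat.lt_succ_of_le h))
    simp [hg, this]
  have hf0 : ∀ n, 0 ≤ f n := fun n => by
    simp only [hf]
    positivity
  have hg0 : ∀ n, 0 ≤ g n := fun n => by
    simp only [hg]
    split_ifs <;> norm_num
  refine ⟨fun p => f p.1 * g p.2, Summable.mul_of_nonneg hfs hgs hf0 hg0, ?_⟩
  rintro ⟨n, l⟩ Y hY
  simp only
  have hfg0 : 0 ≤ f n * g l := mul_nonneg (hf0 n) (hg0 l)
  rcases Nat.eq_zero_or_pos n with hn | hn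
  · subst hn
    have : jr k (0 * l) = 0 := by simp [jr]
    rw [this]
    simpa using hfg0
  rcases Nat.eq_zero_or_pos l with hl | hl
  · subst hl
    simpa using hfg0
  have hn' : (1 : ℝ) ≤ n := by exact_mod_cast hn
  have hl' : (1 : ℝ) ≤ l := by exact_mod_cast hl
  rcases le_or_gt θ (Real.log l / L) with hlθ | hlθ
  · rw [kL_eq_zero hh c L _ _ hlθ]
    simpa using hfg0
  have hlN : l ≤ N := by
    have h1 : Real.log l < θ * L := (div_lt_iff₀ hL).1 hlθ
    have h2 : (l : ℝ) < Real.exp (θ * L) := by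
      rw [← Real.log_lt_iff_lt_exp (by linarith)]
      exact h1
    have h3 : (l : ℝ) ≤ N := h2.le.trans (Nat.le_ceil _)
    exact_mod_cast h3
  have hgl : g l = 1 := by simp [hg, hlN]
  rw [hgl, mul_one, Real.norm_eq_abs, abs_mul]
  refine le_trans (mul_le_of_le_one_left (abs_nonneg _) (k4_coef_bd k (n, l))) ?_
  have hexpn : Real.exp (-((n : ℝ) / B)) = q ^ n := by
    rw [hq, ← Real.exp_nat_mul]
    congr 1
    ring
  have hlogl : 0 ≤ Real.log l := Real.log_nonneg hl'
  have hlogn : 0 ≤ Real.log n := Real.log_nonneg hn'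
  rcases le_or_gt (θ + δ) (Real.log l / L - (Y - Real.log n / L)) with ht | ht
  · -- tail
    have h1 := hk2 L (Y - Real.log n / L) (Real.log l / L) hL ht
    refine h1.trans ?_
    have h2 : (n : ℝ) / B ≤
        Real.exp (2 * (Real.log l / L - (Y - Real.log n / L) - θ - δ / 2) * L) := by
      have e1 : (n : ℝ) = Real.exp (Real.log n) := (Real.exp_log (by linarith)).symm
      have e2 : 2 * (Real.log l / L - (Y - Real.log n / L) - θ - δ / 2) * L =
          2 * Real.log l + 2 * Real.log n - 2 * (Y + θ + δ / 2) * L := by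
        field_simp
        ring
      rw [e2]
      calc (n : ℝ) / B = Real.exp (Real.log n - 2 * (T + θ + δ) * L) := by
            rw [Real.exp_sub, ← e1]
        _ ≤ _ := by
            rw [Real.exp_le_exp]
            have : (Y + θ + δ / 2) * L ≤ (T + θ + δ) * L :=
              mul_le_mul_of_nonneg_right (by linarith only [hδ, hY]) hL.le
            nlinarith only [hlogl, hlogn, this]
    calc C₂ * Real.exp (-Real.exp (2 * (Real.log l / L - (Y - Real.log n / L) - θ - δ / 2) * L))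
        ≤ C₂ * Real.exp (-((n : ℝ) / B)) := by
          apply mul_le_mul_of_nonneg_left _ hC₂.le
          rw [Real.exp_le_exp]
          linarith only [h2]
      _ = C₂ * q ^ n := by rw [hexpn]
      _ ≤ f n := by
          simp only [hf]
          have : 0 ≤ C₁ * Real.exp 1 * q ^ n := by positivity
          nlinarith only [this]
  · -- small n
    have h1 := hk1 L (Y - Real.log n / L) (Real.log l / L) hL
    refine h1.trans ?_
    have h2 : (n : ℝ) ≤ B := by
      have h3 : Real.log n / L < T + θ + δ := by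
        have : 0 ≤ Real.log l / L := div_nonneg hlogl hL.le
        linarith
      have h4 : Real.log n < (T + θ + δ) * L := (div_lt_iff₀ hL).1 h3
      have h5 : (n : ℝ) ≤ Real.exp ((T + θ + δ) * L) := by
        rw [← Real.log_le_iff_le_exp (by linarith)]
        exact h4.le
      refine h5.trans ?_
      rw [hB, Real.exp_le_exp]
      nlinarith only [hlogn, h4]
    have h3 : Real.exp (-1) ≤ q ^ n := by
      rw [← hexpn, Real.exp_le_exp]
      have : (n : ℝ) / B ≤ 1 := (div_le_one hBpos).2 h2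
      linarith
    calc C₁ = C₁ * Real.exp 1 * Real.exp (-1) := by
          rw [mul_assoc, ← Real.exp_add]; simp
      _ ≤ C₁ * Real.exp 1 * q ^ n := mul_le_mul_of_nonneg_left h3 (by positivity)
      _ ≤ f n := by
          simp only [hf]
          have : 0 ≤ C₂ * q ^ n := by positivity
          nlinarith only [this]

theorem hasDerivAt_ytil {ρ h : ℝ → ℝ} {δ θ : ℝ} (hδ : 0 < δ) (hρ : Bump ρ (-(δ / 2)) (δ / 2))
    (hh : Bump h 0 θ) (c : ℝ) (hc : c = 0 ∨ c = 1) (σ : ℤ) (X : ℝ) (hX : 1 < X) (d : ℕ) (Y : ℝ) :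
    HasDerivAt (fun Y => ytil c σ ρ h X d Y) (ytil c σ (deriv ρ) h X d Y) Y := by
  have hL : 0 < Real.log X := Real.log_pos hX
  obtain ⟨v, hv, hvb⟩ := k4_bound hδ (k4_bump_deriv hρ) hh c hc (2 * σ * d) (Real.log X) hL (Y + 1)
  obtain ⟨v', hv', hvb'⟩ := k4_bound hδ hρ hh c hc (2 * σ * d) (Real.log X) hL (Y + 1)
  unfold ytil
  refine hasDerivAt_tsum_of_isPreconnected (𝕜 := ℝ) (t := Set.Ioo (Y - 1) (Y + 1)) (y₀ := Y)
    (u := v)
    (g := fun (p : ℕ × ℕ) (Y : ℝ) => (ArithmeticFunction.moebius p.2 : ℝ) *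
      jr (2 * σ * d) (p.1 * p.2) / √((p.1 : ℝ) * p.2) *
      kL c ρ h (Real.log X) (Y - Real.log p.1 / Real.log X) (Real.log p.2 / Real.log X))
    (g' := fun (p : ℕ × ℕ) (Y : ℝ) => (ArithmeticFunction.moebius p.2 : ℝ) *
      jr (2 * σ * d) (p.1 * p.2) / √((p.1 : ℝ) * p.2) *
      kL c (deriv ρ) h (Real.log X) (Y - Real.log p.1 / Real.log X) (Real.log p.2 / Real.log X))
    hv isOpen_Ioo isPreconnected_Ioo ?_ ?_ ?_ ?_ ?_
  · intro p y _
    have := (k4_kL_deriv hρ hh c hc (Real.log X) (y - Real.log p.1 / Real.log X)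
      (Real.log p.2 / Real.log X)).comp_sub_const y (Real.log p.1 / Real.log X)
    exact this.const_mul _
  · intro p y hy
    exact hvb p y hy.2.le
  · exact ⟨by linarith, by linarith⟩
  · exact Summable.of_norm_bounded hv' (fun p => hvb' p Y (by linarith))
  · exact ⟨by linarith, by linarith⟩

end Pool.Agent.MP0016c7.Rz
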