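import Mathlib
import Pool.Agent.Lib.MP_0016c7_nt.Theta
import Pool.Agent.Lib.MP_0016c7_nt.Rz.Defs
import Pool.Agent.Lib.MP_0016c7_nt.Rz.DefsC
import Pool.Agent.Lib.MP_0016c7_nt.Rz.DefsF
import Pool.Agent.Lib.MP_0016c7_nt.Rz.DefsE

set_option autoImplicit false

open Finset MeasureTheory Filter Topology
open scoped Real ContDiff

namespace Pool.Agent.MP0016c7.Rz

theorem exists_rho (δ : ℝ) (hδ : 0 < δ) :
    ∃ ρ : ℝ → ℝ, Bump ρ (-(δ / 2)) (δ / 2) ∧ (∀ y, 0 ≤ ρ y) ∧ (∀ y, ρ (-y) = ρ y) ∧ ∫ y, ρ y = 1 := by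
  let f : ContDiffBump (0 : ℝ) := ⟨δ / 4, δ / 2, by positivity, by linarith⟩
  refine ⟨f.normed volume, ⟨f.contDiff_normed, ?_⟩, fun y => f.nonneg_normed y,
    fun y => f.normed_neg y, f.integral_normed⟩
  intro t ht
  have h1 : t ∈ Function.support (f.normed volume) := ht
  rw [f.support_normed_eq, Metric.mem_ball, Real.dist_eq, sub_zero] at h1
  have h2 : |t| < δ / 2 := h1
  exact abs_lt.mp h2

/-- a smooth plateau -/
private theorem plateau (a b ε : ℝ) (hab : a ≤ b) (hε : 0 < ε) :
    ∃ F : ℝ → ℝ, Bump F a b ∧ (∀ t, 0 ≤ F t) ∧ (∀ t, F t ≤ 1) ∧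
      (∀ t ∈ Set.Icc (a + ε) (b - ε), F t = 1) ∧ ∫ t, F t ≤ b - a ∧ b - a - 2 * ε ≤ ∫ t, F t := by
  let F : ℝ → ℝ := fun t => Real.smoothTransition ((t - a) / ε) * Real.smoothTransition ((b - t) / ε)
  have hF0 : ∀ t, 0 ≤ F t := fun t =>
    mul_nonneg (Real.smoothTransition.nonneg _) (Real.smoothTransition.nonneg _)
  have hF1 : ∀ t, F t ≤ 1 := fun t =>
    mul_le_one₀ (Real.smoothTransition.le_one _) (Real.smoothTransition.nonneg _)
      (Real.smoothTransition.le_one _)
  have hFs : ∀ t, F t ≠ 0 → a < t ∧ t < b := by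
    intro t ht
    constructor
    · by_contra h
      push Not at h
      apply ht
      have : Real.smoothTransition ((t - a) / ε) = 0 :=
        Real.smoothTransition.zero_of_nonpos (div_nonpos_of_nonpos_of_nonneg (by linarith) hε.le)
      simp [F, this]
    · by_contra h
      push Not at h
      apply ht
      have : Real.smoothTransition ((b - t) / ε) = 0 :=
        Real.smoothTransition.zero_of_nonpos (div_nonpos_of_nonpos_of_nonneg (by linarith) hε.le)
      simp [F, this]
  have hFp : ∀ t ∈ Set.Icc (a + ε) (b - ε), F t = 1 := by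
    intro t ht
    have h1 : Real.smoothTransition ((t - a) / ε) = 1 :=
      Real.smoothTransition.one_of_one_le (by rw [le_div_iff₀ hε]; linarith [ht.1])
    have h2 : Real.smoothTransition ((b - t) / ε) = 1 :=
      Real.smoothTransition.one_of_one_le (by rw [le_div_iff₀ hε]; linarith [ht.2])
    simp [F, h1, h2]
  have hsm : ContDiff ℝ ∞ F := by
    apply ContDiff.mul
    · exact Real.smoothTransition.contDiff.comp (by fun_prop)
    · exact Real.smoothTransition.contDiff.comp (by fun_prop)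
  have hcs : HasCompactSupport F := by
    refine HasCompactSupport.intro (isCompact_Icc (a := a) (b := b)) fun x hx => ?_
    by_contra h
    exact hx ⟨(hFs x h).1.le, (hFs x h).2.le⟩
  have hint : Integrable F := hsm.continuous.integrable_of_hasCompactSupport hcs
  refine ⟨F, ⟨hsm, hFs⟩, hF0, hF1, hFp, ?_, ?_⟩
  · have h1 : ∫ t, F t ≤ ∫ t, (Set.Icc a b).indicator (fun _ => (1 : ℝ)) t := by
      apply integral_mono hint
      · rw [integrable_indicator_iff measurableSet_Icc]
        exact integrableOn_const (by simp)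
      · intro t
        by_cases ht : t ∈ Set.Icc a b
        · rw [Set.indicator_of_mem ht]; exact hF1 t
        · rw [Set.indicator_of_notMem ht]
          have : F t = 0 := by
            by_contra h
            exact ht ⟨(hFs t h).1.le, (hFs t h).2.le⟩
          exact this.le
    rw [integral_indicator measurableSet_Icc] at h1
    simpa [hab] using h1
  · by_cases h0 : b - a - 2 * ε ≤ 0
    · exact h0.trans (integral_nonneg hF0)
    · push Not at h0
      have h1 : ∫ t, (Set.Icc (a + ε) (b - ε)).indicator (fun _ => (1 : ℝ)) t ≤ ∫ t, F t := by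
        apply integral_mono _ hint
        · intro t
          by_cases ht : t ∈ Set.Icc (a + ε) (b - ε)
          · rw [Set.indicator_of_mem ht, hFp t ht]
          · rw [Set.indicator_of_notMem ht]; exact hF0 t
        · rw [integrable_indicator_iff measurableSet_Icc]
          exact integrableOn_const (by simp)
      rw [integral_indicator measurableSet_Icc] at h1
      have h2 : ∫ _ in Set.Icc (a + ε) (b - ε), (1 : ℝ) = b - a - 2 * ε := by
        simp only [integral_const, MeasurableSet.univ, measureReal_restrict_apply, Set.univ_inter,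
          Real.volume_real_Icc, smul_eq_mul, mul_one]
        rw [max_eq_left (by linarith)]
        ring
      linarith

theorem exists_F (η : ℝ) (hη : 0 < η) :
    ∃ F : ℝ → ℝ, Bump F (1 / 2) 4 ∧ (∀ t, 0 ≤ F t) ∧ (∀ t ∈ Set.Icc (1 : ℝ) 2, 1 ≤ F t) ∧
      ∫ t, F t ≤ 1 + η := by
  set ε : ℝ := min (η / 2) (1 / 4) with hε
  have hε0 : 0 < ε := lt_min (by positivity) (by norm_num)
  have hε1 : ε ≤ η / 2 := min_le_left _ _
  have hε2 : ε ≤ 1 / 4 := min_le_right _ _
  obtain ⟨F, h1, h2, -, h4, h5, -⟩ := plateau (1 - ε) (2 + ε) ε (by linarith) hε0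
  refine ⟨F, ⟨h1.smooth, fun t ht => ?_⟩, h2, fun t ht => ?_, by linarith⟩
  · have := h1.supp t ht
    constructor <;> linarith
  · rw [h4 t ⟨by linarith [ht.1], by linarith [ht.2]⟩]

theorem exists_Fm (η : ℝ) (hη : 0 < η) :
    ∃ F : ℝ → ℝ, Bump F 1 2 ∧ (∀ t, 0 ≤ F t) ∧ (∀ t, F t ≤ 1) ∧ 1 - η ≤ ∫ t, F t := by
  obtain ⟨F, h1, h2, h3, -, -, h6⟩ := plateau 1 2 (η / 2) (by norm_num) (by positivity)
  exact ⟨F, h1, h2, h3, by linarith⟩

end Pool.Agent.MP0016c7.Rz
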