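import Mathlib
import Pool.Agent.Lib.MP_0016c7_nt.Rz.Defs

set_option autoImplicit false

/-!
Basic facts on the kernel `kap`, the tail integral `HH`, and the representation of the mollified
process by the function `kpPhi`.
-/

open Finset MeasureTheory Filter Topology
open scoped Real ContDiff

namespace Pool.Agent.MP0016c7.Rz

/-! ### The kernel `kap` -/

lemma kap_pos (c x : ℝ) : 0 < kap c x := Real.exp_pos _

lemma continuous_kap (c : ℝ) : Continuous (kap c) := by
  unfold kap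
  fun_prop

/-- `kap c x * e^{kx} ≤ C e^{-|x|/2}` for `c ≥ 0`, `k ≥ 0`. -/
lemma kap_mul_exp_le {c : ℝ} (hc : 0 ≤ c) {k : ℝ} (hk : 0 ≤ k) (x : ℝ) :
    kap c x * Real.exp (k * x) ≤
      Real.exp ((c + k + 3 / 2) ^ 2 / 8) * Real.exp (-(1 / 2) * |x|) := by
  unfold kap
  rw [← Real.exp_add, ← Real.exp_add]
  apply Real.exp_le_exp.mpr
  rcases le_total x 0 with hx | hx
  · rw [abs_of_nonpos hx]
    have h1 : 0 ≤ π * Real.exp (2 * x) := by positivity
    have h2 : (c + k) * x ≤ 0 := mul_nonpos_of_nonneg_of_nonpos (by linarith) hx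
    have h3 : 0 ≤ (c + k + 3 / 2) ^ 2 / 8 := by positivity
    nlinarith
  · rw [abs_of_nonneg hx]
    have h1 : 1 + 2 * x + (2 * x) ^ 2 / 2 ≤ Real.exp (2 * x) :=
      Real.quadratic_le_exp_of_nonneg (by linarith)
    have h2 : (1 : ℝ) ≤ π := by linarith [Real.pi_gt_three]
    have h3 : Real.exp (2 * x) ≤ π * Real.exp (2 * x) := by
      nlinarith [Real.exp_pos (2 * x)]
    nlinarith [sq_nonneg ((c + k + 3 / 2) - 4 * x)]

lemma integrable_exp_neg_abs {a : ℝ} (ha : 0 < a) :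
    Integrable (fun x : ℝ => Real.exp (-a * |x|)) := by
  have h1 : IntegrableOn (fun x : ℝ => Real.exp (-a * |x|)) (Set.Ioi 0) := by
    have := exp_neg_integrableOn_Ioi 0 (b := a) ha
    refine this.congr_fun (fun x hx => ?_) measurableSet_Ioi
    rw [abs_of_pos hx]
  have h2 : IntegrableOn (fun x : ℝ => Real.exp (-a * |x|)) (Set.Iic 0) := by
    have := integrableOn_exp_mul_Iic (a := a) ha 0
    refine this.congr_fun (fun x hx => ?_) measurableSet_Iic
    rw [abs_of_nonpos hx]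
    ring_nf
  have := h2.union h1
  rwa [Set.Iic_union_Ioi, integrableOn_univ] at this

lemma integrable_kap_mul_exp {c : ℝ} (hc : 0 ≤ c) {k : ℝ} (hk : 0 ≤ k) :
    Integrable (fun x : ℝ => kap c x * Real.exp (k * x)) := by
  refine ((integrable_exp_neg_abs (a := 1 / 2) (by norm_num)).const_mul
    (Real.exp ((c + k + 3 / 2) ^ 2 / 8))).mono'
    ((continuous_kap c).mul (by fun_prop)).aestronglyMeasurable (ae_of_all _ fun x => ?_)
  rw [Real.norm_of_nonneg (mul_nonneg (kap_pos c x).le (Real.exp_pos _).le)]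
  exact kap_mul_exp_le hc hk x

lemma integrable_kap {c : ℝ} (hc : 0 ≤ c) : Integrable (kap c) := by
  simpa using integrable_kap_mul_exp hc (le_refl (0 : ℝ))

lemma integrable_kap_mul_abs {c : ℝ} (hc : 0 ≤ c) : Integrable (fun x : ℝ => kap c x * |x|) := by
  have h1 : Integrable (fun x : ℝ => Real.exp ((c + 3 / 2) ^ 2 / 8) *
      (4 * Real.exp (-(1 / 4) * |x|))) :=
    ((integrable_exp_neg_abs (a := 1 / 4) (by norm_num)).const_mul 4).const_mul _
  refine h1.mono' ((continuous_kap c).mul continuous_abs).aestronglyMeasurable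
    (ae_of_all _ fun x => ?_)
  rw [Real.norm_of_nonneg (mul_nonneg (kap_pos c x).le (abs_nonneg _))]
  have h2 := kap_mul_exp_le hc (le_refl (0 : ℝ)) x
  simp only [zero_mul, Real.exp_zero, mul_one, add_zero] at h2
  have h3 : |x| ≤ 4 * Real.exp (1 / 4 * |x|) := by
    have := Real.add_one_le_exp (1 / 4 * |x|)
    linarith
  calc kap c x * |x| ≤ (Real.exp ((c + 3 / 2) ^ 2 / 8) * Real.exp (-(1 / 2) * |x|)) *
        (4 * Real.exp (1 / 4 * |x|)) := by gcongr
    _ = Real.exp ((c + 3 / 2) ^ 2 / 8) * (4 * (Real.exp (-(1 / 2) * |x|) *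
          Real.exp (1 / 4 * |x|))) := by ring
    _ = _ := by
        rw [← Real.exp_add]
        ring_nf

lemma Gam0_pos {c : ℝ} (hc : 0 ≤ c) : 0 < Gam0 c := by
  unfold Gam0
  rw [integral_pos_iff_support_of_nonneg (fun x => (kap_pos c x).le) (integrable_kap hc)]
  have : Function.support (fun x => kap c x) = Set.univ := by
    ext x
    simp [(kap_pos c x).ne']
  rw [this]
  simp

/-! ### The tail integral `HH` -/

lemma Bump.continuous' {F : ℝ → ℝ} {a b : ℝ} (hF : Bump F a b) : Continuous F :=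
  hF.smooth.continuous

lemma Bump.eq_zero {F : ℝ → ℝ} {a b : ℝ} (hF : Bump F a b) {t : ℝ} (ht : t ≤ a ∨ b ≤ t) :
    F t = 0 := by
  by_contra h
  have := hF.supp t h
  rcases ht with h1 | h1 <;> linarith

lemma Bump.hasCompactSupport {F : ℝ → ℝ} {a b : ℝ} (hF : Bump F a b) : HasCompactSupport F := by
  refine HasCompactSupport.intro (isCompact_Icc (a := a) (b := b)) fun x hx => ?_
  apply hF.eq_zero
  rw [Set.mem_Icc, not_and_or, not_le, not_le] at hx
  rcases hx with h | h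
  · exact Or.inl h.le
  · exact Or.inr h.le

lemma Bump.integrable {F : ℝ → ℝ} {a b : ℝ} (hF : Bump F a b) : Integrable F :=
  hF.continuous'.integrable_of_hasCompactSupport hF.hasCompactSupport

lemma Bump.exists_abs_le {F : ℝ → ℝ} {a b : ℝ} (hF : Bump F a b) : ∃ C : ℝ, 0 < C ∧ ∀ t, |F t| ≤ C := by
  obtain ⟨C, hC⟩ := hF.hasCompactSupport.exists_bound_of_continuous hF.continuous'
  exact ⟨|C| + 1, by positivity, fun t => by
    have := hC t
    rw [Real.norm_eq_abs] at this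
    linarith [le_abs_self C]⟩

lemma HH_abs_le {h : ℝ → ℝ} {a b : ℝ} (hh : Bump h a b) (v : ℝ) : |HH h v| ≤ ∫ t, |h t| := by
  unfold HH
  calc |∫ t in Set.Ioi v, h t| ≤ ∫ t in Set.Ioi v, |h t| := by
        have := norm_integral_le_integral_norm (μ := volume.restrict (Set.Ioi v)) h
        simpa [Real.norm_eq_abs] using this
    _ ≤ ∫ t, |h t| := setIntegral_le_integral hh.integrable.abs (ae_of_all _ fun t => abs_nonneg _)

lemma HH_lipschitz {h : ℝ → ℝ} {a b : ℝ} (hh : Bump h a b) : ∃ C : ℝ, 0 < C ∧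
    ∀ v w, |HH h v - HH h w| ≤ C * |v - w| := by
  obtain ⟨C, hC0, hC⟩ := hh.exists_abs_le
  refine ⟨C, hC0, ?_⟩
  have key : ∀ v w, v ≤ w → |HH h v - HH h w| ≤ C * |v - w| := by
    intro v w hvw
    unfold HH
    rw [intervalIntegral.integral_Ioi_sub_Ioi hh.integrable.integrableOn hvw]
    have := intervalIntegral.norm_integral_le_of_norm_le_const (a := v) (b := w) (C := C) (f := h)
      (fun x _ => by simpa [Real.norm_eq_abs] using hC x)
    rw [Real.norm_eq_abs] at this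
    rwa [abs_sub_comm v w]
  intro v w
  rcases le_total v w with h1 | h1
  · exact key v w h1
  · rw [abs_sub_comm, abs_sub_comm v w]
    exact key w v h1

lemma continuous_HH {h : ℝ → ℝ} {a b : ℝ} (hh : Bump h a b) : Continuous (HH h) := by
  obtain ⟨C, hC0, hC⟩ := HH_lipschitz hh
  rw [Metric.continuous_iff]
  intro x ε hε
  refine ⟨ε / C, by positivity, fun y hy => ?_⟩
  rw [Real.dist_eq] at hy ⊢
  calc |HH h y - HH h x| ≤ C * |y - x| := hC y x
    _ < C * (ε / C) := by gcongr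
    _ = ε := by field_simp

lemma HH_eq_zero' {h : ℝ → ℝ} {a θ : ℝ} (hh : Bump h a θ) {v : ℝ} (hv : θ ≤ v) : HH h v = 0 := by
  unfold HH
  rw [setIntegral_congr_fun (g := fun _ => (0 : ℝ)) measurableSet_Ioi]
  · simp
  · intro t ht
    exact hh.eq_zero (Or.inr (hv.trans (le_of_lt ht)))

lemma HH_nonneg {h : ℝ → ℝ} (hn : ∀ t, 0 ≤ h t) (v : ℝ) : 0 ≤ HH h v :=
  setIntegral_nonneg measurableSet_Ioi fun t _ => hn t

/-! ### The coefficients and the function `kpPhi` -/

/-- The coefficient of the pair `p = (n, l)`. -/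
noncomputable def kpA (σ : ℤ) (d : ℕ) (p : ℕ × ℕ) : ℝ :=
  (ArithmeticFunction.moebius p.2 : ℝ) * jr (2 * σ * d) (p.1 * p.2) / √((p.1 : ℝ) * p.2)

/-- The shifted tail integral of the pair `p = (n, l)`. -/
noncomputable def kpH (h : ℝ → ℝ) (L t : ℝ) (p : ℕ × ℕ) : ℝ :=
  HH h (Real.log p.2 / L + |t + Real.log p.1 / L|)

/-- The sum over all pairs. -/
noncomputable def kpPhi (σ : ℤ) (d : ℕ) (h : ℝ → ℝ) (L t : ℝ) : ℝ :=
  ∑' p : ℕ × ℕ, kpA σ d p * kpH h L t p

/-- The majorant of the coefficients in `l`. -/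
noncomputable def kpG (θ L : ℝ) (l : ℕ) : ℝ := if 1 ≤ l ∧ Real.log l < θ * L then 1 else 0

/-- The majorant of the coefficients. -/
noncomputable def kpC (θ L : ℝ) (p : ℕ × ℕ) : ℝ := (1 / (p.1 : ℝ) ^ 2) * kpG θ L p.2

lemma abs_jr_le (k : ℤ) (n : ℕ) : |jr k n| ≤ 1 := by
  unfold jr
  split_ifs
  · rcases jacobiSym.trichotomy k n with h | h | h <;> rw [h] <;> norm_num
  · norm_num

lemma jr_one (k : ℤ) : jr k 1 = 1 := by
  unfold jr
  simp

lemma kpA_eq_zero {σ : ℤ} {d : ℕ} {p : ℕ × ℕ} (hp : p.1 = 0 ∨ p.2 = 0) : kpA σ d p = 0 := by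
  unfold kpA
  rcases hp with h | h <;> simp [h]

lemma abs_kpA_le (σ : ℤ) (d : ℕ) (p : ℕ × ℕ) : |kpA σ d p| ≤ 1 := by
  rcases Nat.eq_zero_or_pos p.1 with h1 | h1
  · rw [kpA_eq_zero (Or.inl h1)]; simp
  rcases Nat.eq_zero_or_pos p.2 with h2 | h2
  · rw [kpA_eq_zero (Or.inr h2)]; simp
  unfold kpA
  have h3 : (1 : ℝ) ≤ √((p.1 : ℝ) * p.2) := by
    rw [Real.one_le_sqrt]
    have h1' : (1 : ℝ) ≤ p.1 := by exact_mod_cast h1
    have h2' : (1 : ℝ) ≤ p.2 := by exact_mod_cast h2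
    nlinarith
  have h4 : |(ArithmeticFunction.moebius p.2 : ℝ)| ≤ 1 := by
    have := ArithmeticFunction.abs_moebius_le_one (n := p.2)
    exact_mod_cast this
  rw [abs_div, abs_mul, abs_of_nonneg (Real.sqrt_nonneg _), div_le_one (by linarith)]
  have h5 := abs_jr_le (2 * σ * d) (p.1 * p.2)
  calc |(ArithmeticFunction.moebius p.2 : ℝ)| * |jr (2 * σ * d) (p.1 * p.2)| ≤ 1 * 1 := by gcongr
    _ ≤ _ := by linarith

lemma kpG_nonneg (θ L : ℝ) (l : ℕ) : 0 ≤ kpG θ L l := by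
  unfold kpG
  split_ifs <;> norm_num

lemma kpG_support (θ L : ℝ) : ∀ l ∉ Finset.Icc 1 ⌊Real.exp (θ * L)⌋₊, kpG θ L l = 0 := by
  intro l hl
  unfold kpG
  rw [if_neg]
  intro h
  apply hl
  rw [Finset.mem_Icc]
  refine ⟨h.1, Nat.le_floor ?_⟩
  have hl' : (0 : ℝ) < l := by exact_mod_cast h.1
  rw [← Real.log_le_iff_le_exp hl']
  exact h.2.le

lemma summable_kpG (θ L : ℝ) : Summable (kpG θ L) :=
  summable_of_ne_finset_zero (kpG_support θ L)

lemma summable_kpC (θ L : ℝ) : Summable (kpC θ L) := by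
  have h1 : Summable (fun n : ℕ => 1 / (n : ℝ) ^ 2) := Real.summable_one_div_nat_pow.mpr (by norm_num)
  exact Summable.mul_of_nonneg (f := fun n : ℕ => 1 / (n : ℝ) ^ 2) (g := kpG θ L) h1
    (summable_kpG θ L) (fun n => by simp only [Pi.zero_apply]; positivity) (kpG_nonneg θ L)

lemma kpC_nonneg (θ L : ℝ) (p : ℕ × ℕ) : 0 ≤ kpC θ L p :=
  mul_nonneg (by positivity) (kpG_nonneg θ L _)

lemma tsum_kpG_le {θ L : ℝ} : ∑' l, kpG θ L l ≤ Real.exp (θ * L) := by
  rw [tsum_eq_sum (kpG_support θ L)]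
  calc ∑ l ∈ Finset.Icc 1 ⌊Real.exp (θ * L)⌋₊, kpG θ L l
      ≤ ∑ l ∈ Finset.Icc 1 ⌊Real.exp (θ * L)⌋₊, (1 : ℝ) :=
        Finset.sum_le_sum fun l _ => by unfold kpG; split_ifs <;> norm_num
    _ = ⌊Real.exp (θ * L)⌋₊ := by simp
    _ ≤ Real.exp (θ * L) := Nat.floor_le (Real.exp_pos _).le

lemma tsum_kpC_le {θ L : ℝ} : ∑' p, kpC θ L p ≤ 2 * Real.exp (θ * L) := by
  have h1 : Summable (fun n : ℕ => 1 / (n : ℝ) ^ 2) := Real.summable_one_div_nat_pow.mpr (by norm_num)
  have h4 : ∑' n : ℕ, 1 / (n : ℝ) ^ 2 ≤ 2 := by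
    have h5 := hasSum_zeta_two
    rw [h5.tsum_eq]
    have := Real.pi_lt_d2
    nlinarith [Real.pi_pos]
  have h6 : ∑' p, kpC θ L p = (∑' n : ℕ, 1 / (n : ℝ) ^ 2) * ∑' l : ℕ, kpG θ L l :=
    (h1.tsum_mul_tsum (summable_kpG θ L) (summable_kpC θ L)).symm
  rw [h6]
  exact mul_le_mul h4 tsum_kpG_le (tsum_nonneg fun l => kpG_nonneg θ L l) (by norm_num)

/-- The basic majorant of the terms. -/
lemma abs_kpA_mul_kpH_le {h : ℝ → ℝ} {θ L : ℝ} (hh : Bump h 0 θ) (hL : 0 < L) (σ : ℤ) (d : ℕ)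
    (t : ℝ) (p : ℕ × ℕ) :
    |kpA σ d p * kpH h L t p| ≤
      (∫ x, |h x|) * Real.exp (2 * θ * L) * kpC θ L p * Real.exp (-2 * t * L) := by
  have hI : 0 ≤ ∫ x, |h x| := integral_nonneg fun x => abs_nonneg _
  have hR : 0 ≤ (∫ x, |h x|) * Real.exp (2 * θ * L) * kpC θ L p * Real.exp (-2 * t * L) := by
    have := kpC_nonneg θ L p
    positivity
  rcases Nat.eq_zero_or_pos p.1 with h1 | h1
  · rw [kpA_eq_zero (Or.inl h1)]; simpa using hR
  rcases Nat.eq_zero_or_pos p.2 with h2 | h2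
  · rw [kpA_eq_zero (Or.inr h2)]; simpa using hR
  by_cases hz : θ ≤ Real.log p.2 / L + |t + Real.log p.1 / L|
  · unfold kpH
    rw [HH_eq_zero' hh hz]
    simpa using hR
  · push Not at hz
    have hl0 : 0 ≤ Real.log p.2 / L :=
      div_nonneg (Real.log_nonneg (by exact_mod_cast h2)) hL.le
    have ha0 := abs_nonneg (t + Real.log p.1 / L)
    have hl : Real.log p.2 < θ * L := by
      rw [← div_lt_iff₀ hL]
      linarith
    have hn : t + Real.log p.1 / L < θ := by
      linarith [le_abs_self (t + Real.log p.1 / L)]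
    have hn' : t * L + Real.log p.1 < θ * L := by
      have := mul_lt_mul_of_pos_right hn hL
      rw [add_mul, div_mul_cancel₀ _ hL.ne'] at this
      exact this
    have hp1 : (0 : ℝ) < p.1 := by exact_mod_cast h1
    have h3 : |kpH h L t p| ≤ ∫ x, |h x| := HH_abs_le hh _
    have h4 : (1 : ℝ) ≤ Real.exp (2 * θ * L) * (1 / (p.1 : ℝ) ^ 2) * Real.exp (-2 * t * L) := by
      have h5 : (1 / (p.1 : ℝ) ^ 2) = Real.exp (-2 * Real.log p.1) := by
        rw [show -2 * Real.log p.1 = -(Real.log p.1 * 2) by ring, Real.exp_neg, Real.exp_mul,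
          Real.exp_log hp1]
        norm_num
      rw [h5, ← Real.exp_add, ← Real.exp_add]
      rw [Real.one_le_exp_iff]
      linarith
    unfold kpC kpG
    rw [if_pos ⟨h2, hl⟩, mul_one, abs_mul]
    calc |kpA σ d p| * |kpH h L t p| ≤ 1 * ∫ x, |h x| := by
          gcongr
          exact abs_kpA_le σ d p
      _ = (∫ x, |h x|) * 1 := by ring
      _ ≤ (∫ x, |h x|) * (Real.exp (2 * θ * L) * (1 / (p.1 : ℝ) ^ 2) * Real.exp (-2 * t * L)) := by
          gcongr
      _ = _ := by ring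

lemma summable_kpPhi {h : ℝ → ℝ} {θ L : ℝ} (hh : Bump h 0 θ) (hL : 0 < L) (σ : ℤ) (d : ℕ)
    (t : ℝ) : Summable (fun p => kpA σ d p * kpH h L t p) := by
  have h1 : Summable (fun p => (∫ x, |h x|) * Real.exp (2 * θ * L) * kpC θ L p *
      Real.exp (-2 * t * L)) := ((summable_kpC θ L).mul_left _).mul_right _
  exact h1.of_norm_bounded (fun p => by
    rw [Real.norm_eq_abs]
    exact abs_kpA_mul_kpH_le hh hL σ d t p)

lemma abs_kpPhi_le {h : ℝ → ℝ} {θ L : ℝ} (hh : Bump h 0 θ) (hL : 0 < L) (σ : ℤ) (d : ℕ)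
    (t : ℝ) : |kpPhi σ d h L t| ≤ 2 * (∫ x, |h x|) * Real.exp (3 * θ * L) * Real.exp (-2 * t * L) := by
  have h1 : Summable (fun p => (∫ x, |h x|) * Real.exp (2 * θ * L) * kpC θ L p *
      Real.exp (-2 * t * L)) := ((summable_kpC θ L).mul_left _).mul_right _
  unfold kpPhi
  have hI : 0 ≤ ∫ x, |h x| := integral_nonneg fun x => abs_nonneg _
  calc |∑' p, kpA σ d p * kpH h L t p| ≤ ∑' p, (∫ x, |h x|) * Real.exp (2 * θ * L) * kpC θ L p *
      Real.exp (-2 * t * L) := by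
        have := tsum_of_norm_bounded h1.hasSum (fun p => by
          rw [Real.norm_eq_abs]
          exact abs_kpA_mul_kpH_le hh hL σ d t p)
        rwa [Real.norm_eq_abs] at this
    _ = (∫ x, |h x|) * Real.exp (2 * θ * L) * (∑' p, kpC θ L p) * Real.exp (-2 * t * L) := by
        rw [tsum_mul_right, tsum_mul_left]
    _ ≤ (∫ x, |h x|) * Real.exp (2 * θ * L) * (2 * Real.exp (θ * L)) * Real.exp (-2 * t * L) := by
        gcongr
        exact tsum_kpC_le
    _ = 2 * (∫ x, |h x|) * (Real.exp (2 * θ * L) * Real.exp (θ * L)) * Real.exp (-2 * t * L) := by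
        ring
    _ = _ := by
        rw [← Real.exp_add]
        congr 3
        ring

lemma continuous_kpH {h : ℝ → ℝ} {a θ : ℝ} (hh : Bump h a θ) (L : ℝ) (p : ℕ × ℕ) :
    Continuous (fun t => kpH h L t p) := by
  unfold kpH
  exact (continuous_HH hh).comp (by fun_prop)

lemma continuous_kpPhi {h : ℝ → ℝ} {θ L : ℝ} (hh : Bump h 0 θ) (hL : 0 < L) (σ : ℤ) (d : ℕ) :
    Continuous (kpPhi σ d h L) := by
  rw [continuous_iff_continuousAt]
  intro t₀
  have h1 : ContinuousOn (kpPhi σ d h L) (Set.Ioi (t₀ - 1)) := by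
    unfold kpPhi
    refine continuousOn_tsum (u := fun p => (∫ x, |h x|) * Real.exp (2 * θ * L) * kpC θ L p *
      Real.exp (-2 * (t₀ - 1) * L)) (fun p => ?_) (((summable_kpC θ L).mul_left _).mul_right _) ?_
    · exact (continuous_const.mul (continuous_kpH hh L p)).continuousOn
    · intro p t ht
      rw [Real.norm_eq_abs]
      refine (abs_kpA_mul_kpH_le hh hL σ d t p).trans ?_
      have hI : 0 ≤ ∫ x, |h x| := integral_nonneg fun x => abs_nonneg _
      have hC := kpC_nonneg θ L p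
      have ht' : t₀ - 1 < t := ht
      have h3 : Real.exp (-2 * t * L) ≤ Real.exp (-2 * (t₀ - 1) * L) := by
        apply Real.exp_le_exp.mpr
        nlinarith
      gcongr
  exact h1.continuousAt (Ioi_mem_nhds (by linarith))

lemma sum_moebius_antidiagonal (m : ℕ) :
    ∑ p ∈ m.divisorsAntidiagonal, (ArithmeticFunction.moebius p.2 : ℝ) = if m = 1 then 1 else 0 := by
  have h1 := congrArg (fun f => f m) ArithmeticFunction.coe_zeta_mul_moebius
  simp only [ArithmeticFunction.mul_apply, ArithmeticFunction.one_apply] at h1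
  have h2 : ∑ p ∈ m.divisorsAntidiagonal, (ArithmeticFunction.moebius p.2 : ℤ) =
      if m = 1 then 1 else 0 := by
    rw [← h1]
    refine Finset.sum_congr rfl fun p hp => ?_
    have hp1 : p.1 ≠ 0 := by
      rw [Nat.mem_divisorsAntidiagonal] at hp
      intro h
      rw [h, zero_mul] at hp
      exact hp.2 hp.1.symm
    rw [ArithmeticFunction.natCoe_apply, ArithmeticFunction.zeta_apply_ne hp1]
    simp
  have h3 := congrArg (fun x : ℤ => (x : ℝ)) h2
  push_cast at h3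
  rw [h3]

/-- Deterministic regime. -/
lemma kpPhi_of_nonneg {h : ℝ → ℝ} {a θ L t : ℝ} (hh : Bump h a θ) (hL : 0 < L) (ht : 0 ≤ t) (σ : ℤ)
    (d : ℕ) : kpPhi σ d h L t = HH h t := by
  set F : ℕ → ℝ := fun m => jr (2 * σ * d) m / √(m : ℝ) * HH h (t + Real.log m / L) with hF
  have hF0 : F 0 = 0 := by simp [hF]
  have hterm : ∀ p : ℕ × ℕ, kpA σ d p * kpH h L t p =
      (ArithmeticFunction.moebius p.2 : ℝ) * F (p.1 * p.2) := by
    intro p
    rcases Nat.eq_zero_or_pos p.1 with h1 | h1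
    · rw [kpA_eq_zero (Or.inl h1), h1, zero_mul, zero_mul, hF0, mul_zero]
    rcases Nat.eq_zero_or_pos p.2 with h2 | h2
    · rw [kpA_eq_zero (Or.inr h2), h2, zero_mul, mul_zero, hF0, mul_zero]
    have hp1 : (0 : ℝ) < p.1 := by exact_mod_cast h1
    have hp2 : (0 : ℝ) < p.2 := by exact_mod_cast h2
    have h3 : 0 ≤ t + Real.log p.1 / L :=
      add_nonneg ht (div_nonneg (Real.log_nonneg (by exact_mod_cast h1)) hL.le)
    simp only [kpA, kpH, hF]
    rw [abs_of_nonneg h3]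
    push_cast
    rw [Real.log_mul hp1.ne' hp2.ne']
    have h4 : Real.log p.2 / L + (t + Real.log p.1 / L) = t + (Real.log p.1 + Real.log p.2) / L := by
      ring
    rw [h4]
    ring
  have hsupp : ∀ m : ℕ, ⌊Real.exp (θ * L)⌋₊ < m → F m = 0 := by
    intro m hm
    have hm0 : (0 : ℝ) < m := by
      have : 0 < m := by omega
      exact_mod_cast this
    have h1 : Real.exp (θ * L) < m := (Nat.floor_lt (Real.exp_pos _).le).mp hm
    have h2 : θ * L < Real.log m := (Real.lt_log_iff_exp_lt hm0).mpr h1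
    have h3 : θ < Real.log m / L := (lt_div_iff₀ hL).mpr h2
    simp only [hF]
    rw [HH_eq_zero' hh (by linarith)]
    simp
  set M := ⌊Real.exp (θ * L)⌋₊ with hM
  unfold kpPhi
  rw [tsum_congr hterm]
  rw [tsum_eq_sum (s := (Finset.Icc 1 (M + 1)).biUnion fun m => m.divisorsAntidiagonal)]
  · rw [Finset.sum_biUnion]
    · have h1 : ∀ m ∈ Finset.Icc 1 (M + 1), ∑ p ∈ m.divisorsAntidiagonal,
          (ArithmeticFunction.moebius p.2 : ℝ) * F (p.1 * p.2) = if m = 1 then F 1 else 0 := by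
        intro m hm
        have hm1 : m ≠ 0 := by
          rw [Finset.mem_Icc] at hm
          omega
        have h2 : ∑ p ∈ m.divisorsAntidiagonal, (ArithmeticFunction.moebius p.2 : ℝ) * F (p.1 * p.2) =
            (∑ p ∈ m.divisorsAntidiagonal, (ArithmeticFunction.moebius p.2 : ℝ)) * F m := by
          rw [Finset.sum_mul]
          refine Finset.sum_congr rfl fun p hp => ?_
          rw [(Nat.mem_divisorsAntidiagonal.mp hp).1]
        rw [h2, sum_moebius_antidiagonal m]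
        split_ifs with h3
        · rw [h3, one_mul]
        · rw [zero_mul]
      rw [Finset.sum_congr rfl h1, Finset.sum_ite_eq', if_pos (by rw [Finset.mem_Icc]; omega)]
      simp only [hF]
      rw [jr_one]
      simp
    · intro m _ m' _ hmm
      rw [Function.onFun, Finset.disjoint_left]
      intro p hp hp'
      apply hmm
      rw [← (Nat.mem_divisorsAntidiagonal.mp hp).1, ← (Nat.mem_divisorsAntidiagonal.mp hp').1]
  · intro p hp
    by_cases h1 : p.1 * p.2 = 0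
    · rw [h1, hF0, mul_zero]
    · rw [hsupp (p.1 * p.2), mul_zero]
      by_contra h2
      apply hp
      rw [Finset.mem_biUnion]
      refine ⟨p.1 * p.2, ?_, ?_⟩
      · rw [Finset.mem_Icc]
        omega
      · rw [Nat.mem_divisorsAntidiagonal]
        exact ⟨rfl, h1⟩

/-! ### The representation of `ytil` -/

/-- The integrand of the representation. -/
noncomputable def kpF (c : ℝ) (σ : ℤ) (ρ h : ℝ → ℝ) (L : ℝ) (d : ℕ) (Y : ℝ) (z : ℝ × ℝ) : ℝ :=
  kap c z.1 * ρ z.2 * kpPhi σ d h L (z.2 - Y - z.1 / L)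

lemma kp_exp_identity {L Y : ℝ} (hL : 0 < L) (x y : ℝ) :
    Real.exp (-2 * (y - Y - x / L) * L) = Real.exp (2 * x) * Real.exp (2 * L * (Y - y)) := by
  rw [← Real.exp_add]
  congr 1
  field_simp
  ring

lemma integrable_kp_majorant {c : ℝ} (hc : 0 ≤ c) {k : ℝ} (hk : 0 ≤ k) {ρ : ℝ → ℝ} {a b : ℝ}
    (hρ : Bump ρ a b) (L Y : ℝ) :
    Integrable (fun z : ℝ × ℝ => (kap c z.1 * Real.exp (k * z.1)) *
      (|ρ z.2| * Real.exp (2 * L * (Y - z.2)))) (volume.prod volume) := by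
  have h2 : Integrable (fun y : ℝ => |ρ y| * Real.exp (2 * L * (Y - y))) := by
    refine Continuous.integrable_of_hasCompactSupport ?_ ?_
    · exact hρ.continuous'.abs.mul (by fun_prop)
    · refine HasCompactSupport.mul_right ?_
      exact hρ.hasCompactSupport.norm
  exact (integrable_kap_mul_exp hc hk).mul_prod h2

lemma integrable_kap_mul_bump {c : ℝ} (hc : 0 ≤ c) {k : ℝ} (hk : 0 ≤ k) {ρ : ℝ → ℝ} {a b : ℝ}
    (hρ : Bump ρ a b) :
    Integrable (fun z : ℝ × ℝ => (kap c z.1 * Real.exp (k * z.1)) * |ρ z.2|)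
      (volume.prod volume) :=
  (integrable_kap_mul_exp hc hk).mul_prod hρ.integrable.abs

lemma continuous_kpF {c : ℝ} {ρ h : ℝ → ℝ} {a b θ L : ℝ} (hρ : Bump ρ a b) (hh : Bump h 0 θ)
    (hL : 0 < L) (σ : ℤ) (d : ℕ) (Y : ℝ) : Continuous (kpF c σ ρ h L d Y) := by
  unfold kpF
  refine (((continuous_kap c).comp continuous_fst).mul (hρ.continuous'.comp continuous_snd)).mul ?_
  exact (continuous_kpPhi hh hL σ d).comp (by fun_prop)

lemma abs_kpF_le {c : ℝ} {ρ h : ℝ → ℝ} {θ L : ℝ} (hh : Bump h 0 θ)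
    (hL : 0 < L) (σ : ℤ) (d : ℕ) (Y : ℝ) (z : ℝ × ℝ) :
    |kpF c σ ρ h L d Y z| ≤ 2 * (∫ x, |h x|) * Real.exp (3 * θ * L) *
      ((kap c z.1 * Real.exp (2 * z.1)) * (|ρ z.2| * Real.exp (2 * L * (Y - z.2)))) := by
  unfold kpF
  rw [abs_mul, abs_mul, abs_of_pos (kap_pos c z.1)]
  have h1 := abs_kpPhi_le hh hL σ d (z.2 - Y - z.1 / L)
  rw [kp_exp_identity hL] at h1
  have h2 := (kap_pos c z.1).le
  calc kap c z.1 * |ρ z.2| * |kpPhi σ d h L (z.2 - Y - z.1 / L)| ≤
      kap c z.1 * |ρ z.2| * (2 * (∫ x, |h x|) * Real.exp (3 * θ * L) *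
        (Real.exp (2 * z.1) * Real.exp (2 * L * (Y - z.2)))) := by
        gcongr
    _ = _ := by ring

lemma integrable_kpF {c : ℝ} (hc : 0 ≤ c) {ρ h : ℝ → ℝ} {a b θ L : ℝ} (hρ : Bump ρ a b)
    (hh : Bump h 0 θ) (hL : 0 < L) (σ : ℤ) (d : ℕ) (Y : ℝ) :
    Integrable (kpF c σ ρ h L d Y) (volume.prod volume) := by
  refine ((integrable_kp_majorant hc (k := 2) (by norm_num) hρ L Y).const_mul
    (2 * (∫ x, |h x|) * Real.exp (3 * θ * L))).mono'
    (continuous_kpF hρ hh hL σ d Y).aestronglyMeasurable (ae_of_all _ fun z => ?_)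
  rw [Real.norm_eq_abs]
  exact abs_kpF_le hh hL σ d Y z

/-- The kernel as an integral over the plane. -/
lemma kL_eq_prod {c : ℝ} (hc : 0 ≤ c) {ρ h : ℝ → ℝ} {a b a' θ : ℝ} (hρ : Bump ρ a b)
    (hh : Bump h a' θ) (L z u : ℝ) :
    Integrable (fun w : ℝ × ℝ => kap c w.1 * ρ w.2 * HH h (u + |z + w.1 / L - w.2|))
      (volume.prod volume) ∧
    kL c ρ h L z u = (∫ w : ℝ × ℝ, kap c w.1 * ρ w.2 * HH h (u + |z + w.1 / L - w.2|)
      ∂(volume.prod volume)) / Gam0 c := by
  have h1 : Integrable (fun w : ℝ × ℝ => kap c w.1 * ρ w.2 * HH h (u + |z + w.1 / L - w.2|))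
      (volume.prod volume) := by
    have h2 : Integrable (fun w : ℝ × ℝ => kap c w.1 * ρ w.2) (volume.prod volume) :=
      (integrable_kap hc).mul_prod hρ.integrable
    refine h2.mul_bdd (c := ∫ t, |h t|) ?_ (ae_of_all _ fun w => ?_)
    · exact ((continuous_HH hh).comp (by fun_prop)).aestronglyMeasurable
    · rw [Real.norm_eq_abs]
      exact HH_abs_le hh _
  refine ⟨h1, ?_⟩
  unfold kL
  rw [integral_prod _ h1]

/-- The representation of the mollified process. -/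
lemma ytil_eq_kpF {c : ℝ} (hc : 0 ≤ c) {ρ h : ℝ → ℝ} {a b θ X : ℝ} (hρ : Bump ρ a b)
    (hh : Bump h 0 θ) (hX : 1 < X) (σ : ℤ) (d : ℕ) (Y : ℝ) :
    Summable (fun p : ℕ × ℕ => (ArithmeticFunction.moebius p.2 : ℝ) * jr (2 * σ * d) (p.1 * p.2) /
      √((p.1 : ℝ) * p.2) *
        kL c ρ h (Real.log X) (Y - Real.log p.1 / Real.log X) (Real.log p.2 / Real.log X)) ∧
    ytil c σ ρ h X d Y = (∫ z, kpF c σ ρ h (Real.log X) d Y z ∂(volume.prod volume)) / Gam0 c := by
  have hL : 0 < Real.log X := Real.log_pos hX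
  set L := Real.log X with hLdef
  have hterm : ∀ p : ℕ × ℕ, (ArithmeticFunction.moebius p.2 : ℝ) * jr (2 * σ * d) (p.1 * p.2) /
      √((p.1 : ℝ) * p.2) * kL c ρ h L (Y - Real.log p.1 / L) (Real.log p.2 / L) =
      (∫ z : ℝ × ℝ, kap c z.1 * ρ z.2 * (kpA σ d p * kpH h L (z.2 - Y - z.1 / L) p)
        ∂(volume.prod volume)) / Gam0 c := by
    intro p
    rw [(kL_eq_prod hc hρ hh L _ _).2, ← mul_div_assoc, ← integral_const_mul]
    congr 1
    refine integral_congr_ae (ae_of_all _ fun z => ?_)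
    simp only [kpH]
    have h1 : |Y - Real.log p.1 / L + z.1 / L - z.2| = |z.2 - Y - z.1 / L + Real.log p.1 / L| := by
      rw [← abs_neg]
      congr 1
      ring
    rw [h1]
    unfold kpA
    ring
  have hsum : HasSum (fun p : ℕ × ℕ => ∫ z : ℝ × ℝ, kap c z.1 * ρ z.2 *
      (kpA σ d p * kpH h L (z.2 - Y - z.1 / L) p) ∂(volume.prod volume))
      (∫ z, kpF c σ ρ h L d Y z ∂(volume.prod volume)) := by
    have hI : 0 ≤ ∫ x, |h x| := integral_nonneg fun x => abs_nonneg _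
    refine hasSum_integral_of_dominated_convergence (fun p z => kpC θ L p *
      ((∫ x, |h x|) * Real.exp (2 * θ * L) *
        ((kap c z.1 * Real.exp (2 * z.1)) * (|ρ z.2| * Real.exp (2 * L * (Y - z.2)))))) ?_ ?_ ?_ ?_ ?_
    · intro p
      refine Continuous.aestronglyMeasurable ?_
      refine (((continuous_kap c).comp continuous_fst).mul
        (hρ.continuous'.comp continuous_snd)).mul ?_
      exact continuous_const.mul ((continuous_kpH hh L p).comp (by fun_prop))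
    · intro p
      refine ae_of_all _ fun z => ?_
      rw [Real.norm_eq_abs, abs_mul, abs_mul, abs_of_pos (kap_pos c z.1)]
      have h1 := abs_kpA_mul_kpH_le hh hL σ d (z.2 - Y - z.1 / L) p
      rw [kp_exp_identity hL] at h1
      have h2 := (kap_pos c z.1).le
      calc kap c z.1 * |ρ z.2| * |kpA σ d p * kpH h L (z.2 - Y - z.1 / L) p| ≤
          kap c z.1 * |ρ z.2| * ((∫ x, |h x|) * Real.exp (2 * θ * L) * kpC θ L p *
            (Real.exp (2 * z.1) * Real.exp (2 * L * (Y - z.2)))) := by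
            gcongr
        _ = _ := by ring
    · exact ae_of_all _ fun z => (summable_kpC θ L).mul_right _
    · simp_rw [tsum_mul_right]
      exact ((integrable_kp_majorant hc (k := 2) (by norm_num) hρ L Y).const_mul _).const_mul _
    · refine ae_of_all _ fun z => ?_
      exact (summable_kpPhi hh hL σ d _).hasSum.mul_left _
  have hsum2 := hsum.div_const (Gam0 c)
  have hsum3 := hsum2.congr_fun (fun p => (hterm p))
  refine ⟨hsum3.summable, ?_⟩
  unfold ytil
  exact hsum3.tsum_eq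

end Pool.Agent.MP0016c7.Rz
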