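import Mathlib
import Pool.Agent.Lib.MP_0016c7_nt.Rz.Defs
import Pool.Agent.Lib.MP_0016c7_nt.Rz.DefsC
import Pool.Agent.Lib.MP_0016c7_nt.Rz.DefsF
import Pool.Agent.Lib.MP_0016c7_nt.Rz.DefsE
import Pool.Agent.Lib.MP_0016c7_nt.Rz.Ker1
import Pool.Agent.Lib.MP_0016c7_nt.Rz.KerPhi

set_option autoImplicit false

open Finset MeasureTheory Filter Topology
open scoped Real ContDiff

namespace Pool.Agent.MP0016c7.Rz

/-- The pointwise comparison. -/
private lemma ker5_pointwise {ρ h : ℝ → ℝ} {δ θ M : ℝ} (hδ : 0 < δ) (hθ : 0 < θ)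
    (hρ : Bump ρ (-(δ / 2)) (δ / 2)) (hh : Bump h 0 θ) (hM : 0 < M)
    (hlip : ∀ v w, |HH h v - HH h w| ≤ M * |v - w|) (σ : ℤ) (d : ℕ) {L : ℝ} (hL : 0 < L)
    {k : ℝ} (hk : 0 ≤ k) (hk2 : 3 * θ + 1 ≤ k * δ / 4) {Y : ℝ}
    (hY : Y ≤ -(3 * δ / 4)) (x y : ℝ) (hy : ρ y ≠ 0) :
    |kpPhi σ d h L (y - Y - x / L) - HH h (y - Y)| ≤
      M / L * |x| + 3 * (∫ x, |h x|) * Real.exp (-L) * Real.exp ((2 + k) * x) := by
  have hI : 0 ≤ ∫ x, |h x| := integral_nonneg fun x => abs_nonneg _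
  obtain ⟨hy1, hy2⟩ := hρ.supp y hy
  set t := y - Y - x / L with ht
  rcases le_or_gt 0 t with h0 | h0
  · rw [kpPhi_of_nonneg hh hL h0]
    have h1 := hlip t (y - Y)
    have h2 : |t - (y - Y)| = |x| / L := by
      rw [ht, show y - Y - x / L - (y - Y) = -(x / L) by ring, abs_neg, abs_div, abs_of_pos hL]
    rw [h2] at h1
    have h3 : 0 ≤ 3 * (∫ x, |h x|) * Real.exp (-L) * Real.exp ((2 + k) * x) := by positivity
    calc |HH h t - HH h (y - Y)| ≤ M * (|x| / L) := h1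
      _ = M / L * |x| := by ring
      _ ≤ _ := by linarith
  · have h1 := abs_kpPhi_le hh hL σ d t
    have h2 := HH_abs_le hh (y - Y)
    have hx : L * (δ / 4) ≤ x := by
      have h3 : L * (y - Y) < x := by
        have h4 : y - Y < x / L := by linarith
        rw [lt_div_iff₀ hL] at h4
        linarith
      have h5 : L * (δ / 4) ≤ L * (y - Y) := by
        apply mul_le_mul_of_nonneg_left _ hL.le
        linarith
      linarith
    have hx0 : 0 ≤ x := le_trans (by positivity) hx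
    have h3 : Real.exp (3 * θ * L) * Real.exp (-2 * t * L) ≤
        Real.exp (-L) * Real.exp ((2 + k) * x) := by
      rw [← Real.exp_add, ← Real.exp_add]
      apply Real.exp_le_exp.mpr
      have h4 : -2 * t * L = 2 * x - 2 * L * (y - Y) := by
        rw [ht]
        field_simp
        ring
      have h5 : 0 ≤ L * (y - Y) := mul_nonneg hL.le (by linarith)
      have h6 : k * (L * (δ / 4)) ≤ k * x := mul_le_mul_of_nonneg_left hx hk
      have h7 : L * (3 * θ + 1) ≤ L * (k * δ / 4) := mul_le_mul_of_nonneg_left hk2 hL.le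
      nlinarith
    have h4 : 1 ≤ Real.exp (-L) * Real.exp ((2 + k) * x) := by
      rw [← Real.exp_add, Real.one_le_exp_iff]
      have h6 : k * (L * (δ / 4)) ≤ k * x := mul_le_mul_of_nonneg_left hx hk
      have h7 : L * (3 * θ + 1) ≤ L * (k * δ / 4) := mul_le_mul_of_nonneg_left hk2 hL.le
      have h8 : 0 ≤ L * θ := by positivity
      nlinarith
    have h5 : 0 ≤ M / L * |x| := by positivity
    calc |kpPhi σ d h L t - HH h (y - Y)| ≤ |kpPhi σ d h L t| + |HH h (y - Y)| := abs_sub _ _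
      _ ≤ 2 * (∫ x, |h x|) * Real.exp (3 * θ * L) * Real.exp (-2 * t * L) + ∫ x, |h x| :=
          add_le_add h1 h2
      _ = 2 * (∫ x, |h x|) * (Real.exp (3 * θ * L) * Real.exp (-2 * t * L)) +
            (∫ x, |h x|) * 1 := by ring
      _ ≤ 2 * (∫ x, |h x|) * (Real.exp (-L) * Real.exp ((2 + k) * x)) +
            (∫ x, |h x|) * (Real.exp (-L) * Real.exp ((2 + k) * x)) := by
          gcongr
      _ = 3 * (∫ x, |h x|) * Real.exp (-L) * Real.exp ((2 + k) * x) := by ring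
      _ ≤ _ := by linarith

theorem ytil_det {ρ h : ℝ → ℝ} {δ θ : ℝ} (hδ : 0 < δ) (hθ : 0 < θ) (hρ : Bump ρ (-(δ / 2)) (δ / 2))
    (hh : Bump h 0 θ) (c : ℝ) (hc : c = 0 ∨ c = 1) (σ : ℤ) (ε : ℝ) (hε : 0 < ε) :
    ∃ X₀ : ℝ, ∀ X : ℝ, X₀ ≤ X → ∀ d : ℕ, ∀ Y ∈ Set.Icc (-1 : ℝ) (-(3 * δ / 4)),
      |ytil c σ ρ h X d Y - ∫ y : ℝ, ρ y * HH h (y - Y)| ≤ ε := by
  have hc0 : 0 ≤ c := by rcases hc with h | h <;> rw [h] <;> norm_num
  obtain ⟨M, hM, hlip⟩ := HH_lipschitz hh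
  set k : ℝ := (12 * θ + 4) / δ with hkdef
  have hk : 0 ≤ k := by positivity
  have hk2 : 3 * θ + 1 ≤ k * δ / 4 := by
    rw [hkdef, div_mul_cancel₀ _ hδ.ne']
    linarith
  have hI : 0 ≤ ∫ x, |h x| := integral_nonneg fun x => abs_nonneg _
  have hG := Gam0_pos hc0
  set A₁ := ∫ x, kap c x * |x| with hA₁
  set A₂ := ∫ x, kap c x * Real.exp ((2 + k) * x) with hA₂
  set R := ∫ y, |ρ y| with hR
  -- the limit of the bound
  have hlim : Tendsto (fun X : ℝ => R / Gam0 c * (M * A₁ * (Real.log X)⁻¹ +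
      3 * (∫ x, |h x|) * A₂ * Real.exp (-Real.log X))) atTop (𝓝 (R / Gam0 c *
        (M * A₁ * 0 + 3 * (∫ x, |h x|) * A₂ * 0))) := by
    have h1 : Tendsto (fun X : ℝ => (Real.log X)⁻¹) atTop (𝓝 0) :=
      tendsto_inv_atTop_zero.comp Real.tendsto_log_atTop
    have h2 : Tendsto (fun X : ℝ => Real.exp (-Real.log X)) atTop (𝓝 0) :=
      (Real.tendsto_exp_neg_atTop_nhds_zero).comp Real.tendsto_log_atTop
    exact ((h1.const_mul _).add (h2.const_mul _)).const_mul _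
  simp only [mul_zero, add_zero] at hlim
  have hev := (hlim.eventually (gt_mem_nhds hε)).and (eventually_gt_atTop (1 : ℝ))
  obtain ⟨X₀, hX₀⟩ := eventually_atTop.mp hev
  refine ⟨X₀, fun X hX d Y hY => ?_⟩
  obtain ⟨hb, hX1⟩ := hX₀ X hX
  have hL : 0 < Real.log X := Real.log_pos hX1
  set L := Real.log X with hLdef
  rw [(ytil_eq_kpF hc0 hρ hh hX1 σ d Y).2, ← hLdef]
  -- the main term as an integral over the plane
  have hmain : (∫ z : ℝ × ℝ, kap c z.1 * (ρ z.2 * HH h (z.2 - Y)) ∂(volume.prod volume)) =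
      Gam0 c * ∫ y : ℝ, ρ y * HH h (y - Y) := by
    rw [integral_prod_mul (fun x => kap c x) (fun y => ρ y * HH h (y - Y))]
    rfl
  have hmain2 : (∫ y : ℝ, ρ y * HH h (y - Y)) =
      (∫ z : ℝ × ℝ, kap c z.1 * (ρ z.2 * HH h (z.2 - Y)) ∂(volume.prod volume)) / Gam0 c := by
    rw [hmain]
    field_simp
  have hint1 : Integrable (fun z : ℝ × ℝ => kap c z.1 * (ρ z.2 * HH h (z.2 - Y)))
      (volume.prod volume) := by
    refine (integrable_kap hc0).mul_prod (g := fun y => ρ y * HH h (y - Y)) ?_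
    refine hρ.integrable.mul_bdd (c := ∫ t, |h t|) ?_ (ae_of_all _ fun w => ?_)
    · exact ((continuous_HH hh).comp (by fun_prop)).aestronglyMeasurable
    · rw [Real.norm_eq_abs]
      exact HH_abs_le hh _
  rw [hmain2, ← sub_div, abs_div, abs_of_pos hG, ← integral_sub (integrable_kpF hc0 hρ hh hL σ d Y)
    hint1]
  have hbound : ∀ z : ℝ × ℝ, ‖kpF c σ ρ h L d Y z - kap c z.1 * (ρ z.2 * HH h (z.2 - Y))‖ ≤
      M / L * ((kap c z.1 * |z.1|) * |ρ z.2|) + 3 * (∫ x, |h x|) * Real.exp (-L) *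
        ((kap c z.1 * Real.exp ((2 + k) * z.1)) * |ρ z.2|) := by
    intro z
    rw [Real.norm_eq_abs]
    have h2 := (kap_pos c z.1).le
    by_cases hy : ρ z.2 = 0
    · unfold kpF
      rw [hy]
      simp
    · have h1 := ker5_pointwise hδ hθ hρ hh hM hlip σ d hL hk hk2 hY.2 z.1 z.2 hy
      have h3 : kpF c σ ρ h L d Y z - kap c z.1 * (ρ z.2 * HH h (z.2 - Y)) =
          kap c z.1 * ρ z.2 * (kpPhi σ d h L (z.2 - Y - z.1 / L) - HH h (z.2 - Y)) := by
        unfold kpF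
        ring
      rw [h3, abs_mul, abs_mul, abs_of_nonneg h2]
      calc kap c z.1 * |ρ z.2| * |kpPhi σ d h L (z.2 - Y - z.1 / L) - HH h (z.2 - Y)| ≤
          kap c z.1 * |ρ z.2| * (M / L * |z.1| + 3 * (∫ x, |h x|) * Real.exp (-L) *
            Real.exp ((2 + k) * z.1)) := by gcongr
        _ = _ := by ring
  have hi1 : Integrable (fun z : ℝ × ℝ => (kap c z.1 * |z.1|) * |ρ z.2|) (volume.prod volume) :=
    (integrable_kap_mul_abs hc0).mul_prod hρ.integrable.abs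
  have hi2 : Integrable (fun z : ℝ × ℝ => (kap c z.1 * Real.exp ((2 + k) * z.1)) * |ρ z.2|)
      (volume.prod volume) := integrable_kap_mul_bump hc0 (by positivity) hρ
  have hfin := norm_integral_le_of_norm_le ((hi1.const_mul (M / L)).add
    (hi2.const_mul (3 * (∫ x, |h x|) * Real.exp (-L)))) (ae_of_all _ hbound)
  have hval : (∫ z : ℝ × ℝ, M / L * ((kap c z.1 * |z.1|) * |ρ z.2|) + 3 * (∫ x, |h x|) * Real.exp (-L) *
        ((kap c z.1 * Real.exp ((2 + k) * z.1)) * |ρ z.2|) ∂(volume.prod volume)) =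
      M / L * (A₁ * R) + 3 * (∫ x, |h x|) * Real.exp (-L) * (A₂ * R) := by
    rw [integral_add (hi1.const_mul _) (hi2.const_mul _), integral_const_mul, integral_const_mul,
      integral_prod_mul (fun x => kap c x * |x|) (fun y => |ρ y|),
      integral_prod_mul (fun x => kap c x * Real.exp ((2 + k) * x)) (fun y => |ρ y|)]
  rw [div_le_iff₀ hG]
  rw [Real.norm_eq_abs] at hfin
  refine hfin.trans ?_
  simp only [Pi.add_apply]
  rw [hval]
  have h9 : M / L * (A₁ * R) + 3 * (∫ x, |h x|) * Real.exp (-L) * (A₂ * R) =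
      R / Gam0 c * (M * A₁ * L⁻¹ + 3 * (∫ x, |h x|) * A₂ * Real.exp (-L)) * Gam0 c := by
    field_simp
  rw [h9]
  exact mul_le_mul_of_nonneg_right hb.le hG.le

end Pool.Agent.MP0016c7.Rz
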