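import Mathlib
import Pool.Agent.Lib.MP_0016c7_nt.Theta
import Pool.Agent.Lib.MP_0016c7_nt.Rz.Defs
import Pool.Agent.Lib.MP_0016c7_nt.Rz.DefsC
import Pool.Agent.Lib.MP_0016c7_nt.Rz.DefsF
import Pool.Agent.Lib.MP_0016c7_nt.Rz.DefsE

set_option autoImplicit false

open Finset MeasureTheory Filter Topology
open scoped Real ContDiff

namespace Pool.Agent.MP0016c7.Rz

namespace TestH

open scoped Convolution

/-- the unsmoothed profile, supported in `(2δ, θ₀ + 2δ)` -/
noncomputable def bs (θ₀ δ v : ℝ) : ℝ :=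
  (Set.Ioo (2 * δ) (θ₀ + 2 * δ)).indicator (fun v => 1 / 2 + (v - 2 * δ)) v

theorem bs_nonneg (θ₀ δ v : ℝ) : 0 ≤ bs θ₀ δ v := by
  unfold bs
  refine Set.indicator_nonneg ?_ v
  intro x hx
  have := hx.1
  linarith

theorem bs_le (θ₀ δ v : ℝ) (hθ₀ : 0 < θ₀) : bs θ₀ δ v ≤ 1 / 2 + θ₀ := by
  unfold bs
  by_cases hv : v ∈ Set.Ioo (2 * δ) (θ₀ + 2 * δ)
  · rw [Set.indicator_of_mem hv]
    have := hv.2
    linarith
  · rw [Set.indicator_of_notMem hv]
    linarith

theorem bs_measurable (θ₀ δ : ℝ) : Measurable (bs θ₀ δ) := by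
  unfold bs
  exact Measurable.indicator (by fun_prop) measurableSet_Ioo

theorem bs_integrable (θ₀ δ : ℝ) : Integrable (bs θ₀ δ) := by
  have h : IntegrableOn (fun v : ℝ => 1 / 2 + (v - 2 * δ)) (Set.Ioo (2 * δ) (θ₀ + 2 * δ)) := by
    refine IntegrableOn.mono_set ?_ Set.Ioo_subset_Icc_self
    exact Continuous.integrableOn_Icc (by fun_prop)
  have := h.integrable_indicator measurableSet_Ioo
  exact this

theorem bs_sq_integrable (θ₀ δ : ℝ) : Integrable (fun v => bs θ₀ δ v ^ 2) := by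
  have h : IntegrableOn (fun v : ℝ => (1 / 2 + (v - 2 * δ)) ^ 2) (Set.Ioo (2 * δ) (θ₀ + 2 * δ)) := by
    refine IntegrableOn.mono_set ?_ Set.Ioo_subset_Icc_self
    exact Continuous.integrableOn_Icc (by fun_prop)
  have := h.integrable_indicator measurableSet_Ioo
  refine this.congr (Eventually.of_forall fun v => ?_)
  unfold bs
  by_cases hv : v ∈ Set.Ioo (2 * δ) (θ₀ + 2 * δ)
  · simp [Set.indicator_of_mem hv]
  · simp [Set.indicator_of_notMem hv]

theorem bs_sq_integral (θ₀ δ : ℝ) (hθ₀ : 0 < θ₀) :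
    ∫ v, bs θ₀ δ v ^ 2 = ((θ₀ + 1 / 2) ^ 3 - 1 / 8) / 3 := by
  have h1 : (fun v => bs θ₀ δ v ^ 2) =
      (Set.Ioo (2 * δ) (θ₀ + 2 * δ)).indicator (fun v => (1 / 2 + (v - 2 * δ)) ^ 2) := by
    funext v
    unfold bs
    by_cases hv : v ∈ Set.Ioo (2 * δ) (θ₀ + 2 * δ)
    · simp [Set.indicator_of_mem hv]
    · simp [Set.indicator_of_notMem hv]
  rw [h1, integral_indicator measurableSet_Ioo, ← integral_Ioc_eq_integral_Ioo,
    ← intervalIntegral.integral_of_le (by linarith)]
  have h2 : ∀ v ∈ Set.uIcc (2 * δ) (θ₀ + 2 * δ),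
      HasDerivAt (fun v : ℝ => (1 / 2 + (v - 2 * δ)) ^ 3 / 3) ((1 / 2 + (v - 2 * δ)) ^ 2) v := by
    intro v _
    have h3 : HasDerivAt (fun v : ℝ => 1 / 2 + (v - 2 * δ)) 1 v :=
      ((hasDerivAt_id v).sub_const _).const_add _
    have h4 := (h3.pow 3).div_const 3
    refine h4.congr_deriv ?_
    push_cast
    ring
  rw [intervalIntegral.integral_eq_sub_of_hasDerivAt h2
    (Continuous.intervalIntegrable (by fun_prop) _ _)]
  ring

theorem bs_tail (θ₀ δ : ℝ) (hθ : 0 ≤ θ₀) (v : ℝ) :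
    ∫ s in Set.Ioi v, bs θ₀ δ s = Hid θ₀ (v - 2 * δ) := by
  have h1 : ∫ s in Set.Ioi v, bs θ₀ δ s =
      ∫ s in Set.Ioi v ∩ Set.Ioo (2 * δ) (θ₀ + 2 * δ), (1 / 2 + (s - 2 * δ)) := by
    unfold bs
    exact setIntegral_indicator measurableSet_Ioo
  rw [h1]
  unfold Hid
  have h2 : Set.Ioi v ∩ Set.Ioo (2 * δ) (θ₀ + 2 * δ) = Set.Ioo (max v (2 * δ)) (θ₀ + 2 * δ) := by
    ext s
    simp only [Set.mem_inter_iff, Set.mem_Ioi, Set.mem_Ioo, max_lt_iff]
    tauto
  rw [h2]
  by_cases h : θ₀ ≤ v - 2 * δ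
  · rw [if_pos h, Set.Ioo_eq_empty (by
      intro h'
      have := (max_lt_iff.1 h').1
      linarith)]
    simp
  · rw [if_neg h]
    push Not at h
    have hm : max v (2 * δ) ≤ θ₀ + 2 * δ := max_le (by linarith) (by linarith)
    rw [← integral_Ioc_eq_integral_Ioo, ← intervalIntegral.integral_of_le hm]
    have h3 : ∀ s ∈ Set.uIcc (max v (2 * δ)) (θ₀ + 2 * δ),
        HasDerivAt (fun s : ℝ => (s - 2 * δ) / 2 + (s - 2 * δ) ^ 2 / 2) (1 / 2 + (s - 2 * δ)) s := by
      intro s _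
      have h3 : HasDerivAt (fun v : ℝ => v - 2 * δ) 1 s := (hasDerivAt_id s).sub_const _
      have h4 := (h3.div_const 2).add ((h3.pow 2).div_const 2)
      refine h4.congr_deriv ?_
      push_cast
      ring
    rw [intervalIntegral.integral_eq_sub_of_hasDerivAt h3
      (Continuous.intervalIntegrable (by fun_prop) _ _)]
    have h5 : max v (2 * δ) - 2 * δ = max (v - 2 * δ) 0 := by
      rw [← max_sub_sub_right, sub_self]
    rw [h5]
    ring

theorem Hid_anti (θ₀ : ℝ) (hθ : 0 ≤ θ₀) {x y : ℝ} (hxy : x ≤ y) : Hid θ₀ y ≤ Hid θ₀ x := by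
  unfold Hid
  have hm : max x 0 ≤ max y 0 := max_le_max hxy le_rfl
  have h0 : 0 ≤ max x 0 := le_max_right _ _
  by_cases hy : θ₀ ≤ y
  · rw [if_pos hy]
    split_ifs with hx
    · exact le_rfl
    · push Not at hx
      have h1 : max x 0 ≤ θ₀ := max_le hx.le hθ
      have h2 : (max x 0) ^ 2 ≤ θ₀ ^ 2 := pow_le_pow_left₀ h0 h1 2
      linarith
  · have hx : ¬ θ₀ ≤ x := fun h => hy (h.trans hxy)
    rw [if_neg hy, if_neg hx]
    have h2 : (max x 0) ^ 2 ≤ (max y 0) ^ 2 := pow_le_pow_left₀ h0 hm 2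
    linarith

theorem Hid_neg (θ₀ : ℝ) (hθ : 0 < θ₀) {x : ℝ} (hx : x ≤ 0) : Hid θ₀ x = Hid θ₀ 0 := by
  unfold Hid
  rw [if_neg (by linarith), if_neg (by linarith), max_eq_right hx, max_self]

end TestH

open TestH in
open scoped Convolution in
theorem exists_h (θ₀ δ : ℝ) (hθ₀ : 0 < θ₀) (hδ : 0 < δ) :
    ∃ h : ℝ → ℝ, Bump h (2 * δ) (θ₀ + 3 * δ) ∧ (∀ t, 0 ≤ h t) ∧ HH h 0 = Hid θ₀ 0 ∧
      (∫ t, h t ^ 2 ≤ ((θ₀ + 1 / 2) ^ 3 - 1 / 8) / 3) ∧ ∀ t, Hid θ₀ (t - 2 * δ) ≤ HH h t := by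
  let f : ContDiffBump (δ / 2) := ⟨δ / 8, δ / 4, by positivity, by linarith⟩
  set φ : ℝ → ℝ := f.normed volume with hφ
  have φ0 : ∀ u, 0 ≤ φ u := fun u => f.nonneg_normed u
  have φ1 : ∫ u, φ u = 1 := f.integral_normed
  have φc : Continuous φ := f.continuous_normed
  have φi : Integrable φ := f.integrable_normed
  have φs : HasCompactSupport φ := f.hasCompactSupport_normed
  have φsupp : ∀ u, φ u ≠ 0 → 0 < u ∧ u < δ := by
    intro u hu
    have h1 : u ∈ Function.support (f.normed volume) := hu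
    rw [f.support_normed_eq] at h1
    have h2 : |u - δ / 2| < δ / 4 := by
      have := Metric.mem_ball.1 h1
      rwa [Real.dist_eq] at this
    rw [abs_lt] at h2
    constructor <;> linarith
  have bi := bs_integrable θ₀ δ
  have b2i := bs_sq_integrable θ₀ δ
  set h : ℝ → ℝ := φ ⋆[ContinuousLinearMap.lsmul ℝ ℝ, volume] bs θ₀ δ with hh
  have hdef : ∀ t, h t = ∫ u, φ u * bs θ₀ δ (t - u) := fun t => rfl
  have hi : Integrable h := φi.integrable_convolution _ bi
  -- pointwise integrability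
  have hbm : ∀ t, AEStronglyMeasurable (fun u => bs θ₀ δ (t - u)) volume := fun t =>
    ((bs_measurable θ₀ δ).comp (measurable_const.sub measurable_id)).aestronglyMeasurable
  have i1 : ∀ t, Integrable (fun u => φ u * bs θ₀ δ (t - u)) := by
    intro t
    refine (φi.mul_const (1 / 2 + θ₀)).mono' (φi.aestronglyMeasurable.mul (hbm t))
      (Eventually.of_forall fun u => ?_)
    rw [norm_mul, Real.norm_eq_abs, Real.norm_eq_abs, abs_of_nonneg (φ0 u),
      abs_of_nonneg (bs_nonneg _ _ _)]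
    exact mul_le_mul_of_nonneg_left (bs_le _ _ _ hθ₀) (φ0 u)
  have i2 : ∀ t, Integrable (fun u => φ u * bs θ₀ δ (t - u) ^ 2) := by
    intro t
    refine (φi.mul_const ((1 / 2 + θ₀) ^ 2)).mono' (φi.aestronglyMeasurable.mul ((hbm t).pow 2))
      (Eventually.of_forall fun u => ?_)
    rw [norm_mul, Real.norm_eq_abs, Real.norm_eq_abs, abs_of_nonneg (φ0 u), abs_of_nonneg
      (sq_nonneg _)]
    exact mul_le_mul_of_nonneg_left (pow_le_pow_left₀ (bs_nonneg _ _ _) (bs_le _ _ _ hθ₀) 2) (φ0 u)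
  -- the tail integral
  have tail : ∀ t, HH h t = ∫ u, φ u * Hid θ₀ (t - u - 2 * δ) := by
    intro t
    unfold HH
    have hint : Integrable (Function.uncurry fun s u => φ u * bs θ₀ δ (s - u))
        ((volume.restrict (Set.Ioi t)).prod volume) := by
      have h1 := φi.convolution_integrand (ContinuousLinearMap.lsmul ℝ ℝ) bi
      have h2 : ((volume : Measure ℝ).restrict (Set.Ioi t)).prod (volume : Measure ℝ) =
          ((volume : Measure ℝ).prod volume).restrict (Set.Ioi t ×ˢ Set.univ) := by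
        rw [← Measure.prod_restrict, Measure.restrict_univ]
      rw [h2]
      exact h1.integrableOn
    have h3 := integral_integral_swap hint
    calc ∫ s in Set.Ioi t, h s = ∫ s in Set.Ioi t, ∫ u, φ u * bs θ₀ δ (s - u) := rfl
      _ = ∫ u, ∫ s in Set.Ioi t, φ u * bs θ₀ δ (s - u) := h3
      _ = ∫ u, φ u * Hid θ₀ (t - u - 2 * δ) := by
        congr 1
        funext u
        rw [integral_const_mul, ← bs_tail θ₀ δ hθ₀.le (t - u)]
        congr 1
        have h4 := integral_sub_right_eq_self (μ := volume)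
          (fun s => (Set.Ioi (t - u)).indicator (bs θ₀ δ) s) u
        rw [integral_indicator measurableSet_Ioi] at h4
        rw [← h4, ← integral_indicator measurableSet_Ioi]
        congr 1
        funext s
        by_cases hs : t < s
        · rw [Set.indicator_of_mem (by exact hs), Set.indicator_of_mem (by
            show t - u < s - u
            linarith)]
        · rw [Set.indicator_of_notMem (by exact hs), Set.indicator_of_notMem (by
            show ¬ (t - u < s - u)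
            intro h5
            exact hs (by linarith))]
  have i3 : ∀ t, Integrable (fun u => φ u * Hid θ₀ (t - u - 2 * δ)) := by
    intro t
    have hmon : Monotone (fun u => Hid θ₀ (t - u - 2 * δ)) := fun u v huv =>
      Hid_anti θ₀ hθ₀.le (by linarith)
    refine (φi.mul_const (Hid θ₀ 0)).mono' (φi.aestronglyMeasurable.mul
      hmon.measurable.aestronglyMeasurable) (Eventually.of_forall fun u => ?_)
    have h0 : 0 ≤ Hid θ₀ (t - u - 2 * δ) := by
      rcases le_total (t - u - 2 * δ) θ₀ with h1 | h1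
      · have := Hid_anti θ₀ hθ₀.le h1
        have h2 : Hid θ₀ θ₀ = 0 := by unfold Hid; rw [if_pos le_rfl]
        linarith
      · unfold Hid
        rw [if_pos h1]
    have h1 : Hid θ₀ (t - u - 2 * δ) ≤ Hid θ₀ 0 := by
      rcases le_total (t - u - 2 * δ) 0 with h1 | h1
      · exact (Hid_neg θ₀ hθ₀ h1).le
      · exact Hid_anti θ₀ hθ₀.le h1
    rw [norm_mul, Real.norm_eq_abs, Real.norm_eq_abs, abs_of_nonneg (φ0 u), abs_of_nonneg h0]
    exact mul_le_mul_of_nonneg_left h1 (φ0 u)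
  refine ⟨h, ⟨?_, ?_⟩, ?_, ?_, ?_, ?_⟩
  · exact φs.contDiff_convolution_left (ContinuousLinearMap.lsmul ℝ ℝ) f.contDiff_normed
      bi.locallyIntegrable
  · intro t ht
    by_contra hcon
    apply ht
    rw [hdef]
    have : (fun u => φ u * bs θ₀ δ (t - u)) = fun _ => 0 := by
      funext u
      by_cases hu : φ u = 0
      · rw [hu, zero_mul]
      · obtain ⟨h1, h2⟩ := φsupp u hu
        have : bs θ₀ δ (t - u) = 0 := by
          unfold bs
          refine Set.indicator_of_notMem ?_ _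
          intro h3
          apply hcon
          have h4 := h3.1
          have h5 := h3.2
          constructor <;> linarith
        rw [this, mul_zero]
    rw [this, integral_zero]
  · intro t
    rw [hdef]
    exact integral_nonneg fun u => mul_nonneg (φ0 u) (bs_nonneg _ _ _)
  · rw [tail]
    have : (fun u => φ u * Hid θ₀ (0 - u - 2 * δ)) = fun u => φ u * Hid θ₀ 0 := by
      funext u
      by_cases hu : φ u = 0
      · rw [hu, zero_mul, zero_mul]
      · obtain ⟨h1, h2⟩ := φsupp u hu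
        rw [Hid_neg θ₀ hθ₀ (by linarith)]
    rw [this, integral_mul_const, φ1, one_mul]
  · have hconv : Integrable (φ ⋆[ContinuousLinearMap.lsmul ℝ ℝ, volume] (fun v => bs θ₀ δ v ^ 2)) :=
      φi.integrable_convolution _ b2i
    have hint := integral_convolution (ContinuousLinearMap.lsmul ℝ ℝ) φi b2i
    rw [φ1, bs_sq_integral θ₀ δ hθ₀] at hint
    have hle : ∫ t, h t ^ 2 ≤
        ∫ t, (φ ⋆[ContinuousLinearMap.lsmul ℝ ℝ, volume] (fun v => bs θ₀ δ v ^ 2)) t := by
      refine integral_mono_of_nonneg (Eventually.of_forall fun t => sq_nonneg _) hconv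
        (Eventually.of_forall fun t => ?_)
      have h1 : (φ ⋆[ContinuousLinearMap.lsmul ℝ ℝ, volume] (fun v => bs θ₀ δ v ^ 2)) t =
          ∫ u, φ u * bs θ₀ δ (t - u) ^ 2 := rfl
      simp only
      rw [h1]
      have h2 : 0 ≤ ∫ u, φ u * (bs θ₀ δ (t - u) - h t) ^ 2 :=
        integral_nonneg fun u => mul_nonneg (φ0 u) (sq_nonneg _)
      have h3 : ∫ u, φ u * (bs θ₀ δ (t - u) - h t) ^ 2 =
          (∫ u, φ u * bs θ₀ δ (t - u) ^ 2) - 2 * h t * (∫ u, φ u * bs θ₀ δ (t - u)) +
            h t ^ 2 * ∫ u, φ u := by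
        have j1 : Integrable (fun u => 2 * h t * (φ u * bs θ₀ δ (t - u))) := (i1 t).const_mul _
        have j2 : Integrable (fun u => h t ^ 2 * φ u) := φi.const_mul _
        have j3 : Integrable (fun u => φ u * bs θ₀ δ (t - u) ^ 2 -
            2 * h t * (φ u * bs θ₀ δ (t - u))) := (i2 t).sub j1
        rw [← integral_const_mul, ← integral_const_mul, ← integral_sub (i2 t) j1,
          ← integral_add j3 j2]
        congr 1
        funext u
        ring
      rw [h3, ← hdef, φ1] at h2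
      nlinarith
    rw [hint] at hle
    simpa using hle
  · intro t
    rw [tail]
    have h1 : Hid θ₀ (t - 2 * δ) = ∫ u, φ u * Hid θ₀ (t - 2 * δ) := by
      rw [integral_mul_const, φ1, one_mul]
    rw [h1]
    refine integral_mono (φi.mul_const _) (i3 t) fun u => ?_
    simp only
    by_cases hu : φ u = 0
    · rw [hu, zero_mul, zero_mul]
    · obtain ⟨h1, h2⟩ := φsupp u hu
      exact mul_le_mul_of_nonneg_left (Hid_anti θ₀ hθ₀.le (by linarith)) (φ0 u)

end Pool.Agent.MP0016c7.Rz
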