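import Mathlib
import Pool.Agent.Lib.MP_0016c7_nt.Theta
import Pool.Agent.Lib.MP_0016c7_nt.Rz.Defs
import Pool.Agent.Lib.MP_0016c7_nt.Rz.DefsC
import Pool.Agent.Lib.MP_0016c7_nt.Rz.DefsF
import Pool.Agent.Lib.MP_0016c7_nt.Rz.DefsE
import Pool.Agent.Lib.MP_1e1427_nt.DivBound

set_option autoImplicit false

open Finset MeasureTheory Filter Topology
open scoped Real ContDiff

namespace Pool.Agent.MP0016c7.Rz

theorem divisor_bound (ε : ℝ) (hε : 0 < ε) : ∃ C : ℝ, 0 < C ∧ ∀ n : ℕ, 0 < n →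
    (n.divisors.card : ℝ) ≤ C * (n : ℝ) ^ ε := by
  obtain ⟨k, hk⟩ := exists_nat_gt (1 / ε)
  have hk0 : (0 : ℝ) < k := lt_trans (by positivity) hk
  have hk1 : k ≠ 0 := by
    rintro rfl
    simp at hk0
  obtain ⟨C, hC, h⟩ := Pool.Agent.Lib.MP1e1427.exists_card_divisors_le k hk1
  refine ⟨C, by linarith, fun n hn => ?_⟩
  have hn1 : (1 : ℝ) ≤ n := by exact_mod_cast hn
  refine h _ (Real.one_le_rpow hn1 hε.le) n ?_
  rw [← Real.rpow_natCast, ← Real.rpow_mul (by linarith)]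
  calc (n : ℝ) = (n : ℝ) ^ (1 : ℝ) := (Real.rpow_one _).symm
    _ ≤ (n : ℝ) ^ (ε * k) := by
      apply Real.rpow_le_rpow_of_exponent_le hn1
      rw [div_lt_iff₀ hε] at hk
      linarith

end Pool.Agent.MP0016c7.Rz
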