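import Mathlib
import Pool.Agent.Lib.MP_0016c7_nt.Theta
import Pool.Agent.Lib.MP_0016c7_nt.Rz.Defs
import Pool.Agent.Lib.MP_0016c7_nt.Rz.DefsC
import Pool.Agent.Lib.MP_0016c7_nt.Rz.DefsF
import Pool.Agent.Lib.MP_0016c7_nt.Rz.DefsE

set_option autoImplicit false

open Finset MeasureTheory Filter Topology
open scoped Real ContDiff

namespace Pool.Agent.MP0016c7.Rz

private lemma g0_norm (z : ℂ) (n : ℤ) :
    ‖Complex.exp (-π * z * (n : ℂ) ^ 2)‖ = Real.exp (-π * z.re * (n : ℝ) ^ 2) := by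
  rw [Complex.norm_exp]
  congr 1
  have h1 : (-π * z * (n : ℂ) ^ 2 : ℂ) = ((-π * (n : ℝ) ^ 2 : ℝ) : ℂ) * z := by
    push_cast
    ring
  rw [h1, Complex.re_ofReal_mul]
  ring

private lemma g0_summ {a : ℝ} (ha : 0 < a) : Summable fun n : ℤ => Real.exp (-π * a * (n : ℝ) ^ 2) := by
  have h := summable_pow_mul_jacobiTheta₂_term_bound 0 ha 0
  refine h.congr fun n => ?_
  simp only [pow_zero, one_mul, mul_zero, zero_mul, sub_zero]
  congr 1
  ring

private lemma g0_lim {l : Filter ℝ} {w : ℝ → ℂ} (hw : Tendsto (fun η => (w η).re) l atTop)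
    (u : ℤ → ℂ) (hu : ∀ n, ‖u n‖ ≤ 1) (hu0 : u 0 = 1) :
    Tendsto (fun η => ∑' n : ℤ, Complex.exp (-π * w η * (n : ℂ) ^ 2) * u n) l (𝓝 1) := by
  have h1 : (1 : ℂ) = ∑' n : ℤ, if n = 0 then 1 else 0 := by
    rw [tsum_ite_eq]
  rw [h1]
  refine tendsto_tsum_of_dominated_convergence (bound := fun n : ℤ => Real.exp (-π * 1 * (n : ℝ) ^ 2))
    (g0_summ one_pos) (fun n => ?_) ?_
  · by_cases hn : n = 0
    · subst hn
      simpa [hu0] using tendsto_const_nhds
    · rw [if_neg hn]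
      have h2 : Tendsto (fun η => Real.exp (-(π * (w η).re))) l (𝓝 0) :=
        Real.tendsto_exp_neg_atTop_nhds_zero.comp (hw.const_mul_atTop Real.pi_pos)
      refine squeeze_zero_norm' ?_ h2
      filter_upwards [hw.eventually_ge_atTop 0] with η hη
      rw [norm_mul, g0_norm]
      have h3 : (1 : ℝ) ≤ (n : ℝ) ^ 2 := by
        have h4 : (1 : ℤ) ≤ n ^ 2 := by
          have := sq_nonneg n
          have h5 : n ^ 2 ≠ 0 := pow_ne_zero 2 hn
          omega
        exact_mod_cast h4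
      have h4 : Real.exp (-π * (w η).re * (n : ℝ) ^ 2) ≤ Real.exp (-(π * (w η).re)) := by
        apply Real.exp_le_exp.mpr
        have h5 : 0 ≤ π * (w η).re := mul_nonneg Real.pi_pos.le hη
        nlinarith only [h3, h5]
      calc Real.exp (-π * (w η).re * (n : ℝ) ^ 2) * ‖u n‖
          ≤ Real.exp (-(π * (w η).re)) * 1 :=
            mul_le_mul h4 (hu n) (norm_nonneg _) (Real.exp_pos _).le
        _ = _ := mul_one _
  · filter_upwards [hw.eventually_ge_atTop 1] with η hη n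
    rw [norm_mul, g0_norm]
    have h4 : Real.exp (-π * (w η).re * (n : ℝ) ^ 2) ≤ Real.exp (-π * 1 * (n : ℝ) ^ 2) := by
      apply Real.exp_le_exp.mpr
      have h5 : 0 ≤ π * (n : ℝ) ^ 2 := by positivity
      nlinarith only [hη, h5]
    calc Real.exp (-π * (w η).re * (n : ℝ) ^ 2) * ‖u n‖
        ≤ Real.exp (-π * 1 * (n : ℝ) ^ 2) * 1 :=
          mul_le_mul h4 (hu n) (norm_nonneg _) (Real.exp_pos _).le
      _ = _ := mul_one _

/-- the sum over a residue class -/
private lemma g0_class {q : ℕ} (hq : 0 < q) (r : ℕ) {z : ℂ} (hz : 0 < z.re) :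
    ∑' m : ℤ, Complex.exp (-π * z * ((m : ℂ) * q + r) ^ 2) =
      1 / ((q : ℂ) ^ 2 * z) ^ (1 / 2 : ℂ) *
        ∑' n : ℤ, Complex.exp (-π * (1 / ((q : ℂ) ^ 2 * z)) * (n : ℂ) ^ 2) *
          Complex.exp (2 * π * Complex.I * (n * r / q)) := by
  have hq0 : (q : ℂ) ≠ 0 := Nat.cast_ne_zero.mpr hq.ne'
  have hz0 : z ≠ 0 := by
    intro h
    rw [h] at hz
    simp at hz
  have ha : 0 < ((q : ℂ) ^ 2 * z).re := by
    have h1 : ((q : ℂ) ^ 2 * z) = (((q : ℝ) ^ 2 : ℝ) : ℂ) * z := by push_cast; ring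
    rw [h1, Complex.re_ofReal_mul]
    positivity
  have h1 := Complex.tsum_exp_neg_quadratic ha (-(q * r * z))
  have h2 : ∀ m : ℤ, Complex.exp (-π * z * ((m : ℂ) * q + r) ^ 2) =
      Complex.exp (-π * z * r ^ 2) *
        Complex.exp (-π * ((q : ℂ) ^ 2 * z) * m ^ 2 + 2 * π * (-(q * r * z)) * m) := by
    intro m
    rw [← Complex.exp_add]
    congr 1
    ring
  simp only [h2]
  rw [tsum_mul_left, h1, ← mul_assoc, mul_comm (Complex.exp _) (1 / _), mul_assoc, ← tsum_mul_left]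
  congr 1
  refine tsum_congr fun n => ?_
  rw [← Complex.exp_add, ← Complex.exp_add]
  congr 1
  field_simp
  ring_nf
  rw [Complex.I_sq]
  ring

/-- decomposition in residue classes -/
private lemma g0_split {q : ℕ} (hq : 0 < q) {f : ℤ → ℂ} (hf : Summable f) :
    ∑' n : ℤ, f n = ∑ r ∈ range q, ∑' m : ℤ, f (m * q + r) := by
  have : NeZero q := ⟨hq.ne'⟩
  rw [← (Int.divModEquiv q).symm.tsum_eq f]
  have h1 : Summable fun p : ℤ × Fin q => f ((Int.divModEquiv q).symm p) :=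
    (Int.divModEquiv q).symm.summable_iff.mpr hf
  rw [h1.tsum_prod]
  simp only [tsum_fintype, Int.divModEquiv_symm_apply]
  rw [Summable.tsum_finsetSum]
  · rw [Finset.sum_range]
  · intro i _
    have h2 := h1.comp_injective (i := fun m : ℤ => (m, i)) (fun a b hab => (Prod.mk.inj hab).1)
    simpa [Function.comp_def] using h2

private lemma g0_gsumm {c : ℂ} (hc : 0 < c.re) : Summable fun n : ℤ => Complex.exp (-π * c * (n : ℂ) ^ 2) := by
  refine Summable.of_norm ?_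
  simp only [g0_norm]
  exact g0_summ hc

private lemma g0_exp_int (a : ℂ) (k : ℤ) : Complex.exp (a + 2 * π * Complex.I * k) = Complex.exp a := by
  rw [Complex.exp_add]
  have : Complex.exp (2 * π * Complex.I * k) = 1 := by
    rw [show (2 * π * Complex.I * k : ℂ) = k * (2 * π * Complex.I) by ring]
    exact Complex.exp_int_mul_two_pi_mul_I k
  rw [this, mul_one]

private lemma g0_mul {x : ℝ} (hx : 0 < x) {v : ℂ} (hv : v ≠ 0) (a : ℂ) :
    ((x : ℂ) * v) ^ a = (x : ℂ) ^ a * v ^ a := by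
  have hx0 : (x : ℂ) ≠ 0 := Complex.ofReal_ne_zero.mpr hx.ne'
  rw [Complex.cpow_def_of_ne_zero (mul_ne_zero hx0 hv), Complex.cpow_def_of_ne_zero hx0,
    Complex.cpow_def_of_ne_zero hv, Complex.log_ofReal_mul hx hv, ← Complex.exp_add,
    Complex.ofReal_log hx.le, add_mul]

private lemma g0_lhs (N : ℕ) {η : ℝ} (hη : 0 < η) :
    ∑' n : ℤ, Complex.exp (-π * ((η : ℂ) + Complex.I * N / 2) * (n : ℂ) ^ 2) =
      ∑ r ∈ range 2, Complex.exp (-π * Complex.I * N / 2 * (r : ℂ) ^ 2) *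
        (1 / ((4 * η : ℝ) : ℂ) ^ (1 / 2 : ℂ) *
          ∑' n : ℤ, Complex.exp (-π * (1 / ((4 * η : ℝ) : ℂ)) * (n : ℂ) ^ 2) *
            Complex.exp (2 * π * Complex.I * (n * r / (2 : ℕ)))) := by
  have hc : 0 < ((η : ℂ) + Complex.I * N / 2).re := by simpa using hη
  rw [g0_split (q := 2) two_pos (g0_gsumm hc)]
  refine Finset.sum_congr rfl fun r _ => ?_
  have h1 := g0_class (q := 2) two_pos r (z := (η : ℂ)) (by simpa using hη)
  have h4 : (((2 : ℕ) : ℂ) ^ 2 * (η : ℂ)) = ((4 * η : ℝ) : ℂ) := by push_cast; ring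
  rw [h4] at h1
  rw [← h1, ← tsum_mul_left]
  refine tsum_congr fun m => ?_
  rw [← Complex.exp_add]
  rw [← g0_exp_int _ (N * (m ^ 2 + m * r))]
  congr 1
  push_cast
  ring

private lemma g0_rhs (N : ℕ) (hN : 0 < N) {η : ℝ} (hη : 0 < η) :
    ∑' n : ℤ, Complex.exp (-π * ((η : ℂ) + Complex.I * N / 2) * (n : ℂ) ^ 2) =
      1 / ((η : ℂ) + Complex.I * N / 2) ^ (1 / 2 : ℂ) *
      ∑ r ∈ range N, Complex.exp (2 * π * Complex.I * ((r : ℂ) ^ 2 / N)) *
        (1 / (((4 * η : ℝ) : ℂ) * (N / (N - 2 * Complex.I * η))) ^ (1 / 2 : ℂ) *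
          ∑' n : ℤ, Complex.exp (-π * (1 / (((4 * η : ℝ) : ℂ) * (N / (N - 2 * Complex.I * η)))) * (n : ℂ) ^ 2) *
            Complex.exp (2 * π * Complex.I * (n * r / N))) := by
  have hN0 : (N : ℂ) ≠ 0 := Nat.cast_ne_zero.mpr hN.ne'
  have hN0' : (0 : ℝ) < N := Nat.cast_pos.mpr hN
  have hc : 0 < ((η : ℂ) + Complex.I * N / 2).re := by simpa using hη
  have hc0 : ((η : ℂ) + Complex.I * N / 2) ≠ 0 := by
    intro h
    rw [h] at hc
    simp at hc
  have hd0 : ((N : ℂ) - 2 * Complex.I * η) ≠ 0 := by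
    intro h
    have := congrArg Complex.re h
    simp at this
    exact hN.ne' this
  set z' : ℂ := 4 * η / (N * (N - 2 * Complex.I * η)) with hz'
  have hinv : 1 / ((η : ℂ) + Complex.I * N / 2) = z' - 2 * Complex.I / N := by
    rw [hz', div_sub_div _ _ (mul_ne_zero hN0 hd0) hN0, div_eq_div_iff hc0 (mul_ne_zero (mul_ne_zero hN0 hd0) hN0)]
    linear_combination (-2 * (N : ℂ) ^ 2 * η * Complex.I + (N : ℂ) ^ 3 - 4 * N * (η : ℂ) ^ 2) * Complex.I_sq
  have hz're : 0 < z'.re := by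
    have h1 : z'.re = (1 / ((η : ℂ) + Complex.I * N / 2)).re := by
      rw [hinv]
      have : (2 * Complex.I / (N : ℂ)).re = 0 := by
        rw [show (2 * Complex.I / (N : ℂ)) = ((2 / (N : ℝ) : ℝ) : ℂ) * Complex.I by push_cast; ring]
        simp
      rw [Complex.sub_re, this, sub_zero]
    rw [h1, one_div, Complex.inv_re]
    exact div_pos hc (Complex.normSq_pos.mpr hc0)
  have h0 := Complex.tsum_exp_neg_quadratic hc 0
  simp only [mul_zero, zero_mul, add_zero] at h0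
  rw [h0]
  congr 1
  have hs : Summable fun n : ℤ => Complex.exp (-π / ((η : ℂ) + Complex.I * N / 2) * (n : ℂ) ^ 2) := by
    have h1 : 0 < (1 / ((η : ℂ) + Complex.I * N / 2)).re := by
      rw [one_div, Complex.inv_re]
      exact div_pos hc (Complex.normSq_pos.mpr hc0)
    refine (g0_gsumm h1).congr fun n => ?_
    congr 1
    ring
  rw [g0_split hN hs]
  refine Finset.sum_congr rfl fun r _ => ?_
  have h1 := g0_class hN r hz're
  have h4 : ((N : ℂ) ^ 2 * z') = ((4 * η : ℝ) : ℂ) * (N / (N - 2 * Complex.I * η)) := by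
    rw [hz']
    push_cast
    field_simp
  rw [h4] at h1
  rw [← h1, ← tsum_mul_left]
  refine tsum_congr fun m => ?_
  rw [← Complex.exp_add]
  rw [← g0_exp_int (_ + _) (m ^ 2 * N + 2 * m * r)]
  have h5 : (-π / ((η : ℂ) + Complex.I * N / 2) : ℂ) = -π * (z' - 2 * Complex.I / N) := by
    rw [← hinv]
    ring
  rw [h5]
  congr 1
  push_cast
  field_simp
  ring

theorem quad_gauss (N : ℕ) (hN : Odd N) :
    ∑ n ∈ range N, Complex.exp (2 * π * Complex.I * ((n : ℂ) ^ 2 / N)) =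
      (√(N : ℝ) : ℂ) * (if N % 4 = 1 then 1 else Complex.I) := by
  have hNpos : 0 < N := hN.pos
  have hN0 : (N : ℂ) ≠ 0 := Nat.cast_ne_zero.mpr hNpos.ne'
  have hN0' : (0 : ℝ) < N := Nat.cast_pos.mpr hNpos
  set G : ℂ := ∑ n ∈ range N, Complex.exp (2 * π * Complex.I * ((n : ℂ) ^ 2 / N)) with hG
  set g : ℕ → ℂ := fun r => Complex.exp (-π * Complex.I * N / 2 * (r : ℂ) ^ 2) with hg
  -- real part tends to infinity
  have hinf : Tendsto (fun η : ℝ => 1 / (4 * η)) (𝓝[>] 0) atTop := by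
    have h1 : Tendsto (fun η : ℝ => (1 / 4 : ℝ) * η⁻¹) (𝓝[>] 0) atTop :=
      tendsto_inv_nhdsGT_zero.const_mul_atTop (by norm_num)
    refine h1.congr fun η => ?_
    rw [one_div, one_div, mul_inv]
  have hinf1 : Tendsto (fun η : ℝ => (1 / ((4 * η : ℝ) : ℂ)).re) (𝓝[>] 0) atTop := by
    refine hinf.congr fun η => ?_
    rw [← Complex.ofReal_one, ← Complex.ofReal_div, Complex.ofReal_re]
  have hinf2 : Tendsto (fun η : ℝ => (1 / (((4 * η : ℝ) : ℂ) * (N / (N - 2 * Complex.I * η)))).re)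
      (𝓝[>] 0) atTop := by
    refine hinf.congr' ?_
    filter_upwards [self_mem_nhdsWithin] with η hη
    have hη : 0 < η := hη
    have hη0 : (η : ℂ) ≠ 0 := Complex.ofReal_ne_zero.mpr hη.ne'
    have hd0 : ((N : ℂ) - 2 * Complex.I * η) ≠ 0 := by
      intro h
      have := congrArg Complex.re h
      simp at this
      exact hNpos.ne' this
    have h1 : (1 / (((4 * η : ℝ) : ℂ) * (N / (N - 2 * Complex.I * η)))) =
        ((1 / (4 * η) : ℝ) : ℂ) + ((-(1 / (2 * N)) : ℝ) : ℂ) * Complex.I := by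
      push_cast
      field_simp
      ring
    rw [h1]
    simp
  -- the left hand side
  have hL : Tendsto (fun η : ℝ => ((4 * η : ℝ) : ℂ) ^ (1 / 2 : ℂ) *
      ∑' n : ℤ, Complex.exp (-π * ((η : ℂ) + Complex.I * N / 2) * (n : ℂ) ^ 2)) (𝓝[>] 0)
      (𝓝 (∑ r ∈ range 2, g r * 1)) := by
    have h1 : Tendsto (fun η : ℝ => ∑ r ∈ range 2, g r *
        ∑' n : ℤ, Complex.exp (-π * (1 / ((4 * η : ℝ) : ℂ)) * (n : ℂ) ^ 2) *
            Complex.exp (2 * π * Complex.I * (n * r / (2 : ℕ)))) (𝓝[>] 0)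
        (𝓝 (∑ r ∈ range 2, g r * 1)) := by
      refine tendsto_finsetSum _ fun r _ => Tendsto.const_mul _ ?_
      refine g0_lim hinf1 (fun n : ℤ => Complex.exp (2 * π * Complex.I * (n * r / (2 : ℕ))))
        (fun n => ?_) (by simp)
      rw [show (2 * π * Complex.I * ((n : ℂ) * r / (2 : ℕ)) : ℂ) =
        ((2 * π * (n * r / (2 : ℕ)) : ℝ) : ℂ) * Complex.I by push_cast; ring]
      rw [Complex.norm_exp_ofReal_mul_I]
    refine h1.congr' ?_
    filter_upwards [self_mem_nhdsWithin] with η hη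
    have hη : 0 < η := hη
    rw [g0_lhs N hη, Finset.mul_sum]
    refine Finset.sum_congr rfl fun r _ => ?_
    have h2 : ((4 * η : ℝ) : ℂ) ^ (1 / 2 : ℂ) ≠ 0 := by
      rw [Complex.cpow_ne_zero_iff]
      left
      exact Complex.ofReal_ne_zero.mpr (by positivity)
    simp only [hg]
    field_simp
  -- the right hand side
  have hR : Tendsto (fun η : ℝ => ((4 * η : ℝ) : ℂ) ^ (1 / 2 : ℂ) *
      ∑' n : ℤ, Complex.exp (-π * ((η : ℂ) + Complex.I * N / 2) * (n : ℂ) ^ 2)) (𝓝[>] 0)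
      (𝓝 (1 / (Complex.I * N / 2) ^ (1 / 2 : ℂ) * (1 / (1 : ℂ) ^ (1 / 2 : ℂ)) *
        ∑ r ∈ range N, Complex.exp (2 * π * Complex.I * ((r : ℂ) ^ 2 / N)) * 1)) := by
    have h1 : Tendsto (fun η : ℝ => ∑ r ∈ range N, Complex.exp (2 * π * Complex.I * ((r : ℂ) ^ 2 / N)) *
        ∑' n : ℤ, Complex.exp (-π * (1 / (((4 * η : ℝ) : ℂ) * (N / (N - 2 * Complex.I * η)))) * (n : ℂ) ^ 2) *
            Complex.exp (2 * π * Complex.I * (n * r / N))) (𝓝[>] 0)
        (𝓝 (∑ r ∈ range N, Complex.exp (2 * π * Complex.I * ((r : ℂ) ^ 2 / N)) * 1)) := by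
      refine tendsto_finsetSum _ fun r _ => Tendsto.const_mul _ ?_
      refine g0_lim hinf2 (fun n : ℤ => Complex.exp (2 * π * Complex.I * (n * r / N)))
        (fun n => ?_) (by simp)
      rw [show (2 * π * Complex.I * ((n : ℂ) * r / N) : ℂ) =
        ((2 * π * (n * r / N) : ℝ) : ℂ) * Complex.I by push_cast; ring]
      rw [Complex.norm_exp_ofReal_mul_I]
    have hof : Tendsto (fun η : ℝ => (η : ℂ)) (𝓝[>] 0) (𝓝 0) := by
      have := (Complex.continuous_ofReal.tendsto (0 : ℝ)).mono_left (nhdsWithin_le_nhds (s := Set.Ioi 0))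
      simpa using this
    have h2 : Tendsto (fun η : ℝ => ((η : ℂ) + Complex.I * N / 2) ^ (1 / 2 : ℂ)) (𝓝[>] 0)
        (𝓝 ((Complex.I * N / 2) ^ (1 / 2 : ℂ))) := by
      have h3 : Tendsto (fun η : ℝ => ((η : ℂ) + Complex.I * N / 2)) (𝓝[>] 0) (𝓝 (0 + Complex.I * N / 2)) :=
        hof.add_const _
      rw [zero_add] at h3
      have h3' : (Complex.I * N / 2 : ℂ) ∈ Complex.slitPlane := by
        rw [Complex.mem_slitPlane_iff]
        right
        simp [hNpos.ne']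
      exact (continuousAt_cpow_const h3').tendsto.comp h3
    have h4 : Tendsto (fun η : ℝ => ((N : ℂ) / (N - 2 * Complex.I * η)) ^ (1 / 2 : ℂ)) (𝓝[>] 0)
        (𝓝 ((1 : ℂ) ^ (1 / 2 : ℂ))) := by
      have h5 : Tendsto (fun η : ℝ => ((N : ℂ) / (N - 2 * Complex.I * η))) (𝓝[>] 0)
          (𝓝 ((N : ℂ) / (N - 2 * Complex.I * 0))) :=
        Tendsto.div tendsto_const_nhds (tendsto_const_nhds.sub (hof.const_mul _)) (by simpa using hN0)
      rw [mul_zero, sub_zero, div_self hN0] at h5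
      have h5' : (1 : ℂ) ∈ Complex.slitPlane := by simp
      exact (continuousAt_cpow_const h5').tendsto.comp h5
    have h6 : (Complex.I * N / 2) ^ (1 / 2 : ℂ) ≠ 0 := by
      rw [Complex.cpow_ne_zero_iff]
      left
      simp [hNpos.ne']
    have h7 : (1 : ℂ) ^ (1 / 2 : ℂ) ≠ 0 := by simp
    have h8 := ((tendsto_const_nhds (x := (1 : ℂ))).div h2 h6).mul
      ((tendsto_const_nhds (x := (1 : ℂ))).div h4 h7) |>.mul h1
    refine h8.congr' ?_
    filter_upwards [self_mem_nhdsWithin] with η hη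
    have hη : 0 < η := hη
    have hd0 : ((N : ℂ) - 2 * Complex.I * η) ≠ 0 := by
      intro h
      have := congrArg Complex.re h
      simp at this
      exact hNpos.ne' this
    rw [g0_rhs N hNpos hη, Finset.mul_sum, Finset.mul_sum, Finset.mul_sum]
    refine Finset.sum_congr rfl fun r _ => ?_
    rw [g0_mul (by positivity : 0 < 4 * η) (div_ne_zero hN0 hd0)]
    have h9 : ((4 * η : ℝ) : ℂ) ^ (1 / 2 : ℂ) ≠ 0 := by
      rw [Complex.cpow_ne_zero_iff]
      left
      exact Complex.ofReal_ne_zero.mpr (by positivity)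
    simp only [Pi.div_apply]
    field_simp
  have hu := tendsto_nhds_unique hL hR
  -- values
  have hroot : (Complex.I * N / 2) ^ (1 / 2 : ℂ) = √(N : ℝ) * (1 + Complex.I) / 2 := by
    have hs : ((√(N : ℝ) : ℂ) * (1 + Complex.I) / 2) ^ 2 = Complex.I * N / 2 := by
      have h1 : (√(N : ℝ) : ℂ) ^ 2 = N := by
        rw [← Complex.ofReal_pow, Real.sq_sqrt hN0'.le]
        simp
      have h2 : ((√(N : ℝ) : ℂ) * (1 + Complex.I) / 2) ^ 2 =
          (√(N : ℝ) : ℂ) ^ 2 * (1 + 2 * Complex.I + Complex.I ^ 2) / 4 := by ring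
      rw [h2, h1, Complex.I_sq]
      ring
    rw [← hs, show (1 / 2 : ℂ) = 2⁻¹ by norm_num]
    refine Complex.sq_cpow_two_inv ?_
    rw [show ((√(N : ℝ) : ℂ) * (1 + Complex.I) / 2) =
      ((√(N : ℝ) / 2 : ℝ) : ℂ) * (1 + Complex.I) by push_cast; ring, Complex.re_ofReal_mul]
    simp
    exact hNpos
  have hg0 : g 0 = 1 := by simp [hg]
  have hsq0 : (√(N : ℝ) : ℂ) ≠ 0 := by
    rw [Complex.ofReal_ne_zero]
    positivity
  have h1I : (1 + Complex.I : ℂ) ≠ 0 := by
    intro h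
    have := congrArg Complex.re h
    simp at this
  have hGv : G = (1 + g 1) * (√(N : ℝ) * (1 + Complex.I) / 2) := by
    rw [hroot] at hu
    simp only [mul_one, Finset.sum_range_succ, Finset.sum_range_zero, zero_add, hg0,
      Complex.one_cpow, div_one] at hu
    rw [hu, ← hG]
    field_simp
  rw [hGv]
  have hg1 : g 1 = Complex.exp (-(π * Complex.I / 2) * N) := by
    simp only [hg]
    congr 1
    push_cast
    ring
  obtain ⟨k, hk⟩ : ∃ k, N = 4 * k + 1 ∨ N = 4 * k + 3 := by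
    obtain ⟨m, hm⟩ := hN
    rcases Nat.even_or_odd' m with ⟨k, hk | hk⟩
    · exact ⟨k, Or.inl (by omega)⟩
    · exact ⟨k, Or.inr (by omega)⟩
  rcases hk with hk | hk
  · have h2 : N % 4 = 1 := by omega
    rw [if_pos h2, hg1]
    have h3 : Complex.exp (-(π * Complex.I / 2) * N) = -Complex.I := by
      have h4 : (-(π * Complex.I / 2) * N : ℂ) = -π / 2 * Complex.I + 2 * π * Complex.I * ((-k : ℤ) : ℂ) := by
        rw [hk]
        push_cast
        ring
      rw [h4, g0_exp_int, Complex.exp_neg_pi_div_two_mul_I]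
    rw [h3]
    linear_combination (-(√(N : ℝ) : ℂ) / 2) * Complex.I_sq
  · have h2 : ¬ N % 4 = 1 := by omega
    rw [if_neg h2, hg1]
    have h3 : Complex.exp (-(π * Complex.I / 2) * N) = Complex.I := by
      have h4 : (-(π * Complex.I / 2) * N : ℂ) = π / 2 * Complex.I + 2 * π * Complex.I * ((-k - 1 : ℤ) : ℂ) := by
        rw [hk]
        push_cast
        ring
      rw [h4, g0_exp_int, Complex.exp_pi_div_two_mul_I]
    rw [h3]
    linear_combination ((√(N : ℝ) : ℂ) / 2) * Complex.I_sq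

end Pool.Agent.MP0016c7.Rz
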