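import Mathlib
import Pool.Agent.Lib.MP_0016c7_nt.Theta
import Pool.Agent.Lib.MP_0016c7_nt.Rz.Defs
import Pool.Agent.Lib.MP_0016c7_nt.Rz.DefsC
import Pool.Agent.Lib.MP_0016c7_nt.Rz.DefsF
import Pool.Agent.Lib.MP_0016c7_nt.Rz.DefsE
import Pool.Agent.Lib.MP_0016c7_nt.Rz.Gauss0

set_option autoImplicit false

open Finset MeasureTheory Filter Topology
open scoped Real ContDiff

namespace Pool.Agent.MP0016c7.Rz

private noncomputable def g1T (N : ℕ) (k : ℤ) : ℂ :=
  ∑ b ∈ range N, (jr b N : ℂ) * Complex.exp (2 * π * Complex.I * (b * k / N))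

private noncomputable def g1e (N : ℕ) : ℂ := if N % 4 = 1 then 1 else Complex.I

private lemma g1_sum_zmod (p : ℕ) [NeZero p] (f : ZMod p → ℂ) :
    ∑ b ∈ range p, f b = ∑ x : ZMod p, f x := by
  refine Finset.sum_nbij' (fun b => (b : ZMod p)) (fun x => x.val) ?_ ?_ ?_ ?_ ?_
  · simp
  · intro x _
    simpa using ZMod.val_lt x
  · intro b hb
    exact ZMod.val_natCast_of_lt (mem_range.1 hb)
  · intro x _
    exact ZMod.natCast_zmod_val x
  · simp

private lemma g1_exp (N : ℕ) [NeZero N] (b : ℕ) (k : ℤ) :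
    Complex.exp (2 * π * Complex.I * (b * k / N)) =
      ZMod.stdAddChar (N := N) ((b : ZMod N) * (k : ZMod N)) := by
  have h := ZMod.stdAddChar_coe (N := N) ((b : ℤ) * k)
  push_cast at h
  rw [h]
  congr 1
  ring

private lemma g1_prime (p : ℕ) [hpf : Fact p.Prime] (hp : p ≠ 2) (k : ℤ) :
    g1T p k = (jr k p : ℂ) * (√(p : ℝ) : ℂ) * g1e p := by
  have hodd : Odd p := hpf.out.odd_of_ne_two hp
  have hF : ringChar (ZMod p) ≠ 2 := by rwa [ZMod.ringChar_zmod_n]
  have hjr : ∀ a : ℤ, (jr a p : ℂ) = ((quadraticChar (ZMod p) (a : ZMod p) : ℤ) : ℂ) := by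
    intro a
    unfold jr
    rw [if_pos hodd, ← jacobiSym.legendreSym.to_jacobiSym]
    simp [legendreSym]
  have hsum0 : ∑ x : ZMod p, ZMod.stdAddChar (N := p) x = 0 := by
    apply AddChar.sum_eq_zero_of_ne_one
    have h := ZMod.isPrimitive_stdAddChar p (one_ne_zero : (1 : ZMod p) ≠ 0)
    rwa [AddChar.mulShift_one] at h
  have hG : ∑ x : ZMod p, ((quadraticChar (ZMod p) x : ℤ) : ℂ) * ZMod.stdAddChar (N := p) x =
      (√(p : ℝ) : ℂ) * g1e p := by
    have h0 := quad_gauss p hodd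
    have h1 : ∑ n ∈ range p, Complex.exp (2 * π * Complex.I * ((n : ℂ) ^ 2 / p)) =
        ∑ x : ZMod p, ZMod.stdAddChar (N := p) (x ^ 2) := by
      rw [← g1_sum_zmod p (fun x => ZMod.stdAddChar (N := p) (x ^ 2))]
      refine sum_congr rfl fun b _ => ?_
      have h := g1_exp p b (b : ℤ)
      push_cast at h
      rw [sq, sq]
      exact h
    have h2 : ∑ x : ZMod p, ZMod.stdAddChar (N := p) (x ^ 2) =
        ∑ y : ZMod p, (((quadraticChar (ZMod p) y : ℤ) : ℂ) + 1) * ZMod.stdAddChar (N := p) y := by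
      rw [← Finset.sum_fiberwise univ (fun x : ZMod p => x ^ 2)
        (fun x => ZMod.stdAddChar (N := p) (x ^ 2))]
      refine sum_congr rfl fun y _ => ?_
      have h2 : ∑ x ∈ univ.filter (fun x : ZMod p => x ^ 2 = y), ZMod.stdAddChar (N := p) (x ^ 2) =
          ∑ x ∈ univ.filter (fun x : ZMod p => x ^ 2 = y), ZMod.stdAddChar (N := p) y :=
        sum_congr rfl (by intro x hx; rw [(mem_filter.1 hx).2])
      rw [h2, sum_const, nsmul_eq_mul]
      congr 1
      have h3 := quadraticChar_card_sqrts hF y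
      have h4 : {x : ZMod p | x ^ 2 = y}.toFinset = univ.filter (fun x => x ^ 2 = y) := by
        ext
        simp
      rw [h4] at h3
      have h5 := congrArg (fun z : ℤ => (z : ℂ)) h3
      push_cast at h5
      exact h5
    rw [h1, h2] at h0
    simp only [add_mul, one_mul, sum_add_distrib, hsum0, add_zero] at h0
    exact h0
  have hT : g1T p k = ∑ x : ZMod p, ((quadraticChar (ZMod p) x : ℤ) : ℂ) *
      ZMod.stdAddChar (N := p) (x * k) := by
    unfold g1T
    rw [← g1_sum_zmod p (fun x => ((quadraticChar (ZMod p) x : ℤ) : ℂ) *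
      ZMod.stdAddChar (N := p) (x * k))]
    refine sum_congr rfl fun b _ => ?_
    rw [g1_exp, hjr]
    simp
  rw [hT, hjr]
  by_cases hk : (k : ZMod p) = 0
  · rw [hk]
    have h1 : ∑ x : ZMod p, ((quadraticChar (ZMod p) x : ℤ) : ℂ) = 0 := by
      have := congrArg (fun z : ℤ => (z : ℂ)) (quadraticChar_sum_zero (F := ZMod p) hF)
      push_cast at this
      exact this
    simp only [mul_zero, AddChar.map_zero_eq_one, mul_one, MulChar.map_zero, Int.cast_zero,
      zero_mul]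
    exact h1
  · have h1 := Equiv.sum_comp (Equiv.mulRight₀ (k : ZMod p) hk) (fun y : ZMod p =>
      ((quadraticChar (ZMod p) (k : ZMod p) : ℤ) : ℂ) *
        (((quadraticChar (ZMod p) y : ℤ) : ℂ) * ZMod.stdAddChar (N := p) y))
    rw [mul_assoc, ← hG, mul_sum, ← h1]
    refine sum_congr rfl fun x _ => ?_
    have h2 : quadraticChar (ZMod p) (k : ZMod p) ^ 2 = 1 := quadraticChar_sq_one hk
    have h3 : ((quadraticChar (ZMod p) (k : ZMod p) : ℤ) : ℂ) ^ 2 = 1 := by
      have := congrArg (fun z : ℤ => (z : ℂ)) h2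
      push_cast at this
      exact this
    simp only [Equiv.mulRight₀_apply, map_mul]
    push_cast
    linear_combination (-((quadraticChar (ZMod p) x : ℤ) : ℂ) *
      ZMod.stdAddChar (N := p) (x * k)) * h3

private lemma g1_jr_mul (a : ℤ) {m n : ℕ} (hm : Odd m) (hn : Odd n) :
    jr a (m * n) = jr a m * jr a n := by
  unfold jr
  rw [if_pos hm, if_pos hn, if_pos (hm.mul hn), jacobiSym.mul_right' a hm.pos.ne' hn.pos.ne']
  push_cast
  ring

private lemma g1_jr_left (a b : ℤ) (m : ℕ) : jr (a * b) m = jr a m * jr b m := by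
  unfold jr
  split_ifs with h
  · rw [jacobiSym.mul_left]
    push_cast
    ring
  · simp

private lemma g1_jr_mod {a b : ℤ} {m : ℕ} (h : a ≡ b [ZMOD m]) : jr a m = jr b m := by
  unfold jr
  split_ifs with hm
  · rw [jacobiSym.mod_left' h]
  · rfl

private lemma g1_exp_add (M : ℕ) (hM : M ≠ 0) (x y : ℤ) (k : ℤ) (h : x ≡ y [ZMOD M]) :
    Complex.exp (2 * π * Complex.I * (x * k / M)) =
      Complex.exp (2 * π * Complex.I * (y * k / M)) := by
  obtain ⟨q, hq⟩ := (Int.modEq_iff_dvd).1 h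
  have hy : (y : ℂ) = x + M * q := by
    have : y = x + M * q := by linarith
    rw [this]
    push_cast
    ring
  have hMc : (M : ℂ) ≠ 0 := by exact_mod_cast hM
  have e : 2 * π * Complex.I * (y * k / M) =
      2 * π * Complex.I * (x * k / M) + ((q * k : ℤ) : ℂ) * (2 * π * Complex.I) := by
    rw [hy]
    push_cast
    field_simp
  rw [e, Complex.exp_add, Complex.exp_int_mul_two_pi_mul_I, mul_one]

private lemma g1_mul (m n : ℕ) (hm : Odd m) (hn : Odd n) (hc : m.Coprime n) (k : ℤ) :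
    g1T (m * n) k = (jr n m : ℂ) * (jr m n : ℂ) * g1T m k * g1T n k := by
  have hm0 : m ≠ 0 := hm.pos.ne'
  have hn0 : n ≠ 0 := hn.pos.ne'
  have hmc : (m : ℂ) ≠ 0 := by exact_mod_cast hm0
  have hnc : (n : ℂ) ≠ 0 := by exact_mod_cast hn0
  have hinj : Set.InjOn (fun q : ℕ × ℕ => (n * q.1 + m * q.2) % (m * n))
      ((range m ×ˢ range n : Finset (ℕ × ℕ)) : Set (ℕ × ℕ)) := by
    rintro ⟨a, b⟩ hab ⟨a', b'⟩ hab' h
    simp only [coe_product, coe_range, Set.mem_prod, Set.mem_Iio] at hab hab'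
    have h0 : n * a + m * b ≡ n * a' + m * b' [MOD m * n] := h
    have h1 : n * a ≡ n * a' [MOD m] := by
      have h2 := h0.of_mul_right n
      have h3 : n * a + m * b ≡ n * a [MOD m] := by
        simp [Nat.ModEq]
      have h4 : n * a' + m * b' ≡ n * a' [MOD m] := by
        simp [Nat.ModEq]
      exact h3.symm.trans (h2.trans h4)
    have h2 : m * b ≡ m * b' [MOD n] := by
      have h2 := h0.of_mul_left m
      have h3 : n * a + m * b ≡ m * b [MOD n] := by
        simp [Nat.ModEq]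
      have h4 : n * a' + m * b' ≡ m * b' [MOD n] := by
        simp [Nat.ModEq]
      exact h3.symm.trans (h2.trans h4)
    have h3 : a ≡ a' [MOD m] := Nat.ModEq.cancel_left_of_coprime (by exact hc) h1
    have h4 : b ≡ b' [MOD n] := Nat.ModEq.cancel_left_of_coprime (by exact hc.symm) h2
    rw [Prod.mk.injEq]
    exact ⟨h3.eq_of_lt_of_lt hab.1 hab'.1, h4.eq_of_lt_of_lt hab.2 hab'.2⟩
  have hmaps : ∀ q ∈ range m ×ˢ range n, (n * q.1 + m * q.2) % (m * n) ∈ range (m * n) := by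
    intro q _
    exact mem_range.2 (Nat.mod_lt _ (Nat.pos_of_ne_zero (mul_ne_zero hm0 hn0)))
  have hsurj : Set.SurjOn (fun q : ℕ × ℕ => (n * q.1 + m * q.2) % (m * n))
      ((range m ×ˢ range n : Finset (ℕ × ℕ)) : Set (ℕ × ℕ)) (range (m * n) : Finset ℕ) :=
    Finset.surjOn_of_injOn_of_card_le _ (fun q hq => by exact_mod_cast hmaps q (by exact_mod_cast hq)) hinj (by simp)
  have hsum : g1T (m * n) k = ∑ q ∈ range m ×ˢ range n,
      (jr ((n * q.1 + m * q.2 : ℕ) : ℤ) (m * n) : ℂ) *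
        Complex.exp (2 * π * Complex.I * (((n * q.1 + m * q.2 : ℕ) : ℂ) * k / ((m * n : ℕ) : ℂ))) := by
    unfold g1T
    symm
    refine Finset.sum_nbij _ hmaps hinj hsurj fun q _ => ?_
    have hmod : (((n * q.1 + m * q.2 : ℕ) : ℤ)) ≡
        (((n * q.1 + m * q.2) % (m * n) : ℕ) : ℤ) [ZMOD ((m * n : ℕ) : ℤ)] := by
      rw [Int.natCast_modEq_iff]
      exact (Nat.mod_modEq _ _).symm
    rw [g1_jr_mod hmod]
    congr 1
    have := g1_exp_add (m * n) (mul_ne_zero hm0 hn0) _ _ k hmod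
    simpa only [Int.cast_natCast] using this
  rw [hsum, sum_product]
  unfold g1T
  rw [mul_assoc ((jr n m : ℂ) * (jr m n : ℂ)), Finset.sum_mul_sum, mul_sum]
  refine sum_congr rfl fun a _ => ?_
  rw [mul_sum]
  refine sum_congr rfl fun b _ => ?_
  have e1 : jr ((n * a + m * b : ℕ) : ℤ) (m * n) = jr n m * jr a m * (jr m n * jr b n) := by
    rw [g1_jr_mul _ hm hn, ← g1_jr_left, ← g1_jr_left]
    congr 1
    · apply g1_jr_mod
      push_cast
      simp [Int.ModEq]
    · apply g1_jr_mod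
      push_cast
      simp [Int.ModEq]
  have e2 : Complex.exp (2 * π * Complex.I * (((n * a + m * b : ℕ) : ℂ) * k / ((m * n : ℕ) : ℂ))) =
      Complex.exp (2 * π * Complex.I * (a * k / m)) *
        Complex.exp (2 * π * Complex.I * (b * k / n)) := by
    rw [← Complex.exp_add]
    congr 1
    push_cast
    field_simp
  rw [e1, e2]
  push_cast
  ring

private lemma g1_e_mul (m n : ℕ) (hm : Odd m) (hn : Odd n) (hc : m.Coprime n) :
    g1e (m * n) = (jr n m : ℂ) * (jr m n : ℂ) * g1e m * g1e n := by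
  have h1 := jacobiSym.quadratic_reciprocity hm hn
  have h2 : jacobiSym n m ^ 2 = 1 := jacobiSym.sq_one (by
    rw [Int.gcd_natCast_natCast]
    exact hc.symm)
  have h3 : (jr n m : ℂ) * (jr m n : ℂ) = (-1 : ℂ) ^ (m / 2 * (n / 2)) := by
    unfold jr
    rw [if_pos hm, if_pos hn, h1]
    have h4 : ((jacobiSym n m : ℤ) : ℂ) ^ 2 = 1 := by
      have := congrArg (fun z : ℤ => (z : ℂ)) h2
      push_cast at this
      exact this
    push_cast
    linear_combination ((-1 : ℂ) ^ (m / 2 * (n / 2))) * h4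
  rw [h3]
  unfold g1e
  have hm4 : m % 4 = 1 ∨ m % 4 = 3 := by
    have := Nat.odd_iff.1 hm
    omega
  have hn4 : n % 4 = 1 ∨ n % 4 = 3 := by
    have := Nat.odd_iff.1 hn
    omega
  have hpar : ∀ a : ℕ, a % 4 = 1 → Even (a / 2) := fun a ha => by
    rw [Nat.even_iff]
    omega
  have hpar3 : ∀ a : ℕ, a % 4 = 3 → Odd (a / 2) := fun a ha => by
    rw [Nat.odd_iff]
    omega
  rcases hm4 with hm4 | hm4 <;> rcases hn4 with hn4 | hn4
  · have h5 : m * n % 4 = 1 := by rw [Nat.mul_mod, hm4, hn4]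
    rw [h5, hm4, hn4, Even.neg_one_pow ((hpar m hm4).mul_right _)]
    simp
  · have h5 : m * n % 4 = 3 := by rw [Nat.mul_mod, hm4, hn4]
    rw [h5, hm4, hn4, Even.neg_one_pow ((hpar m hm4).mul_right _)]
    simp
  · have h5 : m * n % 4 = 3 := by rw [Nat.mul_mod, hm4, hn4]
    rw [h5, hm4, hn4, Even.neg_one_pow ((hpar n hn4).mul_left _)]
    simp
  · have h5 : m * n % 4 = 1 := by rw [Nat.mul_mod, hm4, hn4]
    rw [h5, hm4, hn4, Odd.neg_one_pow ((hpar3 m hm4).mul (hpar3 n hn4))]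
    simp

private lemma g1_main (N : ℕ) : Odd N → Squarefree N → ∀ k : ℤ,
    g1T N k = (jr k N : ℂ) * (√(N : ℝ) : ℂ) * g1e N := by
  induction N using Nat.recOnMul with
  | zero =>
    intro h
    exact absurd h (by decide)
  | one =>
    intro _ _ k
    simp [g1T, g1e, jr]
  | prime p hp =>
    intro hodd _ k
    have : Fact p.Prime := ⟨hp⟩
    exact g1_prime p (by rintro rfl; exact absurd hodd (by decide)) k
  | mul m n ihm ihn =>
    intro hodd hs k
    have hm : Odd m := (Nat.odd_mul.1 hodd).1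
    have hn : Odd n := (Nat.odd_mul.1 hodd).2
    have hc : m.Coprime n := Nat.coprime_of_squarefree_mul hs
    rw [g1_mul m n hm hn hc k, ihm hm (hs.of_mul_left) k, ihn hn (hs.of_mul_right) k,
      g1_e_mul m n hm hn hc, g1_jr_mul k hm hn]
    have h1 : (√((m * n : ℕ) : ℝ) : ℂ) = (√(m : ℝ) : ℂ) * (√(n : ℝ) : ℂ) := by
      rw [← Complex.ofReal_mul, ← Real.sqrt_mul (Nat.cast_nonneg m)]
      push_cast
      rfl
    rw [h1]
    push_cast
    ring

theorem gauss_sum_jr (N : ℕ) (hN : Odd N) (hs : Squarefree N) (k : ℤ) :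
    ∑ b ∈ range N, (jr b N : ℂ) * Complex.exp (2 * π * Complex.I * (b * k / N)) =
      (jr k N : ℂ) * (√(N : ℝ) : ℂ) * (if N % 4 = 1 then 1 else Complex.I) :=
  g1_main N hN hs k

end Pool.Agent.MP0016c7.Rz
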