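import Mathlib
import Pool.Agent.Lib.MP_0016c7_nt.Theta
import Pool.Agent.Lib.MP_0016c7_nt.Rz.Defs
import Pool.Agent.Lib.MP_0016c7_nt.Rz.DefsC
import Pool.Agent.Lib.MP_0016c7_nt.Rz.DefsF
import Pool.Agent.Lib.MP_0016c7_nt.Rz.DefsE
import Pool.Agent.Lib.MP_0016c7_nt.Rz.ArithA1

set_option autoImplicit false

open Finset MeasureTheory Filter Topology
open scoped Real ContDiff

namespace Pool.Agent.MP0016c7.Rz

/-- the divisors of a product of coprime numbers -/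
private theorem a2_sum_divisors {b b' : ℕ} (h : Nat.Coprime b b') (f : ℕ → ℝ) :
    ∑ e ∈ (b * b').divisors, f e =
      ∑ x ∈ b.divisors ×ˢ b'.divisors, f (x.1 * x.2) := by
  symm
  refine Finset.sum_nbij' (fun x => x.1 * x.2) (fun e => (Nat.gcd e b, Nat.gcd e b'))
    ?_ ?_ ?_ ?_ ?_
  · rintro ⟨e₁, e₂⟩ hx
    rw [mem_product, Nat.mem_divisors, Nat.mem_divisors] at hx
    obtain ⟨⟨h1, h2⟩, h3, h4⟩ := hx
    rw [Nat.mem_divisors]
    exact ⟨mul_dvd_mul h1 h3, mul_ne_zero h2 h4⟩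
  · intro e he
    rw [Nat.mem_divisors] at he
    rw [mem_product, Nat.mem_divisors, Nat.mem_divisors]
    exact ⟨⟨Nat.gcd_dvd_right _ _, left_ne_zero_of_mul he.2⟩,
      Nat.gcd_dvd_right _ _, right_ne_zero_of_mul he.2⟩
  · rintro ⟨e₁, e₂⟩ hx
    rw [mem_product, Nat.mem_divisors, Nat.mem_divisors] at hx
    obtain ⟨⟨h1, h2⟩, h3, h4⟩ := hx
    have c1 : Nat.Coprime e₂ b := (h.symm.coprime_dvd_left h3)
    have c2 : Nat.Coprime e₁ b' := (h.coprime_dvd_left h1)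
    have g1 : Nat.gcd (e₁ * e₂) b = e₁ := by
      rw [Nat.Coprime.gcd_mul_right_cancel _ c1]
      exact Nat.gcd_eq_left h1
    have g2 : Nat.gcd (e₁ * e₂) b' = e₂ := by
      rw [Nat.Coprime.gcd_mul_left_cancel _ c2]
      exact Nat.gcd_eq_left h3
    show (Nat.gcd (e₁ * e₂) b, Nat.gcd (e₁ * e₂) b') = (e₁, e₂)
    rw [g1, g2]
  · intro e he
    rw [Nat.mem_divisors] at he
    show Nat.gcd e b * Nat.gcd e b' = e
    rw [← Nat.Coprime.gcd_mul e h]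
    exact Nat.gcd_eq_left he.1
  · intro x _
    rfl

/-- the symbol for one of the two factors -/
private theorem a2_jac {K k₁ : ℤ} {a b' e₂ : ℕ} (hb : Nat.Coprime b' a) (he : Nat.Coprime e₂ a)
    (hK : K * (b' : ℤ) ^ 2 = k₁ * (e₂ : ℤ) ^ 2) : jacobiSym K a = jacobiSym k₁ a := by
  have e1 : jacobiSym ((b' : ℤ) ^ 2) a = 1 := jacobiSym.sq_one' (by
    rw [Int.gcd_natCast_natCast]; exact hb)
  have e2 : jacobiSym ((e₂ : ℤ) ^ 2) a = 1 := jacobiSym.sq_one' (by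
    rw [Int.gcd_natCast_natCast]; exact he)
  calc jacobiSym K a = jacobiSym K a * jacobiSym ((b' : ℤ) ^ 2) a := by rw [e1, mul_one]
    _ = jacobiSym (K * (b' : ℤ) ^ 2) a := (jacobiSym.mul_left _ _ _).symm
    _ = jacobiSym (k₁ * (e₂ : ℤ) ^ 2) a := by rw [hK]
    _ = jacobiSym k₁ a * jacobiSym ((e₂ : ℤ) ^ 2) a := jacobiSym.mul_left _ _ _
    _ = jacobiSym k₁ a := by rw [e2, mul_one]

/-- the summand of `gg` -/
private noncomputable def a2_term (k : ℤ) (a b e : ℕ) : ℝ :=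
  if (b : ℤ) ^ 2 ∣ k * (e : ℤ) then
    (ArithmeticFunction.moebius e : ℝ) / e * jr (k * (e : ℤ) ^ 2 / (b : ℤ) ^ 2) a else 0

private theorem a2_gg (k : ℤ) (N : ℕ) :
    gg k N = (∑ e ∈ (sq2 N).divisors, a2_term k (sq1 N) (sq2 N) e) / √(sq1 N : ℝ) := by
  unfold gg a2_term
  rw [Finset.sum_filter]

private theorem a2_term_mul (k : ℤ) {a b a' b' e₁ e₂ : ℕ} (ha : Odd a) (ha' : Odd a')
    (hb0 : b ≠ 0) (hb0' : b' ≠ 0)
    (hab' : Nat.Coprime b' a) (ha'b : Nat.Coprime b a') (hbb : Nat.Coprime b b')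
    (h₁ : e₁ ∣ b) (h₂ : e₂ ∣ b') :
    a2_term k (a * a') (b * b') (e₁ * e₂) = a2_term k a b e₁ * a2_term k a' b' e₂ := by
  have c12 : Nat.Coprime e₁ e₂ := Nat.Coprime.coprime_dvd_left h₁ (hbb.coprime_dvd_right h₂)
  have c2b : Nat.Coprime e₂ b := hbb.symm.coprime_dvd_left h₂
  have c1b' : Nat.Coprime e₁ b' := hbb.coprime_dvd_left h₁
  have c2a : Nat.Coprime e₂ a := hab'.coprime_dvd_left h₂
  have c1a' : Nat.Coprime e₁ a' := ha'b.coprime_dvd_left h₁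
  have hcond : (((b * b' : ℕ) : ℤ) ^ 2 ∣ k * ((e₁ * e₂ : ℕ) : ℤ)) ↔
      ((b : ℤ) ^ 2 ∣ k * (e₁ : ℤ)) ∧ ((b' : ℤ) ^ 2 ∣ k * (e₂ : ℤ)) := by
    have ib : IsCoprime ((b : ℤ) ^ 2) (e₂ : ℤ) := by
      apply IsCoprime.pow_left
      exact Nat.isCoprime_iff_coprime.2 c2b.symm
    have ib' : IsCoprime ((b' : ℤ) ^ 2) (e₁ : ℤ) := by
      apply IsCoprime.pow_left
      exact Nat.isCoprime_iff_coprime.2 c1b'.symm
    have ibb : IsCoprime ((b : ℤ) ^ 2) ((b' : ℤ) ^ 2) := by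
      apply IsCoprime.pow
      exact Nat.isCoprime_iff_coprime.2 hbb
    push_cast
    rw [mul_pow]
    constructor
    · intro h
      constructor
      · have h3 : (b : ℤ) ^ 2 ∣ k * (e₁ : ℤ) * (e₂ : ℤ) := by
          rw [mul_assoc]
          exact (Dvd.intro _ rfl).trans h
        exact ib.dvd_of_dvd_mul_right h3
      · have h3 : (b' : ℤ) ^ 2 ∣ k * (e₂ : ℤ) * (e₁ : ℤ) := by
          rw [mul_assoc, mul_comm (e₂ : ℤ)]
          exact (Dvd.intro_left _ rfl).trans h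
        exact ib'.dvd_of_dvd_mul_right h3
    · rintro ⟨h3, h4⟩
      apply ibb.mul_dvd
      · rw [← mul_assoc]
        exact h3.mul_right _
      · rw [mul_comm (e₁ : ℤ), ← mul_assoc]
        exact h4.mul_right _
  unfold a2_term
  by_cases hd : ((b : ℤ) ^ 2 ∣ k * (e₁ : ℤ)) ∧ ((b' : ℤ) ^ 2 ∣ k * (e₂ : ℤ))
  · rw [if_pos (hcond.2 hd), if_pos hd.1, if_pos hd.2]
    obtain ⟨hd1, hd2⟩ := hd
    have hbz : (b : ℤ) ≠ 0 := by exact_mod_cast hb0
    have hbz' : (b' : ℤ) ≠ 0 := by exact_mod_cast hb0'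
    obtain ⟨k₁, hk₁⟩ : (b : ℤ) ^ 2 ∣ k * (e₁ : ℤ) ^ 2 := by
      rw [sq (e₁ : ℤ), ← mul_assoc]
      exact hd1.mul_right _
    obtain ⟨k₂, hk₂⟩ : (b' : ℤ) ^ 2 ∣ k * (e₂ : ℤ) ^ 2 := by
      rw [sq (e₂ : ℤ), ← mul_assoc]
      exact hd2.mul_right _
    obtain ⟨K, hK⟩ : ((b * b' : ℕ) : ℤ) ^ 2 ∣ k * ((e₁ * e₂ : ℕ) : ℤ) ^ 2 := by
      have := hcond.2 ⟨hd1, hd2⟩
      rw [sq ((e₁ * e₂ : ℕ) : ℤ), ← mul_assoc]
      exact this.mul_right _
    have q1 : k * (e₁ : ℤ) ^ 2 / (b : ℤ) ^ 2 = k₁ := by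
      rw [hk₁]
      exact Int.mul_ediv_cancel_left _ (pow_ne_zero 2 hbz)
    have q2 : k * (e₂ : ℤ) ^ 2 / (b' : ℤ) ^ 2 = k₂ := by
      rw [hk₂]
      exact Int.mul_ediv_cancel_left _ (pow_ne_zero 2 hbz')
    have q3 : k * ((e₁ * e₂ : ℕ) : ℤ) ^ 2 / ((b * b' : ℕ) : ℤ) ^ 2 = K := by
      rw [hK]
      refine Int.mul_ediv_cancel_left _ (pow_ne_zero 2 ?_)
      push_cast
      exact mul_ne_zero hbz hbz'
    rw [q1, q2, q3]
    have hK1 : K * (b' : ℤ) ^ 2 = k₁ * (e₂ : ℤ) ^ 2 := by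
      have h5 : (b : ℤ) ^ 2 ≠ 0 := pow_ne_zero 2 hbz
      apply mul_left_cancel₀ h5
      push_cast at hK
      linear_combination -hK + (e₂ : ℤ) ^ 2 * hk₁
    have hK2 : K * (b : ℤ) ^ 2 = k₂ * (e₁ : ℤ) ^ 2 := by
      have h5 : (b' : ℤ) ^ 2 ≠ 0 := pow_ne_zero 2 hbz'
      apply mul_left_cancel₀ h5
      push_cast at hK
      linear_combination -hK + (e₁ : ℤ) ^ 2 * hk₂
    have hjr : jr K (a * a') = jr k₁ a * jr k₂ a' := by
      unfold jr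
      rw [if_pos (ha.mul ha'), if_pos ha, if_pos ha']
      have hane : a ≠ 0 := by rintro rfl; simp at ha
      have hane' : a' ≠ 0 := by rintro rfl; simp at ha'
      have : NeZero a := ⟨hane⟩
      have : NeZero a' := ⟨hane'⟩
      rw [jacobiSym.mul_right K a a', a2_jac hab' c2a hK1, a2_jac ha'b c1a' hK2]
      push_cast
      ring
    have hmu : (ArithmeticFunction.moebius (e₁ * e₂) : ℤ) =
        ArithmeticFunction.moebius e₁ * ArithmeticFunction.moebius e₂ :=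
      ArithmeticFunction.isMultiplicative_moebius.map_mul_of_coprime c12
    rw [hjr, hmu]
    push_cast
    have he1 : (e₁ : ℝ) ≠ 0 := by
      have : e₁ ≠ 0 := by rintro rfl; exact hb0 (Nat.eq_zero_of_zero_dvd h₁)
      exact_mod_cast this
    have he2 : (e₂ : ℝ) ≠ 0 := by
      have : e₂ ≠ 0 := by rintro rfl; exact hb0' (Nat.eq_zero_of_zero_dvd h₂)
      exact_mod_cast this
    field_simp
  · rw [if_neg (fun h => hd (hcond.1 h))]
    rcases not_and_or.1 hd with h3 | h3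
    · rw [if_neg h3, zero_mul]
    · rw [if_neg h3, mul_zero]

theorem gg_mul (k : ℤ) {m n : ℕ} (h : Nat.Coprime m n) (hm : Odd m) (hn : Odd n) :
    gg k (m * n) = gg k m * gg k n := by
  have hm0 : m ≠ 0 := by rintro rfl; simp at hm
  have hn0 : n ≠ 0 := by rintro rfl; simp at hn
  have em := sq1_mul_sq2 m hm0
  have en := sq1_mul_sq2 n hn0
  have ham : sq1 m ∣ m := Dvd.intro _ em
  have han : sq1 n ∣ n := Dvd.intro _ en
  have hbm : sq2 m ∣ m := by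
    refine Dvd.dvd.trans (dvd_pow_self _ two_ne_zero) (Dvd.intro_left (sq1 m) em)
  have hbn : sq2 n ∣ n := by
    refine Dvd.dvd.trans (dvd_pow_self _ two_ne_zero) (Dvd.intro_left (sq1 n) en)
  have hb0 : sq2 m ≠ 0 := fun h0 => hm0 (Nat.eq_zero_of_zero_dvd (h0 ▸ hbm))
  have hb0' : sq2 n ≠ 0 := fun h0 => hn0 (Nat.eq_zero_of_zero_dvd (h0 ▸ hbn))
  have hao : Odd (sq1 m) := hm.of_dvd_nat ham
  have hao' : Odd (sq1 n) := hn.of_dvd_nat han
  have hbb : Nat.Coprime (sq2 m) (sq2 n) :=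
    Nat.Coprime.coprime_dvd_left hbm (h.coprime_dvd_right hbn)
  have hba' : Nat.Coprime (sq2 m) (sq1 n) :=
    Nat.Coprime.coprime_dvd_left hbm (h.coprime_dvd_right han)
  have hb'a : Nat.Coprime (sq2 n) (sq1 m) :=
    Nat.Coprime.coprime_dvd_left hbn (h.symm.coprime_dvd_right ham)
  rw [a2_gg, a2_gg, a2_gg, sq1_mul h, sq2_mul h, a2_sum_divisors hbb]
  have e1 : ∑ x ∈ (sq2 m).divisors ×ˢ (sq2 n).divisors,
      a2_term k (sq1 m * sq1 n) (sq2 m * sq2 n) (x.1 * x.2) =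
      (∑ e ∈ (sq2 m).divisors, a2_term k (sq1 m) (sq2 m) e) *
        ∑ e ∈ (sq2 n).divisors, a2_term k (sq1 n) (sq2 n) e := by
    rw [Finset.sum_mul_sum, ← Finset.sum_product']
    refine Finset.sum_congr rfl fun x hx => ?_
    rw [mem_product, Nat.mem_divisors, Nat.mem_divisors] at hx
    exact a2_term_mul k hao hao' hb0 hb0' hb'a hba' hbb hx.1.1 hx.2.1
  rw [e1]
  push_cast
  rw [Real.sqrt_mul (Nat.cast_nonneg _)]
  rw [mul_div_mul_comm]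

end Pool.Agent.MP0016c7.Rz
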