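import Mathlib
import Pool.Agent.Lib.MP_0016c7_nt.Theta
import Pool.Agent.Lib.MP_0016c7_nt.Rz.Defs
import Pool.Agent.Lib.MP_0016c7_nt.Rz.DefsC
import Pool.Agent.Lib.MP_0016c7_nt.Rz.DefsF
import Pool.Agent.Lib.MP_0016c7_nt.Rz.DefsE
import Pool.Agent.Lib.MP_0016c7_nt.Rz.Ker1

set_option autoImplicit false

open Finset MeasureTheory Filter Topology
open scoped Real ContDiff

namespace Pool.Agent.MP0016c7.Rz

private theorem lw_smooth_lip : ∃ K : ℝ, 0 < K ∧ ∀ x y : ℝ,
    |Real.smoothTransition x - Real.smoothTransition y| ≤ K * |x - y| := by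
  have h1 : ContDiff ℝ 1 Real.smoothTransition := Real.smoothTransition.contDiff
  have h2 : Continuous (deriv Real.smoothTransition) := h1.continuous_deriv le_rfl
  obtain ⟨C, hC⟩ := (isCompact_Icc (a := (0 : ℝ)) (b := 1)).exists_bound_of_continuousOn
    h2.continuousOn
  refine ⟨|C| + 1, by positivity, fun x y => ?_⟩
  rw [← Real.smoothTransition.projIcc (x := x), ← Real.smoothTransition.projIcc (x := y)]
  have h3 := (convex_Icc (0 : ℝ) 1).norm_image_sub_le_of_norm_deriv_le
    (f := Real.smoothTransition) (C := |C| + 1)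
    (fun z _ => (h1.differentiable (by norm_num)).differentiableAt)
    (fun z hz => (hC z hz).trans ((le_abs_self C).trans (by linarith)))
    (Set.projIcc (0 : ℝ) 1 zero_le_one y).2 (Set.projIcc (0 : ℝ) 1 zero_le_one x).2
  rw [Real.norm_eq_abs, Real.norm_eq_abs] at h3
  refine h3.trans ?_
  exact mul_le_mul_of_nonneg_left (Set.abs_projIcc_sub_projIcc zero_le_one) (by positivity)

theorem lipW_Wt (θ₁ δ : ℝ) (hθ₁ : 0 < θ₁) (hδ : 0 < δ) (hθ : θ₁ + 3 * δ < 1 / 2) (c : ℝ) (hc : c = 0 ∨ c = 1)
    {ρ h : ℝ → ℝ} (hρ : Bump ρ (-(δ / 2)) (δ / 2)) (hh : Bump h 0 θ₁) :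
    ∃ C X₀ : ℝ, 0 < C ∧ ∀ X : ℝ, X₀ ≤ X → ∀ Y ∈ Set.Icc (-1 : ℝ) (1 / 2 + δ),
      LipW (θ₁ + 3 * δ) X C (Wt c ρ h X θ₁ δ Y) := by
  obtain ⟨C₁, hC₁, hb⟩ := abs_kL_le hρ hh c hc
  obtain ⟨C₂, hC₂, hl⟩ := kL_lip hρ hh c hc
  obtain ⟨K, hK, hs⟩ := lw_smooth_lip
  refine ⟨C₁ + C₂ + C₁ * K / δ, Real.exp 1, by positivity, fun X hX Y hY => ?_⟩
  have hX0 : 0 < X := lt_of_lt_of_le (Real.exp_pos 1) hX
  have hL1 : 1 ≤ Real.log X := by
    rw [Real.le_log_iff_exp_le hX0]
    exact hX
  have hL0 : 0 < Real.log X := by linarith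
  set L := Real.log X with hL
  have hs0 : ∀ x : ℝ, |1 - Real.smoothTransition x| ≤ 1 := by
    intro x
    rw [abs_le]
    constructor
    · linarith [Real.smoothTransition.le_one x]
    · linarith [Real.smoothTransition.nonneg x]
  have hCK : 0 ≤ C₁ * K / δ := by positivity
  constructor
  · intro l n
    unfold Wt
    rw [abs_mul]
    calc _ ≤ C₁ * 1 := mul_le_mul (hb _ _ _ hL0) (hs0 _) (abs_nonneg _) hC₁.le
      _ ≤ _ := by linarith
  · intro l m n _ _
    unfold Wt
    rw [← hL]
    set k1 := kL c ρ h L (Y - Real.log m / L) (Real.log l / L) with hk1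
    set k2 := kL c ρ h L (Y - Real.log n / L) (Real.log l / L) with hk2
    set t1 := ((Real.log m + Real.log l) / L - Y - θ₁ - δ) / δ with ht1
    set t2 := ((Real.log n + Real.log l) / L - Y - θ₁ - δ) / δ with ht2
    have e1 : k1 * (1 - Real.smoothTransition t1) - k2 * (1 - Real.smoothTransition t2) =
        (k1 - k2) * (1 - Real.smoothTransition t1) -
          k2 * (Real.smoothTransition t1 - Real.smoothTransition t2) := by ring
    have e2 : |k1 - k2| ≤ C₂ * |Real.log m - Real.log n| := by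
      refine (hl L _ _ _ hL0).trans ?_
      refine mul_le_mul_of_nonneg_left ?_ hC₂.le
      have : Y - Real.log m / L - (Y - Real.log n / L) = -((Real.log m - Real.log n) / L) := by
        ring
      rw [this, abs_neg, abs_div, abs_of_pos hL0]
      exact div_le_self (abs_nonneg _) hL1
    have e3 : |Real.smoothTransition t1 - Real.smoothTransition t2| ≤
        K / δ * |Real.log m - Real.log n| := by
      refine (hs _ _).trans ?_
      have : t1 - t2 = (Real.log m - Real.log n) / L / δ := by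
        rw [ht1, ht2]
        ring
      rw [this, abs_div, abs_div, abs_of_pos hL0, abs_of_pos hδ]
      have h4 : |Real.log m - Real.log n| / L / δ ≤ |Real.log m - Real.log n| / δ :=
        div_le_div_of_nonneg_right (div_le_self (abs_nonneg _) hL1) hδ.le
      calc K * (|Real.log m - Real.log n| / L / δ) ≤ K * (|Real.log m - Real.log n| / δ) :=
            mul_le_mul_of_nonneg_left h4 hK.le
        _ = _ := by ring
    rw [e1]
    calc |(k1 - k2) * (1 - Real.smoothTransition t1) -
          k2 * (Real.smoothTransition t1 - Real.smoothTransition t2)|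
        ≤ |(k1 - k2) * (1 - Real.smoothTransition t1)| +
          |k2 * (Real.smoothTransition t1 - Real.smoothTransition t2)| := abs_sub _ _
      _ = |k1 - k2| * |1 - Real.smoothTransition t1| +
          |k2| * |Real.smoothTransition t1 - Real.smoothTransition t2| := by
        rw [abs_mul, abs_mul]
      _ ≤ C₂ * |Real.log m - Real.log n| * 1 + C₁ * (K / δ * |Real.log m - Real.log n|) := by
        refine add_le_add ?_ ?_
        · exact mul_le_mul e2 (hs0 _) (abs_nonneg _) (by positivity)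
        · exact mul_le_mul (hb _ _ _ hL0) e3 (abs_nonneg _) hC₁.le
      _ ≤ (C₁ + C₂ + C₁ * K / δ) * |Real.log m - Real.log n| := by
        have h5 : 0 ≤ C₁ * |Real.log m - Real.log n| := by positivity
        have h6 : C₁ * (K / δ * |Real.log m - Real.log n|) =
          C₁ * K / δ * |Real.log m - Real.log n| := by ring
        rw [h6]
        linarith
  · intro l n hln
    unfold Wt
    rw [← hL, kL_eq_zero hh, zero_mul]
    rw [le_div_iff₀ hL0]
    have h1 := Real.log_lt_log (Real.rpow_pos_of_pos hX0 _) hln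
    rw [Real.log_rpow hX0, ← hL] at h1
    nlinarith
  · intro l n hln
    unfold Wt
    rw [← hL]
    have hpos : (0 : ℝ) < (l : ℝ) * n := lt_trans (Real.rpow_pos_of_pos hX0 _) hln
    have hl0 : (l : ℝ) ≠ 0 := by
      intro h'
      rw [h', zero_mul] at hpos
      exact lt_irrefl _ hpos
    have hn0 : (n : ℝ) ≠ 0 := by
      intro h'
      rw [h', mul_zero] at hpos
      exact lt_irrefl _ hpos
    have h1 := Real.log_lt_log (Real.rpow_pos_of_pos hX0 _) hln
    rw [Real.log_rpow hX0, ← hL, Real.log_mul hl0 hn0] at h1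
    rw [Real.smoothTransition.one_of_one_le, sub_self, mul_zero]
    rw [le_div_iff₀ hδ]
    have h2 : 1 / 2 + (θ₁ + 3 * δ) ≤ (Real.log n + Real.log l) / L := by
      rw [le_div_iff₀ hL0]
      linarith
    have h3 := hY.2
    linarith

end Pool.Agent.MP0016c7.Rz
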