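import Mathlib
import Pool.Agent.Lib.MP_0016c7_nt.Theta
import Pool.Agent.Lib.MP_0016c7_nt.Rz.Defs
import Pool.Agent.Lib.MP_0016c7_nt.Rz.DefsC
import Pool.Agent.Lib.MP_0016c7_nt.Rz.DefsF
import Pool.Agent.Lib.MP_0016c7_nt.Rz.DefsE

set_option autoImplicit false

open Finset MeasureTheory Filter Topology
open scoped Real ContDiff

namespace Pool.Agent.MP0016c7.Rz

private lemma ghl_exp_int (k : ℝ) (hk : 0 < k) : Integrable (fun x : ℝ => Real.exp (-(k * |x|))) := by
  have h1 : IntegrableOn (fun x : ℝ => Real.exp (-(k * |x|))) (Set.Ioi 0) := by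
    refine (integrableOn_exp_mul_Ioi (a := -k) (by linarith) 0).congr_fun ?_ measurableSet_Ioi
    intro x hx
    have hx' : 0 < x := hx
    simp only [abs_of_pos hx']
    ring_nf
  have h2 : IntegrableOn (fun x : ℝ => Real.exp (-(k * |x|))) (Set.Iic 0) := by
    refine (integrableOn_exp_mul_Iic (a := k) hk 0).congr_fun ?_ measurableSet_Iic
    intro x hx
    have hx' : x ≤ 0 := hx
    simp only [abs_of_nonpos hx']
    ring_nf
  rw [← integrableOn_univ, ← Set.Iic_union_Ioi (a := (0 : ℝ))]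
  exact h2.union h1

private lemma ghl_kap_le (a : ℝ) (ha : a = 0 ∨ a = 1) (x : ℝ) : kap a x ≤ Real.exp (-(1 / 2 * |x|)) := by
  unfold kap
  refine Real.exp_le_exp.2 ?_
  have hpi := Real.pi_gt_three
  rcases le_or_gt 0 x with hx | hx
  · rw [abs_of_nonneg hx]
    have h1 : 2 * x + 1 ≤ Real.exp (2 * x) := Real.add_one_le_exp _
    have h2 : 3 * (2 * x + 1) ≤ π * Real.exp (2 * x) := by nlinarith
    rcases ha with rfl | rfl <;> nlinarith
  · rw [abs_of_neg hx]
    have h2 : 0 ≤ π * Real.exp (2 * x) := by positivity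
    rcases ha with rfl | rfl <;> nlinarith

private lemma ghl_kap_cont (a : ℝ) : Continuous (kap a) := by
  unfold kap
  fun_prop

private lemma ghl_kap_int (a : ℝ) (ha : a = 0 ∨ a = 1) : Integrable (kap a) := by
  refine Integrable.mono' (ghl_exp_int (1 / 2) (by norm_num)) (ghl_kap_cont a).aestronglyMeasurable ?_
  refine Filter.Eventually.of_forall fun x => ?_
  rw [Real.norm_eq_abs, abs_of_nonneg (by unfold kap; positivity)]
  exact ghl_kap_le a ha x

private lemma ghl_Gam0_pos (a : ℝ) (ha : a = 0 ∨ a = 1) : 0 < Gam0 a := by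
  unfold Gam0
  rw [integral_pos_iff_support_of_nonneg (fun x => by unfold kap; positivity) (ghl_kap_int a ha)]
  have : Function.support (kap a) = Set.univ := by
    ext x
    simp [kap, Real.exp_ne_zero]
  rw [this]
  simp

private lemma ghl_norm (a : ℝ) (ha : a = 0 ∨ a = 1) (s : ℂ) (L : ℝ) (hL : 4 * |s.re| + 1 ≤ L) (x : ℝ) :
    ‖(kap a x : ℂ) * Complex.exp (s * (x / L : ℝ))‖ ≤ Real.exp (-(1 / 4 * |x|)) := by
  rw [norm_mul, Complex.norm_real, Real.norm_eq_abs, abs_of_nonneg (by unfold kap; positivity),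
    Complex.norm_exp]
  have hLpos : 0 < L := by
    have := abs_nonneg s.re
    linarith
  have h1 : (s * ((x / L : ℝ) : ℂ)).re ≤ 1 / 4 * |x| := by
    rw [Complex.re_mul_ofReal]
    calc s.re * (x / L) ≤ |s.re * (x / L)| := le_abs_self _
      _ = |s.re| * (|x| / L) := by rw [abs_mul, abs_div, abs_of_pos hLpos]
      _ = |s.re| / L * |x| := by ring
      _ ≤ 1 / 4 * |x| := by
          refine mul_le_mul_of_nonneg_right ?_ (abs_nonneg x)
          rw [div_le_iff₀ hLpos]
          linarith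
  calc kap a x * Real.exp ((s * ((x / L : ℝ) : ℂ)).re) ≤
      Real.exp (-(1 / 2 * |x|)) * Real.exp (1 / 4 * |x|) := by
        gcongr
        exact ghl_kap_le a ha x
    _ = _ := by
        rw [← Real.exp_add]
        ring_nf

theorem Gh_bound (a : ℝ) (ha : a = 0 ∨ a = 1) (c : ℝ) : ∃ C L₀ : ℝ, 0 < C ∧ ∀ L : ℝ, L₀ ≤ L →
    ∀ t : ℝ, ‖Gh a L (c + Complex.I * t)‖ ≤ C := by
  have hG := ghl_Gam0_pos a ha
  refine ⟨(∫ x : ℝ, Real.exp (-(1 / 4 * |x|))) / Gam0 a + 1, 4 * |c| + 1, ?_, ?_⟩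
  · have : 0 ≤ ∫ x : ℝ, Real.exp (-(1 / 4 * |x|)) := integral_nonneg fun x => (Real.exp_pos _).le
    positivity
  intro L hL t
  unfold Gh
  rw [norm_div, Complex.norm_real, Real.norm_eq_abs, abs_of_pos hG]
  have h1 : ‖∫ x : ℝ, (kap a x : ℂ) * Complex.exp ((c + Complex.I * t) * (x / L : ℝ))‖ ≤
      ∫ x : ℝ, Real.exp (-(1 / 4 * |x|)) := by
    refine norm_integral_le_of_norm_le (ghl_exp_int (1 / 4) (by norm_num)) ?_
    refine Filter.Eventually.of_forall fun x => ghl_norm a ha _ L ?_ x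
    simpa using hL
  have h2 : ‖∫ x : ℝ, (kap a x : ℂ) * Complex.exp ((c + Complex.I * t) * (x / L : ℝ))‖ / Gam0 a ≤
      (∫ x : ℝ, Real.exp (-(1 / 4 * |x|))) / Gam0 a := by gcongr
  linarith

theorem Gh_lim (a : ℝ) (ha : a = 0 ∨ a = 1) (s : ℂ) :
    Tendsto (fun L : ℝ => Gh a L s) atTop (𝓝 1) := by
  have hG := ghl_Gam0_pos a ha
  have hG' : (Gam0 a : ℂ) ≠ 0 := by exact_mod_cast hG.ne'
  have h1 : (1 : ℂ) = (∫ x : ℝ, (kap a x : ℂ)) / (Gam0 a : ℂ) := by
    have h0 : (∫ x : ℝ, (kap a x : ℂ)) = (Gam0 a : ℂ) := integral_ofReal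
    rw [h0]
    exact (div_self hG').symm
  rw [h1]
  unfold Gh
  refine Tendsto.div_const ?_ _
  refine tendsto_integral_filter_of_dominated_convergence (fun x => Real.exp (-(1 / 4 * |x|)))
    ?_ ?_ (ghl_exp_int (1 / 4) (by norm_num)) ?_
  · refine Filter.Eventually.of_forall fun L => Continuous.aestronglyMeasurable ?_
    have := ghl_kap_cont a
    fun_prop
  · filter_upwards [eventually_ge_atTop (4 * |s.re| + 1)] with L hL
    exact Filter.Eventually.of_forall fun x => ghl_norm a ha s L hL x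
  · refine Filter.Eventually.of_forall fun x => ?_
    have h2 : Tendsto (fun L : ℝ => x / L) atTop (𝓝 0) := tendsto_const_nhds.div_atTop tendsto_id
    have h3 : Tendsto (fun L : ℝ => (kap a x : ℂ) * Complex.exp (s * ((x / L : ℝ) : ℂ))) atTop
        (𝓝 ((kap a x : ℂ) * Complex.exp (s * ((0 : ℝ) : ℂ)))) := by
      refine Tendsto.const_mul _ ?_
      refine (Complex.continuous_exp.tendsto _).comp ?_
      refine Tendsto.const_mul _ ?_
      exact (Complex.continuous_ofReal.tendsto _).comp h2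
    simpa using h3

end Pool.Agent.MP0016c7.Rz
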