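import Mathlib
import Pool.Agent.Lib.MP_0016c7_nt.Theta
import Pool.Agent.Lib.MP_0016c7_nt.Rz.Defs
import Pool.Agent.Lib.MP_0016c7_nt.Rz.DefsC
import Pool.Agent.Lib.MP_0016c7_nt.Rz.DefsF
import Pool.Agent.Lib.MP_0016c7_nt.Rz.DefsE

set_option autoImplicit false

open Finset MeasureTheory Filter Topology
open scoped Real ContDiff FourierTransform SchwartzMap

namespace Pool.Agent.MP0016c7.Rz

private noncomputable def lapPhi (ρ : ℝ → ℝ) (c : ℝ) (y : ℝ) : ℂ :=
  (ρ y : ℂ) * Complex.exp (-(c * y : ℝ))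

private lemma lapCs {ρ : ℝ → ℝ} {a b : ℝ} (hρ : Bump ρ a b) : HasCompactSupport ρ :=
  HasCompactSupport.of_support_subset_isCompact (isCompact_Icc (a := a) (b := b))
    fun t ht => ⟨(hρ.supp t ht).1.le, (hρ.supp t ht).2.le⟩

private lemma lapPhi_smooth {ρ : ℝ → ℝ} {a b : ℝ} (hρ : Bump ρ a b) (c : ℝ) :
    ContDiff ℝ ∞ (lapPhi ρ c) := by
  unfold lapPhi
  refine (Complex.ofRealCLM.contDiff.comp hρ.smooth).mul ?_
  have h1 : ContDiff ℝ ∞ (fun y : ℝ => -(c * y)) := by fun_prop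
  have h2 : ContDiff ℝ ∞ (fun y : ℝ => ((-(c * y) : ℝ) : ℂ)) :=
    Complex.ofRealCLM.contDiff.comp h1
  have h3 := h2.cexp
  simpa using h3

private lemma lapPhi_cs {ρ : ℝ → ℝ} {a b : ℝ} (hρ : Bump ρ a b) (c : ℝ) :
    HasCompactSupport (lapPhi ρ c) := by
  have h1 : HasCompactSupport (fun y => (ρ y : ℂ)) :=
    (lapCs hρ).comp_left (g := fun x : ℝ => (x : ℂ)) (by simp)
  exact h1.mul_right

private noncomputable def lapS {ρ : ℝ → ℝ} {a b : ℝ} (hρ : Bump ρ a b) (c : ℝ) : 𝓢(ℝ, ℂ) :=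
  (lapPhi_cs hρ c).toSchwartzMap (lapPhi_smooth hρ c)

private lemma rhat_eq_F {ρ : ℝ → ℝ} (c t : ℝ) :
    rhat ρ (c + Complex.I * t) = 𝓕 (lapPhi ρ c) (t / (2 * π)) := by
  rw [Real.fourier_real_eq_integral_exp_smul]
  unfold rhat lapPhi
  refine integral_congr_ae (ae_of_all _ fun y => ?_)
  simp only [smul_eq_mul]
  rw [mul_left_comm, ← Complex.exp_add]
  congr 2
  have hpi : (π : ℂ) ≠ 0 := by exact_mod_cast Real.pi_ne_zero
  push_cast
  field_simp
  ring

private lemma rhat_eq_S {ρ : ℝ → ℝ} {a b : ℝ} (hρ : Bump ρ a b) (c t : ℝ) :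
    rhat ρ (c + Complex.I * t) = (𝓕 (lapS hρ c)) (t / (2 * π)) := by
  rw [rhat_eq_F, SchwartzMap.fourier_coe]
  rfl

/-- the transform is integrable on vertical lines -/
private lemma rhat_integrable {ρ : ℝ → ℝ} {a b : ℝ} (hρ : Bump ρ a b) (c : ℝ) :
    Integrable (fun x : ℝ => rhat ρ (c + Complex.I * x)) := by
  simp only [rhat_eq_S hρ]
  have h1 := (𝓕 (lapS hρ c)).integrable (μ := volume)
  exact h1.comp_div (by positivity)

theorem laplace_inv {ρ : ℝ → ℝ} {a b : ℝ} (hρ : Bump ρ a b) (c Y : ℝ) :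
    Integrable (fun x : ℝ => rhat ρ (c + Complex.I * x) * Complex.exp ((c + Complex.I * x) * Y)) ∧
    1 / (2 * π) * ∫ x : ℝ, rhat ρ (c + Complex.I * x) * Complex.exp ((c + Complex.I * x) * Y) =
      (ρ Y : ℂ) := by
  constructor
  · refine (rhat_integrable hρ c).mul_bdd (c := Real.exp (c * Y)) (by fun_prop)
      (ae_of_all _ fun x => ?_)
    rw [Complex.norm_exp]
    apply le_of_eq
    congr 1
    simp
  · have hinv := (lapPhi_smooth hρ c).continuous.fourierInv_fourier_eq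
      ((lapS hρ c).integrable (μ := volume)) ((𝓕 (lapS hρ c)).integrable (μ := volume))
    have h1 := congrFun hinv Y
    rw [Real.fourierInv_eq'] at h1
    have hpi := Real.pi_pos
    -- change of variables
    have h2 : ∫ x : ℝ, rhat ρ (c + Complex.I * x) * Complex.exp ((c + Complex.I * x) * Y) =
        (2 * π : ℝ) • ∫ v : ℝ, Complex.exp ((c * Y : ℝ)) *
          (Complex.exp (((2 * π * inner ℝ v Y : ℝ) : ℂ) * Complex.I) • 𝓕 (lapPhi ρ c) v) := by
      have h3 := Measure.integral_comp_div (fun v : ℝ => Complex.exp ((c * Y : ℝ)) *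
          (Complex.exp (((2 * π * inner ℝ v Y : ℝ) : ℂ) * Complex.I) • 𝓕 (lapPhi ρ c) v))
          (2 * π)
      rw [abs_of_pos (by positivity)] at h3
      rw [← h3]
      refine integral_congr_ae (ae_of_all _ fun x => ?_)
      simp only [smul_eq_mul]
      rw [rhat_eq_F, ← mul_assoc, ← Complex.exp_add, mul_comm]
      congr 2
      have hpi' : (π : ℂ) ≠ 0 := by exact_mod_cast Real.pi_ne_zero
      simp
      field_simp
    rw [h2, integral_const_mul, h1]
    unfold lapPhi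
    have hpi' : (π : ℂ) ≠ 0 := by exact_mod_cast Real.pi_ne_zero
    have h4 : Complex.exp ((c * Y : ℝ) : ℂ) * Complex.exp (-((c * Y : ℝ) : ℂ)) = 1 := by
      rw [← Complex.exp_add]; simp
    rw [Complex.real_smul]
    push_cast at h4 ⊢
    calc 1 / (2 * (π : ℂ)) * (2 * π * (Complex.exp (c * Y) * (ρ Y * Complex.exp (-(c * Y))))) =
        (1 / (2 * (π : ℂ)) * (2 * π)) * (ρ Y * (Complex.exp (c * Y) * Complex.exp (-(c * Y)))) := by
          ring
      _ = ρ Y := by rw [h4]; field_simp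

private lemma rhat_continuous {ρ : ℝ → ℝ} {a b : ℝ} (hρ : Bump ρ a b) (c : ℝ) :
    Continuous (fun x : ℝ => rhat ρ (c + Complex.I * x)) := by
  simp only [rhat_eq_S hρ]
  exact (𝓕 (lapS hρ c)).continuous.comp (by fun_prop)

private lemma lap_set {ρ : ℝ → ℝ} (Y : ℝ) :
    ∫ u in Set.Ioi (0 : ℝ), (ρ (Y - u) : ℂ) = ((∫ t in Set.Iic Y, ρ t : ℝ) : ℂ) := by
  rw [← integral_complex_ofReal, integral_Iic_eq_integral_Iio, ← integral_indicator
    measurableSet_Ioi, ← integral_indicator measurableSet_Iio,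
    ← integral_sub_left_eq_self ((Set.Iio Y).indicator fun t => (ρ t : ℂ)) volume Y]
  refine integral_congr_ae (ae_of_all _ fun u => ?_)
  by_cases hu : 0 < u
  · simp [Set.indicator, hu]
  · simp [Set.indicator, hu]

theorem laplace_inv_div {ρ : ℝ → ℝ} {a b : ℝ} (hρ : Bump ρ a b) (c : ℝ) (hc : 0 < c) (Y : ℝ) :
    1 / (2 * π) * ∫ x : ℝ, rhat ρ (c + Complex.I * x) * Complex.exp ((c + Complex.I * x) * Y) /
      (c + Complex.I * x) = ((∫ t in Set.Iic Y, ρ t : ℝ) : ℂ) := by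
  rw [← lap_set]
  have h1 : ∀ u : ℝ, (ρ (Y - u) : ℂ) = 1 / (2 * π) * ∫ x : ℝ, rhat ρ (c + Complex.I * x) *
      Complex.exp ((c + Complex.I * x) * (Y - u)) := by
    intro u
    have := (laplace_inv hρ c (Y - u)).2
    push_cast at this
    exact this.symm
  simp only [h1]
  rw [integral_const_mul]
  congr 1
  rw [integral_integral_swap]
  · refine integral_congr_ae (ae_of_all _ fun x => ?_)
    have hre : (-(c + Complex.I * x) : ℂ).re < 0 := by simp; exact hc
    have h2 : ∀ u : ℝ, rhat ρ (c + Complex.I * x) *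
        Complex.exp ((c + Complex.I * x) * (Y - u)) =
        rhat ρ (c + Complex.I * x) * Complex.exp ((c + Complex.I * x) * Y) *
          Complex.exp (-(c + Complex.I * x) * u) := by
      intro u
      rw [mul_assoc, ← Complex.exp_add]
      congr 2
      ring
    simp only [h2]
    rw [integral_const_mul, integral_exp_mul_complex_Ioi hre, Complex.ofReal_zero, mul_zero,
      Complex.exp_zero, neg_div_neg_eq, mul_one_div]
  · have hb : Integrable (fun z : ℝ × ℝ => (Real.exp (-c * z.1)) *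
        (‖rhat ρ (c + Complex.I * z.2)‖ * Real.exp (c * Y)))
        ((volume.restrict (Set.Ioi 0)).prod volume) :=
      Integrable.mul_prod (exp_neg_integrableOn_Ioi 0 hc)
        ((rhat_integrable hρ c).norm.mul_const _)
    refine hb.mono' ?_ (ae_of_all _ fun z => ?_)
    · have := rhat_continuous hρ c
      apply Continuous.aestronglyMeasurable
      show Continuous (fun z : ℝ × ℝ => rhat ρ (c + Complex.I * z.2) *
        Complex.exp ((c + Complex.I * z.2) * (Y - z.1)))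
      exact (this.comp continuous_snd).mul (by fun_prop)
    · show ‖rhat ρ (c + Complex.I * z.2) * Complex.exp ((c + Complex.I * z.2) * (Y - z.1))‖ ≤ _
      rw [norm_mul, Complex.norm_exp, mul_left_comm, ← Real.exp_add]
      apply le_of_eq
      congr 2
      simp
      ring

/-- reflection -/
private lemma hhat_eq {h : ℝ → ℝ} (w : ℂ) : hhat h w = rhat (fun t => h (-t)) w := by
  unfold hhat rhat
  rw [← integral_neg_eq_self]
  refine integral_congr_ae (ae_of_all _ fun t => ?_)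
  simp

private lemma bump_neg {h : ℝ → ℝ} {a b : ℝ} (hh : Bump h a b) :
    Bump (fun t => h (-t)) (-b) (-a) := by
  refine ⟨hh.smooth.comp contDiff_neg, fun t ht => ?_⟩
  have := hh.supp (-t) ht
  constructor <;> linarith [this.1, this.2]

theorem laplace_inv_h {h : ℝ → ℝ} {a b : ℝ} (hh : Bump h a b) (c v : ℝ) :
    Integrable (fun x : ℝ => hhat h (c + Complex.I * x) * Complex.exp (-(c + Complex.I * x) * v)) ∧
    1 / (2 * π) * ∫ x : ℝ, hhat h (c + Complex.I * x) * Complex.exp (-(c + Complex.I * x) * v) =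
      (h v : ℂ) := by
  have h1 := laplace_inv (bump_neg hh) c (-v)
  have h2 : ∀ x : ℝ, rhat (fun t => h (-t)) (c + Complex.I * x) *
      Complex.exp ((c + Complex.I * x) * ((-v : ℝ) : ℂ)) =
      hhat h (c + Complex.I * x) * Complex.exp (-(c + Complex.I * x) * v) := by
    intro x
    rw [hhat_eq]
    congr 2
    push_cast
    ring
  simp only [h2, neg_neg] at h1
  exact h1

theorem laplace_inv_h_div {h : ℝ → ℝ} {a b : ℝ} (hh : Bump h a b) (c : ℝ) (hc : 0 < c) (v : ℝ) :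
    1 / (2 * π) * ∫ x : ℝ, hhat h (c + Complex.I * x) * Complex.exp (-(c + Complex.I * x) * v) /
      (c + Complex.I * x) = (HH h v : ℂ) := by
  have h1 := laplace_inv_div (bump_neg hh) c hc (-v)
  have h2 : ∀ x : ℝ, rhat (fun t => h (-t)) (c + Complex.I * x) *
      Complex.exp ((c + Complex.I * x) * ((-v : ℝ) : ℂ)) =
      hhat h (c + Complex.I * x) * Complex.exp (-(c + Complex.I * x) * v) := by
    intro x
    rw [hhat_eq]
    congr 2
    push_cast
    ring
  simp only [h2] at h1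
  rw [h1]
  unfold HH
  congr 1
  have h3 := integral_comp_neg_Iic (-v) h
  rw [h3, neg_neg]

theorem rhat_decay {ρ : ℝ → ℝ} {a b : ℝ} (hρ : Bump ρ a b) (c A : ℝ) : ∃ C : ℝ, 0 < C ∧ ∀ t : ℝ,
    ‖rhat ρ (c + Complex.I * t)‖ * (1 + |t|) ^ A ≤ C := by
  obtain ⟨k, hk⟩ := exists_nat_ge A
  have h1 := fun x => SchwartzMap.one_add_le_sup_seminorm_apply (𝕜 := ℝ) (m := (k, 0))
    (le_refl k) (le_refl 0) (𝓕 (lapS hρ c)) x
  set C0 : ℝ := 2 ^ k * ((Finset.Iic (k, 0)).sup fun m => SchwartzMap.seminorm ℝ m.1 m.2)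
    (𝓕 (lapS hρ c)) with hC0
  refine ⟨(2 * π) ^ k * |C0| + 1, by positivity, fun t => ?_⟩
  have h2 := h1 (t / (2 * π))
  rw [norm_iteratedFDeriv_zero, ← rhat_eq_S hρ] at h2
  have hpi := Real.pi_gt_three
  have h3 : (1 + |t|) ^ A ≤ (1 + |t|) ^ k := by
    rw [← Real.rpow_natCast]
    exact Real.rpow_le_rpow_of_exponent_le (by linarith [abs_nonneg t]) hk
  have h4 : 1 + |t| ≤ 2 * π * (1 + ‖t / (2 * π)‖) := by
    rw [Real.norm_eq_abs, abs_div, abs_of_pos (by positivity : (0:ℝ) < 2 * π), mul_add,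
      mul_div_cancel₀ _ (by positivity)]
    linarith
  have h5 : (1 + |t|) ^ k ≤ (2 * π) ^ k * (1 + ‖t / (2 * π)‖) ^ k := by
    rw [← mul_pow]
    exact pow_le_pow_left₀ (by positivity) h4 k
  calc ‖rhat ρ (c + Complex.I * t)‖ * (1 + |t|) ^ A
      ≤ ‖rhat ρ (c + Complex.I * t)‖ * ((2 * π) ^ k * (1 + ‖t / (2 * π)‖) ^ k) := by
        gcongr
        exact h3.trans h5
    _ = (2 * π) ^ k * ((1 + ‖t / (2 * π)‖) ^ k * ‖rhat ρ (c + Complex.I * t)‖) := by ring
    _ ≤ (2 * π) ^ k * C0 := by gcongr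
    _ ≤ (2 * π) ^ k * |C0| + 1 := by
        have : (2 * π) ^ k * C0 ≤ (2 * π) ^ k * |C0| := by gcongr; exact le_abs_self _
        linarith

theorem hhat_decay {h : ℝ → ℝ} {a b : ℝ} (hh : Bump h a b) (c A : ℝ) : ∃ C : ℝ, 0 < C ∧ ∀ t : ℝ,
    ‖hhat h (c + Complex.I * t)‖ * (1 + |t|) ^ A ≤ C := by
  simp only [hhat_eq]
  exact rhat_decay (bump_neg hh) c A

end Pool.Agent.MP0016c7.Rz
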