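import Mathlib
import Pool.Agent.Lib.MP_0016c7_nt.Theta
import Pool.Agent.Lib.MP_0016c7_nt.Rz.Defs
import Pool.Agent.Lib.MP_0016c7_nt.Rz.DefsC
import Pool.Agent.Lib.MP_0016c7_nt.Rz.DefsF
import Pool.Agent.Lib.MP_0016c7_nt.Rz.DefsE
import Pool.Agent.Lib.MP_0016c7_nt.Rz.Lap
import Pool.Agent.Lib.MP_0016c7_nt.Rz.GhL

set_option autoImplicit false

open Finset MeasureTheory Filter Topology
open scoped Real ContDiff

namespace Pool.Agent.MP0016c7.Rz

/-! ### the kernel -/

private lemma klr_exp_int {b : ℝ} (hb : 0 < b) :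
    Integrable (fun x : ℝ => Real.exp (b * x - π * Real.exp (2 * x))) := by
  have hc : Continuous (fun x : ℝ => Real.exp (b * x - π * Real.exp (2 * x))) := by fun_prop
  rw [← integrableOn_univ, ← Set.Iic_union_Ioi (a := (0 : ℝ))]
  refine IntegrableOn.union ?_ ?_
  · refine Integrable.mono' (integrableOn_exp_mul_Iic hb 0) hc.aestronglyMeasurable ?_
    refine ae_of_all _ fun x => ?_
    rw [Real.norm_eq_abs, Real.abs_exp]
    apply Real.exp_le_exp.2
    have := mul_pos Real.pi_pos (Real.exp_pos (2 * x))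
    linarith
  · have h1 : IntegrableOn (fun x : ℝ => Real.exp ((b + 1) ^ 2) * Real.exp (-1 * x))
        (Set.Ioi 0) := (integrableOn_exp_mul_Ioi (by norm_num) 0).const_mul _
    refine Integrable.mono' h1 hc.aestronglyMeasurable ?_
    refine (ae_restrict_iff' measurableSet_Ioi).2 (ae_of_all _ fun x hx => ?_)
    have hx0 : (0 : ℝ) < x := hx
    rw [Real.norm_eq_abs, Real.abs_exp, ← Real.exp_add]
    apply Real.exp_le_exp.2
    have h2 := Real.quadratic_le_exp_of_nonneg (x := 2 * x) (by linarith)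
    have h3 : (1 : ℝ) < π := by linarith [Real.pi_gt_three]
    have h4 : Real.exp (2 * x) ≤ π * Real.exp (2 * x) := by
      have := Real.exp_pos (2 * x)
      nlinarith
    nlinarith [sq_nonneg (b + 1 - x)]

private lemma klr_kap_int {a : ℝ} (ha : a = 0 ∨ a = 1) {c L : ℝ} (hc : 0 ≤ c) (hL : 0 < L) :
    Integrable (fun x : ℝ => kap a x * Real.exp (c * (x / L))) := by
  have hb : 0 < a + 1 / 2 + c / L := by
    have : 0 ≤ c / L := by positivity
    rcases ha with rfl | rfl <;> linarith
  refine (klr_exp_int hb).congr (ae_of_all _ fun x => ?_)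
  unfold kap
  simp only
  rw [← Real.exp_add]
  congr 1
  field_simp
  ring

private lemma klr_kap_int0 {a : ℝ} (ha : a = 0 ∨ a = 1) : Integrable (fun x : ℝ => kap a x) := by
  simpa using klr_kap_int ha (c := 0) (L := 1) le_rfl one_pos

private lemma klr_kap_cont (a : ℝ) : Continuous (kap a) := by
  unfold kap
  fun_prop

private lemma klr_kap_nonneg (a x : ℝ) : 0 ≤ kap a x := (Real.exp_pos _).le

/-! ### the function `HH` -/

section hh
variable {h : ℝ → ℝ} {θ : ℝ}

private lemma klr_cs {f : ℝ → ℝ} {b₁ b₂ : ℝ} (hf : Bump f b₁ b₂) : HasCompactSupport f := by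
  refine HasCompactSupport.intro (K := Set.Icc b₁ b₂) isCompact_Icc fun x hx => ?_
  by_contra h0
  have := hf.supp x h0
  exact hx ⟨this.1.le, this.2.le⟩

private lemma klr_int {f : ℝ → ℝ} {b₁ b₂ : ℝ} (hf : Bump f b₁ b₂) : Integrable f :=
  hf.smooth.continuous.integrable_of_hasCompactSupport (klr_cs hf)

private lemma klr_HH_cont (hh : Bump h 0 θ) : Continuous (HH h) := by
  have h1 : HH h = fun v => HH h 0 - ∫ t in (0 : ℝ)..v, h t := by
    funext v
    have := intervalIntegral.integral_Ioi_sub_Ioi' (f := h) (μ := volume) (a := 0) (b := v)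
      (klr_int hh).integrableOn (klr_int hh).integrableOn
    unfold HH
    linarith
  rw [h1]
  exact continuous_const.sub
    (intervalIntegral.continuous_primitive (fun a b => (klr_int hh).intervalIntegrable) 0)

private lemma klr_HH_zero (hh : Bump h 0 θ) {v : ℝ} (hv : θ ≤ v) : HH h v = 0 := by
  unfold HH
  refine setIntegral_eq_zero_of_forall_eq_zero fun t ht => ?_
  by_contra h0
  have := (hh.supp t h0).2
  have ht' : v < t := ht
  linarith

/-- `t ↦ HH (u + |t|)` is continuous with compact support -/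
private lemma klr_H_cont (hh : Bump h 0 θ) (u : ℝ) : Continuous (fun t : ℝ => HH h (u + |t|)) :=
  (klr_HH_cont hh).comp (by fun_prop)

private lemma klr_H_cs (hh : Bump h 0 θ) (u : ℝ) :
    HasCompactSupport (fun t : ℝ => HH h (u + |t|)) := by
  refine HasCompactSupport.intro (K := Set.Icc (-(θ - u)) (θ - u)) isCompact_Icc fun t ht => ?_
  apply klr_HH_zero hh
  by_contra hc
  push Not at hc
  apply ht
  have := abs_le.1 (show |t| ≤ θ - u by linarith)
  exact ⟨this.1, this.2⟩

end hh


/-! ### two-sided exponentials -/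

private lemma klr_two_int {s w : ℂ} (h1 : |s.re| < w.re) :
    IntegrableOn (fun t : ℝ => Complex.exp (-s * t - w * ((|t| : ℝ) : ℂ))) (Set.Iic 0) ∧
    IntegrableOn (fun t : ℝ => Complex.exp (-s * t - w * ((|t| : ℝ) : ℂ))) (Set.Ioi 0) ∧
    ∫ t : ℝ, Complex.exp (-s * t - w * ((|t| : ℝ) : ℂ)) = 2 * w / (w ^ 2 - s ^ 2) := by
  have h2 := abs_lt.1 h1
  have ha : 0 < (w - s).re := by rw [Complex.sub_re]; linarith
  have hb : (-(w + s)).re < 0 := by rw [Complex.neg_re, Complex.add_re]; linarith
  have e1 : Set.EqOn (fun t : ℝ => Complex.exp ((w - s) * t))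
      (fun t : ℝ => Complex.exp (-s * t - w * ((|t| : ℝ) : ℂ))) (Set.Iic 0) := by
    intro t ht
    have ht' : t ≤ 0 := ht
    simp only
    rw [abs_of_nonpos ht']
    congr 1
    push_cast
    ring
  have e2 : Set.EqOn (fun t : ℝ => Complex.exp (-(w + s) * t))
      (fun t : ℝ => Complex.exp (-s * t - w * ((|t| : ℝ) : ℂ))) (Set.Ioi 0) := by
    intro t ht
    have ht' : 0 < t := ht
    simp only
    rw [abs_of_pos ht']
    congr 1
    ring
  have i1 := (integrableOn_exp_mul_complex_Iic ha 0).congr_fun e1 measurableSet_Iic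
  have i2 := (integrableOn_exp_mul_complex_Ioi hb 0).congr_fun e2 measurableSet_Ioi
  refine ⟨i1, i2, ?_⟩
  rw [← intervalIntegral.integral_Iic_add_Ioi i1 i2, ← setIntegral_congr_fun measurableSet_Iic e1,
    ← setIntegral_congr_fun measurableSet_Ioi e2, integral_exp_mul_complex_Iic ha,
    integral_exp_mul_complex_Ioi hb]
  have n1 : w - s ≠ 0 := by
    intro h0
    rw [h0] at ha
    simp at ha
  have n2 : w + s ≠ 0 := by
    intro h0
    rw [h0] at hb
    simp at hb
  have n3 : w ^ 2 - s ^ 2 ≠ 0 := by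
    have : w ^ 2 - s ^ 2 = (w - s) * (w + s) := by ring
    rw [this]
    exact mul_ne_zero n1 n2
  simp only [Complex.ofReal_zero, mul_zero, Complex.exp_zero]
  field_simp
  ring

private lemma klr_two {s w : ℂ} (h1 : |s.re| < w.re) :
    Integrable (fun t : ℝ => Complex.exp (-s * t - w * ((|t| : ℝ) : ℂ))) := by
  obtain ⟨i1, i2, -⟩ := klr_two_int h1
  rw [← integrableOn_univ, ← Set.Iic_union_Ioi (a := (0 : ℝ))]
  exact i1.union i2

/-! ### the integral over `w` -/

private lemma klr_w {h : ℝ → ℝ} {θ : ℝ} (hh : Bump h 0 θ) {s : ℂ} (hs : |s.re| < 3) (u : ℝ) :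
    ∫ y : ℝ, 2 * hhat h (3 + Complex.I * y) / ((3 + Complex.I * y) ^ 2 - s ^ 2) *
        Complex.exp (-(3 + Complex.I * y) * u) =
      2 * π * ∫ t : ℝ, Complex.exp (-s * t) * (HH h (u + |t|) : ℂ) := by
  have hw : ∀ y : ℝ, (3 + Complex.I * y : ℂ).re = 3 := fun y => by simp
  have hwn : ∀ y : ℝ, 3 ≤ ‖(3 + Complex.I * y : ℂ)‖ := fun y => by
    have := Complex.re_le_norm (3 + Complex.I * y : ℂ)
    rwa [hw y] at this
  have hw0 : ∀ y : ℝ, (3 + Complex.I * y : ℂ) ≠ 0 := fun y h0 => by
    have := hwn y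
    rw [h0, norm_zero] at this
    norm_num at this
  -- integrability of `hhat`
  have hhi : Integrable (fun y : ℝ => hhat h (3 + Complex.I * y)) := by
    have := (laplace_inv_h hh 3 0).1
    simpa using this
  -- the two-variable function
  set Φ : ℝ → ℝ → ℂ := fun t y => Complex.exp (-s * t) * (hhat h (3 + Complex.I * y) *
    Complex.exp (-(3 + Complex.I * y) * ((u + |t| : ℝ) : ℂ)) / (3 + Complex.I * y)) with hΦ
  have hG := (klr_two (s := s) (w := 3) (by simpa using hs)).norm
  have hF := (hhi.norm).mul_const (Real.exp (-3 * u))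
  have hΦi : Integrable (Function.uncurry Φ) (volume.prod volume) := by
    refine Integrable.mono' (hG.mul_prod hF) ?_ ?_
    · have m1 : AEStronglyMeasurable (fun p : ℝ × ℝ => hhat h (3 + Complex.I * p.2))
          (volume.prod volume) := hhi.aestronglyMeasurable.comp_snd
      have m2 : Continuous (fun p : ℝ × ℝ => Complex.exp (-s * p.1)) := by fun_prop
      have m3 : Continuous (fun p : ℝ × ℝ =>
          Complex.exp (-(3 + Complex.I * p.2) * ((u + |p.1| : ℝ) : ℂ))) := by fun_prop
      have m4 : Continuous (fun p : ℝ × ℝ => (3 + Complex.I * p.2 : ℂ)⁻¹) :=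
        Continuous.inv₀ (by fun_prop) fun p => hw0 p.2
      have m5 : Function.uncurry Φ = fun p : ℝ × ℝ => Complex.exp (-s * p.1) *
          (hhat h (3 + Complex.I * p.2) *
          Complex.exp (-(3 + Complex.I * p.2) * ((u + |p.1| : ℝ) : ℂ)) *
            (3 + Complex.I * p.2 : ℂ)⁻¹) := by
        funext p
        simp only [Function.uncurry, hΦ, div_eq_mul_inv]
      rw [m5]
      exact m2.aestronglyMeasurable.mul ((m1.mul m3.aestronglyMeasurable).mul
        m4.aestronglyMeasurable)
    · refine ae_of_all _ fun p => ?_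
      simp only [Function.uncurry, hΦ, norm_mul, norm_div]
      have e1 : ‖Complex.exp (-(3 + Complex.I * p.2) * ((u + |p.1| : ℝ) : ℂ))‖ =
          Real.exp (-3 * |p.1|) * Real.exp (-3 * u) := by
        rw [Complex.norm_exp, ← Real.exp_add]
        congr 1
        simp
        ring
      have e2 : ‖Complex.exp (-s * p.1 - 3 * ((|p.1| : ℝ) : ℂ))‖ =
          ‖Complex.exp (-s * p.1)‖ * Real.exp (-3 * |p.1|) := by
        rw [Complex.norm_exp, Complex.norm_exp, ← Real.exp_add]
        congr 1
        simp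
        ring
      rw [e1, e2]
      have e3 : ‖hhat h (3 + Complex.I * p.2)‖ * (Real.exp (-3 * |p.1|) * Real.exp (-3 * u)) /
          ‖(3 + Complex.I * p.2 : ℂ)‖ ≤
          ‖hhat h (3 + Complex.I * p.2)‖ * (Real.exp (-3 * |p.1|) * Real.exp (-3 * u)) :=
        div_le_self (by positivity) (by linarith [hwn p.2])
      calc _ ≤ ‖Complex.exp (-s * p.1)‖ *
            (‖hhat h (3 + Complex.I * p.2)‖ * (Real.exp (-3 * |p.1|) * Real.exp (-3 * u))) :=
            mul_le_mul_of_nonneg_left e3 (norm_nonneg _)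
        _ = _ := by ring
  have key : ∀ t : ℝ, Complex.exp (-s * t) * (HH h (u + |t|) : ℂ) =
      1 / (2 * π) * ∫ y : ℝ, Φ t y := by
    intro t
    have := laplace_inv_h_div hh 3 (by norm_num) (u + |t|)
    rw [← this, integral_const_mul]
    simp only [Complex.ofReal_ofNat]
    ring
  have hpi : (π : ℂ) ≠ 0 := by exact_mod_cast Real.pi_ne_zero
  simp only [key]
  rw [integral_const_mul, integral_integral_swap hΦi, ← mul_assoc]
  have e0 : (2 * π : ℂ) * (1 / (2 * π)) = 1 := by field_simp
  rw [e0, one_mul]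
  refine integral_congr_ae (ae_of_all _ fun y => ?_)
  simp only [hΦ]
  have h3 := (klr_two_int (s := s) (w := 3 + Complex.I * y) (by rw [hw]; exact hs)).2.2
  have h4 : ∀ t : ℝ, Complex.exp (-s * t) * (hhat h (3 + Complex.I * y) *
      Complex.exp (-(3 + Complex.I * y) * ((u + |t| : ℝ) : ℂ)) / (3 + Complex.I * y)) =
      (hhat h (3 + Complex.I * y) * Complex.exp (-(3 + Complex.I * y) * u) /
        (3 + Complex.I * y)) * Complex.exp (-s * t - (3 + Complex.I * y) * ((|t| : ℝ) : ℂ)) := by
    intro t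
    have : Complex.exp (-s * t) * Complex.exp (-(3 + Complex.I * y) * ((u + |t| : ℝ) : ℂ)) =
        Complex.exp (-(3 + Complex.I * y) * u) *
          Complex.exp (-s * t - (3 + Complex.I * y) * ((|t| : ℝ) : ℂ)) := by
      rw [← Complex.exp_add, ← Complex.exp_add]
      congr 1
      push_cast
      ring
    calc _ = hhat h (3 + Complex.I * y) / (3 + Complex.I * y) *
        (Complex.exp (-s * t) * Complex.exp (-(3 + Complex.I * y) * ((u + |t| : ℝ) : ℂ))) := by
          ring
      _ = _ := by rw [this]; ring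
  simp only [h4]
  rw [integral_const_mul, h3]
  have := hw0 y
  field_simp


/-! ### the factor `Gh` -/

private lemma klr_re (c x : ℝ) : (c + Complex.I * x : ℂ).re = c := by simp

private lemma klr_Gh_norm {a : ℝ} (c L x t : ℝ) :
    ‖(kap a t : ℂ) * Complex.exp ((c + Complex.I * x) * ((t / L : ℝ) : ℂ))‖ =
      kap a t * Real.exp (c * (t / L)) := by
  rw [norm_mul, Complex.norm_real, Real.norm_of_nonneg (klr_kap_nonneg a t), Complex.norm_exp]
  congr 2
  simp

private lemma klr_Gh_cont {a : ℝ} (ha : a = 0 ∨ a = 1) {c L : ℝ} (hc : 0 ≤ c) (hL : 0 < L) :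
    Continuous (fun x : ℝ => Gh a L (c + Complex.I * x)) := by
  unfold Gh
  refine Continuous.div_const ?_ _
  have hk : Continuous (fun t : ℝ => kap a t) := klr_kap_cont a
  refine continuous_of_dominated (bound := fun t => kap a t * Real.exp (c * (t / L)))
    (fun x => ?_) (fun x => ae_of_all _ fun t => ?_) (klr_kap_int ha hc hL)
    (ae_of_all _ fun t => ?_)
  · exact Continuous.aestronglyMeasurable (by fun_prop)
  · exact (klr_Gh_norm c L x t).le
  · fun_prop

private lemma klr_Gh_bd {a : ℝ} (ha : a = 0 ∨ a = 1) {c L : ℝ} (hc : 0 ≤ c) (hL : 0 < L) (x : ℝ) :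
    ‖Gh a L (c + Complex.I * x)‖ ≤
      (∫ t : ℝ, kap a t * Real.exp (c * (t / L))) / ‖(Gam0 a : ℂ)‖ := by
  unfold Gh
  rw [norm_div]
  refine div_le_div_of_nonneg_right ?_ (norm_nonneg _)
  exact norm_integral_le_of_norm_le (klr_kap_int ha hc hL)
    (ae_of_all _ fun t => (klr_Gh_norm c L x t).le)

private lemma klr_rhat_int {ρ : ℝ → ℝ} {b₁ b₂ : ℝ} (hρ : Bump ρ b₁ b₂) (c : ℝ) :
    Integrable (fun x : ℝ => rhat ρ (c + Complex.I * x)) := by
  have := (laplace_inv hρ c 0).1
  simpa using this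

/-- the integral over `s` -/
private lemma klr_s {a : ℝ} (ha : a = 0 ∨ a = 1) {ρ : ℝ → ℝ} {b₁ b₂ : ℝ} (hρ : Bump ρ b₁ b₂)
    {c L : ℝ} (hc : 0 ≤ c) (hL : 0 < L) (v : ℝ) :
    ∫ x : ℝ, rhat ρ (c + Complex.I * x) * Gh a L (c + Complex.I * x) *
        Complex.exp ((c + Complex.I * x) * v) =
      2 * π / (Gam0 a : ℂ) * ((∫ t : ℝ, kap a t * ρ (v + t / L) : ℝ) : ℂ) := by
  have hri := klr_rhat_int hρ c
  have hkc : Continuous (fun t : ℝ => kap a t) := klr_kap_cont a
  set Ψ : ℝ → ℝ → ℂ := fun x t => rhat ρ (c + Complex.I * x) *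
    Complex.exp ((c + Complex.I * x) * v) *
      ((kap a t : ℂ) * Complex.exp ((c + Complex.I * x) * ((t / L : ℝ) : ℂ))) with hΨ
  have hΨi : Integrable (Function.uncurry Ψ) (volume.prod volume) := by
    refine Integrable.mono' ((hri.norm.mul_const (Real.exp (c * v))).mul_prod
      (klr_kap_int ha hc hL)) ?_ (ae_of_all _ fun p => ?_)
    · have m1 : AEStronglyMeasurable (fun p : ℝ × ℝ => rhat ρ (c + Complex.I * p.1))
          (volume.prod volume) := hri.aestronglyMeasurable.comp_fst
      have m2 : Continuous (fun p : ℝ × ℝ => Complex.exp ((c + Complex.I * p.1) * v)) := by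
        fun_prop
      have m3 : Continuous (fun p : ℝ × ℝ => (kap a p.2 : ℂ) *
          Complex.exp ((c + Complex.I * p.1) * ((p.2 / L : ℝ) : ℂ))) := by
        fun_prop
      exact (m1.mul m2.aestronglyMeasurable).mul m3.aestronglyMeasurable
    · simp only [Function.uncurry, hΨ]
      rw [norm_mul, norm_mul, klr_Gh_norm, Complex.norm_exp]
      have e : ((c + Complex.I * p.1) * v : ℂ).re = c * v := by simp
      rw [e]
  have h1 : ∀ x : ℝ, rhat ρ (c + Complex.I * x) * Gh a L (c + Complex.I * x) *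
      Complex.exp ((c + Complex.I * x) * v) = (1 / (Gam0 a : ℂ)) * ∫ t : ℝ, Ψ x t := by
    intro x
    simp only [hΨ]
    rw [integral_const_mul]
    unfold Gh
    ring
  simp only [h1]
  rw [integral_const_mul, integral_integral_swap hΨi]
  have h2 : ∀ t : ℝ, ∫ x : ℝ, Ψ x t = 2 * π * ((kap a t * ρ (v + t / L) : ℝ) : ℂ) := by
    intro t
    have h3 := (laplace_inv hρ c (v + t / L)).2
    have hpi : (π : ℂ) ≠ 0 := by exact_mod_cast Real.pi_ne_zero
    have h4 : ∫ x : ℝ, rhat ρ (c + Complex.I * x) *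
        Complex.exp ((c + Complex.I * x) * ((v + t / L : ℝ) : ℂ)) =
        2 * π * (ρ (v + t / L) : ℂ) := by
      have e0 : (2 * π : ℂ) * (1 / (2 * π)) = 1 := by field_simp
      rw [← h3, ← mul_assoc, e0, one_mul]
    have h5 : ∀ x : ℝ, Ψ x t = (kap a t : ℂ) * (rhat ρ (c + Complex.I * x) *
        Complex.exp ((c + Complex.I * x) * ((v + t / L : ℝ) : ℂ))) := by
      intro x
      simp only [hΨ]
      have : Complex.exp ((c + Complex.I * x) * ((v + t / L : ℝ) : ℂ)) =
          Complex.exp ((c + Complex.I * x) * v) *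
            Complex.exp ((c + Complex.I * x) * ((t / L : ℝ) : ℂ)) := by
        rw [← Complex.exp_add]
        congr 1
        push_cast
        ring
      rw [this]
      ring
    simp only [h5]
    rw [integral_const_mul, h4]
    push_cast
    ring
  simp only [h2]
  rw [integral_const_mul, integral_complex_ofReal]
  ring

/-- the integral over `s`, with the factor `HH` -/
private lemma klr_st {a : ℝ} (ha : a = 0 ∨ a = 1) {ρ h : ℝ → ℝ} {b₁ b₂ θ : ℝ}
    (hρ : Bump ρ b₁ b₂) (hh : Bump h 0 θ) {c L : ℝ} (hc : 0 ≤ c) (hL : 0 < L) (z u : ℝ) :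
    ∫ x : ℝ, rhat ρ (c + Complex.I * x) * Gh a L (c + Complex.I * x) *
        Complex.exp ((c + Complex.I * x) * z) *
        ∫ t : ℝ, Complex.exp (-(c + Complex.I * x) * t) * (HH h (u + |t|) : ℂ) =
      2 * π / (Gam0 a : ℂ) * ((∫ t : ℝ, HH h (u + |t|) *
        ∫ x : ℝ, kap a x * ρ (z - t + x / L) : ℝ) : ℂ) := by
  have hri := klr_rhat_int hρ c
  have hGc := klr_Gh_cont (c := c) ha hc hL
  have hHc := klr_H_cont hh u
  have hHs := klr_H_cs hh u
  have hHi : Integrable (fun t : ℝ => Real.exp (-c * t) * HH h (u + |t|)) := by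
    refine Continuous.integrable_of_hasCompactSupport (by fun_prop) ?_
    exact hHs.mul_left
  set CG : ℝ := (∫ t : ℝ, kap a t * Real.exp (c * (t / L))) / ‖(Gam0 a : ℂ)‖ with hCG
  set Φ : ℝ → ℝ → ℂ := fun x t => rhat ρ (c + Complex.I * x) * Gh a L (c + Complex.I * x) *
    Complex.exp ((c + Complex.I * x) * z) *
      (Complex.exp (-(c + Complex.I * x) * t) * (HH h (u + |t|) : ℂ)) with hΦ
  have hΦi : Integrable (Function.uncurry Φ) (volume.prod volume) := by
    refine Integrable.mono' (((hri.norm.mul_const CG).mul_const (Real.exp (c * z))).mul_prod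
      hHi.norm) ?_ (ae_of_all _ fun p => ?_)
    · have m1 : AEStronglyMeasurable (fun p : ℝ × ℝ => rhat ρ (c + Complex.I * p.1))
          (volume.prod volume) := hri.aestronglyMeasurable.comp_fst
      have m2 : Continuous (fun p : ℝ × ℝ => Gh a L (c + Complex.I * p.1)) :=
        hGc.comp continuous_fst
      have m3 : Continuous (fun p : ℝ × ℝ => Complex.exp ((c + Complex.I * p.1) * z)) := by
        fun_prop
      have m4 : Continuous (fun p : ℝ × ℝ => ((HH h (u + |p.2|) : ℝ) : ℂ)) :=
        Complex.continuous_ofReal.comp (hHc.comp continuous_snd)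
      have m5 : Continuous (fun p : ℝ × ℝ => Complex.exp (-(c + Complex.I * p.1) * p.2)) := by
        fun_prop
      exact ((m1.mul m2.aestronglyMeasurable).mul m3.aestronglyMeasurable).mul
        (m5.mul m4).aestronglyMeasurable
    · simp only [Function.uncurry, hΦ, norm_mul]
      have e1 : ‖Complex.exp ((c + Complex.I * p.1) * z)‖ = Real.exp (c * z) := by
        rw [Complex.norm_exp]; congr 1; simp
      have e2 : ‖Complex.exp (-(c + Complex.I * p.1) * p.2)‖ = Real.exp (-c * p.2) := by
        rw [Complex.norm_exp]; congr 1; simp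
      rw [e1, e2, Complex.norm_real, Real.norm_eq_abs (Real.exp (-c * p.2)), Real.abs_exp]
      refine mul_le_mul_of_nonneg_right ?_ (by positivity)
      refine mul_le_mul_of_nonneg_right ?_ (Real.exp_pos _).le
      exact mul_le_mul_of_nonneg_left (klr_Gh_bd ha hc hL p.1) (norm_nonneg _)
  have h1 : ∀ x : ℝ, rhat ρ (c + Complex.I * x) * Gh a L (c + Complex.I * x) *
      Complex.exp ((c + Complex.I * x) * z) *
        ∫ t : ℝ, Complex.exp (-(c + Complex.I * x) * t) * (HH h (u + |t|) : ℂ) =
      ∫ t : ℝ, Φ x t := by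
    intro x
    simp only [hΦ]
    rw [integral_const_mul]
  simp only [h1]
  rw [integral_integral_swap hΦi]
  have h2 : ∀ t : ℝ, ∫ x : ℝ, Φ x t = 2 * π / (Gam0 a : ℂ) *
      ((HH h (u + |t|) * ∫ x : ℝ, kap a x * ρ (z - t + x / L) : ℝ) : ℂ) := by
    intro t
    have h3 : ∀ x : ℝ, Φ x t = (HH h (u + |t|) : ℂ) * (rhat ρ (c + Complex.I * x) *
        Gh a L (c + Complex.I * x) * Complex.exp ((c + Complex.I * x) * ((z - t : ℝ) : ℂ))) := by
      intro x
      simp only [hΦ]
      have : Complex.exp ((c + Complex.I * x) * ((z - t : ℝ) : ℂ)) =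
          Complex.exp ((c + Complex.I * x) * z) * Complex.exp (-(c + Complex.I * x) * t) := by
        rw [← Complex.exp_add]
        congr 1
        push_cast
        ring
      rw [this]
      ring
    simp only [h3]
    rw [integral_const_mul, klr_s ha hρ hc hL (z - t)]
    push_cast
    ring
  simp only [h2]
  rw [integral_const_mul, integral_complex_ofReal]

/-- the kernel as a convolution integral -/
private lemma klr_real {a : ℝ} (ha : a = 0 ∨ a = 1) {ρ h : ℝ → ℝ} {b₁ b₂ θ : ℝ}
    (hρ : Bump ρ b₁ b₂) (hh : Bump h 0 θ) {L : ℝ} (z u : ℝ) :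
    kL a ρ h L z u =
      (∫ t : ℝ, HH h (u + |t|) * ∫ x : ℝ, kap a x * ρ (z - t + x / L)) / Gam0 a := by
  unfold kL
  congr 1
  have hHc := klr_H_cont hh u
  have hHs := klr_H_cs hh u
  have hρc : Continuous ρ := hρ.smooth.continuous
  have hkc : Continuous (fun t : ℝ => kap a t) := klr_kap_cont a
  obtain ⟨M, hM⟩ := (klr_cs hρ).exists_bound_of_continuous hρc
  set Φ : ℝ → ℝ → ℝ := fun x t => kap a x * (ρ (z - t + x / L) * HH h (u + |t|)) with hΦ
  have hΦi : Integrable (Function.uncurry Φ) (volume.prod volume) := by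
    refine Integrable.mono' ((klr_kap_int0 ha).mul_prod
      ((hHc.integrable_of_hasCompactSupport hHs).norm.const_mul M)) ?_ (ae_of_all _ fun p => ?_)
    · have : Continuous (Function.uncurry Φ) := by
        simp only [Function.uncurry_def, hΦ]
        have m4 : Continuous (fun p : ℝ × ℝ => HH h (u + |p.2|)) := hHc.comp continuous_snd
        fun_prop
      exact this.aestronglyMeasurable
    · simp only [Function.uncurry, hΦ, norm_mul]
      rw [Real.norm_of_nonneg (klr_kap_nonneg a p.1)]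
      refine mul_le_mul_of_nonneg_left ?_ (klr_kap_nonneg a p.1)
      exact mul_le_mul_of_nonneg_right (hM _) (norm_nonneg _)
  have h1 : ∀ x : ℝ, ∫ y : ℝ, kap a x * ρ y * HH h (u + |z + x / L - y|) = ∫ t : ℝ, Φ x t := by
    intro x
    have := integral_sub_left_eq_self
      (fun y : ℝ => kap a x * ρ y * HH h (u + |z + x / L - y|)) volume (z + x / L)
    rw [← this]
    refine integral_congr_ae (ae_of_all _ fun t => ?_)
    simp only [hΦ]
    have e1 : z + x / L - t = z - t + x / L := by ring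
    have e2 : z + x / L - (z + x / L - t) = t := by ring
    rw [e2, e1]
    ring
  simp only [h1]
  rw [integral_integral_swap hΦi]
  refine integral_congr_ae (ae_of_all _ fun t => ?_)
  simp only [hΦ]
  rw [← integral_const_mul]
  refine integral_congr_ae (ae_of_all _ fun x => ?_)
  simp only
  ring

theorem kL_repr (a : ℝ) (ha : a = 0 ∨ a = 1) {ρ h : ℝ → ℝ} {b₁ b₂ θ : ℝ} (hρ : Bump ρ b₁ b₂)
    (hh : Bump h 0 θ) (c : ℝ) (hc : 0 < c) (hc3 : c < 3) (L : ℝ) (hL : 100 ≤ L) (z u : ℝ) :
    (kL a ρ h L z u : ℂ) = 1 / (2 * π) ^ 2 * ∫ x : ℝ, ∫ y : ℝ,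
      wtc a L ρ h (c + Complex.I * x) (3 + Complex.I * y) *
        Complex.exp ((c + Complex.I * x) * z - (3 + Complex.I * y) * u) := by
  have hL0 : 0 < L := by linarith
  have hpi : (π : ℂ) ≠ 0 := by exact_mod_cast Real.pi_ne_zero
  have h1 : ∀ x : ℝ, ∫ y : ℝ, wtc a L ρ h (c + Complex.I * x) (3 + Complex.I * y) *
      Complex.exp ((c + Complex.I * x) * z - (3 + Complex.I * y) * u) =
      2 * π * (rhat ρ (c + Complex.I * x) * Gh a L (c + Complex.I * x) *
        Complex.exp ((c + Complex.I * x) * z) *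
        ∫ t : ℝ, Complex.exp (-(c + Complex.I * x) * t) * (HH h (u + |t|) : ℂ)) := by
    intro x
    have h2 : ∀ y : ℝ, wtc a L ρ h (c + Complex.I * x) (3 + Complex.I * y) *
        Complex.exp ((c + Complex.I * x) * z - (3 + Complex.I * y) * u) =
        (rhat ρ (c + Complex.I * x) * Gh a L (c + Complex.I * x) *
          Complex.exp ((c + Complex.I * x) * z)) *
        (2 * hhat h (3 + Complex.I * y) /
          ((3 + Complex.I * y) ^ 2 - (c + Complex.I * x) ^ 2) *
          Complex.exp (-(3 + Complex.I * y) * u)) := by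
      intro y
      unfold wtc
      have : Complex.exp ((c + Complex.I * x) * z - (3 + Complex.I * y) * u) =
          Complex.exp ((c + Complex.I * x) * z) * Complex.exp (-(3 + Complex.I * y) * u) := by
        rw [← Complex.exp_add]
        congr 1
        ring
      rw [this]
      ring
    simp only [h2]
    rw [integral_const_mul, klr_w hh (s := c + Complex.I * x)
      (by rw [klr_re, abs_of_pos hc]; exact hc3) u]
    ring
  simp only [h1]
  rw [integral_const_mul, klr_st ha hρ hh hc.le hL0 z u, klr_real ha hρ hh z u]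
  generalize (∫ t : ℝ, HH h (u + |t|) * ∫ x : ℝ, kap a x * ρ (z - t + x / L)) = J
  push_cast
  field_simp

end Pool.Agent.MP0016c7.Rz
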