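import Mathlib
import Pool.Agent.Lib.MP_0016c7_nt.Theta
import Pool.Agent.Lib.MP_0016c7_nt.Rz.Defs
import Pool.Agent.Lib.MP_0016c7_nt.Rz.DefsC
import Pool.Agent.Lib.MP_0016c7_nt.Rz.DefsF
import Pool.Agent.Lib.MP_0016c7_nt.Rz.DefsE
import Pool.Agent.Lib.MP_0016c7_nt.Rz.FtS

set_option autoImplicit false

open Finset MeasureTheory Filter Topology
open scoped Real ContDiff

namespace Pool.Agent.MP0016c7.Rz

namespace ErrD5

open scoped SchwartzMap FourierTransform

/-- the Euler operator `t d/dt` on Schwartz functions -/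
noncomputable def eul (ψ : SchwartzMap ℝ ℝ) : SchwartzMap ℝ ℝ :=
  SchwartzMap.smulLeftCLM ℝ (fun t : ℝ => t) (SchwartzMap.derivCLM ℝ ℝ ψ)

theorem eul_apply (ψ : SchwartzMap ℝ ℝ) (t : ℝ) : eul ψ t = t * deriv ψ t := by
  unfold eul
  rw [SchwartzMap.smulLeftCLM_apply_apply Function.HasTemperateGrowth.id']
  rfl

/-- a chain of exponentially decaying derivatives gives a Schwartz function -/
theorem exists_schwartz_of_chain (g : ℕ → ℝ → ℂ) (c : ℝ) (hc : 0 < c)
    (hd : ∀ k x, HasDerivAt (g k) (g (k + 1) x) x)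
    (hb : ∀ k, ∃ C, ∀ x, ‖g k x‖ ≤ C * Real.exp (-c * |x|)) :
    ∃ φ : SchwartzMap ℝ ℂ, ∀ x, φ x = g 0 x := by
  have hder : ∀ k, deriv (g k) = g (k + 1) := fun k => funext fun x => (hd k x).deriv
  have hit : ∀ k, iteratedDeriv k (g 0) = g k := by
    intro k
    induction k with
    | zero => exact iteratedDeriv_zero
    | succ k ih => rw [iteratedDeriv_succ, ih, hder]
  have hcd : ∀ (n : ℕ) (k : ℕ), ContDiff ℝ n (g k) := by
    intro n
    induction n with
    | zero =>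
      intro k
      rw [Nat.cast_zero, contDiff_zero]
      exact continuous_iff_continuousAt.2 fun x => (hd k x).continuousAt
    | succ n ih =>
      intro k
      rw [Nat.cast_add, Nat.cast_one, contDiff_succ_iff_deriv]
      refine ⟨fun x => (hd k x).differentiableAt, ?_, ?_⟩
      · intro h
        exact absurd h (by simp)
      · rw [hder]; exact ih (k + 1)
  refine ⟨⟨g 0, ?_, ?_⟩, fun x => rfl⟩
  · exact contDiff_infty.2 fun n => hcd n 0
  · intro k n
    obtain ⟨C, hC⟩ := hb n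
    refine ⟨|C| * (k.factorial / c ^ k), fun x => ?_⟩
    rw [norm_iteratedFDeriv_eq_norm_iteratedDeriv, hit]
    have h1 : ‖g n x‖ ≤ |C| * Real.exp (-c * |x|) := (hC x).trans (by gcongr; exact le_abs_self C)
    have h2 : (c * |x|) ^ k / k.factorial ≤ Real.exp (c * |x|) :=
      Real.pow_div_factorial_le_exp _ (by positivity) k
    have h3 : |x| ^ k * Real.exp (-c * |x|) ≤ k.factorial / c ^ k := by
      rw [neg_mul, Real.exp_neg, mul_pow] at *
      rw [← div_eq_mul_inv, div_le_iff₀ (Real.exp_pos _)]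
      have h4 : c ^ k * |x| ^ k ≤ Real.exp (c * |x|) * k.factorial := by
        rw [div_le_iff₀ (by positivity)] at h2
        exact h2
      rw [div_mul_eq_mul_div, le_div_iff₀ (by positivity)]
      linarith
    calc ‖x‖ ^ k * ‖g n x‖ ≤ |x| ^ k * (|C| * Real.exp (-c * |x|)) := by
          rw [Real.norm_eq_abs]; gcongr
      _ = |C| * (|x| ^ k * Real.exp (-c * |x|)) := by ring
      _ ≤ |C| * (k.factorial / c ^ k) := by gcongr

theorem schwartz_exp (ψ : SchwartzMap ℝ ℝ) :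
    ∃ φ : SchwartzMap ℝ ℂ, ∀ x, φ x = ((ψ (Real.exp x) * Real.exp (x / 2) : ℝ) : ℂ) := by
  set Ψ : ℕ → SchwartzMap ℝ ℝ := fun k => Nat.rec ψ (fun _ χ => eul χ + (1 / 2 : ℝ) • χ) k with hΨ
  have hsucc : ∀ k t, Ψ (k + 1) t = t * deriv (Ψ k) t + 1 / 2 * Ψ k t := by
    intro k t
    have : Ψ (k + 1) = eul (Ψ k) + (1 / 2 : ℝ) • Ψ k := rfl
    rw [this]
    simp [eul_apply]
  refine exists_schwartz_of_chain
    (fun k x => ((Ψ k (Real.exp x) * Real.exp (x / 2) : ℝ) : ℂ)) (1 / 2) (by norm_num) ?_ ?_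
  · intro k x
    have h1 : HasDerivAt (fun x => Ψ k (Real.exp x)) (deriv (Ψ k) (Real.exp x) * Real.exp x) x :=
      ((Ψ k).hasDerivAt (Real.exp x)).comp x (Real.hasDerivAt_exp x)
    have h2 : HasDerivAt (fun x : ℝ => Real.exp (x / 2)) (Real.exp (x / 2) * (1 / 2)) x :=
      ((hasDerivAt_id x).div_const 2).exp
    have h3 := (h1.mul h2).ofReal_comp
    refine h3.congr_deriv ?_
    rw [hsucc]
    congr 1
    ring
  · intro k
    obtain ⟨C0, hC0, h0⟩ := (Ψ k).decay 0 0
    obtain ⟨C1, hC1, h1⟩ := (Ψ k).decay 1 0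
    refine ⟨C0 + C1, fun x => ?_⟩
    have h0' := h0 (Real.exp x)
    have h1' := h1 (Real.exp x)
    rw [norm_iteratedFDeriv_zero, pow_zero, one_mul] at h0'
    rw [norm_iteratedFDeriv_zero, pow_one, Real.norm_eq_abs, abs_of_pos (Real.exp_pos x)] at h1'
    rw [Complex.norm_real, norm_mul, Real.norm_eq_abs (Real.exp (x / 2)),
      abs_of_pos (Real.exp_pos _)]
    rcases le_total x 0 with hx | hx
    · rw [abs_of_nonpos hx, show -(1 / 2 : ℝ) * -x = x / 2 by ring]
      gcongr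
      linarith
    · rw [abs_of_nonneg hx]
      have e : Real.exp (x / 2) = Real.exp x * Real.exp (-(1 / 2) * x) := by
        rw [← Real.exp_add]; congr 1; ring
      rw [e, ← mul_assoc]
      gcongr
      linarith

end ErrD5

open ErrD5 in
open scoped SchwartzMap FourierTransform in
theorem Ft_mellin {F : ℝ → ℝ} {a b : ℝ} (hF : Bump F a b) (σ : ℤ) :
    ∃ f : ℝ → ℂ, Integrable (fun τ => (f τ) * ((1 + |τ|) ^ 2 : ℝ)) ∧ Continuous f ∧
      ∀ t : ℝ, 0 < t → (Ft F σ t : ℂ) =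
        ∫ τ : ℝ, f τ * (t : ℂ) ^ (-(1 / 2 : ℂ) - Complex.I * τ) := by
  obtain ⟨ψ, hψ⟩ := Ft_schwartz hF σ
  obtain ⟨φ, hφ⟩ := schwartz_exp ψ
  set Ψ : SchwartzMap ℝ ℂ := 𝓕 φ with hΨ
  have hpi : (0 : ℝ) < 2 * π := by positivity
  have hne : (-(1 / (2 * π)) : ℝ) ≠ 0 := by
    have : (1 / (2 * π) : ℝ) ≠ 0 := by positivity
    exact neg_ne_zero.2 this
  refine ⟨fun τ => (1 / (2 * π) : ℝ) * Ψ (-(1 / (2 * π)) * τ), ?_, ?_, ?_⟩
  · have H : Integrable (fun v : ℝ => (1 / (2 * π) : ℝ) * Ψ v * (((1 + |2 * π * v|) ^ 2 : ℝ) : ℂ)) := by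
      have i0 := SchwartzMap.integrable_pow_mul volume Ψ 0
      have i1 := SchwartzMap.integrable_pow_mul volume Ψ 1
      have i2 := SchwartzMap.integrable_pow_mul volume Ψ 2
      have I : Integrable (fun v : ℝ => (1 / (2 * π)) * (‖v‖ ^ 0 * ‖Ψ v‖ +
          4 * π * (‖v‖ ^ 1 * ‖Ψ v‖) + 4 * π ^ 2 * (‖v‖ ^ 2 * ‖Ψ v‖))) :=
        ((i0.add (i1.const_mul (4 * π))).add (i2.const_mul (4 * π ^ 2))).const_mul _
      refine I.mono' ?_ (Eventually.of_forall fun v => ?_)
      · refine Continuous.aestronglyMeasurable ?_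
        have := Ψ.continuous
        fun_prop
      · rw [norm_mul, norm_mul, Complex.norm_real, Complex.norm_real, Real.norm_eq_abs,
          Real.norm_eq_abs, Real.norm_eq_abs, abs_of_pos (by positivity : (0 : ℝ) < 1 / (2 * π)),
          abs_of_nonneg (by positivity : (0 : ℝ) ≤ (1 + |2 * π * v|) ^ 2), abs_mul,
          abs_of_pos hpi]
        apply le_of_eq
        ring
    have H2 := H.comp_mul_left' hne
    refine H2.congr (Eventually.of_forall fun τ => ?_)
    simp only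
    have e0 : |2 * π * (-(1 / (2 * π)) * τ)| = |τ| := by
      rw [show 2 * π * (-(1 / (2 * π)) * τ) = -τ by field_simp, abs_neg]
    rw [e0]
  · have := Ψ.continuous
    fun_prop
  · intro t ht
    have hx := hφ (Real.log t)
    rw [Real.exp_log ht, hψ] at hx
    have hinv : φ (Real.log t) = 𝓕⁻ (Ψ : ℝ → ℂ) (Real.log t) := by
      have h1 : 𝓕⁻ (𝓕 (φ : ℝ → ℂ)) = φ :=
        φ.continuous.fourierInv_fourier_eq φ.integrable (by
          rw [← SchwartzMap.fourier_coe]; exact (𝓕 φ).integrable)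
      rw [hΨ, SchwartzMap.fourier_coe, h1]
    rw [Real.fourierInv_eq'] at hinv
    have hcomp := Measure.integral_comp_mul_left
      (fun v : ℝ => Complex.exp (↑(2 * π * inner ℝ v (Real.log t)) * Complex.I) • Ψ v)
      (-(1 / (2 * π)))
    rw [show |(-(1 / (2 * π)))⁻¹| = 2 * π by
      rw [abs_inv, abs_neg, abs_of_pos (by positivity)]; field_simp] at hcomp
    have hE : (Real.exp (Real.log t / 2) : ℂ) ≠ 0 := by exact_mod_cast (Real.exp_pos _).ne'
    have key : (Ft F σ t : ℂ) = (Real.exp (Real.log t / 2) : ℂ)⁻¹ * φ (Real.log t) := by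
      rw [hx]
      push_cast
      field_simp
    rw [key, hinv]
    have h3 : (∫ v : ℝ, Complex.exp (↑(2 * π * inner ℝ v (Real.log t)) * Complex.I) • Ψ v) =
        ((1 / (2 * π) : ℝ) : ℂ) * ∫ τ : ℝ, Complex.exp (↑(2 * π *
          inner ℝ (-(1 / (2 * π)) * τ) (Real.log t)) * Complex.I) • Ψ (-(1 / (2 * π)) * τ) := by
      rw [hcomp]
      rw [Complex.real_smul, ← mul_assoc]
      have : ((1 / (2 * π) : ℝ) : ℂ) * ((2 * π : ℝ) : ℂ) = 1 := by
        rw [← Complex.ofReal_mul]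
        rw [show (1 / (2 * π) : ℝ) * (2 * π) = 1 by field_simp]
        simp
      rw [this, one_mul]
    rw [h3, ← mul_assoc, ← integral_const_mul]
    congr 1
    funext τ
    have e1 : (t : ℂ) ^ (-(1 / 2 : ℂ) - Complex.I * τ) =
        (Real.exp (Real.log t / 2) : ℂ)⁻¹ *
          Complex.exp (↑(2 * π * inner ℝ (-(1 / (2 * π)) * τ) (Real.log t)) * Complex.I) := by
      rw [Complex.cpow_def_of_ne_zero (by exact_mod_cast ht.ne'), ← Complex.ofReal_log ht.le,
        Complex.ofReal_exp, ← Complex.exp_neg, ← Complex.exp_add]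
      congr 1
      have e2 : 2 * π * inner ℝ (-(1 / (2 * π)) * τ) (Real.log t) = - τ * Real.log t := by
        simp only [RCLike.inner_apply, conj_trivial]
        field_simp
      rw [e2]
      push_cast
      ring
    rw [e1, smul_eq_mul]
    ring

end Pool.Agent.MP0016c7.Rz
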