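import Mathlib
import Pool.Agent.Lib.MP_0016c7_nt.Theta
import Pool.Agent.Lib.MP_0016c7_nt.Rz.Defs
import Pool.Agent.Lib.MP_0016c7_nt.Rz.DefsC
import Pool.Agent.Lib.MP_0016c7_nt.Rz.DefsF
import Pool.Agent.Lib.MP_0016c7_nt.Rz.DefsE
import Pool.Agent.Lib.MP_0016c7_nt.Rz.ArithA1

set_option autoImplicit false

open Finset MeasureTheory Filter Topology
open scoped Real ContDiff

namespace Pool.Agent.MP0016c7.Rz

private lemma a10_card_anti (n : ℕ) : n.divisorsAntidiagonal.card = n.divisors.card := by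
  have := congrArg Finset.card (Nat.map_div_right_divisors (n := n))
  rw [Finset.card_map] at this
  exact this.symm

private lemma a10_conv {f g : ArithmeticFunction ℂ} {a b : ℕ} {m : ℝ}
    (hf : ∀ n, ‖f n‖ ≤ (n.divisors.card : ℝ) ^ a * (n : ℝ) ^ (-m))
    (hg : ∀ n, ‖g n‖ ≤ (n.divisors.card : ℝ) ^ b * (n : ℝ) ^ (-m)) (n : ℕ) :
    ‖(f * g) n‖ ≤ (n.divisors.card : ℝ) ^ (a + b + 1) * (n : ℝ) ^ (-m) := by
  rw [ArithmeticFunction.mul_apply]
  have h1 : ∀ p ∈ n.divisorsAntidiagonal, ‖f p.1 * g p.2‖ ≤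
      (n.divisors.card : ℝ) ^ (a + b) * (n : ℝ) ^ (-m) := by
    intro p hp
    rw [Nat.mem_divisorsAntidiagonal] at hp
    have d1 : (p.1.divisors.card : ℝ) ≤ n.divisors.card := by
      have : p.1.divisors ⊆ n.divisors := Nat.divisors_subset_of_dvd hp.2 (Dvd.intro _ hp.1)
      exact_mod_cast Finset.card_le_card this
    have d2 : (p.2.divisors.card : ℝ) ≤ n.divisors.card := by
      have : p.2.divisors ⊆ n.divisors := Nat.divisors_subset_of_dvd hp.2 (Dvd.intro_left _ hp.1)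
      exact_mod_cast Finset.card_le_card this
    have e1 : (n : ℝ) ^ (-m) = (p.1 : ℝ) ^ (-m) * (p.2 : ℝ) ^ (-m) := by
      rw [← Real.mul_rpow (by positivity) (by positivity), ← hp.1]
      push_cast
      rfl
    rw [norm_mul, e1, pow_add]
    calc ‖f p.1‖ * ‖g p.2‖ ≤ ((p.1.divisors.card : ℝ) ^ a * (p.1 : ℝ) ^ (-m)) *
          ((p.2.divisors.card : ℝ) ^ b * (p.2 : ℝ) ^ (-m)) :=
          mul_le_mul (hf _) (hg _) (norm_nonneg _) (by positivity)
      _ ≤ ((n.divisors.card : ℝ) ^ a * (p.1 : ℝ) ^ (-m)) *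
          ((n.divisors.card : ℝ) ^ b * (p.2 : ℝ) ^ (-m)) :=
          mul_le_mul (mul_le_mul_of_nonneg_right (pow_le_pow_left₀ (by positivity) d1 a)
            (by positivity)) (mul_le_mul_of_nonneg_right (pow_le_pow_left₀ (by positivity) d2 b)
            (by positivity)) (by positivity) (by positivity)
      _ = _ := by ring
  refine (norm_sum_le _ _).trans ((Finset.sum_le_sum h1).trans (le_of_eq ?_))
  rw [Finset.sum_const, a10_card_anti, nsmul_eq_mul]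
  ring

private lemma a10_cpow {s : ℂ} {m : ℝ} (h : m ≤ s.re) {n : ℕ} (hn : n ≠ 0) :
    ‖(n : ℂ) ^ (-s)‖ ≤ (n : ℝ) ^ (-m) := by
  rw [Complex.norm_natCast_cpow_of_pos (Nat.pos_of_ne_zero hn)]
  refine Real.rpow_le_rpow_of_exponent_le ?_ ?_
  · exact_mod_cast Nat.one_le_iff_ne_zero.2 hn
  · rw [Complex.neg_re]
    linarith

private lemma a10_pw {s : ℂ} {m : ℝ} (h : m ≤ s.re) (n : ℕ) :
    ‖pwA s n‖ ≤ (n.divisors.card : ℝ) ^ 0 * (n : ℝ) ^ (-m) := by
  rw [pow_zero, one_mul]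
  by_cases hn : n = 0
  · subst hn
    rw [ArithmeticFunction.map_zero, norm_zero]
    positivity
  · have e : pwA s n = (n : ℂ) ^ (-s) := by
      unfold pwA
      simp [hn]
    rw [e]
    exact a10_cpow h hn

private lemma a10_pm {s : ℂ} {m : ℝ} (h : m ≤ s.re) (n : ℕ) :
    ‖pmA s n‖ ≤ (n.divisors.card : ℝ) ^ 0 * (n : ℝ) ^ (-m) := by
  rw [pow_zero, one_mul]
  by_cases hn : n = 0
  · subst hn
    rw [ArithmeticFunction.map_zero, norm_zero]
    positivity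
  · have e : pmA s n = (ArithmeticFunction.moebius n : ℂ) * (n : ℂ) ^ (-s) := by
      unfold pmA
      simp [hn]
    rw [e, norm_mul]
    have hmu : ‖((ArithmeticFunction.moebius n : ℤ) : ℂ)‖ ≤ 1 := by
      rw [Complex.norm_intCast]
      exact_mod_cast ArithmeticFunction.abs_moebius_le_one
    exact (mul_le_of_le_one_left (norm_nonneg _) hmu).trans (a10_cpow h hn)

theorem norm_cfA_le (s₁ w₁ s₂ w₂ : ℂ) (m : ℝ) (h1 : m ≤ s₁.re) (h2 : m ≤ w₁.re) (h3 : m ≤ s₂.re)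
    (h4 : m ≤ w₂.re) (N : ℕ) :
    ‖cfA s₁ w₁ s₂ w₂ N‖ ≤ (N.divisors.card : ℝ) ^ 3 * (N : ℝ) ^ (-m) := by
  unfold cfA
  exact a10_conv (a10_conv (a10_pw h1) (a10_pm h2)) (a10_conv (a10_pw h3) (a10_pm h4)) N

private lemma a10_rho (N : ℕ) : |rhoN N| ≤ 1 := by
  unfold rhoN
  have h : ∀ p ∈ (sq2 N).primeFactors.filter (fun p => ¬ p ∣ sq1 N),
      0 ≤ (1 - 1 / (p : ℝ)) ∧ (1 - 1 / (p : ℝ)) ≤ 1 := by
    intro p hp
    rw [Finset.mem_filter, Nat.mem_primeFactors] at hp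
    have h1 : (1 : ℝ) ≤ p := by exact_mod_cast hp.1.1.one_le
    have h2 : 1 / (p : ℝ) ≤ 1 := by
      rw [div_le_one (by linarith)]
      exact h1
    have h3 : 0 ≤ 1 / (p : ℝ) := by positivity
    constructor <;> linarith
  rw [abs_of_nonneg (Finset.prod_nonneg fun p hp => (h p hp).1)]
  exact Finset.prod_le_one (fun p hp => (h p hp).1) (fun p hp => (h p hp).2)

private lemma a10_term {a e : ℕ} (ha : 0 < a) (he : e ∣ a) (z : ℂ) :
    ‖((((a : ℝ) / (e : ℝ) ^ 2 : ℝ) : ℂ)) ^ z‖ ≤ (a : ℝ) ^ |z.re| := by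
  have he0 : 0 < e := Nat.pos_of_dvd_of_pos he ha
  have hle : e ≤ a := Nat.le_of_dvd ha he
  have h1 : (1 : ℝ) ≤ e := by exact_mod_cast he0
  have h2 : (e : ℝ) ≤ a := by exact_mod_cast hle
  have h0 : (0 : ℝ) < a := by linarith
  have hp : 0 < (a : ℝ) / (e : ℝ) ^ 2 := by positivity
  rw [Complex.norm_cpow_eq_rpow_re_of_pos hp]
  rcases le_total 0 z.re with hz | hz
  · rw [abs_of_nonneg hz]
    refine Real.rpow_le_rpow hp.le ?_ hz
    rw [div_le_iff₀ (by positivity)]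
    have h5 : (1 : ℝ) ≤ (e : ℝ) ^ 2 := one_le_pow₀ h1
    exact le_mul_of_one_le_right h0.le h5
  · rw [abs_of_nonpos hz]
    have e1 : ((a : ℝ) / (e : ℝ) ^ 2) ^ z.re = ((e : ℝ) ^ 2 / a) ^ (-z.re) := by
      rw [Real.rpow_neg (by positivity), ← Real.inv_rpow (by positivity), inv_div]
    rw [e1]
    refine Real.rpow_le_rpow (by positivity) ?_ (by linarith)
    rw [div_le_iff₀ h0]
    nlinarith

theorem norm_bz_le (z : ℂ) (N : ℕ) (hN : N ≠ 0) :
    ‖bz z N‖ ≤ (N.divisors.card : ℝ) * (sq1 N : ℝ) ^ (-(1 / 2) + |z.re|) := by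
  have hdv : sq1 N ∣ N := Dvd.intro _ (sq1_mul_sq2 N hN)
  have ha0 : 0 < sq1 N := Nat.pos_of_dvd_of_pos hdv (Nat.pos_of_ne_zero hN)
  have ha : (0 : ℝ) < sq1 N := by exact_mod_cast ha0
  unfold bz
  have h1 : ‖∑ e ∈ (sq1 N).divisors, (ArithmeticFunction.moebius e : ℂ) *
      (((sq1 N : ℝ) / (e : ℝ) ^ 2 : ℝ) : ℂ) ^ z‖ ≤ (N.divisors.card : ℝ) * (sq1 N : ℝ) ^ |z.re| := by
    have h2 : ∀ e ∈ (sq1 N).divisors, ‖(ArithmeticFunction.moebius e : ℂ) *
        (((sq1 N : ℝ) / (e : ℝ) ^ 2 : ℝ) : ℂ) ^ z‖ ≤ (sq1 N : ℝ) ^ |z.re| := by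
      intro e he
      rw [Nat.mem_divisors] at he
      have hmu : ‖((ArithmeticFunction.moebius e : ℤ) : ℂ)‖ ≤ 1 := by
        rw [Complex.norm_intCast]
        exact_mod_cast ArithmeticFunction.abs_moebius_le_one
      rw [norm_mul]
      exact (mul_le_of_le_one_left (norm_nonneg _) hmu).trans (a10_term ha0 he.1 z)
    refine (norm_sum_le _ _).trans ((Finset.sum_le_sum h2).trans ?_)
    rw [Finset.sum_const, nsmul_eq_mul]
    refine mul_le_mul_of_nonneg_right ?_ (by positivity)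
    exact_mod_cast Finset.card_le_card (Nat.divisors_subset_of_dvd hN hdv)
  have h3 : ‖(rhoN N : ℂ) / (√(sq1 N : ℝ) : ℂ)‖ ≤ (sq1 N : ℝ) ^ (-(1 / 2) : ℝ) := by
    rw [norm_div, Complex.norm_real, Complex.norm_real, Real.norm_eq_abs, Real.norm_eq_abs,
      abs_of_nonneg (Real.sqrt_nonneg _), Real.rpow_neg ha.le, ← Real.sqrt_eq_rpow,
      div_eq_mul_inv]
    exact mul_le_of_le_one_left (by positivity) (a10_rho N)
  rw [norm_mul]
  refine (mul_le_mul h3 h1 (norm_nonneg _) (by positivity)).trans (le_of_eq ?_)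
  rw [Real.rpow_add ha]
  ring

end Pool.Agent.MP0016c7.Rz
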