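import Mathlib
import Pool.Agent.Lib.MP_0016c7_nt.Theta
import Pool.Agent.Lib.MP_0016c7_nt.Rz.Defs
import Pool.Agent.Lib.MP_0016c7_nt.Rz.DefsC
import Pool.Agent.Lib.MP_0016c7_nt.Rz.DefsF
import Pool.Agent.Lib.MP_0016c7_nt.Rz.DefsE
import Pool.Agent.Lib.MP_0016c7_nt.Rz.ArithA1
import Pool.Agent.Lib.MP_0016c7_nt.Rz.DivB

set_option autoImplicit false

open Finset MeasureTheory Filter Topology
open scoped Real ContDiff

namespace Pool.Agent.MP0016c7.Rz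

theorem summable_sq (m ζ : ℝ) (hζ : 0 ≤ ζ) (h : ζ < m) :
    Summable (fun N : ℕ => (N.divisors.card : ℝ) ^ 4 * (N : ℝ) ^ (-(1 / 2) - m) *
      (sq1 N : ℝ) ^ (-(1 / 2) + ζ)) := by
  set η : ℝ := (m - ζ) / 2 with hη
  have hη0 : 0 < η := by
    rw [hη]
    linarith
  obtain ⟨C, hC, hd⟩ := divisor_bound (η / 4) (by positivity)
  have hsum : Summable fun x : ℕ × ℕ => (x.1 : ℝ) ^ (-1 - m + ζ + η) *
      (x.2 : ℝ) ^ (-1 - 2 * m + 2 * η) :=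
    Summable.mul_of_nonneg (f := fun n : ℕ => (n : ℝ) ^ (-1 - m + ζ + η))
      (g := fun n : ℕ => (n : ℝ) ^ (-1 - 2 * m + 2 * η)) (Real.summable_nat_rpow.2 (by linarith))
      (Real.summable_nat_rpow.2 (by linarith)) (fun _ => Real.rpow_nonneg (Nat.cast_nonneg _) _)
      (fun _ => Real.rpow_nonneg (Nat.cast_nonneg _) _)
  have hinj : Function.Injective fun N : ℕ => (sq1 (N + 1), sq2 (N + 1)) := by
    intro M N hMN
    simp only [Prod.mk.injEq] at hMN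
    have h1 := sq1_mul_sq2 (M + 1) (Nat.succ_ne_zero M)
    have h2 := sq1_mul_sq2 (N + 1) (Nat.succ_ne_zero N)
    rw [hMN.1, hMN.2, h2] at h1
    omega
  have hs2 := (hsum.comp_injective hinj).mul_left (C ^ 4)
  rw [← summable_nat_add_iff 1]
  refine Summable.of_nonneg_of_le (fun N => by positivity) (fun N => ?_) hs2
  have hNpos : 0 < N + 1 := Nat.succ_pos N
  have h1 := sq1_mul_sq2 (N + 1) (Nat.succ_ne_zero N)
  have ha : 0 < sq1 (N + 1) := by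
    rcases Nat.eq_zero_or_pos (sq1 (N + 1)) with h | h
    · rw [h, zero_mul] at h1
      omega
    · exact h
  have hb : 0 < sq2 (N + 1) := by
    rcases Nat.eq_zero_or_pos (sq2 (N + 1)) with h | h
    · rw [h] at h1
      simp at h1
    · exact h
  have h3 := hd (N + 1) hNpos
  have har : (0 : ℝ) < (sq1 (N + 1) : ℝ) := by exact_mod_cast ha
  have hbr : (0 : ℝ) < (sq2 (N + 1) : ℝ) := by exact_mod_cast hb
  have hNr : (0 : ℝ) < ((N + 1 : ℕ) : ℝ) := by exact_mod_cast hNpos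
  have h4 : (((N + 1).divisors.card : ℕ) : ℝ) ^ 4 ≤ C ^ 4 * ((N + 1 : ℕ) : ℝ) ^ η := by
    calc (((N + 1).divisors.card : ℕ) : ℝ) ^ 4 ≤ (C * ((N + 1 : ℕ) : ℝ) ^ (η / 4)) ^ 4 :=
          pow_le_pow_left₀ (Nat.cast_nonneg _) h3 4
      _ = C ^ 4 * ((N + 1 : ℕ) : ℝ) ^ η := by
          rw [mul_pow, ← Real.rpow_natCast (((N + 1 : ℕ) : ℝ) ^ (η / 4)), ← Real.rpow_mul hNr.le]
          congr 2
          push_cast
          ring
  have h5 : ((N + 1 : ℕ) : ℝ) ^ η * ((N + 1 : ℕ) : ℝ) ^ (-(1 / 2) - m) *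
      (sq1 (N + 1) : ℝ) ^ (-(1 / 2) + ζ) =
      (sq1 (N + 1) : ℝ) ^ (-1 - m + ζ + η) * (sq2 (N + 1) : ℝ) ^ (-1 - 2 * m + 2 * η) := by
    have h6 : ((N + 1 : ℕ) : ℝ) = (sq1 (N + 1) : ℝ) * (sq2 (N + 1) : ℝ) ^ (2 : ℝ) := by
      rw [Real.rpow_two]
      exact_mod_cast h1.symm
    rw [← Real.rpow_add hNr, h6, Real.mul_rpow har.le (by positivity), ← Real.rpow_mul hbr.le,
      mul_right_comm, ← Real.rpow_add har]
    congr 2
    · ring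
    · ring
  calc (((N + 1).divisors.card : ℕ) : ℝ) ^ 4 * ((N + 1 : ℕ) : ℝ) ^ (-(1 / 2) - m) *
        (sq1 (N + 1) : ℝ) ^ (-(1 / 2) + ζ)
      ≤ (C ^ 4 * ((N + 1 : ℕ) : ℝ) ^ η) * ((N + 1 : ℕ) : ℝ) ^ (-(1 / 2) - m) *
        (sq1 (N + 1) : ℝ) ^ (-(1 / 2) + ζ) := by gcongr
    _ = C ^ 4 * (((N + 1 : ℕ) : ℝ) ^ η * ((N + 1 : ℕ) : ℝ) ^ (-(1 / 2) - m) *
        (sq1 (N + 1) : ℝ) ^ (-(1 / 2) + ζ)) := by ring
    _ = _ := by
      rw [h5]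
      rfl

end Pool.Agent.MP0016c7.Rz
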