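import Mathlib
import Pool.Agent.Lib.MP_0016c7_nt.Theta
import Pool.Agent.Lib.MP_0016c7_nt.Rz.Defs
import Pool.Agent.Lib.MP_0016c7_nt.Rz.DefsC
import Pool.Agent.Lib.MP_0016c7_nt.Rz.DefsF
import Pool.Agent.Lib.MP_0016c7_nt.Rz.DefsE

set_option autoImplicit false

open Finset MeasureTheory Filter Topology
open scoped Real ContDiff

namespace Pool.Agent.MP0016c7.Rz

private theorem as1_decay (ψ : SchwartzMap ℝ ℝ) (B : ℕ) : ∃ C : ℝ, 0 < C ∧ ∀ t : ℝ, 0 < t →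
    |ψ t| ≤ C / t ^ B := by
  obtain ⟨C, hC, h⟩ := ψ.decay B 0
  refine ⟨C, hC, fun t ht => ?_⟩
  have h1 := h t
  rw [norm_iteratedFDeriv_zero, Real.norm_of_nonneg ht.le, Real.norm_eq_abs] at h1
  rw [le_div_iff₀ (by positivity), mul_comm]
  exact h1

private theorem as1_sum : Summable fun j : ℕ => 1 / ((j : ℝ) + 1) ^ 2 := by
  have h1 := (summable_nat_add_iff 1).2 (Real.summable_one_div_nat_pow.2 (one_lt_two))
  refine h1.congr fun j => ?_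
  push_cast
  rfl

private theorem as1_abs (j : ℕ) (y : ℝ) : |(-1 : ℝ) ^ (j + 1) * y| = |y| := by
  rw [abs_mul, abs_pow, abs_neg, abs_one, one_pow, one_mul]

theorem alt_sum_deriv (ψ ψ₁ : SchwartzMap ℝ ℝ) (h : ∀ t, ψ₁ t = t / 2 * deriv ψ t) (x : ℝ) :
    Summable (fun j : ℕ => |ψ (((j : ℝ) + 1) * Real.exp (x / 2))|) ∧
    HasDerivAt (fun x : ℝ => ∑' j : ℕ, (-1 : ℝ) ^ (j + 1) * ψ (((j : ℝ) + 1) * Real.exp (x / 2)))
      (∑' j : ℕ, (-1 : ℝ) ^ (j + 1) * ψ₁ (((j : ℝ) + 1) * Real.exp (x / 2))) x := by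
  obtain ⟨C, hC, hd⟩ := as1_decay ψ 2
  obtain ⟨C₁, hC₁, hd₁⟩ := as1_decay ψ₁ 2
  have hs : Summable (fun j : ℕ => |ψ (((j : ℝ) + 1) * Real.exp (x / 2))|) := by
    refine Summable.of_nonneg_of_le (fun j => abs_nonneg _) (fun j => ?_)
      (as1_sum.mul_left (C / Real.exp (x / 2) ^ 2))
    refine (hd _ (by positivity)).trans (le_of_eq ?_)
    rw [mul_pow]
    field_simp
  refine ⟨hs, ?_⟩
  have hxm : x ∈ Set.Ioo (x - 1) (x + 1) := ⟨by linarith, by linarith⟩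
  refine hasDerivAt_tsum_of_isPreconnected (t := Set.Ioo (x - 1) (x + 1))
    (g := fun (j : ℕ) (x : ℝ) => (-1 : ℝ) ^ (j + 1) * ψ (((j : ℝ) + 1) * Real.exp (x / 2)))
    (g' := fun (j : ℕ) (x : ℝ) => (-1 : ℝ) ^ (j + 1) * ψ₁ (((j : ℝ) + 1) * Real.exp (x / 2)))
    (u := fun j : ℕ => C₁ / Real.exp ((x - 1) / 2) ^ 2 * (1 / ((j : ℝ) + 1) ^ 2)) (y₀ := x)
    (as1_sum.mul_left _) isOpen_Ioo isPreconnected_Ioo ?_ ?_
    hxm ?_ hxm
  · intro j y _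
    have h1 : HasDerivAt (fun y : ℝ => ((j : ℝ) + 1) * Real.exp (y / 2))
        (((j : ℝ) + 1) * (Real.exp (y / 2) * (1 / 2))) y :=
      (((hasDerivAt_id y).div_const 2).exp).const_mul _
    have h2 : HasDerivAt (fun y : ℝ => ψ (((j : ℝ) + 1) * Real.exp (y / 2)))
        (deriv ψ (((j : ℝ) + 1) * Real.exp (y / 2)) *
          (((j : ℝ) + 1) * (Real.exp (y / 2) * (1 / 2)))) y :=
      HasDerivAt.comp y (ψ.differentiableAt.hasDerivAt) h1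
    have h3 := h2.const_mul ((-1 : ℝ) ^ (j + 1))
    have h4 : (-1 : ℝ) ^ (j + 1) * ψ₁ (((j : ℝ) + 1) * Real.exp (y / 2)) =
        (-1 : ℝ) ^ (j + 1) * (deriv ψ (((j : ℝ) + 1) * Real.exp (y / 2)) *
          (((j : ℝ) + 1) * (Real.exp (y / 2) * (1 / 2)))) := by
      rw [h]
      ring
    rw [h4]
    exact h3
  · intro j y hy
    rw [Real.norm_eq_abs, as1_abs]
    refine (hd₁ _ (by positivity)).trans ?_
    have h1 : Real.exp ((x - 1) / 2) ≤ Real.exp (y / 2) := by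
      rw [Real.exp_le_exp]
      have := hy.1
      linarith
    rw [mul_pow]
    calc C₁ / (((j : ℝ) + 1) ^ 2 * Real.exp (y / 2) ^ 2)
        ≤ C₁ / (((j : ℝ) + 1) ^ 2 * Real.exp ((x - 1) / 2) ^ 2) := by gcongr
      _ = _ := by field_simp
  · refine Summable.of_norm_bounded hs fun j => ?_
    rw [Real.norm_eq_abs, as1_abs]

theorem alt_sum_bound (ψ : SchwartzMap ℝ ℝ) (A : ℝ) : ∃ C : ℝ, ∀ x : ℝ, 0 ≤ x →
    |∑' j : ℕ, (-1 : ℝ) ^ (j + 1) * ψ (((j : ℝ) + 1) * Real.exp (x / 2))| ≤ C * Real.exp (-A * x) := by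
  obtain ⟨n, hn⟩ := exists_nat_ge (2 * A)
  obtain ⟨C, hC, hd⟩ := as1_decay ψ (n + 2)
  refine ⟨C * ∑' j : ℕ, 1 / ((j : ℝ) + 1) ^ 2, fun x hx => ?_⟩
  have hb : ∀ j : ℕ, |(-1 : ℝ) ^ (j + 1) * ψ (((j : ℝ) + 1) * Real.exp (x / 2))| ≤
      C * Real.exp (-A * x) * (1 / ((j : ℝ) + 1) ^ 2) := by
    intro j
    rw [as1_abs]
    refine (hd _ (by positivity)).trans ?_
    have h1 : (1 : ℝ) ≤ (j : ℝ) + 1 := by
      have : (0 : ℝ) ≤ j := Nat.cast_nonneg j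
      linarith
    have h2 : ((j : ℝ) + 1) ^ 2 ≤ ((j : ℝ) + 1) ^ (n + 2) := pow_le_pow_right₀ h1 (by omega)
    have h3 : Real.exp (A * x) ≤ Real.exp (x / 2) ^ (n + 2) := by
      rw [← Real.exp_nat_mul, Real.exp_le_exp]
      push_cast
      nlinarith
    rw [mul_pow]
    calc C / (((j : ℝ) + 1) ^ (n + 2) * Real.exp (x / 2) ^ (n + 2))
        ≤ C / (((j : ℝ) + 1) ^ 2 * Real.exp (A * x)) := by gcongr
      _ = _ := by
        rw [neg_mul, Real.exp_neg]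
        field_simp
  have hs : Summable fun j : ℕ => C * Real.exp (-A * x) * (1 / ((j : ℝ) + 1) ^ 2) :=
    as1_sum.mul_left _
  have h1 := tsum_of_norm_bounded (f := fun j : ℕ =>
    (-1 : ℝ) ^ (j + 1) * ψ (((j : ℝ) + 1) * Real.exp (x / 2))) hs.hasSum hb
  rw [Real.norm_eq_abs] at h1
  refine h1.trans (le_of_eq ?_)
  rw [tsum_mul_left]
  ring

end Pool.Agent.MP0016c7.Rz
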