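import Mathlib
import Pool.Agent.Lib.MP_0016c7_nt.Theta
import Pool.Agent.Lib.MP_0016c7_nt.Rz.Defs
import Pool.Agent.Lib.MP_0016c7_nt.Rz.DefsC
import Pool.Agent.Lib.MP_0016c7_nt.Rz.DefsF
import Pool.Agent.Lib.MP_0016c7_nt.Rz.DefsE

set_option autoImplicit false

open Finset MeasureTheory Filter Topology
open scoped Real ContDiff

namespace Pool.Agent.MP0016c7.Rz

open FourierTransform SchwartzMap

/-- scaling of a Schwartz function -/
private noncomputable def as2_sc {F : Type*} [NormedAddCommGroup F] [NormedSpace ℝ F]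
    (c : ℝ) (hc : c ≠ 0) (f : SchwartzMap ℝ F) : SchwartzMap ℝ F :=
  SchwartzMap.compCLMOfContinuousLinearEquiv ℝ
    (ContinuousLinearEquiv.unitsEquivAut ℝ (Units.mk0 c hc)) f

private lemma as2_sc_apply {F : Type*} [NormedAddCommGroup F] [NormedSpace ℝ F]
    (c : ℝ) (hc : c ≠ 0) (f : SchwartzMap ℝ F) (x : ℝ) : as2_sc c hc f x = f (x * c) := rfl

private lemma as2_summable {F : Type*} [NormedAddCommGroup F] [NormedSpace ℝ F]
    (f : SchwartzMap ℝ F) : Summable fun n : ℤ => ‖f n‖ := by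
  have h1 := ((f.isBigO_cocompact_rpow (-2)).comp_tendsto Int.tendsto_coe_cofinite).norm_left
  exact summable_of_isBigO (Real.summable_abs_int_rpow one_lt_two) h1

private lemma as2_char (n : ℤ) : fourier n ((1 / 2 : ℝ) : UnitAddCircle) = (-1 : ℂ) ^ n := by
  rw [fourier_coe_apply]
  have e : 2 * (π : ℂ) * Complex.I * n * ((1 / 2 : ℝ) : ℂ) / ((1 : ℝ) : ℂ) =
      n * (π * Complex.I) := by
    push_cast
    ring
  rw [e, Complex.exp_int_mul, Complex.exp_pi_mul_I]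

private lemma as2_poisson (ψ : SchwartzMap ℝ ℝ) : ∃ g : SchwartzMap ℝ ℂ, ∀ l : ℝ, 0 < l →
    ∑' n : ℤ, (ψ (l * n) : ℂ) * (-1 : ℂ) ^ n =
      ∑' n : ℤ, ((l⁻¹ : ℝ) : ℂ) * g ((1 / 2 + n) * l⁻¹) := by
  set ψc : SchwartzMap ℝ ℂ := ψ.postcompCLM Complex.ofRealCLM with hψc
  refine ⟨𝓕⁻ ψc, fun l hl => ?_⟩
  set g : SchwartzMap ℝ ℂ := 𝓕⁻ ψc with hg
  have hgF : 𝓕 g = ψc := fourier_fourierInv_eq ψc
  set f : SchwartzMap ℝ ℂ := (l⁻¹ : ℝ) • as2_sc l⁻¹ (inv_ne_zero hl.ne') g with hf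
  have hfa : ∀ x, f x = ((l⁻¹ : ℝ) : ℂ) * g (x * l⁻¹) := fun x => by
    rw [hf, smul_apply, as2_sc_apply]
    exact Complex.real_smul
  have h := SchwartzMap.tsum_eq_tsum_fourier f (1 / 2)
  have e1 : ∀ n : ℤ, (𝓕 f) (n : ℝ) = (ψ (l * n) : ℂ) := by
    intro n
    have e2 : (𝓕 g) (l * n : ℝ) = (ψ (l * n) : ℂ) := by
      rw [hgF]
      rfl
    rw [← e2, SchwartzMap.fourier_coe, SchwartzMap.fourier_coe,
      Real.fourier_real_eq_integral_exp_smul, Real.fourier_real_eq_integral_exp_smul]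
    have e3 := Measure.integral_comp_mul_right (fun v : ℝ =>
      Complex.exp (↑(-2 * π * v * (l * n)) * Complex.I) • g v) l⁻¹
    rw [inv_inv, abs_of_pos hl] at e3
    have e4 : ∀ v : ℝ, Complex.exp (↑(-2 * π * v * (n : ℝ)) * Complex.I) • f v =
        ((l⁻¹ : ℝ) : ℂ) * (Complex.exp (↑(-2 * π * (v * l⁻¹) * (l * n)) * Complex.I) •
          g (v * l⁻¹)) := by
      intro v
      rw [hfa]
      have e5 : -2 * π * (v * l⁻¹) * (l * (n : ℝ)) = -2 * π * v * n := by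
        field_simp
      rw [e5]
      simp only [smul_eq_mul]
      ring
    simp only [e4]
    rw [integral_const_mul, e3, Complex.real_smul, ← mul_assoc, ← Complex.ofReal_mul,
      inv_mul_cancel₀ hl.ne', Complex.ofReal_one, one_mul]
  simp only [as2_char, hfa, e1] at h
  exact h.symm

theorem alt_sum_bound_neg (ψ : SchwartzMap ℝ ℝ) (he : ∀ t, ψ (-t) = ψ t) (A : ℝ) :
    ∃ C : ℝ, ∀ x : ℝ, x ≤ 0 →
    |ψ 0 + 2 * ∑' j : ℕ, (-1 : ℝ) ^ (j + 1) * ψ (((j : ℝ) + 1) * Real.exp (x / 2))| ≤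
      C * Real.exp (A * x) := by
  obtain ⟨g, hg⟩ := as2_poisson ψ
  set B : ℕ := ⌈2 * |A|⌉₊ + 2 with hB
  obtain ⟨C, hC0, hC⟩ := g.decay B 0
  have hC' : ∀ t : ℝ, |t| ^ B * ‖g t‖ ≤ C := by
    intro t
    have := hC t
    rwa [norm_iteratedFDeriv_zero, Real.norm_eq_abs] at this
  have hsum : Summable fun n : ℤ => 1 / |(n : ℝ) + 1 / 2| ^ ((B : ℕ) : ℝ) := by
    rw [Real.summable_one_div_int_add_rpow]
    have : (2 : ℝ) ≤ (B : ℝ) := by
      rw [hB]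
      push_cast
      linarith [Nat.cast_nonneg (α := ℝ) ⌈2 * |A|⌉₊]
    linarith
  have hsum' : Summable fun n : ℤ => 1 / |(n : ℝ) + 1 / 2| ^ B := by
    simpa only [Real.rpow_natCast] using hsum
  set S : ℝ := ∑' n : ℤ, 1 / |(n : ℝ) + 1 / 2| ^ B with hS
  refine ⟨C * S, fun x hx => ?_⟩
  set l : ℝ := Real.exp (x / 2) with hl
  have hl0 : 0 < l := Real.exp_pos _
  -- the left side as a sum over the integers
  set F : ℤ → ℂ := fun n => (ψ (l * n) : ℂ) * (-1 : ℂ) ^ n with hF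
  have hFn : ∀ n : ℤ, ‖F n‖ = ‖as2_sc l hl0.ne' ψ n‖ := by
    intro n
    rw [hF, as2_sc_apply, norm_mul, Complex.norm_real, norm_zpow, norm_neg, norm_one, one_zpow,
      mul_one, mul_comm]
  have hFs : Summable F := by
    refine Summable.of_norm ?_
    simp only [hFn]
    exact as2_summable _
  have hFe : Function.Even F := by
    intro n
    simp only [hF]
    have h1 : l * ((-n : ℤ) : ℝ) = -(l * n) := by push_cast; ring
    rw [h1, he]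
    congr 1
    rw [zpow_neg, ← inv_zpow, inv_neg, inv_one]
  have h1 : ∑' n : ℤ, F n = F 0 + 2 * ∑' n : ℕ+, F n := by
    have := tsum_int_eq_zero_add_two_mul_tsum_pnat hFe hFs
    rwa [two_nsmul, ← two_mul] at this
  have h2 : ∑' n : ℕ+, F n = ∑' j : ℕ, F ((j : ℤ) + 1) := by
    have := tsum_pnat_eq_tsum_succ (f := fun n : ℕ => F (n : ℤ))
    push_cast at this
    exact this
  have h3 : ∀ j : ℕ, F ((j : ℤ) + 1) =
      (((-1 : ℝ) ^ (j + 1) * ψ (((j : ℝ) + 1) * l) : ℝ) : ℂ) := by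
    intro j
    simp only [hF]
    push_cast
    have e1 : (-1 : ℂ) ^ ((j : ℤ) + 1) = (-1 : ℂ) ^ (j + 1) := by
      rw [← zpow_natCast]
      push_cast
      rfl
    rw [e1, mul_comm, mul_comm l]
  have h4 : F 0 = ((ψ 0 : ℝ) : ℂ) := by
    simp [hF]
  have h5 : ((ψ 0 + 2 * ∑' j : ℕ, (-1 : ℝ) ^ (j + 1) * ψ (((j : ℝ) + 1) * l) : ℝ) : ℂ) =
      ∑' n : ℤ, ((l⁻¹ : ℝ) : ℂ) * g ((1 / 2 + n) * l⁻¹) := by
    rw [← hg l hl0]
    change _ = ∑' n : ℤ, F n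
    rw [h1, h2, h4]
    simp only [h3]
    push_cast
    rfl
  have h6 : |ψ 0 + 2 * ∑' j : ℕ, (-1 : ℝ) ^ (j + 1) * ψ (((j : ℝ) + 1) * l)| =
      ‖∑' n : ℤ, ((l⁻¹ : ℝ) : ℂ) * g ((1 / 2 + n) * l⁻¹)‖ := by
    rw [← h5, Complex.norm_real, Real.norm_eq_abs]
  rw [h6]
  -- the bound
  have h7 : ∀ n : ℤ, ‖((l⁻¹ : ℝ) : ℂ) * g ((1 / 2 + n) * l⁻¹)‖ ≤
      C * (l ^ B * l⁻¹) * (1 / |(n : ℝ) + 1 / 2| ^ B) := by
    intro n
    rw [norm_mul, Complex.norm_real, Real.norm_eq_abs, abs_of_pos (inv_pos.2 hl0)]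
    have hn0 : (n : ℝ) + 1 / 2 ≠ 0 := by
      intro h0
      have h8 : (2 * n + 1 : ℝ) = 0 := by linarith
      have h9 : (2 * n + 1 : ℤ) = 0 := by exact_mod_cast h8
      omega
    have hna : 0 < |(n : ℝ) + 1 / 2| := abs_pos.2 hn0
    have h8 := hC' ((1 / 2 + n) * l⁻¹)
    rw [abs_mul, abs_of_pos (inv_pos.2 hl0), mul_pow, add_comm (1 / 2 : ℝ)] at h8
    have h9 : ‖g (((n : ℝ) + 1 / 2) * l⁻¹)‖ ≤ C * l ^ B * (1 / |(n : ℝ) + 1 / 2| ^ B) := by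
      rw [mul_one_div, le_div_iff₀ (by positivity)]
      have h10 : |(n : ℝ) + 1 / 2| ^ B * l⁻¹ ^ B * ‖g (((n : ℝ) + 1 / 2) * l⁻¹)‖ * l ^ B =
          ‖g (((n : ℝ) + 1 / 2) * l⁻¹)‖ * |(n : ℝ) + 1 / 2| ^ B := by
        have : l⁻¹ ^ B * l ^ B = 1 := by
          rw [← mul_pow, inv_mul_cancel₀ hl0.ne', one_pow]
        calc _ = (|(n : ℝ) + 1 / 2| ^ B * ‖g (((n : ℝ) + 1 / 2) * l⁻¹)‖) *
              (l⁻¹ ^ B * l ^ B) := by ring
          _ = _ := by rw [this]; ring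
      rw [← h10]
      exact mul_le_mul_of_nonneg_right h8 (by positivity)
    rw [add_comm (1 / 2 : ℝ)]
    calc l⁻¹ * ‖g (((n : ℝ) + 1 / 2) * l⁻¹)‖ ≤
          l⁻¹ * (C * l ^ B * (1 / |(n : ℝ) + 1 / 2| ^ B)) :=
          mul_le_mul_of_nonneg_left h9 (inv_pos.2 hl0).le
      _ = _ := by ring
  have h8 : ‖∑' n : ℤ, ((l⁻¹ : ℝ) : ℂ) * g ((1 / 2 + n) * l⁻¹)‖ ≤ C * (l ^ B * l⁻¹) * S := by
    rw [hS, ← tsum_mul_left]
    exact tsum_of_norm_bounded (hsum'.mul_left _).hasSum h7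
  have h9 : l ^ B * l⁻¹ ≤ Real.exp (A * x) := by
    rw [hl, ← Real.exp_nat_mul, ← Real.exp_neg, ← Real.exp_add]
    apply Real.exp_le_exp.2
    have h10 : 2 * |A| ≤ (⌈2 * |A|⌉₊ : ℝ) := Nat.le_ceil _
    have h11 := le_abs_self A
    rw [hB]
    push_cast
    nlinarith
  have hS0 : 0 ≤ S := tsum_nonneg fun n => by positivity
  calc _ ≤ C * (l ^ B * l⁻¹) * S := h8
    _ ≤ C * Real.exp (A * x) * S :=
        mul_le_mul_of_nonneg_right (mul_le_mul_of_nonneg_left h9 hC0.le) hS0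
    _ = _ := by ring

end Pool.Agent.MP0016c7.Rz
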