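import Mathlib
import Pool.Agent.Lib.MP_0016c7_nt.Theta
import Pool.Agent.Lib.MP_0016c7_nt.Rz.Defs
import Pool.Agent.Lib.MP_0016c7_nt.Rz.DefsC
import Pool.Agent.Lib.MP_0016c7_nt.Rz.DefsF
import Pool.Agent.Lib.MP_0016c7_nt.Rz.DefsE
import Pool.Agent.Lib.MP_0016c7_nt.Rz.FtS
import Pool.Agent.Lib.MP_0016c7_nt.Rz.AltSum1
import Pool.Agent.Lib.MP_0016c7_nt.Rz.AltSum2

set_option autoImplicit false

open Finset MeasureTheory Filter Topology
open scoped Real ContDiff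

namespace Pool.Agent.MP0016c7.Rz

namespace BBs

/-- half of the Euler operator on Schwartz functions -/
noncomputable def heul (ψ : SchwartzMap ℝ ℝ) : SchwartzMap ℝ ℝ :=
  (1 / 2 : ℝ) • SchwartzMap.smulLeftCLM ℝ (fun t : ℝ => t) (SchwartzMap.derivCLM ℝ ℝ ψ)

theorem heul_apply (ψ : SchwartzMap ℝ ℝ) (t : ℝ) : heul ψ t = t / 2 * deriv ψ t := by
  have h : SchwartzMap.smulLeftCLM ℝ (fun t : ℝ => t) (SchwartzMap.derivCLM ℝ ℝ ψ) t =
      t * deriv ψ t := by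
    rw [SchwartzMap.smulLeftCLM_apply_apply Function.HasTemperateGrowth.id']
    rfl
  unfold heul
  rw [SchwartzMap.smul_apply, h, smul_eq_mul]
  ring

theorem heul_even {ψ : SchwartzMap ℝ ℝ} (h : ∀ t, ψ (-t) = ψ t) (t : ℝ) :
    heul ψ (-t) = heul ψ t := by
  rw [heul_apply, heul_apply]
  have h1 : deriv (fun t => ψ (-t)) t = -deriv ψ (-t) := deriv_comp_neg _ _
  rw [show (fun t => ψ (-t)) = ψ from funext h] at h1
  rw [h1]
  ring

theorem heul_zero (ψ : SchwartzMap ℝ ℝ) : heul ψ 0 = 0 := by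
  rw [heul_apply]; simp

/-- iterates -/
noncomputable def chain (ψ : SchwartzMap ℝ ℝ) (k : ℕ) : SchwartzMap ℝ ℝ := heul^[k] ψ

theorem chain_succ (ψ : SchwartzMap ℝ ℝ) (k : ℕ) : chain ψ (k + 1) = heul (chain ψ k) :=
  Function.iterate_succ_apply' heul k ψ

theorem chain_even {ψ : SchwartzMap ℝ ℝ} (h : ∀ t, ψ (-t) = ψ t) (k : ℕ) :
    ∀ t, chain ψ k (-t) = chain ψ k t := by
  induction k with
  | zero => exact h
  | succ k ih =>
    intro t
    rw [chain_succ]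
    exact heul_even ih t

/-- the alternating sum -/
noncomputable def SS (ψ : SchwartzMap ℝ ℝ) (x : ℝ) : ℝ :=
  ∑' j : ℕ, (-1 : ℝ) ^ (j + 1) * ψ (((j : ℝ) + 1) * Real.exp (x / 2))

theorem SS_deriv (ψ : SchwartzMap ℝ ℝ) (k : ℕ) (x : ℝ) :
    HasDerivAt (SS (chain ψ k)) (SS (chain ψ (k + 1)) x) x :=
  (alt_sum_deriv (chain ψ k) (chain ψ (k + 1)) (fun t => by rw [chain_succ, heul_apply]) x).2

theorem SS_contDiff (ψ : SchwartzMap ℝ ℝ) (n : ℕ) : ∀ k : ℕ, ContDiff ℝ n (SS (chain ψ k)) := by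
  induction n with
  | zero =>
    intro k
    rw [Nat.cast_zero, contDiff_zero]
    exact continuous_iff_continuousAt.2 fun x => (SS_deriv ψ k x).continuousAt
  | succ n ih =>
    intro k
    rw [Nat.cast_add, Nat.cast_one, contDiff_succ_iff_deriv]
    refine ⟨fun x => (SS_deriv ψ k x).differentiableAt, ?_, ?_⟩
    · intro h
      exact absurd h (by simp)
    · rw [show deriv (SS (chain ψ k)) = SS (chain ψ (k + 1)) from
        funext fun x => (SS_deriv ψ k x).deriv]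
      exact ih (k + 1)

theorem SS_iter (ψ : SchwartzMap ℝ ℝ) (c : ℝ) (m : ℕ) :
    iteratedDeriv m (fun x => c * SS ψ x) = fun x => c * SS (chain ψ m) x := by
  induction m with
  | zero => rw [iteratedDeriv_zero]; rfl
  | succ m ih =>
    rw [iteratedDeriv_succ, ih]
    funext x
    exact ((SS_deriv ψ m x).const_mul c).deriv

/-- `t ↦ Ft F σ (t²)` is Schwartz -/
theorem exists_sq {F : ℝ → ℝ} {a b : ℝ} (hF : Bump F a b) (σ : ℤ) :
    ∃ ψ : SchwartzMap ℝ ℝ, ∀ t : ℝ, ψ t = Ft F σ (t ^ 2) := by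
  obtain ⟨φ, hφ⟩ := Ft_schwartz hF σ
  have h1 : Function.HasTemperateGrowth (fun t : ℝ => t ^ 2) :=
    Function.HasTemperateGrowth.id'.pow 2
  have h2 : ∃ (k : ℕ) (C : ℝ), ∀ x : ℝ, ‖x‖ ≤ C * (1 + ‖x ^ 2‖) ^ k := by
    refine ⟨1, 1, fun x => ?_⟩
    rw [Real.norm_eq_abs, Real.norm_eq_abs, pow_one, one_mul, abs_of_nonneg (sq_nonneg x),
      ← sq_abs x]
    nlinarith [sq_nonneg (|x| - 1), abs_nonneg x]
  exact ⟨SchwartzMap.compCLM ℝ h1 h2 φ, fun t => hφ (t ^ 2)⟩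

theorem BB_exp {F : ℝ → ℝ} {σ : ℤ} {ψ : SchwartzMap ℝ ℝ} (hψ : ∀ t : ℝ, ψ t = Ft F σ (t ^ 2))
    (x : ℝ) : BB F σ (Real.exp x) = -2 / (∫ t : ℝ, F t) * SS ψ x := by
  unfold BB SS
  congr 1
  congr 1
  funext j
  rw [hψ]
  congr 2
  rw [mul_pow, ← Real.exp_nat_mul]
  push_cast
  congr 2
  ring

theorem Ft_zero (F : ℝ → ℝ) (σ : ℤ) : Ft F σ 0 = ∫ t, F t := by
  unfold Ft
  simp

end BBs

open BBs

theorem BB_smooth {F : ℝ → ℝ} {a b : ℝ} (ha : 0 < a) (hF : Bump F a b) (hF0 : 0 < ∫ t, F t)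
    (σ : ℤ) :
    ContDiff ℝ ∞ (fun x : ℝ => BB F σ (Real.exp x)) ∧
    Tendsto (fun x : ℝ => BB F σ (Real.exp x)) atBot (𝓝 1) ∧
    Tendsto (fun x : ℝ => BB F σ (Real.exp x)) atTop (𝓝 0) ∧
    ∀ m : ℕ, 1 ≤ m → ∀ A : ℝ, ∃ C : ℝ, ∀ x : ℝ,
      |iteratedDeriv m (fun x : ℝ => BB F σ (Real.exp x)) x| ≤ C * Real.exp (-A * |x|) := by
  obtain ⟨ψ, hψ⟩ := exists_sq hF σ
  have he : ∀ t, ψ (-t) = ψ t := fun t => by rw [hψ, hψ]; congr 1; ring
  have h0 : ψ 0 = ∫ t, F t := by rw [hψ, show (0 : ℝ) ^ 2 = 0 by norm_num, Ft_zero]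
  have hB : (fun x : ℝ => BB F σ (Real.exp x)) = fun x => -2 / (∫ t : ℝ, F t) * SS ψ x :=
    funext fun x => BB_exp hψ x
  rw [hB]
  refine ⟨?_, ?_, ?_, ?_⟩
  · exact contDiff_const.mul (contDiff_infty.2 fun n => SS_contDiff ψ n 0)
  · obtain ⟨C, hC⟩ := alt_sum_bound_neg ψ he 1
    have h1 : Tendsto (fun x : ℝ => ψ 0 + 2 * SS ψ x) atBot (𝓝 0) := by
      refine squeeze_zero_norm' (a := fun x => C * Real.exp (1 * x)) ?_ ?_
      · filter_upwards [eventually_le_atBot (0 : ℝ)] with x hx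
        exact hC x hx
      · have : Tendsto (fun x : ℝ => C * Real.exp (1 * x)) atBot (𝓝 (C * 0)) := by
          refine Tendsto.const_mul _ ?_
          simp only [one_mul]
          exact Real.tendsto_exp_atBot
        rwa [mul_zero] at this
    have h2 : Tendsto (fun x : ℝ => -1 / (∫ t : ℝ, F t) * ((ψ 0 + 2 * SS ψ x) - ψ 0)) atBot
        (𝓝 (-1 / (∫ t : ℝ, F t) * (0 - ψ 0))) := (h1.sub_const _).const_mul _
    have e1 : -1 / (∫ t : ℝ, F t) * (0 - ψ 0) = 1 := by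
      rw [h0]; field_simp; ring
    rw [e1] at h2
    refine h2.congr fun x => ?_
    ring
  · obtain ⟨C, hC⟩ := alt_sum_bound ψ 1
    have h1 : Tendsto (fun x : ℝ => SS ψ x) atTop (𝓝 0) := by
      refine squeeze_zero_norm' (a := fun x => C * Real.exp (-1 * x)) ?_ ?_
      · filter_upwards [eventually_ge_atTop (0 : ℝ)] with x hx
        exact hC x hx
      · have : Tendsto (fun x : ℝ => C * Real.exp (-1 * x)) atTop (𝓝 (C * 0)) := by
          refine Tendsto.const_mul _ ?_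
          simp only [neg_mul, one_mul]
          exact Real.tendsto_exp_neg_atTop_nhds_zero
        rwa [mul_zero] at this
    have h2 := h1.const_mul (-2 / (∫ t : ℝ, F t))
    rwa [mul_zero] at h2
  · intro m hm A
    rw [SS_iter]
    obtain ⟨C₁, hC₁⟩ := alt_sum_bound (chain ψ m) A
    obtain ⟨C₂, hC₂⟩ := alt_sum_bound_neg (chain ψ m) (chain_even he m) A
    have hz : chain ψ m 0 = 0 := by
      obtain ⟨k, rfl⟩ := Nat.exists_eq_add_of_le' hm
      rw [chain_succ]; exact heul_zero _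
    refine ⟨|(-2 / (∫ t : ℝ, F t))| * (|C₁| + |C₂|), fun x => ?_⟩
    simp only
    rw [abs_mul, mul_assoc]
    refine mul_le_mul_of_nonneg_left ?_ (abs_nonneg _)
    have hE := (Real.exp_pos (-A * |x|)).le
    rcases le_total x 0 with hx | hx
    · have h1 := hC₂ x hx
      rw [hz, zero_add, abs_mul, abs_two] at h1
      rw [abs_of_nonpos hx, show -A * -x = A * x by ring] at hE ⊢
      have h2 : C₂ * Real.exp (A * x) ≤ |C₂| * Real.exp (A * x) := by gcongr; exact le_abs_self _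
      have h3 : 0 ≤ |C₁| * Real.exp (A * x) := by positivity
      have h4 : |SS (chain ψ m) x| = |∑' j : ℕ, (-1 : ℝ) ^ (j + 1) *
        chain ψ m (((j : ℝ) + 1) * Real.exp (x / 2))| := rfl
      rw [h4]
      have h5 := abs_nonneg (∑' j : ℕ, (-1 : ℝ) ^ (j + 1) *
        chain ψ m (((j : ℝ) + 1) * Real.exp (x / 2)))
      linarith
    · have h1 := hC₁ x hx
      rw [abs_of_nonneg hx] at hE ⊢
      have h2 : C₁ * Real.exp (-A * x) ≤ |C₁| * Real.exp (-A * x) := by gcongr; exact le_abs_self _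
      have h3 : 0 ≤ |C₂| * Real.exp (-A * x) := by positivity
      have h4 : |SS (chain ψ m) x| = |∑' j : ℕ, (-1 : ℝ) ^ (j + 1) *
        chain ψ m (((j : ℝ) + 1) * Real.exp (x / 2))| := rfl
      rw [h4]
      linarith

theorem BB_le {F : ℝ → ℝ} {a b : ℝ} (ha : 0 < a) (hF : Bump F a b) (hF0 : 0 < ∫ t, F t)
    (σ : ℤ) : ∃ C : ℝ, 0 < C ∧ ∀ y : ℝ, 0 < y → |BB F σ y| ≤ C ∧ |BB F σ y| * y ≤ C := by
  obtain ⟨ψ, hψ⟩ := exists_sq hF σ
  have he : ∀ t, ψ (-t) = ψ t := fun t => by rw [hψ, hψ]; congr 1; ring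
  obtain ⟨C₁, hC₁⟩ := alt_sum_bound ψ 1
  obtain ⟨C₂, hC₂⟩ := alt_sum_bound_neg ψ he 1
  refine ⟨|(-2 / (∫ t : ℝ, F t))| * (|C₁| + |C₂| + |ψ 0|) + 1, by positivity, fun y hy => ?_⟩
  obtain ⟨x, rfl⟩ : ∃ x, y = Real.exp x := ⟨Real.log y, (Real.exp_log hy).symm⟩
  rw [BB_exp hψ, abs_mul]
  have hc : 0 ≤ |(-2 / (∫ t : ℝ, F t))| := abs_nonneg _
  generalize |(-2 / (∫ t : ℝ, F t))| = c at *
  rcases le_total x 0 with hx | hx
  · have h1 : |ψ 0 + 2 * SS ψ x| ≤ C₂ * Real.exp (1 * x) := hC₂ x hx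
    have hE1 : Real.exp x ≤ 1 := Real.exp_le_one_iff.2 hx
    have hE0 := Real.exp_pos x
    rw [one_mul] at h1
    have h2 : C₂ * Real.exp x ≤ |C₂| := by
      calc C₂ * Real.exp x ≤ |C₂| * Real.exp x := by gcongr; exact le_abs_self _
        _ ≤ |C₂| * 1 := by gcongr
        _ = |C₂| := mul_one _
    have h3 : |SS ψ x| ≤ |C₁| + |C₂| + |ψ 0| := by
      have h4 : 2 * |SS ψ x| ≤ |ψ 0 + 2 * SS ψ x| + |ψ 0| := by
        have : 2 * |SS ψ x| = |(ψ 0 + 2 * SS ψ x) - ψ 0| := by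
          rw [add_sub_cancel_left, abs_mul, abs_two]
        rw [this]
        exact abs_sub _ _
      have h5 := abs_nonneg C₁
      have h6 := abs_nonneg (SS ψ x)
      have h7 := abs_nonneg (ψ 0)
      have h8 := abs_nonneg C₂
      linarith
    have h4 : c * |SS ψ x| ≤ c * (|C₁| + |C₂| + |ψ 0|) := mul_le_mul_of_nonneg_left h3 hc
    refine ⟨by linarith, ?_⟩
    have h5 : 0 ≤ c * |SS ψ x| := by positivity
    calc c * |SS ψ x| * Real.exp x ≤ c * |SS ψ x| * 1 := by gcongr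
      _ ≤ _ := by linarith
  · have h1 : |SS ψ x| ≤ C₁ * Real.exp (-1 * x) := hC₁ x hx
    have hE1 : 1 ≤ Real.exp x := Real.one_le_exp hx
    have hE0 := Real.exp_pos x
    have h2 : |SS ψ x| * Real.exp x ≤ |C₁| := by
      calc |SS ψ x| * Real.exp x ≤ (C₁ * Real.exp (-1 * x)) * Real.exp x := by gcongr
        _ = C₁ := by rw [mul_assoc, ← Real.exp_add]; simp
        _ ≤ |C₁| := le_abs_self _
    have h3 : |SS ψ x| ≤ |C₁| := by
      calc |SS ψ x| = |SS ψ x| * 1 := (mul_one _).symm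
        _ ≤ |SS ψ x| * Real.exp x := by gcongr
        _ ≤ |C₁| := h2
    have h8 := abs_nonneg C₂
    have h7 := abs_nonneg (ψ 0)
    have h4 : c * |SS ψ x| ≤ c * (|C₁| + |C₂| + |ψ 0|) :=
      mul_le_mul_of_nonneg_left (by linarith) hc
    have h5 : c * (|SS ψ x| * Real.exp x) ≤ c * (|C₁| + |C₂| + |ψ 0|) :=
      mul_le_mul_of_nonneg_left (by linarith) hc
    exact ⟨by linarith, by linarith⟩

end Pool.Agent.MP0016c7.Rz
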