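import Mathlib
import Pool.Agent.Lib.MP_0016c7_nt.Theta
import Pool.Agent.Lib.MP_0016c7_nt.Rz.Defs
import Pool.Agent.Lib.MP_0016c7_nt.Rz.DefsC
import Pool.Agent.Lib.MP_0016c7_nt.Rz.DefsF
import Pool.Agent.Lib.MP_0016c7_nt.Rz.DefsE
import Pool.Agent.Lib.MP_0016c7_nt.Rz.BBs

set_option autoImplicit false

open Finset MeasureTheory Filter Topology
open scoped Real ContDiff

namespace Pool.Agent.MP0016c7.Rz

private theorem bbm_int_exp : Integrable (fun x : ℝ => Real.exp (-|x|)) := by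
  rw [← integrableOn_univ, ← Set.Iic_union_Ioi (a := (0 : ℝ))]
  refine IntegrableOn.union ?_ ?_
  · refine (integrableOn_exp_Iic 0).congr_fun (fun x hx => ?_) measurableSet_Iic
    rw [abs_of_nonpos hx, neg_neg]
  · refine (exp_neg_integrableOn_Ioi 0 one_pos).congr_fun (fun x hx => ?_) measurableSet_Ioi
    simp only
    rw [abs_of_pos hx]
    congr 1
    ring

section
variable {B : ℝ → ℝ} (hB : ContDiff ℝ ∞ B)
  (hdec : ∀ m : ℕ, 1 ≤ m → ∀ A : ℝ, ∃ C : ℝ, ∀ x : ℝ,
      |iteratedDeriv m B x| ≤ C * Real.exp (-A * |x|))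

private theorem bbm_norm_exp {z : ℂ} (hz : |z.re| ≤ 1) (x : ℝ) :
    ‖Complex.exp (z * x)‖ ≤ Real.exp |x| := by
  rw [Complex.norm_exp]
  apply Real.exp_le_exp.2
  have h1 : (z * (x : ℂ)).re = z.re * x := by simp
  rw [h1]
  calc z.re * x ≤ |z.re * x| := le_abs_self _
    _ = |z.re| * |x| := abs_mul _ _
    _ ≤ 1 * |x| := mul_le_mul_of_nonneg_right hz (abs_nonneg _)
    _ = |x| := one_mul _

include hdec in
private theorem bbm_bd (m : ℕ) (hm : 1 ≤ m) : ∃ C : ℝ, 0 ≤ C ∧ ∀ z : ℂ, |z.re| ≤ 1 → ∀ x : ℝ,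
    ‖((iteratedDeriv m B x : ℝ) : ℂ) * Complex.exp (z * x)‖ ≤ C * Real.exp (-|x|) := by
  obtain ⟨C, hC⟩ := hdec m hm 2
  have hC0 : 0 ≤ C := by
    have := (abs_nonneg _).trans (hC 0)
    simpa using this
  refine ⟨C, hC0, fun z hz x => ?_⟩
  rw [norm_mul, Complex.norm_real, Real.norm_eq_abs]
  calc |iteratedDeriv m B x| * ‖Complex.exp (z * x)‖ ≤
        (C * Real.exp (-2 * |x|)) * Real.exp |x| :=
        mul_le_mul (hC x) (bbm_norm_exp hz x) (norm_nonneg _) (by positivity)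
    _ = C * Real.exp (-|x|) := by
        rw [mul_assoc, ← Real.exp_add]
        congr 2
        ring

include hB in
private theorem bbm_cont (m : ℕ) (z : ℂ) :
    Continuous (fun x : ℝ => ((iteratedDeriv m B x : ℝ) : ℂ) * Complex.exp (z * x)) := by
  have h1 : Continuous (iteratedDeriv m B) :=
    hB.continuous_iteratedDeriv m (by exact_mod_cast le_top)
  fun_prop

include hB hdec in
private theorem bbm_int (m : ℕ) (hm : 1 ≤ m) (z : ℂ) (hz : |z.re| ≤ 1) :
    Integrable (fun x : ℝ => ((iteratedDeriv m B x : ℝ) : ℂ) * Complex.exp (z * x)) := by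
  obtain ⟨C, _, hC⟩ := bbm_bd hdec m hm
  exact Integrable.mono' (bbm_int_exp.const_mul C) (bbm_cont hB m z).aestronglyMeasurable
    (Eventually.of_forall fun x => hC z hz x)

include hB hdec in
private theorem bbm_parts (m : ℕ) (hm : 1 ≤ m) (z : ℂ) (hz : |z.re| ≤ 1) :
    ∫ x : ℝ, ((iteratedDeriv (m + 1) B x : ℝ) : ℂ) * Complex.exp (z * x) =
      -(z * ∫ x : ℝ, ((iteratedDeriv m B x : ℝ) : ℂ) * Complex.exp (z * x)) := by
  obtain ⟨C, _, hC⟩ := bbm_bd hdec m hm
  have hd : ∀ x : ℝ, HasDerivAt (fun x : ℝ => ((iteratedDeriv m B x : ℝ) : ℂ) * Complex.exp (z * x))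
      (((iteratedDeriv (m + 1) B x : ℝ) : ℂ) * Complex.exp (z * x) +
        z * (((iteratedDeriv m B x : ℝ) : ℂ) * Complex.exp (z * x))) x := by
    intro x
    have h1 : DifferentiableAt ℝ (iteratedDeriv m B) x :=
      (hB.differentiable_iteratedDeriv m (by exact_mod_cast ENat.natCast_lt_top m)) x
    have h2 : HasDerivAt (fun x : ℝ => ((iteratedDeriv m B x : ℝ) : ℂ))
        ((iteratedDeriv (m + 1) B x : ℝ) : ℂ) x := by
      rw [iteratedDeriv_succ]
      exact h1.hasDerivAt.ofReal_comp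
    have h3 : HasDerivAt (fun x : ℝ => Complex.exp (z * x)) (Complex.exp (z * x) * z) x := by
      have h4 : HasDerivAt (fun x : ℝ => z * (x : ℂ)) z x := by
        have := (hasDerivAt_id x).ofReal_comp.const_mul z
        simpa using this
      exact h4.cexp
    have h5 := h2.mul h3
    refine h5.congr_deriv ?_
    ring
  have hlim : ∀ l : Filter ℝ, Tendsto (fun x : ℝ => Real.exp (-|x|)) l (𝓝 0) →
      Tendsto (fun x : ℝ => ((iteratedDeriv m B x : ℝ) : ℂ) * Complex.exp (z * x)) l (𝓝 0) := by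
    intro l hl
    refine squeeze_zero_norm (fun x => hC z hz x) ?_
    simpa using hl.const_mul C
  have hi1 := bbm_int hB hdec (m + 1) (by omega) z hz
  have hi0 := bbm_int hB hdec m hm z hz
  have h1 := integral_of_hasDerivAt_of_tendsto hd (hi1.add (hi0.const_mul z))
    (hlim atBot (by
      refine Real.tendsto_exp_atBot.comp ?_
      exact tendsto_neg_atTop_atBot.comp tendsto_abs_atBot_atTop))
    (hlim atTop (by
      refine Real.tendsto_exp_atBot.comp ?_
      exact tendsto_neg_atTop_atBot.comp tendsto_abs_atTop_atTop))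
  rw [integral_add hi1 (hi0.const_mul z), integral_const_mul, sub_self] at h1
  linear_combination h1

include hB hdec in
private theorem bbm_pow (k : ℕ) (z : ℂ) (hz : |z.re| ≤ 1) :
    ∫ x : ℝ, ((iteratedDeriv (k + 1) B x : ℝ) : ℂ) * Complex.exp (z * x) =
      (-z) ^ k * ∫ x : ℝ, ((iteratedDeriv 1 B x : ℝ) : ℂ) * Complex.exp (z * x) := by
  induction k with
  | zero => simp
  | succ k ih =>
    rw [bbm_parts hB hdec (k + 1) (by omega) z hz, ih, pow_succ]
    ring


include hdec in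
private theorem bbm_Ibd (m : ℕ) (hm : 1 ≤ m) : ∃ C : ℝ, 0 ≤ C ∧ ∀ z : ℂ, |z.re| ≤ 1 →
    ‖∫ x : ℝ, ((iteratedDeriv m B x : ℝ) : ℂ) * Complex.exp (z * x)‖ ≤ C := by
  obtain ⟨C, hC0, hC⟩ := bbm_bd hdec m hm
  refine ⟨C * ∫ x : ℝ, Real.exp (-|x|), mul_nonneg hC0 (integral_nonneg fun _ => by positivity),
    fun z hz => ?_⟩
  rw [← integral_const_mul]
  exact norm_integral_le_of_norm_le (bbm_int_exp.const_mul C)
    (Eventually.of_forall fun x => hC z hz x)

end

private theorem bbm_eq (F : ℝ → ℝ) (σ : ℤ) (z : ℂ) :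
    bb F σ z = -∫ x : ℝ, ((iteratedDeriv 1 (fun x : ℝ => BB F σ (Real.exp x)) x : ℝ) : ℂ) *
      Complex.exp (z * x) := by
  unfold bb
  rw [← integral_neg, iteratedDeriv_one]
  congr 1
  funext x
  push_cast
  ring

theorem bb_bound {F : ℝ → ℝ} {a b : ℝ} (ha : 0 < a) (hF : Bump F a b) (hF0 : 0 < ∫ t, F t)
    (σ : ℤ) (A : ℝ) :
    ∃ C : ℝ, 0 < C ∧ ∀ z : ℂ, |z.re| ≤ 1 → ‖bb F σ z‖ * (1 + ‖z‖) ^ A ≤ C ∧
      ‖bb F σ z - 1‖ ≤ C * ‖z‖ := by
  obtain ⟨hB, hbot, htop, hdec⟩ := BB_smooth ha hF hF0 σ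
  set B : ℝ → ℝ := fun x => BB F σ (Real.exp x) with hBdef
  set k : ℕ := ⌈A⌉₊ with hk
  obtain ⟨C0, hC00, hC0⟩ := bbm_Ibd hdec 1 le_rfl
  obtain ⟨C1, hC10, hC1⟩ := bbm_Ibd hdec (k + 1) (by omega)
  obtain ⟨D, hD⟩ := hdec 1 le_rfl 3
  have hD0 : 0 ≤ D := by
    have := (abs_nonneg _).trans (hD 0)
    simpa using this
  have hE0 : 0 ≤ ∫ x : ℝ, Real.exp (-|x|) := integral_nonneg fun _ => by positivity
  set E := ∫ x : ℝ, Real.exp (-|x|) with hE
  -- value at zero
  have hzero : bb F σ 0 = 1 := by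
    rw [bbm_eq]
    have h1 : ∫ x : ℝ, ((iteratedDeriv 1 B x : ℝ) : ℂ) * Complex.exp (0 * x) =
        ((∫ x : ℝ, iteratedDeriv 1 B x : ℝ) : ℂ) := by
      rw [← integral_complex_ofReal]
      congr 1
      funext x
      simp
    have h2 : Integrable (iteratedDeriv 1 B) := by
      obtain ⟨C, hC⟩ := hdec 1 le_rfl 1
      refine Integrable.mono' (bbm_int_exp.const_mul C)
        (hB.continuous_iteratedDeriv 1 (by exact_mod_cast le_top)).aestronglyMeasurable
        (Eventually.of_forall fun x => ?_)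
      have := hC x
      rwa [neg_one_mul] at this
    have h3 : ∫ x : ℝ, iteratedDeriv 1 B x = 0 - 1 := by
      refine integral_of_hasDerivAt_of_tendsto (f := B) (fun x => ?_) h2 hbot htop
      rw [iteratedDeriv_one]
      exact ((hB.differentiable (by norm_num)) x).hasDerivAt
    rw [h1, h3]
    norm_num
  refine ⟨2 ^ k * (C0 + C1) + (C0 + 1 + D * E), by positivity, fun z hz => ⟨?_, ?_⟩⟩
  · have hz1 : 1 ≤ 1 + ‖z‖ := by linarith [norm_nonneg z]
    have h1 : (1 + ‖z‖) ^ A ≤ (1 + ‖z‖) ^ k := by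
      rw [← Real.rpow_natCast]
      exact Real.rpow_le_rpow_of_exponent_le hz1 (Nat.le_ceil A)
    have h2 : (1 + ‖z‖) ^ k ≤ 2 ^ k * (1 + ‖z‖ ^ k) := by
      rcases le_total ‖z‖ 1 with h | h
      · calc (1 + ‖z‖) ^ k ≤ 2 ^ k := pow_le_pow_left₀ (by positivity) (by linarith) k
          _ ≤ 2 ^ k * (1 + ‖z‖ ^ k) := by
            have : 0 ≤ (2 : ℝ) ^ k * ‖z‖ ^ k := by positivity
            linarith
      · calc (1 + ‖z‖) ^ k ≤ (2 * ‖z‖) ^ k := pow_le_pow_left₀ (by positivity) (by linarith) k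
          _ = 2 ^ k * ‖z‖ ^ k := mul_pow _ _ _
          _ ≤ 2 ^ k * (1 + ‖z‖ ^ k) := by
            have : 0 ≤ (2 : ℝ) ^ k := by positivity
            linarith
    have h3 : ‖bb F σ z‖ ≤ C0 := by
      rw [bbm_eq, norm_neg]
      exact hC0 z hz
    have h4 : ‖z‖ ^ k * ‖bb F σ z‖ ≤ C1 := by
      rw [bbm_eq, norm_neg]
      have h5 := hC1 z hz
      rw [bbm_pow hB hdec k z hz, norm_mul, norm_pow, norm_neg] at h5
      exact h5
    calc ‖bb F σ z‖ * (1 + ‖z‖) ^ A ≤ ‖bb F σ z‖ * (2 ^ k * (1 + ‖z‖ ^ k)) :=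
          mul_le_mul_of_nonneg_left (h1.trans h2) (norm_nonneg _)
      _ = 2 ^ k * (‖bb F σ z‖ + ‖z‖ ^ k * ‖bb F σ z‖) := by ring
      _ ≤ 2 ^ k * (C0 + C1) := mul_le_mul_of_nonneg_left (add_le_add h3 h4) (by positivity)
      _ ≤ _ := by
        have : 0 ≤ D * E := mul_nonneg hD0 hE0
        linarith
  · have hpos : 0 ≤ 2 ^ k * (C0 + C1) := by positivity
    have hDE : 0 ≤ D * E := mul_nonneg hD0 hE0
    rcases le_total 1 ‖z‖ with h | h
    · have h3 : ‖bb F σ z‖ ≤ C0 := by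
        rw [bbm_eq, norm_neg]
        exact hC0 z hz
      calc ‖bb F σ z - 1‖ ≤ ‖bb F σ z‖ + ‖(1 : ℂ)‖ := norm_sub_le _ _
        _ ≤ (C0 + 1) * 1 := by rw [norm_one]; linarith
        _ ≤ (C0 + 1) * ‖z‖ := mul_le_mul_of_nonneg_left h (by linarith)
        _ ≤ _ := mul_le_mul_of_nonneg_right (by linarith) (norm_nonneg _)
    · rw [← hzero, bbm_eq, bbm_eq]
      have hi1 := bbm_int hB hdec 1 le_rfl z hz
      have hi0 := bbm_int hB hdec 1 le_rfl 0 (by simp)
      have e1 : -(∫ x : ℝ, ((iteratedDeriv 1 B x : ℝ) : ℂ) * Complex.exp (z * x)) -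
          -(∫ x : ℝ, ((iteratedDeriv 1 B x : ℝ) : ℂ) * Complex.exp (0 * x)) =
          -∫ x : ℝ, (((iteratedDeriv 1 B x : ℝ) : ℂ) * Complex.exp (z * x) -
            ((iteratedDeriv 1 B x : ℝ) : ℂ) * Complex.exp (0 * x)) := by
        rw [integral_sub hi1 hi0]
        ring
      rw [e1, norm_neg]
      have h5 : ∀ x : ℝ, ‖((iteratedDeriv 1 B x : ℝ) : ℂ) * Complex.exp (z * x) -
            ((iteratedDeriv 1 B x : ℝ) : ℂ) * Complex.exp (0 * x)‖ ≤
          (‖z‖ * D) * Real.exp (-|x|) := by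
        intro x
        rw [← mul_sub, norm_mul, Complex.norm_real, Real.norm_eq_abs, zero_mul, Complex.exp_zero]
        have h6 := Complex.norm_exp_sub_sum_le_norm_mul_exp (z * x) 1
        simp only [Finset.range_one, Finset.sum_singleton, pow_zero, Nat.factorial_zero,
          Nat.cast_one, div_one, pow_one] at h6
        have h7 : ‖z * (x : ℂ)‖ ≤ |x| := by
          rw [norm_mul, Complex.norm_real, Real.norm_eq_abs]
          calc ‖z‖ * |x| ≤ 1 * |x| := mul_le_mul_of_nonneg_right h (abs_nonneg _)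
            _ = |x| := one_mul _
        have h8 : ‖z * (x : ℂ)‖ = ‖z‖ * |x| := by
          rw [norm_mul, Complex.norm_real, Real.norm_eq_abs]
        have h9 : |x| ≤ Real.exp |x| := (le_add_of_nonneg_right zero_le_one).trans
          (Real.add_one_le_exp |x|)
        have h10 : ‖Complex.exp (z * x) - 1‖ ≤ ‖z‖ * (Real.exp |x| * Real.exp |x|) := by
          refine h6.trans ?_
          rw [h8, mul_assoc]
          refine mul_le_mul_of_nonneg_left ?_ (norm_nonneg _)
          refine mul_le_mul h9 ?_ (by positivity) (by positivity)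
          rw [← h8]
          exact Real.exp_le_exp.2 h7
        calc |iteratedDeriv 1 B x| * ‖Complex.exp (z * x) - 1‖ ≤
              (D * Real.exp (-3 * |x|)) * (‖z‖ * (Real.exp |x| * Real.exp |x|)) :=
              mul_le_mul (hD x) h10 (norm_nonneg _) (by positivity)
          _ = (‖z‖ * D) * (Real.exp (-3 * |x|) * (Real.exp |x| * Real.exp |x|)) := by ring
          _ = (‖z‖ * D) * Real.exp (-|x|) := by
              rw [← Real.exp_add, ← Real.exp_add]
              congr 2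
              ring
      refine (norm_integral_le_of_norm_le (bbm_int_exp.const_mul (‖z‖ * D))
        (Eventually.of_forall h5)).trans ?_
      rw [integral_const_mul, ← hE]
      calc ‖z‖ * D * E = D * E * ‖z‖ := by ring
        _ ≤ _ := mul_le_mul_of_nonneg_right (by linarith) (norm_nonneg _)

theorem continuous_bb {F : ℝ → ℝ} {a b : ℝ} (ha : 0 < a) (hF : Bump F a b) (hF0 : 0 < ∫ t, F t)
    (σ : ℤ) (c : ℝ) (hc : |c| ≤ 1) : Continuous (fun t : ℝ => bb F σ (c + Complex.I * t)) := by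
  obtain ⟨hB, hbot, htop, hdec⟩ := BB_smooth ha hF hF0 σ
  set B : ℝ → ℝ := fun x => BB F σ (Real.exp x) with hBdef
  obtain ⟨C, hC0, hC⟩ := bbm_bd hdec 1 le_rfl
  have hre : ∀ t : ℝ, |((c : ℂ) + Complex.I * t).re| ≤ 1 := by
    intro t
    simpa using hc
  have e1 : (fun t : ℝ => bb F σ (c + Complex.I * t)) = fun t : ℝ =>
      -∫ x : ℝ, ((iteratedDeriv 1 B x : ℝ) : ℂ) * Complex.exp (((c : ℂ) + Complex.I * t) * x) := by
    funext t
    rw [bbm_eq]
  rw [e1]
  refine Continuous.neg ?_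
  refine continuous_of_dominated (bound := fun x => C * Real.exp (-|x|)) (fun t => ?_)
    (fun t => Eventually.of_forall fun x => hC _ (hre t) x) (bbm_int_exp.const_mul C)
    (Eventually.of_forall fun x => ?_)
  · exact (bbm_cont hB 1 _).aestronglyMeasurable
  · fun_prop

end Pool.Agent.MP0016c7.Rz
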