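import Mathlib
import Pool.Agent.Lib.MP_0016c7_nt.Theta
import Pool.Agent.Lib.MP_0016c7_nt.Rz.Defs
import Pool.Agent.Lib.MP_0016c7_nt.Rz.DefsC
import Pool.Agent.Lib.MP_0016c7_nt.Rz.DefsF
import Pool.Agent.Lib.MP_0016c7_nt.Rz.DefsE
import Pool.Agent.Lib.MP_0016c7_nt.Rz.ArithA1
import Pool.Agent.Lib.MP_0016c7_nt.Rz.FtS

set_option autoImplicit false

open Finset MeasureTheory Filter Topology
open scoped Real ContDiff

namespace Pool.Agent.MP0016c7.Rz

private lemma a7_dvd {b j e : ℕ} (hb : b ≠ 0) (he : Squarefree e)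
    (h : (b : ℤ) ^ 2 ∣ (j : ℤ) ^ 2 * (e : ℤ)) : b ∣ j := by
  have h' : b ^ 2 ∣ j ^ 2 * e := by exact_mod_cast h
  obtain ⟨b', j', hc, hb', hj'⟩ := Nat.exists_coprime b j
  have hg : 0 < Nat.gcd b j := Nat.gcd_pos_of_pos_left _ (Nat.pos_of_ne_zero hb)
  set g := Nat.gcd b j with hgdef
  have h2 : g ^ 2 * b' ^ 2 ∣ g ^ 2 * (j' ^ 2 * e) := by
    have e1 : g ^ 2 * b' ^ 2 = b ^ 2 := by rw [hb']; ring
    have e2 : g ^ 2 * (j' ^ 2 * e) = j ^ 2 * e := by rw [hj']; ring
    rw [e1, e2]; exact h'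
  have h3 : b' ^ 2 ∣ j' ^ 2 * e := Nat.dvd_of_mul_dvd_mul_left (by positivity) h2
  have h4 : b' ^ 2 ∣ e := (Nat.Coprime.pow 2 2 hc).dvd_of_dvd_mul_left h3
  have h5 : IsUnit b' := he b' (by rw [← sq]; exact h4)
  have h6 : b' = 1 := Nat.isUnit_iff.1 h5
  rw [hj', hb', h6, one_mul]
  exact dvd_mul_left _ _

private lemma a7_jac (x : ℤ) (n : ℕ) (hn : n ≠ 0) :
    ((jacobiSym (x ^ 2) n : ℤ) : ℝ) = if Nat.Coprime x.natAbs n then 1 else 0 := by
  split_ifs with h
  · have : x.gcd n = 1 := by simpa [Int.gcd, Nat.Coprime] using h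
    rw [jacobiSym.sq_one' this]; norm_num
  · have h1 : x.gcd n ≠ 1 := by
      intro h'; exact h (by simpa [Int.gcd, Nat.Coprime] using h')
    rw [jacobiSym.pow_left, jacobiSym.eq_zero_iff.2 ⟨hn, h1⟩]; norm_num

private lemma a7_rho (a b : ℕ) (hb : b ≠ 0) :
    ∑ e ∈ b.divisors, (ArithmeticFunction.moebius e : ℝ) / e *
      (if Nat.Coprime e a then 1 else 0) =
    ∏ p ∈ b.primeFactors.filter (fun p => ¬ p ∣ a), (1 - 1 / (p : ℝ)) := by
  classical
  set P := b.primeFactors.filter (fun p => ¬ p ∣ a) with hP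
  have hPp : ∀ p ∈ P, p.Prime := fun p hp => Nat.prime_of_mem_primeFactors (mem_filter.1 hp).1
  set n := ∏ p ∈ P, p with hn
  have hnP : n.primeFactors = P := Nat.primeFactors_prod hPp
  have hn0 : n ≠ 0 := Finset.prod_ne_zero_iff.2 fun p hp => (hPp p hp).ne_zero
  have hsq : Squarefree n := by
    rw [hn]
    refine Finset.squarefree_prod_of_pairwise_isCoprime ?_ ?_
    · intro p hp q hq hpq
      exact Nat.coprime_iff_isRelPrime.1 ((Nat.coprime_primes (hPp p hp) (hPp q hq)).2 hpq)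
    · intro p hp
      exact (hPp p hp).prime.irreducible.squarefree
  let f : ArithmeticFunction ℝ := ⟨fun n => (n : ℝ)⁻¹, by simp⟩
  have hf : f.IsMultiplicative := by
    refine ⟨by simp [f], ?_⟩
    intro m n _
    simp [f, mul_comm]
  have hprod := hf.prodPrimeFactors_one_sub_of_squarefree f hsq
  rw [hnP] at hprod
  have e1 : ∏ p ∈ P, (1 - 1 / (p : ℝ)) = ∏ p ∈ P, (1 - f p) := by
    refine Finset.prod_congr rfl fun p _ => ?_
    simp [f]
  rw [e1, hprod]
  have hnb : n ∣ b := by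
    rw [hn]
    refine dvd_trans (Finset.prod_dvd_prod_of_subset _ _ _ (Finset.filter_subset _ _))
      (Nat.prod_primeFactors_dvd b)
  have hna : Nat.Coprime n a := by
    rw [hn]
    refine Nat.Coprime.prod_left fun p hp => ?_
    exact (Nat.Prime.coprime_iff_not_dvd (hPp p hp)).2 (mem_filter.1 hp).2
  symm
  have hsub : n.divisors ⊆ b.divisors := Nat.divisors_subset_of_dvd hb hnb
  rw [← Finset.sum_subset hsub]
  · refine Finset.sum_congr rfl fun e he => ?_
    have : Nat.Coprime e a := Nat.Coprime.coprime_dvd_left (Nat.dvd_of_mem_divisors he) hna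
    rw [if_pos this]
    simp [f, div_eq_mul_inv]
  · intro e he he'
    by_cases hc : Nat.Coprime e a
    · by_cases hs : Squarefree e
      · exfalso
        apply he'
        rw [Nat.mem_divisors]
        refine ⟨?_, hn0⟩
        rw [← Nat.prod_primeFactors_of_squarefree hs, hn]
        refine Finset.prod_dvd_prod_of_subset _ _ _ fun p hp => ?_
        have hpp := Nat.prime_of_mem_primeFactors hp
        have hpe := Nat.dvd_of_mem_primeFactors hp
        rw [hP, mem_filter]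
        refine ⟨Nat.mem_primeFactors.2 ⟨hpp, hpe.trans (Nat.dvd_of_mem_divisors he), hb⟩, ?_⟩
        intro hpa
        exact Nat.Prime.not_coprime_iff_dvd.2 ⟨p, hpp, hpe, hpa⟩ hc
      · have : ArithmeticFunction.moebius e = 0 := by
          by_contra h
          exact hs (ArithmeticFunction.moebius_ne_zero_iff_squarefree.1 h)
        rw [this]; simp
    · rw [if_neg hc, mul_zero]

private lemma a7_b_ne (N : ℕ) (hN : N ≠ 0) : sq2 N ≠ 0 := by
  intro h
  have := sq1_mul_sq2 N hN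
  rw [h] at this; simp at this; exact hN this.symm

private lemma a7_a_ne (N : ℕ) (hN : N ≠ 0) : sq1 N ≠ 0 := by
  intro h
  have := sq1_mul_sq2 N hN
  rw [h] at this; simp at this; exact hN this.symm

private lemma a7_a_odd (N : ℕ) (hN : Odd N) : Odd (sq1 N) := by
  have h0 : N ≠ 0 := by rintro rfl; simp at hN
  have := sq1_mul_sq2 N h0
  rw [← this] at hN
  exact (Nat.odd_mul.1 hN).1

private lemma a7_b_odd (N : ℕ) (hN : Odd N) : Odd (sq2 N) := by
  have h0 : N ≠ 0 := by rintro rfl; simp at hN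
  have := sq1_mul_sq2 N h0
  rw [← this] at hN
  exact (Nat.odd_pow_iff (by norm_num)).1 (Nat.odd_mul.1 hN).2

private lemma a7_gg (N : ℕ) (hN : Odd N) (j : ℕ) :
    gg ((j : ℤ) ^ 2) N =
      if sq2 N ∣ j ∧ Nat.Coprime (j / sq2 N) (sq1 N) then rhoN N / √(sq1 N : ℝ) else 0 := by
  classical
  have h0 : N ≠ 0 := by rintro rfl; simp at hN
  have hb := a7_b_ne N h0
  have ha := a7_a_ne N h0
  have hao := a7_a_odd N hN
  unfold gg
  set b := sq2 N with hbdef
  set a := sq1 N with hadef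
  by_cases hbj : b ∣ j
  · obtain ⟨m, rfl⟩ := hbj
    have hm : b * m / b = m := Nat.mul_div_cancel_left m (Nat.pos_of_ne_zero hb)
    rw [hm]
    have hbz : (b : ℤ) ≠ 0 := by exact_mod_cast hb
    have hfil : b.divisors.filter (fun e : ℕ => ((b : ℕ) : ℤ) ^ 2 ∣ ((b * m : ℕ) : ℤ) ^ 2 * (e : ℤ))
        = b.divisors := by
      refine Finset.filter_true_of_mem fun e _ => ?_
      push_cast
      rw [mul_pow, mul_assoc]
      exact dvd_mul_right _ _
    rw [hfil]
    have hterm : ∀ e ∈ b.divisors, (ArithmeticFunction.moebius e : ℝ) / e *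
        jr (((b * m : ℕ) : ℤ) ^ 2 * (e : ℤ) ^ 2 / ((b : ℕ) : ℤ) ^ 2) a =
        (if Nat.Coprime m a then 1 else 0) * ((ArithmeticFunction.moebius e : ℝ) / e *
          (if Nat.Coprime e a then 1 else 0)) := by
      intro e _
      have hq : ((b * m : ℕ) : ℤ) ^ 2 * (e : ℤ) ^ 2 / ((b : ℕ) : ℤ) ^ 2 = ((m * e : ℕ) : ℤ) ^ 2 := by
        push_cast
        have : ((b : ℤ) * m) ^ 2 * (e : ℤ) ^ 2 = (b : ℤ) ^ 2 * ((m : ℤ) * e) ^ 2 := by ring
        rw [this]
        exact Int.mul_ediv_cancel_left _ (pow_ne_zero _ hbz)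
      rw [hq]
      unfold jr
      rw [if_pos hao, a7_jac _ _ ha]
      have : Nat.Coprime (((m * e : ℕ) : ℤ)).natAbs a ↔ Nat.Coprime m a ∧ Nat.Coprime e a := by
        rw [Int.natAbs_natCast]
        exact Nat.coprime_mul_iff_left
      rw [if_congr this rfl rfl]
      by_cases h1 : Nat.Coprime m a
      · by_cases h2 : Nat.Coprime e a
        · rw [if_pos ⟨h1, h2⟩, if_pos h1, if_pos h2]; ring
        · rw [if_neg (fun h => h2 h.2), if_pos h1, if_neg h2]; ring
      · rw [if_neg (fun h => h1 h.1), if_neg h1]; ring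
    rw [Finset.sum_congr rfl hterm, ← Finset.mul_sum, a7_rho a b hb]
    by_cases h1 : Nat.Coprime m a
    · rw [if_pos h1, if_pos ⟨dvd_mul_right b m, h1⟩, one_mul]
      rfl
    · rw [if_neg h1, if_neg (fun h => h1 h.2), zero_mul, zero_div]
  · rw [if_neg (fun h => hbj h.1)]
    rw [Finset.sum_eq_zero, zero_div]
    intro e he
    rw [mem_filter] at he
    have : ArithmeticFunction.moebius e = 0 := by
      by_contra h
      exact hbj (a7_dvd hb (ArithmeticFunction.moebius_ne_zero_iff_squarefree.1 h) he.2)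
    rw [this]; simp

private lemma a7_rho_bd (N : ℕ) (hN : Odd N) : 0 ≤ rhoN N ∧ rhoN N / √(sq1 N : ℝ) ≤ 1 ∧
    0 ≤ rhoN N / √(sq1 N : ℝ) := by
  have h0 : N ≠ 0 := by rintro rfl; simp at hN
  have ha := a7_a_ne N h0
  have hpos : ∀ p ∈ (sq2 N).primeFactors.filter (fun p => ¬ p ∣ sq1 N), (0:ℝ) ≤ 1 - 1 / (p : ℝ) := by
    intro p hp
    have hp' := (Nat.prime_of_mem_primeFactors (mem_filter.1 hp).1).one_lt
    have : (1:ℝ) < p := by exact_mod_cast hp'
    rw [sub_nonneg, div_le_one (by linarith)]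
    exact this.le
  have h1 : 0 ≤ rhoN N := Finset.prod_nonneg hpos
  have h2 : rhoN N ≤ 1 := by
    refine Finset.prod_le_one hpos fun p _ => ?_
    have : (0:ℝ) ≤ 1 / (p : ℝ) := by positivity
    linarith
  have h3 : (1:ℝ) ≤ √(sq1 N : ℝ) := by
    rw [Real.one_le_sqrt]
    exact_mod_cast Nat.one_le_iff_ne_zero.2 ha
  refine ⟨h1, ?_, by positivity⟩
  rw [div_le_one (by linarith)]
  linarith

private lemma a7_Ft_bd {F : ℝ → ℝ} {a b : ℝ} (hF : Bump F a b) (σ : ℤ) :
    ∃ C : ℝ, 0 ≤ C ∧ (∀ ξ, |Ft F σ ξ| ≤ C) ∧ ∀ ξ, |ξ| * |Ft F σ ξ| ≤ C := by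
  obtain ⟨φ, hφ⟩ := Ft_schwartz hF σ
  obtain ⟨C0, hC0⟩ := φ.decay 0 0
  obtain ⟨C1, hC1⟩ := φ.decay 1 0
  refine ⟨max C0 C1, ?_, ?_, ?_⟩
  · have := hC0.2 0
    simp at this
    exact (abs_nonneg _).trans (this.trans (le_max_left _ _))
  · intro ξ
    have := hC0.2 ξ
    simp [hφ] at this
    exact this.trans (le_max_left _ _)
  · intro ξ
    have := hC1.2 ξ
    simp [hφ] at this
    exact this.trans (le_max_right _ _)

private lemma a7_summable {F : ℝ → ℝ} {a b : ℝ} (hF : Bump F a b) (σ : ℤ) (y : ℝ) (hy : 0 < y) :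
    Summable (fun m : ℕ => |Ft F σ ((m : ℝ) ^ 2 * y)|) := by
  obtain ⟨C, hC, -, h1⟩ := a7_Ft_bd hF σ
  rw [← summable_nat_add_iff 1]
  have hs : Summable (fun m : ℕ => C / y * (1 / ((m + 1 : ℕ) : ℝ) ^ 2)) := by
    refine Summable.mul_left _ ?_
    exact (summable_nat_add_iff (f := fun m : ℕ => 1 / (m : ℝ) ^ 2) 1).2
      (Real.summable_one_div_nat_pow.2 (by norm_num))
  refine Summable.of_nonneg_of_le (fun m => abs_nonneg _) (fun m => ?_) hs
  have hm : (0:ℝ) < ((m + 1 : ℕ) : ℝ) := by positivity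
  have := h1 (((m + 1 : ℕ) : ℝ) ^ 2 * y)
  rw [abs_of_pos (by positivity)] at this
  rw [← mul_le_mul_iff_right₀ (show (0:ℝ) < ((m + 1 : ℕ) : ℝ) ^ 2 * y by positivity)]
  refine this.trans (le_of_eq ?_)
  field_simp

private lemma a7_moeb (n a : ℕ) (hn : n ≠ 0) (ha : a ≠ 0) :
    ∑ e ∈ a.divisors, (if e ∣ n then (ArithmeticFunction.moebius e : ℝ) else 0) =
      if Nat.Coprime n a then 1 else 0 := by
  classical
  have h1 : a.divisors.filter (fun e => e ∣ n) = (Nat.gcd n a).divisors := by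
    ext e
    simp only [mem_filter, Nat.mem_divisors]
    constructor
    · rintro ⟨⟨h1, h2⟩, h3⟩
      exact ⟨Nat.dvd_gcd h3 h1, Nat.gcd_ne_zero_left hn⟩
    · rintro ⟨h1, h2⟩
      exact ⟨⟨h1.trans (Nat.gcd_dvd_right _ _), ha⟩, h1.trans (Nat.gcd_dvd_left _ _)⟩
  rw [← Finset.sum_filter, h1]
  have h2 := congrArg (fun f : ArithmeticFunction ℤ => f (Nat.gcd n a))
    ArithmeticFunction.moebius_mul_coe_zeta
  simp only [ArithmeticFunction.coe_mul_zeta_apply, ArithmeticFunction.one_apply] at h2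
  have h3 : ((∑ e ∈ (Nat.gcd n a).divisors, ArithmeticFunction.moebius e : ℤ) : ℝ) =
      ((if Nat.gcd n a = 1 then 1 else 0 : ℤ) : ℝ) := by rw [h2]
  push_cast at h3
  rw [h3]

/-- The alternating sums over the multiples of `e`. -/
private lemma a7_mult (g : ℕ → ℝ) (e : ℕ) (he : e ≠ 0) :
    ∑' m : ℕ, (if e ∣ m + 1 then g (m + 1) else 0) = ∑' m : ℕ, g (e * (m + 1)) := by
  have hinj : Function.Injective (fun m : ℕ => e * (m + 1) - 1) := by
    intro m m' h
    have h1 : 1 ≤ e * (m + 1) := Nat.one_le_iff_ne_zero.2 (by positivity)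
    have h2 : 1 ≤ e * (m' + 1) := Nat.one_le_iff_ne_zero.2 (by positivity)
    simp only at h
    have h3 : e * (m + 1) = e * (m' + 1) := by omega
    have := Nat.eq_of_mul_eq_mul_left (Nat.pos_of_ne_zero he) h3
    omega
  rw [← hinj.tsum_eq]
  · refine tsum_congr fun m => ?_
    have h1 : 1 ≤ e * (m + 1) := Nat.one_le_iff_ne_zero.2 (by positivity)
    have h2 : e * (m + 1) - 1 + 1 = e * (m + 1) := by omega
    simp only [h2]
    rw [if_pos (dvd_mul_right _ _)]
  · intro m hm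
    rw [Function.mem_support] at hm
    have hd : e ∣ m + 1 := by
      by_contra h
      rw [if_neg h] at hm
      exact hm rfl
    obtain ⟨c, hc⟩ := hd
    have hc0 : c ≠ 0 := by rintro rfl; simp at hc
    refine ⟨c - 1, ?_⟩
    have : c - 1 + 1 = c := by omega
    simp only [this, ← hc]
    omega

theorem MM_eq {F : ℝ → ℝ} {a b : ℝ} (ha : 0 < a) (hF : Bump F a b) (hF0 : 0 < ∫ t, F t) (σ : ℤ)
    (N : ℕ) (hN : Odd N) (Y : ℝ) (hY : 0 < Y) :
    MM F σ Y N = (∫ t, F t) * ((if sq1 N = 1 then rhoN N else 0) -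
      1 / 2 * (rhoN N / √(sq1 N : ℝ) * ∑ e ∈ (sq1 N).divisors,
        (ArithmeticFunction.moebius e : ℝ) * BB F σ ((e : ℝ) ^ 2 * Y / (2 * (sq1 N : ℝ))))) := by
  classical
  have h0 : N ≠ 0 := by rintro rfl; simp at hN
  have hb := a7_b_ne N h0
  have ha0 := a7_a_ne N h0
  have hao := a7_a_odd N hN
  have hbo := a7_b_odd N hN
  have hNab := sq1_mul_sq2 N h0
  have hgg := a7_gg N hN
  set A := sq1 N with hA
  set B := sq2 N with hB
  have hAr : (0:ℝ) < A := by exact_mod_cast Nat.pos_of_ne_zero ha0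
  have hBr : (0:ℝ) < B := by exact_mod_cast Nat.pos_of_ne_zero hb
  have hNr : (N : ℝ) = A * B ^ 2 := by exact_mod_cast hNab.symm
  set y : ℝ := Y / (2 * A) with hy
  have hy0 : 0 < y := by positivity
  set K : ℝ := rhoN N / √(A : ℝ) with hK
  set g : ℕ → ℝ := fun m => (-1 : ℝ) ^ m * Ft F σ ((m : ℝ) ^ 2 * y) with hg
  have hgs : Summable (fun m => |g m|) := by
    refine (a7_summable hF σ y hy0).congr fun m => ?_
    rw [hg]
    simp only [abs_mul, abs_pow, abs_neg, abs_one, one_pow, one_mul]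
  -- step 1: reindex
  have step1 : MM F σ Y N = ∑' m : ℕ, (if Nat.Coprime m A then K else 0) * g m := by
    unfold MM
    have hinj : Function.Injective (fun m : ℕ => B * m) := fun m m' h =>
      Nat.eq_of_mul_eq_mul_left (Nat.pos_of_ne_zero hb) h
    rw [← hinj.tsum_eq]
    · refine tsum_congr fun m => ?_
      rw [hgg (B * m)]
      have h1 : B * m / B = m := Nat.mul_div_cancel_left m (Nat.pos_of_ne_zero hb)
      have h2 : ((B * m : ℕ) : ℝ) ^ 2 * Y / (2 * N) = (m : ℝ) ^ 2 * y := by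
        rw [hNr, hy]; push_cast; field_simp
      have h3 : (-1 : ℝ) ^ (B * m) = (-1) ^ m := by
        rw [pow_mul, hbo.neg_one_pow]
      rw [h1, h2, h3]
      by_cases h4 : Nat.Coprime m A
      · rw [if_pos ⟨dvd_mul_right _ _, h4⟩, if_pos h4]
        simp only [hg]
        ring
      · rw [if_neg (fun h => h4 h.2), if_neg h4]
        ring
    · intro j hj
      rw [Function.mem_support] at hj
      have hd : B ∣ j := by
        by_contra h
        rw [hgg j, if_neg (fun h' => h h'.1)] at hj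
        simp at hj
      obtain ⟨c, hc⟩ := hd
      exact ⟨c, hc.symm⟩
  have hsum1 : Summable (fun m : ℕ => (if Nat.Coprime m A then K else 0) * g m) := by
    refine Summable.of_norm_bounded (g := fun m => |K| * |g m|) (hgs.mul_left _) fun m => ?_
    rw [norm_mul, Real.norm_eq_abs, Real.norm_eq_abs]
    refine mul_le_mul_of_nonneg_right ?_ (abs_nonneg _)
    split_ifs
    · exact le_rfl
    · simp
  rw [step1, hsum1.tsum_eq_zero_add]
  have hFt0 : Ft F σ 0 = ∫ t, F t := by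
    unfold Ft
    simp
  have hg0 : g 0 = ∫ t, F t := by
    simp only [hg]
    simp [hFt0]
  have hc0 : Nat.Coprime 0 A ↔ A = 1 := Nat.coprime_zero_left A
  -- the shifted sum
  have hsh : Summable (fun m : ℕ => |g (m + 1)|) :=
    (summable_nat_add_iff (f := fun m : ℕ => |g m|) 1).2 hgs
  have step2 : ∑' m : ℕ, (if Nat.Coprime (m + 1) A then K else 0) * g (m + 1) =
      K * ∑ e ∈ A.divisors, (ArithmeticFunction.moebius e : ℝ) * ∑' m : ℕ, g (e * (m + 1)) := by
    have e1 : ∀ m : ℕ, (if Nat.Coprime (m + 1) A then K else 0) * g (m + 1) =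
        ∑ e ∈ A.divisors, K * ((ArithmeticFunction.moebius e : ℝ) *
          (if e ∣ m + 1 then g (m + 1) else 0)) := by
      intro m
      have := a7_moeb (m + 1) A (Nat.succ_ne_zero m) ha0
      have e2 : (if Nat.Coprime (m + 1) A then K else 0) =
          K * (if Nat.Coprime (m + 1) A then 1 else 0) := by split_ifs <;> simp
      rw [e2, ← this, Finset.mul_sum, Finset.sum_mul]
      refine Finset.sum_congr rfl fun e _ => ?_
      split_ifs <;> ring
    rw [tsum_congr e1, Summable.tsum_finsetSum]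
    · rw [Finset.mul_sum]
      refine Finset.sum_congr rfl fun e he => ?_
      have he0 : e ≠ 0 := (Nat.pos_of_mem_divisors he).ne'
      rw [tsum_mul_left, tsum_mul_left, a7_mult g e he0]
    · intro e _
      refine Summable.mul_left _ (Summable.mul_left _ ?_)
      refine Summable.of_norm_bounded (g := fun m => |g (m + 1)|) hsh fun m => ?_
      split_ifs
      · exact le_rfl
      · simp
  have hBB : ∀ e ∈ A.divisors, ∑' m : ℕ, g (e * (m + 1)) =
      -(∫ t, F t) / 2 * BB F σ ((e : ℝ) ^ 2 * Y / (2 * (A : ℝ))) := by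
    intro e he
    have heo : Odd e := Odd.of_dvd_nat hao (Nat.dvd_of_mem_divisors he)
    unfold BB
    have e1 : -(∫ t, F t) / 2 * (-2 / (∫ t : ℝ, F t) * ∑' j : ℕ, (-1 : ℝ) ^ (j + 1) *
        Ft F σ (((j + 1 : ℕ) : ℝ) ^ 2 * ((e : ℝ) ^ 2 * Y / (2 * (A : ℝ))))) =
        ∑' j : ℕ, (-1 : ℝ) ^ (j + 1) *
          Ft F σ (((j + 1 : ℕ) : ℝ) ^ 2 * ((e : ℝ) ^ 2 * Y / (2 * (A : ℝ)))) := by
      have := hF0.ne'
      rw [← mul_assoc]
      have e2 : -(∫ t, F t) / 2 * (-2 / (∫ t : ℝ, F t)) = 1 := by field_simp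
      rw [e2, one_mul]
    rw [e1]
    refine tsum_congr fun m => ?_
    simp only [hg]
    have h1 : (-1 : ℝ) ^ (e * (m + 1)) = (-1) ^ (m + 1) := by rw [pow_mul, heo.neg_one_pow]
    have h2 : ((e * (m + 1) : ℕ) : ℝ) ^ 2 * y = ((m + 1 : ℕ) : ℝ) ^ 2 * ((e : ℝ) ^ 2 * Y / (2 * (A : ℝ))) := by
      rw [hy]; push_cast; ring
    rw [h1, h2]
  rw [step2, Finset.sum_congr rfl (fun e he => by rw [hBB e he])]
  have h5 : ∑ e ∈ A.divisors, (ArithmeticFunction.moebius e : ℝ) *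
      (-(∫ t, F t) / 2 * BB F σ ((e : ℝ) ^ 2 * Y / (2 * (A : ℝ)))) =
      -(∫ t, F t) / 2 * ∑ e ∈ A.divisors, (ArithmeticFunction.moebius e : ℝ) *
        BB F σ ((e : ℝ) ^ 2 * Y / (2 * (A : ℝ))) := by
    rw [Finset.mul_sum]
    exact Finset.sum_congr rfl fun e _ => by ring
  rw [h5, hg0, if_congr hc0 rfl rfl]
  by_cases h6 : A = 1
  · rw [if_pos h6, if_pos h6]
    have : K = rhoN N := by rw [hK, h6]; simp
    rw [this]
    ring
  · rw [if_neg h6, if_neg h6]
    ring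

theorem abs_MM_le {F : ℝ → ℝ} {a b : ℝ} (ha : 0 < a) (hF : Bump F a b) (σ : ℤ) :
    ∃ C : ℝ, ∀ (N : ℕ) (_ : Odd N) (Y : ℝ) (_ : 1 ≤ Y), |MM F σ Y N| ≤ C * N := by
  obtain ⟨C, hC, hC0, hC1⟩ := a7_Ft_bd hF σ
  have hs : Summable (fun m : ℕ => 1 / ((m + 1 : ℕ) : ℝ) ^ 2) :=
    (summable_nat_add_iff (f := fun m : ℕ => 1 / (m : ℝ) ^ 2) 1).2
      (Real.summable_one_div_nat_pow.2 (by norm_num))
  set S := ∑' m : ℕ, 1 / ((m + 1 : ℕ) : ℝ) ^ 2 with hS
  have hSn : 0 ≤ S := tsum_nonneg fun m => by positivity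
  refine ⟨C + 2 * C * S, fun N hN Y hY => ?_⟩
  have h0 : N ≠ 0 := by rintro rfl; simp at hN
  have hN1 : (1:ℝ) ≤ N := by exact_mod_cast Nat.one_le_iff_ne_zero.2 h0
  obtain ⟨_, hr1, hr0⟩ := a7_rho_bd N hN
  have hgg : ∀ j : ℕ, |gg ((j : ℤ) ^ 2) N| ≤ 1 := by
    intro j
    rw [a7_gg N hN j]
    split_ifs
    · rw [abs_of_nonneg hr0]; exact hr1
    · simp
  have hy0 : (0:ℝ) < Y / (2 * N) := by positivity
  set f : ℕ → ℝ := fun j => (-1 : ℝ) ^ j * gg ((j : ℤ) ^ 2) N * Ft F σ ((j : ℝ) ^ 2 * Y / (2 * N))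
    with hf
  have hfb : ∀ j, |f j| ≤ |Ft F σ ((j : ℝ) ^ 2 * (Y / (2 * N)))| := by
    intro j
    simp only [hf]
    rw [abs_mul, abs_mul, abs_pow, abs_neg, abs_one, one_pow, one_mul, mul_div_assoc]
    exact mul_le_of_le_one_left (abs_nonneg _) (hgg j)
  have hsf : Summable (fun j => |f j|) :=
    Summable.of_nonneg_of_le (fun j => abs_nonneg _) hfb (a7_summable hF σ _ hy0)
  have h1 : |MM F σ Y N| ≤ ∑' j, |f j| := by
    have := norm_tsum_le_tsum_norm (f := f) (by simpa using hsf)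
    simpa [MM] using this
  rw [hsf.tsum_eq_zero_add] at h1
  have h2 : |f 0| ≤ C := (hfb 0).trans (hC0 _)
  have h3 : ∑' j : ℕ, |f (j + 1)| ≤ ∑' m : ℕ, 2 * C * N * (1 / ((m + 1 : ℕ) : ℝ) ^ 2) := by
    refine Summable.tsum_le_tsum (fun m => ?_) ((summable_nat_add_iff (f := fun j => |f j|) 1).2 hsf)
      (hs.mul_left _)
    refine (hfb (m + 1)).trans ?_
    have hm : (0:ℝ) < ((m + 1 : ℕ) : ℝ) := by positivity
    have h4 := hC1 (((m + 1 : ℕ) : ℝ) ^ 2 * (Y / (2 * N)))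
    rw [abs_of_pos (by positivity)] at h4
    have h5 : ((m + 1 : ℕ) : ℝ) ^ 2 * (1 / (2 * N)) * |Ft F σ (((m + 1 : ℕ) : ℝ) ^ 2 * (Y / (2 * N)))| ≤
        C := by
      refine le_trans (mul_le_mul_of_nonneg_right ?_ (abs_nonneg _)) h4
      refine mul_le_mul_of_nonneg_left ?_ (by positivity)
      exact div_le_div_of_nonneg_right hY (by positivity)
    rw [← mul_le_mul_iff_right₀ (show (0:ℝ) < ((m + 1 : ℕ) : ℝ) ^ 2 * (1 / (2 * N)) by positivity)]
    refine h5.trans (le_of_eq ?_)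
    field_simp
  rw [tsum_mul_left] at h3
  calc |MM F σ Y N| ≤ |f 0| + ∑' j : ℕ, |f (j + 1)| := h1
    _ ≤ C + 2 * C * N * S := add_le_add h2 h3
    _ ≤ C * N + 2 * C * N * S := by
        have : C ≤ C * N := le_mul_of_one_le_right hC hN1
        linarith
    _ = (C + 2 * C * S) * N := by ring

end Pool.Agent.MP0016c7.Rz
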