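import Mathlib
import Pool.Agent.Lib.MP_0016c7_nt.Theta
import Pool.Agent.Lib.MP_0016c7_nt.Rz.Defs
import Pool.Agent.Lib.MP_0016c7_nt.Rz.DefsC
import Pool.Agent.Lib.MP_0016c7_nt.Rz.DefsF
import Pool.Agent.Lib.MP_0016c7_nt.Rz.DefsE
import Pool.Agent.Lib.MP_0016c7_nt.Rz.BBs
import Pool.Agent.Lib.MP_0016c7_nt.Rz.BBm

set_option autoImplicit false

open Finset MeasureTheory Filter Topology
open scoped Real ContDiff

namespace Pool.Agent.MP0016c7.Rz

private theorem exp_image : Real.exp '' (Set.univ : Set ℝ) = Set.Ioi 0 := by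
  rw [Set.image_univ, Real.range_exp]

private theorem exp_smul_aux (x : ℝ) (s : ℂ) (w : ℂ) :
    |Real.exp x| • (((Real.exp x : ℝ) : ℂ) ^ (s - 1) • w) = Complex.exp (s * x) * w := by
  rw [abs_of_pos (Real.exp_pos x), Complex.real_smul, smul_eq_mul, ← mul_assoc]
  congr 1
  rw [Complex.cpow_def_of_ne_zero (by exact_mod_cast (Real.exp_pos x).ne'),
    ← Complex.ofReal_log (Real.exp_pos x).le, Real.log_exp, Complex.ofReal_exp, ← Complex.exp_add]
  congr 1
  ring

private theorem exp_deriv_aux : ∀ x ∈ (Set.univ : Set ℝ),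
    HasDerivWithinAt Real.exp (Real.exp x) Set.univ x :=
  fun x _ => (Real.hasDerivAt_exp x).hasDerivWithinAt

private theorem mellin_exp (f : ℝ → ℂ) (s : ℂ) :
    mellin f s = ∫ x : ℝ, Complex.exp (s * x) * f (Real.exp x) := by
  rw [mellin, ← exp_image, integral_image_eq_integral_abs_deriv_smul MeasurableSet.univ
    exp_deriv_aux Real.exp_injective.injOn]
  simp only [exp_smul_aux, Measure.restrict_univ]

private theorem mellinConv_exp (f : ℝ → ℂ) (s : ℂ)
    (h : Integrable (fun x : ℝ => Complex.exp (s * x) * f (Real.exp x))) :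
    MellinConvergent f s := by
  rw [MellinConvergent, ← exp_image, integrableOn_image_iff_integrableOn_abs_deriv_smul
      MeasurableSet.univ exp_deriv_aux Real.exp_injective.injOn]
  simp only [exp_smul_aux]
  rw [integrableOn_univ]
  exact h

private theorem integrable_exp_abs (c : ℝ) (hc : 0 < c) :
    Integrable (fun x : ℝ => Real.exp (-c * |x|)) := by
  rw [← integrableOn_univ, ← Set.Iic_union_Ioi (a := (0 : ℝ))]
  refine IntegrableOn.union ?_ ?_
  · refine (integrableOn_exp_mul_Iic hc 0).congr_fun (fun x hx => ?_) measurableSet_Iic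
    simp only
    rw [abs_of_nonpos hx]
    congr 1
    ring
  · refine (integrableOn_exp_mul_Ioi (neg_lt_zero.mpr hc) 0).congr_fun (fun x hx => ?_)
      measurableSet_Ioi
    simp only
    rw [abs_of_pos hx]

/-- a function with exponentially small derivative that tends to zero is exponentially small -/
private theorem decay_of_deriv (B : ℝ → ℝ) (hB : Differentiable ℝ B) (C : ℝ)
    (hd : ∀ x, |deriv B x| ≤ C * Real.exp (-2 * |x|)) (hm : Continuous (deriv B))
    (h0 : Tendsto B atTop (𝓝 0)) (x : ℝ) (hx : 0 ≤ x) : |B x| ≤ C * Real.exp (-2 * x) := by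
  have hC : 0 ≤ C := by
    have h1 := (abs_nonneg _).trans (hd 0)
    simpa using h1
  have hI : IntegrableOn (fun u : ℝ => C * Real.exp (-2 * u)) (Set.Ioi x) :=
    (integrableOn_exp_mul_Ioi (by norm_num) x).const_mul C
  have hi : IntegrableOn (deriv B) (Set.Ioi x) := by
    refine Integrable.mono' hI hm.aestronglyMeasurable ?_
    refine (ae_restrict_iff' measurableSet_Ioi).mpr (Filter.Eventually.of_forall fun u hu => ?_)
    have h1 := hd u
    rw [abs_of_nonneg (hx.trans (le_of_lt hu))] at h1
    exact h1
  have h2 := integral_Ioi_of_hasDerivAt_of_tendsto (a := x) (m := 0) (f := B) (f' := deriv B)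
    hB.continuous.continuousWithinAt (fun u _ => (hB u).hasDerivAt) hi h0
  rw [zero_sub] at h2
  rw [← abs_neg, ← h2]
  calc |∫ u in Set.Ioi x, deriv B u| ≤ ∫ u in Set.Ioi x, |deriv B u| := abs_integral_le_integral_abs
    _ ≤ ∫ u in Set.Ioi x, C * Real.exp (-2 * u) := by
      refine setIntegral_mono_on hi.abs hI measurableSet_Ioi fun u hu => ?_
      have h1 := hd u
      rw [abs_of_nonneg (hx.trans (le_of_lt hu))] at h1
      exact h1
    _ = C * (Real.exp (-2 * x) / 2) := by
      rw [integral_const_mul, integral_exp_mul_Ioi (by norm_num)]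
      ring
    _ ≤ C * Real.exp (-2 * x) := by
      refine mul_le_mul_of_nonneg_left ?_ hC
      have := Real.exp_pos (-2 * x)
      linarith

private theorem norm_cexp_mul (s : ℂ) (x : ℝ) : ‖Complex.exp (s * x)‖ = Real.exp (s.re * x) := by
  rw [Complex.norm_exp]
  congr 1
  simp

theorem BB_inversion {F : ℝ → ℝ} {a b : ℝ} (ha : 0 < a) (hF : Bump F a b) (hF0 : 0 < ∫ t, F t)
    (σ : ℤ) (c : ℝ) (hc : 0 < c) (hc1 : c ≤ 1) (y : ℝ) (hy : 0 < y) :
    (BB F σ y : ℂ) = 1 / (2 * π) * ∫ t : ℝ, bb F σ (c + Complex.I * t) *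
      (y : ℂ) ^ (-(c + Complex.I * t : ℂ)) / (c + Complex.I * t) := by
  obtain ⟨hsm, -, htop, hder⟩ := BB_smooth ha hF hF0 σ
  obtain ⟨K, hK, hKb⟩ := BB_le ha hF hF0 σ
  set B : ℝ → ℝ := fun x : ℝ => BB F σ (Real.exp x) with hB
  obtain ⟨D, hD⟩ := hder 1 le_rfl 2
  rw [iteratedDeriv_one] at hD
  have hBd : Differentiable ℝ B := hsm.differentiable (by simp)
  have hBc : Continuous (deriv B) := hsm.continuous_deriv (by simp)
  have hdec := decay_of_deriv B hBd D hD hBc htop
  have hDn : 0 ≤ D := by
    have h1 := (abs_nonneg _).trans (hD 0)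
    simpa using h1
  -- the uniform bound
  have hbd : ∀ x : ℝ, Real.exp (c * x) * |B x| ≤ (K + D) * Real.exp (-c * |x|) := by
    intro x
    rcases le_total 0 x with hx | hx
    · have h1 := hdec x hx
      rw [abs_of_nonneg hx]
      calc Real.exp (c * x) * |B x| ≤ Real.exp (c * x) * (D * Real.exp (-2 * x)) :=
            mul_le_mul_of_nonneg_left h1 (Real.exp_pos _).le
        _ = D * Real.exp ((c - 2) * x) := by
          rw [mul_left_comm, ← Real.exp_add]
          congr 2
          ring
        _ ≤ D * Real.exp (-c * x) := by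
          refine mul_le_mul_of_nonneg_left (Real.exp_le_exp.mpr ?_) hDn
          nlinarith
        _ ≤ (K + D) * Real.exp (-c * x) := by
          refine mul_le_mul_of_nonneg_right ?_ (Real.exp_pos _).le
          linarith
    · have h1 : |B x| ≤ K := (hKb (Real.exp x) (Real.exp_pos x)).1
      rw [abs_of_nonpos hx, show -c * -x = c * x by ring]
      calc Real.exp (c * x) * |B x| ≤ Real.exp (c * x) * (K + D) :=
            mul_le_mul_of_nonneg_left (by linarith) (Real.exp_pos _).le
        _ = _ := mul_comm _ _
  have hint : ∀ s : ℂ, s.re = c →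
      Integrable (fun x : ℝ => Complex.exp (s * x) * ((B x : ℝ) : ℂ)) := by
    intro s hs
    refine Integrable.mono' ((integrable_exp_abs c hc).const_mul (K + D)) ?_ ?_
    · refine Continuous.aestronglyMeasurable ?_
      have := hBd.continuous
      fun_prop
    · refine Filter.Eventually.of_forall fun x => ?_
      rw [norm_mul, norm_cexp_mul, hs, Complex.norm_real, Real.norm_eq_abs]
      exact hbd x
  have hint' : ∀ s : ℂ, s.re = c →
      Integrable (fun x : ℝ => Complex.exp (s * x) * ((deriv B x : ℝ) : ℂ)) := by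
    intro s hs
    refine Integrable.mono' ((integrable_exp_abs c hc).const_mul D) ?_ ?_
    · refine Continuous.aestronglyMeasurable ?_
      fun_prop
    · refine Filter.Eventually.of_forall fun x => ?_
      rw [norm_mul, norm_cexp_mul, hs, Complex.norm_real, Real.norm_eq_abs]
      calc Real.exp (c * x) * |deriv B x| ≤ Real.exp (c * x) * (D * Real.exp (-2 * |x|)) :=
            mul_le_mul_of_nonneg_left (hD x) (Real.exp_pos _).le
        _ = D * Real.exp (c * x + -2 * |x|) := by
          rw [mul_left_comm, ← Real.exp_add]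
        _ ≤ D * Real.exp (-c * |x|) := by
          refine mul_le_mul_of_nonneg_left (Real.exp_le_exp.mpr ?_) hDn
          have := le_abs_self x
          have := abs_nonneg x
          nlinarith
  -- the Mellin transform
  have hmel : ∀ s : ℂ, s.re = c → mellin (fun t => (BB F σ t : ℂ)) s = bb F σ s / s := by
    intro s hs
    have hs0 : s ≠ 0 := by
      rintro rfl
      simp at hs
      linarith
    rw [mellin_exp]
    have hu : ∀ x : ℝ, HasDerivAt (fun x : ℝ => Complex.exp (s * x) / s) (Complex.exp (s * x)) x := by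
      intro x
      have h1 : HasDerivAt (fun x : ℝ => s * (x : ℂ)) s x := by
        have := (Complex.ofRealCLM.hasDerivAt (x := x)).const_mul s
        simpa using this
      have h2 := h1.cexp.div_const s
      have h3 : Complex.exp (s * x) * s / s = Complex.exp (s * x) := by
        field_simp
      rw [h3] at h2
      exact h2
    have hv : ∀ x : ℝ, HasDerivAt (fun x : ℝ => ((B x : ℝ) : ℂ)) ((deriv B x : ℝ) : ℂ) x :=
      fun x => (hBd x).hasDerivAt.ofReal_comp
    have htz : ∀ l : Filter ℝ, Tendsto (fun x : ℝ => Real.exp (-c * |x|)) l (𝓝 0) →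
        Tendsto ((fun x : ℝ => Complex.exp (s * x) / s) * (fun x : ℝ => ((B x : ℝ) : ℂ))) l
          (𝓝 0) := by
      intro l hl
      refine squeeze_zero_norm (a := fun x => (K + D) / ‖s‖ * Real.exp (-c * |x|)) (fun x => ?_) ?_
      · simp only [Pi.mul_apply]
        rw [norm_mul, norm_div, norm_cexp_mul, hs, Complex.norm_real, Real.norm_eq_abs, div_mul_eq_mul_div,
          div_mul_eq_mul_div]
        exact div_le_div_of_nonneg_right (hbd x) (norm_nonneg s)
      · simpa using hl.const_mul ((K + D) / ‖s‖)
    have habs : Tendsto (fun x : ℝ => Real.exp (-c * x)) atTop (𝓝 0) :=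
      Real.tendsto_exp_atBot.comp (tendsto_id.const_mul_atTop_of_neg (neg_lt_zero.mpr hc))
    have h1 := integral_mul_deriv_eq_deriv_mul (fun x _ => hu x) (fun x _ => hv x)
      (by
        have := (hint' s hs).div_const s
        refine this.congr (Filter.Eventually.of_forall fun x => ?_)
        simp only [Pi.mul_apply]
        ring)
      (hint s hs) (htz _ (habs.comp tendsto_abs_atBot_atTop)) (htz _ (habs.comp tendsto_abs_atTop_atTop))
    rw [sub_zero, zero_sub] at h1
    have h2 : ∫ x : ℝ, Complex.exp (s * x) * ((B x : ℝ) : ℂ) =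
        ∫ x : ℝ, Complex.exp (s * x) * (BB F σ (Real.exp x) : ℂ) := rfl
    rw [← h2, ← neg_eq_iff_eq_neg.mpr h1, ← integral_neg, bb, ← integral_div]
    refine integral_congr_ae (Filter.Eventually.of_forall fun x => ?_)
    simp only
    push_cast
    ring
  -- Mellin inversion
  obtain ⟨E, hE, hEb⟩ := bb_bound ha hF hF0 σ 2
  have hcont : ContinuousAt (fun t => (BB F σ t : ℂ)) y := by
    have h1 : ContinuousAt (fun t => ((B (Real.log t) : ℝ) : ℂ)) y := by
      have h2 : ContinuousAt Real.log y := Real.continuousAt_log hy.ne'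
      have h3 : ContinuousAt (fun t => B (Real.log t)) y :=
        ContinuousAt.comp (f := Real.log) (g := B) hBd.continuous.continuousAt h2
      exact Complex.continuous_ofReal.continuousAt.comp h3
    refine h1.congr ?_
    filter_upwards [lt_mem_nhds hy] with t ht
    rw [hB]
    simp only
    rw [Real.exp_log ht]
  have hvert : Complex.VerticalIntegrable (mellin (fun t => (BB F σ t : ℂ))) c := by
    unfold Complex.VerticalIntegrable
    have e1 : (fun t : ℝ => mellin (fun t => (BB F σ t : ℂ)) (c + t * Complex.I)) =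
        fun t : ℝ => bb F σ (c + Complex.I * t) / (c + Complex.I * t) := by
      funext t
      rw [hmel _ (by simp), mul_comm Complex.I]
    rw [e1]
    refine Integrable.mono' (integrable_inv_one_add_sq.const_mul (E / c)) ?_ ?_
    · refine Continuous.aestronglyMeasurable ?_
      refine (continuous_bb ha hF hF0 σ c (by rw [abs_of_pos hc]; exact hc1)).div (by fun_prop) ?_
      intro t h0
      have := congrArg Complex.re h0
      simp at this
      linarith
    · refine Filter.Eventually.of_forall fun t => ?_
      set z : ℂ := c + Complex.I * t with hz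
      have hre : z.re = c := by rw [hz]; simp
      have him : z.im = t := by rw [hz]; simp
      have h1 := (hEb z (by rw [hre, abs_of_pos hc]; exact hc1)).1
      have h2 : c ≤ ‖z‖ := by
        have := Complex.abs_re_le_norm z
        rwa [hre, abs_of_pos hc] at this
      have h3 : |t| ≤ ‖z‖ := by
        have := Complex.abs_im_le_norm z
        rwa [him] at this
      rw [norm_div]
      have h4 : 1 + t ^ 2 ≤ (1 + ‖z‖) ^ (2 : ℝ) := by
        rw [Real.rpow_two, ← sq_abs t]
        have := abs_nonneg t
        nlinarith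
      have h5 : ‖bb F σ z‖ * (1 + t ^ 2) ≤ E :=
        (mul_le_mul_of_nonneg_left h4 (norm_nonneg _)).trans h1
      have h6 : 0 < 1 + t ^ 2 := by positivity
      rw [div_le_iff₀ (by linarith), ← div_eq_mul_inv, div_mul_eq_mul_div, le_div_iff₀ h6]
      calc ‖bb F σ z‖ * (1 + t ^ 2) ≤ E := h5
        _ = E / c * c := by field_simp
        _ ≤ E / c * ‖z‖ := mul_le_mul_of_nonneg_left h2 (by positivity)
  have hmain := mellinInv_mellin_eq c (fun t => (BB F σ t : ℂ)) hy
    (mellinConv_exp _ _ (hint c (by simp))) hvert hcont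
  rw [← hmain, mellinInv, Complex.real_smul]
  push_cast
  congr 1
  refine integral_congr_ae (Filter.Eventually.of_forall fun t => ?_)
  simp only
  rw [hmel _ (by simp), mul_comm Complex.I, smul_eq_mul]
  ring

end Pool.Agent.MP0016c7.Rz
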