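import Mathlib
import Pool.Agent.Lib.MP_0016c7_nt.Theta
import Pool.Agent.Lib.MP_0016c7_nt.Rz.Defs
import Pool.Agent.Lib.MP_0016c7_nt.Rz.DefsC
import Pool.Agent.Lib.MP_0016c7_nt.Rz.DefsF
import Pool.Agent.Lib.MP_0016c7_nt.Rz.DefsE
import Pool.Agent.Lib.MP_0016c7_nt.Rz.ArithA7
import Pool.Agent.Lib.MP_0016c7_nt.Rz.BBi
import Pool.Agent.Lib.MP_0016c7_nt.Rz.BBm

set_option autoImplicit false

open Finset MeasureTheory Filter Topology
open scoped Real ContDiff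

namespace Pool.Agent.MP0016c7.Rz

private theorem mmr_sq1_pos (N : ℕ) : 0 < sq1 N := by
  unfold sq1
  exact Finset.prod_pos (fun p hp => (Nat.prime_of_mem_primeFactors (Finset.mem_filter.1 hp).1).pos)

private theorem mmr_kernel {F : ℝ → ℝ} {a b : ℝ} (ha : 0 < a) (hF : Bump F a b)
    (hF0 : 0 < ∫ t, F t) (σ : ℤ) (c : ℝ) (hc : 0 < c) (hc1 : c ≤ 1) (Y : ℝ) (hY : 0 < Y) :
    Integrable (fun t : ℝ => bb F σ (c + Complex.I * t) * ((Y : ℝ) : ℂ) ^ (-(c + Complex.I * t : ℂ)) /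
      (c + Complex.I * t)) := by
  have hcont : Continuous (fun t : ℝ => bb F σ (c + Complex.I * t) *
      ((Y : ℝ) : ℂ) ^ (-(c + Complex.I * t : ℂ)) / (c + Complex.I * t)) := by
    apply Continuous.div
    · apply Continuous.mul (continuous_bb ha hF hF0 σ c (by rw [abs_of_pos hc]; exact hc1))
      apply Continuous.const_cpow
      · fun_prop
      · left
        exact_mod_cast hY.ne'
    · fun_prop
    · intro t h0
      have := congrArg Complex.re h0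
      simp at this
      linarith
  obtain ⟨C, hC, hb⟩ := bb_bound ha hF hF0 σ 2
  have hdom : Integrable (fun t : ℝ => (C * Y ^ (-c) / c) * (1 + t ^ 2)⁻¹) :=
    integrable_inv_one_add_sq.const_mul _
  refine hdom.mono' hcont.aestronglyMeasurable (Filter.Eventually.of_forall fun t => ?_)
  have hre : ((c : ℂ) + Complex.I * t).re = c := by simp
  have him : ((c : ℂ) + Complex.I * t).im = t := by simp
  have h1 := (hb (c + Complex.I * t) (by rw [hre, abs_of_pos hc]; exact hc1)).1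
  have h2 : |t| ≤ ‖(c : ℂ) + Complex.I * t‖ := by
    have := Complex.abs_im_le_norm ((c : ℂ) + Complex.I * t)
    rwa [him] at this
  have h3 : c ≤ ‖(c : ℂ) + Complex.I * t‖ := by
    have := Complex.re_le_norm ((c : ℂ) + Complex.I * t)
    rwa [hre] at this
  have h4 : ‖bb F σ (c + Complex.I * t)‖ ≤ C * (1 + t ^ 2)⁻¹ := by
    rw [← div_eq_mul_inv, le_div_iff₀ (by positivity)]
    refine le_trans ?_ h1
    apply mul_le_mul_of_nonneg_left _ (norm_nonneg _)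
    rw [Real.rpow_two]
    have h5 : t ^ 2 ≤ ‖(c : ℂ) + Complex.I * t‖ ^ 2 := by
      rw [← sq_abs t]
      exact pow_le_pow_left₀ (abs_nonneg t) h2 2
    nlinarith [norm_nonneg ((c : ℂ) + Complex.I * t)]
  have h6 : ‖((Y : ℝ) : ℂ) ^ (-(c + Complex.I * t : ℂ))‖ = Y ^ (-c) := by
    rw [Complex.norm_cpow_eq_rpow_re_of_pos hY]
    simp
  rw [norm_div, norm_mul, h6]
  have hYc : 0 < Y ^ (-c) := Real.rpow_pos_of_pos hY _
  calc ‖bb F σ (c + Complex.I * t)‖ * Y ^ (-c) / ‖(c : ℂ) + Complex.I * t‖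
      ≤ (C * (1 + t ^ 2)⁻¹) * Y ^ (-c) / c := by
        apply div_le_div₀ (by positivity) (mul_le_mul_of_nonneg_right h4 hYc.le) hc h3
    _ = (C * Y ^ (-c) / c) * (1 + t ^ 2)⁻¹ := by ring

theorem MM_repr {F : ℝ → ℝ} {a b : ℝ} (ha : 0 < a) (hF : Bump F a b) (hF0 : 0 < ∫ t, F t) (σ : ℤ)
    (N : ℕ) (hN : Odd N) (Y : ℝ) (hY : 0 < Y) (c : ℝ) (hc : 0 < c) (hc1 : c ≤ 1) :
    (MM F σ Y N : ℂ) = ((∫ t, F t : ℝ) : ℂ) * (bz 0 N - 1 / 2 * (1 / (2 * π)) * ∫ t : ℝ,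
      bb F σ (c + Complex.I * t) * (((Y / 2 : ℝ)) : ℂ) ^ (-(c + Complex.I * t : ℂ)) *
        bz (c + Complex.I * t) N / (c + Complex.I * t)) := by
  have hq : 0 < sq1 N := mmr_sq1_pos N
  have hqR : (0 : ℝ) < sq1 N := by exact_mod_cast hq
  have h0 : bz 0 N = ((if sq1 N = 1 then rhoN N else 0 : ℝ) : ℂ) := by
    unfold bz
    have e1 : ∑ e ∈ (sq1 N).divisors, (ArithmeticFunction.moebius e : ℂ) *
        (((sq1 N : ℝ) / (e : ℝ) ^ 2 : ℝ) : ℂ) ^ (0 : ℂ) =
        ((∑ e ∈ (sq1 N).divisors, ArithmeticFunction.moebius e : ℤ) : ℂ) := by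
      push_cast
      apply Finset.sum_congr rfl
      intro e _
      rw [Complex.cpow_zero, mul_one]
    have e5 : ∑ e ∈ (sq1 N).divisors, ArithmeticFunction.moebius e = if sq1 N = 1 then 1 else 0 := by
      rw [← ArithmeticFunction.coe_zeta_mul_apply, ArithmeticFunction.coe_zeta_mul_moebius,
        ArithmeticFunction.one_apply]
    rw [e1, e5]
    by_cases h : sq1 N = 1
    · simp [h]
    · simp [h]
  have hBB : ∀ e ∈ (sq1 N).divisors, (BB F σ ((e : ℝ) ^ 2 * Y / (2 * (sq1 N : ℝ))) : ℂ) =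
      1 / (2 * π) * ∫ t : ℝ, (((sq1 N : ℝ) / (e : ℝ) ^ 2 : ℝ) : ℂ) ^ (c + Complex.I * t : ℂ) *
        (bb F σ (c + Complex.I * t) * ((Y / 2 : ℝ) : ℂ) ^ (-(c + Complex.I * t : ℂ)) /
          (c + Complex.I * t)) := by
    intro e he
    have he0 : (0 : ℝ) < e := by exact_mod_cast Nat.pos_of_mem_divisors he
    rw [BB_inversion ha hF hF0 σ c hc hc1 _ (by positivity)]
    congr 1
    apply integral_congr_ae
    filter_upwards with t
    have e2 : (((e : ℝ) ^ 2 * Y / (2 * (sq1 N : ℝ)) : ℝ) : ℂ) ^ (-(c + Complex.I * t : ℂ)) =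
        (((sq1 N : ℝ) / (e : ℝ) ^ 2 : ℝ) : ℂ) ^ (c + Complex.I * t : ℂ) *
          ((Y / 2 : ℝ) : ℂ) ^ (-(c + Complex.I * t : ℂ)) := by
      have e3 : ((e : ℝ) ^ 2 * Y / (2 * (sq1 N : ℝ)) : ℝ) = ((sq1 N : ℝ) / (e : ℝ) ^ 2)⁻¹ * (Y / 2) := by
        field_simp
      rw [e3, Complex.ofReal_mul, Complex.mul_cpow_ofReal_nonneg (by positivity) (by positivity),
        Complex.ofReal_inv, Complex.inv_cpow, Complex.cpow_neg, inv_inv]
      rw [Complex.arg_ofReal_of_nonneg (by positivity)]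
      exact Real.pi_pos.ne
    rw [e2]
    ring
  have hint : ∀ e ∈ (sq1 N).divisors, Integrable (fun t : ℝ =>
      (ArithmeticFunction.moebius e : ℂ) * ((((sq1 N : ℝ) / (e : ℝ) ^ 2 : ℝ) : ℂ) ^
        (c + Complex.I * t : ℂ) *
        (bb F σ (c + Complex.I * t) * ((Y / 2 : ℝ) : ℂ) ^ (-(c + Complex.I * t : ℂ)) /
          (c + Complex.I * t)))) := by
    intro e he
    have he0 : (0 : ℝ) < e := by exact_mod_cast Nat.pos_of_mem_divisors he
    have hpos : (0 : ℝ) < (sq1 N : ℝ) / (e : ℝ) ^ 2 := by positivity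
    apply Integrable.const_mul
    have hk := mmr_kernel ha hF hF0 σ c hc hc1 (Y / 2) (by positivity)
    apply hk.bdd_mul (c := ((sq1 N : ℝ) / (e : ℝ) ^ 2) ^ c)
    · apply Continuous.aestronglyMeasurable
      apply Continuous.const_cpow
      · fun_prop
      · left
        exact_mod_cast hpos.ne'
    · filter_upwards with t
      rw [Complex.norm_cpow_eq_rpow_re_of_pos hpos]
      simp
  have hmain : (((rhoN N / √(sq1 N : ℝ) * ∑ e ∈ (sq1 N).divisors,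
        (ArithmeticFunction.moebius e : ℝ) * BB F σ ((e : ℝ) ^ 2 * Y / (2 * (sq1 N : ℝ))) : ℝ)) : ℂ) =
      1 / (2 * π) * ∫ t : ℝ,
      bb F σ (c + Complex.I * t) * (((Y / 2 : ℝ)) : ℂ) ^ (-(c + Complex.I * t : ℂ)) *
        bz (c + Complex.I * t) N / (c + Complex.I * t) := by
    have e0 : (((rhoN N / √(sq1 N : ℝ) * ∑ e ∈ (sq1 N).divisors,
        (ArithmeticFunction.moebius e : ℝ) * BB F σ ((e : ℝ) ^ 2 * Y / (2 * (sq1 N : ℝ))) : ℝ)) : ℂ) =
        (rhoN N : ℂ) / (√(sq1 N : ℝ) : ℂ) * ∑ e ∈ (sq1 N).divisors,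
          (ArithmeticFunction.moebius e : ℂ) *
          (BB F σ ((e : ℝ) ^ 2 * Y / (2 * (sq1 N : ℝ))) : ℂ) := by
      push_cast
      rfl
    rw [e0]
    have e4 : ∑ e ∈ (sq1 N).divisors, (ArithmeticFunction.moebius e : ℂ) *
        (BB F σ ((e : ℝ) ^ 2 * Y / (2 * (sq1 N : ℝ))) : ℂ) =
        1 / (2 * π) * ∫ t : ℝ, ∑ e ∈ (sq1 N).divisors,
          (ArithmeticFunction.moebius e : ℂ) * ((((sq1 N : ℝ) / (e : ℝ) ^ 2 : ℝ) : ℂ) ^
        (c + Complex.I * t : ℂ) *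
        (bb F σ (c + Complex.I * t) * ((Y / 2 : ℝ) : ℂ) ^ (-(c + Complex.I * t : ℂ)) /
          (c + Complex.I * t))) := by
      rw [integral_finsetSum _ hint, Finset.mul_sum]
      apply Finset.sum_congr rfl
      intro e he
      rw [hBB e he, integral_const_mul]
      ring
    rw [e4]
    rw [← mul_assoc, mul_comm ((rhoN N : ℂ) / (√(sq1 N : ℝ) : ℂ)) (1 / (2 * (π : ℂ))), mul_assoc,
      ← integral_const_mul]
    congr 1
    apply integral_congr_ae
    filter_upwards with t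
    unfold bz
    rw [Finset.mul_sum, Finset.mul_sum, Finset.mul_sum, Finset.sum_div]
    apply Finset.sum_congr rfl
    intro e _
    ring
  rw [MM_eq ha hF hF0 σ N hN Y hY, h0]
  rw [Complex.ofReal_mul, Complex.ofReal_sub, Complex.ofReal_mul (1 / 2 : ℝ), hmain]
  push_cast
  ring

end Pool.Agent.MP0016c7.Rz
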