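import Mathlib
import Pool.Agent.Lib.MP_0016c7_nt.Theta
import Pool.Agent.Lib.MP_0016c7_nt.Rz.Defs
import Pool.Agent.Lib.MP_0016c7_nt.Rz.DefsC
import Pool.Agent.Lib.MP_0016c7_nt.Rz.DefsF
import Pool.Agent.Lib.MP_0016c7_nt.Rz.DefsE

set_option autoImplicit false

open Finset MeasureTheory Filter Topology
open scoped Real ContDiff

namespace Pool.Agent.MP0016c7.Rz

private theorem sumq_fib (N : ℕ) (hN : N ≠ 0) : ∃ E : Finset ((ℕ × ℕ) × (ℕ × ℕ)),
    (∀ q : (ℕ × ℕ) × (ℕ × ℕ), q ∈ E ↔ q.1.1 * q.1.2 * q.2.1 * q.2.2 = N) ∧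
    E.card ≤ N.divisors.card ^ 3 ∧
    ∀ α β γ δ : ℕ → ℂ, ∑ q ∈ E, α q.1.1 * β q.1.2 * (γ q.2.1 * δ q.2.2) =
      ∑ p ∈ N.divisorsAntidiagonal, (∑ x ∈ p.1.divisorsAntidiagonal, α x.1 * β x.2) *
        (∑ y ∈ p.2.divisorsAntidiagonal, γ y.1 * δ y.2) := by
  classical
  set D := N.divisors with hD
  set E : Finset ((ℕ × ℕ) × (ℕ × ℕ)) := ((D ×ˢ D) ×ˢ (D ×ˢ D)).filter
    (fun q => q.1.1 * q.1.2 * q.2.1 * q.2.2 = N) with hE
  have hmem : ∀ q : (ℕ × ℕ) × (ℕ × ℕ), q ∈ E ↔ q.1.1 * q.1.2 * q.2.1 * q.2.2 = N := by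
    intro q
    simp only [hE, Finset.mem_filter, Finset.mem_product, hD, Nat.mem_divisors]
    constructor
    · exact fun h => h.2
    · intro h
      refine ⟨⟨⟨⟨?_, hN⟩, ⟨?_, hN⟩⟩, ⟨⟨?_, hN⟩, ⟨?_, hN⟩⟩⟩, h⟩
      · exact ⟨q.1.2 * q.2.1 * q.2.2, by rw [← h]; ring⟩
      · exact ⟨q.1.1 * q.2.1 * q.2.2, by rw [← h]; ring⟩
      · exact ⟨q.1.1 * q.1.2 * q.2.2, by rw [← h]; ring⟩
      · exact ⟨q.1.1 * q.1.2 * q.2.1, by rw [← h]; ring⟩
  refine ⟨E, hmem, ?_, ?_⟩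
  · have hc : E.card ≤ ((D ×ˢ D) ×ˢ D).card := by
      apply Finset.card_le_card_of_injOn (fun q => (q.1, q.2.1))
      · intro q hq
        have hq' := (Finset.mem_filter.1 hq).1
        simp only [Finset.mem_product] at hq'
        simp only [Finset.coe_product, Set.mem_prod, Finset.mem_coe]
        exact ⟨⟨hq'.1.1, hq'.1.2⟩, hq'.2.1⟩
      · intro q hq q' hq' heq
        have h1 := (hmem q).1 hq
        have h2 := (hmem q').1 hq'
        obtain ⟨⟨a, b⟩, ⟨c, d⟩⟩ := q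
        obtain ⟨⟨a', b'⟩, ⟨c', d'⟩⟩ := q'
        simp only [Prod.mk.injEq] at heq h1 h2 ⊢
        obtain ⟨⟨rfl, rfl⟩, rfl⟩ := heq
        refine ⟨⟨rfl, rfl⟩, rfl, ?_⟩
        have h3 : a * b * c ≠ 0 := by
          intro h0
          rw [h0, zero_mul] at h1
          exact hN h1.symm
        exact Nat.eq_of_mul_eq_mul_left (Nat.pos_of_ne_zero h3) (h1.trans h2.symm)
    refine hc.trans (le_of_eq ?_)
    rw [Finset.card_product, Finset.card_product]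
    ring
  · intro α β γ δ
    have e1 : ∀ p ∈ N.divisorsAntidiagonal, (∑ x ∈ p.1.divisorsAntidiagonal, α x.1 * β x.2) *
        (∑ y ∈ p.2.divisorsAntidiagonal, γ y.1 * δ y.2) =
        ∑ q ∈ p.1.divisorsAntidiagonal ×ˢ p.2.divisorsAntidiagonal,
          α q.1.1 * β q.1.2 * (γ q.2.1 * δ q.2.2) := by
      intro p _
      rw [Finset.sum_product, Finset.sum_mul_sum]
    rw [Finset.sum_congr rfl e1, Finset.sum_sigma']
    apply Finset.sum_bij' (fun q _ => (⟨(q.1.1 * q.1.2, q.2.1 * q.2.2), q⟩ :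
      Σ _ : ℕ × ℕ, (ℕ × ℕ) × (ℕ × ℕ))) (fun x _ => x.2)
    · intro q hq
      have h1 := (hmem q).1 hq
      simp only [Finset.mem_sigma, Finset.mem_product, Nat.mem_divisorsAntidiagonal]
      have h2 : q.1.1 * q.1.2 * (q.2.1 * q.2.2) = N := by rw [← h1]; ring
      refine ⟨⟨h2, hN⟩, ⟨trivial, ?_⟩, trivial, ?_⟩
      · intro h0
        apply hN
        rw [← h2, h0, zero_mul]
      · intro h0
        apply hN
        rw [← h2, h0, mul_zero]
    · rintro ⟨p, q⟩ hx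
      simp only [Finset.mem_sigma, Finset.mem_product, Nat.mem_divisorsAntidiagonal] at hx
      rw [hmem]
      obtain ⟨⟨h1, _⟩, ⟨h2, _⟩, h3, _⟩ := hx
      show q.1.1 * q.1.2 * q.2.1 * q.2.2 = N
      rw [← h1, ← h2, ← h3]
      ring
    · intro q _
      rfl
    · rintro ⟨p, q⟩ hx
      simp only [Finset.mem_sigma, Finset.mem_product, Nat.mem_divisorsAntidiagonal] at hx
      obtain ⟨⟨h1, _⟩, ⟨h2, _⟩, h3, _⟩ := hx
      obtain ⟨p1, p2⟩ := p
      simp only at h2 h3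
      subst h2
      subst h3
      rfl
    · intro q _
      rfl

theorem sum_quad_eq (s₁ w₁ s₂ w₂ : ℂ) (m : ℝ) (h1 : m ≤ s₁.re) (h2 : m ≤ w₁.re) (h3 : m ≤ s₂.re)
    (h4 : m ≤ w₂.re) (f : ℕ → ℂ) (hf0 : f 0 = 0)
    (hf : Summable (fun N : ℕ => (N.divisors.card : ℝ) ^ 3 * (N : ℝ) ^ (-m) * ‖f N‖)) :
    Summable (fun q : (ℕ × ℕ) × (ℕ × ℕ) => ((q.1.1 * q.1.2 * q.2.1 * q.2.2 : ℕ) : ℝ) ^ (-m) *
      ‖f (q.1.1 * q.1.2 * q.2.1 * q.2.2)‖) ∧
    ∑' q : (ℕ × ℕ) × (ℕ × ℕ),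
        (ArithmeticFunction.moebius q.1.2 : ℂ) * (ArithmeticFunction.moebius q.2.2 : ℂ) *
        (q.1.1 : ℂ) ^ (-s₁) * (q.1.2 : ℂ) ^ (-w₁) *
        (q.2.1 : ℂ) ^ (-s₂) * (q.2.2 : ℂ) ^ (-w₂) * f (q.1.1 * q.1.2 * q.2.1 * q.2.2) =
      ∑' N : ℕ, cfA s₁ w₁ s₂ w₂ N * f N := by
  classical
  set pr : (ℕ × ℕ) × (ℕ × ℕ) → ℕ := fun q => q.1.1 * q.1.2 * q.2.1 * q.2.2 with hpr
  set H : (ℕ × ℕ) × (ℕ × ℕ) → ℝ := fun q => ((pr q : ℕ) : ℝ) ^ (-m) * ‖f (pr q)‖ with hH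
  set G : (ℕ × ℕ) × (ℕ × ℕ) → ℂ := fun q =>
        (ArithmeticFunction.moebius q.1.2 : ℂ) * (ArithmeticFunction.moebius q.2.2 : ℂ) *
        (q.1.1 : ℂ) ^ (-s₁) * (q.1.2 : ℂ) ^ (-w₁) *
        (q.2.1 : ℂ) ^ (-s₂) * (q.2.2 : ℂ) ^ (-w₂) * f (pr q) with hG
  have hH0 : ∀ q, 0 ≤ H q := fun q => by
    simp only [hH]
    positivity
  have hfib : ∀ (N : ℕ), N ≠ 0 → ∀ {V : Type} [AddCommMonoid V] [TopologicalSpace V] [T2Space V]
      (g : (ℕ × ℕ) × (ℕ × ℕ) → V) (E : Finset ((ℕ × ℕ) × (ℕ × ℕ)))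
      (_ : ∀ q : (ℕ × ℕ) × (ℕ × ℕ), q ∈ E ↔ q.1.1 * q.1.2 * q.2.1 * q.2.2 = N),
      HasSum (fun x : {q // pr q = N} => g x.1) (∑ q ∈ E, g q) := by
    intro N hN V _ _ _ g E hE
    have h5 : HasSum (fun x : {q // q ∈ E} => g x.1) (∑ q ∈ E, g q) := Finset.hasSum E g
    let φ : {q // pr q = N} ≃ {q // q ∈ E} := Equiv.subtypeEquivRight (fun q => (hE q).symm)
    have h6 := (φ.hasSum_iff (f := fun x : {q // q ∈ E} => g x.1) (a := ∑ q ∈ E, g q)).2 h5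
    exact h6
  set e := Equiv.sigmaFiberEquiv pr with he
  have hHfib : ∀ N : ℕ, Summable (fun x : {q // pr q = N} => H x.1) ∧
      ∑' x : {q // pr q = N}, H x.1 ≤ (N.divisors.card : ℝ) ^ 3 * (N : ℝ) ^ (-m) * ‖f N‖ := by
    intro N
    by_cases hN : N = 0
    · have hz : (fun x : {q // pr q = N} => H x.1) = fun _ => 0 := by
        funext x
        have h8 : pr x.1 = 0 := x.2.trans hN
        simp only [hH]
        rw [h8, hf0, norm_zero, mul_zero]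
      rw [hz]
      refine ⟨summable_zero, ?_⟩
      rw [tsum_zero]
      positivity
    · obtain ⟨E, hE, hEc, _⟩ := sumq_fib N hN
      have hs := hfib N hN H E hE
      refine ⟨hs.summable, ?_⟩
      rw [hs.tsum_eq]
      have e1 : ∀ q ∈ E, H q = (N : ℝ) ^ (-m) * ‖f N‖ := by
        intro q hq
        have h7 : pr q = N := (hE q).1 hq
        simp only [hH]
        rw [h7]
      rw [Finset.sum_congr rfl e1, Finset.sum_const, nsmul_eq_mul, mul_assoc]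
      apply mul_le_mul_of_nonneg_right _ (by positivity)
      exact_mod_cast hEc
  have hHe : Summable (H ∘ e) := by
    refine (summable_sigma_of_nonneg (f := H ∘ e) (fun x => hH0 _)).2
      ⟨fun N => (hHfib N).1, ?_⟩
    apply Summable.of_nonneg_of_le _ _ hf
    · intro N
      exact tsum_nonneg (fun x => hH0 _)
    · intro N
      exact (hHfib N).2
  have hHs : Summable H := (e.summable_iff).1 hHe
  refine ⟨hHs, ?_⟩
  have hGH : ∀ q, ‖G q‖ ≤ H q := by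
    intro q
    simp only [hG, hH]
    by_cases h0 : pr q = 0
    · rw [h0, hf0, mul_zero, norm_zero, mul_zero]
    · have hq : q.1.1 * q.1.2 * q.2.1 * q.2.2 ≠ 0 := h0
      have ha : q.1.1 ≠ 0 := by rintro h; apply hq; rw [h]; ring
      have hb : q.1.2 ≠ 0 := by rintro h; apply hq; rw [h]; ring
      have hc : q.2.1 ≠ 0 := by rintro h; apply hq; rw [h]; ring
      have hd : q.2.2 ≠ 0 := by rintro h; apply hq; rw [h]; ring
      have hpw : ∀ (n : ℕ) (s : ℂ), n ≠ 0 → m ≤ s.re → ‖(n : ℂ) ^ (-s)‖ ≤ (n : ℝ) ^ (-m) := by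
        intro n s hn hs
        rw [Complex.norm_natCast_cpow_of_pos (Nat.pos_of_ne_zero hn)]
        apply Real.rpow_le_rpow_of_exponent_le
        · exact_mod_cast Nat.pos_of_ne_zero hn
        · simp [hs]
      have hmu : ∀ n : ℕ, ‖(ArithmeticFunction.moebius n : ℂ)‖ ≤ 1 := by
        intro n
        rw [Complex.norm_intCast]
        exact_mod_cast ArithmeticFunction.abs_moebius_le_one
      rw [norm_mul]
      apply mul_le_mul_of_nonneg_right _ (norm_nonneg _)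
      rw [norm_mul, norm_mul, norm_mul, norm_mul, norm_mul]
      have hprod : ((pr q : ℕ) : ℝ) ^ (-m) = (q.1.1 : ℝ) ^ (-m) * (q.1.2 : ℝ) ^ (-m) *
          (q.2.1 : ℝ) ^ (-m) * (q.2.2 : ℝ) ^ (-m) := by
        simp only [hpr]
        push_cast
        rw [Real.mul_rpow (by positivity) (by positivity), Real.mul_rpow (by positivity) (by positivity),
          Real.mul_rpow (by positivity) (by positivity)]
      rw [hprod]
      have p1 := hpw _ _ ha h1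
      have p2 := hpw _ _ hb h2
      have p3 := hpw _ _ hc h3
      have p4 := hpw _ _ hd h4
      have hm1 := hmu q.1.2
      have hm2 := hmu q.2.2
      calc ‖(ArithmeticFunction.moebius q.1.2 : ℂ)‖ * ‖(ArithmeticFunction.moebius q.2.2 : ℂ)‖ *
            ‖(q.1.1 : ℂ) ^ (-s₁)‖ * ‖(q.1.2 : ℂ) ^ (-w₁)‖ * ‖(q.2.1 : ℂ) ^ (-s₂)‖ *
            ‖(q.2.2 : ℂ) ^ (-w₂)‖
          ≤ 1 * 1 * (q.1.1 : ℝ) ^ (-m) * (q.1.2 : ℝ) ^ (-m) *
          (q.2.1 : ℝ) ^ (-m) * (q.2.2 : ℝ) ^ (-m) := by gcongr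
        _ = _ := by ring
  have hGs : Summable G := Summable.of_norm_bounded hHs hGH
  have hGe : Summable (G ∘ e) := (e.summable_iff).2 hGs
  have hGfib : ∀ N : ℕ, ∑' x : {q // pr q = N}, G x.1 = cfA s₁ w₁ s₂ w₂ N * f N := by
    intro N
    by_cases hN : N = 0
    · have hz : (fun x : {q // pr q = N} => G x.1) = fun _ => 0 := by
        funext x
        have h8 : pr x.1 = 0 := x.2.trans hN
        simp only [hG]
        rw [h8, hf0, mul_zero]
      rw [hz, tsum_zero, hN, hf0, mul_zero]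
    · obtain ⟨E, hE, _, hsum⟩ := sumq_fib N hN
      rw [(hfib N hN G E hE).tsum_eq]
      have e1 : ∀ q ∈ E, G q = (pwA s₁ q.1.1 * pmA w₁ q.1.2 * (pwA s₂ q.2.1 * pmA w₂ q.2.2)) * f N := by
        intro q hq
        have h7 : q.1.1 * q.1.2 * q.2.1 * q.2.2 = N := (hE q).1 hq
        have hq0 : q.1.1 * q.1.2 * q.2.1 * q.2.2 ≠ 0 := by rw [h7]; exact hN
        have ha : q.1.1 ≠ 0 := by rintro h; apply hq0; rw [h]; ring
        have hb : q.1.2 ≠ 0 := by rintro h; apply hq0; rw [h]; ring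
        have hc : q.2.1 ≠ 0 := by rintro h; apply hq0; rw [h]; ring
        have hd : q.2.2 ≠ 0 := by rintro h; apply hq0; rw [h]; ring
        simp only [hG, hpr, pwA, pmA, ArithmeticFunction.coe_mk, if_neg ha, if_neg hb, if_neg hc,
          if_neg hd]
        rw [h7]
        ring
      rw [Finset.sum_congr rfl e1, ← Finset.sum_mul]
      congr 1
      rw [hsum (fun n => pwA s₁ n) (fun n => pmA w₁ n) (fun n => pwA s₂ n) (fun n => pmA w₂ n)]
      unfold cfA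
      rw [ArithmeticFunction.mul_apply]
      apply Finset.sum_congr rfl
      intro p _
      rw [ArithmeticFunction.mul_apply, ArithmeticFunction.mul_apply]
  have hfin : ∑' q, G q = ∑' N : ℕ, ∑' x : {q // pr q = N}, G x.1 := by
    rw [← e.tsum_eq G]
    exact hGe.tsum_sigma
  rw [hfin]
  exact tsum_congr hGfib

end Pool.Agent.MP0016c7.Rz
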