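import Mathlib
import Pool.Agent.Lib.MP_0016c7_nt.Theta
import Pool.Agent.Lib.MP_0016c7_nt.Rz.Defs
import Pool.Agent.Lib.MP_0016c7_nt.Rz.DefsC
import Pool.Agent.Lib.MP_0016c7_nt.Rz.DefsF
import Pool.Agent.Lib.MP_0016c7_nt.Rz.DefsE
import Pool.Agent.Lib.MP_0016c7_nt.Rz.Ker2

set_option autoImplicit false

open Finset MeasureTheory Filter Topology
open scoped Real ContDiff

namespace Pool.Agent.MP0016c7.Rz

/-- pointwise bounds of the terms -/
private lemma ker3_pt {ρ h : ℝ → ℝ} {δ θ c C C₁ X Y : ℝ} (hδ : 0 < δ) (hθ1 : θ + 3 * δ < 1 / 2)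
    (hC : 0 < C) (hC₁ : 0 < C₁)
    (h1 : ∀ L z u : ℝ, 0 < L → |kL c ρ h L z u| ≤ C₁)
    (h2 : ∀ L z u : ℝ, 0 < L → θ + δ ≤ u - z →
      |kL c ρ h L z u| ≤ C * Real.exp (-Real.exp (2 * (u - z - θ - δ / 2) * L)))
    (hX : 2 ≤ X) (hY : Y ≤ 1 / 2 + δ) (p : ℕ × ℕ) :
    ((p.1 : ℝ) * p.2) ^ 2 *
        |kL c ρ h (Real.log X) (Y - Real.log p.1 / Real.log X) (Real.log p.2 / Real.log X)| ≤
      (C₁ + 8 * C) * X ^ 4 * (1 / (p.1 : ℝ) ^ 2 * (1 / (p.2 : ℝ) ^ 2)) ∧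
    ((p.1 : ℝ) * p.2) ^ 2 *
        |kL c ρ h (Real.log X) (Y - Real.log p.1 / Real.log X) (Real.log p.2 / Real.log X) -
          (if p.1 ≤ ⌊X ^ 2⌋₊ ∧ p.2 ≤ ⌊X ^ 2⌋₊ then Wt c ρ h X θ δ Y p.2 p.1 else 0)| ≤
      8 * C * X ^ 4 * Real.exp (-(X ^ δ / 2)) * (1 / (p.1 : ℝ) ^ 2 * (1 / (p.2 : ℝ) ^ 2)) := by
  have hX0 : 0 < X := by linarith
  have hL : 0 < Real.log X := Real.log_pos (by linarith)
  obtain ⟨n, l⟩ := p
  dsimp only
  rcases Nat.eq_zero_or_pos n with hn | hn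
  · subst hn
    simp
  rcases Nat.eq_zero_or_pos l with hl | hl
  · subst hl
    simp
  have hn1 : (1 : ℝ) ≤ n := by exact_mod_cast hn
  have hl1 : (1 : ℝ) ≤ l := by exact_mod_cast hl
  have hn0 : (0 : ℝ) < n := by linarith
  have hl0 : (0 : ℝ) < l := by linarith
  set L := Real.log X with hLdef
  set m : ℝ := (n : ℝ) * l with hm
  have hm1 : 1 ≤ m := by nlinarith only [hn1, hl1]
  have hm0 : 0 < m := by linarith
  have hlm : Real.log m = Real.log n + Real.log l := Real.log_mul hn0.ne' hl0.ne'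
  have hgm : 1 / (n : ℝ) ^ 2 * (1 / (l : ℝ) ^ 2) = 1 / m ^ 2 := by
    rw [hm]
    field_simp
  rw [hgm]
  set K := kL c ρ h L (Y - Real.log n / L) (Real.log l / L) with hK
  have hWt : Wt c ρ h X θ δ Y l n =
      K * (1 - Real.smoothTransition (((Real.log n + Real.log l) / L - Y - θ - δ) / δ)) := rfl
  have hX4 : 0 < X ^ 4 := by positivity
  have hexp : 0 < Real.exp (-(X ^ δ / 2)) := Real.exp_pos _
  by_cases hS : (Real.log n + Real.log l) / L - Y < θ + δ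
  · have hmX : m < X := by
      have a1 : (Real.log n + Real.log l) / L < 1 := by linarith only [hδ, hθ1, hY, hS]
      rw [div_lt_one hL, ← hlm] at a1
      exact (Real.log_lt_log_iff hm0 hX0).1 a1
    have hnX : (n : ℝ) ≤ X ^ 2 := by nlinarith only [hX, hmX, hl1]
    have hlX : (l : ℝ) ≤ X ^ 2 := by nlinarith only [hX, hn1, hmX, hnX]
    have hif : n ≤ ⌊X ^ 2⌋₊ ∧ l ≤ ⌊X ^ 2⌋₊ := ⟨Nat.le_floor hnX, Nat.le_floor hlX⟩
    rw [if_pos hif, hWt, Real.smoothTransition.zero_of_nonpos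
      (div_nonpos_of_nonpos_of_nonneg (by linarith only [hS]) hδ.le), sub_zero, mul_one, sub_self, abs_zero,
      mul_zero]
    refine ⟨?_, by positivity⟩
    have b1 : |K| ≤ C₁ := h1 L _ _ hL
    have b2 : m ^ 2 ≤ X ^ 4 * (1 / m ^ 2) := by
      rw [mul_one_div, le_div_iff₀ (by positivity)]
      calc m ^ 2 * m ^ 2 = m ^ 4 := by ring
        _ ≤ X ^ 4 := pow_le_pow_left₀ hm0.le hmX.le 4
    calc m ^ 2 * |K| ≤ (X ^ 4 * (1 / m ^ 2)) * C₁ :=
          mul_le_mul b2 b1 (abs_nonneg _) (by positivity)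
      _ ≤ (C₁ + 8 * C) * X ^ 4 * (1 / m ^ 2) := by
          have : 0 ≤ C * (X ^ 4 * (1 / m ^ 2)) := by positivity
          nlinarith only [this]
  · push Not at hS
    have b0 : |K| ≤ C * Real.exp (-Real.exp (2 * (Real.log l / L - (Y - Real.log n / L) - θ -
        δ / 2) * L)) := by
      refine h2 L _ _ hL ?_
      have : Real.log l / L - (Y - Real.log n / L) = (Real.log n + Real.log l) / L - Y := by
        rw [add_div]
        ring
      rw [this]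
      exact hS
    set E := Real.exp (2 * (Real.log l / L - (Y - Real.log n / L) - θ - δ / 2) * L) with hE
    have hS2 : (θ + δ + Y) * L ≤ Real.log m := by
      rw [hlm]
      have a1 : θ + δ + Y ≤ (Real.log n + Real.log l) / L := by linarith only [hS]
      rwa [le_div_iff₀ hL] at a1
    have hEeq : 2 * (Real.log l / L - (Y - Real.log n / L) - θ - δ / 2) * L =
        2 * Real.log m - 2 * (Y + θ + δ / 2) * L := by
      rw [hlm]
      field_simp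
      ring
    have hE1 : X ^ δ ≤ E := by
      rw [Real.rpow_def_of_pos hX0, hE, hEeq]
      refine Real.exp_le_exp.2 ?_
      rw [← hLdef]
      nlinarith only [hS2]
    have hE2 : m ^ 2 / X ^ 2 ≤ E := by
      have a1 : m ^ 2 / X ^ 2 = Real.exp (2 * Real.log m - 2 * L) := by
        rw [Real.exp_sub, two_mul, two_mul, Real.exp_add, Real.exp_add, Real.exp_log hm0, hLdef,
          Real.exp_log hX0]
        ring
      rw [a1, hE, hEeq]
      refine Real.exp_le_exp.2 ?_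
      have : (Y + θ + δ / 2) * L ≤ 1 * L := mul_le_mul_of_nonneg_right (by linarith only [hδ, hθ1, hY]) hL.le
      linarith only [this]
    have b3 : Real.exp (-E) ≤ Real.exp (-(X ^ δ / 2)) * (8 * X ^ 4 / m ^ 4) := by
      have a1 : Real.exp (-E) ≤ Real.exp (-(X ^ δ / 2)) * Real.exp (-(m ^ 2 / X ^ 2 / 2)) := by
        rw [← Real.exp_add]
        exact Real.exp_le_exp.2 (by linarith only [hE1, hE2])
      have a2 : Real.exp (-(m ^ 2 / X ^ 2 / 2)) ≤ 8 * X ^ 4 / m ^ 4 := by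
        have a3 := Real.quadratic_le_exp_of_nonneg (x := m ^ 2 / X ^ 2 / 2) (by positivity)
        have a4 : 0 < m ^ 2 / X ^ 2 / 2 := by positivity
        have a5 : (m ^ 2 / X ^ 2 / 2) ^ 2 / 2 ≤ Real.exp (m ^ 2 / X ^ 2 / 2) := by linarith only [a3, a4]
        rw [Real.exp_neg]
        have a6 : 8 * X ^ 4 / m ^ 4 = ((m ^ 2 / X ^ 2 / 2) ^ 2 / 2)⁻¹ := by
          field_simp
          norm_num
        rw [a6]
        exact inv_anti₀ (by positivity) a5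
      exact a1.trans (mul_le_mul_of_nonneg_left a2 hexp.le)
    have b4 : m ^ 2 * |K| ≤ 8 * C * X ^ 4 * Real.exp (-(X ^ δ / 2)) * (1 / m ^ 2) := by
      calc m ^ 2 * |K| ≤ m ^ 2 * (C * (Real.exp (-(X ^ δ / 2)) * (8 * X ^ 4 / m ^ 4))) :=
            mul_le_mul_of_nonneg_left (b0.trans (mul_le_mul_of_nonneg_left b3 hC.le))
              (by positivity)
        _ = 8 * C * X ^ 4 * Real.exp (-(X ^ δ / 2)) * (1 / m ^ 2) := by
            field_simp
    constructor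
    · refine b4.trans ?_
      have a1 : Real.exp (-(X ^ δ / 2)) ≤ 1 := by
        rw [Real.exp_le_one_iff]
        have : 0 < X ^ δ := Real.rpow_pos_of_pos hX0 δ
        linarith only [this]
      have a2 : 0 ≤ 8 * C * X ^ 4 * (1 / m ^ 2) := by positivity
      have a3 : 0 ≤ C₁ * X ^ 4 * (1 / m ^ 2) := by positivity
      nlinarith only [a3, a1, a2]
    · refine le_trans (mul_le_mul_of_nonneg_left ?_ (by positivity)) b4
      split_ifs
      · rw [hWt]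
        have a1 : K - K * (1 - Real.smoothTransition (((Real.log n + Real.log l) / L - Y - θ - δ) /
            δ)) = K * Real.smoothTransition (((Real.log n + Real.log l) / L - Y - θ - δ) / δ) := by
          ring
        rw [a1, abs_mul, abs_of_nonneg (Real.smoothTransition.nonneg _)]
        exact mul_le_of_le_one_right (abs_nonneg _) (Real.smoothTransition.le_one _)
      · rw [sub_zero]

private lemma ker3_sum : Summable fun p : ℕ × ℕ => 1 / (p.1 : ℝ) ^ 2 * (1 / (p.2 : ℝ) ^ 2) := by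
  have h : Summable fun n : ℕ => 1 / (n : ℝ) ^ 2 := Real.summable_one_div_nat_pow.2 one_lt_two
  exact Summable.mul_of_nonneg (f := fun n : ℕ => 1 / (n : ℝ) ^ 2)
    (g := fun n : ℕ => 1 / (n : ℝ) ^ 2) h h (fun n => by positivity) (fun n => by positivity)

theorem tail_sum {ρ h : ℝ → ℝ} {δ θ : ℝ} (hδ : 0 < δ) (hθ : 0 < θ) (hθ1 : θ + 3 * δ < 1 / 2)
    (hρ : Bump ρ (-(δ / 2)) (δ / 2)) (hh : Bump h 0 θ) (c : ℝ) (hc : c = 0 ∨ c = 1) :
    ∃ X₀ : ℝ, ∀ X : ℝ, X₀ ≤ X → ∀ Y ∈ Set.Icc (-1 : ℝ) (1 / 2 + δ),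
      Summable (fun p : ℕ × ℕ => ((p.1 : ℝ) * p.2) ^ 2 *
        |kL c ρ h (Real.log X) (Y - Real.log p.1 / Real.log X) (Real.log p.2 / Real.log X)|) ∧
      ∑' p : ℕ × ℕ, ((p.1 : ℝ) * p.2) ^ 2 *
        |kL c ρ h (Real.log X) (Y - Real.log p.1 / Real.log X) (Real.log p.2 / Real.log X)| ≤ X ^ 20 ∧
      ∑' p : ℕ × ℕ, ((p.1 : ℝ) * p.2) ^ 2 *
        |kL c ρ h (Real.log X) (Y - Real.log p.1 / Real.log X) (Real.log p.2 / Real.log X) -
          (if p.1 ≤ ⌊X ^ 2⌋₊ ∧ p.2 ≤ ⌊X ^ 2⌋₊ then Wt c ρ h X θ δ Y p.2 p.1 else 0)| ≤ X ^ (-30 : ℝ) := by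
  obtain ⟨C₁, hC₁, h1⟩ := abs_kL_le hρ hh c hc
  obtain ⟨C, hC, h2⟩ := kL_tail hδ hρ hh c hc
  set Z := ∑' p : ℕ × ℕ, 1 / (p.1 : ℝ) ^ 2 * (1 / (p.2 : ℝ) ^ 2) with hZ
  have hZ0 : 0 ≤ Z := tsum_nonneg fun p => by positivity
  -- the two asymptotic conditions
  have l1 : ∀ᶠ X : ℝ in atTop, (C₁ + 8 * C) * Z ≤ X ^ 16 := by
    have : Tendsto (fun X : ℝ => X ^ 16) atTop atTop := tendsto_pow_atTop (by norm_num)
    exact this.eventually_ge_atTop _
  have l2 : ∀ᶠ X : ℝ in atTop, 8 * C * Z * ((X ^ δ) ^ (34 / δ) * Real.exp (-(1 / 2) * X ^ δ)) ≤ 1 := by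
    have a1 : Tendsto (fun x : ℝ => x ^ (34 / δ) * Real.exp (-(1 / 2) * x)) atTop (𝓝 0) :=
      tendsto_rpow_mul_exp_neg_mul_atTop_nhds_zero (34 / δ) (1 / 2) (by norm_num)
    have a2 : Tendsto (fun X : ℝ => X ^ δ) atTop atTop := tendsto_rpow_atTop hδ
    have a3 := (a1.comp a2).const_mul (8 * C * Z)
    rw [mul_zero] at a3
    exact (a3.eventually (gt_mem_nhds (zero_lt_one (α := ℝ)))).mono fun X hX => le_of_lt hX
  obtain ⟨X₁, hX₁⟩ := eventually_atTop.1 (l1.and l2)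
  refine ⟨max X₁ 2, fun X hX Y hY => ?_⟩
  have hX2 : 2 ≤ X := le_trans (le_max_right _ _) hX
  have hX0 : 0 < X := by linarith
  obtain ⟨k1, k2⟩ := hX₁ X (le_trans (le_max_left _ _) hX)
  have key := fun p : ℕ × ℕ => ker3_pt (ρ := ρ) (h := h) (c := c) hδ hθ1 hC hC₁ h1 h2 hX2 hY.2 p
  have s1 : Summable fun p : ℕ × ℕ => (C₁ + 8 * C) * X ^ 4 *
      (1 / (p.1 : ℝ) ^ 2 * (1 / (p.2 : ℝ) ^ 2)) := ker3_sum.mul_left _
  have s2 : Summable fun p : ℕ × ℕ => 8 * C * X ^ 4 * Real.exp (-(X ^ δ / 2)) *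
      (1 / (p.1 : ℝ) ^ 2 * (1 / (p.2 : ℝ) ^ 2)) := ker3_sum.mul_left _
  have t1 : Summable (fun p : ℕ × ℕ => ((p.1 : ℝ) * p.2) ^ 2 *
        |kL c ρ h (Real.log X) (Y - Real.log p.1 / Real.log X) (Real.log p.2 / Real.log X)|) :=
    Summable.of_nonneg_of_le (fun p => by (clear * -; positivity)) (fun p => (key p).1) s1
  have t2 : Summable (fun p : ℕ × ℕ => ((p.1 : ℝ) * p.2) ^ 2 *
        |kL c ρ h (Real.log X) (Y - Real.log p.1 / Real.log X) (Real.log p.2 / Real.log X) -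
          (if p.1 ≤ ⌊X ^ 2⌋₊ ∧ p.2 ≤ ⌊X ^ 2⌋₊ then Wt c ρ h X θ δ Y p.2 p.1 else 0)|) :=
    Summable.of_nonneg_of_le (fun p => by (clear * -; positivity)) (fun p => (key p).2) s2
  refine ⟨t1, ?_, ?_⟩
  · refine (t1.tsum_le_tsum (fun p => (key p).1) s1).trans ?_
    rw [tsum_mul_left, ← hZ]
    calc (C₁ + 8 * C) * X ^ 4 * Z = (C₁ + 8 * C) * Z * X ^ 4 := by ring
      _ ≤ X ^ 16 * X ^ 4 := mul_le_mul_of_nonneg_right k1 (by positivity)
      _ = X ^ 20 := by ring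
  · refine (t2.tsum_le_tsum (fun p => (key p).2) s2).trans ?_
    rw [tsum_mul_left, ← hZ]
    have a1 : (X ^ δ) ^ (34 / δ) = X ^ 34 := by
      rw [← Real.rpow_mul hX0.le, mul_div_cancel₀ _ hδ.ne']
      exact_mod_cast Real.rpow_natCast X 34
    have a2 : Real.exp (-(1 / 2) * X ^ δ) = Real.exp (-(X ^ δ / 2)) := by
      congr 1
      ring
    rw [a1, a2] at k2
    have a3 : X ^ (-30 : ℝ) = (X ^ 30)⁻¹ := by
      rw [Real.rpow_neg hX0.le]
      congr 1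
      exact_mod_cast Real.rpow_natCast X 30
    rw [a3, ← one_div, le_div_iff₀ (by positivity)]
    calc 8 * C * X ^ 4 * Real.exp (-(X ^ δ / 2)) * Z * X ^ 30
        = 8 * C * Z * (X ^ 34 * Real.exp (-(X ^ δ / 2))) := by ring
      _ ≤ 1 := k2

end Pool.Agent.MP0016c7.Rz
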