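import Mathlib
import Pool.Agent.Lib.MP_0016c7_nt.Rz.Defs
import Pool.Agent.Lib.MP_0016c7_nt.Rz.DefsC
import Pool.Agent.Lib.MP_0016c7_nt.Rz.DefsF
import Pool.Agent.Lib.MP_0016c7_nt.Rz.DefsE
import Pool.Agent.Lib.MP_0016c7_nt.Rz.Lap

set_option autoImplicit false

/-!
Common tools for the limit integrals (pieces VA, VB, VC, VD).
-/

open Finset MeasureTheory Filter Topology
open scoped Real ContDiff

namespace Pool.Agent.MP0016c7.Rz

namespace VH

theorem four (f g : ℝ → ℝ → ℂ) :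
    ∫ x₁ : ℝ, ∫ y₁ : ℝ, ∫ x₂ : ℝ, ∫ y₂ : ℝ, f x₁ x₂ * g y₁ y₂ =
      (∫ x₁ : ℝ, ∫ x₂ : ℝ, f x₁ x₂) * ∫ y₁ : ℝ, ∫ y₂ : ℝ, g y₁ y₂ := by
  simp only [integral_const_mul, integral_mul_const]

theorem four' (f g : ℝ → ℝ → ℂ) :
    ∫ x₁ : ℝ, ∫ y₁ : ℝ, ∫ x₂ : ℝ, ∫ y₂ : ℝ, f x₁ y₁ * g x₂ y₂ =
      (∫ x₁ : ℝ, ∫ y₁ : ℝ, f x₁ y₁) * ∫ x₂ : ℝ, ∫ y₂ : ℝ, g x₂ y₂ := by
  simp only [integral_const_mul, integral_mul_const]

/-- kernels `P(s₁, s₂) Q(w₁, w₂)` -/
theorem jj_sw (ρ₁ ρ₂ h : ℝ → ℝ) (Y₁ Y₂ : ℝ) (P Q : ℂ → ℂ → ℂ) (K : ℂ → ℂ → ℂ → ℂ → ℂ)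
    (hK : ∀ s₁ w₁ s₂ w₂, K s₁ w₁ s₂ w₂ = P s₁ s₂ * Q w₁ w₂) :
    JJ ρ₁ ρ₂ h Y₁ Y₂ K =
      (1 / (2 * π) ^ 2 * ∫ x₁ : ℝ, ∫ x₂ : ℝ,
        rhat ρ₁ (2 + Complex.I * x₁) * Complex.exp ((2 + Complex.I * x₁) * Y₁) *
        (rhat ρ₂ (5 / 2 + Complex.I * x₂) * Complex.exp ((5 / 2 + Complex.I * x₂) * Y₂)) *
          P (2 + Complex.I * x₁) (5 / 2 + Complex.I * x₂)) *
      (1 / (2 * π) ^ 2 * ∫ y₁ : ℝ, ∫ y₂ : ℝ,
        hhat h (3 + Complex.I * y₁) * hhat h (3 + Complex.I * y₂) *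
          Q (3 + Complex.I * y₁) (3 + Complex.I * y₂)) := by
  unfold JJ
  have h1 : (1 / (2 * (π : ℂ)) ^ 4) = 1 / (2 * π) ^ 2 * (1 / (2 * π) ^ 2) := by
    have : (π : ℂ) ≠ 0 := by exact_mod_cast Real.pi_ne_zero
    field_simp
  rw [h1, mul_mul_mul_comm, ← four]
  congr 1
  refine integral_congr_ae (ae_of_all _ fun x₁ => ?_)
  refine integral_congr_ae (ae_of_all _ fun y₁ => ?_)
  refine integral_congr_ae (ae_of_all _ fun x₂ => ?_)
  refine integral_congr_ae (ae_of_all _ fun y₂ => ?_)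
  simp only [hK, Complex.exp_add]
  ring

/-- kernels `P(s₁, w₁) Q(s₂, w₂)` -/
theorem jj_12 (ρ₁ ρ₂ h : ℝ → ℝ) (Y₁ Y₂ : ℝ) (P Q : ℂ → ℂ → ℂ) (K : ℂ → ℂ → ℂ → ℂ → ℂ)
    (hK : ∀ s₁ w₁ s₂ w₂, K s₁ w₁ s₂ w₂ = P s₁ w₁ * Q s₂ w₂) :
    JJ ρ₁ ρ₂ h Y₁ Y₂ K =
      (1 / (2 * π) ^ 2 * ∫ x₁ : ℝ, ∫ y₁ : ℝ,
        rhat ρ₁ (2 + Complex.I * x₁) * Complex.exp ((2 + Complex.I * x₁) * Y₁) *
        hhat h (3 + Complex.I * y₁) * P (2 + Complex.I * x₁) (3 + Complex.I * y₁)) *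
      (1 / (2 * π) ^ 2 * ∫ x₂ : ℝ, ∫ y₂ : ℝ,
        rhat ρ₂ (5 / 2 + Complex.I * x₂) * Complex.exp ((5 / 2 + Complex.I * x₂) * Y₂) *
        hhat h (3 + Complex.I * y₂) * Q (5 / 2 + Complex.I * x₂) (3 + Complex.I * y₂)) := by
  unfold JJ
  have h1 : (1 / (2 * (π : ℂ)) ^ 4) = 1 / (2 * π) ^ 2 * (1 / (2 * π) ^ 2) := by
    have : (π : ℂ) ≠ 0 := by exact_mod_cast Real.pi_ne_zero
    field_simp
  rw [h1, mul_mul_mul_comm, ← four']
  congr 1
  refine integral_congr_ae (ae_of_all _ fun x₁ => ?_)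
  refine integral_congr_ae (ae_of_all _ fun y₁ => ?_)
  refine integral_congr_ae (ae_of_all _ fun x₂ => ?_)
  refine integral_congr_ae (ae_of_all _ fun y₂ => ?_)
  simp only [hK, Complex.exp_add]
  ring

/-- the double integral with the kernel `1 / (p + q)` as an integral over `v > 0` -/
theorem conv {α β p q : ℝ → ℂ} (hα : Integrable α) (hβ : Integrable β) (hp : Continuous p)
    (hq : Continuous q) {p0 q0 : ℝ} (hp0 : ∀ x, (p x).re = p0) (hq0 : ∀ x, (q x).re = q0)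
    (h : 0 < p0 + q0) :
    ∫ x : ℝ, ∫ y : ℝ, α x * β y / (p x + q y) =
      ∫ v in Set.Ioi (0 : ℝ), (∫ x : ℝ, α x * Complex.exp (-(p x) * v)) *
        ∫ y : ℝ, β y * Complex.exp (-(q y) * v) := by
  have e1 : ∀ x y : ℝ, α x * β y / (p x + q y) = ∫ v in Set.Ioi (0 : ℝ),
      (α x * Complex.exp (-(p x) * v)) * (β y * Complex.exp (-(q y) * v)) := by
    intro x y
    have hre : (-(p x + q y) : ℂ).re < 0 := by
      rw [Complex.neg_re, Complex.add_re, hp0, hq0]; linarith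
    have e2 : ∀ v : ℝ, (α x * Complex.exp (-(p x) * v)) * (β y * Complex.exp (-(q y) * v)) =
        α x * β y * Complex.exp (-(p x + q y) * v) := by
      intro v
      have : -(p x + q y) * (v : ℂ) = -(p x) * v + -(q y) * v := by ring
      rw [this, Complex.exp_add]
      ring
    simp only [e2]
    rw [integral_const_mul, integral_exp_mul_complex_Ioi hre, Complex.ofReal_zero, mul_zero,
      Complex.exp_zero, neg_div_neg_eq, mul_one_div]
  have hG : Integrable (fun z : (ℝ × ℝ) × ℝ =>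
      (α z.1.1 * Complex.exp (-(p z.1.1) * z.2)) * (β z.1.2 * Complex.exp (-(q z.1.2) * z.2)))
      ((volume.prod volume).prod (volume.restrict (Set.Ioi (0 : ℝ)))) := by
    have hb : Integrable (fun z : (ℝ × ℝ) × ℝ => (‖α z.1.1‖ * ‖β z.1.2‖) *
        Real.exp (-(p0 + q0) * z.2))
        ((volume.prod volume).prod (volume.restrict (Set.Ioi (0 : ℝ)))) :=
      Integrable.mul_prod (Integrable.mul_prod hα.norm hβ.norm) (exp_neg_integrableOn_Ioi 0 h)
    refine hb.mono' ?_ (ae_of_all _ fun z => ?_)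
    · have m1 : AEStronglyMeasurable (fun z : (ℝ × ℝ) × ℝ => α z.1.1)
          ((volume.prod volume).prod (volume.restrict (Set.Ioi (0 : ℝ)))) :=
        hα.1.comp_fst.comp_fst
      have m2 : AEStronglyMeasurable (fun z : (ℝ × ℝ) × ℝ => β z.1.2)
          ((volume.prod volume).prod (volume.restrict (Set.Ioi (0 : ℝ)))) :=
        (hβ.1.comp_snd (μ := volume)).comp_fst
      refine (m1.mul (Continuous.aestronglyMeasurable ?_)).mul
        (m2.mul (Continuous.aestronglyMeasurable ?_)) <;> fun_prop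
    · rw [norm_mul, norm_mul, norm_mul, Complex.norm_exp, Complex.norm_exp]
      apply le_of_eq
      have h3 : (-(p z.1.1) * (z.2 : ℂ)).re = -p0 * z.2 := by
        rw [Complex.mul_re, Complex.neg_re, hp0]; simp
      have h4 : (-(q z.1.2) * (z.2 : ℂ)).re = -q0 * z.2 := by
        rw [Complex.mul_re, Complex.neg_re, hq0]; simp
      rw [h3, h4]
      have h5 : Real.exp (-(p0 + q0) * z.2) = Real.exp (-p0 * z.2) * Real.exp (-q0 * z.2) := by
        rw [← Real.exp_add]; congr 1; ring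
      rw [h5]
      ring
  have hF : Integrable (fun z : ℝ × ℝ => α z.1 * β z.2 / (p z.1 + q z.2))
      (volume.prod volume) := by
    refine hG.integral_prod_left.congr (ae_of_all _ fun z => ?_)
    exact (e1 z.1 z.2).symm
  have e3 := integral_prod (fun z : ℝ × ℝ => α z.1 * β z.2 / (p z.1 + q z.2)) hF
  rw [← e3]
  simp only [e1]
  rw [integral_integral_swap hG]
  refine integral_congr_ae (ae_of_all _ fun v => ?_)
  exact integral_prod_mul (fun x => α x * Complex.exp (-(p x) * v))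
    (fun y => β y * Complex.exp (-(q y) * v))

/-- the primitive of `ρ` -/
noncomputable def RR (ρ : ℝ → ℝ) (Y : ℝ) : ℝ := ∫ t in Set.Iic Y, ρ t

/-- the density of the transform of the primitive -/
noncomputable def al (ρ : ℝ → ℝ) (c Y : ℝ) (x : ℝ) : ℂ :=
  1 / (2 * π) * (rhat ρ (c + Complex.I * x) * Complex.exp ((c + Complex.I * x) * Y) /
    (c + Complex.I * x))

noncomputable def be (h : ℝ → ℝ) (c : ℝ) (y : ℝ) : ℂ := 1 / (2 * π) * hhat h (c + Complex.I * y)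

theorem line_ne {c : ℝ} (hc : 0 < c) (x : ℝ) : (c + Complex.I * x : ℂ) ≠ 0 := by
  intro h
  have := congrArg Complex.re h
  simp at this
  linarith

theorem al_int {ρ : ℝ → ℝ} {a b : ℝ} (hρ : Bump ρ a b) {c : ℝ} (hc : 0 < c) (Y : ℝ) :
    Integrable (al ρ c Y) := by
  unfold al
  refine Integrable.const_mul ?_ _
  simp only [div_eq_mul_inv]
  refine (laplace_inv hρ c Y).1.mul_bdd (c := c⁻¹) ?_ (ae_of_all _ fun x => ?_)
  · apply Continuous.aestronglyMeasurable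
    exact (by fun_prop : Continuous fun x : ℝ => (c + Complex.I * x : ℂ)).inv₀
      fun x => line_ne hc x
  · rw [norm_inv]
    apply inv_anti₀ hc
    have := Complex.abs_re_le_norm (c + Complex.I * x : ℂ)
    simp at this
    rw [abs_of_pos hc] at this
    exact this

theorem be_int {h : ℝ → ℝ} {a b : ℝ} (hh : Bump h a b) (c : ℝ) : Integrable (be h c) := by
  have h1 := (laplace_inv_h hh c 0).1
  simp only [Complex.ofReal_zero, mul_zero, Complex.exp_zero, mul_one] at h1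
  exact h1.const_mul _

theorem al_tr {ρ : ℝ → ℝ} {a b : ℝ} (hρ : Bump ρ a b) {c : ℝ} (hc : 0 < c) (Y v : ℝ) :
    ∫ x : ℝ, al ρ c Y x * Complex.exp (-(c + Complex.I * x) * v) = (RR ρ (Y - v) : ℂ) := by
  have h1 := laplace_inv_div hρ c hc (Y - v)
  unfold RR
  rw [← h1, ← integral_const_mul]
  refine integral_congr_ae (ae_of_all _ fun x => ?_)
  have h2 : (c + Complex.I * x : ℂ) * ((Y - v : ℝ) : ℂ) =
      (c + Complex.I * x) * Y + -(c + Complex.I * x) * v := by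
    push_cast; ring
  simp only [al]
  rw [h2, Complex.exp_add]
  ring

theorem al_tr' {ρ : ℝ → ℝ} {a b : ℝ} (hρ : Bump ρ a b) {c : ℝ} (hc : 0 < c) (Y v : ℝ) :
    ∫ x : ℝ, al ρ c Y x * Complex.exp (-(-(c + Complex.I * x)) * v) = (RR ρ (Y + v) : ℂ) := by
  have h1 := al_tr hρ hc Y (-v)
  rw [sub_neg_eq_add] at h1
  rw [← h1]
  refine integral_congr_ae (ae_of_all _ fun x => ?_)
  simp only
  congr 2
  push_cast
  ring

theorem be_tr {h : ℝ → ℝ} {a b : ℝ} (hh : Bump h a b) (c v : ℝ) :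
    ∫ y : ℝ, be h c y * Complex.exp (-(c + Complex.I * y) * v) = (h v : ℂ) := by
  rw [← (laplace_inv_h hh c v).2, ← integral_const_mul]
  refine integral_congr_ae (ae_of_all _ fun x => ?_)
  simp only [be]
  ring

theorem bump_int {ρ : ℝ → ℝ} {a b : ℝ} (hρ : Bump ρ a b) : Integrable ρ := by
  refine hρ.smooth.continuous.integrable_of_hasCompactSupport ?_
  exact HasCompactSupport.of_support_subset_isCompact (isCompact_Icc (a := a) (b := b))
    fun t ht => ⟨(hρ.supp t ht).1.le, (hρ.supp t ht).2.le⟩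

theorem bump_sq {h : ℝ → ℝ} {b : ℝ} (hh : Bump h 0 b) :
    ∫ v in Set.Ioi (0 : ℝ), (h v : ℂ) * (h v : ℂ) = ((∫ t : ℝ, h t ^ 2 : ℝ) : ℂ) := by
  rw [← integral_complex_ofReal, ← integral_indicator measurableSet_Ioi]
  refine integral_congr_ae (ae_of_all _ fun v => ?_)
  by_cases hv : 0 < v
  · simp only [Set.indicator, Set.mem_Ioi, hv, if_true]
    push_cast
    ring
  · have h0 : h v = 0 := by
      by_contra hne
      exact hv (hh.supp v hne).1
    simp [Set.indicator, hv, h0]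

/-- the `w`-part of the kernels with `1 / (w₁ + w₂)` -/
theorem w_part {h : ℝ → ℝ} {b : ℝ} (hh : Bump h 0 b) :
    1 / (2 * π) ^ 2 * ∫ y₁ : ℝ, ∫ y₂ : ℝ,
        hhat h (3 + Complex.I * y₁) * hhat h (3 + Complex.I * y₂) *
          (1 / ((3 + Complex.I * y₁) + (3 + Complex.I * y₂))) =
      ((∫ t : ℝ, h t ^ 2 : ℝ) : ℂ) := by
  have h1 := conv (be_int hh 3) (be_int hh 3) (p := fun x : ℝ => ((3 : ℝ) : ℂ) + Complex.I * x)
    (q := fun x : ℝ => ((3 : ℝ) : ℂ) + Complex.I * x) (by fun_prop) (by fun_prop) (p0 := 3)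
    (q0 := 3) (by intro x; simp) (by intro x; simp) (by norm_num)
  simp only [be_tr hh] at h1
  rw [bump_sq hh] at h1
  rw [← h1, ← integral_const_mul]
  refine integral_congr_ae (ae_of_all _ fun y₁ => ?_)
  simp only
  rw [← integral_const_mul]
  refine integral_congr_ae (ae_of_all _ fun y₂ => ?_)
  simp only [be]
  push_cast
  ring

theorem RR_eq (ρ : ℝ → ℝ) (Y : ℝ) : RR ρ Y = ∫ t : ℝ, (Set.Iic Y).indicator ρ t := by
  unfold RR
  rw [integral_indicator measurableSet_Iic]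

theorem RR_zero {ρ : ℝ → ℝ} {a b Y : ℝ} (hρ : Bump ρ a b) (hY : Y ≤ a) : RR ρ Y = 0 := by
  rw [RR_eq]
  have : (fun t : ℝ => (Set.Iic Y).indicator ρ t) = fun _ => 0 := by
    funext t
    by_cases ht : t ≤ Y
    · have h0 : ρ t = 0 := by
        by_contra hne
        have := (hρ.supp t hne).1
        linarith
      simp [Set.indicator, ht, h0]
    · simp [Set.indicator, ht]
  rw [this, integral_zero]

/-- Fubini for the product of two primitives -/
theorem fub {ρ₁ ρ₂ : ℝ → ℝ} (h1 : Integrable ρ₁) (h2 : Integrable ρ₂) {M : ℝ}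
    (hM : ∀ y, ρ₂ y ≠ 0 → -M < y) {A : ℝ → ℝ} (hA : Measurable A) (Y₂ : ℝ) :
    ∫ v in Set.Ioi (0 : ℝ), RR ρ₁ (A v) * RR ρ₂ (Y₂ - v) =
      ∫ x : ℝ, ∫ y : ℝ, ρ₁ x * ρ₂ y *
        (volume.real {v : ℝ | 0 < v ∧ x ≤ A v ∧ y ≤ Y₂ - v}) := by
  set S : Set ((ℝ × ℝ) × ℝ) := {z | 0 < z.2 ∧ z.1.1 ≤ A z.2 ∧ z.1.2 ≤ Y₂ - z.2} with hS
  have hSm : MeasurableSet S := by
    refine (measurableSet_lt measurable_const measurable_snd).inter
      ((measurableSet_le (measurable_fst.comp measurable_fst)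
        (hA.comp measurable_snd)).inter
        (measurableSet_le (measurable_snd.comp measurable_fst)
          (measurable_const.sub measurable_snd)))
  have hm : AEStronglyMeasurable (fun z : (ℝ × ℝ) × ℝ => ρ₁ z.1.1 * ρ₂ z.1.2)
      ((volume.prod volume).prod volume) :=
    (h1.1.comp_fst.comp_fst).mul ((h2.1.comp_snd (μ := volume)).comp_fst)
  have hF : Integrable (S.indicator (fun z : (ℝ × ℝ) × ℝ => ρ₁ z.1.1 * ρ₂ z.1.2))
      ((volume.prod volume).prod volume) := by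
    have hb : Integrable (fun z : (ℝ × ℝ) × ℝ => (‖ρ₁ z.1.1‖ * ‖ρ₂ z.1.2‖) *
        (Set.Ioc (0 : ℝ) (Y₂ + M)).indicator (fun _ => (1 : ℝ)) z.2)
        ((volume.prod volume).prod volume) := by
      refine Integrable.mul_prod (Integrable.mul_prod h1.norm h2.norm) ?_
      rw [integrable_indicator_iff measurableSet_Ioc]
      exact integrableOn_const (by simp)
    refine hb.mono' (hm.indicator hSm) (ae_of_all _ fun z => ?_)
    by_cases hz : z ∈ S
    · rw [Set.indicator_of_mem hz, norm_mul]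
      by_cases h0 : ρ₂ z.1.2 = 0
      · simp [h0]
      · have h3 := hM _ h0
        obtain ⟨z1, z2, z3⟩ := hz
        have h4 : z.2 ∈ Set.Ioc (0 : ℝ) (Y₂ + M) := ⟨z1, by linarith⟩
        rw [Set.indicator_of_mem h4, mul_one]
    · rw [Set.indicator_of_notMem hz, norm_zero]
      apply mul_nonneg (by positivity)
      exact Set.indicator_nonneg (fun _ _ => zero_le_one) _
  have e1 : ∀ z : ℝ × ℝ, ∫ v : ℝ, S.indicator (fun z : (ℝ × ℝ) × ℝ => ρ₁ z.1.1 * ρ₂ z.1.2) (z, v) =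
      ρ₁ z.1 * ρ₂ z.2 * volume.real {v : ℝ | 0 < v ∧ z.1 ≤ A v ∧ z.2 ≤ Y₂ - v} := by
    intro z
    have hset : MeasurableSet {v : ℝ | 0 < v ∧ z.1 ≤ A v ∧ z.2 ≤ Y₂ - v} :=
      (measurableSet_lt measurable_const measurable_id).inter
      ((measurableSet_le measurable_const hA).inter
        (measurableSet_le measurable_const (measurable_const.sub measurable_id)))
    have e2 : (fun v : ℝ => S.indicator (fun z : (ℝ × ℝ) × ℝ => ρ₁ z.1.1 * ρ₂ z.1.2) (z, v)) =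
        {v : ℝ | 0 < v ∧ z.1 ≤ A v ∧ z.2 ≤ Y₂ - v}.indicator (fun _ => ρ₁ z.1 * ρ₂ z.2) := by
      funext v
      by_cases hv : 0 < v ∧ z.1 ≤ A v ∧ z.2 ≤ Y₂ - v
      · rw [Set.indicator_of_mem (show (z, v) ∈ S from hv), Set.indicator_of_mem
          (show v ∈ {v : ℝ | 0 < v ∧ z.1 ≤ A v ∧ z.2 ≤ Y₂ - v} from hv)]
      · rw [Set.indicator_of_notMem (show (z, v) ∉ S from hv), Set.indicator_of_notMem
          (show v ∉ {v : ℝ | 0 < v ∧ z.1 ≤ A v ∧ z.2 ≤ Y₂ - v} from hv)]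
    rw [e2, integral_indicator hset, setIntegral_const, smul_eq_mul, mul_comm]
  have e3 : ∀ v : ℝ, ∫ z : ℝ × ℝ, S.indicator
      (fun z : (ℝ × ℝ) × ℝ => ρ₁ z.1.1 * ρ₂ z.1.2) (z, v) ∂(volume.prod volume) =
      (Set.Ioi (0 : ℝ)).indicator (fun v => RR ρ₁ (A v) * RR ρ₂ (Y₂ - v)) v := by
    intro v
    by_cases hv : 0 < v
    · rw [Set.indicator_of_mem (show v ∈ Set.Ioi (0 : ℝ) from hv), RR_eq, RR_eq,
        ← integral_prod_mul]
      refine integral_congr_ae (ae_of_all _ fun z => ?_)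
      simp only [Set.indicator, hS, Set.mem_ofPred_eq, Set.mem_Iic, hv, true_and]
      by_cases h3 : z.1 ≤ A v <;> by_cases h4 : z.2 ≤ Y₂ - v <;> simp [h3, h4]
    · rw [Set.indicator_of_notMem (show v ∉ Set.Ioi (0 : ℝ) from hv)]
      have : (fun z : ℝ × ℝ => S.indicator
          (fun z : (ℝ × ℝ) × ℝ => ρ₁ z.1.1 * ρ₂ z.1.2) (z, v)) = fun _ => 0 := by
        funext z
        exact Set.indicator_of_notMem (fun hz => hv hz.1) _
      rw [this, integral_zero]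
  rw [← integral_indicator measurableSet_Ioi]
  simp only [← e3]
  rw [← integral_integral_swap (f := fun (z : ℝ × ℝ) (v : ℝ) => S.indicator
      (fun z : (ℝ × ℝ) × ℝ => ρ₁ z.1.1 * ρ₂ z.1.2) (z, v)) hF]
  simp only [e1]
  have hI : Integrable (fun z : ℝ × ℝ => ρ₁ z.1 * ρ₂ z.2 *
      volume.real {v : ℝ | 0 < v ∧ z.1 ≤ A v ∧ z.2 ≤ Y₂ - v}) (volume.prod volume) := by
    refine hF.integral_prod_left.congr (ae_of_all _ fun z => ?_)
    exact e1 z
  exact integral_prod _ hI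

/-- Fubini for a primitive and `h` -/
theorem fubB {ρ h : ℝ → ℝ} {θ : ℝ} (h1 : Integrable ρ) (hh : Bump h 0 θ) (Y : ℝ) :
    ∫ v in Set.Ioi (0 : ℝ), RR ρ (Y + v) * h v = ∫ x : ℝ, ρ x * HH h (x - Y) := by
  have h2 := bump_int hh
  set S : Set (ℝ × ℝ) := {z | z.1 ≤ Y + z.2} with hS
  have hSm : MeasurableSet S := measurableSet_le measurable_fst
    (measurable_const.add measurable_snd)
  have hF : Integrable (S.indicator (fun z : ℝ × ℝ => ρ z.1 * h z.2))
      (volume.prod volume) := (h1.mul_prod h2).indicator hSm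
  have e1 : ∀ x : ℝ, ∫ v : ℝ, S.indicator (fun z : ℝ × ℝ => ρ z.1 * h z.2) (x, v) =
      ρ x * HH h (x - Y) := by
    intro x
    unfold HH
    rw [← integral_Ici_eq_integral_Ioi, ← integral_indicator measurableSet_Ici,
      ← integral_const_mul]
    refine integral_congr_ae (ae_of_all _ fun v => ?_)
    by_cases hv : x ≤ Y + v
    · have hv' : v ∈ Set.Ici (x - Y) := by
        rw [Set.mem_Ici]; linarith
      show S.indicator _ (x, v) = ρ x * (Set.Ici (x - Y)).indicator h v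
      rw [Set.indicator_of_mem (show (x, v) ∈ S from hv), Set.indicator_of_mem hv']
    · have hv' : v ∉ Set.Ici (x - Y) := by
        rw [Set.mem_Ici]; intro h3; apply hv; linarith
      show S.indicator _ (x, v) = ρ x * (Set.Ici (x - Y)).indicator h v
      rw [Set.indicator_of_notMem (show (x, v) ∉ S from hv), Set.indicator_of_notMem hv',
        mul_zero]
  have e3 : ∀ v : ℝ, ∫ x : ℝ, S.indicator (fun z : ℝ × ℝ => ρ z.1 * h z.2) (x, v) =
      RR ρ (Y + v) * h v := by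
    intro v
    rw [RR_eq, ← integral_mul_const]
    refine integral_congr_ae (ae_of_all _ fun x => ?_)
    by_cases hv : x ≤ Y + v
    · show S.indicator _ (x, v) = (Set.Iic (Y + v)).indicator ρ x * h v
      rw [Set.indicator_of_mem (show (x, v) ∈ S from hv), Set.indicator_of_mem
        (show x ∈ Set.Iic (Y + v) from hv)]
    · show S.indicator _ (x, v) = (Set.Iic (Y + v)).indicator ρ x * h v
      rw [Set.indicator_of_notMem (show (x, v) ∉ S from hv), Set.indicator_of_notMem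
        (show x ∉ Set.Iic (Y + v) from hv), zero_mul]
  have e4 : ∫ v in Set.Ioi (0 : ℝ), RR ρ (Y + v) * h v = ∫ v : ℝ, RR ρ (Y + v) * h v := by
    rw [← integral_indicator measurableSet_Ioi]
    refine integral_congr_ae (ae_of_all _ fun v => ?_)
    by_cases hv : 0 < v
    · show (Set.Ioi (0 : ℝ)).indicator _ v = _
      rw [Set.indicator_of_mem (show v ∈ Set.Ioi (0 : ℝ) from hv)]
    · show (Set.Ioi (0 : ℝ)).indicator _ v = RR ρ (Y + v) * h v
      rw [Set.indicator_of_notMem (show v ∉ Set.Ioi (0 : ℝ) from hv)]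
      have h0 : h v = 0 := by
        by_contra hne
        exact hv (hh.supp v hne).1
      rw [h0, mul_zero]
  rw [e4]
  simp only [← e3]
  rw [← integral_integral_swap (f := fun (x v : ℝ) => S.indicator
      (fun z : ℝ × ℝ => ρ z.1 * h z.2) (x, v)) hF]
  simp only [e1]

end VH

end Pool.Agent.MP0016c7.Rz
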