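import Mathlib
import Pool.Agent.Lib.MP_0016c7_nt.Theta
import Pool.Agent.Lib.MP_0016c7_nt.Rz.Defs
import Pool.Agent.Lib.MP_0016c7_nt.Rz.DefsC
import Pool.Agent.Lib.MP_0016c7_nt.Rz.DefsF
import Pool.Agent.Lib.MP_0016c7_nt.Rz.DefsE

set_option autoImplicit false

open Finset MeasureTheory Filter Topology
open scoped Real ContDiff

namespace Pool.Agent.MP0016c7.Rz

private theorem VKer_part0 (s₁ w₁ s₂ w₂ : ℂ) (h1 : s₁ ≠ 0) (h2 : s₂ ≠ 0) (h12 : s₁ + s₂ ≠ 0)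
    (hw : w₁ + w₂ ≠ 0) (ha : w₁ - s₁ ≠ 0) (hb : w₂ - s₂ ≠ 0)
    (hc : w₁ + s₁ ≠ 0) (hd' : w₂ + s₂ ≠ 0) :
    4 / ((w₁ ^ 2 - s₁ ^ 2) * (w₂ ^ 2 - s₂ ^ 2)) * R0 s₁ w₁ s₂ w₂ =
      (w₂ + s₁) * (w₁ + s₂) / ((w₁ - s₁) * (w₂ - s₂) * s₁ * s₂ * (s₁ + s₂) * (w₁ + w₂)) := by
  unfold R0
  have e1 : w₁ ^ 2 - s₁ ^ 2 = (w₁ - s₁) * (w₁ + s₁) := by ring
  have e2 : w₂ ^ 2 - s₂ ^ 2 = (w₂ - s₂) * (w₂ + s₂) := by ring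
  rw [e1, e2, div_mul_div_comm, div_eq_div_iff
    (mul_ne_zero (mul_ne_zero (mul_ne_zero ha hc) (mul_ne_zero hb hd'))
      (mul_ne_zero (mul_ne_zero (mul_ne_zero (mul_ne_zero (by norm_num : (4 : ℂ) ≠ 0) h1) h2) h12) hw))
    (mul_ne_zero (mul_ne_zero (mul_ne_zero (mul_ne_zero (mul_ne_zero ha hb) h1) h2) h12) hw)]
  ring

theorem kernel_identity (s₁ w₁ s₂ w₂ : ℂ) (h1 : s₁ ≠ 0) (h2 : s₂ ≠ 0) (h12 : s₁ + s₂ ≠ 0)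
    (hd : s₂ - s₁ ≠ 0) (hw : w₁ + w₂ ≠ 0) (ha : w₁ - s₁ ≠ 0) (hb : w₂ - s₂ ≠ 0)
    (hc : w₁ + s₁ ≠ 0) (hd' : w₂ + s₂ ≠ 0) (h5 : w₁ + s₂ ≠ 0) (h6 : w₂ + s₁ ≠ 0) :
    4 / ((w₁ ^ 2 - s₁ ^ 2) * (w₂ ^ 2 - s₂ ^ 2)) * Qinf s₁ w₁ s₂ w₂ =
      1 / (s₁ * s₂ * (s₁ + s₂) * (w₁ + w₂)) + 1 / (s₁ * s₂ * (w₁ - s₁) * (w₂ - s₂)) +
      Complex.exp (-s₁) * (-1 / (s₁ * s₂ * (s₂ - s₁) * (w₁ + w₂))) +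
      Complex.exp (-s₂) * (1 / (s₁ * s₂ * (s₂ - s₁) * (w₁ + w₂))) +
      Complex.exp (-s₁) * (-1 / (s₁ * s₂ * (w₂ - s₂) * (w₁ + s₁))) +
      Complex.exp (-s₂) * (-1 / (s₁ * s₂ * (w₁ - s₁) * (w₂ + s₂))) := by
  have hd2 : s₁ - s₂ ≠ 0 := fun h => hd (by linear_combination -h)
  have p0 := VKer_part0 s₁ w₁ s₂ w₂ h1 h2 h12 hw ha hb hc hd'
  have q0 : (w₂ + s₁) * (w₁ + s₂) / ((w₁ - s₁) * (w₂ - s₂) * s₁ * s₂ * (s₁ + s₂) * (w₁ + w₂)) =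
      1 / (s₁ * s₂ * (s₁ + s₂) * (w₁ + w₂)) + 1 / (s₁ * s₂ * (w₁ - s₁) * (w₂ - s₂)) := by
    field_simp
    ring
  have q1 : (w₂ + s₁) * (w₁ + s₂) / ((w₁ - s₁) * (w₂ - s₂) * s₁ * s₂ * (s₁ + s₂) * (w₁ + w₂)) *
      (2 * (s₁ + s₂) * (w₁ - s₁) * (w₂ - s₁) / ((s₂ - s₁) * (w₁ + s₁) * (w₂ + s₁))) =
      2 / (s₁ * s₂ * (s₂ - s₁) * (w₁ + w₂)) + 2 / (s₁ * s₂ * (w₂ - s₂) * (w₁ + s₁)) := by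
    field_simp
    ring
  have q2 : (w₂ + s₁) * (w₁ + s₂) / ((w₁ - s₁) * (w₂ - s₂) * s₁ * s₂ * (s₁ + s₂) * (w₁ + w₂)) *
      (2 * (s₁ + s₂) * (w₁ - s₂) * (w₂ - s₂) / ((s₁ - s₂) * (w₁ + s₂) * (w₂ + s₂))) =
      -2 / (s₁ * s₂ * (s₂ - s₁) * (w₁ + w₂)) + 2 / (s₁ * s₂ * (w₁ - s₁) * (w₂ + s₂)) := by
    have e : s₁ - s₂ = -(s₂ - s₁) := by ring
    rw [e]
    field_simp
    ring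
  unfold Qinf II
  rw [← mul_assoc, p0]
  set A := (w₂ + s₁) * (w₁ + s₂) / ((w₁ - s₁) * (w₂ - s₂) * s₁ * s₂ * (s₁ + s₂) * (w₁ + w₂))
  have e3 : A * (1 - (2 * (s₁ + s₂) * (w₁ - s₁) * (w₂ - s₁) / ((s₂ - s₁) * (w₁ + s₁) * (w₂ + s₁)) *
      Complex.exp (-s₁) + 2 * (s₁ + s₂) * (w₁ - s₂) * (w₂ - s₂) /
        ((s₁ - s₂) * (w₁ + s₂) * (w₂ + s₂)) * Complex.exp (-s₂)) / 2) =
      A - 1 / 2 * Complex.exp (-s₁) * (A * (2 * (s₁ + s₂) * (w₁ - s₁) * (w₂ - s₁) /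
        ((s₂ - s₁) * (w₁ + s₁) * (w₂ + s₁)))) - 1 / 2 * Complex.exp (-s₂) *
        (A * (2 * (s₁ + s₂) * (w₁ - s₂) * (w₂ - s₂) / ((s₁ - s₂) * (w₁ + s₂) * (w₂ + s₂)))) := by
    ring
  rw [e3, q1, q2, q0]
  ring

end Pool.Agent.MP0016c7.Rz
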