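import Mathlib
import Pool.Agent.Lib.MP_0016c7_nt.Theta
import Pool.Agent.Lib.MP_0016c7_nt.Rz.Defs
import Pool.Agent.Lib.MP_0016c7_nt.Rz.DefsC
import Pool.Agent.Lib.MP_0016c7_nt.Rz.DefsF
import Pool.Agent.Lib.MP_0016c7_nt.Rz.DefsE
import Pool.Agent.Lib.MP_0016c7_nt.Rz.Ker3

set_option autoImplicit false

open Finset MeasureTheory Filter Topology
open scoped Real ContDiff

namespace Pool.Agent.MP0016c7.Rz

private lemma sm1_jr (k : ℤ) (n : ℕ) : |jr k n| ≤ 1 := by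
  rw [jr]
  split_ifs
  · rcases jacobiSym.trichotomy k n with h | h | h <;> simp [h]
  · simp

private lemma sm1_coef (k : ℤ) (n l : ℕ) :
    |(ArithmeticFunction.moebius l : ℝ) * jr k (n * l) / √((n : ℝ) * l)| ≤ ((n : ℝ) * l) ^ 2 := by
  rcases Nat.eq_zero_or_pos (n * l) with h0 | h0
  · have h1 : (n : ℝ) * l = 0 := by exact_mod_cast h0
    rw [h1]
    simp
  · have h1 : (1 : ℝ) ≤ (n : ℝ) * l := by exact_mod_cast h0
    have h2 : 1 ≤ √((n : ℝ) * l) := by
      rw [Real.one_le_sqrt]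
      exact h1
    have h3 : |(ArithmeticFunction.moebius l : ℝ)| ≤ 1 := by
      have := ArithmeticFunction.abs_moebius_le_one (n := l)
      exact_mod_cast this
    have h4 := sm1_jr k (n * l)
    rw [abs_div, abs_mul, abs_of_nonneg (Real.sqrt_nonneg _)]
    calc |(ArithmeticFunction.moebius l : ℝ)| * |jr k (n * l)| / √((n : ℝ) * l)
        ≤ 1 * 1 / 1 := by gcongr
      _ ≤ ((n : ℝ) * l) ^ 2 := by
        rw [mul_one, div_one]
        exact one_le_pow₀ h1

private lemma sm1_Wt (a : ℝ) (ρ h : ℝ → ℝ) (X θ₁ δ Y : ℝ) (l n : ℕ) :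
    |Wt a ρ h X θ₁ δ Y l n| ≤
      |kL a ρ h (Real.log X) (Y - Real.log n / Real.log X) (Real.log l / Real.log X)| := by
  rw [Wt, abs_mul]
  have h1 := Real.smoothTransition.nonneg
    (((Real.log n + Real.log l) / Real.log X - Y - θ₁ - δ) / δ)
  have h2 := Real.smoothTransition.le_one
    (((Real.log n + Real.log l) / Real.log X - Y - θ₁ - δ) / δ)
  refine mul_le_of_le_one_right (abs_nonneg _) ?_
  rw [abs_of_nonneg (by linarith)]
  linarith

theorem ytil_trunc {ρ h : ℝ → ℝ} {δ θ : ℝ} (hδ : 0 < δ) (hθ : 0 < θ) (hθ1 : θ + 3 * δ < 1 / 2)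
    (hρ : Bump ρ (-(δ / 2)) (δ / 2)) (hh : Bump h 0 θ) (c : ℝ) (hc : c = 0 ∨ c = 1) (σ : ℤ) :
    ∃ X₀ : ℝ, ∀ X : ℝ, X₀ ≤ X → ∀ Y ∈ Set.Icc (-1 : ℝ) (1 / 2 + δ), ∀ d : ℕ,
      |ytil c σ ρ h X d Y| ≤ X ^ 20 ∧ |TT c σ ρ h X θ δ d Y| ≤ X ^ 20 ∧
      |ytil c σ ρ h X d Y - TT c σ ρ h X θ δ d Y| ≤ X ^ (-30 : ℝ) := by
  obtain ⟨X₀, hX₀⟩ := tail_sum hδ hθ hθ1 hρ hh c hc
  refine ⟨X₀, fun X hX Y hY d => ?_⟩
  obtain ⟨hs, h20, h30⟩ := hX₀ X hX Y hY
  set M : ℕ := ⌊X ^ 2⌋₊ with hM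
  set k : ℕ × ℕ → ℝ := fun p =>
    kL c ρ h (Real.log X) (Y - Real.log p.1 / Real.log X) (Real.log p.2 / Real.log X) with hk
  set W : ℕ × ℕ → ℝ := fun p =>
    if p.1 ≤ M ∧ p.2 ≤ M then Wt c ρ h X θ δ Y p.2 p.1 else 0 with hW
  set e : ℕ × ℕ → ℝ := fun p => (ArithmeticFunction.moebius p.2 : ℝ) *
    jr (2 * σ * d) (p.1 * p.2) / √((p.1 : ℝ) * p.2) with he
  have hee : ∀ p, |e p| ≤ ((p.1 : ℝ) * p.2) ^ 2 := fun p => sm1_coef _ _ _
  have hWk : ∀ p, |W p| ≤ |k p| := by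
    intro p
    simp only [hW]
    split_ifs
    · exact sm1_Wt _ _ _ _ _ _ _ _ _
    · simp
  have hs1 : Summable (fun p => ((p.1 : ℝ) * p.2) ^ 2 * |k p|) := hs
  have hek : Summable (fun p => e p * k p) := by
    refine Summable.of_norm_bounded hs1 fun p => ?_
    rw [norm_mul, Real.norm_eq_abs, Real.norm_eq_abs]
    exact mul_le_mul_of_nonneg_right (hee p) (abs_nonneg _)
  have heW : Summable (fun p => e p * W p) := by
    refine Summable.of_norm_bounded hs1 fun p => ?_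
    rw [norm_mul, Real.norm_eq_abs, Real.norm_eq_abs]
    exact mul_le_mul (hee p) (hWk p) (abs_nonneg _) (by positivity)
  have hy : ytil c σ ρ h X d Y = ∑' p, e p * k p := rfl
  have hT : TT c σ ρ h X θ δ d Y = ∑' p, e p * W p := by
    rw [tsum_eq_sum (s := Icc 1 M ×ˢ Icc 1 M)]
    · rw [Finset.sum_product, TT]
      refine Finset.sum_congr rfl fun n hn => Finset.sum_congr rfl fun l hl => ?_
      rw [Finset.mem_Icc] at hn hl
      simp only [he, hW]
      rw [if_pos ⟨hn.2, hl.2⟩]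
      push_cast
      ring
    · rintro ⟨n, l⟩ hp
      rw [Finset.mem_product, Finset.mem_Icc, Finset.mem_Icc] at hp
      simp only [he, hW]
      by_cases h1 : n ≤ M ∧ l ≤ M
      · have h2 : n = 0 ∨ l = 0 := by
          by_contra hcon
          push Not at hcon
          exact hp ⟨⟨by omega, h1.1⟩, ⟨by omega, h1.2⟩⟩
        rcases h2 with rfl | rfl <;> simp
      · rw [if_neg h1, mul_zero]
  refine ⟨?_, ?_, ?_⟩
  · rw [hy]
    refine le_trans ?_ h20
    have := norm_tsum_le_tsum_norm hek.norm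
    rw [Real.norm_eq_abs] at this
    refine this.trans (Summable.tsum_le_tsum (fun p => ?_) hek.norm hs1)
    rw [norm_mul, Real.norm_eq_abs, Real.norm_eq_abs]
    exact mul_le_mul_of_nonneg_right (hee p) (abs_nonneg _)
  · rw [hT]
    refine le_trans ?_ h20
    have := norm_tsum_le_tsum_norm heW.norm
    rw [Real.norm_eq_abs] at this
    refine this.trans (Summable.tsum_le_tsum (fun p => ?_) heW.norm hs1)
    rw [norm_mul, Real.norm_eq_abs, Real.norm_eq_abs]
    exact mul_le_mul (hee p) (hWk p) (abs_nonneg _) (by positivity)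
  · rw [hy, hT, ← hek.tsum_sub heW]
    refine le_trans ?_ h30
    have hs3 : Summable (fun p => ((p.1 : ℝ) * p.2) ^ 2 * |k p - W p|) := by
      refine Summable.of_nonneg_of_le (fun p => by positivity) (fun p => ?_) (hs1.mul_left 2)
      have h1 : |k p - W p| ≤ 2 * |k p| := by
        have := abs_sub (k p) (W p)
        have := hWk p
        linarith
      calc ((p.1 : ℝ) * p.2) ^ 2 * |k p - W p| ≤ ((p.1 : ℝ) * p.2) ^ 2 * (2 * |k p|) := by gcongr
        _ = _ := by ring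
    have hs4 : Summable (fun p => e p * k p - e p * W p) := hek.sub heW
    have := norm_tsum_le_tsum_norm hs4.norm
    rw [Real.norm_eq_abs] at this
    refine this.trans (Summable.tsum_le_tsum (fun p => ?_) hs4.norm hs3)
    rw [← mul_sub, norm_mul, Real.norm_eq_abs, Real.norm_eq_abs]
    exact mul_le_mul_of_nonneg_right (hee p) (abs_nonneg _)

end Pool.Agent.MP0016c7.Rz
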