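import Mathlib
import Pool.Agent.Lib.MP_0016c7_nt.Theta
import Pool.Agent.Lib.MP_0016c7_nt.Rz.Defs
import Pool.Agent.Lib.MP_0016c7_nt.Rz.DefsC
import Pool.Agent.Lib.MP_0016c7_nt.Rz.DefsF
import Pool.Agent.Lib.MP_0016c7_nt.Rz.DefsE
import Pool.Agent.Lib.MP_0016c7_nt.Rz.Ker1

set_option autoImplicit false

open Finset MeasureTheory Filter Topology
open scoped Real ContDiff

namespace Pool.Agent.MP0016c7.Rz

private lemma van_cs {F : ℝ → ℝ} {a b : ℝ} (hF : Bump F a b) : HasCompactSupport F := by
  refine HasCompactSupport.of_support_subset_isCompact (isCompact_Icc (a := a) (b := b)) ?_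
  intro t ht
  have := hF.supp t ht
  exact ⟨this.1.le, this.2.le⟩

private lemma van_int {F : ℝ → ℝ} {a b : ℝ} (hF : Bump F a b) : Integrable F :=
  hF.smooth.continuous.integrable_of_hasCompactSupport (van_cs hF)

private lemma van_HHc {h : ℝ → ℝ} {a b : ℝ} (hh : Bump h a b) : Continuous (HH h) := by
  have h1 : HH h = fun v => (∫ t in v..0, h t) + HH h 0 := by
    ext v
    rw [HH, HH]
    exact (intervalIntegral.integral_interval_add_Ioi (van_int hh).integrableOn
      (van_int hh).integrableOn).symm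
  rw [h1]
  have h2 : Continuous fun v : ℝ => ∫ t in (0 : ℝ)..v, h t :=
    intervalIntegral.continuous_primitive (fun a b => (van_int hh).intervalIntegrable) 0
  have h3 : (fun v : ℝ => (∫ t in v..0, h t) + HH h 0) =
      fun v : ℝ => -(∫ t in (0 : ℝ)..v, h t) + HH h 0 := by
    ext v
    rw [intervalIntegral.integral_symm]
  rw [h3]
  exact h2.neg.add continuous_const

/-- The smoothed kernel of one divisor. -/
private noncomputable def vK (ρ h : ℝ → ℝ) (u w : ℝ) : ℝ := ∫ y : ℝ, ρ y * HH h (u + |w - y|)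

private lemma vK_conv (ρ h : ℝ → ℝ) (u : ℝ) :
    vK ρ h u = MeasureTheory.convolution ρ (fun w => HH h (u + |w|))
      (ContinuousLinearMap.mul ℝ ℝ) volume := by
  ext w
  rfl

private lemma van_HHcs {h : ℝ → ℝ} {a b : ℝ} (hh : Bump h a b) {u : ℝ} :
    HasCompactSupport (fun w : ℝ => HH h (u + |w|)) := by
  refine HasCompactSupport.of_support_subset_isCompact (isCompact_Icc (a := -|b - u|) (b := |b - u|)) ?_
  intro w hw
  have h1 : u + |w| < b := by
    by_contra hcon
    push Not at hcon
    exact hw (HH_eq_zero hh hcon)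
  have h2 : |w| ≤ |b - u| := by
    have := le_abs_self (b - u)
    linarith
  exact abs_le.mp h2

private lemma vK_cont {ρ h : ℝ → ℝ} {a b a' b' : ℝ} (hρ : Bump ρ a b) (hh : Bump h a' b') (u : ℝ) :
    Continuous (vK ρ h u) := by
  rw [vK_conv]
  refine HasCompactSupport.continuous_convolution_left _ (van_cs hρ) hρ.smooth.continuous ?_
  refine Continuous.locallyIntegrable ?_
  exact (van_HHc hh).comp (by fun_prop)

private lemma vK_cs {ρ h : ℝ → ℝ} {a b a' b' : ℝ} (hρ : Bump ρ a b) (hh : Bump h a' b') (u : ℝ) :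
    HasCompactSupport (vK ρ h u) := by
  rw [vK_conv]
  exact HasCompactSupport.convolution _ (van_cs hρ) (van_HHcs hh)

private lemma vK_even {ρ h : ℝ → ℝ} (hρe : ∀ y, ρ (-y) = ρ y) (u w : ℝ) :
    vK ρ h u (-w) = vK ρ h u w := by
  rw [vK, vK, ← integral_neg_eq_self]
  refine integral_congr_ae (Filter.Eventually.of_forall fun y => ?_)
  simp only
  rw [hρe]
  congr 3
  rw [← abs_neg]
  congr 1
  ring_nf

private lemma vK_zero {ρ h : ℝ → ℝ} {a b : ℝ} (hh : Bump h a b) {u : ℝ} (hu : b ≤ u) (w : ℝ) :
    vK ρ h u w = 0 := by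
  rw [vK]
  have : ∀ y, ρ y * HH h (u + |w - y|) = 0 := by
    intro y
    rw [HH_eq_zero hh (by have := abs_nonneg (w - y); linarith), mul_zero]
  simp [this]

private lemma kap_le {a : ℝ} (ha : a = 0 ∨ a = 1) (x : ℝ) : kap a x ≤ Real.exp (-2 * x) := by
  rw [kap]
  apply Real.exp_le_exp.mpr
  have hpi := Real.pi_gt_three
  have hexp : 0 < Real.exp (2 * x) := Real.exp_pos _
  rcases le_or_gt 0 x with hx | hx
  · have h1 : 2 * x + 1 ≤ Real.exp (2 * x) := Real.add_one_le_exp _
    have h2 : 3 * (2 * x + 1) ≤ π * Real.exp (2 * x) := by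
      have h3 : (0 : ℝ) ≤ 2 * x + 1 := by linarith
      nlinarith
    rcases ha with rfl | rfl <;> nlinarith
  · have h2 : 0 ≤ π * Real.exp (2 * x) := by positivity
    rcases ha with rfl | rfl <;> nlinarith

private lemma kap_nonneg (a x : ℝ) : 0 ≤ kap a x := (Real.exp_pos _).le

private lemma par_cases {q : ℕ} [NeZero q] (χ : DirichletCharacter ℂ q) :
    par χ = 0 ∨ par χ = 1 := by
  rcases χ.even_or_odd with he | ho
  · exact Or.inl (par_even χ he)
  · exact Or.inr (par_odd χ ho)

private lemma gth_cont {q : ℕ} [NeZero q] (χ : DirichletCharacter ℂ q) : Continuous (gth χ) := by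
  have hE : Continuous fun t : ℝ => thE χ (Real.exp (2 * t)) :=
    (continuousOn_thE χ).comp_continuous (by fun_prop) (fun t => Real.exp_pos _)
  have hO : Continuous fun t : ℝ => thO χ (Real.exp (2 * t)) :=
    (continuousOn_thO χ).comp_continuous (by fun_prop) (fun t => Real.exp_pos _)
  rcases χ.even_or_odd with he | ho
  · have : gth χ = fun t => Real.exp (t / 2) * ((thE χ (Real.exp (2 * t))).re / 2) := by
      ext t; exact gth_even χ he t
    rw [this]
    have := Complex.continuous_re.comp hE
    fun_prop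
  · have : gth χ = fun t => Real.exp (3 / 2 * t) / √q * ((thO χ (Real.exp (2 * t))).re / 2) := by
      ext t; exact gth_odd χ ho t
    rw [this]
    have := Complex.continuous_re.comp hO
    fun_prop

private lemma gth_decay {q : ℕ} [NeZero q] (χ : DirichletCharacter ℂ q) (hq1 : q ≠ 1) (r : ℝ) :
    gth χ =O[atTop] (fun t => Real.exp (-r * t)) := by
  have hexp : Tendsto (fun t : ℝ => Real.exp (2 * t)) atTop atTop :=
    Real.tendsto_exp_atTop.comp (tendsto_id.const_mul_atTop (by norm_num : (0:ℝ) < 2))
  rcases χ.even_or_odd with he | ho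
  · have : gth χ = fun t => Real.exp (t / 2) * ((thE χ (Real.exp (2 * t))).re / 2) := by
      ext t; exact gth_even χ he t
    rw [this]
    have h1 := (thE_top χ hq1 (-(r + 1 / 2) / 2)).comp_tendsto hexp
    have h2 : (fun t : ℝ => (thE χ (Real.exp (2 * t))).re / 2) =O[atTop]
        (fun t => Real.exp (-(r + 1 / 2) * t)) := by
      have h3 : (fun t : ℝ => (thE χ (Real.exp (2 * t))).re / 2) =O[atTop]
          (fun t => thE χ (Real.exp (2 * t))) := by
        refine Asymptotics.IsBigO.of_bound 1 (Filter.Eventually.of_forall fun t => ?_)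
        have h4 := Complex.abs_re_le_norm (thE χ (Real.exp (2 * t)))
        rw [Real.norm_eq_abs, abs_div, abs_two]
        have := abs_nonneg (thE χ (Real.exp (2 * t))).re
        linarith
      refine h3.trans (h1.congr_right ?_)
      intro t
      simp only [Function.comp]
      rw [← Real.exp_mul]
      ring_nf
    have h5 := (Asymptotics.isBigO_refl (fun t : ℝ => Real.exp (t / 2)) atTop).mul h2
    refine h5.congr_right fun t => ?_
    rw [← Real.exp_add]
    ring_nf
  · have : gth χ = fun t => Real.exp (3 / 2 * t) / √q * ((thO χ (Real.exp (2 * t))).re / 2) := by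
      ext t; exact gth_odd χ ho t
    rw [this]
    have h1 := (thO_top χ (-(r + 3 / 2) / 2)).comp_tendsto hexp
    have h2 : (fun t : ℝ => (thO χ (Real.exp (2 * t))).re / 2) =O[atTop]
        (fun t => Real.exp (-(r + 3 / 2) * t)) := by
      have h3 : (fun t : ℝ => (thO χ (Real.exp (2 * t))).re / 2) =O[atTop]
          (fun t => thO χ (Real.exp (2 * t))) := by
        refine Asymptotics.IsBigO.of_bound 1 (Filter.Eventually.of_forall fun t => ?_)
        have h4 := Complex.abs_re_le_norm (thO χ (Real.exp (2 * t)))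
        rw [Real.norm_eq_abs, abs_div, abs_two]
        have := abs_nonneg (thO χ (Real.exp (2 * t))).re
        linarith
      refine h3.trans (h1.congr_right ?_)
      intro t
      simp only [Function.comp]
      rw [← Real.exp_mul]
      ring_nf
    have h6 : (fun t : ℝ => Real.exp (3 / 2 * t) / √q) =O[atTop]
        (fun t : ℝ => Real.exp (3 / 2 * t)) := by
      simp only [div_eq_mul_inv]
      have := (Asymptotics.isBigO_refl (fun t : ℝ => Real.exp (3 / 2 * t)) atTop).const_mul_left
        ((√q)⁻¹)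
      refine this.congr_left fun t => ?_
      ring
    have h5 := h6.mul h2
    refine h5.congr_right fun t => ?_
    rw [← Real.exp_add]
    ring_nf

private lemma gth_integrable {q : ℕ} [NeZero q] (χ : DirichletCharacter ℂ q) (hq1 : q ≠ 1)
    (hsym : ∀ t : ℝ, gth χ (-t) = gth χ t) (α : ℝ) :
    Integrable (fun t => Real.exp (α * t) * gth χ t) := by
  have hc := gth_cont χ
  have key : ∀ β : ℝ, IntegrableOn (fun t => Real.exp (β * t) * gth χ t) (Set.Ioi 0) := by
    intro β
    refine integrable_of_isBigO_exp_neg (b := 1) one_pos (by fun_prop) ?_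
    have h1 := (Asymptotics.isBigO_refl (fun t : ℝ => Real.exp (β * t)) atTop).mul
      (gth_decay χ hq1 (β + 1))
    refine h1.congr_right fun t => ?_
    rw [← Real.exp_add]
    ring_nf
  rw [← integrableOn_univ, ← Set.Iic_union_Ioi (a := (0 : ℝ)), integrableOn_union]
  refine ⟨?_, key α⟩
  have h2 := key (-α)
  rw [← integrableOn_Ici_iff_integrableOn_Ioi] at h2
  have h3 : IntegrableOn ((fun t => Real.exp (α * t) * gth χ t) ∘ Neg.neg) (Set.Ici 0) := by
    refine h2.congr_fun ?_ measurableSet_Ici
    intro t _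
    simp only [Function.comp]
    rw [hsym]
    ring_nf
  have h4 : Set.Iic (0 : ℝ) = Neg.neg ⁻¹' (Set.Ici (0 : ℝ)) := by
    ext t; simp
  rw [h4]
  have h5 := (Measure.measurePreserving_neg (volume : Measure ℝ)).integrableOn_comp_preimage
    (MeasurableEquiv.neg ℝ).measurableEmbedding (f := ((fun t => Real.exp (α * t) * gth χ t) ∘ Neg.neg))
    (s := Set.Ici 0)
  have h6 := h5.mpr h3
  refine h6.congr_fun ?_ (by rw [← h4]; exact measurableSet_Iic)
  intro t _
  simp [Function.comp]

private lemma kL_vK (a : ℝ) (ρ h : ℝ → ℝ) (L z u : ℝ) :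
    kL a ρ h L z u = (∫ x : ℝ, kap a x * vK ρ h u (z + x / L)) / Gam0 a := by
  rw [kL]
  congr 1
  refine integral_congr_ae (Filter.Eventually.of_forall fun x => ?_)
  simp only
  rw [vK, ← integral_const_mul]
  refine integral_congr_ae (Filter.Eventually.of_forall fun y => ?_)
  simp only
  ring

private lemma cR_mul {q : ℕ} [NeZero q] (χ : DirichletCharacter ℂ q) (h2 : χ ^ 2 = 1) (m n : ℕ) :
    cR χ (m * n) = cR χ m * cR χ n := by
  have h : ((cR χ (m * n) : ℝ) : ℂ) = ((cR χ m * cR χ n : ℝ) : ℂ) := by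
    rw [cR_spec χ h2]
    push_cast
    rw [cR_spec χ h2, cR_spec χ h2, map_mul]
  exact_mod_cast h

private lemma van_series (d : ℕ) [NeZero (8 * d)] (σ : ℤ)
    (χ : DirichletCharacter ℂ (8 * d)) (h2 : χ ^ 2 = 1)
    (hval : ∀ n : ℕ, χ n = (jr (2 * σ * d) n : ℂ))
    {ρ h : ℝ → ℝ} {a b θ : ℝ} (hρ : Bump ρ a b) (hh : Bump h 0 θ) (X : ℝ) (hX : 1 < X) :
    ∃ M : ℕ, ∀ v : ℝ,
      ytil (par χ) σ ρ h X d (Real.log (8 * d) / (2 * Real.log X) - v) =
        Real.exp (-(Real.log (8 * d) / 4)) / Gam0 (par χ) * ∫ u : ℝ, gth χ u *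
          (∑ l ∈ Finset.range M, ((ArithmeticFunction.moebius l : ℝ) * cR χ l / √(l : ℝ)) *
            vK ρ h (Real.log l / Real.log X) (u / Real.log X - v)) := by
  have hq1 : 8 * d ≠ 1 := by omega
  have hL : 0 < Real.log X := Real.log_pos hX
  set L : ℝ := Real.log X with hLdef
  set lq : ℝ := Real.log (8 * d) with hlq
  have hj : ∀ n : ℕ, jr (2 * σ * d) n = cR χ n := by
    intro n
    rw [cR, hval, Complex.ofReal_re]
  have hc0 : cR χ 0 = 0 := by
    rw [cR]
    have : χ ((0 : ℕ) : ZMod (8 * d)) = 0 := by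
      rw [Nat.cast_zero]
      exact χ.map_zero' hq1
    rw [this]
    rfl
  have hcast : Real.log ((8 * d : ℕ) : ℝ) = lq := by
    rw [hlq]
    push_cast
    rfl
  refine ⟨⌈Real.exp (θ * L)⌉₊ + 1, fun v => ?_⟩
  set A : ℕ → ℝ → ℝ := fun n u => cR χ n * (Real.exp ((lq / 2 - Real.log n) / 2) *
    kap (par χ) (u + Real.log n - lq / 2)) with hA
  set B : ℕ → ℝ → ℝ := fun l u => ((ArithmeticFunction.moebius l : ℝ) * cR χ l / √(l : ℝ)) *
    vK ρ h (Real.log l / L) (u / L - v) with hB
  have hAsum : ∀ u, HasSum (fun n => A n u) (gth χ u) := by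
    intro u
    have h1 := gth_hasSum χ hq1 h2 u
    rw [hcast] at h1
    exact h1
  have hBz : ∀ l : ℕ, ⌈Real.exp (θ * L)⌉₊ + 1 ≤ l → ∀ u, B l u = 0 := by
    intro l hl u
    have h1 : Real.exp (θ * L) ≤ l := by
      refine (Nat.le_ceil _).trans ?_
      exact_mod_cast (by omega : ⌈Real.exp (θ * L)⌉₊ ≤ l)
    have h3 : θ ≤ Real.log l / L := by
      rw [le_div_iff₀ hL, Real.le_log_iff_exp_le (lt_of_lt_of_le (Real.exp_pos _) h1)]
      exact h1
    simp only [hB]
    rw [vK_zero hh h3, mul_zero]
  have hBcont : ∀ l, Continuous (B l) := by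
    intro l
    have := vK_cont hρ hh (Real.log l / L)
    simp only [hB]
    fun_prop
  have hBcs : ∀ l, HasCompactSupport (B l) := by
    intro l
    have h1 := vK_cs hρ hh (Real.log l / L)
    have h3 : HasCompactSupport (fun u : ℝ => vK ρ h (Real.log l / L) (u / L - v)) := by
      have hh1 : (fun u : ℝ => vK ρ h (Real.log l / L) (u / L - v)) =
          vK ρ h (Real.log l / L) ∘ ((Homeomorph.mulRight₀ L⁻¹ (inv_ne_zero hL.ne')).trans
            (Homeomorph.addRight (-v))) := by
        ext u
        simp [Function.comp, div_eq_mul_inv, sub_eq_add_neg]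
      rw [hh1]
      exact h1.comp_homeomorph _
    exact h3.mul_left
  have hAcont : ∀ n, Continuous (A n) := by
    intro n
    simp only [hA, kap]
    fun_prop
  have hABint : ∀ p : ℕ × ℕ, Integrable (fun u => A p.1 u * B p.2 u) := by
    intro p
    exact ((hAcont p.1).mul (hBcont p.2)).integrable_of_hasCompactSupport ((hBcs p.2).mul_left)
  have hEint : ∀ l, Integrable (fun u => Real.exp (-2 * u) * |B l u|) := by
    intro l
    have : Continuous fun u => Real.exp (-2 * u) * |B l u| := by
      have := hBcont l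
      fun_prop
    exact this.integrable_of_hasCompactSupport ((hBcs l).norm.mul_left)
  have hAbd : ∀ n u, |A n u| ≤ Real.exp (lq / 4 + lq) * (1 / (n : ℝ) ^ 2) * Real.exp (-2 * u) := by
    intro n u
    rcases Nat.eq_zero_or_pos n with hn | hn
    · subst hn
      simp [hA, hc0]
    · have hn' : (1 : ℝ) ≤ n := by exact_mod_cast hn
      have hn0 : (0 : ℝ) < n := by linarith
      simp only [hA]
      rw [abs_mul, abs_of_nonneg (mul_nonneg (Real.exp_pos _).le (kap_nonneg _ _))]
      have e1 := cR_abs_le χ h2 n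
      have e2 := kap_le (par_cases χ) (u + Real.log n - lq / 2)
      have e3 : Real.exp ((lq / 2 - Real.log n) / 2) ≤ Real.exp (lq / 4) := by
        apply Real.exp_le_exp.mpr
        have := Real.log_nonneg hn'
        linarith
      have e4 : Real.exp (-2 * (u + Real.log n - lq / 2)) =
          Real.exp lq * (1 / (n : ℝ) ^ 2) * Real.exp (-2 * u) := by
        have : -2 * (u + Real.log n - lq / 2) = lq + (-(Real.log n)) + (-(Real.log n)) + (-2 * u) := by
          ring
        rw [this, Real.exp_add, Real.exp_add, Real.exp_add, Real.exp_neg, Real.exp_log hn0]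
        field_simp
      calc |cR χ n| * (Real.exp ((lq / 2 - Real.log n) / 2) *
            kap (par χ) (u + Real.log n - lq / 2))
          ≤ 1 * (Real.exp (lq / 4) * Real.exp (-2 * (u + Real.log n - lq / 2))) :=
            mul_le_mul e1 (mul_le_mul e3 e2 (kap_nonneg _ _) (Real.exp_pos _).le)
              (mul_nonneg (Real.exp_pos _).le (kap_nonneg _ _)) zero_le_one
        _ = _ := by
            rw [e4, Real.exp_add]
            ring
  have hsumint : Summable (fun p : ℕ × ℕ => ∫ u, ‖A p.1 u * B p.2 u‖) := by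
    have g1 : Summable (fun n : ℕ => Real.exp (lq / 4 + lq) * (1 / (n : ℝ) ^ 2)) :=
      (Real.summable_one_div_nat_pow.mpr (by norm_num)).mul_left _
    have g2 : Summable (fun l : ℕ => ∫ u, Real.exp (-2 * u) * |B l u|) := by
      refine summable_of_ne_finset_zero (s := Finset.range (⌈Real.exp (θ * L)⌉₊ + 1)) ?_
      intro l hl
      rw [Finset.mem_range, not_lt] at hl
      simp [hBz l hl]
    have g3 := g1.mul_of_nonneg g2 (fun n => by positivity)
      (fun l => integral_nonneg fun u => by positivity)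
    refine g3.of_nonneg_of_le (fun p => integral_nonneg fun u => norm_nonneg _) ?_
    intro p
    rw [← integral_const_mul]
    refine integral_mono (hABint p).norm ((hEint p.2).const_mul _) ?_
    intro u
    simp only [norm_mul, Real.norm_eq_abs]
    calc |A p.1 u| * |B p.2 u| ≤ (Real.exp (lq / 4 + lq) * (1 / (p.1 : ℝ) ^ 2) *
          Real.exp (-2 * u)) * |B p.2 u| := by
          gcongr
          exact hAbd _ _
      _ = _ := by ring
  have hmain := hasSum_integral_of_summable_integral_norm hABint hsumint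
  have hterm : ∀ p : ℕ × ℕ, (ArithmeticFunction.moebius p.2 : ℝ) * jr (2 * σ * d) (p.1 * p.2) /
      √((p.1 : ℝ) * p.2) *
      kL (par χ) ρ h L (lq / (2 * L) - v - Real.log p.1 / L) (Real.log p.2 / L) =
      Real.exp (-(lq / 4)) / Gam0 (par χ) * ∫ u, A p.1 u * B p.2 u := by
    rintro ⟨n, l⟩
    simp only
    rw [hj, cR_mul χ h2]
    rcases Nat.eq_zero_or_pos n with hn | hn
    · subst hn
      simp [hA, hc0]
    · have hn' : (1 : ℝ) ≤ n := by exact_mod_cast hn
      have hn0 : (0 : ℝ) < n := by linarith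
      rw [kL_vK, ← integral_add_right_eq_self (μ := volume) (fun x => kap (par χ) x *
        vK ρ h (Real.log l / L) (lq / (2 * L) - v - Real.log n / L + x / L)) (Real.log n - lq / 2)]
      have e1 : ∀ u, A n u * B l u = (cR χ n * (Real.exp (lq / 4) / √(n : ℝ)) *
          ((ArithmeticFunction.moebius l : ℝ) * cR χ l / √(l : ℝ))) *
          (kap (par χ) (u + (Real.log n - lq / 2)) * vK ρ h (Real.log l / L)
            (lq / (2 * L) - v - Real.log n / L + (u + (Real.log n - lq / 2)) / L)) := by
        intro u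
        have e2 : lq / (2 * L) - v - Real.log n / L + (u + (Real.log n - lq / 2)) / L = u / L - v := by
          field_simp
          ring
        have e3 : Real.exp ((lq / 2 - Real.log n) / 2) = Real.exp (lq / 4) / √(n : ℝ) := by
          have e4 : √(n : ℝ) = Real.exp (Real.log n / 2) := by
            rw [Real.sqrt_eq_rpow, Real.rpow_def_of_pos hn0]
            ring_nf
          rw [e4, ← Real.exp_sub]
          ring_nf
        simp only [hA, hB]
        rw [e2, e3, add_sub_assoc]
        ring
      simp_rw [e1]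
      rw [integral_const_mul, Real.sqrt_mul hn0.le, Real.exp_neg]
      have hs : √(n : ℝ) ≠ 0 := by positivity
      have he : Real.exp (lq / 4) ≠ 0 := (Real.exp_pos _).ne'
      have key : ∀ J : ℝ, (ArithmeticFunction.moebius l : ℝ) * (cR χ n * cR χ l) /
          (√(n : ℝ) * √(l : ℝ)) * (J / Gam0 (par χ)) =
          (Real.exp (lq / 4))⁻¹ / Gam0 (par χ) * (cR χ n * (Real.exp (lq / 4) / √(n : ℝ)) *
          ((ArithmeticFunction.moebius l : ℝ) * cR χ l / √(l : ℝ)) * J) := by
        intro J
        field_simp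
      exact key _
  have hy : ytil (par χ) σ ρ h X d (lq / (2 * L) - v) =
      ∑' p : ℕ × ℕ, Real.exp (-(lq / 4)) / Gam0 (par χ) * ∫ u, A p.1 u * B p.2 u := by
    rw [ytil]
    exact tsum_congr hterm
  rw [hy, tsum_mul_left, hmain.tsum_eq]
  congr 1
  refine integral_congr_ae (Filter.Eventually.of_forall fun u => ?_)
  simp only
  have n1 : Summable (fun n => ‖A n u‖) := (hAsum u).summable.norm
  have n2 : Summable (fun l => ‖B l u‖) := by
    refine summable_of_ne_finset_zero (s := Finset.range (⌈Real.exp (θ * L)⌉₊ + 1)) ?_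
    intro l hl
    rw [Finset.mem_range, not_lt] at hl
    simp [hBz l hl]
  rw [← tsum_mul_tsum_of_summable_norm n1 n2, (hAsum u).tsum_eq]
  congr 1
  refine tsum_eq_sum ?_
  intro l hl
  rw [Finset.mem_range, not_lt] at hl
  exact hBz l hl u

private lemma van_completed {q : ℕ} [NeZero q] (χ : DirichletCharacter ℂ q) (hq1 : q ≠ 1)
    (s : ℝ) (hs0 : 0 < s) (hz : χ.LFunction s = 0) : χ.completedLFunction s = 0 := by
  rw [DirichletCharacter.LFunction_eq_completed_div_gammaFactor χ s (Or.inr hq1),
    div_eq_zero_iff] at hz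
  rcases hz with hz | hz
  · exact hz
  · exfalso
    rcases χ.even_or_odd with he | ho
    · rw [he.gammaFactor_def] at hz
      exact Complex.Gammaℝ_ne_zero_of_re_pos (by simpa using hs0) hz
    · rw [ho.gammaFactor_def] at hz
      refine Complex.Gammaℝ_ne_zero_of_re_pos ?_ hz
      rw [Complex.add_re, Complex.one_re, Complex.ofReal_re]
      linarith

theorem vanish (d : ℕ) (hd : Odd d) (hs : Squarefree d) [NeZero (8 * d)] (σ : ℤ)
    (χ : DirichletCharacter ℂ (8 * d)) (hp : χ.IsPrimitive) (h2 : χ ^ 2 = 1)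
    (hval : ∀ n : ℕ, χ n = (jr (2 * σ * d) n : ℂ)) (hsym : ∀ t : ℝ, gth χ (-t) = gth χ t)
    {ρ h : ℝ → ℝ} {δ θ : ℝ} (hδ : 0 < δ) (hρ : Bump ρ (-(δ / 2)) (δ / 2)) (hρe : ∀ y, ρ (-y) = ρ y)
    (hh : Bump h 0 θ) (X : ℝ) (hX : 1 < X) (s : ℝ) (hs0 : 0 < s) (hs1 : s < 1)
    (hz : χ.LFunction s = 0) :
    IntegrableOn (fun v : ℝ => Real.cosh ((s - 1 / 2) * Real.log X * v) *
      ytil (par χ) σ ρ h X d (Real.log (8 * d) / (2 * Real.log X) - v)) (Set.Ioi 0) ∧
    ∫ v in Set.Ioi (0 : ℝ), Real.cosh ((s - 1 / 2) * Real.log X * v) *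
      ytil (par χ) σ ρ h X d (Real.log (8 * d) / (2 * Real.log X) - v) = 0 := by
  have hd0 : d ≠ 0 := by
    rintro rfl
    simp at hd
  have hq1 : 8 * d ≠ 1 := by omega
  obtain ⟨M, hM⟩ := van_series d σ χ h2 hval hρ hh X hX
  have hL : 0 < Real.log X := Real.log_pos hX
  set L : ℝ := Real.log X with hLdef
  set c₀ : ℝ := Real.exp (-(Real.log (8 * d) / 4)) / Gam0 (par χ) with hc₀
  set Kt : ℝ → ℝ := fun w => ∑ l ∈ Finset.range M,
    ((ArithmeticFunction.moebius l : ℝ) * cR χ l / √(l : ℝ)) * vK ρ h (Real.log l / L) w with hKt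
  set Y : ℝ → ℝ := fun v => ytil (par χ) σ ρ h X d (Real.log (8 * d) / (2 * L) - v) with hY
  have hKcont : Continuous Kt := by
    simp only [hKt]
    refine continuous_finsetSum _ fun l _ => ?_
    exact (vK_cont hρ hh _).const_mul _
  have hKcs : HasCompactSupport Kt := by
    have : ∀ S : Finset ℕ, HasCompactSupport (fun w => ∑ l ∈ S,
        ((ArithmeticFunction.moebius l : ℝ) * cR χ l / √(l : ℝ)) * vK ρ h (Real.log l / L) w) := by
      intro S
      induction S using Finset.induction_on with
      | empty =>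
        simp only [Finset.sum_empty]
        exact HasCompactSupport.zero
      | insert a S ha ih =>
        simp only [Finset.sum_insert ha]
        exact ((vK_cs hρ hh _).mul_left).add ih
    exact this _
  have hKe : ∀ w, Kt (-w) = Kt w := by
    intro w
    simp only [hKt]
    refine Finset.sum_congr rfl fun l _ => ?_
    rw [vK_even hρe]
  have hYeq : ∀ v, Y v = c₀ * L * ∫ t : ℝ, gth χ (L * t) * Kt (v - t) := by
    intro v
    have h1 : Y v = c₀ * ∫ u : ℝ, gth χ u * Kt (u / L - v) := hM v
    rw [h1]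
    have h3 := MeasureTheory.Measure.integral_comp_mul_left (fun u => gth χ u * Kt (u / L - v)) L
    rw [abs_of_pos (inv_pos.mpr hL), smul_eq_mul] at h3
    have h4 : ∫ u : ℝ, gth χ u * Kt (u / L - v) =
        L * ∫ t : ℝ, gth χ (L * t) * Kt (L * t / L - v) := by
      rw [h3]
      field_simp
    rw [h4, ← mul_assoc]
    congr 1
    refine integral_congr_ae (Filter.Eventually.of_forall fun t => ?_)
    simp only
    rw [mul_div_cancel_left₀ _ hL.ne', ← hKe]
    congr 2
    ring
  have hYe : ∀ v, Y (-v) = Y v := by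
    intro v
    rw [hYeq, hYeq, ← integral_neg_eq_self]
    congr 1
    refine integral_congr_ae (Filter.Eventually.of_forall fun t => ?_)
    simp only
    rw [mul_neg, hsym, ← hKe]
    congr 2
    ring
  set α : ℝ := s - 1 / 2 with hα
  -- integrability and vanishing of the full Laplace transform
  have hgint : ∀ β : ℝ, Integrable (fun t : ℝ => Real.exp (β * L * t) * gth χ (L * t)) := by
    intro β
    have h1 := (gth_integrable χ hq1 hsym β).comp_mul_left' hL.ne'
    refine h1.congr (Filter.Eventually.of_forall fun t => ?_)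
    simp only
    rw [mul_assoc]
  have hKint : ∀ β : ℝ, Integrable (fun w : ℝ => Real.exp (β * w) * Kt w) := by
    intro β
    have : Continuous (fun w : ℝ => Real.exp (β * w) * Kt w) := by fun_prop
    exact this.integrable_of_hasCompactSupport hKcs.mul_left
  have hconv : ∀ β : ℝ, (fun v => Real.exp (β * L * v) * Y v) = fun v => c₀ * L *
      (MeasureTheory.convolution (fun t : ℝ => Real.exp (β * L * t) * gth χ (L * t))
        (fun w : ℝ => Real.exp (β * L * w) * Kt w) (ContinuousLinearMap.mul ℝ ℝ) volume) v := by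
    intro β
    ext v
    rw [hYeq, MeasureTheory.convolution_def, mul_left_comm, ← integral_const_mul]
    congr 1
    refine integral_congr_ae (Filter.Eventually.of_forall fun t => ?_)
    simp only [ContinuousLinearMap.mul_apply']
    have : Real.exp (β * L * v) = Real.exp (β * L * t) * Real.exp (β * L * (v - t)) := by
      rw [← Real.exp_add]
      ring_nf
    rw [this]
    ring
  have hYint : ∀ β : ℝ, Integrable (fun v => Real.exp (β * L * v) * Y v) := by
    intro β
    rw [hconv]
    exact ((hgint β).integrable_convolution _ (hKint (β * L))).const_mul _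
  have hYzero : ∫ v, Real.exp (α * L * v) * Y v = 0 := by
    rw [hconv, integral_const_mul, MeasureTheory.integral_convolution _ (hgint α) (hKint (α * L))]
    have h3 : ∫ t : ℝ, Real.exp (α * L * t) * gth χ (L * t) = 0 := by
      have h4 := MeasureTheory.Measure.integral_comp_mul_left (fun u => Real.exp (α * u) * gth χ u) L
      have h5 : ∫ u : ℝ, Real.exp (α * u) * gth χ u = 0 := by
        have h6 := gth_integral χ hp hq1 h2 s
        rw [van_completed χ hq1 s hs0 hz, mul_zero] at h6
        exact_mod_cast h6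
      rw [h5, smul_zero] at h4
      rw [← h4]
      refine integral_congr_ae (Filter.Eventually.of_forall fun t => ?_)
      simp only
      rw [mul_assoc]
    rw [h3]
    simp
  have hYzero' : ∫ v, Real.exp (-α * L * v) * Y v = 0 := by
    rw [← hYzero, ← integral_neg_eq_self]
    refine integral_congr_ae (Filter.Eventually.of_forall fun t => ?_)
    simp only
    rw [hYe]
    congr 2
    ring
  have hcosh : (fun v : ℝ => Real.cosh (α * L * v) * Y v) =
      fun v => 1 / 2 * (Real.exp (α * L * v) * Y v) + 1 / 2 * (Real.exp (-α * L * v) * Y v) := by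
    ext v
    rw [Real.cosh_eq]
    have : -α * L * v = -(α * L * v) := by ring
    rw [this]
    ring
  have hcint : Integrable (fun v : ℝ => Real.cosh (α * L * v) * Y v) := by
    rw [hcosh]
    exact ((hYint α).const_mul _).add ((hYint (-α)).const_mul _)
  have hctot : ∫ v : ℝ, Real.cosh (α * L * v) * Y v = 0 := by
    rw [hcosh, integral_add ((hYint α).const_mul _) ((hYint (-α)).const_mul _),
      integral_const_mul, integral_const_mul, hYzero, hYzero']
    simp
  refine ⟨hcint.integrableOn, ?_⟩
  have hsplit : ∫ v : ℝ, Real.cosh (α * L * v) * Y v =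
      2 * ∫ v in Set.Ioi (0 : ℝ), Real.cosh (α * L * v) * Y v := by
    rw [← integral_comp_abs (f := fun v => Real.cosh (α * L * v) * Y v)]
    refine integral_congr_ae (Filter.Eventually.of_forall fun t => ?_)
    simp only
    rcases le_or_gt 0 t with ht | ht
    · rw [abs_of_nonneg ht]
    · rw [abs_of_neg ht, hYe, ← Real.cosh_neg]
      congr 2
      ring
  rw [hsplit] at hctot
  linarith

end Pool.Agent.MP0016c7.Rz
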