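import Mathlib
import Pool.Agent.Lib.MP_0016c7_nt.Theta
import Pool.Agent.Lib.MP_0016c7_nt.Rz.Defs
import Pool.Agent.Lib.MP_0016c7_nt.Rz.DefsC
import Pool.Agent.Lib.MP_0016c7_nt.Rz.DefsF
import Pool.Agent.Lib.MP_0016c7_nt.Rz.DefsE
import Pool.Agent.Lib.MP_0016c7_nt.Rz.Ker1
import Pool.Agent.Lib.MP_0016c7_nt.Rz.KerPhi

set_option autoImplicit false

open Finset MeasureTheory Filter Topology
open scoped Real ContDiff

namespace Pool.Agent.MP0016c7.Rz

private lemma Hid_nonneg' {θ₀ : ℝ} (hθ₀ : 0 < θ₀) (x : ℝ) : 0 ≤ Hid θ₀ x := by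
  unfold Hid
  split_ifs with h
  · exact le_rfl
  · push Not at h
    have h1 : max x 0 ≤ θ₀ := max_le h.le hθ₀.le
    have h2 : 0 ≤ max x 0 := le_max_right _ _
    nlinarith only [h1, hθ₀, h2]

private lemma Hid_anti {θ₀ : ℝ} (hθ₀ : 0 < θ₀) {x y : ℝ} (hxy : x ≤ y) : Hid θ₀ y ≤ Hid θ₀ x := by
  by_cases hy : θ₀ ≤ y
  · have : Hid θ₀ y = 0 := by unfold Hid; rw [if_pos hy]
    rw [this]
    exact Hid_nonneg' hθ₀ x
  · have hx : ¬ θ₀ ≤ x := fun h => hy (h.trans hxy)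
    unfold Hid
    rw [if_neg hy, if_neg hx]
    push Not at hy hx
    have h1 : max y 0 ≤ θ₀ := max_le hy.le hθ₀.le
    have h2 : 0 ≤ max x 0 := le_max_right _ _
    have h3 : max x 0 ≤ max y 0 := max_le_max_right 0 hxy
    nlinarith only [h3, h2]

private lemma Hid_eq_zero {θ₀ x : ℝ} (h : θ₀ ≤ x) : Hid θ₀ x = 0 := by
  unfold Hid
  rw [if_pos h]

private lemma cosh_le {α L v : ℝ} (hα : |α| ≤ 1 / 2) (hL : 0 < L) (hv : 0 ≤ v) :
    Real.cosh (α * L * v) ≤ Real.exp (L * v / 2) := by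
  have h1 : Real.cosh (α * L * v) ≤ Real.exp |α * L * v| := by
    rw [Real.cosh_eq]
    have h2 : Real.exp (α * L * v) ≤ Real.exp |α * L * v| := Real.exp_le_exp.mpr (le_abs_self _)
    have h3 : Real.exp (-(α * L * v)) ≤ Real.exp |α * L * v| :=
      Real.exp_le_exp.mpr (neg_le_abs _)
    linarith only [h2, h3]
  refine h1.trans (Real.exp_le_exp.mpr ?_)
  rw [abs_mul, abs_mul, abs_of_pos hL, abs_of_nonneg hv]
  have : |α| * L * v ≤ 1 / 2 * L * v := by (clear * - hα hL hv; gcongr)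
  linarith only [this]

/-- Continuity of `ytil`. -/
private lemma detL_meas {c : ℝ} (hc : 0 ≤ c) {ρ h : ℝ → ℝ} {a b θ X : ℝ} (hρ : Bump ρ a b)
    (hh : Bump h 0 θ) (hX : 1 < X) (σ : ℤ) (d : ℕ) (B : ℝ) :
    StronglyMeasurable (fun v => ytil c σ ρ h X d (B - v)) := by
  have hL : 0 < Real.log X := Real.log_pos hX
  have h1 : (fun v => ytil c σ ρ h X d (B - v)) = fun v =>
      (∫ z, kpF c σ ρ h (Real.log X) d (B - v) z ∂(volume.prod volume)) / Gam0 c := by
    funext v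
    exact (ytil_eq_kpF hc hρ hh hX σ d (B - v)).2
  rw [h1]
  have h2 : Continuous (fun w : ℝ × (ℝ × ℝ) => kpF c σ ρ h (Real.log X) d (B - w.1) w.2) := by
    unfold kpF
    refine (((continuous_kap c).comp (by fun_prop)).mul (hρ.continuous'.comp (by fun_prop))).mul ?_
    exact (continuous_kpPhi hh hL σ d).comp (by fun_prop)
  have h3 := StronglyMeasurable.integral_prod_right
    (f := fun (v : ℝ) (z : ℝ × ℝ) => kpF c σ ρ h (Real.log X) d (B - v) z)
    (ν := (volume.prod volume : Measure (ℝ × ℝ))) h2.stronglyMeasurable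
  exact StronglyMeasurable.div h3 stronglyMeasurable_const

/-- Exponential bound for `ytil`. -/
private lemma detL_upper {c : ℝ} (hc : 0 ≤ c) {ρ h : ℝ → ℝ} {a b θ X : ℝ} (hρ : Bump ρ a b)
    (hh : Bump h 0 θ) (hX : 1 < X) (σ : ℤ) (d : ℕ) :
    ∃ C : ℝ, ∀ Y : ℝ, |ytil c σ ρ h X d Y| ≤ C * Real.exp (2 * Real.log X * Y) := by
  have hL : 0 < Real.log X := Real.log_pos hX
  set L := Real.log X with hLdef
  have hG := Gam0_pos hc
  refine ⟨(∫ z : ℝ × ℝ, 2 * (∫ x, |h x|) * Real.exp (3 * θ * L) *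
      ((kap c z.1 * Real.exp (2 * z.1)) * (|ρ z.2| * Real.exp (2 * L * (0 - z.2))))
      ∂(volume.prod volume)) / Gam0 c, fun Y => ?_⟩
  rw [(ytil_eq_kpF hc hρ hh hX σ d Y).2, ← hLdef, abs_div, abs_of_pos hG, div_mul_eq_mul_div]
  gcongr
  rw [← integral_mul_const]
  have h1 := norm_integral_le_of_norm_le (f := kpF c σ ρ h L d Y)
    (((integrable_kp_majorant hc (k := 2) (by norm_num) hρ L 0).const_mul
      (2 * (∫ x, |h x|) * Real.exp (3 * θ * L))).mul_const (Real.exp (2 * L * Y)))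
    (ae_of_all _ fun z => by
      rw [Real.norm_eq_abs]
      refine (abs_kpF_le hh hL σ d Y z).trans (le_of_eq ?_)
      have : Real.exp (2 * L * (Y - z.2)) = Real.exp (2 * L * (0 - z.2)) * Real.exp (2 * L * Y) := by
        rw [← Real.exp_add]
        congr 1
        ring
      rw [this]
      ring)
  rwa [Real.norm_eq_abs] at h1

/-- The pointwise lower bound. -/
private lemma detL_pointwise {ρ h : ℝ → ℝ} {δ θ θ₀ : ℝ} (hδ : 0 < δ) (hθ₀ : 0 < θ₀)
    (hρ : Bump ρ (-(δ / 2)) (δ / 2)) (hh : Bump h 0 θ) (hhn : ∀ t, 0 ≤ h t)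
    (hH : ∀ t, Hid θ₀ (t - 2 * δ) ≤ HH h t) (σ : ℤ) (d : ℕ) {L : ℝ} (hL : 0 < L)
    {k : ℝ} (hk : 0 ≤ k) {b v : ℝ} (hb1 : 1 / 2 ≤ b) (hb2 : b ≤ 1 / 2 + δ / 8)
    (hv : 1 / 2 + δ < v) (x y : ℝ) (hy : ρ y ≠ 0) :
    Hid θ₀ (v - (1 / 2 + δ)) * (1 - 8 / (δ * L) * |x|) -
      2 * (∫ x, |h x|) * Real.exp (3 * θ * L) * Real.exp (-(k * L * (v - (1 / 2 + δ) + 3 * δ / 8))) *
        Real.exp ((2 + k) * x) ≤ kpPhi σ d h L (y - (b - v) - x / L) := by
  have hI : 0 ≤ ∫ x, |h x| := integral_nonneg fun x => abs_nonneg _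
  obtain ⟨hy1, hy2⟩ := hρ.supp y hy
  set t := y - (b - v) - x / L with ht
  have hHn := Hid_nonneg' hθ₀ (v - (1 / 2 + δ))
  have hE : 0 ≤ 2 * (∫ x, |h x|) * Real.exp (3 * θ * L) *
      Real.exp (-(k * L * (v - (1 / 2 + δ) + 3 * δ / 8))) * Real.exp ((2 + k) * x) := by (clear * -; positivity)
  by_cases hx : |x| ≤ δ * L / 8
  · -- the main range
    have hxL : |x / L| ≤ δ / 8 := by
      rw [abs_div, abs_of_pos hL, div_le_iff₀ hL]
      linarith only [hx]
    have hxL' := abs_le.mp hxL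
    have ht0 : 0 ≤ t := by
      rw [ht]
      linarith only [hδ, hb2, hv, hy1, hxL', hxL'.2]
    rw [kpPhi_of_nonneg hh hL ht0]
    have h1 : Hid θ₀ (v - (1 / 2 + δ)) ≤ HH h t := by
      refine le_trans (Hid_anti hθ₀ ?_) (hH t)
      rw [ht]
      linarith only [hδ, hb1, hy2, hxL', hxL'.1]
    have h2 : 0 ≤ 8 / (δ * L) * |x| := by positivity
    nlinarith only [hE, h1, hHn, h2]
  · push Not at hx
    have h2 : 1 - 8 / (δ * L) * |x| ≤ 0 := by
      have h3 : 1 ≤ 8 / (δ * L) * |x| := by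
        rw [div_mul_eq_mul_div, le_div_iff₀ (by positivity)]
        linarith only [hx]
      linarith only [h3]
    have h4 : Hid θ₀ (v - (1 / 2 + δ)) * (1 - 8 / (δ * L) * |x|) ≤ 0 :=
      mul_nonpos_of_nonneg_of_nonpos hHn h2
    rcases le_or_gt 0 t with h0 | h0
    · rw [kpPhi_of_nonneg hh hL h0]
      have := HH_nonneg hhn t
      linarith only [hE, h4, this]
    · have h1 := abs_kpPhi_le hh hL σ d t
      have h5 : Real.exp (-2 * t * L) ≤
          Real.exp (-(k * L * (v - (1 / 2 + δ) + 3 * δ / 8))) * Real.exp ((2 + k) * x) := by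
        rw [← Real.exp_add]
        apply Real.exp_le_exp.mpr
        have h6 : -2 * t * L = 2 * x - 2 * (L * (y - (b - v))) := by
          rw [ht]
          field_simp
          ring
        have h7 : L * (y - (b - v)) < x := by
          have h4 : y - (b - v) < x / L := by linarith only [h0]
          rw [lt_div_iff₀ hL] at h4
          linarith only [h4]
        have h8 : L * (v - (1 / 2 + δ) + 3 * δ / 8) ≤ L * (y - (b - v)) := by
          apply mul_le_mul_of_nonneg_left _ hL.le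
          linarith only [hb2, hy1]
        have h9 : 0 ≤ L * (v - (1 / 2 + δ) + 3 * δ / 8) := mul_nonneg hL.le (by linarith only [hδ, hv])
        have h10 : k * (L * (v - (1 / 2 + δ) + 3 * δ / 8)) ≤ k * x :=
          mul_le_mul_of_nonneg_left (by linarith only [h7, h8]) hk
        rw [h6]
        nlinarith only [h8, h9, h10]
      have h6 : 2 * (∫ x, |h x|) * Real.exp (3 * θ * L) * Real.exp (-2 * t * L) ≤
          2 * (∫ x, |h x|) * Real.exp (3 * θ * L) *
            (Real.exp (-(k * L * (v - (1 / 2 + δ) + 3 * δ / 8))) * Real.exp ((2 + k) * x)) := by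
        (clear * - h5; gcongr)
      have h7 := (abs_le.mp h1).1
      linarith only [h4, h6, h7]

/-- The lower bound for `ytil`. -/
private lemma detL_lower {ρ h : ℝ → ℝ} {δ θ θ₀ : ℝ} (hδ : 0 < δ) (hθ₀ : 0 < θ₀)
    (hρ : Bump ρ (-(δ / 2)) (δ / 2)) (hρn : ∀ y, 0 ≤ ρ y)
    (hρ1 : ∫ y, ρ y = 1) (hh : Bump h 0 θ) (hhn : ∀ t, 0 ≤ h t)
    (hH : ∀ t, Hid θ₀ (t - 2 * δ) ≤ HH h t) {c : ℝ} (hc : 0 ≤ c) (σ : ℤ) (d : ℕ) {X : ℝ}
    (hX : 1 < X) {k : ℝ} (hk : 0 ≤ k) {b v : ℝ} (hb1 : 1 / 2 ≤ b) (hb2 : b ≤ 1 / 2 + δ / 8)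
    (hv : 1 / 2 + δ < v) :
    Hid θ₀ (v - (1 / 2 + δ)) * (1 - 8 / (δ * Real.log X) * (∫ x, kap c x * |x|) / Gam0 c) -
      2 * (∫ x, |h x|) * Real.exp (3 * θ * Real.log X) *
        Real.exp (-(k * Real.log X * (v - (1 / 2 + δ) + 3 * δ / 8))) *
        (∫ x, kap c x * Real.exp ((2 + k) * x)) / Gam0 c ≤ ytil c σ ρ h X d (b - v) := by
  have hL : 0 < Real.log X := Real.log_pos hX
  set L := Real.log X with hLdef
  have hG := Gam0_pos hc
  rw [(ytil_eq_kpF hc hρ hh hX σ d (b - v)).2, ← hLdef]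
  set Hv := Hid θ₀ (v - (1 / 2 + δ)) with hHv
  set E := 2 * (∫ x, |h x|) * Real.exp (3 * θ * L) *
        Real.exp (-(k * L * (v - (1 / 2 + δ) + 3 * δ / 8))) with hE
  have hρi := hρ.integrable
  have hi0 : Integrable (fun z : ℝ × ℝ => kap c z.1 * ρ z.2) (volume.prod volume) :=
    (integrable_kap hc).mul_prod hρi
  have hi1 : Integrable (fun z : ℝ × ℝ => (kap c z.1 * |z.1|) * ρ z.2) (volume.prod volume) :=
    (integrable_kap_mul_abs hc).mul_prod hρi
  have hi2 : Integrable (fun z : ℝ × ℝ => (kap c z.1 * Real.exp ((2 + k) * z.1)) * ρ z.2)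
      (volume.prod volume) := (integrable_kap_mul_exp hc (by positivity)).mul_prod hρi
  have hmono : ∫ z : ℝ × ℝ, (Hv * (kap c z.1 * ρ z.2) - Hv * (8 / (δ * L)) *
        ((kap c z.1 * |z.1|) * ρ z.2) - E * ((kap c z.1 * Real.exp ((2 + k) * z.1)) * ρ z.2))
        ∂(volume.prod volume) ≤ ∫ z, kpF c σ ρ h L d (b - v) z ∂(volume.prod volume) := by
    refine integral_mono (((hi0.const_mul Hv).sub (hi1.const_mul (Hv * (8 / (δ * L))))).sub
      (hi2.const_mul E)) (integrable_kpF hc hρ hh hL σ d (b - v)) fun z => ?_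
    simp only [kpF]
    by_cases hy : ρ z.2 = 0
    · rw [hy]; simp
    · have h1 := detL_pointwise hδ hθ₀ hρ hh hhn hH σ d hL hk hb1 hb2 hv z.1 z.2 hy
      rw [← hHv, ← hE] at h1
      have h2 : 0 ≤ kap c z.1 * ρ z.2 := mul_nonneg (kap_pos c z.1).le (hρn z.2)
      calc _ = kap c z.1 * ρ z.2 * (Hv * (1 - 8 / (δ * L) * |z.1|) -
            E * Real.exp ((2 + k) * z.1)) := by ring
        _ ≤ _ := mul_le_mul_of_nonneg_left h1 h2
  have hval : ∫ z : ℝ × ℝ, (Hv * (kap c z.1 * ρ z.2) - Hv * (8 / (δ * L)) *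
        ((kap c z.1 * |z.1|) * ρ z.2) - E * ((kap c z.1 * Real.exp ((2 + k) * z.1)) * ρ z.2))
        ∂(volume.prod volume) = Hv * Gam0 c - Hv * (8 / (δ * L)) * (∫ x, kap c x * |x|) -
          E * (∫ x, kap c x * Real.exp ((2 + k) * x)) := by
    have e1 : ∫ z : ℝ × ℝ, (Hv * (kap c z.1 * ρ z.2) - Hv * (8 / (δ * L)) *
        ((kap c z.1 * |z.1|) * ρ z.2) - E * ((kap c z.1 * Real.exp ((2 + k) * z.1)) * ρ z.2))
        ∂(volume.prod volume) = (∫ z : ℝ × ℝ, (Hv * (kap c z.1 * ρ z.2) - Hv * (8 / (δ * L)) *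
        ((kap c z.1 * |z.1|) * ρ z.2)) ∂(volume.prod volume)) -
        ∫ z : ℝ × ℝ, E * ((kap c z.1 * Real.exp ((2 + k) * z.1)) * ρ z.2) ∂(volume.prod volume) :=
      integral_sub ((hi0.const_mul Hv).sub (hi1.const_mul (Hv * (8 / (δ * L))))) (hi2.const_mul E)
    rw [e1, integral_sub (hi0.const_mul Hv) (hi1.const_mul (Hv * (8 / (δ * L)))),
      integral_const_mul, integral_const_mul, integral_const_mul,
      integral_prod_mul (fun x => kap c x) ρ, integral_prod_mul (fun x => kap c x * |x|) ρ,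
      integral_prod_mul (fun x => kap c x * Real.exp ((2 + k) * x)) ρ, hρ1]
    simp only [mul_one]
    rfl
  rw [hval] at hmono
  rw [le_div_iff₀ hG]
  refine le_trans (le_of_eq ?_) hmono
  field_simp

theorem det_lower {ρ h : ℝ → ℝ} {δ θ θ₀ : ℝ} (hδ : 0 < δ) (hδ4 : δ ≤ 1 / 100) (hθ₀ : 0 < θ₀)
    (hθ : θ₀ ≤ θ) (hθ2 : θ < 1 / 2) (hρ : Bump ρ (-(δ / 2)) (δ / 2)) (hρn : ∀ y, 0 ≤ ρ y)
    (hρ1 : ∫ y, ρ y = 1) (hh : Bump h 0 θ) (hhn : ∀ t, 0 ≤ h t)
    (hH : ∀ t, Hid θ₀ (t - 2 * δ) ≤ HH h t)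
    (c : ℝ) (hc : c = 0 ∨ c = 1) (σ : ℤ) (ε : ℝ) (hε : 0 < ε) :
    ∃ X₀ : ℝ, ∀ X : ℝ, X₀ ≤ X → ∀ d : ℕ, X < d → (d : ℝ) ≤ 2 * X → ∀ α : ℝ, |α| ≤ 1 / 2 →
      (1 - ε) * (∫ v in Set.Ioc (1 / 2 + δ) (1 / 2 + δ + θ₀), Real.cosh (α * Real.log X * v) *
        Hid θ₀ (v - (1 / 2 + δ))) - ε ≤
      ∫ v in Set.Ioi (1 / 2 + δ), Real.cosh (α * Real.log X * v) *
        ytil c σ ρ h X d (Real.log (8 * d) / (2 * Real.log X) - v) := by
  have hc0 : 0 ≤ c := by rcases hc with h | h <;> rw [h] <;> norm_num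
  set k : ℝ := (8 * θ + 6) / δ with hkdef
  have hθ' : 0 < θ := hθ₀.trans_le hθ
  have hk : 0 ≤ k := by positivity
  have hk1 : 600 ≤ k := by
    rw [hkdef, le_div_iff₀ hδ]
    linarith only [hδ4, hθ₀, hθ]
  have hkδ : k * δ = 8 * θ + 6 := by
    rw [hkdef]
    field_simp
  have hI : 0 ≤ ∫ x, |h x| := integral_nonneg fun x => abs_nonneg _
  have hG := Gam0_pos hc0
  set A₁ := ∫ x, kap c x * |x| with hA₁
  set A₂ := ∫ x, kap c x * Real.exp ((2 + k) * x) with hA₂
  have hA₂0 : 0 ≤ A₂ := integral_nonneg fun x => mul_nonneg (kap_pos c x).le (Real.exp_pos _).le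
  have hlog : Tendsto Real.log atTop atTop := Real.tendsto_log_atTop
  have hinv : Tendsto (fun X : ℝ => (Real.log X)⁻¹) atTop (𝓝 0) :=
    tendsto_inv_atTop_zero.comp hlog
  have hexp : Tendsto (fun X : ℝ => Real.exp (-Real.log X)) atTop (𝓝 0) :=
    (Real.tendsto_exp_neg_atTop_nhds_zero).comp hlog
  have e1 : ∀ᶠ X : ℝ in atTop, 8 / δ * A₁ / Gam0 c * (Real.log X)⁻¹ < ε := by
    have := hinv.const_mul (8 / δ * A₁ / Gam0 c)
    rw [mul_zero] at this
    exact this.eventually (gt_mem_nhds hε)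
  have e2 : ∀ᶠ X : ℝ in atTop, 2 * (∫ x, |h x|) * A₂ / Gam0 c * Real.exp (-Real.log X) < ε := by
    have := hexp.const_mul (2 * (∫ x, |h x|) * A₂ / Gam0 c)
    rw [mul_zero] at this
    exact this.eventually (gt_mem_nhds hε)
  have e3 : ∀ᶠ X : ℝ in atTop, Real.log 16 / 2 * (Real.log X)⁻¹ < δ / 8 := by
    have := hinv.const_mul (Real.log 16 / 2)
    rw [mul_zero] at this
    exact this.eventually (gt_mem_nhds (by positivity))
  have e4 : ∀ᶠ X : ℝ in atTop, 1 ≤ Real.log X := hlog.eventually_ge_atTop 1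
  obtain ⟨X₀, hX₀⟩ := eventually_atTop.mp ((((e1.and e2).and e3).and e4).and
    (eventually_gt_atTop (1 : ℝ)))
  refine ⟨X₀, fun X hX d hd1 hd2 α hα => ?_⟩
  obtain ⟨⟨⟨⟨f1, f2⟩, f3⟩, f4⟩, hX1⟩ := hX₀ X hX
  have hL : 0 < Real.log X := by linarith only [hδ, hδ4, f4]
  set L := Real.log X with hLdef
  set V : ℝ := 1 / 2 + δ with hV
  have hV0 : 0 < V := by rw [hV]; linarith only [hδ, hδ4]
  have hV1 : V ≤ 1 := by rw [hV]; linarith only [hδ, hδ4]
  -- the centre
  have hX0 : 0 < X := by linarith only [hδ, hδ4, hX1]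
  have hb1 : 1 / 2 ≤ Real.log (8 * d) / (2 * L) := by
    rw [le_div_iff₀ (by positivity)]
    have h1 : L ≤ Real.log (8 * d) := Real.log_le_log hX0 (by linarith only [hδ, hδ4, hd1, hX1])
    linarith only [h1]
  have hb2 : Real.log (8 * d) / (2 * L) ≤ 1 / 2 + δ / 8 := by
    rw [div_le_iff₀ (by positivity)]
    have h1 : Real.log (8 * d) ≤ Real.log (16 * X) :=
      Real.log_le_log (by linarith only [hδ, hδ4, hd1, hX1]) (by linarith only [hd2])
    rw [Real.log_mul (by norm_num) hX0.ne'] at h1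
    have h2 : Real.log 16 / 2 ≤ δ / 8 * L := by
      have := mul_lt_mul_of_pos_right f3 hL
      rw [mul_assoc, inv_mul_cancel₀ hL.ne', mul_one] at this
      exact this.le
    have h3 : (1 / 2 + δ / 8) * (2 * L) = L + 2 * (δ / 8 * L) := by ring
    rw [h3]
    linarith only [h1, h2]
  set b := Real.log (8 * d) / (2 * L) with hb
  -- lower bound for `ytil`
  have hlow : ∀ v ∈ Set.Ioi V, (1 - ε) * Hid θ₀ (v - V) - 2 * (∫ x, |h x|) * A₂ / Gam0 c *
      Real.exp (3 * θ * L - k * L * (v - V + 3 * δ / 8)) ≤ ytil c σ ρ h X d (b - v) := by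
    intro v hv
    have h1 := detL_lower hδ hθ₀ hρ hρn hρ1 hh hhn hH hc0 σ d hX1 hk hb1 hb2 hv
    refine le_trans ?_ h1
    rw [← hLdef, ← hA₁, ← hA₂, ← hV]
    have h2 := Hid_nonneg' hθ₀ (v - V)
    have h3 : 8 / (δ * L) * A₁ / Gam0 c ≤ ε := by
      refine le_trans (le_of_eq ?_) f1.le
      field_simp
    have h4 : Real.exp (3 * θ * L - k * L * (v - V + 3 * δ / 8)) =
        Real.exp (3 * θ * L) * Real.exp (-(k * L * (v - V + 3 * δ / 8))) := by
      rw [← Real.exp_add]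
      congr 1
    rw [h4]
    have h5 : (1 - ε) * Hid θ₀ (v - V) ≤ Hid θ₀ (v - V) * (1 - 8 / (δ * L) * A₁ / Gam0 c) := by
      rw [mul_comm]
      exact mul_le_mul_of_nonneg_left (by linarith only [h3]) h2
    have h6 : 2 * (∫ x, |h x|) * A₂ / Gam0 c * (Real.exp (3 * θ * L) *
        Real.exp (-(k * L * (v - V + 3 * δ / 8)))) =
        2 * (∫ x, |h x|) * Real.exp (3 * θ * L) * Real.exp (-(k * L * (v - V + 3 * δ / 8))) * A₂ /
          Gam0 c := by ring
    rw [h6]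
    linarith only [h5]
  -- the majorant of the error
  set K := 2 * (∫ x, |h x|) * A₂ / Gam0 c with hK
  have hK0 : 0 ≤ K := by (clear * - hA₂0 hG; positivity)
  set K' := K * Real.exp (3 * θ * L + k * L * V - 3 * k * L * δ / 8) with hK'
  have hkL : 0 < (k - 1 / 2) * L := mul_pos (by linarith only [hδ, hδ4, hk1]) hL
  have hlow2 : ∀ v ∈ Set.Ioi V, (1 - ε) * (Real.cosh (α * L * v) * Hid θ₀ (v - V)) -
      K' * Real.exp (-((k - 1 / 2) * L) * v) ≤
      Real.cosh (α * L * v) * ytil c σ ρ h X d (b - v) := by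
    intro v hv
    have hv0 : 0 ≤ v := hV0.le.trans (le_of_lt hv)
    have h1 := mul_le_mul_of_nonneg_left (hlow v hv) (Real.cosh_pos (α * L * v)).le
    have h2 := cosh_le hα hL hv0
    have h3 : Real.cosh (α * L * v) * (K * Real.exp (3 * θ * L - k * L * (v - V + 3 * δ / 8))) ≤
        K' * Real.exp (-((k - 1 / 2) * L) * v) := by
      calc Real.cosh (α * L * v) * (K * Real.exp (3 * θ * L - k * L * (v - V + 3 * δ / 8))) ≤
          Real.exp (L * v / 2) * (K * Real.exp (3 * θ * L - k * L * (v - V + 3 * δ / 8))) := by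
            (clear * - h2 hA₂0 hG; gcongr)
        _ = K * (Real.exp (L * v / 2) * Real.exp (3 * θ * L - k * L * (v - V + 3 * δ / 8))) := by
            ring
        _ = K * (Real.exp (3 * θ * L + k * L * V - 3 * k * L * δ / 8) *
              Real.exp (-((k - 1 / 2) * L) * v)) := by
            rw [← Real.exp_add, ← Real.exp_add]
            congr 2
            ring
        _ = _ := by rw [hK']; ring
    linarith only [h1, h3]
  -- integrability
  have hHm : Measurable (fun v : ℝ => Hid θ₀ (v - V)) := by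
    have : Antitone (fun v : ℝ => Hid θ₀ (v - V)) := fun x y hxy => Hid_anti hθ₀ (by linarith only [hxy])
    exact this.measurable
  have hch : Continuous (fun v : ℝ => Real.cosh (α * L * v)) :=
    Real.continuous_cosh.comp (by fun_prop)
  have hunion : Set.Ioi V = Set.Ioc V (V + θ₀) ∪ Set.Ioi (V + θ₀) :=
    (Set.Ioc_union_Ioi_eq_Ioi (by linarith only [hθ₀])).symm
  have hdisj : Disjoint (Set.Ioc V (V + θ₀)) (Set.Ioi (V + θ₀)) := by
    rw [Set.disjoint_left]
    intro x hx hx'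
    exact absurd hx.2 (not_le.mpr hx')
  have hi1 : IntegrableOn (fun v : ℝ => Real.cosh (α * L * v) * Hid θ₀ (v - V))
      (Set.Ioc V (V + θ₀)) := by
    refine Measure.integrableOn_of_bounded (M := Real.exp (L * (V + θ₀) / 2) * Hid θ₀ 0)
      (by simp) (hch.measurable.mul hHm).aestronglyMeasurable ?_
    refine (ae_restrict_iff' measurableSet_Ioc).mpr (ae_of_all _ fun v hv => ?_)
    have hv0 : 0 ≤ v := hV0.le.trans hv.1.le
    rw [Real.norm_of_nonneg (mul_nonneg (Real.cosh_pos _).le (Hid_nonneg' hθ₀ _))]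
    have h1 := cosh_le hα hL hv0
    have h2 : Real.exp (L * v / 2) ≤ Real.exp (L * (V + θ₀) / 2) := by
      apply Real.exp_le_exp.mpr
      have := mul_le_mul_of_nonneg_left hv.2 hL.le
      linarith only [this]
    have h3 : Hid θ₀ (v - V) ≤ Hid θ₀ 0 := Hid_anti hθ₀ (by linarith only [hv, hv.1])
    exact mul_le_mul (h1.trans h2) h3 (Hid_nonneg' hθ₀ _) (Real.exp_pos _).le
  have hi2 : IntegrableOn (fun v : ℝ => Real.cosh (α * L * v) * Hid θ₀ (v - V))
      (Set.Ioi (V + θ₀)) := by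
    have h0 : IntegrableOn (fun _ : ℝ => (0 : ℝ)) (Set.Ioi (V + θ₀)) := integrableOn_zero
    refine h0.congr_fun (fun v hv => ?_) measurableSet_Ioi
    have : V + θ₀ < v := hv
    rw [Hid_eq_zero (by linarith only [this]), mul_zero]
  have hi3 : IntegrableOn (fun v : ℝ => Real.cosh (α * L * v) * Hid θ₀ (v - V)) (Set.Ioi V) := by
    rw [hunion]
    exact hi1.union hi2
  have hi4 : IntegrableOn (fun v : ℝ => Real.exp (-((k - 1 / 2) * L) * v)) (Set.Ioi V) :=
    exp_neg_integrableOn_Ioi V hkL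
  have hi5 : IntegrableOn (fun v : ℝ => Real.cosh (α * L * v) * ytil c σ ρ h X d (b - v))
      (Set.Ioi V) := by
    obtain ⟨C, hC⟩ := detL_upper hc0 hρ hh hX1 σ d
    rw [← hLdef] at hC
    have h1 : IntegrableOn (fun v : ℝ => C * Real.exp (2 * L * b) * Real.exp (-(3 / 2 * L) * v))
        (Set.Ioi V) := (exp_neg_integrableOn_Ioi V (by positivity)).const_mul _
    refine h1.mono' ?_ ?_
    · exact (hch.stronglyMeasurable.mul (detL_meas hc0 hρ hh hX1 σ d b)).aestronglyMeasurable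
    · refine (ae_restrict_iff' measurableSet_Ioi).mpr (ae_of_all _ fun v hv => ?_)
      have hv0 : 0 ≤ v := hV0.le.trans (le_of_lt hv)
      rw [norm_mul, Real.norm_of_nonneg (Real.cosh_pos _).le, Real.norm_eq_abs]
      have h2 := cosh_le hα hL hv0
      have h3 := hC (b - v)
      calc Real.cosh (α * L * v) * |ytil c σ ρ h X d (b - v)| ≤
          Real.exp (L * v / 2) * (C * Real.exp (2 * L * (b - v))) :=
            mul_le_mul h2 h3 (abs_nonneg _) (Real.exp_pos _).le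
        _ = C * (Real.exp (L * v / 2) * Real.exp (2 * L * (b - v))) := by ring
        _ = C * (Real.exp (2 * L * b) * Real.exp (-(3 / 2 * L) * v)) := by
            rw [← Real.exp_add, ← Real.exp_add]
            congr 2
            ring
        _ = _ := by ring
  have hfinal := setIntegral_mono_on ((hi3.const_mul (1 - ε)).sub (hi4.const_mul K')) hi5
    measurableSet_Ioi hlow2
  simp only [Pi.sub_apply] at hfinal
  rw [integral_sub (hi3.const_mul (1 - ε)) (hi4.const_mul K'), integral_const_mul,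
    integral_const_mul] at hfinal
  have hv1 : ∫ v in Set.Ioi V, Real.cosh (α * L * v) * Hid θ₀ (v - V) =
      ∫ v in Set.Ioc V (V + θ₀), Real.cosh (α * L * v) * Hid θ₀ (v - V) := by
    rw [hunion, setIntegral_union hdisj measurableSet_Ioi hi1 hi2]
    have : ∫ v in Set.Ioi (V + θ₀), Real.cosh (α * L * v) * Hid θ₀ (v - V) = 0 := by
      rw [setIntegral_congr_fun (g := fun _ => (0 : ℝ)) measurableSet_Ioi]
      · simp
      · intro v hv
        have : V + θ₀ < v := hv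
        simp only
        rw [Hid_eq_zero (by linarith only [this]), mul_zero]
    rw [this, add_zero]
  have hv2 : K' * ∫ v in Set.Ioi V, Real.exp (-((k - 1 / 2) * L) * v) ≤ ε := by
    have h1 := integral_exp_mul_Ioi (a := -((k - 1 / 2) * L)) (by linarith only [hkL]) V
    rw [h1]
    have h2 : -Real.exp (-((k - 1 / 2) * L) * V) / (-((k - 1 / 2) * L)) =
        Real.exp (-((k - 1 / 2) * L) * V) / ((k - 1 / 2) * L) := by
      rw [neg_div_neg_eq]
    rw [h2]
    have h3 : (1 : ℝ) ≤ (k - 1 / 2) * L := by nlinarith only [hθ, hkδ, hδ, hθ₀, hδ4, hk, f4, hk1]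
    have h4 : Real.exp (-((k - 1 / 2) * L) * V) / ((k - 1 / 2) * L) ≤
        Real.exp (-((k - 1 / 2) * L) * V) := div_le_self (Real.exp_pos _).le h3
    have hK'0 : 0 ≤ K' := by (clear * - hA₂0 hG; positivity)
    calc K' * (Real.exp (-((k - 1 / 2) * L) * V) / ((k - 1 / 2) * L)) ≤
        K' * Real.exp (-((k - 1 / 2) * L) * V) := by (clear * - h4 hA₂0 hG; gcongr)
      _ = K * (Real.exp (3 * θ * L + k * L * V - 3 * k * L * δ / 8) *
            Real.exp (-((k - 1 / 2) * L) * V)) := by rw [hK']; ring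
      _ = K * Real.exp (L * (V / 2 + 3 * θ - 3 * (k * δ) / 8)) := by
          rw [← Real.exp_add]
          congr 2
          ring
      _ ≤ K * Real.exp (-L) := by
          have : Real.exp (L * (V / 2 + 3 * θ - 3 * (k * δ) / 8)) ≤ Real.exp (-L) := by
            apply Real.exp_le_exp.mpr
            rw [hkδ]
            have h5 : V / 2 + 3 * θ - 3 * (8 * θ + 6) / 8 ≤ -1 := by linarith only [hδ, hδ4, hV]
            have h6 := mul_le_mul_of_nonneg_left h5 hL.le
            linarith only [h6]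
          (clear * - this hA₂0 hG; gcongr)
      _ ≤ ε := f2.le
  rw [hv1] at hfinal
  linarith only [hfinal, hv2]

end Pool.Agent.MP0016c7.Rz
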