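import Mathlib
import Pool.Agent.Lib.MP_0016c7_nt.Theta
import Pool.Agent.Lib.MP_0016c7_nt.Rz.Defs
import Pool.Agent.Lib.MP_0016c7_nt.Rz.DefsC
import Pool.Agent.Lib.MP_0016c7_nt.Rz.DefsF
import Pool.Agent.Lib.MP_0016c7_nt.Rz.DefsE

set_option autoImplicit false

open Finset MeasureTheory Filter Topology
open scoped Real ContDiff

namespace Pool.Agent.MP0016c7.Rz

/-- First order approximation `f = 1 + g + O(ε²)`, `g = O(ε)`. -/
private def EApx (ε K : ℝ) (f g : ℂ) : Prop := ‖g‖ ≤ K * ε ∧ ‖f - 1 - g‖ ≤ K * ε ^ 2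

private lemma EApx.mul {ε K K' : ℝ} {f g f' g' : ℂ} (h0 : 0 ≤ ε) (h1 : ε ≤ 1) (hK : 0 ≤ K)
    (hK' : 0 ≤ K') (h : EApx ε K f g) (h' : EApx ε K' f' g') :
    EApx ε (K + K' + 4 * K * K') (f * f') (g + g') := by
  obtain ⟨hg, hr⟩ := h
  obtain ⟨hg', hr'⟩ := h'
  have hKK : 0 ≤ K * K' := mul_nonneg hK hK'
  have he2 : ε ^ 2 ≤ ε := by nlinarith only [h0, h1]
  refine ⟨(norm_add_le _ _).trans ?_, ?_⟩
  · nlinarith only [hg, hg', hKK, h0, mul_nonneg hKK h0]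
  · have e : f * f' - 1 - (g + g') = g * g' + (f - 1 - g) + (f' - 1 - g') + g * (f' - 1 - g')
        + g' * (f - 1 - g) + (f - 1 - g) * (f' - 1 - g') := by ring
    rw [e]
    have hb1 : ‖g * g'‖ ≤ K * K' * ε ^ 2 := by
      rw [norm_mul]
      calc ‖g‖ * ‖g'‖ ≤ (K * ε) * (K' * ε) := mul_le_mul hg hg' (norm_nonneg _) (by positivity)
        _ = K * K' * ε ^ 2 := by ring
    have hb2 : ‖g * (f' - 1 - g')‖ ≤ K * K' * ε ^ 2 := by
      rw [norm_mul]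
      calc ‖g‖ * ‖f' - 1 - g'‖ ≤ (K * ε) * (K' * ε ^ 2) :=
            mul_le_mul hg hr' (norm_nonneg _) (by positivity)
        _ = K * K' * ε ^ 2 * ε := by ring
        _ ≤ K * K' * ε ^ 2 := by
          have : 0 ≤ K * K' * ε ^ 2 := by positivity
          nlinarith only [h1, this]
    have hb3 : ‖g' * (f - 1 - g)‖ ≤ K * K' * ε ^ 2 := by
      rw [norm_mul]
      calc ‖g'‖ * ‖f - 1 - g‖ ≤ (K' * ε) * (K * ε ^ 2) :=
            mul_le_mul hg' hr (norm_nonneg _) (by positivity)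
        _ = K * K' * ε ^ 2 * ε := by ring
        _ ≤ K * K' * ε ^ 2 := by
          have : 0 ≤ K * K' * ε ^ 2 := by positivity
          nlinarith only [h1, this]
    have hb4 : ‖(f - 1 - g) * (f' - 1 - g')‖ ≤ K * K' * ε ^ 2 := by
      rw [norm_mul]
      calc ‖f - 1 - g‖ * ‖f' - 1 - g'‖ ≤ (K * ε ^ 2) * (K' * ε ^ 2) :=
            mul_le_mul hr hr' (norm_nonneg _) (by positivity)
        _ = K * K' * ε ^ 2 * ε ^ 2 := by ring
        _ ≤ K * K' * ε ^ 2 := by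
          have : 0 ≤ K * K' * ε ^ 2 := by positivity
          nlinarith only [h1, this, he2]
    have t1 := norm_add_le (g * g' + (f - 1 - g) + (f' - 1 - g') + g * (f' - 1 - g')
        + g' * (f - 1 - g)) ((f - 1 - g) * (f' - 1 - g'))
    have t2 := norm_add_le (g * g' + (f - 1 - g) + (f' - 1 - g') + g * (f' - 1 - g'))
        (g' * (f - 1 - g))
    have t3 := norm_add_le (g * g' + (f - 1 - g) + (f' - 1 - g')) (g * (f' - 1 - g'))
    have t4 := norm_add_le (g * g' + (f - 1 - g)) (f' - 1 - g')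
    have t5 := norm_add_le (g * g') (f - 1 - g)
    nlinarith only [hr, hr', hb1, hb2, hb3, hb4, t1, t2, t3, t4, t5]

private lemma eapx_num {ε : ℝ} {a : ℂ} (h : ‖a‖ ≤ ε) : EApx ε 1 (1 - a) (-a) := by
  refine ⟨by simpa using h, ?_⟩
  have : (1 - a) - 1 - (-a) = 0 := by ring
  rw [this]
  simp only [norm_zero]
  positivity

private lemma lower_fac {ε : ℝ} {a : ℂ} (h : ‖a‖ ≤ ε) (h1 : ε ≤ 13 / 25) :
    12 / 25 ≤ ‖1 - a‖ := by
  have := norm_sub_norm_le (1 : ℂ) a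
  rw [norm_one] at this
  linarith only [h, h1, this]

private lemma upper_fac {ε : ℝ} {a : ℂ} (h : ‖a‖ ≤ ε) (h1 : ε ≤ 13 / 25) :
    ‖1 - a‖ ≤ 38 / 25 := by
  have := norm_sub_le (1 : ℂ) a
  rw [norm_one] at this
  linarith only [h, h1, this]

private lemma fac_ne {ε : ℝ} {a : ℂ} (h : ‖a‖ ≤ ε) (h1 : ε ≤ 13 / 25) : 1 - a ≠ 0 := by
  intro h0
  have := lower_fac h h1
  rw [h0, norm_zero] at this
  norm_num at this

private lemma eapx_den {ε : ℝ} {a : ℂ} (h0 : 0 ≤ ε) (h : ‖a‖ ≤ ε) (h1 : ε ≤ 13 / 25) :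
    EApx ε 3 (1 / (1 - a)) a := by
  refine ⟨by linarith only [h0, h], ?_⟩
  have hne := fac_ne h h1
  have : 1 / (1 - a) - 1 - a = a ^ 2 / (1 - a) := by
    field_simp
    ring
  rw [this, norm_div, norm_pow]
  rw [div_le_iff₀ (by have := lower_fac h h1; linarith)]
  have hl := lower_fac h h1
  have ha : ‖a‖ ^ 2 ≤ ε ^ 2 := by
    apply pow_le_pow_left₀ (norm_nonneg _) h
  nlinarith only [ha, hl, sq_nonneg ε]

private lemma eapx_num4 {ε : ℝ} {a b c d : ℂ} (h0 : 0 ≤ ε) (h1 : ε ≤ 13 / 25)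
    (ha : ‖a‖ ≤ ε) (hb : ‖b‖ ≤ ε) (hc : ‖c‖ ≤ ε) (hd : ‖d‖ ≤ ε) :
    EApx ε 156 ((1 - a) * (1 - b) * (1 - c) * (1 - d)) (-a + -b + -c + -d) := by
  have hε1 : ε ≤ 1 := by linarith
  have h2 := EApx.mul h0 hε1 zero_le_one zero_le_one (eapx_num ha) (eapx_num hb)
  have h3 := EApx.mul h0 hε1 (by norm_num) zero_le_one h2 (eapx_num hc)
  have h4 := EApx.mul h0 hε1 (by norm_num) zero_le_one h3 (eapx_num hd)
  norm_num at h4 ⊢
  exact h4

private lemma eapx_den4 {ε : ℝ} {a b c d : ℂ} (h0 : 0 ≤ ε) (h1 : ε ≤ 13 / 25)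
    (ha : ‖a‖ ≤ ε) (hb : ‖b‖ ≤ ε) (hc : ‖c‖ ≤ ε) (hd : ‖d‖ ≤ ε) :
    EApx ε 7140 (1 / ((1 - a) * (1 - b) * (1 - c) * (1 - d))) (a + b + c + d) := by
  have hε1 : ε ≤ 1 := by linarith
  have h2 := EApx.mul h0 hε1 (by norm_num) (by norm_num) (eapx_den h0 ha h1) (eapx_den h0 hb h1)
  have h3 := EApx.mul h0 hε1 (by norm_num) (by norm_num) h2 (eapx_den h0 hc h1)
  have h4 := EApx.mul h0 hε1 (by norm_num) (by norm_num) h3 (eapx_den h0 hd h1)
  have e : 1 / (1 - a) * (1 / (1 - b)) * (1 / (1 - c)) * (1 / (1 - d)) =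
      1 / ((1 - a) * (1 - b) * (1 - c) * (1 - d)) := by
    rw [one_div_mul_one_div, one_div_mul_one_div, one_div_mul_one_div]
  rw [e] at h4
  norm_num at h4 ⊢
  exact h4

private lemma eapx_den2 {ε : ℝ} {a b : ℂ} (h0 : 0 ≤ ε) (h1 : ε ≤ 13 / 25)
    (ha : ‖a‖ ≤ ε) (hb : ‖b‖ ≤ ε) :
    EApx ε 42 (1 / ((1 - a) * (1 - b))) (a + b) := by
  have hε1 : ε ≤ 1 := by linarith
  have h2 := EApx.mul h0 hε1 (by norm_num) (by norm_num) (eapx_den h0 ha h1) (eapx_den h0 hb h1)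
  have e : 1 / (1 - a) * (1 / (1 - b)) = 1 / ((1 - a) * (1 - b)) := by
    rw [one_div_mul_one_div]
  rw [e] at h2
  norm_num at h2 ⊢
  exact h2

private lemma norm_mul_div_le {T P : ℝ} (hP : 0 < P) {a b q : ℂ} (hq : ‖q‖ = P) (ha : ‖a‖ ≤ T)
    (hb : ‖b‖ ≤ T) : ‖a * b / q‖ ≤ T ^ 2 / P := by
  rw [norm_div, norm_mul, hq]
  have hT : 0 ≤ T := (norm_nonneg _).trans ha
  rw [div_le_div_iff_of_pos_right hP, sq]
  exact mul_le_mul ha hb (norm_nonneg _) hT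

private lemma locZx_apx : ∃ K : ℝ, 0 ≤ K ∧ ∀ (T P : ℝ) (q x y x' y' u v : ℂ), 0 < P → ‖q‖ = P →
    T ^ 2 / P ≤ 13 / 25 → ‖x‖ ≤ T → ‖y‖ ≤ T → ‖x'‖ ≤ T → ‖y'‖ ≤ T → ‖u‖ ≤ T → ‖v‖ ≤ T →
    EApx (T ^ 2 / P) K (locZx q x y x' y' u v)
      ((x ^ 2 + x * x' + x' ^ 2 - (x + x') * (y + y') + y * y' +
        (u - v) * (x + x' - y - y')) / q) := by
  refine ⟨156 + 7140 + 4 * 156 * 7140 + (156 + 7140 + 4 * 156 * 7140) +
    4 * (156 + 7140 + 4 * 156 * 7140) * (156 + 7140 + 4 * 156 * 7140), by norm_num, ?_⟩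
  intro T P q x y x' y' u v hP hq hε hx hy hx' hy' hu hv
  have h0 : 0 ≤ T ^ 2 / P := by positivity
  have hε1 : T ^ 2 / P ≤ 1 := by linarith
  have N1 := eapx_num4 h0 hε (norm_mul_div_le hP hq hx hy) (norm_mul_div_le hP hq hx hy')
    (norm_mul_div_le hP hq hx' hy) (norm_mul_div_le hP hq hx' hy')
  have D1 := eapx_den4 h0 hε (norm_mul_div_le hP hq hx hx) (norm_mul_div_le hP hq hx' hx')
    (norm_mul_div_le hP hq hx hx') (norm_mul_div_le hP hq hy hy')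
  have N2 := eapx_num4 h0 hε (norm_mul_div_le hP hq hy hu) (norm_mul_div_le hP hq hy' hu)
    (norm_mul_div_le hP hq hx hv) (norm_mul_div_le hP hq hx' hv)
  have D2 := eapx_den4 h0 hε (norm_mul_div_le hP hq hx hu) (norm_mul_div_le hP hq hx' hu)
    (norm_mul_div_le hP hq hy hv) (norm_mul_div_le hP hq hy' hv)
  have M1 := EApx.mul h0 hε1 (by norm_num) (by norm_num) N1 D1
  have M2 := EApx.mul h0 hε1 (by norm_num) (by norm_num) N2 D2
  have M := EApx.mul h0 hε1 (by norm_num) (by norm_num) M1 M2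
  have e1 : (locZx q x y x' y' u v) =
    (((1 - x * y / q) * (1 - x * y' / q) * (1 - x' * y / q) * (1 - x' * y' / q)) *
    (1 / ((1 - x * x / q) * (1 - x' * x' / q) * (1 - x * x' / q) * (1 - y * y' / q)))) *
    (((1 - y * u / q) * (1 - y' * u / q) * (1 - x * v / q) * (1 - x' * v / q)) *
    (1 / ((1 - x * u / q) * (1 - x' * u / q) * (1 - y * v / q) * (1 - y' * v / q)))) := by
    unfold locZx
    rw [mul_one_div, mul_one_div, sq x, sq x']
    ring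
  rw [e1]
  convert M using 1
  ring

private lemma locOx_apx : ∃ K : ℝ, 0 ≤ K ∧ ∀ (T P : ℝ) (q x y x' y' u v : ℂ), 0 < P → ‖q‖ = P →
    1 ≤ T → T ^ 2 / P ≤ 13 / 25 → ‖x‖ ≤ T → ‖y‖ ≤ T → ‖x'‖ ≤ T → ‖y'‖ ≤ T → ‖u‖ ≤ T → ‖v‖ ≤ T →
    ‖locOx q x y x' y' u v - 1 - ((x ^ 2 + x * x' + x' ^ 2 - (x + x') * (y + y') + y * y' +
        (u - v) * (x + x' - y - y')) / q)‖ ≤ K * (T ^ 2 / P) ^ 2 := by
  refine ⟨6 + 1 + 4 * 6 * 1 + 42 + 4 * (6 + 1 + 4 * 6 * 1) * 42 + 8 * 84 + 8 * 85, by norm_num, ?_⟩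
  intro T P q x y x' y' u v hP hq hT hε hx hy hx' hy' hu hv
  have h0 : 0 ≤ T ^ 2 / P := by positivity
  have hε1 : T ^ 2 / P ≤ 1 := by linarith
  set ε := T ^ 2 / P with hεd
  have hT0 : 0 < T := by linarith
  have hq0 : q ≠ 0 := by
    intro h
    rw [h, norm_zero] at hq
    linarith
  have D := eapx_den2 h0 hε (norm_mul_div_le hP hq hx hx) (norm_mul_div_le hP hq hx' hx')
  have hq1 : ‖1 / q‖ ≤ ε := by
    rw [norm_div, norm_one, hq, hεd]
    exact div_le_div_of_nonneg_right (by nlinarith only [hT]) hP.le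
  have hQ := eapx_num hq1
  -- the factor `1 + e₂/q + e₄/q²`
  have hA : EApx ε 6 (1 + (x * x' + y * y' - (x + x') * (y + y')) / q +
      x * x' * y * y' / q ^ 2) ((x * x' + y * y' - (x + x') * (y + y')) / q) := by
    constructor
    · have : (x * x' + y * y' - (x + x') * (y + y')) / q =
          x * x' / q + y * y' / q - x * y / q - x * y' / q - x' * y / q - x' * y' / q := by ring
      rw [this]
      have a1 := norm_mul_div_le hP hq hx hx'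
      have a2 := norm_mul_div_le hP hq hy hy'
      have a3 := norm_mul_div_le hP hq hx hy
      have a4 := norm_mul_div_le hP hq hx hy'
      have a5 := norm_mul_div_le hP hq hx' hy
      have a6 := norm_mul_div_le hP hq hx' hy'
      have t1 := norm_sub_le (x * x' / q + y * y' / q - x * y / q - x * y' / q - x' * y / q)
        (x' * y' / q)
      have t2 := norm_sub_le (x * x' / q + y * y' / q - x * y / q - x * y' / q) (x' * y / q)
      have t3 := norm_sub_le (x * x' / q + y * y' / q - x * y / q) (x * y' / q)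
      have t4 := norm_sub_le (x * x' / q + y * y' / q) (x * y / q)
      have t5 := norm_add_le (x * x' / q) (y * y' / q)
      linarith only [a1, a2, a3, a4, a5, a6, t1, t2, t3, t4, t5]
    · have : 1 + (x * x' + y * y' - (x + x') * (y + y')) / q + x * x' * y * y' / q ^ 2 - 1 -
          (x * x' + y * y' - (x + x') * (y + y')) / q = (x * x' / q) * (y * y' / q) := by
        field_simp
        ring
      rw [this, norm_mul]
      have a1 := norm_mul_div_le hP hq hx hx'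
      have a2 := norm_mul_div_le hP hq hy hy'
      have := mul_le_mul a1 a2 (norm_nonneg _) h0
      nlinarith only [this, sq_nonneg ε]
  have M1 := EApx.mul h0 hε1 (by norm_num) (by norm_num) hA hQ
  have M2 := EApx.mul h0 hε1 (by norm_num) (by norm_num) M1 D
  -- the odd part
  set Dd := 1 / ((1 - x * x / q) * (1 - x' * x' / q)) with hDd
  obtain ⟨hDg, hDr⟩ := D
  have hε2 : ε ^ 2 ≤ ε := by nlinarith only [h0, hε]
  have hD1 : ‖Dd - 1‖ ≤ 84 * ε := by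
    have t := norm_add_le (Dd - 1 - (x * x / q + x' * x' / q)) (x * x / q + x' * x' / q)
    have e : Dd - 1 - (x * x / q + x' * x' / q) + (x * x / q + x' * x' / q) = Dd - 1 := by ring
    rw [e] at t
    linarith only [hDg, hDr, hε2, t]
  have hD2 : ‖Dd‖ ≤ 85 := by
    have t := norm_add_le (Dd - 1) 1
    have e : Dd - 1 + 1 = Dd := by ring
    rw [e, norm_one] at t
    linarith
  have huv : ‖u - v‖ ≤ 2 * T := by
    have := norm_sub_le u v
    linarith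
  have hE1 : ‖x + x' - y - y'‖ ≤ 4 * T := by
    have t1 := norm_sub_le (x + x' - y) y'
    have t2 := norm_sub_le (x + x') y
    have t3 := norm_add_le x x'
    linarith
  have hE3 : ‖(x + x') * (y * y') - x * x' * (y + y')‖ ≤ 4 * T ^ 3 := by
    have t1 := norm_sub_le ((x + x') * (y * y')) (x * x' * (y + y'))
    have t2 : ‖(x + x') * (y * y')‖ ≤ (2 * T) * (T * T) := by
      rw [norm_mul, norm_mul]
      have : ‖x + x'‖ ≤ 2 * T := (norm_add_le _ _).trans (by linarith)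
      exact mul_le_mul this (mul_le_mul hy hy' (norm_nonneg _) hT0.le) (by positivity)
        (by positivity)
    have t3 : ‖x * x' * (y + y')‖ ≤ (T * T) * (2 * T) := by
      rw [norm_mul, norm_mul]
      have : ‖y + y'‖ ≤ 2 * T := (norm_add_le _ _).trans (by linarith)
      exact mul_le_mul (mul_le_mul hx hx' (norm_nonneg _) hT0.le) this (norm_nonneg _)
        (by positivity)
    nlinarith only [t1, t2, t3]
  have hb1 : ‖(u - v) * (x + x' - y - y') / q * (Dd - 1)‖ ≤ 8 * ε * (84 * ε) := by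
    rw [norm_mul]
    refine mul_le_mul ?_ hD1 (norm_nonneg _) (by positivity)
    rw [norm_div, norm_mul, hq, hεd]
    have := mul_le_mul huv hE1 (norm_nonneg _) (by positivity)
    rw [div_le_iff₀ hP]
    have e : 8 * (T ^ 2 / P) * P = 8 * T ^ 2 := by field_simp
    rw [e]
    nlinarith only [this]
  have hb2 : ‖(u - v) * ((x + x') * (y * y') - x * x' * (y + y')) / q ^ 2 * Dd‖ ≤
      8 * ε ^ 2 * 85 := by
    rw [norm_mul]
    refine mul_le_mul ?_ hD2 (norm_nonneg _) (by positivity)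
    rw [norm_div, norm_mul, norm_pow, hq, hεd]
    have := mul_le_mul huv hE3 (norm_nonneg _) (by positivity)
    rw [div_le_iff₀ (by positivity)]
    have e : 8 * (T ^ 2 / P) ^ 2 * P ^ 2 = 8 * T ^ 4 := by field_simp
    rw [e]
    nlinarith only [this]
  have key : locOx q x y x' y' u v - 1 - ((x ^ 2 + x * x' + x' ^ 2 - (x + x') * (y + y') + y * y' +
        (u - v) * (x + x' - y - y')) / q) =
      ((1 + (x * x' + y * y' - (x + x') * (y + y')) / q + x * x' * y * y' / q ^ 2) * (1 - 1 / q) *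
        Dd - 1 - ((x * x' + y * y' - (x + x') * (y + y')) / q + -(1 / q) +
          (x * x / q + x' * x' / q))) +
      (u - v) * (x + x' - y - y') / q * (Dd - 1) +
      (u - v) * ((x + x') * (y * y') - x * x' * (y + y')) / q ^ 2 * Dd := by
    unfold locOx
    have e1 : ∀ A : ℂ, A / ((1 - x ^ 2 / q) * (1 - x' ^ 2 / q)) = A * Dd := by
      intro A
      rw [hDd, mul_one_div, sq x, sq x']
    rw [e1, e1]
    ring
  rw [key]
  have t1 := norm_add_le (((1 + (x * x' + y * y' - (x + x') * (y + y')) / q +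
        x * x' * y * y' / q ^ 2) * (1 - 1 / q) *
        Dd - 1 - ((x * x' + y * y' - (x + x') * (y + y')) / q + -(1 / q) +
          (x * x / q + x' * x' / q))) +
      (u - v) * (x + x' - y - y') / q * (Dd - 1))
      ((u - v) * ((x + x') * (y * y') - x * x' * (y + y')) / q ^ 2 * Dd)
  have t2 := norm_add_le ((1 + (x * x' + y * y' - (x + x') * (y + y')) / q +
        x * x' * y * y' / q ^ 2) * (1 - 1 / q) *
        Dd - 1 - ((x * x' + y * y' - (x + x') * (y + y')) / q + -(1 / q) +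
          (x * x / q + x' * x' / q)))
      ((u - v) * (x + x' - y - y') / q * (Dd - 1))
  have t3 := M2.2
  nlinarith only [hb1, hb2, t1, t2, t3]

private lemma locZx_bounds {T P : ℝ} {q x y x' y' u v : ℂ} (hP : 0 < P) (hq : ‖q‖ = P)
    (hε : T ^ 2 / P ≤ 13 / 25) (hx : ‖x‖ ≤ T) (hy : ‖y‖ ≤ T) (hx' : ‖x'‖ ≤ T) (hy' : ‖y'‖ ≤ T)
    (hu : ‖u‖ ≤ T) (hv : ‖v‖ ≤ T) :
    ((12 / 25 : ℝ) ^ 4 / (38 / 25) ^ 4) * ((12 / 25) ^ 4 / (38 / 25) ^ 4) ≤
      ‖locZx q x y x' y' u v‖ ∧ ‖locZx q x y x' y' u v‖ ≤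
        ((38 / 25 : ℝ) ^ 4 / (12 / 25) ^ 4) * ((38 / 25) ^ 4 / (12 / 25) ^ 4) := by
  have lo4 : ∀ a b c d : ℂ, ‖a‖ ≤ T ^ 2 / P → ‖b‖ ≤ T ^ 2 / P → ‖c‖ ≤ T ^ 2 / P →
      ‖d‖ ≤ T ^ 2 / P → (12 / 25 : ℝ) ^ 4 ≤ ‖(1 - a) * (1 - b) * (1 - c) * (1 - d)‖ ∧
        ‖(1 - a) * (1 - b) * (1 - c) * (1 - d)‖ ≤ (38 / 25 : ℝ) ^ 4 := by
    intro a b c d ha hb hc hd
    rw [norm_mul, norm_mul, norm_mul]
    have e1 : (12 / 25 : ℝ) ^ 4 = 12 / 25 * (12 / 25) * (12 / 25) * (12 / 25) := by ring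
    have e2 : (38 / 25 : ℝ) ^ 4 = 38 / 25 * (38 / 25) * (38 / 25) * (38 / 25) := by ring
    rw [e1, e2]
    constructor
    · have la := lower_fac ha hε
      have lb := lower_fac hb hε
      have lc := lower_fac hc hε
      have ld := lower_fac hd hε
      (clear * - la lb lc ld; gcongr)
    · have la := upper_fac ha hε
      have lb := upper_fac hb hε
      have lc := upper_fac hc hε
      have ld := upper_fac hd hε
      (clear * - la lb lc ld; gcongr)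
  obtain ⟨n1, N1⟩ := lo4 _ _ _ _ (norm_mul_div_le hP hq hx hy) (norm_mul_div_le hP hq hx hy')
    (norm_mul_div_le hP hq hx' hy) (norm_mul_div_le hP hq hx' hy')
  obtain ⟨d1, D1⟩ := lo4 _ _ _ _ (norm_mul_div_le hP hq hx hx) (norm_mul_div_le hP hq hx' hx')
    (norm_mul_div_le hP hq hx hx') (norm_mul_div_le hP hq hy hy')
  obtain ⟨n2, N2⟩ := lo4 _ _ _ _ (norm_mul_div_le hP hq hy hu) (norm_mul_div_le hP hq hy' hu)
    (norm_mul_div_le hP hq hx hv) (norm_mul_div_le hP hq hx' hv)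
  obtain ⟨d2, D2⟩ := lo4 _ _ _ _ (norm_mul_div_le hP hq hx hu) (norm_mul_div_le hP hq hx' hu)
    (norm_mul_div_le hP hq hy hv) (norm_mul_div_le hP hq hy' hv)
  have e1 : ‖locZx q x y x' y' u v‖ =
    (‖(1 - x * y / q) * (1 - x * y' / q) * (1 - x' * y / q) * (1 - x' * y' / q)‖ /
    ‖(1 - x * x / q) * (1 - x' * x' / q) * (1 - x * x' / q) * (1 - y * y' / q)‖) *
    (‖(1 - y * u / q) * (1 - y' * u / q) * (1 - x * v / q) * (1 - x' * v / q)‖ /
    ‖(1 - x * u / q) * (1 - x' * u / q) * (1 - y * v / q) * (1 - y' * v / q)‖) := by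
    rw [← norm_div, ← norm_div, ← norm_mul]
    congr 1
    unfold locZx
    rw [sq x, sq x']
    ring
  rw [e1]
  constructor
  · refine mul_le_mul ?_ ?_ (by positivity) (by (clear * - n1 d1; positivity))
    · exact div_le_div₀ (norm_nonneg _) n1 (lt_of_lt_of_le (by norm_num) d1) D1
    · exact div_le_div₀ (norm_nonneg _) n2 (lt_of_lt_of_le (by norm_num) d2) D2
  · refine mul_le_mul ?_ ?_ (by (clear * - n2 d2; positivity)) (by positivity)
    · exact div_le_div₀ (by norm_num) N1 (by norm_num) d1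
    · exact div_le_div₀ (by norm_num) N2 (by norm_num) d2

private lemma norm_pow_le {p : ℕ} (hp : p.Prime) {s : ℂ} (hs : |s.re| ≤ 1 / 50) :
    ‖(p : ℂ) ^ s‖ ≤ (p : ℝ) ^ (1 / 50 : ℝ) := by
  rw [Complex.norm_natCast_cpow_of_pos hp.pos]
  exact Real.rpow_le_rpow_of_exponent_le (by exact_mod_cast hp.one_le) ((le_abs_self _).trans hs)

private lemma eps_eq {p : ℕ} (hp : p.Prime) :
    ((p : ℝ) ^ (1 / 50 : ℝ)) ^ 2 / p = (p : ℝ) ^ (-(24 / 25) : ℝ) := by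
  have hp0 : (0 : ℝ) < p := by exact_mod_cast hp.pos
  rw [← Real.rpow_natCast, ← Real.rpow_mul hp0.le]
  nth_rewrite 2 [← Real.rpow_one (p : ℝ)]
  rw [← Real.rpow_sub hp0]
  norm_num

private lemma eps_le {p : ℕ} (hp : p.Prime) :
    ((p : ℝ) ^ (1 / 50 : ℝ)) ^ 2 / p ≤ 13 / 25 := by
  rw [eps_eq hp]
  have h2 : (2 : ℝ) ≤ p := by exact_mod_cast hp.two_le
  calc (p : ℝ) ^ (-(24 / 25) : ℝ) ≤ (2 : ℝ) ^ (-(24 / 25) : ℝ) :=
        Real.rpow_le_rpow_of_nonpos (by norm_num) h2 (by norm_num)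
    _ ≤ 13 / 25 := by
      have h1 : ((2 : ℝ) ^ (-(24 / 25) : ℝ)) ^ 25 = 1 / 2 ^ 24 := by
        rw [← Real.rpow_natCast, ← Real.rpow_mul (by norm_num)]
        norm_num
      by_contra hc
      push Not at hc
      have := pow_lt_pow_left₀ hc (by norm_num) (n := 25) (by norm_num)
      rw [h1] at this
      norm_num at this

theorem loc_crude : ∃ C c : ℝ, 0 < c ∧ ∀ p : ℕ, p.Prime → ∀ s₁ w₁ s₂ w₂ z : ℂ,
    |s₁.re| ≤ 1 / 50 → |w₁.re| ≤ 1 / 50 → |s₂.re| ≤ 1 / 50 → |w₂.re| ≤ 1 / 50 → |z.re| ≤ 1 / 50 →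
    c ≤ ‖locZ p s₁ w₁ s₂ w₂ z‖ ∧ ‖locZ p s₁ w₁ s₂ w₂ z‖ ≤ C ∧
    (3 ≤ p → ‖locO p s₁ w₁ s₂ w₂ z - locZ p s₁ w₁ s₂ w₂ z‖ ≤ C * (p : ℝ) ^ (-(3 / 2) : ℝ)) := by
  obtain ⟨K₁, hK₁, h₁⟩ := locZx_apx
  obtain ⟨K₂, hK₂, h₂⟩ := locOx_apx
  refine ⟨max (((38 / 25 : ℝ) ^ 4 / (12 / 25) ^ 4) * ((38 / 25) ^ 4 / (12 / 25) ^ 4)) (K₁ + K₂),
    ((12 / 25 : ℝ) ^ 4 / (38 / 25) ^ 4) * ((12 / 25) ^ 4 / (38 / 25) ^ 4), by norm_num, ?_⟩
  intro p hp s₁ w₁ s₂ w₂ z hs₁ hw₁ hs₂ hw₂ hz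
  have hp0 : (0 : ℝ) < p := by exact_mod_cast hp.pos
  have hp1 : (1 : ℝ) ≤ p := by exact_mod_cast hp.one_le
  have hq : ‖(p : ℂ)‖ = (p : ℝ) := by simp
  have n1 := norm_pow_le hp (s := -s₁) (by simpa using hs₁)
  have n2 := norm_pow_le hp (s := -w₁) (by simpa using hw₁)
  have n3 := norm_pow_le hp (s := -s₂) (by simpa using hs₂)
  have n4 := norm_pow_le hp (s := -w₂) (by simpa using hw₂)
  have n5 := norm_pow_le hp (s := z) hz
  have n6 := norm_pow_le hp (s := -z) (by simpa using hz)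
  have hε := eps_le hp
  obtain ⟨b1, b2⟩ := locZx_bounds hp0 hq hε n1 n2 n3 n4 n5 n6
  refine ⟨b1, b2.trans (le_max_left _ _), fun _ => ?_⟩
  have a1 := (h₁ _ _ _ _ _ _ _ _ _ hp0 hq hε n1 n2 n3 n4 n5 n6).2
  have a2 := h₂ _ _ _ _ _ _ _ _ _ hp0 hq (Real.one_le_rpow hp1 (by norm_num)) hε n1 n2 n3 n4 n5 n6
  have hee : (((p : ℝ) ^ (1 / 50 : ℝ)) ^ 2 / p) ^ 2 ≤ (p : ℝ) ^ (-(3 / 2) : ℝ) := by
    rw [eps_eq hp, ← Real.rpow_natCast, ← Real.rpow_mul hp0.le]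
    exact Real.rpow_le_rpow_of_exponent_le hp1 (by norm_num)
  set ε := ((p : ℝ) ^ (1 / 50 : ℝ)) ^ 2 / p with hεd
  unfold locO locZ
  set g : ℂ := (((p : ℂ) ^ (-s₁)) ^ 2 + (p : ℂ) ^ (-s₁) * (p : ℂ) ^ (-s₂) + ((p : ℂ) ^ (-s₂)) ^ 2 -
    ((p : ℂ) ^ (-s₁) + (p : ℂ) ^ (-s₂)) * ((p : ℂ) ^ (-w₁) + (p : ℂ) ^ (-w₂)) +
    (p : ℂ) ^ (-w₁) * (p : ℂ) ^ (-w₂) + ((p : ℂ) ^ z - (p : ℂ) ^ (-z)) *
    ((p : ℂ) ^ (-s₁) + (p : ℂ) ^ (-s₂) - (p : ℂ) ^ (-w₁) - (p : ℂ) ^ (-w₂))) / p with hg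
  set O := locOx p ((p : ℂ) ^ (-s₁)) ((p : ℂ) ^ (-w₁)) ((p : ℂ) ^ (-s₂)) ((p : ℂ) ^ (-w₂))
    ((p : ℂ) ^ z) ((p : ℂ) ^ (-z)) with hO
  set Z := locZx p ((p : ℂ) ^ (-s₁)) ((p : ℂ) ^ (-w₁)) ((p : ℂ) ^ (-s₂)) ((p : ℂ) ^ (-w₂))
    ((p : ℂ) ^ z) ((p : ℂ) ^ (-z)) with hZ
  have e : O - Z = (O - 1 - g) - (Z - 1 - g) := by ring
  rw [e]
  calc ‖(O - 1 - g) - (Z - 1 - g)‖ ≤ ‖O - 1 - g‖ + ‖Z - 1 - g‖ := norm_sub_le _ _
    _ ≤ (K₁ + K₂) * ε ^ 2 := by linarith only [a2, a1]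
    _ ≤ (K₁ + K₂) * (p : ℝ) ^ (-(3 / 2) : ℝ) := by
      exact mul_le_mul_of_nonneg_left hee (by linarith only [hK₁, hK₂])
    _ ≤ _ := by
      apply mul_le_mul_of_nonneg_right (le_max_right _ _)
      positivity

theorem loc_diag (p : ℕ) (hp : p.Prime) (s₁ s₂ z : ℂ)
    (h1 : |s₁.re| ≤ 1 / 50) (h2 : |s₂.re| ≤ 1 / 50) (hz : |z.re| ≤ 1 / 50) :
    locZ p s₁ s₁ s₂ s₂ z = 1 ∧ (3 ≤ p → locO p s₁ s₁ s₂ s₂ z = 1) := by
  have hp0 : (0 : ℝ) < p := by exact_mod_cast hp.pos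
  have hq : ‖(p : ℂ)‖ = (p : ℝ) := by simp
  have n1 := norm_pow_le hp (s := -s₁) (by simpa using h1)
  have n3 := norm_pow_le hp (s := -s₂) (by simpa using h2)
  have n5 := norm_pow_le hp (s := z) hz
  have n6 := norm_pow_le hp (s := -z) (by simpa using hz)
  have hε := eps_le hp
  have hq0 : (p : ℂ) ≠ 0 := by
    exact_mod_cast hp.ne_zero
  unfold locZ locO
  set x := (p : ℂ) ^ (-s₁) with hx
  set x' := (p : ℂ) ^ (-s₂) with hx'
  set u := (p : ℂ) ^ z with hu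
  set v := (p : ℂ) ^ (-z) with hv
  have f1 := fac_ne (norm_mul_div_le hp0 hq n1 n1) hε
  have f2 := fac_ne (norm_mul_div_le hp0 hq n1 n3) hε
  have f3 := fac_ne (norm_mul_div_le hp0 hq n3 n3) hε
  have f4 := fac_ne (norm_mul_div_le hp0 hq n1 n5) hε
  have f5 := fac_ne (norm_mul_div_le hp0 hq n1 n6) hε
  have f6 := fac_ne (norm_mul_div_le hp0 hq n3 n5) hε
  have f7 := fac_ne (norm_mul_div_le hp0 hq n3 n6) hε
  constructor
  · unfold locZx
    have e1 : ((1 - x * x / (p : ℂ)) * (1 - x * x' / p) * (1 - x' * x / p) * (1 - x' * x' / p)) =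
      ((1 - x ^ 2 / p) * (1 - x' ^ 2 / p) * (1 - x * x' / p) * (1 - x * x' / p)) := by ring
    have e2 : ((1 - x * u / (p : ℂ)) * (1 - x' * u / p) * (1 - x * v / p) * (1 - x' * v / p)) ≠ 0 :=
      mul_ne_zero (mul_ne_zero (mul_ne_zero f4 f6) f5) f7
    have e3 : ((1 - x ^ 2 / (p : ℂ)) * (1 - x' ^ 2 / p) * (1 - x * x' / p) * (1 - x * x' / p)) ≠ 0 := by
      rw [sq x, sq x']
      exact mul_ne_zero (mul_ne_zero (mul_ne_zero f1 f3) f2) f2
    rw [e1, div_self e3, one_mul, div_self e2]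
  · intro _
    unfold locOx
    have e3 : ((1 - x ^ 2 / (p : ℂ)) * (1 - x' ^ 2 / p)) ≠ 0 := by
      rw [sq x, sq x']
      exact mul_ne_zero f1 f3
    have e1 : (1 + (x * x' + x * x' - (x + x') * (x + x')) / (p : ℂ) + x * x' * x * x' / (p : ℂ) ^ 2) =
        ((1 - x ^ 2 / (p : ℂ)) * (1 - x' ^ 2 / p)) := by
      field_simp
      ring
    have e2 : ((x + x' - x - x') / (p : ℂ) + ((x + x') * (x * x') - x * x' * (x + x')) / (p : ℂ) ^ 2) = 0 := by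
      ring
    rw [e1, div_self e3, e2]
    ring

end Pool.Agent.MP0016c7.Rz
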