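import Mathlib
import Pool.Agent.Lib.MP_0016c7_nt.Theta
import Pool.Agent.Lib.MP_0016c7_nt.Rz.Defs
import Pool.Agent.Lib.MP_0016c7_nt.Rz.DefsC
import Pool.Agent.Lib.MP_0016c7_nt.Rz.DefsF
import Pool.Agent.Lib.MP_0016c7_nt.Rz.DefsE

set_option autoImplicit false

open Finset MeasureTheory Filter Topology
open scoped Real ContDiff

namespace Pool.Agent.MP0016c7.Rz

private noncomputable def zuJ (x : ℂ) : ℂ :=
  ∫ t in Set.Ioi (1 : ℝ), ((Int.fract t : ℝ) : ℂ) * (t : ℂ) ^ (-(x + 2))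

private lemma zu_exp (u v : ℂ) (hu : u.re ≤ 0) (hv : v.re ≤ 0) :
    ‖Complex.exp u - Complex.exp v‖ ≤ ‖u - v‖ := by
  have h := Convex.norm_image_sub_le_of_norm_hasDerivWithin_le (f := Complex.exp)
    (f' := Complex.exp) (C := 1) (s := {z : ℂ | z.re ≤ 0}) (x := v) (y := u)
    (fun z _ => (Complex.hasDerivAt_exp z).hasDerivWithinAt)
    (fun z hz => by
      rw [Complex.norm_exp]
      exact Real.exp_le_one_iff.mpr hz) (convex_halfSpace_re_le 0) hv hu
  simpa using h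

private lemma zu_cpow {t : ℝ} (ht : 0 < t) (x : ℂ) :
    (t : ℂ) ^ (-(x + 2)) = ((t ^ (-2 : ℝ) : ℝ) : ℂ) * Complex.exp (-(x * Real.log t)) := by
  have h0 : (t : ℂ) ≠ 0 := by exact_mod_cast ht.ne'
  rw [Complex.ofReal_cpow ht.le, Complex.cpow_def_of_ne_zero h0, Complex.cpow_def_of_ne_zero h0,
    ← Complex.exp_add, Complex.ofReal_log ht.le]
  congr 1
  push_cast
  ring

private lemma zu_meas (x : ℂ) :
    Measurable (fun t : ℝ => ((Int.fract t : ℝ) : ℂ) * (t : ℂ) ^ (-(x + 2))) := by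
  refine (Complex.measurable_ofReal.comp measurable_fract).mul ?_
  exact Complex.measurable_ofReal.pow_const _

private lemma zu_norm {t : ℝ} (ht : 1 < t) {x : ℂ} (hx : 0 ≤ x.re) :
    ‖((Int.fract t : ℝ) : ℂ) * (t : ℂ) ^ (-(x + 2))‖ ≤ t ^ (-2 : ℝ) := by
  have h0 : 0 < t := by linarith
  have hl : 0 ≤ Real.log t := Real.log_nonneg ht.le
  rw [zu_cpow h0, norm_mul, norm_mul, Complex.norm_real, Complex.norm_real, Complex.norm_exp]
  have h1 : ‖Int.fract t‖ ≤ 1 := by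
    rw [Real.norm_eq_abs, abs_of_nonneg (Int.fract_nonneg t)]
    exact (Int.fract_lt_one t).le
  have h2 : ‖t ^ (-2 : ℝ)‖ = t ^ (-2 : ℝ) := by
    rw [Real.norm_eq_abs, abs_of_nonneg (by positivity)]
  have h3 : Real.exp ((-(x * Real.log t)).re) ≤ 1 := by
    rw [Real.exp_le_one_iff]
    simp only [Complex.neg_re, Complex.mul_re, Complex.ofReal_re, Complex.ofReal_im, mul_zero,
      sub_zero]
    have := mul_nonneg hx hl
    linarith
  rw [h2]
  have h4 : 0 ≤ t ^ (-2 : ℝ) := by positivity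
  calc ‖Int.fract t‖ * (t ^ (-2 : ℝ) * Real.exp ((-(x * Real.log t)).re))
      ≤ 1 * (t ^ (-2 : ℝ) * 1) := by gcongr
    _ = t ^ (-2 : ℝ) := by ring

private lemma zu_int {x : ℂ} (hx : 0 ≤ x.re) :
    IntegrableOn (fun t : ℝ => ((Int.fract t : ℝ) : ℂ) * (t : ℂ) ^ (-(x + 2))) (Set.Ioi 1) := by
  have h1 : IntegrableOn (fun t : ℝ => t ^ (-2 : ℝ)) (Set.Ioi 1) :=
    integrableOn_Ioi_rpow_of_lt (by norm_num) one_pos
  refine Integrable.mono' h1 (zu_meas x).aestronglyMeasurable ?_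
  refine (ae_restrict_mem measurableSet_Ioi).mono fun t ht => ?_
  exact zu_norm ht hx

private lemma zu_bd {x : ℂ} (hx : 0 ≤ x.re) : ‖zuJ x‖ ≤ 1 := by
  have h1 : IntegrableOn (fun t : ℝ => t ^ (-2 : ℝ)) (Set.Ioi 1) :=
    integrableOn_Ioi_rpow_of_lt (by norm_num) one_pos
  have h2 : ∫ t in Set.Ioi (1 : ℝ), t ^ (-2 : ℝ) = 1 := by
    rw [integral_Ioi_rpow_of_lt (by norm_num) one_pos]
    norm_num
  have h3 : ‖zuJ x‖ ≤ ∫ t in Set.Ioi (1 : ℝ), t ^ (-2 : ℝ) := by
    unfold zuJ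
    refine norm_integral_le_of_norm_le h1 ?_
    refine (ae_restrict_mem measurableSet_Ioi).mono fun t ht => ?_
    exact zu_norm ht hx
  exact h3.trans h2.le

private lemma zu_lip {x y : ℂ} (hx : 0 ≤ x.re) (hy : 0 ≤ y.re) :
    ‖zuJ x - zuJ y‖ ≤ 4 * ‖x - y‖ := by
  have h1 : IntegrableOn (fun t : ℝ => 2 * ‖x - y‖ * t ^ (-(3 / 2) : ℝ)) (Set.Ioi 1) :=
    (integrableOn_Ioi_rpow_of_lt (by norm_num) one_pos).const_mul _
  have h2 : ∫ t in Set.Ioi (1 : ℝ), 2 * ‖x - y‖ * t ^ (-(3 / 2) : ℝ) = 4 * ‖x - y‖ := by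
    rw [integral_const_mul, integral_Ioi_rpow_of_lt (by norm_num) one_pos]
    norm_num
    ring
  unfold zuJ
  rw [← integral_sub (zu_int hx) (zu_int hy), ← h2]
  refine norm_integral_le_of_norm_le h1 ?_
  refine (ae_restrict_mem measurableSet_Ioi).mono fun t ht => ?_
  have ht1 : (1 : ℝ) < t := ht
  have h0 : 0 < t := by linarith
  have hl : 0 ≤ Real.log t := Real.log_nonneg ht1.le
  rw [zu_cpow h0, zu_cpow h0, ← mul_sub, ← mul_sub, norm_mul, norm_mul, Complex.norm_real,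
    Complex.norm_real]
  have h3 : ‖Int.fract t‖ ≤ 1 := by
    rw [Real.norm_eq_abs, abs_of_nonneg (Int.fract_nonneg t)]
    exact (Int.fract_lt_one t).le
  have h4 : ‖t ^ (-2 : ℝ)‖ = t ^ (-2 : ℝ) := by
    rw [Real.norm_eq_abs, abs_of_nonneg (by positivity)]
  have h5 : ‖Complex.exp (-(x * Real.log t)) - Complex.exp (-(y * Real.log t))‖ ≤
      ‖x - y‖ * Real.log t := by
    refine (zu_exp _ _ ?_ ?_).trans ?_
    · simp only [Complex.neg_re, Complex.mul_re, Complex.ofReal_re, Complex.ofReal_im, mul_zero,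
        sub_zero]
      have := mul_nonneg hx hl
      linarith
    · simp only [Complex.neg_re, Complex.mul_re, Complex.ofReal_re, Complex.ofReal_im, mul_zero,
        sub_zero]
      have := mul_nonneg hy hl
      linarith
    · rw [show -(x * (Real.log t : ℂ)) - -(y * (Real.log t : ℂ)) = -((x - y) * (Real.log t : ℂ)) by
        ring, norm_neg, norm_mul, Complex.norm_real, Real.norm_eq_abs, abs_of_nonneg hl]
  have h6 : Real.log t ≤ 2 * t ^ (1 / 2 : ℝ) := by
    have := Real.log_le_rpow_div h0.le (ε := 1 / 2) (by norm_num)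
    calc Real.log t ≤ t ^ (1 / 2 : ℝ) / (1 / 2) := this
      _ = 2 * t ^ (1 / 2 : ℝ) := by ring
  have h7 : t ^ (-2 : ℝ) * t ^ (1 / 2 : ℝ) = t ^ (-(3 / 2) : ℝ) := by
    rw [← Real.rpow_add h0]
    norm_num
  rw [h4]
  have h8 : 0 ≤ t ^ (-2 : ℝ) := by positivity
  calc ‖Int.fract t‖ * (t ^ (-2 : ℝ) *
        ‖Complex.exp (-(x * Real.log t)) - Complex.exp (-(y * Real.log t))‖)
      ≤ 1 * (t ^ (-2 : ℝ) * (‖x - y‖ * (2 * t ^ (1 / 2 : ℝ)))) := by
        gcongr
        exact h5.trans (by gcongr)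
    _ = 2 * ‖x - y‖ * (t ^ (-2 : ℝ) * t ^ (1 / 2 : ℝ)) := by ring
    _ = 2 * ‖x - y‖ * t ^ (-(3 / 2) : ℝ) := by rw [h7]

private lemma zu_zeta {s : ℂ} (hs : 1 < s.re) :
    riemannZeta s = s * (1 / (s - 1) - zuJ (s - 1)) := by
  have h1 := LSeries_eq_mul_integral (fun _ => (1 : ℂ)) (r := 1) zero_le_one hs
    (by exact LSeriesSummable_one_iff.mpr hs) (by
      refine Asymptotics.IsBigO.of_bound 1 ?_
      filter_upwards with n
      simp)
  have h2 : LSeries (fun _ => (1 : ℂ)) s = riemannZeta s := LSeries_one_eq_riemannZeta hs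
  rw [h2] at h1
  rw [h1]
  congr 1
  have h3 : ∫ t in Set.Ioi (1 : ℝ), (t : ℂ) ^ (-s) = 1 / (s - 1) := by
    rw [integral_Ioi_cpow_of_lt (by simpa using hs) one_pos]
    rw [Complex.ofReal_one, Complex.one_cpow]
    have : s - 1 ≠ 0 := by
      intro h
      have := congrArg Complex.re h
      simp at this
      linarith
    have h' : -s + 1 ≠ 0 := by
      intro h
      apply this
      linear_combination -h
    field_simp
    ring
  have hx : 0 ≤ (s - 1).re := by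
    simp
    linarith
  have h4 : IntegrableOn (fun t : ℝ => (t : ℂ) ^ (-s)) (Set.Ioi 1) :=
    integrableOn_Ioi_cpow_of_lt (by simpa using hs) one_pos
  unfold zuJ
  rw [← h3, ← integral_sub h4 (zu_int hx)]
  refine setIntegral_congr_fun measurableSet_Ioi ?_
  intro t ht
  have ht1 : (1 : ℝ) < t := ht
  have h0 : 0 < t := by linarith
  have h0' : (t : ℂ) ≠ 0 := by exact_mod_cast h0.ne'
  simp only [sum_const, Nat.card_Icc, add_tsub_cancel_right, nsmul_eq_mul, mul_one]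
  have h5 : ((⌊t⌋₊ : ℕ) : ℂ) = (t : ℂ) - ((Int.fract t : ℝ) : ℂ) := by
    have h6 : ((⌊t⌋₊ : ℕ) : ℝ) = t - Int.fract t := by
      rw [Int.self_sub_fract, natCast_floor_eq_intCast_floor h0.le]
    rw [← Complex.ofReal_sub, ← h6]
    simp
  rw [h5, sub_mul]
  congr 1
  · rw [show -s = 1 + -(s + 1) by ring, Complex.cpow_add _ _ h0', Complex.cpow_one]
  · congr 2
    ring

private lemma zu_kz {x : ℂ} (hx : 0 ≤ x.re) : kz x = (1 + x) * (1 - x * zuJ x) := by
  have hpos : ∀ z : ℂ, 0 < z.re → kz z = (1 + z) * (1 - z * zuJ z) := by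
    intro z hz
    have hz0 : z ≠ 0 := by
      intro h
      rw [h] at hz
      simp at hz
    unfold kz
    rw [if_neg hz0, zu_zeta (by simp; exact hz)]
    rw [show (1 : ℂ) + z - 1 = z by ring]
    field_simp
  rcases hx.lt_or_eq with h | h
  · exact hpos x h
  · by_cases hx0 : x = 0
    · rw [hx0]
      simp [kz]
    · have ht : Tendsto (fun ε : ℝ => x + (ε : ℂ)) (𝓝[>] 0) (𝓝 x) := by
        have : Continuous (fun ε : ℝ => x + (ε : ℂ)) := by fun_prop
        have h2 := this.tendsto 0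
        simp only [Complex.ofReal_zero, add_zero] at h2
        exact h2.mono_left nhdsWithin_le_nhds
      have h1 : Tendsto (fun ε : ℝ => kz (x + (ε : ℂ))) (𝓝[>] 0) (𝓝 (kz x)) := by
        have h2 : ContinuousAt kz x := by
          have h3 : kz =ᶠ[𝓝 x] fun z => z * riemannZeta (1 + z) := by
            filter_upwards [isOpen_ne.mem_nhds hx0] with z hz
            unfold kz
            rw [if_neg hz]
          refine ContinuousAt.congr ?_ h3.symm
          have h4 : ContinuousAt riemannZeta (1 + x) := by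
            refine (differentiableAt_riemannZeta ?_).continuousAt
            intro h5
            apply hx0
            linear_combination h5
          exact continuousAt_id.mul (h4.comp (f := fun z : ℂ => 1 + z) (by fun_prop))
        exact h2.tendsto.comp ht
      have h2 : Tendsto (fun ε : ℝ => zuJ (x + (ε : ℂ))) (𝓝[>] 0) (𝓝 (zuJ x)) := by
        rw [tendsto_iff_norm_sub_tendsto_zero]
        refine squeeze_zero' (g := fun ε : ℝ => 4 * ε) ?_ ?_ ?_
        · filter_upwards with ε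
          positivity
        · filter_upwards [self_mem_nhdsWithin] with ε hε
          have hε' : (0 : ℝ) < ε := hε
          refine (zu_lip (x := x + (ε : ℂ)) (y := x) ?_ hx).trans ?_
          · simp
            linarith
          · rw [show x + (ε : ℂ) - x = (ε : ℂ) by ring, Complex.norm_real, Real.norm_eq_abs,
              abs_of_pos hε']
        · have : Continuous (fun ε : ℝ => 4 * ε) := by fun_prop
          have h3 := this.tendsto 0
          simp only [mul_zero] at h3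
          exact h3.mono_left nhdsWithin_le_nhds
      have h3 : Tendsto (fun ε : ℝ => (1 + (x + (ε : ℂ))) *
          (1 - (x + (ε : ℂ)) * zuJ (x + (ε : ℂ)))) (𝓝[>] 0)
          (𝓝 ((1 + x) * (1 - x * zuJ x))) :=
        (tendsto_const_nhds.add ht).mul (tendsto_const_nhds.sub (ht.mul h2))
      refine tendsto_nhds_unique h1 (h3.congr' ?_)
      filter_upwards [self_mem_nhdsWithin] with ε hε
      have hε' : (0 : ℝ) < ε := hε
      rw [hpos]
      simp
      linarith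

theorem kz_upper : ∃ C A : ℝ, 0 < C ∧ 0 < A ∧ ∀ x y : ℂ, 0 ≤ x.re → x.re ≤ 1 → 0 ≤ y.re → y.re ≤ 1 →
    ‖kz x‖ ≤ C * (1 + ‖x‖) ^ A ∧ ‖kz x - kz y‖ ≤ C * ‖x - y‖ * (1 + ‖x‖ + ‖y‖) ^ A := by
  refine ⟨6, 2, by norm_num, by norm_num, ?_⟩
  intro x y hx _ hy _
  have hnx := norm_nonneg x
  have hny := norm_nonneg y
  have hJx := zu_bd hx
  have hJy := zu_bd hy
  have hJx0 := norm_nonneg (zuJ x)
  constructor
  · rw [zu_kz hx, norm_mul, Real.rpow_two]
    have h1 : ‖1 + x‖ ≤ 1 + ‖x‖ := (norm_add_le _ _).trans (by simp)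
    have h2 : ‖1 - x * zuJ x‖ ≤ 1 + ‖x‖ := by
      refine (norm_sub_le _ _).trans ?_
      rw [norm_one, norm_mul]
      nlinarith
    calc ‖1 + x‖ * ‖1 - x * zuJ x‖ ≤ (1 + ‖x‖) * (1 + ‖x‖) := by gcongr
      _ ≤ 6 * (1 + ‖x‖) ^ 2 := by nlinarith
  · rw [zu_kz hx, zu_kz hy, Real.rpow_two]
    have h1 : (1 + x) * (1 - x * zuJ x) - (1 + y) * (1 - y * zuJ y) =
        (x - y) - (x - y) * (1 + x + y) * zuJ x - y * (1 + y) * (zuJ x - zuJ y) := by ring
    rw [h1]
    have h2 : ‖1 + x + y‖ ≤ 1 + ‖x‖ + ‖y‖ := by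
      refine (norm_add_le _ _).trans ?_
      have := norm_add_le (1 : ℂ) x
      rw [norm_one] at this
      linarith
    have h3 : ‖1 + y‖ ≤ 1 + ‖y‖ := (norm_add_le _ _).trans (by simp)
    have h4 := zu_lip hx hy
    have hxy := norm_nonneg (x - y)
    set M := 1 + ‖x‖ + ‖y‖ with hM
    have hM1 : 1 ≤ M := by linarith
    calc ‖(x - y) - (x - y) * (1 + x + y) * zuJ x - y * (1 + y) * (zuJ x - zuJ y)‖
        ≤ ‖x - y‖ + ‖x - y‖ * ‖1 + x + y‖ * ‖zuJ x‖ + ‖y‖ * ‖1 + y‖ * ‖zuJ x - zuJ y‖ := by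
          refine (norm_sub_le _ _).trans ?_
          refine add_le_add ((norm_sub_le _ _).trans ?_) ?_
          · rw [norm_mul, norm_mul]
          · rw [norm_mul, norm_mul]
      _ ≤ ‖x - y‖ + ‖x - y‖ * M * 1 + ‖y‖ * (1 + ‖y‖) * (4 * ‖x - y‖) := by gcongr
      _ ≤ ‖x - y‖ * M ^ 2 + ‖x - y‖ * M ^ 2 + M * M * (4 * ‖x - y‖) := by
          have e1 : ‖x - y‖ ≤ ‖x - y‖ * M ^ 2 := by
            nlinarith [mul_nonneg hxy (by nlinarith : (0 : ℝ) ≤ M ^ 2 - 1)]
          have e2 : ‖x - y‖ * M * 1 ≤ ‖x - y‖ * M ^ 2 := by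
            nlinarith [mul_nonneg hxy (by nlinarith : (0 : ℝ) ≤ M ^ 2 - M)]
          have e3 : ‖y‖ * (1 + ‖y‖) * (4 * ‖x - y‖) ≤ M * M * (4 * ‖x - y‖) := by
            have : ‖y‖ ≤ M := by linarith
            have : 1 + ‖y‖ ≤ M := by linarith
            gcongr
          linarith
      _ = 6 * ‖x - y‖ * M ^ 2 := by ring

end Pool.Agent.MP0016c7.Rz
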