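import Mathlib
import Pool.Agent.Lib.MP_0016c7_nt.Theta
import Pool.Agent.Lib.MP_0016c7_nt.Rz.Defs
import Pool.Agent.Lib.MP_0016c7_nt.Rz.DefsC
import Pool.Agent.Lib.MP_0016c7_nt.Rz.DefsF
import Pool.Agent.Lib.MP_0016c7_nt.Rz.DefsE
import Pool.Agent.Lib.MP_0016c7_nt.Rz.ZetaUp

set_option autoImplicit false

open Finset MeasureTheory Filter Topology
open scoped Real ContDiff

namespace Pool.Agent.MP0016c7.Rz

private lemma kzlow_ne_zero (x : ℂ) (hx : 0 ≤ x.re) : kz x ≠ 0 := by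
  unfold kz
  by_cases h : x = 0
  · simp [h]
  · rw [if_neg h]
    refine mul_ne_zero h (riemannZeta_ne_zero_of_one_le_re ?_)
    simp [hx]

/-- the 3-4-1 inequality in terms of `kz` -/
private lemma kzlow_341 (x y : ℝ) (hx : 0 < x) :
    x ^ 3 * ‖(x : ℂ) + Complex.I * y‖ ^ 4 * ‖(x : ℂ) + 2 * Complex.I * y‖ ≤
      ‖kz x‖ ^ 3 * ‖kz (x + Complex.I * y)‖ ^ 4 * ‖kz (x + 2 * Complex.I * y)‖ := by
  have h := DirichletCharacter.norm_LFunction_product_ge_one (1 : DirichletCharacter ℂ 1) hx y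
  rw [DirichletCharacter.LFunctionTrivChar, one_pow,
    DirichletCharacter.LFunction_modOne_eq] at h
  have hx0 : (x : ℂ) ≠ 0 := by exact_mod_cast hx.ne'
  have h1 : (x : ℂ) + Complex.I * y ≠ 0 := by
    intro h0
    have := congrArg Complex.re h0
    simp at this
    exact hx.ne' this
  have h2 : (x : ℂ) + 2 * Complex.I * y ≠ 0 := by
    intro h0
    have := congrArg Complex.re h0
    simp at this
    exact hx.ne' this
  unfold kz
  rw [if_neg hx0, if_neg h1, if_neg h2]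
  have e1 : (1 : ℂ) + ((x : ℂ) + Complex.I * y) = 1 + x + Complex.I * y := by ring
  have e2 : (1 : ℂ) + ((x : ℂ) + 2 * Complex.I * y) = 1 + x + 2 * Complex.I * y := by ring
  rw [e1, e2]
  simp only [norm_mul, norm_pow] at h ⊢
  have hnx : ‖(x : ℂ)‖ = x := by
    rw [Complex.norm_real, Real.norm_eq_abs, abs_of_pos hx]
  rw [hnx]
  have e3 : (x * ‖riemannZeta (1 + (x : ℂ))‖) ^ 3 *
      (‖(x : ℂ) + Complex.I * y‖ * ‖riemannZeta (1 + x + Complex.I * y)‖) ^ 4 *
      (‖(x : ℂ) + 2 * Complex.I * y‖ * ‖riemannZeta (1 + x + 2 * Complex.I * y)‖) =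
      (x ^ 3 * ‖(x : ℂ) + Complex.I * y‖ ^ 4 * ‖(x : ℂ) + 2 * Complex.I * y‖) *
      (‖riemannZeta (1 + (x : ℂ))‖ ^ 3 * ‖riemannZeta (1 + x + Complex.I * y)‖ ^ 4 *
        ‖riemannZeta (1 + x + 2 * Complex.I * y)‖) := by ring
  rw [e3]
  refine le_mul_of_one_le_right (by positivity) h

theorem kz_lower : ∃ c A : ℝ, 0 < c ∧ 0 < A ∧ ∀ x : ℂ, 0 ≤ x.re → x.re ≤ 1 →
    c ≤ ‖kz x‖ * (1 + ‖x‖) ^ A := by
  obtain ⟨C, A, hC, hA, hkz⟩ := kz_upper
  -- the compact part
  have hcont : ContinuousOn kz {x : ℂ | 0 ≤ x.re ∧ x.re ≤ 1} := by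
    intro x hx
    rw [ContinuousWithinAt, tendsto_iff_norm_sub_tendsto_zero]
    have hb : Tendsto (fun y : ℂ => C * ‖y - x‖ * (1 + ‖y‖ + ‖x‖) ^ A)
        (𝓝[{x : ℂ | 0 ≤ x.re ∧ x.re ≤ 1}] x) (𝓝 (C * ‖x - x‖ * (1 + ‖x‖ + ‖x‖) ^ A)) := by
      have : Continuous (fun y : ℂ => C * ‖y - x‖ * (1 + ‖y‖ + ‖x‖) ^ A) := by
        refine Continuous.mul (by fun_prop) ?_
        refine Continuous.rpow_const (by fun_prop) fun y => Or.inr hA.le
      exact (this.tendsto x).mono_left nhdsWithin_le_nhds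
    rw [sub_self, norm_zero, mul_zero, zero_mul] at hb
    refine squeeze_zero_norm' ?_ hb
    filter_upwards [self_mem_nhdsWithin] with y hy
    rw [norm_norm]
    exact (hkz y x hy.1 hy.2 hx.1 hx.2).2
  have hK : IsCompact (Set.Icc (0 : ℝ) 1 ×ℂ Set.Icc (-1 : ℝ) 1) := isCompact_Icc.reProdIm isCompact_Icc
  obtain ⟨c4, hc4, hc4'⟩ : ∃ c4 : ℝ, 0 < c4 ∧ ∀ x ∈ (Set.Icc (0 : ℝ) 1 ×ℂ Set.Icc (-1 : ℝ) 1),
      c4 ≤ ‖kz x‖ := by
    have hne : (Set.Icc (0 : ℝ) 1 ×ℂ Set.Icc (-1 : ℝ) 1).Nonempty := ⟨0, by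
      rw [Complex.mem_reProdIm]; simp⟩
    have hc : ContinuousOn (fun x => ‖kz x‖) (Set.Icc (0 : ℝ) 1 ×ℂ Set.Icc (-1 : ℝ) 1) := by
      refine (hcont.mono ?_).norm
      intro x hx
      rw [Complex.mem_reProdIm] at hx
      exact hx.1
    obtain ⟨x0, hx0, hmin⟩ := hK.exists_isMinOn hne hc
    refine ⟨‖kz x0‖, ?_, fun x hx => hmin hx⟩
    rw [Complex.mem_reProdIm] at hx0
    exact norm_pos_iff.2 (kzlow_ne_zero x0 hx0.1.1)
  -- constants
  set m : ℝ := C * 2 ^ A with hm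
  have hmpos : 0 < m := by positivity
  set η : ℝ := min 1 (1 / (2 * m * (C * 3 ^ A))) with hη
  have hηpos : 0 < η := by
    rw [hη]
    refine lt_min one_pos ?_
    positivity
  have hη1 : η ≤ 1 := min_le_left _ _
  have hη2 : m * (C * 3 ^ A) * η ≤ 1 / 2 := by
    have : η ≤ 1 / (2 * m * (C * 3 ^ A)) := min_le_right _ _
    calc m * (C * 3 ^ A) * η ≤ m * (C * 3 ^ A) * (1 / (2 * m * (C * 3 ^ A))) :=
          mul_le_mul_of_nonneg_left this (by positivity)
      _ = 1 / 2 := by field_simp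
  refine ⟨min c4 (η ^ 3 / (2 * m)), 4 * A, lt_min hc4 (by positivity), by positivity, ?_⟩
  intro x hx0 hx1
  by_cases hy : |x.im| ≤ 1
  · have h1 : c4 ≤ ‖kz x‖ := hc4' x (by
      rw [Complex.mem_reProdIm]
      exact ⟨⟨hx0, hx1⟩, abs_le.1 hy⟩)
    have h2 : 1 ≤ (1 + ‖x‖) ^ (4 * A) :=
      Real.one_le_rpow (by linarith [norm_nonneg x]) (by positivity)
    calc min c4 (η ^ 3 / (2 * m)) ≤ c4 := min_le_left _ _
      _ ≤ ‖kz x‖ := h1
      _ ≤ ‖kz x‖ * (1 + ‖x‖) ^ (4 * A) := le_mul_of_one_le_right (norm_nonneg _) h2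
  · push Not at hy
    set y : ℝ := x.im with hydef
    set T : ℝ := 1 + |y| with hT
    have hT1 : 1 ≤ T := by rw [hT]; linarith [abs_nonneg y]
    set R : ℝ := T ^ A with hR
    have hR1 : 1 ≤ R := Real.one_le_rpow hT1 hA.le
    have hRpos : 0 < R := by linarith
    -- the lower bound for positive real part
    have key : ∀ t : ℝ, 0 < t → t ≤ 1 → t ^ 3 ≤ m ^ 4 * ‖kz (t + Complex.I * y)‖ ^ 4 * R := by
      intro t ht ht1
      have h1 := kzlow_341 t y ht
      have h2 : ‖kz (t : ℂ)‖ ≤ m := by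
        have := (hkz (t : ℂ) (t : ℂ) (by simpa using ht.le) (by simpa using ht1)
          (by simpa using ht.le) (by simpa using ht1)).1
        refine this.trans ?_
        rw [hm]
        refine mul_le_mul_of_nonneg_left ?_ hC.le
        refine Real.rpow_le_rpow (by positivity) ?_ hA.le
        rw [Complex.norm_real, Real.norm_eq_abs, abs_of_pos ht]
        linarith
      have hn2 : ‖(t : ℂ) + 2 * Complex.I * y‖ ≤ 1 + 2 * |y| := by
        calc ‖(t : ℂ) + 2 * Complex.I * y‖ ≤ ‖(t : ℂ)‖ + ‖2 * Complex.I * y‖ := norm_add_le _ _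
          _ = t + 2 * |y| := by
              rw [Complex.norm_real, Real.norm_eq_abs, abs_of_pos ht]
              simp
          _ ≤ 1 + 2 * |y| := by linarith
      have h3 : ‖kz ((t : ℂ) + 2 * Complex.I * y)‖ ≤ m * R := by
        have := (hkz ((t : ℂ) + 2 * Complex.I * y) (t : ℂ) (by simpa using ht.le)
          (by simpa using ht1) (by simpa using ht.le) (by simpa using ht1)).1
        refine this.trans ?_
        have h2T : (2 * T) ^ A = 2 ^ A * T ^ A := Real.mul_rpow (by norm_num) (by linarith)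
        have h2m : m * R = C * (2 * T) ^ A := by rw [hm, hR, h2T]; ring
        rw [h2m]
        refine mul_le_mul_of_nonneg_left ?_ hC.le
        refine Real.rpow_le_rpow (by positivity) ?_ hA.le
        rw [hT]
        linarith
      have h4 : 1 ≤ ‖(t : ℂ) + Complex.I * y‖ := by
        have := Complex.abs_im_le_norm ((t : ℂ) + Complex.I * y)
        simp at this
        linarith
      have h5 : 1 ≤ ‖(t : ℂ) + 2 * Complex.I * y‖ := by
        have := Complex.abs_im_le_norm ((t : ℂ) + 2 * Complex.I * y)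
        simp [abs_mul] at this
        linarith
      calc t ^ 3 = t ^ 3 * 1 ^ 4 * 1 := by ring
        _ ≤ t ^ 3 * ‖(t : ℂ) + Complex.I * y‖ ^ 4 * ‖(t : ℂ) + 2 * Complex.I * y‖ := by (clear * - h4 ht h5; gcongr)
        _ ≤ ‖kz t‖ ^ 3 * ‖kz (t + Complex.I * y)‖ ^ 4 * ‖kz (t + 2 * Complex.I * y)‖ := h1
        _ ≤ m ^ 3 * ‖kz (t + Complex.I * y)‖ ^ 4 * (m * R) := by (clear * - h2 h3 hC; gcongr)
        _ = m ^ 4 * ‖kz (t + Complex.I * y)‖ ^ 4 * R := by ring
    set e : ℝ := η ^ 4 / R ^ 5 with he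
    have hepos : 0 < e := by positivity
    have he1 : e ≤ 1 := by
      rw [he, div_le_one (by positivity)]
      calc η ^ 4 ≤ 1 := pow_le_one₀ hηpos.le hη1
        _ ≤ R ^ 5 := one_le_pow₀ hR1
    have key2 : ∀ t : ℝ, e ≤ t → t ≤ 1 → η ^ 3 ≤ m * ‖kz (t + Complex.I * y)‖ * R ^ 4 := by
      intro t ht ht1
      have h1 := key t (lt_of_lt_of_le hepos ht) ht1
      have h2 : e ^ 3 ≤ t ^ 3 := pow_le_pow_left₀ hepos.le ht 3
      have h3 : (η ^ 3) ^ 4 ≤ (m * ‖kz (t + Complex.I * y)‖ * R ^ 4) ^ 4 := by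
        have h4 : e ^ 3 * R ^ 15 = (η ^ 3) ^ 4 := by
          rw [he]
          field_simp
        calc (η ^ 3) ^ 4 = e ^ 3 * R ^ 15 := h4.symm
          _ ≤ (m ^ 4 * ‖kz (t + Complex.I * y)‖ ^ 4 * R) * R ^ 15 :=
              mul_le_mul_of_nonneg_right (h2.trans h1) (by positivity)
          _ = (m * ‖kz (t + Complex.I * y)‖ * R ^ 4) ^ 4 := by ring
      exact le_of_pow_le_pow_left₀ (by norm_num) (by positivity) h3
    have hxy : x = (x.re : ℂ) + Complex.I * y := by
      apply Complex.ext <;> simp [hydef]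
    have hfin : η ^ 3 / (2 * m) ≤ ‖kz x‖ * R ^ 4 := by
      by_cases hex : e ≤ x.re
      · have h1 := key2 x.re hex hx1
        rw [← hxy] at h1
        rw [div_le_iff₀ (by positivity)]
        have : 0 ≤ m * ‖kz x‖ * R ^ 4 := by positivity
        nlinarith only [h1, this]
      · push Not at hex
        have h1 := key2 e le_rfl he1
        have h2 := (hkz ((e : ℂ) + Complex.I * y) x (by simpa using hepos.le) (by simpa using he1)
          hx0 hx1).2
        have h3 : ‖((e : ℂ) + Complex.I * y) - x‖ ≤ e := by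
          have : ((e : ℂ) + Complex.I * y) - x = ((e - x.re : ℝ) : ℂ) := by
            apply Complex.ext <;> simp [hydef]
          rw [this, Complex.norm_real, Real.norm_eq_abs, abs_of_pos (by linarith)]
          linarith
        have hnx : ‖x‖ ≤ T := by
          rw [hT]
          calc ‖x‖ ≤ |x.re| + |x.im| := Complex.norm_le_abs_re_add_abs_im x
            _ ≤ 1 + |y| := by rw [abs_of_nonneg hx0]; linarith
        have hne : ‖(e : ℂ) + Complex.I * y‖ ≤ T := by
          rw [hT]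
          calc ‖(e : ℂ) + Complex.I * y‖ ≤ ‖(e : ℂ)‖ + ‖Complex.I * y‖ := norm_add_le _ _
            _ = e + |y| := by
                rw [Complex.norm_real, Real.norm_eq_abs, abs_of_pos hepos]
                simp
            _ ≤ 1 + |y| := by linarith
        have h4 : (1 + ‖(e : ℂ) + Complex.I * y‖ + ‖x‖) ^ A ≤ 3 ^ A * R := by
          have h3T : (3 * T) ^ A = 3 ^ A * T ^ A := Real.mul_rpow (by norm_num) (by linarith)
          rw [hR, ← h3T]
          refine Real.rpow_le_rpow (by positivity) (by linarith) hA.le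
        have h5 : ‖kz ((e : ℂ) + Complex.I * y) - kz x‖ ≤ C * e * (3 ^ A * R) := by
          refine h2.trans ?_
          (clear * - h3 hC h4 hy; gcongr)
        have h6 : ‖kz ((e : ℂ) + Complex.I * y)‖ ≤ ‖kz x‖ + C * e * (3 ^ A * R) := by
          have := norm_sub_norm_le (kz ((e : ℂ) + Complex.I * y)) (kz x)
          linarith
        have h7 : m * (C * e * (3 ^ A * R)) * R ^ 4 ≤ η ^ 3 / 2 := by
          have h8 : m * (C * e * (3 ^ A * R)) * R ^ 4 = (m * (C * 3 ^ A) * η) * η ^ 3 := by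
            rw [he]
            field_simp
          rw [h8]
          have : 0 ≤ η ^ 3 := by positivity
          nlinarith only [hη2, this]
        have h9 : η ^ 3 ≤ m * (‖kz x‖ + C * e * (3 ^ A * R)) * R ^ 4 := by
          refine h1.trans ?_
          (clear * - h6 hC hy; gcongr)
        rw [div_le_iff₀ (by positivity)]
        nlinarith only [h7, h9]
    have hR4 : R ^ 4 ≤ (1 + ‖x‖) ^ (4 * A) := by
      have h1 : R ^ 4 = T ^ (4 * A) := by
        rw [hR, ← Real.rpow_natCast, ← Real.rpow_mul (by linarith)]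
        congr 1
        push_cast
        ring
      rw [h1]
      refine Real.rpow_le_rpow (by linarith) ?_ (by positivity)
      rw [hT]
      have := Complex.abs_im_le_norm x
      linarith
    calc min c4 (η ^ 3 / (2 * m)) ≤ η ^ 3 / (2 * m) := min_le_right _ _
      _ ≤ ‖kz x‖ * R ^ 4 := hfin
      _ ≤ ‖kz x‖ * (1 + ‖x‖) ^ (4 * A) := mul_le_mul_of_nonneg_left hR4 (norm_nonneg _)

end Pool.Agent.MP0016c7.Rz
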