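import Mathlib
import Pool.Agent.Lib.MP_0016c7_nt.Theta
import Pool.Agent.Lib.MP_0016c7_nt.Rz.Defs
import Pool.Agent.Lib.MP_0016c7_nt.Rz.DefsC
import Pool.Agent.Lib.MP_0016c7_nt.Rz.DefsF
import Pool.Agent.Lib.MP_0016c7_nt.Rz.DefsE
import Pool.Agent.Lib.MP_0016c7_nt.Rz.Eul4
import Pool.Agent.Lib.MP_0016c7_nt.Rz.ZetaUp
import Pool.Agent.Lib.MP_0016c7_nt.Rz.ZetaLow

set_option autoImplicit false

open Finset MeasureTheory Filter Topology
open scoped Real ContDiff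

namespace Pool.Agent.MP0016c7.Rz

private lemma qa_kz_eq {x : ℂ} (hx : x ≠ 0) : riemannZeta (1 + x) = kz x / x := by
  unfold kz
  rw [if_neg hx]
  field_simp

private lemma qa_zeta_ne {x : ℂ} (hx : 0 < x.re) : riemannZeta (1 + x) ≠ 0 := by
  apply riemannZeta_ne_zero_of_one_le_re
  simp
  linarith

private lemma qa_VV (s₁ w₁ s₂ w₂ : ℂ) (h1 : 0 < s₁.re) (h2 : 0 < w₁.re) (h3 : 0 < s₂.re)
    (h4 : 0 < w₂.re) : VV s₁ w₁ s₂ w₂ 0 = 1 := by
  unfold VV
  simp only [sub_zero, add_zero]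
  have e1 := qa_zeta_ne h1
  have e2 := qa_zeta_ne h2
  have e3 := qa_zeta_ne h3
  have e4 := qa_zeta_ne h4
  field_simp

/-- one quotient of zeta values -/
private lemma qa_ratio : ∃ K B : ℝ, 0 < K ∧ 0 < B ∧ ∀ L P : ℝ, 500 ≤ L → 1 ≤ P → ∀ u v : ℂ,
    4 ≤ u.re → u.re ≤ 6 → 4 ≤ v.re → v.re ≤ 6 → ‖u‖ ≤ 6 * P → ‖v‖ ≤ 6 * P →
    ‖riemannZeta (1 + u / L) / riemannZeta (1 + v / L)‖ ≤ K * P ^ B := by
  obtain ⟨C, A, hC, hA, hup⟩ := kz_upper
  obtain ⟨c, A', hc, hA', hlow⟩ := kz_lower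
  refine ⟨C * 2 ^ A * (3 / 2) * (2 ^ A' / c), A + 1 + A', by positivity, by positivity, ?_⟩
  intro L P hL hP u v hu1 hu2 hv1 hv2 hu hv
  have hL0 : (0 : ℝ) < L := by linarith
  have hP0 : (0 : ℝ) < P := by linarith
  have hLc : (L : ℂ) ≠ 0 := by exact_mod_cast hL0.ne'
  have hnL : ‖(L : ℂ)‖ = L := by
    rw [Complex.norm_real, Real.norm_eq_abs, abs_of_pos hL0]
  have hure : (u / L).re = u.re / L := by
    rw [Complex.div_ofReal_re]
  have hvre : (v / L).re = v.re / L := by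
    rw [Complex.div_ofReal_re]
  have hx0 : 0 < (u / L).re := by rw [hure]; positivity
  have hy0 : 0 < (v / L).re := by rw [hvre]; positivity
  have hx1 : (u / L).re ≤ 1 := by
    rw [hure, div_le_one hL0]; linarith
  have hy1 : (v / L).re ≤ 1 := by
    rw [hvre, div_le_one hL0]; linarith
  have hxne : u / L ≠ 0 := by
    intro h; rw [h] at hx0; simp at hx0
  have hyne : v / L ≠ 0 := by
    intro h; rw [h] at hy0; simp at hy0
  have hnx : ‖u / (L : ℂ)‖ = ‖u‖ / L := by rw [norm_div, hnL]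
  have hny : ‖v / (L : ℂ)‖ = ‖v‖ / L := by rw [norm_div, hnL]
  have hxP : 1 + ‖u / (L : ℂ)‖ ≤ 2 * P := by
    rw [hnx]
    have : ‖u‖ / L ≤ P := by
      rw [div_le_iff₀ hL0]
      nlinarith only [hL, hP, hu]
    linarith
  have hyP : 1 + ‖v / (L : ℂ)‖ ≤ 2 * P := by
    rw [hny]
    have : ‖v‖ / L ≤ P := by
      rw [div_le_iff₀ hL0]
      nlinarith only [hL, hP, hv]
    linarith only [hP, this]
  have h1 : ‖kz (u / L)‖ ≤ C * (2 ^ A * P ^ A) := by
    refine ((hup (u / L) (u / L) hx0.le hx1 hx0.le hx1).1).trans ?_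
    apply mul_le_mul_of_nonneg_left _ hC.le
    rw [← Real.mul_rpow (by norm_num) hP0.le]
    exact Real.rpow_le_rpow (by positivity) hxP hA.le
  have h2 : c ≤ ‖kz (v / L)‖ * (2 ^ A' * P ^ A') := by
    refine (hlow (v / L) hy0.le hy1).trans ?_
    apply mul_le_mul_of_nonneg_left _ (norm_nonneg _)
    rw [← Real.mul_rpow (by norm_num) hP0.le]
    exact Real.rpow_le_rpow (by positivity) hyP hA'.le
  have hkv : 0 < ‖kz (v / L)‖ := by
    by_contra hcon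
    have h0 : ‖kz (v / L)‖ = 0 := le_antisymm (not_lt.mp hcon) (norm_nonneg _)
    rw [h0, zero_mul] at h2
    linarith only [hc, h2]
  have h3 : ‖v‖ / ‖u‖ ≤ 3 / 2 * P := by
    have hun : 4 ≤ ‖u‖ := hu1.trans ((le_abs_self _).trans (Complex.abs_re_le_norm u))
    rw [div_le_iff₀ (by linarith only [hun])]
    nlinarith only [hv, hun, hP]
  have hun0 : 0 < ‖u‖ := by
    have : 4 ≤ ‖u‖ := hu1.trans ((le_abs_self _).trans (Complex.abs_re_le_norm u))
    linarith only [this]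
  rw [qa_kz_eq hxne, qa_kz_eq hyne]
  have e : ‖kz (u / ↑L) / (u / ↑L) / (kz (v / ↑L) / (v / ↑L))‖ =
      ‖kz (u / L)‖ * (‖v‖ / ‖u‖) * (1 / ‖kz (v / L)‖) := by
    rw [norm_div, norm_div (kz (u / ↑L)) (u / ↑L), norm_div (kz (v / ↑L)) (v / ↑L), hnx, hny]
    field_simp
  rw [e]
  have h4 : 1 / ‖kz (v / L)‖ ≤ (2 ^ A' * P ^ A') / c := by
    rw [div_le_div_iff₀ hkv hc]
    linarith only [h2]
  calc ‖kz (u / L)‖ * (‖v‖ / ‖u‖) * (1 / ‖kz (v / L)‖)
      ≤ (C * (2 ^ A * P ^ A)) * (3 / 2 * P) * ((2 ^ A' * P ^ A') / c) := by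
        (clear * - h1 h3 hun0 hC hP h4 hkv; gcongr)
    _ = C * 2 ^ A * (3 / 2) * (2 ^ A' / c) * P ^ (A + 1 + A') := by
        rw [Real.rpow_add hP0, Real.rpow_add hP0, Real.rpow_one]
        ring

theorem OO_zero_bound (r : ℕ) (hr : Odd r) : ∃ C A L₀ : ℝ, 0 < C ∧ 0 < A ∧ ∀ L : ℝ, L₀ ≤ L →
    ∀ a b c d : ℝ,
    ‖OO r ((2 + Complex.I * a) / L) ((3 + Complex.I * b) / L) ((5 / 2 + Complex.I * c) / L)
      ((3 + Complex.I * d) / L) 0‖ ≤ C * ((1 + |a|) * (1 + |b|) * (1 + |c|) * (1 + |d|)) ^ A := by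
  obtain ⟨A, C, hC, hA1, hA2⟩ := euler r hr
  obtain ⟨K, B, hK, hB, hrat⟩ := qa_ratio
  refine ⟨K ^ 4 * C, 4 * B, 500, by positivity, by positivity, ?_⟩
  intro L hL a b c d
  have hL0 : (0 : ℝ) < L := by linarith
  set P : ℝ := (1 + |a|) * (1 + |b|) * (1 + |c|) * (1 + |d|) with hPdef
  have ha := abs_nonneg a
  have hb := abs_nonneg b
  have hc := abs_nonneg c
  have hd := abs_nonneg d
  have hPab : 1 + |a| + |b| + |c| + |d| ≤ P := by
    rw [hPdef]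
    have h1 : 1 + |a| + |b| ≤ (1 + |a|) * (1 + |b|) := by nlinarith only [ha, hb]
    have h2 : 1 + |a| + |b| + |c| ≤ (1 + |a|) * (1 + |b|) * (1 + |c|) := by
      nlinarith only [h1, ha, hc, hb, mul_nonneg ha hc, mul_nonneg hb hc]
    have h3 : (1 + |a| + |b| + |c|) * (1 + |d|) ≤
        (1 + |a|) * (1 + |b|) * (1 + |c|) * (1 + |d|) :=
      mul_le_mul_of_nonneg_right h2 (by linarith)
    nlinarith only [h3, ha, hd, hb, hc, mul_nonneg ha hd, mul_nonneg hb hd, mul_nonneg hc hd]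
  have hP1 : 1 ≤ P := by linarith
  have hP0 : 0 < P := by linarith
  set s₁ : ℂ := (2 + Complex.I * a) / L with hs₁
  set w₁ : ℂ := (3 + Complex.I * b) / L with hw₁
  set s₂ : ℂ := (5 / 2 + Complex.I * c) / L with hs₂
  set w₂ : ℂ := (3 + Complex.I * d) / L with hw₂
  have rs₁ : s₁.re = 2 / L := by
    rw [hs₁, Complex.div_ofReal_re]; simp
  have rw₁ : w₁.re = 3 / L := by
    rw [hw₁, Complex.div_ofReal_re]; simp
  have rs₂ : s₂.re = (5 / 2) / L := by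
    rw [hs₂, Complex.div_ofReal_re]; simp
  have rw₂ : w₂.re = 3 / L := by
    rw [hw₂, Complex.div_ofReal_re]; simp
  have ps₁ : 0 < s₁.re := by rw [rs₁]; positivity
  have pw₁ : 0 < w₁.re := by rw [rw₁]; positivity
  have ps₂ : 0 < s₂.re := by rw [rs₂]; positivity
  have pw₂ : 0 < w₂.re := by rw [rw₂]; positivity
  have us₁ : s₁.re ≤ 1 / 100 := by
    rw [rs₁, div_le_iff₀ hL0]; linarith only [hL]
  have uw₁ : w₁.re ≤ 1 / 100 := by
    rw [rw₁, div_le_iff₀ hL0]; linarith only [hL, ps₁, us₁]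
  have us₂ : s₂.re ≤ 1 / 100 := by
    rw [rs₂, div_le_iff₀ hL0]; linarith only [hL, ps₁, us₁]
  have uw₂ : w₂.re ≤ 1 / 100 := by
    rw [rw₂, div_le_iff₀ hL0]; linarith only [hL, ps₁, us₁]
  have h0 : |(0 : ℂ).re| = 0 := by simp
  have hOO := (hA2 s₁ w₁ s₂ w₂ 0 (by rw [h0]; exact ps₁) (by rw [h0]; exact pw₁)
    (by rw [h0]; exact ps₂) (by rw [h0]; exact pw₂) us₁ uw₁ us₂ uw₂).2
  have hAC := (hA1 s₁ w₁ s₂ w₂ 0 (by rw [abs_of_pos ps₁]; exact us₁)
    (by rw [abs_of_pos pw₁]; exact uw₁) (by rw [abs_of_pos ps₂]; exact us₂)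
    (by rw [abs_of_pos pw₂]; exact uw₂) (by rw [h0]; norm_num)).1
  rw [hOO, qa_VV s₁ w₁ s₂ w₂ ps₁ pw₁ ps₂ pw₂, mul_one, norm_mul]
  -- the eight arguments
  have nrm : ∀ (q : ℝ) (x y : ℝ), ‖((q : ℂ) + Complex.I * x + Complex.I * y)‖ ≤
      |q| + |x| + |y| := by
    intro q x y
    refine (norm_add_le _ _).trans ?_
    refine add_le_add ((norm_add_le _ _).trans ?_) ?_
    · refine add_le_add ?_ ?_
      · rw [Complex.norm_real, Real.norm_eq_abs]
      · rw [norm_mul, Complex.norm_I, one_mul, Complex.norm_real, Real.norm_eq_abs]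
    · rw [norm_mul, Complex.norm_I, one_mul, Complex.norm_real, Real.norm_eq_abs]
  have key : ∀ (q q' x y x' y' : ℝ), 4 ≤ q → q ≤ 6 → 4 ≤ q' → q' ≤ 6 →
      |x| + |y| + 1 ≤ 2 * P → |x'| + |y'| + 1 ≤ 2 * P → |x| + |y| ≤ 2 * P - 2 →
      |x'| + |y'| ≤ 2 * P - 2 →
      ‖riemannZeta (1 + ((q : ℂ) + Complex.I * x + Complex.I * y) / L) /
        riemannZeta (1 + ((q' : ℂ) + Complex.I * x' + Complex.I * y') / L)‖ ≤ K * P ^ B := by
    intro q q' x y x' y' h1 h2 h3 h4 h5 h6 h7 h8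
    apply hrat L P hL hP1
    · simp; exact h1
    · simp; exact h2
    · simp; exact h3
    · simp; exact h4
    · refine (nrm q x y).trans ?_
      rw [abs_of_nonneg (by linarith only [ps₁, us₁, h1] : (0 : ℝ) ≤ q)]
      linarith only [ha, hb, hc, hd, hPab, h2, h7]
    · refine (nrm q' x' y').trans ?_
      rw [abs_of_nonneg (by linarith only [ps₁, us₁, h3] : (0 : ℝ) ≤ q')]
      linarith only [ha, hb, hc, hd, hPab, h4, h8]
  have k1 := key 4 5 a a a b (by norm_num) (by norm_num) (by norm_num) (by norm_num)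
    (by linarith only [hb, hc, hd, hPab, ps₁, us₁]) (by linarith only [ha, hb, hc, hd, hPab, ps₁, us₁]) (by linarith only [hb, hc, hd, hPab]) (by linarith only [ha, hb, hc, hd, hPab])
  have k2 := key 5 5 c c a d (by norm_num) (by norm_num) (by norm_num) (by norm_num)
    (by linarith only [ha, hb, hd, hPab, ps₁, us₁]) (by linarith only [ha, hb, hc, hd, hPab, ps₁, us₁]) (by linarith only [ha, hb, hd, hPab]) (by linarith only [ha, hb, hc, hd, hPab])
  have k3 := key (9 / 2) (11 / 2) a c c b (by norm_num) (by norm_num) (by norm_num) (by norm_num)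
    (by linarith only [ha, hb, hc, hd, hPab, ps₁, us₁]) (by linarith only [ha, hb, hc, hd, hPab, ps₁, us₁]) (by linarith only [ha, hb, hc, hd, hPab]) (by linarith only [ha, hb, hc, hd, hPab])
  have k4 := key 6 (11 / 2) b d c d (by norm_num) (by norm_num) (by norm_num) (by norm_num)
    (by linarith only [ha, hb, hc, hd, hPab, ps₁, us₁]) (by linarith only [ha, hb, hc, hd, hPab, ps₁, us₁]) (by linarith only [ha, hb, hc, hd, hPab]) (by linarith only [ha, hb, hc, hd, hPab])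
  have e1 : 2 * s₁ = (((4 : ℝ) : ℂ) + Complex.I * a + Complex.I * a) / L := by
    rw [hs₁]; push_cast; ring
  have e2 : 2 * s₂ = (((5 : ℝ) : ℂ) + Complex.I * c + Complex.I * c) / L := by
    rw [hs₂]; push_cast; ring
  have e3 : s₁ + s₂ = (((9 / 2 : ℝ) : ℂ) + Complex.I * a + Complex.I * c) / L := by
    rw [hs₁, hs₂]; push_cast; ring
  have e4 : w₁ + w₂ = (((6 : ℝ) : ℂ) + Complex.I * b + Complex.I * d) / L := by
    rw [hw₁, hw₂]; push_cast; ring
  have e5 : s₁ + w₁ = (((5 : ℝ) : ℂ) + Complex.I * a + Complex.I * b) / L := by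
    rw [hs₁, hw₁]; push_cast; ring
  have e6 : s₁ + w₂ = (((5 : ℝ) : ℂ) + Complex.I * a + Complex.I * d) / L := by
    rw [hs₁, hw₂]; push_cast; ring
  have e7 : s₂ + w₁ = (((11 / 2 : ℝ) : ℂ) + Complex.I * c + Complex.I * b) / L := by
    rw [hs₂, hw₁]; push_cast; ring
  have e8 : s₂ + w₂ = (((11 / 2 : ℝ) : ℂ) + Complex.I * c + Complex.I * d) / L := by
    rw [hs₂, hw₂]; push_cast; ring
  rw [← e1, ← e5] at k1
  rw [← e2, ← e6] at k2
  rw [← e3, ← e7] at k3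
  rw [← e4, ← e8] at k4
  have hZ : Z0 s₁ w₁ s₂ w₂ = (riemannZeta (1 + 2 * s₁) / riemannZeta (1 + (s₁ + w₁))) *
      (riemannZeta (1 + 2 * s₂) / riemannZeta (1 + (s₁ + w₂))) *
      (riemannZeta (1 + (s₁ + s₂)) / riemannZeta (1 + (s₂ + w₁))) *
      (riemannZeta (1 + (w₁ + w₂)) / riemannZeta (1 + (s₂ + w₂))) := by
    unfold Z0
    simp only [div_eq_mul_inv, mul_inv]
    ring
  rw [hZ, norm_mul, norm_mul, norm_mul]
  have hPB : 0 < P ^ B := Real.rpow_pos_of_pos hP0 B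
  calc ‖riemannZeta (1 + 2 * s₁) / riemannZeta (1 + (s₁ + w₁))‖ *
          ‖riemannZeta (1 + 2 * s₂) / riemannZeta (1 + (s₁ + w₂))‖ *
          ‖riemannZeta (1 + (s₁ + s₂)) / riemannZeta (1 + (s₂ + w₁))‖ *
          ‖riemannZeta (1 + (w₁ + w₂)) / riemannZeta (1 + (s₂ + w₂))‖ * ‖A s₁ w₁ s₂ w₂ 0‖
      ≤ (K * P ^ B) * (K * P ^ B) * (K * P ^ B) * (K * P ^ B) * C := by (clear * - k1 k2 hK k3 k4 hAC; gcongr)
    _ = K ^ 4 * C * P ^ (4 * B) := by
        have : P ^ (4 * B) = P ^ B * P ^ B * P ^ B * P ^ B := by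
          rw [← Real.rpow_add hP0, ← Real.rpow_add hP0, ← Real.rpow_add hP0]
          congr 1
          ring
        rw [this]
        ring

end Pool.Agent.MP0016c7.Rz
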