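import Mathlib
import Pool.Agent.Lib.MP_0016c7_nt.Theta
import Pool.Agent.Lib.MP_0016c7_nt.Rz.Defs
import Pool.Agent.Lib.MP_0016c7_nt.Rz.DefsC
import Pool.Agent.Lib.MP_0016c7_nt.Rz.DefsF
import Pool.Agent.Lib.MP_0016c7_nt.Rz.DefsE
import Pool.Agent.Lib.MP_0016c7_nt.Rz.ZetaUp
import Pool.Agent.Lib.MP_0016c7_nt.Rz.ZetaLow

set_option autoImplicit false

open Finset MeasureTheory Filter Topology
open scoped Real ContDiff

namespace Pool.Agent.MP0016c7.Rz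

private theorem zr_a (u : ℝ) (hu : 0 ≤ u) : u ≤ (1 + u) ^ 2 := by nlinarith

private theorem zr_b (D L : ℝ) (hD : 1 ≤ D) (hL : 0 ≤ L) : D * L * L ≤ (1 + L * D) ^ 2 := by
  have h1 : 0 ≤ L * D := by positivity
  have h2 : D * L * L * 1 ≤ D * L * L * D := mul_le_mul_of_nonneg_left hD (by positivity)
  nlinarith

private theorem zr_c (D X : ℝ) (hD : 0 ≤ D) (hX : 1 < X) : D ≤ D * X := by nlinarith

theorem zeta_ratio (c₀ : ℝ) (hc : 0 < c₀) : ∃ C A : ℝ, 0 < C ∧ 0 < A ∧ ∀ L : ℝ, 100 ≤ L →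
    ∀ x y : ℂ, c₀ / L ≤ x.re → x.re ≤ 1 → c₀ / L ≤ y.re → y.re ≤ 1 →
    ‖riemannZeta (1 + x) / riemannZeta (1 + y) - 1‖ ≤
      C * (1 + L * ‖x - y‖) ^ 2 * (1 / (L * ‖x‖) + 1 / L * (1 + ‖x‖ + ‖y‖) ^ A) := by
  obtain ⟨C₁, A₁, hC₁, hA₁, hU⟩ := kz_upper
  obtain ⟨c₂, A₂, hc₂, hA₂, hLo⟩ := kz_lower
  refine ⟨C₁ / c₂ * (2 + 2 ^ A₁ * 3 ^ A₂ + 1 / c₀), A₁ + A₂, by positivity, by positivity, ?_⟩
  intro L hL x y hx0 hx1 hy0 hy1
  have hL0 : 0 < L := by linarith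
  have hcL : 0 < c₀ / L := div_pos hc hL0
  have hxre : 0 < x.re := lt_of_lt_of_le hcL hx0
  have hyre : 0 < y.re := lt_of_lt_of_le hcL hy0
  have hxne : x ≠ 0 := by
    rintro rfl
    simp at hxre
  have hyne : y ≠ 0 := by
    rintro rfl
    simp at hyre
  obtain ⟨b1, b2⟩ := hU x y hxre.le hx1 hyre.le hy1
  have b3 := hLo y hyre.le hy1
  have hXre : x.re ≤ ‖x‖ := Complex.re_le_norm x
  have hX0 : 0 < ‖x‖ := lt_of_lt_of_le hxre hXre
  have hY0 : 0 < ‖y‖ := norm_pos_iff.2 hyne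
  have hkx : kz x = x * riemannZeta (1 + x) := by unfold kz; rw [if_neg hxne]
  have hky : kz y = y * riemannZeta (1 + y) := by unfold kz; rw [if_neg hyne]
  have hkyne : kz y ≠ 0 := by
    intro h0
    rw [h0, norm_zero, zero_mul] at b3
    linarith
  have hzy : riemannZeta (1 + y) ≠ 0 := by
    intro h0
    exact hkyne (by rw [hky, h0, mul_zero])
  have hK : 0 < ‖kz y‖ := norm_pos_iff.2 hkyne
  have e1 : riemannZeta (1 + x) / riemannZeta (1 + y) - 1 =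
      ((y - x) * kz x / x + (kz x - kz y)) / kz y := by
    rw [hkx, hky]
    field_simp
    ring
  have hDxy : ‖y - x‖ = ‖x - y‖ := norm_sub_rev y x
  have hT := norm_sub_norm_le y x
  rw [hDxy] at hT
  have e2 : ‖riemannZeta (1 + x) / riemannZeta (1 + y) - 1‖ ≤
      (‖x - y‖ * ‖kz x‖ / ‖x‖ + ‖kz x - kz y‖) / ‖kz y‖ := by
    rw [e1, norm_div]
    apply div_le_div_of_nonneg_right _ hK.le
    refine (norm_add_le _ _).trans (le_of_eq ?_)
    rw [norm_div, norm_mul, hDxy]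
  set D : ℝ := ‖x - y‖ with hD
  set X : ℝ := ‖x‖ with hX
  set Y : ℝ := ‖y‖ with hY
  have hD0 : 0 ≤ D := norm_nonneg _
  have hS0 : 0 < 1 + X + Y := by positivity
  have hP : (1 + X + Y) ^ (A₁ + A₂) = (1 + X + Y) ^ A₁ * (1 + X + Y) ^ A₂ := Real.rpow_add hS0 _ _
  have p1 : (1 + X) ^ A₁ ≤ (1 + X + Y) ^ A₁ :=
    Real.rpow_le_rpow (by positivity) (by linarith) hA₁.le
  have p2 : (1 + Y) ^ A₂ ≤ (1 + X + Y) ^ A₂ :=
    Real.rpow_le_rpow (by positivity) (by linarith) hA₂.le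
  have q1 : 0 ≤ (1 + X) ^ A₁ := by positivity
  have q2 : 0 ≤ (1 + Y) ^ A₂ := by positivity
  have q3 : 0 ≤ (1 + X + Y) ^ A₁ := by positivity
  have q4 : 0 ≤ (1 + X + Y) ^ A₂ := by positivity
  have b4 : 1 / ‖kz y‖ ≤ (1 + Y) ^ A₂ / c₂ := by
    rw [div_le_div_iff₀ hK hc₂]
    linarith
  have e3 : (D * ‖kz x‖ / X + ‖kz x - kz y‖) / ‖kz y‖ ≤
      (D * (C₁ * (1 + X) ^ A₁) / X + C₁ * D * (1 + X + Y) ^ A₁) * ((1 + Y) ^ A₂ / c₂) := by
    rw [div_eq_mul_one_div (D * ‖kz x‖ / X + ‖kz x - kz y‖) ‖kz y‖]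
    apply mul_le_mul _ b4 (by positivity) (by positivity)
    apply add_le_add
    · apply div_le_div_of_nonneg_right _ hX0.le
      exact mul_le_mul_of_nonneg_left b1 hD0
    · exact b2
  set P : ℝ := (1 + X + Y) ^ (A₁ + A₂) with hPdef
  have hP0 : 0 ≤ P := by positivity
  have hLD : 0 ≤ L * D := by positivity
  have w1 : 0 ≤ (1 + L * D) ^ 2 * (1 / (L * X)) := by positivity
  have w2 : 0 ≤ (1 + L * D) ^ 2 * (1 / L * P) := by positivity
  have d1 : D ≤ (1 + L * D) ^ 2 * (1 / L) := by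
    rw [mul_one_div, le_div_iff₀ hL0]
    have := zr_a _ hLD
    rwa [mul_comm D L]
  have m1 : D * P ≤ (1 + L * D) ^ 2 * (1 / L * P) := by
    calc D * P ≤ ((1 + L * D) ^ 2 * (1 / L)) * P := mul_le_mul_of_nonneg_right d1 hP0
      _ = _ := by ring
  have c2' : D * (1 + X + Y) ^ A₁ * (1 + Y) ^ A₂ ≤
      (1 + L * D) ^ 2 * (1 / (L * X) + 1 / L * P) := by
    have : D * (1 + X + Y) ^ A₁ * (1 + Y) ^ A₂ ≤ D * P := by
      rw [hP, ← mul_assoc]
      exact mul_le_mul_of_nonneg_left p2 (by positivity)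
    rw [mul_add]
    linarith
  have hxy12 : (1 + X) ^ A₁ * (1 + Y) ^ A₂ ≤ P := by
    rw [hP]
    exact mul_le_mul p1 p2 q2 q3
  have c1' : D / X * ((1 + X) ^ A₁ * (1 + Y) ^ A₂) ≤
      (1 + 2 ^ A₁ * 3 ^ A₂ + 1 / c₀) * ((1 + L * D) ^ 2 * (1 / (L * X) + 1 / L * P)) := by
    have hW0 : 0 ≤ (1 + L * D) ^ 2 * (1 / (L * X) + 1 / L * P) := by
      rw [mul_add]; linarith
    have h23 : (0 : ℝ) ≤ 2 ^ A₁ * 3 ^ A₂ := by positivity
    have hc0' : 0 ≤ 1 / c₀ := by positivity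
    rcases le_or_gt X 1 with hX1 | hX1
    · rcases le_or_gt Y 2 with hY2 | hY2
      · have r1 : (1 + X) ^ A₁ ≤ 2 ^ A₁ :=
          Real.rpow_le_rpow (by positivity) (by linarith) hA₁.le
        have r2 : (1 + Y) ^ A₂ ≤ 3 ^ A₂ :=
          Real.rpow_le_rpow (by positivity) (by linarith) hA₂.le
        have r3 : (1 + X) ^ A₁ * (1 + Y) ^ A₂ ≤ 2 ^ A₁ * 3 ^ A₂ :=
          mul_le_mul r1 r2 q2 (by positivity)
        have r4 : D / X ≤ (1 + L * D) ^ 2 * (1 / (L * X)) := by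
          have : D / X = (L * D) * (1 / (L * X)) := by
            field_simp
          rw [this]
          apply mul_le_mul_of_nonneg_right _ (by positivity)
          exact zr_a _ hLD
        have r5 : D / X * ((1 + X) ^ A₁ * (1 + Y) ^ A₂) ≤
            ((1 + L * D) ^ 2 * (1 / (L * X))) * (2 ^ A₁ * 3 ^ A₂) :=
          mul_le_mul r4 r3 (by positivity) w1
        have r6 : (1 + L * D) ^ 2 * (1 / (L * X)) ≤
            (1 + L * D) ^ 2 * (1 / (L * X) + 1 / L * P) := by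
          rw [mul_add]; linarith
        have r7 := mul_le_mul_of_nonneg_right r6 h23
        have r8 := mul_nonneg hc0' hW0
        rw [add_mul, add_mul, one_mul]
        rw [mul_comm ((1 + L * D) ^ 2 * (1 / (L * X) + 1 / L * P)) (2 ^ A₁ * 3 ^ A₂)] at r7
        linarith
      · -- `D ≥ 1`
        have hD1 : 1 ≤ D := by linarith
        have r1 : 1 / X ≤ L * (1 / c₀) := by
          rw [mul_one_div, div_le_div_iff₀ hX0 hc]
          have : c₀ / L ≤ X := hx0.trans hXre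
          rw [div_le_iff₀ hL0] at this
          linarith
        have r2 : D / X * ((1 + X) ^ A₁ * (1 + Y) ^ A₂) ≤ (D * (L * (1 / c₀))) * P := by
          rw [div_eq_mul_one_div D X]
          exact mul_le_mul (mul_le_mul_of_nonneg_left r1 hD0) hxy12 (by positivity) (by positivity)
        have r3 : D * L ≤ (1 + L * D) ^ 2 * (1 / L) := by
          rw [mul_one_div, le_div_iff₀ hL0]
          exact zr_b D L hD1 hL0.le
        have r4 : (D * (L * (1 / c₀))) * P ≤ 1 / c₀ * ((1 + L * D) ^ 2 * (1 / L * P)) := by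
          calc (D * (L * (1 / c₀))) * P = (D * L) * (1 / c₀ * P) := by ring
            _ ≤ ((1 + L * D) ^ 2 * (1 / L)) * (1 / c₀ * P) :=
              mul_le_mul_of_nonneg_right r3 (by positivity)
            _ = _ := by ring
        have r5 : 1 / c₀ * ((1 + L * D) ^ 2 * (1 / L * P)) ≤
            1 / c₀ * ((1 + L * D) ^ 2 * (1 / (L * X) + 1 / L * P)) := by
          apply mul_le_mul_of_nonneg_left _ hc0'
          rw [mul_add]; linarith
        have r6 := mul_nonneg h23 hW0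
        rw [add_mul, add_mul, one_mul]
        linarith
    · have r1 : D / X * ((1 + X) ^ A₁ * (1 + Y) ^ A₂) ≤ D * P := by
        apply mul_le_mul _ hxy12 (by positivity) hD0
        rw [div_le_iff₀ hX0]
        exact zr_c D X hD0 hX1
      have r2 : D * P ≤ (1 + L * D) ^ 2 * (1 / (L * X) + 1 / L * P) := by
        rw [mul_add]; linarith
      have r3 := mul_nonneg h23 hW0
      have r4 := mul_nonneg hc0' hW0
      rw [add_mul, add_mul, one_mul]
      linarith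
  have hCc : 0 ≤ C₁ / c₂ := by positivity
  calc ‖riemannZeta (1 + x) / riemannZeta (1 + y) - 1‖
      ≤ (D * ‖kz x‖ / X + ‖kz x - kz y‖) / ‖kz y‖ := e2
    _ ≤ (D * (C₁ * (1 + X) ^ A₁) / X + C₁ * D * (1 + X + Y) ^ A₁) * ((1 + Y) ^ A₂ / c₂) := e3
    _ = C₁ / c₂ * (D / X * ((1 + X) ^ A₁ * (1 + Y) ^ A₂) +
          D * (1 + X + Y) ^ A₁ * (1 + Y) ^ A₂) := by
        field_simp
    _ ≤ C₁ / c₂ * ((1 + 2 ^ A₁ * 3 ^ A₂ + 1 / c₀) *
          ((1 + L * D) ^ 2 * (1 / (L * X) + 1 / L * P)) +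
          (1 + L * D) ^ 2 * (1 / (L * X) + 1 / L * P)) :=
        mul_le_mul_of_nonneg_left (add_le_add c1' c2') hCc
    _ = C₁ / c₂ * (2 + 2 ^ A₁ * 3 ^ A₂ + 1 / c₀) * (1 + L * D) ^ 2 *
          (1 / (L * X) + 1 / L * P) := by ring

end Pool.Agent.MP0016c7.Rz
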