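import Mathlib
import Pool.Agent.Lib.MP_0016c7_nt.Theta
import Pool.Agent.Lib.MP_0016c7_nt.Rz.Defs
import Pool.Agent.Lib.MP_0016c7_nt.Rz.DefsC
import Pool.Agent.Lib.MP_0016c7_nt.Rz.DefsF
import Pool.Agent.Lib.MP_0016c7_nt.Rz.DefsE

set_option autoImplicit false

open Finset MeasureTheory Filter Topology
open scoped Real ContDiff

namespace Pool.Agent.MP0016c7.Rz

/-- two-sided exponential -/
private noncomputable def gex (a b : ℂ) (x : ℝ) : ℂ :=
  if x ≤ 0 then Complex.exp (b * x) else Complex.exp (a * x)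

private theorem gex_continuous (a b : ℂ) : Continuous (gex a b) := by
  unfold gex
  refine Continuous.if_le (by fun_prop) (by fun_prop) continuous_id continuous_const ?_
  intro x hx
  rw [hx]
  simp

private theorem gex_integrable {a b : ℂ} (ha : a.re < 0) (hb : 0 < b.re) :
    Integrable (gex a b) := by
  rw [← integrableOn_univ, ← Set.Iic_union_Ioi (a := (0 : ℝ))]
  refine IntegrableOn.union ?_ ?_
  · refine (integrableOn_exp_mul_complex_Iic hb 0).congr_fun (fun x hx => ?_) measurableSet_Iic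
    unfold gex
    rw [if_pos (Set.mem_Iic.1 hx)]
  · refine (integrableOn_exp_mul_complex_Ioi ha 0).congr_fun (fun x hx => ?_) measurableSet_Ioi
    unfold gex
    rw [if_neg (not_le.2 hx)]

private theorem gex_fourier {a b : ℂ} (ha : a.re < 0) (hb : 0 < b.re) (t : ℝ) :
    ∫ x : ℝ, Complex.exp (Complex.I * t * x) * gex a b x =
      1 / (b + Complex.I * t) - 1 / (a + Complex.I * t) := by
  have hbt : (b + Complex.I * t).re = b.re := by simp
  have hat : (a + Complex.I * t).re = a.re := by simp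
  have hint : Integrable fun x : ℝ => Complex.exp (Complex.I * t * x) * gex a b x := by
    refine (gex_integrable ha hb).bdd_mul (c := 1) (by fun_prop) ?_
    refine Eventually.of_forall fun x => ?_
    rw [Complex.norm_exp]
    simp
  rw [← integral_add_compl (measurableSet_Iic (a := (0 : ℝ))) hint, Set.compl_Iic]
  have h1 : ∫ x : ℝ in Set.Iic 0, Complex.exp (Complex.I * t * x) * gex a b x =
      1 / (b + Complex.I * t) := by
    have := integral_exp_mul_complex_Iic (a := b + Complex.I * t) (by rw [hbt]; exact hb) 0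
    rw [Complex.ofReal_zero, mul_zero, Complex.exp_zero] at this
    rw [← this]
    refine setIntegral_congr_fun measurableSet_Iic fun x hx => ?_
    unfold gex
    rw [if_pos (Set.mem_Iic.1 hx), ← Complex.exp_add]
    ring_nf
  have h2 : ∫ x : ℝ in Set.Ioi 0, Complex.exp (Complex.I * t * x) * gex a b x =
      -(1 / (a + Complex.I * t)) := by
    have := integral_exp_mul_complex_Ioi (a := a + Complex.I * t) (by rw [hat]; exact ha) 0
    rw [Complex.ofReal_zero, mul_zero, Complex.exp_zero, neg_div] at this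
    rw [← this]
    refine setIntegral_congr_fun measurableSet_Ioi fun x hx => ?_
    unfold gex
    rw [if_neg (not_le.2 (Set.mem_Ioi.1 hx)), ← Complex.exp_add]
    ring_nf
  rw [h1, h2, sub_eq_add_neg]

private theorem sq_int (c : ℂ) (hc : c.re ≠ 0) :
    Integrable fun t : ℝ => ‖c + Complex.I * t‖⁻¹ ^ 2 := by
  have h0 : Integrable fun t : ℝ => (1 + 1 / c.re ^ 2) * (1 + (c.im + t) ^ 2)⁻¹ :=
    (integrable_inv_one_add_sq.comp_add_left c.im).const_mul _
  refine h0.mono' ?_ (Eventually.of_forall fun t => ?_)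
  · refine AEStronglyMeasurable.pow ?_ 2
    refine (Continuous.inv₀ (by fun_prop) fun t => ?_).aestronglyMeasurable
    rw [norm_ne_zero_iff]
    intro h
    apply hc
    have := congrArg Complex.re h
    simpa using this
  · have hn : ‖c + Complex.I * t‖ ^ 2 = c.re ^ 2 + (c.im + t) ^ 2 := by
      rw [← Complex.normSq_eq_norm_sq, Complex.normSq_apply]
      simp
      ring
    have hpos : 0 < c.re ^ 2 := by positivity
    rw [Real.norm_of_nonneg (by positivity), inv_pow, hn]
    have h3 : 0 < 1 + (c.im + t) ^ 2 := by positivity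
    have h4 : 0 < c.re ^ 2 + (c.im + t) ^ 2 := by positivity
    rw [inv_eq_one_div, inv_eq_one_div, mul_one_div, div_le_div_iff₀ h4 h3]
    have h5 : 1 / c.re ^ 2 * c.re ^ 2 = 1 := by field_simp
    nlinarith [sq_nonneg (c.im + t), mul_nonneg (by positivity : (0:ℝ) ≤ 1 / c.re ^ 2) (sq_nonneg (c.im + t))]

private theorem diff_int {a b : ℂ} (ha : a.re ≠ 0) (hb : b.re ≠ 0) :
    Integrable fun t : ℝ => 1 / (b + Complex.I * t) - 1 / (a + Complex.I * t) := by
  have hne : ∀ (c : ℂ), c.re ≠ 0 → ∀ t : ℝ, c + Complex.I * t ≠ 0 := by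
    intro c hc t h
    apply hc
    have := congrArg Complex.re h
    simpa using this
  have h0 : Integrable fun t : ℝ => ‖a - b‖ * (‖a + Complex.I * t‖⁻¹ ^ 2 + ‖b + Complex.I * t‖⁻¹ ^ 2) :=
    ((sq_int a ha).add (sq_int b hb)).const_mul _
  refine h0.mono' ?_ (Eventually.of_forall fun t => ?_)
  · refine Continuous.aestronglyMeasurable ?_
    exact (continuous_const.div (by fun_prop) (hne b hb)).sub
      (continuous_const.div (by fun_prop) (hne a ha))
  · have h1 : 1 / (b + Complex.I * t) - 1 / (a + Complex.I * t) =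
        (a - b) * ((a + Complex.I * t)⁻¹ * (b + Complex.I * t)⁻¹) := by
      have := hne a ha t
      have := hne b hb t
      field_simp
      ring
    rw [h1, norm_mul, norm_mul, norm_inv, norm_inv]
    refine mul_le_mul_of_nonneg_left ?_ (norm_nonneg _)
    nlinarith [sq_nonneg (‖a + Complex.I * t‖⁻¹ - ‖b + Complex.I * t‖⁻¹),
      sq_nonneg (‖a + Complex.I * t‖⁻¹), sq_nonneg (‖b + Complex.I * t‖⁻¹)]

open scoped FourierTransform in
/-- Fourier inversion for the two-sided exponential at the point `1` -/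
private theorem gex_inversion {a b : ℂ} (ha : a.re < 0) (hb : 0 < b.re) :
    ∫ t : ℝ, Complex.exp (-(Complex.I * t)) * (1 / (b + Complex.I * t) - 1 / (a + Complex.I * t)) =
      2 * π * Complex.exp a := by
  have hF : ∀ ξ : ℝ, 𝓕 (gex a b) ξ =
      1 / (b + Complex.I * (((-2 * π) * ξ : ℝ) : ℂ)) -
        1 / (a + Complex.I * (((-2 * π) * ξ : ℝ) : ℂ)) := by
    intro ξ
    rw [Real.fourier_real_eq_integral_exp_smul, ← gex_fourier ha hb]
    refine integral_congr_ae (Eventually.of_forall fun x => ?_)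
    simp only [smul_eq_mul]
    congr 2
    push_cast
    ring
  have hFi : Integrable (𝓕 (gex a b)) := by
    have h1 := (diff_int ha.ne hb.ne').comp_mul_left' (R := -2 * π)
      (mul_ne_zero (by norm_num) Real.pi_ne_zero)
    exact h1.congr (Eventually.of_forall fun ξ => (hF ξ).symm)
  have hinv := (gex_integrable ha hb).fourierInv_fourier_eq hFi
    (v := 1) (gex_continuous a b).continuousAt
  rw [Real.fourierInv_eq'] at hinv
  have h1 : gex a b 1 = Complex.exp a := by
    unfold gex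
    rw [if_neg (by norm_num)]
    simp
  rw [h1] at hinv
  have h2 : ∀ ξ : ℝ, Complex.exp (((2 * π * inner ℝ ξ 1 : ℝ) : ℂ) * Complex.I) • 𝓕 (gex a b) ξ =
      (fun t : ℝ => Complex.exp (-(Complex.I * t)) *
        (1 / (b + Complex.I * t) - 1 / (a + Complex.I * t))) ((-2 * π) * ξ) := by
    intro ξ
    rw [hF, smul_eq_mul]
    simp only
    congr 2
    simp
    ring
  rw [integral_congr_ae (Eventually.of_forall h2)] at hinv
  rw [MeasureTheory.Measure.integral_comp_mul_left (fun t : ℝ => Complex.exp (-(Complex.I * t)) *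
        (1 / (b + Complex.I * t) - 1 / (a + Complex.I * t))) (-2 * π)] at hinv
  rw [← hinv]
  have h3 : |(-2 * π)⁻¹| = (2 * π)⁻¹ := by
    rw [abs_inv, neg_mul, abs_neg, abs_of_pos (by positivity)]
  rw [h3, Complex.real_smul]
  have h4 : (π : ℂ) ≠ 0 := by exact_mod_cast Real.pi_ne_zero
  push_cast
  field_simp

/-- a pole to the right of the line -/
private theorem pole_right {p : ℂ} (hp : 1 < p.re) :
    ∫ t : ℝ, Complex.exp (-(1 + Complex.I * t)) *
      (1 / (1 + Complex.I * t) + 1 / (p - (1 + Complex.I * t))) = 2 * π * Complex.exp (-p) := by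
  have h := gex_inversion (a := 1 - p) (b := 1) (by simp; linarith) (by simp)
  have h2 : Complex.exp (-p) = Complex.exp (-1) * Complex.exp (1 - p) := by
    rw [← Complex.exp_add]; ring_nf
  rw [h2, ← mul_assoc, mul_comm (2 * (π : ℂ)) (Complex.exp (-1)), mul_assoc, ← h,
    ← integral_const_mul]
  refine integral_congr_ae (Eventually.of_forall fun t => ?_)
  simp only
  have h3 : -(1 + Complex.I * t) = -1 + -(Complex.I * t) := by ring
  have h4 : p - (1 + Complex.I * t) = -(1 - p + Complex.I * t) := by ring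
  rw [h3, Complex.exp_add, h4, one_div_neg_eq_neg_one_div, mul_assoc]
  ring

/-- a pole to the left of the line -/
private theorem pole_left {w : ℂ} (hw : 0 < w.re) :
    ∫ t : ℝ, Complex.exp (-(1 + Complex.I * t)) *
      (1 / (1 + Complex.I * t) - 1 / (w + (1 + Complex.I * t))) = 0 := by
  have h := gex_inversion (a := -1) (b := 1) (by simp) (by simp)
  have h' := gex_inversion (a := -1) (b := w + 1) (by simp) (by simp; linarith)
  have i1 : Integrable fun t : ℝ => Complex.exp (-(Complex.I * t)) *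
      (1 / (1 + Complex.I * t) - 1 / (-1 + Complex.I * t)) := by
    refine (diff_int (a := -1) (b := 1) (by simp) (by simp)).bdd_mul (c := 1) (by fun_prop) ?_
    refine Eventually.of_forall fun x => ?_
    rw [Complex.norm_exp]
    simp
  have i2 : Integrable fun t : ℝ => Complex.exp (-(Complex.I * t)) *
      (1 / (w + 1 + Complex.I * t) - 1 / (-1 + Complex.I * t)) := by
    refine (diff_int (a := -1) (b := w + 1) (by simp) (by simp; linarith)).bdd_mul (c := 1)
      (by fun_prop) ?_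
    refine Eventually.of_forall fun x => ?_
    rw [Complex.norm_exp]
    simp
  have h5 : Complex.exp (-1) * (∫ t : ℝ, (Complex.exp (-(Complex.I * t)) *
      (1 / (1 + Complex.I * t) - 1 / (-1 + Complex.I * t)) - Complex.exp (-(Complex.I * t)) *
      (1 / (w + 1 + Complex.I * t) - 1 / (-1 + Complex.I * t)))) = 0 := by
    rw [integral_sub i1 i2, h, h', sub_self, mul_zero]
  rw [← h5, ← integral_const_mul]
  refine integral_congr_ae (Eventually.of_forall fun t => ?_)
  simp only
  have h3 : -(1 + Complex.I * t) = -1 + -(Complex.I * t) := by ring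
  have h4 : w + (1 + Complex.I * t) = w + 1 + Complex.I * t := by ring
  rw [h3, Complex.exp_add, h4]
  ring

private theorem right_int {p : ℂ} (hp : 1 < p.re) :
    Integrable fun t : ℝ => Complex.exp (-(1 + Complex.I * t)) *
      (1 / (1 + Complex.I * t) + 1 / (p - (1 + Complex.I * t))) := by
  have i1 : Integrable fun t : ℝ => Complex.exp (-(1 + Complex.I * t)) *
      (1 / (1 + Complex.I * t) - 1 / (1 - p + Complex.I * t)) := by
    refine (diff_int (a := 1 - p) (b := 1) (by simp; intro h; linarith)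
      (by simp)).bdd_mul (c := 1) (by fun_prop) ?_
    refine Eventually.of_forall fun x => ?_
    rw [Complex.norm_exp]
    simp
  refine i1.congr (Eventually.of_forall fun t => ?_)
  simp only
  have h4 : p - (1 + Complex.I * t) = -(1 - p + Complex.I * t) := by ring
  rw [h4, one_div_neg_eq_neg_one_div]
  ring

private theorem left_int {w : ℂ} (hw : 0 < w.re) :
    Integrable fun t : ℝ => Complex.exp (-(1 + Complex.I * t)) *
      (1 / (1 + Complex.I * t) - 1 / (w + (1 + Complex.I * t))) := by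
  have i1 : Integrable fun t : ℝ => Complex.exp (-(1 + Complex.I * t)) *
      (1 / (1 + Complex.I * t) - 1 / (w + 1 + Complex.I * t)) := by
    refine (diff_int (a := w + 1) (b := 1) (by simp; intro h; linarith)
      (by simp)).bdd_mul (c := 1) (by fun_prop) ?_
    refine Eventually.of_forall fun x => ?_
    rw [Complex.norm_exp]
    simp
  refine i1.congr (Eventually.of_forall fun t => ?_)
  simp only
  have h4 : w + (1 + Complex.I * t) = w + 1 + Complex.I * t := by ring
  rw [h4]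

private theorem part_frac (z s₁ s₂ w₁ w₂ : ℂ) (hz : z ≠ 0) (h1 : s₁ - z ≠ 0) (h2 : s₂ - z ≠ 0)
    (h3 : w₁ + z ≠ 0) (h4 : w₂ + z ≠ 0) (hs : s₂ - s₁ ≠ 0) (hw : w₂ - w₁ ≠ 0)
    (h11 : w₁ + s₁ ≠ 0) (h12 : w₁ + s₂ ≠ 0) (h21 : w₂ + s₁ ≠ 0) (h22 : w₂ + s₂ ≠ 0) :
    (((w₁ - z) / (s₁ - z)) * ((w₂ - z) / (s₂ - z)) * ((s₁ + z) / (w₁ + z)) *
        ((s₂ + z) / (w₂ + z)) - 1) / z =
      (2 * (s₁ + s₂) * (w₁ - s₁) * (w₂ - s₁) / ((s₂ - s₁) * (w₁ + s₁) * (w₂ + s₁))) *
        (1 / z + 1 / (s₁ - z))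
      - (2 * (s₁ + s₂) * (w₁ - s₂) * (w₂ - s₂) / ((s₂ - s₁) * (w₁ + s₂) * (w₂ + s₂))) *
        (1 / z + 1 / (s₂ - z))
      + (2 * (w₁ + w₂) * (s₁ - w₁) * (s₂ - w₁) / ((w₁ + s₁) * (w₁ + s₂) * (w₂ - w₁))) *
        (1 / z - 1 / (w₁ + z))
      - (2 * (w₁ + w₂) * (s₁ - w₂) * (s₂ - w₂) / ((w₂ + s₁) * (w₂ + s₂) * (w₂ - w₁))) *
        (1 / z - 1 / (w₂ + z)) := by
  field_simp
  ring

private theorem lin4 {g₁ g₂ g₃ g₄ : ℝ → ℂ} (A B C D : ℂ) (i1 : Integrable g₁)
    (i2 : Integrable g₂) (i3 : Integrable g₃) (i4 : Integrable g₄) :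
    ∫ t : ℝ, (A * g₁ t - B * g₂ t + C * g₃ t - D * g₄ t) =
      A * (∫ t, g₁ t) - B * (∫ t, g₂ t) + C * (∫ t, g₃ t) - D * (∫ t, g₄ t) := by
  have j1 : Integrable fun t => A * g₁ t := i1.const_mul A
  have j2 : Integrable fun t => B * g₂ t := i2.const_mul B
  have j3 : Integrable fun t => C * g₃ t := i3.const_mul C
  have j4 : Integrable fun t => D * g₄ t := i4.const_mul D
  have j12 : Integrable fun t => A * g₁ t - B * g₂ t := j1.sub j2
  have j123 : Integrable fun t => A * g₁ t - B * g₂ t + C * g₃ t := j12.add j3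
  rw [integral_sub j123 j4, integral_add j12 j3, integral_sub j1 j2,
    integral_const_mul, integral_const_mul, integral_const_mul, integral_const_mul]

theorem z_integral (s₁ w₁ s₂ w₂ : ℂ) (h1 : 1 < s₁.re) (h3 : 1 < s₂.re) (h2 : 0 < w₁.re)
    (h4 : 0 < w₂.re) (hne : s₁ ≠ s₂) (hne' : w₁ ≠ w₂) :
    1 / (2 * π) * ∫ t : ℝ, (Vr s₁ w₁ s₂ w₂ (1 + Complex.I * t) - 1) *
      Complex.exp (-(1 + Complex.I * t)) / (1 + Complex.I * t) = II s₁ w₁ s₂ w₂ := by
  have hre : ∀ t : ℝ, (1 + Complex.I * t).re = 1 := fun t => by simp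
  have hne0 : ∀ u : ℂ, u.re ≠ 0 → u ≠ 0 := fun u hu h => hu (by rw [h]; rfl)
  have hs : s₂ - s₁ ≠ 0 := sub_ne_zero.2 (Ne.symm hne)
  have hw : w₂ - w₁ ≠ 0 := sub_ne_zero.2 (Ne.symm hne')
  have h11 : w₁ + s₁ ≠ 0 := hne0 _ (by rw [Complex.add_re]; intro h; linarith)
  have h12 : w₁ + s₂ ≠ 0 := hne0 _ (by rw [Complex.add_re]; intro h; linarith)
  have h21 : w₂ + s₁ ≠ 0 := hne0 _ (by rw [Complex.add_re]; intro h; linarith)
  have h22 : w₂ + s₂ ≠ 0 := hne0 _ (by rw [Complex.add_re]; intro h; linarith)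
  have hpt : ∀ t : ℝ, (Vr s₁ w₁ s₂ w₂ (1 + Complex.I * t) - 1) *
      Complex.exp (-(1 + Complex.I * t)) / (1 + Complex.I * t) =
      (2 * (s₁ + s₂) * (w₁ - s₁) * (w₂ - s₁) / ((s₂ - s₁) * (w₁ + s₁) * (w₂ + s₁))) *
        (Complex.exp (-(1 + Complex.I * t)) *
          (1 / (1 + Complex.I * t) + 1 / (s₁ - (1 + Complex.I * t))))
      - (2 * (s₁ + s₂) * (w₁ - s₂) * (w₂ - s₂) / ((s₂ - s₁) * (w₁ + s₂) * (w₂ + s₂))) *
        (Complex.exp (-(1 + Complex.I * t)) *
          (1 / (1 + Complex.I * t) + 1 / (s₂ - (1 + Complex.I * t))))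
      + (2 * (w₁ + w₂) * (s₁ - w₁) * (s₂ - w₁) / ((w₁ + s₁) * (w₁ + s₂) * (w₂ - w₁))) *
        (Complex.exp (-(1 + Complex.I * t)) *
          (1 / (1 + Complex.I * t) - 1 / (w₁ + (1 + Complex.I * t))))
      - (2 * (w₁ + w₂) * (s₁ - w₂) * (s₂ - w₂) / ((w₂ + s₁) * (w₂ + s₂) * (w₂ - w₁))) *
        (Complex.exp (-(1 + Complex.I * t)) *
          (1 / (1 + Complex.I * t) - 1 / (w₂ + (1 + Complex.I * t)))) := by
    intro t
    have e := part_frac (1 + Complex.I * t) s₁ s₂ w₁ w₂
      (hne0 _ (by rw [hre]; norm_num))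
      (hne0 _ (by rw [Complex.sub_re, hre]; intro h; linarith))
      (hne0 _ (by rw [Complex.sub_re, hre]; intro h; linarith))
      (hne0 _ (by rw [Complex.add_re, hre]; intro h; linarith))
      (hne0 _ (by rw [Complex.add_re, hre]; intro h; linarith)) hs hw h11 h12 h21 h22
    have e2 : (Vr s₁ w₁ s₂ w₂ (1 + Complex.I * t) - 1) *
        Complex.exp (-(1 + Complex.I * t)) / (1 + Complex.I * t) =
        Complex.exp (-(1 + Complex.I * t)) *
          ((Vr s₁ w₁ s₂ w₂ (1 + Complex.I * t) - 1) / (1 + Complex.I * t)) := by ring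
    rw [e2]
    unfold Vr
    rw [e]
    ring
  rw [integral_congr_ae (Eventually.of_forall hpt)]
  rw [lin4 _ _ _ _ (right_int h1) (right_int h3) (left_int h2) (left_int h4),
    pole_right h1, pole_right h3, pole_left h2, pole_left h4]
  unfold II
  have hs' : s₁ - s₂ ≠ 0 := sub_ne_zero.2 hne
  have hpi : (π : ℂ) ≠ 0 := by exact_mod_cast Real.pi_ne_zero
  have e3 : (s₂ - s₁) * (w₁ + s₂) * (w₂ + s₂) = -((s₁ - s₂) * (w₁ + s₂) * (w₂ + s₂)) := by ring
  rw [e3, div_neg]
  field_simp
  ring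

end Pool.Agent.MP0016c7.Rz
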