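import Mathlib
import Pool.Agent.Lib.MP_0016c7_nt.Theta
import Pool.Agent.Lib.MP_0016c7_nt.Rz.Defs
import Pool.Agent.Lib.MP_0016c7_nt.Rz.DefsC
import Pool.Agent.Lib.MP_0016c7_nt.Rz.DefsF
import Pool.Agent.Lib.MP_0016c7_nt.Rz.DefsE
import Pool.Agent.Lib.MP_0016c7_nt.Rz.Gauss1
import Pool.Agent.Lib.MP_0016c7_nt.Rz.FtS

set_option autoImplicit false

open Finset MeasureTheory Filter Topology
open scoped Real ContDiff

namespace Pool.Agent.MP0016c7.Rz

private lemma pois_summ (φ : SchwartzMap ℝ ℝ) {c : ℝ} (hc : 0 < c) :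
    Summable (fun k : ℤ => φ ((k : ℝ) * c)) := by
  obtain ⟨C, hC0, hC⟩ := φ.decay 2 0
  have h1 : Summable (fun k : ℤ => C / c ^ 2 * (1 / (k : ℝ) ^ 2)) :=
    (Real.summable_one_div_int_pow.mpr (by norm_num)).mul_left _
  refine Summable.of_norm_bounded_eventually h1 ?_
  have h2 : ({0} : Set ℤ).Finite := Set.finite_singleton 0
  filter_upwards [h2.compl_mem_cofinite] with k hk
  have hk0 : (k : ℝ) ≠ 0 := by
    simp at hk
    exact_mod_cast hk
  have h3 := hC ((k : ℝ) * c)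
  rw [norm_iteratedFDeriv_zero] at h3
  have h4 : ‖(k : ℝ) * c‖ ^ 2 = (k : ℝ) ^ 2 * c ^ 2 := by
    rw [Real.norm_eq_abs, sq_abs]; ring
  rw [h4] at h3
  have h5 : 0 < (k : ℝ) ^ 2 * c ^ 2 := by positivity
  rw [div_mul_div_comm, le_div_iff₀ (by positivity)]
  nlinarith

private lemma pois_supp {F : ℝ → ℝ} {a b : ℝ} (hF : Bump F a b) : HasCompactSupport F := by
  refine HasCompactSupport.intro (isCompact_Icc (a := a) (b := b)) ?_
  intro x hx
  by_contra h
  have := hF.supp x h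
  exact hx ⟨this.1.le, this.2.le⟩

private lemma pois_int {F : ℝ → ℝ} {a b : ℝ} (hF : Bump F a b) {g : ℝ → ℝ} (hg : Continuous g) :
    Integrable (fun t => F t * g t) := by
  refine Continuous.integrable_of_hasCompactSupport (hF.smooth.continuous.mul hg) ?_
  exact (pois_supp hF).mul_right

private lemma pois_split {F : ℝ → ℝ} {a b : ℝ} (hF : Bump F a b) (σ : ℤ) (ξ : ℝ) :
    Ft F σ ξ = (∫ t : ℝ, F t * Real.cos (2 * π * ξ * t)) +
      σ * ∫ t : ℝ, F t * Real.sin (2 * π * ξ * t) := by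
  unfold Ft
  have h1 : Integrable (fun t => F t * Real.cos (2 * π * ξ * t)) :=
    pois_int hF (by fun_prop)
  have h2 : Integrable (fun t => F t * Real.sin (2 * π * ξ * t)) :=
    pois_int hF (by fun_prop)
  rw [← integral_const_mul, ← integral_add h1 (h2.const_mul _)]
  congr 1
  ext t
  ring

private lemma pois_fourier {F : ℝ → ℝ} {a b : ℝ} (hF : Bump F a b) {c : ℝ} (hc : 0 < c) (w : ℝ)
    (f : ℝ → ℂ) (hf : ∀ t, f t = (F (t / c) : ℂ)) :
    (∫ v : ℝ, Complex.exp (((-2 * π * v * w : ℝ) : ℂ) * Complex.I) • f v) =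
      (c : ℂ) * (((∫ t : ℝ, F t * Real.cos (2 * π * (w * c) * t) : ℝ) : ℂ) -
        Complex.I * ((∫ t : ℝ, F t * Real.sin (2 * π * (w * c) * t) : ℝ) : ℂ)) := by
  have h1 : Integrable (fun t => F t * Real.cos (2 * π * (w * c) * t)) :=
    pois_int hF (by fun_prop)
  have h2 : Integrable (fun t => F t * Real.sin (2 * π * (w * c) * t)) :=
    pois_int hF (by fun_prop)
  have h3 := Measure.integral_comp_mul_left
    (fun t : ℝ => ((F t * Real.cos (2 * π * (w * c) * t) : ℝ) : ℂ) -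
      Complex.I * ((F t * Real.sin (2 * π * (w * c) * t) : ℝ) : ℂ)) (c⁻¹)
  have h4 : (fun v : ℝ => Complex.exp (((-2 * π * v * w : ℝ) : ℂ) * Complex.I) • f v) =
      fun v : ℝ => (((F (c⁻¹ * v) * Real.cos (2 * π * (w * c) * (c⁻¹ * v)) : ℝ) : ℂ) -
        Complex.I * ((F (c⁻¹ * v) * Real.sin (2 * π * (w * c) * (c⁻¹ * v)) : ℝ) : ℂ)) := by
    ext v
    have e1 : 2 * π * (w * c) * (c⁻¹ * v) = 2 * π * v * w := by
      field_simp
    have e2 : c⁻¹ * v = v / c := by
      rw [mul_comm, div_eq_mul_inv]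
    have e3 : -2 * π * v * w = -(2 * π * v * w) := by ring
    rw [e1, e2, hf, e3, smul_eq_mul, Complex.exp_ofReal_mul_I]
    simp only [Real.cos_neg, Real.sin_neg, Complex.ofReal_mul]
    push_cast
    ring
  rw [h4, h3, inv_inv, abs_of_pos hc]
  have h5 : Integrable (fun t : ℝ => ((F t * Real.cos (2 * π * (w * c) * t) : ℝ) : ℂ)) :=
    h1.ofReal
  have h6 : Integrable (fun t : ℝ =>
      Complex.I * ((F t * Real.sin (2 * π * (w * c) * t) : ℝ) : ℂ)) :=
    h2.ofReal.const_mul _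
  rw [integral_sub h5 h6, integral_const_mul, integral_complex_ofReal, integral_complex_ofReal]
  rw [Complex.real_smul]

private lemma pois_jr_mod (N : ℕ) [NeZero N] (n : ℤ) :
    jr (((n : ZMod N).val : ℕ) : ℤ) N = jr n N := by
  unfold jr
  split_ifs with h
  · rw [ZMod.val_intCast, ← jacobiSym.mod_left]
  · rfl

private lemma pois_sum_zmod (N : ℕ) [NeZero N] (h : ℕ → ℂ) :
    ∑ j : ZMod N, h j.val = ∑ b ∈ range N, h b := by
  refine Finset.sum_nbij (fun j => j.val) ?_ ?_ ?_ ?_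
  · intro j _
    exact mem_range.mpr (ZMod.val_lt j)
  · intro x _ y _ hxy
    exact ZMod.val_injective N hxy
  · intro b hb
    have hb' : b < N := by simpa using hb
    exact ⟨(b : ZMod N), by simp, ZMod.val_cast_of_lt hb'⟩
  · intro j _
    rfl

private lemma pois_jr_abs (k : ℤ) (N : ℕ) : |jr k N| ≤ 1 := by
  unfold jr
  split_ifs with h
  · rcases jacobiSym.trichotomy k N with h1 | h1 | h1 <;> rw [h1] <;> simp
  · simp

private lemma pois_main {F : ℝ → ℝ} {a b : ℝ} (ha : 0 < a) (hF : Bump F a b)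
    (N : ℕ) (hN : Odd N) (hs : Squarefree N) (Y : ℝ) (hY : 0 < Y) (A B : ℤ → ℝ)
    (hA : ∀ k : ℤ, A k = ∫ t : ℝ, F t * Real.cos (2 * π * ((k : ℝ) * (Y / N)) * t))
    (hB : ∀ k : ℤ, B k = ∫ t : ℝ, F t * Real.sin (2 * π * ((k : ℝ) * (Y / N)) * t))
    (sA : Summable A) (sB : Summable B) :
    ((∑' d : ℕ, F (d / Y) * jr d N : ℝ) : ℂ) =
      ((Y / √(N : ℝ) : ℝ) : ℂ) * (if N % 4 = 1 then 1 else Complex.I) *
        (((∑' k : ℤ, jr k N * A k : ℝ) : ℂ) - Complex.I * ((∑' k : ℤ, jr k N * B k : ℝ) : ℂ)) := by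
  have hN0 : 0 < N := hN.pos
  have : NeZero N := ⟨hN0.ne'⟩
  have hNr : (0 : ℝ) < N := by exact_mod_cast hN0
  set c : ℝ := Y / N with hc
  have hc0 : 0 < c := by positivity
  -- the function
  have hcs : HasCompactSupport (fun t : ℝ => ((F (t / c) : ℝ) : ℂ)) := by
    refine HasCompactSupport.intro (isCompact_Icc (a := a * c) (b := b * c)) ?_
    intro x hx
    by_contra h
    have h1 : F (x / c) ≠ 0 := by
      intro h2
      exact h (by rw [h2]; simp)
    have := hF.supp _ h1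
    rw [lt_div_iff₀ hc0, div_lt_iff₀ hc0] at this
    exact hx ⟨this.1.le, this.2.le⟩
  have hcd : ContDiff ℝ ∞ (fun t : ℝ => ((F (t / c) : ℝ) : ℂ)) := by
    have h1 : ContDiff ℝ ∞ (fun t : ℝ => F (t / c)) :=
      hF.smooth.comp (contDiff_id.div_const c)
    exact Complex.ofRealCLM.contDiff.comp h1
  set f : SchwartzMap ℝ ℂ := hcs.toSchwartzMap hcd with hf
  have hfv : ∀ t : ℝ, f t = ((F (t / c) : ℝ) : ℂ) := fun t => rfl
  -- the Fourier transform
  have hft : ∀ k : ℤ, (FourierTransform.fourier (f : ℝ → ℂ)) (k : ℝ) =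
      (c : ℂ) * ((A k : ℂ) - Complex.I * (B k : ℂ)) := by
    intro k
    rw [Real.fourier_real_eq_integral_exp_smul, pois_fourier hF hc0 k f hfv, hA, hB]
  -- summability of the integer samples
  have hsup : ∀ n : ℤ, F (n / Y) ≠ 0 → 0 < n ∧ n ≤ ⌈b * Y⌉ := by
    intro n hn
    have h1 := hF.supp _ hn
    rw [lt_div_iff₀ hY, div_lt_iff₀ hY] at h1
    constructor
    · have : (0 : ℝ) < n := lt_trans (by positivity) h1.1
      exact_mod_cast this
    · have h2 : (n : ℝ) ≤ ⌈b * Y⌉ := h1.2.le.trans (Int.le_ceil _)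
      exact_mod_cast h2
  have hg : Summable (fun n : ℤ => ((F (n / Y) : ℝ) : ℂ)) := by
    refine summable_of_ne_finset_zero (s := Finset.Icc 0 ⌈b * Y⌉) ?_
    intro n hn
    have : F (n / Y) = 0 := by
      by_contra h
      have := hsup n h
      exact hn (Finset.mem_Icc.mpr ⟨this.1.le, this.2⟩)
    rw [this]
    simp
  -- the residue decomposition
  have hres : ∀ j : ZMod N, HasSum (fun m : ℤ => ((F (((N * m + j.val : ℤ) : ℝ) / Y) : ℝ) : ℂ))
      (∑' k : ℤ, (c : ℂ) * ((A k : ℂ) - Complex.I * (B k : ℂ)) *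
        Complex.exp (2 * π * Complex.I * ((j.val : ℂ) * k / N))) := by
    intro j
    have hinj : Function.Injective (fun m : ℤ => (N : ℤ) * m + (j.val : ℤ)) := by
      intro x y hxy
      have hq : (N : ℤ) ≠ 0 := by exact_mod_cast (NeZero.ne N)
      have hab' : (N : ℤ) * x = (N : ℤ) * y := by
        have := hxy
        simp only at this
        linarith
      exact mul_left_cancel₀ hq hab'
    have h1 : Summable (fun m : ℤ => ((F (((N * m + j.val : ℤ) : ℝ) / Y) : ℝ) : ℂ)) := by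
      have := hg.comp_injective hinj
      exact this
    have h2 := SchwartzMap.tsum_eq_tsum_fourier f ((j.val : ℝ) / N)
    have h3 : (fun m : ℤ => ((F (((N * m + j.val : ℤ) : ℝ) / Y) : ℝ) : ℂ)) =
        fun m : ℤ => f ((j.val : ℝ) / N + m) := by
      ext m
      rw [hfv]
      congr 2
      rw [hc]
      push_cast
      field_simp
      ring
    have h4 : (∑' k : ℤ, (c : ℂ) * ((A k : ℂ) - Complex.I * (B k : ℂ)) *
        Complex.exp (2 * π * Complex.I * ((j.val : ℂ) * k / N))) =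
        ∑' m : ℤ, ((F (((N * m + j.val : ℤ) : ℝ) / Y) : ℝ) : ℂ) := by
      rw [h3, h2]
      refine tsum_congr fun k => ?_
      rw [fourier_coe_apply, SchwartzMap.fourier_coe, hft]
      congr 2
      push_cast
      field_simp
    rw [h4]
    exact h1.hasSum
  have h5 := hasSum_int_residue (fun j : ZMod N => (jr ((j.val : ℕ) : ℤ) N : ℂ))
    (fun n : ℤ => ((F ((n : ℝ) / Y) : ℝ) : ℂ)) _ hres
  have h6 : ∑' n : ℤ, (jr (((n : ZMod N).val : ℕ) : ℤ) N : ℂ) * ((F ((n : ℝ) / Y) : ℝ) : ℂ) =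
      ((∑' d : ℕ, F (d / Y) * jr d N : ℝ) : ℂ) := by
    rw [Complex.ofReal_tsum]
    have hinj : Function.Injective (fun d : ℕ => (d : ℤ)) := Nat.cast_injective
    rw [← hinj.tsum_eq]
    · refine tsum_congr fun d => ?_
      rw [pois_jr_mod]
      push_cast
      ring
    · intro n hn
      have h7 : F ((n : ℝ) / Y) ≠ 0 := by
        intro h8
        apply hn
        simp only
        rw [h8]
        simp
      have h9 := (hsup n h7).1
      exact ⟨n.toNat, by simpa using h9.le⟩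
  rw [← h6, h5.tsum_eq]
  -- interchange
  have sAc : Summable (fun k : ℤ => (A k : ℂ)) := Complex.summable_ofReal.mpr sA
  have sBc : Summable (fun k : ℤ => (B k : ℂ)) := Complex.summable_ofReal.mpr sB
  have sT : Summable (fun k : ℤ => (c : ℂ) * ((A k : ℂ) - Complex.I * (B k : ℂ))) :=
    (sAc.sub (sBc.mul_left _)).mul_left _
  have sTe : ∀ j : ZMod N, Summable (fun k : ℤ => (jr ((j.val : ℕ) : ℤ) N : ℂ) *
      ((c : ℂ) * ((A k : ℂ) - Complex.I * (B k : ℂ)) *
        Complex.exp (2 * π * Complex.I * ((j.val : ℂ) * k / N)))) := by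
    intro j
    refine Summable.mul_left _ ?_
    refine Summable.of_norm_bounded sT.norm ?_
    intro k
    have h1 : (2 * π * Complex.I * ((j.val : ℂ) * k / N)) =
        ((2 * π * ((j.val : ℝ) * k / N) : ℝ) : ℂ) * Complex.I := by
      push_cast
      ring
    rw [norm_mul, h1, Complex.norm_exp_ofReal_mul_I, mul_one]
  have h7 : ∑ j : ZMod N, (jr ((j.val : ℕ) : ℤ) N : ℂ) *
      (∑' k : ℤ, (c : ℂ) * ((A k : ℂ) - Complex.I * (B k : ℂ)) *
        Complex.exp (2 * π * Complex.I * ((j.val : ℂ) * k / N))) =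
      ∑' k : ℤ, (c : ℂ) * ((A k : ℂ) - Complex.I * (B k : ℂ)) *
        ((jr k N : ℂ) * (√(N : ℝ) : ℂ) * (if N % 4 = 1 then 1 else Complex.I)) := by
    simp_rw [← tsum_mul_left]
    rw [← Summable.tsum_finsetSum (fun j _ => sTe j)]
    refine tsum_congr fun k => ?_
    rw [← gauss_sum_jr N hN hs k, Finset.mul_sum,
      ← pois_sum_zmod N (fun b : ℕ => (c : ℂ) * ((A k : ℂ) - Complex.I * (B k : ℂ)) *
        ((jr b N : ℂ) * Complex.exp (2 * π * Complex.I * ((b : ℂ) * k / N))))]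
    refine Finset.sum_congr rfl fun j _ => ?_
    ring
  rw [h7]
  have h8 : ∀ x : ℤ → ℝ, Summable x → Summable (fun k : ℤ => jr k N * x k) := by
    intro x hx
    refine Summable.of_norm_bounded hx.norm ?_
    intro k
    rw [norm_mul, Real.norm_eq_abs]
    have := pois_jr_abs k N
    have h9 := norm_nonneg (x k)
    nlinarith
  rw [Complex.ofReal_tsum, Complex.ofReal_tsum, ← tsum_mul_left, ← Summable.tsum_sub
    (Complex.summable_ofReal.mpr (h8 A sA)) ((Complex.summable_ofReal.mpr (h8 B sB)).mul_left _),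
    ← tsum_mul_left]
  refine tsum_congr fun k => ?_
  have hsq : (√(N : ℝ) : ℂ) * (√(N : ℝ) : ℂ) = (N : ℂ) := by
    rw [← Complex.ofReal_mul, Real.mul_self_sqrt hNr.le]
    simp
  have hsq0 : (√(N : ℝ) : ℂ) ≠ 0 := by
    have : (√(N : ℝ)) ≠ 0 := (Real.sqrt_pos.mpr hNr).ne'
    exact_mod_cast this
  have hcc : (c : ℂ) * (√(N : ℝ) : ℂ) = ((Y / √(N : ℝ) : ℝ) : ℂ) := by
    rw [hc]
    push_cast
    rw [← hsq]
    field_simp
  rw [← hcc]
  push_cast
  ring

private lemma pois_odd_tsum (u : ℤ → ℝ) (h : ∀ k : ℤ, u (-k) = -u k) : ∑' k : ℤ, u k = 0 := by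
  have h1 := (Equiv.neg ℤ).tsum_eq u
  simp only [Equiv.neg_apply, h, tsum_neg] at h1
  linarith

private lemma pois_jr_mul (x y : ℤ) (N : ℕ) : jr (x * y) N = jr x N * jr y N := by
  unfold jr
  split_ifs with h
  · rw [jacobiSym.mul_left]
    push_cast
    rfl
  · simp

theorem poisson_sqf {F : ℝ → ℝ} {a b : ℝ} (ha : 0 < a) (hF : Bump F a b) (σ : ℤ)
    (hσ : σ = 1 ∨ σ = -1) (N : ℕ) (hN : Odd N) (hs : Squarefree N) (Y : ℝ) (hY : 0 < Y) :
    Summable (fun k : ℤ => Ft F σ ((k : ℝ) * Y / N)) ∧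
    ∑' d : ℕ, F (d / Y) * jr (σ * d) N =
      Y / √(N : ℝ) * ∑' k : ℤ, jr k N * Ft F σ ((k : ℝ) * Y / N) := by
  have hN0 : 0 < N := hN.pos
  have hNr : (0 : ℝ) < N := by exact_mod_cast hN0
  have hc0 : 0 < Y / N := by positivity
  have hsum : ∀ τ : ℤ, Summable (fun k : ℤ => Ft F τ ((k : ℝ) * Y / N)) := by
    intro τ
    obtain ⟨φ, hφ⟩ := Ft_schwartz hF τ
    have h1 := pois_summ φ hc0
    refine h1.congr fun k => ?_
    rw [hφ, mul_div_assoc]
  refine ⟨hsum σ, ?_⟩
  set A : ℤ → ℝ := fun k => ∫ t : ℝ, F t * Real.cos (2 * π * ((k : ℝ) * (Y / N)) * t) with hA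
  set B : ℤ → ℝ := fun k => ∫ t : ℝ, F t * Real.sin (2 * π * ((k : ℝ) * (Y / N)) * t) with hB
  have hAB : ∀ (τ : ℤ) (k : ℤ), Ft F τ ((k : ℝ) * Y / N) = A k + τ * B k := by
    intro τ k
    rw [pois_split hF, mul_div_assoc]
  have sA : Summable A := by
    refine (hsum 0).congr fun k => ?_
    rw [hAB]
    simp
  have sB : Summable B := by
    refine ((hsum 1).sub (hsum 0)).congr fun k => ?_
    rw [hAB, hAB]
    simp
  have h0 := pois_main ha hF N hN hs Y hY A B (fun k => rfl) (fun k => rfl) sA sB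
  have h8 : ∀ x : ℤ → ℝ, Summable x → Summable (fun k : ℤ => jr k N * x k) := by
    intro x hx
    refine Summable.of_norm_bounded hx.norm ?_
    intro k
    rw [norm_mul, Real.norm_eq_abs]
    have := pois_jr_abs k N
    have h9 := norm_nonneg (x k)
    nlinarith
  have hL : ∑' d : ℕ, F (d / Y) * jr (σ * d) N = jr σ N * ∑' d : ℕ, F (d / Y) * jr d N := by
    rw [← tsum_mul_left]
    refine tsum_congr fun d => ?_
    rw [pois_jr_mul]
    ring
  have hR : ∑' k : ℤ, jr k N * Ft F σ ((k : ℝ) * Y / N) =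
      (∑' k : ℤ, jr k N * A k) + σ * ∑' k : ℤ, jr k N * B k := by
    rw [← tsum_mul_left, ← Summable.tsum_add (h8 A sA) ((h8 B sB).mul_left _)]
    refine tsum_congr fun k => ?_
    rw [hAB]
    ring
  have hAe : ∀ k : ℤ, A (-k) = A k := by
    intro k
    simp only [hA]
    congr 1
    ext t
    rw [show 2 * π * (((-k : ℤ) : ℝ) * (Y / N)) * t = -(2 * π * ((k : ℝ) * (Y / N)) * t) by
      push_cast; ring, Real.cos_neg]
  have hBe : ∀ k : ℤ, B (-k) = -B k := by
    intro k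
    simp only [hB]
    rw [← integral_neg]
    congr 1
    ext t
    rw [show 2 * π * (((-k : ℤ) : ℝ) * (Y / N)) * t = -(2 * π * ((k : ℝ) * (Y / N)) * t) by
      push_cast; ring, Real.sin_neg]
    ring
  have hneg : ∀ k : ℤ, jr (-k) N = jr (-1) N * jr k N := by
    intro k
    rw [← pois_jr_mul]
    congr 1
    ring
  have hm1 : jr (-1) N = if N % 4 = 1 then 1 else -1 := by
    unfold jr
    rw [if_pos hN, jacobiSym.at_neg_one hN]
    obtain ⟨r, hr⟩ := hN
    split_ifs with h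
    · rw [ZMod.χ₄_nat_one_mod_four h]
      simp
    · have h3 : N % 4 = 3 := by omega
      rw [ZMod.χ₄_nat_three_mod_four h3]
      simp
  have h1 : jr 1 N = 1 := by
    unfold jr
    rw [if_pos hN, jacobiSym.one_left]
    simp
  rw [hL, hR]
  by_cases h4 : N % 4 = 1
  · rw [if_pos h4] at hm1 h0
    have hSB : ∑' k : ℤ, jr k N * B k = 0 := by
      refine pois_odd_tsum _ fun k => ?_
      rw [hneg, hm1, hBe]
      ring
    have hσ1 : jr σ N = 1 := by
      rcases hσ with h | h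
      · rw [h, h1]
      · rw [h, hm1]
    rw [hSB] at h0
    rw [hSB, hσ1]
    have h9 : (∑' d : ℕ, F (d / Y) * jr d N : ℝ) = Y / √(N : ℝ) * ∑' k : ℤ, jr k N * A k := by
      have h10 : ((∑' d : ℕ, F (d / Y) * jr d N : ℝ) : ℂ) =
          ((Y / √(N : ℝ) * ∑' k : ℤ, jr k N * A k : ℝ) : ℂ) := by
        rw [h0, Complex.ofReal_mul]
        simp
      exact_mod_cast h10
    rw [h9]
    ring
  · rw [if_neg h4] at hm1 h0
    have hSA : ∑' k : ℤ, jr k N * A k = 0 := by
      refine pois_odd_tsum _ fun k => ?_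
      rw [hneg, hm1, hAe]
      ring
    have hσ1 : jr σ N = σ := by
      rcases hσ with h | h
      · rw [h, h1]
        simp
      · rw [h, hm1]
        simp
    rw [hSA] at h0
    rw [hSA, hσ1]
    have h9 : (∑' d : ℕ, F (d / Y) * jr d N : ℝ) = Y / √(N : ℝ) * ∑' k : ℤ, jr k N * B k := by
      have h10 : ((∑' d : ℕ, F (d / Y) * jr d N : ℝ) : ℂ) =
          ((Y / √(N : ℝ) * ∑' k : ℤ, jr k N * B k : ℝ) : ℂ) := by
        rw [h0, Complex.ofReal_mul]
        have hI : Complex.I * Complex.I = -1 := Complex.I_mul_I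
        rw [Complex.ofReal_zero, zero_sub]
        linear_combination (-((Y / √(N : ℝ) : ℝ) : ℂ) *
          ((∑' k : ℤ, jr k N * B k : ℝ) : ℂ)) * hI
      exact_mod_cast h10
    rw [h9]
    ring

end Pool.Agent.MP0016c7.Rz
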