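import Mathlib
import Pool.Agent.Lib.MP_0016c7_nt.Theta
import Pool.Agent.Lib.MP_0016c7_nt.Rz.Defs
import Pool.Agent.Lib.MP_0016c7_nt.Rz.DefsC
import Pool.Agent.Lib.MP_0016c7_nt.Rz.DefsF
import Pool.Agent.Lib.MP_0016c7_nt.Rz.DefsE
import Pool.Agent.Lib.MP_0016c7_nt.Rz.Poisson1
import Pool.Agent.Lib.MP_0016c7_nt.Rz.ArithA1

set_option autoImplicit false

open Finset MeasureTheory Filter Topology
open scoped Real ContDiff

namespace Pool.Agent.MP0016c7.Rz

private theorem p2_jr_mul (a b : ℤ) (n : ℕ) : jr (a * b) n = jr a n * jr b n := by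
  unfold jr
  split_ifs
  · rw [jacobiSym.mul_left]
    push_cast
    ring
  · simp

private theorem p2_jr_abs (k : ℤ) (n : ℕ) : |jr k n| ≤ 1 := by
  unfold jr
  split_ifs
  · rcases jacobiSym.trichotomy k n with h | h | h <;> rw [h] <;> norm_num
  · simp

private theorem p2_jr_two_sq {n : ℕ} (hn : Odd n) : jr 2 n * jr 2 n = 1 := by
  have h1 : jacobiSym 2 n ^ 2 = 1 := by
    apply jacobiSym.sq_one
    have h2 : Nat.gcd 2 n = 1 := by
      have := (Nat.coprime_two_left (n := n)).2 hn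
      exact this
    simpa [Int.gcd] using h2
  unfold jr
  rw [if_pos hn, ← Int.cast_mul, ← pow_two, h1, Int.cast_one]

private theorem p2_split (x : ℤ) {A B : ℕ} (hA : Odd A) (hB : Odd B) :
    jr x (A * B ^ 2) = jr x A * (if Int.gcd x B = 1 then 1 else 0) := by
  have hAB : Odd (A * B ^ 2) := hA.mul hB.pow
  have : NeZero A := ⟨hA.pos.ne'⟩
  have : NeZero B := ⟨hB.pos.ne'⟩
  unfold jr
  rw [if_pos hAB, if_pos hA, jacobiSym.mul_right, jacobiSym.pow_right]
  split_ifs with h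
  · rw [jacobiSym.sq_one h, mul_one, mul_one]
  · rw [jacobiSym.eq_zero_iff_not_coprime.2 h]
    norm_num

private theorem p2_moebius (d : ℕ) {B : ℕ} (hB : B ≠ 0) :
    (∑ e ∈ B.divisors, if e ∣ d then (ArithmeticFunction.moebius e : ℝ) else 0) =
      if Nat.gcd d B = 1 then 1 else 0 := by
  rw [← Finset.sum_filter]
  have h1 : B.divisors.filter (fun e => e ∣ d) = (Nat.gcd d B).divisors := by
    ext e
    simp only [mem_filter, Nat.mem_divisors, Nat.dvd_gcd_iff]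
    constructor
    · rintro ⟨⟨h1, -⟩, h2⟩
      exact ⟨⟨h2, h1⟩, fun h => hB (Nat.eq_zero_of_gcd_eq_zero_right h)⟩
    · rintro ⟨⟨h1, h2⟩, -⟩
      exact ⟨⟨h2, hB⟩, h1⟩
  rw [h1]
  have h2 : (∑ e ∈ (Nat.gcd d B).divisors, ArithmeticFunction.moebius e) =
      if Nat.gcd d B = 1 then 1 else 0 := by
    rw [← ArithmeticFunction.coe_mul_zeta_apply, ArithmeticFunction.moebius_mul_coe_zeta,
      ArithmeticFunction.one_apply]
  have h3 : ((∑ e ∈ (Nat.gcd d B).divisors, ArithmeticFunction.moebius e : ℤ) : ℝ) =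
      ((if Nat.gcd d B = 1 then 1 else 0 : ℤ) : ℝ) := by rw [h2]
  push_cast at h3
  rw [h3]

private theorem p2_tsum_dvd (g : ℕ → ℝ) {e : ℕ} (he : e ≠ 0) :
    ∑' d, (if e ∣ d then g d else 0) = ∑' m, g (e * m) := by
  have hinj : Function.Injective (fun m : ℕ => e * m) := fun m n h =>
    Nat.eq_of_mul_eq_mul_left (Nat.pos_of_ne_zero he) h
  rw [← hinj.tsum_eq (f := fun d => if e ∣ d then g d else 0)]
  · refine tsum_congr fun m => ?_
    rw [if_pos (Dvd.intro m rfl)]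
  · intro d hd
    rw [Function.mem_support] at hd
    by_cases h : e ∣ d
    · obtain ⟨m, rfl⟩ := h
      exact ⟨m, rfl⟩
    · rw [if_neg h] at hd
      exact absurd rfl hd

private theorem p2_tsum_dvdZ (g : ℤ → ℝ) {e : ℤ} (he : e ≠ 0) :
    ∑' d, (if e ∣ d then g d else 0) = ∑' m, g (e * m) := by
  have hinj : Function.Injective (fun m : ℤ => e * m) := fun m n h =>
    mul_left_cancel₀ he h
  rw [← hinj.tsum_eq (f := fun d => if e ∣ d then g d else 0)]
  · refine tsum_congr fun m => ?_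
    rw [if_pos (Dvd.intro m rfl)]
  · intro d hd
    rw [Function.mem_support] at hd
    by_cases h : e ∣ d
    · obtain ⟨m, rfl⟩ := h
      exact ⟨m, rfl⟩
    · rw [if_neg h] at hd
      exact absurd rfl hd

private theorem p2_summable_ite {α : Type*} {f : α → ℝ} (hf : Summable f) (p : α → Prop)
    [DecidablePred p] : Summable fun x => if p x then f x else 0 := by
  refine Summable.of_norm_bounded hf.norm fun x => ?_
  split_ifs
  · exact le_rfl
  · rw [norm_zero]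
    exact norm_nonneg _

private theorem p2_tsum_odd {g : ℕ → ℝ} (hg : Summable g) :
    ∑' m, (if Odd m then g m else 0) = ∑' m, g m - ∑' m, g (2 * m) := by
  rw [← p2_tsum_dvd g two_ne_zero, ← hg.tsum_sub (p2_summable_ite hg _)]
  refine tsum_congr fun m => ?_
  by_cases h : Odd m
  · rw [if_pos h, if_neg (fun h' => (Nat.not_even_iff_odd.2 h) (even_iff_two_dvd.2 h')), sub_zero]
  · rw [if_neg h, if_pos (even_iff_two_dvd.1 (Nat.not_odd_iff_even.1 h)), sub_self]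

private theorem p2_alt {f : ℤ → ℝ} (hf : Summable f) :
    ∑' k : ℤ, (-1 : ℝ) ^ k.natAbs * f k = 2 * ∑' k : ℤ, f (2 * k) - ∑' k : ℤ, f k := by
  rw [← p2_tsum_dvdZ f two_ne_zero, ← tsum_mul_left,
    ← ((p2_summable_ite hf _).mul_left 2).tsum_sub hf]
  refine tsum_congr fun k => ?_
  by_cases h : (2 : ℤ) ∣ k
  · have h1 : Even k.natAbs := by
      rw [Int.natAbs_even]
      exact even_iff_two_dvd.2 h
    rw [if_pos h, h1.neg_one_pow]
    ring
  · have h1 : Odd k.natAbs := by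
      rw [Int.natAbs_odd]
      exact Int.not_even_iff_odd.1 (fun h' => h (even_iff_two_dvd.1 h'))
    rw [if_neg h, h1.neg_one_pow]
    ring

private theorem p2_fin {F : ℝ → ℝ} {a b : ℝ} (hF : Bump F a b) {Y : ℝ} (hY : 0 < Y)
    (c : ℕ → ℝ) : Summable (fun d : ℕ => F (d / Y) * c d) := by
  apply summable_of_hasFiniteSupport
  refine (Set.finite_Iic ⌊b * Y⌋₊).subset fun d hd => ?_
  rw [Function.mem_support] at hd
  have h1 : F (d / Y) ≠ 0 := fun h => hd (by rw [h, zero_mul])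
  have h2 := (hF.supp _ h1).2
  rw [div_lt_iff₀ hY] at h2
  exact Nat.le_floor h2.le

private theorem p2_key {F : ℝ → ℝ} {a b : ℝ} (ha : 0 < a) (hF : Bump F a b) (σ : ℤ)
    (hσ : σ = 1 ∨ σ = -1) {A : ℕ} (hA : Odd A) (hs : Squarefree A) {Y : ℝ} (hY : 0 < Y)
    {e : ℕ} (he : Odd e) :
    ∑' m : ℕ, (if Odd m then F (((e * m : ℕ) : ℝ) / Y) * jr (2 * σ * (e * m : ℕ)) A else 0) =
      Y / (2 * e * √(A : ℝ)) * jr e A *
        ∑' k : ℤ, (-1 : ℝ) ^ k.natAbs * (jr k A * Ft F σ ((k : ℝ) * Y / (2 * e * A))) := by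
  have he0 : (0 : ℝ) < e := by exact_mod_cast he.pos
  have hA0 : (0 : ℝ) < A := by exact_mod_cast hA.pos
  have hsA : (0 : ℝ) < √(A : ℝ) := Real.sqrt_pos.2 hA0
  have hg : Summable fun m : ℕ => F (((e * m : ℕ) : ℝ) / Y) * jr (2 * σ * (e * m : ℕ)) A := by
    have := p2_fin hF (Y := Y / e) (by positivity)
      (fun m => jr (2 * σ * (e * m : ℕ)) A)
    refine this.congr fun m => ?_
    congr 2
    push_cast
    field_simp
  rw [p2_tsum_odd hg]
  obtain ⟨s1, t1⟩ := poisson_sqf ha hF σ hσ A hA hs (Y / e) (by positivity)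
  obtain ⟨s2, t2⟩ := poisson_sqf ha hF σ hσ A hA hs (Y / (2 * e)) (by positivity)
  have e1 : ∑' m : ℕ, F (((e * m : ℕ) : ℝ) / Y) * jr (2 * σ * (e * m : ℕ)) A =
      jr 2 A * jr e A * ∑' d : ℕ, F (d / (Y / e)) * jr (σ * d) A := by
    rw [← tsum_mul_left]
    refine tsum_congr fun m => ?_
    have h1 : ((e * m : ℕ) : ℝ) / Y = (m : ℝ) / (Y / e) := by
      push_cast
      field_simp
    have h2 : (2 * σ * ((e * m : ℕ) : ℤ)) = 2 * ((e : ℤ) * (σ * m)) := by
      push_cast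
      ring
    rw [h1, h2, p2_jr_mul, p2_jr_mul]
    ring
  have e2 : ∑' m : ℕ, F (((e * (2 * m) : ℕ) : ℝ) / Y) * jr (2 * σ * (e * (2 * m) : ℕ)) A =
      jr e A * ∑' d : ℕ, F (d / (Y / (2 * e))) * jr (σ * d) A := by
    rw [← tsum_mul_left]
    refine tsum_congr fun m => ?_
    have h1 : ((e * (2 * m) : ℕ) : ℝ) / Y = (m : ℝ) / (Y / (2 * e)) := by
      push_cast
      field_simp
    have h2 : (2 * σ * ((e * (2 * m) : ℕ) : ℤ)) = 2 * (2 * ((e : ℤ) * (σ * m))) := by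
      push_cast
      ring
    rw [h1, h2, p2_jr_mul, p2_jr_mul 2, p2_jr_mul e]
    linear_combination (F (m / (Y / (2 * e))) * jr e A * jr (σ * m) A) * p2_jr_two_sq hA
  rw [e1, e2, t1, t2]
  have hf : Summable fun k : ℤ => jr k A * Ft F σ ((k : ℝ) * Y / (2 * e * A)) := by
    have h1 : ∀ k : ℤ, (k : ℝ) * (Y / (2 * e)) / A = (k : ℝ) * Y / (2 * e * A) := by
      intro k
      field_simp
    refine Summable.of_norm_bounded s2.norm fun k => ?_
    rw [norm_mul, ← h1 k]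
    calc ‖jr k A‖ * ‖Ft F σ ((k : ℝ) * (Y / (2 * e)) / A)‖
        ≤ 1 * ‖Ft F σ ((k : ℝ) * (Y / (2 * e)) / A)‖ :=
          mul_le_mul_of_nonneg_right (p2_jr_abs k A) (norm_nonneg _)
      _ = _ := one_mul _
  rw [p2_alt hf]
  have e3 : ∑' k : ℤ, jr (2 * k) A * Ft F σ (((2 * k : ℤ) : ℝ) * Y / (2 * e * A)) =
      jr 2 A * ∑' k : ℤ, jr k A * Ft F σ ((k : ℝ) * (Y / e) / A) := by
    rw [← tsum_mul_left]
    refine tsum_congr fun k => ?_
    have h1 : ((2 * k : ℤ) : ℝ) * Y / (2 * e * A) = (k : ℝ) * (Y / e) / A := by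
      push_cast
      field_simp
    rw [h1, p2_jr_mul]
    ring
  have e4 : ∑' k : ℤ, jr k A * Ft F σ ((k : ℝ) * Y / (2 * e * A)) =
      ∑' k : ℤ, jr k A * Ft F σ ((k : ℝ) * (Y / (2 * e)) / A) := by
    refine tsum_congr fun k => ?_
    congr 2
    field_simp
  rw [e3, e4]
  field_simp

private theorem p2_gcd (σ : ℤ) (hσ : σ = 1 ∨ σ = -1) (d : ℕ) {B : ℕ} (hB : Odd B) :
    Int.gcd (2 * σ * d) B = 1 ↔ Nat.gcd d B = 1 := by
  have h1 : Int.gcd (2 * σ * d) B = Nat.gcd (2 * d) B := by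
    rw [Int.gcd, Int.natAbs_natCast]
    congr 1
    rcases hσ with rfl | rfl
    · rw [mul_one]
      have : (2 * (d : ℤ)) = ((2 * d : ℕ) : ℤ) := by push_cast; ring
      rw [this, Int.natAbs_natCast]
    · have : (2 * (-1) * (d : ℤ)) = -((2 * d : ℕ) : ℤ) := by push_cast; ring
      rw [this, Int.natAbs_neg, Int.natAbs_natCast]
  rw [h1]
  constructor
  · intro h
    exact Nat.Coprime.coprime_mul_left h
  · intro h
    exact Nat.Coprime.mul_left ((Nat.coprime_two_left).2 hB) h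

theorem poisson_odd {F : ℝ → ℝ} {a b : ℝ} (ha : 0 < a) (hF : Bump F a b) (σ : ℤ)
    (hσ : σ = 1 ∨ σ = -1) (N : ℕ) (hN : Odd N) (Y : ℝ) (hY : 0 < Y) :
    Summable (fun k : ℤ => gg k N * Ft F σ ((k : ℝ) * Y / (2 * N))) ∧
    ∑' d : ℕ, (if Odd d then F (d / Y) * jr (2 * σ * d) N else 0) =
      Y / 2 * ∑' k : ℤ, (-1 : ℝ) ^ k.natAbs * gg k N * Ft F σ ((k : ℝ) * Y / (2 * N)) := by
  classical
  have hN0 : N ≠ 0 := hN.pos.ne'
  have hNAB := sq1_mul_sq2 N hN0
  have hsA := squarefree_sq1 N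
  unfold gg
  generalize hAd : sq1 N = A at *
  generalize hBd : sq2 N = B at *
  have hA : Odd A := by
    rw [← hNAB] at hN
    exact (Nat.odd_mul.1 hN).1
  have hB : Odd B := by
    rw [← hNAB] at hN
    exact (Nat.odd_pow_iff (by norm_num)).1 (Nat.odd_mul.1 hN).2
  have hB0 : B ≠ 0 := hB.pos.ne'
  have hNr : (0 : ℝ) < N := by exact_mod_cast hN.pos
  have hAr : (0 : ℝ) < A := by exact_mod_cast hA.pos
  have hBr : (0 : ℝ) < B := by exact_mod_cast hB.pos
  have hsAr : (0 : ℝ) < √(A : ℝ) := Real.sqrt_pos.2 hAr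
  have hNc : (N : ℝ) = A * B ^ 2 := by
    rw [← hNAB]
    push_cast
    ring
  -- summability of the transform
  have hS : Summable fun k : ℤ => Ft F σ ((k : ℝ) * Y / (2 * N)) := by
    have h1 := (poisson_sqf ha hF σ hσ 1 odd_one squarefree_one (Y / (2 * N))
      (by positivity)).1
    refine h1.congr fun k => ?_
    congr 1
    push_cast
    field_simp
  -- the terms
  have hT : ∀ e : ℕ, Summable fun k : ℤ =>
      (if (B : ℤ) ^ 2 ∣ k * (e : ℤ) then (ArithmeticFunction.moebius e : ℝ) / e *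
        jr (k * (e : ℤ) ^ 2 / (B : ℤ) ^ 2) A else 0) / √(A : ℝ) *
        Ft F σ ((k : ℝ) * Y / (2 * N)) := by
    intro e
    refine Summable.of_norm_bounded (hS.norm.mul_left
      (|(ArithmeticFunction.moebius e : ℝ) / e| / √(A : ℝ))) fun k => ?_
    rw [norm_mul]
    refine mul_le_mul_of_nonneg_right ?_ (norm_nonneg _)
    rw [norm_div, Real.norm_of_nonneg hsAr.le]
    refine div_le_div_of_nonneg_right ?_ hsAr.le
    split_ifs
    · rw [norm_mul, Real.norm_eq_abs]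
      calc _ ≤ |(ArithmeticFunction.moebius e : ℝ) / e| * 1 :=
            mul_le_mul_of_nonneg_left (p2_jr_abs _ _) (abs_nonneg _)
        _ = _ := mul_one _
    · rw [norm_zero]
      exact abs_nonneg _
  have hexp : ∀ k : ℤ, (∑ e ∈ B.divisors.filter (fun e : ℕ => (B : ℤ) ^ 2 ∣ k * (e : ℤ)),
      (ArithmeticFunction.moebius e : ℝ) / e * jr (k * (e : ℤ) ^ 2 / (B : ℤ) ^ 2) A) /
        √(A : ℝ) * Ft F σ ((k : ℝ) * Y / (2 * N)) =
      ∑ e ∈ B.divisors, (if (B : ℤ) ^ 2 ∣ k * (e : ℤ) then (ArithmeticFunction.moebius e : ℝ) / e *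
        jr (k * (e : ℤ) ^ 2 / (B : ℤ) ^ 2) A else 0) / √(A : ℝ) *
        Ft F σ ((k : ℝ) * Y / (2 * N)) := by
    intro k
    rw [Finset.sum_filter, Finset.sum_div, Finset.sum_mul]
  constructor
  · refine (summable_sum (s := B.divisors) fun e _ => hT e).congr fun k => ?_
    rw [hexp k]
  -- the left hand side
  have hL : ∀ d : ℕ, (if Odd d then F (d / Y) * jr (2 * σ * d) N else 0) =
      ∑ e ∈ B.divisors, (ArithmeticFunction.moebius e : ℝ) *
        (if e ∣ d then (if Odd d then F (d / Y) * jr (2 * σ * d) A else 0) else 0) := by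
    intro d
    have h1 : jr (2 * σ * d) N = jr (2 * σ * d) A *
        ∑ e ∈ B.divisors, if e ∣ d then (ArithmeticFunction.moebius e : ℝ) else 0 := by
      rw [p2_moebius d hB0, ← hNAB, p2_split _ hA hB]
      congr 1
      simp only [p2_gcd σ hσ d hB]
    rw [h1]
    split_ifs with ho
    · rw [← mul_assoc, Finset.mul_sum]
      refine Finset.sum_congr rfl fun e _ => ?_
      split_ifs
      · ring
      · ring
    · symm
      refine Finset.sum_eq_zero fun e _ => ?_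
      split_ifs <;> ring
  have hLs : ∀ e : ℕ, Summable fun d : ℕ => (ArithmeticFunction.moebius e : ℝ) *
        (if e ∣ d then (if Odd d then F (d / Y) * jr (2 * σ * d) A else 0) else 0) := fun e =>
    (p2_summable_ite (p2_summable_ite (p2_fin hF hY _) _) _).mul_left _
  have hR : ∀ k : ℤ, (-1 : ℝ) ^ k.natAbs * ((∑ e ∈ B.divisors.filter
      (fun e : ℕ => (B : ℤ) ^ 2 ∣ k * (e : ℤ)),
      (ArithmeticFunction.moebius e : ℝ) / e * jr (k * (e : ℤ) ^ 2 / (B : ℤ) ^ 2) A) /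
        √(A : ℝ)) * Ft F σ ((k : ℝ) * Y / (2 * N)) =
      ∑ e ∈ B.divisors, (-1 : ℝ) ^ k.natAbs * ((if (B : ℤ) ^ 2 ∣ k * (e : ℤ) then
        (ArithmeticFunction.moebius e : ℝ) / e *
        jr (k * (e : ℤ) ^ 2 / (B : ℤ) ^ 2) A else 0) / √(A : ℝ) *
        Ft F σ ((k : ℝ) * Y / (2 * N))) := by
    intro k
    rw [mul_assoc, hexp k, Finset.mul_sum]
  have hRs : ∀ e : ℕ, Summable fun k : ℤ => (-1 : ℝ) ^ k.natAbs * ((if (B : ℤ) ^ 2 ∣ k * (e : ℤ) then
        (ArithmeticFunction.moebius e : ℝ) / e *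
        jr (k * (e : ℤ) ^ 2 / (B : ℤ) ^ 2) A else 0) / √(A : ℝ) *
        Ft F σ ((k : ℝ) * Y / (2 * N))) := by
    intro e
    refine Summable.of_norm_bounded (hT e).norm fun k => ?_
    rw [norm_mul, norm_pow, norm_neg, norm_one, one_pow, one_mul]
  rw [tsum_congr hL, tsum_congr hR, Summable.tsum_finsetSum fun e _ => hLs e,
    Summable.tsum_finsetSum fun e _ => hRs e, Finset.mul_sum]
  refine Finset.sum_congr rfl fun e he => ?_
  rw [Nat.mem_divisors] at he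
  obtain ⟨c, hc⟩ := he.1
  have heo : Odd e := by
    rw [hc] at hB
    exact (Nat.odd_mul.1 hB).1
  have hco : Odd c := by
    rw [hc] at hB
    exact (Nat.odd_mul.1 hB).2
  have he0 : e ≠ 0 := heo.pos.ne'
  have her : (0 : ℝ) < e := by exact_mod_cast heo.pos
  have hcr : (0 : ℝ) < c := by exact_mod_cast hco.pos
  rw [tsum_mul_left, p2_tsum_dvd (fun d => if Odd d then F (d / Y) * jr (2 * σ * d) A else 0) he0]
  have h1 : ∑' m : ℕ, (if Odd (e * m) then F (((e * m : ℕ) : ℝ) / Y) *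
      jr (2 * σ * (e * m : ℕ)) A else 0) =
      ∑' m : ℕ, (if Odd m then F (((e * m : ℕ) : ℝ) / Y) * jr (2 * σ * (e * m : ℕ)) A else 0) := by
    refine tsum_congr fun m => ?_
    have : Odd (e * m) ↔ Odd m := by
      rw [Nat.odd_mul]
      exact ⟨fun h => h.2, fun h => ⟨heo, h⟩⟩
    simp only [this]
  rw [h1, p2_key ha hF σ hσ hA hsA hY heo]
  -- the right hand side
  have hBc : (B : ℤ) = e * c := by
    rw [hc]
    push_cast
    ring
  have heZ : (e : ℤ) ≠ 0 := by exact_mod_cast he0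
  have hcZ : (c : ℤ) ≠ 0 := by exact_mod_cast hco.pos.ne'
  have hdvd : ∀ k : ℤ, (B : ℤ) ^ 2 ∣ k * (e : ℤ) ↔ ((e : ℤ) * c ^ 2) ∣ k := by
    intro k
    rw [hBc]
    constructor
    · rintro ⟨t, ht⟩
      refine ⟨t, mul_right_cancel₀ heZ ?_⟩
      rw [ht]
      ring
    · rintro ⟨t, rfl⟩
      exact ⟨t, by ring⟩
  have h2 : ∑' k : ℤ, (-1 : ℝ) ^ k.natAbs * ((if (B : ℤ) ^ 2 ∣ k * (e : ℤ) then
        (ArithmeticFunction.moebius e : ℝ) / e *
        jr (k * (e : ℤ) ^ 2 / (B : ℤ) ^ 2) A else 0) / √(A : ℝ) *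
        Ft F σ ((k : ℝ) * Y / (2 * N))) =
      ∑' k : ℤ, (if ((e : ℤ) * c ^ 2) ∣ k then (-1 : ℝ) ^ k.natAbs *
        ((ArithmeticFunction.moebius e : ℝ) / e *
        jr (k * (e : ℤ) ^ 2 / (B : ℤ) ^ 2) A / √(A : ℝ) *
        Ft F σ ((k : ℝ) * Y / (2 * N))) else 0) := by
    refine tsum_congr fun k => ?_
    simp only [hdvd]
    split_ifs
    · rfl
    · ring
  have hec : (e : ℤ) * c ^ 2 ≠ 0 := mul_ne_zero heZ (pow_ne_zero _ hcZ)
  rw [h2, p2_tsum_dvdZ _ hec]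
  rw [← tsum_mul_left, ← tsum_mul_left, ← tsum_mul_left]
  refine tsum_congr fun k => ?_
  have h3 : (-1 : ℝ) ^ ((e : ℤ) * c ^ 2 * k).natAbs = (-1 : ℝ) ^ k.natAbs := by
    have h4 : ((e : ℤ) * c ^ 2 * k).natAbs = (e * c ^ 2) * k.natAbs := by
      rw [Int.natAbs_mul, Int.natAbs_mul, Int.natAbs_pow, Int.natAbs_natCast, Int.natAbs_natCast]
    rw [h4, pow_mul, (heo.mul hco.pow).neg_one_pow]
  have h4 : ((e : ℤ) * c ^ 2 * k) * (e : ℤ) ^ 2 / (B : ℤ) ^ 2 = (e : ℤ) * k := by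
    rw [hBc]
    apply Int.ediv_eq_of_eq_mul_left (pow_ne_zero _ (mul_ne_zero heZ hcZ))
    ring
  have h5 : (((e : ℤ) * c ^ 2 * k : ℤ) : ℝ) * Y / (2 * N) = (k : ℝ) * Y / (2 * e * A) := by
    have hBr' : (B : ℝ) = e * c := by
      rw [hc]
      push_cast
      ring
    rw [hNc, hBr']
    push_cast
    field_simp
  rw [h3, h4, h5, p2_jr_mul]
  field_simp

end Pool.Agent.MP0016c7.Rz
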