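import Mathlib
import Pool.Agent.Lib.MP_0016c7_nt.Theta
import Pool.Agent.Lib.MP_0016c7_nt.Rz.Defs
import Pool.Agent.Lib.MP_0016c7_nt.Rz.DefsC
import Pool.Agent.Lib.MP_0016c7_nt.Rz.DefsF
import Pool.Agent.Lib.MP_0016c7_nt.Rz.DefsE
import Pool.Agent.Lib.MP_0016c7_nt.Rz.Poisson2

set_option autoImplicit false

open Finset MeasureTheory Filter Topology
open scoped Real ContDiff

namespace Pool.Agent.MP0016c7.Rz

private theorem p3_sq_parity (j : ℕ) : (-1 : ℝ) ^ ((j : ℤ) ^ 2).natAbs = (-1 : ℝ) ^ j := by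
  rw [Int.natAbs_pow, Int.natAbs_natCast]
  rcases Nat.even_or_odd j with h | h
  · rw [h.neg_one_pow, (h.pow_of_ne_zero two_ne_zero).neg_one_pow]
  · rw [h.neg_one_pow, h.pow.neg_one_pow]

theorem poisson_split {F : ℝ → ℝ} {a b : ℝ} (ha : 0 < a) (hF : Bump F a b) (σ : ℤ)
    (hσ : σ = 1 ∨ σ = -1) (N : ℕ) (hN : Odd N) (Y : ℝ) (hY : 0 < Y) :
    ∑' d : ℕ, (if Odd d then F (d / Y) * jr (2 * σ * d) N else 0) =
      Y / 2 * (MM F σ Y N + NS F σ Y N) := by
  classical
  obtain ⟨h1, h2⟩ := poisson_odd ha hF σ hσ N hN Y hY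
  rw [h2]
  congr 1
  set u : ℤ → ℝ := fun k => (-1 : ℝ) ^ k.natAbs * gg k N * Ft F σ ((k : ℝ) * Y / (2 * N))
    with hu
  have hus : Summable u := by
    refine Summable.of_norm_bounded h1.norm fun k => ?_
    rw [hu]
    simp only
    rw [mul_assoc, norm_mul, norm_pow, norm_neg, norm_one, one_pow, one_mul]
  have hs1 : Summable fun k : ℤ => if IsSquare k then u k else 0 := by
    refine Summable.of_norm_bounded hus.norm fun k => ?_
    split_ifs
    · exact le_rfl
    · rw [norm_zero]
      exact norm_nonneg _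
  have hs2 : Summable fun k : ℤ => if IsSquare k then 0 else u k := by
    refine Summable.of_norm_bounded hus.norm fun k => ?_
    split_ifs
    · rw [norm_zero]
      exact norm_nonneg _
    · exact le_rfl
  have h3 : ∑' k : ℤ, u k = ∑' k : ℤ, (if IsSquare k then u k else 0) +
      ∑' k : ℤ, (if IsSquare k then 0 else u k) := by
    rw [← hs1.tsum_add hs2]
    refine tsum_congr fun k => ?_
    split_ifs <;> ring
  have hinj : Function.Injective (fun j : ℕ => (j : ℤ) ^ 2) := by
    intro i j hij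
    have h4 : ((i ^ 2 : ℕ) : ℤ) = ((j ^ 2 : ℕ) : ℤ) := by
      push_cast
      exact hij
    exact Nat.pow_left_injective (n := 2) (by norm_num) (by exact_mod_cast h4)
  have h4 : ∑' k : ℤ, (if IsSquare k then u k else 0) = MM F σ Y N := by
    rw [← hinj.tsum_eq (f := fun k : ℤ => if IsSquare k then u k else 0)]
    · unfold MM
      refine tsum_congr fun j => ?_
      have h5 : IsSquare ((j : ℤ) ^ 2) := IsSquare.sq _
      simp only [if_pos h5, hu]
      rw [p3_sq_parity]
      push_cast
      rfl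
    · intro k hk
      rw [Function.mem_support] at hk
      by_cases h : IsSquare k
      · obtain ⟨r, rfl⟩ := h
        refine ⟨r.natAbs, ?_⟩
        simp only
        rw [Int.natCast_natAbs, sq_abs, pow_two]
      · rw [if_neg h] at hk
        exact absurd rfl hk
  have h5 : ∑' k : ℤ, (if IsSquare k then 0 else u k) = NS F σ Y N := by
    unfold NS
    refine tsum_congr fun k => ?_
    by_cases h : IsSquare k
    · simp only [if_pos h]
    · simp only [if_neg h]
      rfl
  rw [h3, h4, h5]

end Pool.Agent.MP0016c7.Rz
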