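import Mathlib
import Pool.Agent.Lib.MP_0016c7_nt.Theta
import Pool.Agent.Lib.MP_0016c7_nt.Rz.Defs
import Pool.Agent.Lib.MP_0016c7_nt.Rz.DefsC
import Pool.Agent.Lib.MP_0016c7_nt.Rz.DefsF
import Pool.Agent.Lib.MP_0016c7_nt.Rz.DefsE
import Pool.Agent.Lib.MP_0016c7_nt.Rz.Sm1
import Pool.Agent.Lib.MP_0016c7_nt.Rz.Sm2
import Pool.Agent.Lib.MP_0016c7_nt.Rz.Sm3
import Pool.Agent.Lib.MP_0016c7_nt.Rz.MTl
import Pool.Agent.Lib.MP_0016c7_nt.Rz.VLim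

set_option autoImplicit false

open Finset MeasureTheory Filter Topology
open scoped Real ContDiff

namespace Pool.Agent.MP0016c7.Rz

private theorem bump_mono {F : ℝ → ℝ} {a b a' b' : ℝ} (hF : Bump F a b) (h1 : a' ≤ a)
    (h2 : b ≤ b') : Bump F a' b' :=
  ⟨hF.smooth, fun t ht => ⟨lt_of_le_of_lt h1 (hF.supp t ht).1, lt_of_lt_of_le (hF.supp t ht).2 h2⟩⟩

private theorem bump_bdd {F : ℝ → ℝ} {a b : ℝ} (hF : Bump F a b) :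
    ∃ B : ℝ, 0 ≤ B ∧ ∀ t, |F t| ≤ B := by
  obtain ⟨B, hB⟩ := (isCompact_Icc (a := a) (b := b)).exists_bound_of_continuousOn
    (f := F) hF.smooth.continuous.continuousOn
  refine ⟨|B|, abs_nonneg _, fun t => ?_⟩
  by_cases h : F t = 0
  · rw [h, abs_zero]; exact abs_nonneg _
  · have h1 := hF.supp t h
    have := hB t ⟨h1.1.le, h1.2.le⟩
    rw [Real.norm_eq_abs] at this
    exact this.trans (le_abs_self _)

/-- replacing the process by its truncation -/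
private theorem replace_trunc {F : ℝ → ℝ} {a b B : ℝ} (hF : Bump F a b) (hB0 : 0 ≤ B)
    (hB : ∀ t, |F t| ≤ B) (r : ℕ) (hr : 0 < r) (X η : ℝ) (hX : 1 ≤ X) (u v : ℕ → ℝ)
    (huv : ∀ d, |u d - v d| ≤ η) (hη : 0 ≤ η) :
    |2 * (r : ℝ) ^ 2 / X * ∑' d : ℕ, (if Odd d then F (d * (r : ℝ) ^ 2 / X) * u d else 0) -
      2 * (r : ℝ) ^ 2 / X * ∑' d : ℕ, (if Odd d then F (d * (r : ℝ) ^ 2 / X) * v d else 0)| ≤
      2 * (r : ℝ) ^ 2 * ((|b| + 2) * (B * η)) := by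
  classical
  have hXpos : 0 < X := by linarith
  have hr2 : (1 : ℝ) ≤ (r : ℝ) ^ 2 := by
    have : (1 : ℝ) ≤ r := by exact_mod_cast hr
    nlinarith
  set D : ℕ := ⌈|b| * X⌉₊ with hD
  have hzero : ∀ (f : ℕ → ℝ) (d : ℕ), d ∉ range (D + 1) →
      (if Odd d then F (d * (r : ℝ) ^ 2 / X) * f d else 0) = 0 := by
    intro f d hd
    split_ifs
    · rw [mem_range, not_lt] at hd
      have h1 : |b| * X ≤ d := by
        have h2 : (D : ℝ) ≤ d := by exact_mod_cast (by omega : D ≤ d)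
        exact (Nat.le_ceil _).trans h2
      have h3 : F (d * (r : ℝ) ^ 2 / X) = 0 := by
        by_contra h
        have h4 := (hF.supp _ h).2
        rw [div_lt_iff₀ hXpos] at h4
        have h5 : b * X ≤ |b| * X := mul_le_mul_of_nonneg_right (le_abs_self b) hXpos.le
        have h6 : (d : ℝ) ≤ d * (r : ℝ) ^ 2 := le_mul_of_one_le_right (Nat.cast_nonneg _) hr2
        linarith
      rw [h3, zero_mul]
    · rfl
  rw [tsum_eq_sum (s := range (D + 1)) (fun d hd => hzero u d hd),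
    tsum_eq_sum (s := range (D + 1)) (fun d hd => hzero v d hd), ← mul_sub, ← sum_sub_distrib,
    abs_mul]
  have hc : |2 * (r : ℝ) ^ 2 / X| = 2 * (r : ℝ) ^ 2 / X := abs_of_nonneg (by positivity)
  rw [hc]
  have hs : |∑ d ∈ range (D + 1), ((if Odd d then F (d * (r : ℝ) ^ 2 / X) * u d else 0) -
      (if Odd d then F (d * (r : ℝ) ^ 2 / X) * v d else 0))| ≤ ((D : ℝ) + 1) * (B * η) := by
    refine (abs_sum_le_sum_abs _ _).trans ?_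
    refine (sum_le_card_nsmul _ _ (B * η) ?_).trans ?_
    · intro d _
      split_ifs
      · rw [← mul_sub, abs_mul]
        exact mul_le_mul (hB _) (huv d) (abs_nonneg _) hB0
      · rw [sub_zero, abs_zero]; positivity
    · rw [card_range, nsmul_eq_mul]; push_cast; exact le_rfl
  have hDle : (D : ℝ) + 1 ≤ (|b| + 2) * X := by
    have h1 : (D : ℝ) < |b| * X + 1 := Nat.ceil_lt_add_one (by positivity)
    nlinarith
  calc 2 * (r : ℝ) ^ 2 / X * |∑ d ∈ range (D + 1),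
        ((if Odd d then F (d * (r : ℝ) ^ 2 / X) * u d else 0) -
        (if Odd d then F (d * (r : ℝ) ^ 2 / X) * v d else 0))|
      ≤ 2 * (r : ℝ) ^ 2 / X * (((D : ℝ) + 1) * (B * η)) :=
        mul_le_mul_of_nonneg_left hs (by positivity)
    _ ≤ 2 * (r : ℝ) ^ 2 / X * (((|b| + 2) * X) * (B * η)) := by
        refine mul_le_mul_of_nonneg_left ?_ (by positivity)
        exact mul_le_mul_of_nonneg_right hDle (by positivity)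
    _ = 2 * (r : ℝ) ^ 2 * ((|b| + 2) * (B * η)) := by
        field_simp

theorem second_moment {θ δ : ℝ} (hδ : 0 < δ) (hδ4 : δ ≤ 1 / 4) (hθ : 0 < θ) (hθ1 : θ + 3 * δ < 1 / 2)
    (hE : ErrS θ δ) {F : ℝ → ℝ} {a b : ℝ} (ha : 0 < a) (hF : Bump F a b) (hF0 : 0 < ∫ t, F t)
    (σ : ℤ) (hσ : σ = 1 ∨ σ = -1) (r : ℕ) (hr : Odd r) (hrs : Squarefree r)
    (c : ℝ) (hc : c = 0 ∨ c = 1) {ρ₁ ρ₂ h : ℝ → ℝ} (hρ₁ : Bump ρ₁ (-(δ / 2)) (δ / 2))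
    (hρ₂ : Bump ρ₂ (-(δ / 2)) (δ / 2)) (hh : Bump h 0 θ) (ε : ℝ) (hε : 0 < ε) :
    ∃ X₀ : ℝ, ∀ X : ℝ, X₀ ≤ X → ∀ Y₁ ∈ Set.Icc (-1 : ℝ) (1 / 2 + δ), ∀ Y₂ ∈ Set.Icc (-1 : ℝ) (1 / 2 + δ),
      |2 * r ^ 2 / X * ∑' d : ℕ, (if Odd d then F (d * r ^ 2 / X) *
          (ytil c σ ρ₁ h X (r ^ 2 * d) Y₁ * ytil c σ ρ₂ h X (r ^ 2 * d) Y₂) else 0) -
        (∫ t, F t) * CC ρ₁ ρ₂ h Y₁ Y₂| ≤ ε := by
  classical
  obtain ⟨B, hB0, hB⟩ := bump_bdd hF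
  obtain ⟨X₁, hX₁⟩ := ytil_trunc hδ hθ hθ1 hρ₁ hh c hc σ
  obtain ⟨X₂, hX₂⟩ := ytil_trunc hδ hθ hθ1 hρ₂ hh c hc σ
  obtain ⟨X₃, hX₃⟩ := quad_MT ha hF σ hδ hθ hθ1 r hr c hc hρ₁ hρ₂ hh (ε / 4) (by linarith)
  obtain ⟨X₄, hX₄⟩ := hE F a b ha hF σ hσ r hr hrs c hc ρ₁ ρ₂ h hρ₁ hρ₂ hh (ε / 4) (by linarith)
  obtain ⟨X₅, hX₅⟩ := MT_lim c hc ha hF hF0 σ r hr hρ₁ hρ₂ hh (ε / 4) (by linarith)
  set A := 2 * (r : ℝ) ^ 2 * ((|b| + 2) * (B * 2)) with hA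
  have hA0 : 0 ≤ A := by positivity
  refine ⟨max (max (max X₁ X₂) (max X₃ X₄)) (max X₅ (max 1 ((A * 4 + 1) / ε))), ?_⟩
  intro X hX Y₁ hY₁ Y₂ hY₂
  have hXa : X₁ ≤ X := le_trans (le_trans (le_trans (le_max_left _ _) (le_max_left _ _))
    (le_max_left _ _)) hX
  have hXb : X₂ ≤ X := le_trans (le_trans (le_trans (le_max_right _ _) (le_max_left _ _))
    (le_max_left _ _)) hX
  have hXc : X₃ ≤ X := le_trans (le_trans (le_trans (le_max_left _ _) (le_max_right _ _))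
    (le_max_left _ _)) hX
  have hXd : X₄ ≤ X := le_trans (le_trans (le_trans (le_max_right _ _) (le_max_right _ _))
    (le_max_left _ _)) hX
  have hXe : X₅ ≤ X := le_trans (le_trans (le_max_left _ _) (le_max_right _ _)) hX
  have hX1 : 1 ≤ X := le_trans (le_trans (le_trans (le_max_left _ _) (le_max_right _ _))
    (le_max_right _ _)) hX
  have hXf : (A * 4 + 1) / ε ≤ X := le_trans (le_trans (le_trans (le_max_right _ _)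
    (le_max_right _ _)) (le_max_right _ _)) hX
  have hXpos : 0 < X := by linarith
  -- step 1
  have hprod : X ^ 20 * X ^ (-30 : ℝ) ≤ 1 / X := by
    rw [← Real.rpow_natCast X 20, ← Real.rpow_add hXpos]
    have : (1 : ℝ) / X = X ^ (-1 : ℝ) := by rw [Real.rpow_neg_one, one_div]
    rw [this]
    exact Real.rpow_le_rpow_of_exponent_le hX1 (by norm_num)
  have huv : ∀ d : ℕ, |ytil c σ ρ₁ h X (r ^ 2 * d) Y₁ * ytil c σ ρ₂ h X (r ^ 2 * d) Y₂ -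
      TT c σ ρ₁ h X θ δ (r ^ 2 * d) Y₁ * TT c σ ρ₂ h X θ δ (r ^ 2 * d) Y₂| ≤ 2 / X := by
    intro d
    obtain ⟨p1, p2, p3⟩ := hX₁ X hXa Y₁ hY₁ (r ^ 2 * d)
    obtain ⟨q1, q2, q3⟩ := hX₂ X hXb Y₂ hY₂ (r ^ 2 * d)
    have e : ytil c σ ρ₁ h X (r ^ 2 * d) Y₁ * ytil c σ ρ₂ h X (r ^ 2 * d) Y₂ -
      TT c σ ρ₁ h X θ δ (r ^ 2 * d) Y₁ * TT c σ ρ₂ h X θ δ (r ^ 2 * d) Y₂ =
      ytil c σ ρ₁ h X (r ^ 2 * d) Y₁ *
        (ytil c σ ρ₂ h X (r ^ 2 * d) Y₂ - TT c σ ρ₂ h X θ δ (r ^ 2 * d) Y₂) +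
      TT c σ ρ₂ h X θ δ (r ^ 2 * d) Y₂ *
        (ytil c σ ρ₁ h X (r ^ 2 * d) Y₁ - TT c σ ρ₁ h X θ δ (r ^ 2 * d) Y₁) := by ring
    rw [e]
    refine (abs_add_le _ _).trans ?_
    rw [abs_mul, abs_mul]
    have h1 := (mul_le_mul p1 q3 (abs_nonneg _) (by positivity)).trans hprod
    have h2 := (mul_le_mul q2 p3 (abs_nonneg _) (by positivity)).trans hprod
    calc _ ≤ 1 / X + 1 / X := add_le_add h1 h2
      _ = 2 / X := by ring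
  have s1 := replace_trunc hF hB0 hB r hr.pos X (2 / X) hX1
    (fun d => ytil c σ ρ₁ h X (r ^ 2 * d) Y₁ * ytil c σ ρ₂ h X (r ^ 2 * d) Y₂)
    (fun d => TT c σ ρ₁ h X θ δ (r ^ 2 * d) Y₁ * TT c σ ρ₂ h X θ δ (r ^ 2 * d) Y₂)
    huv (by positivity)
  have s1' : 2 * (r : ℝ) ^ 2 * ((|b| + 2) * (B * (2 / X))) ≤ ε / 4 := by
    have e : 2 * (r : ℝ) ^ 2 * ((|b| + 2) * (B * (2 / X))) = A / X := by rw [hA]; ring
    rw [e, div_le_iff₀ hXpos]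
    rw [div_le_iff₀ hε] at hXf
    linarith
  have s2 := TT_average ha hF σ hσ r hr c ρ₁ ρ₂ h X θ δ hX1 Y₁ Y₂
  have s3 := hX₃ X hXc Y₁ hY₁ Y₂ hY₂
  have s4 := hX₄ X hXd Y₁ hY₁ Y₂ hY₂
  have hI1 : Y₁ ∈ Set.Icc (-1 : ℝ) 1 := ⟨hY₁.1, by linarith [hY₁.2]⟩
  have hI2 : Y₂ ∈ Set.Icc (-1 : ℝ) 1 := ⟨hY₂.1, by linarith [hY₂.2]⟩
  have s5 := hX₅ X hXe Y₁ hI1 Y₂ hI2
  have s6 := limit_eq (ρ₁ := ρ₁) (ρ₂ := ρ₂) (h := h) (θ := θ) (by linarith)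
    (bump_mono hρ₁ (by linarith) (by linarith)) (bump_mono hρ₂ (by linarith) (by linarith)) hh
    Y₁ Y₂ (by linarith [hY₁.2]) (by linarith [hY₂.2])
  have s7 : |MT c σ ρ₁ ρ₂ h F X r Y₁ Y₂ - (∫ t, F t) * CC ρ₁ ρ₂ h Y₁ Y₂| ≤ ε / 4 := by
    refine le_trans (le_of_eq ?_) s5
    rw [div_eq_mul_one_div, mul_assoc, s6, ← Complex.ofReal_mul, ← Complex.ofReal_sub,
      Complex.norm_real, Real.norm_eq_abs]
  rw [s2] at s1
  have := s1.trans s1'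
  rw [abs_le] at this s3 s4 s7 ⊢
  constructor <;> linarith [this.1, this.2, s3.1, s3.2, s4.1, s4.2, s7.1, s7.2]

end Pool.Agent.MP0016c7.Rz
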