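import Mathlib
import Pool.Agent.Lib.MP_0016c7_nt.Theta
import Pool.Agent.Lib.MP_0016c7_nt.Rz.Defs
import Pool.Agent.Lib.MP_0016c7_nt.Rz.DefsC
import Pool.Agent.Lib.MP_0016c7_nt.Rz.DefsF
import Pool.Agent.Lib.MP_0016c7_nt.Rz.DefsE
import Pool.Agent.Lib.MP_0016c7_nt.Rz.Sm4
import Pool.Agent.Lib.MP_0016c7_nt.Rz.Ker4
import Pool.Agent.Lib.MP_0016c7_nt.Rz.TestR

set_option autoImplicit false

open Finset MeasureTheory Filter Topology
open scoped Real ContDiff

namespace Pool.Agent.MP0016c7.Rz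

private lemma fa4_bump_deriv {ρ : ℝ → ℝ} {a b : ℝ} (h : Bump ρ a b) : Bump (deriv ρ) a b := by
  refine ⟨(contDiff_infty_iff_deriv.1 h.smooth).2, fun t ht => ?_⟩
  have hd : DifferentiableAt ℝ ρ t := (h.smooth.differentiable (by simp)) t
  constructor
  · by_contra hta
    rw [not_lt] at hta
    apply ht
    have h1 : HasDerivWithinAt ρ (deriv ρ t) (Set.Iic t) t := hd.hasDerivAt.hasDerivWithinAt
    have hz : ∀ x ∈ Set.Iic t, ρ x = 0 := fun x hx => by
      by_contra hne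
      exact absurd (h.supp x hne).1 (not_lt.2 (le_trans hx hta))
    have h2 : HasDerivWithinAt ρ 0 (Set.Iic t) t :=
      (hasDerivWithinAt_const t (Set.Iic t) (0 : ℝ)).congr hz (hz t Set.self_mem_Iic)
    exact (uniqueDiffWithinAt_Iic t).eq_deriv _ h1 h2
  · by_contra hta
    rw [not_lt] at hta
    apply ht
    have h1 : HasDerivWithinAt ρ (deriv ρ t) (Set.Ici t) t := hd.hasDerivAt.hasDerivWithinAt
    have hz : ∀ x ∈ Set.Ici t, ρ x = 0 := fun x hx => by
      by_contra hne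
      exact absurd (h.supp x hne).2 (not_lt.2 (le_trans hta hx))
    have h2 : HasDerivWithinAt ρ 0 (Set.Ici t) t :=
      (hasDerivWithinAt_const t (Set.Ici t) (0 : ℝ)).congr hz (hz t Set.self_mem_Ici)
    exact (uniqueDiffWithinAt_Ici t).eq_deriv _ h1 h2

private lemma fa4_bump_integrable {ρ : ℝ → ℝ} {a b : ℝ} (h : Bump ρ a b) : Integrable ρ := by
  refine (h.smooth.continuous).integrable_of_hasCompactSupport ?_
  refine HasCompactSupport.intro (K := Set.Icc a b) isCompact_Icc (fun x hx => ?_)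
  by_contra hne
  exact hx ⟨(h.supp x hne).1.le, (h.supp x hne).2.le⟩

private lemma fa4_cs {f : ℝ → ℝ} (hf : Continuous f) {s β : ℝ} (hs : 0 ≤ s) (hsβ : s ≤ β) :
    (∫ u in (0 : ℝ)..s, f u) ^ 2 ≤ β * ∫ u in (0 : ℝ)..β, f u ^ 2 := by
  have hf2 : Continuous (fun u => f u ^ 2) := hf.pow 2
  have hI : ∀ a b : ℝ, IntervalIntegrable (fun u => f u ^ 2) volume a b :=
    fun a b => hf2.intervalIntegrable a b
  have hnn : 0 ≤ ∫ u in (0 : ℝ)..s, f u ^ 2 :=
    intervalIntegral.integral_nonneg hs (fun u _ => sq_nonneg _)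
  have hmono : ∫ u in (0 : ℝ)..s, f u ^ 2 ≤ ∫ u in (0 : ℝ)..β, f u ^ 2 := by
    rw [← intervalIntegral.integral_add_adjacent_intervals (hI 0 s) (hI s β)]
    have := intervalIntegral.integral_nonneg (μ := volume) hsβ (fun u _ => sq_nonneg (f u))
    linarith
  have key : (∫ u in (0 : ℝ)..s, f u) ^ 2 ≤ s * ∫ u in (0 : ℝ)..s, f u ^ 2 := by
    set J := ∫ u in (0 : ℝ)..s, f u with hJ
    have h0 : 0 ≤ ∫ u in (0 : ℝ)..s, (s * f u - J) ^ 2 :=
      intervalIntegral.integral_nonneg hs (fun u _ => sq_nonneg _)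
    have h1 : ∫ u in (0 : ℝ)..s, (s * f u - J) ^ 2 =
        s ^ 2 * (∫ u in (0 : ℝ)..s, f u ^ 2) - 2 * s * J * J + s * J ^ 2 := by
      have e : ∀ u, (s * f u - J) ^ 2 = s ^ 2 * f u ^ 2 - 2 * s * J * f u + J ^ 2 := fun u => by ring
      simp_rw [e]
      have i1 : IntervalIntegrable (fun u => s ^ 2 * f u ^ 2) volume 0 s :=
        (continuous_const.mul hf2).intervalIntegrable _ _
      have i2 : IntervalIntegrable (fun u => 2 * s * J * f u) volume 0 s :=
        (continuous_const.mul hf).intervalIntegrable _ _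
      rw [intervalIntegral.integral_add (i1.sub i2) intervalIntegrable_const,
        intervalIntegral.integral_sub i1 i2,
        intervalIntegral.integral_const_mul, intervalIntegral.integral_const_mul,
        intervalIntegral.integral_const, ← hJ]
      simp only [smul_eq_mul]
      ring
    rw [h1] at h0
    rcases hs.eq_or_lt with h | h
    · have : J = 0 := by rw [hJ, ← h]; simp
      rw [this, ← h]; simp
    · have h2 : 0 ≤ s * (s * (∫ u in (0 : ℝ)..s, f u ^ 2) - J ^ 2) := by nlinarith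
      have := nonneg_of_mul_nonneg_right h2 h
      linarith
  calc (∫ u in (0 : ℝ)..s, f u) ^ 2 ≤ s * ∫ u in (0 : ℝ)..s, f u ^ 2 := key
    _ ≤ β * ∫ u in (0 : ℝ)..β, f u ^ 2 := by
      apply mul_le_mul hsβ hmono hnn (hs.trans hsβ)

private lemma fa4_HH_le {h : ℝ → ℝ} {θ : ℝ} (hh : Bump h 0 θ) (t : ℝ) : |HH h t| ≤ ∫ x, |h x| := by
  unfold HH
  calc |∫ x in Set.Ioi t, h x| ≤ ∫ x in Set.Ioi t, |h x| := abs_integral_le_integral_abs
    _ ≤ ∫ x, |h x| := by
      apply setIntegral_le_integral (fa4_bump_integrable hh).abs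
      exact Filter.Eventually.of_forall (fun x => abs_nonneg _)

private lemma fa4_CC_le {ρ h : ℝ → ℝ} {θ δ : ℝ} (hδ4 : δ ≤ 1 / 4)
    (hρ : Bump ρ (-(δ / 2)) (δ / 2)) (hh : Bump h 0 θ) :
    ∃ B : ℝ, 0 ≤ B ∧ ∀ Y ∈ Set.Icc (-1 : ℝ) (1 / 2 + δ), |CC ρ ρ h Y Y| ≤ B := by
  set A := ∫ x, |h x| with hA
  set H := ∫ t, h t ^ 2 with hH
  have hA0 : 0 ≤ A := integral_nonneg (fun x => abs_nonneg _)
  have hH0 : 0 ≤ H := integral_nonneg (fun x => sq_nonneg _)
  set C₀ := A * A + H * 10 with hC₀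
  have hC0 : 0 ≤ C₀ := by positivity
  have hint := fa4_bump_integrable hρ
  set R := ∫ x, |ρ x| with hR
  refine ⟨R * (C₀ * R), by positivity, fun Y hY => ?_⟩
  unfold CC
  have hpt : ∀ x y : ℝ, |ρ x * ρ y * (HH h (x - Y) * HH h (y - Y) +
      H * (max (min (Y - x) (Y - y)) 0 - max (Y - x + (Y - y) - 1) 0))| ≤ |ρ x| * (C₀ * |ρ y|) := by
    intro x y
    by_cases hx : ρ x = 0
    · simp [hx]
    by_cases hy : ρ y = 0
    · simp [hy]
    have hx' := hρ.supp x hx
    have hy' := hρ.supp y hy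
    rw [abs_mul, abs_mul]
    have h1 : |HH h (x - Y) * HH h (y - Y) +
      H * (max (min (Y - x) (Y - y)) 0 - max (Y - x + (Y - y) - 1) 0)| ≤ C₀ := by
      refine (abs_add_le _ _).trans ?_
      rw [abs_mul, abs_mul, abs_of_nonneg hH0]
      refine add_le_add (mul_le_mul (fa4_HH_le hh _) (fa4_HH_le hh _) (abs_nonneg _) hA0) ?_
      refine mul_le_mul_of_nonneg_left ?_ hH0
      rw [abs_le]
      have h1 : 0 ≤ max (min (Y - x) (Y - y)) 0 := le_max_right _ _
      have h2 : 0 ≤ max (Y - x + (Y - y) - 1) 0 := le_max_right _ _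
      have h3 : max (min (Y - x) (Y - y)) 0 ≤ 2 :=
        max_le ((min_le_left _ _).trans (by linarith [hY.2])) (by norm_num)
      have h4 : max (Y - x + (Y - y) - 1) 0 ≤ 10 :=
        max_le (by linarith [hY.2]) (by norm_num)
      constructor <;> linarith
    calc |ρ x| * |ρ y| * _ ≤ |ρ x| * |ρ y| * C₀ := by gcongr
      _ = |ρ x| * (C₀ * |ρ y|) := by ring
  have hin : ∀ x : ℝ, |∫ y : ℝ, ρ x * ρ y * (HH h (x - Y) * HH h (y - Y) +
      H * (max (min (Y - x) (Y - y)) 0 - max (Y - x + (Y - y) - 1) 0))| ≤ |ρ x| * (C₀ * R) := by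
    intro x
    have := norm_integral_le_of_norm_le (μ := volume)
      (f := fun y : ℝ => ρ x * ρ y * (HH h (x - Y) * HH h (y - Y) +
      H * (max (min (Y - x) (Y - y)) 0 - max (Y - x + (Y - y) - 1) 0)))
      (g := fun y => |ρ x| * (C₀ * |ρ y|)) ((hint.abs.const_mul C₀).const_mul |ρ x|)
      (Filter.Eventually.of_forall (fun y => hpt x y))
    rw [integral_const_mul, integral_const_mul, ← hR] at this
    exact this
  have := norm_integral_le_of_norm_le (μ := volume)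
      (f := fun x : ℝ => ∫ y : ℝ, ρ x * ρ y * (HH h (x - Y) * HH h (y - Y) +
      H * (max (min (Y - x) (Y - y)) 0 - max (Y - x + (Y - y) - 1) 0)))
      (g := fun x => |ρ x| * (C₀ * R)) (hint.abs.mul_const (C₀ * R))
      (Filter.Eventually.of_forall (fun x => hin x))
  rw [integral_mul_const, ← hR] at this
  exact this

private lemma fa4_sum_bound {θ δ : ℝ} (hδ : 0 < δ) (hδ4 : δ ≤ 1 / 4) (hθ : 0 < θ)
    (hθ1 : θ + 3 * δ < 1 / 2) (hE : ErrS θ δ)
    (σ : ℤ) (hσ : σ = 1 ∨ σ = -1) (c : ℝ) (hc : c = 0 ∨ c = 1) {ρ h : ℝ → ℝ}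
    (hρ : Bump ρ (-(δ / 2)) (δ / 2)) (hh : Bump h 0 θ) :
    ∃ B : ℝ, 0 ≤ B ∧ ∃ X₀ : ℝ, ∀ X : ℝ, X₀ ≤ X → 1 < X → ∀ S : Finset ℕ,
      (∀ d ∈ S, Odd d ∧ X < d ∧ (d : ℝ) ≤ 2 * X) → ∀ Y ∈ Set.Icc (-1 : ℝ) (1 / 2 + δ),
        ∑ d ∈ S, ytil c σ ρ h X d Y ^ 2 ≤ B * X := by
  obtain ⟨F, hF, hF0, hF1, hF2⟩ := exists_F 1 one_pos
  obtain ⟨B, hB, hCC⟩ := fa4_CC_le hδ4 hρ hh
  have hFint : 0 < ∫ t, F t := by
    have h1 : Integrable F := fa4_bump_integrable hF
    have h2 : ∫ t in Set.Icc (1 : ℝ) 2, (1 : ℝ) ≤ ∫ t in Set.Icc (1 : ℝ) 2, F t := by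
      apply setIntegral_mono_on _ h1.integrableOn measurableSet_Icc (fun t ht => hF1 t ht)
      simp
    have h3 : ∫ t in Set.Icc (1 : ℝ) 2, F t ≤ ∫ t, F t :=
      setIntegral_le_integral h1 (Filter.Eventually.of_forall hF0)
    have h4 : ∫ t in Set.Icc (1 : ℝ) 2, (1 : ℝ) = 1 := by
      simp
      norm_num
    linarith
  obtain ⟨X₀, hX₀⟩ := second_moment hδ hδ4 hθ hθ1 hE (a := 1 / 2) (b := 4) (by norm_num) hF hFint σ hσ
    1 odd_one squarefree_one c hc hρ hρ hh 1 one_pos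
  refine ⟨((∫ t, F t) * B + 1) / 2, by positivity, X₀, fun X hX hX1 S hS Y hY => ?_⟩
  have hX0 : 0 < X := by linarith
  have h1 := hX₀ X hX Y hY Y hY
  simp only [Nat.cast_one, one_pow, mul_one, one_mul] at h1
  set T := ∑' d : ℕ, (if Odd d then F (d / X) *
    (ytil c σ ρ h X d Y * ytil c σ ρ h X d Y) else 0) with hT
  have h2 : 2 / X * T ≤ (∫ t, F t) * B + 1 := by
    have h3 := (abs_le.1 h1).2
    have h4 : (∫ t, F t) * CC ρ ρ h Y Y ≤ (∫ t, F t) * B :=
      mul_le_mul_of_nonneg_left ((le_abs_self _).trans (hCC Y hY)) hFint.le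
    linarith
  have h5 : T ≤ ((∫ t, F t) * B + 1) / 2 * X := by
    have : T = (2 / X * T) * (X / 2) := by field_simp
    rw [this]
    calc (2 / X * T) * (X / 2) ≤ ((∫ t, F t) * B + 1) * (X / 2) :=
          mul_le_mul_of_nonneg_right h2 (by positivity)
      _ = _ := by ring
  refine le_trans ?_ h5
  have hnn : ∀ d : ℕ, 0 ≤ (if Odd d then F (d / X) *
    (ytil c σ ρ h X d Y * ytil c σ ρ h X d Y) else 0) := by
    intro d
    split_ifs
    · exact mul_nonneg (hF0 _) (mul_self_nonneg _)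
    · exact le_rfl
  have hsum : Summable (fun d : ℕ => (if Odd d then F (d / X) *
    (ytil c σ ρ h X d Y * ytil c σ ρ h X d Y) else 0)) := by
    apply summable_of_hasFiniteSupport
    refine (Set.finite_Iic ⌈4 * X⌉₊).subset (fun d hd => ?_)
    rw [Function.mem_support] at hd
    have h6 : F (d / X) ≠ 0 := by
      intro h0
      apply hd
      simp [h0]
    have h7 := (hF.supp _ h6).2
    rw [div_lt_iff₀ hX0] at h7
    rw [Set.mem_Iic]
    exact_mod_cast h7.le.trans (Nat.le_ceil _)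
  calc ∑ d ∈ S, ytil c σ ρ h X d Y ^ 2 ≤ ∑ d ∈ S, (if Odd d then F (d / X) *
    (ytil c σ ρ h X d Y * ytil c σ ρ h X d Y) else 0) := by
        refine Finset.sum_le_sum (fun d hd => ?_)
        obtain ⟨ho, hl, hu⟩ := hS d hd
        rw [if_pos ho, ← sq]
        have : 1 ≤ F (d / X) := hF1 _ ⟨by rw [le_div_iff₀ hX0]; linarith, by
          rw [div_le_iff₀ hX0]; linarith⟩
        nlinarith [sq_nonneg (ytil c σ ρ h X d Y)]
    _ ≤ T := hsum.sum_le_tsum S (fun d _ => hnn d)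

private lemma fa4_qf_le {w g : ℝ → ℝ} {g₀ V W : ℝ} (hV : 0 ≤ V) (hg₀ : 0 ≤ g₀)
    (hw : ContinuousOn w (Set.Icc 0 V)) (hW : ∀ v ∈ Set.Icc 0 V, w v ≤ W) (hg : Continuous g) :
    qf w g₀ V g ≤ (W + g₀ * V) * ∫ v in (0 : ℝ)..V, g v ^ 2 := by
  unfold qf
  have h1 : (∫ v in (0 : ℝ)..V, g v) ^ 2 ≤ V * ∫ v in (0 : ℝ)..V, g v ^ 2 := fa4_cs hg hV le_rfl
  have hg2 : Continuous (fun v => g v ^ 2) := hg.pow 2
  have h2 : ∫ v in (0 : ℝ)..V, w v * g v ^ 2 ≤ ∫ v in (0 : ℝ)..V, W * g v ^ 2 := by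
    apply intervalIntegral.integral_mono_on hV
    · apply ContinuousOn.intervalIntegrable
      rw [Set.uIcc_of_le hV]
      exact hw.mul hg2.continuousOn
    · exact (continuous_const.mul hg2 : Continuous (fun v => W * g v ^ 2)).intervalIntegrable _ _
    · intro v hv
      exact mul_le_mul_of_nonneg_right (hW v hv) (sq_nonneg _)
  rw [intervalIntegral.integral_const_mul] at h2
  have h3 := mul_le_mul_of_nonneg_left h1 hg₀
  calc _ ≤ W * (∫ v in (0 : ℝ)..V, g v ^ 2) + g₀ * (V * ∫ v in (0 : ℝ)..V, g v ^ 2) :=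
        add_le_add h2 h3
    _ = _ := by ring

theorem avg_shift {θ δ : ℝ} (hδ : 0 < δ) (hδ4 : δ ≤ 1 / 4) (hθ : 0 < θ) (hθ1 : θ + 3 * δ < 1 / 2)
    (hE : ErrS θ δ)
    (σ : ℤ) (hσ : σ = 1 ∨ σ = -1) (c : ℝ) (hc : c = 0 ∨ c = 1) {ρ h : ℝ → ℝ}
    (hρ : Bump ρ (-(δ / 2)) (δ / 2)) (hh : Bump h (2 * δ) θ)
    {w : ℝ → ℝ} {g₀ : ℝ} (hg : 0 < g₀)
    (hw : ContinuousOn w (Set.Icc 0 (1 / 2 + δ))) (hwp : ∀ v ∈ Set.Icc 0 (1 / 2 + δ), 0 < w v)
    (ε : ℝ) (hε : 0 < ε) :
    ∃ X₀ : ℝ, ∀ X : ℝ, X₀ ≤ X → ∀ S : Finset ℕ, (∀ d ∈ S, Odd d ∧ X < d ∧ (d : ℝ) ≤ 2 * X) →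
      ∑ d ∈ S, qf w g₀ (1 / 2 + δ) (fun v => ytil c σ ρ h X d (1 / 2 - v) -
        ytil c σ ρ h X d (Real.log (8 * d) / (2 * Real.log X) - v)) ≤ ε * X := by
  have hh0 : Bump h 0 θ := ⟨hh.smooth, fun t ht => ⟨by linarith [(hh.supp t ht).1], (hh.supp t ht).2⟩⟩
  have hρ' := fa4_bump_deriv hρ
  obtain ⟨B, hB, X₁, hX₁⟩ := fa4_sum_bound hδ hδ4 hθ hθ1 hE σ hσ c hc hρ' hh0
  have hV : (0 : ℝ) ≤ 1 / 2 + δ := by positivity
  set V := 1 / 2 + δ with hVdef
  obtain ⟨v₀, hv₀, hWm⟩ := isCompact_Icc.exists_isMaxOn (Set.nonempty_Icc.2 hV) hw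
  set W := w v₀ with hWdef
  have hW : ∀ v ∈ Set.Icc 0 V, w v ≤ W := fun v hv => hWm hv
  have hW0 : 0 < W := hwp v₀ hv₀
  set K := (W + g₀ * V) * (V * B) with hK
  have hK0 : 0 ≤ K := by positivity
  -- choose `X₀`
  have hlim : Tendsto (fun X : ℝ => Real.log 16 / (2 * Real.log X)) atTop (𝓝 0) :=
    Tendsto.const_div_atTop (Real.tendsto_log_atTop.const_mul_atTop (by norm_num)) _
  have hlim2 : Tendsto (fun X : ℝ => K * (Real.log 16 / (2 * Real.log X)) ^ 2) atTop (𝓝 0) := by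
    have := (hlim.pow 2).const_mul K
    simpa using this
  have hev := (hlim.eventually_lt_const hδ).and ((hlim2.eventually_lt_const hε).and
    ((eventually_gt_atTop 1).and (eventually_ge_atTop X₁)))
  obtain ⟨X₀, hX₀⟩ := eventually_atTop.1 hev
  refine ⟨X₀, fun X hX S hS => ?_⟩
  obtain ⟨hβδ, hKε, hX1, hXX₁⟩ := hX₀ X hX
  set β := Real.log 16 / (2 * Real.log X) with hβ
  have hL : 0 < Real.log X := Real.log_pos hX1
  have hβ0 : 0 < β := by
    have : 0 < Real.log 16 := Real.log_pos (by norm_num)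
    positivity
  have hcont : ∀ d : ℕ, Continuous (fun Y => ytil c σ ρ h X d Y) := fun d =>
    continuous_iff_continuousAt.2 (fun Y => (hasDerivAt_ytil hδ hρ hh0 c hc σ X hX1 d Y).continuousAt)
  have hcont' : ∀ d : ℕ, Continuous (fun Y => ytil c σ (deriv ρ) h X d Y) := fun d =>
    continuous_iff_continuousAt.2
      (fun Y => (hasDerivAt_ytil hδ hρ' hh0 c hc σ X hX1 d Y).continuousAt)
  set g : ℕ → ℝ → ℝ := fun d v => ytil c σ ρ h X d (1 / 2 - v) -
        ytil c σ ρ h X d (Real.log (8 * d) / (2 * Real.log X) - v) with hgdef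
  have hgc : ∀ d, Continuous (g d) := fun d => by
    exact ((hcont d).comp (continuous_const.sub continuous_id)).sub
      ((hcont d).comp (continuous_const.sub continuous_id))
  have hpt : ∀ v ∈ Set.Icc 0 V, ∑ d ∈ S, g d v ^ 2 ≤ β * (β * (B * X)) := by
    intro v hv
    have h1 : ∀ d ∈ S, g d v ^ 2 ≤
        β * ∫ u in (0 : ℝ)..β, ytil c σ (deriv ρ) h X d (1 / 2 - v + u) ^ 2 := by
      intro d hd
      obtain ⟨ho, hl, hu⟩ := hS d hd
      have hd0 : (0 : ℝ) < d := by linarith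
      set s := Real.log (8 * d) / (2 * Real.log X) - 1 / 2 with hs
      have hs1 : s = (Real.log (8 * d) - Real.log X) / (2 * Real.log X) := by
        rw [hs]; field_simp
      have hs0 : 0 ≤ s := by
        rw [hs1]
        apply div_nonneg _ (by positivity)
        have : Real.log X ≤ Real.log (8 * d) := Real.log_le_log (by linarith) (by linarith)
        linarith
      have hsβ : s ≤ β := by
        rw [hs1, hβ]
        apply div_le_div_of_nonneg_right _ (by positivity)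
        have : Real.log (8 * d) ≤ Real.log (16 * X) := Real.log_le_log (by linarith) (by linarith)
        have h16 : Real.log (16 * X) = Real.log 16 + Real.log X :=
          Real.log_mul (by norm_num) (by linarith)
        linarith
      have hc' : Continuous (fun u => ytil c σ (deriv ρ) h X d (1 / 2 - v + u)) :=
        (hcont' d).comp (continuous_const.add continuous_id)
      have hftc : ∫ u in (0 : ℝ)..s, ytil c σ (deriv ρ) h X d (1 / 2 - v + u) =
          ytil c σ ρ h X d (1 / 2 - v + s) - ytil c σ ρ h X d (1 / 2 - v + 0) := by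
        apply intervalIntegral.integral_eq_sub_of_hasDerivAt
          (f := fun u => ytil c σ ρ h X d (1 / 2 - v + u))
        · intro u _
          have := (hasDerivAt_ytil hδ hρ hh0 c hc σ X hX1 d (1 / 2 - v + u)).comp_const_add
            (1 / 2 - v) u
          exact this
        · exact hc'.intervalIntegrable _ _
      have hgs : g d v ^ 2 = (∫ u in (0 : ℝ)..s, ytil c σ (deriv ρ) h X d (1 / 2 - v + u)) ^ 2 := by
        rw [hftc, hgdef]
        simp only
        rw [show Real.log (8 * d) / (2 * Real.log X) - v = 1 / 2 - v + s by rw [hs]; ring, add_zero]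
        ring
      rw [hgs]
      exact fa4_cs hc' hs0 hsβ
    calc ∑ d ∈ S, g d v ^ 2 ≤ ∑ d ∈ S,
          β * ∫ u in (0 : ℝ)..β, ytil c σ (deriv ρ) h X d (1 / 2 - v + u) ^ 2 :=
            Finset.sum_le_sum h1
      _ = β * ∫ u in (0 : ℝ)..β, ∑ d ∈ S, ytil c σ (deriv ρ) h X d (1 / 2 - v + u) ^ 2 := by
          rw [← Finset.mul_sum, intervalIntegral.integral_finsetSum]
          intro d _
          exact (((hcont' d).comp (continuous_const.add continuous_id)).pow 2).intervalIntegrable _ _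
      _ ≤ β * ∫ u in (0 : ℝ)..β, B * X := by
          apply mul_le_mul_of_nonneg_left _ hβ0.le
          apply intervalIntegral.integral_mono_on hβ0.le
          · apply Continuous.intervalIntegrable
            exact continuous_finsetSum _ (fun d _ =>
              ((hcont' d).comp (continuous_const.add continuous_id)).pow 2)
          · exact intervalIntegrable_const
          · intro u hu
            apply hX₁ X hXX₁ hX1 S hS
            constructor
            · linarith [hv.2, hu.1]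
            · linarith [hv.1, hu.2]
      _ = β * (β * (B * X)) := by
          rw [intervalIntegral.integral_const]
          simp
  calc ∑ d ∈ S, qf w g₀ V (g d) ≤ ∑ d ∈ S, (W + g₀ * V) * ∫ v in (0 : ℝ)..V, g d v ^ 2 :=
        Finset.sum_le_sum (fun d _ => fa4_qf_le hV hg.le hw hW (hgc d))
    _ = (W + g₀ * V) * ∫ v in (0 : ℝ)..V, ∑ d ∈ S, g d v ^ 2 := by
        rw [← Finset.mul_sum, intervalIntegral.integral_finsetSum]
        intro d _
        exact ((hgc d).pow 2).intervalIntegrable _ _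
    _ ≤ (W + g₀ * V) * ∫ v in (0 : ℝ)..V, β * (β * (B * X)) := by
        apply mul_le_mul_of_nonneg_left _ (by positivity)
        apply intervalIntegral.integral_mono_on hV
        · apply Continuous.intervalIntegrable
          exact continuous_finsetSum _ (fun d _ => (hgc d).pow 2)
        · exact intervalIntegrable_const
        · exact hpt
    _ = (K * β ^ 2) * X := by
        rw [intervalIntegral.integral_const, hK]
        simp only [smul_eq_mul, sub_zero]
        ring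
    _ ≤ ε * X := mul_le_mul_of_nonneg_right hKε.le (by linarith)

end Pool.Agent.MP0016c7.Rz
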