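import Mathlib
import Pool.Agent.Lib.MP_0016c7_nt.Theta
import Pool.Agent.Lib.MP_0016c7_nt.Rz.Defs
import Pool.Agent.Lib.MP_0016c7_nt.Rz.DefsC
import Pool.Agent.Lib.MP_0016c7_nt.Rz.DefsF
import Pool.Agent.Lib.MP_0016c7_nt.Rz.DefsE

set_option autoImplicit false

open Finset MeasureTheory Filter Topology
open scoped Real ContDiff

namespace Pool.Agent.MP0016c7.Rz

private lemma r0_jr_mul (a : ℤ) (m n : ℕ) : jr a (m * n) = jr a m * jr a n := by
  unfold jr
  by_cases hm : Odd m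
  · by_cases hn : Odd n
    · rw [if_pos hm, if_pos hn, if_pos (hm.mul hn), jacobiSym.mul_right' a hm.pos.ne' hn.pos.ne']
      push_cast
      ring
    · rw [if_neg hn, if_neg (fun h => hn (Nat.odd_mul.1 h).2), mul_zero]
  · rw [if_neg hm, if_neg (fun h => hm (Nat.odd_mul.1 h).1), zero_mul]

private lemma r0_mod (a : ℤ) (M : ℕ) (hM : M = 4 * a.natAbs) (n : ℕ) :
    jr a (n % M) = jr a n := by
  have h2 : Odd (n % M) ↔ Odd n := by
    rw [Nat.odd_iff, Nat.odd_iff, Nat.mod_mod_of_dvd _ ⟨2 * a.natAbs, by omega⟩]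
  unfold jr
  by_cases hn : Odd n
  · rw [if_pos hn, if_pos (h2.2 hn), hM, ← jacobiSym.mod_right a hn]
  · rw [if_neg hn, if_neg (fun h => hn (h2.1 h))]

private lemma r0_cop {a : ℤ} {n : ℕ} (ho : Odd n) (h : a.gcd n = 1) :
    Nat.Coprime n (4 * a.natAbs) := by
  refine Nat.Coprime.mul_right ?_ ?_
  · have : Nat.Coprime n (2 ^ 2) := Nat.Coprime.pow_right 2 (Nat.coprime_two_right.2 ho)
    exact this
  · rw [Int.gcd_eq_natAbs, Int.natAbs_natCast] at h
    exact (Nat.coprime_comm.1 h)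

private noncomputable def r0ψ (a : ℤ) (N : ℕ) (hN : N = 4 * a.natAbs) (hN1 : 1 < N) :
    DirichletCharacter ℂ N where
  toFun x := (jr a x.val : ℂ)
  map_one' := by
    have : Fact (1 < N) := ⟨hN1⟩
    rw [ZMod.val_one]
    simp [jr]
  map_mul' x y := by
    rw [ZMod.val_mul, r0_mod a N hN, r0_jr_mul]
    push_cast
    rfl
  map_nonunit' x hx := by
    have : NeZero N := ⟨by omega⟩
    have h1 : ¬ Nat.Coprime x.val N := by
      intro h
      apply hx
      have := (ZMod.isUnit_iff_coprime x.val N).2 h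
      rwa [ZMod.natCast_zmod_val] at this
    show (jr a x.val : ℂ) = 0
    unfold jr
    split_ifs with ho
    · have : NeZero x.val := ⟨ho.pos.ne'⟩
      have h2 : jacobiSym a x.val = 0 := by
        rw [jacobiSym.eq_zero_iff_not_coprime]
        intro h
        apply h1
        have h9 := r0_cop ho h
        rw [← hN] at h9
        exact h9
      rw [h2]
      simp
    · simp

private lemma r0ψ_nat (a : ℤ) (N : ℕ) (hN : N = 4 * a.natAbs) (hN1 : 1 < N) (n : ℕ) :
    r0ψ a N hN hN1 n = (jr a n : ℂ) := by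
  show (jr a (n : ZMod N).val : ℂ) = _
  rw [ZMod.val_natCast, r0_mod a N hN]

private lemma r0_jr_sq (a : ℤ) (n : ℕ) (h : Nat.Coprime n (4 * a.natAbs)) : jr a n ^ 2 = 1 := by
  have ho : Odd n := by
    have h1 : Nat.Coprime n 4 := h.coprime_mul_right_right
    have h2 : Nat.Coprime n 2 := Nat.Coprime.coprime_dvd_right (by norm_num) h1
    exact Nat.coprime_two_right.1 h2
  have hg : a.gcd n = 1 := by
    rw [Int.gcd_eq_natAbs, Int.natAbs_natCast]
    exact (h.coprime_mul_left_right).symm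
  unfold jr
  rw [if_pos ho]
  have := jacobiSym.sq_one hg
  exact_mod_cast this

private lemma r0ψ_sq (a : ℤ) (N : ℕ) (hN : N = 4 * a.natAbs) (hN1 : 1 < N) (u : (ZMod N)ˣ) :
    (r0ψ a N hN hN1).toUnitHom u ^ 2 = 1 := by
  have : NeZero N := ⟨by omega⟩
  ext
  rw [Units.val_pow_eq_pow_val, MulChar.coe_toUnitHom, Units.val_one]
  show ((jr a (u : ZMod N).val : ℝ) : ℂ) ^ 2 = 1
  have h := r0_jr_sq a (u : ZMod N).val (by rw [← hN]; exact ZMod.val_coe_unit_coprime u)
  exact_mod_cast h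

private lemma r0_ker {N D : ℕ} [NeZero N] (h : D ∣ N) (u : (ZMod N)ˣ) :
    u ∈ (ZMod.unitsMap h).ker ↔ (u : ZMod N).val ≡ 1 [MOD D] := by
  rw [MonoidHom.mem_ker, Units.ext_iff, ZMod.unitsMap_val, ← ZMod.natCast_val, Units.val_one,
    ← Nat.cast_one, ZMod.natCast_eq_natCast_iff]

private lemma r0_unit_eq {N : ℕ} [NeZero N] (u v : (ZMod N)ˣ)
    (h : (u : ZMod N).val ≡ (v : ZMod N).val [MOD N]) : u = v := by
  ext
  have := (ZMod.natCast_eq_natCast_iff _ _ _).2 h
  rwa [ZMod.natCast_zmod_val, ZMod.natCast_zmod_val] at this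

private lemma r0_cyclic {N D p : ℕ} [NeZero N] [hp : Fact p.Prime] (hN : N = p * D)
    (hc : p.Coprime D) (h : D ∣ N) (hN1 : 1 < N) : IsCyclic (ZMod.unitsMap h).ker := by
  have hpN : p ∣ N := ⟨D, hN⟩
  have : Fact (1 < N) := ⟨hN1⟩
  refine isCyclic_of_injective ((ZMod.unitsMap hpN).comp (ZMod.unitsMap h).ker.subtype) ?_
  rw [injective_iff_map_eq_one]
  rintro ⟨u, hu⟩ h1
  have h2 : u ∈ (ZMod.unitsMap hpN).ker := h1
  rw [r0_ker] at hu h2
  have h3 : (u : ZMod N).val ≡ 1 [MOD p * D] := (Nat.modEq_and_modEq_iff_modEq_mul hc).1 ⟨h2, hu⟩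
  rw [← hN] at h3
  have h4 : u = 1 := by
    apply r0_unit_eq
    rw [Units.val_one, ZMod.val_one]
    exact h3
  exact Subtype.ext h4

private lemma r0_cyc {G : Type*} [CommGroup G] (K : Subgroup G) [IsCyclic K] (f g : G →* ℂˣ)
    (hf : ∀ u, f u ^ 2 = 1) (hg : ∀ u, g u ^ 2 = 1) (hf1 : ∃ u ∈ K, f u ≠ 1)
    (hg1 : ∃ u ∈ K, g u ≠ 1) (u : G) (hu : u ∈ K) : f u * g u = 1 := by
  obtain ⟨x, hx⟩ := IsCyclic.exists_generator (α := K)
  have gen : ∀ v ∈ K, ∃ n : ℤ, v = (x : G) ^ n := by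
    intro v hv
    obtain ⟨n, hn⟩ := Subgroup.mem_zpowers_iff.1 (hx ⟨v, hv⟩)
    refine ⟨n, ?_⟩
    have := congrArg Subtype.val hn
    simpa using this.symm
  have key : ∀ h : G →* ℂˣ, (∀ u, h u ^ 2 = 1) → (∃ u ∈ K, h u ≠ 1) → h x = -1 := by
    rintro h h2 ⟨v, hv, hv1⟩
    have h3 : h x ≠ 1 := by
      intro h1
      apply hv1
      obtain ⟨n, rfl⟩ := gen v hv
      rw [map_zpow, h1, one_zpow]
    have h4 : ((h x : ℂˣ) : ℂ) * ((h x : ℂˣ) : ℂ) = 1 := by
      have := congrArg Units.val (h2 x)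
      rw [Units.val_pow_eq_pow_val, Units.val_one] at this
      rw [← sq, this]
    rcases mul_self_eq_one_iff.1 h4 with h5 | h5
    · exact absurd (Units.ext h5) h3
    · ext
      rw [h5]
      simp
  obtain ⟨n, rfl⟩ := gen u hu
  rw [map_zpow, map_zpow, ← mul_zpow, key f hf hf1, key g hg hg1]
  simp

private lemma r0_natAbs {d : ℕ} {σ : ℤ} (hσ : σ = 1 ∨ σ = -1) :
    8 * d = 4 * (2 * σ * d : ℤ).natAbs := by
  rw [Int.natAbs_mul, Int.natAbs_mul, Int.natAbs_natCast]
  rcases hσ with rfl | rfl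
  · norm_num
    ring
  · norm_num
    ring

private lemma r0_one (a : ℤ) (n : ℕ) (ho : Odd n) (h1 : 1 < 4 * a.natAbs)
    (h : n ≡ 1 [MOD 4 * a.natAbs]) : jacobiSym a n = 1 := by
  rw [jacobiSym.mod_right a ho, h, Nat.mod_eq_of_lt h1, jacobiSym.one_right]

/-- the value at the unit `4 d + 1` -/
private lemma r0_val4 {d : ℕ} (hd : Odd d) {σ : ℤ} (hσ : σ = 1 ∨ σ = -1) :
    jr (2 * σ * d) (4 * d + 1) = -1 := by
  have ho : Odd (4 * d + 1) := ⟨2 * d, by ring⟩
  have hd0 := hd.pos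
  have h1 : jacobiSym 2 (4 * d + 1) = -1 := by
    rw [jacobiSym.at_two ho, ZMod.χ₈_nat_mod_eight]
    have : (4 * d + 1) % 8 = 5 := by
      have := Nat.odd_iff.1 hd
      omega
    rw [this]
    rfl
  have h2 : (σ * (d : ℤ)).natAbs = d := by
    rw [Int.natAbs_mul, Int.natAbs_natCast]
    rcases hσ with rfl | rfl <;> simp
  have h3 : jacobiSym (σ * d) (4 * d + 1) = 1 := by
    refine r0_one _ _ ho (by rw [h2]; omega) ?_
    rw [h2]
    simp [Nat.ModEq]
  unfold jr
  rw [if_pos ho, mul_assoc, jacobiSym.mul_left, h1, h3]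
  norm_num

private lemma r0_valneg {d : ℕ} (hd : Odd d) {σ : ℤ} (hσ : σ = 1 ∨ σ = -1) :
    jr (2 * σ * d) (8 * d - 1) = σ := by
  have hd0 := hd.pos
  have ho : Odd (8 * d - 1) := ⟨4 * d - 1, by omega⟩
  have h1 : jacobiSym 2 (8 * d - 1) = 1 := by
    rw [jacobiSym.at_two ho, ZMod.χ₈_nat_mod_eight]
    have : (8 * d - 1) % 8 = 7 := by omega
    rw [this]
    rfl
  have h2 : jacobiSym σ (8 * d - 1) = σ := by
    rcases hσ with rfl | rfl
    · exact jacobiSym.one_left _
    · rw [jacobiSym.at_neg_one ho, ZMod.χ₄_nat_three_mod_four (by omega)]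
  have h3 : jacobiSym ((8 * d - 1 : ℕ) : ℤ) d = jacobiSym (-1) d := by
    apply jacobiSym.mod_left'
    have : ((8 * d - 1 : ℕ) : ℤ) = -1 + d * 8 := by
      rw [Nat.cast_sub (by omega)]
      push_cast
      ring
    rw [this, Int.add_mul_emod_self_left]
  have h4 : jacobiSym d (8 * d - 1) = 1 := by
    have hd4 : d % 4 = 1 ∨ d % 4 = 3 := by
      have := Nat.odd_iff.1 hd
      omega
    rcases hd4 with h | h
    · rw [jacobiSym.quadratic_reciprocity_one_mod_four h ho, h3, jacobiSym.at_neg_one hd,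
        ZMod.χ₄_nat_one_mod_four h]
    · rw [jacobiSym.quadratic_reciprocity_three_mod_four h (by omega), h3,
        jacobiSym.at_neg_one hd, ZMod.χ₄_nat_three_mod_four h]
      norm_num
  unfold jr
  rw [if_pos ho, jacobiSym.mul_left, jacobiSym.mul_left, h1, h2, h4]
  norm_num

/-- the character `jr` is not trivial on the `p`-component -/
private lemma r0_valp {p e : ℕ} [hp : Fact p.Prime] (hp2 : p ≠ 2) (he : Odd e)
    (hc : p.Coprime (8 * e)) {σ : ℤ} (hσ : σ = 1 ∨ σ = -1) :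
    ∃ n : ℕ, n ≡ 1 [MOD 8 * e] ∧ Nat.Coprime n (8 * (p * e)) ∧
      jr (2 * σ * ((p * e : ℕ) : ℤ)) n = -1 := by
  have hpo : Odd p := hp.out.odd_of_ne_two hp2
  have hF : ringChar (ZMod p) ≠ 2 := by rwa [ZMod.ringChar_zmod_n]
  obtain ⟨a, ha⟩ := quadraticChar_exists_neg_one hF
  obtain ⟨n, hn1, hn2⟩ := Nat.chineseRemainder hc a.val 1
  have he0 := he.pos
  have ho : Odd n := by
    have h1 : n ≡ 1 [MOD 2] := hn2.of_dvd ⟨4 * e, by ring⟩
    rw [Nat.odd_iff]
    exact h1
  have h4 : n % 4 = 1 := by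
    have h1 : n ≡ 1 [MOD 4] := hn2.of_dvd ⟨2 * e, by ring⟩
    exact h1
  have hcast : ((n : ℤ) : ZMod p) = a := by
    have h1 : (n : ZMod p) = (a.val : ZMod p) := (ZMod.natCast_eq_natCast_iff _ _ _).2 hn1
    rw [Int.cast_natCast, h1, ZMod.natCast_zmod_val]
  have h5 : jacobiSym n p = -1 := by
    rw [← jacobiSym.legendreSym.to_jacobiSym]
    unfold legendreSym
    rw [hcast, ha]
  have h6 : jacobiSym p n = -1 := by
    rw [← jacobiSym.quadratic_reciprocity_one_mod_four h4 hpo, h5]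
  have h7 : (2 * σ * (e : ℤ)).natAbs = 2 * e := by
    have := r0_natAbs (d := e) hσ
    omega
  have h8 : jacobiSym (2 * σ * e) n = 1 := by
    refine r0_one _ _ ho (by rw [h7]; omega) ?_
    rw [h7]
    have : 4 * (2 * e) = 8 * e := by ring
    rw [this]
    exact hn2
  have h9 : jacobiSym (2 * σ * ((p * e : ℕ) : ℤ)) n = -1 := by
    have : (2 * σ * ((p * e : ℕ) : ℤ)) = (2 * σ * e) * p := by
      push_cast
      ring
    rw [this, jacobiSym.mul_left, h8, h6]
    norm_num
  refine ⟨n, hn2, ?_, ?_⟩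
  · have hne : jacobiSym (2 * σ * ((p * e : ℕ) : ℤ)) n ≠ 0 := by
      rw [h9]
      norm_num
    have hg : (2 * σ * ((p * e : ℕ) : ℤ)).gcd n = 1 := by
      by_contra hcon
      have : NeZero n := ⟨ho.pos.ne'⟩
      exact hne (jacobiSym.eq_zero_iff_not_coprime.2 hcon)
    have := r0_cop ho hg
    rwa [← r0_natAbs hσ] at this
  · unfold jr
    rw [if_pos ho, h9]
    norm_num

theorem char_eq_jr (d : ℕ) (hd : Odd d) (hs : Squarefree d) [NeZero (8 * d)] (σ : ℤ)
    (χ : DirichletCharacter ℂ (8 * d)) (hp : χ.IsPrimitive) (h2 : χ ^ 2 = 1)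
    (hσ : (σ = 1 ∧ χ.Even) ∨ (σ = -1 ∧ χ.Odd)) (n : ℕ) : χ n = (jr (2 * σ * d) n : ℂ) := by
  have hd0 := hd.pos
  have hσ' : σ = 1 ∨ σ = -1 := by
    rcases hσ with h | h
    · exact Or.inl h.1
    · exact Or.inr h.1
  have hχσ : χ (-1) = (σ : ℂ) := by
    rcases hσ with ⟨h, h'⟩ | ⟨h, h'⟩
    · rw [h, h']
      simp
    · rw [h, h']
      simp
  have hN := r0_natAbs (d := d) hσ'
  have hN1 : 1 < 8 * d := by omega
  have hfact : Fact (1 < 8 * d) := ⟨hN1⟩
  set ψ := r0ψ (2 * σ * d) (8 * d) hN hN1 with hψ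
  have hψsq : ∀ u, ψ.toUnitHom u ^ 2 = 1 := r0ψ_sq _ _ hN hN1
  have hχsq : ∀ u, χ.toUnitHom u ^ 2 = 1 := by
    intro u
    ext
    rw [Units.val_pow_eq_pow_val, MulChar.coe_toUnitHom, Units.val_one]
    have := congrArg (fun f : DirichletCharacter ℂ (8 * d) => f (u : ZMod (8 * d))) h2
    simp only [MulChar.pow_apply_coe, MulChar.one_apply_coe] at this
    exact this
  set η := χ * ψ with hη
  have hηu : ∀ u, η.toUnitHom u = χ.toUnitHom u * ψ.toUnitHom u := by
    intro u
    ext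
    simp [hη]
  -- nontriviality of `χ` on the kernels
  have hχD : ∀ D : ℕ, ∀ h : D ∣ 8 * d, D < 8 * d → ∃ u ∈ (ZMod.unitsMap h).ker,
      χ.toUnitHom u ≠ 1 := by
    intro D h hlt
    by_contra hcon
    push Not at hcon
    have h1 : χ.FactorsThrough D := by
      rw [DirichletCharacter.factorsThrough_iff_ker_unitsMap h]
      intro u hu
      exact hcon u hu
    have h3 := DirichletCharacter.conductor_dvd_of_mem_conductorSet χ (d := D) h1
    have h4 : χ.conductor = 8 * d := hp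
    rw [h4] at h3
    have h5 : 0 < D := Nat.pos_of_ne_zero (by
      rintro rfl
      rw [zero_dvd_iff] at h
      omega)
    exact absurd (Nat.le_of_dvd h5 h3) (by omega)
  -- the conductor of `η`
  have hc4 : η.conductor ∣ 4 * d := by
    have h4 : 4 * d ∣ 8 * d := ⟨2, by ring⟩
    refine DirichletCharacter.conductor_dvd_of_mem_conductorSet η (d := 4 * d) ?_
    rw [DirichletCharacter.mem_conductorSet_iff,
      DirichletCharacter.factorsThrough_iff_ker_unitsMap h4]
    have hval : ∀ v ∈ (ZMod.unitsMap h4).ker, v = 1 ∨ (v : ZMod (8 * d)).val = 4 * d + 1 := by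
      intro v hv
      rw [r0_ker] at hv
      have h5 : (v : ZMod (8 * d)).val < 8 * d := ZMod.val_lt _
      have h6 : (v : ZMod (8 * d)).val % (4 * d) = 1 := by
        have : 1 % (4 * d) = 1 := Nat.mod_eq_of_lt (by omega)
        rw [← this]
        exact hv
      have h7 := Nat.div_add_mod (v : ZMod (8 * d)).val (4 * d)
      have h8 : (v : ZMod (8 * d)).val / (4 * d) < 2 := by
        rw [Nat.div_lt_iff_lt_mul (by omega)]
        omega
      have h9 : (v : ZMod (8 * d)).val / (4 * d) = 0 ∨ (v : ZMod (8 * d)).val / (4 * d) = 1 := by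
        have h10 : ∀ q : ℕ, q < 2 → q = 0 ∨ q = 1 := by omega
        exact h10 _ h8
      rcases h9 with h9 | h9
      · left
        apply r0_unit_eq
        rw [Units.val_one, ZMod.val_one]
        rw [h9, h6, mul_zero, zero_add] at h7
        rw [← h7]
      · right
        rw [h9, h6] at h7
        omega
    obtain ⟨u, hu, hu1⟩ := hχD (4 * d) h4 (by omega)
    have huv : (u : ZMod (8 * d)).val = 4 * d + 1 := by
      rcases hval u hu with h | h
      · exact absurd (by rw [h, map_one]) hu1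
      · exact h
    intro v hv
    rw [MonoidHom.mem_ker]
    rcases hval v hv with h | h
    · rw [h, map_one]
    · have hvu : v = u := by
        apply r0_unit_eq
        rw [h, huv]
      rw [hvu, hηu]
      have h5 : χ.toUnitHom u = -1 := by
        have h6 := congrArg Units.val (hχsq u)
        rw [Units.val_pow_eq_pow_val, Units.val_one, sq] at h6
        rcases mul_self_eq_one_iff.1 h6 with h7 | h7
        · exact absurd (Units.ext h7) hu1
        · ext
          rw [h7]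
          simp
      have h6 : ψ.toUnitHom u = -1 := by
        ext
        rw [MulChar.coe_toUnitHom]
        have h7 : ψ (u : ZMod (8 * d)) = ((jr (2 * σ * d) (u : ZMod (8 * d)).val : ℝ) : ℂ) := rfl
        rw [h7, huv, r0_val4 hd hσ']
        simp
      rw [h5, h6]
      simp
  have hcp : ∀ p : ℕ, p.Prime → p ∣ d → ¬ p ∣ η.conductor := by
    intro p hpp hpd hdiv
    have : Fact p.Prime := ⟨hpp⟩
    obtain ⟨e, he⟩ := hpd
    have hpodd : Odd p := by
      rw [he] at hd
      exact (Nat.odd_mul.1 hd).1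
    have heodd : Odd e := by
      rw [he] at hd
      exact (Nat.odd_mul.1 hd).2
    have hp2 : p ≠ 2 := by
      rintro rfl
      exact absurd hpodd (by decide)
    have hpe : p.Coprime e := by
      rw [he] at hs
      exact Nat.coprime_of_squarefree_mul hs
    have hc : p.Coprime (8 * e) := by
      refine Nat.Coprime.mul_right ?_ hpe
      have : Nat.Coprime p (2 ^ 3) := Nat.Coprime.pow_right 3 (Nat.coprime_two_right.2 hpodd)
      exact this
    have hNe : 8 * d = p * (8 * e) := by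
      rw [he]
      ring
    have hD : 8 * e ∣ 8 * d := ⟨p, by rw [hNe]; ring⟩
    have hcyc := r0_cyclic hNe hc hD hN1
    have he0 := heodd.pos
    have hlt : 8 * e < 8 * d := by
      have := hpp.two_le
      rw [he]
      nlinarith
    obtain ⟨m, hm1, hm2, hm3⟩ := r0_valp hp2 heodd hc hσ'
    rw [← he] at hm2 hm3
    have hψ1 : ∃ u ∈ (ZMod.unitsMap hD).ker, ψ.toUnitHom u ≠ 1 := by
      refine ⟨ZMod.unitOfCoprime m hm2, ?_, ?_⟩
      · rw [r0_ker, ZMod.coe_unitOfCoprime, ZMod.val_natCast]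
        exact ((Nat.mod_modEq m (8 * d)).of_dvd hD).trans hm1
      · intro h
        have h3 := congrArg Units.val h
        rw [MulChar.coe_toUnitHom, ZMod.coe_unitOfCoprime, Units.val_one, hψ, r0ψ_nat, hm3] at h3
        norm_num at h3
    have h3 : η.FactorsThrough (8 * e) := by
      rw [DirichletCharacter.factorsThrough_iff_ker_unitsMap hD]
      intro u hu
      rw [MonoidHom.mem_ker, hηu]
      exact r0_cyc _ _ _ hχsq hψsq (hχD _ hD hlt) hψ1 u hu
    have h4 := DirichletCharacter.conductor_dvd_of_mem_conductorSet η (d := 8 * e) h3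
    have h5 := hdiv.trans h4
    have h6 : p ∣ 1 := by
      rw [← hc]
      exact Nat.dvd_gcd dvd_rfl h5
    exact hpp.one_lt.ne' (Nat.dvd_one.1 h6)
  have hcd4 : η.conductor ∣ 4 := by
    refine Nat.Coprime.dvd_of_dvd_mul_right ?_ hc4
    rw [Nat.coprime_iff_gcd_eq_one]
    by_contra hcon
    obtain ⟨p, hpp, hpdvd⟩ := Nat.exists_prime_and_dvd hcon
    exact hcp p hpp (hpdvd.trans (Nat.gcd_dvd_right _ _)) (hpdvd.trans (Nat.gcd_dvd_left _ _))
  have h4N : 4 ∣ 8 * d := ⟨2 * d, by ring⟩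
  have hf4 : η.FactorsThrough 4 :=
    (DirichletCharacter.mem_conductorSet_iff_conductor_dvd η h4N).2 hcd4
  rw [DirichletCharacter.factorsThrough_iff_ker_unitsMap h4N] at hf4
  have hηneg : η.toUnitHom (-1) = 1 := by
    ext
    rw [MulChar.coe_toUnitHom, Units.val_one, Units.val_neg, Units.val_one, hη, MulChar.mul_apply,
      hχσ]
    have h7 : ψ (-1 : ZMod (8 * d)) = ((jr (2 * σ * d) (-1 : ZMod (8 * d)).val : ℝ) : ℂ) := rfl
    have h8 : (-1 : ZMod (8 * d)).val = 8 * d - 1 := by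
      have h9 : (-1 : ZMod (8 * d)) = ((8 * d - 1 : ℕ) : ZMod (8 * d)) := by
        rw [Nat.cast_sub (by omega), ZMod.natCast_self]
        simp
      rw [h9, ZMod.val_natCast, Nat.mod_eq_of_lt (by omega)]
    rw [h7, h8, r0_valneg hd hσ']
    rcases hσ' with rfl | rfl <;> simp
  have hη1 : ∀ u, η.toUnitHom u = 1 := by
    intro u
    have hodd : Odd (u : ZMod (8 * d)).val := by
      have h3 := ZMod.val_coe_unit_coprime u
      have h5 : Nat.Coprime (u : ZMod (8 * d)).val 2 :=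
        Nat.Coprime.coprime_dvd_right ⟨4 * d, by ring⟩ h3
      exact Nat.coprime_two_right.1 h5
    have h4 : (u : ZMod (8 * d)).val % 4 = 1 ∨ (u : ZMod (8 * d)).val % 4 = 3 := by
      have := Nat.odd_iff.1 hodd
      omega
    rcases h4 with h4 | h4
    · have h5 : u ∈ (ZMod.unitsMap h4N).ker := by
        rw [r0_ker]
        exact h4
      exact hf4 h5
    · have h5 : -u ∈ (ZMod.unitsMap h4N).ker := by
        rw [r0_ker, Units.val_neg]
        have hne : (u : ZMod (8 * d)) ≠ 0 := u.ne_zero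
        have : NeZero (u : ZMod (8 * d)) := ⟨hne⟩
        rw [ZMod.val_neg_of_ne_zero]
        have h6 : (u : ZMod (8 * d)).val < 8 * d := ZMod.val_lt _
        show (8 * d - (u : ZMod (8 * d)).val) % 4 = 1 % 4
        omega
      have h6 : η.toUnitHom (-u) = 1 := hf4 h5
      have h7 : u = (-1) * (-u) := by simp
      rw [h7, map_mul, hηneg, h6, mul_one]
  -- conclusion
  by_cases hn : IsUnit ((n : ℕ) : ZMod (8 * d))
  · obtain ⟨u, hu⟩ := hn
    have h3 := hη1 u
    rw [hηu] at h3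
    have h4 : χ.toUnitHom u = ψ.toUnitHom u := by
      have h5 := hψsq u
      calc χ.toUnitHom u = χ.toUnitHom u * (ψ.toUnitHom u ^ 2) := by rw [h5, mul_one]
        _ = (χ.toUnitHom u * ψ.toUnitHom u) * ψ.toUnitHom u := by rw [sq, mul_assoc]
        _ = ψ.toUnitHom u := by rw [h3, one_mul]
    have h5 := congrArg Units.val h4
    rw [MulChar.coe_toUnitHom, MulChar.coe_toUnitHom, hu, hψ, r0ψ_nat] at h5
    exact h5
  · rw [χ.map_nonunit hn, ← r0ψ_nat (2 * σ * d) (8 * d) hN hN1 n, MulChar.map_nonunit _ hn]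

end Pool.Agent.MP0016c7.Rz
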