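import Mathlib
import Pool.Agent.Lib.MP_0016c7_nt.Theta
import Pool.Agent.Lib.MP_0016c7_nt.Rz.Defs
import Pool.Agent.Lib.MP_0016c7_nt.Rz.DefsC
import Pool.Agent.Lib.MP_0016c7_nt.Rz.DefsF
import Pool.Agent.Lib.MP_0016c7_nt.Rz.DefsE
import Pool.Agent.Lib.MP_0016c7_nt.Rz.Gauss1

set_option autoImplicit false

open Finset MeasureTheory Filter Topology
open scoped Real ContDiff

namespace Pool.Agent.MP0016c7.Rz

private theorem rt1_zeta : Complex.exp (2 * π * Complex.I / 8) =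
    ((√2 / 2 : ℝ) : ℂ) * (1 + Complex.I) := by
  have h1 : (2 * π * Complex.I / 8 : ℂ) = ((π / 4 : ℝ) : ℂ) * Complex.I := by
    push_cast
    ring
  rw [h1, Complex.exp_mul_I, ← Complex.ofReal_cos, ← Complex.ofReal_sin, Real.cos_pi_div_four,
    Real.sin_pi_div_four]
  ring

private theorem rt1_exp (u : ℕ) : Complex.exp (2 * π * Complex.I * (u / 8)) =
    Complex.exp (2 * π * Complex.I / 8) ^ u := by
  rw [← Complex.exp_nat_mul]
  congr 1
  ring

/-- the coefficients modulo 8 -/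
private def rt1c (σ : ℤ) (r u : ℕ) : ℤ :=
  if u % 2 = 0 then 0 else
    (if σ = 1 then (if (r * u) % 8 = 1 ∨ (r * u) % 8 = 7 then 1 else -1)
      else (if (r * u) % 8 = 1 ∨ (r * u) % 8 = 3 then 1 else -1)) *
    (if r % 4 = 3 ∧ (r * u) % 4 = 3 then -1 else 1) * (if r = 1 ∨ r = 7 then 1 else -1)

private theorem rt1_sum (σ : ℤ) (hσ : σ = 1 ∨ σ = -1) (r : ℕ)
    (hr : r = 1 ∨ r = 3 ∨ r = 5 ∨ r = 7) :
    ∑ u ∈ range 8, (rt1c σ r u : ℂ) * Complex.exp (2 * π * Complex.I * (u / 8)) =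
      ((2 * √2 : ℝ) : ℂ) * (if σ = 1 then 1 else Complex.I) *
        (if r % 4 = 1 then 1 else -Complex.I) := by
  have hI : Complex.I ^ 2 = -1 := Complex.I_sq
  have h2 : ((√2 : ℝ) : ℂ) ^ 2 = 2 := by
    rw [← Complex.ofReal_pow, Real.sq_sqrt (by norm_num)]
    norm_num
  set z := Complex.exp (2 * π * Complex.I / 8) with hz
  have hz1 : z = ((√2 / 2 : ℝ) : ℂ) * (1 + Complex.I) := rt1_zeta
  have hz2 : z ^ 2 = Complex.I := by
    rw [hz1]
    push_cast
    linear_combination (1 / 4 * (1 + Complex.I) ^ 2) * h2 + (1 / 2) * hI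
  have hz3 : z ^ 3 = z * Complex.I := by rw [← hz2]; ring
  have hz5 : z ^ 5 = -z := by
    have : z ^ 5 = z * (z ^ 2) ^ 2 := by ring
    rw [this, hz2, hI]
    ring
  have hz7 : z ^ 7 = -(z * Complex.I) := by
    have : z ^ 7 = z * (z ^ 2) ^ 2 * z ^ 2 := by ring
    rw [this, hz2, hI]
    ring
  simp only [rt1_exp, ← hz]
  have hs : ∀ c : ℕ → ℤ, c 0 = 0 → c 2 = 0 → c 4 = 0 → c 6 = 0 →
      ∑ u ∈ range 8, (c u : ℂ) * z ^ u = c 1 * z + c 3 * (z * Complex.I) + c 5 * (-z) +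
        c 7 * (-(z * Complex.I)) := by
    intro c c0 c2 c4 c6
    simp only [sum_range_succ, range_zero, sum_empty, c0, c2, c4, c6, hz3, hz5, hz7]
    push_cast
    ring
  rw [hs (rt1c σ r) (by simp [rt1c]) (by simp [rt1c]) (by simp [rt1c]) (by simp [rt1c]), hz1]
  rcases hσ with rfl | rfl <;> rcases hr with rfl | rfl | rfl | rfl <;>
    simp only [rt1c] <;> norm_num <;> ring_nf <;> simp only [hI] <;> ring

private theorem rt1_val (d : ℕ) (hd : Odd d) (σ : ℤ) (hσ : σ = 1 ∨ σ = -1) (u v : ℕ) :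
    jr (2 * σ * d) (d * u + 8 * v) = (rt1c σ (d % 8) u : ℝ) * jr v d := by
  rcases Nat.even_or_odd u with hu | hu
  · have h1 : ¬ Odd (d * u + 8 * v) := by
      rw [Nat.not_odd_iff_even]
      exact (hu.mul_left d).add ((show Even 8 by decide).mul_right v)
    unfold jr
    rw [if_neg h1]
    have h2 : u % 2 = 0 := Nat.even_iff.1 hu
    unfold rt1c
    rw [if_pos h2, Int.cast_zero, zero_mul]
  have hn : Odd (d * u + 8 * v) := (hd.mul hu).add_even ((show Even 8 by decide).mul_right v)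
  set n := d * u + 8 * v with hndef
  have hn8 : n % 8 = (d % 8 * u) % 8 := by
    rw [hndef, Nat.add_mul_mod_self_left, Nat.mod_mul_mod]
  have hn4 : n % 4 = (d % 8 * u) % 4 := by
    have h1 : n % 4 = n % 8 % 4 := by omega
    rw [h1, hn8]
    omega
  have hd4 : d % 4 = d % 8 % 4 := by omega
  have e1 : jr (2 * σ * d) n = ((jacobiSym (2 * σ) n * jacobiSym d n : ℤ) : ℝ) := by
    unfold jr
    rw [if_pos hn, jacobiSym.mul_left]
  have e2 : jacobiSym d n = jacobiSym n d * (if d % 4 = 3 ∧ n % 4 = 3 then -1 else 1) := by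
    rcases Nat.odd_mod_four_iff.1 (Nat.odd_iff.1 hd) with h1 | h1
    · rw [jacobiSym.quadratic_reciprocity_one_mod_four h1 hn, if_neg (by omega), mul_one]
    · rcases Nat.odd_mod_four_iff.1 (Nat.odd_iff.1 hn) with h2 | h2
      · rw [jacobiSym.quadratic_reciprocity_one_mod_four' hd h2, if_neg (by omega), mul_one]
      · rw [jacobiSym.quadratic_reciprocity_three_mod_four h1 h2, if_pos ⟨h1, h2⟩]
        ring
  have e3 : jacobiSym n d = jacobiSym 2 d * jacobiSym v d := by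
    have h1 : ((n : ℕ) : ℤ) % (d : ℕ) = (8 * v : ℤ) % (d : ℕ) := by
      rw [hndef]
      push_cast
      rw [Int.add_comm, Int.add_mul_emod_self_left]
    rw [jacobiSym.mod_left' h1, show (8 * v : ℤ) = 2 * (2 ^ 2 * v) by ring, jacobiSym.mul_left,
      jacobiSym.mul_left, jacobiSym.pow_left, jacobiSym.sq_one, one_mul]
    have h2 : Nat.gcd 2 d = 1 := (Nat.coprime_two_left (n := d)).2 hd
    simpa [Int.gcd] using h2
  have hd8 : jacobiSym 2 d = if d % 8 = 1 ∨ d % 8 = 7 then 1 else -1 := by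
    rw [jacobiSym.at_two hd, ZMod.χ₈_nat_eq_if_mod_eight, if_neg (by rw [Nat.odd_iff] at hd; omega)]
  have hσ8 : jacobiSym (2 * σ) n = (if σ = 1 then
      (if (d % 8 * u) % 8 = 1 ∨ (d % 8 * u) % 8 = 7 then 1 else -1)
      else (if (d % 8 * u) % 8 = 1 ∨ (d % 8 * u) % 8 = 3 then 1 else -1)) := by
    rcases hσ with rfl | rfl
    · rw [mul_one, jacobiSym.at_two hn, ZMod.χ₈_nat_eq_if_mod_eight,
        if_neg (by rw [Nat.odd_iff] at hn; omega), if_pos rfl, hn8]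
    · rw [show (2 * -1 : ℤ) = -2 by norm_num, jacobiSym.at_neg_two hn,
        ZMod.χ₈'_nat_eq_if_mod_eight, if_neg (by rw [Nat.odd_iff] at hn; omega),
        if_neg (show ¬ ((-1 : ℤ) = 1) by norm_num), hn8]
  have hu2 : ¬ (u % 2 = 0) := by
    rw [Nat.odd_iff] at hu
    omega
  have e4 : jr v d = ((jacobiSym v d : ℤ) : ℝ) := by
    unfold jr
    rw [if_pos hd]
  rw [e1, e2, e3, hd8, hσ8, e4, hn4, hd4]
  unfold rt1c
  rw [if_neg hu2]
  push_cast
  ring

theorem gauss_8d (d : ℕ) (hd : Odd d) (hs : Squarefree d) [NeZero (8 * d)] (σ : ℤ)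
    (hσ : σ = 1 ∨ σ = -1) (χ : DirichletCharacter ℂ (8 * d))
    (hχ : ∀ n : ℕ, χ n = (jr (2 * σ * d) n : ℂ)) :
    gaussSum χ ZMod.stdAddChar = (√(8 * d : ℝ) : ℂ) * (if σ = 1 then 1 else Complex.I) := by
  have hd0 : 0 < d := hd.pos
  have hdr : (0 : ℝ) < d := by exact_mod_cast hd0
  have hdc : (d : ℂ) ≠ 0 := by exact_mod_cast hd0.ne'
  have hcop : Nat.Coprime 8 d := by
    have h1 : Nat.Coprime 2 d := (Nat.coprime_two_left (n := d)).2 hd
    have h2 : Nat.Coprime (2 ^ 3) d := Nat.Coprime.pow_left 3 h1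
    simpa using h2
  -- the sum over pairs
  have hinj : Set.InjOn (fun p : ℕ × ℕ => ((d * p.1 + 8 * p.2 : ℕ) : ZMod (8 * d)))
      ((range 8 ×ˢ range d : Finset (ℕ × ℕ)) : Set (ℕ × ℕ)) := by
    rintro ⟨u, v⟩ hp ⟨u', v'⟩ hp' h
    simp only [coe_product, Set.mem_prod, mem_coe, mem_range] at hp hp'
    have h1 : d * u + 8 * v ≡ d * u' + 8 * v' [MOD 8 * d] :=
      (ZMod.natCast_eq_natCast_iff _ _ _).1 h
    have h2 : d * u ≡ d * u' [MOD 8] := by
      have h3 := h1.of_mul_right d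
      unfold Nat.ModEq at h3 ⊢
      rwa [Nat.add_mul_mod_self_left, Nat.add_mul_mod_self_left] at h3
    have h4 : 8 * v ≡ 8 * v' [MOD d] := by
      have h3 := h1.of_mul_left 8
      unfold Nat.ModEq at h3 ⊢
      rwa [Nat.mul_add_mod, Nat.mul_add_mod] at h3
    have h5 : u = u' := Nat.ModEq.eq_of_lt_of_lt (Nat.ModEq.cancel_left_of_coprime hcop h2)
      hp.1 hp'.1
    have h6 : v = v' := Nat.ModEq.eq_of_lt_of_lt
      (Nat.ModEq.cancel_left_of_coprime hcop.symm h4) hp.2 hp'.2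
    rw [h5, h6]
  have hsum : ∀ f : ZMod (8 * d) → ℂ, ∑ a, f a =
      ∑ p ∈ range 8 ×ˢ range d, f ((d * p.1 + 8 * p.2 : ℕ) : ZMod (8 * d)) := by
    intro f
    symm
    refine Finset.sum_nbij (fun p : ℕ × ℕ => ((d * p.1 + 8 * p.2 : ℕ) : ZMod (8 * d)))
      (fun _ _ => mem_univ _) hinj ?_ (fun _ _ => rfl)
    refine Finset.surjOn_of_injOn_of_card_le _ (fun _ _ => mem_coe.2 (mem_univ _)) hinj ?_
    rw [card_univ, ZMod.card, card_product, card_range, card_range]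
  have hterm : ∀ p ∈ range 8 ×ˢ range d, χ ((d * p.1 + 8 * p.2 : ℕ) : ZMod (8 * d)) *
      ZMod.stdAddChar ((d * p.1 + 8 * p.2 : ℕ) : ZMod (8 * d)) =
      ((rt1c σ (d % 8) p.1 : ℂ) * Complex.exp (2 * π * Complex.I * (p.1 / 8))) *
      ((jr p.2 d : ℂ) * Complex.exp (2 * π * Complex.I * (p.2 * (1 : ℤ) / d))) := by
    rintro ⟨u, v⟩ -
    have h1 := ZMod.stdAddChar_coe (N := 8 * d) ((d * u + 8 * v : ℕ) : ℤ)
    rw [Int.cast_natCast] at h1
    simp only
    rw [h1, hχ, rt1_val d hd σ hσ u v]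
    have h2 : (2 * π * Complex.I * (((d * u + 8 * v : ℕ) : ℤ) : ℂ) / ((8 * d : ℕ) : ℂ)) =
        2 * π * Complex.I * (u / 8) + 2 * π * Complex.I * (v * ((1 : ℤ) : ℂ) / d) := by
      push_cast
      field_simp
    rw [h2, Complex.exp_add]
    push_cast
    ring
  unfold gaussSum
  rw [hsum, Finset.sum_congr rfl hterm, Finset.sum_product]
  simp only
  simp only [← Finset.mul_sum]
  rw [← Finset.sum_mul, rt1_sum σ hσ (d % 8) (by rw [Nat.odd_iff] at hd; omega)]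
  have hg := gauss_sum_jr d hd hs 1
  have hj1 : jr 1 d = 1 := by
    unfold jr
    rw [if_pos hd, jacobiSym.one_left, Int.cast_one]
  rw [hj1] at hg
  have hg' : ∑ i ∈ range d, (jr i d : ℂ) * Complex.exp (2 * π * Complex.I * (i * ((1 : ℤ) : ℂ) / d)) =
      ((1 : ℝ) : ℂ) * (√(d : ℝ) : ℂ) * (if d % 4 = 1 then 1 else Complex.I) := hg
  rw [hg']
  have h8 : √(8 * d : ℝ) = 2 * √2 * √(d : ℝ) := by
    rw [Real.sqrt_mul (by norm_num), show (8 : ℝ) = 2 ^ 2 * 2 by norm_num,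
      Real.sqrt_mul (by norm_num), Real.sqrt_sq (by norm_num)]
  rw [h8]
  have hm : d % 8 % 4 = d % 4 := by omega
  rw [hm]
  by_cases h4 : d % 4 = 1
  · rw [if_pos h4, if_pos h4]
    push_cast
    ring
  · rw [if_neg h4, if_neg h4]
    push_cast
    linear_combination (-(2 * (√2 : ℂ) * (√(d : ℝ) : ℂ) * (if σ = 1 then 1 else Complex.I))) *
      Complex.I_sq

end Pool.Agent.MP0016c7.Rz
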