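import Mathlib
import Pool.Agent.Lib.MP_0016c7_nt.Theta
import Pool.Agent.Lib.MP_0016c7_nt.Rz.Defs
import Pool.Agent.Lib.MP_0016c7_nt.Rz.DefsC
import Pool.Agent.Lib.MP_0016c7_nt.Rz.DefsF
import Pool.Agent.Lib.MP_0016c7_nt.Rz.DefsE
import Pool.Agent.Lib.MP_0016c7_nt.Rz.Rt0
import Pool.Agent.Lib.MP_0016c7_nt.Rz.Rt1

set_option autoImplicit false

open Finset MeasureTheory Filter Topology
open scoped Real ContDiff

namespace Pool.Agent.MP0016c7.Rz

/-- the functional equation of a real function with root number 1 -/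
private lemma rt2_real {F : ℝ → ℂ} {ε : ℂ} {k : ℝ} (hε : ε = 1)
    (hr : ∀ x : ℝ, 0 < x → (((F x).re : ℝ) : ℂ) = F x)
    (h : ∀ x : ℝ, 0 < x → F (1 / x) = ε * ((x ^ k : ℝ) : ℂ) * F x) (x : ℝ) (hx : 0 < x) :
    (F (1 / x)).re = x ^ k * (F x).re := by
  have h1 := h x hx
  rw [hε, one_mul, ← hr x hx, ← hr (1 / x) (by positivity)] at h1
  exact_mod_cast h1

private lemma rt2_sqrt {q : ℝ} (hq : 0 < q) : (((q ^ (-(1 / 2) : ℝ) : ℝ)) : ℂ) * ((√q : ℝ) : ℂ) = 1 := by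
  have h : q ^ (-(1 / 2) : ℝ) * √q = 1 := by
    rw [Real.sqrt_eq_rpow, ← Real.rpow_add hq]
    norm_num
  exact_mod_cast h

theorem gth_symm (d : ℕ) (hd : Odd d) (hs : Squarefree d) [NeZero (8 * d)] (σ : ℤ)
    (χ : DirichletCharacter ℂ (8 * d)) (hp : χ.IsPrimitive) (h2 : χ ^ 2 = 1)
    (hσ : (σ = 1 ∧ χ.Even) ∨ (σ = -1 ∧ χ.Odd)) (t : ℝ) : gth χ (-t) = gth χ t := by
  have hjr := char_eq_jr d hd hs σ χ hp h2 hσ
  have hσ' : σ = 1 ∨ σ = -1 := hσ.imp And.left And.left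
  have hg := gauss_8d d hd hs σ hσ' χ hjr
  have hinv := quad_inv χ h2
  have hq1 : 8 * d ≠ 1 := by omega
  have hq : (0 : ℝ) < ((8 * d : ℕ) : ℝ) := by exact_mod_cast (NeZero.pos (8 * d))
  have hqq : ((8 * d : ℕ) : ℝ) = 8 * (d : ℝ) := by push_cast; rfl
  have hsq := rt2_sqrt hq
  rcases hσ with ⟨h1, he⟩ | ⟨h1, ho⟩
  · have hε : ((((8 * d : ℕ) : ℝ) ^ (-(1 / 2) : ℝ) : ℝ) : ℂ) * gaussSum χ ZMod.stdAddChar = 1 := by
      rw [hg, if_pos h1, mul_one, ← hqq]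
      exact hsq
    have hfe := rt2_real (F := fun x => thE χ x) (k := 1 / 2) hε (fun x hx => thE_real χ h2 hx)
      (fun x hx => by
        have := (pairE χ hp hq1 hinv).h_feq x hx
        simpa [pairE] using this)
    have h3 := hfe (Real.exp (2 * t)) (Real.exp_pos _)
    rw [gth_even χ he, gth_even χ he]
    have h4 : Real.exp (2 * -t) = 1 / Real.exp (2 * t) := by
      rw [one_div, ← Real.exp_neg]; ring_nf
    have h5 : (Real.exp (2 * t)) ^ (1 / 2 : ℝ) = Real.exp t := by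
      rw [← Real.exp_mul]; ring_nf
    rw [h4, h3, h5]
    have h6 : Real.exp (-t / 2) * Real.exp t = Real.exp (t / 2) := by
      rw [← Real.exp_add]; ring_nf
    rw [← h6]
    ring
  · have hne : σ ≠ 1 := by rw [h1]; decide
    have hε : ((((8 * d : ℕ) : ℝ) ^ (-(1 / 2) : ℝ) : ℝ) : ℂ) *
        (-Complex.I * gaussSum χ ZMod.stdAddChar) = 1 := by
      rw [hg, if_neg hne, ← hqq]
      calc ((((8 * d : ℕ) : ℝ) ^ (-(1 / 2) : ℝ) : ℝ) : ℂ) *
            (-Complex.I * (((√((8 * d : ℕ) : ℝ) : ℝ) : ℂ) * Complex.I))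
          = (((((8 * d : ℕ) : ℝ) ^ (-(1 / 2) : ℝ) : ℝ) : ℂ) * ((√((8 * d : ℕ) : ℝ) : ℝ) : ℂ)) *
            (-(Complex.I * Complex.I)) := by ring
        _ = 1 := by rw [hsq, Complex.I_mul_I]; ring
    have hfe := rt2_real (F := fun x => thO χ x) (k := 3 / 2) hε (fun x hx => thO_real χ h2 hx)
      (fun x hx => by
        have := (pairO χ hp hinv).h_feq x hx
        simpa [pairO] using this)
    have h3 := hfe (Real.exp (2 * t)) (Real.exp_pos _)
    rw [gth_odd χ ho, gth_odd χ ho]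
    have h4 : Real.exp (2 * -t) = 1 / Real.exp (2 * t) := by
      rw [one_div, ← Real.exp_neg]; ring_nf
    have h5 : (Real.exp (2 * t)) ^ (3 / 2 : ℝ) = Real.exp (3 * t) := by
      rw [← Real.exp_mul]; ring_nf
    rw [h4, h3, h5]
    have h6 : Real.exp (3 / 2 * -t) * Real.exp (3 * t) = Real.exp (3 / 2 * t) := by
      rw [← Real.exp_add]; ring_nf
    rw [← h6]
    ring

end Pool.Agent.MP0016c7.Rz
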