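import Mathlib
import Pool.Agent.Lib.MP_0016c7_nt.Theta
import Pool.Agent.Lib.MP_0016c7_nt.Rz.Defs
import Pool.Agent.Lib.MP_0016c7_nt.Rz.DefsC
import Pool.Agent.Lib.MP_0016c7_nt.Rz.DefsF
import Pool.Agent.Lib.MP_0016c7_nt.Rz.DefsE
import Pool.Agent.Lib.MP_0016c7_nt.Rz.Sm4
import Pool.Agent.Lib.MP_0016c7_nt.Rz.Ker5

set_option autoImplicit false

open Finset MeasureTheory Filter Topology
open scoped Real ContDiff

namespace Pool.Agent.MP0016c7.Rz

private lemma sm5_compact {F : ℝ → ℝ} {a b : ℝ} (hF : Bump F a b) : HasCompactSupport F :=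
  HasCompactSupport.intro (isCompact_Icc (a := a) (b := b)) fun t ht => by
    by_contra h
    obtain ⟨h1, h2⟩ := hF.supp t h
    exact ht ⟨h1.le, h2.le⟩

private lemma sm5_riemann {F : ℝ → ℝ} {a b : ℝ} (ha : 0 < a) (hF : Bump F a b) :
    ∃ C : ℝ, 0 < C ∧ ∀ η : ℝ, 0 < η → η ≤ 1 →
      |2 * η * ∑' k : ℕ, F ((2 * k + 1) * η) - ∫ t, F t| ≤ C * η := by
  obtain ⟨L, hL⟩ := hF.smooth.lipschitzWith_of_hasCompactSupport (sm5_compact hF) (by simp)
  have hcont := hF.smooth.continuous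
  refine ⟨L * (|b| + 4) + 1, by positivity, fun η hη hη1 => ?_⟩
  set K : ℕ := ⌈|b| / (2 * η)⌉₊ with hK
  have hK1 : |b| ≤ 2 * K * η := by
    have h1 : |b| / (2 * η) ≤ K := Nat.le_ceil _
    rw [div_le_iff₀ (by positivity)] at h1
    linarith only [h1]
  have hK2 : (K : ℝ) ≤ |b| / (2 * η) + 1 := (Nat.ceil_lt_add_one (by positivity)).le
  have hsum : ∑' k : ℕ, F ((2 * k + 1) * η) = ∑ k ∈ range K, F ((2 * k + 1) * η) := by
    refine tsum_eq_sum fun k hk => ?_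
    have hk' : K ≤ k := by simpa using hk
    by_contra h
    have h1 := (hF.supp _ h).2
    have h2 : (K : ℝ) ≤ k := by exact_mod_cast hk'
    have h3 : 2 * K * η ≤ 2 * k * η := by nlinarith only [hη, h2]
    have h4 := le_abs_self b
    nlinarith only [hη, hK1, h1, h3, h4]
  have hint : ∫ t, F t = ∫ t in (0 : ℝ)..(2 * K * η), F t := by
    symm
    apply intervalIntegral.integral_eq_integral_of_support_subset
    intro t ht
    obtain ⟨h1, h2⟩ := hF.supp t ht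
    exact ⟨by linarith only [ha, h1], by linarith [le_abs_self b]⟩
  have hadj : ∑ k ∈ range K, ∫ t in (2 * (k : ℝ) * η)..(2 * ((k + 1 : ℕ) : ℝ) * η), F t =
      ∫ t in (0 : ℝ)..(2 * K * η), F t := by
    have := intervalIntegral.sum_integral_adjacent_intervals (f := F) (μ := volume)
      (a := fun k : ℕ => 2 * (k : ℝ) * η) (n := K)
      (fun k _ => hcont.intervalIntegrable _ _)
    simpa using this
  rw [hsum, hint, ← hadj, Finset.mul_sum, ← Finset.sum_sub_distrib]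
  have hcell : ∀ k ∈ range K, |2 * η * F ((2 * k + 1) * η) -
      ∫ t in (2 * (k : ℝ) * η)..(2 * ((k + 1 : ℕ) : ℝ) * η), F t| ≤ L * η * (2 * η) := by
    intro k _
    have e1 : 2 * η * F ((2 * k + 1) * η) =
        ∫ t in (2 * (k : ℝ) * η)..(2 * ((k + 1 : ℕ) : ℝ) * η), F ((2 * k + 1) * η) := by
      rw [intervalIntegral.integral_const, smul_eq_mul]
      push_cast
      ring
    rw [e1, ← intervalIntegral.integral_sub (by simp) (hcont.intervalIntegrable _ _)]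
    have h1 := intervalIntegral.norm_integral_le_of_norm_le_const (C := L * η)
      (a := 2 * (k : ℝ) * η) (b := 2 * ((k + 1 : ℕ) : ℝ) * η)
      (f := fun t => F ((2 * k + 1) * η) - F t) ?_
    · rw [Real.norm_eq_abs] at h1
      refine h1.trans (le_of_eq ?_)
      push_cast
      rw [show 2 * ((k : ℝ) + 1) * η - 2 * k * η = 2 * η by ring, abs_of_pos (by positivity)]
    · intro t ht
      rw [Set.uIoc_of_le (by push_cast; nlinarith only [hη])] at ht
      have h2 := hL.dist_le_mul ((2 * k + 1) * η) t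
      rw [Real.dist_eq, Real.dist_eq] at h2
      rw [Real.norm_eq_abs]
      refine h2.trans (mul_le_mul_of_nonneg_left ?_ L.coe_nonneg)
      obtain ⟨h3, h4⟩ := ht
      push_cast at h4
      rw [abs_le]
      constructor <;> nlinarith only [h4, h3]
  refine (Finset.abs_sum_le_sum_abs _ _).trans ((Finset.sum_le_sum hcell).trans ?_)
  rw [Finset.sum_const, card_range, nsmul_eq_mul]
  have hL0 : (0:ℝ) ≤ L := L.coe_nonneg
  have h5 : (K : ℝ) * (2 * η) ≤ |b| + 2 * η := by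
    have := mul_le_mul_of_nonneg_right hK2 (show (0:ℝ) ≤ 2 * η by positivity)
    refine this.trans (le_of_eq ?_)
    field_simp
  calc (K : ℝ) * (L * η * (2 * η)) = L * η * (K * (2 * η)) := by ring
    _ ≤ L * η * (|b| + 2 * η) := mul_le_mul_of_nonneg_left h5 (by positivity)
    _ ≤ L * η * (|b| + 4) := mul_le_mul_of_nonneg_left (by linarith) (by positivity)
    _ ≤ (L * (|b| + 4) + 1) * η := by nlinarith only [hη]

theorem zero_moment {F : ℝ → ℝ} {a b : ℝ} (ha : 0 < a) (hF : Bump F a b) (r : ℕ) (hr : Odd r)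
    (ε : ℝ) (hε : 0 < ε) :
    ∃ X₀ : ℝ, ∀ X : ℝ, X₀ ≤ X →
      |2 * r ^ 2 / X * ∑' d : ℕ, (if Odd d then F (d * r ^ 2 / X) else 0) - ∫ t, F t| ≤ ε := by
  obtain ⟨C, hC, h⟩ := sm5_riemann ha hF
  have hr0 : r ≠ 0 := by rintro rfl; simp at hr
  have hr1 : (0:ℝ) < (r : ℝ) ^ 2 := by positivity
  refine ⟨(r : ℝ) ^ 2 + C * r ^ 2 / ε, fun X hX => ?_⟩
  have hq : 0 ≤ C * (r : ℝ) ^ 2 / ε := by positivity
  have hX0 : 0 < X := by linarith
  set η : ℝ := (r : ℝ) ^ 2 / X with hη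
  have hη0 : 0 < η := by positivity
  have hη1 : η ≤ 1 := by rw [hη, div_le_one hX0]; linarith
  have hη2 : C * η ≤ ε := by
    have h1 : C * (r : ℝ) ^ 2 / ε ≤ X := by linarith
    rw [div_le_iff₀ hε] at h1
    rw [hη, ← mul_div_assoc, div_le_iff₀ hX0]
    linarith
  have hinj : Function.Injective (fun k : ℕ => 2 * k + 1) := fun k k' h => by
    simp only at h; omega
  have e1 : ∑' d : ℕ, (if Odd d then F (d * r ^ 2 / X) else 0) = ∑' k : ℕ, F ((2 * k + 1) * η) := by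
    rw [← hinj.tsum_eq]
    · refine tsum_congr fun k => ?_
      rw [if_pos ⟨k, rfl⟩]
      congr 1
      rw [hη]; push_cast; ring
    · intro d hd
      rw [Function.mem_support] at hd
      by_cases ho : Odd d
      · obtain ⟨k, hk⟩ := ho
        exact ⟨k, hk.symm⟩
      · rw [if_neg ho] at hd; exact absurd rfl hd
  have e2 : 2 * (r : ℝ) ^ 2 / X = 2 * η := by rw [hη]; ring
  rw [e1, e2]
  exact (h η hη0 hη1).trans hη2

private lemma sm5_int {F : ℝ → ℝ} {a b : ℝ} (hF : Bump F a b) : Integrable F :=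
  hF.smooth.continuous.integrable_of_hasCompactSupport (sm5_compact hF)

private lemma sm5_HH {h : ℝ → ℝ} {a b : ℝ} (hh : Bump h a b) (v : ℝ) :
    |HH h v| ≤ ∫ t, |h t| := by
  unfold HH
  have hi := (sm5_int hh).norm
  have h1 : ‖∫ t in Set.Ioi v, h t‖ ≤ ∫ t in Set.Ioi v, ‖h t‖ := norm_integral_le_integral_norm _
  have h2 : ∫ t in Set.Ioi v, ‖h t‖ ≤ ∫ t, ‖h t‖ :=
    setIntegral_le_integral hi (Filter.Eventually.of_forall fun t => norm_nonneg _)
  exact h1.trans h2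

private lemma sm5_CC_bound {δ θ : ℝ} (hδ4 : δ ≤ 1 / 4) {ρ h : ℝ → ℝ}
    (hρ : Bump ρ (-(δ / 2)) (δ / 2)) (hh : Bump h 0 θ) :
    ∃ K : ℝ, 0 ≤ K ∧ ∀ Y ∈ Set.Icc (-1 : ℝ) (1 / 2 + δ), |CC ρ ρ h Y Y| ≤ K := by
  set H1 := ∫ t, |h t| with hH1
  set J := ∫ t : ℝ, h t ^ 2 with hJ
  have hJ0 : 0 ≤ J := integral_nonneg fun t => sq_nonneg _
  have hH0 : 0 ≤ H1 := integral_nonneg fun t => abs_nonneg _
  set R := ∫ t, |ρ t| with hR
  have hRi : Integrable (fun t => |ρ t|) := (sm5_int hρ).norm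
  have hR0 : 0 ≤ R := integral_nonneg fun t => abs_nonneg _
  set K0 := H1 ^ 2 + J * 2 with hK0
  have hK00 : 0 ≤ K0 := by (clear * -; positivity)
  refine ⟨R * (R * K0), by (clear * -; positivity), fun Y hY => ?_⟩
  obtain ⟨hY1, hY2⟩ := hY
  have hpt : ∀ x y : ℝ, ‖ρ x * ρ y * (HH h (x - Y) * HH h (y - Y) +
      J * (max (min (Y - x) (Y - y)) 0 - max (Y - x + (Y - y) - 1) 0))‖ ≤
      |ρ x| * (|ρ y| * K0) := by
    intro x y
    by_cases hx : ρ x = 0
    · simp [hx]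
    by_cases hy : ρ y = 0
    · simp [hy]
    obtain ⟨hx1, hx2⟩ := hρ.supp x hx
    obtain ⟨hy1, hy2⟩ := hρ.supp y hy
    rw [norm_mul, norm_mul, Real.norm_eq_abs, Real.norm_eq_abs, mul_assoc]
    refine mul_le_mul_of_nonneg_left (mul_le_mul_of_nonneg_left ?_ (abs_nonneg _)) (abs_nonneg _)
    refine (norm_add_le _ _).trans ?_
    rw [norm_mul, norm_mul, Real.norm_eq_abs, Real.norm_eq_abs, Real.norm_eq_abs, Real.norm_eq_abs,
      abs_of_nonneg hJ0, hK0, sq]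
    refine add_le_add (mul_le_mul (sm5_HH hh _) (sm5_HH hh _) (abs_nonneg _) hH0)
      (mul_le_mul_of_nonneg_left ?_ hJ0)
    have h1 : min (Y - x) (Y - y) ≤ 2 := (min_le_left _ _).trans (by linarith only [hδ4, hY2, hx1, hx2])
    have h2 : max (min (Y - x) (Y - y)) 0 ≤ 2 := max_le h1 (by norm_num)
    have h3 : 0 ≤ max (min (Y - x) (Y - y)) 0 := le_max_right _ _
    have h4 : max (Y - x + (Y - y) - 1) 0 ≤ 2 := max_le (by linarith only [hδ4, hY2, hx1, hx2, hy1]) (by norm_num)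
    have h5 : 0 ≤ max (Y - x + (Y - y) - 1) 0 := le_max_right _ _
    rw [abs_le]
    constructor <;> linarith
  unfold CC
  have h1 : ∀ x : ℝ, ‖∫ y : ℝ, ρ x * ρ y * (HH h (x - Y) * HH h (y - Y) +
      J * (max (min (Y - x) (Y - y)) 0 - max (Y - x + (Y - y) - 1) 0))‖ ≤ |ρ x| * (R * K0) := by
    intro x
    have hg : Integrable (fun y => |ρ x| * (|ρ y| * K0)) := (hRi.mul_const _).const_mul _
    refine (norm_integral_le_of_norm_le hg (Filter.Eventually.of_forall fun y => hpt x y)).trans ?_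
    rw [integral_const_mul, integral_mul_const]
  have hg : Integrable (fun x => |ρ x| * (R * K0)) := hRi.mul_const _
  refine (norm_integral_le_of_norm_le hg (Filter.Eventually.of_forall h1)).trans ?_
  rw [integral_mul_const]

private lemma sm5_HHd {δ θ : ℝ} {ρ h : ℝ → ℝ} (hδ : 0 < δ)
    (hρ : Bump ρ (-(δ / 2)) (δ / 2)) (hρ1 : ∫ y, ρ y = 1) (hh : Bump h 0 θ)
    (hconst : ∀ t ≤ 2 * δ, HH h t = HH h 0) :
    ∫ y, ρ y * HH h (y - -δ) = HH h 0 := by
  have e : ∀ y, ρ y * HH h (y - -δ) = ρ y * HH h 0 := by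
    intro y
    by_cases hy : ρ y = 0
    · simp [hy]
    · obtain ⟨hy1, hy2⟩ := hρ.supp y hy
      rw [hconst _ (by linarith)]
  simp_rw [e]
  rw [integral_mul_const, hρ1, one_mul]

private lemma sm5_CC_eq {δ θ : ℝ} (hδ : 0 < δ) (hδ4 : δ ≤ 1 / 4) {ρ h : ℝ → ℝ}
    (hρ : Bump ρ (-(δ / 2)) (δ / 2)) (hρ1 : ∫ y, ρ y = 1) (hh : Bump h 0 θ)
    (hconst : ∀ t ≤ 2 * δ, HH h t = HH h 0) (Y : ℝ) (hY : Y ≤ 1 / 2 + δ) :
    CC ρ ρ h Y (-δ) = HH h 0 * ∫ y, ρ y * HH h (y - Y) := by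
  unfold CC
  set J := ∫ t : ℝ, h t ^ 2 with hJ
  have hpt : ∀ x y : ℝ, ρ x * ρ y * (HH h (x - Y) * HH h (y - -δ) +
      J * (max (min (Y - x) (-δ - y)) 0 - max (Y - x + (-δ - y) - 1) 0)) =
      (ρ x * HH h (x - Y)) * (ρ y * HH h 0) := by
    intro x y
    by_cases hx : ρ x = 0
    · simp [hx]
    by_cases hy : ρ y = 0
    · simp [hy]
    obtain ⟨hx1, hx2⟩ := hρ.supp x hx
    obtain ⟨hy1, hy2⟩ := hρ.supp y hy
    have h1 : max (min (Y - x) (-δ - y)) 0 = 0 :=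
      max_eq_right ((min_le_right _ _).trans (by linarith only [hδ, hy1]))
    have h2 : max (Y - x + (-δ - y) - 1) 0 = 0 := max_eq_right (by linarith)
    rw [h1, h2, hconst (y - -δ) (by linarith)]
    ring
  simp_rw [hpt]
  simp_rw [integral_const_mul, integral_mul_const, hρ1]
  rw [one_mul]
  ring

private lemma sm5_tsum {F : ℝ → ℝ} {a b : ℝ} (hF : Bump F a b) (r : ℕ) (hr : r ≠ 0) (X : ℝ)
    (hX : 0 < X) : ∃ N : ℕ, ∀ g : ℕ → ℝ,
      ∑' d : ℕ, (if Odd d then F (d * r ^ 2 / X) * g d else 0) =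
        ∑ d ∈ range N, (if Odd d then F (d * r ^ 2 / X) else 0) * g d := by
  refine ⟨⌈|b| * X / r ^ 2⌉₊, fun g => ?_⟩
  have hr1 : (0:ℝ) < (r : ℝ) ^ 2 := by positivity
  rw [tsum_eq_sum (s := range ⌈|b| * X / r ^ 2⌉₊)]
  · refine Finset.sum_congr rfl fun d _ => ?_
    split_ifs <;> simp
  · intro d hd
    have hd' : ⌈|b| * X / r ^ 2⌉₊ ≤ d := by simpa using hd
    have h1 : |b| * X / r ^ 2 ≤ d := (Nat.le_ceil _).trans (by exact_mod_cast hd')
    have h2 : F (d * r ^ 2 / X) = 0 := by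
      by_contra h
      have h3 := (hF.supp _ h).2
      rw [div_le_iff₀ hr1] at h1
      rw [div_lt_iff₀ hX] at h3
      have h4 : b * X ≤ |b| * X := mul_le_mul_of_nonneg_right (le_abs_self b) hX.le
      linarith
    rw [h2]; simp

theorem first_moment {θ δ : ℝ} (hδ : 0 < δ) (hδ4 : δ ≤ 1 / 4) (hθ : 0 < θ) (hθ1 : θ + 3 * δ < 1 / 2)
    (hE : ErrS θ δ) {F : ℝ → ℝ} {a b : ℝ} (ha : 0 < a) (hF : Bump F a b) (hF0 : 0 < ∫ t, F t)
    (hFn : ∀ t, 0 ≤ F t)
    (σ : ℤ) (hσ : σ = 1 ∨ σ = -1) (r : ℕ) (hr : Odd r) (hrs : Squarefree r)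
    (c : ℝ) (hc : c = 0 ∨ c = 1) {ρ h : ℝ → ℝ} (hρ : Bump ρ (-(δ / 2)) (δ / 2))
    (hρ1 : ∫ y, ρ y = 1) (hh : Bump h 0 θ)
    (hconst : ∀ t ≤ 2 * δ, HH h t = HH h 0) (hpos : 0 < HH h 0) (ε : ℝ) (hε : 0 < ε) :
    ∃ X₀ : ℝ, ∀ X : ℝ, X₀ ≤ X → ∀ Y ∈ Set.Icc (-1 : ℝ) (1 / 2 + δ),
      |2 * r ^ 2 / X * ∑' d : ℕ, (if Odd d then F (d * r ^ 2 / X) *
          ytil c σ ρ h X (r ^ 2 * d) Y else 0) -
        (∫ t, F t) * ∫ y, ρ y * HH h (y - Y)| ≤ ε := by
  have hr0 : r ≠ 0 := by rintro rfl; simp at hr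
  obtain ⟨K, hK0, hK⟩ := sm5_CC_bound hδ4 hρ hh
  set I := ∫ t, F t with hI
  set c0 := HH h 0 with hc0
  set T := (I + 1) + (I * K + 1) with hT
  have hT0 : 0 < T := by (clear * - hF0 hK0; positivity)
  have hε₁ : 0 < ε * c0 / 2 := by positivity
  have hε₂ : 0 < ε * c0 / (2 * T) := by (clear * - hε hpos hF0 hK0; positivity)
  obtain ⟨X₁, h1⟩ := second_moment hδ hδ4 hθ hθ1 hE ha hF hF0 σ hσ r hr hrs c hc hρ hρ hh _ hε₁
  obtain ⟨X₂, h2⟩ := second_moment hδ hδ4 hθ hθ1 hE ha hF hF0 σ hσ r hr hrs c hc hρ hρ hh 1 one_pos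
  obtain ⟨X₃, h3⟩ := zero_moment ha hF r hr 1 one_pos
  obtain ⟨X₄, h4⟩ := ytil_det hδ hθ hρ hh c hc σ _ hε₂
  refine ⟨max (max X₁ X₂) (max (max X₃ X₄) 1), fun X hX Y hY => ?_⟩
  have hX1 : X₁ ≤ X := le_trans (le_trans (le_max_left _ _) (le_max_left _ _)) hX
  have hX2 : X₂ ≤ X := le_trans (le_trans (le_max_right _ _) (le_max_left _ _)) hX
  have hX34 : max (max X₃ X₄) 1 ≤ X := le_trans (le_max_right _ _) hX
  have hX3 : X₃ ≤ X := le_trans (le_trans (le_max_left _ _) (le_max_left _ _)) hX34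
  have hX4 : X₄ ≤ X := le_trans (le_trans (le_max_right _ _) (le_max_left _ _)) hX34
  have hX5 : 1 ≤ X := le_trans (le_max_right _ _) hX34
  have hX0 : 0 < X := by linarith
  have hmem : -δ ∈ Set.Icc (-1 : ℝ) (1 / 2 + δ) := ⟨by linarith, by linarith⟩
  have a1 := h1 X hX1 Y hY (-δ) hmem
  have a2 := h2 X hX2 Y hY Y hY
  have a3 := h3 X hX3
  have a4 := fun d : ℕ => h4 X hX4 d (-δ) ⟨by linarith only [hδ, hθ, hθ1], by linarith only [hδ]⟩
  rw [sm5_CC_eq hδ hδ4 hρ hρ1 hh hconst Y hY.2] at a1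
  simp only [sm5_HHd hδ hρ hρ1 hh hconst] at a4
  obtain ⟨N, hN⟩ := sm5_tsum hF r hr0 X hX0
  have hN1 : ∑' d : ℕ, (if Odd d then F (d * r ^ 2 / X) else 0) =
      ∑ d ∈ range N, (if Odd d then F (d * r ^ 2 / X) else 0) * 1 := by
    rw [← hN]
    exact tsum_congr fun d => by split_ifs <;> simp
  rw [hN] at a1 a2
  rw [hN1] at a3
  rw [hN]
  set w : ℕ → ℝ := fun d => if Odd d then F (d * r ^ 2 / X) else 0 with hw
  have hw0 : ∀ d, 0 ≤ w d := by
    intro d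
    simp only [hw]
    split_ifs
    · exact hFn _
    · exact le_rfl
  set y : ℕ → ℝ := fun d => ytil c σ ρ h X (r ^ 2 * d) Y with hy
  set z : ℕ → ℝ := fun d => ytil c σ ρ h X (r ^ 2 * d) (-δ) with hz
  set R := ∫ y, ρ y * HH h (y - Y) with hR
  set P : ℝ := 2 * r ^ 2 / X with hP
  have hP0 : 0 < P := by positivity
  change |P * ∑ d ∈ range N, w d * (y d * z d) - I * (c0 * R)| ≤ ε * c0 / 2 at a1
  change |P * ∑ d ∈ range N, w d * (y d * y d) - I * CC ρ ρ h Y Y| ≤ 1 at a2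
  change |P * ∑ d ∈ range N, w d * 1 - I| ≤ 1 at a3
  change |P * ∑ d ∈ range N, w d * y d - I * R| ≤ ε
  have b2 : P * ∑ d ∈ range N, w d * (y d * y d) ≤ I * K + 1 := by
    have := (abs_le.1 a2).2
    have h5 : I * CC ρ ρ h Y Y ≤ I * K :=
      mul_le_mul_of_nonneg_left ((le_abs_self _).trans (hK Y hY)) hF0.le
    linarith only [this, h5]
  have b3 : P * ∑ d ∈ range N, w d * 1 ≤ I + 1 := by
    have := (abs_le.1 a3).2
    linarith only [this]
  have b4 : |P * ∑ d ∈ range N, w d * (y d * (z d - c0))| ≤ ε * c0 / (2 * T) * T := by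
    rw [abs_mul, abs_of_pos hP0]
    have h5 : |∑ d ∈ range N, w d * (y d * (z d - c0))| ≤
        ∑ d ∈ range N, ε * c0 / (2 * T) * (w d * 1 + w d * (y d * y d)) := by
      refine (Finset.abs_sum_le_sum_abs _ _).trans (Finset.sum_le_sum fun d _ => ?_)
      rw [abs_mul, abs_of_nonneg (hw0 d), abs_mul]
      have h6 : |z d - c0| ≤ ε * c0 / (2 * T) := a4 (r ^ 2 * d)
      have h7 : |y d| ≤ 1 + y d * y d := by
        rw [← abs_mul_abs_self (y d)]
        nlinarith only [hδ, hθ, hθ1, sq_nonneg (|y d| - 1), abs_nonneg (y d)]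
      calc w d * (|y d| * |z d - c0|) ≤ w d * ((1 + y d * y d) * (ε * c0 / (2 * T))) := by
            refine mul_le_mul_of_nonneg_left ?_ (hw0 d)
            exact mul_le_mul h7 h6 (abs_nonneg _) (by nlinarith only [hδ, hθ, hθ1, mul_self_nonneg (y d)])
        _ = ε * c0 / (2 * T) * (w d * 1 + w d * (y d * y d)) := by ring
    calc P * |∑ d ∈ range N, w d * (y d * (z d - c0))|
        ≤ P * ∑ d ∈ range N, ε * c0 / (2 * T) * (w d * 1 + w d * (y d * y d)) :=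
          mul_le_mul_of_nonneg_left h5 hP0.le
      _ = ε * c0 / (2 * T) * (P * ∑ d ∈ range N, w d * 1 + P * ∑ d ∈ range N, w d * (y d * y d)) := by
          rw [← Finset.mul_sum, Finset.sum_add_distrib]; ring
      _ ≤ ε * c0 / (2 * T) * T := by
          refine mul_le_mul_of_nonneg_left ?_ hε₂.le
          rw [hT]; linarith
  have b5 : ε * c0 / (2 * T) * T = ε * c0 / 2 := by field_simp
  rw [b5] at b4
  have b6 : c0 * (P * ∑ d ∈ range N, w d * y d - I * R) =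
      (P * ∑ d ∈ range N, w d * (y d * z d) - I * (c0 * R)) -
        P * ∑ d ∈ range N, w d * (y d * (z d - c0)) := by
    have : ∑ d ∈ range N, w d * (y d * (z d - c0)) =
        ∑ d ∈ range N, w d * (y d * z d) - c0 * ∑ d ∈ range N, w d * y d := by
      rw [Finset.mul_sum, ← Finset.sum_sub_distrib]
      exact Finset.sum_congr rfl fun d _ => by ring
    rw [this]; ring
  have b7 : c0 * |P * ∑ d ∈ range N, w d * y d - I * R| ≤ c0 * ε := by
    rw [← abs_of_pos hpos, ← abs_mul, abs_of_pos hpos, b6]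
    refine (abs_sub _ _).trans ?_
    linarith
  exact le_of_mul_le_mul_left b7 hpos

end Pool.Agent.MP0016c7.Rz
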