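import Mathlib
import Pool.Agent.Lib.MP_0016c7_nt.Theta
import Pool.Agent.Lib.MP_0016c7_nt.Rz.Defs
import Pool.Agent.Lib.MP_0016c7_nt.Rz.DefsC
import Pool.Agent.Lib.MP_0016c7_nt.Rz.DefsF
import Pool.Agent.Lib.MP_0016c7_nt.Rz.DefsE

set_option autoImplicit false

open Finset MeasureTheory Filter Topology
open scoped Real ContDiff

namespace Pool.Agent.MP0016c7.Rz

theorem nc2_eN {τ₀ γ₀ V : ℝ} (n : ℕ) :
    eN τ₀ γ₀ V n = V ^ (2 * n + 1) / γ₀ * (τ₀ / (2 * n + 1) + V / ((2 * n + 1) * (2 * n + 2))) := by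
  unfold eN ww
  have e : ∀ v : ℝ, v ^ (2 * n) / (γ₀ / (V - v + τ₀)) =
      (V + τ₀) / γ₀ * v ^ (2 * n) - 1 / γ₀ * v ^ (2 * n + 1) := by
    intro v
    rw [div_div_eq_mul_div, pow_succ]
    ring
  simp only [e]
  rw [intervalIntegral.integral_sub, intervalIntegral.integral_const_mul,
    intervalIntegral.integral_const_mul, integral_pow, integral_pow]
  · have h1 : (2 * (n : ℝ) + 1) ≠ 0 := by positivity
    have h2 : (2 * (n : ℝ) + 2) ≠ 0 := by positivity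
    push_cast
    have h3 : (2 * (n : ℝ) + 1 + 1) ≠ 0 := by positivity
    rw [zero_pow (by omega), zero_pow (by omega)]
    have h4 : (2 * (n : ℝ) + 1 + 1) = 2 * n + 2 := by ring
    rw [h4]
    have h5 : V ^ (2 * n + 1 + 1) = V ^ (2 * n + 1) * V := pow_succ _ _
    rw [h5, sub_zero, sub_zero]
    by_cases hγ : γ₀ = 0
    · subst hγ; simp
    · field_simp
      ring
  · exact (Continuous.intervalIntegrable (by fun_prop) _ _)
  · exact (Continuous.intervalIntegrable (by fun_prop) _ _)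

theorem nc2_hid {θ₀ V v : ℝ} (h1 : V ≤ v) (h2 : v ≤ V + θ₀) :
    Hid θ₀ (v - V) = (θ₀ + V + θ₀ ^ 2 - V ^ 2) / 2 + (V - 1 / 2) * v - 1 / 2 * v ^ 2 := by
  unfold Hid
  have hm : max (v - V) 0 = v - V := max_eq_left (by linarith)
  rw [hm]
  split_ifs with h
  · have : v = V + θ₀ := by linarith
    subst this
    ring
  · ring

theorem nc2_first {θ₀ V : ℝ} (hθ₀ : 0 < θ₀) (n : ℕ) :
    (∫ v in V..(V + θ₀), v ^ (2 * n) * Hid θ₀ (v - V)) =
      (θ₀ + V + θ₀ ^ 2 - V ^ 2) / 2 * ((V + θ₀) ^ (2 * n + 1) - V ^ (2 * n + 1)) / (2 * n + 1) +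
      (V - 1 / 2) * ((V + θ₀) ^ (2 * n + 2) - V ^ (2 * n + 2)) / (2 * n + 2) -
      1 / 2 * ((V + θ₀) ^ (2 * n + 3) - V ^ (2 * n + 3)) / (2 * n + 3) := by
  have e : (∫ v in V..(V + θ₀), v ^ (2 * n) * Hid θ₀ (v - V)) =
      ∫ v in V..(V + θ₀), ((θ₀ + V + θ₀ ^ 2 - V ^ 2) / 2 * v ^ (2 * n) +
        (V - 1 / 2) * v ^ (2 * n + 1) - 1 / 2 * v ^ (2 * n + 2)) := by
    apply intervalIntegral.integral_congr
    intro v hv
    rw [Set.uIcc_of_le (by linarith)] at hv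
    simp only
    rw [nc2_hid hv.1 hv.2, pow_succ, pow_succ]
    ring
  rw [e, intervalIntegral.integral_sub, intervalIntegral.integral_add,
    intervalIntegral.integral_const_mul, intervalIntegral.integral_const_mul,
    intervalIntegral.integral_const_mul, integral_pow, integral_pow, integral_pow]
  · push_cast
    have h4 : (2 * (n : ℝ) + 1 + 1) = 2 * n + 2 := by ring
    have h5 : (2 * (n : ℝ) + 2 + 1) = 2 * n + 3 := by ring
    rw [h4, h5]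
    ring
  · exact (Continuous.intervalIntegrable (by fun_prop) _ _)
  · exact (Continuous.intervalIntegrable (by fun_prop) _ _)
  · exact (Continuous.intervalIntegrable (by fun_prop) _ _)
  · exact (Continuous.intervalIntegrable (by fun_prop) _ _)

theorem nc2_hid0 {θ₀ : ℝ} (hθ₀ : 0 < θ₀) : Hid θ₀ 0 = θ₀ / 2 + θ₀ ^ 2 / 2 := by
  unfold Hid
  rw [if_neg (not_le.mpr hθ₀), max_self]
  ring

theorem nc2_second {θ₀ κ V : ℝ} (hθ₀ : 0 < θ₀) (n : ℕ) :
    (∫ v in (0 : ℝ)..V, v ^ (2 * n) * y00 θ₀ κ V v) =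
      (θ₀ / 2 + θ₀ ^ 2 / 2) * ((1 + κ * V ^ 2) * V ^ (2 * n + 1) / (2 * n + 1) -
        κ * V ^ (2 * n + 3) / (2 * n + 3)) := by
  unfold y00
  rw [nc2_hid0 hθ₀]
  have e : ∀ v : ℝ, v ^ (2 * n) * ((θ₀ / 2 + θ₀ ^ 2 / 2) * (1 + κ * (V ^ 2 - v ^ 2))) =
      (θ₀ / 2 + θ₀ ^ 2 / 2) * (1 + κ * V ^ 2) * v ^ (2 * n) -
      (θ₀ / 2 + θ₀ ^ 2 / 2) * κ * v ^ (2 * n + 2) := by
    intro v
    rw [pow_succ, pow_succ]
    ring
  simp only [e]
  rw [intervalIntegral.integral_sub, intervalIntegral.integral_const_mul,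
    intervalIntegral.integral_const_mul, integral_pow, integral_pow]
  · push_cast
    rw [zero_pow (by omega), zero_pow (by omega)]
    have h5 : (2 * (n : ℝ) + 2 + 1) = 2 * n + 3 := by ring
    rw [h5]
    ring
  · exact (Continuous.intervalIntegrable (by fun_prop) _ _)
  · exact (Continuous.intervalIntegrable (by fun_prop) _ _)

theorem nc2_low {θ₀ κ V : ℝ} (hθ₀ : 0 < θ₀) (hV : 0 < V) (hκ : 0 ≤ κ) (n : ℕ) :
    V ^ (2 * n) * (θ₀ ^ 2 / 4 + θ₀ ^ 3 / 3) ≤ dN θ₀ κ V n := by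
  unfold dN
  have h2 : 0 ≤ ∫ v in (0 : ℝ)..V, v ^ (2 * n) * y00 θ₀ κ V v := by
    apply intervalIntegral.integral_nonneg hV.le
    intro v hv
    apply mul_nonneg (pow_nonneg hv.1 _)
    unfold y00
    rw [nc2_hid0 hθ₀]
    apply mul_nonneg (by positivity)
    have : v ^ 2 ≤ V ^ 2 := pow_le_pow_left₀ hv.1 hv.2 2
    have : 0 ≤ κ * (V ^ 2 - v ^ 2) := mul_nonneg hκ (by linarith)
    linarith
  have hid : ∀ v ∈ Set.Icc V (V + θ₀), Hid θ₀ (v - V) =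
      (θ₀ - (v - V)) / 2 + (θ₀ ^ 2 - (v - V) ^ 2) / 2 := by
    intro v hv
    rw [nc2_hid hv.1 hv.2]
    ring
  have h1 : V ^ (2 * n) * (θ₀ ^ 2 / 4 + θ₀ ^ 3 / 3) ≤
      ∫ v in V..(V + θ₀), v ^ (2 * n) * Hid θ₀ (v - V) := by
    have e : V ^ (2 * n) * (θ₀ ^ 2 / 4 + θ₀ ^ 3 / 3) = ∫ v in V..(V + θ₀), V ^ (2 * n) *
        ((θ₀ + V + θ₀ ^ 2 - V ^ 2) / 2 + (V - 1 / 2) * v - 1 / 2 * v ^ 2) := by
      rw [intervalIntegral.integral_const_mul, intervalIntegral.integral_sub,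
        intervalIntegral.integral_add, intervalIntegral.integral_const_mul,
        intervalIntegral.integral_const_mul, integral_pow, integral_id,
        intervalIntegral.integral_const, smul_eq_mul]
      · push_cast
        ring
      · exact (Continuous.intervalIntegrable (by fun_prop) _ _)
      · exact (Continuous.intervalIntegrable (by fun_prop) _ _)
      · exact (Continuous.intervalIntegrable (by fun_prop) _ _)
      · exact (Continuous.intervalIntegrable (by fun_prop) _ _)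
    have e2 : (∫ v in V..(V + θ₀), v ^ (2 * n) * Hid θ₀ (v - V)) =
      ∫ v in V..(V + θ₀), v ^ (2 * n) * ((θ₀ + V + θ₀ ^ 2 - V ^ 2) / 2 +
        (V - 1 / 2) * v - 1 / 2 * v ^ 2) := by
      apply intervalIntegral.integral_congr
      intro v hv
      rw [Set.uIcc_of_le (by linarith)] at hv
      simp only
      rw [nc2_hid hv.1 hv.2]
    rw [e, e2]
    apply intervalIntegral.integral_mono_on (by linarith)
    · exact (Continuous.intervalIntegrable (by fun_prop) _ _)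
    · exact (Continuous.intervalIntegrable (by fun_prop) _ _)
    · intro v hv
      apply mul_le_mul_of_nonneg_right
      · exact pow_le_pow_left₀ hV.le hv.1 _
      · rw [← nc2_hid hv.1 hv.2, hid v hv]
        have a1 : 0 ≤ v - V := by linarith [hv.1]
        have a2 : v - V ≤ θ₀ := by linarith [hv.2]
        have : (v - V) ^ 2 ≤ θ₀ ^ 2 := pow_le_pow_left₀ a1 a2 2
        linarith
  linarith

theorem moments_eq {θ₀ κ V τ₀ γ₀ : ℝ} (hθ₀ : 0 < θ₀) (hV : 0 < V) (hτ₀ : 0 < τ₀) (hγ₀ : 0 < γ₀)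
    (hκ : 0 ≤ κ) (n : ℕ) :
    eN τ₀ γ₀ V n = V ^ (2 * n + 1) / γ₀ * (τ₀ / (2 * n + 1) + V / ((2 * n + 1) * (2 * n + 2))) ∧
    dN θ₀ κ V n = (θ₀ + V + θ₀ ^ 2 - V ^ 2) / 2 * ((V + θ₀) ^ (2 * n + 1) - V ^ (2 * n + 1)) / (2 * n + 1) +
      (V - 1 / 2) * ((V + θ₀) ^ (2 * n + 2) - V ^ (2 * n + 2)) / (2 * n + 2) -
      1 / 2 * ((V + θ₀) ^ (2 * n + 3) - V ^ (2 * n + 3)) / (2 * n + 3) +
      (θ₀ / 2 + θ₀ ^ 2 / 2) * ((1 + κ * V ^ 2) * V ^ (2 * n + 1) / (2 * n + 1) -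
        κ * V ^ (2 * n + 3) / (2 * n + 3)) ∧
    V ^ (2 * n) * (θ₀ ^ 2 / 4 + θ₀ ^ 3 / 3) ≤ dN θ₀ κ V n := by
  refine ⟨nc2_eN n, ?_, nc2_low hθ₀ hV hκ n⟩
  unfold dN
  rw [nc2_first hθ₀, nc2_second hθ₀]

end Pool.Agent.MP0016c7.Rz
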