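import Mathlib
import Pool.Agent.Lib.MP_0016c7_nt.Theta
import Pool.Agent.Lib.MP_0016c7_nt.Rz.Defs
import Pool.Agent.Lib.MP_0016c7_nt.Rz.DefsC
import Pool.Agent.Lib.MP_0016c7_nt.Rz.DefsF
import Pool.Agent.Lib.MP_0016c7_nt.Rz.DefsE
import Pool.Agent.Lib.MP_0016c7_nt.Rz.Nc2

set_option autoImplicit false

open Finset MeasureTheory Filter Topology
open scoped Real ContDiff

namespace Pool.Agent.MP0016c7.Rz

/-- Rational value of `eN` (used by `cert_coeff`). -/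
def nc3E (n : ℕ) : ℚ :=
  ((2501 ^ (2 * n + 1) * 1000 * (25 * (2 * n + 2) + 2501) : ℕ) : ℚ) /
    ((5000 ^ (2 * n + 2) * 3424 * (2 * n + 1) * (2 * n + 2) : ℕ) : ℚ)

/-- Rational value of `dN` (used by `cert_coeff`). -/
def nc3D (n : ℕ) : ℚ :=
  ((((3326 ^ (2 * n + 1) - 2501 ^ (2 * n + 1) : ℤ) : ℚ) * (22111248 / 4) / ((2 * n + 1 : ℕ) : ℚ) +
    ((3326 ^ (2 * n + 2) - 2501 ^ (2 * n + 2) : ℤ) : ℚ) / ((2 * n + 2 : ℕ) : ℚ) -
    ((3326 ^ (2 * n + 3) - 2501 ^ (2 * n + 3) : ℤ) : ℚ) / (2 * ((2 * n + 3 : ℕ) : ℚ)) +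
    (961125 / 10000000) * (((2501 ^ (2 * n + 1) : ℕ) : ℚ) * (243865023 / 4) / ((2 * n + 1 : ℕ) : ℚ) -
      (23 / 4) * ((2501 ^ (2 * n + 3) : ℕ) : ℚ) / ((2 * n + 3 : ℕ) : ℚ)))) /
    ((5000 ^ (2 * n + 3) : ℕ) : ℚ)

/-- Binomial coefficients in a form the kernel evaluates quickly. -/
def nc3C (n k : ℕ) : ℕ := n.descFactorial k / k.factorial

private lemma nc3C_eq (n k : ℕ) : n.choose k = nc3C n k :=
  Nat.choose_eq_descFactorial_div_factorial n k

private lemma nc3_e (n : ℕ) :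
    eN (1 / 200) (3424 / 1000) (1 / 2 + 1 / 5000) n = ((nc3E n : ℚ) : ℝ) := by
  have h := (moments_eq (θ₀ := 33 / 200) (κ := 23 / 4) (V := 1 / 2 + 1 / 5000) (τ₀ := 1 / 200)
    (γ₀ := 3424 / 1000) (by norm_num) (by norm_num) (by norm_num) (by norm_num) (by norm_num) n).1
  rw [h, nc3E]
  push_cast
  have hV : ((1:ℝ) / 2 + 1 / 5000) = 2501 / 5000 := by norm_num
  rw [hV, div_pow]
  have h1 : (2 * (n:ℝ) + 1) ≠ 0 := by positivity
  have h2 : (2 * (n:ℝ) + 2) ≠ 0 := by positivity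
  have h3 : (5000:ℝ) ^ (2 * n + 2) = 5000 ^ (2 * n + 1) * 5000 := by rw [pow_succ]
  rw [h3]
  field_simp
  ring

private lemma nc3_d (n : ℕ) :
    dN (33 / 200) (23 / 4) (1 / 2 + 1 / 5000) n = ((nc3D n : ℚ) : ℝ) := by
  have h := (moments_eq (θ₀ := 33 / 200) (κ := 23 / 4) (V := 1 / 2 + 1 / 5000) (τ₀ := 1 / 200)
    (γ₀ := 3424 / 1000) (by norm_num) (by norm_num) (by norm_num) (by norm_num) (by norm_num) n).2.1
  rw [h, nc3D]
  push_cast
  have hV : ((1:ℝ) / 2 + 1 / 5000) = 2501 / 5000 := by norm_num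
  have hV2 : ((2501:ℝ) / 5000 + 33 / 200) = 3326 / 5000 := by norm_num
  rw [hV, hV2]
  have h1 : (2 * (n:ℝ) + 1) ≠ 0 := by positivity
  have h2 : (2 * (n:ℝ) + 2) ≠ 0 := by positivity
  have h3 : (2 * (n:ℝ) + 3) ≠ 0 := by positivity
  simp only [div_pow]
  have e3 : (5000:ℝ) ^ (2 * n + 3) = 5000 ^ (2 * n + 1) * 5000 ^ 2 := by rw [← pow_add]
  have e2 : (5000:ℝ) ^ (2 * n + 2) = 5000 ^ (2 * n + 1) * 5000 := by rw [← pow_succ]
  rw [e3, e2]
  have e4 : (5000:ℝ) ^ (2 * n + 1) ≠ 0 := by positivity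
  generalize (5000:ℝ) ^ (2 * n + 1) = P at *
  generalize (3326:ℝ) ^ (2 * n + 1) = A1
  generalize (3326:ℝ) ^ (2 * n + 2) = A2
  generalize (3326:ℝ) ^ (2 * n + 3) = A3
  generalize (2501:ℝ) ^ (2 * n + 1) = B1
  generalize (2501:ℝ) ^ (2 * n + 2) = B2
  generalize (2501:ℝ) ^ (2 * n + 3) = B3
  field_simp
  ring

/-- The inequality over `ℚ`. -/
def nc3Chk (n : ℕ) : Prop :=
    (1 + 1 / 1000) * ((4 : ℚ) ^ n / 2 * nc3E n +
      (if n = 0 then nc3E 0 / 2 else 0) -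
      (∑ i ∈ range (n + 1), (nc3C (2 * n) (2 * i) : ℚ) * (nc3E i * nc3E (n - i))) /
        (nc3E 0 + 1 / (6848 / 100))) ≤
      ∑ i ∈ range (n + 1), (nc3C (2 * n) (2 * i) : ℚ) * (nc3D i * nc3D (n - i))

instance nc3ChkDec (n : ℕ) : Decidable (nc3Chk n) := by unfold nc3Chk; infer_instance

private lemma nc3_chk0 : ∀ n < 19, nc3Chk n := by decide +kernel

private lemma nc3_even_sum (f : ℕ → ℝ) (n : ℕ) :
    ∑ k ∈ range (2 * n + 1), f k = ∑ i ∈ range (n + 1), f (2 * i) + ∑ i ∈ range n, f (2 * i + 1) := by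
  induction n with
  | zero => simp
  | succ n ih =>
    rw [show 2 * (n + 1) + 1 = 2 * n + 1 + 1 + 1 by ring, sum_range_succ, sum_range_succ, ih,
      sum_range_succ (fun i => f (2 * i)) (n + 1), sum_range_succ (fun i => f (2 * i + 1)) n]
    rw [show 2 * (n + 1) = 2 * n + 1 + 1 by ring]
    ring

private lemma nc3_choose (n : ℕ) (hn : n ≠ 0) :
    ∑ i ∈ range (n + 1), ((2 * n).choose (2 * i) : ℝ) = (4 : ℝ) ^ n / 2 := by
  have h1 : ∑ k ∈ range (2 * n + 1), ((2 * n).choose k : ℝ) = (4 : ℝ) ^ n := by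
    have := Nat.sum_range_choose (2 * n)
    have h : ((∑ m ∈ range (2 * n + 1), (2 * n).choose m : ℕ) : ℝ) = ((2 ^ (2 * n) : ℕ) : ℝ) := by
      rw [this]
    push_cast at h
    rw [h, pow_mul]
    norm_num
  have h2 : ∑ k ∈ range (2 * n + 1), (-1 : ℝ) ^ k * ((2 * n).choose k : ℝ) = 0 := by
    have := Int.alternating_sum_range_choose_of_ne (n := 2 * n) (by omega)
    have h : ((∑ m ∈ range (2 * n + 1), (-1) ^ m * ((2 * n).choose m : ℤ) : ℤ) : ℝ) = 0 := by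
      rw [this]; norm_num
    push_cast at h
    exact h
  rw [nc3_even_sum] at h1 h2
  have h3 : ∑ i ∈ range (n + 1), (-1 : ℝ) ^ (2 * i) * ((2 * n).choose (2 * i) : ℝ) =
      ∑ i ∈ range (n + 1), ((2 * n).choose (2 * i) : ℝ) := by
    refine Finset.sum_congr rfl fun i _ => ?_
    rw [pow_mul]; norm_num
  have h4 : ∑ i ∈ range n, (-1 : ℝ) ^ (2 * i + 1) * ((2 * n).choose (2 * i + 1) : ℝ) =
      -∑ i ∈ range n, ((2 * n).choose (2 * i + 1) : ℝ) := by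
    rw [← Finset.sum_neg_distrib]
    refine Finset.sum_congr rfl fun i _ => ?_
    rw [pow_succ, pow_mul]; norm_num
  rw [h3, h4] at h2
  linarith

private lemma nc3_large (n : ℕ) (hn : 19 ≤ n) :
    (1 + 1 / 1000) * ((4 : ℝ) ^ n / 2 * eN (1 / 200) (3424 / 1000) (1 / 2 + 1 / 5000) n) ≤
      ∑ i ∈ range (n + 1), ((2 * n).choose (2 * i) : ℝ) *
        (dN (33 / 200) (23 / 4) (1 / 2 + 1 / 5000) i *
          dN (33 / 200) (23 / 4) (1 / 2 + 1 / 5000) (n - i)) := by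
  have hmom := fun k : ℕ => moments_eq (θ₀ := 33 / 200) (κ := 23 / 4) (V := 1 / 2 + 1 / 5000)
    (τ₀ := 1 / 200) (γ₀ := 3424 / 1000) (by norm_num) (by norm_num) (by norm_num) (by norm_num)
    (by norm_num) k
  set V : ℝ := 1 / 2 + 1 / 5000 with hV
  set m : ℝ := (33 / 200) ^ 2 / 4 + (33 / 200) ^ 3 / 3 with hm
  have hV0 : 0 < V := by rw [hV]; norm_num
  have hm0 : 0 < m := by rw [hm]; norm_num
  have h1 : ∑ i ∈ range (n + 1), ((2 * n).choose (2 * i) : ℝ) * (V ^ (2 * n) * m ^ 2) ≤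
      ∑ i ∈ range (n + 1), ((2 * n).choose (2 * i) : ℝ) *
        (dN (33 / 200) (23 / 4) V i * dN (33 / 200) (23 / 4) V (n - i)) := by
    refine Finset.sum_le_sum fun i hi => ?_
    have hi' : i ≤ n := by have := mem_range.1 hi; omega
    refine mul_le_mul_of_nonneg_left ?_ (Nat.cast_nonneg _)
    have e1 : V ^ (2 * n) * m ^ 2 = (V ^ (2 * i) * m) * (V ^ (2 * (n - i)) * m) := by
      have : 2 * n = 2 * i + 2 * (n - i) := by omega
      rw [this, pow_add]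
      have h' : 2 * (2 * i + 2 * (n - i) - 2 * i) = 2 * (2 * (n - i)) := by omega
      ring
    rw [e1]
    exact mul_le_mul (hmom i).2.2 (hmom (n - i)).2.2 (by positivity)
      (le_trans (by positivity) (hmom i).2.2)
  refine le_trans ?_ h1
  rw [← Finset.sum_mul, nc3_choose n (by omega), (hmom n).1, pow_succ]
  have hn' : (19:ℝ) ≤ n := by exact_mod_cast hn
  have h2 : (1 / 200 : ℝ) / (2 * n + 1) + V / ((2 * n + 1) * (2 * n + 2)) ≤
      (1 / 200 : ℝ) / 39 + V / (39 * 40) := by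
    have h3 : (39:ℝ) ≤ 2 * n + 1 := by linarith
    have h4 : (40:ℝ) ≤ 2 * n + 2 := by linarith
    refine add_le_add ?_ ?_
    · exact div_le_div_of_nonneg_left (by norm_num) (by norm_num) h3
    · refine div_le_div_of_nonneg_left hV0.le (by norm_num) ?_
      exact mul_le_mul h3 h4 (by norm_num) (by linarith)
  have h5 : (1 + 1 / 1000) * (V / (3424 / 1000) * ((1 / 200 : ℝ) / 39 + V / (39 * 40))) ≤ m ^ 2 := by
    rw [hV, hm]; norm_num
  have hP : (0:ℝ) ≤ (4:ℝ) ^ n / 2 * V ^ (2 * n) := by positivity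
  calc (1 + 1 / 1000) * ((4 : ℝ) ^ n / 2 * (V ^ (2 * n) * V / (3424 / 1000) *
        ((1 / 200 : ℝ) / (2 * n + 1) + V / ((2 * n + 1) * (2 * n + 2)))))
      = ((4:ℝ) ^ n / 2 * V ^ (2 * n)) * ((1 + 1 / 1000) * (V / (3424 / 1000) *
        ((1 / 200 : ℝ) / (2 * n + 1) + V / ((2 * n + 1) * (2 * n + 2))))) := by ring
    _ ≤ ((4:ℝ) ^ n / 2 * V ^ (2 * n)) * m ^ 2 := by
        refine mul_le_mul_of_nonneg_left ?_ hP
        refine le_trans ?_ h5
        refine mul_le_mul_of_nonneg_left ?_ (by norm_num)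
        exact mul_le_mul_of_nonneg_left h2 (by positivity)
    _ = (4:ℝ) ^ n / 2 * (V ^ (2 * n) * m ^ 2) := by ring

theorem cert_coeff (n : ℕ) :
    (1 + 1 / 1000) * ((4 : ℝ) ^ n / 2 * eN (1 / 200) (3424 / 1000) (1 / 2 + 1 / 5000) n +
      (if n = 0 then eN (1 / 200) (3424 / 1000) (1 / 2 + 1 / 5000) 0 / 2 else 0) -
      (∑ i ∈ range (n + 1), ((2 * n).choose (2 * i) : ℝ) *
        (eN (1 / 200) (3424 / 1000) (1 / 2 + 1 / 5000) i *
          eN (1 / 200) (3424 / 1000) (1 / 2 + 1 / 5000) (n - i))) /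
        (eN (1 / 200) (3424 / 1000) (1 / 2 + 1 / 5000) 0 + 1 / (6848 / 100))) ≤
      ∑ i ∈ range (n + 1), ((2 * n).choose (2 * i) : ℝ) *
        (dN (33 / 200) (23 / 4) (1 / 2 + 1 / 5000) i *
          dN (33 / 200) (23 / 4) (1 / 2 + 1 / 5000) (n - i)) := by
  by_cases hn : n < 19
  · have h := nc3_chk0 n hn
    unfold nc3Chk at h
    have h' : (((1 + 1 / 1000) * ((4 : ℚ) ^ n / 2 * nc3E n +
      (if n = 0 then nc3E 0 / 2 else 0) -
      (∑ i ∈ range (n + 1), (nc3C (2 * n) (2 * i) : ℚ) * (nc3E i * nc3E (n - i))) /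
        (nc3E 0 + 1 / (6848 / 100))) : ℚ) : ℝ) ≤
      ((∑ i ∈ range (n + 1), (nc3C (2 * n) (2 * i) : ℚ) * (nc3D i * nc3D (n - i)) : ℚ) : ℝ) :=
      Rat.cast_le.2 h
    have hif : (((if n = 0 then nc3E 0 / 2 else 0 : ℚ)) : ℝ) =
        if n = 0 then ((nc3E 0 : ℚ) : ℝ) / 2 else 0 := by
      split_ifs
      · push_cast; rfl
      · simp
    push_cast at h'
    rw [hif] at h'
    simp only [nc3_e, nc3_d, nc3C_eq]
    exact h'
  · push Not at hn
    have hne : n ≠ 0 := by omega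
    rw [if_neg hne, add_zero]
    refine le_trans ?_ (nc3_large n hn)
    refine mul_le_mul_of_nonneg_left ?_ (by norm_num)
    have he : ∀ k, 0 ≤ eN (1 / 200) (3424 / 1000) (1 / 2 + 1 / 5000) k := by
      intro k
      rw [nc3_e, nc3E]
      positivity
    have h1 : 0 ≤ (∑ i ∈ range (n + 1), ((2 * n).choose (2 * i) : ℝ) *
        (eN (1 / 200) (3424 / 1000) (1 / 2 + 1 / 5000) i *
          eN (1 / 200) (3424 / 1000) (1 / 2 + 1 / 5000) (n - i))) /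
        (eN (1 / 200) (3424 / 1000) (1 / 2 + 1 / 5000) 0 + 1 / (6848 / 100)) := by
      refine div_nonneg (Finset.sum_nonneg fun i _ => ?_) ?_
      · exact mul_nonneg (Nat.cast_nonneg _) (mul_nonneg (he _) (he _))
      · have := he 0
        linarith
    linarith

end Pool.Agent.MP0016c7.Rz
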