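import Mathlib
import Pool.Agent.Lib.MP_0016c7_nt.Theta
import Pool.Agent.Lib.MP_0016c7_nt.Rz.Defs
import Pool.Agent.Lib.MP_0016c7_nt.Rz.DefsC
import Pool.Agent.Lib.MP_0016c7_nt.Rz.DefsF
import Pool.Agent.Lib.MP_0016c7_nt.Rz.DefsE

set_option autoImplicit false

open Finset MeasureTheory Filter Topology
open scoped Real ContDiff

namespace Pool.Agent.MP0016c7.Rz

theorem nc_congr {f g : ℕ → ℝ} {S : ℝ} (h : ∀ n, f n = g n) (hg : HasSum g S) : HasSum f S := by
  rw [show f = g from funext h]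
  exact hg

/-- termwise integration of the hyperbolic cosine -/
theorem nc_cosh_int {A B : ℝ} (hA : 0 ≤ A) (hAB : A ≤ B) (a : ℝ) {g : ℝ → ℝ}
    (hg : IntervalIntegrable g volume A B) :
    HasSum (fun n : ℕ => a ^ (2 * n) / ((2 * n).factorial : ℝ) * ∫ v in A..B, v ^ (2 * n) * g v)
      (∫ v in A..B, Real.cosh (a * v) * g v) := by
  have hB : 0 ≤ B := hA.trans hAB
  have hmeas : AEStronglyMeasurable g (volume.restrict (Set.uIoc A B)) :=
    hg.def'.aestronglyMeasurable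
  have key := intervalIntegral.hasSum_integral_of_dominated_convergence (μ := volume) (a := A)
    (b := B) (F := fun (n : ℕ) v => (a * v) ^ (2 * n) / ((2 * n).factorial : ℝ) * g v)
    (f := fun v => Real.cosh (a * v) * g v)
    (fun (n : ℕ) v => (|a| * B) ^ (2 * n) / ((2 * n).factorial : ℝ) * |g v|) ?_ ?_ ?_ ?_ ?_
  · have e : ∀ n : ℕ, ∫ v in A..B, (a * v) ^ (2 * n) / ((2 * n).factorial : ℝ) * g v =
        a ^ (2 * n) / ((2 * n).factorial : ℝ) * ∫ v in A..B, v ^ (2 * n) * g v := by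
      intro n
      rw [← intervalIntegral.integral_const_mul]
      congr 1
      ext v
      rw [mul_pow]
      ring
    simp only [e] at key
    exact key
  · intro n
    apply AEStronglyMeasurable.mul _ hmeas
    exact (Continuous.aestronglyMeasurable (by fun_prop))
  · intro n
    refine Eventually.of_forall fun v hv => ?_
    rw [Set.uIoc_of_le hAB] at hv
    have hv0 : 0 ≤ v := hA.trans hv.1.le
    rw [norm_mul, Real.norm_eq_abs, Real.norm_eq_abs]
    apply mul_le_mul_of_nonneg_right _ (abs_nonneg _)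
    rw [abs_div, abs_pow, abs_mul, abs_of_nonneg hv0, Nat.abs_cast]
    apply div_le_div_of_nonneg_right _ (by positivity)
    apply pow_le_pow_left₀ (by positivity)
    exact mul_le_mul_of_nonneg_left hv.2 (abs_nonneg a)
  · refine Eventually.of_forall fun v _ => ?_
    exact ((Real.hasSum_cosh (|a| * B)).summable).mul_right _
  · have e : (fun v => ∑' n : ℕ, (|a| * B) ^ (2 * n) / ((2 * n).factorial : ℝ) * |g v|) =
        fun v => Real.cosh (|a| * B) * |g v| := by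
      ext v
      rw [tsum_mul_right, (Real.hasSum_cosh (|a| * B)).tsum_eq]
    rw [e]
    exact hg.abs.const_mul _
  · refine Eventually.of_forall fun v _ => ?_
    exact (Real.hasSum_cosh (a * v)).mul_right _

theorem nc_hid_cont {θ₀ : ℝ} (hθ₀ : 0 < θ₀) : Continuous (fun x => Hid θ₀ x) := by
  have e : (fun x => Hid θ₀ x) = fun x => (θ₀ - max (min x θ₀) 0) / 2 +
      (θ₀ ^ 2 - (max (min x θ₀) 0) ^ 2) / 2 := by
    ext x
    unfold Hid
    split_ifs with h
    · rw [min_eq_right h, max_eq_left hθ₀.le]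
      ring
    · rw [min_eq_left (not_le.mp h).le]
  rw [e]
  fun_prop

theorem nc_PP {θ₀ κ V : ℝ} (hθ₀ : 0 < θ₀) (hV : 0 < V) (a : ℝ) :
    HasSum (fun n : ℕ => a ^ (2 * n) / ((2 * n).factorial : ℝ) * dN θ₀ κ V n)
      (PP θ₀ κ V a) := by
  have h1 := nc_cosh_int (A := V) (B := V + θ₀) hV.le (by linarith) a
    (g := fun v => Hid θ₀ (v - V))
    (Continuous.intervalIntegrable ((nc_hid_cont hθ₀).comp (continuous_id.sub continuous_const)) _ _)
  have h2 := nc_cosh_int (A := 0) (B := V) le_rfl hV.le a (g := fun v => y00 θ₀ κ V v)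
    (Continuous.intervalIntegrable (by unfold y00; fun_prop) _ _)
  have h3 := h1.add h2
  unfold dN PP
  convert h3 using 2
  ring

theorem nc_EE {τ₀ γ₀ V : ℝ} (hV : 0 < V) (a : ℝ) :
    HasSum (fun n : ℕ => a ^ (2 * n) / ((2 * n).factorial : ℝ) * eN τ₀ γ₀ V n)
      (∫ v in (0 : ℝ)..V, Real.cosh (a * v) / ww γ₀ V τ₀ v) := by
  have hc : Continuous (fun v => 1 / ww γ₀ V τ₀ v) := by
    have e : (fun v => 1 / ww γ₀ V τ₀ v) = fun v => (V - v + τ₀) / γ₀ := by
      ext v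
      unfold ww
      rw [one_div, inv_div]
    rw [e]
    fun_prop
  have h1 := nc_cosh_int (A := 0) (B := V) le_rfl hV.le a (g := fun v => 1 / ww γ₀ V τ₀ v)
    (hc.intervalIntegrable _ _)
  unfold eN
  simp only [mul_one_div] at h1
  exact h1

theorem nc_cauchy {f : ℕ → ℝ} {S a : ℝ}
    (h : HasSum (fun n : ℕ => a ^ (2 * n) / ((2 * n).factorial : ℝ) * f n) S) :
    HasSum (fun n : ℕ => a ^ (2 * n) / ((2 * n).factorial : ℝ) *
      ∑ i ∈ range (n + 1), ((2 * n).choose (2 * i) : ℝ) * (f i * f (n - i))) (S ^ 2) := by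
  have hs : Summable fun n : ℕ => ‖a ^ (2 * n) / ((2 * n).factorial : ℝ) * f n‖ :=
    h.summable.norm
  have key := hasSum_sum_range_mul_of_summable_norm hs hs
  rw [h.tsum_eq, ← sq] at key
  refine nc_congr (fun n => ?_) key
  rw [mul_sum]
  refine sum_congr rfl fun i hi => ?_
  have hin : i ≤ n := by
    rw [mem_range] at hi
    omega
  have h1 : ((2 * n).choose (2 * i) : ℝ) =
      ((2 * n).factorial : ℝ) / (((2 * i).factorial : ℝ) * ((2 * (n - i)).factorial : ℝ)) := by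
    rw [Nat.cast_choose ℝ (by omega : 2 * i ≤ 2 * n)]
    rw [show 2 * n - 2 * i = 2 * (n - i) by omega]
  have h2 : a ^ (2 * n) = a ^ (2 * i) * a ^ (2 * (n - i)) := by
    rw [← pow_add]
    congr 1
    omega
  have f1 : ((2 * n).factorial : ℝ) ≠ 0 := by positivity
  have f2 : ((2 * i).factorial : ℝ) ≠ 0 := by positivity
  have f3 : ((2 * (n - i)).factorial : ℝ) ≠ 0 := by positivity
  rw [h1, h2]
  field_simp

theorem cert_of_coeff {θ₀ κ V τ₀ γ₀ g₀ μ : ℝ} (hθ₀ : 0 < θ₀) (hκ : 0 < κ) (hV : 0 < V)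
    (hτ₀ : 0 < τ₀) (hγ₀ : 0 < γ₀) (hg₀ : 0 < g₀) (hμ : 0 < μ)
    (H : ∀ n : ℕ, (1 + μ) * ((4 : ℝ) ^ n / 2 * eN τ₀ γ₀ V n + (if n = 0 then eN τ₀ γ₀ V 0 / 2 else 0) -
      (∑ i ∈ range (n + 1), ((2 * n).choose (2 * i) : ℝ) * (eN τ₀ γ₀ V i * eN τ₀ γ₀ V (n - i))) /
        (eN τ₀ γ₀ V 0 + 1 / g₀)) ≤
      ∑ i ∈ range (n + 1), ((2 * n).choose (2 * i) : ℝ) * (dN θ₀ κ V i * dN θ₀ κ V (n - i))) (a : ℝ) :
    (1 + μ) * Kf (ww γ₀ V τ₀) g₀ V (fun v => Real.cosh (a * v)) ≤ PP θ₀ κ V a ^ 2 := by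
  have hP := nc_cauchy (nc_PP (κ := κ) hθ₀ hV a)
  have hE := nc_cauchy (nc_EE (τ₀ := τ₀) (γ₀ := γ₀) hV a)
  have hE2 := nc_EE (τ₀ := τ₀) (γ₀ := γ₀) hV (2 * a)
  have hc : Continuous (fun v => 1 / ww γ₀ V τ₀ v) := by
    have e : (fun v => 1 / ww γ₀ V τ₀ v) = fun v => (V - v + τ₀) / γ₀ := by
      ext v
      unfold ww
      rw [one_div, inv_div]
    rw [e]
    fun_prop
  -- the first term of `Kf`
  have e0 : eN τ₀ γ₀ V 0 = ∫ v in (0 : ℝ)..V, 1 / ww γ₀ V τ₀ v := by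
    unfold eN
    simp
  have e1 : (∫ v in (0 : ℝ)..V, Real.cosh (a * v) ^ 2 / ww γ₀ V τ₀ v) =
      1 / 2 * (∫ v in (0 : ℝ)..V, Real.cosh (2 * a * v) / ww γ₀ V τ₀ v) +
        eN τ₀ γ₀ V 0 / 2 := by
    have c1 : ∀ v : ℝ, Real.cosh (a * v) ^ 2 / ww γ₀ V τ₀ v =
        1 / 2 * (Real.cosh (2 * a * v) / ww γ₀ V τ₀ v) + 1 / 2 * (1 / ww γ₀ V τ₀ v) := by
      intro v
      have : Real.cosh (2 * a * v) = 2 * Real.cosh (a * v) ^ 2 - 1 := by
        rw [show 2 * a * v = 2 * (a * v) by ring, Real.cosh_two_mul, Real.sinh_sq]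
        ring
      rw [this]
      ring
    simp only [c1]
    rw [intervalIntegral.integral_add, intervalIntegral.integral_const_mul,
      intervalIntegral.integral_const_mul, e0]
    · ring
    · apply Continuous.intervalIntegrable
      apply Continuous.mul continuous_const
      have : (fun v => Real.cosh (2 * a * v) / ww γ₀ V τ₀ v) =
          fun v => Real.cosh (2 * a * v) * (1 / ww γ₀ V τ₀ v) := by
        ext v; ring
      rw [this]
      apply Continuous.mul _ hc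
      exact Real.continuous_cosh.comp (by fun_prop)
    · apply Continuous.intervalIntegrable
      exact continuous_const.mul hc
  have s1 : HasSum (fun n : ℕ => a ^ (2 * n) / ((2 * n).factorial : ℝ) *
      (4 ^ n / 2 * eN τ₀ γ₀ V n))
      (1 / 2 * (∫ v in (0 : ℝ)..V, Real.cosh (2 * a * v) / ww γ₀ V τ₀ v)) := by
    refine nc_congr (fun n => ?_) (hE2.mul_left (1 / 2))
    have : (2 * a) ^ (2 * n) = 4 ^ n * a ^ (2 * n) := by
      rw [mul_pow, pow_mul]
      norm_num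
    rw [this]
    ring
  have s2 : HasSum (fun n : ℕ => a ^ (2 * n) / ((2 * n).factorial : ℝ) *
      (if n = 0 then eN τ₀ γ₀ V 0 / 2 else 0)) (eN τ₀ γ₀ V 0 / 2) := by
    have := hasSum_ite_eq (0 : ℕ) (eN τ₀ γ₀ V 0 / 2)
    refine nc_congr (fun n => ?_) this
    by_cases hn : n = 0
    · subst hn
      simp
    · rw [if_neg hn, mul_zero]
  have s3 := ((s1.add s2).sub (hE.mul_right (1 / (eN τ₀ γ₀ V 0 + 1 / g₀)))).mul_left (1 + μ)
  have e2 : (1 + μ) * Kf (ww γ₀ V τ₀) g₀ V (fun v => Real.cosh (a * v)) =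
      (1 + μ) * (1 / 2 * (∫ v in (0 : ℝ)..V, Real.cosh (2 * a * v) / ww γ₀ V τ₀ v) +
        eN τ₀ γ₀ V 0 / 2 - (∫ v in (0 : ℝ)..V, Real.cosh (a * v) / ww γ₀ V τ₀ v) ^ 2 *
          (1 / (eN τ₀ γ₀ V 0 + 1 / g₀))) := by
    unfold Kf
    rw [e1, e0]
    ring
  rw [e2]
  refine hasSum_le (fun n => ?_) s3 hP
  have hfac : 0 ≤ a ^ (2 * n) / ((2 * n).factorial : ℝ) := by
    apply div_nonneg _ (by positivity)
    rw [pow_mul]
    positivity
  have := mul_le_mul_of_nonneg_left (H n) hfac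
  refine le_trans (le_of_eq ?_) this
  ring

end Pool.Agent.MP0016c7.Rz
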