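import Mathlib
import Pool.Agent.Lib.MP_0016c7_nt.Rz.DefsF2
import Pool.Agent.Lib.MP_0016c7_nt.Rz.Nc1

set_option autoImplicit false

/-!
The dual inequality of the certificate of rank two and the coefficientwise criterion.
-/

open Finset MeasureTheory Filter Topology
open scoped Real ContDiff

namespace Pool.Agent.MP0016c7.Rz

/-- Cauchy-Schwarz for the quadratic functional of rank two. -/
theorem nd_cs {V w₀ g₁ g₂ : ℝ} (hV : 0 < V) (hw₀ : 0 < w₀) (hg₁ : 0 < g₁) (hg₂ : 0 < g₂)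
    {f c u₁ u₂ : ℝ → ℝ} (hf : ContinuousOn f (Set.Icc 0 V)) (hc : Continuous c)
    (hu₁ : Continuous u₁) (hu₂ : Continuous u₂) (t₁ t₂ : ℝ) :
    (∫ v in (0 : ℝ)..V, c v * f v) ^ 2 ≤
      (w₀ * (∫ v in (0 : ℝ)..V, f v ^ 2) + g₁ * (∫ v in (0 : ℝ)..V, u₁ v * f v) ^ 2 +
        g₂ * (∫ v in (0 : ℝ)..V, u₂ v * f v) ^ 2) *
      (((∫ v in (0 : ℝ)..V, c v ^ 2) - 2 * t₁ * (∫ v in (0 : ℝ)..V, c v * u₁ v) -
        2 * t₂ * (∫ v in (0 : ℝ)..V, c v * u₂ v) +
        t₁ ^ 2 * ((∫ v in (0 : ℝ)..V, u₁ v ^ 2) + w₀ / g₁) +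
        2 * t₁ * t₂ * (∫ v in (0 : ℝ)..V, u₁ v * u₂ v) +
        t₂ ^ 2 * ((∫ v in (0 : ℝ)..V, u₂ v ^ 2) + w₀ / g₂)) / w₀) := by
  have ii : ∀ {u : ℝ → ℝ}, ContinuousOn u (Set.Icc 0 V) → IntervalIntegrable u volume 0 V :=
    fun hu => hu.intervalIntegrable_of_Icc hV.le
  have hc' := hc.continuousOn (s := Set.Icc 0 V)
  have h1' := hu₁.continuousOn (s := Set.Icc 0 V)
  have h2' := hu₂.continuousOn (s := Set.Icc 0 V)
  -- the auxiliary function
  set k : ℝ → ℝ := fun v => c v - t₁ * u₁ v - t₂ * u₂ v with hk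
  have hkc : ContinuousOn k (Set.Icc 0 V) :=
    (hc'.sub (continuousOn_const.mul h1')).sub (continuousOn_const.mul h2')
  set A := ∫ v in (0 : ℝ)..V, f v ^ 2 with hA
  set S := ∫ v in (0 : ℝ)..V, c v * f v with hS
  set F₁ := ∫ v in (0 : ℝ)..V, u₁ v * f v with hF₁
  set F₂ := ∫ v in (0 : ℝ)..V, u₂ v * f v with hF₂
  set C := ∫ v in (0 : ℝ)..V, c v ^ 2 with hC
  set b₁ := ∫ v in (0 : ℝ)..V, c v * u₁ v with hb₁
  set b₂ := ∫ v in (0 : ℝ)..V, c v * u₂ v with hb₂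
  set M₁ := ∫ v in (0 : ℝ)..V, u₁ v ^ 2 with hM₁
  set M₂ := ∫ v in (0 : ℝ)..V, u₂ v ^ 2 with hM₂
  set M₀ := ∫ v in (0 : ℝ)..V, u₁ v * u₂ v with hM₀
  have ikf : IntervalIntegrable (fun v => k v * f v) volume 0 V := ii (hkc.mul hf)
  have ik2 : IntervalIntegrable (fun v => k v ^ 2) volume 0 V := ii (hkc.pow 2)
  have if2 : IntervalIntegrable (fun v => f v ^ 2) volume 0 V := ii (hf.pow 2)
  have ekf : ∫ v in (0 : ℝ)..V, k v * f v = S - t₁ * F₁ - t₂ * F₂ := by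
    have e : (fun v => k v * f v) = fun v => c v * f v - t₁ * (u₁ v * f v) - t₂ * (u₂ v * f v) := by
      funext v
      rw [hk]
      ring
    have i1 : IntervalIntegrable (fun v => c v * f v) volume 0 V := ii (hc'.mul hf)
    have i2 : IntervalIntegrable (fun v => t₁ * (u₁ v * f v)) volume 0 V :=
      (ii (h1'.mul hf)).const_mul _
    have i3 : IntervalIntegrable (fun v => t₂ * (u₂ v * f v)) volume 0 V :=
      (ii (h2'.mul hf)).const_mul _
    rw [e, intervalIntegral.integral_sub (i1.sub i2) i3, intervalIntegral.integral_sub i1 i2,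
      intervalIntegral.integral_const_mul, intervalIntegral.integral_const_mul]
  have ek2 : ∫ v in (0 : ℝ)..V, k v ^ 2 = C - 2 * t₁ * b₁ - 2 * t₂ * b₂ + t₁ ^ 2 * M₁ +
      2 * t₁ * t₂ * M₀ + t₂ ^ 2 * M₂ := by
    have e : (fun v => k v ^ 2) = fun v => c v ^ 2 - (2 * t₁) * (c v * u₁ v) -
        (2 * t₂) * (c v * u₂ v) + t₁ ^ 2 * (u₁ v ^ 2) + (2 * t₁ * t₂) * (u₁ v * u₂ v) +
        t₂ ^ 2 * (u₂ v ^ 2) := by
      funext v
      rw [hk]
      ring
    have i1 : IntervalIntegrable (fun v => c v ^ 2) volume 0 V := ii (hc'.pow 2)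
    have i2 : IntervalIntegrable (fun v => (2 * t₁) * (c v * u₁ v)) volume 0 V :=
      (ii (hc'.mul h1')).const_mul _
    have i3 : IntervalIntegrable (fun v => (2 * t₂) * (c v * u₂ v)) volume 0 V :=
      (ii (hc'.mul h2')).const_mul _
    have i4 : IntervalIntegrable (fun v => t₁ ^ 2 * (u₁ v ^ 2)) volume 0 V :=
      (ii (h1'.pow 2)).const_mul _
    have i5 : IntervalIntegrable (fun v => (2 * t₁ * t₂) * (u₁ v * u₂ v)) volume 0 V :=
      (ii (h1'.mul h2')).const_mul _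
    have i6 : IntervalIntegrable (fun v => t₂ ^ 2 * (u₂ v ^ 2)) volume 0 V :=
      (ii (h2'.pow 2)).const_mul _
    rw [e, intervalIntegral.integral_add ((((i1.sub i2).sub i3).add i4).add i5) i6,
      intervalIntegral.integral_add (((i1.sub i2).sub i3).add i4) i5,
      intervalIntegral.integral_add ((i1.sub i2).sub i3) i4,
      intervalIntegral.integral_sub (i1.sub i2) i3, intervalIntegral.integral_sub i1 i2,
      intervalIntegral.integral_const_mul, intervalIntegral.integral_const_mul,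
      intervalIntegral.integral_const_mul, intervalIntegral.integral_const_mul,
      intervalIntegral.integral_const_mul]
  set X := C - 2 * t₁ * b₁ - 2 * t₂ * b₂ + t₁ ^ 2 * M₁ + 2 * t₁ * t₂ * M₀ + t₂ ^ 2 * M₂ with hX
  have key : ∀ s : ℝ, 0 ≤ (X / w₀ + t₁ ^ 2 / g₁ + t₂ ^ 2 / g₂) * (s * s) + (-2 * S) * s +
      (w₀ * A + g₁ * F₁ ^ 2 + g₂ * F₂ ^ 2) := by
    intro s
    have h1 : 0 ≤ ∫ v in (0 : ℝ)..V, (w₀ * f v ^ 2 - 2 * s * (k v * f v) + s ^ 2 / w₀ * k v ^ 2) := by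
      apply intervalIntegral.integral_nonneg hV.le
      intro v hv
      have : w₀ * f v ^ 2 - 2 * s * (k v * f v) + s ^ 2 / w₀ * k v ^ 2 =
          (w₀ * f v - s * k v) ^ 2 / w₀ := by
        field_simp
        ring
      rw [this]
      positivity
    rw [intervalIntegral.integral_add ((if2.const_mul _).sub (ikf.const_mul _)) (ik2.const_mul _),
      intervalIntegral.integral_sub (if2.const_mul _) (ikf.const_mul _),
      intervalIntegral.integral_const_mul, intervalIntegral.integral_const_mul,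
      intervalIntegral.integral_const_mul, ekf, ek2] at h1
    have h2 : 0 ≤ g₁ * (F₁ - s * t₁ / g₁) ^ 2 := by positivity
    have h3 : 0 ≤ g₂ * (F₂ - s * t₂ / g₂) ^ 2 := by positivity
    have h4 : (X / w₀ + t₁ ^ 2 / g₁ + t₂ ^ 2 / g₂) * (s * s) + (-2 * S) * s +
        (w₀ * A + g₁ * F₁ ^ 2 + g₂ * F₂ ^ 2) =
        (w₀ * A - 2 * s * (S - t₁ * F₁ - t₂ * F₂) + s ^ 2 / w₀ * X) +
        g₁ * (F₁ - s * t₁ / g₁) ^ 2 + g₂ * (F₂ - s * t₂ / g₂) ^ 2 := by
      field_simp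
      ring
    rw [h4]
    exact add_nonneg (add_nonneg h1 h2) h3
  have hd := discrim_le_zero key
  unfold discrim at hd
  have e : (C - 2 * t₁ * b₁ - 2 * t₂ * b₂ + t₁ ^ 2 * (M₁ + w₀ / g₁) + 2 * t₁ * t₂ * M₀ +
      t₂ ^ 2 * (M₂ + w₀ / g₂)) / w₀ = X / w₀ + t₁ ^ 2 / g₁ + t₂ ^ 2 / g₂ := by
    rw [hX]
    field_simp
    ring
  rw [e]
  nlinarith

/-- The moments of the profile. -/
noncomputable def dM (θ₀ V : ℝ) (y : ℝ → ℝ) (n : ℕ) : ℝ :=
  (∫ v in V..(V + θ₀), v ^ (2 * n) * Hid θ₀ (v - V)) + ∫ v in (0 : ℝ)..V, v ^ (2 * n) * y v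

/-- The moments of a function on `[0, V]`. -/
noncomputable def pM (V : ℝ) (p : ℝ → ℝ) (n : ℕ) : ℝ := ∫ v in (0 : ℝ)..V, v ^ (2 * n) * p v

theorem nd_PP2 {θ₀ V : ℝ} (hθ₀ : 0 < θ₀) (hV : 0 < V) {y : ℝ → ℝ} (hy : Continuous y) (a : ℝ) :
    HasSum (fun n : ℕ => a ^ (2 * n) / ((2 * n).factorial : ℝ) * dM θ₀ V y n)
      (PP2 θ₀ V y a) := by
  have h1 := nc_cosh_int (A := V) (B := V + θ₀) hV.le (by linarith) a
    (g := fun v => Hid θ₀ (v - V))
    (Continuous.intervalIntegrable ((nc_hid_cont hθ₀).comp (continuous_id.sub continuous_const)) _ _)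
  have h2 := nc_cosh_int (A := 0) (B := V) le_rfl hV.le a (g := y) (hy.intervalIntegrable _ _)
  have h3 := h1.add h2
  unfold dM PP2
  convert h3 using 2
  ring

theorem nd_p {V : ℝ} (hV : 0 < V) {p : ℝ → ℝ} (hp : Continuous p) (a : ℝ) :
    HasSum (fun n : ℕ => a ^ (2 * n) / ((2 * n).factorial : ℝ) * pM V p n)
      (∫ v in (0 : ℝ)..V, Real.cosh (a * v) * p v) :=
  nc_cosh_int (A := 0) (B := V) le_rfl hV.le a (g := p) (hp.intervalIntegrable _ _)

/-- The coefficientwise criterion. -/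
theorem nd_coeff {θ₀ V w₀ μ α₁ α₂ : ℝ} (hθ₀ : 0 < θ₀) (hV : 0 < V) {y p₁ p₂ : ℝ → ℝ}
    (hy : Continuous y) (hp₁ : Continuous p₁) (hp₂ : Continuous p₂)
    (H : ∀ n : ℕ, (1 + μ) * ((4 : ℝ) ^ n / 2 * (V ^ (2 * n + 1) / (2 * n + 1)) +
        (if n = 0 then V / 2 else 0) -
        ∑ i ∈ range (n + 1), ((2 * n).choose (2 * i) : ℝ) *
          (α₁ * (pM V p₁ i * pM V p₁ (n - i)) + α₂ * (pM V p₂ i * pM V p₂ (n - i)))) ≤
      w₀ * ∑ i ∈ range (n + 1), ((2 * n).choose (2 * i) : ℝ) * (dM θ₀ V y i * dM θ₀ V y (n - i)))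
    (a : ℝ) :
    (1 + μ) * ((∫ v in (0 : ℝ)..V, Real.cosh (a * v) ^ 2) -
      α₁ * (∫ v in (0 : ℝ)..V, Real.cosh (a * v) * p₁ v) ^ 2 -
      α₂ * (∫ v in (0 : ℝ)..V, Real.cosh (a * v) * p₂ v) ^ 2) ≤ w₀ * PP2 θ₀ V y a ^ 2 := by
  have hP := (nc_cauchy (nd_PP2 (y := y) hθ₀ hV hy a)).mul_left w₀
  have hE1 := (nc_cauchy (nd_p hV hp₁ a)).mul_left α₁
  have hE2 := (nc_cauchy (nd_p hV hp₂ a)).mul_left α₂
  have hC := nd_p hV (p := fun _ => 1) continuous_const (2 * a)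
  have eC : ∀ n : ℕ, pM V (fun _ => 1) n = V ^ (2 * n + 1) / (2 * n + 1) := by
    intro n
    unfold pM
    simp only [mul_one]
    rw [integral_pow, zero_pow (by omega), sub_zero]
    push_cast
    rfl
  have e1 : (∫ v in (0 : ℝ)..V, Real.cosh (a * v) ^ 2) =
      1 / 2 * (∫ v in (0 : ℝ)..V, Real.cosh (2 * a * v) * 1) + V / 2 := by
    have c1 : ∀ v : ℝ, Real.cosh (a * v) ^ 2 =
        1 / 2 * (Real.cosh (2 * a * v) * 1) + 1 / 2 := by
      intro v
      have : Real.cosh (2 * a * v) = 2 * Real.cosh (a * v) ^ 2 - 1 := by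
        rw [show 2 * a * v = 2 * (a * v) by ring, Real.cosh_two_mul, Real.sinh_sq]
        ring
      rw [this]
      ring
    simp only [c1]
    rw [intervalIntegral.integral_add, intervalIntegral.integral_const_mul,
      intervalIntegral.integral_const, smul_eq_mul]
    · ring
    · exact (Continuous.intervalIntegrable (by fun_prop) _ _)
    · simp
  have s1 : HasSum (fun n : ℕ => a ^ (2 * n) / ((2 * n).factorial : ℝ) *
      (4 ^ n / 2 * (V ^ (2 * n + 1) / (2 * n + 1))))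
      (1 / 2 * (∫ v in (0 : ℝ)..V, Real.cosh (2 * a * v) * 1)) := by
    refine nc_congr (fun n => ?_) (hC.mul_left (1 / 2))
    have : (2 * a) ^ (2 * n) = 4 ^ n * a ^ (2 * n) := by
      rw [mul_pow, pow_mul]
      norm_num
    rw [this, eC]
    ring
  have s2 : HasSum (fun n : ℕ => a ^ (2 * n) / ((2 * n).factorial : ℝ) *
      (if n = 0 then V / 2 else 0)) (V / 2) := by
    have := hasSum_ite_eq (0 : ℕ) (V / 2)
    refine nc_congr (fun n => ?_) this
    by_cases hn : n = 0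
    · subst hn
      simp
    · rw [if_neg hn, mul_zero]
  have s3 := (((s1.add s2).sub hE1).sub hE2).mul_left (1 + μ)
  rw [e1]
  refine hasSum_le (fun n => ?_) s3 hP
  have hfac : 0 ≤ a ^ (2 * n) / ((2 * n).factorial : ℝ) := by
    apply div_nonneg _ (by positivity)
    rw [pow_mul]
    positivity
  have := mul_le_mul_of_nonneg_left (H n) hfac
  have e2 : ∑ i ∈ range (n + 1), ((2 * n).choose (2 * i) : ℝ) *
      (α₁ * (pM V p₁ i * pM V p₁ (n - i)) + α₂ * (pM V p₂ i * pM V p₂ (n - i))) =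
      α₁ * (∑ i ∈ range (n + 1), ((2 * n).choose (2 * i) : ℝ) * (pM V p₁ i * pM V p₁ (n - i))) +
      α₂ * (∑ i ∈ range (n + 1), ((2 * n).choose (2 * i) : ℝ) * (pM V p₂ i * pM V p₂ (n - i))) := by
    rw [mul_sum, mul_sum, ← sum_add_distrib]
    exact sum_congr rfl fun i _ => by ring
  rw [e2] at this
  refine le_trans (le_of_eq ?_) (this.trans (le_of_eq ?_))
  · ring
  · ring

end Pool.Agent.MP0016c7.Rz
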