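import Mathlib
import Pool.Agent.Lib.MP_0016c7_nt.Theta
import Pool.Agent.Lib.MP_0016c7_nt.Rz.Defs
import Pool.Agent.Lib.MP_0016c7_nt.Rz.DefsC
import Pool.Agent.Lib.MP_0016c7_nt.Rz.DefsF
import Pool.Agent.Lib.MP_0016c7_nt.Rz.DefsE

set_option autoImplicit false

open Finset MeasureTheory Filter Topology
open scoped Real ContDiff

namespace Pool.Agent.MP0016c7.Rz

/-! ### the exponential sums -/

private lemma pv1_geom {z : ℂ} (hz : ‖z‖ = 1) (hz1 : z ≠ 1) (x : ℕ) :
    ‖∑ n ∈ range x, z ^ n‖ ≤ 2 / ‖z - 1‖ := by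
  rw [geom_sum_eq hz1, norm_div]
  gcongr
  calc ‖z ^ x - 1‖ ≤ ‖z ^ x‖ + ‖(1 : ℂ)‖ := norm_sub_le _ _
    _ = 2 := by rw [norm_pow, hz]; norm_num

private lemma pv1_sin {q a : ℕ} (h1 : 1 ≤ a) (h2 : a < q) :
    (2 * |Real.sin (π * a / q)|)⁻¹ ≤ q / 4 * ((a : ℝ)⁻¹ + ((q - a : ℕ) : ℝ)⁻¹) := by
  have hq : (0 : ℝ) < q := by exact_mod_cast (by omega : 0 < q)
  have ha : (0 : ℝ) < a := by exact_mod_cast h1
  have hqa : (0 : ℝ) < ((q - a : ℕ) : ℝ) := by exact_mod_cast (by omega : 0 < q - a)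
  have hcast : ((q - a : ℕ) : ℝ) = q - a := by rw [Nat.cast_sub h2.le]
  have hpi := Real.pi_pos
  have key : ∀ b : ℝ, 0 < b → 2 * b ≤ q → Real.sin (π * b / q) = |Real.sin (π * a / q)| →
      (2 * |Real.sin (π * a / q)|)⁻¹ ≤ q / 4 * b⁻¹ := by
    intro b hb hbq hs
    have h3 : 2 / π * (π * b / q) ≤ Real.sin (π * b / q) := by
      apply Real.mul_le_sin (by positivity)
      rw [div_le_div_iff₀ hq two_pos]
      nlinarith
    rw [hs] at h3
    have h4 : 2 / π * (π * b / q) = 2 * b / q := by field_simp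
    rw [h4] at h3
    have h5 : q / 4 * b⁻¹ = (2 * (2 * b / q))⁻¹ := by field_simp; norm_num
    rw [h5]
    apply inv_anti₀ (by positivity)
    linarith
  by_cases h : 2 * a ≤ q
  · have h3 := key a ha (by exact_mod_cast h) (by
      rw [abs_of_nonneg]
      apply Real.sin_nonneg_of_nonneg_of_le_pi (by positivity)
      rw [div_le_iff₀ hq]
      have : (a : ℝ) ≤ q := by exact_mod_cast h2.le
      nlinarith)
    have h4 : 0 ≤ q / 4 * ((q - a : ℕ) : ℝ)⁻¹ := by positivity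
    rw [mul_add]
    linarith
  · have h3 := key ((q - a : ℕ) : ℝ) hqa (by
      have : 2 * (q - a) ≤ q := by omega
      exact_mod_cast this) (by
      rw [hcast]
      have e : π * (q - a) / q = π - π * a / q := by field_simp
      rw [e, Real.sin_pi_sub, abs_of_nonneg]
      apply Real.sin_nonneg_of_nonneg_of_le_pi (by positivity)
      rw [div_le_iff₀ hq]
      have : (a : ℝ) ≤ q := by exact_mod_cast h2.le
      nlinarith)
    have h4 : 0 ≤ (q : ℝ) / 4 * (a : ℝ)⁻¹ := by positivity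
    rw [mul_add]
    linarith

private lemma pv1_exp {q : ℕ} [NeZero q] (j : ZMod q) (hj : j ≠ 0) (x : ℕ) :
    ‖∑ n ∈ range x, (ZMod.stdAddChar (j * (n : ZMod q)) : ℂ)‖ ≤
      q / 2 * ((j.val : ℝ)⁻¹ + ((q - j.val : ℕ) : ℝ)⁻¹) := by
  have hq : (0 : ℝ) < q := by exact_mod_cast (NeZero.pos q)
  have h1 : 1 ≤ j.val := Nat.one_le_iff_ne_zero.2 (by rwa [ne_eq, ZMod.val_eq_zero])
  have h2 : j.val < q := ZMod.val_lt j
  set z : ℂ := ZMod.stdAddChar j with hz
  have hzn : ‖z‖ = 1 := AddChar.norm_apply _ _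
  have hz2 : z - 1 = Complex.exp (Complex.I * ((2 * π * j.val / q : ℝ) : ℂ)) - 1 := by
    have h3 : (((j.val : ℕ) : ℤ) : ZMod q) = j := by
      rw [Int.cast_natCast, ZMod.natCast_zmod_val]
    rw [hz]
    conv_lhs => rw [← h3, ZMod.stdAddChar_coe]
    congr 2
    push_cast
    ring
  have hz3 : ‖z - 1‖ = 2 * |Real.sin (π * j.val / q)| := by
    rw [hz2, Complex.norm_exp_I_mul_ofReal_sub_one, norm_mul, Real.norm_eq_abs, Real.norm_eq_abs,
      abs_of_pos (two_pos : (0 : ℝ) < 2)]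
    congr 3
    ring
  have hsin : 0 < |Real.sin (π * j.val / q)| := by
    rw [abs_pos]
    have ha : (0 : ℝ) < j.val := by exact_mod_cast h1
    have hpi := Real.pi_pos
    apply (Real.sin_pos_of_pos_of_lt_pi (by positivity) _).ne'
    rw [div_lt_iff₀ hq]
    have : (j.val : ℝ) < q := by exact_mod_cast h2
    nlinarith
  have hz1 : z ≠ 1 := by
    intro h
    rw [h, sub_self, norm_zero] at hz3
    linarith
  have hsum : ∑ n ∈ range x, (ZMod.stdAddChar (j * (n : ZMod q)) : ℂ) =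
      ∑ n ∈ range x, z ^ n := by
    refine Finset.sum_congr rfl fun n _ => ?_
    rw [hz, ← AddChar.map_nsmul_eq_pow, nsmul_eq_mul, mul_comm]
  rw [hsum]
  refine (pv1_geom hzn hz1 x).trans ?_
  rw [hz3]
  have h5 := pv1_sin h1 h2
  have h6 : 2 / (2 * |Real.sin (π * j.val / q)|) = 2 * (2 * |Real.sin (π * j.val / q)|)⁻¹ :=
    div_eq_mul_inv _ _
  rw [h6]
  linarith

/-! ### the sum of the bounds -/

private lemma pv1_harm (q : ℕ) (hq : 1 ≤ q) :
    ∑ a ∈ (range q).filter (fun a => a ≠ 0), (q / 2 * ((a : ℝ)⁻¹ + ((q - a : ℕ) : ℝ)⁻¹)) ≤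
      q * (1 + Real.log q) := by
  obtain ⟨m, rfl⟩ : ∃ m, q = m + 1 := ⟨q - 1, by omega⟩
  rw [← Finset.mul_sum, Finset.sum_filter, Finset.sum_range_succ', Finset.sum_congr rfl
    (fun a _ => if_pos (Nat.succ_ne_zero a)), if_neg (by simp), add_zero, Finset.sum_add_distrib]
  have h1 : ∑ i ∈ range m, (((i + 1 : ℕ) : ℝ))⁻¹ = (harmonic m : ℝ) := by
    unfold harmonic
    push_cast
    rfl
  have h2 : ∑ i ∈ range m, (((m + 1 - (i + 1) : ℕ) : ℝ))⁻¹ = (harmonic m : ℝ) := by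
    rw [← h1, ← Finset.sum_range_reflect]
    refine Finset.sum_congr rfl fun i hi => ?_
    rw [mem_range] at hi
    congr 2
    omega
  rw [h1, h2]
  have h3 : (harmonic m : ℝ) ≤ 1 + Real.log m := harmonic_le_one_add_log m
  have h4 : Real.log m ≤ Real.log ((m + 1 : ℕ) : ℝ) := by
    rcases Nat.eq_zero_or_pos m with rfl | hm
    · simp
    · apply Real.log_le_log (by exact_mod_cast hm)
      push_cast
      linarith
  have h5 : (0 : ℝ) < ((m + 1 : ℕ) : ℝ) := by positivity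
  nlinarith

/-! ### primitive characters -/

private lemma pv1_gauss {q : ℕ} [NeZero q] {χ : DirichletCharacter ℂ q} (hχ : χ.IsPrimitive) :
    ‖gaussSum χ (ZMod.stdAddChar (N := q))‖ ^ 2 = q := by
  have hq : (q : ℂ) ≠ 0 := by exact_mod_cast (NeZero.ne q)
  set G := gaussSum χ (ZMod.stdAddChar (N := q)) with hG
  set G' := gaussSum χ⁻¹ (ZMod.stdAddChar (N := q)) with hG'
  -- `G' * χ (-1) = conj G`
  have h1 : star G = χ (-1) * G' := by
    rw [hG, star_gaussSum_eq]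
    have h2 : (ZMod.stdAddChar (N := q))⁻¹ = (ZMod.stdAddChar (N := q)).mulShift (-1) := by
      rw [AddChar.inv_mulShift]
    rw [h2]
    have h3 := gaussSum_mulShift_eq χ⁻¹ (ZMod.stdAddChar (N := q)) (-1)
    rw [inv_inv] at h3
    rw [hG']
    simpa using h3
  -- `G * G' = q * χ (-1)`
  have h2 : G * G' = q * χ (-1) := by
    have h3 := congrFun (ZMod.dft_dft (N := q) (χ : ZMod q → ℂ)) 1
    have h4 : ZMod.dft (χ : ZMod q → ℂ) = fun k => χ⁻¹ (-k) * G := by
      ext k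
      rw [hχ.fourierTransform_eq_inv_mul_gaussSum]
    rw [h4] at h3
    simp only [smul_eq_mul] at h3
    rw [← h3, ZMod.dft_apply]
    have h5 : ∀ j : ZMod q, (ZMod.stdAddChar (-(j * 1)) : ℂ) • (χ⁻¹ (-j) * G) =
        G * (χ⁻¹ (-j) * ZMod.stdAddChar (-j)) := by
      intro j
      rw [mul_one, smul_eq_mul]
      ring
    rw [Finset.sum_congr rfl fun j _ => h5 j, ← Finset.mul_sum, hG']
    congr 1
    unfold gaussSum
    exact (Equiv.sum_comp (Equiv.neg (ZMod q))
      (fun j => χ⁻¹ j * (ZMod.stdAddChar j : ℂ))).symm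
  have h3 : χ (-1) * χ (-1) = 1 := by
    rw [← map_mul]
    simp
  have h4 : G * star G = q := by
    rw [h1, ← mul_assoc, mul_comm G, mul_assoc, h2, mul_comm, mul_assoc, h3, mul_one]
  have h5 : ((‖G‖ ^ 2 : ℝ) : ℂ) = ((q : ℝ) : ℂ) := by
    push_cast
    rw [← Complex.mul_conj']
    exact h4
  exact_mod_cast h5

private lemma pv1_prim {q : ℕ} [NeZero q] {χ : DirichletCharacter ℂ q} (hχ : χ.IsPrimitive)
    (hq1 : q ≠ 1) (x : ℕ) : ‖∑ n ∈ range x, χ n‖ ≤ √(q : ℝ) * (1 + Real.log q) := by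
  have hq : (0 : ℝ) < q := by exact_mod_cast (NeZero.pos q)
  have hq' : (q : ℂ) ≠ 0 := by exact_mod_cast (NeZero.ne q)
  have hG : ‖gaussSum χ (ZMod.stdAddChar (N := q))‖ = √(q : ℝ) := by
    rw [← pv1_gauss hχ, Real.sqrt_sq (norm_nonneg _)]
  set G := gaussSum χ (ZMod.stdAddChar (N := q)) with hGdef
  -- Fourier inversion
  have hinv : ∀ n : ZMod q, (q : ℂ) * χ n =
      G * ∑ j : ZMod q, χ⁻¹ (-j) * ZMod.stdAddChar (j * n) := by
    intro n
    have h3 := congrFun (ZMod.dft_dft (N := q) (χ : ZMod q → ℂ)) (-n)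
    have h4 : ZMod.dft (χ : ZMod q → ℂ) = fun k => χ⁻¹ (-k) * G := by
      ext k
      rw [hχ.fourierTransform_eq_inv_mul_gaussSum]
    rw [h4] at h3
    simp only [smul_eq_mul, neg_neg] at h3
    rw [← h3, ZMod.dft_apply, Finset.mul_sum]
    refine Finset.sum_congr rfl fun j _ => ?_
    rw [smul_eq_mul, mul_neg, neg_neg]
    ring
  have hsum : (q : ℂ) * ∑ n ∈ range x, χ n =
      G * ∑ j : ZMod q, χ⁻¹ (-j) * ∑ n ∈ range x, (ZMod.stdAddChar (j * (n : ZMod q)) : ℂ) := by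
    rw [Finset.mul_sum, Finset.sum_congr rfl (fun (n : ℕ) _ => hinv (n : ZMod q)),
      ← Finset.mul_sum, Finset.sum_comm]
    congr 1
    refine Finset.sum_congr rfl fun j _ => ?_
    rw [Finset.mul_sum]
  have hb : ‖∑ j : ZMod q, χ⁻¹ (-j) * ∑ n ∈ range x, (ZMod.stdAddChar (j * (n : ZMod q)) : ℂ)‖ ≤
      q * (1 + Real.log q) := by
    refine (norm_sum_le _ _).trans ?_
    have h1 : ∀ j : ZMod q, ‖χ⁻¹ (-j) * ∑ n ∈ range x, (ZMod.stdAddChar (j * (n : ZMod q)) : ℂ)‖ ≤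
        if j.val ≠ 0 then q / 2 * ((j.val : ℝ)⁻¹ + ((q - j.val : ℕ) : ℝ)⁻¹) else 0 := by
      intro j
      by_cases hj : j = 0
      · have : Fact (1 < q) := ⟨by have := NeZero.pos q; omega⟩
        have h2 : χ⁻¹ (-j) = 0 := by
          rw [hj, neg_zero]
          exact MulChar.map_nonunit _ (by simp)
        rw [h2, zero_mul, norm_zero, if_neg]
        simp [hj]
      · rw [if_pos (by rwa [ne_eq, ZMod.val_eq_zero]), norm_mul]
        calc ‖χ⁻¹ (-j)‖ * _ ≤ 1 * _ :=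
              mul_le_mul_of_nonneg_right (DirichletCharacter.norm_le_one _ _) (norm_nonneg _)
          _ ≤ _ := by
            rw [one_mul]
            exact pv1_exp j hj x
    refine (Finset.sum_le_sum fun j _ => h1 j).trans ?_
    rw [← Finset.sum_filter]
    refine le_trans (le_of_eq ?_) (pv1_harm q (NeZero.pos q))
    refine Finset.sum_nbij' ZMod.val (fun a => (a : ZMod q)) ?_ ?_ ?_ ?_ ?_
    · intro j hj
      rw [mem_filter] at hj ⊢
      exact ⟨mem_range.2 (ZMod.val_lt j), hj.2⟩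
    · intro a ha
      rw [mem_filter, mem_range] at ha
      rw [mem_filter]
      refine ⟨mem_univ _, ?_⟩
      rw [ZMod.val_natCast, Nat.mod_eq_of_lt ha.1]
      exact ha.2
    · intro j _
      exact ZMod.natCast_zmod_val j
    · intro a ha
      rw [mem_filter, mem_range] at ha
      exact ZMod.val_natCast_of_lt ha.1
    · intro j _
      rfl
  have h1 : (q : ℝ) * ‖∑ n ∈ range x, χ n‖ ≤ √(q : ℝ) * (q * (1 + Real.log q)) := by
    have h2 := congrArg norm hsum
    rw [norm_mul, norm_mul, Complex.norm_natCast, hG] at h2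
    rw [h2]
    exact mul_le_mul_of_nonneg_left hb (Real.sqrt_nonneg _)
  have h3 : √(q : ℝ) * (q * (1 + Real.log q)) = q * (√(q : ℝ) * (1 + Real.log q)) := by ring
  rw [h3] at h1
  exact le_of_mul_le_mul_left h1 hq

/-! ### the general case -/

private lemma pv1_mob (m : ℕ) : ∑ d ∈ m.divisors, ((ArithmeticFunction.moebius d : ℤ) : ℂ) =
    if m = 1 then 1 else 0 := by
  have h1 := congrArg (fun f : ArithmeticFunction ℤ => f m)
    ArithmeticFunction.moebius_mul_coe_zeta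
  simp only [ArithmeticFunction.coe_mul_zeta_apply, ArithmeticFunction.one_apply] at h1
  have h2 : ((∑ d ∈ m.divisors, ArithmeticFunction.moebius d : ℤ) : ℂ) =
      ((if m = 1 then 1 else 0 : ℤ) : ℂ) := by rw [h1]
  push_cast at h2
  exact h2

theorem polya_vinogradov {q : ℕ} [NeZero q] (χ : DirichletCharacter ℂ q) (hχ : χ ≠ 1) (x : ℕ) :
    ‖∑ n ∈ range x, χ n‖ ≤ (q.divisors.card : ℝ) * (√(q : ℝ) * (1 + Real.log q)) := by
  have hq0 : q ≠ 0 := NeZero.ne q
  set r := χ.conductor with hr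
  have hrq : r ∣ q := χ.conductor_dvd_level
  have hr0 : r ≠ 0 := fun h => hq0 (by rw [h] at hrq; exact Nat.eq_zero_of_zero_dvd hrq)
  have : NeZero r := ⟨hr0⟩
  have hr1 : r ≠ 1 := fun h => hχ (χ.eq_one_iff_conductor_eq_one.2 h)
  set ψ := χ.primitiveCharacter with hψ
  have hψp : ψ.IsPrimitive := χ.primitiveCharacter_isPrimitive
  -- values
  have hval : ∀ n : ℕ, χ n = ∑ d ∈ q.divisors,
      if d ∣ n then ((ArithmeticFunction.moebius d : ℤ) : ℂ) * ψ n else 0 := by
    intro n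
    have h1 : (∑ d ∈ q.divisors, if d ∣ n then ((ArithmeticFunction.moebius d : ℤ) : ℂ) * ψ n
        else 0) = (∑ d ∈ (Nat.gcd n q).divisors, ((ArithmeticFunction.moebius d : ℤ) : ℂ)) * ψ n := by
      rw [← Finset.sum_filter, ← Finset.sum_mul]
      congr 1
      refine Finset.sum_congr ?_ fun _ _ => rfl
      ext d
      rw [mem_filter, Nat.mem_divisors, Nat.mem_divisors, Nat.dvd_gcd_iff]
      constructor
      · rintro ⟨⟨h1, -⟩, h2⟩
        exact ⟨⟨h2, h1⟩, Nat.gcd_ne_zero_right hq0⟩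
      · rintro ⟨⟨h1, h2⟩, -⟩
        exact ⟨⟨h2, hq0⟩, h1⟩
    rw [h1, pv1_mob]
    by_cases hn : Nat.gcd n q = 1
    · rw [if_pos hn, one_mul]
      have h2 : IsCoprime (n : ℤ) (q : ℤ) := Nat.isCoprime_iff_coprime.2 hn
      have h3 := χ.primitiveCharacter_apply_of_isCoprime h2
      push_cast at h3
      exact h3.symm
    · rw [if_neg hn, zero_mul]
      apply MulChar.map_nonunit
      rw [ZMod.isUnit_iff_coprime]
      exact hn
  have hin : ∀ d ∈ q.divisors, ‖∑ n ∈ range x,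
      (if d ∣ n then ((ArithmeticFunction.moebius d : ℤ) : ℂ) * ψ n else 0)‖ ≤
      √(q : ℝ) * (1 + Real.log q) := by
    intro d hd
    have hd0 : 0 < d := Nat.pos_of_mem_divisors hd
    have h1 : ∑ n ∈ range x, (if d ∣ n then ((ArithmeticFunction.moebius d : ℤ) : ℂ) * ψ n else 0) =
        ((ArithmeticFunction.moebius d : ℤ) : ℂ) * ψ d * ∑ m ∈ range ((x + d - 1) / d), ψ m := by
      rw [← Finset.sum_filter, Finset.mul_sum]
      symm
      refine Finset.sum_nbij (fun m => d * m) ?_ ?_ ?_ ?_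
      · intro m hm
        rw [mem_range, Nat.lt_div_iff_mul_lt hd0] at hm
        rw [mem_filter, mem_range]
        refine ⟨?_, dvd_mul_right _ _⟩
        have : m * d = d * m := mul_comm _ _
        omega
      · intro m _ m' _ h
        exact Nat.eq_of_mul_eq_mul_left hd0 h
      · intro n hn
        rw [mem_coe, mem_filter, mem_range] at hn
        obtain ⟨hn1, m, rfl⟩ := hn
        refine ⟨m, ?_, rfl⟩
        rw [mem_coe, mem_range, Nat.lt_div_iff_mul_lt hd0]
        have : m * d = d * m := mul_comm _ _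
        omega
      · intro m _
        push_cast
        rw [map_mul]
        ring
    rw [h1, norm_mul, norm_mul]
    have h2 : ‖((ArithmeticFunction.moebius d : ℤ) : ℂ)‖ ≤ 1 := by
      rw [Complex.norm_intCast]
      exact_mod_cast ArithmeticFunction.abs_moebius_le_one
    have h3 : ‖ψ d‖ ≤ 1 := DirichletCharacter.norm_le_one _ _
    have h4 := pv1_prim hψp hr1 ((x + d - 1) / d)
    have h5 : √(r : ℝ) * (1 + Real.log r) ≤ √(q : ℝ) * (1 + Real.log q) := by
      have hle : (r : ℝ) ≤ q := by exact_mod_cast Nat.le_of_dvd (Nat.pos_of_ne_zero hq0) hrq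
      have hr1' : (1 : ℝ) ≤ r := by exact_mod_cast Nat.one_le_iff_ne_zero.2 hr0
      have h6 : 0 ≤ Real.log r := Real.log_nonneg hr1'
      have h7 : Real.log r ≤ Real.log q := Real.log_le_log (by linarith) hle
      exact mul_le_mul (Real.sqrt_le_sqrt hle) (by linarith) (by linarith) (Real.sqrt_nonneg _)
    calc ‖((ArithmeticFunction.moebius d : ℤ) : ℂ)‖ * ‖ψ d‖ * ‖∑ m ∈ range ((x + d - 1) / d), ψ m‖
        ≤ 1 * 1 * (√(r : ℝ) * (1 + Real.log r)) :=
          mul_le_mul (mul_le_mul h2 h3 (norm_nonneg _) zero_le_one) h4 (norm_nonneg _)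
            (by norm_num)
      _ ≤ √(q : ℝ) * (1 + Real.log q) := by rw [one_mul, one_mul]; exact h5
  rw [Finset.sum_congr rfl fun n _ => hval n, Finset.sum_comm]
  refine (norm_sum_le _ _).trans ?_
  refine (Finset.sum_le_sum hin).trans (le_of_eq ?_)
  rw [Finset.sum_const, nsmul_eq_mul]

end Pool.Agent.MP0016c7.Rz
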