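import Mathlib
import Pool.Agent.Lib.MP_0016c7_nt.Rz.Defs

set_option autoImplicit false

/-!
Generic dyadic summation.
-/

open Finset MeasureTheory Filter Topology
open scoped Real ContDiff

namespace Pool.Agent.MP0016c7.Rz.Fb

open Pool.Agent.MP0016c7.Rz


private def SA (Q : ℕ → Prop) (x : ℝ) : Set ℕ := {d : ℕ | (d : ℝ) ≤ x ∧ Q d}

private def SD (Q : ℕ → Prop) (x : ℝ) : Set ℕ := {d : ℕ | x < d ∧ (d : ℝ) ≤ 2 * x ∧ Q d}

private lemma SA_fin (Q : ℕ → Prop) (x : ℝ) : (SA Q x).Finite := by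
  refine (Set.finite_Iic ⌊x⌋₊).subset ?_
  intro d hd
  exact Nat.le_floor hd.1

private lemma SD_fin (Q : ℕ → Prop) (x : ℝ) : (SD Q x).Finite := by
  refine (Set.finite_Iic ⌊2 * x⌋₊).subset ?_
  intro d hd
  exact Nat.le_floor hd.2.1

private lemma SA_step (Q : ℕ → Prop) (x : ℝ) (hx : 0 ≤ x) :
    (SA Q (2 * x)).ncard = (SA Q x).ncard + (SD Q x).ncard := by
  rw [← Set.ncard_union_eq ?_ (SA_fin Q x) (SD_fin Q x)]
  · congr 1
    ext d
    simp only [SA, SD, Set.mem_union, Set.mem_ofPred_eq]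
    constructor
    · rintro ⟨h1, h2⟩
      rcases le_or_gt (d : ℝ) x with h | h
      · exact Or.inl ⟨h, h2⟩
      · exact Or.inr ⟨h, h1, h2⟩
    · rintro (⟨h1, h2⟩ | ⟨h1, h2, h3⟩)
      · exact ⟨by linarith, h2⟩
      · exact ⟨h2, h3⟩
  · rw [Set.disjoint_left]
    intro d h1 h2
    exact absurd h1.1 (not_le.mpr h2.1)

private lemma SA_le (Q : ℕ → Prop) (x : ℝ) (hx : 0 ≤ x) : ((SA Q x).ncard : ℝ) ≤ x + 1 := by
  have h1 : (SA Q x) ⊆ ((Finset.range (⌊x⌋₊ + 1) : Finset ℕ) : Set ℕ) := by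
    intro d hd
    simp only [Finset.coe_range, Set.mem_Iio]
    exact Nat.lt_succ_of_le (Nat.le_floor hd.1)
  have h2 := Set.ncard_le_ncard h1 (Finset.finite_toSet _)
  rw [Set.ncard_coe_finset, Finset.card_range] at h2
  have h3 : ((SA Q x).ncard : ℝ) ≤ (⌊x⌋₊ : ℝ) + 1 := by exact_mod_cast h2
  linarith [Nat.floor_le hx]

private lemma main_ind (Q R : ℕ → Prop) (E C X₀ : ℝ) (hX₀ : 1 ≤ X₀) (hC : 2 * X₀ + 1 ≤ C)
    (hE : 0 ≤ E) (h : ∀ x : ℝ, X₀ ≤ x → ((SD R x).ncard : ℝ) ≤ E * ((SD Q x).ncard : ℝ)) (k : ℕ) :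
    ∀ x : ℝ, 0 ≤ x → x < 2 ^ k * (2 * X₀) →
      ((SA R x).ncard : ℝ) ≤ E * ((SA Q x).ncard : ℝ) + C := by
  induction k with
  | zero =>
    intro x hx0 hx
    have h1 := SA_le R x hx0
    have h2 : 0 ≤ E * ((SA Q x).ncard : ℝ) := by positivity
    norm_num at hx
    linarith
  | succ k ih =>
    intro x hx0 hx
    rcases lt_or_ge x (2 * X₀) with h1 | h1
    · have h1' := SA_le R x hx0
      have h2 : 0 ≤ E * ((SA Q x).ncard : ℝ) := by positivity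
      linarith
    · have h2 := ih (x / 2) (by linarith) (by rw [pow_succ] at hx; linarith)
      have h3 := h (x / 2) (by linarith)
      have h4 := SA_step R (x / 2) (by linarith)
      have h5 := SA_step Q (x / 2) (by linarith)
      rw [mul_div_cancel₀ x (two_ne_zero)] at h4 h5
      rw [h4, h5]
      push_cast
      linarith


/-- the generic summation over dyadic intervals -/
theorem total_gen (R NZ : ℕ → Prop) {c E E' : ℝ} (hc : 0 < c) (hE0 : 0 ≤ E) (hE : E < E')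
    (h : ∃ X₀ : ℝ, ∀ X : ℝ, X₀ ≤ X → c * X ≤ (Nat.card {d : ℕ | X < d ∧ (d : ℝ) ≤ 2 * X ∧ R d ∧ Squarefree d} : ℝ) ∧
      (Nat.card {d : ℕ | X < d ∧ (d : ℝ) ≤ 2 * X ∧ R d ∧ Squarefree d ∧ ¬ NZ d} : ℝ) ≤
      E * (Nat.card {d : ℕ | X < d ∧ (d : ℝ) ≤ 2 * X ∧ R d ∧ Squarefree d} : ℝ)) :
    ∃ X₀ : ℕ, ∀ X : ℕ, X₀ ≤ X →
      (Nat.card {d : ℕ | d ≤ X ∧ R d ∧ Squarefree d ∧ ¬ NZ d} : ℝ) ≤
      E' * (Nat.card {d : ℕ | d ≤ X ∧ R d ∧ Squarefree d} : ℝ) := by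
  obtain ⟨X₁, h⟩ := h
  set X₀ : ℝ := max X₁ 1 with hX₀
  set Q : ℕ → Prop := fun d => R d ∧ Squarefree d with hQ
  set T : ℕ → Prop := fun d => R d ∧ Squarefree d ∧ ¬ NZ d with hT
  have hd : ∀ x : ℝ, X₀ ≤ x → c * x ≤ ((SD Q x).ncard : ℝ) ∧
      ((SD T x).ncard : ℝ) ≤ E * ((SD Q x).ncard : ℝ) := by
    intro x hx
    have := h x ((le_max_left _ _).trans hx)
    simpa only [Nat.card_coe_set_eq, SD, hQ, hT] using this
  set C : ℝ := 2 * X₀ + 1 with hC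
  have hX1 : 1 ≤ X₀ := le_max_right _ _
  refine ⟨⌈2 * X₀ + 2 * C / (c * (E' - E))⌉₊, fun X hX => ?_⟩
  have hXr : 2 * X₀ + 2 * C / (c * (E' - E)) ≤ (X : ℝ) := (Nat.le_ceil _).trans (by exact_mod_cast hX)
  have hEE : 0 < E' - E := by linarith
  have hC0 : 0 < C := by linarith
  have hpos : 0 < 2 * C / (c * (E' - E)) := by positivity
  have e1 : (Nat.card {d : ℕ | d ≤ X ∧ R d ∧ Squarefree d} : ℝ) = ((SA Q X).ncard : ℝ) := by
    rw [Nat.card_coe_set_eq]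
    congr 2
    ext d
    simp [SA, hQ]
  have e2 : (Nat.card {d : ℕ | d ≤ X ∧ R d ∧ Squarefree d ∧ ¬ NZ d} : ℝ) = ((SA T X).ncard : ℝ) := by
    rw [Nat.card_coe_set_eq]
    congr 2
    ext d
    simp [SA, hT]
  have h1 : ∃ k : ℕ, (X : ℝ) < 2 ^ k * (2 * X₀) := by
    obtain ⟨k, hk⟩ := pow_unbounded_of_one_lt (X : ℝ) (one_lt_two)
    refine ⟨k, hk.trans_le ?_⟩
    have : (0 : ℝ) < 2 ^ k := by positivity
    nlinarith
  obtain ⟨k, hk⟩ := h1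
  have h2 := main_ind Q T E C X₀ hX1 le_rfl hE0 (fun x hx => (hd x hx).2) k X (by positivity) hk
  have h3 := (hd ((X : ℝ) / 2) (by linarith)).1
  have h4 := SA_step Q ((X : ℝ) / 2) (by positivity)
  rw [mul_div_cancel₀ (X : ℝ) (two_ne_zero)] at h4
  have h5 : c * (X : ℝ) / 2 ≤ ((SA Q X).ncard : ℝ) := by
    rw [h4]
    push_cast
    have : (0 : ℝ) ≤ ((SA Q ((X : ℝ) / 2)).ncard : ℝ) := by positivity
    linarith
  have h6 : C ≤ (E' - E) * ((SA Q X).ncard : ℝ) := by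
    have h7 : 2 * C / (c * (E' - E)) ≤ X := by linarith
    rw [div_le_iff₀ (by positivity)] at h7
    nlinarith
  rw [e1, e2]
  linarith

end Pool.Agent.MP0016c7.Rz.Fb
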