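import Mathlib
import Pool.Agent.Lib.MP_0016c7_nt.Theta
import Pool.Agent.Lib.MP_0016c7_nt.Rz.Defs
import Pool.Agent.Lib.MP_0016c7_nt.Rz.DefsC
import Pool.Agent.Lib.MP_0016c7_nt.Rz.DefsF
import Pool.Agent.Lib.MP_0016c7_nt.Rz.DefsE

set_option autoImplicit false

open Finset MeasureTheory Filter Topology
open scoped Real ContDiff

namespace Pool.Agent.MP0016c7.Rz

/-- inclusion and exclusion over the squares of the primes of `S` -/
private theorem incl_excl (S : Finset ℕ) (hS : ∀ p ∈ S, p.Prime) (d : ℕ) :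
    (if ∀ p ∈ S, ¬ p ^ 2 ∣ d then (1 : ℝ) else 0) =
      ∑ T ∈ S.powerset, (-1 : ℝ) ^ T.card * (if (∏ p ∈ T, p) ^ 2 ∣ d then 1 else 0) := by
  classical
  have h1 : (if ∀ p ∈ S, ¬ p ^ 2 ∣ d then (1 : ℝ) else 0) =
      ∏ p ∈ S, (-(if p ^ 2 ∣ d then (1 : ℝ) else 0) + 1) := by
    by_cases h : ∀ p ∈ S, ¬ p ^ 2 ∣ d
    · rw [if_pos h]
      symm
      apply prod_eq_one
      intro p hp
      rw [if_neg (h p hp)]
      norm_num
    · rw [if_neg h]
      push Not at h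
      obtain ⟨p, hp, hpd⟩ := h
      symm
      apply prod_eq_zero hp
      rw [if_pos hpd]
      norm_num
  rw [h1, prod_add]
  apply sum_congr rfl
  intro T hT
  rw [prod_const_one, mul_one]
  have hTS := mem_powerset.mp hT
  have h2 : (∏ p ∈ T, p) ^ 2 ∣ d ↔ ∀ p ∈ T, p ^ 2 ∣ d := by
    rw [← prod_pow]
    constructor
    · intro h p hp
      exact (dvd_prod_of_mem (fun p => p ^ 2) hp).trans h
    · intro h
      apply Finset.prod_dvd_of_isRelPrime _ h
      intro p hp q hq hpq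
      exact Nat.coprime_iff_isRelPrime.mp (Nat.Coprime.pow 2 2
        ((Nat.coprime_primes (hS p (hTS hp)) (hS q (hTS hq))).mpr hpq))
  by_cases h : ∀ p ∈ T, p ^ 2 ∣ d
  · rw [if_pos (h2.mpr h), mul_one]
    have : ∀ p ∈ T, -(if p ^ 2 ∣ d then (1 : ℝ) else 0) = -1 := by
      intro p hp
      rw [if_pos (h p hp)]
    rw [prod_congr rfl this, prod_const]
  · rw [if_neg (fun h' => h (h2.mp h')), mul_zero]
    push Not at h
    obtain ⟨p, hp, hpd⟩ := h
    apply prod_eq_zero hp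
    rw [if_neg hpd]
    norm_num

/-- the sums are finite -/
private theorem fin_supp {F : ℝ → ℝ} {a b : ℝ} (hF : Bump F a b) {X : ℝ} (hX : 0 < X) (k : ℝ)
    (hk : 0 < k) {d : ℕ} (hd : ⌈b * X / k⌉₊ ≤ d) : F (d * k / X) = 0 := by
  by_contra h
  have h1 := (hF.supp _ h).2
  have h2 : b * X / k ≤ d := (Nat.le_ceil _).trans (by exact_mod_cast hd)
  rw [div_le_iff₀ hk] at h2
  rw [div_lt_iff₀ hX] at h1
  linarith

theorem sieve_avg (S : Finset ℕ) (hS : ∀ p ∈ S, p.Prime ∧ Odd p) {F : ℝ → ℝ} {a b : ℝ}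
    (ha : 0 < a) (hF : Bump F a b) (A : ℝ → ℕ → ℝ) (M : ℝ)
    (h : ∀ r : ℕ, Odd r → Squarefree r → Tendsto (fun X : ℝ => 2 * r ^ 2 / X *
      ∑' d : ℕ, (if Odd d then F (d * r ^ 2 / X) * A X (r ^ 2 * d) else 0)) atTop (𝓝 M)) :
    Tendsto (fun X : ℝ => 2 / X *
      ∑' d : ℕ, (if Odd d ∧ ∀ p ∈ S, ¬ p ^ 2 ∣ d then F (d / X) * A X d else 0)) atTop
      (𝓝 (M * ∏ p ∈ S, (1 - 1 / (p : ℝ) ^ 2))) := by
  classical
  have hodd : ∀ T ∈ S.powerset, Odd (∏ p ∈ T, p) := by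
    intro T hT
    have hTS := mem_powerset.mp hT
    exact Finset.prod_induction (fun p => p) Odd (fun a b ha hb => ha.mul hb) odd_one
      (fun p hp => (hS p (hTS hp)).2)
  have hsq : ∀ T ∈ S.powerset, Squarefree (∏ p ∈ T, p) := by
    intro T hT
    have hTS := mem_powerset.mp hT
    apply Finset.squarefree_prod_of_pairwise_isCoprime
    · intro p hp q hq hpq
      have := (Nat.coprime_primes (hS p (hTS hp)).1 (hS q (hTS hq)).1).mpr hpq
      simpa [Function.onFun, Nat.coprime_iff_isRelPrime] using this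
    · intro p hp
      exact (hS p (hTS hp)).1.prime.squarefree
  -- rewrite
  have main : ∀ X : ℝ, 0 < X → 2 / X *
      ∑' d : ℕ, (if Odd d ∧ ∀ p ∈ S, ¬ p ^ 2 ∣ d then F (d / X) * A X d else 0) =
      ∑ T ∈ S.powerset, (-1 : ℝ) ^ T.card / ((∏ p ∈ T, p : ℕ) : ℝ) ^ 2 *
        (2 * ((∏ p ∈ T, p : ℕ) : ℝ) ^ 2 / X *
      ∑' d : ℕ, (if Odd d then F (d * ((∏ p ∈ T, p : ℕ) : ℝ) ^ 2 / X) *
        A X ((∏ p ∈ T, p) ^ 2 * d) else 0)) := by
    intro X hX
    have e1 : ∀ d : ℕ, (if Odd d ∧ ∀ p ∈ S, ¬ p ^ 2 ∣ d then F (d / X) * A X d else 0) =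
        ∑ T ∈ S.powerset, (-1 : ℝ) ^ T.card *
          (if Odd d ∧ (∏ p ∈ T, p) ^ 2 ∣ d then F (d / X) * A X d else 0) := by
      intro d
      by_cases hd : Odd d
      · have := incl_excl S (fun p hp => (hS p hp).1) d
        simp only [hd, true_and]
        calc (if ∀ p ∈ S, ¬ p ^ 2 ∣ d then F (d / X) * A X d else 0) =
            (if ∀ p ∈ S, ¬ p ^ 2 ∣ d then (1 : ℝ) else 0) * (F (d / X) * A X d) := by
              rw [ite_mul, one_mul, zero_mul]
          _ = _ := by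
              rw [this, sum_mul]
              apply sum_congr rfl
              intro T _
              rw [mul_assoc, ite_mul, one_mul, zero_mul]
      · simp [hd]
    have hz : ∀ d : ℕ, ⌈b * X⌉₊ ≤ d → F (d / X) = 0 := by
      intro d hd
      have := fin_supp hF hX 1 one_pos (d := d) (by simpa using hd)
      simpa using this
    have e2 : ∑' d : ℕ, (if Odd d ∧ ∀ p ∈ S, ¬ p ^ 2 ∣ d then F (d / X) * A X d else 0) =
        ∑ T ∈ S.powerset, (-1 : ℝ) ^ T.card *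
          ∑' d : ℕ, (if Odd d ∧ (∏ p ∈ T, p) ^ 2 ∣ d then F (d / X) * A X d else 0) := by
      rw [tsum_congr e1, Summable.tsum_finsetSum]
      · apply sum_congr rfl
        intro T _
        rw [tsum_mul_left]
      · intro T _
        apply summable_of_ne_finset_zero (s := range ⌈b * X⌉₊)
        intro d hd
        rw [mem_range, not_lt] at hd
        rw [hz d hd]
        simp
    rw [e2, mul_sum]
    apply sum_congr rfl
    intro T hT
    set r : ℕ := ∏ p ∈ T, p with hr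
    have hro : Odd r := hodd T hT
    have hr0 : 0 < r := hro.pos
    have hrR : (0 : ℝ) < r := by exact_mod_cast hr0
    have e3 : ∑' d : ℕ, (if Odd d ∧ r ^ 2 ∣ d then F (d / X) * A X d else 0) =
        ∑' d : ℕ, (if Odd d then F (d * (r : ℝ) ^ 2 / X) * A X (r ^ 2 * d) else 0) := by
      have hinj : Function.Injective fun d : ℕ => r ^ 2 * d := fun x y hxy => by
        exact Nat.eq_of_mul_eq_mul_left (by positivity) hxy
      have hsupp : Function.support (fun d : ℕ => (if Odd d ∧ r ^ 2 ∣ d then F (d / X) * A X d else 0)) ⊆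
          Set.range fun d : ℕ => r ^ 2 * d := by
        intro d hd
        by_contra hn
        apply hd
        have : ¬ r ^ 2 ∣ d := fun ⟨k, hk⟩ => hn ⟨k, hk.symm⟩
        simp [this]
      rw [← hinj.tsum_eq hsupp]
      apply tsum_congr
      intro d
      have h5 : Odd (r ^ 2 * d) ↔ Odd d := by
        rw [Nat.odd_mul]
        exact ⟨fun h => h.2, fun h => ⟨hro.pow, h⟩⟩
      by_cases hd : Odd d
      · rw [if_pos ⟨h5.mpr hd, dvd_mul_right _ _⟩, if_pos hd]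
        congr 2
        push_cast
        ring
      · rw [if_neg (fun h => hd (h5.mp h.1)), if_neg hd]
    rw [e3]
    generalize ∑' d : ℕ, (if Odd d then F (d * (r : ℝ) ^ 2 / X) * A X (r ^ 2 * d) else 0) = σ
    field_simp
  have hlim : Tendsto (fun X : ℝ => ∑ T ∈ S.powerset, (-1 : ℝ) ^ T.card / ((∏ p ∈ T, p : ℕ) : ℝ) ^ 2 *
        (2 * ((∏ p ∈ T, p : ℕ) : ℝ) ^ 2 / X *
      ∑' d : ℕ, (if Odd d then F (d * ((∏ p ∈ T, p : ℕ) : ℝ) ^ 2 / X) *
        A X ((∏ p ∈ T, p) ^ 2 * d) else 0))) atTop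
      (𝓝 (∑ T ∈ S.powerset, (-1 : ℝ) ^ T.card / ((∏ p ∈ T, p : ℕ) : ℝ) ^ 2 * M)) := by
    apply tendsto_finsetSum
    intro T hT
    exact (h _ (hodd T hT) (hsq T hT)).const_mul _
  have hval : ∑ T ∈ S.powerset, (-1 : ℝ) ^ T.card / ((∏ p ∈ T, p : ℕ) : ℝ) ^ 2 * M =
      M * ∏ p ∈ S, (1 - 1 / (p : ℝ) ^ 2) := by
    have h1 : ∏ p ∈ S, (1 - 1 / (p : ℝ) ^ 2) = ∏ p ∈ S, (-(1 / (p : ℝ) ^ 2) + 1) :=
      prod_congr rfl fun p _ => by ring
    rw [h1, prod_add, mul_sum]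
    apply sum_congr rfl
    intro T _
    rw [prod_const_one, mul_one, mul_comm]
    congr 1
    have h2 : ∀ p ∈ T, -(1 / (p : ℝ) ^ 2) = (-1) * (1 / (p : ℝ) ^ 2) := fun p _ => by ring
    rw [prod_congr rfl h2, prod_mul_distrib, prod_const, div_eq_mul_one_div]
    congr 1
    push_cast
    rw [← prod_pow, one_div, ← prod_inv_distrib]
    exact prod_congr rfl fun p _ => by rw [one_div]
  rw [← hval]
  refine hlim.congr' ?_
  filter_upwards [eventually_gt_atTop 0] with X hX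
  exact (main X hX).symm

end Pool.Agent.MP0016c7.Rz
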