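import Mathlib
import Pool.Agent.Lib.MP_0016c7_nt.Theta
import Pool.Agent.Lib.MP_0016c7_nt.Rz.Defs
import Pool.Agent.Lib.MP_0016c7_nt.Rz.DefsC
import Pool.Agent.Lib.MP_0016c7_nt.Rz.DefsF
import Pool.Agent.Lib.MP_0016c7_nt.Rz.DefsE

set_option autoImplicit false

open Finset MeasureTheory Filter Topology
open scoped Real ContDiff

namespace Pool.Agent.MP0016c7.Rz

theorem sqf_lower (z : ℕ) (hz : 2 ≤ z) (X : ℝ) (hX : 1 ≤ X) :
    (((Icc 1 ⌊2 * X⌋₊).filter (fun d : ℕ => X < d ∧ Odd d ∧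
      ∀ p ∈ (range (z + 1)).filter (fun p => p.Prime ∧ Odd p), ¬ p ^ 2 ∣ d)).card : ℝ) -
      2 * X / z - 2 * √X ≤
    (((Icc 1 ⌊2 * X⌋₊).filter (fun d : ℕ => X < d ∧ Odd d ∧ Squarefree d)).card : ℝ) := by
  classical
  set N := ⌊2 * X⌋₊ with hN
  set A := (Icc 1 N).filter (fun d : ℕ => X < d ∧ Odd d ∧
      ∀ p ∈ (range (z + 1)).filter (fun p => p.Prime ∧ Odd p), ¬ p ^ 2 ∣ d) with hA
  set B := (Icc 1 N).filter (fun d : ℕ => X < d ∧ Odd d ∧ Squarefree d) with hB
  have hNX : (N : ℝ) ≤ 2 * X := Nat.floor_le (by linarith)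
  have hsub : A ⊆ B ∪ (Ioc z (max z N)).biUnion (fun n => (Ioc 0 N).filter (fun d => n ^ 2 ∣ d)) := by
    intro d hd
    rw [hA, mem_filter, mem_Icc] at hd
    obtain ⟨⟨hd1, hd2⟩, hX', hodd, hp⟩ := hd
    by_cases hsq : Squarefree d
    · apply mem_union_left
      rw [hB, mem_filter, mem_Icc]
      exact ⟨⟨hd1, hd2⟩, hX', hodd, hsq⟩
    · apply mem_union_right
      rw [Nat.squarefree_iff_prime_squarefree] at hsq
      push Not at hsq
      obtain ⟨p, hpp, hpd⟩ := hsq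
      rw [← sq] at hpd
      have hpo : Odd p := by
        rcases hpp.eq_two_or_odd' with h | h
        · exfalso
          rw [h] at hpd
          have h2 : 2 ∣ d := (dvd_pow_self 2 two_ne_zero).trans hpd
          exact (Nat.not_even_iff_odd.2 hodd) (even_iff_two_dvd.2 h2)
        · exact h
      have hzp : z < p := by
        by_contra hle
        exact hp p (by rw [mem_filter, mem_range]; exact ⟨by omega, hpp, hpo⟩) hpd
      rw [mem_biUnion]
      refine ⟨p, ?_, ?_⟩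
      · rw [mem_Ioc]
        refine ⟨hzp, le_max_of_le_right ?_⟩
        have h1 : p ^ 2 ≤ d := Nat.le_of_dvd hd1 hpd
        have h2 : p ≤ p ^ 2 := Nat.le_self_pow two_ne_zero p
        omega
      · rw [mem_filter, mem_Ioc]
        exact ⟨⟨hd1, hd2⟩, hpd⟩
  have hcard := (card_le_card hsub).trans ((card_union_le _ _).trans
    (Nat.add_le_add_left card_biUnion_le _))
  have hz0 : (0 : ℝ) < z := by exact_mod_cast (by omega : 0 < z)
  have hsum : ((∑ n ∈ Ioc z (max z N), ((Ioc 0 N).filter (fun d => n ^ 2 ∣ d)).card : ℕ) : ℝ) ≤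
      2 * X / z := by
    push_cast
    calc ∑ n ∈ Ioc z (max z N), (((Ioc 0 N).filter (fun d => n ^ 2 ∣ d)).card : ℝ)
        ≤ ∑ n ∈ Ioc z (max z N), 2 * X * ((n : ℝ) ^ 2)⁻¹ := by
          refine sum_le_sum (fun n hn => ?_)
          rw [Nat.Ioc_filter_dvd_card_eq_div]
          have h1 : ((N / n ^ 2 : ℕ) : ℝ) ≤ (N : ℝ) / ((n ^ 2 : ℕ) : ℝ) := Nat.cast_div_le
          refine h1.trans ?_
          push_cast
          rw [div_eq_mul_inv]
          exact mul_le_mul_of_nonneg_right hNX (by positivity)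
      _ = 2 * X * ∑ n ∈ Ioc z (max z N), ((n : ℝ) ^ 2)⁻¹ := by rw [mul_sum]
      _ ≤ 2 * X * ((z : ℝ)⁻¹ - ((max z N : ℕ) : ℝ)⁻¹) := by
          apply mul_le_mul_of_nonneg_left _ (by linarith)
          exact sum_Ioc_inv_sq_le_sub (by omega) (le_max_left _ _)
      _ ≤ 2 * X * (z : ℝ)⁻¹ := by
          apply mul_le_mul_of_nonneg_left _ (by linarith)
          have : (0 : ℝ) ≤ ((max z N : ℕ) : ℝ)⁻¹ := by positivity
          linarith
      _ = 2 * X / z := by rw [div_eq_mul_inv]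
  have hcard' : (A.card : ℝ) ≤ B.card +
      ((∑ n ∈ Ioc z (max z N), ((Ioc 0 N).filter (fun d => n ^ 2 ∣ d)).card : ℕ) : ℝ) := by
    exact_mod_cast hcard
  have hs : 0 ≤ √X := Real.sqrt_nonneg _
  linarith

private lemma fa6_prod (z : ℕ) :
    ((z : ℝ) + 2) / (2 * (z + 1)) ≤
      ∏ p ∈ (range (z + 2)).filter (fun p => p.Prime ∧ Odd p), (1 - 1 / (p : ℝ) ^ 2) := by
  induction z with
  | zero =>
    have : (range (0 + 2)).filter (fun p => p.Prime ∧ Odd p) = ∅ := by decide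
    rw [this]
    simp
  | succ z ih =>
    have hz0 : (0 : ℝ) < z + 2 := by positivity
    have hz1 : (0 : ℝ) < z + 1 := by positivity
    have hz3 : (0 : ℝ) < z + 3 := by positivity
    have hle : (((z + 1 : ℕ) : ℝ) + 2) / (2 * (((z + 1 : ℕ) : ℝ) + 1)) ≤
        ((z : ℝ) + 2) / (2 * (z + 1)) := by
      rw [div_le_div_iff₀ (by positivity) (by positivity)]
      push_cast
      nlinarith
    rw [show z + 1 + 2 = (z + 2) + 1 by ring, range_add_one, filter_insert]
    split_ifs with h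
    · rw [prod_insert (by simp)]
      have hnn : (0 : ℝ) ≤ 1 - 1 / (((z + 2 : ℕ) : ℝ)) ^ 2 := by
        rw [sub_nonneg, div_le_one (by positivity)]
        push_cast
        nlinarith
      calc (((z + 1 : ℕ) : ℝ) + 2) / (2 * (((z + 1 : ℕ) : ℝ) + 1))
          = (1 - 1 / (((z + 2 : ℕ) : ℝ)) ^ 2) * (((z : ℝ) + 2) / (2 * (z + 1))) := by
            push_cast
            field_simp
            ring
        _ ≤ _ := mul_le_mul_of_nonneg_left ih hnn
    · exact hle.trans ih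

theorem prod_lower (z : ℕ) :
    1 / 2 ≤ ∏ p ∈ (range (z + 1)).filter (fun p => p.Prime ∧ Odd p), (1 - 1 / (p : ℝ) ^ 2) := by
  rcases z with _ | z
  · have : (range (0 + 1)).filter (fun p => p.Prime ∧ Odd p) = ∅ := by decide
    rw [this]
    norm_num
  · refine le_trans ?_ (fa6_prod z)
    rw [div_le_div_iff₀ (by norm_num) (by positivity)]
    linarith

end Pool.Agent.MP0016c7.Rz
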