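import Mathlib
import Pool.Agent.Lib.MP_0016c7_nt.Rz.Defs
import Pool.Agent.Lib.MP_0016c7_nt.Rz.Fa2
import Pool.Agent.Lib.MP_0016c7_nt.Rz.Fa6
import Pool.Agent.Lib.MP_0016c7_nt.Rz.TestR

set_option autoImplicit false

/-!
Generic final assembly: from mean values over a residue class to the proportion of good squarefree
numbers.
-/

open Finset MeasureTheory Filter Topology
open scoped Real ContDiff

namespace Pool.Agent.MP0016c7.Rz.Fb

open Pool.Agent.MP0016c7.Rz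


/-- The odd primes up to `z`. -/
private def SP (z : ℕ) : Finset ℕ := (range (z + 1)).filter (fun p => p.Prime ∧ Odd p)

private lemma SP_prime (z : ℕ) : ∀ p ∈ SP z, p.Prime ∧ Odd p := fun p hp =>
  (Finset.mem_filter.mp hp).2

private lemma prod_le_one' (z : ℕ) : ∏ p ∈ SP z, (1 - 1 / (p : ℝ) ^ 2) ≤ 1 := by
  refine Finset.prod_le_one ?_ ?_
  · intro p hp
    have h1 : (1 : ℝ) ≤ p := by exact_mod_cast (SP_prime z p hp).1.one_lt.le
    have h2 : 1 / (p : ℝ) ^ 2 ≤ 1 := by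
      rw [div_le_one (by positivity)]
      nlinarith only [h1]
    linarith
  · intro p _
    have : 0 ≤ 1 / (p : ℝ) ^ 2 := by positivity
    linarith

private noncomputable def DF (X : ℝ) (Q : ℕ → Prop) : Finset ℕ := by
  classical
  exact (Icc 1 ⌊2 * X⌋₊).filter (fun d : ℕ => X < d ∧ Q d)

private lemma mem_DF {X : ℝ} {Q : ℕ → Prop} {d : ℕ} (hX : 0 ≤ X) :
    d ∈ DF X Q ↔ X < d ∧ (d : ℝ) ≤ 2 * X ∧ Q d := by
  classical
  unfold DF
  rw [Finset.mem_filter, Finset.mem_Icc]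
  constructor
  · rintro ⟨⟨_, h2⟩, h3, h4⟩
    exact ⟨h3, (Nat.le_floor_iff (by linarith)).mp h2, h4⟩
  · rintro ⟨h1, h2, h3⟩
    refine ⟨⟨?_, (Nat.le_floor_iff (by linarith)).mpr h2⟩, h1, h3⟩
    have : (0 : ℝ) < d := by linarith
    exact_mod_cast this

private lemma card_DF {X : ℝ} (hX : 0 ≤ X) (Q : ℕ → Prop) :
    (Nat.card {d : ℕ | X < d ∧ (d : ℝ) ≤ 2 * X ∧ Q d} : ℝ) = ((DF X Q).card : ℝ) := by
  rw [Nat.card_coe_set_eq]
  have : {d : ℕ | X < d ∧ (d : ℝ) ≤ 2 * X ∧ Q d} = ((DF X Q : Finset ℕ) : Set ℕ) := by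
    ext d
    rw [Finset.mem_coe, mem_DF hX]
    rfl
  rw [this, Set.ncard_coe_finset]

private lemma summable_F {F : ℝ → ℝ} {a b : ℝ} (hF : Bump F a b) {X : ℝ} (hX : 0 < X)
    (G : ℕ → ℝ) (Q : ℕ → Prop) [DecidablePred Q] :
    Summable (fun d : ℕ => if Q d then F (d / X) * G d else 0) := by
  refine summable_of_finite_support ?_
  refine (Set.finite_Iic ⌊b * X⌋₊).subset ?_
  intro d hd
  rw [Function.mem_support] at hd
  have h1 : F (d / X) ≠ 0 := by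
    intro h0
    apply hd
    simp [h0]
  have h2 := (hF.supp _ h1).2
  rw [div_lt_iff₀ hX] at h2
  exact Nat.le_floor h2.le

private lemma sf_free {z d : ℕ} (h : Squarefree d) : ∀ p ∈ SP z, ¬ p ^ 2 ∣ d := by
  intro p hp hd
  have h1 := (SP_prime z p hp).1
  rw [sq] at hd
  have h2 := h p hd
  exact h1.not_isUnit h2

/-- upper bound of sums over a finite set of squarefree numbers -/
private lemma sum_upper {F : ℝ → ℝ} (hF : Bump F (1 / 2) 4) (hFn : ∀ t, 0 ≤ F t)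
    (hF1 : ∀ t ∈ Set.Icc (1 : ℝ) 2, 1 ≤ F t) {X : ℝ} (hX : 0 < X) (z : ℕ) (G : ℕ → ℝ)
    (hG : ∀ d, 0 ≤ G d) (B : Finset ℕ) (hB : ∀ d ∈ B, X < d ∧ (d : ℝ) ≤ 2 * X ∧ Odd d ∧ Squarefree d) :
    ∑ d ∈ B, G d ≤ ∑' d : ℕ, (if Odd d ∧ ∀ p ∈ SP z, ¬ p ^ 2 ∣ d then F (d / X) * G d else 0) := by
  classical
  have hs := summable_F hF hX G (fun d => Odd d ∧ ∀ p ∈ SP z, ¬ p ^ 2 ∣ d)
  refine le_trans ?_ (hs.sum_le_tsum B ?_)
  · refine Finset.sum_le_sum fun d hd => ?_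
    obtain ⟨h1, h2, h3, h4⟩ := hB d hd
    rw [if_pos ⟨h3, sf_free h4⟩]
    have h5 : 1 ≤ F (d / X) := hF1 _ ⟨by rw [le_div_iff₀ hX]; linarith, by
      rw [div_le_iff₀ hX]; exact h2⟩
    nlinarith only [h5, hG, hG d]
  · intro d _
    split_ifs
    · exact mul_nonneg (hFn _) (hG d)
    · exact le_rfl

/-- lower bound for the number of sieved integers -/
private lemma count_lower {F : ℝ → ℝ} (hF : Bump F 1 2) (hFn : ∀ t, 0 ≤ F t)
    (hF1 : ∀ t, F t ≤ 1) {X : ℝ} (hX : 0 < X) (z : ℕ) :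
    ∑' d : ℕ, (if Odd d ∧ ∀ p ∈ SP z, ¬ p ^ 2 ∣ d then F (d / X) * 1 else 0) ≤
      (((Icc 1 ⌊2 * X⌋₊).filter (fun d : ℕ => X < d ∧ Odd d ∧
      ∀ p ∈ (range (z + 1)).filter (fun p => p.Prime ∧ Odd p), ¬ p ^ 2 ∣ d)).card : ℝ) := by
  classical
  set T := (Icc 1 ⌊2 * X⌋₊).filter (fun d : ℕ => X < d ∧ Odd d ∧
      ∀ p ∈ (range (z + 1)).filter (fun p => p.Prime ∧ Odd p), ¬ p ^ 2 ∣ d) with hT
  rw [tsum_eq_sum (s := T)]
  · rw [Finset.card_eq_sum_ones]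
    push_cast
    refine Finset.sum_le_sum fun d _ => ?_
    split_ifs
    · rw [mul_one]; exact hF1 _
    · exact zero_le_one
  · intro d hd
    split_ifs with h
    · rw [mul_one]
      by_contra h0
      have h1 := hF.supp _ h0
      apply hd
      rw [hT, Finset.mem_filter, Finset.mem_Icc]
      have h2 : X < d := by
        have := h1.1
        rw [lt_div_iff₀ hX] at this
        linarith
      have h3 : (d : ℝ) < 2 * X := by
        have := h1.2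
        rwa [div_lt_iff₀ hX] at this
      refine ⟨⟨?_, Nat.le_floor h3.le⟩, h2, h.1, h.2⟩
      have : (0 : ℝ) < d := by linarith
      exact_mod_cast this
    · rfl

private lemma fin_alg {E E' η Pz N B X : ℝ} (hη : 0 < η) (hη1 : η ≤ 1 / 14)
    (hE : 0 ≤ E) (hη2 : η * (3 * E + 12 + 7 * E' + 1) ≤ E' - E)
    (hPz : 1 / 2 ≤ Pz) (hPz1 : Pz ≤ 1) (hX : 0 < X) (hE' : 0 < E')
    (hN : X / 2 * ((1 - η) * Pz - 3 * η) ≤ N)
    (hB : B ≤ (1 + η) * (X / 2 * ((1 + η) * E * Pz + η)) + (1 + 1 / η) * (η ^ 2 * X)) :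
    X / 8 ≤ N ∧ B ≤ E' * N := by
  constructor
  · refine le_trans ?_ hN
    have h1 : 1 / 4 ≤ (1 - η) * Pz - 3 * η := by nlinarith only [hη1, hPz]
    nlinarith only [hη, hη1, hX, h1]
  · have h1 : (1 + 1 / η) * (η ^ 2 * X) = (η + η ^ 2) * X := by
      field_simp
      ring
    rw [h1] at hB
    have h2 : E' * (X / 2 * ((1 - η) * Pz - 3 * η)) ≤ E' * N := mul_le_mul_of_nonneg_left hN hE'.le
    refine hB.trans (le_trans ?_ h2)
    have h3 : (1 + η) * ((1 + η) * E * Pz + η) + 2 * (η + η ^ 2) ≤ E' * ((1 - η) * Pz - 3 * η) := by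
      have h4 : (1 + η) * ((1 + η) * E * Pz + η) + 2 * (η + η ^ 2) ≤ (1 + 3 * η) * E * Pz + 6 * η := by
        have h5 : 0 ≤ E * Pz := by nlinarith only [hE, hη, hη1, hPz]
        nlinarith only [h5, hη, hη1, mul_nonneg h5 hη.le]
      have h6 : (1 + 3 * η) * E * Pz + 6 * η + 3 * η * E' ≤ E' * (1 - η) * Pz := by
        have h7 : 6 * η + 3 * η * E' ≤ (12 * η + 6 * η * E') * Pz := by nlinarith only [hη, hPz, hη1, hE', mul_pos hη hE']
        have h8 : (1 + 3 * η) * E + 12 * η + 6 * η * E' ≤ E' * (1 - η) := by nlinarith only [hη, hη2]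
        have h9 : ((1 + 3 * η) * E + 12 * η + 6 * η * E') * Pz ≤ E' * (1 - η) * Pz :=
          mul_le_mul_of_nonneg_right h8 (by linarith only [hη, hη1, hPz])
        nlinarith only [h7, h9]
      nlinarith only [h4, h6]
    calc (1 + η) * (X / 2 * ((1 + η) * E * Pz + η)) + (η + η ^ 2) * X
        = X / 2 * ((1 + η) * ((1 + η) * E * Pz + η) + 2 * (η + η ^ 2)) := by ring
      _ ≤ X / 2 * (E' * ((1 - η) * Pz - 3 * η)) := by gcongr
      _ = E' * (X / 2 * ((1 - η) * Pz - 3 * η)) := by ring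

private lemma int_F_pos {F : ℝ → ℝ} {a b : ℝ} (hF : Bump F a b) (hFn : ∀ t, 0 ≤ F t)
    (hF1 : ∀ t ∈ Set.Icc (1 : ℝ) 2, 1 ≤ F t) : 0 < ∫ t, F t := by
  have hi : Integrable F := by
    refine hF.smooth.continuous.integrable_of_hasCompactSupport ?_
    refine HasCompactSupport.of_support_subset_isCompact (isCompact_Icc (a := a) (b := b)) ?_
    intro t ht
    have := hF.supp t ht
    exact ⟨this.1.le, this.2.le⟩
  have h1 : ∫ t in Set.Icc (1 : ℝ) 2, (1 : ℝ) ≤ ∫ t in Set.Icc (1 : ℝ) 2, F t :=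
    setIntegral_mono_on (by simp) hi.integrableOn measurableSet_Icc hF1
  have h2 : ∫ t in Set.Icc (1 : ℝ) 2, F t ≤ ∫ t, F t :=
    setIntegral_le_integral hi (Eventually.of_forall hFn)
  have h3 : ∫ t in Set.Icc (1 : ℝ) 2, (1 : ℝ) = 1 := by
    simp
    norm_num
  linarith


/-- the generic sieve -/
theorem sieve_gen (S : Finset ℕ) (hS : ∀ p ∈ S, p.Prime ∧ Odd p) (R : ℕ → Prop) [DecidablePred R]
    (hRodd : ∀ d, R d → Odd d) (hRr : ∀ r d : ℕ, Odd r → (R (r ^ 2 * d) ↔ R d)) {D : ℝ} (hD : 0 < D)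
    {F : ℝ → ℝ} {a b : ℝ}
    (ha : 0 < a) (hF : Bump F a b) (A : ℝ → ℕ → ℝ) (M : ℝ)
    (h : ∀ r : ℕ, Odd r → Squarefree r → Tendsto (fun X : ℝ => r ^ 2 / (D * X) *
      ∑' d : ℕ, (if R d then F (d * r ^ 2 / X) * A X (r ^ 2 * d) else 0)) atTop (𝓝 M)) :
    Tendsto (fun X : ℝ => 1 / (D * X) *
      ∑' d : ℕ, (if R d ∧ ∀ p ∈ S, ¬ p ^ 2 ∣ d then F (d / X) * A X d else 0)) atTop
      (𝓝 (M * ∏ p ∈ S, (1 - 1 / (p : ℝ) ^ 2))) := by
  have h1 := sieve_avg S hS ha hF (fun X d => if R d then A X d / (2 * D) else 0) M (by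
    intro r hr hrs
    refine (h r hr hrs).congr fun X => ?_
    have e1 : ∀ d : ℕ, (if Odd d then F (d * r ^ 2 / X) *
        (if R (r ^ 2 * d) then A X (r ^ 2 * d) / (2 * D) else 0) else 0) =
        1 / (2 * D) * (if R d then F (d * r ^ 2 / X) * A X (r ^ 2 * d) else 0) := by
      intro d
      by_cases hd : R d
      · rw [if_pos (hRodd d hd), if_pos ((hRr r d hr).mpr hd), if_pos hd]
        ring
      · rw [if_neg (fun h0 => hd ((hRr r d hr).mp h0)), if_neg hd]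
        simp
    rw [tsum_congr e1, tsum_mul_left]
    rw [← mul_assoc]
    congr 1
    field_simp)
  refine h1.congr fun X => ?_
  have e1 : ∀ d : ℕ, (if Odd d ∧ ∀ p ∈ S, ¬ p ^ 2 ∣ d then F (d / X) *
        (if R d then A X d / (2 * D) else 0) else 0) =
        1 / (2 * D) * (if R d ∧ ∀ p ∈ S, ¬ p ^ 2 ∣ d then F (d / X) * A X d else 0) := by
    intro d
    by_cases hd : R d
    · by_cases hp : ∀ p ∈ S, ¬ p ^ 2 ∣ d
      · rw [if_pos ⟨hRodd d hd, hp⟩, if_pos hd, if_pos ⟨hd, hp⟩]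
        ring
      · rw [if_neg (fun h0 => hp h0.2), if_neg (fun h0 => hp h0.2)]
        simp
    · simp [hd]
  rw [tsum_congr e1, tsum_mul_left, ← mul_assoc]
  congr 1
  field_simp

/-- upper bound of sums over a finite set of squarefree numbers -/
private lemma sum_upper' {F : ℝ → ℝ} (hF : Bump F (1 / 2) 4) (hFn : ∀ t, 0 ≤ F t)
    (hF1 : ∀ t ∈ Set.Icc (1 : ℝ) 2, 1 ≤ F t) {X : ℝ} (hX : 0 < X) (z : ℕ) (R : ℕ → Prop)
    [DecidablePred R] (G : ℕ → ℝ)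
    (hG : ∀ d, 0 ≤ G d) (B : Finset ℕ) (hB : ∀ d ∈ B, X < d ∧ (d : ℝ) ≤ 2 * X ∧ R d ∧ Squarefree d) :
    ∑ d ∈ B, G d ≤ ∑' d : ℕ, (if R d ∧ ∀ p ∈ SP z, ¬ p ^ 2 ∣ d then F (d / X) * G d else 0) := by
  classical
  have hs := summable_F hF hX G (fun d => R d ∧ ∀ p ∈ SP z, ¬ p ^ 2 ∣ d)
  refine le_trans ?_ (hs.sum_le_tsum B ?_)
  · refine Finset.sum_le_sum fun d hd => ?_
    obtain ⟨h1, h2, h3, h4⟩ := hB d hd
    rw [if_pos ⟨h3, sf_free h4⟩]
    have h5 : 1 ≤ F (d / X) := hF1 _ ⟨by rw [le_div_iff₀ hX]; linarith, by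
      rw [div_le_iff₀ hX]; exact h2⟩
    nlinarith only [h5, hG, hG d]
  · intro d _
    split_ifs
    · exact mul_nonneg (hFn _) (hG d)
    · exact le_rfl

/-- lower bound for the number of sieved integers of the class -/
private lemma count_lower' {F : ℝ → ℝ} (hF : Bump F 1 2)
    (hF1 : ∀ t, F t ≤ 1) {X : ℝ} (hX : 0 < X) (z : ℕ) (R : ℕ → Prop) [DecidablePred R] :
    ∑' d : ℕ, (if R d ∧ ∀ p ∈ SP z, ¬ p ^ 2 ∣ d then F (d / X) * 1 else 0) ≤
      ((DF X (fun d => R d ∧ ∀ p ∈ SP z, ¬ p ^ 2 ∣ d)).card : ℝ) := by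
  classical
  set T := DF X (fun d => R d ∧ ∀ p ∈ SP z, ¬ p ^ 2 ∣ d) with hT
  rw [tsum_eq_sum (s := T)]
  · rw [Finset.card_eq_sum_ones]
    push_cast
    refine Finset.sum_le_sum fun d _ => ?_
    split_ifs
    · rw [mul_one]; exact hF1 _
    · exact zero_le_one
  · intro d hd
    split_ifs with h
    · rw [mul_one]
      by_contra h0
      have h1 := hF.supp _ h0
      apply hd
      rw [hT, mem_DF hX.le]
      have h2 : X < d := by
        have := h1.1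
        rw [lt_div_iff₀ hX] at this
        linarith
      have h3 : (d : ℝ) < 2 * X := by
        have := h1.2
        rwa [div_lt_iff₀ hX] at this
      exact ⟨h2, h3.le, h⟩
    · rfl

/-- squarefree numbers of the class against sieved numbers of the class -/
private lemma sqf_lower' (z : ℕ) (hz : 2 ≤ z) (X : ℝ) (hX : 1 ≤ X) (R : ℕ → Prop)
    (hRodd : ∀ d, R d → Odd d) :
    ((DF X (fun d => R d ∧ ∀ p ∈ SP z, ¬ p ^ 2 ∣ d)).card : ℝ) - 2 * X / z - 2 * √X ≤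
      ((DF X (fun d => R d ∧ Squarefree d)).card : ℝ) := by
  classical
  have hX0 : 0 ≤ X := by linarith
  have h1 := sqf_lower z hz X hX
  have e1 : (Icc 1 ⌊2 * X⌋₊).filter (fun d : ℕ => X < d ∧ Odd d ∧
      ∀ p ∈ (range (z + 1)).filter (fun p => p.Prime ∧ Odd p), ¬ p ^ 2 ∣ d) =
      DF X (fun d => Odd d ∧ ∀ p ∈ SP z, ¬ p ^ 2 ∣ d) := by
    unfold DF SP
    ext d
    simp only [Finset.mem_filter]
  have e2 : (Icc 1 ⌊2 * X⌋₊).filter (fun d : ℕ => X < d ∧ Odd d ∧ Squarefree d) =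
      DF X (fun d => Odd d ∧ Squarefree d) := by
    unfold DF
    ext d
    simp only [Finset.mem_filter]
  rw [e1, e2] at h1
  -- the nonsquarefree parts
  have e3 : (DF X (fun d => Odd d ∧ ∀ p ∈ SP z, ¬ p ^ 2 ∣ d)).card =
      (DF X (fun d => Odd d ∧ Squarefree d)).card +
      (DF X (fun d => (Odd d ∧ ∀ p ∈ SP z, ¬ p ^ 2 ∣ d) ∧ ¬ Squarefree d)).card := by
    rw [← Finset.card_union_of_disjoint]
    · congr 1
      ext d
      rw [Finset.mem_union, mem_DF hX0, mem_DF hX0, mem_DF hX0]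
      constructor
      · rintro ⟨k1, k2, k3⟩
        by_cases hs : Squarefree d
        · exact Or.inl ⟨k1, k2, k3.1, hs⟩
        · exact Or.inr ⟨k1, k2, k3, hs⟩
      · rintro (⟨k1, k2, k3, k4⟩ | ⟨k1, k2, k3, k4⟩)
        · exact ⟨k1, k2, k3, sf_free k4⟩
        · exact ⟨k1, k2, k3⟩
    · rw [Finset.disjoint_left]
      intro d k1 k2
      rw [mem_DF hX0] at k1 k2
      exact k2.2.2.2 k1.2.2.2
  have e4 : (DF X (fun d => R d ∧ ∀ p ∈ SP z, ¬ p ^ 2 ∣ d)).card ≤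
      (DF X (fun d => R d ∧ Squarefree d)).card +
      (DF X (fun d => (Odd d ∧ ∀ p ∈ SP z, ¬ p ^ 2 ∣ d) ∧ ¬ Squarefree d)).card := by
    refine (Finset.card_le_card ?_).trans (Finset.card_union_le _ _)
    intro d hd
    rw [mem_DF hX0] at hd
    obtain ⟨k1, k2, k3⟩ := hd
    rw [Finset.mem_union, mem_DF hX0, mem_DF hX0]
    by_cases hs : Squarefree d
    · exact Or.inl ⟨k1, k2, k3.1, hs⟩
    · exact Or.inr ⟨k1, k2, ⟨hRodd d k3.1, k3.2⟩, hs⟩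
  have e3' : ((DF X (fun d => Odd d ∧ ∀ p ∈ SP z, ¬ p ^ 2 ∣ d)).card : ℝ) =
      ((DF X (fun d => Odd d ∧ Squarefree d)).card : ℝ) +
      ((DF X (fun d => (Odd d ∧ ∀ p ∈ SP z, ¬ p ^ 2 ∣ d) ∧ ¬ Squarefree d)).card : ℝ) := by
    exact_mod_cast e3
  have e4' : ((DF X (fun d => R d ∧ ∀ p ∈ SP z, ¬ p ^ 2 ∣ d)).card : ℝ) ≤
      ((DF X (fun d => R d ∧ Squarefree d)).card : ℝ) +
      ((DF X (fun d => (Odd d ∧ ∀ p ∈ SP z, ¬ p ^ 2 ∣ d) ∧ ¬ Squarefree d)).card : ℝ) := by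
    exact_mod_cast e4
  linarith only [h1, e3', e4']

/-- the generic dyadic bound -/
theorem dyadic_gen (R : ℕ → Prop) (hRodd : ∀ d, R d → Odd d)
    (hRr : ∀ r d : ℕ, Odd r → (R (r ^ 2 * d) ↔ R d)) {D : ℝ} (hD : 0 < D) {E E' : ℝ}
    (hE0 : 0 ≤ E) (hE' : E < E') (NZ : ℕ → Prop) (A B : ℝ → ℕ → ℝ)
    (hA : ∀ X : ℝ, 1 < X → ∀ d : ℕ, 0 ≤ A X d)
    (h1 : ∀ F : ℝ → ℝ, Bump F (1 / 2) 4 → (∀ t, 0 ≤ F t) → 0 < ∫ t, F t → ∃ Es : ℝ, Es ≤ E ∧
      ∀ r : ℕ, Odd r → Squarefree r → Tendsto (fun X : ℝ => r ^ 2 / (D * X) *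
        ∑' d : ℕ, (@ite ℝ (R d) (Classical.dec _) (F (d * r ^ 2 / X) * A X (r ^ 2 * d)) 0)) atTop
        (𝓝 ((∫ t, F t) * Es)))
    (h2 : ∀ F : ℝ → ℝ, Bump F (1 / 2) 4 → (∀ t, 0 ≤ F t) → 0 < ∫ t, F t →
      ∀ r : ℕ, Odd r → Squarefree r → Tendsto (fun X : ℝ => r ^ 2 / (D * X) *
        ∑' d : ℕ, (@ite ℝ (R d) (Classical.dec _) (F (d * r ^ 2 / X)) 0)) atTop (𝓝 (∫ t, F t)))
    (h3 : ∀ ε : ℝ, 0 < ε → ∃ X₀ : ℝ, ∀ X : ℝ, X₀ ≤ X → ∀ S : Finset ℕ,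
      (∀ d ∈ S, R d ∧ X < d ∧ (d : ℝ) ≤ 2 * X) → ∑ d ∈ S, B X d ≤ ε * X)
    (h4 : ∀ η : ℝ, 0 < η → ∃ X₀ : ℝ, ∀ X : ℝ, X₀ ≤ X → ∀ d : ℕ, X < d → (d : ℝ) ≤ 2 * X → R d →
      Squarefree d → ¬ NZ d → 1 ≤ (1 + η) * A X d + (1 + 1 / η) * B X d) :
    ∃ X₀ : ℝ, ∀ X : ℝ, X₀ ≤ X → D / 4 * X ≤ (Nat.card {d : ℕ | X < d ∧ (d : ℝ) ≤ 2 * X ∧ R d ∧ Squarefree d} : ℝ) ∧
      (Nat.card {d : ℕ | X < d ∧ (d : ℝ) ≤ 2 * X ∧ R d ∧ Squarefree d ∧ ¬ NZ d} : ℝ) ≤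
      E' * (Nat.card {d : ℕ | X < d ∧ (d : ℝ) ≤ 2 * X ∧ R d ∧ Squarefree d} : ℝ) := by
  classical
  have hE'0 : 0 < E' := by linarith
  set η : ℝ := min (1 / 14) ((E' - E) / (3 * E + 12 + 7 * E' + 1)) with hη
  have hDpos : 0 < 3 * E + 12 + 7 * E' + 1 := by (clear * - hE0 hE'0; positivity)
  have hη0 : 0 < η := lt_min (by norm_num) (div_pos (by linarith only [hE']) hDpos)
  have hη1 : η ≤ 1 / 14 := min_le_left _ _
  have hη2 : η * (3 * E + 12 + 7 * E' + 1) ≤ E' - E := by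
    have := min_le_right (1 / 14) ((E' - E) / (3 * E + 12 + 7 * E' + 1))
    rw [← hη, le_div_iff₀ hDpos] at this
    exact this
  obtain ⟨F, hF, hFn, hF1, hFi⟩ := exists_F η hη0
  obtain ⟨Fm, hFm, hFmn, hFm1, hFmi⟩ := exists_Fm η hη0
  have hFpos := int_F_pos hF hFn hF1
  have hFm' : Bump Fm (1 / 2) 4 := ⟨hFm.smooth, fun t ht =>
    ⟨by linarith only [hη0, hη1, hFm, ht, (hFm.supp t ht).1], by linarith only [hη0, hη1, hFm, ht, (hFm.supp t ht).2]⟩⟩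
  obtain ⟨Es, hEsE, hlim⟩ := h1 F hF hFn hFpos
  -- the sieve
  obtain ⟨z, hz⟩ : ∃ z : ℕ, 4 / (η * min D 1) ≤ z := ⟨⌈4 / (η * min D 1)⌉₊, Nat.le_ceil _⟩
  have hm0 : 0 < min D 1 := lt_min hD one_pos
  have hz2 : 2 ≤ z := by
    have h1 : (2 : ℝ) ≤ 4 / (η * min D 1) := by
      rw [le_div_iff₀ (by positivity)]
      have : min D 1 ≤ 1 := min_le_right _ _
      nlinarith only [hη1, hη0, this]
    exact_mod_cast h1.trans hz
  have hz0 : (0 : ℝ) < z := by positivity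
  set Pz : ℝ := ∏ p ∈ SP z, (1 - 1 / (p : ℝ) ^ 2) with hPz
  have hPz1 : Pz ≤ 1 := prod_le_one' z
  have hPz2 : 1 / 2 ≤ Pz := prod_lower z
  have hs1 := sieve_gen (SP z) (SP_prime z) R hRodd hRr hD (by norm_num) hF A ((∫ t, F t) * Es) (by
    intro r hr hrs
    refine (hlim r hr hrs).congr fun X => ?_
    congr 1)
  have hs0 := sieve_gen (SP z) (SP_prime z) R hRodd hRr hD (by norm_num) hFm (fun _ _ => 1)
    (∫ t, Fm t) (by
    intro r hr hrs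
    refine (h2 Fm hFm' hFmn (by linarith only [hη0, hη1, hFmi]) r hr hrs).congr fun X => ?_
    congr 1
    simp only [mul_one])
  rw [← hPz] at hs1 hs0
  obtain ⟨X₁, hX₁⟩ := (Metric.tendsto_atTop.mp hs1) η hη0
  obtain ⟨X₂, hX₂⟩ := (Metric.tendsto_atTop.mp hs0) η hη0
  obtain ⟨X₃, hX₃⟩ := h3 (η ^ 2 * (2 * D)) (by positivity)
  obtain ⟨X₄, hX₄⟩ := h4 η hη0
  refine ⟨max (max X₁ X₂) (max (max X₃ X₄) (max 2 (16 / (η * min D 1) ^ 2))), fun X hX => ?_⟩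
  have g1 : X₁ ≤ X := (le_max_left _ _).trans ((le_max_left _ _).trans hX)
  have g2 : X₂ ≤ X := (le_max_right _ _).trans ((le_max_left _ _).trans hX)
  have g3 : X₃ ≤ X := (le_max_left _ _).trans ((le_max_left _ _).trans ((le_max_right _ _).trans hX))
  have g4 : X₄ ≤ X := (le_max_right _ _).trans ((le_max_left _ _).trans ((le_max_right _ _).trans hX))
  have g5 : 2 ≤ X := (le_max_left _ _).trans ((le_max_right _ _).trans ((le_max_right _ _).trans hX))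
  have g6 : 16 / (η * min D 1) ^ 2 ≤ X :=
    (le_max_right _ _).trans ((le_max_right _ _).trans ((le_max_right _ _).trans hX))
  have hXp : 0 < X := by linarith
  have e1 : (Nat.card {d : ℕ | X < d ∧ (d : ℝ) ≤ 2 * X ∧ R d ∧ Squarefree d} : ℝ) =
      ((DF X (fun d => R d ∧ Squarefree d)).card : ℝ) := card_DF hXp.le _
  have e2 : (Nat.card {d : ℕ | X < d ∧ (d : ℝ) ≤ 2 * X ∧ R d ∧ Squarefree d ∧ ¬ NZ d} : ℝ) =
      ((DF X (fun d => R d ∧ Squarefree d ∧ ¬ NZ d)).card : ℝ) := card_DF hXp.le _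
  rw [e1, e2]
  set N : ℝ := ((DF X (fun d => R d ∧ Squarefree d)).card : ℝ) with hN
  set Bd : Finset ℕ := DF X (fun d => R d ∧ Squarefree d ∧ ¬ NZ d) with hBd
  have hmD : min D 1 ≤ D := min_le_left _ _
  -- lower bound for N
  have hNlow : 2 * D * X / 2 * ((1 - η) * Pz - 3 * η) ≤ N := by
    have k1 := hX₂ X g2
    rw [Real.dist_eq, abs_lt] at k1
    have k2 := count_lower' hFm hFm1 hXp z R
    have k3 := sqf_lower' z hz2 X (by linarith only [hη0, hη1, g5]) R hRodd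
    set T := ∑' d : ℕ, (if R d ∧ ∀ p ∈ SP z, ¬ p ^ 2 ∣ d then Fm (d / X) * 1 else 0) with hT
    have k5 : D * X * ((1 - η) * Pz - η) ≤ T := by
      have k6 : (1 - η) * Pz ≤ (∫ t, Fm t) * Pz := mul_le_mul_of_nonneg_right hFmi (by linarith only [hη0, hη1, hPz2])
      have k7 : (1 - η) * Pz - η ≤ 1 / (D * X) * T := by linarith only [k1, k6, k1.1]
      calc D * X * ((1 - η) * Pz - η) ≤ D * X * (1 / (D * X) * T) := by (clear * - k7 hD g5; gcongr)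
        _ = T := by field_simp
    have k8 : 2 * X / z ≤ D * X * η := by
      rw [div_le_iff₀ hz0]
      rw [div_le_iff₀ (by positivity)] at hz
      have : (z : ℝ) * (η * min D 1) ≤ z * (η * D) := by (clear * - hmD hE' hE0 hE'0 hz2; gcongr)
      nlinarith only [hη1, hz, g5, this, hη0]
    have k9 : 2 * √X ≤ D * X * η := by
      rw [div_le_iff₀ (by positivity)] at g6
      have k10 : 4 ≤ √X * (η * min D 1) := by
        have k11 : (4 : ℝ) ^ 2 ≤ (√X * (η * min D 1)) ^ 2 := by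
          rw [mul_pow, Real.sq_sqrt hXp.le]
          linarith only [g6]
        exact le_of_sq_le_sq k11 (by positivity)
      have k12 : √X * √X = X := Real.mul_self_sqrt hXp.le
      have k13 : 0 ≤ √X := Real.sqrt_nonneg X
      have k14 : √X * (η * min D 1) ≤ √X * (η * D) := by (clear * - hmD hE' hE0 hE'0 g5; gcongr)
      nlinarith only [hη1, g5, k10, k12, k14, hη0, k13]
    linarith only [k3, k2, k5, k8, k9]
  -- upper bound for the number of bad numbers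
  have hqn : ∀ d : ℕ, 0 ≤ A X d := hA X (by linarith only [hη0, hη1, g5])
  have hmemB : ∀ d ∈ Bd, X < d ∧ (d : ℝ) ≤ 2 * X ∧ R d ∧ Squarefree d ∧ ¬ NZ d :=
    fun d hd => (mem_DF hXp.le).mp hd
  have hB1 : ∀ d ∈ Bd, 1 ≤ (1 + η) * A X d + (1 + 1 / η) * B X d := by
    intro d hd
    obtain ⟨k1, k2, k3, k4, k5⟩ := hmemB d hd
    exact hX₄ X g4 d k1 k2 k3 k4 k5
  have hB2 : (Bd.card : ℝ) ≤ (1 + η) * (2 * D * X / 2 * ((1 + η) * E * Pz + η)) +
      (1 + 1 / η) * (η ^ 2 * (2 * D * X)) := by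
    have k1 : (Bd.card : ℝ) = ∑ d ∈ Bd, (1 : ℝ) := by simp
    have k2 := Finset.sum_le_sum hB1
    rw [← k1, Finset.sum_add_distrib, ← Finset.mul_sum, ← Finset.mul_sum] at k2
    have k3 := sum_upper' hF hFn hF1 hXp z R (A X) hqn Bd
      (fun d hd => ⟨(hmemB d hd).1, (hmemB d hd).2.1, (hmemB d hd).2.2.1, (hmemB d hd).2.2.2.1⟩)
    have k4 := hX₃ X g3 Bd (fun d hd => ⟨(hmemB d hd).2.2.1, (hmemB d hd).1, (hmemB d hd).2.1⟩)
    have k5 := hX₁ X g1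
    rw [Real.dist_eq, abs_lt] at k5
    set T := ∑' d : ℕ, (if R d ∧ ∀ p ∈ SP z, ¬ p ^ 2 ∣ d then F (d / X) * A X d else 0) with hT
    have k6 : T ≤ D * X * ((1 + η) * E * Pz + η) := by
      have k7 : (∫ t, F t) * Es * Pz ≤ (1 + η) * E * Pz := by
        refine mul_le_mul_of_nonneg_right ?_ (by linarith only [hη0, hη1, hPz2])
        calc (∫ t, F t) * Es ≤ (∫ t, F t) * E := mul_le_mul_of_nonneg_left hEsE hFpos.le
          _ ≤ (1 + η) * E := mul_le_mul_of_nonneg_right hFi hE0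
      have k8 : 1 / (D * X) * T ≤ (1 + η) * E * Pz + η := by linarith only [k5, k7, k5.2]
      calc T = D * X * (1 / (D * X) * T) := by field_simp
        _ ≤ D * X * ((1 + η) * E * Pz + η) := by (clear * - k8 hD g5; gcongr)
    have k9 : 0 < 1 + 1 / η := by (clear * - hE' hE0 hE'0; positivity)
    have k10 : 0 < 1 + η := by positivity
    calc (Bd.card : ℝ) ≤ _ := k2
      _ ≤ (1 + η) * T + (1 + 1 / η) * (η ^ 2 * (2 * D) * X) := by (clear * - k3 hE' hE0 hE'0 k4; gcongr)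
      _ ≤ (1 + η) * (D * X * ((1 + η) * E * Pz + η)) + (1 + 1 / η) * (η ^ 2 * (2 * D) * X) := by
          (clear * - k6 hE' hE0 hE'0; gcongr)
      _ = _ := by ring
  have hfin := fin_alg (X := 2 * D * X) hη0 hη1 hE0 hη2 hPz2 hPz1 (by positivity) hE'0 hNlow hB2
  refine ⟨?_, hfin.2⟩
  have := hfin.1
  linarith only [hfin]

end Pool.Agent.MP0016c7.Rz.Fb
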