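import Mathlib
import Pool.Agent.Lib.MP_0016c7_nt.Theta
import Pool.Agent.Lib.MP_0016c7_nt.Rz.Defs
import Pool.Agent.Lib.MP_0016c7_nt.Rz.DefsF
import Pool.Agent.Lib.MP_0016c7_nt.Rz.DefsF2
import Pool.Agent.Lib.MP_0016c7_nt.Rz.Gen0

set_option autoImplicit false

open Finset MeasureTheory Filter Topology
open scoped Real ContDiff

namespace Pool.Agent.MP0016c7.Rz

/-- integral inequality without integrability of the smaller function -/
private lemma g_int_le {f g : ℝ → ℝ} (hg : Integrable g) (h0 : ∀ x, 0 ≤ g x)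
    (h : ∀ x, f x ≤ g x) : ∫ x, f x ≤ ∫ x, g x := by
  by_cases hf : Integrable f
  · exact integral_mono hf hg h
  · rw [integral_undef hf]
    exact integral_nonneg h0

private lemma g_bump_int {ρ : ℝ → ℝ} {a b : ℝ} (hρ : Bump ρ a b) : Integrable ρ := by
  refine hρ.smooth.continuous.integrable_of_hasCompactSupport ?_
  refine HasCompactSupport.intro (isCompact_Icc (a := a) (b := b)) fun x hx => ?_
  by_contra h
  obtain ⟨h1, h2⟩ := hρ.supp x h
  exact hx ⟨h1.le, h2.le⟩

private lemma g_HH {h : ℝ → ℝ} {a θ : ℝ} (hh : Bump h a θ) {t : ℝ} (ht : t ≤ a) :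
    HH h t = ∫ x, h x := by
  unfold HH
  refine setIntegral_eq_integral_of_forall_compl_eq_zero fun x hx => ?_
  by_contra hne
  have := (hh.supp x hne).1
  exact hx (lt_of_le_of_lt ht this)

/-- the bound of the covariance -/
private lemma g_CC {ρ h : ℝ → ℝ} {δ θ : ℝ} (hδ : 0 < δ) (hρ : Bump ρ (-(δ / 2)) (δ / 2))
    (hρn : ∀ y, 0 ≤ ρ y) (hρ1 : ∫ y, ρ y = 1) (hh : Bump h (2 * δ) θ) {v v' : ℝ}
    (hv : v ∈ Set.Icc 0 (1 / 2 + δ)) (hv' : v' ∈ Set.Icc 0 (1 / 2 + δ)) :
    CC ρ ρ h (1 / 2 - v) (1 / 2 - v') ≤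
      HH h 0 ^ 2 + (∫ t, h t ^ 2) * min (1 / 2 + δ - v) (1 / 2 + δ - v') := by
  set s := ∫ t, h t ^ 2 with hs
  have hs0 : 0 ≤ s := integral_nonneg fun t => sq_nonneg _
  set M := min (1 / 2 + δ - v) (1 / 2 + δ - v') with hM
  have hM0 : 0 ≤ M := le_min (by linarith only [hv, hv.2]) (by linarith only [hv', hv'.2])
  set K := HH h 0 ^ 2 + s * M with hK
  have hK0 : 0 ≤ K := by (clear * - hM0; positivity)
  have hint := g_bump_int hρ
  have hpt : ∀ x y, ρ x * ρ y * (HH h (x - (1 / 2 - v)) * HH h (y - (1 / 2 - v')) +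
      s * (max (min (1 / 2 - v - x) (1 / 2 - v' - y)) 0 -
        max (1 / 2 - v - x + (1 / 2 - v' - y) - 1) 0)) ≤ ρ x * ρ y * K := by
    intro x y
    by_cases hx : ρ x = 0
    · rw [hx]; simp
    by_cases hy : ρ y = 0
    · rw [hy]; simp
    obtain ⟨x1, x2⟩ := hρ.supp x hx
    obtain ⟨y1, y2⟩ := hρ.supp y hy
    refine mul_le_mul_of_nonneg_left ?_ (mul_nonneg (hρn x) (hρn y))
    have e1 : HH h (x - (1 / 2 - v)) = HH h 0 := by
      rw [g_HH hh (by linarith only [hδ, x2, hv, hv.2]), g_HH hh (by linarith)]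
    have e2 : HH h (y - (1 / 2 - v')) = HH h 0 := by
      rw [g_HH hh (by linarith only [hδ, y2, hv', hv'.2]), g_HH hh (by linarith)]
    rw [e1, e2, hK, sq]
    refine add_le_add le_rfl (mul_le_mul_of_nonneg_left ?_ hs0)
    have e3 : max (min (1 / 2 - v - x) (1 / 2 - v' - y)) 0 ≤ M := by
      refine max_le ?_ hM0
      exact min_le_min (by linarith) (by linarith)
    have e4 : 0 ≤ max (1 / 2 - v - x + (1 / 2 - v' - y) - 1) 0 := le_max_right _ _
    linarith only [e3, e4]
  have hinner : ∀ x, ∫ y, ρ x * ρ y * K = ρ x * K := by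
    intro x
    have e : (fun y => ρ x * ρ y * K) = fun y => (ρ x * K) * ρ y := by
      funext y; ring
    rw [e, integral_const_mul, hρ1, mul_one]
  unfold CC
  have h1 : ∀ x, ∫ y, ρ x * ρ y * (HH h (x - (1 / 2 - v)) * HH h (y - (1 / 2 - v')) +
      s * (max (min (1 / 2 - v - x) (1 / 2 - v' - y)) 0 -
        max (1 / 2 - v - x + (1 / 2 - v' - y) - 1) 0)) ≤ ρ x * K := by
    intro x
    rw [← hinner x]
    refine g_int_le ?_ (fun y => mul_nonneg (mul_nonneg (hρn x) (hρn y)) hK0) (hpt x)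
    have e : (fun y => ρ x * ρ y * K) = fun y => (ρ x * K) * ρ y := by
      funext y; ring
    rw [e]
    exact hint.const_mul _
  refine (g_int_le (hint.mul_const K) (fun x => mul_nonneg (hρn x) hK0) h1).trans ?_
  rw [integral_mul_const, hρ1, one_mul]

/-- the average is a finite sum -/
theorem avR_fin {R : ℕ → Prop} {D : ℝ} {F : ℝ → ℝ} {a b : ℝ} (hF : Bump F a b) {r : ℕ}
    (hr : 0 < r) {X : ℝ}
    (hX : 0 < X) : ∃ (N : ℕ) (cf : ℕ → ℝ), ∀ g : ℕ → ℝ,
      avR R D F r X g = ∑ d ∈ range N, cf d * g d := by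
  classical
  have hr' : (0 : ℝ) < r := by exact_mod_cast hr
  refine ⟨⌈b * X / r ^ 2⌉₊, fun d => r ^ 2 / (D * X) * (if R d then F (d * r ^ 2 / X) else 0),
    fun g => ?_⟩
  unfold avR
  rw [tsum_eq_sum (s := range ⌈b * X / r ^ 2⌉₊), Finset.mul_sum]
  · refine Finset.sum_congr rfl fun d _ => ?_
    by_cases hd : R d
    · simp only [hd, if_true]
      ring
    · simp only [hd, if_false]
      ring
  · intro d hd
    have hd' : b * X / r ^ 2 ≤ d := by
      refine (Nat.le_ceil _).trans ?_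
      exact_mod_cast not_lt.mp fun h => hd (Finset.mem_range.mpr h)
    have h0 : F (d * r ^ 2 / X) = 0 := by
      by_contra hne
      have h1 := (hF.supp _ hne).2
      rw [div_le_iff₀ (by positivity)] at hd'
      rw [div_lt_iff₀ hX] at h1
      linarith
    rw [h0, zero_mul, ite_self]

private lemma g_ii {V : ℝ} (hV : 0 ≤ V) {f : ℝ → ℝ} (hf : ContinuousOn f (Set.Icc 0 V)) :
    IntervalIntegrable f volume 0 V := hf.intervalIntegrable_of_Icc hV

/-- the finite averages -/
private lemma g_fin {V g₀ : ℝ} (hV : 0 ≤ V) {w u : ℝ → ℝ} (hw : ContinuousOn w (Set.Icc 0 V))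
    (hu : ContinuousOn u (Set.Icc 0 V))
    {N : ℕ} {cf : ℕ → ℝ} {f : ℕ → ℝ → ℝ} (hf : ∀ d, ContinuousOn (f d) (Set.Icc 0 V))
    {G : ℝ → ℝ → ℝ} (hG : ∀ v v', G v v' = ∑ d ∈ range N, cf d * (f d v * f d v')) :
    ContinuousOn (fun v => G v v) (Set.Icc 0 V) ∧
    (∀ v, ContinuousOn (fun v' => G v v') (Set.Icc 0 V)) ∧
    ContinuousOn (fun v => ∫ v' in (0 : ℝ)..V, u v' * G v v') (Set.Icc 0 V) ∧
    ∑ d ∈ range N, cf d * qu w u g₀ V (f d) =
      (∫ v in (0 : ℝ)..V, w v * G v v) +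
        g₀ * ∫ v in (0 : ℝ)..V, u v * ∫ v' in (0 : ℝ)..V, u v' * G v v' := by
  have hJ : ∀ v, ∫ v' in (0 : ℝ)..V, u v' * G v v' =
      ∑ d ∈ range N, cf d * (f d v * ∫ v' in (0 : ℝ)..V, u v' * f d v') := by
    intro v
    have e : (fun v' => u v' * G v v') =
        fun v' => ∑ d ∈ range N, (cf d * f d v) * (u v' * f d v') := by
      funext v'
      rw [hG, Finset.mul_sum]
      exact Finset.sum_congr rfl fun d _ => by ring
    have hi : ∀ d ∈ range N, IntervalIntegrable
        (fun v' => (cf d * f d v) * (u v' * f d v')) volume 0 V :=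
      fun d _ => g_ii hV (continuousOn_const.mul (hu.mul (hf d)))
    rw [e, intervalIntegral.integral_finsetSum hi]
    refine Finset.sum_congr rfl fun d _ => ?_
    rw [intervalIntegral.integral_const_mul, mul_assoc]
  refine ⟨?_, ?_, ?_, ?_⟩
  · have e : (fun v => G v v) = fun v => ∑ d ∈ range N, cf d * (f d v * f d v) := by
      funext v; rw [hG]
    rw [e]
    exact continuousOn_finsetSum _ fun d _ => continuousOn_const.mul ((hf d).mul (hf d))
  · intro v
    have e : (fun v' => G v v') = fun v' => ∑ d ∈ range N, cf d * (f d v * f d v') := by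
      funext v'; rw [hG]
    rw [e]
    exact continuousOn_finsetSum _ fun d _ =>
      continuousOn_const.mul (continuousOn_const.mul (hf d))
  · rw [funext hJ]
    exact continuousOn_finsetSum _ fun d _ =>
      continuousOn_const.mul ((hf d).mul continuousOn_const)
  · have e1 : ∫ v in (0 : ℝ)..V, w v * G v v =
        ∑ d ∈ range N, cf d * ∫ v in (0 : ℝ)..V, w v * f d v ^ 2 := by
      have e : (fun v => w v * G v v) = fun v => ∑ d ∈ range N, cf d * (w v * f d v ^ 2) := by
        funext v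
        rw [hG, Finset.mul_sum]
        exact Finset.sum_congr rfl fun d _ => by ring
      have hi : ∀ d ∈ range N, IntervalIntegrable (fun v => cf d * (w v * f d v ^ 2)) volume 0 V :=
        fun d _ => g_ii hV (continuousOn_const.mul (hw.mul ((hf d).pow 2)))
      rw [e, intervalIntegral.integral_finsetSum hi]
      refine Finset.sum_congr rfl fun d _ => ?_
      rw [intervalIntegral.integral_const_mul]
    have e2 : ∫ v in (0 : ℝ)..V, u v * ∫ v' in (0 : ℝ)..V, u v' * G v v' =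
        ∑ d ∈ range N, cf d * (∫ v in (0 : ℝ)..V, u v * f d v) ^ 2 := by
      have e : (fun v => u v * ∫ v' in (0 : ℝ)..V, u v' * G v v') = fun v =>
          ∑ d ∈ range N, cf d * ((u v * f d v) * ∫ v' in (0 : ℝ)..V, u v' * f d v') := by
        funext v
        rw [hJ, Finset.mul_sum]
        exact Finset.sum_congr rfl fun d _ => by ring
      have hi : ∀ d ∈ range N, IntervalIntegrable
          (fun v => cf d * ((u v * f d v) * ∫ v' in (0 : ℝ)..V, u v' * f d v')) volume 0 V :=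
        fun d _ => g_ii hV (continuousOn_const.mul ((hu.mul (hf d)).mul continuousOn_const))
      rw [e, intervalIntegral.integral_finsetSum hi]
      refine Finset.sum_congr rfl fun d _ => ?_
      rw [intervalIntegral.integral_const_mul, intervalIntegral.integral_mul_const, sq]
    rw [e1, e2, Finset.mul_sum, ← Finset.sum_add_distrib]
    refine Finset.sum_congr rfl fun d _ => ?_
    unfold qu
    ring

private lemma g_diff {V ε : ℝ} (hV : 0 ≤ V) {f g : ℝ → ℝ} (hf : ContinuousOn f (Set.Icc 0 V))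
    (hg : ContinuousOn g (Set.Icc 0 V)) (h : ∀ v ∈ Set.Icc 0 V, |f v - g v| ≤ ε) :
    |(∫ v in (0 : ℝ)..V, f v) - ∫ v in (0 : ℝ)..V, g v| ≤ V * ε := by
  rw [← intervalIntegral.integral_sub (g_ii hV hf) (g_ii hV hg)]
  have h1 := intervalIntegral.norm_integral_le_of_norm_le_const (a := 0) (b := V) (C := ε)
    (f := fun v => f v - g v) fun v hv => by
      rw [Set.uIoc_of_le hV] at hv
      rw [Real.norm_eq_abs]
      exact h v ⟨hv.1.le, hv.2⟩
  rw [Real.norm_eq_abs, sub_zero, abs_of_nonneg hV] at h1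
  linarith

/-- uniform limits of continuous functions -/
private lemma g_cont {V : ℝ} {fX : ℝ → ℝ → ℝ} {f : ℝ → ℝ}
    (hc : ∀ᶠ X in atTop, ContinuousOn (fX X) (Set.Icc 0 V))
    (hu : ∀ ε : ℝ, 0 < ε → ∀ᶠ X in atTop, ∀ v ∈ Set.Icc 0 V, |fX X v - f v| ≤ ε) :
    ContinuousOn f (Set.Icc 0 V) := by
  have h1 : TendstoUniformlyOn fX f atTop (Set.Icc 0 V) := by
    rw [Metric.tendstoUniformlyOn_iff]
    intro ε hε
    filter_upwards [hu (ε / 2) (by positivity)] with X hX v hv
    rw [dist_comm, Real.dist_eq]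
    linarith only [hε, hX, hv, hX v hv]
  exact h1.continuousOn hc.frequently

/-- The average of the quadratic functional (rank one part with weight `u`). -/
theorem gavg {R : ℕ → Prop} {D δ θ : ℝ} (hδ : 0 < δ) (hδ4 : δ ≤ 1 / 4) (hDn : Dens R D)
    {F : ℝ → ℝ} (hF : Bump F (1 / 2) 4) (hFn : ∀ t, 0 ≤ F t) (hF0 : 0 < ∫ t, F t)
    {ρ h : ℝ → ℝ}
    (hρ : Bump ρ (-(δ / 2)) (δ / 2)) (hρn : ∀ y, 0 ≤ ρ y)
    (hρ1 : ∫ y, ρ y = 1) (hh : Bump h (2 * δ) θ)
    {T₀ : ℝ → ℕ → ℝ → ℝ} (hTc : ∀ X : ℝ, 1 < X → ∀ d, Continuous (T₀ X d))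
    (hM1 : Mom1 R D δ ρ h T₀) (hM2 : Mom2 R D δ ρ h T₀)
    {w u : ℝ → ℝ} {g₀ : ℝ} (hg : 0 < g₀)
    (hw : ContinuousOn w (Set.Icc 0 (1 / 2 + δ))) (hwp : ∀ v ∈ Set.Icc 0 (1 / 2 + δ), 0 < w v)
    (hu : ContinuousOn u (Set.Icc 0 (1 / 2 + δ))) (hup : ∀ v ∈ Set.Icc 0 (1 / 2 + δ), 0 ≤ u v)
    {y : ℝ → ℝ} (hy : ContinuousOn y (Set.Icc 0 (1 / 2 + δ))) :
    ∃ Es : ℝ, Es ≤ qbu w u g₀ (1 / 2 + δ) (∫ t, h t ^ 2) (fun v => y v - HH h 0) ∧
    ∀ r : ℕ, Odd r → Squarefree r → Tendsto (fun X : ℝ => avR R D F r X (fun d =>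
        qu w u g₀ (1 / 2 + δ) (fun v => y v - T₀ X (r ^ 2 * d) (1 / 2 - v))))
      atTop (𝓝 ((∫ t, F t) * Es)) := by
  set V : ℝ := 1 / 2 + δ with hVdef
  have hV : 0 < V := by rw [hVdef]; linarith only [hδ, hδ4]
  have hconst : ∀ t ≤ 2 * δ, HH h t = HH h 0 := fun t ht =>
    (g_HH hh ht).trans (g_HH hh (by linarith)).symm
  set m := HH h 0 with hm
  set Φ := ∫ t, F t with hΦ
  set s := ∫ t, h t ^ 2 with hs
  have hs0 : 0 ≤ s := integral_nonneg fun t => sq_nonneg _
  obtain ⟨B, hB⟩ := isCompact_Icc.exists_bound_of_continuousOn hy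
  have hB0 : 0 ≤ B := (norm_nonneg _).trans (hB 0 ⟨le_rfl, hV.le⟩)
  obtain ⟨W, hW⟩ := isCompact_Icc.exists_bound_of_continuousOn hw
  have hW0 : 0 ≤ W := (norm_nonneg _).trans (hW 0 ⟨le_rfl, hV.le⟩)
  obtain ⟨U, hU⟩ := isCompact_Icc.exists_bound_of_continuousOn hu
  have hU0 : 0 ≤ U := (norm_nonneg _).trans (hU 0 ⟨le_rfl, hV.le⟩)
  -- the limit
  set G : ℝ → ℝ → ℝ := fun v v' =>
    y v * y v' - m * y v - m * y v' + CC ρ ρ h (1 / 2 - v) (1 / 2 - v') with hG
  -- the averages
  set f : ℕ → ℝ → ℕ → ℝ → ℝ := fun r X d v =>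
    y v - T₀ X (r ^ 2 * d) (1 / 2 - v) with hf
  set GX : ℕ → ℝ → ℝ → ℝ → ℝ := fun r X v v' => avR R D F r X (fun d => f r X d v * f r X d v')
    with hGX
  have hfc : ∀ r X, 1 < X → ∀ d, ContinuousOn (f r X d) (Set.Icc 0 V) := by
    intro r X hX d
    exact hy.sub ((hTc X hX (r ^ 2 * d)).comp (continuous_const.sub continuous_id)).continuousOn
  -- facts for fixed X
  have hfix : ∀ r : ℕ, 0 < r → ∀ X : ℝ, 1 < X →
      ContinuousOn (fun v => GX r X v v) (Set.Icc 0 V) ∧
      (∀ v, ContinuousOn (fun v' => GX r X v v') (Set.Icc 0 V)) ∧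
      ContinuousOn (fun v => ∫ v' in (0 : ℝ)..V, u v' * GX r X v v') (Set.Icc 0 V) ∧
      avR R D F r X (fun d => qu w u g₀ V (f r X d)) =
        (∫ v in (0 : ℝ)..V, w v * GX r X v v) +
          g₀ * ∫ v in (0 : ℝ)..V, u v * ∫ v' in (0 : ℝ)..V, u v' * GX r X v v' := by
    intro r hr X hX
    obtain ⟨N, cf, hN⟩ := avR_fin (R := R) (D := D) hF hr (X := X) (by linarith only [hδ, hδ4, hX])
    rw [hN (fun d => qu w u g₀ V (f r X d))]
    exact g_fin hV.le hw hu (hfc r X hX) fun v v' => hN (fun d => f r X d v * f r X d v')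
  -- uniform convergence
  have hunif : ∀ r : ℕ, Odd r → Squarefree r → ∀ ε : ℝ, 0 < ε → ∀ᶠ X in atTop,
      ∀ v ∈ Set.Icc 0 V, ∀ v' ∈ Set.Icc 0 V, |GX r X v v' - Φ * G v v'| ≤ ε := by
    intro r hr hrs ε hε
    have hr0 : 0 < r := hr.pos
    have hε' : 0 < ε / (B + 1) ^ 2 := by positivity
    obtain ⟨X0, hX0⟩ := hDn F hF hFn hF0 r hr hrs _ hε'
    obtain ⟨X1, hX1⟩ := hM1 F hF hFn hF0 r hr hrs _ hε'
    obtain ⟨X2, hX2⟩ := hM2 F hF hFn hF0 r hr hrs _ hε'
    filter_upwards [eventually_ge_atTop X0, eventually_ge_atTop X1, eventually_ge_atTop X2,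
      eventually_gt_atTop 1] with X g0 g1 g2 g3 v hv v' hv'
    obtain ⟨N, cf, hN⟩ := avR_fin (R := R) (D := D) hF hr0 (X := X) (by linarith only [hδ, hδ4, g3])
    have hYm : ∀ {u : ℝ}, u ∈ Set.Icc 0 V → 1 / 2 - u ∈ Set.Icc (-(1 / 2) : ℝ) (1 / 2 + δ) := by
      intro u hu
      exact ⟨by have := hu.2; rw [hVdef] at this; linarith only [hδ, hδ4, this], by linarith only [hδ, hu, hu.1]⟩
    have hmY : ∀ {u : ℝ}, u ∈ Set.Icc 0 V → ∫ z, ρ z * HH h (z - (1 / 2 - u)) = m := by
      intro u hu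
      have e : (fun z => ρ z * HH h (z - (1 / 2 - u))) = fun z => ρ z * m := by
        funext z
        by_cases hz : ρ z = 0
        · rw [hz]; ring
        · have := (hρ.supp z hz).2
          rw [hconst _ (by have := hu.2; rw [hVdef] at this; linarith)]
      rw [e, integral_mul_const, hρ1, one_mul]
    have k0 := hX0 X g0
    have k1 := hX1 X g1 _ (hYm hv)
    have k1' := hX1 X g1 _ (hYm hv')
    have k2 := hX2 X g2 _ (hYm hv) _ (hYm hv')
    rw [hmY hv] at k1
    rw [hmY hv'] at k1'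
    have n0 := hN (fun _ => 1)
    simp only [mul_one] at n0
    rw [n0] at k0
    rw [hN (fun d => T₀ X (r ^ 2 * d) (1 / 2 - v))] at k1
    rw [hN (fun d => T₀ X (r ^ 2 * d) (1 / 2 - v'))] at k1'
    rw [hN (fun d => T₀ X (r ^ 2 * d) (1 / 2 - v) * T₀ X (r ^ 2 * d) (1 / 2 - v'))] at k2
    have hexp : GX r X v v' = y v * y v' * (∑ d ∈ range N, cf d) -
        y v * (∑ d ∈ range N, cf d * T₀ X (r ^ 2 * d) (1 / 2 - v')) -
        y v' * (∑ d ∈ range N, cf d * T₀ X (r ^ 2 * d) (1 / 2 - v)) +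
        ∑ d ∈ range N, cf d * (T₀ X (r ^ 2 * d) (1 / 2 - v) *
          T₀ X (r ^ 2 * d) (1 / 2 - v')) := by
      have h1 : GX r X v v' = ∑ d ∈ range N, cf d * (f r X d v * f r X d v') :=
        hN (fun d => f r X d v * f r X d v')
      rw [h1, Finset.mul_sum, Finset.mul_sum, Finset.mul_sum, ← Finset.sum_sub_distrib,
        ← Finset.sum_sub_distrib, ← Finset.sum_add_distrib]
      refine Finset.sum_congr rfl fun d _ => ?_
      simp only [hf]
      ring
    have hyv := hB v hv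
    have hyv' := hB v' hv'
    rw [Real.norm_eq_abs] at hyv hyv'
    set M0 := ∑ d ∈ range N, cf d
    set M1 := ∑ d ∈ range N, cf d * T₀ X (r ^ 2 * d) (1 / 2 - v)
    set M1' := ∑ d ∈ range N, cf d * T₀ X (r ^ 2 * d) (1 / 2 - v')
    set M2 := ∑ d ∈ range N, cf d * (T₀ X (r ^ 2 * d) (1 / 2 - v) *
      T₀ X (r ^ 2 * d) (1 / 2 - v'))
    have hdiff : GX r X v v' - Φ * G v v' = y v * y v' * (M0 - Φ) - y v * (M1' - Φ * m) -
        y v' * (M1 - Φ * m) + (M2 - Φ * CC ρ ρ h (1 / 2 - v) (1 / 2 - v')) := by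
      rw [hexp, hG]
      ring
    rw [hdiff]
    set η := ε / (B + 1) ^ 2 with hη
    have b0 : |y v * y v' * (M0 - Φ)| ≤ B * B * η := by
      rw [abs_mul, abs_mul]
      exact mul_le_mul (mul_le_mul hyv hyv' (abs_nonneg _) hB0) k0 (abs_nonneg _)
        (mul_nonneg hB0 hB0)
    have b1 : |y v * (M1' - Φ * m)| ≤ B * η := by
      rw [abs_mul]
      exact mul_le_mul hyv k1' (abs_nonneg _) hB0
    have b2 : |y v' * (M1 - Φ * m)| ≤ B * η := by
      rw [abs_mul]
      exact mul_le_mul hyv' k1 (abs_nonneg _) hB0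
    have hεη : ε = (B + 1) ^ 2 * η := by
      rw [hη]; field_simp
    rw [hεη]
    obtain ⟨b0l, b0u⟩ := abs_le.mp b0
    obtain ⟨b1l, b1u⟩ := abs_le.mp b1
    obtain ⟨b2l, b2u⟩ := abs_le.mp b2
    obtain ⟨k2l, k2u⟩ := abs_le.mp k2
    rw [abs_le]
    constructor <;> nlinarith only [b0l, b1u, b2u, k2l, b0u, b1l, b2l, k2u]
  -- continuity of the limit
  have hGd : ContinuousOn (fun v => G v v) (Set.Icc 0 V) := by
    have h1 : ContinuousOn (fun v => Φ * G v v) (Set.Icc 0 V) := by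
      refine g_cont (fX := fun X v => GX 1 X v v) ?_ fun ε hε => ?_
      · filter_upwards [eventually_gt_atTop 1] with X hX
        exact (hfix 1 one_pos X hX).1
      · filter_upwards [hunif 1 odd_one squarefree_one ε hε] with X hX v hv
        exact hX v hv v hv
    refine (continuousOn_const.mul h1).congr (g := fun v => G v v) (f := fun v => Φ⁻¹ * (Φ * G v v))
      fun v _ => ?_
    exact (inv_mul_cancel_left₀ hF0.ne' _).symm
  have hGv : ∀ v ∈ Set.Icc 0 V, ContinuousOn (fun v' => G v v') (Set.Icc 0 V) := by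
    intro v hv
    have h1 : ContinuousOn (fun v' => Φ * G v v') (Set.Icc 0 V) := by
      refine g_cont (fX := fun X v' => GX 1 X v v') ?_ fun ε hε => ?_
      · filter_upwards [eventually_gt_atTop 1] with X hX
        exact (hfix 1 one_pos X hX).2.1 v
      · filter_upwards [hunif 1 odd_one squarefree_one ε hε] with X hX v' hv'
        exact hX v hv v' hv'
    refine (continuousOn_const.mul h1).congr (g := fun v' => G v v')
      (f := fun v' => Φ⁻¹ * (Φ * G v v')) fun v' _ => ?_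
    exact (inv_mul_cancel_left₀ hF0.ne' _).symm
  -- the inner integrals converge uniformly
  have hJu : ∀ r : ℕ, Odd r → Squarefree r → ∀ ε : ℝ, 0 < ε → ∀ᶠ X in atTop,
      ∀ v ∈ Set.Icc 0 V, |(∫ v' in (0 : ℝ)..V, u v' * GX r X v v') -
        Φ * ∫ v' in (0 : ℝ)..V, u v' * G v v'| ≤ ε := by
    intro r hr hrs ε hε
    filter_upwards [hunif r hr hrs (ε / (V * (U + 1))) (by positivity),
      eventually_gt_atTop 1] with X hX hX1 v hv
    rw [← intervalIntegral.integral_const_mul]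
    have h1 := g_diff hV.le (f := fun v' => u v' * GX r X v v')
      (g := fun v' => Φ * (u v' * G v v')) (hu.mul ((hfix r hr.pos X hX1).2.1 v))
      (continuousOn_const.mul (hu.mul (hGv v hv))) (ε := U * (ε / (V * (U + 1)))) (fun v' hv' => by
        have h2 := hX v hv v' hv'
        have h3 := hU v' hv'
        rw [Real.norm_eq_abs] at h3
        show |u v' * GX r X v v' - Φ * (u v' * G v v')| ≤ _
        have e : u v' * GX r X v v' - Φ * (u v' * G v v') =
            u v' * (GX r X v v' - Φ * G v v') := by ring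
        rw [e, abs_mul]
        exact mul_le_mul h3 h2 (abs_nonneg _) hU0)
    refine h1.trans ?_
    have e : V * (U * (ε / (V * (U + 1)))) = ε * (U / (U + 1)) := by field_simp
    rw [e]
    have h4 : U / (U + 1) ≤ 1 := by rw [div_le_one (by positivity)]; linarith only [hδ, hδ4]
    calc ε * (U / (U + 1)) ≤ ε * 1 := mul_le_mul_of_nonneg_left h4 hε.le
      _ = ε := mul_one ε
  have hJc : ContinuousOn (fun v => ∫ v' in (0 : ℝ)..V, u v' * G v v') (Set.Icc 0 V) := by
    have h1 : ContinuousOn (fun v => Φ * ∫ v' in (0 : ℝ)..V, u v' * G v v') (Set.Icc 0 V) := by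
      refine g_cont (fX := fun X v => ∫ v' in (0 : ℝ)..V, u v' * GX 1 X v v') ?_ fun ε hε => ?_
      · filter_upwards [eventually_gt_atTop 1] with X hX
        exact (hfix 1 one_pos X hX).2.2.1
      · exact hJu 1 odd_one squarefree_one ε hε
    refine (continuousOn_const.mul h1).congr (g := fun v => ∫ v' in (0 : ℝ)..V, u v' * G v v')
      (f := fun v => Φ⁻¹ * (Φ * ∫ v' in (0 : ℝ)..V, u v' * G v v')) fun v _ => ?_
    exact (inv_mul_cancel_left₀ hF0.ne' _).symm
  refine ⟨(∫ v in (0 : ℝ)..V, w v * G v v) +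
    g₀ * ∫ v in (0 : ℝ)..V, u v * ∫ v' in (0 : ℝ)..V, u v' * G v v', ?_, ?_⟩
  · -- the bound
    set e : ℝ → ℝ := fun v => y v - m with he
    have hec : ContinuousOn e (Set.Icc 0 V) := hy.sub continuousOn_const
    have hGle : ∀ v ∈ Set.Icc 0 V, ∀ v' ∈ Set.Icc 0 V,
        G v v' ≤ e v * e v' + s * min (V - v) (V - v') := by
      intro v hv v' hv'
      have h1 := g_CC hδ hρ hρn hρ1 hh hv hv'
      rw [hG, he]
      simp only
      nlinarith only [h1]
    unfold qbu
    refine add_le_add ?_ (mul_le_mul_of_nonneg_left ?_ hg.le)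
    · refine intervalIntegral.integral_mono_on hV.le (g_ii hV.le (hw.mul hGd))
        (g_ii hV.le (hw.mul ((continuousOn_const.mul
          (continuousOn_const.sub continuousOn_id)).add (hec.pow 2)))) fun v hv => ?_
      refine mul_le_mul_of_nonneg_left ?_ (hwp v hv).le
      have := hGle v hv v hv
      rw [min_self] at this
      nlinarith only [this]
    · have hmc : ∀ v : ℝ, Continuous fun v' : ℝ => min (V - v) (V - v') := fun v => by fun_prop
      have hmj : ContinuousOn (fun v : ℝ => ∫ v' in (0 : ℝ)..V, u v' * min (V - v) (V - v'))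
          (Set.Icc 0 V) := by
        refine Continuous.continuousOn ?_
        have hlip : ∀ v₁ v₂ : ℝ, |(∫ v' in (0 : ℝ)..V, u v' * min (V - v₁) (V - v')) -
            ∫ v' in (0 : ℝ)..V, u v' * min (V - v₂) (V - v')| ≤ V * (U * |v₁ - v₂|) := by
          intro v₁ v₂
          refine g_diff hV.le (hu.mul (hmc v₁).continuousOn) (hu.mul (hmc v₂).continuousOn)
            fun v' hv' => ?_
          rw [← mul_sub, abs_mul]
          have h3 := hU v' hv'
          rw [Real.norm_eq_abs] at h3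
          refine mul_le_mul h3 ?_ (abs_nonneg _) hU0
          have h4 := abs_min_sub_min_le_max (V - v₁) (V - v') (V - v₂) (V - v')
          rw [sub_self, abs_zero] at h4
          refine h4.trans (max_le ?_ (abs_nonneg _))
          rw [show V - v₁ - (V - v₂) = -(v₁ - v₂) by ring, abs_neg]
        refine (LipschitzWith.of_dist_le_mul (K := ⟨V * U, by positivity⟩) fun v₁ v₂ => ?_).continuous
        rw [Real.dist_eq, Real.dist_eq]
        refine (hlip v₁ v₂).trans (le_of_eq ?_)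
        show V * (U * |v₁ - v₂|) = (V * U) * |v₁ - v₂|
        ring
      have h1 : ∫ v in (0 : ℝ)..V, u v * ∫ v' in (0 : ℝ)..V, u v' * G v v' ≤
          ∫ v in (0 : ℝ)..V, (u v * e v * (∫ v' in (0 : ℝ)..V, u v' * e v') +
            s * (u v * ∫ v' in (0 : ℝ)..V, u v' * min (V - v) (V - v'))) := by
        refine intervalIntegral.integral_mono_on hV.le (g_ii hV.le (hu.mul hJc))
          (g_ii hV.le (((hu.mul hec).mul continuousOn_const).add
            (continuousOn_const.mul (hu.mul hmj)))) fun v hv => ?_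
        have h2 : ∫ v' in (0 : ℝ)..V, u v' * G v v' ≤
            ∫ v' in (0 : ℝ)..V, (e v * (u v' * e v') + s * (u v' * min (V - v) (V - v'))) :=
          intervalIntegral.integral_mono_on hV.le (g_ii hV.le (hu.mul (hGv v hv)))
            (g_ii hV.le ((continuousOn_const.mul (hu.mul hec)).add
              (continuousOn_const.mul (hu.mul (hmc v).continuousOn)))) fun v' hv' => by
                have h5 := mul_le_mul_of_nonneg_left (hGle v hv v' hv') (hup v' hv')
                refine h5.trans (le_of_eq ?_)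
                ring
        have h4 : ∫ v' in (0 : ℝ)..V, (e v * (u v' * e v') + s * (u v' * min (V - v) (V - v'))) =
            (∫ v' in (0 : ℝ)..V, e v * (u v' * e v')) +
              ∫ v' in (0 : ℝ)..V, s * (u v' * min (V - v) (V - v')) :=
          intervalIntegral.integral_add (g_ii hV.le (continuousOn_const.mul (hu.mul hec)))
            (g_ii hV.le (continuousOn_const.mul (hu.mul (hmc v).continuousOn)))
        rw [h4, intervalIntegral.integral_const_mul, intervalIntegral.integral_const_mul] at h2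
        have h6 := mul_le_mul_of_nonneg_left h2 (hup v hv)
        refine h6.trans (le_of_eq ?_)
        ring
      refine h1.trans (le_of_eq ?_)
      have h4 : ∫ v in (0 : ℝ)..V, (u v * e v * (∫ v' in (0 : ℝ)..V, u v' * e v') +
            s * (u v * ∫ v' in (0 : ℝ)..V, u v' * min (V - v) (V - v'))) =
          (∫ v in (0 : ℝ)..V, u v * e v * ∫ v' in (0 : ℝ)..V, u v' * e v') +
            ∫ v in (0 : ℝ)..V, s * (u v * ∫ v' in (0 : ℝ)..V, u v' * min (V - v) (V - v')) :=
        intervalIntegral.integral_add (g_ii hV.le ((hu.mul hec).mul continuousOn_const))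
          (g_ii hV.le (continuousOn_const.mul (hu.mul hmj)))
      rw [h4, intervalIntegral.integral_mul_const, intervalIntegral.integral_const_mul]
      ring
  · -- convergence
    intro r hr hrs
    rw [Metric.tendsto_atTop]
    intro ε hε
    set η := ε / (2 * (V * W + g₀ * V * U + 1)) with hη
    have hden : 0 < V * W + g₀ * V * U + 1 := by (clear * - hδ hW0 hg hU0; positivity)
    have hη0 : 0 < η := by (clear * - hε hδ hW0 hg hU0; positivity)
    have hev := (hunif r hr hrs η hη0).and ((hJu r hr hrs η hη0).and (eventually_gt_atTop 1))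
    obtain ⟨X0, hX0⟩ := Filter.eventually_atTop.mp hev
    refine ⟨X0, fun X hX => ?_⟩
    obtain ⟨k1, k2, k3⟩ := hX0 X hX
    obtain ⟨c1, c2, c3, c4⟩ := hfix r hr.pos X k3
    have e1 : avR R D F r X (fun d =>
        qu w u g₀ V (fun v => y v - T₀ X (r ^ 2 * d) (1 / 2 - v))) =
        (∫ v in (0 : ℝ)..V, w v * GX r X v v) +
          g₀ * ∫ v in (0 : ℝ)..V, u v * ∫ v' in (0 : ℝ)..V, u v' * GX r X v v' := c4
    rw [e1, Real.dist_eq]
    have d1 := g_diff hV.le (hw.mul c1) (hw.mul (continuousOn_const.mul hGd)) (ε := W * η)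
      (fun v hv => by
        have h1 := k1 v hv v hv
        have h2 := hW v hv
        rw [Real.norm_eq_abs] at h2
        show |w v * GX r X v v - w v * (Φ * G v v)| ≤ W * η
        rw [← mul_sub, abs_mul]
        exact mul_le_mul h2 h1 (abs_nonneg _) hW0)
    have d2 := g_diff hV.le (hu.mul c3) (hu.mul (continuousOn_const.mul hJc)) (ε := U * η)
      (fun v hv => by
        have h1 := k2 v hv
        have h2 := hU v hv
        rw [Real.norm_eq_abs] at h2
        show |u v * (∫ v' in (0 : ℝ)..V, u v' * GX r X v v') -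
          u v * (Φ * ∫ v' in (0 : ℝ)..V, u v' * G v v')| ≤ U * η
        rw [← mul_sub, abs_mul]
        exact mul_le_mul h2 h1 (abs_nonneg _) hU0)
    have e2 : ∫ v in (0 : ℝ)..V, w v * (Φ * G v v) = Φ * ∫ v in (0 : ℝ)..V, w v * G v v := by
      rw [← intervalIntegral.integral_const_mul]
      congr 1
      funext v
      ring
    have e3 : ∫ v in (0 : ℝ)..V, u v * (Φ * (∫ v' in (0 : ℝ)..V, u v' * G v v')) =
        Φ * ∫ v in (0 : ℝ)..V, u v * ∫ v' in (0 : ℝ)..V, u v' * G v v' := by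
      rw [← intervalIntegral.integral_const_mul]
      congr 1
      funext v
      ring
    have d1' : |(∫ v in (0 : ℝ)..V, w v * GX r X v v) -
        Φ * ∫ v in (0 : ℝ)..V, w v * G v v| ≤ V * (W * η) := by
      rw [← e2]; exact d1
    have d2' : |(∫ v in (0 : ℝ)..V, u v * ∫ v' in (0 : ℝ)..V, u v' * GX r X v v') -
        Φ * ∫ v in (0 : ℝ)..V, u v * ∫ v' in (0 : ℝ)..V, u v' * G v v'| ≤ V * (U * η) := by
      rw [← e3]; exact d2
    set A1 := ∫ v in (0 : ℝ)..V, w v * GX r X v v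
    set A2 := ∫ v in (0 : ℝ)..V, u v * ∫ v' in (0 : ℝ)..V, u v' * GX r X v v'
    set B1 := ∫ v in (0 : ℝ)..V, w v * G v v
    set B2 := ∫ v in (0 : ℝ)..V, u v * ∫ v' in (0 : ℝ)..V, u v' * G v v'
    have hfin : |A1 + g₀ * A2 - Φ * (B1 + g₀ * B2)| ≤ V * (W * η) + g₀ * (V * (U * η)) := by
      have e : A1 + g₀ * A2 - Φ * (B1 + g₀ * B2) = (A1 - Φ * B1) + g₀ * (A2 - Φ * B2) := by ring
      rw [e]
      refine (abs_add_le _ _).trans (add_le_add d1' ?_)
      rw [abs_mul, abs_of_pos hg]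
      exact mul_le_mul_of_nonneg_left d2' hg.le
    refine lt_of_le_of_lt hfin ?_
    have hεη : ε = 2 * (V * W + g₀ * V * U + 1) * η := by
      rw [hη]; field_simp
    rw [hεη]
    nlinarith only [hε, hη0, hεη, mul_nonneg (mul_nonneg hV.le hW0) hη0.le,
      mul_nonneg (mul_nonneg (mul_nonneg hg.le hV.le) hU0) hη0.le]

end Pool.Agent.MP0016c7.Rz
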