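import Mathlib
import Pool.Agent.Lib.MP_0016c7_nt.Theta
import Pool.Agent.Lib.MP_0016c7_nt.Rz.Defs
import Pool.Agent.Lib.MP_0016c7_nt.Rz.DefsC
import Pool.Agent.Lib.MP_0016c7_nt.Rz.DefsF
import Pool.Agent.Lib.MP_0016c7_nt.Rz.DefsE
import Pool.Agent.Lib.MP_0016c7_nt.Rz.Gen0
import Pool.Agent.Lib.MP_0016c7_nt.Rz.Van1
import Pool.Agent.Lib.MP_0016c7_nt.Rz.DetL
import Pool.Agent.Lib.MP_0016c7_nt.Rz.Rt2
import Pool.Agent.Lib.MP_0016c7_nt.Rz.Rt0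
import Pool.Agent.Lib.MP_0016c7_nt.Rz.Sm4
import Pool.Agent.Lib.MP_0016c7_nt.Rz.Sm5
import Pool.Agent.Lib.MP_0016c7_nt.Rz.Ker4
import Pool.Agent.Lib.MP_0016c7_nt.Rz.Fa4

set_option autoImplicit false

/-!
The family of discriminants `8 σ d` in the generic assembly.
-/

open Finset MeasureTheory Filter Topology
open scoped Real ContDiff

namespace Pool.Agent.MP0016c7.Rz

private lemma avR_odd (F : ℝ → ℝ) (r : ℕ) (X : ℝ) (g : ℕ → ℝ) :
    avR Odd (1 / 2) F r X g =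
      2 * r ^ 2 / X * ∑' d : ℕ, (if Odd d then F (d * r ^ 2 / X) * g d else 0) := by
  unfold avR
  have e1 : (r : ℝ) ^ 2 / (1 / 2 * X) = 2 * r ^ 2 / X := by
    rw [one_div, inv_mul_eq_div, div_div_eq_mul_div]
    ring
  rw [e1]
  congr 1
  refine tsum_congr fun d => ?_
  by_cases hd : Odd d
  · rw [if_pos hd, if_pos hd]
  · rw [if_neg hd, if_neg hd]

private lemma a_HH {h : ℝ → ℝ} {a θ : ℝ} (hh : Bump h a θ) {t : ℝ} (ht : t ≤ a) :
    HH h t = ∫ x, h x := by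
  unfold HH
  refine setIntegral_eq_integral_of_forall_compl_eq_zero fun x hx => ?_
  by_contra hne
  have := (hh.supp x hne).1
  exact hx (lt_of_le_of_lt ht this)

theorem badH_A {θ₀ δ : ℝ} (hθ₀ : 0 < θ₀) (hδ : 0 < δ) (hδ' : δ ≤ 1 / 100)
    (hlen : θ₀ + 6 * δ < 1 / 2)
    {ρ h : ℝ → ℝ} (hρ : Bump ρ (-(δ / 2)) (δ / 2)) (hρn : ∀ y, 0 ≤ ρ y)
    (hρe : ∀ y, ρ (-y) = ρ y) (hρ1 : ∫ y, ρ y = 1) (hh : Bump h (2 * δ) (θ₀ + 3 * δ))
    (hhn : ∀ t, 0 ≤ h t) (hH : ∀ t, Hid θ₀ (t - 2 * δ) ≤ HH h t)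
    (σ : ℤ) (hσ : σ = 1 ∨ σ = -1) :
    Bad Odd (NoZero σ) θ₀ δ (fun X d v => ytil (if σ = 1 then 0 else 1) σ ρ h X d
      (Real.log (8 * d) / (2 * Real.log X) - v)) := by
  intro ε hε0
  have hh0 : Bump h 0 (θ₀ + 3 * δ) :=
    ⟨hh.smooth, fun t ht => ⟨(by linarith [(hh.supp t ht).1]), (hh.supp t ht).2⟩⟩
  set c : ℝ := if σ = 1 then 0 else 1 with hc
  have hc01 : c = 0 ∨ c = 1 := by
    rw [hc]; split_ifs
    · exact Or.inl rfl
    · exact Or.inr rfl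
  obtain ⟨X₁, hdet⟩ := det_lower (θ := θ₀ + 3 * δ) hδ hδ' hθ₀ (by linarith) (by linarith) hρ hρn hρ1 hh0 hhn hH c
    hc01 σ ε hε0
  refine ⟨max X₁ 2, ?_⟩
  intro X hX d hd1 hd2 hodd hsf hbad
  have hX1 : X₁ ≤ X := (le_max_left _ _).trans hX
  have hX2 : (2 : ℝ) ≤ X := (le_max_right _ _).trans hX
  unfold NoZero at hbad
  push Not at hbad
  obtain ⟨hN, χ, hp, h2, hpar, s, hs0, hs1, hz⟩ := hbad
  have hval := fun n : ℕ => char_eq_jr d hodd hsf σ χ hp h2 hpar n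
  have hsym := fun t : ℝ => gth_symm d hodd hsf σ χ hp h2 hpar t
  have hcpar : par χ = c := by
    rcases hpar with ⟨h1, he⟩ | ⟨h1, ho⟩
    · rw [par_even χ he, hc, if_pos h1]
    · rw [par_odd χ ho, hc, if_neg (by rw [h1]; norm_num)]
  obtain ⟨hint, hzero⟩ := vanish d hodd hsf σ χ hp h2 hval hsym hδ hρ hρe hh0 X (by linarith) s
    hs0 hs1 hz
  rw [hcpar] at hint hzero
  have hdet' := hdet X hX1 d hd1 hd2 (s - 1 / 2) (by rw [abs_le]; constructor <;> linarith)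
  exact ⟨(s - 1 / 2) * Real.log X, hint, hzero, hdet'⟩

theorem famH_A {θ₀ δ : ℝ} (hθ₀ : 0 < θ₀) (hδ : 0 < δ) (hδ' : δ ≤ 1 / 100)
    (hlen : θ₀ + 6 * δ < 1 / 2) (hE : ErrS (θ₀ + 3 * δ) δ) (σ : ℤ) (hσ : σ = 1 ∨ σ = -1) :
    FamH Odd (NoZero σ) (1 / 2) θ₀ δ := by
  refine ⟨fun d hd => hd, fun r d hr => ?_, by norm_num, ?_, ?_⟩
  · rw [Nat.odd_mul]
    exact ⟨fun h => h.2, fun h => ⟨hr.pow, h⟩⟩
  · intro F hF hFn hF0 r hr hrs ε hε
    obtain ⟨X₀, hX₀⟩ := zero_moment (by norm_num) hF r hr ε hε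
    refine ⟨X₀, fun X hX => ?_⟩
    rw [avR_odd]
    simp only [mul_one]
    exact hX₀ X hX
  · intro ρ h hρ hρn hρe hρ1 hh hhn hHpos hHle
    have hh0 : Bump h 0 (θ₀ + 3 * δ) :=
      ⟨hh.smooth, fun t ht => ⟨(by linarith [(hh.supp t ht).1]), (hh.supp t ht).2⟩⟩
    set c : ℝ := if σ = 1 then 0 else 1 with hc
    have hc01 : c = 0 ∨ c = 1 := by
      rw [hc]; split_ifs
      · exact Or.inl rfl
      · exact Or.inr rfl
    have hcont : ∀ X : ℝ, 1 < X → ∀ d : ℕ, Continuous (fun Y : ℝ => ytil c σ ρ h X d Y) := by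
      intro X hX d
      rw [continuous_iff_continuousAt]
      intro Y
      exact (hasDerivAt_ytil hδ hρ hh0 c hc01 σ X hX d Y).continuousAt
    have hconst : ∀ t ≤ 2 * δ, HH h t = HH h 0 := fun t ht =>
      (a_HH hh ht).trans (a_HH hh (by linarith)).symm
    refine ⟨fun X d Y => ytil c σ ρ h X d Y,
      fun X d v => ytil c σ ρ h X d (Real.log (8 * d) / (2 * Real.log X) - v),
      hcont, fun X hX d => (hcont X hX d).comp (by fun_prop), ?_, ?_, ?_, ?_⟩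
    · intro F hF hFn hF0 r hr hrs ε hε
      obtain ⟨X₀, hX₀⟩ := first_moment (θ := θ₀ + 3 * δ) hδ (by linarith) (by linarith)
        (by linarith) hE (by norm_num) hF hF0 hFn σ hσ r hr hrs c hc01 hρ hρ1 hh0 hconst hHpos ε hε
      refine ⟨X₀, fun X hX Y hY => ?_⟩
      rw [avR_odd]
      exact hX₀ X hX Y ⟨by linarith [hY.1], hY.2⟩
    · intro F hF hFn hF0 r hr hrs ε hε
      obtain ⟨X₀, hX₀⟩ := second_moment (θ := θ₀ + 3 * δ) hδ (by linarith) (by linarith)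
        (by linarith) hE (by norm_num) hF hF0 σ hσ r hr hrs c hc01 hρ hρ hh0 ε hε
      refine ⟨X₀, fun X hX Y₁ hY₁ Y₂ hY₂ => ?_⟩
      rw [avR_odd]
      exact hX₀ X hX Y₁ ⟨by linarith [hY₁.1], hY₁.2⟩ Y₂ ⟨by linarith [hY₂.1], hY₂.2⟩
    · intro ε hε
      obtain ⟨X₀, hX₀⟩ := avg_shift (θ := θ₀ + 3 * δ) hδ (by linarith) (by linarith) (by linarith)
        hE σ hσ c hc01 hρ hh (w := fun _ => 1) (g₀ := 1) one_pos continuousOn_const
        (fun _ _ => one_pos) ε hε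
      refine ⟨X₀, fun X hX S hS => ?_⟩
      refine le_trans (Finset.sum_le_sum fun d _ => ?_) (hX₀ X hX S hS)
      unfold qf
      simp only [one_mul]
      have := sq_nonneg (∫ v in (0 : ℝ)..(1 / 2 + δ), (ytil c σ ρ h X d (1 / 2 - v) -
        ytil c σ ρ h X d (Real.log (8 * d) / (2 * Real.log X) - v)))
      linarith
    · exact badH_A hθ₀ hδ hδ' hlen hρ hρn hρe hρ1 hh hhn hHle σ hσ

end Pool.Agent.MP0016c7.Rz
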