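import Mathlib
import Pool.Agent.Lib.MP_0016c7_nt.Rz.Defs
import Pool.Agent.Lib.MP_0016c7_nt.Rz.DefsF
import Pool.Agent.Lib.MP_0016c7_nt.Rz.Gen0
import Pool.Agent.Lib.MP_0016c7_nt.Rz.GenB
import Pool.Agent.Lib.MP_0016c7_nt.Rz2.DefsG
import Pool.Agent.Lib.MP_0016c7_nt.Rz2.ErrGd0
import Pool.Agent.Lib.MP_0016c7_nt.Rz2.YS1
import Pool.Agent.Lib.MP_0016c7_nt.Rz2.SmS
import Pool.Agent.Lib.MP_0016c7_nt.Rz2.FmS
import Pool.Agent.Lib.MP_0016c7_nt.Rz2.ZmG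
import Pool.Agent.Lib.MP_0016c7_nt.Rz2.AvgS

set_option autoImplicit false

/-!
The families of discriminants `4 σ d` and `σ d` in the generic assembly.
-/

open Finset MeasureTheory Filter Topology
open scoped Real ContDiff

namespace Pool.Agent.MP0016c7.Rz

private lemma f_eps {m c ε : ℤ} {κ : ℕ} (hf : Fam m c ε κ) : ε = 0 ∨ ε = 1 ∨ ε = -1 := by
  rcases hf with ⟨_, _, h, _⟩ | ⟨_, _, h, _⟩ | ⟨_, _, h, _⟩
  · exact Or.inl h
  · exact Or.inr (Or.inl h)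
  · exact Or.inr (Or.inr h)

private lemma f_m {m c ε : ℤ} {κ : ℕ} (hf : Fam m c ε κ) : (0 : ℝ) < m := by
  rcases hf with ⟨h, _⟩ | ⟨h, _⟩ | ⟨h, _⟩ <;> rw [h] <;> norm_num

private lemma f_odd {m c ε : ℤ} {κ : ℕ} (hf : Fam m c ε κ) (σ : ℤ) (hσ : σ = 1 ∨ σ = -1) (d : ℕ)
    (h : Rf m c σ d) : Odd d := by
  have h1 := h.1
  by_contra hd
  rw [Nat.not_odd_iff_even] at hd
  obtain ⟨k, hk⟩ := hd
  rcases hf with ⟨e1, e2, _⟩ | ⟨e1, e2, _⟩ | ⟨e1, e2, _⟩ <;> rcases hσ with e3 | e3 <;>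
    · subst e1 e2 e3 hk
      push_cast at h1
      omega

private lemma f_isSquare (σ : ℤ) (r d : ℕ) (hr : 0 < r) :
    IsSquare (σ * ((r ^ 2 * d : ℕ) : ℤ)) ↔ IsSquare (σ * (d : ℤ)) := by
  have e : σ * ((r ^ 2 * d : ℕ) : ℤ) = (r : ℤ) ^ 2 * (σ * d) := by push_cast; ring
  rw [e]
  constructor
  · rintro ⟨k, hk⟩
    have h1 : (r : ℤ) ^ 2 ∣ k ^ 2 := ⟨σ * d, by rw [sq k, ← hk]⟩
    rw [Int.pow_dvd_pow_iff two_ne_zero] at h1
    obtain ⟨j, rfl⟩ := h1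
    refine ⟨j, ?_⟩
    have h2 : (r : ℤ) ^ 2 ≠ 0 := by positivity
    refine mul_left_cancel₀ h2 ?_
    rw [hk]
    ring
  · rintro ⟨k, hk⟩
    exact ⟨r * k, by rw [hk]; ring⟩

private lemma f_sq {m c ε : ℤ} {κ : ℕ} (hf : Fam m c ε κ) (σ : ℤ) (r d : ℕ) (hr : Odd r) :
    Rf m c σ (r ^ 2 * d) ↔ Rf m c σ d := by
  unfold Rf
  rw [f_isSquare σ r d hr.pos]
  have h8 : ((r : ℤ) ^ 2) % 8 = 1 := by
    obtain ⟨k, hk⟩ := hr
    rw [hk]
    push_cast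
    have h1 : (k : ℤ) * (k + 1) % 2 = 0 := Int.emod_two_eq_zero_or_one _ |>.resolve_right (by
      intro h2
      have := Int.even_mul_succ_self (k : ℤ)
      rw [Int.even_iff] at this
      omega)
    obtain ⟨j, hj⟩ := Int.dvd_of_emod_eq_zero h1
    have h2 : ((2 : ℤ) * k + 1) ^ 2 = 8 * j + 1 := by linear_combination 4 * hj
    rw [h2]
    omega
  have e : σ * ((r ^ 2 * d : ℕ) : ℤ) = (r : ℤ) ^ 2 * (σ * d) := by push_cast; ring
  have h3 : (σ * ((r ^ 2 * d : ℕ) : ℤ)) % 8 = (σ * d) % 8 := by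
    rw [e, Int.mul_emod, h8, one_mul, Int.emod_emod_of_dvd _ dvd_rfl]
  have h4 : (σ * ((r ^ 2 * d : ℕ) : ℤ)) % m = (σ * d) % m := by
    rcases hf with ⟨e1, _⟩ | ⟨e1, _⟩ | ⟨e1, _⟩ <;> rw [e1] <;> omega
  rw [h4]

private lemma f_avR {m c : ℤ} (hm : (0 : ℝ) < m) (σ : ℤ) (F : ℝ → ℝ) (r : ℕ) (X : ℝ) (g : ℕ → ℝ) :
    avR (Rf m c σ) (1 / m) F r X g =
      m * r ^ 2 / X * ∑' d : ℕ, (@ite ℝ (Rf m c σ d) (Classical.propDecidable _)
        (F (d * r ^ 2 / X) * g d) 0) := by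
  unfold avR
  have e1 : (r : ℝ) ^ 2 / (1 / m * X) = m * r ^ 2 / X := by
    rw [one_div, inv_mul_eq_div, div_div_eq_mul_div]
    ring
  rw [e1]

private lemma f_HH {h : ℝ → ℝ} {a θ : ℝ} (hh : Bump h a θ) {t : ℝ} (ht : t ≤ a) :
    HH h t = ∫ x, h x := by
  unfold HH
  refine setIntegral_eq_integral_of_forall_compl_eq_zero fun x hx => ?_
  by_contra hne
  have := (hh.supp x hne).1
  exact hx (lt_of_le_of_lt ht this)

theorem famH_F {θ₀ δ : ℝ} (hθ₀ : 0 < θ₀) (hδ : 0 < δ) (hδ' : δ ≤ 1 / 100)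
    (hlen : θ₀ + 6 * δ < 1 / 2) (hE : ErrG (θ₀ + 3 * δ) δ) (σ : ℤ) (hσ : σ = 1 ∨ σ = -1)
    {m c ε : ℤ} {κ : ℕ} (hf : Fam m c ε κ) :
    FamH (Rf m c σ) (NoZeroG κ) (1 / m) θ₀ δ := by
  have hm := f_m hf
  have hε := f_eps hf
  refine ⟨f_odd hf σ hσ, f_sq hf σ, by positivity, ?_, ?_⟩
  · intro F hF hFn hF0 r hr hrs ε' hε'
    obtain ⟨X₀, hX₀⟩ := zero_momentG (by norm_num) hF σ hσ hf r hr ε' hε'
    refine ⟨X₀, fun X hX => ?_⟩
    rw [f_avR hm]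
    simp only [mul_one]
    exact hX₀ X hX
  · intro ρ h hρ hρn hρe hρ1 hh hhn hHpos hHle
    have hh0 : Bump h 0 (θ₀ + 3 * δ) :=
      ⟨hh.smooth, fun t ht => ⟨(by linarith [(hh.supp t ht).1]), (hh.supp t ht).2⟩⟩
    set c' : ℝ := if σ = 1 then 0 else 1 with hc
    have hc01 : c' = 0 ∨ c' = 1 := by
      rw [hc]; split_ifs
      · exact Or.inl rfl
      · exact Or.inr rfl
    have hcont : ∀ X : ℝ, 1 < X → ∀ d : ℕ, Continuous (fun Y : ℝ => yS c' ε σ ρ h X d Y) := by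
      intro X hX d
      rw [continuous_iff_continuousAt]
      intro Y
      exact (hasDerivAt_yS hδ hρ hh0 c' hc01 ε σ hε X hX d Y).continuousAt
    have hconst : ∀ t ≤ 2 * δ, HH h t = HH h 0 := fun t ht =>
      (f_HH hh ht).trans (f_HH hh (by linarith)).symm
    refine ⟨fun X d Y => yS c' ε σ ρ h X d Y,
      fun X d v => yS c' ε σ ρ h X d (Real.log (κ * d) / (2 * Real.log X) - v),
      hcont, fun X hX d => (hcont X hX d).comp (by fun_prop), ?_, ?_, ?_, ?_⟩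
    · intro F hF hFn hF0 r hr hrs ε' hε'
      obtain ⟨X₀, hX₀⟩ := first_momentS (θ := θ₀ + 3 * δ) hδ (by linarith) (by linarith)
        (by linarith) hE (by norm_num) hF hF0 hFn σ hσ hf r hr c' hc01 hρ hρ1 hh0 hconst hHpos
        ε' hε'
      refine ⟨X₀, fun X hX Y hY => ?_⟩
      rw [f_avR hm]
      exact hX₀ X hX Y hY
    · intro F hF hFn hF0 r hr hrs ε' hε'
      obtain ⟨X₀, hX₀⟩ := second_momentS (θ := θ₀ + 3 * δ) hδ (by linarith) (by linarith)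
        (by linarith) hE (by norm_num) hF hF0 σ hσ hf r hr c' hc01 hρ hρ hh0 ε' hε'
      refine ⟨X₀, fun X hX Y₁ hY₁ Y₂ hY₂ => ?_⟩
      rw [f_avR hm]
      exact hX₀ X hX Y₁ hY₁ Y₂ hY₂
    · intro ε' hε'
      obtain ⟨X₀, hX₀⟩ := avg_shiftS (θ := θ₀ + 3 * δ) hδ (by linarith) (by linarith) (by linarith)
        hE σ hσ hf c' hc01 hρ hh (w := fun _ => 1) (g₀ := 1) one_pos continuousOn_const
        (fun _ _ => one_pos) ε' hε'
      refine ⟨X₀, fun X hX S hS => ?_⟩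
      refine le_trans (Finset.sum_le_sum fun d _ => ?_) (hX₀ X hX S hS)
      unfold qf
      simp only [one_mul]
      have := sq_nonneg (∫ v in (0 : ℝ)..(1 / 2 + δ), (yS c' ε σ ρ h X d (1 / 2 - v) -
        yS c' ε σ ρ h X d (Real.log (κ * d) / (2 * Real.log X) - v)))
      linarith
    · exact badH_fam hθ₀ hδ hδ' hlen hρ hρn hρe hρ1 hh hhn hHle σ hσ hf

end Pool.Agent.MP0016c7.Rz
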