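import Mathlib
import Pool.Agent.Lib.MP_0016c7_nt.Rz.Defs
import Pool.Agent.Lib.MP_0016c7_nt.Rz.DefsF
import Pool.Agent.Lib.MP_0016c7_nt.Rz.DefsU

set_option autoImplicit false

open Finset MeasureTheory Filter Topology
open scoped Real ContDiff

namespace Pool.Agent.MP0016c7.Rz

/-- A primitive character does not kill the kernel of a proper reduction of the level. -/
private lemma prim_no_factor {q : ℕ} [NeZero q] (χ : DirichletCharacter ℂ q)
    (hp : χ.IsPrimitive) {m : ℕ} (hm : m ∣ q) (hlt : m < q) :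
    ∃ x : (ZMod q)ˣ, ZMod.unitsMap hm x = 1 ∧ χ x ≠ 1 := by
  by_contra hcon
  push Not at hcon
  have h1 : χ.FactorsThrough m := by
    refine (DirichletCharacter.factorsThrough_iff_ker_unitsMap hm).2 ?_
    intro x hx
    have := hcon x (MonoidHom.mem_ker.1 hx)
    rw [MonoidHom.mem_ker]
    ext
    rw [MulChar.coe_toUnitHom, this, Units.val_one]
  have h2 : χ.conductor ≤ m := Nat.sInf_le h1
  rw [(DirichletCharacter.isPrimitive_def χ).1 hp] at h2
  omega

/-- Elements of the kernel are congruent to one. -/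
private lemma ker_form {q : ℕ} [NeZero q] {m : ℕ} (hm : m ∣ q) (x : (ZMod q)ˣ)
    (hx : ZMod.unitsMap hm x = 1) :
    ∃ t : ℤ, (x : ZMod q) = ((1 + (m : ℤ) * t : ℤ) : ZMod q) := by
  rw [Units.ext_iff, ZMod.unitsMap_val, ← ZMod.natCast_val, Units.val_one] at hx
  have h1 : (((x : ZMod q).val : ℤ) : ZMod m) = ((1 : ℤ) : ZMod m) := by
    push_cast
    exact hx
  rw [ZMod.intCast_eq_intCast_iff_dvd_sub] at h1
  obtain ⟨t, ht⟩ := h1
  refine ⟨-t, ?_⟩
  have h2 : (1 + (m : ℤ) * -t : ℤ) = ((x : ZMod q).val : ℤ) := by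
    linarith
  rw [h2]
  push_cast
  rw [ZMod.natCast_val, ZMod.cast_id]

private lemma val_sq {q : ℕ} (χ : DirichletCharacter ℂ q) (h2 : χ ^ 2 = 1) (x : (ZMod q)ˣ) :
    χ x ^ 2 = 1 := by
  have : (χ ^ 2) (x : ZMod q) = 1 := by
    rw [h2, MulChar.one_apply_coe]
  rwa [MulChar.pow_apply_coe] at this

private lemma odd_aux {z : ℂ} {p : ℕ} (hodd : Odd p) (h1 : z ^ 2 = 1) (h2 : z ^ p = 1) :
    z = 1 := by
  obtain ⟨k, rfl⟩ := hodd
  rw [pow_add, pow_mul, h1, one_pow, one_mul, pow_one] at h2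
  exact h2

/-- The geometric sum. -/
private lemma pow_dvd_aux (p m : ℕ) (hpm : p ∣ m) (t : ℤ) :
    ((p * m : ℕ) : ℤ) ∣ (1 + (m : ℤ) * t) ^ p - 1 := by
  rw [← geom_sum_mul]
  push_cast
  have h1 : (p : ℤ) ∣ ∑ i ∈ range p, (1 + (m : ℤ) * t) ^ i := by
    have h2 : ∀ i ∈ range p, (1 + (m : ℤ) * t) ^ i ≡ 1 [ZMOD p] := by
      intro i _
      have h3 : (1 + (m : ℤ) * t) ≡ 1 [ZMOD p] := by
        refine (Int.modEq_iff_dvd).2 ?_
        have : (1 : ℤ) - (1 + (m : ℤ) * t) = (m : ℤ) * (-t) := by ring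
        rw [this]
        exact Dvd.dvd.mul_right (Int.natCast_dvd_natCast.2 hpm) _
      simpa using h3.pow i
    have h4 : ∑ i ∈ range p, (1 + (m : ℤ) * t) ^ i ≡ ∑ i ∈ range p, 1 [ZMOD p] := by
      exact Int.ModEq.sum h2
    have h5 : ∑ i ∈ range p, (1 : ℤ) = p := by simp
    rw [h5] at h4
    exact (Int.modEq_zero_iff_dvd).1 (h4.trans ((Int.modEq_zero_iff_dvd).2 (dvd_refl _)))
  refine mul_dvd_mul h1 ?_
  have : (1 + (m : ℤ) * t - 1) = (m : ℤ) * t := by ring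
  rw [this]
  exact dvd_mul_right _ _

/-- No odd square divides the level. -/
private lemma no_odd_sq {q : ℕ} [NeZero q] (χ : DirichletCharacter ℂ q) (hp : χ.IsPrimitive)
    (h2 : χ ^ 2 = 1) {p : ℕ} (hpp : p.Prime) (hodd : Odd p) : ¬ p * p ∣ q := by
  rintro ⟨r, rfl⟩
  have hr : 0 < p * p * r := Nat.pos_of_ne_zero (NeZero.ne _)
  have hm : p * r ∣ p * p * r := ⟨p, by ring⟩
  have hlt : p * r < p * p * r := by
    have h0 : 0 < p * r := by
      rcases Nat.eq_zero_or_pos (p * r) with h | h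
      · rw [mul_assoc, h] at hr
        omega
      · exact h
    have := hpp.two_le
    nlinarith
  obtain ⟨x, hx, hne⟩ := prim_no_factor χ hp hm hlt
  apply hne
  obtain ⟨t, ht⟩ := ker_form hm x hx
  have hpow : (x : ZMod (p * p * r)) ^ p = 1 := by
    have h3 := pow_dvd_aux p (p * r) (dvd_mul_right _ _) t
    have h4 : ((((1 + ((p * r : ℕ) : ℤ) * t) ^ p - 1 : ℤ)) : ZMod (p * p * r)) = 0 := by
      rw [ZMod.intCast_zmod_eq_zero_iff_dvd]
      convert h3 using 2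
      ring
    rw [ht]
    push_cast at h4 ⊢
    exact sub_eq_zero.1 h4
  have h5 : χ x ^ p = 1 := by
    rw [← map_pow, hpow, map_one]
  exact odd_aux hodd (val_sq χ h2 x) h5

private lemma no_two {m : ℕ} [NeZero (2 * m)] (χ : DirichletCharacter ℂ (2 * m))
    (hp : χ.IsPrimitive) (hm : Odd m) : False := by
  have hm0 : 0 < m := hm.pos
  have hd : m ∣ 2 * m := dvd_mul_left _ _
  obtain ⟨x, hx, hne⟩ := prim_no_factor χ hp hd (by omega)
  apply hne
  obtain ⟨t, ht⟩ := ker_form hd x hx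
  have hu : IsUnit (x : ZMod (2 * m)) := x.isUnit
  have hodd : Odd (1 + (m : ℤ) * t) := by
    rw [ht] at hu
    have h1 : IsUnit (((1 + (m : ℤ) * t : ℤ)) : ZMod 2) := by
      have := hu.map (ZMod.castHom (dvd_mul_right 2 m) (ZMod 2))
      rwa [map_intCast] at this
    by_contra hne'
    rw [Int.not_odd_iff_even, even_iff_two_dvd] at hne'
    have h2 : (((1 + (m : ℤ) * t : ℤ)) : ZMod 2) = 0 := by
      rw [ZMod.intCast_zmod_eq_zero_iff_dvd]
      exact_mod_cast hne'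
    rw [h2] at h1
    exact not_isUnit_zero h1
  have h1 : (2 : ℤ) ∣ (m : ℤ) * t := by
    obtain ⟨s, hs⟩ := hodd
    exact ⟨s, by linarith⟩
  have h2 : (2 : ℤ) ∣ t := by
    have hc : IsCoprime (2 : ℤ) (m : ℤ) := by
      rw [Int.isCoprime_iff_gcd_eq_one]
      have : Nat.Coprime 2 m := (Nat.coprime_two_left).2 hm
      exact_mod_cast this
    exact hc.dvd_of_dvd_mul_left h1
  obtain ⟨s, hs⟩ := h2
  have h3 : (x : ZMod (2 * m)) = 1 := by
    rw [ht, hs]
    have h4 : ((((m : ℤ) * (2 * s) : ℤ)) : ZMod (2 * m)) = 0 := by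
      rw [ZMod.intCast_zmod_eq_zero_iff_dvd]
      push_cast
      exact ⟨s, by ring⟩
    rw [Int.cast_add, h4, Int.cast_one, add_zero]
  rw [h3, map_one]

private lemma no_sixteen {m : ℕ} [NeZero (16 * m)] (χ : DirichletCharacter ℂ (16 * m))
    (hp : χ.IsPrimitive) (h2 : χ ^ 2 = 1) : False := by
  have hm0 : 0 < 16 * m := Nat.pos_of_ne_zero (NeZero.ne _)
  have hd : 8 * m ∣ 16 * m := ⟨2, by ring⟩
  obtain ⟨x, hx, hne⟩ := prim_no_factor χ hp hd (by omega)
  apply hne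
  obtain ⟨t, ht⟩ := ker_form hd x hx
  -- `x` is the square of `y = 1 + 4 m t`
  have hsq : (x : ZMod (16 * m)) = (((1 + 4 * (m : ℤ) * t : ℤ)) : ZMod (16 * m)) ^ 2 := by
    rw [ht, ← Int.cast_pow, ZMod.intCast_eq_intCast_iff_dvd_sub]
    push_cast
    exact ⟨m * t ^ 2, by ring⟩
  have hyu : IsUnit ((((1 + 4 * (m : ℤ) * t : ℤ)) : ZMod (16 * m))) := by
    have := x.isUnit
    rw [hsq] at this
    exact (isUnit_pow_iff two_ne_zero).1 this
  obtain ⟨y, hy⟩ := hyu
  rw [hsq, ← hy, map_pow, val_sq χ h2 y]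

theorem prim_quad_level {q : ℕ} [NeZero q] (χ : DirichletCharacter ℂ q) (hp : χ.IsPrimitive)
    (h2 : χ ^ 2 = 1) (hne : χ ≠ 1) :
    (Odd q ∧ Squarefree q ∧ 1 < q) ∨ (∃ d : ℕ, Odd d ∧ Squarefree d ∧ q = 4 * d) ∨
      ∃ d : ℕ, Odd d ∧ Squarefree d ∧ q = 8 * d := by
  have hq0 : q ≠ 0 := NeZero.ne q
  obtain ⟨v, d, hd2, hqd⟩ := Nat.exists_eq_two_pow_mul_odd hq0
  have hsf : Squarefree d := by
    rw [Nat.squarefree_iff_prime_squarefree]
    intro p hpp hpd
    have hpo : Odd p := by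
      rcases hpp.eq_two_or_odd' with h | h
      · exfalso
        subst h
        have : Even d := (even_iff_two_dvd).2 ((dvd_mul_right 2 2).trans hpd)
        exact (Nat.not_even_iff_odd.2 hd2) this
      · exact h
    exact no_odd_sq χ hp h2 hpp hpo (hqd ▸ hpd.mul_left _)
  have hv : v = 0 ∨ v = 1 ∨ v = 2 ∨ v = 3 ∨ 4 ≤ v := by omega
  rcases hv with rfl | rfl | rfl | rfl | hv
  · left
    rw [pow_zero, one_mul] at hqd
    subst hqd
    refine ⟨hd2, hsf, ?_⟩
    rcases Nat.lt_or_ge 1 q with h | h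
    · exact h
    · exfalso
      have : q = 1 := by omega
      exact hne (DirichletCharacter.level_one' χ this)
  · exfalso
    rw [pow_one] at hqd
    subst hqd
    exact no_two χ hp hd2
  · right; left
    exact ⟨d, hd2, hsf, by rw [hqd]; norm_num⟩
  · right; right
    exact ⟨d, hd2, hsf, by rw [hqd]; norm_num⟩
  · exfalso
    obtain ⟨w, rfl⟩ : ∃ w, v = 4 + w := ⟨v - 4, by omega⟩
    have h16 : q = 16 * (2 ^ w * d) := by
      rw [hqd, pow_add]
      ring
    clear hqd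
    subst h16
    exact no_sixteen χ hp h2

end Pool.Agent.MP0016c7.Rz
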