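import Mathlib
import Pool.Agent.Lib.MP_0016c7_nt.Rz.Defs
import Pool.Agent.Lib.MP_0016c7_nt.Rz.DefsF
import Pool.Agent.Lib.MP_0016c7_nt.Rz.DefsU
import Pool.Agent.Lib.MP_0016c7_nt.Rz.U1

set_option autoImplicit false

open Finset MeasureTheory Filter Topology
open scoped Real ContDiff

namespace Pool.Agent.MP0016c7.Rz

private lemma u2_ker {N D : ℕ} [NeZero N] (h : D ∣ N) (u : (ZMod N)ˣ) :
    u ∈ (ZMod.unitsMap h).ker ↔ (u : ZMod N).val ≡ 1 [MOD D] := by
  rw [MonoidHom.mem_ker, Units.ext_iff, ZMod.unitsMap_val, ← ZMod.natCast_val, Units.val_one,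
    ← Nat.cast_one, ZMod.natCast_eq_natCast_iff]

private lemma u2_unit_eq {N : ℕ} [NeZero N] (u v : (ZMod N)ˣ)
    (h : (u : ZMod N).val ≡ (v : ZMod N).val [MOD N]) : u = v := by
  ext
  have := (ZMod.natCast_eq_natCast_iff _ _ _).2 h
  rwa [ZMod.natCast_zmod_val, ZMod.natCast_zmod_val] at this

private lemma u2_cyclic {N D A : ℕ} [NeZero N] [IsCyclic (ZMod A)ˣ] (hN : N = A * D)
    (hc : A.Coprime D) (h : D ∣ N) (hN1 : 1 < N) : IsCyclic (ZMod.unitsMap h).ker := by
  have hpN : A ∣ N := ⟨D, hN⟩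
  have : Fact (1 < N) := ⟨hN1⟩
  refine isCyclic_of_injective ((ZMod.unitsMap hpN).comp (ZMod.unitsMap h).ker.subtype) ?_
  rw [injective_iff_map_eq_one]
  rintro ⟨u, hu⟩ h1
  have h2 : u ∈ (ZMod.unitsMap hpN).ker := h1
  rw [u2_ker] at hu h2
  have h3 : (u : ZMod N).val ≡ 1 [MOD A * D] := (Nat.modEq_and_modEq_iff_modEq_mul hc).1 ⟨h2, hu⟩
  rw [← hN] at h3
  have h4 : u = 1 := by
    apply u2_unit_eq
    rw [Units.val_one, ZMod.val_one]
    exact h3
  exact Subtype.ext h4

private lemma u2_cyc {G : Type*} [CommGroup G] (K : Subgroup G) [IsCyclic K] (f g : G →* ℂˣ)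
    (hf : ∀ u, f u ^ 2 = 1) (hg : ∀ u, g u ^ 2 = 1) (hf1 : ∃ u ∈ K, f u ≠ 1)
    (hg1 : ∃ u ∈ K, g u ≠ 1) (u : G) (hu : u ∈ K) : f u * g u = 1 := by
  obtain ⟨x, hx⟩ := IsCyclic.exists_generator (α := K)
  have gen : ∀ v ∈ K, ∃ n : ℤ, v = (x : G) ^ n := by
    intro v hv
    obtain ⟨n, hn⟩ := Subgroup.mem_zpowers_iff.1 (hx ⟨v, hv⟩)
    refine ⟨n, ?_⟩
    have := congrArg Subtype.val hn
    simpa using this.symm
  have key : ∀ h : G →* ℂˣ, (∀ u, h u ^ 2 = 1) → (∃ u ∈ K, h u ≠ 1) → h x = -1 := by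
    rintro h h2 ⟨v, hv, hv1⟩
    have h3 : h x ≠ 1 := by
      intro h1
      apply hv1
      obtain ⟨n, rfl⟩ := gen v hv
      rw [map_zpow, h1, one_zpow]
    have h4 : ((h x : ℂˣ) : ℂ) * ((h x : ℂˣ) : ℂ) = 1 := by
      have := congrArg Units.val (h2 x)
      rw [Units.val_pow_eq_pow_val, Units.val_one] at this
      rw [← sq, this]
    rcases mul_self_eq_one_iff.1 h4 with h5 | h5
    · exact absurd (Units.ext h5) h3
    · ext
      rw [h5]
      simp
  obtain ⟨n, rfl⟩ := gen u hu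
  rw [map_zpow, map_zpow, ← mul_zpow, key f hf hf1, key g hg hg1]
  simp

private lemma u2_sq {q : ℕ} (χ : DirichletCharacter ℂ q) (h2 : χ ^ 2 = 1) (u : (ZMod q)ˣ) :
    χ.toUnitHom u ^ 2 = 1 := by
  ext
  rw [Units.val_pow_eq_pow_val, MulChar.coe_toUnitHom, Units.val_one]
  have := congrArg (fun f : DirichletCharacter ℂ q => f (u : ZMod q)) h2
  simp only [MulChar.pow_apply_coe, MulChar.one_apply_coe] at this
  exact this

private lemma u2_nontriv {q : ℕ} [NeZero q] (χ : DirichletCharacter ℂ q) (hp : χ.IsPrimitive)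
    (D : ℕ) (h : D ∣ q) (hlt : D < q) : ∃ u ∈ (ZMod.unitsMap h).ker, χ.toUnitHom u ≠ 1 := by
  by_contra hcon
  push Not at hcon
  have h1 : χ.FactorsThrough D := by
    rw [DirichletCharacter.factorsThrough_iff_ker_unitsMap h]
    intro u hu
    exact hcon u hu
  have h3 := DirichletCharacter.conductor_dvd_of_mem_conductorSet χ (d := D) h1
  have h4 : χ.conductor = q := hp
  rw [h4] at h3
  have h5 : 0 < D := Nat.pos_of_ne_zero (by
    rintro rfl
    rw [zero_dvd_iff] at h
    exact NeZero.ne q h)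
  exact absurd (Nat.le_of_dvd h5 h3) (by omega)

/-- The product factors through `D` when the complementary component is cyclic. -/
private lemma u2_cond {q : ℕ} [NeZero q] (χ χ' : DirichletCharacter ℂ q) (hp : χ.IsPrimitive)
    (h2 : χ ^ 2 = 1) (hp' : χ'.IsPrimitive) (h2' : χ' ^ 2 = 1) (A D : ℕ) (hA : 1 < A)
    [IsCyclic (ZMod A)ˣ] (hq : q = A * D) (hc : A.Coprime D) : (χ * χ').conductor ∣ D := by
  have hq0 : q ≠ 0 := NeZero.ne q
  have hD0 : 0 < D := by
    rcases Nat.eq_zero_or_pos D with h | h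
    · rw [h, mul_zero] at hq
      exact absurd hq hq0
    · exact h
  have hlt : D < q := by
    rw [hq]
    nlinarith
  have hD : D ∣ q := ⟨A, by rw [hq]; ring⟩
  have hcyc := u2_cyclic hq hc hD (by omega)
  refine DirichletCharacter.conductor_dvd_of_mem_conductorSet (χ * χ') (d := D) ?_
  rw [DirichletCharacter.mem_conductorSet_iff,
    DirichletCharacter.factorsThrough_iff_ker_unitsMap hD]
  intro u hu
  rw [MonoidHom.mem_ker]
  have hηu : (χ * χ').toUnitHom u = χ.toUnitHom u * χ'.toUnitHom u := by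
    ext
    simp
  rw [hηu]
  exact u2_cyc _ _ _ (u2_sq χ h2) (u2_sq χ' h2') (u2_nontriv χ hp _ hD hlt)
    (u2_nontriv χ' hp' _ hD hlt) u hu

private lemma u2_eq {q : ℕ} (χ χ' : DirichletCharacter ℂ q) (h2' : χ' ^ 2 = 1)
    (h : χ * χ' = 1) : χ = χ' := by
  calc χ = χ * χ' ^ 2 := by rw [h2', mul_one]
    _ = (χ * χ') * χ' := by rw [sq, mul_assoc]
    _ = χ' := by rw [h, one_mul]

/-- No odd prime dividing the level divides the conductor of the product. -/
private lemma u2_odd {q : ℕ} [NeZero q] (χ χ' : DirichletCharacter ℂ q) (hp : χ.IsPrimitive)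
    (h2 : χ ^ 2 = 1) (hp' : χ'.IsPrimitive) (h2' : χ' ^ 2 = 1) (t d : ℕ)
    (ht : ∀ p : ℕ, p.Prime → p ∣ d → p.Coprime t) (hs : Squarefree d) (hq : q = t * d) (p : ℕ)
    (hpp : p.Prime) (hpd : p ∣ d) : ¬ p ∣ (χ * χ').conductor := by
  intro hdiv
  have : Fact p.Prime := ⟨hpp⟩
  obtain ⟨e, he⟩ := hpd
  have hpe : p.Coprime e := by
    rw [he] at hs
    exact Nat.coprime_of_squarefree_mul hs
  have hpt := ht p hpp ⟨e, he⟩
  have h := u2_cond χ χ' hp h2 hp' h2' p (t * e) hpp.one_lt (by rw [hq, he]; ring)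
    (Nat.Coprime.mul_right hpt hpe)
  have h5 := hdiv.trans h
  have h6 : p ∣ 1 := by
    rw [← Nat.Coprime.mul_right hpt hpe]
    exact Nat.dvd_gcd dvd_rfl h5
  exact hpp.one_lt.ne' (Nat.dvd_one.1 h6)

private lemma u2_cond_t {q : ℕ} [NeZero q] (χ χ' : DirichletCharacter ℂ q) (hp : χ.IsPrimitive)
    (h2 : χ ^ 2 = 1) (hp' : χ'.IsPrimitive) (h2' : χ' ^ 2 = 1) (t d : ℕ)
    (ht : ∀ p : ℕ, p.Prime → p ∣ d → p.Coprime t) (hs : Squarefree d) (hq : q = t * d) (m : ℕ)
    (hm : (χ * χ').conductor ∣ m * d) : (χ * χ').conductor ∣ m := by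
  refine Nat.Coprime.dvd_of_dvd_mul_right ?_ hm
  rw [Nat.coprime_iff_gcd_eq_one]
  by_contra hcon
  obtain ⟨p, hpp, hpdvd⟩ := Nat.exists_prime_and_dvd hcon
  exact u2_odd χ χ' hp h2 hp' h2' t d ht hs hq p hpp (hpdvd.trans (Nat.gcd_dvd_right _ _))
    (hpdvd.trans (Nat.gcd_dvd_left _ _))

private lemma u2_cop (k d : ℕ) (hd : Odd d) (p : ℕ) (hpd : p ∣ d) :
    p.Coprime (2 ^ k) := by
  obtain ⟨e, he⟩ := hpd
  have hpodd : Odd p := by
    rw [he] at hd
    exact (Nat.odd_mul.1 hd).1
  exact Nat.Coprime.pow_right k (Nat.coprime_two_right.2 hpodd)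

theorem prim_quad_unique {q : ℕ} [NeZero q] (χ χ' : DirichletCharacter ℂ q) (hp : χ.IsPrimitive)
    (h2 : χ ^ 2 = 1) (hp' : χ'.IsPrimitive) (h2' : χ' ^ 2 = 1)
    (h : χ (-1) = χ' (-1) ∨ ¬ 8 ∣ q) : χ = χ' := by
  by_cases hne : χ = 1
  · have h3 : χ.conductor = q := hp
    rw [hne, DirichletCharacter.conductor_one] at h3
    subst h3
    rw [hne]
    exact (DirichletCharacter.level_one χ').symm
  apply u2_eq χ χ' h2'
  rcases prim_quad_level χ hp h2 hne with ⟨ho, hs, h1⟩ | ⟨d, hd, hs, hq⟩ | ⟨d, hd, hs, hq⟩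
  · have hc : (χ * χ').conductor ∣ 1 := by
      refine u2_cond_t χ χ' hp h2 hp' h2' 1 q (fun p _ _ => Nat.coprime_one_right p) hs
        (by rw [one_mul]) 1 ?_
      rw [one_mul]
      exact DirichletCharacter.conductor_dvd_level _
    exact DirichletCharacter.eq_one_iff_conductor_eq_one.2 (Nat.dvd_one.1 hc)
  · have hco : Nat.Coprime 4 d := by
      have : Nat.Coprime (2 ^ 2) d := Nat.Coprime.pow_left 2 (Nat.coprime_two_left.2 hd)
      exact this
    have hcyc : IsCyclic (ZMod 4)ˣ := ZMod.isCyclic_units_four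
    have hc1 := u2_cond χ χ' hp h2 hp' h2' 4 d (by norm_num) hq hco
    have hc : (χ * χ').conductor ∣ 1 := by
      refine u2_cond_t χ χ' hp h2 hp' h2' 4 d (fun p _ hpd => u2_cop 2 d hd p hpd) hs hq 1 ?_
      rw [one_mul]
      exact hc1
    exact DirichletCharacter.eq_one_iff_conductor_eq_one.2 (Nat.dvd_one.1 hc)
  · subst hq
    have hd0 := hd.pos
    have hneg : χ (-1) = χ' (-1) := by
      rcases h with h | h
      · exact h
      · exact absurd ⟨d, rfl⟩ h
    have hfact : Fact (1 < 8 * d) := ⟨by omega⟩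
    obtain ⟨η, hη⟩ : ∃ η : DirichletCharacter ℂ (8 * d), η = χ * χ' := ⟨_, rfl⟩
    have hηu : ∀ u, η.toUnitHom u = χ.toUnitHom u * χ'.toUnitHom u := by
      intro u
      ext
      simp [hη]
    have hc4 : η.conductor ∣ 4 * d := by
      have h4 : 4 * d ∣ 8 * d := ⟨2, by ring⟩
      refine DirichletCharacter.conductor_dvd_of_mem_conductorSet η (d := 4 * d) ?_
      rw [DirichletCharacter.mem_conductorSet_iff,
        DirichletCharacter.factorsThrough_iff_ker_unitsMap h4]
      have hval : ∀ v ∈ (ZMod.unitsMap h4).ker, v = 1 ∨ (v : ZMod (8 * d)).val = 4 * d + 1 := by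
        intro v hv
        rw [u2_ker] at hv
        have h5 : (v : ZMod (8 * d)).val < 8 * d := ZMod.val_lt _
        have h6 : (v : ZMod (8 * d)).val % (4 * d) = 1 := by
          have : 1 % (4 * d) = 1 := Nat.mod_eq_of_lt (by omega)
          rw [← this]
          exact hv
        have h7 := Nat.div_add_mod (v : ZMod (8 * d)).val (4 * d)
        have h8 : (v : ZMod (8 * d)).val / (4 * d) < 2 := by
          rw [Nat.div_lt_iff_lt_mul (by omega)]
          omega
        have h9 : (v : ZMod (8 * d)).val / (4 * d) = 0 ∨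
            (v : ZMod (8 * d)).val / (4 * d) = 1 := by
          have h10 : ∀ q : ℕ, q < 2 → q = 0 ∨ q = 1 := by omega
          exact h10 _ h8
        rcases h9 with h9 | h9
        · left
          apply u2_unit_eq
          rw [Units.val_one, ZMod.val_one]
          rw [h9, h6, mul_zero, zero_add] at h7
          rw [← h7]
        · right
          rw [h9, h6] at h7
          omega
      have hm1 : ∀ (f : DirichletCharacter ℂ (8 * d)), f ^ 2 = 1 → ∀ u, f.toUnitHom u ≠ 1 →
          f.toUnitHom u = -1 := by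
        intro f hf u hu1
        have h6 := congrArg Units.val (u2_sq f hf u)
        rw [Units.val_pow_eq_pow_val, Units.val_one, sq] at h6
        rcases mul_self_eq_one_iff.1 h6 with h7 | h7
        · exact absurd (Units.ext h7) hu1
        · ext
          rw [h7]
          simp
      obtain ⟨u, hu, hu1⟩ := u2_nontriv χ hp (4 * d) h4 (by omega)
      obtain ⟨u', hu', hu1'⟩ := u2_nontriv χ' hp' (4 * d) h4 (by omega)
      have huv : (u : ZMod (8 * d)).val = 4 * d + 1 := by
        rcases hval u hu with h | h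
        · exact absurd (by rw [h, map_one]) hu1
        · exact h
      have huv' : (u' : ZMod (8 * d)).val = 4 * d + 1 := by
        rcases hval u' hu' with h | h
        · exact absurd (by rw [h, map_one]) hu1'
        · exact h
      have huu : u' = u := by
        apply u2_unit_eq
        rw [huv', huv]
      rw [huu] at hu1'
      intro v hv
      rw [MonoidHom.mem_ker]
      rcases hval v hv with h | h
      · rw [h, map_one]
      · have hvu : v = u := by
          apply u2_unit_eq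
          rw [h, huv]
        rw [hvu, hηu, hm1 χ h2 u hu1, hm1 χ' h2' u hu1']
        simp
    have hcd4 : η.conductor ∣ 4 := by
      rw [hη] at hc4 ⊢
      exact u2_cond_t χ χ' hp h2 hp' h2' 8 d (fun p _ hpd => u2_cop 3 d hd p hpd) hs rfl 4
        hc4
    have h4N : 4 ∣ 8 * d := ⟨2 * d, by ring⟩
    have hf4 : η.FactorsThrough 4 :=
      (DirichletCharacter.mem_conductorSet_iff_conductor_dvd η h4N).2 hcd4
    rw [DirichletCharacter.factorsThrough_iff_ker_unitsMap h4N] at hf4
    have hηneg : η.toUnitHom (-1) = 1 := by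
      rw [hηu]
      have h5 : χ.toUnitHom (-1) = χ'.toUnitHom (-1) := by
        ext
        rw [MulChar.coe_toUnitHom, MulChar.coe_toUnitHom, Units.val_neg, Units.val_one]
        exact hneg
      rw [h5, ← sq]
      exact u2_sq χ' h2' _
    have hη1 : ∀ u, η.toUnitHom u = 1 := by
      intro u
      have hodd : Odd (u : ZMod (8 * d)).val := by
        have h3 := ZMod.val_coe_unit_coprime u
        have h5 : Nat.Coprime (u : ZMod (8 * d)).val 2 :=
          Nat.Coprime.coprime_dvd_right ⟨4 * d, by ring⟩ h3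
        exact Nat.coprime_two_right.1 h5
      have h4 : (u : ZMod (8 * d)).val % 4 = 1 ∨ (u : ZMod (8 * d)).val % 4 = 3 := by
        have := Nat.odd_iff.1 hodd
        omega
      rcases h4 with h4 | h4
      · have h5 : u ∈ (ZMod.unitsMap h4N).ker := by
          rw [u2_ker]
          exact h4
        exact hf4 h5
      · have h5 : -u ∈ (ZMod.unitsMap h4N).ker := by
          rw [u2_ker, Units.val_neg]
          have hne : (u : ZMod (8 * d)) ≠ 0 := u.ne_zero
          have : NeZero (u : ZMod (8 * d)) := ⟨hne⟩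
          rw [ZMod.val_neg_of_ne_zero]
          have h6 : (u : ZMod (8 * d)).val < 8 * d := ZMod.val_lt _
          show (8 * d - (u : ZMod (8 * d)).val) % 4 = 1 % 4
          omega
        have h6 : η.toUnitHom (-u) = 1 := hf4 h5
        have h7 : u = (-1) * (-u) := by simp
        rw [h7, map_mul, hηneg, h6, mul_one]
    rw [← hη]
    ext u
    have h3 := congrArg Units.val (hη1 u)
    rw [MulChar.coe_toUnitHom, Units.val_one] at h3
    rw [h3, MulChar.one_apply_coe]

end Pool.Agent.MP0016c7.Rz
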