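import Mathlib
import Pool.Agent.Lib.MP_0016c7_nt.Rz.Defs
import Pool.Agent.Lib.MP_0016c7_nt.Rz.DefsF
import Pool.Agent.Lib.MP_0016c7_nt.Rz.DefsU

set_option autoImplicit false

open Finset MeasureTheory Filter Topology
open scoped Real ContDiff

namespace Pool.Agent.MP0016c7.Rz

open DirichletCharacter

/-- The product of two primitive characters of coprime moduli is primitive. -/
private theorem u3_prim_mul {m d : ℕ} (hm : m ≠ 0) (hd : d ≠ 0) (hco : m.Coprime d)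
    (ψ : DirichletCharacter ℂ m) (φ : DirichletCharacter ℂ d)
    (hψ : ψ.IsPrimitive) (hφ : φ.IsPrimitive) :
    (changeLevel (Dvd.intro d rfl : m ∣ m * d) ψ *
      changeLevel (Dvd.intro_left m rfl : d ∣ m * d) φ).IsPrimitive := by
  have : NeZero (m * d) := ⟨mul_ne_zero hm hd⟩
  set X := changeLevel (Dvd.intro d rfl : m ∣ m * d) ψ with hX
  set Y := changeLevel (Dvd.intro_left m rfl : d ∣ m * d) φ with hY
  have hcX : X.conductor = m := by rw [hX, conductor_changeLevel]; exact hψ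
  have hcY : Y.conductor = d := by rw [hY, conductor_changeLevel]; exact hφ
  have h1 : m ∣ (X * Y).conductor := by
    have h := conductor_mul_dvd_lcm_conductor (X * Y) Y⁻¹
    rw [mul_inv_cancel_right, hcX, conductor_inv, hcY] at h
    have h2 : m ∣ (X * Y).conductor * d := h.trans (Nat.lcm_dvd_mul _ _)
    exact hco.dvd_of_dvd_mul_right h2
  have h2 : d ∣ (X * Y).conductor := by
    have h := conductor_mul_dvd_lcm_conductor (X * Y) X⁻¹
    rw [mul_comm X Y, mul_inv_cancel_right, hcY, conductor_inv, hcX, mul_comm Y X] at h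
    have h2 : d ∣ (X * Y).conductor * m := h.trans (Nat.lcm_dvd_mul _ _)
    exact hco.symm.dvd_of_dvd_mul_right h2
  exact Nat.dvd_antisymm (conductor_dvd_level _) (hco.mul_dvd_of_dvd_of_dvd h1 h2)

/-- A criterion for primitivity when all proper divisors divide `r`. -/
private theorem u3_prim_of_elt {q r : ℕ} (hq : q ≠ 0) (hr : r ∣ q)
    (hall : ∀ c, c ∣ q → c ≠ q → c ∣ r) (χ : DirichletCharacter ℂ q) (u : (ZMod q)ˣ)
    (hu : ZMod.unitsMap hr u = 1) (hχ : χ (u : ZMod q) ≠ 1) : χ.IsPrimitive := by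
  have : NeZero q := ⟨hq⟩
  by_contra hc
  have h1 := hall χ.conductor (conductor_dvd_level _) hc
  have h2 : χ.FactorsThrough r := FactorsThrough.mono χ (factorsThrough_conductor χ) h1 hr
  rw [factorsThrough_iff_ker_unitsMap hr] at h2
  have h3 := h2 (MonoidHom.mem_ker.2 hu)
  rw [MonoidHom.mem_ker] at h3
  apply hχ
  have h4 := congrArg (fun z : ℂˣ => (z : ℂ)) h3
  simpa using h4

private theorem u3_ne_one {q : ℕ} (hq : 1 < q) (χ : DirichletCharacter ℂ q)
    (h : χ.IsPrimitive) : χ ≠ 1 := by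
  have : NeZero q := ⟨by omega⟩
  rintro rfl
  have h1 : (1 : DirichletCharacter ℂ q).conductor = q := h
  rw [conductor_one] at h1
  omega

/-- The quadratic character of an odd prime modulus. -/
private theorem u3_prime (p : ℕ) (hp : p.Prime) (h2 : p ≠ 2) :
    ∃ χ : DirichletCharacter ℂ p, χ.IsPrimitive ∧ χ ^ 2 = 1 := by
  have : Fact p.Prime := ⟨hp⟩
  let χ : DirichletCharacter ℂ p := (quadraticChar (ZMod p)).ringHomComp (Int.castRingHom ℂ)
  have hF : ringChar (ZMod p) ≠ 2 := by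
    rw [ZMod.ringChar_zmod_n]; exact h2
  refine ⟨χ, ?_, ?_⟩
  · obtain ⟨a, ha⟩ := quadraticChar_exists_neg_one' hF
    refine u3_prim_of_elt hp.ne_zero (one_dvd p) (fun c hc hcp => ?_) χ a (Subsingleton.elim _ _) ?_
    · rcases (Nat.dvd_prime hp).1 hc with h | h
      · exact h ▸ dvd_refl _
      · exact absurd h hcp
    · change ((quadraticChar (ZMod p) (a : ZMod p) : ℤ) : ℂ) ≠ 1
      rw [ha]
      norm_num
  · have h : (quadraticChar (ZMod p)) ^ 2 = 1 := (quadraticChar_isQuadratic (ZMod p)).sq_eq_one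
    have h1 : χ ^ 2 = ((quadraticChar (ZMod p)) ^ 2).ringHomComp (Int.castRingHom ℂ) := by
      exact MulChar.ringHomComp_pow _ _ 2
    rw [h1, h, MulChar.ringHomComp_one]

/-- A primitive quadratic character modulo an odd squarefree number. -/
private theorem u3_odd (d : ℕ) (hd : Odd d) (hs : Squarefree d) :
    ∃ χ : DirichletCharacter ℂ d, χ.IsPrimitive ∧ χ ^ 2 = 1 := by
  induction d using Nat.strong_induction_on with
  | _ d ih =>
    rcases eq_or_ne d 1 with rfl | h1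
    · exact ⟨(1 : DirichletCharacter ℂ 1), isPrimitive_one_level_one, one_pow 2⟩
    obtain ⟨p, hp, e, rfl⟩ : ∃ p : ℕ, p.Prime ∧ ∃ e, d = p * e := by
      obtain ⟨p, hp, h⟩ := Nat.exists_prime_and_dvd h1
      exact ⟨p, hp, h⟩
    have he0 : e ≠ 0 := by
      rintro rfl
      simp at hd
    have hoe : Odd e := (Nat.odd_mul.1 hd).2
    have hop : Odd p := (Nat.odd_mul.1 hd).1
    have hse : Squarefree e := hs.of_mul_right
    have hco : p.Coprime e := Nat.coprime_of_squarefree_mul hs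
    have hlt : e < p * e := by
      have := hp.two_le
      nlinarith [Nat.pos_of_ne_zero he0]
    obtain ⟨φ, hφ, hφ2⟩ := ih e hlt hoe hse
    obtain ⟨ψ, hψ, hψ2⟩ := u3_prime p hp (by rintro rfl; exact absurd hop (by decide))
    refine ⟨_, u3_prim_mul hp.ne_zero he0 hco ψ φ hψ hφ, ?_⟩
    rw [mul_pow, ← map_pow, ← map_pow, hψ2, hφ2, map_one, map_one, one_mul]

private noncomputable def u3_c4 : DirichletCharacter ℂ 4 := ZMod.χ₄.ringHomComp (Int.castRingHom ℂ)
private noncomputable def u3_c8 : DirichletCharacter ℂ 8 := ZMod.χ₈.ringHomComp (Int.castRingHom ℂ)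
private noncomputable def u3_c8' : DirichletCharacter ℂ 8 :=
  ZMod.χ₈'.ringHomComp (Int.castRingHom ℂ)

private theorem u3_c4_prim : u3_c4.IsPrimitive := by
  refine u3_prim_of_elt (r := 2) (by norm_num) (by norm_num) (fun c hc hcp => ?_) u3_c4
    (-1) ?_ ?_
  · have hle : c ≤ 4 := Nat.le_of_dvd (by norm_num) hc
    interval_cases c <;> revert hc hcp <;> decide
  · ext
    simp only [ZMod.unitsMap_def, Units.coe_map, MonoidHom.coe_coe, Units.val_neg, Units.val_one,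
      map_neg, map_one]
    decide
  · change ((ZMod.χ₄ (-1 : ZMod 4) : ℤ) : ℂ) ≠ 1
    have : ZMod.χ₄ (-1 : ZMod 4) = -1 := by decide
    rw [this]
    norm_num

private theorem u3_8 (f : MulChar (ZMod 8) ℤ) (hf : f (5 : ZMod 8) = -1) :
    DirichletCharacter.IsPrimitive (R := ℂ) (n := 8) (f.ringHomComp (Int.castRingHom ℂ)) := by
  let u : (ZMod 8)ˣ := ⟨5, 5, by decide, by decide⟩
  refine u3_prim_of_elt (r := 4) (by norm_num) (by norm_num) (fun c hc hcp => ?_) _ u ?_ ?_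
  · have hle : c ≤ 8 := Nat.le_of_dvd (by norm_num) hc
    interval_cases c <;> revert hc hcp <;> decide
  · ext
    simp only [ZMod.unitsMap_def, Units.coe_map, MonoidHom.coe_coe, u, Units.val_one]
    decide
  · change ((f (5 : ZMod 8) : ℤ) : ℂ) ≠ 1
    rw [hf]
    norm_num

private theorem u3_sq {q : ℕ} (f : MulChar (ZMod q) ℤ) (hf : f.IsQuadratic) :
    (f.ringHomComp (Int.castRingHom ℂ)) ^ 2 = 1 := by
  have h1 : (f.ringHomComp (Int.castRingHom ℂ)) ^ 2 =
      (f ^ 2).ringHomComp (Int.castRingHom ℂ) := MulChar.ringHomComp_pow _ _ 2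
  rw [h1, hf.sq_eq_one, MulChar.ringHomComp_one]

theorem exists_prim_C (d : ℕ) (hd : Odd d) (hs : Squarefree d) (h1 : 1 < d) :
    ∃ χ : DirichletCharacter ℂ d, χ.IsPrimitive ∧ χ ^ 2 = 1 ∧ χ ≠ 1 := by
  obtain ⟨χ, h, h2⟩ := u3_odd d hd hs
  exact ⟨χ, h, h2, u3_ne_one h1 χ h⟩

theorem exists_prim_B (d : ℕ) (hd : Odd d) (hs : Squarefree d) :
    ∃ χ : DirichletCharacter ℂ (4 * d), χ.IsPrimitive ∧ χ ^ 2 = 1 ∧ χ ≠ 1 := by
  obtain ⟨φ, hφ, hφ2⟩ := u3_odd d hd hs
  have hd0 : d ≠ 0 := by rintro rfl; simp at hd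
  have hco : Nat.Coprime 4 d := by
    have : Nat.Coprime 2 d := (Nat.coprime_two_left).2 hd
    exact Nat.Coprime.pow_left 2 this
  have hp := u3_prim_mul (by norm_num) hd0 hco u3_c4 φ u3_c4_prim hφ
  refine ⟨_, hp, ?_, u3_ne_one (by omega) _ hp⟩
  rw [mul_pow, ← map_pow, ← map_pow, hφ2, u3_c4, u3_sq _ ZMod.isQuadratic_χ₄, map_one, map_one,
    one_mul]

private theorem u3_eval_neg_one {m n : ℕ} (h : m ∣ n) (ψ : DirichletCharacter ℂ m) :
    (changeLevel h ψ) (-1) = ψ (-1) := by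
  have h1 := changeLevel_eq_cast_of_dvd ψ h (-1 : (ZMod n)ˣ)
  rw [Units.val_neg, Units.val_one] at h1
  rw [h1, ZMod.cast_neg h, ZMod.cast_one h]

theorem exists_prim_A (d : ℕ) (hd : Odd d) (hs : Squarefree d) (σ : ℤ) (hσ : σ = 1 ∨ σ = -1) :
    ∃ χ : DirichletCharacter ℂ (8 * d), χ.IsPrimitive ∧ χ ^ 2 = 1 ∧ χ ≠ 1 ∧
      ((σ = 1 ∧ χ.Even) ∨ (σ = -1 ∧ χ.Odd)) := by
  obtain ⟨φ, hφ, hφ2⟩ := u3_odd d hd hs
  have hd0 : d ≠ 0 := by rintro rfl; simp at hd
  have hco : Nat.Coprime 8 d := by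
    have : Nat.Coprime 2 d := (Nat.coprime_two_left).2 hd
    exact Nat.Coprime.pow_left 3 this
  have hp := u3_prim_mul (by norm_num) hd0 hco u3_c8 φ (u3_8 ZMod.χ₈ (by decide)) hφ
  have hp' := u3_prim_mul (by norm_num) hd0 hco u3_c8' φ (u3_8 ZMod.χ₈' (by decide)) hφ
  have hsq : (changeLevel (Dvd.intro d rfl : 8 ∣ 8 * d) u3_c8 *
      changeLevel (Dvd.intro_left 8 rfl : d ∣ 8 * d) φ) ^ 2 = 1 := by
    rw [mul_pow, ← map_pow, ← map_pow, hφ2, u3_c8, u3_sq _ ZMod.isQuadratic_χ₈, map_one, map_one,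
      one_mul]
  have hsq' : (changeLevel (Dvd.intro d rfl : 8 ∣ 8 * d) u3_c8' *
      changeLevel (Dvd.intro_left 8 rfl : d ∣ 8 * d) φ) ^ 2 = 1 := by
    rw [mul_pow, ← map_pow, ← map_pow, hφ2, u3_c8', u3_sq _ ZMod.isQuadratic_χ₈', map_one,
      map_one, one_mul]
  have he : (changeLevel (Dvd.intro d rfl : 8 ∣ 8 * d) u3_c8 *
      changeLevel (Dvd.intro_left 8 rfl : d ∣ 8 * d) φ) (-1) = φ (-1) := by
    rw [MulChar.mul_apply, u3_eval_neg_one, u3_eval_neg_one]
    have : u3_c8 (-1) = 1 := by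
      change ((ZMod.χ₈ (-1 : ZMod 8) : ℤ) : ℂ) = 1
      have : ZMod.χ₈ (-1 : ZMod 8) = 1 := by decide
      rw [this]; norm_num
    rw [this, one_mul]
  have he' : (changeLevel (Dvd.intro d rfl : 8 ∣ 8 * d) u3_c8' *
      changeLevel (Dvd.intro_left 8 rfl : d ∣ 8 * d) φ) (-1) = - φ (-1) := by
    rw [MulChar.mul_apply, u3_eval_neg_one, u3_eval_neg_one]
    have : u3_c8' (-1) = -1 := by
      change ((ZMod.χ₈' (-1 : ZMod 8) : ℤ) : ℂ) = -1
      have : ZMod.χ₈' (-1 : ZMod 8) = -1 := by decide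
      rw [this]; norm_num
    rw [this, neg_one_mul]
  have h8 : 1 < 8 * d := by omega
  rcases φ.even_or_odd with h | h
  · have h' : φ (-1) = 1 := h
    rcases hσ with rfl | rfl
    · exact ⟨_, hp, hsq, u3_ne_one h8 _ hp, Or.inl ⟨rfl, he.trans h'⟩⟩
    · exact ⟨_, hp', hsq', u3_ne_one h8 _ hp', Or.inr ⟨rfl, by
        change _ = (-1 : ℂ)
        rw [he', h']⟩⟩
  · have h' : φ (-1) = -1 := h
    rcases hσ with rfl | rfl
    · exact ⟨_, hp', hsq', u3_ne_one h8 _ hp', Or.inl ⟨rfl, by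
        change _ = (1 : ℂ)
        rw [he', h', neg_neg]⟩⟩
    · exact ⟨_, hp, hsq, u3_ne_one h8 _ hp, Or.inr ⟨rfl, he.trans h'⟩⟩

end Pool.Agent.MP0016c7.Rz
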