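import Mathlib
import Pool.Agent.Lib.MP_0016c7_nt.Rz.Defs
import Pool.Agent.Lib.MP_0016c7_nt.Rz.DefsF
import Pool.Agent.Lib.MP_0016c7_nt.Rz.DefsU

set_option autoImplicit false

open Finset MeasureTheory Filter Topology
open scoped Real ContDiff

namespace Pool.Agent.MP0016c7.Rz

private lemma u4_fin (q : ℕ) : Finite (DirichletCharacter ℂ q) := by
  rcases Nat.eq_zero_or_pos q with h | h
  · subst h
    have : Finite (ZMod 0)ˣ := inferInstanceAs (Finite ℤˣ)
    infer_instance
  · have : NeZero q := ⟨h.ne'⟩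
    infer_instance

theorem PQ_finite (Q : ℕ) : (PQ Q).Finite := by
  have h1 : (⋃ q ∈ Set.Iic Q, (Sigma.mk q '' (Set.univ : Set (DirichletCharacter ℂ q)) :
      Set ((q : ℕ) × DirichletCharacter ℂ q))).Finite := by
    refine (Set.finite_Iic Q).biUnion (fun q _ => ?_)
    have := u4_fin q
    exact Set.Finite.image _ Set.finite_univ
  refine h1.subset ?_
  rintro ⟨q, χ⟩ hx
  simp only [Set.mem_iUnion]
  exact ⟨q, hx.1.2, χ, Set.mem_univ _, rfl⟩

end Pool.Agent.MP0016c7.Rz
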