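import Mathlib
import Pool.Agent.Lib.MP_0016c7_nt.Rz.Defs
import Pool.Agent.Lib.MP_0016c7_nt.Rz.DefsF
import Pool.Agent.Lib.MP_0016c7_nt.Rz.DefsU
import Pool.Agent.Lib.MP_0016c7_nt.Rz.U1
import Pool.Agent.Lib.MP_0016c7_nt.Rz.U2
import Pool.Agent.Lib.MP_0016c7_nt.Rz.U3
import Pool.Agent.Lib.MP_0016c7_nt.Rz.U4

set_option autoImplicit false

/-!
The union over all families of quadratic characters.
-/

open Finset MeasureTheory Filter Topology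
open scoped Real ContDiff

namespace Pool.Agent.MP0016c7.Rz

/-- No zero on `(0, 1)`. -/
def NZx (x : (q : ℕ) × DirichletCharacter ℂ q) : Prop :=
  ∀ (_ : NeZero x.1), ∀ s : ℝ, 0 < s → s < 1 → x.2.LFunction s ≠ 0

private def TC (x : (q : ℕ) × DirichletCharacter ℂ q) : Prop := Odd x.1
private def TB (x : (q : ℕ) × DirichletCharacter ℂ q) : Prop := ¬ Odd x.1 ∧ ¬ 8 ∣ x.1
private def TA (σ : ℤ) (x : (q : ℕ) × DirichletCharacter ℂ q) : Prop :=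
  8 ∣ x.1 ∧ ((σ = 1 ∧ x.2.Even) ∨ (σ = -1 ∧ x.2.Odd))

private lemma ne_zero_of_PQ {Q : ℕ} {x : (q : ℕ) × DirichletCharacter ℂ q} (hx : x ∈ PQ Q) :
    x.1 ≠ 0 := hx.1.1.ne'

private lemma eq_of {Q : ℕ} {x y : (q : ℕ) × DirichletCharacter ℂ q} (hx : x ∈ PQ Q) (hy : y ∈ PQ Q)
    (h : x.1 = y.1) (h' : x.2 (-1) = y.2 (-1) ∨ ¬ 8 ∣ x.1) : x = y := by
  have h0 := ne_zero_of_PQ hx
  obtain ⟨q, χ⟩ := x
  obtain ⟨q', χ'⟩ := y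
  simp only at h h' h0
  subst h
  have : NeZero q := ⟨h0⟩
  have := prim_quad_unique χ χ' hx.2.1 hx.2.2.1 hy.2.1 hy.2.2.1 h'
  rw [this]

private lemma level_odd {Q : ℕ} {x : (q : ℕ) × DirichletCharacter ℂ q} (hx : x ∈ PQ Q)
    (h : TC x) : Squarefree x.1 ∧ 1 < x.1 := by
  have : NeZero x.1 := ⟨ne_zero_of_PQ hx⟩
  rcases prim_quad_level x.2 hx.2.1 hx.2.2.1 hx.2.2.2 with h1 | ⟨d, h1, h2, h3⟩ | ⟨d, h1, h2, h3⟩
  · exact ⟨h1.2.1, h1.2.2⟩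
  · exfalso
    unfold TC at h
    rw [h3] at h
    exact absurd (Nat.odd_mul.mp h).1 (by decide)
  · exfalso
    unfold TC at h
    rw [h3] at h
    exact absurd (Nat.odd_mul.mp h).1 (by decide)

private lemma level_four {Q : ℕ} {x : (q : ℕ) × DirichletCharacter ℂ q} (hx : x ∈ PQ Q)
    (h : TB x) : ∃ d : ℕ, Odd d ∧ Squarefree d ∧ x.1 = 4 * d := by
  have : NeZero x.1 := ⟨ne_zero_of_PQ hx⟩
  rcases prim_quad_level x.2 hx.2.1 hx.2.2.1 hx.2.2.2 with h1 | ⟨d, h1, h2, h3⟩ | ⟨d, h1, h2, h3⟩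
  · exact absurd h1.1 h.1
  · exact ⟨d, h1, h2, h3⟩
  · exact absurd ⟨d, h3⟩ h.2

private lemma level_eight {Q : ℕ} {σ : ℤ} {x : (q : ℕ) × DirichletCharacter ℂ q} (hx : x ∈ PQ Q)
    (h : TA σ x) : ∃ d : ℕ, Odd d ∧ Squarefree d ∧ x.1 = 8 * d := by
  have : NeZero x.1 := ⟨ne_zero_of_PQ hx⟩
  rcases prim_quad_level x.2 hx.2.1 hx.2.2.1 hx.2.2.2 with h1 | ⟨d, h1, h2, h3⟩ | ⟨d, h1, h2, h3⟩
  · exfalso
    have h4 : Even x.1 := (by decide : Even 8).trans_dvd h.1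
    exact (Nat.not_even_iff_odd.mpr h1.1) h4
  · exfalso
    obtain ⟨e, he⟩ := h.1
    rw [h3] at he
    have : d = 2 * e := by omega
    rw [this] at h1
    exact absurd (Nat.odd_mul.mp h1).1 (by decide)
  · exact ⟨d, h1, h2, h3⟩

private lemma fin_le (X : ℕ) (P : ℕ → Prop) : {d : ℕ | d ≤ X ∧ P d}.Finite :=
  (Set.finite_Iic X).subset fun _ hd => hd.1

/-- type C -/
private lemma cardC (Q : ℕ) (_hall : True) :
    (({x | x ∈ PQ Q ∧ TC x ∧ ¬ NZx x}).ncard ≤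
      {d : ℕ | d ≤ Q ∧ (Odd d ∧ 1 < d) ∧ Squarefree d ∧ ¬ NoZeroC d}.ncard) ∧
    {d : ℕ | d ≤ Q ∧ (Odd d ∧ 1 < d) ∧ Squarefree d}.ncard ≤ ({x | x ∈ PQ Q ∧ TC x}).ncard := by
  constructor
  · refine Set.ncard_le_ncard_of_injOn (fun x => x.1) ?_ ?_ (fin_le _ _)
    · rintro x ⟨hx, h1, h2⟩
      obtain ⟨h3, h4⟩ := level_odd hx h1
      refine ⟨hx.1.2, ⟨h1, h4⟩, h3, fun h5 => h2 ?_⟩
      intro hn s hs0 hs1
      exact h5 hn x.2 hx.2.1 hx.2.2.1 hx.2.2.2 s hs0 hs1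
    · rintro x ⟨hx, h1, h2⟩ y ⟨hy, h3, h4⟩ hxy
      refine eq_of hx hy hxy (Or.inr ?_)
      intro h8
      have h4 : Even x.1 := (by decide : Even 8).trans_dvd h8
      exact (Nat.not_even_iff_odd.mpr h1) h4
  · choose f hf using fun (d : {d : ℕ | d ≤ Q ∧ (Odd d ∧ 1 < d) ∧ Squarefree d}) =>
      exists_prim_C d.1 d.2.2.1.1 d.2.2.2 d.2.2.1.2
    rw [← Nat.card_coe_set_eq, ← Nat.card_coe_set_eq]
    have hfin : Finite {x | x ∈ PQ Q ∧ TC x} := ((PQ_finite Q).subset fun _ h => h.1).to_subtype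
    refine Nat.card_le_card_of_injective (fun d => ⟨⟨d.1, f d⟩,
      ⟨⟨by have := d.2.2.1.2; simp only; omega, d.2.1⟩, hf d⟩, d.2.2.1.1⟩) ?_
    intro d e hde
    have h1 := congrArg (fun z : {x | x ∈ PQ Q ∧ TC x} => z.1.1) hde
    exact Subtype.ext h1

private lemma cardB (Q : ℕ) :
    (({x | x ∈ PQ Q ∧ TB x ∧ ¬ NZx x}).ncard ≤
      {d : ℕ | d ≤ Q / 4 ∧ Odd d ∧ Squarefree d ∧ ¬ NoZeroB d}.ncard) ∧
    {d : ℕ | d ≤ Q / 4 ∧ Odd d ∧ Squarefree d}.ncard ≤ ({x | x ∈ PQ Q ∧ TB x}).ncard := by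
  constructor
  · refine Set.ncard_le_ncard_of_injOn (fun x => x.1 / 4) ?_ ?_ (fin_le _ _)
    · rintro x ⟨hx, h1, h2⟩
      obtain ⟨d, h3, h4, h5⟩ := level_four hx h1
      have h6 : x.1 / 4 = d := by omega
      have hQ := hx.1.2
      simp only [Set.mem_ofPred_eq]
      rw [h6]
      refine ⟨by omega, h3, h4, fun h7 => h2 ?_⟩
      obtain ⟨q, χ⟩ := x
      simp only at h5
      subst h5
      intro hn s hs0 hs1
      exact h7 hn χ hx.2.1 hx.2.2.1 s hs0 hs1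
    · rintro x ⟨hx, h1, h2⟩ y ⟨hy, h3, h4⟩ hxy
      obtain ⟨d, _, _, h5⟩ := level_four hx h1
      obtain ⟨e, _, _, h6⟩ := level_four hy h3
      simp only at hxy
      exact eq_of hx hy (by omega) (Or.inr h1.2)
  · choose f hf using fun (d : {d : ℕ | d ≤ Q / 4 ∧ Odd d ∧ Squarefree d}) =>
      exists_prim_B d.1 d.2.2.1 d.2.2.2
    rw [← Nat.card_coe_set_eq, ← Nat.card_coe_set_eq]
    have hfin : Finite {x | x ∈ PQ Q ∧ TB x} := ((PQ_finite Q).subset fun _ h => h.1).to_subtype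
    refine Nat.card_le_card_of_injective (fun d => ⟨⟨4 * d.1, f d⟩, ⟨⟨?_, ?_⟩, hf d⟩, ?_, ?_⟩) ?_
    · have := d.2.2.1.pos
      simp only
      omega
    · have := d.2.1
      simp only
      omega
    · simp only
      intro h
      exact absurd (Nat.odd_mul.mp h).1 (by decide)
    · simp only
      rintro ⟨e, he⟩
      have h1 := d.2.2.1
      have : d.1 = 2 * e := by omega
      rw [this] at h1
      exact absurd (Nat.odd_mul.mp h1).1 (by decide)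
    · intro d e hde
      have h1 := congrArg (fun z : {x | x ∈ PQ Q ∧ TB x} => z.1.1) hde
      simp only at h1
      exact Subtype.ext (by omega)

private lemma cardA (Q : ℕ) (σ : ℤ) (hσ : σ = 1 ∨ σ = -1) :
    (({x | x ∈ PQ Q ∧ TA σ x ∧ ¬ NZx x}).ncard ≤
      {d : ℕ | d ≤ Q / 8 ∧ Odd d ∧ Squarefree d ∧ ¬ NoZero σ d}.ncard) ∧
    {d : ℕ | d ≤ Q / 8 ∧ Odd d ∧ Squarefree d}.ncard ≤ ({x | x ∈ PQ Q ∧ TA σ x}).ncard := by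
  constructor
  · refine Set.ncard_le_ncard_of_injOn (fun x => x.1 / 8) ?_ ?_ (fin_le _ _)
    · rintro x ⟨hx, h1, h2⟩
      obtain ⟨d, h3, h4, h5⟩ := level_eight hx h1
      have h6 : x.1 / 8 = d := by omega
      have hQ := hx.1.2
      simp only [Set.mem_ofPred_eq]
      rw [h6]
      refine ⟨by omega, h3, h4, fun h7 => h2 ?_⟩
      obtain ⟨q, χ⟩ := x
      simp only at h5
      subst h5
      intro hn s hs0 hs1
      exact h7 hn χ hx.2.1 hx.2.2.1 h1.2 s hs0 hs1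
    · rintro x ⟨hx, h1, h2⟩ y ⟨hy, h3, h4⟩ hxy
      obtain ⟨d, _, _, h5⟩ := level_eight hx h1
      obtain ⟨e, _, _, h6⟩ := level_eight hy h3
      simp only at hxy
      refine eq_of hx hy (by omega) (Or.inl ?_)
      rcases h1.2 with ⟨k1, k2⟩ | ⟨k1, k2⟩ <;> rcases h3.2 with ⟨k3, k4⟩ | ⟨k3, k4⟩
      · rw [k2, k4]
      · rw [k1] at k3; norm_num at k3
      · rw [k1] at k3; norm_num at k3
      · rw [k2, k4]
  · choose f hf using fun (d : {d : ℕ | d ≤ Q / 8 ∧ Odd d ∧ Squarefree d}) =>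
      exists_prim_A d.1 d.2.2.1 d.2.2.2 σ hσ
    rw [← Nat.card_coe_set_eq, ← Nat.card_coe_set_eq]
    have hfin : Finite {x | x ∈ PQ Q ∧ TA σ x} := ((PQ_finite Q).subset fun _ h => h.1).to_subtype
    refine Nat.card_le_card_of_injective (fun d => ⟨⟨8 * d.1, f d⟩,
      ⟨⟨?_, ?_⟩, (hf d).1, (hf d).2.1, (hf d).2.2.1⟩, ⟨d.1, rfl⟩, (hf d).2.2.2⟩) ?_
    · have := d.2.2.1.pos
      simp only
      omega
    · have := d.2.1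
      simp only
      omega
    · intro d e hde
      have h1 := congrArg (fun z : {x | x ∈ PQ Q ∧ TA σ x} => z.1.1) hde
      simp only at h1
      exact Subtype.ext (by omega)

private lemma split4 (Q : ℕ) (P : ((q : ℕ) × DirichletCharacter ℂ q) → Prop) :
    ({x | x ∈ PQ Q ∧ P x}).ncard = ({x | x ∈ PQ Q ∧ TC x ∧ P x}).ncard +
      ({x | x ∈ PQ Q ∧ TB x ∧ P x}).ncard + ({x | x ∈ PQ Q ∧ TA 1 x ∧ P x}).ncard +
      ({x | x ∈ PQ Q ∧ TA (-1) x ∧ P x}).ncard := by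
  have hf : ∀ R : ((q : ℕ) × DirichletCharacter ℂ q) → Prop, {x | x ∈ PQ Q ∧ R x}.Finite :=
    fun R => (PQ_finite Q).subset fun _ h => h.1
  have e : {x | x ∈ PQ Q ∧ P x} = (({x | x ∈ PQ Q ∧ TC x ∧ P x} ∪ {x | x ∈ PQ Q ∧ TB x ∧ P x}) ∪
      {x | x ∈ PQ Q ∧ TA 1 x ∧ P x}) ∪ {x | x ∈ PQ Q ∧ TA (-1) x ∧ P x} := by
    ext x
    simp only [Set.mem_ofPred_eq, Set.mem_union]
    constructor
    · rintro ⟨h1, h2⟩
      by_cases hC : Odd x.1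
      · exact Or.inl (Or.inl (Or.inl ⟨h1, hC, h2⟩))
      · by_cases h8 : 8 ∣ x.1
        · rcases x.2.even_or_odd with he | ho
          · exact Or.inl (Or.inr ⟨h1, ⟨h8, Or.inl ⟨rfl, he⟩⟩, h2⟩)
          · exact Or.inr ⟨h1, ⟨h8, Or.inr ⟨rfl, ho⟩⟩, h2⟩
        · exact Or.inl (Or.inl (Or.inr ⟨h1, ⟨hC, h8⟩, h2⟩))
    · rintro (((⟨h1, _, h2⟩ | ⟨h1, _, h2⟩) | ⟨h1, _, h2⟩) | ⟨h1, _, h2⟩) <;> exact ⟨h1, h2⟩
  have h8 : ∀ x : (q : ℕ) × DirichletCharacter ℂ q, 8 ∣ x.1 → ¬ Odd x.1 := by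
    intro x h
    exact Nat.not_odd_iff_even.mpr ((by decide : Even 8).trans_dvd h)
  have hpar : ∀ x : (q : ℕ) × DirichletCharacter ℂ q, x.2.Even → ¬ x.2.Odd := by
    intro x h
    exact h.not_odd
  rw [e, Set.ncard_union_eq _ ((hf _).union (hf _) |>.union (hf _)) (hf _),
    Set.ncard_union_eq _ ((hf _).union (hf _)) (hf _), Set.ncard_union_eq _ (hf _) (hf _)]
  · rw [Set.disjoint_left]
    rintro x ⟨_, h1, _⟩ ⟨_, h2, _⟩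
    exact h2.1 h1
  · rw [Set.disjoint_left]
    rintro x (⟨_, h1, _⟩ | ⟨_, h1, _⟩) ⟨_, h2, _⟩
    · exact h8 x h2.1 h1
    · exact h1.2 h2.1
  · rw [Set.disjoint_left]
    rintro x ((⟨_, h1, _⟩ | ⟨_, h1, _⟩) | ⟨_, h1, _⟩) ⟨_, h2, _⟩
    · exact h8 x h2.1 h1
    · exact h1.2 h2.1
    · rcases h1.2 with ⟨k1, k2⟩ | ⟨k1, k2⟩
      · rcases h2.2 with ⟨k3, k4⟩ | ⟨k3, k4⟩
        · norm_num at k3
        · exact hpar x k2 k4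
      · norm_num at k1

/-- U5 -/
theorem union_bound {E : ℝ} (hE0 : 0 ≤ E)
    (hA : ∀ σ : ℤ, (σ = 1 ∨ σ = -1) → ∃ X₀ : ℕ, ∀ X : ℕ, X₀ ≤ X →
      (Nat.card {d : ℕ | d ≤ X ∧ Odd d ∧ Squarefree d ∧ ¬ NoZero σ d} : ℝ) ≤
      E * (Nat.card {d : ℕ | d ≤ X ∧ Odd d ∧ Squarefree d} : ℝ))
    (hB : ∃ X₀ : ℕ, ∀ X : ℕ, X₀ ≤ X →
      (Nat.card {d : ℕ | d ≤ X ∧ Odd d ∧ Squarefree d ∧ ¬ NoZeroB d} : ℝ) ≤
      E * (Nat.card {d : ℕ | d ≤ X ∧ Odd d ∧ Squarefree d} : ℝ))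
    (hC : ∃ X₀ : ℕ, ∀ X : ℕ, X₀ ≤ X →
      (Nat.card {d : ℕ | d ≤ X ∧ (Odd d ∧ 1 < d) ∧ Squarefree d ∧ ¬ NoZeroC d} : ℝ) ≤
      E * (Nat.card {d : ℕ | d ≤ X ∧ (Odd d ∧ 1 < d) ∧ Squarefree d} : ℝ)) :
    ∃ Q₀ : ℕ, ∀ Q : ℕ, Q₀ ≤ Q →
      (Nat.card {x | x ∈ PQ Q ∧ ¬ NZx x} : ℝ) ≤ E * (Nat.card (PQ Q) : ℝ) := by
  obtain ⟨X₁, hA1⟩ := hA 1 (Or.inl rfl)
  obtain ⟨X₂, hA2⟩ := hA (-1) (Or.inr rfl)
  obtain ⟨X₃, hB⟩ := hB
  obtain ⟨X₄, hC⟩ := hC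
  refine ⟨8 * (X₁ + X₂ + X₃ + X₄), fun Q hQ => ?_⟩
  have k1 := hA1 (Q / 8) (by omega)
  have k2 := hA2 (Q / 8) (by omega)
  have k3 := hB (Q / 4) (by omega)
  have k4 := hC Q (by omega)
  simp only [Nat.card_coe_set_eq] at k1 k2 k3 k4 ⊢
  have s1 := split4 Q (fun x => ¬ NZx x)
  have s2 := split4 Q (fun _ => True)
  simp only [and_true] at s2
  have e0 : {x | x ∈ PQ Q} = PQ Q := rfl
  rw [e0] at s2
  obtain ⟨c1, c2⟩ := cardC Q trivial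
  obtain ⟨b1, b2⟩ := cardB Q
  obtain ⟨a1, a2⟩ := cardA Q 1 (Or.inl rfl)
  obtain ⟨a3, a4⟩ := cardA Q (-1) (Or.inr rfl)
  rw [s1, s2]
  have c1' : (({x | x ∈ PQ Q ∧ TC x ∧ ¬ NZx x}).ncard : ℝ) ≤ _ := Nat.cast_le.mpr c1
  have b1' : (({x | x ∈ PQ Q ∧ TB x ∧ ¬ NZx x}).ncard : ℝ) ≤ _ := Nat.cast_le.mpr b1
  have a1' : (({x | x ∈ PQ Q ∧ TA 1 x ∧ ¬ NZx x}).ncard : ℝ) ≤ _ := Nat.cast_le.mpr a1
  have a3' : (({x | x ∈ PQ Q ∧ TA (-1) x ∧ ¬ NZx x}).ncard : ℝ) ≤ _ := Nat.cast_le.mpr a3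
  have c2' : _ ≤ (({x | x ∈ PQ Q ∧ TC x}).ncard : ℝ) := Nat.cast_le.mpr c2
  have b2' : _ ≤ (({x | x ∈ PQ Q ∧ TB x}).ncard : ℝ) := Nat.cast_le.mpr b2
  have a2' : _ ≤ (({x | x ∈ PQ Q ∧ TA 1 x}).ncard : ℝ) := Nat.cast_le.mpr a2
  have a4' : _ ≤ (({x | x ∈ PQ Q ∧ TA (-1) x}).ncard : ℝ) := Nat.cast_le.mpr a4
  push_cast
  have m1 := mul_le_mul_of_nonneg_left c2' hE0
  have m2 := mul_le_mul_of_nonneg_left b2' hE0
  have m3 := mul_le_mul_of_nonneg_left a2' hE0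
  have m4 := mul_le_mul_of_nonneg_left a4' hE0
  linarith

end Pool.Agent.MP0016c7.Rz
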