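import Mathlib
import Pool.Agent.Lib.MP_0016c7_nt.Rz.Defs
import Pool.Agent.Lib.MP_0016c7_nt.Rz.DefsF
import Pool.Agent.Lib.MP_0016c7_nt.Rz.DefsU
import Pool.Agent.Lib.MP_0016c7_nt.Rz.U5
import Pool.Agent.Lib.MP_0016c7_nt.Rz.Fb8
import Pool.Agent.Lib.MP_0016c7_nt.Rz.Gen2
import Pool.Agent.Lib.MP_0016c7_nt.Rz.GenA
import Pool.Agent.Lib.MP_0016c7_nt.Rz.GenF
import Pool.Agent.Lib.MP_0016c7_nt.Rz2.ErrGd
import Pool.Agent.Lib.MP_0016c7_nt.Rz2.PosG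

set_option autoImplicit false

/-!
The proportion over all primitive quadratic characters.
-/

open Finset MeasureTheory Filter Topology
open scoped Real ContDiff

namespace Pool.Agent.MP0016c7.Rz

/-- The proportion of elements of `R` without the property `NZ` is at most `E`. -/
def TotB (R NZ : ℕ → Prop) (E : ℝ) : Prop :=
  ∃ X₀ : ℕ, ∀ X : ℕ, X₀ ≤ X →
      (Nat.card {d : ℕ | d ≤ X ∧ R d ∧ Squarefree d ∧ ¬ NZ d} : ℝ) ≤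
      E * (Nat.card {d : ℕ | d ≤ X ∧ R d ∧ Squarefree d} : ℝ)

theorem totB_of {R NZ : ℕ → Prop} {D θ₀ δ μ E E' : ℝ} {w u₁ u₂ y : ℝ → ℝ} {g₁ g₂ : ℝ}
    (hC : Cert2 θ₀ δ μ E w u₁ u₂ y g₁ g₂) (hf : FamH R NZ D θ₀ δ) (hEE : E < E') (hE0 : 0 ≤ E) :
    TotB R NZ E' := by
  obtain ⟨X₀, h⟩ := fam_bound2 hC hf ((E + E') / 2) (by linarith)
  exact Fb.total_gen R NZ (c := D / 4) (E := (E + E') / 2) (by have := hf.hD; positivity)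
    (by linarith) (by linarith) ⟨X₀, h⟩

private lemma fin_le' (X : ℕ) (P : ℕ → Prop) : {d : ℕ | d ≤ X ∧ P d}.Finite :=
  (Set.finite_Iic X).subset fun _ hd => hd.1

theorem totB_union {R R₁ R₂ NZ : ℕ → Prop} {E : ℝ}
    (hR : ∀ d, Squarefree d → (R d ↔ R₁ d ∨ R₂ d)) (hd : ∀ d, R₁ d → ¬ R₂ d)
    (h₁ : TotB R₁ NZ E) (h₂ : TotB R₂ NZ E) : TotB R NZ E := by
  obtain ⟨X₁, h₁⟩ := h₁
  obtain ⟨X₂, h₂⟩ := h₂
  refine ⟨max X₁ X₂, fun X hX => ?_⟩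
  have k₁ := h₁ X ((le_max_left _ _).trans hX)
  have k₂ := h₂ X ((le_max_right _ _).trans hX)
  simp only [Nat.card_coe_set_eq] at k₁ k₂ ⊢
  have e1 : {d : ℕ | d ≤ X ∧ R d ∧ Squarefree d ∧ ¬ NZ d}.ncard =
      {d : ℕ | d ≤ X ∧ R₁ d ∧ Squarefree d ∧ ¬ NZ d}.ncard +
      {d : ℕ | d ≤ X ∧ R₂ d ∧ Squarefree d ∧ ¬ NZ d}.ncard := by
    rw [← Set.ncard_union_eq ?_ (fin_le' _ _) (fin_le' _ _)]
    · congr 1
      ext d
      simp only [Set.mem_ofPred_eq, Set.mem_union]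
      constructor
      · rintro ⟨a, b, c, e⟩
        rcases (hR d c).mp b with h | h
        · exact Or.inl ⟨a, h, c, e⟩
        · exact Or.inr ⟨a, h, c, e⟩
      · rintro (⟨a, b, c, e⟩ | ⟨a, b, c, e⟩)
        · exact ⟨a, (hR d c).mpr (Or.inl b), c, e⟩
        · exact ⟨a, (hR d c).mpr (Or.inr b), c, e⟩
    · rw [Set.disjoint_left]
      rintro d ⟨_, b, _⟩ ⟨_, c, _⟩
      exact hd d b c
  have e2 : {d : ℕ | d ≤ X ∧ R d ∧ Squarefree d}.ncard =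
      {d : ℕ | d ≤ X ∧ R₁ d ∧ Squarefree d}.ncard +
      {d : ℕ | d ≤ X ∧ R₂ d ∧ Squarefree d}.ncard := by
    rw [← Set.ncard_union_eq ?_ (fin_le' _ _) (fin_le' _ _)]
    · congr 1
      ext d
      simp only [Set.mem_ofPred_eq, Set.mem_union]
      constructor
      · rintro ⟨a, b, c⟩
        rcases (hR d c).mp b with h | h
        · exact Or.inl ⟨a, h, c⟩
        · exact Or.inr ⟨a, h, c⟩
      · rintro (⟨a, b, c⟩ | ⟨a, b, c⟩)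
        · exact ⟨a, (hR d c).mpr (Or.inl b), c⟩
        · exact ⟨a, (hR d c).mpr (Or.inr b), c⟩
    · rw [Set.disjoint_left]
      rintro d ⟨_, b, _⟩ ⟨_, c, _⟩
      exact hd d b c
  rw [e1, e2]
  push_cast
  linarith

theorem totB_mono {R NZ NZ' : ℕ → Prop} {E : ℝ} (h : ∀ d, NZ d → NZ' d)
    (h₁ : TotB R NZ E) : TotB R NZ' E := by
  obtain ⟨X₁, h₁⟩ := h₁
  refine ⟨X₁, fun X hX => le_trans ?_ (h₁ X hX)⟩
  rw [Nat.card_coe_set_eq, Nat.card_coe_set_eq]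
  have h3 : {d : ℕ | d ≤ X ∧ R d ∧ Squarefree d ∧ ¬ NZ' d} ⊆
      {d : ℕ | d ≤ X ∧ R d ∧ Squarefree d ∧ ¬ NZ d} := fun d hd =>
    ⟨hd.1, hd.2.1, hd.2.2.1, fun h0 => hd.2.2.2 (h d h0)⟩
  exact_mod_cast Set.ncard_le_ncard h3 (fin_le' _ _)

private lemma sq_mod8 (k : ℤ) : (k * k) % 8 = 0 ∨ (k * k) % 8 = 1 ∨ (k * k) % 8 = 4 := by
  have h : k % 8 = 0 ∨ k % 8 = 1 ∨ k % 8 = 2 ∨ k % 8 = 3 ∨ k % 8 = 4 ∨ k % 8 = 5 ∨ k % 8 = 6 ∨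
      k % 8 = 7 := by omega
  rcases h with h | h | h | h | h | h | h | h <;> rw [Int.mul_emod, h] <;> norm_num

private lemma neg_not_sq {d : ℕ} (hd : 0 < d) : ¬ IsSquare ((-1 : ℤ) * (d : ℤ)) := by
  rintro ⟨k, hk⟩
  have := mul_self_nonneg k
  have h2 : (0 : ℤ) < d := by exact_mod_cast hd
  linarith

private lemma pos_not_sq {d : ℕ} (h : d % 4 = 3 ∨ d % 8 = 5) : ¬ IsSquare ((1 : ℤ) * (d : ℤ)) := by
  rintro ⟨k, hk⟩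
  have h1 := sq_mod8 k
  rw [← hk] at h1
  omega

private lemma sqf_not_sq {d : ℕ} (hd : 1 < d) (hs : Squarefree d) :
    ¬ IsSquare ((1 : ℤ) * (d : ℤ)) := by
  rintro ⟨k, hk⟩
  rw [one_mul] at hk
  have h1 : d = k.natAbs * k.natAbs := by
    have := congrArg Int.natAbs hk
    rwa [Int.natAbs_mul, Int.natAbs_natCast] at this
  have h2 := hs k.natAbs ⟨1, by rw [mul_one]; exact h1⟩
  rw [Nat.isUnit_iff] at h2
  rw [h2] at h1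
  omega

theorem classB (d : ℕ) (hs : Squarefree d) : Odd d ↔ Rf 4 3 1 d ∨ Rf 4 3 (-1) d := by
  constructor
  · intro hd
    have hd' := hd
    obtain ⟨k, hk⟩ := hd'
    have h4 : d % 4 = 1 ∨ d % 4 = 3 := by omega
    rcases h4 with h4 | h4
    · exact Or.inr ⟨by omega, neg_not_sq hd.pos⟩
    · exact Or.inl ⟨by omega, pos_not_sq (Or.inl h4)⟩
  · rintro (⟨h, _⟩ | ⟨h, _⟩)
    · rw [Nat.odd_iff]
      omega
    · rw [Nat.odd_iff]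
      omega

theorem classC (d : ℕ) (hs : Squarefree d) : (Odd d ∧ 1 < d) ↔
    (Rf 8 1 1 d ∨ Rf 8 1 (-1) d) ∨ (Rf 8 5 1 d ∨ Rf 8 5 (-1) d) := by
  constructor
  · rintro ⟨hd, h1⟩
    have hd' := hd
    obtain ⟨k, hk⟩ := hd'
    have h8 : d % 8 = 1 ∨ d % 8 = 3 ∨ d % 8 = 5 ∨ d % 8 = 7 := by omega
    rcases h8 with h8 | h8 | h8 | h8
    · exact Or.inl (Or.inl ⟨by omega, sqf_not_sq h1 hs⟩)
    · exact Or.inr (Or.inr ⟨by omega, neg_not_sq hd.pos⟩)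
    · exact Or.inr (Or.inl ⟨by omega, pos_not_sq (Or.inr h8)⟩)
    · exact Or.inl (Or.inr ⟨by omega, neg_not_sq hd.pos⟩)
  · rintro ((⟨h, h'⟩ | ⟨h, _⟩) | (⟨h, _⟩ | ⟨h, _⟩))
    · refine ⟨by rw [Nat.odd_iff]; omega, ?_⟩
      by_contra hlt
      have : d = 1 := by omega
      subst this
      exact h' ⟨1, by norm_num⟩
    · exact ⟨by rw [Nat.odd_iff]; omega, by omega⟩
    · exact ⟨by rw [Nat.odd_iff]; omega, by omega⟩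
    · exact ⟨by rw [Nat.odd_iff]; omega, by omega⟩

/-- The bounds for all families. -/
theorem tot_fam [QlsHyp] {θ₀ δ μ E E' : ℝ} {w u₁ u₂ y : ℝ → ℝ} {g₁ g₂ : ℝ}
    (hC : Cert2 θ₀ δ μ E w u₁ u₂ y g₁ g₂) (hE0 : 0 ≤ E) (hEE : E < E') :
    (∀ σ : ℤ, (σ = 1 ∨ σ = -1) → TotB Odd (NoZero σ) E') ∧
    ∀ {m c ε : ℤ} {κ : ℕ} (_ : Fam m c ε κ) (σ : ℤ), (σ = 1 ∨ σ = -1) →
      TotB (Rf m c σ) (NoZeroG κ) E' := by
  have hθ₀ := hC.hθ₀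
  have hδ := hC.hδ
  have hlen := hC.hlen
  have hEs : ErrS (θ₀ + 3 * δ) δ := errS_of_lt2 _ _ (by linarith) hδ (by linarith)
  have hEg : ErrG (θ₀ + 3 * δ) δ := errG_of_lt _ _ (by linarith) hδ (by linarith)
  refine ⟨fun σ hσ => totB_of hC (famH_A hθ₀ hδ hC.hδ' hlen hEs σ hσ) hEE hE0, ?_⟩
  intro m c ε κ hf σ hσ
  exact totB_of hC (famH_F hθ₀ hδ hC.hδ' hlen hEg σ hσ hf) hEE hE0

/-- The proportion of all primitive quadratic characters with a zero on `(0, 1)`. -/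
theorem prop_all [QlsHyp] {θ₀ δ μ E E' : ℝ} {w u₁ u₂ y : ℝ → ℝ} {g₁ g₂ : ℝ}
    (hC : Cert2 θ₀ δ μ E w u₁ u₂ y g₁ g₂) (hE0 : 0 ≤ E) (hEE : E < E') :
    ∃ Q₀ : ℕ, ∀ Q : ℕ, Q₀ ≤ Q →
      (Nat.card {x | x ∈ PQ Q ∧ ¬ NZx x} : ℝ) ≤ E' * (Nat.card (PQ Q) : ℝ) := by
  obtain ⟨hA, hF⟩ := tot_fam hC hE0 hEE
  have f1 : Fam 4 3 0 4 := Or.inl ⟨rfl, rfl, rfl, rfl⟩
  have f2 : Fam 8 1 1 1 := Or.inr (Or.inl ⟨rfl, rfl, rfl, rfl⟩)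
  have f3 : Fam 8 5 (-1) 1 := Or.inr (Or.inr ⟨rfl, rfl, rfl, rfl⟩)
  have hB : TotB Odd NoZeroB E' := by
    have h1 : TotB Odd (NoZeroG 4) E' := by
      refine totB_union classB ?_ (hF f1 1 (Or.inl rfl)) (hF f1 (-1) (Or.inr rfl))
      rintro d ⟨h, _⟩ ⟨h', _⟩
      omega
    exact totB_mono (fun d hd => hd) h1
  have hCC : TotB (fun d => Odd d ∧ 1 < d) NoZeroC E' := by
    have h1 : TotB (fun d => Odd d ∧ 1 < d) (NoZeroG 1) E' := by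
      refine totB_union (R₁ := fun d => Rf 8 1 1 d ∨ Rf 8 1 (-1) d)
        (R₂ := fun d => Rf 8 5 1 d ∨ Rf 8 5 (-1) d) classC ?_
        (totB_union (fun d _ => Iff.rfl) ?_ (hF f2 1 (Or.inl rfl)) (hF f2 (-1) (Or.inr rfl)))
        (totB_union (fun d _ => Iff.rfl) ?_ (hF f3 1 (Or.inl rfl)) (hF f3 (-1) (Or.inr rfl)))
      · rintro d (⟨h, _⟩ | ⟨h, _⟩) (⟨h', _⟩ | ⟨h', _⟩) <;> omega
      · rintro d ⟨h, _⟩ ⟨h', _⟩
        omega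
      · rintro d ⟨h, _⟩ ⟨h', _⟩
        omega
    refine totB_mono (fun d hd => ?_) h1
    unfold NoZeroG at hd
    rw [one_mul] at hd
    exact fun hN χ hp h2 _ s hs0 hs1 => hd hN χ hp h2 s hs0 hs1
  exact union_bound (by linarith) hA hB hCC

end Pool.Agent.MP0016c7.Rz
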