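import Mathlib
import Pool.Agent.Lib.MP_0016c7_nt.Rz.Nd1

set_option autoImplicit false

/-!
The concrete functions of the certificate of rank two.
-/

open Finset MeasureTheory Filter Topology
open scoped Real

namespace Pool.Agent.MP0016c7.Rz

/-- The first function of the quadratic functional. -/
noncomputable def ndu1 (v : ℝ) : ℝ := 1 + 383 / 50 * v ^ 2

/-- The second function of the quadratic functional. -/
noncomputable def ndu2 (v : ℝ) : ℝ := 1 - 601 / 250 * v ^ 2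

/-- The first dual function. -/
noncomputable def ndp1 (v : ℝ) : ℝ := 1 + 10464 / 10000000 * (12 * v ^ 2 - 1)

/-- The second dual function. -/
noncomputable def ndp2 (v : ℝ) : ℝ := 12 * v ^ 2 - 1

/-- The test profile. -/
noncomputable def ndy (v : ℝ) : ℝ :=
  Hid (4999 / 10000) 0 + (6191 / 50000 - 24169 / 50000 * v ^ 2)

/-- The weight. -/
noncomputable def ndw (_ : ℝ) : ℝ := 9717 / 2000000

theorem ndu1_cont : Continuous ndu1 := by unfold ndu1; fun_prop
theorem ndu2_cont : Continuous ndu2 := by unfold ndu2; fun_prop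
theorem ndp1_cont : Continuous ndp1 := by unfold ndp1; fun_prop
theorem ndp2_cont : Continuous ndp2 := by unfold ndp2; fun_prop
theorem ndy_cont : Continuous ndy := by unfold ndy; fun_prop
theorem ndw_cont : Continuous ndw := by unfold ndw; fun_prop

theorem nd_uu (V A B : ℝ) : ∫ v in (0 : ℝ)..V, (1 + A * v ^ 2) * (1 + B * v ^ 2) =
    V + (A + B) * V ^ 3 / 3 + A * B * V ^ 5 / 5 := by
  have e : (fun v : ℝ => (1 + A * v ^ 2) * (1 + B * v ^ 2)) =
      fun v => 1 + (A + B) * v ^ 2 + A * B * v ^ 4 := by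
    funext v
    ring
  rw [e, intervalIntegral.integral_add, intervalIntegral.integral_add,
    intervalIntegral.integral_const_mul, intervalIntegral.integral_const_mul, integral_pow,
    integral_pow, intervalIntegral.integral_const, smul_eq_mul]
  · push_cast
    ring
  · simp
  · exact (Continuous.intervalIntegrable (by fun_prop) _ _)
  · exact (Continuous.intervalIntegrable (by fun_prop) _ _)
  · exact (Continuous.intervalIntegrable (by fun_prop) _ _)

theorem nd_m11 : ∫ v in (0 : ℝ)..(1 / 2 + 1 / 100000), ndu1 v ^ 2 =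
    (1 / 2 + 1 / 100000) + (383 / 50 + 383 / 50) * (1 / 2 + 1 / 100000) ^ 3 / 3 +
      383 / 50 * (383 / 50) * (1 / 2 + 1 / 100000) ^ 5 / 5 := by
  rw [← nd_uu]
  congr 1
  funext v
  unfold ndu1
  ring

theorem nd_m22 : ∫ v in (0 : ℝ)..(1 / 2 + 1 / 100000), ndu2 v ^ 2 =
    (1 / 2 + 1 / 100000) + (-601 / 250 + -601 / 250) * (1 / 2 + 1 / 100000) ^ 3 / 3 +
      -601 / 250 * (-601 / 250) * (1 / 2 + 1 / 100000) ^ 5 / 5 := by
  rw [← nd_uu]
  congr 1
  funext v
  unfold ndu2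
  ring

theorem nd_m12 : ∫ v in (0 : ℝ)..(1 / 2 + 1 / 100000), ndu1 v * ndu2 v =
    (1 / 2 + 1 / 100000) + (383 / 50 + -601 / 250) * (1 / 2 + 1 / 100000) ^ 3 / 3 +
      383 / 50 * (-601 / 250) * (1 / 2 + 1 / 100000) ^ 5 / 5 := by
  rw [← nd_uu]
  congr 1
  funext v
  unfold ndu1 ndu2
  ring

/-- The dual inequality. -/
theorem nd_dual {f c : ℝ → ℝ} (hf : ContinuousOn f (Set.Icc 0 (1 / 2 + 1 / 100000)))
    (hc : Continuous c) :
    9717 / 1000000 * (∫ v in (0 : ℝ)..(1 / 2 + 1 / 100000), c v * f v) ^ 2 ≤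
      (qu ndw ndu1 (15624 / 10000) (1 / 2 + 1 / 100000) f +
        qu ndw ndu2 (77424 / 10000) (1 / 2 + 1 / 100000) f) *
      ((∫ v in (0 : ℝ)..(1 / 2 + 1 / 100000), c v ^ 2) -
        19956435 / 10000000 * (∫ v in (0 : ℝ)..(1 / 2 + 1 / 100000), c v * ndp1 v) ^ 2 -
        2436149 / 1000000 * (∫ v in (0 : ℝ)..(1 / 2 + 1 / 100000), c v * ndp2 v) ^ 2) := by
  set V : ℝ := 1 / 2 + 1 / 100000 with hV
  have hV0 : 0 < V := by rw [hV]; norm_num
  set x := ∫ v in (0 : ℝ)..V, c v * ndp1 v with hx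
  set y := ∫ v in (0 : ℝ)..V, c v * ndp2 v with hy
  have i1 : IntervalIntegrable (fun v => c v * ndp1 v) volume 0 V :=
    (hc.mul ndp1_cont).intervalIntegrable _ _
  have i2 : IntervalIntegrable (fun v => c v * ndp2 v) volume 0 V :=
    (hc.mul ndp2_cont).intervalIntegrable _ _
  have hb1 : ∫ v in (0 : ℝ)..V, c v * ndu1 v = 983 / 600 * x +
      (383 / 600 - 10464 / 10000000 * (983 / 600)) * y := by
    have e : (fun v => c v * ndu1 v) = fun v => 983 / 600 * (c v * ndp1 v) +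
        (383 / 600 - 10464 / 10000000 * (983 / 600)) * (c v * ndp2 v) := by
      funext v
      unfold ndu1 ndp1 ndp2
      ring
    rw [e, intervalIntegral.integral_add (i1.const_mul _) (i2.const_mul _),
      intervalIntegral.integral_const_mul, intervalIntegral.integral_const_mul]
  have hb2 : ∫ v in (0 : ℝ)..V, c v * ndu2 v = 2399 / 3000 * x +
      (-601 / 3000 - 10464 / 10000000 * (2399 / 3000)) * y := by
    have e : (fun v => c v * ndu2 v) = fun v => 2399 / 3000 * (c v * ndp1 v) +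
        (-601 / 3000 - 10464 / 10000000 * (2399 / 3000)) * (c v * ndp2 v) := by
      funext v
      unfold ndu2 ndp1 ndp2
      ring
    rw [e, intervalIntegral.integral_add (i1.const_mul _) (i2.const_mul _),
      intervalIntegral.integral_const_mul, intervalIntegral.integral_const_mul]
  have hcs := nd_cs (w₀ := 9717 / 1000000) (g₁ := 15624 / 10000) (g₂ := 77424 / 10000) hV0
    (by norm_num) (by norm_num) (by norm_num) hf hc ndu1_cont ndu2_cont
    ((4787 * x + 23229 * y) / 10000) ((15149 * x - 47590 * y) / 10000)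
  rw [hb1, hb2, nd_m11, nd_m22, nd_m12] at hcs
  set C := ∫ v in (0 : ℝ)..V, c v ^ 2 with hC
  set S := ∫ v in (0 : ℝ)..V, c v * f v with hS
  have hq : qu ndw ndu1 (15624 / 10000) V f + qu ndw ndu2 (77424 / 10000) V f =
      9717 / 1000000 * (∫ v in (0 : ℝ)..V, f v ^ 2) +
        15624 / 10000 * (∫ v in (0 : ℝ)..V, ndu1 v * f v) ^ 2 +
        77424 / 10000 * (∫ v in (0 : ℝ)..V, ndu2 v * f v) ^ 2 := by
    unfold qu ndw
    rw [intervalIntegral.integral_const_mul]
    ring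
  rw [hq]
  set Q := 9717 / 1000000 * (∫ v in (0 : ℝ)..V, f v ^ 2) +
        15624 / 10000 * (∫ v in (0 : ℝ)..V, ndu1 v * f v) ^ 2 +
        77424 / 10000 * (∫ v in (0 : ℝ)..V, ndu2 v * f v) ^ 2 with hQ
  have hQ0 : 0 ≤ Q := by
    have : 0 ≤ ∫ v in (0 : ℝ)..V, f v ^ 2 :=
      intervalIntegral.integral_nonneg hV0.le fun v _ => sq_nonneg _
    positivity
  have h2 := mul_le_mul_of_nonneg_left hcs (by norm_num : (0 : ℝ) ≤ 9717 / 1000000)
  refine h2.trans ?_
  have h3 : ∀ Z : ℝ, 9717 / 1000000 * (Q * (Z / (9717 / 1000000))) = Q * Z := by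
    intro Z
    field_simp
  rw [h3]
  refine mul_le_mul_of_nonneg_left ?_ hQ0
  norm_num
  nlinarith [sq_nonneg (x + y), sq_nonneg x, sq_nonneg y]

/-- The functional inequality from the coefficientwise criterion. -/
theorem nd_main (H : ∀ n : ℕ, (1 + 1 / 2000) * ((4 : ℝ) ^ n / 2 *
        ((1 / 2 + 1 / 100000) ^ (2 * n + 1) / (2 * n + 1)) +
        (if n = 0 then (1 / 2 + 1 / 100000) / 2 else 0) -
        ∑ i ∈ range (n + 1), ((2 * n).choose (2 * i) : ℝ) *
          (19956435 / 10000000 * (pM (1 / 2 + 1 / 100000) ndp1 i * pM (1 / 2 + 1 / 100000) ndp1 (n - i)) +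
            2436149 / 1000000 * (pM (1 / 2 + 1 / 100000) ndp2 i * pM (1 / 2 + 1 / 100000) ndp2 (n - i)))) ≤
      9717 / 1000000 * ∑ i ∈ range (n + 1), ((2 * n).choose (2 * i) : ℝ) *
        (dM (4999 / 10000) (1 / 2 + 1 / 100000) ndy i *
          dM (4999 / 10000) (1 / 2 + 1 / 100000) ndy (n - i)))
    (a : ℝ) (f : ℝ → ℝ) (hf : ContinuousOn f (Set.Icc 0 (1 / 2 + 1 / 100000))) :
    (1 + 1 / 2000) * (∫ v in (0 : ℝ)..(1 / 2 + 1 / 100000), Real.cosh (a * v) * f v) ^ 2 ≤
      (qu ndw ndu1 (15624 / 10000) (1 / 2 + 1 / 100000) f +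
        qu ndw ndu2 (77424 / 10000) (1 / 2 + 1 / 100000) f) *
        PP2 (4999 / 10000) (1 / 2 + 1 / 100000) ndy a ^ 2 := by
  have h1 := nd_coeff (θ₀ := 4999 / 10000) (V := 1 / 2 + 1 / 100000) (w₀ := 9717 / 1000000)
    (μ := 1 / 2000) (α₁ := 19956435 / 10000000) (α₂ := 2436149 / 1000000) (by norm_num)
    (by norm_num) ndy_cont ndp1_cont ndp2_cont H a
  have h2 := nd_dual (c := fun v => Real.cosh (a * v)) hf (by fun_prop)
  have hQ0 : 0 ≤ qu ndw ndu1 (15624 / 10000) (1 / 2 + 1 / 100000) f +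
        qu ndw ndu2 (77424 / 10000) (1 / 2 + 1 / 100000) f := by
    have h0 : 0 ≤ ∫ v in (0 : ℝ)..(1 / 2 + 1 / 100000), ndw v * f v ^ 2 :=
      intervalIntegral.integral_nonneg (by norm_num) fun v _ =>
        mul_nonneg (by unfold ndw; norm_num) (sq_nonneg _)
    unfold qu
    positivity
  set Q := qu ndw ndu1 (15624 / 10000) (1 / 2 + 1 / 100000) f +
        qu ndw ndu2 (77424 / 10000) (1 / 2 + 1 / 100000) f with hQ
  have h3 := mul_le_mul_of_nonneg_left h2 (by norm_num : (0 : ℝ) ≤ 1 + 1 / 2000)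
  have h4 := mul_le_mul_of_nonneg_left h1 hQ0
  have h5 : (1 + 1 / 2000 : ℝ) * (9717 / 1000000 *
      (∫ v in (0 : ℝ)..(1 / 2 + 1 / 100000), Real.cosh (a * v) * f v) ^ 2) ≤
      Q * (9717 / 1000000 * PP2 (4999 / 10000) (1 / 2 + 1 / 100000) ndy a ^ 2) := by
    refine h3.trans (le_trans (le_of_eq ?_) h4)
    ring
  have h6 : (9717 / 1000000 : ℝ) * ((1 + 1 / 2000) *
      (∫ v in (0 : ℝ)..(1 / 2 + 1 / 100000), Real.cosh (a * v) * f v) ^ 2) ≤
      9717 / 1000000 * (Q * PP2 (4999 / 10000) (1 / 2 + 1 / 100000) ndy a ^ 2) := by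
    refine le_trans (le_of_eq ?_) (h5.trans (le_of_eq ?_))
    · ring
    · ring
  exact le_of_mul_le_mul_left h6 (by norm_num)

end Pool.Agent.MP0016c7.Rz
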