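import Mathlib
import Pool.Agent.Lib.MP_0016c7_nt.Rz.Nc3
import Pool.Agent.Lib.MP_0016c7_nt.Rz.Nd2

set_option autoImplicit false

/-!
The moments of the certificate of rank two, the exact check and the tail.
-/

open Finset MeasureTheory Filter Topology
open scoped Real

namespace Pool.Agent.MP0016c7.Rz

theorem nd_p2M (V : ℝ) (n : ℕ) :
    pM V ndp2 n = 12 * (V ^ (2 * n + 3) / (2 * n + 3)) - V ^ (2 * n + 1) / (2 * n + 1) := by
  unfold pM ndp2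
  have e : (fun v : ℝ => v ^ (2 * n) * (12 * v ^ 2 - 1)) =
      fun v => 12 * v ^ (2 * n + 2) - v ^ (2 * n) := by
    funext v
    rw [pow_succ, pow_succ]
    ring
  rw [e, intervalIntegral.integral_sub, intervalIntegral.integral_const_mul, integral_pow,
    integral_pow, zero_pow (by omega), zero_pow (by omega)]
  · push_cast
    have h5 : (2 * (n : ℝ) + 2 + 1) = 2 * n + 3 := by ring
    rw [h5]
    ring
  · exact (Continuous.intervalIntegrable (by fun_prop) _ _)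
  · exact (Continuous.intervalIntegrable (by fun_prop) _ _)

theorem nd_p1M (V : ℝ) (n : ℕ) :
    pM V ndp1 n = V ^ (2 * n + 1) / (2 * n + 1) + 10464 / 10000000 *
      (12 * (V ^ (2 * n + 3) / (2 * n + 3)) - V ^ (2 * n + 1) / (2 * n + 1)) := by
  rw [← nd_p2M]
  unfold pM ndp1 ndp2
  have e : (fun v : ℝ => v ^ (2 * n) * (1 + 10464 / 10000000 * (12 * v ^ 2 - 1))) =
      fun v => v ^ (2 * n) + 10464 / 10000000 * (v ^ (2 * n) * (12 * v ^ 2 - 1)) := by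
    funext v
    ring
  rw [e, intervalIntegral.integral_add, intervalIntegral.integral_const_mul, integral_pow,
    zero_pow (by omega)]
  · push_cast
    ring
  · exact (Continuous.intervalIntegrable (by fun_prop) _ _)
  · exact (Continuous.intervalIntegrable (by fun_prop) _ _)

theorem nd_p2_nonneg (n : ℕ) : 0 ≤ pM (1 / 2 + 1 / 100000) ndp2 n := by
  rw [nd_p2M]
  have h1 : (0 : ℝ) < 2 * n + 1 := by positivity
  have h2 : (0 : ℝ) < 2 * n + 3 := by positivity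
  have h3 : ((1 : ℝ) / 2 + 1 / 100000) ^ (2 * n + 3) =
      (1 / 2 + 1 / 100000) ^ (2 * n + 1) * (1 / 2 + 1 / 100000) ^ 2 := by
    rw [← pow_add]
  rw [h3]
  have h4 : (0 : ℝ) < (1 / 2 + 1 / 100000) ^ (2 * n + 1) := by positivity
  have h5 : 12 * ((1 / 2 + 1 / 100000) ^ (2 * n + 1) * (1 / 2 + 1 / 100000) ^ 2 / (2 * n + 3)) -
      (1 / 2 + 1 / 100000) ^ (2 * n + 1) / (2 * n + 1) =
      ((1 : ℝ) / 2 + 1 / 100000) ^ (2 * n + 1) *
        (12 * (1 / 2 + 1 / 100000) ^ 2 / (2 * n + 3) - 1 / (2 * n + 1)) := by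
    ring
  rw [h5]
  refine mul_nonneg h4.le ?_
  rw [sub_nonneg, div_le_div_iff₀ h1 h2]
  have h6 : (0 : ℝ) ≤ n := Nat.cast_nonneg n
  nlinarith

theorem nd_p1_nonneg (n : ℕ) : 0 ≤ pM (1 / 2 + 1 / 100000) ndp1 n := by
  rw [nd_p1M, ← nd_p2M]
  have := nd_p2_nonneg n
  positivity

theorem nd_yM (n : ℕ) : (∫ v in (0 : ℝ)..(1 / 2 + 1 / 100000), v ^ (2 * n) * ndy v) =
    (4999 / 10000 / 2 + (4999 / 10000) ^ 2 / 2 + 6191 / 50000) *
      ((1 / 2 + 1 / 100000) ^ (2 * n + 1) / (2 * n + 1)) -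
      24169 / 50000 * ((1 / 2 + 1 / 100000) ^ (2 * n + 3) / (2 * n + 3)) := by
  unfold ndy
  rw [nc2_hid0 (by norm_num : (0 : ℝ) < 4999 / 10000)]
  have e : (fun v : ℝ => v ^ (2 * n) * ((4999 : ℝ) / 10000 / 2 + (4999 / 10000) ^ 2 / 2 +
      (6191 / 50000 - 24169 / 50000 * v ^ 2))) =
      fun v => (4999 / 10000 / 2 + (4999 / 10000) ^ 2 / 2 + 6191 / 50000) * v ^ (2 * n) -
        24169 / 50000 * v ^ (2 * n + 2) := by
    funext v
    rw [pow_succ, pow_succ]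
    ring
  rw [e, intervalIntegral.integral_sub, intervalIntegral.integral_const_mul,
    intervalIntegral.integral_const_mul, integral_pow, integral_pow, zero_pow (by omega),
    zero_pow (by omega)]
  · push_cast
    have h5 : (2 * (n : ℝ) + 2 + 1) = 2 * n + 3 := by ring
    rw [h5, sub_zero, sub_zero]
  · exact (Continuous.intervalIntegrable (by fun_prop) _ _)
  · exact (Continuous.intervalIntegrable (by fun_prop) _ _)

/-- Powers of `1 / 2 + 1 / 100000`. -/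
def nd3V (k : ℕ) : ℚ := ((50001 ^ k : ℕ) : ℚ) / ((100000 ^ k : ℕ) : ℚ)

/-- Powers of `1 / 2 + 1 / 100000 + 4999 / 10000`. -/
def nd3T (k : ℕ) : ℚ := ((99991 ^ k : ℕ) : ℚ) / ((100000 ^ k : ℕ) : ℚ)

/-- Rational values of the moments. -/
def nd3P2 (n : ℕ) : ℚ :=
  12 * (nd3V (2 * n + 3) / ((2 * n + 3 : ℕ) : ℚ)) - nd3V (2 * n + 1) / ((2 * n + 1 : ℕ) : ℚ)

/-- Rational values of the moments. -/
def nd3P1 (n : ℕ) : ℚ := nd3V (2 * n + 1) / ((2 * n + 1 : ℕ) : ℚ) + 10464 / 10000000 * nd3P2 n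

/-- Rational values of the moments. -/
def nd3D (n : ℕ) : ℚ :=
  (4999 / 10000 + 50001 / 100000 + (4999 / 10000) ^ 2 - (50001 / 100000) ^ 2) / 2 *
      (nd3T (2 * n + 1) - nd3V (2 * n + 1)) / ((2 * n + 1 : ℕ) : ℚ) +
    1 / 100000 * (nd3T (2 * n + 2) - nd3V (2 * n + 2)) / ((2 * n + 2 : ℕ) : ℚ) -
    1 / 2 * (nd3T (2 * n + 3) - nd3V (2 * n + 3)) / ((2 * n + 3 : ℕ) : ℚ) +
    ((4999 / 10000 / 2 + (4999 / 10000) ^ 2 / 2 + 6191 / 50000) *
      (nd3V (2 * n + 1) / ((2 * n + 1 : ℕ) : ℚ)) -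
      24169 / 50000 * (nd3V (2 * n + 3) / ((2 * n + 3 : ℕ) : ℚ)))

theorem nd3V_cast (k : ℕ) : ((nd3V k : ℚ) : ℝ) = (1 / 2 + 1 / 100000) ^ k := by
  unfold nd3V
  push_cast
  rw [← div_pow]
  congr 1
  norm_num

theorem nd3T_cast (k : ℕ) : ((nd3T k : ℚ) : ℝ) = (1 / 2 + 1 / 100000 + 4999 / 10000) ^ k := by
  unfold nd3T
  push_cast
  rw [← div_pow]
  congr 1
  norm_num

theorem nd3P2_cast (n : ℕ) : pM (1 / 2 + 1 / 100000) ndp2 n = ((nd3P2 n : ℚ) : ℝ) := by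
  rw [nd_p2M, nd3P2]
  push_cast
  rw [nd3V_cast, nd3V_cast]

theorem nd3P1_cast (n : ℕ) : pM (1 / 2 + 1 / 100000) ndp1 n = ((nd3P1 n : ℚ) : ℝ) := by
  rw [nd_p1M, ← nd_p2M, nd3P2_cast, nd3P1]
  push_cast
  rw [nd3V_cast]

theorem nd3D_cast (n : ℕ) :
    dM (4999 / 10000) (1 / 2 + 1 / 100000) ndy n = ((nd3D n : ℚ) : ℝ) := by
  unfold dM
  rw [nd_yM, nc2_first (by norm_num : (0 : ℝ) < 4999 / 10000), nd3D]
  push_cast
  rw [nd3V_cast, nd3V_cast, nd3V_cast, nd3T_cast, nd3T_cast, nd3T_cast]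
  norm_num

/-- The inequality over `ℚ`. -/
def nd3Chk (n : ℕ) : Prop :=
    (1 + 1 / 2000) * ((4 : ℚ) ^ n / 2 * (nd3V (2 * n + 1) / ((2 * n + 1 : ℕ) : ℚ)) +
      (if n = 0 then nd3V 1 / 2 else 0) -
      ∑ i ∈ range (n + 1), (nc3C (2 * n) (2 * i) : ℚ) *
        (19956435 / 10000000 * (nd3P1 i * nd3P1 (n - i)) +
          2436149 / 1000000 * (nd3P2 i * nd3P2 (n - i)))) ≤
      9717 / 1000000 * ∑ i ∈ range (n + 1), (nc3C (2 * n) (2 * i) : ℚ) * (nd3D i * nd3D (n - i))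

instance nd3ChkDec (n : ℕ) : Decidable (nd3Chk n) := by unfold nd3Chk; infer_instance

theorem nd3_chk0 : ∀ n < 11, nd3Chk n := by decide +kernel

end Pool.Agent.MP0016c7.Rz
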