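import Mathlib
import Pool.Agent.Lib.MP_0016c7_nt.Rz.Nd3

set_option autoImplicit false

/-!
The coefficientwise criterion of the certificate of rank two.
-/

open Finset MeasureTheory Filter Topology
open scoped Real

namespace Pool.Agent.MP0016c7.Rz

private lemma nd4_even_sum (f : ℕ → ℝ) (n : ℕ) :
    ∑ k ∈ range (2 * n + 1), f k = ∑ i ∈ range (n + 1), f (2 * i) + ∑ i ∈ range n, f (2 * i + 1) := by
  induction n with
  | zero => simp
  | succ n ih =>
    rw [show 2 * (n + 1) + 1 = 2 * n + 1 + 1 + 1 by ring, sum_range_succ, sum_range_succ, ih,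
      sum_range_succ (fun i => f (2 * i)) (n + 1), sum_range_succ (fun i => f (2 * i + 1)) n]
    rw [show 2 * (n + 1) = 2 * n + 1 + 1 by ring]
    ring

private lemma nd4_choose (n : ℕ) (hn : n ≠ 0) :
    ∑ i ∈ range (n + 1), ((2 * n).choose (2 * i) : ℝ) = (4 : ℝ) ^ n / 2 := by
  have h1 : ∑ k ∈ range (2 * n + 1), ((2 * n).choose k : ℝ) = (4 : ℝ) ^ n := by
    have := Nat.sum_range_choose (2 * n)
    have h : ((∑ m ∈ range (2 * n + 1), (2 * n).choose m : ℕ) : ℝ) = ((2 ^ (2 * n) : ℕ) : ℝ) := by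
      rw [this]
    push_cast at h
    rw [h, pow_mul]
    norm_num
  have h2 : ∑ k ∈ range (2 * n + 1), (-1 : ℝ) ^ k * ((2 * n).choose k : ℝ) = 0 := by
    have := Int.alternating_sum_range_choose_of_ne (n := 2 * n) (by omega)
    have h : ((∑ m ∈ range (2 * n + 1), (-1) ^ m * ((2 * n).choose m : ℤ) : ℤ) : ℝ) = 0 := by
      rw [this]; norm_num
    push_cast at h
    exact h
  rw [nd4_even_sum] at h1 h2
  have h3 : ∑ i ∈ range (n + 1), (-1 : ℝ) ^ (2 * i) * ((2 * n).choose (2 * i) : ℝ) =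
      ∑ i ∈ range (n + 1), ((2 * n).choose (2 * i) : ℝ) := by
    refine Finset.sum_congr rfl fun i _ => ?_
    rw [pow_mul]; norm_num
  have h4 : ∑ i ∈ range n, (-1 : ℝ) ^ (2 * i + 1) * ((2 * n).choose (2 * i + 1) : ℝ) =
      -∑ i ∈ range n, ((2 * n).choose (2 * i + 1) : ℝ) := by
    rw [← Finset.sum_neg_distrib]
    refine Finset.sum_congr rfl fun i _ => ?_
    rw [pow_succ, pow_mul]; norm_num
  rw [h3, h4] at h2
  linarith

/-- The lower bound of the moments. -/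
theorem nd4_low (n : ℕ) :
    (1 / 2 + 1 / 100000 + 1 / 4 : ℝ) ^ (2 * n) * (2862 / 100000) ≤
      dM (4999 / 10000) (1 / 2 + 1 / 100000) ndy n := by
  unfold dM
  set V : ℝ := 1 / 2 + 1 / 100000 with hV
  set θ : ℝ := 4999 / 10000 with hθ
  clear_value V θ
  have hV0 : 0 < V := by rw [hV]; norm_num
  have h2 : 0 ≤ ∫ v in (0 : ℝ)..V, v ^ (2 * n) * ndy v := by
    apply intervalIntegral.integral_nonneg hV0.le
    intro v hv
    apply mul_nonneg (pow_nonneg hv.1 _)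
    unfold ndy
    rw [nc2_hid0 (by norm_num : (0 : ℝ) < 4999 / 10000)]
    have : v ^ 2 ≤ V ^ 2 := pow_le_pow_left₀ hv.1 hv.2 2
    rw [hV] at this
    norm_num at this ⊢
    linarith
  have hcont : Continuous fun v : ℝ => v ^ (2 * n) * Hid θ (v - V) :=
    (continuous_pow _).mul ((nc_hid_cont (by rw [hθ]; norm_num)).comp
      (continuous_id.sub continuous_const))
  have hHn : ∀ v ∈ Set.Icc V (V + θ), 0 ≤ Hid θ (v - V) := by
    intro v hv
    rw [nc2_hid hv.1 hv.2]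
    have a1 : 0 ≤ v - V := by linarith [hv.1]
    have a2 : v - V ≤ θ := by linarith [hv.2]
    have a3 : (v - V) ^ 2 ≤ θ ^ 2 := pow_le_pow_left₀ a1 a2 2
    have a4 : (θ + V + θ ^ 2 - V ^ 2) / 2 + (V - 1 / 2) * v - 1 / 2 * v ^ 2 =
        (θ - (v - V)) / 2 + (θ ^ 2 - (v - V) ^ 2) / 2 := by ring
    rw [a4]
    linarith
  have hsplit : (∫ v in V..(V + θ), v ^ (2 * n) * Hid θ (v - V)) =
      (∫ v in V..(V + 1 / 4), v ^ (2 * n) * Hid θ (v - V)) +
      ∫ v in (V + 1 / 4)..(V + θ), v ^ (2 * n) * Hid θ (v - V) :=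
    (intervalIntegral.integral_add_adjacent_intervals (hcont.intervalIntegrable _ _)
      (hcont.intervalIntegrable _ _)).symm
  have h3 : 0 ≤ ∫ v in V..(V + 1 / 4), v ^ (2 * n) * Hid θ (v - V) := by
    apply intervalIntegral.integral_nonneg (by linarith)
    intro v hv
    refine mul_nonneg (pow_nonneg (hV0.le.trans hv.1) _) (hHn v ⟨hv.1, hv.2.trans ?_⟩)
    rw [hθ]
    norm_num
  have h4 : (V + 1 / 4) ^ (2 * n) * (2862 / 100000) ≤
      ∫ v in (V + 1 / 4)..(V + θ), v ^ (2 * n) * Hid θ (v - V) := by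
    have e : (∫ v in (V + 1 / 4)..(V + θ), (V + 1 / 4) ^ (2 * n) *
        ((θ + V + θ ^ 2 - V ^ 2) / 2 + (V - 1 / 2) * v - 1 / 2 * v ^ 2)) =
        (V + 1 / 4) ^ (2 * n) * ((θ + V + θ ^ 2 - V ^ 2) / 2 * (θ - 1 / 4) +
          (V - 1 / 2) * ((V + θ) ^ 2 - (V + 1 / 4) ^ 2) / 2 -
          1 / 2 * (((V + θ) ^ 3 - (V + 1 / 4) ^ 3) / 3)) := by
      rw [intervalIntegral.integral_const_mul, intervalIntegral.integral_sub,
        intervalIntegral.integral_add, intervalIntegral.integral_const_mul,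
        intervalIntegral.integral_const_mul, integral_pow, integral_id,
        intervalIntegral.integral_const, smul_eq_mul]
      · push_cast
        ring
      · exact (Continuous.intervalIntegrable (by fun_prop) _ _)
      · exact (Continuous.intervalIntegrable (by fun_prop) _ _)
      · exact (Continuous.intervalIntegrable (by fun_prop) _ _)
      · exact (Continuous.intervalIntegrable (by fun_prop) _ _)
    have h5 : (V + 1 / 4) ^ (2 * n) * (2862 / 100000) ≤ (V + 1 / 4) ^ (2 * n) *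
        ((θ + V + θ ^ 2 - V ^ 2) / 2 * (θ - 1 / 4) +
          (V - 1 / 2) * ((V + θ) ^ 2 - (V + 1 / 4) ^ 2) / 2 -
          1 / 2 * (((V + θ) ^ 3 - (V + 1 / 4) ^ 3) / 3)) := by
      refine mul_le_mul_of_nonneg_left ?_ (by positivity)
      rw [hV, hθ]
      norm_num
    refine h5.trans ?_
    rw [← e]
    apply intervalIntegral.integral_mono_on
    · rw [hθ]; norm_num
    · exact (Continuous.intervalIntegrable (by fun_prop) _ _)
    · exact hcont.intervalIntegrable _ _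
    · intro v hv
      have hv1 : V ≤ v := by linarith [hv.1]
      have h6 := nc2_hid (θ₀ := θ) hv1 hv.2
      rw [h6]
      refine mul_le_mul_of_nonneg_right ?_ ?_
      · exact pow_le_pow_left₀ (by positivity) hv.1 _
      · rw [← h6]
        exact hHn v ⟨hv1, hv.2⟩
  rw [hsplit]
  linarith

private lemma nd4_large (n : ℕ) (hn : 11 ≤ n) :
    (1 + 1 / 2000) * ((4 : ℝ) ^ n / 2 * ((1 / 2 + 1 / 100000) ^ (2 * n + 1) / (2 * n + 1))) ≤
      9717 / 1000000 * ∑ i ∈ range (n + 1), ((2 * n).choose (2 * i) : ℝ) *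
        (dM (4999 / 10000) (1 / 2 + 1 / 100000) ndy i *
          dM (4999 / 10000) (1 / 2 + 1 / 100000) ndy (n - i)) := by
  have hlow := nd4_low
  set V : ℝ := 1 / 2 + 1 / 100000 with hV
  clear_value V
  have hV0 : 0 < V := by rw [hV]; norm_num
  have h1 : ∑ i ∈ range (n + 1), ((2 * n).choose (2 * i) : ℝ) *
        ((V + 1 / 4) ^ (2 * n) * (2862 / 100000) ^ 2) ≤
      ∑ i ∈ range (n + 1), ((2 * n).choose (2 * i) : ℝ) *
        (dM (4999 / 10000) V ndy i * dM (4999 / 10000) V ndy (n - i)) := by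
    refine Finset.sum_le_sum fun i hi => ?_
    have hi' : i ≤ n := by have := mem_range.1 hi; omega
    refine mul_le_mul_of_nonneg_left ?_ (Nat.cast_nonneg _)
    have e1 : (V + 1 / 4) ^ (2 * n) * (2862 / 100000) ^ 2 =
        ((V + 1 / 4) ^ (2 * i) * (2862 / 100000)) *
          ((V + 1 / 4) ^ (2 * (n - i)) * (2862 / 100000)) := by
      have h2 : (V + 1 / 4) ^ (2 * n) = (V + 1 / 4) ^ (2 * i) * (V + 1 / 4) ^ (2 * (n - i)) := by
        rw [← pow_add]
        congr 1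
        omega
      rw [h2]
      ring
    rw [e1]
    exact mul_le_mul (hlow i) (hlow (n - i)) (by positivity)
      (le_trans (by positivity) (hlow i))
  have h2 := mul_le_mul_of_nonneg_left h1 (by norm_num : (0 : ℝ) ≤ 9717 / 1000000)
  refine le_trans ?_ h2
  rw [← Finset.sum_mul, nd4_choose n (by omega)]
  obtain ⟨k, rfl⟩ : ∃ k, n = 11 + k := ⟨n - 11, by omega⟩
  have h3 : (V ^ (2 * (11 + k) + 1)) / (2 * ((11 + k : ℕ) : ℝ) + 1) ≤ V ^ 23 / 23 * (V ^ 2) ^ k := by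
    have e : V ^ (2 * (11 + k) + 1) = V ^ 23 * (V ^ 2) ^ k := by
      rw [← pow_mul, ← pow_add]
      congr 1
      omega
    rw [e]
    have h4 : (23 : ℝ) ≤ 2 * ((11 + k : ℕ) : ℝ) + 1 := by
      push_cast
      have : (0 : ℝ) ≤ k := Nat.cast_nonneg k
      linarith
    calc V ^ 23 * (V ^ 2) ^ k / (2 * ((11 + k : ℕ) : ℝ) + 1) ≤ V ^ 23 * (V ^ 2) ^ k / 23 :=
          div_le_div_of_nonneg_left (by positivity) (by norm_num) h4
      _ = V ^ 23 / 23 * (V ^ 2) ^ k := by ring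
  have h5 : (V + 1 / 4) ^ 22 * (V ^ 2) ^ k ≤ (V + 1 / 4) ^ (2 * (11 + k)) := by
    have e : (V + 1 / 4) ^ (2 * (11 + k)) = (V + 1 / 4) ^ 22 * ((V + 1 / 4) ^ 2) ^ k := by
      rw [← pow_mul, ← pow_add]
      congr 1
      omega
    rw [e]
    refine mul_le_mul_of_nonneg_left ?_ (by positivity)
    refine pow_le_pow_left₀ (by positivity) ?_ k
    exact pow_le_pow_left₀ hV0.le (by linarith) 2
  have h6 : (1 + 1 / 2000) * (V ^ 23 / 23) ≤
      9717 / 1000000 * ((V + 1 / 4) ^ 22 * (2862 / 100000) ^ 2) := by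
    rw [hV]
    norm_num
  have hP : (0 : ℝ) ≤ (4 : ℝ) ^ (11 + k) / 2 := by positivity
  have hQ : (0 : ℝ) ≤ (V ^ 2) ^ k := by positivity
  calc (1 + 1 / 2000) * ((4 : ℝ) ^ (11 + k) / 2 *
        (V ^ (2 * (11 + k) + 1) / (2 * ((11 + k : ℕ) : ℝ) + 1)))
      ≤ (1 + 1 / 2000) * ((4 : ℝ) ^ (11 + k) / 2 * (V ^ 23 / 23 * (V ^ 2) ^ k)) := by
        refine mul_le_mul_of_nonneg_left (mul_le_mul_of_nonneg_left h3 hP) (by norm_num)
    _ = (4 : ℝ) ^ (11 + k) / 2 * (V ^ 2) ^ k * ((1 + 1 / 2000) * (V ^ 23 / 23)) := by ring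
    _ ≤ (4 : ℝ) ^ (11 + k) / 2 * (V ^ 2) ^ k *
        (9717 / 1000000 * ((V + 1 / 4) ^ 22 * (2862 / 100000) ^ 2)) :=
        mul_le_mul_of_nonneg_left h6 (mul_nonneg hP hQ)
    _ = 9717 / 1000000 * ((4 : ℝ) ^ (11 + k) / 2 *
        ((V + 1 / 4) ^ 22 * (V ^ 2) ^ k * (2862 / 100000) ^ 2)) := by ring
    _ ≤ 9717 / 1000000 * ((4 : ℝ) ^ (11 + k) / 2 *
        ((V + 1 / 4) ^ (2 * (11 + k)) * (2862 / 100000) ^ 2)) := by
        gcongr

theorem nd_crit (n : ℕ) : (1 + 1 / 2000) * ((4 : ℝ) ^ n / 2 *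
        ((1 / 2 + 1 / 100000) ^ (2 * n + 1) / (2 * n + 1)) +
        (if n = 0 then (1 / 2 + 1 / 100000) / 2 else 0) -
        ∑ i ∈ range (n + 1), ((2 * n).choose (2 * i) : ℝ) *
          (19956435 / 10000000 * (pM (1 / 2 + 1 / 100000) ndp1 i * pM (1 / 2 + 1 / 100000) ndp1 (n - i)) +
            2436149 / 1000000 * (pM (1 / 2 + 1 / 100000) ndp2 i * pM (1 / 2 + 1 / 100000) ndp2 (n - i)))) ≤
      9717 / 1000000 * ∑ i ∈ range (n + 1), ((2 * n).choose (2 * i) : ℝ) *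
        (dM (4999 / 10000) (1 / 2 + 1 / 100000) ndy i *
          dM (4999 / 10000) (1 / 2 + 1 / 100000) ndy (n - i)) := by
  by_cases hn : n < 11
  · have h := nd3_chk0 n hn
    unfold nd3Chk at h
    have h' : (((1 + 1 / 2000) * ((4 : ℚ) ^ n / 2 * (nd3V (2 * n + 1) / ((2 * n + 1 : ℕ) : ℚ)) +
      (if n = 0 then nd3V 1 / 2 else 0) -
      ∑ i ∈ range (n + 1), (nc3C (2 * n) (2 * i) : ℚ) *
        (19956435 / 10000000 * (nd3P1 i * nd3P1 (n - i)) +
          2436149 / 1000000 * (nd3P2 i * nd3P2 (n - i)))) : ℚ) : ℝ) ≤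
      ((9717 / 1000000 * ∑ i ∈ range (n + 1), (nc3C (2 * n) (2 * i) : ℚ) *
        (nd3D i * nd3D (n - i)) : ℚ) : ℝ) := Rat.cast_le.2 h
    have hif : (((if n = 0 then nd3V 1 / 2 else 0 : ℚ)) : ℝ) =
        if n = 0 then ((1 : ℝ) / 2 + 1 / 100000) / 2 else 0 := by
      split_ifs
      · push_cast
        rw [nd3V_cast, pow_one]
      · simp
    push_cast at h'
    rw [hif, nd3V_cast] at h'
    have hch : ∀ i : ℕ, ((2 * n).choose (2 * i) : ℝ) = (nc3C (2 * n) (2 * i) : ℝ) := by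
      intro i
      rw [Nat.choose_eq_descFactorial_div_factorial]
      rfl
    simp only [nd3P1_cast, nd3P2_cast, nd3D_cast, hch]
    exact h'
  · push Not at hn
    have hne : n ≠ 0 := by omega
    rw [if_neg hne, add_zero]
    refine le_trans ?_ (nd4_large n hn)
    refine mul_le_mul_of_nonneg_left ?_ (by norm_num)
    have h1 : 0 ≤ ∑ i ∈ range (n + 1), ((2 * n).choose (2 * i) : ℝ) *
          (19956435 / 10000000 * (pM (1 / 2 + 1 / 100000) ndp1 i * pM (1 / 2 + 1 / 100000) ndp1 (n - i)) +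
            2436149 / 1000000 * (pM (1 / 2 + 1 / 100000) ndp2 i * pM (1 / 2 + 1 / 100000) ndp2 (n - i))) := by
      refine Finset.sum_nonneg fun i _ => ?_
      have a1 := nd_p1_nonneg i
      have a2 := nd_p1_nonneg (n - i)
      have a3 := nd_p2_nonneg i
      have a4 := nd_p2_nonneg (n - i)
      positivity
    linarith

end Pool.Agent.MP0016c7.Rz
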