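import Mathlib
import Pool.Agent.Lib.MP_0016c7_nt.Rz.Nd2
import Pool.Agent.Lib.MP_0016c7_nt.Rz.Nc2

set_option autoImplicit false

/-!
The energy of the certificate of rank two.
-/

open Finset MeasureTheory Filter Topology
open scoped Real

namespace Pool.Agent.MP0016c7.Rz

private lemma nd5_poly (V c0 c2 c4 c6 : ℝ) :
    ∫ v in (0 : ℝ)..V, (c0 + c2 * v ^ 2 + c4 * v ^ 4 + c6 * v ^ 6) =
      c0 * V + c2 * V ^ 3 / 3 + c4 * V ^ 5 / 5 + c6 * V ^ 7 / 7 := by
  rw [intervalIntegral.integral_add, intervalIntegral.integral_add, intervalIntegral.integral_add,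
    intervalIntegral.integral_const_mul, intervalIntegral.integral_const_mul,
    intervalIntegral.integral_const_mul, integral_pow, integral_pow, integral_pow,
    intervalIntegral.integral_const, smul_eq_mul]
  · push_cast
    ring
  · simp
  · exact (Continuous.intervalIntegrable (by fun_prop) _ _)
  · exact (Continuous.intervalIntegrable (by fun_prop) _ _)
  · exact (Continuous.intervalIntegrable (by fun_prop) _ _)
  · exact (Continuous.intervalIntegrable (by fun_prop) _ _)
  · exact (Continuous.intervalIntegrable (by fun_prop) _ _)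

private lemma nd5_inner {V v : ℝ} (hv : v ∈ Set.Icc 0 V) (B : ℝ) :
    ∫ v' in (0 : ℝ)..V, (1 + B * v' ^ 2) * min (V - v) (V - v') =
      V ^ 2 / 2 + B * V ^ 4 / 12 - v ^ 2 / 2 - B * v ^ 4 / 12 := by
  have hc : Continuous fun v' : ℝ => (1 + B * v' ^ 2) * min (V - v) (V - v') := by fun_prop
  rw [← intervalIntegral.integral_add_adjacent_intervals (hc.intervalIntegrable 0 v)
    (hc.intervalIntegrable v V)]
  have e1 : ∫ v' in (0 : ℝ)..v, (1 + B * v' ^ 2) * min (V - v) (V - v') =
      ∫ v' in (0 : ℝ)..v, ((V - v) + (V - v) * B * v' ^ 2) := by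
    refine intervalIntegral.integral_congr fun v' hv' => ?_
    rw [Set.uIcc_of_le hv.1] at hv'
    rw [min_eq_left (by linarith [hv'.2])]
    ring
  have e2 : ∫ v' in v..V, (1 + B * v' ^ 2) * min (V - v) (V - v') =
      ∫ v' in v..V, (V - v' + V * B * v' ^ 2 - B * v' ^ 3) := by
    refine intervalIntegral.integral_congr fun v' hv' => ?_
    rw [Set.uIcc_of_le hv.2] at hv'
    rw [min_eq_right (by linarith [hv'.1])]
    ring
  rw [e1, e2]
  rw [intervalIntegral.integral_add, intervalIntegral.integral_const,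
    intervalIntegral.integral_const_mul, integral_pow, intervalIntegral.integral_sub,
    intervalIntegral.integral_add, intervalIntegral.integral_sub, intervalIntegral.integral_const,
    integral_id, intervalIntegral.integral_const_mul, intervalIntegral.integral_const_mul,
    integral_pow, integral_pow]
  · simp only [smul_eq_mul]
    push_cast
    ring
  all_goals exact (Continuous.intervalIntegrable (by fun_prop) _ _)

private lemma nd5_double {V : ℝ} (hV : 0 ≤ V) (B : ℝ) :
    ∫ v in (0 : ℝ)..V, (1 + B * v ^ 2) *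
      ∫ v' in (0 : ℝ)..V, (1 + B * v' ^ 2) * min (V - v) (V - v') =
      V ^ 3 / 3 + 2 * B * V ^ 5 / 15 + B ^ 2 * V ^ 7 / 63 := by
  have e1 : (∫ v in (0 : ℝ)..V, (1 + B * v ^ 2) *
      ∫ v' in (0 : ℝ)..V, (1 + B * v' ^ 2) * min (V - v) (V - v')) =
      ∫ v in (0 : ℝ)..V, ((V ^ 2 / 2 + B * V ^ 4 / 12) +
        (B * (V ^ 2 / 2 + B * V ^ 4 / 12) - 1 / 2) * v ^ 2 + (-(B / 12) - B / 2) * v ^ 4 +
        (-(B ^ 2 / 12)) * v ^ 6) := by
    refine intervalIntegral.integral_congr fun v hv => ?_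
    rw [Set.uIcc_of_le hV] at hv
    rw [nd5_inner hv]
    ring
  rw [e1, nd5_poly]
  ring

private lemma nd5_qbu {V s B g a b : ℝ} (hV : 0 ≤ V) :
    qbu ndw (fun v => 1 + B * v ^ 2) g V s (fun v => a - b * v ^ 2) =
      9717 / 2000000 * (s * V ^ 2 / 2 + a ^ 2 * V - 2 * a * b * V ^ 3 / 3 + b ^ 2 * V ^ 5 / 5) +
      g * (s * (V ^ 3 / 3 + 2 * B * V ^ 5 / 15 + B ^ 2 * V ^ 7 / 63) +
        (a * V + (B * a - b) * V ^ 3 / 3 - B * b * V ^ 5 / 5) ^ 2) := by
  unfold qbu
  rw [nd5_double hV]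
  have e1 : (∫ v in (0 : ℝ)..V, ndw v * (s * (V - v) + (a - b * v ^ 2) ^ 2)) =
      9717 / 2000000 * (s * V ^ 2 / 2 + a ^ 2 * V - 2 * a * b * V ^ 3 / 3 + b ^ 2 * V ^ 5 / 5) := by
    unfold ndw
    rw [intervalIntegral.integral_const_mul]
    congr 1
    have e : (fun v : ℝ => s * (V - v) + (a - b * v ^ 2) ^ 2) =
        fun v => (s * V - s * v) + (a ^ 2 + (-(2 * a * b)) * v ^ 2 + b ^ 2 * v ^ 4 + 0 * v ^ 6) := by
      funext v
      ring
    rw [e, intervalIntegral.integral_add, nd5_poly, intervalIntegral.integral_sub,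
      intervalIntegral.integral_const, intervalIntegral.integral_const_mul, integral_id]
    · simp only [smul_eq_mul]
      ring
    all_goals exact (Continuous.intervalIntegrable (by fun_prop) _ _)
  have e2 : (∫ v in (0 : ℝ)..V, (1 + B * v ^ 2) * (a - b * v ^ 2)) =
      a * V + (B * a - b) * V ^ 3 / 3 - B * b * V ^ 5 / 5 := by
    have e : (fun v : ℝ => (1 + B * v ^ 2) * (a - b * v ^ 2)) =
        fun v => (a + (B * a - b) * v ^ 2 + (-(B * b)) * v ^ 4 + 0 * v ^ 6) := by
      funext v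
      ring
    rw [e, nd5_poly]
    ring
  rw [e1, e2]

theorem nd_energy : qbu ndw ndu1 (15624 / 10000) (1 / 2 + 1 / 100000)
      (((4999 / 10000 + 1 / 2) ^ 3 - 1 / 8) / 3) (fun v => ndy v - Hid (4999 / 10000) 0) +
    qbu ndw ndu2 (77424 / 10000) (1 / 2 + 1 / 100000)
      (((4999 / 10000 + 1 / 2) ^ 3 - 1 / 8) / 3) (fun v => ndy v - Hid (4999 / 10000) 0) ≤
      12598 / 100000 := by
  have e0 : (fun v => ndy v - Hid (4999 / 10000) 0) =
      fun v => 6191 / 50000 - 24169 / 50000 * v ^ 2 := by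
    funext v
    unfold ndy
    ring
  have e1 : ndu1 = fun v => 1 + 383 / 50 * v ^ 2 := rfl
  have e2 : ndu2 = fun v => 1 + (-601 / 250) * v ^ 2 := by
    funext v
    unfold ndu2
    ring
  rw [e0, e1, e2, nd5_qbu (by norm_num), nd5_qbu (by norm_num)]
  norm_num

end Pool.Agent.MP0016c7.Rz
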