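import Mathlib
import Pool.Agent.Lib.MP_0016c7_nt.Rz.Nd4
import Pool.Agent.Lib.MP_0016c7_nt.Rz.Nd5

set_option autoImplicit false

open Finset MeasureTheory Filter Topology
open scoped Real

namespace Pool.Agent.MP0016c7.Rz

/-- The certificate of rank two: energy less than `0.126` for mollifier length `0.4999`. -/
theorem cert_num2 : Cert2 (4999 / 10000) (1 / 100000) (1 / 2000) (12598 / 100000)
    ndw ndu1 ndu2 ndy (15624 / 10000) (77424 / 10000) where
  hθ₀ := by norm_num
  hδ := by norm_num
  hδ' := by norm_num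
  hμ := by norm_num
  hlen := by norm_num
  hw := ndw_cont
  hwp := fun v => by unfold ndw; norm_num
  hg₁ := by norm_num
  hg₂ := by norm_num
  hu₁ := ndu1_cont
  hu₂ := ndu2_cont
  hu₁p := fun v _ => by unfold ndu1; positivity
  hu₂p := fun v hv => by
    unfold ndu2
    have : v ^ 2 ≤ (1 / 2 + 1 / 100000) ^ 2 := pow_le_pow_left₀ hv.1 hv.2 2
    norm_num at this ⊢
    linarith
  hy := ndy_cont
  hyp := fun v hv => by
    unfold ndy
    have : v ^ 2 ≤ (1 / 2 + 1 / 100000) ^ 2 := pow_le_pow_left₀ hv.1 hv.2 2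
    norm_num at this ⊢
    linarith
  main := nd_main nd_crit
  en := nd_energy

end Pool.Agent.MP0016c7.Rz
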