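import Mathlib
import Pool.Agent.Lib.MP_0016c7_nt.Rz.U6
import Pool.Agent.Lib.MP_0016c7_nt.Rz.Nd6

set_option autoImplicit false

/-!
At least 87.4 percent of all primitive quadratic characters, with all characters induced by them.
-/

open Finset MeasureTheory Filter Topology
open scoped Real ContDiff

namespace Pool.Agent.MP0016c7.Rz

private lemma quad_val'' {q : ℕ} {χ : DirichletCharacter ℂ q} (h2 : χ ^ 2 = 1) (x : ZMod q) :
    ∃ r : ℝ, χ x = r ∧ |r| ≤ 1 := by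
  by_cases hx : IsUnit x
  · have h : (χ ^ 2) x = 1 := by rw [h2, MulChar.one_apply hx]
    rw [MulChar.pow_apply' χ two_ne_zero, sq] at h
    rcases mul_self_eq_one_iff.mp h with h | h
    · exact ⟨1, by rw [h]; simp, by simp⟩
    · exact ⟨-1, by rw [h]; simp, by simp⟩
  · exact ⟨0, by rw [χ.map_nonunit hx]; simp, by simp⟩

/-- Positivity passes to every induced character. -/
theorem pos_changeLevel {q N : ℕ} [NeZero N] [NeZero q] (hN : q ∣ N) (χ : DirichletCharacter ℂ q)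
    (h2 : χ ^ 2 = 1) {s : ℝ} (hs0 : 0 < s) (hs1 : s < 1)
    (h : (χ.LFunction s).im = 0 ∧ 0 < (χ.LFunction s).re) :
    ((DirichletCharacter.changeLevel hN χ).LFunction s).im = 0 ∧
      0 < ((DirichletCharacter.changeLevel hN χ).LFunction s).re := by
  have h1 := DirichletCharacter.LFunction_changeLevel hN χ
    (s := (s : ℂ)) (Or.inr (by
      intro h0
      have : s = 1 := by exact_mod_cast h0
      linarith))
  have h3 : ∃ P : ℝ, 0 < P ∧ ∏ p ∈ N.primeFactors,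
      (1 - χ p * (p : ℂ) ^ (-(s : ℂ))) = (P : ℂ) := by
    choose! r hr hr1 using fun p : ℕ => quad_val'' h2 (p : ZMod q)
    refine ⟨∏ p ∈ N.primeFactors, (1 - r p * (p : ℝ) ^ (-s)), ?_, ?_⟩
    · refine Finset.prod_pos fun p hp => ?_
      have hp1 : (1 : ℝ) < p := by exact_mod_cast (Nat.prime_of_mem_primeFactors hp).one_lt
      have h4 : (p : ℝ) ^ (-s) < 1 := Real.rpow_lt_one_of_one_lt_of_neg hp1 (by linarith)
      have h5 : 0 < (p : ℝ) ^ (-s) := Real.rpow_pos_of_pos (by linarith) _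
      have h6 := (abs_le.mp (hr1 p)).2
      nlinarith
    · rw [Complex.ofReal_prod]
      refine Finset.prod_congr rfl fun p hp => ?_
      rw [hr p]
      have : ((p : ℂ)) ^ (-(s : ℂ)) = (((p : ℝ) ^ (-s) : ℝ) : ℂ) := by
        rw [Complex.ofReal_cpow (by positivity)]
        push_cast
        rfl
      rw [this]
      push_cast
      ring
  obtain ⟨P, hP, hPe⟩ := h3
  rw [hPe] at h1
  rw [h1, Complex.mul_im, Complex.mul_re, Complex.ofReal_im, Complex.ofReal_re, h.1]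
  constructor
  · ring
  · have := mul_pos h.2 hP
    linarith

theorem pos_of_NZx {Q : ℕ} {x : (q : ℕ) × DirichletCharacter ℂ q} (hx : x ∈ PQ Q) (h : NZx x)
    (N : ℕ) (hN0 : 0 < N) (hN : x.1 ∣ N) (s : ℝ) (hs0 : 0 < s) (hs1 : s < 1) :
    (@DirichletCharacter.LFunction N ⟨hN0.ne'⟩ (DirichletCharacter.changeLevel hN x.2) s).im = 0 ∧
      0 < (@DirichletCharacter.LFunction N ⟨hN0.ne'⟩
        (DirichletCharacter.changeLevel hN x.2) s).re := by
  have hq : NeZero x.1 := ⟨hx.1.1.ne'⟩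
  have : NeZero N := ⟨hN0.ne'⟩
  exact pos_changeLevel hN x.2 hx.2.2.1 hs0 hs1
    (pos_of_noZero_gen x.2 hx.2.2.2 hx.2.2.1 (h hq) s hs0 hs1)

theorem main_all [QlsHyp] : ∃ Q₀ : ℕ, ∀ Q : ℕ, Q₀ ≤ Q →
    (874 / 1000 : ℝ) * Nat.card (PQ Q) ≤
      Nat.card {x : (q : ℕ) × DirichletCharacter ℂ q | x ∈ PQ Q ∧
        ∀ (N : ℕ) (_ : NeZero N) (hN : x.1 ∣ N) (s : ℝ), 0 < s → s < 1 →
          ((DirichletCharacter.changeLevel hN x.2).LFunction s).im = 0 ∧
            0 < ((DirichletCharacter.changeLevel hN x.2).LFunction s).re} := by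
  obtain ⟨Q₀, h⟩ := prop_all cert_num2 (by norm_num) (E' := 126 / 1000) (by norm_num)
  refine ⟨Q₀, fun Q hQ => ?_⟩
  have h1 := h Q hQ
  rw [Nat.card_coe_set_eq, Nat.card_coe_set_eq] at h1 ⊢
  have hfin := PQ_finite Q
  have h2 : (PQ Q).ncard = {x | x ∈ PQ Q ∧ ¬ NZx x}.ncard + {x | x ∈ PQ Q ∧ NZx x}.ncard := by
    rw [← Set.ncard_union_eq ?_ (hfin.subset fun _ hx => hx.1) (hfin.subset fun _ hx => hx.1)]
    · congr 1
      ext x
      simp only [Set.mem_union, Set.mem_ofPred_eq]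
      tauto
    · rw [Set.disjoint_left]
      rintro x ⟨_, h3⟩ ⟨_, h4⟩
      exact h3 h4
  have h3 : {x | x ∈ PQ Q ∧ NZx x} ⊆ {x : (q : ℕ) × DirichletCharacter ℂ q | x ∈ PQ Q ∧
        ∀ (N : ℕ) (_ : NeZero N) (hN : x.1 ∣ N) (s : ℝ), 0 < s → s < 1 →
          ((DirichletCharacter.changeLevel hN x.2).LFunction s).im = 0 ∧
            0 < ((DirichletCharacter.changeLevel hN x.2).LFunction s).re} := by
    rintro x ⟨hx, hn⟩
    refine ⟨hx, fun N hN0 hN s hs0 hs1 => ?_⟩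
    exact pos_of_NZx hx hn N (NeZero.pos N) hN s hs0 hs1
  have h4 := Set.ncard_le_ncard h3 (hfin.subset fun _ hx => hx.1)
  have h5 : ((PQ Q).ncard : ℝ) = ({x | x ∈ PQ Q ∧ ¬ NZx x}.ncard : ℝ) +
      ({x | x ∈ PQ Q ∧ NZx x}.ncard : ℝ) := by exact_mod_cast h2
  have h6 : ({x | x ∈ PQ Q ∧ NZx x}.ncard : ℝ) ≤ _ := Nat.cast_le.mpr h4
  refine le_trans ?_ h6
  linarith

end Pool.Agent.MP0016c7.Rz
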