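import Mathlib
import Pool.Agent.Lib.MP_0016c7_nt.Rz.HandU
import Pool.Agent.Lib.MP_0016c7_nt.Rz.U7

set_option autoImplicit false

/-!
At least 87.4 percent of the primitive quadratic characters with any given set of conditions on
`gcd(q, 8)`, `χ(-1)`, `χ(2)`.
-/

open Finset MeasureTheory Filter Topology
open scoped Real ContDiff

namespace Pool.Agent.MP0016c7.Rz

theorem main_sets [QlsHyp] : ∃ Q₀ : ℕ, ∀ Q : ℕ, Q₀ ≤ Q → ∀ S : Set (ℕ × ℂ × ℂ),
    (874 / 1000 : ℝ) * Nat.card {x : (q : ℕ) × DirichletCharacter ℂ q |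
        x ∈ PQ Q ∧ (Nat.gcd x.1 8, x.2 (-1), x.2 2) ∈ S} ≤
      Nat.card {x : (q : ℕ) × DirichletCharacter ℂ q |
        (x ∈ PQ Q ∧ (Nat.gcd x.1 8, x.2 (-1), x.2 2) ∈ S) ∧
        ∀ (N : ℕ) (_ : NeZero N) (hN : x.1 ∣ N) (s : ℝ), 0 < s → s < 1 →
          ((DirichletCharacter.changeLevel hN x.2).LFunction s).im = 0 ∧
            0 < ((DirichletCharacter.changeLevel hN x.2).LFunction s).re} := by
  classical
  choose Q₁ hQ₁ using fun p : ℕ × ℂ × ℂ =>
    prop_class cert_num2 (by norm_num) (E' := 126 / 1000) (by norm_num) p.1 p.2.1 p.2.2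
  refine ⟨DD.sup Q₁, fun Q hQ S => ?_⟩
  set data : ((q : ℕ) × DirichletCharacter ℂ q) → ℕ × ℂ × ℂ :=
    fun x => (Nat.gcd x.1 8, x.2 (-1), x.2 2) with hdata
  set A : Finset ((q : ℕ) × DirichletCharacter ℂ q) := (PQ_finite Q).toFinset with hA
  have hmem : ∀ x, x ∈ A ↔ x ∈ PQ Q := fun x => (PQ_finite Q).mem_toFinset
  have hcard : ∀ (P : ((q : ℕ) × DirichletCharacter ℂ q) → Prop) [DecidablePred P],
      Nat.card {x | x ∈ PQ Q ∧ P x} = (A.filter P).card := by
    intro P _
    rw [Nat.card_coe_set_eq, ← Set.ncard_coe_finset]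
    congr 1
    ext x
    simp only [Set.mem_ofPred_eq, Finset.coe_filter, hmem]
  have hcls : ∀ p ∈ DD, ((A.filter (fun x => data x = p ∧ ¬ NZx x)).card : ℝ) ≤
      126 / 1000 * ((A.filter (fun x => data x = p)).card : ℝ) := by
    intro p hp
    have h1 := hQ₁ p Q ((Finset.le_sup hp).trans hQ)
    have e1 : Nat.card {x | x ∈ PQ Q ∧ KL p.1 p.2.1 p.2.2 x ∧ ¬ NZx x} =
        (A.filter (fun x => data x = p ∧ ¬ NZx x)).card := by
      rw [← hcard]
      refine congrArg (fun T : Set ((q : ℕ) × DirichletCharacter ℂ q) => Nat.card T) ?_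
      ext x
      unfold KL
      simp only [Set.mem_ofPred_eq, hdata, Prod.ext_iff]
    have e2 : Nat.card {x | x ∈ PQ Q ∧ KL p.1 p.2.1 p.2.2 x} =
        (A.filter (fun x => data x = p)).card := by
      rw [← hcard]
      refine congrArg (fun T : Set ((q : ℕ) × DirichletCharacter ℂ q) => Nat.card T) ?_
      ext x
      unfold KL
      simp only [Set.mem_ofPred_eq, hdata, Prod.ext_iff]
    rw [e1, e2] at h1
    exact h1
  have hb : (A.filter (fun x => data x ∈ S ∧ ¬ NZx x)).card =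
      ∑ p ∈ DD.filter (fun p => p ∈ S), (A.filter (fun x => data x = p ∧ ¬ NZx x)).card := by
    rw [Finset.card_eq_sum_card_fiberwise (f := data) (t := DD.filter (fun p => p ∈ S))]
    · refine Finset.sum_congr rfl fun p hp => ?_
      rw [Finset.filter_filter]
      congr 1
      refine Finset.filter_congr fun x _ => ?_
      have hpS := (Finset.mem_filter.mp hp).2
      constructor
      · rintro ⟨⟨_, h2⟩, h3⟩
        exact ⟨h3, h2⟩
      · rintro ⟨h3, h2⟩
        exact ⟨⟨by rw [h3]; exact hpS, h2⟩, h3⟩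
    · intro x hx
      simp only [Finset.coe_filter, Set.mem_ofPred_eq] at hx ⊢
      exact ⟨data_mem ((hmem x).mp hx.1), hx.2.1⟩
  have ha : (A.filter (fun x => data x ∈ S)).card =
      ∑ p ∈ DD.filter (fun p => p ∈ S), (A.filter (fun x => data x = p)).card := by
    rw [Finset.card_eq_sum_card_fiberwise (f := data) (t := DD.filter (fun p => p ∈ S))]
    · refine Finset.sum_congr rfl fun p hp => ?_
      rw [Finset.filter_filter]
      congr 1
      refine Finset.filter_congr fun x _ => ?_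
      have hpS := (Finset.mem_filter.mp hp).2
      constructor
      · rintro ⟨_, h3⟩
        exact h3
      · intro h3
        exact ⟨by rw [h3]; exact hpS, h3⟩
    · intro x hx
      simp only [Finset.coe_filter, Set.mem_ofPred_eq] at hx ⊢
      exact ⟨data_mem ((hmem x).mp hx.1), hx.2⟩
  have hbound : ((A.filter (fun x => data x ∈ S ∧ ¬ NZx x)).card : ℝ) ≤
      126 / 1000 * ((A.filter (fun x => data x ∈ S)).card : ℝ) := by
    rw [hb, ha]
    push_cast
    rw [Finset.mul_sum]
    exact Finset.sum_le_sum fun p hp => hcls p (Finset.mem_filter.mp hp).1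
  have hsplit : (A.filter (fun x => data x ∈ S)).card =
      (A.filter (fun x => data x ∈ S ∧ ¬ NZx x)).card +
        (A.filter (fun x => data x ∈ S ∧ NZx x)).card := by
    rw [← Finset.card_union_of_disjoint]
    · congr 1
      ext x
      simp only [Finset.mem_union, Finset.mem_filter]
      tauto
    · rw [Finset.disjoint_filter]
      rintro x _ ⟨_, h1⟩ ⟨_, h2⟩
      exact h1 h2
  have hpos : (A.filter (fun x => data x ∈ S ∧ NZx x)).card ≤
      Nat.card {x : (q : ℕ) × DirichletCharacter ℂ q | (x ∈ PQ Q ∧ data x ∈ S) ∧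
        ∀ (N : ℕ) (_ : NeZero N) (hN : x.1 ∣ N) (s : ℝ), 0 < s → s < 1 →
          ((DirichletCharacter.changeLevel hN x.2).LFunction s).im = 0 ∧
            0 < ((DirichletCharacter.changeLevel hN x.2).LFunction s).re} := by
    rw [← Set.ncard_coe_finset, Nat.card_coe_set_eq]
    refine Set.ncard_le_ncard ?_ ((PQ_finite Q).subset fun x hx => hx.1.1)
    intro x hx
    rw [Finset.coe_filter] at hx
    obtain ⟨h1, h2, h3⟩ := hx
    have h1' := (hmem x).mp h1
    exact ⟨⟨h1', h2⟩, fun N hN0 hN s hs0 hs1 => pos_of_NZx h1' h3 N (NeZero.pos N) hN s hs0 hs1⟩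
  have e3 : Nat.card {x | x ∈ PQ Q ∧ data x ∈ S} = (A.filter (fun x => data x ∈ S)).card :=
    hcard _
  have hpos' : ((A.filter (fun x => data x ∈ S ∧ NZx x)).card : ℝ) ≤ _ := Nat.cast_le.mpr hpos
  refine le_trans ?_ hpos'
  rw [e3]
  have hsplit' : ((A.filter (fun x => data x ∈ S)).card : ℝ) =
      ((A.filter (fun x => data x ∈ S ∧ ¬ NZx x)).card : ℝ) +
        ((A.filter (fun x => data x ∈ S ∧ NZx x)).card : ℝ) := by exact_mod_cast hsplit
  linarith

end Pool.Agent.MP0016c7.Rz
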