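import Mathlib
import Pool.Agent.Lib.MP_0016c7_nt.Rz.W0

set_option autoImplicit false

/-!
The certificate outside a window.
-/

open Finset MeasureTheory Filter Topology
open scoped Real ContDiff

namespace Pool.Agent.MP0016c7.Rz

/-- The numerator of the lower bound. -/
private noncomputable def NN (θ h a : ℝ) : ℝ := Real.exp (a * θ) * (h * a - 1) - a / 2 + 1

private lemma NN_pos {θ h a : ℝ} (hθ : 0 ≤ θ) (hh : 99 / 100 ≤ h) (ha : 3 ≤ a) : 0 < NN θ h a := by
  unfold NN
  have h1 : 1 ≤ Real.exp (a * θ) := Real.one_le_exp (by positivity)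
  have h2 : 99 / 100 * a - 1 ≤ h * a - 1 := by nlinarith
  have h3 : h * a - 1 ≤ Real.exp (a * θ) * (h * a - 1) := by
    have : 0 ≤ h * a - 1 := by linarith
    nlinarith
  linarith

/-- monotonicity of the lower bound -/
private lemma NN_mono {δ a b : ℝ} (hδ : 0 < δ) (hδ' : δ ≤ 1 / 2000) (hb : 309 / 100 ≤ b)
    (hab : b ≤ a) : NN (1 / 2 - 7 * δ) (1 - 7 * δ) b / b ^ 3 ≤
      NN (1 / 2 - 7 * δ) (1 - 7 * δ) a / a ^ 3 := by
  set θ := 1 / 2 - 7 * δ with hθ
  set h := 1 - 7 * δ with hh
  have hder : ∀ x : ℝ, 0 < x → HasDerivAt (fun x => NN θ h x / x ^ 3)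
      (((Real.exp (x * θ) * θ * (h * x - 1) + Real.exp (x * θ) * h - 1 / 2) * x ^ 3 -
        NN θ h x * (3 * x ^ 2)) / (x ^ 3) ^ 2) x := by
    intro x hx
    have e1 : HasDerivAt (fun x : ℝ => Real.exp (x * θ)) (Real.exp (x * θ) * θ) x := by
      have := ((hasDerivAt_id x).mul_const θ).exp
      simpa using this
    have e2 : HasDerivAt (fun x : ℝ => h * x - 1) h x := by
      simpa using ((hasDerivAt_id x).const_mul h).sub_const 1
    have e3 : HasDerivAt (fun x => NN θ h x)
        (Real.exp (x * θ) * θ * (h * x - 1) + Real.exp (x * θ) * h - 1 / 2) x := by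
      unfold NN
      have e4 : HasDerivAt (fun x : ℝ => x / 2) (1 / 2) x := by
        simpa using (hasDerivAt_id x).div_const 2
      simpa using ((e1.mul e2).sub e4).add_const 1
    have e5 : HasDerivAt (fun x : ℝ => x ^ 3) (3 * x ^ 2) x := by
      simpa using hasDerivAt_pow 3 x
    exact e3.div e5 (by positivity)
  have hmono : MonotoneOn (fun x => NN θ h x / x ^ 3) (Set.Ici (309 / 100)) := by
    refine monotoneOn_of_deriv_nonneg (convex_Ici _) ?_ ?_ ?_
    · intro x hx
      have hx' : (309 / 100 : ℝ) ≤ x := hx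
      exact (hder x (by linarith)).continuousAt.continuousWithinAt
    · intro x hx
      rw [interior_Ici] at hx
      have hx' : (309 / 100 : ℝ) < x := hx
      exact (hder x (by linarith)).differentiableAt.differentiableWithinAt
    · intro x hx
      rw [interior_Ici] at hx
      have hx' : (309 / 100 : ℝ) < x := hx
      rw [(hder x (by linarith)).deriv]
      refine div_nonneg ?_ (by positivity)
      have hE : 0 < Real.exp (x * θ) := Real.exp_pos _
      have hq : 0 ≤ θ * h * x ^ 2 - (θ + 2 * h) * x + 3 := by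
        have e : θ * h * x ^ 2 - (θ + 2 * h) * x + 3 =
            (x - 3) * (θ * h * x - 1) - (21 / 2 * δ - 147 * δ ^ 2) * x := by
          rw [hθ, hh]
          ring
        rw [e]
        have h49 : 49 / 100 ≤ θ * h := by
          rw [hθ, hh]
          nlinarith
        have h1 : 166 / 1000 * x ≤ θ * h * x - 1 := by nlinarith
        have h2 : 9 / 100 * (166 / 1000 * x) ≤ (x - 3) * (θ * h * x - 1) := by
          have : 0 ≤ 166 / 1000 * x := by linarith
          nlinarith
        have h3 : (21 / 2 * δ - 147 * δ ^ 2) * x ≤ 21 / 2 * (1 / 1000) * x := by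
          have : 0 ≤ δ ^ 2 := sq_nonneg δ
          have : 21 / 2 * δ - 147 * δ ^ 2 ≤ 21 / 2 * (1 / 1000) := by nlinarith
          nlinarith
        nlinarith
      have e : (Real.exp (x * θ) * θ * (h * x - 1) + Real.exp (x * θ) * h - 1 / 2) * x ^ 3 -
          NN θ h x * (3 * x ^ 2) = x ^ 2 * (Real.exp (x * θ) *
            (θ * h * x ^ 2 - (θ + 2 * h) * x + 3) + (x - 3)) := by
        unfold NN
        ring
      rw [e]
      have : 0 ≤ x - 3 := by linarith
      positivity
  exact hmono (show (309 / 100 : ℝ) ≤ b from hb) (show (309 / 100 : ℝ) ≤ a from hb.trans hab) hab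

/-- The closed form of `PP2`. -/
private lemma PP2_eq {θ V a : ℝ} (hθ : 0 < θ) (ha : 0 < a) :
    PP2 θ V (fun _ => Hid θ 0) a = (a * (1 / 2 + θ) * Real.cosh (a * (V + θ)) -
      a / 2 * Real.cosh (a * V) - Real.sinh (a * (V + θ)) + Real.sinh (a * V)) / a ^ 3 := by
  have hH0 : Hid θ 0 = θ / 2 + θ ^ 2 / 2 := by
    unfold Hid
    rw [if_neg (by linarith)]
    simp
  have hsinh : ∀ v : ℝ, HasDerivAt (fun v => Real.sinh (a * v)) (Real.cosh (a * v) * a) v := by
    intro v
    have := ((hasDerivAt_id v).const_mul a).sinh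
    simpa using this
  have hcosh : ∀ v : ℝ, HasDerivAt (fun v => Real.cosh (a * v)) (Real.sinh (a * v) * a) v := by
    intro v
    have := ((hasDerivAt_id v).const_mul a).cosh
    simpa using this
  have i1 : ∫ v in (0 : ℝ)..V, Real.cosh (a * v) * Hid θ 0 =
      Real.sinh (a * V) / a * Hid θ 0 := by
    rw [intervalIntegral.integral_mul_const]
    congr 1
    have h1 : ∀ v ∈ Set.uIcc 0 V, HasDerivAt (fun v => Real.sinh (a * v) / a)
        (Real.cosh (a * v)) v := by
      intro v _
      have := (hsinh v).div_const a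
      rwa [mul_div_cancel_right₀ _ ha.ne'] at this
    rw [intervalIntegral.integral_eq_sub_of_hasDerivAt h1
      (Continuous.intervalIntegrable (by fun_prop) _ _)]
    simp
  set P : ℝ → ℝ := fun v => (θ - (v - V)) / 2 + (θ ^ 2 - (v - V) ^ 2) / 2 with hP
  have i2 : ∫ v in V..(V + θ), Real.cosh (a * v) * Hid θ (v - V) =
      ∫ v in V..(V + θ), Real.cosh (a * v) * P v := by
    refine intervalIntegral.integral_congr fun v hv => ?_
    rw [Set.uIcc_of_le (by linarith)] at hv
    congr 1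
    unfold Hid
    have h1 : max (v - V) 0 = v - V := max_eq_left (by linarith [hv.1])
    split_ifs with h2
    · have h3 : v - V = θ := le_antisymm (by linarith [hv.2]) h2
      rw [hP]
      simp only
      rw [h3]
      ring
    · rw [h1, hP]
  have hPd : ∀ v : ℝ, HasDerivAt P (-(1 / 2 + (v - V))) v := by
    intro v
    have h1 : HasDerivAt (fun v : ℝ => v - V) 1 v := (hasDerivAt_id v).sub_const V
    have h2 : HasDerivAt (fun v : ℝ => (θ - (v - V)) / 2) (-1 / 2) v := by
      simpa using (h1.const_sub θ).div_const 2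
    have h3 : HasDerivAt (fun v : ℝ => (θ ^ 2 - (v - V) ^ 2) / 2) (-(2 * (v - V)) / 2) v := by
      have := ((h1.pow 2).const_sub (θ ^ 2)).div_const 2
      simpa using this
    have h4 := h2.add h3
    have e : -(1 / 2 + (v - V)) = -1 / 2 + -(2 * (v - V)) / 2 := by ring
    rw [e]
    exact h4
  have i3 : ∫ v in V..(V + θ), Real.cosh (a * v) * P v =
      (Real.sinh (a * (V + θ)) / a * P (V + θ) + Real.cosh (a * (V + θ)) / a ^ 2 *
        (1 / 2 + (V + θ - V)) - Real.sinh (a * (V + θ)) / a ^ 3) -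
      (Real.sinh (a * V) / a * P V + Real.cosh (a * V) / a ^ 2 * (1 / 2 + (V - V)) -
        Real.sinh (a * V) / a ^ 3) := by
    have h1 : ∀ v ∈ Set.uIcc V (V + θ), HasDerivAt (fun v => Real.sinh (a * v) / a * P v +
        Real.cosh (a * v) / a ^ 2 * (1 / 2 + (v - V)) - Real.sinh (a * v) / a ^ 3)
        (Real.cosh (a * v) * P v) v := by
      intro v _
      have k1 := ((hsinh v).div_const a).mul (hPd v)
      have k2 : HasDerivAt (fun v : ℝ => 1 / 2 + (v - V)) 1 v := by
        simpa using ((hasDerivAt_id v).sub_const V).const_add (1 / 2)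
      have k3 := ((hcosh v).div_const (a ^ 2)).mul k2
      have k4 := (hsinh v).div_const (a ^ 3)
      exact ((k1.add k3).sub k4).congr_deriv (by field_simp; ring)
    rw [intervalIntegral.integral_eq_sub_of_hasDerivAt h1
      (Continuous.intervalIntegrable (by rw [hP]; fun_prop) _ _)]
  unfold PP2
  rw [i1, i2, i3, hH0, hP]
  simp only
  field_simp
  ring

private lemma PP2_ge {δ V a : ℝ} (hδ : 0 < δ) (hδ' : δ ≤ 1 / 2000) (hV : 0 ≤ V) (ha : 3 ≤ a) :
    Real.sinh (a * V) * (NN (1 / 2 - 7 * δ) (1 - 7 * δ) a / a ^ 3) ≤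
      PP2 (1 / 2 - 7 * δ) V (fun _ => Hid (1 / 2 - 7 * δ) 0) a := by
  set θ := 1 / 2 - 7 * δ with hθ
  have hθ0 : 0 < θ := by rw [hθ]; linarith
  have ha0 : 0 < a := by linarith
  rw [PP2_eq hθ0 ha0, mul_div_assoc']
  refine div_le_div_of_nonneg_right ?_ (by positivity)
  unfold NN
  have h1 : 1 - 7 * δ = 1 / 2 + θ := by rw [hθ]; ring
  rw [h1]
  have e1 : Real.cosh (a * (V + θ)) = Real.sinh (a * V) * Real.exp (a * θ) +
      Real.exp (-(a * V)) * Real.cosh (a * θ) := by
    rw [mul_add, Real.cosh_add, ← Real.cosh_add_sinh (a * θ), ← Real.cosh_sub_sinh (a * V)]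
    ring
  have e2 : Real.sinh (a * (V + θ)) = Real.sinh (a * V) * Real.exp (a * θ) +
      Real.exp (-(a * V)) * Real.sinh (a * θ) := by
    rw [mul_add, Real.sinh_add, ← Real.cosh_add_sinh (a * θ), ← Real.cosh_sub_sinh (a * V)]
    ring
  have e3 : Real.cosh (a * V) = Real.sinh (a * V) + Real.exp (-(a * V)) := by
    rw [← Real.cosh_sub_sinh]
    ring
  rw [e1, e2, e3]
  have h2 : 0 < Real.exp (-(a * V)) := Real.exp_pos _
  have h3 : 1 ≤ Real.cosh (a * θ) := Real.one_le_cosh _
  have h4 : Real.sinh (a * θ) ≤ Real.cosh (a * θ) := (Real.sinh_lt_cosh _).le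
  have h5 : 49 / 100 ≤ θ := by rw [hθ]; linarith
  have h6 : 0 ≤ a * (1 / 2 + θ) * Real.cosh (a * θ) - Real.sinh (a * θ) - a / 2 := by
    have k1 : (a * (1 / 2 + θ) - 1) * 1 ≤ (a * (1 / 2 + θ) - 1) * Real.cosh (a * θ) := by
      refine mul_le_mul_of_nonneg_left h3 ?_
      nlinarith
    nlinarith
  have h7 := mul_nonneg h2.le h6
  nlinarith

private lemma cosh_sinh {a b v V : ℝ} (hab : b ≤ a) (hv : 0 ≤ v) (hvV : v ≤ V) :
    Real.cosh (a * v) * Real.sinh (b * V) ≤ Real.cosh (b * v) * Real.sinh (a * V) := by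
  have h1 : ∀ x y : ℝ, Real.cosh x * Real.sinh y = (Real.sinh (y + x) + Real.sinh (y - x)) / 2 := by
    intro x y
    rw [Real.sinh_add, Real.sinh_sub]
    ring
  rw [h1, h1]
  have h2 : Real.sinh (b * V + a * v) ≤ Real.sinh (a * V + b * v) :=
    Real.sinh_le_sinh.mpr (by nlinarith)
  have h3 : Real.sinh (b * V - a * v) ≤ Real.sinh (a * V - b * v) :=
    Real.sinh_le_sinh.mpr (by nlinarith)
  linarith

/-- Cauchy-Schwarz with a weight -/
private lemma w_cs {V : ℝ} (hV : 0 < V) {w c f : ℝ → ℝ} (hw : Continuous w) (hwp : ∀ v, 0 < w v)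
    (hc : Continuous c) (hf : ContinuousOn f (Set.Icc 0 V)) :
    (∫ v in (0 : ℝ)..V, c v * f v) ^ 2 ≤
      (∫ v in (0 : ℝ)..V, c v ^ 2 / w v) * ∫ v in (0 : ℝ)..V, w v * f v ^ 2 := by
  set J := ∫ v in (0 : ℝ)..V, c v * f v with hJ
  set K := ∫ v in (0 : ℝ)..V, c v ^ 2 / w v with hK
  set B := ∫ v in (0 : ℝ)..V, w v * f v ^ 2 with hB
  have hii : ∀ {g : ℝ → ℝ}, ContinuousOn g (Set.Icc 0 V) → IntervalIntegrable g volume 0 V :=
    fun h => h.intervalIntegrable_of_Icc hV.le
  have c1 : ContinuousOn (fun v => c v ^ 2 / w v) (Set.Icc 0 V) :=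
    ((hc.pow 2).div hw fun v => (hwp v).ne').continuousOn
  have c2 : ContinuousOn (fun v => w v * f v ^ 2) (Set.Icc 0 V) := hw.continuousOn.mul (hf.pow 2)
  have c3 : ContinuousOn (fun v => c v * f v) (Set.Icc 0 V) := hc.continuousOn.mul hf
  have h0 : ∀ t : ℝ, 0 ≤ B - 2 * t * J + t ^ 2 * K := by
    intro t
    have h1 : 0 ≤ ∫ v in (0 : ℝ)..V, (w v * f v - t * c v) ^ 2 / w v :=
      intervalIntegral.integral_nonneg hV.le fun v _ => div_nonneg (sq_nonneg _) (hwp v).le
    have e : (fun v => (w v * f v - t * c v) ^ 2 / w v) = fun v =>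
        w v * f v ^ 2 - 2 * t * (c v * f v) + t ^ 2 * (c v ^ 2 / w v) := by
      funext v
      have := (hwp v).ne'
      field_simp
      ring
    rw [e, intervalIntegral.integral_add ((hii c2).sub ((hii c3).const_mul _))
      ((hii c1).const_mul _), intervalIntegral.integral_sub (hii c2) ((hii c3).const_mul _),
      intervalIntegral.integral_const_mul, intervalIntegral.integral_const_mul] at h1
    exact h1
  have hK0 : 0 ≤ K := intervalIntegral.integral_nonneg hV.le fun v _ =>
    div_nonneg (sq_nonneg _) (hwp v).le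
  rcases hK0.eq_or_lt with hK1 | hK1
  · rw [← hK1]
    have h1 := h0
    rw [← hK1] at h1
    simp only [mul_zero, add_zero] at h1
    have hJ0 : J = 0 := by
      by_contra hne
      have h2 := h1 ((B + 1) / (2 * J))
      have h3 : 2 * ((B + 1) / (2 * J)) * J = B + 1 := by field_simp
      linarith
    rw [hJ0]
    simp
  · have h1 := h0 (J / K)
    have h2 : B - 2 * (J / K) * J + (J / K) ^ 2 * K = (K * B - J ^ 2) / K := by
      field_simp
      ring
    rw [h2] at h1
    have h3 : 0 ≤ K * B - J ^ 2 := by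
      by_contra hcon
      push Not at hcon
      have := div_neg_of_neg_of_pos hcon hK1
      linarith
    linarith

/-- The certificate for given parameters. -/
private lemma cert_aux {b δ : ℝ} (hb : 309 / 100 ≤ b) (hδ : 0 < δ) (hδ' : δ ≤ 1 / 2000) :
    ∃ w : ℝ → ℝ, CertW b (1 / 2 - 7 * δ) δ δ
      ((1 + δ) * (((1 - 7 * δ) ^ 3 - 1 / 8) / 3) * b ^ 3 /
        NN (1 / 2 - 7 * δ) (1 - 7 * δ) b ^ 2) w := by
  set θ := 1 / 2 - 7 * δ with hθ
  set V := 1 / 2 + δ with hV
  set N := NN θ (1 - 7 * δ) b with hN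
  have hb0 : 0 < b := by linarith
  have hθ0 : 0 < θ := by rw [hθ]; linarith
  have hV0 : 0 < V := by rw [hV]; linarith
  have hNp : 0 < N := NN_pos hθ0.le (by linarith) (by linarith)
  set Q := N / b ^ 3 with hQ
  have hQp : 0 < Q := by positivity
  have hS : 0 < Real.sinh (b * V) := Real.sinh_pos_iff.mpr (by positivity)
  set g := (1 + δ) / (b * Real.sinh (b * V) * Q ^ 2) with hg
  have hgp : 0 < g := by positivity
  clear_value g
  have hcont : Continuous (fun v : ℝ => g * Real.cosh (b * v)) := by fun_prop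
  have hpos : ∀ v : ℝ, 0 < g * Real.cosh (b * v) := fun v => mul_pos hgp (Real.cosh_pos _)
  have hsinh : ∀ v : ℝ, HasDerivAt (fun v => Real.sinh (b * v)) (Real.cosh (b * v) * b) v := by
    intro v
    have := ((hasDerivAt_id v).const_mul b).sinh
    simpa using this
  have hcosh : ∀ v : ℝ, HasDerivAt (fun v => Real.cosh (b * v)) (Real.sinh (b * v) * b) v := by
    intro v
    have := ((hasDerivAt_id v).const_mul b).cosh
    simpa using this
  have hIc : ∫ v in (0 : ℝ)..V, Real.cosh (b * v) = Real.sinh (b * V) / b := by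
    have h1 : ∀ v ∈ Set.uIcc 0 V, HasDerivAt (fun v => Real.sinh (b * v) / b)
        (Real.cosh (b * v)) v := by
      intro v _
      have := (hsinh v).div_const b
      rwa [mul_div_cancel_right₀ _ hb0.ne'] at this
    rw [intervalIntegral.integral_eq_sub_of_hasDerivAt h1
      (Continuous.intervalIntegrable (by fun_prop) _ _)]
    simp
  have hId : ∫ v in (0 : ℝ)..V, Real.cosh (b * v) * (V - v) = (Real.cosh (b * V) - 1) / b ^ 2 := by
    have h1 : ∀ v ∈ Set.uIcc 0 V, HasDerivAt
        (fun v => Real.sinh (b * v) / b * (V - v) + Real.cosh (b * v) / b ^ 2)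
        (Real.cosh (b * v) * (V - v)) v := by
      intro v _
      have k1 : HasDerivAt (fun v : ℝ => V - v) (-1) v := by
        simpa using (hasDerivAt_id v).const_sub V
      exact ((((hsinh v).div_const b).mul k1).add ((hcosh v).div_const (b ^ 2))).congr_deriv
        (by field_simp; ring)
    rw [intervalIntegral.integral_eq_sub_of_hasDerivAt h1
      (Continuous.intervalIntegrable (by fun_prop) _ _)]
    simp
    ring
  refine ⟨fun v => g * Real.cosh (b * v), hθ0, hδ, by linarith, hδ, by rw [hθ]; linarith, hcont,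
    hpos, ?_, ?_⟩
  · intro a ha f hf
    rw [← hV] at hf ⊢
    -- reduction to positive a
    have hred : ∀ a : ℝ, b ≤ a → (1 + δ) * (∫ v in (0 : ℝ)..V, Real.cosh (a * v) * f v) ^ 2 ≤
        (∫ v in (0 : ℝ)..V, g * Real.cosh (b * v) * f v ^ 2) *
          PP2 θ V (fun _ => Hid θ 0) a ^ 2 := by
      intro a ha
      set P := PP2 θ V (fun _ => Hid θ 0) a with hP
      have hP1 : Real.sinh (a * V) * Q ≤ P := by
        refine le_trans ?_ (PP2_ge hδ hδ' hV0.le (by linarith))
        refine mul_le_mul_of_nonneg_left ?_ (Real.sinh_nonneg_iff.mpr (by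
          have : 0 ≤ a := by linarith
          positivity))
        exact NN_mono hδ hδ' hb ha
      have hcs := w_cs hV0 hcont hpos (c := fun v => Real.cosh (a * v)) (by fun_prop) hf
      have hpt : ∀ v ∈ Set.Icc 0 V, Real.cosh (a * v) ^ 2 / (g * Real.cosh (b * v)) ≤
          P ^ 2 / (Real.sinh (b * V) ^ 2 * Q ^ 2 * g) * Real.cosh (b * v) := by
        intro v hv
        have h1 := cosh_sinh ha hv.1 hv.2
        have h2 : Real.cosh (a * v) * Real.sinh (b * V) * Q ≤ Real.cosh (b * v) * P := by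
          calc Real.cosh (a * v) * Real.sinh (b * V) * Q
              ≤ Real.cosh (b * v) * Real.sinh (a * V) * Q :=
                mul_le_mul_of_nonneg_right h1 hQp.le
            _ = Real.cosh (b * v) * (Real.sinh (a * V) * Q) := by ring
            _ ≤ Real.cosh (b * v) * P := mul_le_mul_of_nonneg_left hP1 (Real.cosh_pos _).le
        have h3 : (Real.cosh (a * v) * Real.sinh (b * V) * Q) ^ 2 ≤ (Real.cosh (b * v) * P) ^ 2 :=
          pow_le_pow_left₀ (by have := Real.cosh_pos (a * v); positivity) h2 2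
        rw [div_mul_eq_mul_div, div_le_div_iff₀ (hpos v) (by positivity)]
        have h4 : 0 < Real.cosh (b * v) := Real.cosh_pos _
        calc Real.cosh (a * v) ^ 2 * (Real.sinh (b * V) ^ 2 * Q ^ 2 * g)
            = g * (Real.cosh (a * v) * Real.sinh (b * V) * Q) ^ 2 := by ring
          _ ≤ g * (Real.cosh (b * v) * P) ^ 2 := mul_le_mul_of_nonneg_left h3 hgp.le
          _ = P ^ 2 * Real.cosh (b * v) * (g * Real.cosh (b * v)) := by ring
      have hint : ∫ v in (0 : ℝ)..V, Real.cosh (a * v) ^ 2 / (g * Real.cosh (b * v)) ≤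
          P ^ 2 / (1 + δ) := by
        have hc1 : Continuous (fun v : ℝ => Real.cosh (a * v) ^ 2 / (g * Real.cosh (b * v))) :=
          Continuous.div (by fun_prop) hcont fun v => (hpos v).ne'
        have hc2 : Continuous (fun v : ℝ => P ^ 2 / (Real.sinh (b * V) ^ 2 * Q ^ 2 * g) *
            Real.cosh (b * v)) := by fun_prop
        have h1 := intervalIntegral.integral_mono_on (μ := volume) hV0.le
          (hc1.intervalIntegrable _ _) (hc2.intervalIntegrable _ _) hpt
        rw [intervalIntegral.integral_const_mul, hIc] at h1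
        refine h1.trans (le_of_eq ?_)
        rw [hg]
        field_simp
      have hB : 0 ≤ ∫ v in (0 : ℝ)..V, g * Real.cosh (b * v) * f v ^ 2 :=
        intervalIntegral.integral_nonneg hV0.le fun v _ => mul_nonneg (hpos v).le (sq_nonneg _)
      calc (1 + δ) * (∫ v in (0 : ℝ)..V, Real.cosh (a * v) * f v) ^ 2
          ≤ (1 + δ) * (P ^ 2 / (1 + δ) * ∫ v in (0 : ℝ)..V, g * Real.cosh (b * v) * f v ^ 2) := by
            refine mul_le_mul_of_nonneg_left (hcs.trans ?_) (by linarith)
            exact mul_le_mul_of_nonneg_right hint hB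
        _ = _ := by field_simp
    rcases le_or_gt 0 a with h0 | h0
    · rw [abs_of_nonneg h0] at ha
      exact hred a ha
    · rw [abs_of_neg h0] at ha
      have h1 := hred (-a) ha
      have e1 : ∀ v : ℝ, Real.cosh (-a * v) = Real.cosh (a * v) := by
        intro v
        rw [neg_mul, Real.cosh_neg]
      have e2 : PP2 θ V (fun _ => Hid θ 0) (-a) = PP2 θ V (fun _ => Hid θ 0) a := by
        unfold PP2
        simp only [e1]
      rw [e2] at h1
      simp only [e1] at h1
      exact h1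
  · rw [← hV]
    set s := ((θ + 1 / 2) ^ 3 - 1 / 8) / 3 with hs
    have hs' : s = ((1 - 7 * δ) ^ 3 - 1 / 8) / 3 := by rw [hs, hθ]; ring
    have hs0 : 0 ≤ s := by
      rw [hs']
      have : (99 / 100 : ℝ) ^ 3 ≤ (1 - 7 * δ) ^ 3 := pow_le_pow_left₀ (by norm_num) (by linarith) 3
      have h9 : (1 / 8 : ℝ) ≤ (99 / 100 : ℝ) ^ 3 := by norm_num
      linarith
    have e1 : (fun v : ℝ => g * Real.cosh (b * v) * (s * (V - v))) =
        fun v => g * s * (Real.cosh (b * v) * (V - v)) := by
      funext v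
      ring
    rw [e1, intervalIntegral.integral_const_mul, hId]
    have h1 : Real.cosh (b * V) - 1 ≤ Real.sinh (b * V) := by
      have h2 := Real.cosh_sub_sinh (b * V)
      have h3 : Real.exp (-(b * V)) ≤ 1 := Real.exp_le_one_iff.mpr (by
        have : 0 ≤ b * V := by positivity
        linarith)
      linarith
    calc g * s * ((Real.cosh (b * V) - 1) / b ^ 2) ≤ g * s * (Real.sinh (b * V) / b ^ 2) := by
          have : 0 ≤ g * s := by positivity
          gcongr
      _ = (1 + δ) * (((1 - 7 * δ) ^ 3 - 1 / 8) / 3) * b ^ 3 / N ^ 2 := by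
          rw [hg, hQ, ← hs']
          field_simp

/-- W3 -/
theorem certW {A : ℝ} (hA : 31 / 10 ≤ A) : ∃ (A' θ₀ δ μ E : ℝ) (w : ℝ → ℝ), 0 < A' ∧ A' < A ∧
    CertW A' θ₀ δ μ E w ∧ 0 ≤ E ∧ E < (A + 3) / 2 * Real.exp (-A) := by
  set Φ : ℝ → ℝ := fun δ => (1 + δ) * (((1 - 7 * δ) ^ 3 - 1 / 8) / 3) * (A - δ) ^ 3 /
        NN (1 / 2 - 7 * δ) (1 - 7 * δ) (A - δ) ^ 2 with hΦ
  have hN0 : 0 < NN (1 / 2 - 7 * 0) (1 - 7 * 0) (A - 0) :=
    NN_pos (by norm_num) (by norm_num) (by linarith)
  have hcont : ContinuousAt Φ 0 := by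
    have hNc : Continuous (fun δ : ℝ => NN (1 / 2 - 7 * δ) (1 - 7 * δ) (A - δ)) := by
      unfold NN
      fun_prop
    refine ContinuousAt.div (by fun_prop) (hNc.pow 2).continuousAt ?_
    positivity
  have h0 : Φ 0 < (A + 3) / 2 * Real.exp (-A) := by
    have hN1 : Real.exp (A / 2) * (A - 1 - 1354 / 10000) ≤
        NN (1 / 2 - 7 * 0) (1 - 7 * 0) (A - 0) := by
      unfold NN
      have e : Real.exp ((A - 0) * (1 / 2 - 7 * 0)) = Real.exp (A / 2) := by
        congr 1
        ring
      rw [e]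
      have h1 : A / 2 - 1 ≤ Real.exp (A / 2 - 2) := by
        have := Real.add_one_le_exp (A / 2 - 2)
        linarith
      have h2 : Real.exp (A / 2 - 2) ≤ 1354 / 10000 * Real.exp (A / 2) := by
        rw [sub_eq_add_neg, Real.exp_add, mul_comm]
        refine mul_le_mul_of_nonneg_right ?_ (Real.exp_pos _).le
        rw [Real.exp_neg, inv_le_comm₀ (Real.exp_pos _) (by norm_num)]
        have h3 : Real.exp 2 = Real.exp 1 ^ 2 := by
          rw [← Real.exp_nat_mul]
          norm_num
        rw [h3]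
        have h4 := Real.exp_one_gt_d9
        calc ((1354 : ℝ) / 10000)⁻¹ ≤ 2.7182818283 ^ 2 := by norm_num
          _ ≤ Real.exp 1 ^ 2 := by gcongr
      linarith
    have hA1 : 0 < A - 1 - 1354 / 10000 := by linarith
    have hp : 0 < Real.exp (A / 2) * (A - 1 - 1354 / 10000) := mul_pos (Real.exp_pos _) hA1
    have hN2 : (Real.exp (A / 2) * (A - 1 - 1354 / 10000)) ^ 2 ≤
        NN (1 / 2 - 7 * 0) (1 - 7 * 0) (A - 0) ^ 2 := pow_le_pow_left₀ hp.le hN1 2
    rw [hΦ]
    simp only
    rw [div_lt_iff₀ (by positivity)]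
    have hpoly : (7 / 24) * A ^ 3 < (A + 3) / 2 * (A - 1 - 1354 / 10000) ^ 2 := by
      have k1 : 0 ≤ A - 31 / 10 := by linarith
      nlinarith [pow_nonneg k1 2, pow_nonneg k1 3]
    have hE : Real.exp (-A) * Real.exp (A / 2) ^ 2 = 1 := by
      rw [← Real.exp_nat_mul, ← Real.exp_add]
      convert Real.exp_zero using 2
      push_cast
      ring
    calc (1 + 0) * (((1 - 7 * 0) ^ 3 - 1 / 8) / 3) * (A - 0) ^ 3 = (7 / 24) * A ^ 3 := by ring
      _ < (A + 3) / 2 * (A - 1 - 1354 / 10000) ^ 2 := hpoly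
      _ = (A + 3) / 2 * Real.exp (-A) * (Real.exp (A / 2) * (A - 1 - 1354 / 10000)) ^ 2 := by
          rw [mul_pow]
          linear_combination (-(A + 3) / 2 * (A - 1 - 1354 / 10000) ^ 2) * hE
      _ ≤ (A + 3) / 2 * Real.exp (-A) * NN (1 / 2 - 7 * 0) (1 - 7 * 0) (A - 0) ^ 2 := by
          have : 0 ≤ (A + 3) / 2 * Real.exp (-A) := by
            have := Real.exp_pos (-A)
            have : 0 ≤ (A + 3) / 2 := by linarith
            positivity
          exact mul_le_mul_of_nonneg_left hN2 this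
  have hev := hcont.eventually (gt_mem_nhds h0)
  rw [Metric.eventually_nhds_iff] at hev
  obtain ⟨η, hη, hev⟩ := hev
  set δ := min (η / 2) (1 / 2000) with hδ
  have hδ0 : 0 < δ := by
    rw [hδ]
    exact lt_min (by linarith) (by norm_num)
  have hδ1 : δ ≤ 1 / 2000 := min_le_right _ _
  have hδ2 : δ < η := (min_le_left _ _).trans_lt (by linarith)
  have h1 : Φ δ < (A + 3) / 2 * Real.exp (-A) := hev (by
    rw [Real.dist_eq, sub_zero, abs_of_pos hδ0]
    exact hδ2)
  obtain ⟨w, hw⟩ := cert_aux (b := A - δ) (by linarith) hδ0 hδ1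
  refine ⟨A - δ, 1 / 2 - 7 * δ, δ, δ, Φ δ, w, by linarith, by linarith, hw, ?_, h1⟩
  rw [hΦ]
  simp only
  have hs : (0 : ℝ) ≤ ((1 - 7 * δ) ^ 3 - 1 / 8) / 3 := by
    have : (99 / 100 : ℝ) ^ 3 ≤ (1 - 7 * δ) ^ 3 := pow_le_pow_left₀ (by norm_num) (by linarith) 3
    have h9 : (1 / 8 : ℝ) ≤ (99 / 100 : ℝ) ^ 3 := by norm_num
    linarith
  have hb : 0 ≤ A - δ := by linarith
  positivity

end Pool.Agent.MP0016c7.Rz
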