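import Mathlib
import Pool.Agent.Lib.MP_0016c7_nt.Rz.U6
import Pool.Agent.Lib.MP_0016c7_nt.Rz.U7
import Pool.Agent.Lib.MP_0016c7_nt.Rz.W0
import Pool.Agent.Lib.MP_0016c7_nt.Rz.W2
import Pool.Agent.Lib.MP_0016c7_nt.Rz.WA
import Pool.Agent.Lib.MP_0016c7_nt.Rz.WF
import Pool.Agent.Lib.MP_0016c7_nt.Rz2.CharG

set_option autoImplicit false

/-!
The proportion in every class of primitive quadratic characters with a zero outside a window.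
-/

open Finset MeasureTheory Filter Topology
open scoped Real ContDiff

namespace Pool.Agent.MP0016c7.Rz

theorem totB_ofW {A : ℝ} {R NZ : ℕ → Prop} {D θ₀ δ μ E E' : ℝ} {w : ℝ → ℝ}
    (hC : CertW A θ₀ δ μ E w) (hE0 : 0 ≤ E) (hf : FamW A R NZ D θ₀ δ) (hEE : E < E') :
    TotB R NZ E' := by
  obtain ⟨X₀, h⟩ := fam_boundW hC hE0 hf ((E + E') / 2) (by linarith)
  exact Fb.total_gen R NZ (c := D / 4) (E := (E + E') / 2) (by have := hf.hD; positivity)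
    (by linarith) (by linarith) ⟨X₀, h⟩

/-- The bounds for all families. -/
theorem tot_famW [QlsHyp] {A A' θ₀ δ μ E E' : ℝ} {w : ℝ → ℝ} (hA' : 0 < A') (hAA : A' < A)
    (hC : CertW A' θ₀ δ μ E w) (hE0 : 0 ≤ E) (hEE : E < E') :
    (∀ σ : ℤ, (σ = 1 ∨ σ = -1) → TotB Odd (NoZW A σ) E') ∧
    ∀ {m c ε : ℤ} {κ : ℕ} (_ : Fam m c ε κ) (σ : ℤ), (σ = 1 ∨ σ = -1) →
      TotB (Rf m c σ) (NoZWG A κ) E' := by
  have hθ₀ := hC.hθ₀
  have hδ := hC.hδ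
  have hlen := hC.hlen
  have hEs : ErrS (θ₀ + 3 * δ) δ := errS_of_lt2 _ _ (by linarith) hδ (by linarith)
  have hEg : ErrG (θ₀ + 3 * δ) δ := errG_of_lt _ _ (by linarith) hδ (by linarith)
  refine ⟨fun σ hσ => totB_ofW hC hE0 (famW_A hθ₀ hδ hC.hδ' hlen hEs σ hσ hA' hAA) hEE, ?_⟩
  intro m c ε κ hf σ hσ
  exact totB_ofW hC hE0 (famW_F hθ₀ hδ hC.hδ' hlen hEg σ hσ hf hA' hAA) hEE

/-- The proportion of the elements of the class `P` with a zero is at most `E`. -/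
def TotXW (A : ℝ) (P : ((q : ℕ) × DirichletCharacter ℂ q) → Prop) (E : ℝ) : Prop :=
  ∃ Q₀ : ℕ, ∀ Q : ℕ, Q₀ ≤ Q →
    (Nat.card {x | x ∈ PQ Q ∧ P x ∧ ¬ NZxW A x} : ℝ) ≤ E * (Nat.card {x | x ∈ PQ Q ∧ P x} : ℝ)

private lemma eq_of' {Q : ℕ} {x y : (q : ℕ) × DirichletCharacter ℂ q} (hx : x ∈ PQ Q)
    (hy : y ∈ PQ Q) (h : x.1 = y.1) (h' : x.2 (-1) = y.2 (-1)) : x = y := by
  have h0 := hx.1.1.ne'
  obtain ⟨q, χ⟩ := x
  obtain ⟨q', χ'⟩ := y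
  simp only at h h' h0
  subst h
  have : NeZero q := ⟨h0⟩
  have := prim_quad_unique χ χ' hx.2.1 hx.2.2.1 hy.2.1 hy.2.2.1 (Or.inl h')
  rw [this]

private lemma class_count {A : ℝ} {κ : ℕ} (hκ : 0 < κ) {E : ℝ} (hE : 0 ≤ E) (g : ℕ) (a b : ℂ)
    (R NZ : ℕ → Prop)
    (h1 : ∀ Q, ∀ x ∈ PQ Q, KL g a b x → ∃ d, x.1 = κ * d ∧ R d ∧ Squarefree d ∧ (NZ d → NZxW A x))
    (h2 : ∀ d, R d → Squarefree d → ∃ χ : DirichletCharacter ℂ (κ * d),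
      (χ.IsPrimitive ∧ χ ^ 2 = 1 ∧ χ ≠ 1) ∧ KL g a b ⟨κ * d, χ⟩)
    (hT : TotB R NZ E) : TotXW A (KL g a b) E := by
  obtain ⟨X₀, hT⟩ := hT
  refine ⟨κ * X₀, fun Q hQ => ?_⟩
  have k := hT (Q / κ) ((Nat.le_div_iff_mul_le hκ).mpr (by rw [mul_comm]; exact hQ))
  simp only [Nat.card_coe_set_eq] at k ⊢
  have hfin : ∀ S : ((q : ℕ) × DirichletCharacter ℂ q) → Prop, {x | x ∈ PQ Q ∧ S x}.Finite :=
    fun S => (PQ_finite Q).subset fun _ h => h.1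
  have c1 : {x | x ∈ PQ Q ∧ KL g a b x ∧ ¬ NZxW A x}.ncard ≤
      {d : ℕ | d ≤ Q / κ ∧ R d ∧ Squarefree d ∧ ¬ NZ d}.ncard := by
    refine Set.ncard_le_ncard_of_injOn (fun x => x.1 / κ) ?_ ?_
      ((Set.finite_Iic (Q / κ)).subset fun _ hd => hd.1)
    · rintro x ⟨hx, hP, hz⟩
      obtain ⟨d, e1, e2, e3, e4⟩ := h1 Q x hx hP
      have e5 : x.1 / κ = d := by rw [e1, Nat.mul_div_cancel_left d hκ]
      simp only [Set.mem_ofPred_eq]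
      rw [e5]
      refine ⟨?_, e2, e3, fun h => hz (e4 h)⟩
      rw [← e5]
      exact Nat.div_le_div_right hx.1.2
    · rintro x ⟨hx, hP, _⟩ y ⟨hy, hP', _⟩ hxy
      obtain ⟨d, e1, _⟩ := h1 Q x hx hP
      obtain ⟨d', e1', _⟩ := h1 Q y hy hP'
      simp only at hxy
      rw [e1, e1', Nat.mul_div_cancel_left d hκ, Nat.mul_div_cancel_left d' hκ] at hxy
      exact eq_of' hx hy (by rw [e1, e1', hxy]) (by rw [hP.2.1, hP'.2.1])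
  have c2 : {d : ℕ | d ≤ Q / κ ∧ R d ∧ Squarefree d}.ncard ≤
      {x | x ∈ PQ Q ∧ KL g a b x}.ncard := by
    choose f hf hf' using fun (d : {d : ℕ | d ≤ Q / κ ∧ R d ∧ Squarefree d}) =>
      h2 d.1 d.2.2.1 d.2.2.2
    rw [← Nat.card_coe_set_eq, ← Nat.card_coe_set_eq]
    have hfin' : Finite {x | x ∈ PQ Q ∧ KL g a b x} := (hfin _).to_subtype
    refine Nat.card_le_card_of_injective (fun d => ⟨⟨κ * d.1, f d⟩, ⟨⟨?_, ?_⟩, hf d⟩, hf' d⟩) ?_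
    · have := Nat.pos_of_ne_zero d.2.2.2.ne_zero
      positivity
    · have := d.2.1
      calc κ * d.1 ≤ κ * (Q / κ) := Nat.mul_le_mul_left κ this
        _ ≤ Q := Nat.mul_div_le Q κ
    · intro d e hde
      have h3 := congrArg (fun z : {x | x ∈ PQ Q ∧ KL g a b x} => z.1.1) hde
      simp only at h3
      exact Subtype.ext (Nat.eq_of_mul_eq_mul_left hκ h3)
  have c1' : ({x | x ∈ PQ Q ∧ KL g a b x ∧ ¬ NZxW A x}.ncard : ℝ) ≤ _ := Nat.cast_le.mpr c1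
  have c2' : _ ≤ ({x | x ∈ PQ Q ∧ KL g a b x}.ncard : ℝ) := Nat.cast_le.mpr c2
  have m := mul_le_mul_of_nonneg_left c2' hE
  linarith

private lemma gcd_odd {d : ℕ} (h : Odd d) : Nat.gcd d 8 = 1 := by
  have : Nat.Coprime d (2 ^ 3) := Nat.Coprime.pow_right 3 ((Nat.coprime_two_right (n := d)).2 h)
  exact this

private lemma gcd_four {d : ℕ} (h : Odd d) : Nat.gcd (4 * d) 8 = 4 := by
  have h2 : Nat.gcd d 2 = 1 := (Nat.coprime_two_right (n := d)).2 h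
  have : Nat.gcd (4 * d) (4 * 2) = 4 * Nat.gcd d 2 := Nat.gcd_mul_left 4 d 2
  rw [h2] at this
  exact this

private lemma gcd_eight (d : ℕ) : Nat.gcd (8 * d) 8 = 8 := by
  have : Nat.gcd (8 * d) (8 * 1) = 8 * Nat.gcd d 1 := Nat.gcd_mul_left 8 d 1
  rw [Nat.gcd_one_right] at this
  exact this

private lemma two_nonunit {q : ℕ} (h : 2 ∣ q) (χ : DirichletCharacter ℂ q) : χ 2 = 0 := by
  apply χ.map_nonunit
  intro hu
  have h1 : ((2 : ℕ) : ZMod q) = 2 := by norm_num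
  rw [← h1, ZMod.isUnit_iff_coprime] at hu
  have := Nat.dvd_gcd (dvd_refl 2) h
  rw [Nat.Coprime] at hu
  rw [hu] at this
  omega

/-- The levels of the elements of `PQ Q`. -/
private lemma lev {Q : ℕ} {x : (q : ℕ) × DirichletCharacter ℂ q} (hx : x ∈ PQ Q) :
    (Nat.gcd x.1 8 = 1 ∧ Odd x.1 ∧ Squarefree x.1 ∧ 1 < x.1) ∨
    (Nat.gcd x.1 8 = 4 ∧ ∃ d : ℕ, Odd d ∧ Squarefree d ∧ x.1 = 4 * d) ∨
    (Nat.gcd x.1 8 = 8 ∧ ∃ d : ℕ, Odd d ∧ Squarefree d ∧ x.1 = 8 * d) := by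
  have : NeZero x.1 := ⟨hx.1.1.ne'⟩
  rcases prim_quad_level x.2 hx.2.1 hx.2.2.1 hx.2.2.2 with h1 | ⟨d, h1, h2, h3⟩ | ⟨d, h1, h2, h3⟩
  · exact Or.inl ⟨gcd_odd h1.1, h1⟩
  · exact Or.inr (Or.inl ⟨by rw [h3]; exact gcd_four h1, d, h1, h2, h3⟩)
  · exact Or.inr (Or.inr ⟨by rw [h3]; exact gcd_eight d, d, h1, h2, h3⟩)

private lemma par_val {q : ℕ} {χ : DirichletCharacter ℂ q} {σ : ℤ}
    (h : (σ = 1 ∧ χ.Even) ∨ (σ = -1 ∧ χ.Odd)) : χ (-1) = (σ : ℂ) := by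
  rcases h with ⟨h, h'⟩ | ⟨h, h'⟩
  · rw [h, h']; simp
  · rw [h, h']; simp

private lemma sig_inj {σ σ' : ℤ} (h : (σ : ℂ) = σ') : σ = σ' := by exact_mod_cast h

private lemma signs {σ : ℤ} (hσ : σ = 1 ∨ σ = -1) {q : ℕ} {χ : DirichletCharacter ℂ q}
    (h : χ (-1) = (σ : ℂ)) : (σ = 1 ∧ χ.Even) ∨ (σ = -1 ∧ χ.Odd) := by
  rcases hσ with rfl | rfl
  · exact Or.inl ⟨rfl, by unfold DirichletCharacter.Even; rw [h]; simp⟩
  · exact Or.inr ⟨rfl, by unfold DirichletCharacter.Odd; rw [h]; simp⟩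

private lemma neg_not_sq' {d : ℕ} (hd : 0 < d) : ¬ IsSquare ((-1 : ℤ) * (d : ℤ)) := by
  rintro ⟨k, hk⟩
  have := mul_self_nonneg k
  have h2 : (0 : ℤ) < d := by exact_mod_cast hd
  linarith

private lemma sqf_not_sq' {d : ℕ} (hd : 1 < d) (hs : Squarefree d) :
    ¬ IsSquare ((1 : ℤ) * (d : ℤ)) := by
  rintro ⟨k, hk⟩
  rw [one_mul] at hk
  have h1 : d = k.natAbs * k.natAbs := by
    have := congrArg Int.natAbs hk
    rwa [Int.natAbs_mul, Int.natAbs_natCast] at this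
  have h2 := hs k.natAbs ⟨1, by rw [mul_one]; exact h1⟩
  rw [Nat.isUnit_iff] at h2
  rw [h2] at h1
  omega

private lemma not_sq {σ : ℤ} (hσ : σ = 1 ∨ σ = -1) {d : ℕ} (hd : 1 < d) (hs : Squarefree d) :
    ¬ IsSquare (σ * (d : ℤ)) := by
  rcases hσ with rfl | rfl
  · exact sqf_not_sq' hd hs
  · exact neg_not_sq' (by omega)

private lemma NZx_of {A : ℝ} {κ d : ℕ} (h : NoZWG A κ d) {Q : ℕ}
    {x : (q : ℕ) × DirichletCharacter ℂ q} (hx : x ∈ PQ Q) (hq : x.1 = κ * d) : NZxW A x := by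
  obtain ⟨q, χ⟩ := x
  simp only at hq
  subst hq
  exact fun hN s hs0 hs1 hsw => h hN χ hx.2.1 hx.2.2.1 s hs0 hs1 hsw

private lemma classA_tot {A E : ℝ} (hE : 0 ≤ E) {σ : ℤ} (hσ : σ = 1 ∨ σ = -1)
    (hT : TotB Odd (NoZW A σ) E) : TotXW A (KL 8 σ 0) E := by
  refine class_count (κ := 8) (by norm_num) hE 8 σ 0 Odd (NoZW A σ) ?_ ?_ hT
  · intro Q x hx hP
    rcases lev hx with h | h | h
    · exact absurd (h.1.symm.trans hP.1) (by norm_num)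
    · exact absurd (h.1.symm.trans hP.1) (by norm_num)
    · obtain ⟨_, d, h1, h2, h3⟩ := h
      refine ⟨d, h3, h1, h2, fun hz => ?_⟩
      obtain ⟨q, χ⟩ := x
      simp only at h3
      subst h3
      exact fun hN s hs0 hs1 hsw => hz hN χ hx.2.1 hx.2.2.1 (signs hσ hP.2.1) s hs0 hs1 hsw
  · intro d hd hs
    obtain ⟨χ, p1, p2, p3, p4⟩ := exists_prim_A d hd hs σ hσ
    exact ⟨χ, ⟨p1, p2, p3⟩, gcd_eight d, par_val p4,
      two_nonunit (⟨4 * d, by ring⟩ : 2 ∣ 8 * d) χ⟩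

private lemma Rf4_exists {d : ℕ} (hd : Odd d) (_hs : Squarefree d) :
    ∃ σ : ℤ, (σ = 1 ∨ σ = -1) ∧ (σ * d) % 4 = 3 := by
  obtain ⟨k, hk⟩ := hd
  have h4 : d % 4 = 1 ∨ d % 4 = 3 := by omega
  rcases h4 with h4 | h4
  · exact ⟨-1, Or.inr rfl, by omega⟩
  · exact ⟨1, Or.inl rfl, by omega⟩

private lemma nsq4 {σ : ℤ} (hσ : σ = 1 ∨ σ = -1) {d : ℕ} (hs : Squarefree d)
    (h : (σ * d) % 4 = 3) : ¬ IsSquare (σ * (d : ℤ)) := by
  rcases hσ with rfl | rfl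
  · exact sqf_not_sq' (by omega) hs
  · exact neg_not_sq' (by omega)

private lemma f41 : Fam 4 3 0 4 := Or.inl ⟨rfl, rfl, rfl, rfl⟩
private lemma f42 : Fam 8 1 1 1 := Or.inr (Or.inl ⟨rfl, rfl, rfl, rfl⟩)
private lemma f43 : Fam 8 5 (-1) 1 := Or.inr (Or.inr ⟨rfl, rfl, rfl, rfl⟩)

private lemma classB_info {Q : ℕ} {x : (q : ℕ) × DirichletCharacter ℂ q} (hx : x ∈ PQ Q) {d : ℕ}
    (hd : Odd d) (hs : Squarefree d) (hq : x.1 = 4 * d) :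
    ∃ σ : ℤ, (σ = 1 ∨ σ = -1) ∧ (σ * d) % 4 = 3 ∧ x.2 (-1) = (σ : ℂ) ∧ x.2 2 = 0 := by
  obtain ⟨σ, hσ, h3⟩ := Rf4_exists hd hs
  obtain ⟨q, χ⟩ := x
  simp only at hq
  subst hq
  have : NeZero (4 * d) := ⟨hx.1.1.ne'⟩
  obtain ⟨_, e2, e3⟩ := char_eqG f41 σ hσ d hd hs h3 χ hx.2.1 hx.2.2.1
  exact ⟨σ, hσ, h3, par_val e3, by rw [e2]; simp⟩

private lemma classB_tot {A E : ℝ} (hE : 0 ≤ E) {σ : ℤ} (hσ : σ = 1 ∨ σ = -1)
    (hT : TotB (Rf 4 3 σ) (NoZWG A 4) E) : TotXW A (KL 4 σ 0) E := by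
  refine class_count (κ := 4) (by norm_num) hE 4 σ 0 (Rf 4 3 σ) (NoZWG A 4) ?_ ?_ hT
  · intro Q x hx hP
    rcases lev hx with h | h | h
    · exact absurd (h.1.symm.trans hP.1) (by norm_num)
    · obtain ⟨_, d, h1, h2, h3⟩ := h
      obtain ⟨σ', hσ', e1, e2, _⟩ := classB_info hx h1 h2 h3
      have : σ = σ' := sig_inj (hP.2.1.symm.trans e2)
      subst this
      exact ⟨d, h3, ⟨e1, nsq4 hσ h2 e1⟩, h2, fun hz => NZx_of hz hx h3⟩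
    · exact absurd (h.1.symm.trans hP.1) (by norm_num)
  · intro d hd hs
    have hodd : Odd d := by
      have := hd.1
      rw [Nat.odd_iff]
      rcases hσ with rfl | rfl <;> omega
    obtain ⟨χ, p1, p2, p3⟩ := exists_prim_B d hodd hs
    have : NeZero (4 * d) := ⟨by have := hodd.pos; omega⟩
    obtain ⟨_, e2, e3⟩ := char_eqG f41 σ hσ d hodd hs hd.1 χ p1 p2
    exact ⟨χ, ⟨p1, p2, p3⟩, gcd_four hodd, par_val e3, by
      show χ 2 = 0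
      rw [e2]; simp⟩

private lemma classC_info {Q : ℕ} {x : (q : ℕ) × DirichletCharacter ℂ q} (hx : x ∈ PQ Q)
    (hd : Odd x.1) (hs : Squarefree x.1) :
    ∃ σ c ε : ℤ, (σ = 1 ∨ σ = -1) ∧ ((c = 1 ∧ ε = 1) ∨ (c = 5 ∧ ε = -1)) ∧ Fam 8 c ε 1 ∧
      (σ * x.1) % 8 = c ∧ x.2 (-1) = (σ : ℂ) ∧ x.2 2 = (ε : ℂ) := by
  obtain ⟨σ, c, ε, hσ, hcε, hF, h8⟩ : ∃ σ c ε : ℤ, (σ = 1 ∨ σ = -1) ∧
      ((c = 1 ∧ ε = 1) ∨ (c = 5 ∧ ε = -1)) ∧ Fam 8 c ε 1 ∧ (σ * x.1) % 8 = c := by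
    have hd' := hd
    obtain ⟨k, hk⟩ := hd'
    have h8 : x.1 % 8 = 1 ∨ x.1 % 8 = 3 ∨ x.1 % 8 = 5 ∨ x.1 % 8 = 7 := by omega
    rcases h8 with h8 | h8 | h8 | h8
    · exact ⟨1, 1, 1, Or.inl rfl, Or.inl ⟨rfl, rfl⟩, f42, by omega⟩
    · exact ⟨-1, 5, -1, Or.inr rfl, Or.inr ⟨rfl, rfl⟩, f43, by omega⟩
    · exact ⟨1, 5, -1, Or.inl rfl, Or.inr ⟨rfl, rfl⟩, f43, by omega⟩
    · exact ⟨-1, 1, 1, Or.inr rfl, Or.inl ⟨rfl, rfl⟩, f42, by omega⟩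
  refine ⟨σ, c, ε, hσ, hcε, hF, h8, ?_⟩
  obtain ⟨q, χ⟩ := x
  simp only at hd hs h8 ⊢
  have key : ∀ (q' : ℕ) (_ : q' = q) (χ' : DirichletCharacter ℂ q') (_ : NeZero q'),
      (∀ (_ : NeZero (1 * q)) (ψ : DirichletCharacter ℂ (1 * q)), ψ.IsPrimitive → ψ ^ 2 = 1 →
        ψ 2 = (ε : ℂ) ∧ ψ (-1) = (σ : ℂ)) → χ'.IsPrimitive → χ' ^ 2 = 1 →
        χ' 2 = (ε : ℂ) ∧ χ' (-1) = (σ : ℂ) := by
    intro q' hq' χ' hq0 h1 h2 h3
    subst hq'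
    rw [one_mul] at h1
    exact h1 hq0 χ' h2 h3
  have hq0 : NeZero q := ⟨hx.1.1.ne'⟩
  have := key q rfl χ hq0 (fun hN ψ a1 a2 => by
    obtain ⟨_, e2, e3⟩ := char_eqG hF σ hσ q hd hs h8 ψ a1 a2
    exact ⟨e2, par_val e3⟩) hx.2.1 hx.2.2.1
  exact ⟨this.2, this.1⟩

private lemma classC_tot {A E : ℝ} (hE : 0 ≤ E) {σ c ε : ℤ} (hσ : σ = 1 ∨ σ = -1)
    (hcε : (c = 1 ∧ ε = 1) ∨ (c = 5 ∧ ε = -1)) (hF : Fam 8 c ε 1)
    (hT : TotB (Rf 8 c σ) (NoZWG A 1) E) : TotXW A (KL 1 σ ε) E := by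
  refine class_count (κ := 1) (by norm_num) hE 1 σ ε (Rf 8 c σ) (NoZWG A 1) ?_ ?_ hT
  · intro Q x hx hP
    rcases lev hx with h | h | h
    · obtain ⟨_, h1, h2, h3⟩ := h
      obtain ⟨σ', c', ε', hσ', hcε', _, e1, e2, e3⟩ := classC_info hx h1 h2
      have hs : σ = σ' := sig_inj (hP.2.1.symm.trans e2)
      have he : ε = ε' := sig_inj (hP.2.2.symm.trans e3)
      subst hs he
      have hc : c = c' := by
        rcases hcε with ⟨a1, a2⟩ | ⟨a1, a2⟩ <;> rcases hcε' with ⟨a3, a4⟩ | ⟨a3, a4⟩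
        · rw [a1, a3]
        · omega
        · omega
        · rw [a1, a3]
      subst hc
      refine ⟨x.1, (one_mul _).symm, ⟨e1, not_sq hσ h3 h2⟩, h2, fun hz => NZx_of hz hx
        (one_mul _).symm⟩
    · exact absurd (h.1.symm.trans hP.1) (by norm_num)
    · exact absurd (h.1.symm.trans hP.1) (by norm_num)
  · intro d hd hs
    have hodd : Odd d := by
      have := hd.1
      rw [Nat.odd_iff]
      rcases hcε with ⟨rfl, _⟩ | ⟨rfl, _⟩ <;> rcases hσ with rfl | rfl <;> omega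
    have hd1 : 1 < d := by
      by_contra hlt
      have h1 : d = 1 := by have := hodd.pos; omega
      subst h1
      have h2 := hd.1
      have h3 := hd.2
      rcases hcε with ⟨rfl, _⟩ | ⟨rfl, _⟩ <;> rcases hσ with rfl | rfl
      · exact h3 ⟨1, by norm_num⟩
      · norm_num at h2
      · norm_num at h2
      · norm_num at h2
    have key : ∀ q : ℕ, q = d → ∃ χ : DirichletCharacter ℂ q,
        χ.IsPrimitive ∧ χ ^ 2 = 1 ∧ χ ≠ 1 := by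
      rintro q rfl
      exact exists_prim_C q hodd hs hd1
    obtain ⟨χ, p1, p2, p3⟩ := key (1 * d) (one_mul d)
    have : NeZero (1 * d) := ⟨by omega⟩
    obtain ⟨_, e2, e3⟩ := char_eqG hF σ hσ d hodd hs hd.1 χ p1 p2
    refine ⟨χ, ⟨p1, p2, p3⟩, ?_, par_val e3, e2⟩
    show Nat.gcd (1 * d) 8 = 1
    rw [one_mul]
    exact gcd_odd hodd

/-- The proportion in every class. -/
theorem prop_classW [QlsHyp] {A A' θ₀ δ μ E E' : ℝ} {w : ℝ → ℝ} (hA' : 0 < A') (hAA : A' < A)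
    (hC : CertW A' θ₀ δ μ E w) (hE0 : 0 ≤ E) (hEE : E < E') (g : ℕ) (a b : ℂ) :
    TotXW A (KL g a b) E' := by
  obtain ⟨hA, hF⟩ := tot_famW hA' hAA hC hE0 hEE
  have hE' : 0 ≤ E' := by linarith
  by_cases hne : ∃ (Q : ℕ) (x : (q : ℕ) × DirichletCharacter ℂ q), x ∈ PQ Q ∧ KL g a b x
  · obtain ⟨Q, x, hx, hP⟩ := hne
    rcases lev hx with h | h | h
    · obtain ⟨h0, h1, h2, h3⟩ := h
      obtain ⟨σ, c, ε, hσ, hcε, hFam, e1, e2, e3⟩ := classC_info hx h1 h2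
      have k1 : g = 1 := hP.1.symm.trans h0
      have k2 : a = σ := hP.2.1.symm.trans e2
      have k3 : b = ε := hP.2.2.symm.trans e3
      rw [k1, k2, k3]
      exact classC_tot hE' hσ hcε hFam (hF hFam σ hσ)
    · obtain ⟨h0, d, h1, h2, h3⟩ := h
      obtain ⟨σ, hσ, e1, e2, e3⟩ := classB_info hx h1 h2 h3
      have k1 : g = 4 := hP.1.symm.trans h0
      have k2 : a = σ := hP.2.1.symm.trans e2
      have k3 : b = 0 := hP.2.2.symm.trans e3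
      rw [k1, k2, k3]
      exact classB_tot hE' hσ (hF f41 σ hσ)
    · obtain ⟨h0, d, h1, h2, h3⟩ := h
      have k1 : g = 8 := hP.1.symm.trans h0
      have k3 : b = 0 := hP.2.2.symm.trans (two_nonunit (⟨4 * d, by rw [h3]; ring⟩) x.2)
      rcases x.2.even_or_odd with he | ho
      · have k2 : a = ((1 : ℤ) : ℂ) := hP.2.1.symm.trans (par_val (Or.inl ⟨rfl, he⟩))
        rw [k1, k2, k3]
        exact classA_tot hE' (Or.inl rfl) (hA 1 (Or.inl rfl))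
      · have k2 : a = ((-1 : ℤ) : ℂ) := hP.2.1.symm.trans (par_val (Or.inr ⟨rfl, ho⟩))
        rw [k1, k2, k3]
        exact classA_tot hE' (Or.inr rfl) (hA (-1) (Or.inr rfl))
  · push Not at hne
    refine ⟨0, fun Q _ => ?_⟩
    have h0 : {x | x ∈ PQ Q ∧ KL g a b x ∧ ¬ NZxW A x} = ∅ := by
      ext x
      simp only [Set.mem_ofPred_eq, Set.mem_empty_iff_false, iff_false]
      rintro ⟨h1, h2, _⟩
      exact hne Q x h1 h2
    rw [h0]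
    simp only [Nat.card_coe_set_eq, Set.ncard_empty, Nat.cast_zero]
    positivity

end Pool.Agent.MP0016c7.Rz
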