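import Mathlib
import Pool.Agent.Lib.MP_0016c7_nt.Theta
import Pool.Agent.Lib.MP_0016c7_nt.Rz.Defs
import Pool.Agent.Lib.MP_0016c7_nt.Rz.DefsC
import Pool.Agent.Lib.MP_0016c7_nt.Rz.DefsF
import Pool.Agent.Lib.MP_0016c7_nt.Rz.DefsE

set_option autoImplicit false

open Finset MeasureTheory Filter Topology
open scoped Real ContDiff

namespace Pool.Agent.MP0016c7.Rz

open scoped ComplexConjugate in
private lemma fa9_conj {q : ℕ} [NeZero q] (χ : DirichletCharacter ℂ q) (hne : χ ≠ 1)
    (h2 : χ ^ 2 = 1) (s : ℂ) : conj (χ.LFunction (conj s)) = χ.LFunction s := by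
  have hdiff : Differentiable ℂ χ.LFunction := DirichletCharacter.differentiable_LFunction hne
  have hd2 : Differentiable ℂ (conj ∘ χ.LFunction ∘ conj) := fun z =>
    differentiableAt_conj_conj_iff.2 (hdiff _)
  have key : (conj ∘ χ.LFunction ∘ conj) = χ.LFunction := by
    apply eq_of_eq_one_lt_re hd2 hdiff
    intro s hs
    simp only [Function.comp_apply]
    rw [χ.LFunction_eq_LSeries hs, χ.LFunction_eq_LSeries (by simpa using hs)]
    unfold LSeries
    rw [Complex.conj_tsum]
    congr 1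
    ext n
    rcases eq_or_ne n 0 with rfl | hn
    · simp
    rw [LSeries.term_of_ne_zero hn, LSeries.term_of_ne_zero hn, map_div₀]
    have h1 : conj (χ n) = χ n := by
      rw [← cR_spec χ h2 n, Complex.conj_ofReal]
    have h3 : conj ((n : ℂ) ^ conj s) = (n : ℂ) ^ s := by
      rw [Complex.cpow_conj _ _ (by rw [Complex.natCast_arg]; exact Real.pi_pos.ne), Complex.conj_conj]
      simp
    rw [h1, h3]
  exact congrFun key s

theorem pos_of_noZero (σ : ℤ) (d : ℕ) (h : NoZero σ d) :
    ∀ (_ : NeZero (8 * d)) (χ : DirichletCharacter ℂ (8 * d)), χ.IsPrimitive → χ ^ 2 = 1 →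
    ((σ = 1 ∧ χ.Even) ∨ (σ = -1 ∧ χ.Odd)) → ∀ s : ℝ, 0 < s → s < 1 →
      (χ.LFunction s).im = 0 ∧ 0 < (χ.LFunction s).re := by
  intro hN χ hp h2 hpar s hs0 hs1
  have hne : χ ≠ 1 := primitive_ne_one χ hp (by omega)
  have hdiff : Differentiable ℂ χ.LFunction := DirichletCharacter.differentiable_LFunction hne
  have him : ∀ t : ℝ, (χ.LFunction t).im = 0 := fun t => by
    have := fa9_conj χ hne h2 t
    rw [Complex.conj_ofReal] at this
    exact Complex.conj_eq_iff_im.1 this
  have hre : ∀ t : ℝ, 0 < t → (χ.LFunction t).re ≠ 0 := by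
    intro t ht hz
    have h0 : χ.LFunction t = 0 := Complex.ext hz (him t)
    rcases lt_or_ge t 1 with h1 | h1
    · exact h hN χ hp h2 hpar t ht h1 h0
    · exact DirichletCharacter.LFunction_ne_zero_of_one_le_re χ (Or.inl hne) (by simpa using h1) h0
  have hcont : Continuous (fun t : ℝ => (χ.LFunction t).re) :=
    Complex.continuous_re.comp (hdiff.continuous.comp Complex.continuous_ofReal)
  refine ⟨him s, ?_⟩
  by_contra hneg
  have hneg' : (χ.LFunction s).re < 0 := lt_of_le_of_ne (not_lt.1 hneg) (hre s hs0)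
  -- limit at infinity
  have hlim : Tendsto (fun x : ℝ => LSeries (fun n => χ n) x) atTop (𝓝 (χ (1 : ℕ))) := by
    apply LSeries.tendsto_atTop
    rw [DirichletCharacter.absicssaOfAbsConv_eq_one (NeZero.ne _)]
    exact EReal.coe_lt_top 1
  have hlim2 : Tendsto (fun x : ℝ => (LSeries (fun n => χ n) x).re) atTop (𝓝 1) := by
    have := (Complex.continuous_re.tendsto _).comp hlim
    simp only [Nat.cast_one, map_one, Complex.one_re] at this
    exact this
  obtain ⟨t, ht1, ht2⟩ : ∃ t : ℝ, s < t ∧ 0 < (χ.LFunction t).re := by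
    have hev := (hlim2.eventually (lt_mem_nhds (show (0 : ℝ) < 1 by norm_num))).and
      (eventually_gt_atTop (1 : ℝ))
    obtain ⟨t, ht⟩ := hev.exists
    refine ⟨t, by linarith [ht.2], ?_⟩
    rw [χ.LFunction_eq_LSeries (by simpa using ht.2)]
    exact ht.1
  have hivt := intermediate_value_Icc ht1.le hcont.continuousOn
  obtain ⟨u, hu, hu0⟩ := hivt (⟨hneg'.le, ht2.le⟩ : (0 : ℝ) ∈ Set.Icc _ _)
  exact hre u (lt_of_lt_of_le hs0 hu.1) hu0

end Pool.Agent.MP0016c7.Rz
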