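import Mathlib
import Pool.Agent.Lib.MP_0016c7_nt.Theta
import Pool.Agent.Lib.MP_0016c7_nt.Rz2.PosG
import Pool.Agent.Lib.MP_0016c7_nt.Rz2.SymG
import Pool.Agent.Lib.MP_0016c7_nt.Rz.U1
import Pool.Agent.Lib.MP_0016c7_nt.Rz.Sm5
import Pool.Agent.Lib.MP_0016c7_nt.Rz.GenA
import Pool.Agent.Lib.MP_0016c7_nt.Rz.W0

set_option autoImplicit false

/-!
Positivity outside a window from the absence of zeros.
-/

open Finset MeasureTheory Filter Topology
open scoped Real ContDiff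

namespace Pool.Agent.MP0016c7.Rz

private lemma f41 : Fam 4 3 0 4 := Or.inl ⟨rfl, rfl, rfl, rfl⟩
private lemma f42 : Fam 8 1 1 1 := Or.inr (Or.inl ⟨rfl, rfl, rfl, rfl⟩)
private lemma f43 : Fam 8 5 (-1) 1 := Or.inr (Or.inr ⟨rfl, rfl, rfl, rfl⟩)

/-- The theta function of a primitive quadratic character is symmetric. -/
theorem gth_symm_all {q : ℕ} [hq0 : NeZero q] (χ : DirichletCharacter ℂ q) (hp : χ.IsPrimitive)
    (hne : χ ≠ 1) (h2 : χ ^ 2 = 1) (t : ℝ) : gth χ (-t) = gth χ t := by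
  rcases prim_quad_level χ hp h2 hne with ⟨h1, h3, h4⟩ | ⟨d, h1, h3, rfl⟩ | ⟨d, h1, h3, rfl⟩
  · obtain ⟨σ, c, ε, hσ, hF, h8⟩ : ∃ σ c ε : ℤ, (σ = 1 ∨ σ = -1) ∧ Fam 8 c ε 1 ∧
        (σ * q) % 8 = c := by
      have hd' := h1
      obtain ⟨k, hk⟩ := hd'
      have h8 : q % 8 = 1 ∨ q % 8 = 3 ∨ q % 8 = 5 ∨ q % 8 = 7 := by omega
      rcases h8 with h8 | h8 | h8 | h8
      · exact ⟨1, 1, 1, Or.inl rfl, f42, by omega⟩
      · exact ⟨-1, 5, -1, Or.inr rfl, f43, by omega⟩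
      · exact ⟨1, 5, -1, Or.inl rfl, f43, by omega⟩
      · exact ⟨-1, 1, 1, Or.inr rfl, f42, by omega⟩
    have key : ∀ (q' : ℕ) (_ : q' = q) (χ' : DirichletCharacter ℂ q') (_ : NeZero q'),
        (∀ (_ : NeZero (1 * q)) (ψ : DirichletCharacter ℂ (1 * q)), ψ.IsPrimitive → ψ ^ 2 = 1 →
          gth ψ (-t) = gth ψ t) → χ'.IsPrimitive → χ' ^ 2 = 1 → gth χ' (-t) = gth χ' t := by
      intro q' hq' χ' hq0' b1 b2 b3
      subst hq'
      rw [one_mul] at b1
      exact b1 hq0' χ' b2 b3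
    exact key q rfl χ hq0 (fun hN ψ a1 a2 => gth_symmG hF σ hσ q h1 h3 h8 ψ a1 a2 t) hp h2
  · obtain ⟨σ, hσ, h5⟩ : ∃ σ : ℤ, (σ = 1 ∨ σ = -1) ∧ (σ * d) % 4 = 3 := by
      have hd' := h1
      obtain ⟨k, hk⟩ := hd'
      have h4 : d % 4 = 1 ∨ d % 4 = 3 := by omega
      rcases h4 with h4 | h4
      · exact ⟨-1, Or.inr rfl, by omega⟩
      · exact ⟨1, Or.inl rfl, by omega⟩
    exact gth_symmG f41 σ hσ d h1 h3 h5 χ hp h2 t
  · rcases χ.even_or_odd with he | ho
    · exact gth_symm d h1 h3 1 χ hp h2 (Or.inl ⟨rfl, he⟩) t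
    · exact gth_symm d h1 h3 (-1) χ hp h2 (Or.inr ⟨rfl, ho⟩) t

/-- `L(s, χ)` and `L(1 - s, χ)` agree up to a positive factor. -/
theorem fe_factor {q : ℕ} [NeZero q] (χ : DirichletCharacter ℂ q) (hp : χ.IsPrimitive)
    (hne : χ ≠ 1) (h2 : χ ^ 2 = 1) (s : ℝ) (hs0 : 0 < s) (hs1 : s < 1) :
    ∃ r : ℝ, 0 < r ∧ χ.LFunction s = r * χ.LFunction ((1 - s : ℝ) : ℂ) := by
  have hq1 : q ≠ 1 := by
    rintro rfl
    exact hne (DirichletCharacter.level_one χ)
  have hq : (0 : ℝ) < √q := Real.sqrt_pos.mpr (by exact_mod_cast (NeZero.pos q))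
  have hsym := gth_symm_all χ hp hne h2
  have hI : (∫ t : ℝ, Real.exp ((s - 1 / 2) * t) * gth χ t) =
      ∫ t : ℝ, Real.exp ((1 - s - 1 / 2) * t) * gth χ t := by
    rw [← integral_neg_eq_self]
    congr 1
    ext t
    rw [hsym]
    congr 2
    ring
  have e1 := gth_integral χ hp hq1 h2 s
  have e2 := gth_integral χ hp hq1 h2 (1 - s)
  rw [hI] at e1
  -- the gamma factor is a positive real number
  have hG : ∀ t : ℝ, 0 < t → ∃ g : ℝ, 0 < g ∧
      DirichletCharacter.gammaFactor χ (t : ℂ) = (g : ℂ) := by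
    intro t ht
    have hGR : ∀ u : ℝ, 0 < u → ∃ g : ℝ, 0 < g ∧ Complex.Gammaℝ (u : ℂ) = (g : ℂ) := by
      intro u hu
      refine ⟨π ^ (-u / 2) * Real.Gamma (u / 2), mul_pos (Real.rpow_pos_of_pos Real.pi_pos _)
        (Real.Gamma_pos_of_pos (by linarith)), ?_⟩
      rw [Complex.Gammaℝ_def]
      rw [show -(u : ℂ) / 2 = ((-u / 2 : ℝ) : ℂ) by push_cast; ring,
        show (u : ℂ) / 2 = ((u / 2 : ℝ) : ℂ) by push_cast; ring, Complex.Gamma_ofReal,
        ← Complex.ofReal_cpow Real.pi_pos.le]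
      push_cast
      rfl
    rcases χ.even_or_odd with he | ho
    · rw [he.gammaFactor_def]
      exact hGR t ht
    · rw [ho.gammaFactor_def]
      obtain ⟨g, h1, h3⟩ := hGR (t + 1) (by linarith)
      exact ⟨g, h1, by rw [← h3]; push_cast; rfl⟩
  have hc : ∀ t : ℝ, 0 < t → ∃ g : ℝ, 0 < g ∧
      1 / 2 * ((√q : ℝ) : ℂ) ^ (t : ℂ) * DirichletCharacter.completedLFunction χ t =
        g * χ.LFunction t := by
    intro t ht
    obtain ⟨g, hg, hg'⟩ := hG t ht
    refine ⟨1 / 2 * √q ^ t * g, by positivity, ?_⟩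
    have h3 := DirichletCharacter.LFunction_eq_completed_div_gammaFactor χ (t : ℂ) (Or.inr hq1)
    rw [h3, hg', Complex.ofReal_mul, Complex.ofReal_mul, Complex.ofReal_cpow hq.le]
    have hgc : (g : ℂ) ≠ 0 := by exact_mod_cast hg.ne'
    push_cast
    field_simp
  obtain ⟨g₁, hg₁, k₁⟩ := hc s hs0
  obtain ⟨g₂, hg₂, k₂⟩ := hc (1 - s) (by linarith)
  rw [k₁] at e1
  rw [k₂] at e2
  refine ⟨g₂ / g₁, by positivity, ?_⟩
  have hgc : (g₁ : ℂ) ≠ 0 := by exact_mod_cast hg₁.ne'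
  have e3 := e1.symm.trans e2
  push_cast at e3 ⊢
  field_simp
  linear_combination e3

open scoped ComplexConjugate in
private lemma posG_conj {q : ℕ} [NeZero q] (χ : DirichletCharacter ℂ q) (hne : χ ≠ 1)
    (h2 : χ ^ 2 = 1) (s : ℂ) : conj (χ.LFunction (conj s)) = χ.LFunction s := by
  have hdiff : Differentiable ℂ χ.LFunction := DirichletCharacter.differentiable_LFunction hne
  have hd2 : Differentiable ℂ (conj ∘ χ.LFunction ∘ conj) := fun z =>
    differentiableAt_conj_conj_iff.2 (hdiff _)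
  have key : (conj ∘ χ.LFunction ∘ conj) = χ.LFunction := by
    apply eq_of_eq_one_lt_re hd2 hdiff
    intro s hs
    simp only [Function.comp_apply]
    rw [χ.LFunction_eq_LSeries hs, χ.LFunction_eq_LSeries (by simpa using hs)]
    unfold LSeries
    rw [Complex.conj_tsum]
    congr 1
    ext n
    rcases eq_or_ne n 0 with rfl | hn
    · simp
    rw [LSeries.term_of_ne_zero hn, LSeries.term_of_ne_zero hn, map_div₀]
    have h1 : conj (χ n) = χ n := by
      rw [← cR_spec χ h2 n, Complex.conj_ofReal]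
    have h3 : conj ((n : ℂ) ^ conj s) = (n : ℂ) ^ s := by
      rw [Complex.cpow_conj _ _ (by rw [Complex.natCast_arg]; exact Real.pi_pos.ne), Complex.conj_conj]
      simp
    rw [h1, h3]
  exact congrFun key s

/-- Positivity to the right of a point without zeros. -/
theorem pos_right {q : ℕ} [NeZero q] (χ : DirichletCharacter ℂ q) (hq : χ ≠ 1)
    (h2 : χ ^ 2 = 1) (s : ℝ) (h : ∀ t : ℝ, s ≤ t → t < 1 → χ.LFunction t ≠ 0) :
    (χ.LFunction s).im = 0 ∧ 0 < (χ.LFunction s).re := by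
  have hdiff : Differentiable ℂ χ.LFunction := DirichletCharacter.differentiable_LFunction hq
  have him : ∀ t : ℝ, (χ.LFunction t).im = 0 := fun t => by
    have := posG_conj χ hq h2 t
    rw [Complex.conj_ofReal] at this
    exact Complex.conj_eq_iff_im.1 this
  have hre : ∀ t : ℝ, s ≤ t → (χ.LFunction t).re ≠ 0 := by
    intro t ht hz
    have h0 : χ.LFunction t = 0 := Complex.ext hz (him t)
    rcases lt_or_ge t 1 with h1 | h1
    · exact h t ht h1 h0
    · exact DirichletCharacter.LFunction_ne_zero_of_one_le_re χ (Or.inl hq) (by simpa using h1) h0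
  have hcont : Continuous (fun t : ℝ => (χ.LFunction t).re) :=
    Complex.continuous_re.comp (hdiff.continuous.comp Complex.continuous_ofReal)
  refine ⟨him s, ?_⟩
  by_contra hneg
  have hneg' : (χ.LFunction s).re < 0 := lt_of_le_of_ne (not_lt.1 hneg) (hre s le_rfl)
  -- limit at infinity
  have hlim : Tendsto (fun x : ℝ => LSeries (fun n => χ n) x) atTop (𝓝 (χ (1 : ℕ))) := by
    apply LSeries.tendsto_atTop
    rw [DirichletCharacter.absicssaOfAbsConv_eq_one (NeZero.ne _)]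
    exact EReal.coe_lt_top 1
  have hlim2 : Tendsto (fun x : ℝ => (LSeries (fun n => χ n) x).re) atTop (𝓝 1) := by
    have := (Complex.continuous_re.tendsto _).comp hlim
    simp only [Nat.cast_one, map_one, Complex.one_re] at this
    exact this
  obtain ⟨t, ht1, ht2⟩ : ∃ t : ℝ, s < t ∧ 0 < (χ.LFunction t).re := by
    have hev := (hlim2.eventually (lt_mem_nhds (show (0 : ℝ) < 1 by norm_num))).and
      (eventually_gt_atTop (max 1 s))
    obtain ⟨t, ht⟩ := hev.exists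
    have ht1 : 1 < t := (le_max_left _ _).trans_lt ht.2
    refine ⟨t, (le_max_right _ _).trans_lt ht.2, ?_⟩
    rw [χ.LFunction_eq_LSeries (by simpa using ht1)]
    exact ht.1
  have hivt := intermediate_value_Icc ht1.le hcont.continuousOn
  obtain ⟨u, hu, hu0⟩ := hivt (⟨hneg'.le, ht2.le⟩ : (0 : ℝ) ∈ Set.Icc _ _)
  exact hre u hu.1 hu0

/-- WPos -/
theorem pos_window {q : ℕ} [NeZero q] (χ : DirichletCharacter ℂ q) (hp : χ.IsPrimitive)
    (hq : χ ≠ 1) (h2 : χ ^ 2 = 1) {η : ℝ}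
    (h : ∀ s : ℝ, 0 < s → s < 1 → η ≤ |s - 1 / 2| → χ.LFunction s ≠ 0) (s : ℝ) (hs0 : 0 < s)
    (hs1 : s < 1) (hs : η ≤ |s - 1 / 2|) :
    (χ.LFunction s).im = 0 ∧ 0 < (χ.LFunction s).re := by
  have hright : ∀ u : ℝ, 0 < u → u < 1 → 1 / 2 ≤ u → η ≤ |u - 1 / 2| →
      (χ.LFunction u).im = 0 ∧ 0 < (χ.LFunction u).re := by
    intro u hu0 hu1 hu2 hu
    refine pos_right χ hq h2 u fun t ht ht1 => h t (by linarith) ht1 (hu.trans ?_)
    rw [abs_of_nonneg (by linarith), abs_of_nonneg (by linarith)]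
    linarith
  rcases le_or_gt (1 / 2) s with hs2 | hs2
  · exact hright s hs0 hs1 hs2 hs
  · have h1 := hright (1 - s) (by linarith) (by linarith) (by linarith) (by
      rw [show 1 - s - 1 / 2 = -(s - 1 / 2) by ring, abs_neg]
      exact hs)
    obtain ⟨r, hr, he⟩ := fe_factor χ hp hq h2 s hs0 hs1
    rw [he, Complex.mul_im, Complex.mul_re, Complex.ofReal_im, Complex.ofReal_re, h1.1]
    constructor
    · ring
    · have := mul_pos hr h1.2
      linarith

end Pool.Agent.MP0016c7.Rz
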