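import Mathlib
import Pool.Agent.Lib.MP_0016c7_nt.Rz.HandU
import Pool.Agent.Lib.MP_0016c7_nt.Rz.HandS
import Pool.Agent.Lib.MP_0016c7_nt.Rz.U7
import Pool.Agent.Lib.MP_0016c7_nt.Rz.W3
import Pool.Agent.Lib.MP_0016c7_nt.Rz.W4
import Pool.Agent.Lib.MP_0016c7_nt.Rz.WPos

set_option autoImplicit false

/-!
All primitive quadratic characters: zeros outside a window.
-/

open Finset MeasureTheory Filter Topology
open scoped Real ContDiff

namespace Pool.Agent.MP0016c7.Rz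

theorem pos_of_NZxW {A : ℝ} {Q : ℕ} {x : (q : ℕ) × DirichletCharacter ℂ q} (hx : x ∈ PQ Q)
    (h : NZxW A x) (N : ℕ) (hN0 : 0 < N) (hN : x.1 ∣ N) (s : ℝ) (hs0 : 0 < s) (hs1 : s < 1)
    (hsA : A ≤ |s - 1 / 2| * Real.log x.1) :
    (@DirichletCharacter.LFunction N ⟨hN0.ne'⟩ (DirichletCharacter.changeLevel hN x.2) s).im = 0 ∧
      0 < (@DirichletCharacter.LFunction N ⟨hN0.ne'⟩
        (DirichletCharacter.changeLevel hN x.2) s).re := by
  have hq : NeZero x.1 := ⟨hx.1.1.ne'⟩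
  have : NeZero N := ⟨hN0.ne'⟩
  have hq1 : x.1 ≠ 1 := by
    intro h1
    refine hx.2.2.2 ?_
    have : ∀ (q : ℕ) (_ : q = 1) (χ : DirichletCharacter ℂ q), χ = 1 := by
      rintro q rfl χ
      exact DirichletCharacter.level_one χ
    exact this x.1 h1 x.2
  have hL : 0 < Real.log x.1 := Real.log_pos (by
    have h0 := hx.1.1
    have : 1 < x.1 := by omega
    exact_mod_cast this)
  refine pos_changeLevel hN x.2 hx.2.2.1 hs0 hs1
    (pos_window x.2 hx.2.1 hx.2.2.2 hx.2.2.1 (η := A / Real.log x.1) ?_ s hs0 hs1 ?_)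
  · intro t ht0 ht1 ht
    exact h hq t ht0 ht1 (by rwa [div_le_iff₀ hL] at ht)
  · rwa [div_le_iff₀ hL]

theorem sets_gen {E : ℝ} (NZ' Good : ((q : ℕ) × DirichletCharacter ℂ q) → Prop)
    (h : ∀ p : ℕ × ℂ × ℂ, ∃ Q₀ : ℕ, ∀ Q : ℕ, Q₀ ≤ Q →
      (Nat.card {x | x ∈ PQ Q ∧ KL p.1 p.2.1 p.2.2 x ∧ ¬ NZ' x} : ℝ) ≤
        E * (Nat.card {x | x ∈ PQ Q ∧ KL p.1 p.2.1 p.2.2 x} : ℝ))
    (hg : ∀ (Q : ℕ) (x : (q : ℕ) × DirichletCharacter ℂ q), x ∈ PQ Q → NZ' x → Good x) :
    ∃ Q₀ : ℕ, ∀ Q : ℕ, Q₀ ≤ Q → ∀ S : Set (ℕ × ℂ × ℂ),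
      (1 - E) * Nat.card {x : (q : ℕ) × DirichletCharacter ℂ q |
        x ∈ PQ Q ∧ (Nat.gcd x.1 8, x.2 (-1), x.2 2) ∈ S} ≤
      Nat.card {x : (q : ℕ) × DirichletCharacter ℂ q |
        (x ∈ PQ Q ∧ (Nat.gcd x.1 8, x.2 (-1), x.2 2) ∈ S) ∧ Good x} := by
  classical
  choose Q₁ hQ₁ using h
  refine ⟨DD.sup Q₁, fun Q hQ S => ?_⟩
  set data : ((q : ℕ) × DirichletCharacter ℂ q) → ℕ × ℂ × ℂ :=
    fun x => (Nat.gcd x.1 8, x.2 (-1), x.2 2) with hdata
  set A : Finset ((q : ℕ) × DirichletCharacter ℂ q) := (PQ_finite Q).toFinset with hA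
  have hmem : ∀ x, x ∈ A ↔ x ∈ PQ Q := fun x => (PQ_finite Q).mem_toFinset
  have hcard : ∀ (P : ((q : ℕ) × DirichletCharacter ℂ q) → Prop) [DecidablePred P],
      Nat.card {x | x ∈ PQ Q ∧ P x} = (A.filter P).card := by
    intro P _
    rw [Nat.card_coe_set_eq, ← Set.ncard_coe_finset]
    congr 1
    ext x
    simp only [Set.mem_ofPred_eq, Finset.coe_filter, hmem]
  have hcls : ∀ p ∈ DD, ((A.filter (fun x => data x = p ∧ ¬ NZ' x)).card : ℝ) ≤
      E * ((A.filter (fun x => data x = p)).card : ℝ) := by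
    intro p hp
    have h1 := hQ₁ p Q ((Finset.le_sup hp).trans hQ)
    have e1 : Nat.card {x | x ∈ PQ Q ∧ KL p.1 p.2.1 p.2.2 x ∧ ¬ NZ' x} =
        (A.filter (fun x => data x = p ∧ ¬ NZ' x)).card := by
      rw [← hcard]
      refine congrArg (fun T : Set ((q : ℕ) × DirichletCharacter ℂ q) => Nat.card T) ?_
      ext x
      unfold KL
      simp only [Set.mem_ofPred_eq, hdata, Prod.ext_iff]
    have e2 : Nat.card {x | x ∈ PQ Q ∧ KL p.1 p.2.1 p.2.2 x} =
        (A.filter (fun x => data x = p)).card := by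
      rw [← hcard]
      refine congrArg (fun T : Set ((q : ℕ) × DirichletCharacter ℂ q) => Nat.card T) ?_
      ext x
      unfold KL
      simp only [Set.mem_ofPred_eq, hdata, Prod.ext_iff]
    rw [e1, e2] at h1
    exact h1
  have hb : (A.filter (fun x => data x ∈ S ∧ ¬ NZ' x)).card =
      ∑ p ∈ DD.filter (fun p => p ∈ S), (A.filter (fun x => data x = p ∧ ¬ NZ' x)).card := by
    rw [Finset.card_eq_sum_card_fiberwise (f := data) (t := DD.filter (fun p => p ∈ S))]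
    · refine Finset.sum_congr rfl fun p hp => ?_
      rw [Finset.filter_filter]
      congr 1
      refine Finset.filter_congr fun x _ => ?_
      have hpS := (Finset.mem_filter.mp hp).2
      constructor
      · rintro ⟨⟨_, h2⟩, h3⟩
        exact ⟨h3, h2⟩
      · rintro ⟨h3, h2⟩
        exact ⟨⟨by rw [h3]; exact hpS, h2⟩, h3⟩
    · intro x hx
      simp only [Finset.coe_filter, Set.mem_ofPred_eq] at hx ⊢
      exact ⟨data_mem ((hmem x).mp hx.1), hx.2.1⟩
  have ha : (A.filter (fun x => data x ∈ S)).card =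
      ∑ p ∈ DD.filter (fun p => p ∈ S), (A.filter (fun x => data x = p)).card := by
    rw [Finset.card_eq_sum_card_fiberwise (f := data) (t := DD.filter (fun p => p ∈ S))]
    · refine Finset.sum_congr rfl fun p hp => ?_
      rw [Finset.filter_filter]
      congr 1
      refine Finset.filter_congr fun x _ => ?_
      have hpS := (Finset.mem_filter.mp hp).2
      constructor
      · rintro ⟨_, h3⟩
        exact h3
      · intro h3
        exact ⟨by rw [h3]; exact hpS, h3⟩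
    · intro x hx
      simp only [Finset.coe_filter, Set.mem_ofPred_eq] at hx ⊢
      exact ⟨data_mem ((hmem x).mp hx.1), hx.2⟩
  have hbound : ((A.filter (fun x => data x ∈ S ∧ ¬ NZ' x)).card : ℝ) ≤
      E * ((A.filter (fun x => data x ∈ S)).card : ℝ) := by
    rw [hb, ha]
    push_cast
    rw [Finset.mul_sum]
    exact Finset.sum_le_sum fun p hp => hcls p (Finset.mem_filter.mp hp).1
  have hsplit : (A.filter (fun x => data x ∈ S)).card =
      (A.filter (fun x => data x ∈ S ∧ ¬ NZ' x)).card +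
        (A.filter (fun x => data x ∈ S ∧ NZ' x)).card := by
    rw [← Finset.card_union_of_disjoint]
    · congr 1
      ext x
      simp only [Finset.mem_union, Finset.mem_filter]
      tauto
    · rw [Finset.disjoint_filter]
      rintro x _ ⟨_, h1⟩ ⟨_, h2⟩
      exact h1 h2
  have hpos : (A.filter (fun x => data x ∈ S ∧ NZ' x)).card ≤
      Nat.card {x : (q : ℕ) × DirichletCharacter ℂ q | (x ∈ PQ Q ∧ data x ∈ S) ∧ Good x} := by
    rw [← Set.ncard_coe_finset, Nat.card_coe_set_eq]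
    refine Set.ncard_le_ncard ?_ ((PQ_finite Q).subset fun x hx => hx.1.1)
    intro x hx
    rw [Finset.coe_filter] at hx
    obtain ⟨h1, h2, h3⟩ := hx
    have h1' := (hmem x).mp h1
    exact ⟨⟨h1', h2⟩, hg Q x h1' h3⟩
  have e3 : Nat.card {x | x ∈ PQ Q ∧ data x ∈ S} = (A.filter (fun x => data x ∈ S)).card :=
    hcard _
  have hpos' : ((A.filter (fun x => data x ∈ S ∧ NZ' x)).card : ℝ) ≤ _ := Nat.cast_le.mpr hpos
  refine le_trans ?_ hpos'
  rw [e3]
  have hsplit' : ((A.filter (fun x => data x ∈ S)).card : ℝ) =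
      ((A.filter (fun x => data x ∈ S ∧ ¬ NZ' x)).card : ℝ) +
        ((A.filter (fun x => data x ∈ S ∧ NZ' x)).card : ℝ) := by exact_mod_cast hsplit
  linarith

private lemma exp31 : 126 / 1000 < (31 / 10 + 3) / 2 * Real.exp (-(31 / 10)) := by
  rw [Real.exp_neg]
  have h1 : Real.exp (31 / 10) < 24 := by
    have h2 : Real.exp (31 / 10) = Real.exp 1 ^ 3 * Real.exp (1 / 10) := by
      rw [← Real.exp_nat_mul, ← Real.exp_add]
      norm_num
    have h3 := Real.exp_one_lt_d9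
    have h4 : Real.exp (1 / 10) < 10 / 9 := by
      have h5 := Real.one_sub_lt_exp_neg (x := 1 / 10) (by norm_num)
      rw [Real.exp_neg] at h5
      have h6 := Real.exp_pos (1 / 10 : ℝ)
      rw [lt_inv_comm₀ (by norm_num) h6] at h5
      norm_num at h5 ⊢
      exact h5
    rw [h2]
    calc Real.exp 1 ^ 3 * Real.exp (1 / 10) ≤ 2.7182818286 ^ 3 * (10 / 9) := by
          have := Real.exp_pos (1 : ℝ)
          gcongr
      _ < 24 := by norm_num
  have h0 := Real.exp_pos (31 / 10 : ℝ)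
  rw [← div_eq_mul_inv, lt_div_iff₀ h0]
  linarith

/-- A window parameter with a good exponential bound is at least `3.1`. -/
private lemma A_ge {A : ℝ} (hA : 0 ≤ A) (h : (A + 3) / 2 * Real.exp (-A) < 126 / 1000) :
    31 / 10 ≤ A := by
  by_contra hcon
  push Not at hcon
  have h1 : 1 + (31 / 10 - A) ≤ Real.exp (31 / 10 - A) := by
    have := Real.add_one_le_exp (31 / 10 - A)
    linarith
  have h2 : Real.exp (-A) = Real.exp (31 / 10 - A) * Real.exp (-(31 / 10)) := by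
    rw [← Real.exp_add]
    congr 1
    ring
  have h3 := exp31
  have h4 : (31 / 10 + 3) / 2 * Real.exp (-(31 / 10)) ≤ (A + 3) / 2 * Real.exp (-A) := by
    rw [h2, ← mul_assoc]
    refine mul_le_mul_of_nonneg_right ?_ (Real.exp_pos _).le
    calc (31 / 10 + 3) / 2 ≤ (A + 3) / 2 * (1 + (31 / 10 - A)) := by nlinarith
      _ ≤ (A + 3) / 2 * Real.exp (31 / 10 - A) := by
          have : 0 ≤ (A + 3) / 2 := by linarith
          gcongr
  linarith

theorem main_window [QlsHyp] (A : ℝ) (hA : 0 ≤ A) : ∃ Q₀ : ℕ, ∀ Q : ℕ, Q₀ ≤ Q → ∀ S : Set (ℕ × ℂ × ℂ),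
    (1 - min (126 / 1000) ((A + 3) / 2 * Real.exp (-A))) *
      Nat.card {x : (q : ℕ) × DirichletCharacter ℂ q |
        x ∈ PQ Q ∧ (Nat.gcd x.1 8, x.2 (-1), x.2 2) ∈ S} ≤
      Nat.card {x : (q : ℕ) × DirichletCharacter ℂ q |
        (x ∈ PQ Q ∧ (Nat.gcd x.1 8, x.2 (-1), x.2 2) ∈ S) ∧
        ∀ (N : ℕ) (_ : NeZero N) (hN : x.1 ∣ N) (s : ℝ), 0 < s → s < 1 →
          A ≤ |s - 1 / 2| * Real.log x.1 →
          ((DirichletCharacter.changeLevel hN x.2).LFunction s).im = 0 ∧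
            0 < ((DirichletCharacter.changeLevel hN x.2).LFunction s).re} := by
  rcases le_or_gt (126 / 1000) ((A + 3) / 2 * Real.exp (-A)) with h | h
  · rw [min_eq_left h]
    obtain ⟨Q₀, hQ⟩ := main_sets
    refine ⟨Q₀, fun Q h1 S => le_trans (le_of_eq ?_) ((hQ Q h1 S).trans ?_)⟩
    · norm_num
    · rw [Nat.card_coe_set_eq, Nat.card_coe_set_eq, Nat.cast_le]
      refine Set.ncard_le_ncard ?_ ((PQ_finite Q).subset fun x hx => hx.1.1)
      rintro x ⟨hx, hg⟩
      exact ⟨hx, fun N hN0 hN s hs0 hs1 _ => hg N hN0 hN s hs0 hs1⟩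
  · rw [min_eq_right h.le]
    have hA3 := A_ge hA h
    obtain ⟨A', θ₀, δ, μ, E, w, hA', hAA, hC, hE0, hE⟩ := certW hA3
    refine sets_gen (NZxW A) _ (fun p => prop_classW hA' hAA hC hE0 hE p.1 p.2.1 p.2.2) ?_
    intro Q x hx hn N hN0 hN s hs0 hs1 hsA
    exact pos_of_NZxW hx hn N (NeZero.pos N) hN s hs0 hs1 hsA

end Pool.Agent.MP0016c7.Rz
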