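import Mathlib
import Pool.Agent.Lib.MP_0016c7_nt.Theta
import Pool.Agent.Lib.MP_0016c7_nt.Rz.Defs
import Pool.Agent.Lib.MP_0016c7_nt.Rz.DefsC
import Pool.Agent.Lib.MP_0016c7_nt.Rz.DefsF
import Pool.Agent.Lib.MP_0016c7_nt.Rz.DefsE
import Pool.Agent.Lib.MP_0016c7_nt.Rz.Lap
import Pool.Agent.Lib.MP_0016c7_nt.Rz.VHelp

set_option autoImplicit false

open Finset MeasureTheory Filter Topology
open scoped Real ContDiff

namespace Pool.Agent.MP0016c7.Rz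

open VH in
theorem JJ_A {ρ₁ ρ₂ h : ℝ → ℝ} {θ : ℝ} (hρ₁ : Bump ρ₁ (-(1 / 8)) (1 / 8))
    (hρ₂ : Bump ρ₂ (-(1 / 8)) (1 / 8)) (hh : Bump h 0 θ) (Y₁ Y₂ : ℝ) :
    JJ ρ₁ ρ₂ h Y₁ Y₂ (fun s₁ w₁ s₂ w₂ => 1 / (s₁ * s₂ * (s₁ + s₂) * (w₁ + w₂))) =
      ((∫ x : ℝ, ∫ y : ℝ, ρ₁ x * ρ₂ y * ((∫ t : ℝ, h t ^ 2) *
        max (min (Y₁ - x) (Y₂ - y)) 0) : ℝ) : ℂ) := by
  rw [jj_sw ρ₁ ρ₂ h Y₁ Y₂ (fun s₁ s₂ => 1 / (s₁ * s₂ * (s₁ + s₂))) (fun w₁ w₂ => 1 / (w₁ + w₂))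
    _ (fun s₁ w₁ s₂ w₂ => by simp only [div_eq_mul_inv, mul_inv]; ring), w_part hh]
  have h1 := conv (al_int hρ₁ (c := 2) (by norm_num) Y₁) (al_int hρ₂ (c := 5 / 2) (by norm_num) Y₂)
    (p := fun x : ℝ => ((2 : ℝ) : ℂ) + Complex.I * x)
    (q := fun x : ℝ => ((5 / 2 : ℝ) : ℂ) + Complex.I * x) (by fun_prop) (by fun_prop) (p0 := 2)
    (q0 := 5 / 2) (by intro x; simp) (by intro x; simp) (by norm_num)
  simp only [al_tr hρ₁ (c := 2) (by norm_num), al_tr hρ₂ (c := 5 / 2) (by norm_num)] at h1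
  have h2 := fub (bump_int hρ₁) (bump_int hρ₂) (M := 1 / 8) (fun y hy => (hρ₂.supp y hy).1)
    (A := fun v => Y₁ - v) (by fun_prop) Y₂
  have h3 : 1 / (2 * π) ^ 2 * ∫ x₁ : ℝ, ∫ x₂ : ℝ,
        rhat ρ₁ (2 + Complex.I * x₁) * Complex.exp ((2 + Complex.I * x₁) * Y₁) *
        (rhat ρ₂ (5 / 2 + Complex.I * x₂) * Complex.exp ((5 / 2 + Complex.I * x₂) * Y₂)) *
          (1 / ((2 + Complex.I * x₁) * (5 / 2 + Complex.I * x₂) *
            ((2 + Complex.I * x₁) + (5 / 2 + Complex.I * x₂)))) =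
      ((∫ v in Set.Ioi (0 : ℝ), RR ρ₁ (Y₁ - v) * RR ρ₂ (Y₂ - v) : ℝ) : ℂ) := by
    rw [← integral_complex_ofReal]
    push_cast
    rw [← h1, ← integral_const_mul]
    refine integral_congr_ae (ae_of_all _ fun x₁ => ?_)
    simp only
    rw [← integral_const_mul]
    refine integral_congr_ae (ae_of_all _ fun x₂ => ?_)
    simp only [al]
    push_cast
    simp only [div_eq_mul_inv, mul_inv]
    ring
  rw [h3, h2, ← Complex.ofReal_mul, ← integral_mul_const]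
  congr 1
  refine integral_congr_ae (ae_of_all _ fun x => ?_)
  simp only
  rw [← integral_mul_const]
  refine integral_congr_ae (ae_of_all _ fun y => ?_)
  simp only
  have hset : {v : ℝ | 0 < v ∧ x ≤ Y₁ - v ∧ y ≤ Y₂ - v} =
      Set.Ioc 0 (min (Y₁ - x) (Y₂ - y)) := by
    ext v
    simp only [Set.mem_ofPred_eq, Set.mem_Ioc, le_min_iff]
    constructor
    · rintro ⟨a1, a2, a3⟩
      exact ⟨a1, by linarith, by linarith⟩
    · rintro ⟨a1, a2, a3⟩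
      exact ⟨a1, by linarith, by linarith⟩
  rw [hset]
  have hv : volume.real (Set.Ioc 0 (min (Y₁ - x) (Y₂ - y))) =
      max (min (Y₁ - x) (Y₂ - y)) 0 := by
    rw [Measure.real, Real.volume_Ioc, sub_zero, ENNReal.toReal_ofReal']
  rw [hv]
  ring

end Pool.Agent.MP0016c7.Rz
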