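import Mathlib
import Pool.Agent.Lib.MP_0016c7_nt.Theta
import Pool.Agent.Lib.MP_0016c7_nt.Rz.Defs
import Pool.Agent.Lib.MP_0016c7_nt.Rz.DefsC
import Pool.Agent.Lib.MP_0016c7_nt.Rz.DefsF
import Pool.Agent.Lib.MP_0016c7_nt.Rz.DefsE
import Pool.Agent.Lib.MP_0016c7_nt.Rz.Lap

set_option autoImplicit false

open Finset MeasureTheory Filter Topology
open scoped Real ContDiff

namespace Pool.Agent.MP0016c7.Rz

private lemma vadd_rhat {ρ : ℝ → ℝ} (hρ : Continuous ρ) (c : ℂ) :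
    Measurable (fun t : ℝ => rhat ρ (c + Complex.I * t)) := by
  unfold rhat
  have h : Continuous (fun p : ℝ × ℝ => (ρ p.2 : ℂ) * Complex.exp (-(c + Complex.I * p.1) * p.2)) := by
    fun_prop
  exact (StronglyMeasurable.integral_prod_right
    (f := fun t y : ℝ => (ρ y : ℂ) * Complex.exp (-(c + Complex.I * t) * y))
    h.stronglyMeasurable).measurable

private lemma vadd_hhat {ρ : ℝ → ℝ} (hρ : Continuous ρ) (c : ℂ) :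
    Measurable (fun t : ℝ => hhat ρ (c + Complex.I * t)) := by
  unfold hhat
  have h : Continuous (fun p : ℝ × ℝ => (ρ p.2 : ℂ) * Complex.exp ((c + Complex.I * p.1) * p.2)) := by
    fun_prop
  exact (StronglyMeasurable.integral_prod_right
    (f := fun t y : ℝ => (ρ y : ℂ) * Complex.exp ((c + Complex.I * t) * y))
    h.stronglyMeasurable).measurable

private noncomputable def vaddM (K : ℝ) (p : ℝ × ℝ × ℝ × ℝ) : ℝ :=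
  K * ((1 + |p.1|) ^ (-2 : ℝ) * ((1 + |p.2.1|) ^ (-2 : ℝ) *
    ((1 + |p.2.2.1|) ^ (-2 : ℝ) * (1 + |p.2.2.2|) ^ (-2 : ℝ))))

private lemma vaddM_int (K : ℝ) : Integrable (vaddM K) := by
  have h : Integrable (fun x : ℝ => (1 + |x|) ^ (-2 : ℝ)) := by
    have := integrable_one_add_norm (E := ℝ) (μ := volume) (r := 2) (by simp)
    simpa using this
  exact ((h.mul_prod (h.mul_prod (h.mul_prod h))).const_mul K)

private lemma vadd_iter {f : ℝ × ℝ × ℝ × ℝ → ℂ} (hf : Integrable f) :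
    ∫ x₁ : ℝ, ∫ y₁ : ℝ, ∫ x₂ : ℝ, ∫ y₂ : ℝ, f (x₁, y₁, x₂, y₂) = ∫ p, f p := by
  rw [show (∫ p, f p) = ∫ x₁ : ℝ, ∫ q : ℝ × ℝ × ℝ, f (x₁, q) from integral_prod f hf]
  refine integral_congr_ae ?_
  filter_upwards [hf.prod_right_ae] with x₁ h1
  rw [show (∫ q : ℝ × ℝ × ℝ, f (x₁, q)) = ∫ y₁ : ℝ, ∫ q : ℝ × ℝ, f (x₁, y₁, q) from
    integral_prod _ h1]
  refine integral_congr_ae ?_
  filter_upwards [h1.prod_right_ae] with y₁ h2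
  rw [show (∫ q : ℝ × ℝ, f (x₁, y₁, q)) = ∫ x₂ : ℝ, ∫ y₂ : ℝ, f (x₁, y₁, x₂, y₂) from
    integral_prod _ h2]

private lemma vadd_fac {f : ℝ → ℂ} {A C : ℝ} (h : ∀ t, ‖f t‖ * (1 + |t|) ^ (A + 2) ≤ C) (t : ℝ) :
    ‖f t‖ * (1 + |t|) ^ A ≤ C * (1 + |t|) ^ (-2 : ℝ) := by
  have h0 : 0 < 1 + |t| := by positivity
  have e : (1 + |t|) ^ A = (1 + |t|) ^ (A + 2) * (1 + |t|) ^ (-2 : ℝ) := by
    rw [← Real.rpow_add h0]
    congr 1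
    ring
  rw [e, ← mul_assoc]
  exact mul_le_mul_of_nonneg_right (h t) (by positivity)

/-- the integrand of `JJ` -/
private noncomputable def vaddG (ρ₁ ρ₂ h : ℝ → ℝ) (Y₁ Y₂ : ℝ) (K : ℂ → ℂ → ℂ → ℂ → ℂ)
    (p : ℝ × ℝ × ℝ × ℝ) : ℂ :=
  rhat ρ₁ (2 + Complex.I * p.1) * hhat h (3 + Complex.I * p.2.1) *
    (rhat ρ₂ (5 / 2 + Complex.I * p.2.2.1) * hhat h (3 + Complex.I * p.2.2.2)) *
    Complex.exp ((2 + Complex.I * p.1) * Y₁ + (5 / 2 + Complex.I * p.2.2.1) * Y₂) *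
    K (2 + Complex.I * p.1) (3 + Complex.I * p.2.1) (5 / 2 + Complex.I * p.2.2.1)
      (3 + Complex.I * p.2.2.2)

private lemma vaddG_int {ρ₁ ρ₂ h : ℝ → ℝ} {θ : ℝ} (hρ₁ : Bump ρ₁ (-(1 / 8)) (1 / 8))
    (hρ₂ : Bump ρ₂ (-(1 / 8)) (1 / 8)) (hh : Bump h 0 θ) (Y₁ Y₂ : ℝ) (K : ℂ → ℂ → ℂ → ℂ → ℂ)
    (C : ℝ)
    (hK : Continuous (fun q : ℝ × ℝ × ℝ × ℝ => K (2 + Complex.I * q.1) (3 + Complex.I * q.2.1)
      (5 / 2 + Complex.I * q.2.2.1) (3 + Complex.I * q.2.2.2)))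
    (hb : ∀ x₁ y₁ x₂ y₂ : ℝ, ‖K (2 + Complex.I * x₁) (3 + Complex.I * y₁)
      (5 / 2 + Complex.I * x₂) (3 + Complex.I * y₂)‖ ≤ C) :
    Integrable (vaddG ρ₁ ρ₂ h Y₁ Y₂ K) := by
  obtain ⟨R1, hR1, hr1⟩ := rhat_decay hρ₁ 2 (0 + 2)
  obtain ⟨R2, hR2, hr2⟩ := rhat_decay hρ₂ (5 / 2) (0 + 2)
  obtain ⟨H, hH, hh3⟩ := hhat_decay hh 3 (0 + 2)
  have q1 : Measurable (fun p : ℝ × ℝ × ℝ × ℝ => p.1) := by fun_prop
  have q2 : Measurable (fun p : ℝ × ℝ × ℝ × ℝ => p.2.1) := by fun_prop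
  have q3 : Measurable (fun p : ℝ × ℝ × ℝ × ℝ => p.2.2.1) := by fun_prop
  have q4 : Measurable (fun p : ℝ × ℝ × ℝ × ℝ => p.2.2.2) := by fun_prop
  have m1 := (vadd_rhat hρ₁.smooth.continuous 2).comp q1
  have m2 := (vadd_hhat hh.smooth.continuous 3).comp q2
  have m3 := (vadd_rhat hρ₂.smooth.continuous (5 / 2)).comp q3
  have m4 := (vadd_hhat hh.smooth.continuous 3).comp q4
  have m5 : Continuous (fun p : ℝ × ℝ × ℝ × ℝ =>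
      Complex.exp ((2 + Complex.I * p.1) * Y₁ + (5 / 2 + Complex.I * p.2.2.1) * Y₂)) := by
    fun_prop
  have hm : Measurable (vaddG ρ₁ ρ₂ h Y₁ Y₂ K) :=
    (((m1.mul m2).mul (m3.mul m4)).mul m5.measurable).mul hK.measurable
  refine (vaddM_int ((Real.exp (2 * Y₁ + 5 / 2 * Y₂) * C) * (R1 * (H * (R2 * H))))).mono'
    hm.aestronglyMeasurable (Eventually.of_forall fun p => ?_)
  obtain ⟨x₁, y₁, x₂, y₂⟩ := p
  unfold vaddG vaddM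
  simp only
  have t1 := vadd_fac hr1 x₁
  have t2 := vadd_fac hr2 x₂
  have t3 := vadd_fac hh3 y₁
  have t4 := vadd_fac hh3 y₂
  push_cast at t1 t2 t3 t4
  rw [Real.rpow_zero, mul_one] at t1 t2 t3 t4
  have hC : 0 ≤ C := (norm_nonneg _).trans (hb x₁ y₁ x₂ y₂)
  have e : ((2 + Complex.I * (x₁ : ℂ)) * Y₁ + (5 / 2 + Complex.I * (x₂ : ℂ)) * Y₂).re =
      2 * Y₁ + 5 / 2 * Y₂ := by
    simp only [Complex.add_re, Complex.mul_re, Complex.add_im, Complex.mul_im, Complex.I_re,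
      Complex.I_im, Complex.ofReal_re, Complex.ofReal_im]
    norm_num
  rw [norm_mul, norm_mul, norm_mul, norm_mul, norm_mul, Complex.norm_exp, e]
  have hk := hb x₁ y₁ x₂ y₂
  set E := Real.exp (2 * Y₁ + 5 / 2 * Y₂) with hE
  have hE0 : 0 ≤ E := (Real.exp_pos _).le
  calc _ ≤ ((R1 * (1 + |x₁|) ^ (-2 : ℝ)) * (H * (1 + |y₁|) ^ (-2 : ℝ))) *
        ((R2 * (1 + |x₂|) ^ (-2 : ℝ)) * (H * (1 + |y₂|) ^ (-2 : ℝ))) * E * C := by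
        gcongr
    _ = _ := by ring

theorem JJ_add {ρ₁ ρ₂ h : ℝ → ℝ} {θ : ℝ} (hρ₁ : Bump ρ₁ (-(1 / 8)) (1 / 8))
    (hρ₂ : Bump ρ₂ (-(1 / 8)) (1 / 8)) (hh : Bump h 0 θ) (Y₁ Y₂ : ℝ) (K K' : ℂ → ℂ → ℂ → ℂ → ℂ)
    (C : ℝ)
    (hK : Continuous (fun q : ℝ × ℝ × ℝ × ℝ => K (2 + Complex.I * q.1) (3 + Complex.I * q.2.1)
      (5 / 2 + Complex.I * q.2.2.1) (3 + Complex.I * q.2.2.2)))
    (hK' : Continuous (fun q : ℝ × ℝ × ℝ × ℝ => K' (2 + Complex.I * q.1) (3 + Complex.I * q.2.1)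
      (5 / 2 + Complex.I * q.2.2.1) (3 + Complex.I * q.2.2.2)))
    (hb : ∀ x₁ y₁ x₂ y₂ : ℝ, ‖K (2 + Complex.I * x₁) (3 + Complex.I * y₁)
      (5 / 2 + Complex.I * x₂) (3 + Complex.I * y₂)‖ ≤ C)
    (hb' : ∀ x₁ y₁ x₂ y₂ : ℝ, ‖K' (2 + Complex.I * x₁) (3 + Complex.I * y₁)
      (5 / 2 + Complex.I * x₂) (3 + Complex.I * y₂)‖ ≤ C) :
    JJ ρ₁ ρ₂ h Y₁ Y₂ (fun s₁ w₁ s₂ w₂ => K s₁ w₁ s₂ w₂ + K' s₁ w₁ s₂ w₂) =
      JJ ρ₁ ρ₂ h Y₁ Y₂ K + JJ ρ₁ ρ₂ h Y₁ Y₂ K' := by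
  have i1 := vaddG_int hρ₁ hρ₂ hh Y₁ Y₂ K C hK hb
  have i2 := vaddG_int hρ₁ hρ₂ hh Y₁ Y₂ K' C hK' hb'
  have i3 : Integrable (fun p => vaddG ρ₁ ρ₂ h Y₁ Y₂ K p + vaddG ρ₁ ρ₂ h Y₁ Y₂ K' p) := i1.add i2
  unfold JJ
  rw [← mul_add]
  congr 1
  have e1 := vadd_iter i1
  have e2 := vadd_iter i2
  have e3 := vadd_iter i3
  rw [integral_add i1 i2, ← e1, ← e2] at e3
  refine Eq.trans ?_ e3
  refine integral_congr_ae (Eventually.of_forall fun x₁ => ?_)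
  refine integral_congr_ae (Eventually.of_forall fun y₁ => ?_)
  refine integral_congr_ae (Eventually.of_forall fun x₂ => ?_)
  refine integral_congr_ae (Eventually.of_forall fun y₂ => ?_)
  simp only [vaddG]
  ring

end Pool.Agent.MP0016c7.Rz
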