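import Mathlib
import Pool.Agent.Lib.MP_0016c7_nt.Theta
import Pool.Agent.Lib.MP_0016c7_nt.Rz.Defs
import Pool.Agent.Lib.MP_0016c7_nt.Rz.DefsC
import Pool.Agent.Lib.MP_0016c7_nt.Rz.DefsF
import Pool.Agent.Lib.MP_0016c7_nt.Rz.DefsE
import Pool.Agent.Lib.MP_0016c7_nt.Rz.Lap
import Pool.Agent.Lib.MP_0016c7_nt.Rz.VHelp

set_option autoImplicit false

open Finset MeasureTheory Filter Topology
open scoped Real ContDiff

namespace Pool.Agent.MP0016c7.Rz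

open VH in
private lemma jjB_part {ρ h : ℝ → ℝ} {θ : ℝ} (hρ : Bump ρ (-(1 / 8)) (1 / 8)) (hh : Bump h 0 θ)
    (Y c : ℝ) (hc : 0 < c) (hc3 : c < 3) :
    1 / (2 * π) ^ 2 * ∫ x : ℝ, ∫ y : ℝ,
        rhat ρ (c + Complex.I * x) * Complex.exp ((c + Complex.I * x) * Y) *
        hhat h (3 + Complex.I * y) * (1 / ((c + Complex.I * x) *
          ((3 + Complex.I * y) - (c + Complex.I * x)))) =
      ((∫ x : ℝ, ρ x * HH h (x - Y) : ℝ) : ℂ) := by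
  have h1 := conv (al_int hρ hc Y) (be_int hh 3)
    (p := fun x : ℝ => -((c : ℂ) + Complex.I * x))
    (q := fun x : ℝ => ((3 : ℝ) : ℂ) + Complex.I * x) (by fun_prop) (by fun_prop) (p0 := -c)
    (q0 := 3) (by intro x; simp) (by intro x; simp) (by linarith)
  simp only [al_tr' hρ hc, be_tr hh] at h1
  rw [← fubB (bump_int hρ) hh Y, ← integral_complex_ofReal]
  push_cast
  rw [← h1, ← integral_const_mul]
  refine integral_congr_ae (ae_of_all _ fun x₁ => ?_)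
  simp only
  rw [← integral_const_mul]
  refine integral_congr_ae (ae_of_all _ fun x₂ => ?_)
  simp only [al, be]
  push_cast
  have e : (3 + Complex.I * (x₂ : ℂ)) - (c + Complex.I * x₁) =
      -(c + Complex.I * x₁) + (3 + Complex.I * x₂) := by ring
  rw [e]
  simp only [div_eq_mul_inv, mul_inv]
  ring

open VH in
theorem JJ_B {ρ₁ ρ₂ h : ℝ → ℝ} {θ : ℝ} (hρ₁ : Bump ρ₁ (-(1 / 8)) (1 / 8))
    (hρ₂ : Bump ρ₂ (-(1 / 8)) (1 / 8)) (hh : Bump h 0 θ) (Y₁ Y₂ : ℝ) :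
    JJ ρ₁ ρ₂ h Y₁ Y₂ (fun s₁ w₁ s₂ w₂ => 1 / (s₁ * s₂ * (w₁ - s₁) * (w₂ - s₂))) =
      ((∫ x : ℝ, ∫ y : ℝ, ρ₁ x * ρ₂ y * (HH h (x - Y₁) * HH h (y - Y₂)) : ℝ) : ℂ) := by
  rw [jj_12 ρ₁ ρ₂ h Y₁ Y₂ (fun s₁ w₁ => 1 / (s₁ * (w₁ - s₁))) (fun s₂ w₂ => 1 / (s₂ * (w₂ - s₂)))
    _ (fun s₁ w₁ s₂ w₂ => by simp only [div_eq_mul_inv, mul_inv]; ring)]
  have h1 := jjB_part hρ₁ hh Y₁ 2 (by norm_num) (by norm_num)
  have h2 := jjB_part hρ₂ hh Y₂ (5 / 2) (by norm_num) (by norm_num)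
  push_cast at h1 h2
  rw [h1, h2, ← integral_complex_ofReal, ← integral_complex_ofReal, ← integral_complex_ofReal,
    ← integral_mul_const]
  refine integral_congr_ae (ae_of_all _ fun x => ?_)
  simp only
  rw [← integral_complex_ofReal, ← integral_const_mul]
  refine integral_congr_ae (ae_of_all _ fun y => ?_)
  simp only
  push_cast
  ring

end Pool.Agent.MP0016c7.Rz
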