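import Mathlib
import Pool.Agent.Lib.MP_0016c7_nt.Theta
import Pool.Agent.Lib.MP_0016c7_nt.Rz.Defs
import Pool.Agent.Lib.MP_0016c7_nt.Rz.DefsC
import Pool.Agent.Lib.MP_0016c7_nt.Rz.DefsF
import Pool.Agent.Lib.MP_0016c7_nt.Rz.DefsE
import Pool.Agent.Lib.MP_0016c7_nt.Rz.Lap
import Pool.Agent.Lib.MP_0016c7_nt.Rz.VHelp

set_option autoImplicit false

open Finset MeasureTheory Filter Topology
open scoped Real ContDiff

namespace Pool.Agent.MP0016c7.Rz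

open VH in
theorem JJ_C1 {ρ₁ ρ₂ h : ℝ → ℝ} {θ : ℝ} (hρ₁ : Bump ρ₁ (-(1 / 8)) (1 / 8))
    (hρ₂ : Bump ρ₂ (-(1 / 8)) (1 / 8)) (hh : Bump h 0 θ) (Y₁ Y₂ : ℝ) (hY₁ : Y₁ ≤ 3 / 4) :
    JJ ρ₁ ρ₂ h Y₁ Y₂ (fun s₁ w₁ s₂ w₂ => Complex.exp (-s₁) *
      (-1 / (s₁ * s₂ * (s₂ - s₁) * (w₁ + w₂)))) =
      ((∫ x : ℝ, ∫ y : ℝ, ρ₁ x * ρ₂ y * (-((∫ t : ℝ, h t ^ 2) *
        max (Y₁ - x + (Y₂ - y) - 1) 0)) : ℝ) : ℂ) := by
  rw [jj_sw ρ₁ ρ₂ h Y₁ Y₂ (fun s₁ s₂ => Complex.exp (-s₁) * (-1 / (s₁ * s₂ * (s₂ - s₁))))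
    (fun w₁ w₂ => 1 / (w₁ + w₂)) _ (fun s₁ w₁ s₂ w₂ => by simp only [div_eq_mul_inv, mul_inv]; ring), w_part hh]
  have h1 := conv (al_int hρ₁ (c := 2) (by norm_num) (Y₁ - 1))
    (al_int hρ₂ (c := 5 / 2) (by norm_num) Y₂)
    (p := fun x : ℝ => -(((2 : ℝ) : ℂ) + Complex.I * x))
    (q := fun x : ℝ => ((5 / 2 : ℝ) : ℂ) + Complex.I * x) (by fun_prop) (by fun_prop) (p0 := -2)
    (q0 := 5 / 2) (by intro x; simp) (by intro x; simp) (by norm_num)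
  simp only [al_tr' hρ₁ (c := 2) (by norm_num), al_tr hρ₂ (c := 5 / 2) (by norm_num)] at h1
  have h2 := fub (bump_int hρ₁) (bump_int hρ₂) (M := 1 / 8) (fun y hy => (hρ₂.supp y hy).1)
    (A := fun v => Y₁ - 1 + v) (by fun_prop) Y₂
  have h3 : 1 / (2 * π) ^ 2 * ∫ x₁ : ℝ, ∫ x₂ : ℝ,
        rhat ρ₁ (2 + Complex.I * x₁) * Complex.exp ((2 + Complex.I * x₁) * Y₁) *
        (rhat ρ₂ (5 / 2 + Complex.I * x₂) * Complex.exp ((5 / 2 + Complex.I * x₂) * Y₂)) *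
          (Complex.exp (-(2 + Complex.I * x₁)) * (-1 / ((2 + Complex.I * x₁) *
            (5 / 2 + Complex.I * x₂) * ((5 / 2 + Complex.I * x₂) - (2 + Complex.I * x₁))))) =
      ((-∫ v in Set.Ioi (0 : ℝ), RR ρ₁ (Y₁ - 1 + v) * RR ρ₂ (Y₂ - v) : ℝ) : ℂ) := by
    rw [Complex.ofReal_neg, ← integral_complex_ofReal]
    push_cast
    rw [← h1, ← integral_const_mul, ← integral_neg]
    refine integral_congr_ae (ae_of_all _ fun x₁ => ?_)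
    simp only
    rw [← integral_const_mul, ← integral_neg]
    refine integral_congr_ae (ae_of_all _ fun x₂ => ?_)
    simp only [al]
    have e : (5 / 2 + Complex.I * (x₂ : ℂ)) - (2 + Complex.I * x₁) =
      -(2 + Complex.I * x₁) + (5 / 2 + Complex.I * x₂) := by ring
    have e' : (2 + Complex.I * (x₁ : ℂ)) * ((Y₁ : ℂ) - 1) =
        (2 + Complex.I * x₁) * Y₁ + -(2 + Complex.I * x₁) := by ring
    push_cast
    rw [e, e', Complex.exp_add]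
    simp only [div_eq_mul_inv, mul_inv]
    ring
  rw [h3, h2, ← Complex.ofReal_mul, ← integral_neg, ← integral_mul_const]
  congr 1
  refine integral_congr_ae (ae_of_all _ fun x => ?_)
  simp only
  rw [← integral_neg, ← integral_mul_const]
  refine integral_congr_ae (ae_of_all _ fun y => ?_)
  simp only
  by_cases hx : ρ₁ x = 0
  · simp [hx]
  have hx1 := (hρ₁.supp x hx).1
  have hset : {v : ℝ | 0 < v ∧ x ≤ Y₁ - 1 + v ∧ y ≤ Y₂ - v} =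
      Set.Icc (x - Y₁ + 1) (Y₂ - y) := by
    ext v
    simp only [Set.mem_ofPred_eq, Set.mem_Icc]
    constructor
    · rintro ⟨a1, a2, a3⟩
      exact ⟨by linarith, by linarith⟩
    · rintro ⟨a2, a3⟩
      exact ⟨by linarith, by linarith, by linarith⟩
  rw [hset]
  have hv : volume.real (Set.Icc (x - Y₁ + 1) (Y₂ - y)) =
      max (Y₁ - x + (Y₂ - y) - 1) 0 := by
    rw [Measure.real, Real.volume_Icc, ENNReal.toReal_ofReal']
    congr 1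
    ring
  rw [hv]
  ring

open VH in
theorem JJ_C2 {ρ₁ ρ₂ h : ℝ → ℝ} {θ : ℝ} (hρ₁ : Bump ρ₁ (-(1 / 8)) (1 / 8))
    (hρ₂ : Bump ρ₂ (-(1 / 8)) (1 / 8)) (hh : Bump h 0 θ) (Y₁ Y₂ : ℝ) (hY₂ : Y₂ ≤ 3 / 4) :
    JJ ρ₁ ρ₂ h Y₁ Y₂ (fun s₁ w₁ s₂ w₂ => Complex.exp (-s₂) *
      (1 / (s₁ * s₂ * (s₂ - s₁) * (w₁ + w₂)))) = 0 := by
  rw [jj_sw ρ₁ ρ₂ h Y₁ Y₂ (fun s₁ s₂ => Complex.exp (-s₂) * (1 / (s₁ * s₂ * (s₂ - s₁))))
    (fun w₁ w₂ => 1 / (w₁ + w₂)) _ (fun s₁ w₁ s₂ w₂ => by simp only [div_eq_mul_inv, mul_inv]; ring)]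
  have h1 := conv (al_int hρ₁ (c := 2) (by norm_num) Y₁)
    (al_int hρ₂ (c := 5 / 2) (by norm_num) (Y₂ - 1))
    (p := fun x : ℝ => -(((2 : ℝ) : ℂ) + Complex.I * x))
    (q := fun x : ℝ => ((5 / 2 : ℝ) : ℂ) + Complex.I * x) (by fun_prop) (by fun_prop) (p0 := -2)
    (q0 := 5 / 2) (by intro x; simp) (by intro x; simp) (by norm_num)
  simp only [al_tr' hρ₁ (c := 2) (by norm_num), al_tr hρ₂ (c := 5 / 2) (by norm_num)] at h1
  have h0 : ∫ v in Set.Ioi (0 : ℝ), (RR ρ₁ (Y₁ + v) : ℂ) * (RR ρ₂ (Y₂ - 1 - v) : ℂ) = 0 := by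
    rw [← integral_zero ℝ ℂ (μ := volume.restrict (Set.Ioi 0))]
    refine setIntegral_congr_fun measurableSet_Ioi fun v hv => ?_
    have hv0 : 0 < v := hv
    rw [RR_zero hρ₂ (by linarith), Complex.ofReal_zero, mul_zero]
  rw [h0] at h1
  have h3 : 1 / (2 * π) ^ 2 * ∫ x₁ : ℝ, ∫ x₂ : ℝ,
        rhat ρ₁ (2 + Complex.I * x₁) * Complex.exp ((2 + Complex.I * x₁) * Y₁) *
        (rhat ρ₂ (5 / 2 + Complex.I * x₂) * Complex.exp ((5 / 2 + Complex.I * x₂) * Y₂)) *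
          (Complex.exp (-(5 / 2 + Complex.I * x₂)) * (1 / ((2 + Complex.I * x₁) *
            (5 / 2 + Complex.I * x₂) * ((5 / 2 + Complex.I * x₂) - (2 + Complex.I * x₁))))) =
      0 := by
    rw [← h1, ← integral_const_mul]
    refine integral_congr_ae (ae_of_all _ fun x₁ => ?_)
    simp only
    rw [← integral_const_mul]
    refine integral_congr_ae (ae_of_all _ fun x₂ => ?_)
    simp only [al]
    have e : (5 / 2 + Complex.I * (x₂ : ℂ)) - (2 + Complex.I * x₁) =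
      -(2 + Complex.I * x₁) + (5 / 2 + Complex.I * x₂) := by ring
    have e' : (5 / 2 + Complex.I * (x₂ : ℂ)) * ((Y₂ : ℂ) - 1) =
        (5 / 2 + Complex.I * x₂) * Y₂ + -(5 / 2 + Complex.I * x₂) := by ring
    push_cast
    rw [e, e', Complex.exp_add]
    simp only [div_eq_mul_inv, mul_inv]
    ring
  rw [h3, zero_mul]

end Pool.Agent.MP0016c7.Rz
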