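import Mathlib
import Pool.Agent.Lib.MP_0016c7_nt.Theta
import Pool.Agent.Lib.MP_0016c7_nt.Rz.Defs
import Pool.Agent.Lib.MP_0016c7_nt.Rz.DefsC
import Pool.Agent.Lib.MP_0016c7_nt.Rz.DefsF
import Pool.Agent.Lib.MP_0016c7_nt.Rz.DefsE
import Pool.Agent.Lib.MP_0016c7_nt.Rz.ArithA2

set_option autoImplicit false

open Finset MeasureTheory Filter Topology
open scoped Real ContDiff

namespace Pool.Agent.MP0016c7.Rz

private theorem arithA3_sq2_eq_one {n : ℕ} (hn : n ≠ 0) : sq2 n = 1 ↔ Squarefree n := by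
  have h1 := sq1_mul_sq2 n hn
  constructor
  · intro h
    rw [h, one_pow, mul_one] at h1
    rw [← h1]
    exact squarefree_sq1 n
  · intro h
    have h2 : sq2 n * sq2 n ∣ n := ⟨sq1 n, by rw [← sq, mul_comm]; exact h1.symm⟩
    exact Nat.isUnit_iff.1 (h _ h2)

private theorem arithA3_coprime (k : ℤ) (n : ℕ) (hn : Odd n) (h : Nat.Coprime n k.natAbs) :
    gg k n = if Squarefree n then jr k n / √(n : ℝ) else 0 := by
  have hn0 : n ≠ 0 := hn.pos.ne'
  have h1 := sq1_mul_sq2 n hn0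
  split_ifs with hs
  · have h2 : sq2 n = 1 := (arithA3_sq2_eq_one hn0).2 hs
    have h3 : sq1 n = n := by rw [h2, one_pow, mul_one] at h1; exact h1
    unfold gg
    rw [h2, h3]
    have h4 : (Nat.divisors 1).filter (fun e : ℕ => (((1 : ℕ) : ℤ)) ^ 2 ∣ k * (e : ℤ)) = {1} := by
      rw [Nat.divisors_one]
      ext e
      simp
    rw [h4, Finset.sum_singleton]
    simp
  · have h2 : sq2 n ≠ 1 := fun hc => hs ((arithA3_sq2_eq_one hn0).1 hc)
    have h3 : sq2 n ≠ 0 := by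
      intro hc
      rw [hc] at h1
      simp at h1
      exact hn0 h1.symm
    have hco : Nat.Coprime (sq2 n ^ 2) k.natAbs :=
      Nat.Coprime.coprime_dvd_left ⟨sq1 n, by rw [mul_comm]; exact h1.symm⟩ h
    unfold gg
    have h4 : (sq2 n).divisors.filter (fun e : ℕ => ((sq2 n : ℕ) : ℤ) ^ 2 ∣ k * (e : ℤ)) = ∅ := by
      rw [Finset.filter_eq_empty_iff]
      intro e he hd
      have hdv : e ∣ sq2 n := Nat.dvd_of_mem_divisors he
      have h5 : sq2 n ^ 2 ∣ k.natAbs * e := by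
        have := Int.natAbs_dvd_natAbs.2 hd
        rwa [Int.natAbs_mul, Int.natAbs_natCast, Int.natAbs_pow, Int.natAbs_natCast] at this
      have h6 : sq2 n ^ 2 ∣ e := hco.dvd_of_dvd_mul_left h5
      have h7 : sq2 n ^ 2 ∣ sq2 n := h6.trans hdv
      have h8 := Nat.le_of_dvd (Nat.pos_of_ne_zero h3) h7
      have h9 : 2 ≤ sq2 n := by omega
      nlinarith
    rw [h4]
    simp

theorem gg_prime (k : ℤ) (p : ℕ) (hp : p.Prime) (ho : Odd p) (hk : ¬ (p : ℤ) ∣ k) :
    gg k p = jr k p / √(p : ℝ) ∧ ∀ b : ℕ, gg k (p ^ (b + 2)) = 0 := by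
  have hco : Nat.Coprime p k.natAbs := by
    rw [Nat.Prime.coprime_iff_not_dvd hp]
    intro hc
    exact hk (Int.natCast_dvd.2 hc)
  refine ⟨?_, fun b => ?_⟩
  · rw [arithA3_coprime k p ho hco, if_pos hp.squarefree]
  · rw [arithA3_coprime k (p ^ (b + 2)) (ho.pow) (hco.pow_left _), if_neg]
    intro hc
    have h1 : p * p ∣ p ^ (b + 2) := ⟨p ^ b, by ring⟩
    exact hp.one_lt.ne' (Nat.isUnit_iff.1 (hc _ h1))

theorem gg_coprime (k : ℤ) (n : ℕ) (hn : Odd n) (h : Nat.Coprime n k.natAbs) :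
    gg k n = if Squarefree n then jr k n / √(n : ℝ) else 0 :=
  arithA3_coprime k n hn h

end Pool.Agent.MP0016c7.Rz
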