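import Mathlib
import Pool.Agent.Lib.MP_0016c7_nt.Theta
import Pool.Agent.Lib.MP_0016c7_nt.Rz.Defs
import Pool.Agent.Lib.MP_0016c7_nt.Rz.DefsC
import Pool.Agent.Lib.MP_0016c7_nt.Rz.DefsF
import Pool.Agent.Lib.MP_0016c7_nt.Rz.DefsE

set_option autoImplicit false

open Finset MeasureTheory Filter Topology
open scoped Real ContDiff

namespace Pool.Agent.MP0016c7.Rz

private theorem abel_sum (ξ : ℕ → ℂ) (f : ℕ → ℂ) (M : ℕ) :
    ∑ n ∈ Icc 1 M, ξ n * f n = (∑ n ∈ Icc 1 M, ξ n) * f (M + 1) +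
      ∑ n ∈ Icc 1 M, (∑ k ∈ Icc 1 n, ξ k) * (f n - f (n + 1)) := by
  induction M with
  | zero => simp
  | succ M ih =>
    rw [Finset.sum_Icc_succ_top (by omega), ih,
      Finset.sum_Icc_succ_top (by omega) (fun n => (∑ k ∈ Icc 1 n, ξ k) * (f n - f (n + 1))),
      Finset.sum_Icc_succ_top (by omega) ξ]
    ring

private theorem rpow_th (x : ℝ) (hx : 0 < x) : x ^ (-(3 / 2) : ℝ) = 1 / (x * √x) := by
  rw [Real.rpow_neg hx.le, show (3 / 2 : ℝ) = 1 + 1 / 2 by norm_num, Real.rpow_add hx,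
    Real.rpow_one, ← Real.sqrt_eq_rpow, one_div]

private theorem step_ineq (n : ℕ) (hn : 1 ≤ n) :
    1 / (((n + 1 : ℕ) : ℝ) * √((n + 1 : ℕ) : ℝ)) ≤ 2 / √(n : ℝ) - 2 / √((n + 1 : ℕ) : ℝ) := by
  have h0 : (0 : ℝ) < n := by exact_mod_cast hn
  have hu : 0 < √(n : ℝ) := Real.sqrt_pos.mpr h0
  have hv : 0 < √((n + 1 : ℕ) : ℝ) := Real.sqrt_pos.mpr (by positivity)
  have hu2 : √(n : ℝ) ^ 2 = n := Real.sq_sqrt h0.le
  have hv2 : √((n + 1 : ℕ) : ℝ) ^ 2 = ((n + 1 : ℕ) : ℝ) := Real.sq_sqrt (by positivity)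
  have huv : √(n : ℝ) ≤ √((n + 1 : ℕ) : ℝ) := Real.sqrt_le_sqrt (by push_cast; linarith)
  set u := √(n : ℝ)
  set v := √((n + 1 : ℕ) : ℝ)
  have h1 : v ^ 2 = u ^ 2 + 1 := by rw [hv2, hu2]; push_cast; ring
  rw [← hv2, div_sub_div _ _ hu.ne' hv.ne', div_le_div_iff₀ (by positivity) (by positivity)]
  have h2 : (v - u) * (v + u) = 1 := by nlinarith
  have h3 : 0 ≤ v - u := by linarith
  -- `1 * (u v) ≤ (2 v - 2 u) (v^2 v)`
  have h4 : 1 ≤ 2 * (v - u) * v := by nlinarith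
  nlinarith [mul_nonneg hv.le (mul_nonneg hu.le hv.le), mul_pos hu hv, mul_pos hv hv,
    mul_nonneg (sub_nonneg.mpr h4) (mul_pos hv hv).le, mul_nonneg h3 hv.le]

private theorem sum_min (P : ℝ) (hP : 1 ≤ P) (N : ℕ) :
    ((N : ℝ) ≤ P → ∑ n ∈ Icc 1 N, min (n : ℝ) P * (1 / (n * √(n : ℝ))) ≤ 2 * √(N : ℝ)) ∧
    (P < N → ∑ n ∈ Icc 1 N, min (n : ℝ) P * (1 / (n * √(n : ℝ))) ≤ 5 * √P - 2 * P / √(N : ℝ)) := by
  have hP0 : 0 < √P := Real.sqrt_pos.mpr (by linarith)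
  have hP1 : 1 ≤ √P := by
    rw [show (1 : ℝ) = √1 from Real.sqrt_one.symm]
    exact Real.sqrt_le_sqrt hP
  have hPP : √P * √P = P := Real.mul_self_sqrt (by linarith)
  induction N with
  | zero => exact ⟨fun _ => by simp, fun h => by simp at h; linarith⟩
  | succ N ih =>
    have hv : 0 < √((N + 1 : ℕ) : ℝ) := Real.sqrt_pos.mpr (by positivity)
    have hv1 : 1 ≤ √((N + 1 : ℕ) : ℝ) := by
      rw [show (1 : ℝ) = √1 from Real.sqrt_one.symm]
      exact Real.sqrt_le_sqrt (by push_cast; linarith [Nat.cast_nonneg (α := ℝ) N])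
    have hvv : √((N + 1 : ℕ) : ℝ) * √((N + 1 : ℕ) : ℝ) = ((N + 1 : ℕ) : ℝ) :=
      Real.mul_self_sqrt (by positivity)
    refine ⟨fun h => ?_, fun h => ?_⟩
    · rw [Finset.sum_Icc_succ_top (by omega)]
      have h1 := ih.1 (by push_cast at h; linarith)
      rw [min_eq_left h]
      have h2 : ((N + 1 : ℕ) : ℝ) * (1 / (((N + 1 : ℕ) : ℝ) * √((N + 1 : ℕ) : ℝ))) =
          1 / √((N + 1 : ℕ) : ℝ) := by
        field_simp
      rw [h2]
      have h3 : 1 / √((N + 1 : ℕ) : ℝ) ≤ 2 * √((N + 1 : ℕ) : ℝ) - 2 * √(N : ℝ) := by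
        rw [div_le_iff₀ hv]
        have hu : 0 ≤ √(N : ℝ) := Real.sqrt_nonneg _
        have huu : √(N : ℝ) * √(N : ℝ) = N := Real.mul_self_sqrt (by positivity)
        have h5 : √((N + 1 : ℕ) : ℝ) * √((N + 1 : ℕ) : ℝ) = √(N : ℝ) * √(N : ℝ) + 1 := by
          rw [hvv, huu]; push_cast; ring
        nlinarith [sq_nonneg (√((N + 1 : ℕ) : ℝ) - √(N : ℝ))]
      linarith
    · rw [Finset.sum_Icc_succ_top (by omega), min_eq_right h.le]
      by_cases hc : (N : ℝ) ≤ P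
      · have h1 := ih.1 hc
        have h2 : √(N : ℝ) ≤ √P := Real.sqrt_le_sqrt hc
        have h3 : P * (1 / (((N + 1 : ℕ) : ℝ) * √((N + 1 : ℕ) : ℝ))) ≤ 1 := by
          rw [mul_one_div, div_le_one (by positivity)]
          nlinarith
        have h4 : 2 * P / √((N + 1 : ℕ) : ℝ) ≤ 2 * √P := by
          rw [div_le_iff₀ hv]
          have h5 : √P ≤ √((N + 1 : ℕ) : ℝ) := Real.sqrt_le_sqrt h.le
          nlinarith
        linarith
      · push Not at hc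
        have h1 := ih.2 hc
        have hN : 1 ≤ N := by
          rcases Nat.eq_zero_or_pos N with h0 | h0
          · subst h0
            simp at hc
            linarith
          · exact h0
        have h2 := step_ineq N hN
        have h3 := mul_le_mul_of_nonneg_left h2 (show (0 : ℝ) ≤ P by linarith)
        have h4 : P * (2 / √(N : ℝ) - 2 / √((N + 1 : ℕ) : ℝ)) =
            2 * P / √(N : ℝ) - 2 * P / √((N + 1 : ℕ) : ℝ) := by ring
        rw [h4] at h3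
        linarith

private theorem sum_min_le (P : ℝ) (hP : 1 ≤ P) (N : ℕ) :
    ∑ n ∈ Icc 1 N, min (n : ℝ) P * (1 / (n * √(n : ℝ))) ≤ 5 * √P := by
  have h := sum_min P hP N
  by_cases hc : (N : ℝ) ≤ P
  · have h1 := h.1 hc
    have h2 : √(N : ℝ) ≤ √P := Real.sqrt_le_sqrt hc
    have h3 : 0 ≤ √P := Real.sqrt_nonneg _
    linarith
  · push Not at hc
    have h1 := h.2 hc
    have h2 : 0 ≤ 2 * P / √(N : ℝ) := by positivity
    linarith

private theorem cpow_diff (s : ℂ) (hs : s.re = -(1 / 2)) (n : ℕ) (hn : 1 ≤ n) :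
    ‖((n + 1 : ℕ) : ℂ) ^ s - (n : ℂ) ^ s‖ ≤ ‖s‖ * (1 / (n * √(n : ℝ))) := by
  have hn0 : (0 : ℝ) < n := by exact_mod_cast hn
  have hd : ∀ x ∈ Set.Icc (n : ℝ) (n + 1 : ℕ),
      HasDerivWithinAt (fun y : ℝ => (y : ℂ) ^ s) (s * (x : ℂ) ^ (s - 1)) (Set.Icc (n : ℝ) (n + 1 : ℕ))
        x := by
    intro x hx
    have hx0 : 0 < x := lt_of_lt_of_le hn0 hx.1
    have h1 : HasDerivAt (fun y : ℂ => y ^ s) (s * (x : ℂ) ^ (s - 1) * 1) (x : ℂ) :=
      (hasDerivAt_id' (x : ℂ)).cpow_const (Or.inl (by simpa using hx0))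
    rw [mul_one] at h1
    exact h1.comp_ofReal.hasDerivWithinAt
  have hb : ∀ x ∈ Set.Icc (n : ℝ) (n + 1 : ℕ), ‖s * (x : ℂ) ^ (s - 1)‖ ≤
      ‖s‖ * (1 / (n * √(n : ℝ))) := by
    intro x hx
    have hx0 : 0 < x := lt_of_lt_of_le hn0 hx.1
    rw [norm_mul, Complex.norm_cpow_eq_rpow_re_of_pos hx0]
    refine mul_le_mul_of_nonneg_left ?_ (norm_nonneg s)
    rw [Complex.sub_re, hs, Complex.one_re, show (-(1 / 2) - 1 : ℝ) = -(3 / 2) by norm_num,
      rpow_th x hx0]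
    have h1 : √(n : ℝ) ≤ √x := Real.sqrt_le_sqrt hx.1
    have h2 : 0 < √(n : ℝ) := Real.sqrt_pos.mpr hn0
    refine one_div_le_one_div_of_le (by positivity) ?_
    exact mul_le_mul hx.1 h1 h2.le hx0.le
  have h := (convex_Icc (n : ℝ) (n + 1 : ℕ)).norm_image_sub_le_of_norm_hasDerivWithin_le hd hb
    (show (n : ℝ) ∈ Set.Icc (n : ℝ) (n + 1 : ℕ) from ⟨le_rfl, by push_cast; linarith⟩)
    (show ((n + 1 : ℕ) : ℝ) ∈ Set.Icc (n : ℝ) (n + 1 : ℕ) from ⟨by push_cast; linarith, le_rfl⟩)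
  have h2 : ‖((n + 1 : ℕ) : ℝ) - (n : ℝ)‖ = 1 := by
    push_cast
    rw [add_sub_cancel_left]
    exact norm_one
  rw [h2, mul_one] at h
  simpa only [Complex.ofReal_natCast] using h

theorem sum_one (ξ : ℕ → ℝ) (hξ : ∀ n, |ξ n| ≤ 1) (P : ℝ) (hP : 1 ≤ P)
    (hS : ∀ x : ℕ, |∑ n ∈ Icc 1 x, ξ n| ≤ P) (V : ℕ → ℝ) (C : ℝ) (hV : ∀ n, |V n| ≤ C)
    (hL : ∀ m n : ℕ, 1 ≤ m → 1 ≤ n → |V m - V n| ≤ C * |Real.log m - Real.log n|)
    (M : ℕ) (hM : ∀ n, M < n → V n = 0) (τ : ℝ) :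
    ‖∑ n ∈ Icc 1 M, (ξ n : ℂ) * (n : ℂ) ^ (-(1 / 2 : ℂ) + Complex.I * τ) * V n‖ ≤
      10 * C * (1 + |τ|) * √P := by
  set s : ℂ := -(1 / 2 : ℂ) + Complex.I * τ with hs
  have hsre : s.re = -(1 / 2) := by
    rw [hs]
    simp
  have hsn : ‖s‖ ≤ 1 / 2 + |τ| := by
    rw [hs]
    refine (norm_add_le _ _).trans ?_
    rw [norm_neg, norm_mul, Complex.norm_I, one_mul, Complex.norm_real, Real.norm_eq_abs]
    norm_num
  have hC : 0 ≤ C := (abs_nonneg _).trans (hV 0)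
  have hτ : 0 ≤ |τ| := abs_nonneg τ
  set f : ℕ → ℂ := fun n => (n : ℂ) ^ s * V n with hf
  have h0 : ∑ n ∈ Icc 1 M, (ξ n : ℂ) * (n : ℂ) ^ s * V n = ∑ n ∈ Icc 1 M, (ξ n : ℂ) * f n :=
    Finset.sum_congr rfl fun n _ => by rw [hf]; ring
  have hfM : f (M + 1) = 0 := by
    rw [hf]
    simp only
    rw [hM (M + 1) (by omega)]
    simp
  rw [h0, abel_sum (fun n => (ξ n : ℂ)) f M, hfM, mul_zero, zero_add]
  have hterm : ∀ n ∈ Icc 1 M, ‖(∑ k ∈ Icc 1 n, (ξ k : ℂ)) * (f n - f (n + 1))‖ ≤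
      C * (3 / 2 + |τ|) * (min (n : ℝ) P * (1 / (n * √(n : ℝ)))) := by
    intro n hn
    have hn1 : 1 ≤ n := (Finset.mem_Icc.mp hn).1
    have hn0 : (0 : ℝ) < n := by exact_mod_cast hn1
    have hq : 0 < √(n : ℝ) := Real.sqrt_pos.mpr hn0
    have hSn : ‖∑ k ∈ Icc 1 n, (ξ k : ℂ)‖ ≤ min (n : ℝ) P := by
      rw [← Complex.ofReal_sum, Complex.norm_real, Real.norm_eq_abs]
      refine le_min ?_ (hS n)
      refine (Finset.abs_sum_le_sum_abs _ _).trans ?_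
      refine (Finset.sum_le_card_nsmul _ _ 1 fun k _ => hξ k).trans ?_
      simp
    have hfd : ‖f n - f (n + 1)‖ ≤ C * (3 / 2 + |τ|) * (1 / (n * √(n : ℝ))) := by
      have e1 : f n - f (n + 1) = ((n : ℂ) ^ s - ((n + 1 : ℕ) : ℂ) ^ s) * V n +
          ((n + 1 : ℕ) : ℂ) ^ s * ((V n - V (n + 1) : ℝ) : ℂ) := by
        rw [hf]
        push_cast
        ring
      rw [e1]
      refine (norm_add_le _ _).trans ?_
      rw [norm_mul, norm_mul, Complex.norm_real, Complex.norm_real, norm_sub_rev]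
      have h1 : ‖((n + 1 : ℕ) : ℂ) ^ s - (n : ℂ) ^ s‖ * ‖V n‖ ≤
          (1 / 2 + |τ|) * (1 / (n * √(n : ℝ))) * C := by
        refine mul_le_mul ?_ (hV n) (norm_nonneg _) (by positivity)
        exact (cpow_diff s hsre n hn1).trans (mul_le_mul_of_nonneg_right hsn (by positivity))
      have h2 : ‖((n + 1 : ℕ) : ℂ) ^ s‖ * ‖V n - V (n + 1)‖ ≤ (1 / √(n : ℝ)) * (C * (1 / n)) := by
        refine mul_le_mul ?_ ?_ (norm_nonneg _) (by positivity)
        · have e2 : ((n + 1 : ℕ) : ℂ) = (((n + 1 : ℕ) : ℝ) : ℂ) := by push_cast; rfl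
          rw [e2, Complex.norm_cpow_eq_rpow_re_of_pos (by positivity), hsre, Real.rpow_neg (by positivity),
            ← Real.sqrt_eq_rpow, ← one_div]
          exact one_div_le_one_div_of_le hq (Real.sqrt_le_sqrt (by push_cast; linarith))
        · rw [Real.norm_eq_abs]
          refine (hL n (n + 1) hn1 (by omega)).trans (mul_le_mul_of_nonneg_left ?_ hC)
          have e3 : Real.log ((n + 1 : ℕ) : ℝ) - Real.log n = Real.log (1 + 1 / n) := by
            rw [← Real.log_div (by positivity) hn0.ne']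
            congr 1
            push_cast
            field_simp
          have h3 : 0 ≤ Real.log (1 + 1 / (n : ℝ)) := Real.log_nonneg (by
            have : 0 < 1 / (n : ℝ) := by positivity
            linarith)
          rw [abs_sub_comm, e3, abs_of_nonneg h3]
          have h4 := Real.log_le_sub_one_of_pos (show 0 < 1 + 1 / (n : ℝ) by positivity)
          linarith
      have h5 : (1 / √(n : ℝ)) * (C * (1 / n)) = C * (1 / (n * √(n : ℝ))) := by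
        field_simp
      rw [h5] at h2
      calc _ ≤ (1 / 2 + |τ|) * (1 / (n * √(n : ℝ))) * C + C * (1 / (n * √(n : ℝ))) :=
            add_le_add h1 h2
        _ = C * (3 / 2 + |τ|) * (1 / (n * √(n : ℝ))) := by ring
    rw [norm_mul]
    calc _ ≤ min (n : ℝ) P * (C * (3 / 2 + |τ|) * (1 / (n * √(n : ℝ)))) :=
          mul_le_mul hSn hfd (norm_nonneg _) (le_min hn0.le (by linarith))
      _ = _ := by ring
  refine (norm_sum_le _ _).trans ((Finset.sum_le_sum hterm).trans ?_)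
  rw [← Finset.mul_sum]
  have h6 := sum_min_le P hP M
  have hq : 0 ≤ √P := Real.sqrt_nonneg _
  calc C * (3 / 2 + |τ|) * ∑ n ∈ Icc 1 M, min (n : ℝ) P * (1 / (n * √(n : ℝ)))
      ≤ C * (3 / 2 + |τ|) * (5 * √P) := mul_le_mul_of_nonneg_left h6 (by positivity)
    _ ≤ 10 * C * (1 + |τ|) * √P := by
      have h7 : 0 ≤ C * √P := mul_nonneg hC hq
      nlinarith [mul_nonneg h7 hτ]

end Pool.Agent.MP0016c7.Rz
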