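import Mathlib
import Pool.Agent.Lib.MP_0016c7_nt.Theta
import Pool.Agent.Lib.MP_0016c7_nt.Rz.Defs
import Pool.Agent.Lib.MP_0016c7_nt.Rz.DefsC
import Pool.Agent.Lib.MP_0016c7_nt.Rz.DefsF
import Pool.Agent.Lib.MP_0016c7_nt.Rz.DefsE
import Pool.Agent.Lib.MP_0016c7_nt.Rz.ErrD1

set_option autoImplicit false

open Finset MeasureTheory Filter Topology
open scoped Real ContDiff

namespace Pool.Agent.MP0016c7.Rz

private lemma d2_dvd {b j e : ℕ} (hb : b ≠ 0) (he : Squarefree e)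
    (h' : b ^ 2 ∣ j ^ 2 * e) : b ∣ j := by
  obtain ⟨b', j', hc, hb', hj'⟩ := Nat.exists_coprime b j
  have hg : 0 < Nat.gcd b j := Nat.gcd_pos_of_pos_left _ (Nat.pos_of_ne_zero hb)
  set g := Nat.gcd b j with hgdef
  have h2 : g ^ 2 * b' ^ 2 ∣ g ^ 2 * (j' ^ 2 * e) := by
    have e1 : g ^ 2 * b' ^ 2 = b ^ 2 := by rw [hb']; ring
    have e2 : g ^ 2 * (j' ^ 2 * e) = j ^ 2 * e := by rw [hj']; ring
    rw [e1, e2]; exact h'
  have h3 : b' ^ 2 ∣ j' ^ 2 * e := Nat.dvd_of_mul_dvd_mul_left (by positivity) h2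
  have h4 : b' ^ 2 ∣ e := (Nat.Coprime.pow 2 2 hc).dvd_of_dvd_mul_left h3
  have h5 : IsUnit b' := he b' (by rw [← sq]; exact h4)
  have h6 : b' = 1 := Nat.isUnit_iff.1 h5
  rw [hj', hb', h6, one_mul]
  exact dvd_mul_left _ _

private lemma d2_mu (b : ℕ) : (∑ m ∈ b.divisors, (ArithmeticFunction.moebius m : ℂ)) =
    if b = 1 then 1 else 0 := by
  have h2 := congrArg (fun f : ArithmeticFunction ℤ => f b)
    ArithmeticFunction.moebius_mul_coe_zeta
  simp only [ArithmeticFunction.coe_mul_zeta_apply, ArithmeticFunction.one_apply] at h2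
  have h3 : ((∑ e ∈ b.divisors, ArithmeticFunction.moebius e : ℤ) : ℂ) =
      ((if b = 1 then 1 else 0 : ℤ) : ℂ) := by rw [h2]
  push_cast at h3
  exact h3

private lemma d2_cop (n a : ℕ) (hn : n ≠ 0) (ha : a ≠ 0) :
    ∑ e ∈ a.divisors, (if e ∣ n then (ArithmeticFunction.moebius e : ℂ) else 0) =
      if Nat.Coprime n a then 1 else 0 := by
  classical
  have h1 : a.divisors.filter (fun e => e ∣ n) = (Nat.gcd n a).divisors := by
    ext e
    simp only [mem_filter, Nat.mem_divisors]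
    constructor
    · rintro ⟨⟨h1, h2⟩, h3⟩
      exact ⟨Nat.dvd_gcd h3 h1, Nat.gcd_ne_zero_left hn⟩
    · rintro ⟨h1, h2⟩
      exact ⟨⟨h1.trans (Nat.gcd_dvd_right _ _), ha⟩, h1.trans (Nat.gcd_dvd_left _ _)⟩
  rw [← Finset.sum_filter, h1, d2_mu]

private lemma d2_sqf (M n : ℕ) (hn : n ≠ 0) (hnM : n ≤ M) :
    ∑ m ∈ Icc 1 M, (if m ^ 2 ∣ n then (ArithmeticFunction.moebius m : ℂ) else 0) =
      if Squarefree n then 1 else 0 := by
  classical
  obtain ⟨a, b, hab, ha⟩ := Nat.sq_mul_squarefree n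
  have hb0 : b ≠ 0 := by rintro rfl; simp at hab; exact hn hab.symm
  have h1 : (Icc 1 M).filter (fun m => m ^ 2 ∣ n) = b.divisors := by
    ext m
    simp only [mem_filter, Nat.mem_divisors, mem_Icc]
    constructor
    · rintro ⟨⟨h1, h2⟩, h3⟩
      rw [← hab] at h3
      exact ⟨d2_dvd (by omega) ha h3, hb0⟩
    · rintro ⟨h1, _⟩
      have h3 : m ^ 2 ∣ n := by
        rw [← hab]; exact dvd_mul_of_dvd_left (pow_dvd_pow_of_dvd h1 2) _
      have hm0 : m ≠ 0 := by rintro rfl; simp at h1; exact hb0 h1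
      have h4 : m ^ 2 ≤ n := Nat.le_of_dvd (Nat.pos_of_ne_zero hn) h3
      have h5 : m ≤ m ^ 2 := Nat.le_self_pow (by norm_num) m
      exact ⟨⟨Nat.one_le_iff_ne_zero.2 hm0, by omega⟩, h3⟩
  rw [← Finset.sum_filter, h1, d2_mu]
  have h2 : b = 1 ↔ Squarefree n := by
    constructor
    · rintro rfl
      rw [one_pow, one_mul] at hab
      rw [← hab]; exact ha
    · intro h
      have : IsUnit b := h b (by rw [← hab, sq]; exact dvd_mul_right _ _)
      exact Nat.isUnit_iff.1 this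
  rw [if_congr h2 rfl rfl]

private lemma d2_sum_dvd (M d : ℕ) (hd : d ≠ 0) (f : ℕ → ℂ) (hf : ∀ n, M < n → f n = 0) :
    ∑ n ∈ Icc 1 M, (if d ∣ n then f n else 0) = ∑ n ∈ Icc 1 M, f (d * n) := by
  classical
  rw [← Finset.sum_filter]
  have h1 : ∑ n ∈ (Icc 1 M).filter (fun n => d * n ≤ M), f (d * n) = ∑ n ∈ Icc 1 M, f (d * n) := by
    rw [Finset.sum_filter]
    refine Finset.sum_congr rfl fun n _ => ?_
    split_ifs with h
    · rfl
    · exact (hf _ (by omega)).symm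
  rw [← h1]
  refine Finset.sum_nbij' (fun n => n / d) (fun n => d * n) ?_ ?_ ?_ ?_ ?_
  · intro n hn
    simp only [mem_filter, mem_Icc] at hn ⊢
    obtain ⟨⟨h1, h2⟩, c, rfl⟩ := hn
    rw [Nat.mul_div_cancel_left c (Nat.pos_of_ne_zero hd)]
    have hc : c ≠ 0 := by rintro rfl; simp at h1
    have hc' : c ≤ d * c := Nat.le_mul_of_pos_left c (Nat.pos_of_ne_zero hd)
    exact ⟨⟨Nat.one_le_iff_ne_zero.2 hc, by omega⟩, h2⟩
  · intro n hn
    simp only [mem_filter, mem_Icc] at hn ⊢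
    refine ⟨⟨?_, hn.2⟩, dvd_mul_right _ _⟩
    exact Nat.mul_pos (Nat.pos_of_ne_zero hd) hn.1.1
  · intro n hn
    simp only [mem_filter, mem_Icc] at hn
    exact Nat.mul_div_cancel' hn.2
  · intro n hn
    exact Nat.mul_div_cancel_left n (Nat.pos_of_ne_zero hd)
  · intro n hn
    simp only [mem_filter, mem_Icc] at hn
    rw [Nat.mul_div_cancel' hn.2]

theorem sum_sqf (ξ : ℕ → ℝ) (hξ : ∀ n, |ξ n| ≤ 1) (hmul : ∀ m n, ξ (m * n) = ξ m * ξ n)
    (P : ℝ) (hP : 1 ≤ P)
    (hS : ∀ x : ℕ, |∑ n ∈ Icc 1 x, ξ n| ≤ P) (V : ℕ → ℝ) (C : ℝ) (hV : ∀ n, |V n| ≤ C)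
    (hL : ∀ m n : ℕ, 1 ≤ m → 1 ≤ n → |V m - V n| ≤ C * |Real.log m - Real.log n|)
    (M : ℕ) (hM1 : 1 ≤ M) (hM : ∀ n, M < n → V n = 0) (q : ℕ) (hq : 0 < q) (τ : ℝ) :
    ‖∑ n ∈ (Icc 1 M).filter (fun n => Squarefree n ∧ Nat.Coprime n q),
        (ξ n : ℂ) * (n : ℂ) ^ (-(1 / 2 : ℂ) + Complex.I * τ) * V n‖ ≤
      10 * C * (1 + |τ|) * √P * q.divisors.card * (1 + Real.log M) := by
  classical
  have hC : 0 ≤ C := (abs_nonneg _).trans (hV 0)
  set s : ℂ := -(1 / 2 : ℂ) + Complex.I * τ with hs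
  have hsre : s.re = -(1 / 2) := by simp [hs]
  set c : ℕ → ℂ := fun n => (ξ n : ℂ) * (n : ℂ) ^ s * V n with hc
  have hcM : ∀ n, M < n → c n = 0 := fun n hn => by simp [hc, hM n hn]
  set K : ℝ := 10 * C * (1 + |τ|) * √P with hK
  have hK0 : 0 ≤ K := by positivity
  -- the inner sums
  have inner : ∀ D : ℕ, 1 ≤ D → ‖∑ n ∈ Icc 1 M, c (D * n)‖ ≤ (D : ℝ) ^ (-(1 / 2) : ℝ) * K := by
    intro D hD
    have hD0 : (0:ℝ) < D := by exact_mod_cast hD
    have e1 : ∀ n, c (D * n) = ((ξ D : ℂ) * (D : ℂ) ^ s) * ((ξ n : ℂ) * (n : ℂ) ^ s * (V (D * n) : ℂ)) := by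
      intro n
      simp only [hc]
      rw [hmul]
      push_cast
      rw [Complex.natCast_mul_natCast_cpow]
      ring
    rw [Finset.sum_congr rfl (fun n _ => e1 n), ← Finset.mul_sum, norm_mul]
    have h1 : ‖(ξ D : ℂ) * (D : ℂ) ^ s‖ ≤ (D : ℝ) ^ (-(1 / 2) : ℝ) := by
      rw [norm_mul, Complex.norm_natCast_cpow_of_pos hD, hsre, Complex.norm_real, Real.norm_eq_abs]
      exact mul_le_of_le_one_left (Real.rpow_nonneg hD0.le _) (hξ D)
    have h2 : ‖∑ n ∈ Icc 1 M, (ξ n : ℂ) * (n : ℂ) ^ s * (V (D * n) : ℂ)‖ ≤ K := by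
      refine sum_one ξ hξ P hP hS (fun n => V (D * n)) C (fun n => hV _) ?_ M ?_ τ
      · intro m n hm hn
        have h3 := hL (D * m) (D * n) (Nat.mul_pos hD hm) (Nat.mul_pos hD hn)
        have hm0 : (0:ℝ) < m := by exact_mod_cast hm
        have hn0 : (0:ℝ) < n := by exact_mod_cast hn
        push_cast at h3
        rw [Real.log_mul hD0.ne' hm0.ne', Real.log_mul hD0.ne' hn0.ne', add_sub_add_left_eq_sub] at h3
        exact h3
      · intro n hn
        exact hM _ (lt_of_lt_of_le hn (Nat.le_mul_of_pos_left n hD))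
    exact mul_le_mul h1 h2 (norm_nonneg _) (Real.rpow_nonneg hD0.le _)
  -- the middle sums
  have middle : ∀ m ∈ Icc 1 M, ‖∑ n ∈ Icc 1 M, (if m ^ 2 ∣ n then
      (if Nat.Coprime n q then c n else 0) else 0)‖ ≤ (1 / (m : ℝ)) * (q.divisors.card * K) := by
    intro m hm
    have hm1 : 1 ≤ m := (mem_Icc.1 hm).1
    have hm0 : (0:ℝ) < m := by exact_mod_cast hm1
    rw [d2_sum_dvd M (m ^ 2) (by positivity) (fun n => if Nat.Coprime n q then c n else 0)
      (fun n hn => by simp only [hcM n hn, ite_self])]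
    by_cases hmq : Nat.Coprime m q
    · have e1 : ∀ n ∈ Icc 1 M, (if Nat.Coprime (m ^ 2 * n) q then c (m ^ 2 * n) else 0) =
          ∑ e ∈ q.divisors, (ArithmeticFunction.moebius e : ℂ) *
            (if e ∣ n then c (m ^ 2 * n) else 0) := by
        intro n hn
        have hn1 : n ≠ 0 := by have := (mem_Icc.1 hn).1; omega
        have h1 : Nat.Coprime (m ^ 2 * n) q ↔ Nat.Coprime n q := by
          rw [Nat.coprime_mul_iff_left]
          exact ⟨fun h => h.2, fun h => ⟨Nat.Coprime.pow_left 2 hmq, h⟩⟩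
        rw [if_congr h1 rfl rfl]
        have h2 : (if Nat.Coprime n q then c (m ^ 2 * n) else 0) =
            (if Nat.Coprime n q then 1 else 0) * c (m ^ 2 * n) := by split_ifs <;> simp
        rw [h2, ← d2_cop n q hn1 hq.ne', Finset.sum_mul]
        refine Finset.sum_congr rfl fun e _ => ?_
        split_ifs <;> simp
      rw [Finset.sum_congr rfl e1, Finset.sum_comm]
      have e2 : ∀ e ∈ q.divisors, ∑ n ∈ Icc 1 M, (ArithmeticFunction.moebius e : ℂ) *
            (if e ∣ n then c (m ^ 2 * n) else 0) =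
          (ArithmeticFunction.moebius e : ℂ) * ∑ n ∈ Icc 1 M, c (m ^ 2 * e * n) := by
        intro e he
        have he1 : 1 ≤ e := Nat.pos_of_mem_divisors he
        rw [← Finset.mul_sum, d2_sum_dvd M e (by omega) (fun n => c (m ^ 2 * n)) ?_]
        · congr 1
          refine Finset.sum_congr rfl fun n _ => ?_
          rw [mul_assoc]
        · intro n hn
          exact hcM _ (lt_of_lt_of_le hn (Nat.le_mul_of_pos_left n (by positivity)))
      rw [Finset.sum_congr rfl e2]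
      refine (norm_sum_le _ _).trans ?_
      have e3 : ∀ e ∈ q.divisors, ‖(ArithmeticFunction.moebius e : ℂ) *
          ∑ n ∈ Icc 1 M, c (m ^ 2 * e * n)‖ ≤ 1 / (m : ℝ) * K := by
        intro e he
        have he1 : 1 ≤ e := Nat.pos_of_mem_divisors he
        have he0 : (1:ℝ) ≤ e := by exact_mod_cast he1
        have hmu : ‖(ArithmeticFunction.moebius e : ℂ)‖ ≤ 1 := by
          rw [Complex.norm_intCast]
          exact_mod_cast ArithmeticFunction.abs_moebius_le_one
        have hD : 1 ≤ m ^ 2 * e := Nat.mul_pos (by positivity) he1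
        have h1 := inner (m ^ 2 * e) hD
        have h2 : ((m ^ 2 * e : ℕ) : ℝ) ^ (-(1 / 2) : ℝ) ≤ 1 / (m : ℝ) := by
          have h3 : (1 / (m : ℝ)) = ((m : ℝ) ^ 2) ^ (-(1 / 2) : ℝ) := by
            rw [← Real.rpow_natCast, ← Real.rpow_mul hm0.le]
            norm_num
            rw [Real.rpow_neg_one]
          rw [h3]
          refine Real.rpow_le_rpow_of_nonpos (by positivity) ?_ (by norm_num)
          push_cast
          exact le_mul_of_one_le_right (by positivity) he0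
        rw [norm_mul]
        calc ‖(ArithmeticFunction.moebius e : ℂ)‖ * ‖∑ n ∈ Icc 1 M, c (m ^ 2 * e * n)‖
            ≤ 1 * (((m ^ 2 * e : ℕ) : ℝ) ^ (-(1 / 2) : ℝ) * K) :=
              mul_le_mul hmu h1 (norm_nonneg _) zero_le_one
          _ ≤ 1 / (m : ℝ) * K := by
              rw [one_mul]
              exact mul_le_mul_of_nonneg_right h2 hK0
      refine (Finset.sum_le_sum e3).trans ?_
      rw [Finset.sum_const, nsmul_eq_mul]
      apply le_of_eq
      ring
    · rw [Finset.sum_eq_zero]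
      · rw [norm_zero]; positivity
      · intro n _
        rw [if_neg]
        intro h
        exact hmq (Nat.Coprime.coprime_dvd_left
          (dvd_mul_of_dvd_left (dvd_pow_self m two_ne_zero) n) h)
  -- the outer sum
  have outer : ∑ n ∈ (Icc 1 M).filter (fun n => Squarefree n ∧ Nat.Coprime n q), c n =
      ∑ m ∈ Icc 1 M, (ArithmeticFunction.moebius m : ℂ) * ∑ n ∈ Icc 1 M, (if m ^ 2 ∣ n then
        (if Nat.Coprime n q then c n else 0) else 0) := by
    rw [Finset.sum_filter]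
    have e1 : ∀ n ∈ Icc 1 M, (if Squarefree n ∧ Nat.Coprime n q then c n else 0) =
        ∑ m ∈ Icc 1 M, (ArithmeticFunction.moebius m : ℂ) * (if m ^ 2 ∣ n then
          (if Nat.Coprime n q then c n else 0) else 0) := by
      intro n hn
      have hn1 : n ≠ 0 := by have := (mem_Icc.1 hn).1; omega
      have h2 : (if Squarefree n ∧ Nat.Coprime n q then c n else 0) =
          (if Squarefree n then 1 else 0) * (if Nat.Coprime n q then c n else 0) := by
        by_cases h1 : Squarefree n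
        · by_cases h2 : Nat.Coprime n q
          · rw [if_pos ⟨h1, h2⟩, if_pos h1, if_pos h2, one_mul]
          · rw [if_neg (fun h => h2 h.2), if_neg h2, mul_zero]
        · rw [if_neg (fun h => h1 h.1), if_neg h1, zero_mul]
      rw [h2, ← d2_sqf M n hn1 (mem_Icc.1 hn).2, Finset.sum_mul]
      refine Finset.sum_congr rfl fun e _ => ?_
      split_ifs <;> simp
    rw [Finset.sum_congr rfl e1, Finset.sum_comm]
    refine Finset.sum_congr rfl fun m _ => ?_
    rw [Finset.mul_sum]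
  rw [outer]
  refine (norm_sum_le _ _).trans ?_
  have e4 : ∀ m ∈ Icc 1 M, ‖(ArithmeticFunction.moebius m : ℂ) * ∑ n ∈ Icc 1 M, (if m ^ 2 ∣ n then
        (if Nat.Coprime n q then c n else 0) else 0)‖ ≤ (m : ℝ)⁻¹ * (q.divisors.card * K) := by
    intro m hm
    have hmu : ‖(ArithmeticFunction.moebius m : ℂ)‖ ≤ 1 := by
      rw [Complex.norm_intCast]
      exact_mod_cast ArithmeticFunction.abs_moebius_le_one
    rw [norm_mul, ← one_div]
    exact (mul_le_of_le_one_left (norm_nonneg _) hmu).trans (middle m hm)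
  refine (Finset.sum_le_sum e4).trans ?_
  rw [← Finset.sum_mul]
  have h5 : ∑ m ∈ Icc 1 M, (m : ℝ)⁻¹ ≤ 1 + Real.log M := by
    have := harmonic_le_one_add_log M
    rw [harmonic_eq_sum_Icc] at this
    push_cast at this
    exact this
  calc (∑ m ∈ Icc 1 M, (m : ℝ)⁻¹) * (q.divisors.card * K)
      ≤ (1 + Real.log M) * (q.divisors.card * K) :=
        mul_le_mul_of_nonneg_right h5 (by positivity)
    _ = K * q.divisors.card * (1 + Real.log M) := by ring

end Pool.Agent.MP0016c7.Rz
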