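import Mathlib
import Pool.Agent.Lib.MP_0016c7_nt.Theta
import Pool.Agent.Lib.MP_0016c7_nt.Rz.Defs
import Pool.Agent.Lib.MP_0016c7_nt.Rz.DefsC
import Pool.Agent.Lib.MP_0016c7_nt.Rz.DefsF
import Pool.Agent.Lib.MP_0016c7_nt.Rz.DefsE
import Pool.Agent.Lib.MP_0016c7_nt.Rz.ErrD2

set_option autoImplicit false

open Finset MeasureTheory Filter Topology
open scoped Real ContDiff

namespace Pool.Agent.MP0016c7.Rz

/-! ### sums of divisor functions -/

private lemma d3_anti (M : ℕ) (F : ℕ → ℕ → ℝ) (hF : ∀ a b, 0 ≤ F a b) :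
    ∑ g ∈ Icc 1 M, ∑ p ∈ g.divisorsAntidiagonal, F p.1 p.2 ≤
      ∑ u ∈ Icc 1 M, ∑ k ∈ Icc 1 M, F u k := by
  rw [← Finset.sum_biUnion, ← Finset.sum_product']
  · refine Finset.sum_le_sum_of_subset_of_nonneg ?_ (fun p _ _ => hF _ _)
    intro p hp
    rw [Finset.mem_biUnion] at hp
    obtain ⟨g, hg, hp⟩ := hp
    rw [Nat.mem_divisorsAntidiagonal] at hp
    rw [Finset.mem_Icc] at hg
    obtain ⟨h1, h2⟩ := hp
    have h3 : 0 < p.1 := Nat.pos_of_ne_zero (by rintro h; rw [h, zero_mul] at h1; omega)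
    have h4 : 0 < p.2 := Nat.pos_of_ne_zero (by rintro h; rw [h, mul_zero] at h1; omega)
    rw [Finset.mem_product, Finset.mem_Icc, Finset.mem_Icc]
    refine ⟨⟨h3, ?_⟩, ⟨h4, ?_⟩⟩
    · nlinarith
    · nlinarith
  · intro g _ g' _ hgg'
    rw [Function.onFun, Finset.disjoint_left]
    intro p hp hp'
    rw [Nat.mem_divisorsAntidiagonal] at hp hp'
    exact hgg' (hp.1.symm.trans hp'.1)

private lemma d3_harm (M : ℕ) : ∑ n ∈ Icc 1 M, (1 : ℝ) / n ≤ 1 + Real.log M := by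
  have h := harmonic_le_one_add_log M
  rw [harmonic_eq_sum_Icc] at h
  push_cast at h
  refine le_trans (le_of_eq (Finset.sum_congr rfl fun n _ => ?_)) h
  rw [one_div]

private lemma d3_sub (m n : ℕ) : ((m * n).divisors.card : ℝ) ≤ m.divisors.card * n.divisors.card := by
  rw [Nat.divisors_mul]
  exact_mod_cast Finset.card_mul_le

private lemma d3_one (M : ℕ) :
    ∑ g ∈ Icc 1 M, (g.divisors.card : ℝ) / g ≤ (∑ n ∈ Icc 1 M, (1 : ℝ) / n) ^ 2 := by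
  have h1 := d3_anti M (fun a b => (1 : ℝ) / a * (1 / b)) (fun a b => by positivity)
  have e1 : ∑ u ∈ Icc 1 M, ∑ k ∈ Icc 1 M, (1 : ℝ) / u * (1 / k) =
      (∑ n ∈ Icc 1 M, (1 : ℝ) / n) ^ 2 := by
    rw [sq, Finset.sum_mul_sum]
  rw [e1] at h1
  refine le_trans (le_of_eq (Finset.sum_congr rfl fun g hg => ?_)) h1
  have e2 : ∀ p ∈ g.divisorsAntidiagonal, (1 : ℝ) / p.1 * (1 / p.2) = 1 / g := by
    intro p hp
    rw [Nat.mem_divisorsAntidiagonal] at hp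
    rw [← hp.1]
    push_cast
    rw [one_div_mul_one_div]
  rw [Finset.sum_congr rfl e2, Finset.sum_const, nsmul_eq_mul, mul_one_div]
  congr 2
  have := congrArg Finset.card (Nat.map_div_right_divisors (n := g))
  rw [Finset.card_map] at this
  exact this

private lemma d3_two (M : ℕ) :
    ∑ g ∈ Icc 1 M, (g.divisors.card : ℝ) ^ 2 / g ≤ (∑ n ∈ Icc 1 M, (1 : ℝ) / n) ^ 4 := by
  have h1 := d3_anti M (fun a b => (a.divisors.card : ℝ) / a * ((b.divisors.card : ℝ) / b))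
    (fun a b => by positivity)
  have e1 : ∑ u ∈ Icc 1 M, ∑ k ∈ Icc 1 M, (u.divisors.card : ℝ) / u *
      ((k.divisors.card : ℝ) / k) = (∑ g ∈ Icc 1 M, (g.divisors.card : ℝ) / g) ^ 2 := by
    rw [sq, Finset.sum_mul_sum]
  rw [e1] at h1
  have h2 : ∑ g ∈ Icc 1 M, (g.divisors.card : ℝ) ^ 2 / g ≤
      (∑ g ∈ Icc 1 M, (g.divisors.card : ℝ) / g) ^ 2 := by
    refine le_trans (Finset.sum_le_sum fun g hg => ?_) h1
    have e2 : ∀ p ∈ g.divisorsAntidiagonal, (g.divisors.card : ℝ) / g ≤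
        (p.1.divisors.card : ℝ) / p.1 * ((p.2.divisors.card : ℝ) / p.2) := by
      intro p hp
      rw [Nat.mem_divisorsAntidiagonal] at hp
      rw [← hp.1, div_mul_div_comm]
      push_cast
      exact div_le_div_of_nonneg_right (d3_sub _ _) (by positivity)
    have e3 : (g.divisorsAntidiagonal.card : ℝ) = g.divisors.card := by
      congr 1
      have := congrArg Finset.card (Nat.map_div_right_divisors (n := g))
      rw [Finset.card_map] at this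
      exact this.symm
    calc (g.divisors.card : ℝ) ^ 2 / g = ∑ _p ∈ g.divisorsAntidiagonal,
          (g.divisors.card : ℝ) / g := by
          rw [Finset.sum_const, nsmul_eq_mul, e3]
          ring
      _ ≤ _ := Finset.sum_le_sum e2
  refine h2.trans ?_
  have h3 : 0 ≤ ∑ g ∈ Icc 1 M, (g.divisors.card : ℝ) / g :=
    Finset.sum_nonneg fun g _ => by positivity
  calc (∑ g ∈ Icc 1 M, (g.divisors.card : ℝ) / g) ^ 2 ≤
        ((∑ n ∈ Icc 1 M, (1 : ℝ) / n) ^ 2) ^ 2 := pow_le_pow_left₀ h3 (d3_one M) 2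
    _ = _ := by ring

private lemma d3_moeb (n : ℕ) :
    ∑ d ∈ n.divisors, (ArithmeticFunction.moebius d : ℤ) = if n = 1 then 1 else 0 := by
  have h := congrArg (fun f : ArithmeticFunction ℤ => f n) ArithmeticFunction.moebius_mul_coe_zeta
  simp only [ArithmeticFunction.coe_mul_zeta_apply] at h
  rw [h, ArithmeticFunction.one_apply]

/-- the Moebius sum over common divisors -/
private lemma d3_cop {M a b : ℕ} (ha : a ∈ Icc 1 M) :
    ∑ g ∈ Icc 1 M, (if g ∣ a ∧ g ∣ b then (ArithmeticFunction.moebius g : ℤ) else 0) =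
      if Nat.Coprime a b then 1 else 0 := by
  rw [Finset.mem_Icc] at ha
  have hg0 : Nat.gcd a b ≠ 0 := Nat.gcd_ne_zero_left (by omega)
  rw [← Finset.sum_filter]
  have e : (Icc 1 M).filter (fun g => g ∣ a ∧ g ∣ b) = (Nat.gcd a b).divisors := by
    ext g
    rw [Finset.mem_filter, Finset.mem_Icc, Nat.mem_divisors, Nat.dvd_gcd_iff]
    constructor
    · rintro ⟨_, h⟩
      exact ⟨h, hg0⟩
    · rintro ⟨h, _⟩
      refine ⟨⟨Nat.pos_of_dvd_of_pos h.1 (by omega), ?_⟩, h⟩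
      exact (Nat.le_of_dvd (by omega) h.1).trans ha.2
  rw [e, d3_moeb]

/-! ### the sum over the multiples of `g` -/

/-- the completely multiplicative function -/
private noncomputable def d3f (ξ : ℕ → ℝ) (τ : ℝ) (n : ℕ) : ℂ :=
  (ξ n : ℂ) * (n : ℂ) ^ (-(1 / 2 : ℂ) + Complex.I * τ)

private lemma d3f_mul {ξ : ℕ → ℝ} (hmul : ∀ m n, ξ (m * n) = ξ m * ξ n) (τ : ℝ) (m n : ℕ) :
    d3f ξ τ (m * n) = d3f ξ τ m * d3f ξ τ n := by
  unfold d3f
  rw [hmul]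
  push_cast
  rw [Complex.natCast_mul_natCast_cpow]
  ring

private lemma d3f_norm {ξ : ℕ → ℝ} (hξ : ∀ n, |ξ n| ≤ 1) (τ : ℝ) {n : ℕ} (hn : 0 < n) :
    ‖d3f ξ τ n‖ ^ 2 ≤ 1 / n := by
  unfold d3f
  rw [norm_mul, Complex.norm_natCast_cpow_of_pos hn, Complex.norm_real, Real.norm_eq_abs]
  have e : (-(1 / 2 : ℂ) + Complex.I * τ).re = -(1 / 2 : ℝ) := by
    simp
  rw [e, mul_pow]
  have hn' : (0 : ℝ) < n := by exact_mod_cast hn
  have e2 : ((n : ℝ) ^ (-(1 / 2 : ℝ))) ^ 2 = 1 / n := by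
    rw [← Real.rpow_natCast, ← Real.rpow_mul hn'.le]
    norm_num
    rw [Real.rpow_neg_one]
  rw [e2]
  have h1 : |ξ n| ^ 2 ≤ 1 := by
    have := hξ n
    have h0 := abs_nonneg (ξ n)
    nlinarith
  exact mul_le_of_le_one_left (by positivity) h1

/-- the sum over the multiples of `g` -/
private noncomputable def d3A (f : ℕ → ℂ) (V : ℕ → ℝ) (M q g : ℕ) : ℂ :=
  ∑ a ∈ (Icc 1 M).filter (fun a => g ∣ a ∧ Squarefree a ∧ Nat.Coprime a q), f a * V a

private lemma d3A_eq (ξ : ℕ → ℝ) (hmul : ∀ m n, ξ (m * n) = ξ m * ξ n) (τ : ℝ) (V : ℕ → ℝ)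
    (M q g : ℕ) (hM : ∀ n, M < n → V n = 0) (hg0 : 0 < g) (hg : Squarefree g)
    (hgq : Nat.Coprime g q) :
    d3A (d3f ξ τ) V M q g = d3f ξ τ g *
      ∑ n ∈ (Icc 1 M).filter (fun n => Squarefree n ∧ Nat.Coprime n (g * q)),
        d3f ξ τ n * V (g * n) := by
  have e1 : ∑ n ∈ (Icc 1 M).filter (fun n => Squarefree n ∧ Nat.Coprime n (g * q)),
        d3f ξ τ n * V (g * n) =
      ∑ n ∈ (Icc 1 M).filter (fun n => (Squarefree n ∧ Nat.Coprime n (g * q)) ∧ g * n ≤ M),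
        d3f ξ τ n * V (g * n) := by
    rw [Finset.sum_filter, Finset.sum_filter]
    refine Finset.sum_congr rfl fun n _ => ?_
    by_cases h1 : Squarefree n ∧ Nat.Coprime n (g * q)
    · by_cases h2 : g * n ≤ M
      · rw [if_pos h1, if_pos ⟨h1, h2⟩]
      · rw [if_pos h1, if_neg (fun h => h2 h.2), hM _ (by omega)]
        simp
    · rw [if_neg h1, if_neg (fun h => h1 h.1)]
  rw [e1, Finset.mul_sum]
  unfold d3A
  symm
  refine Finset.sum_nbij' (fun n => g * n) (fun a => a / g) ?_ ?_ ?_ ?_ ?_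
  · intro n hn
    rw [Finset.mem_filter, Finset.mem_Icc] at hn
    obtain ⟨⟨h1, h2⟩, ⟨h3, h4⟩, h5⟩ := hn
    rw [Nat.coprime_mul_iff_right] at h4
    rw [Finset.mem_filter, Finset.mem_Icc]
    refine ⟨⟨Nat.mul_pos hg0 h1, h5⟩, Dvd.intro _ rfl, ?_, ?_⟩
    · rw [Nat.squarefree_mul_iff]
      exact ⟨h4.1.symm, hg, h3⟩
    · exact Nat.Coprime.mul_left hgq h4.2
  · intro a ha
    rw [Finset.mem_filter, Finset.mem_Icc] at ha
    obtain ⟨⟨h1, h2⟩, ⟨c, rfl⟩, h4, h5⟩ := ha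
    rw [Nat.mul_div_cancel_left c hg0]
    rw [Nat.squarefree_mul_iff] at h4
    rw [Nat.coprime_mul_iff_left] at h5
    have hc : 0 < c := Nat.pos_of_ne_zero (by rintro rfl; simp at h1)
    rw [Finset.mem_filter, Finset.mem_Icc]
    refine ⟨⟨hc, le_trans (Nat.le_mul_of_pos_left c hg0) h2⟩, ⟨h4.2.2, ?_⟩, h2⟩
    exact Nat.Coprime.mul_right h4.1.symm h5.2
  · intro n _
    exact Nat.mul_div_cancel_left n hg0
  · intro a ha
    rw [Finset.mem_filter] at ha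
    exact Nat.mul_div_cancel' ha.2.1
  · intro n _
    rw [d3f_mul hmul]
    ring

private lemma d3A_zero (f : ℕ → ℂ) (V : ℕ → ℝ) (M q g : ℕ) (hgq : ¬ Nat.Coprime g q) :
    d3A f V M q g = 0 := by
  unfold d3A
  refine Finset.sum_eq_zero fun a ha => ?_
  rw [Finset.mem_filter] at ha
  exact absurd (Nat.Coprime.coprime_dvd_left ha.2.1 ha.2.2.2) hgq

private lemma d3A_bound (ξ : ℕ → ℝ) (hξ : ∀ n, |ξ n| ≤ 1) (hmul : ∀ m n, ξ (m * n) = ξ m * ξ n)
    (P : ℝ) (hP : 1 ≤ P) (hS : ∀ x : ℕ, |∑ n ∈ Icc 1 x, ξ n| ≤ P) (V : ℕ → ℝ) (C : ℝ)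
    (hV : ∀ n, |V n| ≤ C)
    (hL : ∀ m n : ℕ, 1 ≤ m → 1 ≤ n → |V m - V n| ≤ C * |Real.log m - Real.log n|)
    (M : ℕ) (hM1 : 1 ≤ M) (hM : ∀ n, M < n → V n = 0) (q : ℕ) (hq : 0 < q) (τ : ℝ)
    {g : ℕ} (hg0 : 0 < g) (hg : Squarefree g) :
    ‖d3A (d3f ξ τ) V M q g‖ ≤ ‖d3f ξ τ g‖ *
      (10 * C * (1 + |τ|) * √P * (g.divisors.card * q.divisors.card) * (1 + Real.log M)) := by
  have hC : 0 ≤ C := (abs_nonneg _).trans (hV 0)
  have hlog : 0 ≤ Real.log M := Real.log_natCast_nonneg M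
  have hg' : (0 : ℝ) < g := by exact_mod_cast hg0
  by_cases hgq : Nat.Coprime g q
  · rw [d3A_eq ξ hmul τ V M q g hM hg0 hg hgq, norm_mul]
    refine mul_le_mul_of_nonneg_left ?_ (norm_nonneg _)
    have h1 := sum_sqf ξ hξ hmul P hP hS (fun n => V (g * n)) C (fun n => hV _)
      (fun m n hm hn => by
        have h2 := hL (g * m) (g * n) (Nat.mul_pos hg0 hm) (Nat.mul_pos hg0 hn)
        have hm' : (0 : ℝ) < m := by exact_mod_cast hm
        have hn' : (0 : ℝ) < n := by exact_mod_cast hn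
        push_cast at h2
        rw [Real.log_mul hg'.ne' hm'.ne', Real.log_mul hg'.ne' hn'.ne'] at h2
        have e : Real.log g + Real.log m - (Real.log g + Real.log n) =
            Real.log m - Real.log n := by ring
        rwa [e] at h2) M hM1
      (fun n hn => hM _ (lt_of_lt_of_le hn (Nat.le_mul_of_pos_left n hg0))) (g * q)
      (Nat.mul_pos hg0 hq) τ
    refine le_trans (le_of_eq ?_) (h1.trans ?_)
    · rfl
    · have h3 := d3_sub g q
      have h4 : 0 ≤ 10 * C * (1 + |τ|) * √P := by positivity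
      exact mul_le_mul_of_nonneg_right (mul_le_mul_of_nonneg_left h3 h4) (by linarith)
  · rw [d3A_zero _ _ _ _ _ hgq, norm_zero]
    positivity

/-- the double sum as a sum over the common divisors -/
private lemma d3_split (f : ℕ → ℂ) (hf : ∀ m n, f (m * n) = f m * f n) (V₁ V₂ : ℕ → ℝ)
    (M q : ℕ) :
    (∑ a ∈ Icc 1 M, ∑ b ∈ Icc 1 M, if Squarefree (a * b) ∧ Nat.Coprime (a * b) q then
        f (a * b) * V₁ a * V₂ b else 0) =
      ∑ g ∈ Icc 1 M, ((ArithmeticFunction.moebius g : ℤ) : ℂ) *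
        (d3A f V₁ M q g * d3A f V₂ M q g) := by
  have e1 : ∀ (V : ℕ → ℝ) (g : ℕ), d3A f V M q g = ∑ a ∈ Icc 1 M,
      if g ∣ a ∧ Squarefree a ∧ Nat.Coprime a q then f a * V a else 0 := fun V g => by
    unfold d3A
    rw [Finset.sum_filter]
  have e2 : ∀ g : ℕ, ((ArithmeticFunction.moebius g : ℤ) : ℂ) *
        (d3A f V₁ M q g * d3A f V₂ M q g) = ∑ a ∈ Icc 1 M, ∑ b ∈ Icc 1 M,
        ((ArithmeticFunction.moebius g : ℤ) : ℂ) *
        ((if g ∣ a ∧ Squarefree a ∧ Nat.Coprime a q then f a * V₁ a else 0) *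
          (if g ∣ b ∧ Squarefree b ∧ Nat.Coprime b q then f b * V₂ b else 0)) := fun g => by
    rw [e1, e1, Finset.sum_mul_sum, Finset.mul_sum]
    refine Finset.sum_congr rfl fun a _ => ?_
    rw [Finset.mul_sum]
  simp only [e2]
  refine Eq.trans ?_ Finset.sum_comm
  refine Finset.sum_congr rfl fun a ha => ?_
  refine Eq.trans ?_ Finset.sum_comm
  refine Finset.sum_congr rfl fun b _ => ?_
  have hc := d3_cop (b := b) ha
  by_cases hab : Squarefree a ∧ Nat.Coprime a q ∧ Squarefree b ∧ Nat.Coprime b q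
  · obtain ⟨h1, h2, h3, h4⟩ := hab
    have e3 : ∀ g : ℕ, ((ArithmeticFunction.moebius g : ℤ) : ℂ) *
        ((if g ∣ a ∧ Squarefree a ∧ Nat.Coprime a q then f a * V₁ a else 0) *
          (if g ∣ b ∧ Squarefree b ∧ Nat.Coprime b q then f b * V₂ b else 0)) =
        ((if g ∣ a ∧ g ∣ b then (ArithmeticFunction.moebius g : ℤ) else 0 : ℤ) : ℂ) *
          (f (a * b) * V₁ a * V₂ b) := fun g => by
      rw [hf]
      by_cases ga : g ∣ a
      · by_cases gb : g ∣ b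
        · rw [if_pos ⟨ga, h1, h2⟩, if_pos ⟨gb, h3, h4⟩, if_pos ⟨ga, gb⟩]
          ring
        · have g1 : ¬ (g ∣ b ∧ Squarefree b ∧ Nat.Coprime b q) := fun h => gb h.1
          have g2 : ¬ (g ∣ a ∧ g ∣ b) := fun h => gb h.2
          rw [if_neg g1, if_neg g2]
          simp
      · have g1 : ¬ (g ∣ a ∧ Squarefree a ∧ Nat.Coprime a q) := fun h => ga h.1
        have g2 : ¬ (g ∣ a ∧ g ∣ b) := fun h => ga h.1
        rw [if_neg g1, if_neg g2]
        simp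
    simp only [e3]
    rw [← Finset.sum_mul, ← Int.cast_sum, hc]
    by_cases hcop : Nat.Coprime a b
    · have h5 : Squarefree (a * b) ∧ Nat.Coprime (a * b) q :=
        ⟨Nat.squarefree_mul_iff.2 ⟨hcop, h1, h3⟩, Nat.Coprime.mul_left h2 h4⟩
      rw [if_pos h5, if_pos hcop]
      simp
    · have h5 : ¬ (Squarefree (a * b) ∧ Nat.Coprime (a * b) q) := fun h =>
        hcop (Nat.squarefree_mul_iff.1 h.1).1
      rw [if_neg h5, if_neg hcop]
      simp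
  · have h5 : ¬ (Squarefree (a * b) ∧ Nat.Coprime (a * b) q) := fun h => hab
      ⟨(Nat.squarefree_mul_iff.1 h.1).2.1, (Nat.coprime_mul_iff_left.1 h.2).1,
        (Nat.squarefree_mul_iff.1 h.1).2.2, (Nat.coprime_mul_iff_left.1 h.2).2⟩
    rw [if_neg h5]
    symm
    refine Finset.sum_eq_zero fun g _ => ?_
    by_cases h6 : Squarefree a ∧ Nat.Coprime a q
    · have h7 : ¬ (g ∣ b ∧ Squarefree b ∧ Nat.Coprime b q) := fun h =>
        hab ⟨h6.1, h6.2, h.2.1, h.2.2⟩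
      rw [if_neg h7]
      simp
    · have h7 : ¬ (g ∣ a ∧ Squarefree a ∧ Nat.Coprime a q) := fun h => h6 h.2
      rw [if_neg h7]
      simp

theorem sum_two (ξ : ℕ → ℝ) (hξ : ∀ n, |ξ n| ≤ 1) (hmul : ∀ m n, ξ (m * n) = ξ m * ξ n)
    (P : ℝ) (hP : 1 ≤ P)
    (hS : ∀ x : ℕ, |∑ n ∈ Icc 1 x, ξ n| ≤ P) (V₁ V₂ : ℕ → ℝ) (C : ℝ)
    (hV₁ : ∀ n, |V₁ n| ≤ C) (hV₂ : ∀ n, |V₂ n| ≤ C)
    (hL₁ : ∀ m n : ℕ, 1 ≤ m → 1 ≤ n → |V₁ m - V₁ n| ≤ C * |Real.log m - Real.log n|)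
    (hL₂ : ∀ m n : ℕ, 1 ≤ m → 1 ≤ n → |V₂ m - V₂ n| ≤ C * |Real.log m - Real.log n|)
    (M : ℕ) (hM1 : 1 ≤ M) (hM₁ : ∀ n, M < n → V₁ n = 0) (hM₂ : ∀ n, M < n → V₂ n = 0)
    (q : ℕ) (hq : 0 < q) (τ : ℝ) :
    ‖∑ a ∈ Icc 1 M, ∑ b ∈ Icc 1 M, if Squarefree (a * b) ∧ Nat.Coprime (a * b) q then
        (ξ (a * b) : ℂ) * ((a * b : ℕ) : ℂ) ^ (-(1 / 2 : ℂ) + Complex.I * τ) * V₁ a * V₂ b else 0‖ ≤
      100 * C ^ 2 * (1 + |τ|) ^ 2 * P * (q.divisors.card : ℝ) ^ 2 * (1 + Real.log M) ^ 6 := by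
  have hC : 0 ≤ C := (abs_nonneg _).trans (hV₁ 0)
  have hlog : 0 ≤ Real.log M := Real.log_natCast_nonneg M
  have h0 := d3_split (d3f ξ τ) (d3f_mul hmul τ) V₁ V₂ M q
  have h1 : (∑ a ∈ Icc 1 M, ∑ b ∈ Icc 1 M, if Squarefree (a * b) ∧ Nat.Coprime (a * b) q then
        (ξ (a * b) : ℂ) * ((a * b : ℕ) : ℂ) ^ (-(1 / 2 : ℂ) + Complex.I * τ) * V₁ a * V₂ b
        else 0) = ∑ g ∈ Icc 1 M, ((ArithmeticFunction.moebius g : ℤ) : ℂ) *
        (d3A (d3f ξ τ) V₁ M q g * d3A (d3f ξ τ) V₂ M q g) := h0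
  rw [h1]
  set D := 10 * C * (1 + |τ|) * √P * q.divisors.card * (1 + Real.log M) with hD
  have hD0 : 0 ≤ D := by positivity
  have h2 : ∀ g ∈ Icc 1 M, ‖((ArithmeticFunction.moebius g : ℤ) : ℂ) *
        (d3A (d3f ξ τ) V₁ M q g * d3A (d3f ξ τ) V₂ M q g)‖ ≤
      D ^ 2 * ((g.divisors.card : ℝ) ^ 2 / g) := by
    intro g hg
    rw [Finset.mem_Icc] at hg
    by_cases hsq : Squarefree g
    · have b1 := d3A_bound ξ hξ hmul P hP hS V₁ C hV₁ hL₁ M hM1 hM₁ q hq τ hg.1 hsq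
      have b2 := d3A_bound ξ hξ hmul P hP hS V₂ C hV₂ hL₂ M hM1 hM₂ q hq τ hg.1 hsq
      have e1 : 10 * C * (1 + |τ|) * √P * (g.divisors.card * q.divisors.card) *
          (1 + Real.log M) = D * g.divisors.card := by rw [hD]; ring
      rw [e1] at b1 b2
      have hmu : ‖((ArithmeticFunction.moebius g : ℤ) : ℂ)‖ ≤ 1 := by
        rw [Complex.norm_intCast]
        exact_mod_cast ArithmeticFunction.abs_moebius_le_one
      have hfn := d3f_norm hξ τ hg.1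
      rw [norm_mul, norm_mul]
      calc ‖((ArithmeticFunction.moebius g : ℤ) : ℂ)‖ *
            (‖d3A (d3f ξ τ) V₁ M q g‖ * ‖d3A (d3f ξ τ) V₂ M q g‖)
          ≤ 1 * ((‖d3f ξ τ g‖ * (D * g.divisors.card)) *
              (‖d3f ξ τ g‖ * (D * g.divisors.card))) :=
            mul_le_mul hmu (mul_le_mul b1 b2 (norm_nonneg _) (by positivity)) (by positivity)
              zero_le_one
        _ = ‖d3f ξ τ g‖ ^ 2 * (D ^ 2 * (g.divisors.card : ℝ) ^ 2) := by ring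
        _ ≤ 1 / g * (D ^ 2 * (g.divisors.card : ℝ) ^ 2) :=
            mul_le_mul_of_nonneg_right hfn (by positivity)
        _ = _ := by ring
    · rw [ArithmeticFunction.moebius_eq_zero_of_not_squarefree hsq]
      simp only [Int.cast_zero, zero_mul, norm_zero]
      positivity
  refine (norm_sum_le _ _).trans ((Finset.sum_le_sum h2).trans ?_)
  rw [← Finset.mul_sum]
  have h3 : ∑ g ∈ Icc 1 M, (g.divisors.card : ℝ) ^ 2 / g ≤ (1 + Real.log M) ^ 4 :=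
    (d3_two M).trans (pow_le_pow_left₀ (Finset.sum_nonneg fun n _ => by positivity)
      (d3_harm M) 4)
  calc D ^ 2 * ∑ g ∈ Icc 1 M, (g.divisors.card : ℝ) ^ 2 / g ≤ D ^ 2 * (1 + Real.log M) ^ 4 :=
        mul_le_mul_of_nonneg_left h3 (sq_nonneg _)
    _ = 100 * C ^ 2 * (1 + |τ|) ^ 2 * (√P ^ 2) * (q.divisors.card : ℝ) ^ 2 *
          (1 + Real.log M) ^ 6 := by rw [hD]; ring
    _ = _ := by rw [Real.sq_sqrt (by linarith)]

end Pool.Agent.MP0016c7.Rz
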