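import Mathlib
import Pool.Agent.Lib.MP_0016c7_nt.Theta
import Pool.Agent.Lib.MP_0016c7_nt.Rz.Defs
import Pool.Agent.Lib.MP_0016c7_nt.Rz.DefsC
import Pool.Agent.Lib.MP_0016c7_nt.Rz.DefsF
import Pool.Agent.Lib.MP_0016c7_nt.Rz.DefsE

set_option autoImplicit false

open Finset MeasureTheory Filter Topology
open scoped Real ContDiff

namespace Pool.Agent.MP0016c7.Rz

theorem sum_gcd_split (k : ℕ) (hk : 0 < k) (M : ℕ) (f : ℕ → ℂ)
    (hf : ∀ n, 1 ≤ n → ¬ Nat.Coprime (n / Nat.gcd n (k ^ 2)) k → f n = 0) :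
    ∑ n ∈ Icc 1 M, f n = ∑ b ∈ (k ^ 2).divisors, ∑ a ∈ Icc 1 M,
      if Nat.Coprime a k ∧ a * b ≤ M then f (a * b) else 0 := by
  have hk2 : k ^ 2 ≠ 0 := pow_ne_zero 2 hk.ne'
  rw [← Finset.sum_product' (f := fun b a => if Nat.Coprime a k ∧ a * b ≤ M then f (a * b) else 0),
    ← Finset.sum_filter,
    ← Finset.sum_filter_of_ne (s := Icc 1 M)
      (p := fun n => Nat.Coprime (n / Nat.gcd n (k ^ 2)) k) (fun n hn h0 => by
        by_contra hc
        exact h0 (hf n (Finset.mem_Icc.1 hn).1 hc))]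
  refine Finset.sum_nbij' (fun n => (Nat.gcd n (k ^ 2), n / Nat.gcd n (k ^ 2)))
    (fun p => p.2 * p.1) ?_ ?_ ?_ ?_ ?_
  · intro n hn
    simp only [Finset.mem_filter, Finset.mem_Icc] at hn
    obtain ⟨⟨h1, h2⟩, h3⟩ := hn
    have hg : Nat.gcd n (k ^ 2) ∣ n := Nat.gcd_dvd_left _ _
    have hmul : n / Nat.gcd n (k ^ 2) * Nat.gcd n (k ^ 2) = n := Nat.div_mul_cancel hg
    have hpos : 0 < n / Nat.gcd n (k ^ 2) := Nat.div_pos (Nat.le_of_dvd (by omega) hg)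
      (Nat.gcd_pos_of_pos_left _ (by omega))
    simp only [Finset.mem_filter, Finset.mem_product, Nat.mem_divisors, Finset.mem_Icc, hmul]
    exact ⟨⟨⟨Nat.gcd_dvd_right _ _, hk2⟩, hpos, (Nat.div_le_self _ _).trans h2⟩, h3, h2⟩
  · rintro ⟨b, a⟩ hp
    simp only [Finset.mem_filter, Finset.mem_product, Nat.mem_divisors, Finset.mem_Icc] at hp
    obtain ⟨⟨⟨hb, -⟩, ha1, ha2⟩, hc, hM⟩ := hp
    have hb0 : 0 < b := Nat.pos_of_dvd_of_pos hb (Nat.pos_of_ne_zero hk2)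
    have hg : Nat.gcd (a * b) (k ^ 2) = b := by
      rw [Nat.Coprime.gcd_mul_left_cancel b (Nat.Coprime.pow_right 2 hc)]
      exact Nat.gcd_eq_left hb
    simp only [Finset.mem_filter, Finset.mem_Icc, hg, Nat.mul_div_cancel a hb0]
    exact ⟨⟨Nat.mul_pos (by omega) hb0, hM⟩, hc⟩
  · intro n hn
    exact Nat.div_mul_cancel (Nat.gcd_dvd_left _ _)
  · rintro ⟨b, a⟩ hp
    simp only [Finset.mem_filter, Finset.mem_product, Nat.mem_divisors, Finset.mem_Icc] at hp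
    obtain ⟨⟨⟨hb, -⟩, ha1, ha2⟩, hc, hM⟩ := hp
    have hb0 : 0 < b := Nat.pos_of_dvd_of_pos hb (Nat.pos_of_ne_zero hk2)
    have hg : Nat.gcd (a * b) (k ^ 2) = b := by
      rw [Nat.Coprime.gcd_mul_left_cancel b (Nat.Coprime.pow_right 2 hc)]
      exact Nat.gcd_eq_left hb
    simp only [hg, Nat.mul_div_cancel a hb0]
  · intro n hn
    simp only
    rw [Nat.div_mul_cancel (Nat.gcd_dvd_left _ _)]

end Pool.Agent.MP0016c7.Rz
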