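import Mathlib
import Pool.Agent.Lib.MP_0016c7_nt.Theta
import Pool.Agent.Lib.MP_0016c7_nt.Rz.Defs
import Pool.Agent.Lib.MP_0016c7_nt.Rz.DefsC
import Pool.Agent.Lib.MP_0016c7_nt.Rz.DefsF
import Pool.Agent.Lib.MP_0016c7_nt.Rz.DefsE
import Pool.Agent.Lib.MP_0016c7_nt.Rz.PV1
import Pool.Agent.Lib.MP_0016c7_nt.Rz.DivB

set_option autoImplicit false

open Finset MeasureTheory Filter Topology
open scoped Real ContDiff

namespace Pool.Agent.MP0016c7.Rz

open NumberTheorySymbols jacobiSym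

/-- an odd prime with odd valuation -/
private lemma pvjr_odd_prime {k : ℤ} (hk : k ≠ 0) {p : ℕ} (hp : p.Prime) (hp2 : p ≠ 2)
    (ho : Odd (k.natAbs.factorization p)) :
    ∃ n : ℕ, Odd n ∧ jacobiSym k n = -1 := by
  have : Fact p.Prime := ⟨hp⟩
  set e := k.natAbs.factorization p with he
  have hK : k.natAbs ≠ 0 := Int.natAbs_ne_zero.mpr hk
  obtain ⟨l, hl⟩ : ∃ l : ℤ, k = (p : ℤ) ^ e * l := by
    have h1 : p ^ e ∣ k.natAbs := Nat.ordProj_dvd _ _
    have h2 : ((p ^ e : ℕ) : ℤ) ∣ k := Int.natCast_dvd.mpr h1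
    obtain ⟨l, hl⟩ := h2
    exact ⟨l, by rw [hl]; push_cast; ring⟩
  have hl0 : l ≠ 0 := by
    rintro rfl
    exact hk (by rw [hl, mul_zero])
  have hpl : ¬ p ∣ l.natAbs := by
    intro h
    have h1 : p ^ (e + 1) ∣ k.natAbs := by
      rw [hl, Int.natAbs_mul, Int.natAbs_pow, Int.natAbs_natCast, pow_succ]
      exact Nat.mul_dvd_mul_left _ h
    have h2 := (hp.pow_dvd_iff_le_factorization hK).mp h1
    omega
  have hpodd : Odd p := hp.odd_of_ne_two hp2
  have hcop : Nat.Coprime p (4 * l.natAbs) := by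
    rw [Nat.Prime.coprime_iff_not_dvd hp]
    intro h
    rcases hp.dvd_mul.mp h with h | h
    · have h1 : p ∣ 2 ^ 2 := by simpa using h
      have h2 := hp.dvd_of_dvd_pow h1
      exact hp2 ((Nat.prime_dvd_prime_iff_eq hp Nat.prime_two).mp h2)
    · exact hpl h
  -- a nonresidue
  obtain ⟨g, hg⟩ : ∃ g : ℕ, jacobiSym g p = -1 := by
    obtain ⟨a, ha⟩ := FiniteField.exists_nonsquare (F := ZMod p) (by
      rw [ZMod.ringChar_zmod_n]; exact hp2)
    refine ⟨a.val, ?_⟩
    have h1 : ¬ IsSquare ((a.val : ℤ) : ZMod p) := by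
      rw [Int.cast_natCast, ZMod.natCast_zmod_val]
      exact ha
    exact ZMod.nonsquare_iff_jacobiSym_eq_neg_one.mpr h1
  obtain ⟨n, hn1, hn2⟩ := Nat.chineseRemainder hcop g 1
  have hl1 : 1 ≤ l.natAbs := Nat.one_le_iff_ne_zero.mpr (Int.natAbs_ne_zero.mpr hl0)
  have hn4 : n % 4 = 1 := by
    have h1 : n ≡ 1 [MOD 4] := Nat.ModEq.of_mul_right _ hn2
    exact h1
  have hnodd : Odd n := by
    rw [Nat.odd_iff]
    omega
  refine ⟨n, hnodd, ?_⟩
  rw [hl, jacobiSym.mul_left, jacobiSym.pow_left]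
  have h1 : jacobiSym l n = 1 := by
    rw [jacobiSym.mod_right l hnodd]
    have h2 : n % (4 * l.natAbs) = 1 := by
      rw [hn2]
      exact Nat.mod_eq_of_lt (by omega)
    rw [h2, jacobiSym.one_right]
  have h2 : jacobiSym (p : ℤ) n = -1 := by
    rw [jacobiSym.quadratic_reciprocity_one_mod_four' hpodd hn4]
    rw [jacobiSym.mod_left' (a₂ := (g : ℤ)) (by exact_mod_cast hn1)]
    exact hg
  rw [h1, h2, mul_one]
  exact Odd.neg_one_pow ho

/-- `k = u s²` with `u = -1, 2, -2` -/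
private lemma pvjr_two {u : ℤ} {s : ℕ} (hs : s ≠ 0) (hu : u = -1 ∨ u = 2 ∨ u = -2) :
    ∃ n : ℕ, Odd n ∧ jacobiSym (u * (s : ℤ) ^ 2) n = -1 := by
  obtain ⟨j, s', hs', hss⟩ : ∃ j s', Odd s' ∧ s = 2 ^ j * s' := by
    obtain ⟨j, s', h1, h2⟩ := Nat.exists_eq_two_pow_mul_odd hs
    exact ⟨j, s', h1, h2⟩
  have hcop : Nat.Coprime 8 s' := by
    have : Nat.Coprime (2 ^ 3) s' := Nat.Coprime.pow_left 3 ((Nat.coprime_two_left).mpr hs')
    simpa using this
  obtain ⟨n, hn1, hn2⟩ := Nat.chineseRemainder hcop (if u = 2 then 5 else 7) 1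
  have hn8 : n % 8 = if u = 2 then 5 else 7 := by
    have h1 : n % 8 = (if u = 2 then 5 else 7) % 8 := hn1
    rw [h1]
    split_ifs <;> rfl
  have hnodd : Odd n := by
    rw [Nat.odd_iff]
    split_ifs at hn8 <;> omega
  have hns : Nat.Coprime s n := by
    rw [hss]
    refine Nat.Coprime.mul_left ?_ ?_
    · exact Nat.Coprime.pow_left _ ((Nat.coprime_two_left).mpr hnodd)
    · rw [Nat.coprime_comm]
      have h1 : Nat.gcd n s' = Nat.gcd 1 s' := Nat.ModEq.gcd_eq hn2
      rw [Nat.Coprime, h1]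
      simp
  refine ⟨n, hnodd, ?_⟩
  rw [jacobiSym.mul_left, jacobiSym.sq_one' (by simpa [Int.gcd_natCast_natCast] using hns), mul_one]
  rcases hu with hu | hu | hu
  · subst hu
    rw [if_neg (by norm_num)] at hn8
    rw [jacobiSym.at_neg_one hnodd, ZMod.χ₄_nat_mod_four]
    have : n % 4 = 3 := by omega
    rw [this]
    decide
  · subst hu
    rw [if_pos rfl] at hn8
    rw [jacobiSym.at_two hnodd, ZMod.χ₈_nat_mod_eight, hn8]
    decide
  · subst hu
    rw [if_neg (by norm_num)] at hn8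
    rw [jacobiSym.at_neg_two hnodd, ZMod.χ₈'_nat_eq_if_mod_eight]
    have h1 : n % 2 ≠ 0 := by omega
    simp [h1, hn8]

private lemma pvjr_neg {k : ℤ} (hk : ¬ IsSquare k) : ∃ n : ℕ, Odd n ∧ jacobiSym k n = -1 := by
  have hk0 : k ≠ 0 := by
    rintro rfl
    exact hk ⟨0, by simp⟩
  by_cases hp : ∃ p : ℕ, p.Prime ∧ p ≠ 2 ∧ Odd (k.natAbs.factorization p)
  · obtain ⟨p, h1, h2, h3⟩ := hp
    exact pvjr_odd_prime hk0 h1 h2 h3
  · push Not at hp
    have hK : 0 < k.natAbs := Int.natAbs_pos.mpr hk0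
    obtain ⟨a, b, ha, hb, hab, hsq⟩ := Nat.sq_mul_squarefree_of_pos hK
    have h1 : ∀ p ∈ a.primeFactors, p = 2 := by
      intro p hpa
      by_contra hp2
      have hpp := Nat.prime_of_mem_primeFactors hpa
      have h2 := hp p hpp hp2
      have h3 : k.natAbs.factorization p = 2 * b.factorization p + a.factorization p := by
        rw [← hab, Nat.factorization_mul (pow_ne_zero 2 hb.ne') ha.ne', Nat.factorization_pow]
        simp
      have h4 : a.factorization p = 1 := by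
        have h5 := hsq.natFactorization_le_one p
        have h6 := (hpp.dvd_iff_one_le_factorization ha.ne').mp (Nat.dvd_of_mem_primeFactors hpa)
        omega
      rw [h3, h4] at h2
      exact (Nat.not_even_iff_odd.mpr ⟨b.factorization p, rfl⟩) (Nat.not_odd_iff_even.mp h2)
    have h2 : a = 1 ∨ a = 2 := by
      have h3 := Nat.prod_primeFactors_of_squarefree hsq
      have h4 : a.primeFactors ⊆ {2} := fun p hp' => by simpa using h1 p hp'
      rcases Finset.subset_singleton_iff.mp h4 with h5 | h5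
      · rw [h5] at h3
        left
        simpa using h3.symm
      · rw [h5] at h3
        right
        simpa using h3.symm
    have hkk : k = (k.natAbs : ℤ) ∨ k = -(k.natAbs : ℤ) := Int.natAbs_eq k
    rw [← hab] at hkk
    rcases h2 with rfl | rfl
    · rcases hkk with h | h
      · exfalso
        apply hk
        refine ⟨b, ?_⟩
        rw [h]
        push_cast
        ring
      · obtain ⟨n, hn1, hn2⟩ := pvjr_two (u := -1) hb.ne' (Or.inl rfl)
        refine ⟨n, hn1, ?_⟩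
        rw [← hn2, h]
        congr 1
        push_cast
        ring
    · rcases hkk with h | h
      · obtain ⟨n, hn1, hn2⟩ := pvjr_two (u := 2) hb.ne' (Or.inr (Or.inl rfl))
        refine ⟨n, hn1, ?_⟩
        rw [← hn2, h]
        congr 1
        push_cast
        ring
      · obtain ⟨n, hn1, hn2⟩ := pvjr_two (u := -2) hb.ne' (Or.inr (Or.inr rfl))
        refine ⟨n, hn1, ?_⟩
        rw [← hn2, h]
        congr 1
        push_cast
        ring

private lemma pvjr_mod (k : ℤ) (n : ℕ) : jr k (n % (4 * k.natAbs)) = jr k n := by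
  unfold jr
  have h1 : Odd (n % (4 * k.natAbs)) ↔ Odd n := by
    rw [Nat.odd_iff, Nat.odd_iff, Nat.mod_mod_of_dvd n (Dvd.intro (2 * k.natAbs) (by ring))]
  by_cases hn : Odd n
  · rw [if_pos hn, if_pos (h1.mpr hn), ← jacobiSym.mod_right k hn]
  · rw [if_neg hn, if_neg (fun h => hn (h1.mp h))]

private lemma pvjr_mul (k : ℤ) (m n : ℕ) : jr k (m * n) = jr k m * jr k n := by
  unfold jr
  by_cases hm : Odd m
  · by_cases hn : Odd n
    · rw [if_pos hm, if_pos hn, if_pos (hm.mul hn)]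
      have h1 : NeZero m := ⟨hm.pos.ne'⟩
      have h2 : NeZero n := ⟨hn.pos.ne'⟩
      rw [jacobiSym.mul_right]
      push_cast
      ring
    · rw [if_neg hn, if_neg (fun h => hn (Nat.odd_mul.mp h).2), mul_zero]
  · rw [if_neg hm, if_neg (fun h => hm (Nat.odd_mul.mp h).1), zero_mul]

/-- the character of `jr k` -/
private noncomputable def pvjrChar (k : ℤ) (hk : k ≠ 0) : DirichletCharacter ℂ (4 * k.natAbs) where
  toFun n := (jr k n.val : ℂ)
  map_one' := by
    have : Fact (1 < 4 * k.natAbs) := ⟨by have := Int.natAbs_pos.mpr hk; omega⟩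
    rw [ZMod.val_one]
    simp [jr, odd_one]
  map_mul' m n := by
    rw [ZMod.val_mul, pvjr_mod, pvjr_mul]
    push_cast
    ring
  map_nonunit' n hn := by
    have : NeZero (4 * k.natAbs) := ⟨by have := Int.natAbs_pos.mpr hk; omega⟩
    by_cases ho : Odd n.val
    · have h1 : ¬ Nat.Coprime n.val (4 * k.natAbs) := by
        intro h
        apply hn
        have := (ZMod.isUnit_iff_coprime n.val (4 * k.natAbs)).mpr h
        simpa using this
      have h2 : ¬ Nat.Coprime n.val k.natAbs := by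
        intro h
        apply h1
        have h3 : Nat.Coprime n.val (2 ^ 2) := Nat.Coprime.pow_right 2 (Nat.coprime_two_right.mpr ho)
        exact Nat.Coprime.mul_right (by simpa using h3) h
      have h4 : NeZero n.val := ⟨ho.pos.ne'⟩
      have h5 : jacobiSym k n.val = 0 := by
        rw [jacobiSym.eq_zero_iff_not_coprime]
        intro h
        apply h2
        rw [Nat.coprime_comm]
        rw [Int.gcd, Int.natAbs_natCast] at h
        exact h
      simp [jr, ho, h5]
    · simp [jr, ho]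

private lemma pvjr_char_apply (k : ℤ) (hk : k ≠ 0) (n : ℕ) :
    pvjrChar k hk (n : ZMod (4 * k.natAbs)) = (jr k n : ℂ) := by
  change (jr k (n : ZMod (4 * k.natAbs)).val : ℂ) = _
  rw [ZMod.val_natCast, pvjr_mod]

theorem pv_jr (ε : ℝ) (hε : 0 < ε) : ∃ C : ℝ, 0 < C ∧ ∀ k : ℤ, ¬ IsSquare k → ∀ x : ℕ,
    |∑ n ∈ Icc 1 x, jr k n| ≤ C * |(k : ℝ)| ^ (1 / 2 + ε) := by
  obtain ⟨C, hC, hCd⟩ := divisor_bound (ε / 2) (by positivity)
  refine ⟨C * (1 + 1 / (ε / 2)) * 4 ^ (1 / 2 + ε), by positivity, fun k hk x => ?_⟩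
  have hk0 : k ≠ 0 := by
    rintro rfl
    exact hk ⟨0, by simp⟩
  have hK : 0 < k.natAbs := Int.natAbs_pos.mpr hk0
  have hq : 0 < 4 * k.natAbs := by omega
  have : NeZero (4 * k.natAbs) := ⟨hq.ne'⟩
  have hne : pvjrChar k hk0 ≠ 1 := by
    intro h
    obtain ⟨n, hn1, hn2⟩ := pvjr_neg hk
    have h1 := pvjr_char_apply k hk0 n
    have h2 : (jr k n : ℂ) = -1 := by simp [jr, hn1, hn2]
    rw [h2, h] at h1
    by_cases hu : IsUnit (n : ZMod (4 * k.natAbs))
    · rw [MulChar.one_apply hu] at h1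
      norm_num at h1
    · rw [MulChar.map_nonunit _ hu] at h1
      norm_num at h1
  have h1 := polya_vinogradov (pvjrChar k hk0) hne (x + 1)
  have h2 : ∑ n ∈ range (x + 1), pvjrChar k hk0 (n : ZMod (4 * k.natAbs)) =
      ((∑ n ∈ Icc 1 x, jr k n : ℝ) : ℂ) := by
    rw [Finset.range_eq_Ico, Finset.sum_eq_sum_Ico_succ_bot (by omega)]
    rw [pvjr_char_apply]
    have h3 : jr k 0 = 0 := by simp [jr]
    rw [h3]
    push_cast
    rw [zero_add, show Icc 1 x = Ico (0 + 1) (x + 1) by ext; simp]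
    exact Finset.sum_congr rfl fun n _ => pvjr_char_apply k hk0 n
  rw [h2, Complex.norm_real, Real.norm_eq_abs] at h1
  refine h1.trans ?_
  set q : ℝ := ((4 * k.natAbs : ℕ) : ℝ) with hqdef
  have hq1 : 1 ≤ q := by
    rw [hqdef]
    exact_mod_cast hq
  have hq0 : 0 < q := by linarith
  have h3 : ((4 * k.natAbs).divisors.card : ℝ) ≤ C * q ^ (ε / 2) := hCd _ hq
  have h4 : 1 + Real.log q ≤ (1 + 1 / (ε / 2)) * q ^ (ε / 2) := by
    have h5 := Real.log_le_rpow_div hq0.le (by positivity : 0 < ε / 2)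
    have h6 : 1 ≤ q ^ (ε / 2) := Real.one_le_rpow hq1 (by positivity)
    have h7 : q ^ (ε / 2) / (ε / 2) = 1 / (ε / 2) * q ^ (ε / 2) := by ring
    rw [h7] at h5
    linarith
  have h5 : √q = q ^ (1 / 2 : ℝ) := Real.sqrt_eq_rpow q
  have hlog : 0 ≤ 1 + Real.log q := by
    have := Real.log_nonneg hq1
    linarith
  calc ((4 * k.natAbs).divisors.card : ℝ) * (√q * (1 + Real.log q))
      ≤ (C * q ^ (ε / 2)) * (q ^ (1 / 2 : ℝ) * ((1 + 1 / (ε / 2)) * q ^ (ε / 2))) := by
        rw [h5]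
        gcongr
    _ = C * (1 + 1 / (ε / 2)) * (q ^ (ε / 2) * q ^ (1 / 2 : ℝ) * q ^ (ε / 2)) := by ring
    _ = C * (1 + 1 / (ε / 2)) * q ^ (1 / 2 + ε) := by
        rw [← Real.rpow_add hq0, ← Real.rpow_add hq0]
        congr 2
        ring
    _ = C * (1 + 1 / (ε / 2)) * 4 ^ (1 / 2 + ε) * |(k : ℝ)| ^ (1 / 2 + ε) := by
        have h6 : q = 4 * |(k : ℝ)| := by
          rw [hqdef]
          push_cast
          rw [Nat.cast_natAbs]
          push_cast
          ring
        rw [h6, Real.mul_rpow (by norm_num) (abs_nonneg _)]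
        ring

end Pool.Agent.MP0016c7.Rz
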