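import Mathlib
import Pool.Agent.Lib.MP_0016c7_nt.Theta
import Pool.Agent.Lib.MP_0016c7_nt.Rz.Defs
import Pool.Agent.Lib.MP_0016c7_nt.Rz.DefsC
import Pool.Agent.Lib.MP_0016c7_nt.Rz.DefsF
import Pool.Agent.Lib.MP_0016c7_nt.Rz.DefsE
import Pool.Agent.Lib.MP_0016c7_nt.Rz.ErrD3
import Pool.Agent.Lib.MP_0016c7_nt.Rz.ErrD4a
import Pool.Agent.Lib.MP_0016c7_nt.Rz.ArithA2
import Pool.Agent.Lib.MP_0016c7_nt.Rz.ArithA3
import Pool.Agent.Lib.MP_0016c7_nt.Rz.ArithA4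
import Pool.Agent.Lib.MP_0016c7_nt.Rz.PVjr
import Pool.Agent.Lib.MP_0016c7_nt.Rz.DivB

set_option autoImplicit false

open Finset MeasureTheory Filter Topology
open scoped Real ContDiff

namespace Pool.Agent.MP0016c7.Rz

private theorem sk_jr_abs (k : ℤ) (n : ℕ) : |jr k n| ≤ 1 := by
  unfold jr
  split_ifs with h
  · rcases jacobiSym.trichotomy k n with h | h | h <;> rw [h] <;> simp
  · simp

private theorem sk_jr_mul (k : ℤ) (m n : ℕ) : jr k (m * n) = jr k m * jr k n := by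
  unfold jr
  by_cases hm : Odd m
  · by_cases hn : Odd n
    · rw [if_pos (hm.mul hn), if_pos hm, if_pos hn]
      have : NeZero m := ⟨hm.pos.ne'⟩
      have : NeZero n := ⟨hn.pos.ne'⟩
      rw [jacobiSym.mul_right]
      push_cast
      ring
    · rw [if_neg (fun h => hn (Nat.odd_mul.1 h).2), if_neg hn, mul_zero]
  · rw [if_neg (fun h => hm (Nat.odd_mul.1 h).1), if_neg hm, zero_mul]

private theorem sk_coprime (k : ℤ) (hk : k ≠ 0) (N : ℕ) (hN : Odd N) (h : gg k N ≠ 0) (n : ℕ)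
    (hn : n ∣ N) : Nat.Coprime (n / Nat.gcd n (k.natAbs ^ 2)) k.natAbs := by
  have hk0 : k.natAbs ≠ 0 := Int.natAbs_ne_zero.2 hk
  have hN0 : N ≠ 0 := hN.pos.ne'
  have hn0 : n ≠ 0 := fun h => hN0 (by rw [h] at hn; exact Nat.eq_zero_of_zero_dvd hn)
  rw [Nat.coprime_iff_gcd_eq_one]
  by_contra hc
  obtain ⟨p, hp, hpd⟩ := Nat.exists_prime_and_dvd hc
  have h1 : p ∣ n / Nat.gcd n (k.natAbs ^ 2) := hpd.trans (Nat.gcd_dvd_left _ _)
  have h2 : p ∣ k.natAbs := hpd.trans (Nat.gcd_dvd_right _ _)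
  have hg : Nat.gcd n (k.natAbs ^ 2) ∣ n := Nat.gcd_dvd_left _ _
  have hg0 : Nat.gcd n (k.natAbs ^ 2) ≠ 0 := Nat.gcd_ne_zero_left hn0
  have h3 : (n / Nat.gcd n (k.natAbs ^ 2)).factorization p =
      n.factorization p - (Nat.gcd n (k.natAbs ^ 2)).factorization p := by
    rw [Nat.factorization_div hg]
    rfl
  have h4 : (Nat.gcd n (k.natAbs ^ 2)).factorization p =
      min (n.factorization p) ((k.natAbs ^ 2).factorization p) := by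
    rw [Nat.factorization_gcd hn0 (pow_ne_zero 2 hk0)]
    rfl
  have h5 : (k.natAbs ^ 2).factorization p = 2 * k.natAbs.factorization p := by
    rw [Nat.factorization_pow]
    rfl
  have h6 : 1 ≤ (n / Nat.gcd n (k.natAbs ^ 2)).factorization p := by
    refine (hp.dvd_iff_one_le_factorization ?_).1 h1
    exact (Nat.div_pos (Nat.le_of_dvd (Nat.pos_of_ne_zero hn0) hg)
      (Nat.pos_of_ne_zero hg0)).ne'
  have h7 : 1 ≤ k.natAbs.factorization p := (hp.dvd_iff_one_le_factorization hk0).1 h2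
  have h8 := gg_ne_zero k hk N hN h p hp
  have h9 : n.factorization p ≤ N.factorization p :=
    (Nat.factorization_le_iff_dvd hn0 hN0).2 hn p
  omega

private theorem sk_factor (k : ℤ) (hk : k ≠ 0) (a B : ℕ) (ha : Odd a) (hB : Odd B)
    (hak : Nat.Coprime a k.natAbs) : gg k (a * B) =
      if Squarefree a ∧ Nat.Coprime a B then jr k a / √(a : ℝ) * gg k B else 0 := by
  have hk0 : k.natAbs ≠ 0 := Int.natAbs_ne_zero.2 hk
  split_ifs with h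
  · rw [gg_mul k h.2 ha hB, gg_coprime k a ha hak, if_pos h.1]
  · by_contra hc
    have key : ∀ p : ℕ, p.Prime → p ∣ a → (a * B).factorization p ≤ 1 := by
      intro p hp hpa
      have h1 := gg_ne_zero k hk (a * B) (ha.mul hB) hc p hp
      have h2 : k.natAbs.factorization p = 0 := by
        apply Nat.factorization_eq_zero_of_not_dvd
        intro h3
        exact Nat.Prime.not_dvd_one hp (hak ▸ Nat.dvd_gcd hpa h3)
      omega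
    have hf : ∀ p, (a * B).factorization p = a.factorization p + B.factorization p := by
      intro p
      rw [Nat.factorization_mul ha.pos.ne' hB.pos.ne']
      rfl
    apply h
    constructor
    · rw [Nat.squarefree_iff_factorization_le_one ha.pos.ne']
      intro p
      by_cases hp : p.Prime
      · by_cases hpa : p ∣ a
        · have := key p hp hpa
          rw [hf] at this
          omega
        · rw [Nat.factorization_eq_zero_of_not_dvd hpa]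
          omega
      · rw [Nat.factorization_eq_zero_of_not_prime _ hp]
        omega
    · rw [Nat.coprime_iff_gcd_eq_one]
      by_contra hc2
      obtain ⟨p, hp, hpd⟩ := Nat.exists_prime_and_dvd hc2
      have h1 : p ∣ a := hpd.trans (Nat.gcd_dvd_left _ _)
      have h2 : p ∣ B := hpd.trans (Nat.gcd_dvd_right _ _)
      have h3 := key p hp h1
      have h4 := (hp.dvd_iff_one_le_factorization ha.pos.ne').1 h1
      have h5 := (hp.dvd_iff_one_le_factorization hB.pos.ne').1 h2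
      rw [hf] at h3
      omega

private theorem sk_split2 (k₀ : ℕ) (hk : 0 < k₀) (M : ℕ) (f : ℕ → ℕ → ℂ)
    (h1 : ∀ n m, 1 ≤ n → 1 ≤ m → ¬ Nat.Coprime (n / Nat.gcd n (k₀ ^ 2)) k₀ → f n m = 0)
    (h2 : ∀ n m, 1 ≤ n → 1 ≤ m → ¬ Nat.Coprime (m / Nat.gcd m (k₀ ^ 2)) k₀ → f n m = 0) :
    ∑ n ∈ Icc 1 M, ∑ m ∈ Icc 1 M, f n m =
      ∑ b ∈ (k₀ ^ 2).divisors, ∑ c ∈ (k₀ ^ 2).divisors, ∑ a ∈ Icc 1 M, ∑ d ∈ Icc 1 M,
        if (Nat.Coprime a k₀ ∧ a * b ≤ M) ∧ (Nat.Coprime d k₀ ∧ d * c ≤ M) then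
          f (a * b) (d * c) else 0 := by
  rw [sum_gcd_split k₀ hk M (fun n => ∑ m ∈ Icc 1 M, f n m)
    (fun n hn hc => Finset.sum_eq_zero fun m hm => h1 n m hn (Finset.mem_Icc.1 hm).1 hc)]
  refine Finset.sum_congr rfl fun b hb => ?_
  rw [Finset.sum_comm (s := (k₀ ^ 2).divisors) (t := Icc 1 M)]
  refine Finset.sum_congr rfl fun a ha => ?_
  have hab : 1 ≤ a * b :=
    Nat.mul_pos (Finset.mem_Icc.1 ha).1 (Nat.pos_of_mem_divisors hb)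
  by_cases h : Nat.Coprime a k₀ ∧ a * b ≤ M
  · rw [if_pos h, sum_gcd_split k₀ hk M (fun m => f (a * b) m)
      (fun m hm hc => h2 (a * b) m hab hm hc)]
    refine Finset.sum_congr rfl fun c _ => Finset.sum_congr rfl fun d _ => ?_
    by_cases h' : Nat.Coprime d k₀ ∧ d * c ≤ M
    · rw [if_pos h', if_pos ⟨h, h'⟩]
    · rw [if_neg h', if_neg (fun hh => h' hh.2)]
  · rw [if_neg h]
    symm
    refine Finset.sum_eq_zero fun c _ => Finset.sum_eq_zero fun d _ => ?_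
    rw [if_neg (fun hh => h hh.1)]


private theorem sk_cpow (n : ℕ) (hn : 0 < n) (τ : ℝ) :
    ((n : ℕ) : ℂ) ^ (-(1 / 2 : ℂ) + Complex.I * τ) =
      ((1 / √(n : ℝ) : ℝ) : ℂ) * ((n : ℕ) : ℂ) ^ (Complex.I * τ) := by
  have hn' : ((n : ℕ) : ℂ) ≠ 0 := Nat.cast_ne_zero.2 hn.ne'
  rw [Complex.cpow_add _ _ hn']
  congr 1
  have h1 : ((n : ℕ) : ℂ) = (((n : ℝ)) : ℂ) := by push_cast; rfl
  have h2 : (-(1 / 2 : ℂ)) = (((-(1 / 2) : ℝ)) : ℂ) := by push_cast; rfl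
  rw [h1, h2, ← Complex.ofReal_cpow (Nat.cast_nonneg n), Real.rpow_neg (Nat.cast_nonneg n),
    ← Real.sqrt_eq_rpow, one_div]

private theorem sk_supp (θ X C : ℝ) (hX : 2 ≤ X) (hθ' : θ < 1 / 2) (W : ℕ → ℕ → ℝ)
    (hW : LipW θ X C W) (l n : ℕ) (hl : 0 < l) (hn : ⌊X ^ 2⌋₊ < n) : W l n = 0 := by
  apply hW.supp₂
  have h1 : X ^ 2 < (n : ℝ) := (Nat.floor_lt (by positivity)).1 hn
  have h2 : X ^ (1 / 2 + θ) ≤ X ^ (2 : ℝ) := by
    apply Real.rpow_le_rpow_of_exponent_le (by linarith) (by linarith)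
  have h3 : X ^ (2 : ℝ) = X ^ 2 := by norm_cast
  have h4 : (1 : ℝ) ≤ l := by exact_mod_cast hl
  have h5 : (n : ℝ) ≤ l * n := le_mul_of_one_le_left (Nat.cast_nonneg n) h4
  rw [h3] at h2
  linarith

private theorem sk_one (θ X C : ℝ) (hX : 2 ≤ X) (hθ' : θ < 1 / 2)
    (W₁ W₂ : ℕ → ℕ → ℝ) (hW₁ : LipW θ X C W₁) (hW₂ : LipW θ X C W₂) (r : ℕ) (hr : Odd r)
    (k : ℤ) (hk : k ≠ 0) (τ P : ℝ) (hP : 1 ≤ P) (hS : ∀ x : ℕ, |∑ n ∈ Icc 1 x, jr k n| ≤ P)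
    (l₁ l₂ b₁ b₂ : ℕ) (hl₁ : 0 < l₁) (hl₂ : 0 < l₂) (hb₁ : b₁ ∣ k.natAbs ^ 2)
    (hb₂ : b₂ ∣ k.natAbs ^ 2) :
    ‖∑ a ∈ Icc 1 ⌊X ^ 2⌋₊, ∑ d ∈ Icc 1 ⌊X ^ 2⌋₊,
      if (Nat.Coprime a k.natAbs ∧ a * b₁ ≤ ⌊X ^ 2⌋₊) ∧
          (Nat.Coprime d k.natAbs ∧ d * b₂ ≤ ⌊X ^ 2⌋₊) then
        (if Nat.Coprime (a * b₁ * l₁ * (d * b₂) * l₂) (2 * r) then
          (ArithmeticFunction.moebius l₁ : ℂ) * (ArithmeticFunction.moebius l₂ : ℂ) *
          (W₁ l₁ (a * b₁) : ℂ) * (W₂ l₂ (d * b₂) : ℂ) * (gg k (a * b₁ * l₁ * (d * b₂) * l₂) : ℂ) *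
          ((a * b₁ * l₁ * (d * b₂) * l₂ : ℕ) : ℂ) ^ (Complex.I * τ) else 0) else 0‖ ≤
    |gg k (b₁ * l₁ * b₂ * l₂)| * (100 * C ^ 2 * (1 + |τ|) ^ 2 * P *
      ((2 * r * k.natAbs * (l₁ * l₂)).divisors.card : ℝ) ^ 2 *
        (1 + Real.log ⌊X ^ 2⌋₊) ^ 6) := by
  have hk0 : 0 < k.natAbs := Int.natAbs_pos.2 hk
  have hb₁0 : 0 < b₁ := Nat.pos_of_dvd_of_pos hb₁ (by positivity)
  have hb₂0 : 0 < b₂ := Nat.pos_of_dvd_of_pos hb₂ (by positivity)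
  obtain ⟨M, hM⟩ : ∃ M, M = ⌊X ^ 2⌋₊ := ⟨_, rfl⟩
  have hM1 : 1 ≤ M := by
    rw [hM]
    apply Nat.le_floor
    push_cast
    nlinarith
  obtain ⟨B, hBd⟩ : ∃ B, B = b₁ * l₁ * b₂ * l₂ := ⟨_, rfl⟩
  have hB0 : 0 < B := by rw [hBd]; positivity
  obtain ⟨q, hqd⟩ : ∃ q, q = 2 * r * k.natAbs * (l₁ * l₂) := ⟨_, rfl⟩
  have hr0 : 0 < r := hr.pos
  have hq0 : 0 < q := by rw [hqd]; positivity
  have hN : ∀ a d : ℕ, a * b₁ * l₁ * (d * b₂) * l₂ = a * d * B := by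
    intro a d
    rw [hBd]
    ring
  have D3 := sum_two (jr k) (sk_jr_abs k) (sk_jr_mul k) P hP hS (fun a => W₁ l₁ (a * b₁))
    (fun d => W₂ l₂ (d * b₂)) C (fun n => hW₁.bd _ _) (fun n => hW₂.bd _ _)
    (fun m n hm hn => by
      have := hW₁.lip l₁ (m * b₁) (n * b₁) (Nat.mul_pos hm hb₁0) (Nat.mul_pos hn hb₁0)
      push_cast at this
      rw [Real.log_mul (by positivity) (by positivity), Real.log_mul (by positivity)
        (by positivity)] at this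
      simpa using this)
    (fun m n hm hn => by
      have := hW₂.lip l₂ (m * b₂) (n * b₂) (Nat.mul_pos hm hb₂0) (Nat.mul_pos hn hb₂0)
      push_cast at this
      rw [Real.log_mul (by positivity) (by positivity), Real.log_mul (by positivity)
        (by positivity)] at this
      simpa using this)
    M hM1
    (fun n hn => by
      apply sk_supp θ X C hX hθ' W₁ hW₁ _ _ hl₁
      rw [← hM]
      exact hn.trans_le (Nat.le_mul_of_pos_right n hb₁0))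
    (fun n hn => by
      apply sk_supp θ X C hX hθ' W₂ hW₂ _ _ hl₂
      rw [← hM]
      exact hn.trans_le (Nat.le_mul_of_pos_right n hb₂0))
    q hq0 τ
  have hlogM : 0 ≤ Real.log M := Real.log_nonneg (by exact_mod_cast hM1)
  rw [← hM, ← hBd, ← hqd]
  simp only [hN]
  by_cases hB : Nat.Coprime B (2 * r)
  · have hBodd : Odd B := by
      rw [← Nat.coprime_two_right]
      exact Nat.Coprime.coprime_mul_right_right hB
    have term : ∀ a ∈ Icc 1 M, ∀ d ∈ Icc 1 M,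
        (if (Nat.Coprime a k.natAbs ∧ a * b₁ ≤ M) ∧ (Nat.Coprime d k.natAbs ∧ d * b₂ ≤ M) then
        (if Nat.Coprime (a * d * B) (2 * r) then
          (ArithmeticFunction.moebius l₁ : ℂ) * (ArithmeticFunction.moebius l₂ : ℂ) *
          (W₁ l₁ (a * b₁) : ℂ) * (W₂ l₂ (d * b₂) : ℂ) * (gg k (a * d * B) : ℂ) *
          ((a * d * B : ℕ) : ℂ) ^ (Complex.I * τ) else 0) else 0) =
        ((ArithmeticFunction.moebius l₁ : ℂ) * (ArithmeticFunction.moebius l₂ : ℂ) *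
          (gg k B : ℂ) * ((B : ℕ) : ℂ) ^ (Complex.I * τ)) *
          (if Squarefree (a * d) ∧ Nat.Coprime (a * d) q then
            (jr k (a * d) : ℂ) * ((a * d : ℕ) : ℂ) ^ (-(1 / 2 : ℂ) + Complex.I * τ) *
              (W₁ l₁ (a * b₁) : ℂ) * (W₂ l₂ (d * b₂) : ℂ) else 0) := by
      intro a ha d hd
      have ha1 : 0 < a := (Finset.mem_Icc.1 ha).1
      have hd1 : 0 < d := (Finset.mem_Icc.1 hd).1
      by_cases h1 : a * b₁ ≤ M
      swap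
      · have : W₁ l₁ (a * b₁) = 0 := by
          apply sk_supp θ X C hX hθ' W₁ hW₁ _ _ hl₁
          rw [← hM]
          omega
        rw [if_neg (fun hh => h1 hh.1.2), this]
        simp
      by_cases h2 : d * b₂ ≤ M
      swap
      · have : W₂ l₂ (d * b₂) = 0 := by
          apply sk_supp θ X C hX hθ' W₂ hW₂ _ _ hl₂
          rw [← hM]
          omega
        rw [if_neg (fun hh => h2 hh.2.2), this]
        simp
      by_cases h3 : Nat.Coprime (a * d) k.natAbs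
      swap
      · rw [if_neg (fun hh => h3 (Nat.Coprime.mul_left hh.1.1 hh.2.1)), if_neg, mul_zero]
        intro hh
        apply h3
        refine Nat.Coprime.coprime_dvd_right ?_ hh.2
        rw [hqd]
        exact ⟨2 * r * (l₁ * l₂), by ring⟩
      rw [if_pos ⟨⟨Nat.Coprime.coprime_mul_right h3, h1⟩,
        ⟨Nat.Coprime.coprime_mul_left h3, h2⟩⟩]
      by_cases h4 : Nat.Coprime (a * d) (2 * r)
      swap
      · rw [if_neg (fun hh => h4 (Nat.Coprime.coprime_mul_right hh)), if_neg, mul_zero]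
        intro hh
        apply h4
        refine Nat.Coprime.coprime_dvd_right ?_ hh.2
        rw [hqd]
        exact ⟨k.natAbs * (l₁ * l₂), by ring⟩
      rw [if_pos (Nat.Coprime.mul_left h4 hB)]
      have hodd : Odd (a * d) := by
        rw [← Nat.coprime_two_right]
        exact Nat.Coprime.coprime_mul_right_right h4
      have h5 : (Squarefree (a * d) ∧ Nat.Coprime (a * d) B) ↔
          (Squarefree (a * d) ∧ Nat.Coprime (a * d) q) := by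
        apply and_congr_right
        intro _
        have e1 : Nat.Coprime (a * d) b₁ := Nat.Coprime.coprime_dvd_right hb₁ (h3.pow_right 2)
        have e2 : Nat.Coprime (a * d) b₂ := Nat.Coprime.coprime_dvd_right hb₂ (h3.pow_right 2)
        rw [hBd, hqd]
        constructor
        · intro hh
          have f1 : Nat.Coprime (a * d) l₂ := Nat.Coprime.coprime_mul_left_right hh
          have f2 : Nat.Coprime (a * d) l₁ := Nat.Coprime.coprime_mul_left_right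
            (Nat.Coprime.coprime_mul_right_right (Nat.Coprime.coprime_mul_right_right hh))
          exact Nat.Coprime.mul_right (Nat.Coprime.mul_right h4 h3) (Nat.Coprime.mul_right f2 f1)
        · intro hh
          have f1 : Nat.Coprime (a * d) (l₁ * l₂) := Nat.Coprime.coprime_mul_left_right hh
          exact Nat.Coprime.mul_right (Nat.Coprime.mul_right (Nat.Coprime.mul_right e1
            (Nat.Coprime.coprime_mul_right_right f1)) e2) (Nat.Coprime.coprime_mul_left_right f1)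
      rw [sk_factor k hk (a * d) B hodd hBodd h3]
      by_cases h6 : Squarefree (a * d) ∧ Nat.Coprime (a * d) B
      · rw [if_pos h6, if_pos (h5.1 h6), sk_cpow (a * d) (Nat.mul_pos ha1 hd1) τ,
          Nat.cast_mul (a * d) B, Complex.natCast_mul_natCast_cpow]
        push_cast
        ring
      · rw [if_neg h6, if_neg (fun hh => h6 (h5.2 hh))]
        simp
    rw [Finset.sum_congr rfl fun a ha => Finset.sum_congr rfl fun d hd => term a ha d hd]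
    simp only [← Finset.mul_sum]
    rw [norm_mul]
    refine mul_le_mul ?_ D3 (norm_nonneg _) (abs_nonneg _)
    rw [norm_mul, norm_mul, norm_mul, Complex.norm_natCast_cpow_of_pos hB0]
    have m1 : ‖(ArithmeticFunction.moebius l₁ : ℂ)‖ ≤ 1 := by
      rw [Complex.norm_intCast]
      exact_mod_cast ArithmeticFunction.abs_moebius_le_one
    have m2 : ‖(ArithmeticFunction.moebius l₂ : ℂ)‖ ≤ 1 := by
      rw [Complex.norm_intCast]
      exact_mod_cast ArithmeticFunction.abs_moebius_le_one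
    have m3 : (Complex.I * (τ : ℂ)).re = 0 := by simp
    rw [m3, Real.rpow_zero, mul_one, Complex.norm_real, Real.norm_eq_abs]
    calc _ ≤ 1 * 1 * |gg k B| := by gcongr
      _ = _ := by ring
  · have : ∀ a ∈ Icc 1 M, ∀ d ∈ Icc 1 M,
        (if (Nat.Coprime a k.natAbs ∧ a * b₁ ≤ M) ∧ (Nat.Coprime d k.natAbs ∧ d * b₂ ≤ M) then
        (if Nat.Coprime (a * d * B) (2 * r) then
          (ArithmeticFunction.moebius l₁ : ℂ) * (ArithmeticFunction.moebius l₂ : ℂ) *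
          (W₁ l₁ (a * b₁) : ℂ) * (W₂ l₂ (d * b₂) : ℂ) * (gg k (a * d * B) : ℂ) *
          ((a * d * B : ℕ) : ℂ) ^ (Complex.I * τ) else 0) else 0) = 0 := by
      intro a _ d _
      rw [if_neg (fun hh => hB (Nat.Coprime.coprime_mul_left hh))]
      simp
    rw [Finset.sum_congr rfl fun a ha => Finset.sum_congr rfl fun d hd => this a ha d hd]
    simp only [Finset.sum_const_zero, norm_zero]
    positivity

private theorem sk_gg_bound (k : ℤ) (hk : k ≠ 0) (l₁ l₂ b₁ b₂ : ℕ) (hl₁ : 0 < l₁) (hl₂ : 0 < l₂)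
    (hb₁ : b₁ ∣ k.natAbs ^ 2) (hb₂ : b₂ ∣ k.natAbs ^ 2) (E : ℝ)
    (hE : ((b₁ * l₁ * b₂ * l₂).divisors.card : ℝ) ≤ E) :
    |gg k (b₁ * l₁ * b₂ * l₂)| ≤ E * √((Nat.gcd k.natAbs (l₁ * l₂) : ℝ) / (l₁ * l₂)) := by
  have hk0 : 0 < k.natAbs := Int.natAbs_pos.2 hk
  have hb₁0 : 0 < b₁ := Nat.pos_of_dvd_of_pos hb₁ (by positivity)
  have hb₂0 : 0 < b₂ := Nat.pos_of_dvd_of_pos hb₂ (by positivity)
  have hB : 0 < b₁ * l₁ * b₂ * l₂ := by positivity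
  have h1 := abs_gg_le k _ hB
  have h2 : Nat.gcd k.natAbs (b₁ * l₁ * b₂ * l₂) ≤ b₁ * b₂ * Nat.gcd k.natAbs (l₁ * l₂) := by
    have e : b₁ * l₁ * b₂ * l₂ = (b₁ * b₂) * (l₁ * l₂) := by ring
    rw [e]
    have h3 := Nat.le_of_dvd (by positivity) (Nat.gcd_mul_right_dvd_mul_gcd k.natAbs (b₁ * b₂) (l₁ * l₂))
    refine h3.trans ?_
    gcongr
    exact Nat.le_of_dvd (by positivity) (Nat.gcd_dvd_right _ _)
  have h3 : √((Nat.gcd k.natAbs (b₁ * l₁ * b₂ * l₂) : ℝ) / ((b₁ * l₁ * b₂ * l₂ : ℕ) : ℝ)) ≤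
      √((Nat.gcd k.natAbs (l₁ * l₂) : ℝ) / (l₁ * l₂)) := by
    apply Real.sqrt_le_sqrt
    have h4 : (Nat.gcd k.natAbs (b₁ * l₁ * b₂ * l₂) : ℝ) ≤
        b₁ * b₂ * Nat.gcd k.natAbs (l₁ * l₂) := by exact_mod_cast h2
    have p1 : (0 : ℝ) < b₁ := by exact_mod_cast hb₁0
    have p2 : (0 : ℝ) < b₂ := by exact_mod_cast hb₂0
    have p3 : (0 : ℝ) < l₁ := by exact_mod_cast hl₁
    have p4 : (0 : ℝ) < l₂ := by exact_mod_cast hl₂
    push_cast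
    rw [div_le_div_iff₀ (by positivity) (by positivity)]
    calc (Nat.gcd k.natAbs (b₁ * l₁ * b₂ * l₂) : ℝ) * (l₁ * l₂)
        ≤ b₁ * b₂ * Nat.gcd k.natAbs (l₁ * l₂) * (l₁ * l₂) := by gcongr
      _ = _ := by ring
  refine h1.trans ?_
  exact mul_le_mul hE h3 (Real.sqrt_nonneg _) ((Nat.cast_nonneg _).trans hE)

private theorem sk_pair (θ X C : ℝ) (hX : 2 ≤ X) (hθ' : θ < 1 / 2)
    (W₁ W₂ : ℕ → ℕ → ℝ) (hW₁ : LipW θ X C W₁) (hW₂ : LipW θ X C W₂) (r : ℕ) (hr : Odd r)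
    (k : ℤ) (hk : k ≠ 0) (τ P : ℝ) (hP : 1 ≤ P) (hS : ∀ x : ℕ, |∑ n ∈ Icc 1 x, jr k n| ≤ P)
    (l₁ l₂ : ℕ) (hl₁ : 0 < l₁) (hl₂ : 0 < l₂) (E : ℝ)
    (hE : ∀ b₁ b₂ : ℕ, b₁ ∣ k.natAbs ^ 2 → b₂ ∣ k.natAbs ^ 2 →
      ((b₁ * l₁ * b₂ * l₂).divisors.card : ℝ) ≤ E) :
    ‖∑ n₁ ∈ Icc 1 ⌊X ^ 2⌋₊, ∑ n₂ ∈ Icc 1 ⌊X ^ 2⌋₊,
      if Nat.Coprime (n₁ * l₁ * n₂ * l₂) (2 * r) then
        (ArithmeticFunction.moebius l₁ : ℂ) * (ArithmeticFunction.moebius l₂ : ℂ) *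
          (W₁ l₁ n₁ : ℂ) * (W₂ l₂ n₂ : ℂ) * (gg k (n₁ * l₁ * n₂ * l₂) : ℂ) *
          ((n₁ * l₁ * n₂ * l₂ : ℕ) : ℂ) ^ (Complex.I * τ) else 0‖ ≤
    ((k.natAbs ^ 2).divisors.card : ℝ) ^ 2 *
      ((E * √((Nat.gcd k.natAbs (l₁ * l₂) : ℝ) / (l₁ * l₂))) *
        (100 * C ^ 2 * (1 + |τ|) ^ 2 * P *
      ((2 * r * k.natAbs * (l₁ * l₂)).divisors.card : ℝ) ^ 2 *
        (1 + Real.log ⌊X ^ 2⌋₊) ^ 6)) := by
  have hk0 : 0 < k.natAbs := Int.natAbs_pos.2 hk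
  have hlogM : 0 ≤ Real.log (⌊X ^ 2⌋₊ : ℝ) := by
    apply Real.log_nonneg
    have : 1 ≤ ⌊X ^ 2⌋₊ := by
      apply Nat.le_floor
      push_cast
      nlinarith
    exact_mod_cast this
  rw [sk_split2 k.natAbs hk0 ⌊X ^ 2⌋₊ (fun n₁ n₂ =>
      if Nat.Coprime (n₁ * l₁ * n₂ * l₂) (2 * r) then
        (ArithmeticFunction.moebius l₁ : ℂ) * (ArithmeticFunction.moebius l₂ : ℂ) *
          (W₁ l₁ n₁ : ℂ) * (W₂ l₂ n₂ : ℂ) * (gg k (n₁ * l₁ * n₂ * l₂) : ℂ) *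
          ((n₁ * l₁ * n₂ * l₂ : ℕ) : ℂ) ^ (Complex.I * τ) else 0) ?_ ?_]
  · refine (norm_sum_le_of_le _ (fun b₁ hb₁ => norm_sum_le_of_le _ (fun b₂ hb₂ =>
      (sk_one θ X C hX hθ' W₁ W₂ hW₁ hW₂ r hr k hk τ P hP hS l₁ l₂ b₁ b₂ hl₁ hl₂
        (Nat.dvd_of_mem_divisors hb₁) (Nat.dvd_of_mem_divisors hb₂)).trans
        (mul_le_mul_of_nonneg_right (sk_gg_bound k hk l₁ l₂ b₁ b₂ hl₁ hl₂
          (Nat.dvd_of_mem_divisors hb₁) (Nat.dvd_of_mem_divisors hb₂) E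
          (hE b₁ b₂ (Nat.dvd_of_mem_divisors hb₁) (Nat.dvd_of_mem_divisors hb₂)))
          (by positivity))))).trans ?_
    rw [Finset.sum_const, Finset.sum_const, nsmul_eq_mul, nsmul_eq_mul]
    apply le_of_eq
    ring
  · intro n m hn hm hc
    split_ifs with h
    · have hodd : Odd (n * l₁ * m * l₂) := by
        rw [← Nat.coprime_two_right]
        exact Nat.Coprime.coprime_mul_right_right h
      have : gg k (n * l₁ * m * l₂) = 0 := by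
        by_contra h0
        exact hc (sk_coprime k hk _ hodd h0 n ⟨l₁ * m * l₂, by ring⟩)
      rw [this]
      simp
    · rfl
  · intro n m hn hm hc
    split_ifs with h
    · have hodd : Odd (n * l₁ * m * l₂) := by
        rw [← Nat.coprime_two_right]
        exact Nat.Coprime.coprime_mul_right_right h
      have : gg k (n * l₁ * m * l₂) = 0 := by
        by_contra h0
        exact hc (sk_coprime k hk _ hodd h0 m ⟨n * l₁ * l₂, by ring⟩)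
      rw [this]
      simp
    · rfl

private theorem sk_log (s : ℝ) (hs : 0 < s) (X : ℝ) (hX : 2 ≤ X) :
    (1 + Real.log ⌊X ^ 2⌋₊) ^ 6 ≤ (1 + 2 / s) ^ 6 * (X ^ s) ^ 6 := by
  have h1 : 1 ≤ ⌊X ^ 2⌋₊ := by
    apply Nat.le_floor
    push_cast
    nlinarith
  have h1' : (1 : ℝ) ≤ ⌊X ^ 2⌋₊ := by exact_mod_cast h1
  have h2 : Real.log (⌊X ^ 2⌋₊ : ℝ) ≤ 2 * Real.log X := by
    have h3 : Real.log (⌊X ^ 2⌋₊ : ℝ) ≤ Real.log (X ^ 2) :=
      Real.log_le_log (by linarith) (Nat.floor_le (by positivity))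
    rw [Real.log_pow] at h3
    exact_mod_cast h3
  have h3 : Real.log X ≤ X ^ s / s := Real.log_le_rpow_div (by linarith) hs
  have h4 : 1 ≤ X ^ s := Real.one_le_rpow (by linarith) hs.le
  have h0 : 0 ≤ Real.log (⌊X ^ 2⌋₊ : ℝ) := Real.log_nonneg h1'
  rw [← mul_pow]
  apply pow_le_pow_left₀ (by linarith)
  calc 1 + Real.log (⌊X ^ 2⌋₊ : ℝ) ≤ X ^ s + 2 * (X ^ s / s) := by linarith
    _ = _ := by ring

theorem sk_bound (ε : ℝ) (hε : 0 < ε) (θ : ℝ) (hθ : 0 < θ) (hθ' : θ < 1 / 2) (r : ℕ) (hr : Odd r)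
    (C : ℝ) (hC : 0 < C) :
    ∃ K : ℝ, 0 < K ∧ ∀ X : ℝ, 2 ≤ X → ∀ W₁ W₂ : ℕ → ℕ → ℝ, LipW θ X C W₁ → LipW θ X C W₂ →
    ∀ k : ℤ, ¬ IsSquare k → |(k : ℝ)| ≤ X ^ 2 → ∀ τ : ℝ,
    ‖∑ n₁ ∈ Icc 1 ⌊X ^ 2⌋₊, ∑ l₁ ∈ Icc 1 ⌊X ^ 2⌋₊, ∑ n₂ ∈ Icc 1 ⌊X ^ 2⌋₊, ∑ l₂ ∈ Icc 1 ⌊X ^ 2⌋₊,
      if Nat.Coprime (n₁ * l₁ * n₂ * l₂) (2 * r) then
        (ArithmeticFunction.moebius l₁ : ℂ) * (ArithmeticFunction.moebius l₂ : ℂ) *
          (W₁ l₁ n₁ : ℂ) * (W₂ l₂ n₂ : ℂ) * (gg k (n₁ * l₁ * n₂ * l₂) : ℂ) *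
          ((n₁ * l₁ * n₂ * l₂ : ℕ) : ℂ) ^ (Complex.I * τ) else 0‖ ≤
      K * X ^ ε * (1 + |τ|) ^ 2 * |(k : ℝ)| ^ (1 / 2 + ε) *
        ∑ l₁ ∈ Icc 1 ⌊X ^ θ⌋₊, ∑ l₂ ∈ Icc 1 ⌊X ^ θ⌋₊,
          √((Nat.gcd k.natAbs (l₁ * l₂) : ℝ) / (l₁ * l₂)) := by
  obtain ⟨e, he⟩ : ∃ e, e = ε / 27 := ⟨_, rfl⟩
  have he0 : 0 < e := by rw [he]; positivity
  obtain ⟨D, hD, hDb⟩ := divisor_bound e he0
  obtain ⟨P₀, hP₀, hPb⟩ := pv_jr ε hε
  have hr0 : (0 : ℝ) < r := by exact_mod_cast hr.pos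
  obtain ⟨R, hR⟩ : ∃ R : ℝ, R = (2 * (r : ℝ)) ^ e := ⟨_, rfl⟩
  have hR0 : 0 < R := by rw [hR]; positivity
  refine ⟨D ^ 2 * (D * (100 * C ^ 2 * max P₀ 1 * (D * R) ^ 2 * (1 + 2 / (e / 6)) ^ 6)),
    by positivity, ?_⟩
  intro X hX W₁ W₂ hW₁ hW₂ k hksq hkX τ
  have hX0 : (0 : ℝ) < X := by linarith
  have hX1 : (1 : ℝ) ≤ X := by linarith
  have hk : k ≠ 0 := by
    rintro rfl
    exact hksq ⟨0, by simp⟩
  have hk0 : 0 < k.natAbs := Int.natAbs_pos.2 hk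
  have hkabs : (k.natAbs : ℝ) = |(k : ℝ)| := by
    rw [Nat.cast_natAbs]
    push_cast
    rfl
  have hk1 : 1 ≤ |(k : ℝ)| := by
    rw [← hkabs]
    exact_mod_cast hk0
  have hkk : 1 ≤ |(k : ℝ)| ^ (1 / 2 + ε) := Real.one_le_rpow hk1 (by linarith)
  obtain ⟨P, hPd⟩ : ∃ P, P = max P₀ 1 * |(k : ℝ)| ^ (1 / 2 + ε) := ⟨_, rfl⟩
  have hP : 1 ≤ P := by
    rw [hPd]
    exact one_le_mul_of_one_le_of_one_le (le_max_right _ _) hkk
  have hS : ∀ x : ℕ, |∑ n ∈ Icc 1 x, jr k n| ≤ P := by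
    intro x
    refine (hPb k hksq x).trans ?_
    rw [hPd]
    gcongr
    exact le_max_left _ _
  obtain ⟨Y, hY⟩ : ∃ Y, Y = X ^ e := ⟨_, rfl⟩
  have hY0 : 0 < Y := by rw [hY]; positivity
  have hYn : ∀ n : ℕ, (X ^ n) ^ e = Y ^ n := by
    intro n
    rw [hY, Real.rpow_pow_comm hX0.le]
  have hYε : Y ^ 27 = X ^ ε := by
    rw [hY, ← Real.rpow_natCast, ← Real.rpow_mul hX0.le, he]
    congr 1
    push_cast
    ring
  have hYs : (X ^ (e / 6)) ^ 6 = Y := by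
    rw [hY, ← Real.rpow_natCast, ← Real.rpow_mul hX0.le]
    congr 1
    push_cast
    ring
  have hlog := sk_log (e / 6) (by positivity) X hX
  rw [hYs] at hlog
  have hlogM : 0 ≤ Real.log (⌊X ^ 2⌋₊ : ℝ) := by
    apply Real.log_nonneg
    have : 1 ≤ ⌊X ^ 2⌋₊ := by
      apply Nat.le_floor
      push_cast
      nlinarith
    exact_mod_cast this
  have hkX' : (k.natAbs : ℝ) ≤ X ^ 2 := by rw [hkabs]; exact hkX
  -- divisors of `k ^ 2`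
  have hdk : ((k.natAbs ^ 2).divisors.card : ℝ) ≤ D * Y ^ 4 := by
    refine (hDb _ (by positivity)).trans ?_
    rw [← hYn 4]
    gcongr
    push_cast
    calc (k.natAbs : ℝ) ^ 2 ≤ (X ^ 2) ^ 2 := by gcongr
      _ = X ^ 4 := by ring
  have hlX : ∀ l ∈ Icc 1 ⌊X ^ θ⌋₊, 0 < l ∧ (l : ℝ) ≤ X := by
    intro l hl
    have hl' := Finset.mem_Icc.1 hl
    refine ⟨hl'.1, ?_⟩
    have h1 : (l : ℝ) ≤ X ^ θ := (Nat.le_floor_iff (by positivity)).1 hl'.2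
    have h2 : X ^ θ ≤ X ^ (1 : ℝ) := Real.rpow_le_rpow_of_exponent_le hX1 (by linarith)
    rw [Real.rpow_one] at h2
    exact h1.trans h2
  have pair : ∀ l₁ ∈ Icc 1 ⌊X ^ θ⌋₊, ∀ l₂ ∈ Icc 1 ⌊X ^ θ⌋₊,
      ‖∑ n₁ ∈ Icc 1 ⌊X ^ 2⌋₊, ∑ n₂ ∈ Icc 1 ⌊X ^ 2⌋₊,
      if Nat.Coprime (n₁ * l₁ * n₂ * l₂) (2 * r) then
        (ArithmeticFunction.moebius l₁ : ℂ) * (ArithmeticFunction.moebius l₂ : ℂ) *
          (W₁ l₁ n₁ : ℂ) * (W₂ l₂ n₂ : ℂ) * (gg k (n₁ * l₁ * n₂ * l₂) : ℂ) *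
          ((n₁ * l₁ * n₂ * l₂ : ℕ) : ℂ) ^ (Complex.I * τ) else 0‖ ≤
      D ^ 2 * (D * (100 * C ^ 2 * max P₀ 1 * (D * R) ^ 2 * (1 + 2 / (e / 6)) ^ 6)) *
        X ^ ε * (1 + |τ|) ^ 2 * |(k : ℝ)| ^ (1 / 2 + ε) *
          √((Nat.gcd k.natAbs (l₁ * l₂) : ℝ) / (l₁ * l₂)) := by
    intro l₁ hl₁ l₂ hl₂
    obtain ⟨l1, l1X⟩ := hlX l₁ hl₁
    obtain ⟨l2, l2X⟩ := hlX l₂ hl₂
    have hE : ∀ b₁ b₂ : ℕ, b₁ ∣ k.natAbs ^ 2 → b₂ ∣ k.natAbs ^ 2 →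
        ((b₁ * l₁ * b₂ * l₂).divisors.card : ℝ) ≤ D * Y ^ 10 := by
      intro b₁ b₂ hb₁ hb₂
      have hb₁0 : 0 < b₁ := Nat.pos_of_dvd_of_pos hb₁ (by positivity)
      have hb₂0 : 0 < b₂ := Nat.pos_of_dvd_of_pos hb₂ (by positivity)
      have hb : ∀ b : ℕ, b ∣ k.natAbs ^ 2 → (b : ℝ) ≤ X ^ 4 := by
        intro b hb
        have : b ≤ k.natAbs ^ 2 := Nat.le_of_dvd (by positivity) hb
        calc (b : ℝ) ≤ (k.natAbs : ℝ) ^ 2 := by exact_mod_cast this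
          _ ≤ (X ^ 2) ^ 2 := by gcongr
          _ = X ^ 4 := by ring
      refine (hDb _ (by positivity)).trans ?_
      rw [← hYn 10]
      gcongr
      push_cast
      calc (b₁ : ℝ) * l₁ * b₂ * l₂ ≤ X ^ 4 * X * X ^ 4 * X := by
            have := hb b₁ hb₁
            have := hb b₂ hb₂
            gcongr
        _ = X ^ 10 := by ring
    have hdq : ((2 * r * k.natAbs * (l₁ * l₂)).divisors.card : ℝ) ≤ D * (R * Y ^ 4) := by
      refine (hDb _ (by have := hr.pos; positivity)).trans ?_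
      rw [← hYn 4, hR, ← Real.mul_rpow (by positivity) (by positivity)]
      gcongr
      push_cast
      calc 2 * (r : ℝ) * k.natAbs * (l₁ * l₂) ≤ 2 * (r : ℝ) * X ^ 2 * (X * X) := by gcongr
        _ = 2 * (r : ℝ) * X ^ 4 := by ring
    refine (sk_pair θ X C hX hθ' W₁ W₂ hW₁ hW₂ r hr k hk τ P hP hS l₁ l₂ l1 l2 (D * Y ^ 10)
      hE).trans ?_
    rw [hPd]
    have hq0 : (0 : ℝ) ≤ √((Nat.gcd k.natAbs (l₁ * l₂) : ℝ) / (l₁ * l₂)) := Real.sqrt_nonneg _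
    have hm0 : (0 : ℝ) < max P₀ 1 := lt_max_of_lt_left hP₀
    calc _ ≤ (D * Y ^ 4) ^ 2 *
      ((D * Y ^ 10 * √((Nat.gcd k.natAbs (l₁ * l₂) : ℝ) / (l₁ * l₂))) *
        (100 * C ^ 2 * (1 + |τ|) ^ 2 * (max P₀ 1 * |(k : ℝ)| ^ (1 / 2 + ε)) *
      (D * (R * Y ^ 4)) ^ 2 * ((1 + 2 / (e / 6)) ^ 6 * Y))) := by gcongr
      _ = _ := by
        rw [← hYε]
        ring
  -- the sum over `l₁, l₂`
  have hsub : Icc 1 ⌊X ^ θ⌋₊ ⊆ Icc 1 ⌊X ^ 2⌋₊ := by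
    apply Finset.Icc_subset_Icc_right
    apply Nat.floor_le_floor
    have : X ^ θ ≤ X ^ (2 : ℝ) := Real.rpow_le_rpow_of_exponent_le hX1 (by linarith)
    rwa [Real.rpow_two] at this
  have hbig : ∀ l : ℕ, l ∈ Icc 1 ⌊X ^ 2⌋₊ → l ∉ Icc 1 ⌊X ^ θ⌋₊ → X ^ θ < (l : ℝ) := by
    intro l hl hl'
    rw [← Nat.floor_lt (by positivity)]
    rw [Finset.mem_Icc] at hl hl'
    omega
  have hre : (∑ n₁ ∈ Icc 1 ⌊X ^ 2⌋₊, ∑ l₁ ∈ Icc 1 ⌊X ^ 2⌋₊, ∑ n₂ ∈ Icc 1 ⌊X ^ 2⌋₊,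
      ∑ l₂ ∈ Icc 1 ⌊X ^ 2⌋₊,
      if Nat.Coprime (n₁ * l₁ * n₂ * l₂) (2 * r) then
        (ArithmeticFunction.moebius l₁ : ℂ) * (ArithmeticFunction.moebius l₂ : ℂ) *
          (W₁ l₁ n₁ : ℂ) * (W₂ l₂ n₂ : ℂ) * (gg k (n₁ * l₁ * n₂ * l₂) : ℂ) *
          ((n₁ * l₁ * n₂ * l₂ : ℕ) : ℂ) ^ (Complex.I * τ) else 0) =
      ∑ l₁ ∈ Icc 1 ⌊X ^ θ⌋₊, ∑ l₂ ∈ Icc 1 ⌊X ^ θ⌋₊, ∑ n₁ ∈ Icc 1 ⌊X ^ 2⌋₊,
        ∑ n₂ ∈ Icc 1 ⌊X ^ 2⌋₊, if Nat.Coprime (n₁ * l₁ * n₂ * l₂) (2 * r) then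
        (ArithmeticFunction.moebius l₁ : ℂ) * (ArithmeticFunction.moebius l₂ : ℂ) *
          (W₁ l₁ n₁ : ℂ) * (W₂ l₂ n₂ : ℂ) * (gg k (n₁ * l₁ * n₂ * l₂) : ℂ) *
          ((n₁ * l₁ * n₂ * l₂ : ℕ) : ℂ) ^ (Complex.I * τ) else 0 := by
    rw [Finset.sum_comm]
    rw [← Finset.sum_subset hsub]
    · refine Finset.sum_congr rfl fun l₁ hl₁ => ?_
      rw [← Finset.sum_comm]
      refine Eq.trans (Finset.sum_congr rfl fun n₂ hn₂ => Finset.sum_comm) ?_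
      rw [Finset.sum_comm]
      rw [← Finset.sum_subset hsub]
      · exact Finset.sum_congr rfl fun l₂ _ => Finset.sum_comm
      · intro l₂ hl₂ hl₂'
        refine Finset.sum_eq_zero fun n₂ _ => Finset.sum_eq_zero fun n₁ _ => ?_
        rw [hW₂.supp₁ l₂ n₂ (hbig l₂ hl₂ hl₂')]
        simp
    · intro l₁ hl₁ hl₁'
      refine Finset.sum_eq_zero fun n₁ _ => Finset.sum_eq_zero fun n₂ _ =>
        Finset.sum_eq_zero fun l₂ _ => ?_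
      rw [hW₁.supp₁ l₁ n₁ (hbig l₁ hl₁ hl₁')]
      simp
  rw [hre, Finset.mul_sum]
  refine norm_sum_le_of_le _ fun l₁ hl₁ => ?_
  rw [Finset.mul_sum]
  exact norm_sum_le_of_le _ fun l₂ hl₂ => pair l₁ hl₁ l₂ hl₂

end Pool.Agent.MP0016c7.Rz
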