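import Mathlib
import Pool.Agent.Lib.MP_0016c7_nt.Theta
import Pool.Agent.Lib.MP_0016c7_nt.Rz.Defs
import Pool.Agent.Lib.MP_0016c7_nt.Rz.DefsC
import Pool.Agent.Lib.MP_0016c7_nt.Rz.DefsF
import Pool.Agent.Lib.MP_0016c7_nt.Rz.DefsE
import Pool.Agent.Lib.MP_0016c7_nt.Rz.DivB

set_option autoImplicit false

open Finset MeasureTheory Filter Topology
open scoped Real ContDiff

namespace Pool.Agent.MP0016c7.Rz

private theorem errD6b_gcd (m K : ℕ) (hm : m ≠ 0) :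
    ∑ k ∈ Icc 1 K, √(Nat.gcd k m : ℝ) ≤ (K : ℝ) * (m.divisors.card : ℝ) := by
  have h1 : ∀ k ∈ Icc 1 K, √(Nat.gcd k m : ℝ) ≤ ∑ e ∈ m.divisors, if e ∣ k then √(e : ℝ) else 0 := by
    intro k _
    have hmem : Nat.gcd k m ∈ m.divisors := Nat.mem_divisors.2 ⟨Nat.gcd_dvd_right k m, hm⟩
    have h2 := Finset.single_le_sum (f := fun e : ℕ => if e ∣ k then √(e : ℝ) else 0)
      (s := m.divisors) (fun e _ => by split_ifs <;> positivity) hmem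
    simpa [Nat.gcd_dvd_left k m] using h2
  refine (Finset.sum_le_sum h1).trans ?_
  rw [Finset.sum_comm]
  have h2 : ∀ e ∈ m.divisors, (∑ k ∈ Icc 1 K, if e ∣ k then √(e : ℝ) else 0) ≤ (K : ℝ) := by
    intro e he
    have he1 : 1 ≤ e := Nat.pos_of_mem_divisors he
    have he1' : (1 : ℝ) ≤ e := by exact_mod_cast he1
    rw [← Finset.sum_filter, Finset.sum_const, nsmul_eq_mul]
    have h3 : ((Icc 1 K).filter (fun k => e ∣ k)).card = K / e := by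
      have := Nat.Ioc_filter_dvd_card_eq_div K e
      rwa [show Ioc 0 K = Icc 1 K from rfl] at this
    rw [h3]
    have h4 : ((K / e : ℕ) : ℝ) ≤ (K : ℝ) / e := Nat.cast_div_le
    have h5 : √(e : ℝ) ≤ e := by
      rw [Real.sqrt_le_left (by linarith)]
      nlinarith
    calc ((K / e : ℕ) : ℝ) * √(e : ℝ) ≤ (K : ℝ) / e * e :=
          mul_le_mul h4 h5 (Real.sqrt_nonneg _) (by positivity)
      _ = K := div_mul_cancel₀ _ (by linarith)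
  refine (Finset.sum_le_sum h2).trans ?_
  rw [Finset.sum_const, nsmul_eq_mul, mul_comm]

private theorem errD6b_sqrt (Z : ℕ) : ∑ l ∈ Icc 1 Z, (√(l : ℝ))⁻¹ ≤ 2 * √(Z : ℝ) := by
  induction Z with
  | zero => simp
  | succ Z ih =>
    rw [Finset.sum_Icc_succ_top (by omega)]
    have h1 : (0 : ℝ) < √((Z + 1 : ℕ) : ℝ) := Real.sqrt_pos.2 (by positivity)
    have h2 : √((Z : ℕ) : ℝ) ≤ √((Z + 1 : ℕ) : ℝ) := Real.sqrt_le_sqrt (by push_cast; linarith)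
    have h3 : √((Z + 1 : ℕ) : ℝ) ^ 2 = Z + 1 := by
      rw [Real.sq_sqrt (by positivity)]
      push_cast
      ring
    have h4 : √((Z : ℕ) : ℝ) ^ 2 = Z := Real.sq_sqrt (by positivity)
    have h5 : (√((Z + 1 : ℕ) : ℝ))⁻¹ ≤ 2 * (√((Z + 1 : ℕ) : ℝ) - √((Z : ℕ) : ℝ)) := by
      rw [inv_le_iff_one_le_mul₀ h1]
      nlinarith [Real.sqrt_nonneg (Z : ℝ)]
    linarith

theorem gcd_average (ε : ℝ) (hε : 0 < ε) : ∃ C : ℝ, 0 < C ∧ ∀ K Z : ℕ, 1 ≤ K → 1 ≤ Z →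
    ∑ k ∈ Icc 1 K, ∑ l₁ ∈ Icc 1 Z, ∑ l₂ ∈ Icc 1 Z, √((Nat.gcd k (l₁ * l₂) : ℝ) / (l₁ * l₂)) ≤
      C * ((K : ℝ) * Z) ^ (1 + ε) := by
  obtain ⟨C, hC, hdiv⟩ := divisor_bound (ε / 2) (by positivity)
  refine ⟨4 * C, by positivity, fun K Z hK hZ => ?_⟩
  have hK1 : (1 : ℝ) ≤ K := by exact_mod_cast hK
  have hZ1 : (1 : ℝ) ≤ Z := by exact_mod_cast hZ
  have e1 : ∑ k ∈ Icc 1 K, ∑ l₁ ∈ Icc 1 Z, ∑ l₂ ∈ Icc 1 Z,
      √((Nat.gcd k (l₁ * l₂) : ℝ) / (l₁ * l₂)) =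
      ∑ l₁ ∈ Icc 1 Z, ∑ l₂ ∈ Icc 1 Z, ((√(l₁ : ℝ))⁻¹ * (√(l₂ : ℝ))⁻¹) *
        ∑ k ∈ Icc 1 K, √(Nat.gcd k (l₁ * l₂) : ℝ) := by
    rw [Finset.sum_comm]
    refine Finset.sum_congr rfl fun l₁ _ => ?_
    rw [Finset.sum_comm]
    refine Finset.sum_congr rfl fun l₂ _ => ?_
    rw [Finset.mul_sum]
    refine Finset.sum_congr rfl fun k _ => ?_
    rw [Real.sqrt_div (by positivity), Real.sqrt_mul (by positivity), div_eq_mul_inv, mul_inv]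
    ring
  rw [e1]
  have h2 : ∀ l₁ ∈ Icc 1 Z, ∀ l₂ ∈ Icc 1 Z, ((√(l₁ : ℝ))⁻¹ * (√(l₂ : ℝ))⁻¹) *
      ∑ k ∈ Icc 1 K, √(Nat.gcd k (l₁ * l₂) : ℝ) ≤
      ((√(l₁ : ℝ))⁻¹ * (√(l₂ : ℝ))⁻¹) * ((K : ℝ) * (C * (Z : ℝ) ^ ε)) := by
    intro l₁ h1 l₂ h2
    rw [Finset.mem_Icc] at h1 h2
    refine mul_le_mul_of_nonneg_left ?_ (by positivity)
    have hne : l₁ * l₂ ≠ 0 := Nat.mul_ne_zero (by omega) (by omega)
    refine (errD6b_gcd (l₁ * l₂) K hne).trans ?_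
    refine mul_le_mul_of_nonneg_left ?_ (by positivity)
    refine (hdiv (l₁ * l₂) (Nat.pos_of_ne_zero hne)).trans ?_
    refine mul_le_mul_of_nonneg_left ?_ hC.le
    have h3 : ((l₁ * l₂ : ℕ) : ℝ) ≤ (Z : ℝ) * Z := by
      exact_mod_cast Nat.mul_le_mul h1.2 h2.2
    calc ((l₁ * l₂ : ℕ) : ℝ) ^ (ε / 2) ≤ ((Z : ℝ) * Z) ^ (ε / 2) :=
          Real.rpow_le_rpow (by positivity) h3 (by positivity)
      _ = (Z : ℝ) ^ ε := by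
        rw [Real.mul_rpow (by positivity) (by positivity), ← Real.rpow_add (by positivity)]
        congr 1
        ring
  refine (Finset.sum_le_sum fun l₁ hl₁ => Finset.sum_le_sum fun l₂ hl₂ => h2 l₁ hl₁ l₂ hl₂).trans ?_
  have e2 : ∑ l₁ ∈ Icc 1 Z, ∑ l₂ ∈ Icc 1 Z,
      ((√(l₁ : ℝ))⁻¹ * (√(l₂ : ℝ))⁻¹) * ((K : ℝ) * (C * (Z : ℝ) ^ ε)) =
      (∑ l ∈ Icc 1 Z, (√(l : ℝ))⁻¹) * (∑ l ∈ Icc 1 Z, (√(l : ℝ))⁻¹) *
        ((K : ℝ) * (C * (Z : ℝ) ^ ε)) := by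
    rw [Finset.sum_mul_sum, Finset.sum_mul]
    refine Finset.sum_congr rfl fun l₁ _ => ?_
    rw [Finset.sum_mul]
  rw [e2]
  have h3 := errD6b_sqrt Z
  have h4 : (0 : ℝ) ≤ ∑ l ∈ Icc 1 Z, (√(l : ℝ))⁻¹ := Finset.sum_nonneg fun _ _ => by positivity
  have h5 : (∑ l ∈ Icc 1 Z, (√(l : ℝ))⁻¹) * (∑ l ∈ Icc 1 Z, (√(l : ℝ))⁻¹) ≤ 4 * Z := by
    calc _ ≤ (2 * √(Z : ℝ)) * (2 * √(Z : ℝ)) := mul_le_mul h3 h3 h4 (by positivity)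
      _ = 4 * (√(Z : ℝ) * √(Z : ℝ)) := by ring
      _ = 4 * Z := by rw [Real.mul_self_sqrt (by positivity)]
  calc _ ≤ (4 * (Z : ℝ)) * ((K : ℝ) * (C * (Z : ℝ) ^ ε)) :=
        mul_le_mul_of_nonneg_right h5 (by positivity)
    _ = 4 * C * ((K : ℝ) * ((Z : ℝ) * (Z : ℝ) ^ ε)) := by ring
    _ ≤ 4 * C * ((K : ℝ) ^ (1 + ε) * ((Z : ℝ) ^ (1 + ε))) := by
        refine mul_le_mul_of_nonneg_left ?_ (by positivity)
        refine mul_le_mul ?_ (le_of_eq ?_) (by positivity) (by positivity)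
        · calc (K : ℝ) = (K : ℝ) ^ (1 : ℝ) := (Real.rpow_one _).symm
            _ ≤ (K : ℝ) ^ (1 + ε) := Real.rpow_le_rpow_of_exponent_le hK1 (by linarith)
        · rw [Real.rpow_add (by positivity), Real.rpow_one]
    _ = 4 * C * ((K : ℝ) * Z) ^ (1 + ε) := by
        rw [Real.mul_rpow (by positivity) (by positivity)]

end Pool.Agent.MP0016c7.Rz
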