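import Mathlib
import Pool.Agent.Lib.MP_0016c7_nt.Theta
import Pool.Agent.Lib.MP_0016c7_nt.Rz.Defs
import Pool.Agent.Lib.MP_0016c7_nt.Rz.DefsC
import Pool.Agent.Lib.MP_0016c7_nt.Rz.DefsF
import Pool.Agent.Lib.MP_0016c7_nt.Rz.DefsE
import Pool.Agent.Lib.MP_0016c7_nt.Rz.ErrD4
import Pool.Agent.Lib.MP_0016c7_nt.Rz.ErrD5
import Pool.Agent.Lib.MP_0016c7_nt.Rz.ErrD6a
import Pool.Agent.Lib.MP_0016c7_nt.Rz.ErrD6b
import Pool.Agent.Lib.MP_0016c7_nt.Rz.FtS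

set_option autoImplicit false

open Finset MeasureTheory Filter Topology
open scoped Real ContDiff

namespace Pool.Agent.MP0016c7.Rz

/-! ### Quadruple sums as sums over a product -/

/-- the coefficient of a quadruple -/
noncomputable def d6c (W₁ W₂ : ℕ → ℕ → ℝ) (r : ℕ) (q : ℕ × ℕ × ℕ × ℕ) : ℝ :=
  if Nat.Coprime (q.1 * q.2.1 * q.2.2.1 * q.2.2.2) (2 * r) then
    (ArithmeticFunction.moebius q.2.1 : ℝ) * (ArithmeticFunction.moebius q.2.2.2 : ℝ) *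
      W₁ q.2.1 q.1 * W₂ q.2.2.2 q.2.2.1
  else 0

/-- the product of the entries -/
def d6n (q : ℕ × ℕ × ℕ × ℕ) : ℕ := q.1 * q.2.1 * q.2.2.1 * q.2.2.2

/-- the box -/
def d6P (M : ℕ) : Finset (ℕ × ℕ × ℕ × ℕ) := Icc 1 M ×ˢ (Icc 1 M ×ˢ (Icc 1 M ×ˢ Icc 1 M))

private theorem d6_mem {M : ℕ} {q : ℕ × ℕ × ℕ × ℕ} (hq : q ∈ d6P M) :
    1 ≤ q.1 ∧ 1 ≤ q.2.1 ∧ 1 ≤ q.2.2.1 ∧ 1 ≤ q.2.2.2 := by
  simp only [d6P, mem_product, mem_Icc] at hq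
  exact ⟨hq.1.1, hq.2.1.1, hq.2.2.1.1, hq.2.2.2.1⟩

private theorem d6n_pos {M : ℕ} {q : ℕ × ℕ × ℕ × ℕ} (hq : q ∈ d6P M) : 1 ≤ d6n q := by
  obtain ⟨h1, h2, h3, h4⟩ := d6_mem hq
  unfold d6n
  exact Nat.one_le_iff_ne_zero.mpr (by positivity)

private theorem d6_card (M : ℕ) : (d6P M).card = M ^ 4 := by
  simp only [d6P, card_product, Nat.card_Icc, add_tsub_cancel_right]
  ring

private theorem d6_quad (W₁ W₂ : ℕ → ℕ → ℝ) (r M : ℕ) (f : ℕ → ℝ) :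
    quad W₁ W₂ r M f = ∑ q ∈ d6P M, d6c W₁ W₂ r q / √(d6n q : ℝ) * f (d6n q) := by
  unfold quad d6P
  simp only [sum_product, d6c, d6n]
  refine sum_congr rfl fun n₁ _ => sum_congr rfl fun l₁ _ => sum_congr rfl fun n₂ _ =>
    sum_congr rfl fun l₂ _ => ?_
  split_ifs with h
  · rfl
  · simp

private theorem d6_cplx (W₁ W₂ : ℕ → ℕ → ℝ) (r M : ℕ) (k : ℤ) (τ : ℝ) :
    (∑ n₁ ∈ Icc 1 M, ∑ l₁ ∈ Icc 1 M, ∑ n₂ ∈ Icc 1 M, ∑ l₂ ∈ Icc 1 M,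
      if Nat.Coprime (n₁ * l₁ * n₂ * l₂) (2 * r) then
        (ArithmeticFunction.moebius l₁ : ℂ) * (ArithmeticFunction.moebius l₂ : ℂ) *
          (W₁ l₁ n₁ : ℂ) * (W₂ l₂ n₂ : ℂ) * (gg k (n₁ * l₁ * n₂ * l₂) : ℂ) *
          ((n₁ * l₁ * n₂ * l₂ : ℕ) : ℂ) ^ (Complex.I * τ) else 0) =
    ∑ q ∈ d6P M, (d6c W₁ W₂ r q : ℂ) * (gg k (d6n q) : ℂ) *
      ((d6n q : ℕ) : ℂ) ^ (Complex.I * τ) := by
  unfold d6P
  simp only [sum_product, d6c, d6n]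
  refine sum_congr rfl fun n₁ _ => sum_congr rfl fun l₁ _ => sum_congr rfl fun n₂ _ =>
    sum_congr rfl fun l₂ _ => ?_
  split_ifs with h
  · push_cast
    ring
  · simp

private theorem d6_mu (n : ℕ) : |(ArithmeticFunction.moebius n : ℝ)| ≤ 1 := by
  have h := ArithmeticFunction.abs_moebius_le_one (n := n)
  exact_mod_cast h

private theorem d6c_le {θ X C : ℝ} (hC : 0 < C) {W₁ W₂ : ℕ → ℕ → ℝ} (h₁ : LipW θ X C W₁)
    (h₂ : LipW θ X C W₂) (r : ℕ) (q : ℕ × ℕ × ℕ × ℕ) : |d6c W₁ W₂ r q| ≤ C ^ 2 := by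
  unfold d6c
  split_ifs with h
  · rw [abs_mul, abs_mul, abs_mul]
    have e1 := d6_mu q.2.1
    have e2 := d6_mu q.2.2.2
    have e3 := h₁.bd q.2.1 q.1
    have e4 := h₂.bd q.2.2.2 q.2.2.1
    calc |(ArithmeticFunction.moebius q.2.1 : ℝ)| * |(ArithmeticFunction.moebius q.2.2.2 : ℝ)| *
          |W₁ q.2.1 q.1| * |W₂ q.2.2.2 q.2.2.1| ≤ 1 * 1 * C * C := by gcongr
      _ = C ^ 2 := by ring
  · rw [abs_zero]; positivity

private theorem d6_supp {θ X C : ℝ} (hX : 0 < X) {W₁ W₂ : ℕ → ℕ → ℝ} (h₁ : LipW θ X C W₁)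
    (h₂ : LipW θ X C W₂) (r : ℕ) (q : ℕ × ℕ × ℕ × ℕ) (hq : d6c W₁ W₂ r q ≠ 0) :
    (d6n q : ℝ) ≤ X ^ (1 + 2 * θ) := by
  unfold d6c at hq
  split_ifs at hq with h
  · have e1 : W₁ q.2.1 q.1 ≠ 0 := by
      intro h0; apply hq; rw [h0]; ring
    have e2 : W₂ q.2.2.2 q.2.2.1 ≠ 0 := by
      intro h0; apply hq; rw [h0]; ring
    have e3 : (q.2.1 : ℝ) * q.1 ≤ X ^ (1 / 2 + θ) := by
      by_contra hh
      exact e1 (h₁.supp₂ _ _ (not_le.mp hh))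
    have e4 : (q.2.2.2 : ℝ) * q.2.2.1 ≤ X ^ (1 / 2 + θ) := by
      by_contra hh
      exact e2 (h₂.supp₂ _ _ (not_le.mp hh))
    have e5 : (d6n q : ℝ) = ((q.2.1 : ℝ) * q.1) * ((q.2.2.2 : ℝ) * q.2.2.1) := by
      unfold d6n; push_cast; ring
    rw [e5, show (1 : ℝ) + 2 * θ = (1 / 2 + θ) + (1 / 2 + θ) by ring, Real.rpow_add hX]
    exact mul_le_mul e3 e4 (by positivity) (by positivity)
  · exact absurd rfl hq

/-- replacing the function on the support -/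
private theorem d6_stepA {θ X C δ : ℝ} (hX : 0 < X) (hC : 0 < C) {W₁ W₂ : ℕ → ℕ → ℝ}
    (h₁ : LipW θ X C W₁) (h₂ : LipW θ X C W₂) (r M : ℕ) (f g : ℕ → ℝ) (hδ : 0 ≤ δ)
    (hfg : ∀ N : ℕ, 1 ≤ N → (N : ℝ) ≤ X ^ (1 + 2 * θ) → |f N - g N| ≤ δ) :
    |quad W₁ W₂ r M f - quad W₁ W₂ r M g| ≤ (M : ℝ) ^ 4 * (C ^ 2 * δ) := by
  rw [d6_quad, d6_quad, ← sum_sub_distrib]
  refine (abs_sum_le_sum_abs _ _).trans ?_
  have h3 : ∀ q ∈ d6P M, |d6c W₁ W₂ r q / √(d6n q : ℝ) * f (d6n q) -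
      d6c W₁ W₂ r q / √(d6n q : ℝ) * g (d6n q)| ≤ C ^ 2 * δ := by
    intro q hq
    rw [← mul_sub, abs_mul, abs_div]
    by_cases h0 : d6c W₁ W₂ r q = 0
    · rw [h0]; simp only [abs_zero, zero_div, zero_mul]; positivity
    · have e1 := hfg (d6n q) (d6n_pos hq) (d6_supp hX h₁ h₂ r q h0)
      have e2 := d6c_le hC h₁ h₂ r q
      have e3 : (1 : ℝ) ≤ |√(d6n q : ℝ)| := by
        rw [abs_of_nonneg (Real.sqrt_nonneg _)]
        rw [Real.one_le_sqrt]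
        exact_mod_cast d6n_pos hq
      have e4 : |d6c W₁ W₂ r q| / |√(d6n q : ℝ)| ≤ C ^ 2 :=
        (div_le_self (abs_nonneg _) e3).trans e2
      exact mul_le_mul e4 e1 (abs_nonneg _) (by positivity)
  refine (sum_le_sum h3).trans ?_
  rw [sum_const, d6_card, nsmul_eq_mul]
  push_cast
  exact le_refl _

/-! ### Mellin inversion -/

private theorem d6_pow {t : ℝ} (ht : 0 < t) {N : ℕ} (hN : 1 ≤ N) (τ : ℝ) :
    (1 / √(N : ℝ) : ℂ) * (((t / N : ℝ) : ℂ) ^ (-(1 / 2 : ℂ) - Complex.I * τ)) =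
      (t : ℂ) ^ (-(1 / 2 : ℂ) - Complex.I * τ) * ((N : ℕ) : ℂ) ^ (Complex.I * τ) := by
  have hN0 : (0 : ℝ) < N := by exact_mod_cast hN
  have hNc : ((N : ℝ) : ℂ) ≠ 0 := by exact_mod_cast hN0.ne'
  have e1 : ((t / N : ℝ) : ℂ) ^ (-(1 / 2 : ℂ) - Complex.I * τ) *
      ((N : ℝ) : ℂ) ^ (-(1 / 2 : ℂ) - Complex.I * τ) =
      (t : ℂ) ^ (-(1 / 2 : ℂ) - Complex.I * τ) := by
    rw [← Complex.mul_cpow_ofReal_nonneg (by positivity) hN0.le, ← Complex.ofReal_mul,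
      div_mul_cancel₀ _ hN0.ne']
  have e2 : (1 / √(N : ℝ) : ℂ) = ((N : ℝ) : ℂ) ^ (-(1 / 2 : ℂ) - Complex.I * τ) *
      ((N : ℝ) : ℂ) ^ (Complex.I * τ) := by
    rw [← Complex.cpow_add _ _ hNc]
    have : -(1 / 2 : ℂ) - Complex.I * τ + Complex.I * τ = ((-(1 / 2) : ℝ) : ℂ) := by
      push_cast; ring
    rw [this, ← Complex.ofReal_cpow hN0.le, Real.rpow_neg hN0.le, ← Real.sqrt_eq_rpow]
    push_cast
    rw [one_div]
  rw [e2, ← e1]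
  push_cast
  ring

private theorem d6_key {ι : Type*} (f : ℝ → ℂ)
    (hf : Integrable (fun τ => (f τ) * ((1 + |τ|) ^ 2 : ℝ))) (hfc : Continuous f) (Φ : ℝ → ℝ)
    (hΦ : ∀ t : ℝ, 0 < t → (Φ t : ℂ) = ∫ τ : ℝ, f τ * (t : ℂ) ^ (-(1 / 2 : ℂ) - Complex.I * τ))
    (t : ℝ) (ht : 0 < t) (P : Finset ι) (c g : ι → ℝ) (N : ι → ℕ) (hN : ∀ q ∈ P, 1 ≤ N q)
    (B : ℝ) (hB : ∀ τ : ℝ, ‖∑ q ∈ P, (c q : ℂ) * (g q : ℂ) * ((N q : ℕ) : ℂ) ^ (Complex.I * τ)‖ ≤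
      B * (1 + |τ|) ^ 2) :
    |∑ q ∈ P, c q / √(N q : ℝ) * (g q * Φ (t / N q))| ≤
      t ^ (-(1 / 2) : ℝ) * B * ∫ τ : ℝ, ‖f τ‖ * (1 + |τ|) ^ 2 := by
  have hfn : Integrable (fun τ => ‖f τ‖ * (1 + |τ|) ^ 2) := by
    refine hf.norm.congr (Filter.Eventually.of_forall fun τ => ?_)
    simp only [norm_mul, Complex.norm_real, Real.norm_eq_abs]
    congr 1
    exact abs_of_nonneg (by positivity)
  have hfi : Integrable f := by
    refine Integrable.mono' hfn hfc.aestronglyMeasurable (Filter.Eventually.of_forall fun τ => ?_)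
    have e1 : (1 : ℝ) ≤ (1 + |τ|) ^ 2 := by nlinarith [abs_nonneg τ]
    nlinarith [norm_nonneg (f τ)]
  have htc : (t : ℂ) ≠ 0 := by exact_mod_cast ht.ne'
  have hc1 : Continuous fun τ : ℝ => (t : ℂ) ^ (-(1 / 2 : ℂ) - Complex.I * τ) := by
    refine Continuous.const_cpow (by fun_prop) (Or.inl htc)
  have hn1 : ∀ τ : ℝ, ‖(t : ℂ) ^ (-(1 / 2 : ℂ) - Complex.I * τ)‖ = t ^ (-(1 / 2) : ℝ) := by
    intro τ
    rw [Complex.norm_cpow_eq_rpow_re_of_pos ht]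
    congr 1
    simp
  have hc2 : ∀ q ∈ P, Continuous fun τ : ℝ => ((N q : ℕ) : ℂ) ^ (Complex.I * τ) := by
    intro q hq
    refine Continuous.const_cpow (by fun_prop) (Or.inl ?_)
    have := hN q hq
    exact_mod_cast (show N q ≠ 0 by omega)
  have hn2 : ∀ q ∈ P, ∀ τ : ℝ, ‖((N q : ℕ) : ℂ) ^ (Complex.I * τ)‖ = 1 := by
    intro q hq τ
    have h0 : (0 : ℝ) < (N q : ℝ) := by exact_mod_cast hN q hq
    have h1 := Complex.norm_cpow_eq_rpow_re_of_pos h0 (Complex.I * τ)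
    simp only [Complex.ofReal_natCast] at h1
    rw [h1]
    simp
  have hterm : ∀ q ∈ P, ((c q / √(N q : ℝ) * (g q * Φ (t / N q)) : ℝ) : ℂ) =
      ∫ τ : ℝ, f τ * ((t : ℂ) ^ (-(1 / 2 : ℂ) - Complex.I * τ) *
        ((c q : ℂ) * (g q : ℂ) * ((N q : ℕ) : ℂ) ^ (Complex.I * τ))) := by
    intro q hq
    have h0 : (0 : ℝ) < (N q : ℝ) := by exact_mod_cast hN q hq
    have e1 := hΦ (t / N q) (div_pos ht h0)
    have e2 : ((c q / √(N q : ℝ) * (g q * Φ (t / N q)) : ℝ) : ℂ) =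
        ((c q : ℂ) * (g q : ℂ)) * ((1 / √(N q : ℝ) : ℂ) * (Φ (t / N q) : ℂ)) := by
      push_cast; ring
    rw [e2, e1, ← integral_const_mul, ← integral_const_mul]
    refine integral_congr_ae (Filter.Eventually.of_forall fun τ => ?_)
    have e3 := d6_pow ht (hN q hq) τ
    simp only
    calc (c q : ℂ) * (g q : ℂ) * ((1 / √(N q : ℝ) : ℂ) *
          (f τ * ((t / N q : ℝ) : ℂ) ^ (-(1 / 2 : ℂ) - Complex.I * τ))) =
        f τ * ((c q : ℂ) * (g q : ℂ)) * ((1 / √(N q : ℝ) : ℂ) *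
          (((t / N q : ℝ) : ℂ) ^ (-(1 / 2 : ℂ) - Complex.I * τ))) := by ring
      _ = _ := by rw [e3]; ring
  have hint : ∀ q ∈ P, Integrable fun τ : ℝ => f τ * ((t : ℂ) ^ (-(1 / 2 : ℂ) - Complex.I * τ) *
        ((c q : ℂ) * (g q : ℂ) * ((N q : ℕ) : ℂ) ^ (Complex.I * τ))) := by
    intro q hq
    refine Integrable.mono' (hfi.norm.mul_const (t ^ (-(1 / 2) : ℝ) * (|c q| * |g q|)))
      (hfc.mul (hc1.mul (continuous_const.mul (hc2 q hq)))).aestronglyMeasurable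
      (Filter.Eventually.of_forall fun τ => ?_)
    rw [norm_mul, norm_mul, hn1, norm_mul, hn2 q hq, norm_mul, Complex.norm_real,
      Complex.norm_real, Real.norm_eq_abs, Real.norm_eq_abs, mul_one]
  have hsum : ((∑ q ∈ P, c q / √(N q : ℝ) * (g q * Φ (t / N q)) : ℝ) : ℂ) =
      ∫ τ : ℝ, f τ * ((t : ℂ) ^ (-(1 / 2 : ℂ) - Complex.I * τ) *
        ∑ q ∈ P, (c q : ℂ) * (g q : ℂ) * ((N q : ℕ) : ℂ) ^ (Complex.I * τ)) := by
    rw [Complex.ofReal_sum, sum_congr rfl hterm, ← integral_finsetSum _ hint]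
    refine integral_congr_ae (Filter.Eventually.of_forall fun τ => ?_)
    simp only
    rw [mul_sum, mul_sum]
  have hnorm : |∑ q ∈ P, c q / √(N q : ℝ) * (g q * Φ (t / N q))| =
      ‖((∑ q ∈ P, c q / √(N q : ℝ) * (g q * Φ (t / N q)) : ℝ) : ℂ)‖ := by
    rw [Complex.norm_real, Real.norm_eq_abs]
  rw [hnorm, hsum, mul_comm (t ^ (-(1 / 2) : ℝ) * B), ← integral_mul_const]
  refine norm_integral_le_of_norm_le (hfn.mul_const _) (Filter.Eventually.of_forall fun τ => ?_)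
  rw [norm_mul, norm_mul, hn1]
  have e1 := hB τ
  have e2 : 0 ≤ t ^ (-(1 / 2) : ℝ) := by positivity
  calc ‖f τ‖ * (t ^ (-(1 / 2) : ℝ) *
        ‖∑ q ∈ P, (c q : ℂ) * (g q : ℂ) * ((N q : ℕ) : ℂ) ^ (Complex.I * τ)‖) ≤
      ‖f τ‖ * (t ^ (-(1 / 2) : ℝ) * (B * (1 + |τ|) ^ 2)) := by gcongr
    _ = ‖f τ‖ * (1 + |τ|) ^ 2 * (t ^ (-(1 / 2) : ℝ) * B) := by ring

/-! ### Assembly -/

private theorem d6_Ft_neg (F : ℝ → ℝ) (σ : ℤ) (ξ : ℝ) : Ft F σ (-ξ) = Ft F (-σ) ξ := by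
  unfold Ft
  refine integral_congr_ae (Filter.Eventually.of_forall fun t => ?_)
  simp only
  have e1 : 2 * π * -ξ * t = -(2 * π * ξ * t) := by ring
  rw [e1, Real.cos_neg, Real.sin_neg]
  push_cast
  ring

/-- the gcd sum -/
noncomputable def d6G (Z j : ℕ) : ℝ :=
  ∑ l₁ ∈ Icc 1 Z, ∑ l₂ ∈ Icc 1 Z, √((Nat.gcd j (l₁ * l₂) : ℝ) / (l₁ * l₂))

private theorem d6G_nonneg (Z j : ℕ) : 0 ≤ d6G Z j :=
  sum_nonneg fun _ _ => sum_nonneg fun _ _ => Real.sqrt_nonneg _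

private theorem d6_fold (n : ℕ) (g : ℕ → ℝ) (hg : ∀ j, 0 ≤ g j) (a : ℤ → ℝ)
    (ha : ∀ k : ℤ, k ∈ Icc (-(n : ℤ)) n → |a k| ≤ if k = 0 then 0 else g k.natAbs) :
    |∑ k ∈ Icc (-(n : ℤ)) n, a k| ≤ 2 * ∑ j ∈ Icc 1 n, g j := by
  refine (abs_sum_le_sum_abs _ _).trans ((sum_le_sum ha).trans ?_)
  rw [← sum_filter_add_sum_filter_not (Icc (-(n : ℤ)) n) (fun k => k = 0)]
  have h1 : ∑ k ∈ (Icc (-(n : ℤ)) n).filter (fun k => k = 0),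
      (if k = 0 then (0 : ℝ) else g k.natAbs) = 0 := by
    refine sum_eq_zero fun k hk => ?_
    rw [if_pos (mem_filter.mp hk).2]
  have h2 : ∑ k ∈ (Icc (-(n : ℤ)) n).filter (fun k => ¬ k = 0),
      (if k = 0 then (0 : ℝ) else g k.natAbs) =
      ∑ k ∈ (Icc (-(n : ℤ)) n).filter (fun k => ¬ k = 0), g k.natAbs := by
    refine sum_congr rfl fun k hk => ?_
    rw [if_neg (mem_filter.mp hk).2]
  rw [h1, h2, zero_add]
  have hmaps : ∀ k ∈ (Icc (-(n : ℤ)) n).filter (fun k => ¬ k = 0), k.natAbs ∈ Icc 1 n := by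
    intro k hk
    rw [mem_filter, mem_Icc] at hk
    rw [mem_Icc]
    omega
  rw [← sum_fiberwise_of_maps_to hmaps, mul_sum]
  refine sum_le_sum fun j _ => ?_
  have h3 : ∑ k ∈ ((Icc (-(n : ℤ)) n).filter (fun k => ¬ k = 0)).filter
      (fun k => k.natAbs = j), g k.natAbs =
      (((Icc (-(n : ℤ)) n).filter (fun k => ¬ k = 0)).filter
      (fun k => k.natAbs = j)).card * g j := by
    rw [sum_congr rfl (g := fun _ => g j) (fun k hk => by rw [(mem_filter.mp hk).2]), sum_const,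
      nsmul_eq_mul]
  rw [h3]
  have h4 : (((Icc (-(n : ℤ)) n).filter (fun k => ¬ k = 0)).filter
      (fun k => k.natAbs = j)).card ≤ 2 := by
    refine (card_le_card (t := {(j : ℤ), -(j : ℤ)}) ?_).trans card_le_two
    intro k hk
    have := (mem_filter.mp hk).2
    rw [mem_insert, mem_singleton]
    omega
  exact mul_le_mul_of_nonneg_right (by exact_mod_cast h4) (hg j)

theorem err_general (θ : ℝ) (hθ : 0 < θ) (hθ' : θ < 1 / 6) {F : ℝ → ℝ} {a b : ℝ} (ha : 0 < a)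
    (hF : Bump F a b) (σ : ℤ) (hσ : σ = 1 ∨ σ = -1) (r : ℕ) (hr : Odd r) (C : ℝ) (hC : 0 < C) :
    ∃ η X₀ : ℝ, 0 < η ∧ ∀ X : ℝ, X₀ ≤ X → ∀ Y : ℝ, X / C ≤ Y → Y ≤ C * X →
    ∀ W₁ W₂ : ℕ → ℕ → ℝ, LipW θ X C W₁ → LipW θ X C W₂ →
    |quad W₁ W₂ r ⌊X ^ 2⌋₊ (NS F σ Y)| ≤ X ^ (-η) := by
  classical
  obtain ⟨f₁, hf₁, hc₁, hm₁⟩ := Ft_mellin hF σ
  obtain ⟨f₂, hf₂, hc₂, hm₂⟩ := Ft_mellin hF (-σ)
  obtain ⟨I₁, hI₁⟩ : ∃ I₁, I₁ = ∫ τ : ℝ, ‖f₁ τ‖ * (1 + |τ|) ^ 2 := ⟨_, rfl⟩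
  obtain ⟨I₂, hI₂⟩ : ∃ I₂, I₂ = ∫ τ : ℝ, ‖f₂ τ‖ * (1 + |τ|) ^ 2 := ⟨_, rfl⟩
  have hI₁0 : 0 ≤ I₁ := by rw [hI₁]; exact integral_nonneg fun τ => by positivity
  have hI₂0 : 0 ≤ I₂ := by rw [hI₂]; exact integral_nonneg fun τ => by positivity
  obtain ⟨η₀, hη₀⟩ : ∃ η₀ : ℝ, η₀ = 1 / 2 - 3 * θ := ⟨_, rfl⟩
  have hη₀0 : 0 < η₀ := by rw [hη₀]; linarith
  obtain ⟨ε, hε⟩ : ∃ ε : ℝ, ε = η₀ / 8 := ⟨_, rfl⟩
  have hε0 : 0 < ε := by rw [hε]; linarith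
  obtain ⟨K, hK, hsk⟩ := sk_bound ε hε0 θ hθ (by linarith) r hr C hC
  obtain ⟨X₁, htail⟩ := NS_tail ha hF σ θ ε C 10 hθ (by linarith) hε0 hC
  obtain ⟨G, hG, hgcd⟩ := gcd_average ε hε0
  obtain ⟨D₁, hD₁⟩ : ∃ D₁ : ℝ, D₁ = (2 * C) ^ (1 / 2 : ℝ) * K * (I₁ + I₂) := ⟨_, rfl⟩
  have hD₁0 : 0 ≤ D₁ := by rw [hD₁]; positivity
  obtain ⟨E, hE⟩ : ∃ E : ℝ, E = C ^ 2 + 2 * D₁ * G + 1 := ⟨_, rfl⟩
  have hE0 : 0 < E := by rw [hE]; positivity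
  refine ⟨η₀ / 4, max (max 2 X₁) (E ^ (4 / η₀)), by linarith, ?_⟩
  intro X hX Y hY _ W₁ W₂ hW₁ hW₂
  have hX2 : 2 ≤ X := ((le_max_left _ _).trans (le_max_left _ _)).trans hX
  have hX1 : X₁ ≤ X := ((le_max_right _ _).trans (le_max_left _ _)).trans hX
  have hXE : E ^ (4 / η₀) ≤ X := (le_max_right _ _).trans hX
  have hXpos : 0 < X := by linarith
  have hXone : 1 ≤ X := by linarith
  have hYpos : 0 < Y := lt_of_lt_of_le (div_pos hXpos hC) hY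
  obtain ⟨M, hM⟩ : ∃ M : ℕ, M = ⌊X ^ 2⌋₊ := ⟨_, rfl⟩
  have hMle : (M : ℝ) ≤ X ^ 2 := by rw [hM]; exact Nat.floor_le (by positivity)
  obtain ⟨K1, hK1⟩ : ∃ K1 : ℕ, K1 = ⌊X ^ (2 * θ + ε)⌋₊ := ⟨_, rfl⟩
  have hK1le : (K1 : ℝ) ≤ X ^ (2 * θ + ε) := by rw [hK1]; exact Nat.floor_le (by positivity)
  have hK1one : 1 ≤ K1 := by
    rw [hK1]
    exact Nat.one_le_floor_iff _ |>.mpr (Real.one_le_rpow hXone (by linarith))
  obtain ⟨Z, hZ⟩ : ∃ Z : ℕ, Z = ⌊X ^ θ⌋₊ := ⟨_, rfl⟩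
  have hZle : (Z : ℝ) ≤ X ^ θ := by rw [hZ]; exact Nat.floor_le (by positivity)
  have hZone : 1 ≤ Z := by
    rw [hZ]
    exact Nat.one_le_floor_iff _ |>.mpr (Real.one_le_rpow hXone hθ.le)
  have hexp1 : 2 * θ + ε ≤ 1 := by rw [hε, hη₀]; linarith
  rw [← hM]
  -- truncation
  obtain ⟨T, hT⟩ : ∃ T : ℕ → ℝ, ∀ N, T N = ∑ k ∈ Icc (-(K1 : ℤ)) K1,
      (if IsSquare k then 0 else (-1 : ℝ) ^ k.natAbs * gg k N *
        Ft F σ ((k : ℝ) * Y / (2 * N))) := ⟨_, fun _ => rfl⟩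
  have hA : |quad W₁ W₂ r M (NS F σ Y) - quad W₁ W₂ r M T| ≤ C ^ 2 * X ^ (-(η₀ / 2)) := by
    have h1 := d6_stepA (δ := X ^ (-10 : ℝ)) hXpos hC hW₁ hW₂ r M (NS F σ Y) T (by positivity) (by
      intro N hN1 hN2
      have := htail X hX1 N hN1 hN2 Y hY
      rw [← hK1] at this
      rw [hT]
      exact this)
    refine h1.trans ?_
    have h2 : (M : ℝ) ^ 4 ≤ X ^ (8 : ℝ) := by
      calc (M : ℝ) ^ 4 ≤ (X ^ 2) ^ 4 := by gcongr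
        _ = X ^ (8 : ℝ) := by
            rw [← pow_mul]
            exact_mod_cast (Real.rpow_natCast X 8).symm
    calc (M : ℝ) ^ 4 * (C ^ 2 * X ^ (-10 : ℝ)) ≤ X ^ (8 : ℝ) * (C ^ 2 * X ^ (-10 : ℝ)) := by gcongr
      _ = C ^ 2 * X ^ (-2 : ℝ) := by
          rw [show (-2 : ℝ) = 8 + (-10) by norm_num, Real.rpow_add hXpos]
          ring
      _ ≤ C ^ 2 * X ^ (-(η₀ / 2)) := by
          have : X ^ (-2 : ℝ) ≤ X ^ (-(η₀ / 2)) :=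
            Real.rpow_le_rpow_of_exponent_le hXone (by rw [hη₀]; linarith)
          gcongr
  -- a single `k`
  have hk : ∀ k : ℤ, ¬ IsSquare k → |(k : ℝ)| ≤ X ^ (2 * θ + ε) →
      |∑ q ∈ d6P M, d6c W₁ W₂ r q / √(d6n q : ℝ) *
        ((-1 : ℝ) ^ k.natAbs * gg k (d6n q) * Ft F σ ((k : ℝ) * Y / (2 * d6n q)))| ≤
      D₁ * X ^ (-(1 / 2) + 2 * ε) * d6G Z k.natAbs := by
    intro k hsq hkle
    have hk0 : k ≠ 0 := by
      rintro rfl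
      exact hsq ⟨0, by simp⟩
    have hkpos : 0 < |(k : ℝ)| := by
      rw [abs_pos]; exact_mod_cast hk0
    obtain ⟨t, ht⟩ : ∃ t : ℝ, t = |(k : ℝ)| * (Y / 2) := ⟨_, rfl⟩
    have htpos : 0 < t := by rw [ht]; positivity
    have hkX : |(k : ℝ)| ≤ X := by
      calc |(k : ℝ)| ≤ X ^ (2 * θ + ε) := hkle
        _ ≤ X ^ (1 : ℝ) := Real.rpow_le_rpow_of_exponent_le hXone hexp1
        _ = X := Real.rpow_one X
    obtain ⟨B, hBd⟩ : ∃ B : ℝ, B = K * X ^ ε * |(k : ℝ)| ^ (1 / 2 + ε) * d6G Z k.natAbs := ⟨_, rfl⟩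
    have hG0 := d6G_nonneg Z k.natAbs
    have hB0 : 0 ≤ B := by rw [hBd]; positivity
    have hB : ∀ τ : ℝ, ‖∑ q ∈ d6P M, (d6c W₁ W₂ r q : ℂ) * (gg k (d6n q) : ℂ) *
        ((d6n q : ℕ) : ℂ) ^ (Complex.I * τ)‖ ≤ B * (1 + |τ|) ^ 2 := by
      intro τ
      have h1 := hsk X hX2 W₁ W₂ hW₁ hW₂ k hsq (by nlinarith) τ
      rw [← hM, d6_cplx, ← hZ] at h1
      refine h1.trans (le_of_eq ?_)
      rw [hBd, d6G]
      ring
    -- the sign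
    have hsign : ∑ q ∈ d6P M, d6c W₁ W₂ r q / √(d6n q : ℝ) *
        ((-1 : ℝ) ^ k.natAbs * gg k (d6n q) * Ft F σ ((k : ℝ) * Y / (2 * d6n q))) =
        (-1 : ℝ) ^ k.natAbs * ∑ q ∈ d6P M, d6c W₁ W₂ r q / √(d6n q : ℝ) *
        (gg k (d6n q) * Ft F σ ((k : ℝ) * Y / (2 * d6n q))) := by
      rw [mul_sum]
      refine sum_congr rfl fun q _ => ?_
      ring
    rw [hsign, abs_mul, abs_pow, abs_neg, abs_one, one_pow, one_mul]
    have hmain : |∑ q ∈ d6P M, d6c W₁ W₂ r q / √(d6n q : ℝ) *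
        (gg k (d6n q) * Ft F σ ((k : ℝ) * Y / (2 * d6n q)))| ≤
        t ^ (-(1 / 2) : ℝ) * B * (I₁ + I₂) := by
      rcases lt_or_gt_of_ne hk0 with hneg | hpos
      · have h1 := d6_key f₂ hf₂ hc₂ (Ft F (-σ)) hm₂ t htpos (d6P M) (d6c W₁ W₂ r)
          (fun q => gg k (d6n q)) d6n (fun q hq => d6n_pos hq) B hB
        rw [← hI₂] at h1
        have h2 : ∀ q ∈ d6P M, Ft F (-σ) (t / d6n q) = Ft F σ ((k : ℝ) * Y / (2 * d6n q)) := by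
          intro q _
          rw [← d6_Ft_neg]
          congr 1
          have : |(k : ℝ)| = -(k : ℝ) := abs_of_neg (by exact_mod_cast hneg)
          rw [ht, this]
          ring
        have h3 : ∑ q ∈ d6P M, d6c W₁ W₂ r q / √(d6n q : ℝ) *
            (gg k (d6n q) * Ft F σ ((k : ℝ) * Y / (2 * d6n q))) =
            ∑ q ∈ d6P M, d6c W₁ W₂ r q / √(d6n q : ℝ) *
            (gg k (d6n q) * Ft F (-σ) (t / d6n q)) :=
          sum_congr rfl fun q hq => by rw [h2 q hq]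
        rw [h3]
        refine h1.trans ?_
        have : 0 ≤ t ^ (-(1 / 2) : ℝ) * B := by positivity
        nlinarith
      · have h1 := d6_key f₁ hf₁ hc₁ (Ft F σ) hm₁ t htpos (d6P M) (d6c W₁ W₂ r)
          (fun q => gg k (d6n q)) d6n (fun q hq => d6n_pos hq) B hB
        rw [← hI₁] at h1
        have h2 : ∀ q ∈ d6P M, Ft F σ (t / d6n q) = Ft F σ ((k : ℝ) * Y / (2 * d6n q)) := by
          intro q _
          congr 1
          have : |(k : ℝ)| = (k : ℝ) := abs_of_pos (by exact_mod_cast hpos)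
          rw [ht, this]
          ring
        have h3 : ∑ q ∈ d6P M, d6c W₁ W₂ r q / √(d6n q : ℝ) *
            (gg k (d6n q) * Ft F σ ((k : ℝ) * Y / (2 * d6n q))) =
            ∑ q ∈ d6P M, d6c W₁ W₂ r q / √(d6n q : ℝ) *
            (gg k (d6n q) * Ft F σ (t / d6n q)) :=
          sum_congr rfl fun q hq => by rw [h2 q hq]
        rw [h3]
        refine h1.trans ?_
        have : 0 ≤ t ^ (-(1 / 2) : ℝ) * B := by positivity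
        nlinarith
    refine hmain.trans ?_
    -- powers
    have p1 : t ^ (-(1 / 2) : ℝ) = |(k : ℝ)| ^ (-(1 / 2) : ℝ) * (Y / 2) ^ (-(1 / 2) : ℝ) := by
      rw [ht, Real.mul_rpow hkpos.le (by positivity)]
    have p2 : |(k : ℝ)| ^ (-(1 / 2) : ℝ) * |(k : ℝ)| ^ (1 / 2 + ε) = |(k : ℝ)| ^ ε := by
      rw [← Real.rpow_add hkpos]
      congr 1
      ring
    have p3 : |(k : ℝ)| ^ ε ≤ X ^ ε := Real.rpow_le_rpow hkpos.le hkX hε0.le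
    have p4 : (Y / 2) ^ (-(1 / 2) : ℝ) ≤ (2 * C) ^ (1 / 2 : ℝ) * X ^ (-(1 / 2) : ℝ) := by
      have q1 : X / (2 * C) ≤ Y / 2 := by
        rw [div_le_iff₀ (by positivity)]
        rw [div_le_iff₀ hC] at hY
        nlinarith
      have q2 : (Y / 2) ^ (-(1 / 2) : ℝ) ≤ (X / (2 * C)) ^ (-(1 / 2) : ℝ) :=
        Real.rpow_le_rpow_of_nonpos (by positivity) q1 (by norm_num)
      refine q2.trans (le_of_eq ?_)
      rw [Real.div_rpow hXpos.le (by positivity), Real.rpow_neg (by positivity : 0 ≤ 2 * C),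
        div_inv_eq_mul, mul_comm]
    have p5 : X ^ (-(1 / 2) + 2 * ε) = X ^ (-(1 / 2) : ℝ) * X ^ ε * X ^ ε := by
      rw [← Real.rpow_add hXpos, ← Real.rpow_add hXpos]
      congr 1
      ring
    calc t ^ (-(1 / 2) : ℝ) * B * (I₁ + I₂) =
        (Y / 2) ^ (-(1 / 2) : ℝ) * (|(k : ℝ)| ^ (-(1 / 2) : ℝ) * |(k : ℝ)| ^ (1 / 2 + ε)) *
          (K * X ^ ε * d6G Z k.natAbs * (I₁ + I₂)) := by rw [p1, hBd]; ring
      _ = (Y / 2) ^ (-(1 / 2) : ℝ) * |(k : ℝ)| ^ ε * (K * X ^ ε * d6G Z k.natAbs * (I₁ + I₂)) := by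
          rw [p2]
      _ ≤ ((2 * C) ^ (1 / 2 : ℝ) * X ^ (-(1 / 2) : ℝ)) * X ^ ε *
          (K * X ^ ε * d6G Z k.natAbs * (I₁ + I₂)) := by gcongr
      _ = D₁ * X ^ (-(1 / 2) + 2 * ε) * d6G Z k.natAbs := by rw [hD₁, p5]; ring
  -- the truncated sum
  have hTb : |quad W₁ W₂ r M T| ≤ 2 * D₁ * G * X ^ (-(η₀ / 2)) := by
    have h1 : quad W₁ W₂ r M T = ∑ k ∈ Icc (-(K1 : ℤ)) K1, ∑ q ∈ d6P M,
        d6c W₁ W₂ r q / √(d6n q : ℝ) * (if IsSquare k then 0 else (-1 : ℝ) ^ k.natAbs *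
          gg k (d6n q) * Ft F σ ((k : ℝ) * Y / (2 * d6n q))) := by
      rw [d6_quad, sum_comm]
      refine sum_congr rfl fun q _ => ?_
      rw [hT, mul_sum]
    rw [h1]
    have h2 := d6_fold K1 (fun j => D₁ * X ^ (-(1 / 2) + 2 * ε) * d6G Z j)
      (fun j => mul_nonneg (mul_nonneg hD₁0 (by positivity)) (d6G_nonneg Z j))
      (fun k => ∑ q ∈ d6P M, d6c W₁ W₂ r q / √(d6n q : ℝ) * (if IsSquare k then 0 else
        (-1 : ℝ) ^ k.natAbs * gg k (d6n q) * Ft F σ ((k : ℝ) * Y / (2 * d6n q)))) (by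
      intro k hkm
      rw [mem_Icc] at hkm
      by_cases hsq : IsSquare k
      · simp only [if_pos hsq, mul_zero, sum_const_zero, abs_zero]
        split_ifs
        · exact le_refl _
        · exact mul_nonneg (mul_nonneg hD₁0 (by positivity)) (d6G_nonneg Z _)
      · have hk0 : k ≠ 0 := by
          rintro rfl
          exact hsq ⟨0, by simp⟩
        simp only [if_neg hsq, if_neg hk0]
        refine hk k hsq ?_
        have h3 : |(k : ℝ)| ≤ K1 := by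
          rw [abs_le]
          constructor
          · exact_mod_cast hkm.1
          · exact_mod_cast hkm.2
        exact h3.trans hK1le)
    refine h2.trans ?_
    rw [← mul_sum]
    have h4 : ∑ j ∈ Icc 1 K1, d6G Z j ≤ G * X ^ ((3 * θ + ε) * (1 + ε)) := by
      have h5 := hgcd K1 Z hK1one hZone
      refine h5.trans ?_
      have h6 : (K1 : ℝ) * Z ≤ X ^ (3 * θ + ε) := by
        calc (K1 : ℝ) * Z ≤ X ^ (2 * θ + ε) * X ^ θ := by gcongr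
          _ = X ^ (3 * θ + ε) := by rw [← Real.rpow_add hXpos]; congr 1; ring
      have h7 : ((K1 : ℝ) * Z) ^ (1 + ε) ≤ X ^ ((3 * θ + ε) * (1 + ε)) := by
        rw [Real.rpow_mul hXpos.le]
        exact Real.rpow_le_rpow (by positivity) h6 (by linarith)
      gcongr
    have h8 : X ^ (-(1 / 2) + 2 * ε) * X ^ ((3 * θ + ε) * (1 + ε)) ≤ X ^ (-(η₀ / 2)) := by
      rw [← Real.rpow_add hXpos]
      refine Real.rpow_le_rpow_of_exponent_le hXone ?_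
      have h9 : 3 * θ + ε ≤ 1 := by rw [hε, hη₀]; linarith
      have h10 : ε * (3 * θ + ε) ≤ ε * 1 := mul_le_mul_of_nonneg_left h9 hε0.le
      have h11 : 3 * θ = 1 / 2 - η₀ := by rw [hη₀]; ring
      have h12 : η₀ = 8 * ε := by rw [hε]; ring
      nlinarith
    have h13 : 0 ≤ D₁ * X ^ (-(1 / 2) + 2 * ε) := by positivity
    calc 2 * (D₁ * X ^ (-(1 / 2) + 2 * ε) * ∑ j ∈ Icc 1 K1, d6G Z j) ≤
        2 * (D₁ * X ^ (-(1 / 2) + 2 * ε) * (G * X ^ ((3 * θ + ε) * (1 + ε)))) := by gcongr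
      _ = 2 * D₁ * G * (X ^ (-(1 / 2) + 2 * ε) * X ^ ((3 * θ + ε) * (1 + ε))) := by ring
      _ ≤ 2 * D₁ * G * X ^ (-(η₀ / 2)) := by gcongr
  have hfin : |quad W₁ W₂ r M (NS F σ Y)| ≤ E * X ^ (-(η₀ / 2)) := by
    have h1 : |quad W₁ W₂ r M (NS F σ Y)| ≤
        |quad W₁ W₂ r M (NS F σ Y) - quad W₁ W₂ r M T| + |quad W₁ W₂ r M T| := by
      have := abs_add_le (quad W₁ W₂ r M (NS F σ Y) - quad W₁ W₂ r M T) (quad W₁ W₂ r M T)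
      rwa [sub_add_cancel] at this
    have h2 : 0 ≤ X ^ (-(η₀ / 2)) := by positivity
    rw [hE]
    nlinarith
  refine hfin.trans ?_
  have hEX : E ≤ X ^ (η₀ / 4) := by
    have h1 : (E ^ (4 / η₀)) ^ (η₀ / 4) ≤ X ^ (η₀ / 4) :=
      Real.rpow_le_rpow (by positivity) hXE (by linarith)
    rw [← Real.rpow_mul hE0.le] at h1
    have h2 : 4 / η₀ * (η₀ / 4) = 1 := by field_simp
    rwa [h2, Real.rpow_one] at h1
  calc E * X ^ (-(η₀ / 2)) ≤ X ^ (η₀ / 4) * X ^ (-(η₀ / 2)) := by gcongr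
    _ = X ^ (-(η₀ / 4)) := by rw [← Real.rpow_add hXpos]; congr 1; ring

end Pool.Agent.MP0016c7.Rz
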