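import Mathlib
import Pool.Agent.Lib.MP_0016c7_nt.Theta
import Pool.Agent.Lib.MP_0016c7_nt.Rz.Defs
import Pool.Agent.Lib.MP_0016c7_nt.Rz.DefsC
import Pool.Agent.Lib.MP_0016c7_nt.Rz.DefsF
import Pool.Agent.Lib.MP_0016c7_nt.Rz.DefsE
import Pool.Agent.Lib.MP_0016c7_nt.Rz.ErrD6
import Pool.Agent.Lib.MP_0016c7_nt.Rz.LipWt

set_option autoImplicit false

open Finset MeasureTheory Filter Topology
open scoped Real ContDiff

namespace Pool.Agent.MP0016c7.Rz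

private theorem D8_mono {θ X C C' : ℝ} {W : ℕ → ℕ → ℝ} (h : LipW θ X C W) (hC : C ≤ C') :
    LipW θ X C' W where
  bd := fun l n => (h.bd l n).trans hC
  lip := fun l m n hm hn => (h.lip l m n hm hn).trans
    (mul_le_mul_of_nonneg_right hC (abs_nonneg _))
  supp₁ := h.supp₁
  supp₂ := h.supp₂

theorem errS_of_lt (θ₁ δ : ℝ) (hθ₁ : 0 < θ₁) (hδ : 0 < δ) (hθ : θ₁ + 3 * δ < 1 / 6) : ErrS θ₁ δ := by
  intro F a b ha hF σ hσ r hr hrs c hc ρ₁ ρ₂ h hρ₁ hρ₂ hh ε hε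
  obtain ⟨C₁, X₁, hC₁, H₁⟩ := lipW_Wt θ₁ δ hθ₁ hδ (by linarith) c hc hρ₁ hh
  obtain ⟨C₂, X₂, hC₂, H₂⟩ := lipW_Wt θ₁ δ hθ₁ hδ (by linarith) c hc hρ₂ hh
  have hr1 : (1 : ℝ) ≤ r := by exact_mod_cast hr.pos
  have hr2 : (1 : ℝ) ≤ (r : ℝ) ^ 2 := one_le_pow₀ hr1
  set C : ℝ := C₁ + C₂ + (r : ℝ) ^ 2 with hC
  have hC0 : 0 < C := by positivity
  obtain ⟨η, X₃, hη, H₃⟩ := err_general (θ₁ + 3 * δ) (by positivity) hθ ha hF σ hσ r hr C hC0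
  have hlim : Tendsto (fun X : ℝ => X ^ (-η)) atTop (𝓝 0) := tendsto_rpow_neg_atTop hη
  obtain ⟨X₄, H₄⟩ := Filter.eventually_atTop.1 (hlim.eventually (gt_mem_nhds hε))
  refine ⟨max (max (max X₁ X₂) (max X₃ X₄)) 0, fun X hX Y₁ hY₁ Y₂ hY₂ => ?_⟩
  have hX1 : X₁ ≤ X := le_trans (le_trans (le_max_left _ _) ((le_max_left _ _).trans (le_max_left _ _))) hX
  have hX2 : X₂ ≤ X := le_trans (le_trans (le_max_right _ _) ((le_max_left _ _).trans (le_max_left _ _))) hX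
  have hX3 : X₃ ≤ X := le_trans (le_trans (le_max_left _ _) ((le_max_right _ _).trans (le_max_left _ _))) hX
  have hX4 : X₄ ≤ X := le_trans (le_trans (le_max_right _ _) ((le_max_right _ _).trans (le_max_left _ _))) hX
  have hX0 : 0 ≤ X := (le_max_right _ _).trans hX
  have h1 : X / C ≤ X / (r : ℝ) ^ 2 := by
    refine div_le_div_of_nonneg_left hX0 (by positivity) ?_
    rw [hC]
    linarith
  have h2 : X / (r : ℝ) ^ 2 ≤ C * X := by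
    have h3 : X / (r : ℝ) ^ 2 ≤ X := div_le_self hX0 hr2
    have h4 : (1 : ℝ) ≤ C := by
      rw [hC]
      linarith
    nlinarith
  have hle := H₃ X hX3 (X / (r : ℝ) ^ 2) h1 h2 (Wt c ρ₁ h X θ₁ δ Y₁) (Wt c ρ₂ h X θ₁ δ Y₂)
    (D8_mono (H₁ X hX1 Y₁ hY₁) (by rw [hC]; linarith [sq_nonneg (r : ℝ)]))
    (D8_mono (H₂ X hX2 Y₂ hY₂) (by rw [hC]; linarith [sq_nonneg (r : ℝ)]))
  exact hle.trans (H₄ X hX4).le

end Pool.Agent.MP0016c7.Rz
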