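import Mathlib
import Pool.Agent.Lib.MP_0016c7_nt.Theta
import Pool.Agent.Lib.MP_0016c7_nt.Rz.Defs
import Pool.Agent.Lib.MP_0016c7_nt.Rz.DefsC
import Pool.Agent.Lib.MP_0016c7_nt.Rz.DefsF
import Pool.Agent.Lib.MP_0016c7_nt.Rz.DefsE

set_option autoImplicit false

open Finset MeasureTheory Filter Topology
open scoped Real ContDiff

namespace Pool.Agent.MP0016c7.Rz

theorem rank_one_cs {V g₀ : ℝ} (hV : 0 < V) (hg : 0 < g₀) {w f c : ℝ → ℝ}
    (hw : ContinuousOn w (Set.Icc 0 V)) (hwp : ∀ v ∈ Set.Icc 0 V, 0 < w v)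
    (hf : ContinuousOn f (Set.Icc 0 V)) (hc : ContinuousOn c (Set.Icc 0 V)) :
    (∫ v in (0 : ℝ)..V, c v * f v) ^ 2 ≤ qf w g₀ V f * Kf w g₀ V c := by
  have hwne : ∀ v ∈ Set.Icc 0 V, w v ≠ 0 := fun v hv => (hwp v hv).ne'
  have ii : ∀ {u : ℝ → ℝ}, ContinuousOn u (Set.Icc 0 V) → IntervalIntegrable u volume 0 V :=
    fun hu => hu.intervalIntegrable_of_Icc hV.le
  have iA : IntervalIntegrable (fun v => w v * f v ^ 2) volume 0 V := ii (hw.mul (hf.pow 2))
  have iB : IntervalIntegrable (fun v => c v * f v) volume 0 V := ii (hc.mul hf)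
  have iF : IntervalIntegrable f volume 0 V := ii hf
  have iC : IntervalIntegrable (fun v => c v ^ 2 / w v) volume 0 V := ii ((hc.pow 2).div hw hwne)
  have iP : IntervalIntegrable (fun v => c v / w v) volume 0 V := ii (hc.div hw hwne)
  have iW : IntervalIntegrable (fun v => 1 / w v) volume 0 V :=
    ii (continuousOn_const.div hw hwne)
  unfold qf Kf
  set A := ∫ v in (0 : ℝ)..V, w v * f v ^ 2 with hA
  set B := ∫ v in (0 : ℝ)..V, c v * f v with hB
  set F := ∫ v in (0 : ℝ)..V, f v with hF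
  set C := ∫ v in (0 : ℝ)..V, c v ^ 2 / w v with hC
  set P := ∫ v in (0 : ℝ)..V, c v / w v with hP
  set W := ∫ v in (0 : ℝ)..V, 1 / w v with hW
  have hW0 : 0 ≤ W := by
    apply intervalIntegral.integral_nonneg hV.le
    intro v hv
    have := hwp v hv
    positivity
  have hD : 0 < W + 1 / g₀ := by positivity
  set t : ℝ := P / (W + 1 / g₀) with ht
  have key : ∀ s : ℝ, 0 ≤ (C - P ^ 2 / (W + 1 / g₀)) * (s * s) + (-2 * B) * s + (A + g₀ * F ^ 2) := by
    intro s
    have h1 : 0 ≤ ∫ v in (0 : ℝ)..V, (w v * f v ^ 2 - 2 * s * (c v * f v) + 2 * s * t * f v +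
        s ^ 2 * (c v ^ 2 / w v) - s ^ 2 * (2 * t) * (c v / w v) + s ^ 2 * t ^ 2 * (1 / w v)) := by
      apply intervalIntegral.integral_nonneg hV.le
      intro v hv
      have hwv := hwp v hv
      have : w v * f v ^ 2 - 2 * s * (c v * f v) + 2 * s * t * f v +
          s ^ 2 * (c v ^ 2 / w v) - s ^ 2 * (2 * t) * (c v / w v) + s ^ 2 * t ^ 2 * (1 / w v) =
          (w v * f v - s * (c v - t)) ^ 2 / w v := by
        field_simp
        ring
      rw [this]
      positivity
    rw [intervalIntegral.integral_add, intervalIntegral.integral_sub, intervalIntegral.integral_add,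
      intervalIntegral.integral_add, intervalIntegral.integral_sub,
      intervalIntegral.integral_const_mul, intervalIntegral.integral_const_mul,
      intervalIntegral.integral_const_mul, intervalIntegral.integral_const_mul,
      intervalIntegral.integral_const_mul] at h1
    · have h2 : 0 ≤ g₀ * (F - s * t / g₀) ^ 2 := by positivity
      have h3 : (C - P ^ 2 / (W + 1 / g₀)) * (s * s) + (-2 * B) * s + (A + g₀ * F ^ 2) =
          (A - 2 * s * B + 2 * s * t * F + s ^ 2 * C - s ^ 2 * (2 * t) * P + s ^ 2 * t ^ 2 * W) +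
            g₀ * (F - s * t / g₀) ^ 2 := by
        have h4 : P ^ 2 / (W + 1 / g₀) = 2 * t * P - t ^ 2 * (W + 1 / g₀) := by
          rw [ht]
          field_simp
          ring
        rw [h4]
        field_simp
        ring
      rw [h3]
      exact add_nonneg h1 h2
    all_goals first
      | exact iA
      | exact iB.const_mul _
      | exact iF.const_mul _
      | exact iC.const_mul _
      | exact iP.const_mul _
      | exact iW.const_mul _
      | exact iA.sub (iB.const_mul _)
      | exact (iA.sub (iB.const_mul _)).add (iF.const_mul _)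
      | exact ((iA.sub (iB.const_mul _)).add (iF.const_mul _)).add (iC.const_mul _)
      | exact (((iA.sub (iB.const_mul _)).add (iF.const_mul _)).add (iC.const_mul _)).sub (iP.const_mul _)
  have hd := discrim_le_zero key
  unfold discrim at hd
  nlinarith

theorem qf_add {V g₀ η : ℝ} (hV : 0 < V) (hg : 0 < g₀) (hη : 0 < η) {w f g : ℝ → ℝ}
    (hw : ContinuousOn w (Set.Icc 0 V)) (hwp : ∀ v ∈ Set.Icc 0 V, 0 < w v)
    (hf : ContinuousOn f (Set.Icc 0 V)) (hg' : ContinuousOn g (Set.Icc 0 V)) :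
    0 ≤ qf w g₀ V f ∧
    qf w g₀ V (fun v => f v + g v) ≤ (1 + η) * qf w g₀ V f + (1 + 1 / η) * qf w g₀ V g := by
  have ii : ∀ {u : ℝ → ℝ}, ContinuousOn u (Set.Icc 0 V) → IntervalIntegrable u volume 0 V :=
    fun hu => hu.intervalIntegrable_of_Icc hV.le
  have pt : ∀ x y : ℝ, (x + y) ^ 2 ≤ (1 + η) * x ^ 2 + (1 + 1 / η) * y ^ 2 := by
    intro x y
    have h1 : 0 ≤ (η * x - y) ^ 2 / η := by positivity
    have h2 : (1 + η) * x ^ 2 + (1 + 1 / η) * y ^ 2 - (x + y) ^ 2 = (η * x - y) ^ 2 / η := by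
      field_simp
      ring
    linarith
  constructor
  · unfold qf
    apply add_nonneg _ (by positivity)
    apply intervalIntegral.integral_nonneg hV.le
    intro v hv
    have := hwp v hv
    positivity
  · unfold qf
    have h1 : ∫ v in (0 : ℝ)..V, w v * (f v + g v) ^ 2 ≤
        ∫ v in (0 : ℝ)..V, ((1 + η) * (w v * f v ^ 2) + (1 + 1 / η) * (w v * g v ^ 2)) := by
      apply intervalIntegral.integral_mono_on hV.le
      · exact ii (hw.mul ((hf.add hg').pow 2))
      · exact ii ((continuousOn_const.mul (hw.mul (hf.pow 2))).add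
          (continuousOn_const.mul (hw.mul (hg'.pow 2))))
      · intro v hv
        have h2 := mul_le_mul_of_nonneg_left (pt (f v) (g v)) (hwp v hv).le
        calc w v * (f v + g v) ^ 2 ≤ w v * ((1 + η) * f v ^ 2 + (1 + 1 / η) * g v ^ 2) := h2
          _ = _ := by ring
    have i1 : IntervalIntegrable (fun v => (1 + η) * (w v * f v ^ 2)) volume 0 V :=
      ii (continuousOn_const.mul (hw.mul (hf.pow 2)))
    have i2 : IntervalIntegrable (fun v => (1 + 1 / η) * (w v * g v ^ 2)) volume 0 V :=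
      ii (continuousOn_const.mul (hw.mul (hg'.pow 2)))
    rw [intervalIntegral.integral_add i1 i2, intervalIntegral.integral_const_mul,
      intervalIntegral.integral_const_mul] at h1
    have h0 : ∫ v in (0 : ℝ)..V, (f v + g v) =
        (∫ v in (0 : ℝ)..V, f v) + ∫ v in (0 : ℝ)..V, g v :=
      intervalIntegral.integral_add (ii hf) (ii hg')
    beta_reduce
    rw [h0]
    have h3 := mul_le_mul_of_nonneg_left (pt (∫ v in (0 : ℝ)..V, f v) (∫ v in (0 : ℝ)..V, g v)) hg.le
    calc _ ≤ ((1 + η) * (∫ v in (0 : ℝ)..V, w v * f v ^ 2) +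
          (1 + 1 / η) * ∫ v in (0 : ℝ)..V, w v * g v ^ 2) +
          g₀ * ((1 + η) * (∫ v in (0 : ℝ)..V, f v) ^ 2 + (1 + 1 / η) * (∫ v in (0 : ℝ)..V, g v) ^ 2) :=
          add_le_add h1 h3
      _ = _ := by ring

end Pool.Agent.MP0016c7.Rz
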