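import Mathlib
import Pool.Agent.Lib.MP_0016c7_nt.Theta
import Pool.Agent.Lib.MP_0016c7_nt.Rz.Defs
import Pool.Agent.Lib.MP_0016c7_nt.Rz.DefsC
import Pool.Agent.Lib.MP_0016c7_nt.Rz.DefsF
import Pool.Agent.Lib.MP_0016c7_nt.Rz.DefsE
import Pool.Agent.Lib.MP_0016c7_nt.Rz.Sm5
import Pool.Agent.Lib.MP_0016c7_nt.Rz.Ker4

set_option autoImplicit false

open Finset MeasureTheory Filter Topology
open scoped Real ContDiff

namespace Pool.Agent.MP0016c7.Rz

/-- integral inequality without integrability of the smaller function -/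
private lemma Fa3_int_le {f g : ℝ → ℝ} (hg : Integrable g) (h0 : ∀ x, 0 ≤ g x)
    (h : ∀ x, f x ≤ g x) : ∫ x, f x ≤ ∫ x, g x := by
  by_cases hf : Integrable f
  · exact integral_mono hf hg h
  · rw [integral_undef hf]
    exact integral_nonneg h0

private lemma Fa3_bump_int {ρ : ℝ → ℝ} {a b : ℝ} (hρ : Bump ρ a b) : Integrable ρ := by
  refine hρ.smooth.continuous.integrable_of_hasCompactSupport ?_
  refine HasCompactSupport.intro (isCompact_Icc (a := a) (b := b)) fun x hx => ?_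
  by_contra h
  obtain ⟨h1, h2⟩ := hρ.supp x h
  exact hx ⟨h1.le, h2.le⟩

private lemma Fa3_HH {h : ℝ → ℝ} {a θ : ℝ} (hh : Bump h a θ) {t : ℝ} (ht : t ≤ a) :
    HH h t = ∫ x, h x := by
  unfold HH
  refine setIntegral_eq_integral_of_forall_compl_eq_zero fun x hx => ?_
  by_contra hne
  have := (hh.supp x hne).1
  exact hx (lt_of_le_of_lt ht this)

/-- the bound of the covariance -/
private lemma Fa3_CC {ρ h : ℝ → ℝ} {δ θ : ℝ} (hδ : 0 < δ) (hρ : Bump ρ (-(δ / 2)) (δ / 2))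
    (hρn : ∀ y, 0 ≤ ρ y) (hρ1 : ∫ y, ρ y = 1) (hh : Bump h (2 * δ) θ) {v v' : ℝ}
    (hv : v ∈ Set.Icc 0 (1 / 2 + δ)) (hv' : v' ∈ Set.Icc 0 (1 / 2 + δ)) :
    CC ρ ρ h (1 / 2 - v) (1 / 2 - v') ≤
      HH h 0 ^ 2 + (∫ t, h t ^ 2) * min (1 / 2 + δ - v) (1 / 2 + δ - v') := by
  set s := ∫ t, h t ^ 2 with hs
  have hs0 : 0 ≤ s := integral_nonneg fun t => sq_nonneg _
  set M := min (1 / 2 + δ - v) (1 / 2 + δ - v') with hM
  have hM0 : 0 ≤ M := le_min (by linarith [hv.2]) (by linarith [hv'.2])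
  set K := HH h 0 ^ 2 + s * M with hK
  have hK0 : 0 ≤ K := by positivity
  have hint := Fa3_bump_int hρ
  have hpt : ∀ x y, ρ x * ρ y * (HH h (x - (1 / 2 - v)) * HH h (y - (1 / 2 - v')) +
      s * (max (min (1 / 2 - v - x) (1 / 2 - v' - y)) 0 -
        max (1 / 2 - v - x + (1 / 2 - v' - y) - 1) 0)) ≤ ρ x * ρ y * K := by
    intro x y
    by_cases hx : ρ x = 0
    · rw [hx]; simp
    by_cases hy : ρ y = 0
    · rw [hy]; simp
    obtain ⟨x1, x2⟩ := hρ.supp x hx
    obtain ⟨y1, y2⟩ := hρ.supp y hy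
    refine mul_le_mul_of_nonneg_left ?_ (mul_nonneg (hρn x) (hρn y))
    have e1 : HH h (x - (1 / 2 - v)) = HH h 0 := by
      rw [Fa3_HH hh (by linarith [hv.2]), Fa3_HH hh (by linarith)]
    have e2 : HH h (y - (1 / 2 - v')) = HH h 0 := by
      rw [Fa3_HH hh (by linarith [hv'.2]), Fa3_HH hh (by linarith)]
    rw [e1, e2, hK, sq]
    refine add_le_add le_rfl (mul_le_mul_of_nonneg_left ?_ hs0)
    have e3 : max (min (1 / 2 - v - x) (1 / 2 - v' - y)) 0 ≤ M := by
      refine max_le ?_ hM0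
      exact min_le_min (by linarith) (by linarith)
    have e4 : 0 ≤ max (1 / 2 - v - x + (1 / 2 - v' - y) - 1) 0 := le_max_right _ _
    linarith
  have hinner : ∀ x, ∫ y, ρ x * ρ y * K = ρ x * K := by
    intro x
    have e : (fun y => ρ x * ρ y * K) = fun y => (ρ x * K) * ρ y := by
      funext y; ring
    rw [e, integral_const_mul, hρ1, mul_one]
  unfold CC
  have h1 : ∀ x, ∫ y, ρ x * ρ y * (HH h (x - (1 / 2 - v)) * HH h (y - (1 / 2 - v')) +
      s * (max (min (1 / 2 - v - x) (1 / 2 - v' - y)) 0 -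
        max (1 / 2 - v - x + (1 / 2 - v' - y) - 1) 0)) ≤ ρ x * K := by
    intro x
    rw [← hinner x]
    refine Fa3_int_le ?_ (fun y => mul_nonneg (mul_nonneg (hρn x) (hρn y)) hK0) (hpt x)
    have e : (fun y => ρ x * ρ y * K) = fun y => (ρ x * K) * ρ y := by
      funext y; ring
    rw [e]
    exact hint.const_mul _
  refine (Fa3_int_le (hint.mul_const K) (fun x => mul_nonneg (hρn x) hK0) h1).trans ?_
  rw [integral_mul_const, hρ1, one_mul]

/-- the average is a finite sum -/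
private lemma Fa3_tsum {F : ℝ → ℝ} {a b : ℝ} (hF : Bump F a b) {r : ℕ} (hr : 0 < r) {X : ℝ}
    (hX : 0 < X) : ∃ (N : ℕ) (cf : ℕ → ℝ), ∀ g : ℕ → ℝ,
      2 * r ^ 2 / X * ∑' d : ℕ, (if Odd d then F (d * r ^ 2 / X) * g d else 0) =
        ∑ d ∈ range N, cf d * g d := by
  have hr' : (0 : ℝ) < r := by exact_mod_cast hr
  refine ⟨⌈b * X / r ^ 2⌉₊, fun d => 2 * r ^ 2 / X * (if Odd d then F (d * r ^ 2 / X) else 0),
    fun g => ?_⟩
  rw [tsum_eq_sum (s := range ⌈b * X / r ^ 2⌉₊), Finset.mul_sum]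
  · refine Finset.sum_congr rfl fun d _ => ?_
    by_cases hd : Odd d
    · simp only [hd, if_true]
      ring
    · simp only [hd, if_false]
      ring
  · intro d hd
    have hd' : b * X / r ^ 2 ≤ d := by
      refine (Nat.le_ceil _).trans ?_
      exact_mod_cast not_lt.mp fun h => hd (Finset.mem_range.mpr h)
    have h0 : F (d * r ^ 2 / X) = 0 := by
      by_contra hne
      have h1 := (hF.supp _ hne).2
      rw [div_le_iff₀ (by positivity)] at hd'
      rw [div_lt_iff₀ hX] at h1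
      linarith
    rw [h0, zero_mul, ite_self]

private lemma Fa3_ii {V : ℝ} (hV : 0 ≤ V) {f : ℝ → ℝ} (hf : ContinuousOn f (Set.Icc 0 V)) :
    IntervalIntegrable f volume 0 V := hf.intervalIntegrable_of_Icc hV

/-- the finite averages -/
private lemma Fa3_fin {V g₀ : ℝ} (hV : 0 ≤ V) {w : ℝ → ℝ} (hw : ContinuousOn w (Set.Icc 0 V))
    {N : ℕ} {cf : ℕ → ℝ} {f : ℕ → ℝ → ℝ} (hf : ∀ d, ContinuousOn (f d) (Set.Icc 0 V))
    {G : ℝ → ℝ → ℝ} (hG : ∀ v v', G v v' = ∑ d ∈ range N, cf d * (f d v * f d v')) :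
    ContinuousOn (fun v => G v v) (Set.Icc 0 V) ∧
    (∀ v, ContinuousOn (fun v' => G v v') (Set.Icc 0 V)) ∧
    ContinuousOn (fun v => ∫ v' in (0 : ℝ)..V, G v v') (Set.Icc 0 V) ∧
    ∑ d ∈ range N, cf d * qf w g₀ V (f d) =
      (∫ v in (0 : ℝ)..V, w v * G v v) + g₀ * ∫ v in (0 : ℝ)..V, ∫ v' in (0 : ℝ)..V, G v v' := by
  have hJ : ∀ v, ∫ v' in (0 : ℝ)..V, G v v' =
      ∑ d ∈ range N, cf d * (f d v * ∫ v' in (0 : ℝ)..V, f d v') := by
    intro v
    have e : (fun v' => G v v') = fun v' => ∑ d ∈ range N, (cf d * f d v) * f d v' := by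
      funext v'
      rw [hG]
      exact Finset.sum_congr rfl fun d _ => by ring
    rw [e, intervalIntegral.integral_finsetSum fun d _ => (Fa3_ii hV (hf d)).const_mul _]
    refine Finset.sum_congr rfl fun d _ => ?_
    rw [intervalIntegral.integral_const_mul, mul_assoc]
  refine ⟨?_, ?_, ?_, ?_⟩
  · have e : (fun v => G v v) = fun v => ∑ d ∈ range N, cf d * (f d v * f d v) := by
      funext v; rw [hG]
    rw [e]
    exact continuousOn_finsetSum _ fun d _ => continuousOn_const.mul ((hf d).mul (hf d))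
  · intro v
    have e : (fun v' => G v v') = fun v' => ∑ d ∈ range N, cf d * (f d v * f d v') := by
      funext v'; rw [hG]
    rw [e]
    exact continuousOn_finsetSum _ fun d _ =>
      continuousOn_const.mul (continuousOn_const.mul (hf d))
  · rw [funext hJ]
    exact continuousOn_finsetSum _ fun d _ =>
      continuousOn_const.mul ((hf d).mul continuousOn_const)
  · have e1 : ∫ v in (0 : ℝ)..V, w v * G v v =
        ∑ d ∈ range N, cf d * ∫ v in (0 : ℝ)..V, w v * f d v ^ 2 := by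
      have e : (fun v => w v * G v v) = fun v => ∑ d ∈ range N, cf d * (w v * f d v ^ 2) := by
        funext v
        rw [hG, Finset.mul_sum]
        exact Finset.sum_congr rfl fun d _ => by ring
      have hi : ∀ d ∈ range N, IntervalIntegrable (fun v => cf d * (w v * f d v ^ 2)) volume 0 V :=
        fun d _ => Fa3_ii hV (continuousOn_const.mul (hw.mul ((hf d).pow 2)))
      rw [e, intervalIntegral.integral_finsetSum hi]
      refine Finset.sum_congr rfl fun d _ => ?_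
      rw [intervalIntegral.integral_const_mul]
    have e2 : ∫ v in (0 : ℝ)..V, ∫ v' in (0 : ℝ)..V, G v v' =
        ∑ d ∈ range N, cf d * (∫ v in (0 : ℝ)..V, f d v) ^ 2 := by
      have hi : ∀ d ∈ range N, IntervalIntegrable
          (fun v => cf d * (f d v * ∫ v' in (0 : ℝ)..V, f d v')) volume 0 V :=
        fun d _ => Fa3_ii hV (continuousOn_const.mul ((hf d).mul continuousOn_const))
      rw [funext hJ, intervalIntegral.integral_finsetSum hi]
      refine Finset.sum_congr rfl fun d _ => ?_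
      rw [intervalIntegral.integral_const_mul, intervalIntegral.integral_mul_const, sq]
    rw [e1, e2, Finset.mul_sum, ← Finset.sum_add_distrib]
    refine Finset.sum_congr rfl fun d _ => ?_
    unfold qf
    ring

private lemma Fa3_diff {V ε : ℝ} (hV : 0 ≤ V) {f g : ℝ → ℝ} (hf : ContinuousOn f (Set.Icc 0 V))
    (hg : ContinuousOn g (Set.Icc 0 V)) (h : ∀ v ∈ Set.Icc 0 V, |f v - g v| ≤ ε) :
    |(∫ v in (0 : ℝ)..V, f v) - ∫ v in (0 : ℝ)..V, g v| ≤ V * ε := by
  rw [← intervalIntegral.integral_sub (Fa3_ii hV hf) (Fa3_ii hV hg)]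
  have h1 := intervalIntegral.norm_integral_le_of_norm_le_const (a := 0) (b := V) (C := ε)
    (f := fun v => f v - g v) fun v hv => by
      rw [Set.uIoc_of_le hV] at hv
      rw [Real.norm_eq_abs]
      exact h v ⟨hv.1.le, hv.2⟩
  rw [Real.norm_eq_abs, sub_zero, abs_of_nonneg hV] at h1
  linarith

/-- uniform limits of continuous functions -/
private lemma Fa3_cont {V : ℝ} {fX : ℝ → ℝ → ℝ} {f : ℝ → ℝ}
    (hc : ∀ᶠ X in atTop, ContinuousOn (fX X) (Set.Icc 0 V))
    (hu : ∀ ε : ℝ, 0 < ε → ∀ᶠ X in atTop, ∀ v ∈ Set.Icc 0 V, |fX X v - f v| ≤ ε) :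
    ContinuousOn f (Set.Icc 0 V) := by
  have h1 : TendstoUniformlyOn fX f atTop (Set.Icc 0 V) := by
    rw [Metric.tendstoUniformlyOn_iff]
    intro ε hε
    filter_upwards [hu (ε / 2) (by positivity)] with X hX v hv
    rw [dist_comm, Real.dist_eq]
    linarith [hX v hv]
  exact h1.continuousOn hc.frequently

/-- the double integral of the minimum -/
private lemma Fa3_min {V v : ℝ} (hv : v ∈ Set.Icc 0 V) :
    ∫ v' in (0 : ℝ)..V, min (V - v) (V - v') = (V ^ 2 - v ^ 2) / 2 := by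
  have hc : Continuous fun v' : ℝ => min (V - v) (V - v') := by fun_prop
  rw [← intervalIntegral.integral_add_adjacent_intervals (b := v) (hc.intervalIntegrable _ _)
    (hc.intervalIntegrable _ _)]
  have e1 : ∫ v' in (0 : ℝ)..v, min (V - v) (V - v') = ∫ _v' in (0 : ℝ)..v, (V - v) := by
    refine intervalIntegral.integral_congr fun v' hv' => ?_
    rw [Set.uIcc_of_le hv.1] at hv'
    exact min_eq_left (by linarith [hv'.2])
  have e2 : ∫ v' in v..V, min (V - v) (V - v') = ∫ v' in v..V, (V - v') := by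
    refine intervalIntegral.integral_congr fun v' hv' => ?_
    rw [Set.uIcc_of_le hv.2] at hv'
    exact min_eq_right (by linarith [hv'.1])
  rw [e1, e2, intervalIntegral.integral_const, intervalIntegral.integral_sub
    (by simp) (by simp), intervalIntegral.integral_const, integral_id, smul_eq_mul, smul_eq_mul]
  ring

theorem avg_q {θ δ : ℝ} (hδ : 0 < δ) (hδ4 : δ ≤ 1 / 4) (hθ : 0 < θ) (hθ1 : θ + 3 * δ < 1 / 2)
    (hE : ErrS θ δ) {F : ℝ → ℝ} {a b : ℝ} (ha : 0 < a) (hF : Bump F a b) (hF0 : 0 < ∫ t, F t)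
    (hFn : ∀ t, 0 ≤ F t)
    (σ : ℤ) (hσ : σ = 1 ∨ σ = -1) (c : ℝ) (hc : c = 0 ∨ c = 1) {ρ h : ℝ → ℝ}
    (hρ : Bump ρ (-(δ / 2)) (δ / 2)) (hρn : ∀ y, 0 ≤ ρ y)
    (hρ1 : ∫ y, ρ y = 1) (hh : Bump h (2 * δ) θ) (hhn : ∀ t, 0 ≤ h t) (hpos : 0 < HH h 0)
    {w : ℝ → ℝ} {g₀ : ℝ} (hg : 0 < g₀)
    (hw : ContinuousOn w (Set.Icc 0 (1 / 2 + δ))) (hwp : ∀ v ∈ Set.Icc 0 (1 / 2 + δ), 0 < w v)
    {y : ℝ → ℝ} (hy : ContinuousOn y (Set.Icc 0 (1 / 2 + δ))) :
    ∃ Es : ℝ, Es ≤ qb w g₀ (1 / 2 + δ) (∫ t, h t ^ 2) (fun v => y v - HH h 0) ∧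
    ∀ r : ℕ, Odd r → Squarefree r → Tendsto (fun X : ℝ => 2 * r ^ 2 / X *
      ∑' d : ℕ, (if Odd d then F (d * r ^ 2 / X) *
        qf w g₀ (1 / 2 + δ) (fun v => y v - ytil c σ ρ h X (r ^ 2 * d) (1 / 2 - v)) else 0))
      atTop (𝓝 ((∫ t, F t) * Es)) := by
  set V : ℝ := 1 / 2 + δ with hVdef
  have hV : 0 < V := by rw [hVdef]; linarith
  have hh0 : Bump h 0 θ :=
    ⟨hh.smooth, fun t ht => ⟨by linarith [(hh.supp t ht).1], (hh.supp t ht).2⟩⟩
  have hconst : ∀ t ≤ 2 * δ, HH h t = HH h 0 := fun t ht =>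
    (Fa3_HH hh ht).trans (Fa3_HH hh (by linarith)).symm
  set m := HH h 0 with hm
  set Φ := ∫ t, F t with hΦ
  set s := ∫ t, h t ^ 2 with hs
  have hs0 : 0 ≤ s := integral_nonneg fun t => sq_nonneg _
  obtain ⟨B, hB⟩ := isCompact_Icc.exists_bound_of_continuousOn hy
  have hB0 : 0 ≤ B := (norm_nonneg _).trans (hB 0 ⟨le_rfl, hV.le⟩)
  obtain ⟨W, hW⟩ := isCompact_Icc.exists_bound_of_continuousOn hw
  have hW0 : 0 ≤ W := (norm_nonneg _).trans (hW 0 ⟨le_rfl, hV.le⟩)
  -- the limit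
  set G : ℝ → ℝ → ℝ := fun v v' =>
    y v * y v' - m * y v - m * y v' + CC ρ ρ h (1 / 2 - v) (1 / 2 - v') with hG
  -- the averages
  set f : ℕ → ℝ → ℕ → ℝ → ℝ := fun r X d v =>
    y v - ytil c σ ρ h X (r ^ 2 * d) (1 / 2 - v) with hf
  set GX : ℕ → ℝ → ℝ → ℝ → ℝ := fun r X v v' => 2 * r ^ 2 / X *
    ∑' d : ℕ, (if Odd d then F (d * r ^ 2 / X) * (f r X d v * f r X d v') else 0) with hGX
  have hfc : ∀ r X, 1 < X → ∀ d, ContinuousOn (f r X d) (Set.Icc 0 V) := by
    intro r X hX d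
    have h1 : Continuous fun Y => ytil c σ ρ h X (r ^ 2 * d) Y :=
      continuous_iff_continuousAt.mpr fun Y =>
        (hasDerivAt_ytil hδ hρ hh0 c hc σ X hX (r ^ 2 * d) Y).continuousAt
    exact hy.sub (h1.comp (continuous_const.sub continuous_id)).continuousOn
  -- facts for fixed X
  have hfix : ∀ r : ℕ, 0 < r → ∀ X : ℝ, 1 < X →
      ContinuousOn (fun v => GX r X v v) (Set.Icc 0 V) ∧
      (∀ v, ContinuousOn (fun v' => GX r X v v') (Set.Icc 0 V)) ∧
      ContinuousOn (fun v => ∫ v' in (0 : ℝ)..V, GX r X v v') (Set.Icc 0 V) ∧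
      2 * r ^ 2 / X * ∑' d : ℕ, (if Odd d then F (d * r ^ 2 / X) * qf w g₀ V (f r X d) else 0) =
        (∫ v in (0 : ℝ)..V, w v * GX r X v v) +
          g₀ * ∫ v in (0 : ℝ)..V, ∫ v' in (0 : ℝ)..V, GX r X v v' := by
    intro r hr X hX
    obtain ⟨N, cf, hN⟩ := Fa3_tsum hF hr (X := X) (by linarith)
    rw [hN (fun d => qf w g₀ V (f r X d))]
    exact Fa3_fin hV.le hw (hfc r X hX) fun v v' => hN (fun d => f r X d v * f r X d v')
  -- uniform convergence
  have hunif : ∀ r : ℕ, Odd r → Squarefree r → ∀ ε : ℝ, 0 < ε → ∀ᶠ X in atTop,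
      ∀ v ∈ Set.Icc 0 V, ∀ v' ∈ Set.Icc 0 V, |GX r X v v' - Φ * G v v'| ≤ ε := by
    intro r hr hrs ε hε
    have hr0 : 0 < r := hr.pos
    have hε' : 0 < ε / (B + 1) ^ 2 := by positivity
    obtain ⟨X0, hX0⟩ := zero_moment ha hF r hr _ hε'
    obtain ⟨X1, hX1⟩ := first_moment hδ hδ4 hθ hθ1 hE ha hF hF0 hFn σ hσ r hr hrs c hc hρ hρ1 hh0
      hconst hpos _ hε'
    obtain ⟨X2, hX2⟩ := second_moment hδ hδ4 hθ hθ1 hE ha hF hF0 σ hσ r hr hrs c hc hρ hρ hh0 _ hε'
    filter_upwards [eventually_ge_atTop X0, eventually_ge_atTop X1, eventually_ge_atTop X2,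
      eventually_gt_atTop 1] with X g0 g1 g2 g3 v hv v' hv'
    obtain ⟨N, cf, hN⟩ := Fa3_tsum hF hr0 (X := X) (by linarith)
    have hYm : ∀ {u : ℝ}, u ∈ Set.Icc 0 V → 1 / 2 - u ∈ Set.Icc (-1 : ℝ) (1 / 2 + δ) := by
      intro u hu
      exact ⟨by have := hu.2; rw [hVdef] at this; linarith, by linarith [hu.1]⟩
    have hmY : ∀ {u : ℝ}, u ∈ Set.Icc 0 V → ∫ z, ρ z * HH h (z - (1 / 2 - u)) = m := by
      intro u hu
      have e : (fun z => ρ z * HH h (z - (1 / 2 - u))) = fun z => ρ z * m := by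
        funext z
        by_cases hz : ρ z = 0
        · rw [hz]; ring
        · have := (hρ.supp z hz).2
          rw [hconst _ (by have := hu.2; rw [hVdef] at this; linarith)]
      rw [e, integral_mul_const, hρ1, one_mul]
    have k0 := hX0 X g0
    have k1 := hX1 X g1 _ (hYm hv)
    have k1' := hX1 X g1 _ (hYm hv')
    have k2 := hX2 X g2 _ (hYm hv) _ (hYm hv')
    rw [hmY hv] at k1
    rw [hmY hv'] at k1'
    have n0 := hN (fun _ => 1)
    simp only [mul_one] at n0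
    rw [n0] at k0
    rw [hN (fun d => ytil c σ ρ h X (r ^ 2 * d) (1 / 2 - v))] at k1
    rw [hN (fun d => ytil c σ ρ h X (r ^ 2 * d) (1 / 2 - v'))] at k1'
    rw [hN (fun d => ytil c σ ρ h X (r ^ 2 * d) (1 / 2 - v) *
      ytil c σ ρ h X (r ^ 2 * d) (1 / 2 - v'))] at k2
    have hexp : GX r X v v' = y v * y v' * (∑ d ∈ range N, cf d) -
        y v * (∑ d ∈ range N, cf d * ytil c σ ρ h X (r ^ 2 * d) (1 / 2 - v')) -
        y v' * (∑ d ∈ range N, cf d * ytil c σ ρ h X (r ^ 2 * d) (1 / 2 - v)) +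
        ∑ d ∈ range N, cf d * (ytil c σ ρ h X (r ^ 2 * d) (1 / 2 - v) *
          ytil c σ ρ h X (r ^ 2 * d) (1 / 2 - v')) := by
      have h1 : GX r X v v' = ∑ d ∈ range N, cf d * (f r X d v * f r X d v') :=
        hN (fun d => f r X d v * f r X d v')
      rw [h1, Finset.mul_sum, Finset.mul_sum, Finset.mul_sum, ← Finset.sum_sub_distrib,
        ← Finset.sum_sub_distrib, ← Finset.sum_add_distrib]
      refine Finset.sum_congr rfl fun d _ => ?_
      rw [hf]
      ring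
    have hyv := hB v hv
    have hyv' := hB v' hv'
    rw [Real.norm_eq_abs] at hyv hyv'
    set M0 := ∑ d ∈ range N, cf d
    set M1 := ∑ d ∈ range N, cf d * ytil c σ ρ h X (r ^ 2 * d) (1 / 2 - v)
    set M1' := ∑ d ∈ range N, cf d * ytil c σ ρ h X (r ^ 2 * d) (1 / 2 - v')
    set M2 := ∑ d ∈ range N, cf d * (ytil c σ ρ h X (r ^ 2 * d) (1 / 2 - v) *
      ytil c σ ρ h X (r ^ 2 * d) (1 / 2 - v'))
    have hdiff : GX r X v v' - Φ * G v v' = y v * y v' * (M0 - Φ) - y v * (M1' - Φ * m) -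
        y v' * (M1 - Φ * m) + (M2 - Φ * CC ρ ρ h (1 / 2 - v) (1 / 2 - v')) := by
      rw [hexp, hG]
      ring
    rw [hdiff]
    set η := ε / (B + 1) ^ 2 with hη
    have b0 : |y v * y v' * (M0 - Φ)| ≤ B * B * η := by
      rw [abs_mul, abs_mul]
      exact mul_le_mul (mul_le_mul hyv hyv' (abs_nonneg _) hB0) k0 (abs_nonneg _)
        (mul_nonneg hB0 hB0)
    have b1 : |y v * (M1' - Φ * m)| ≤ B * η := by
      rw [abs_mul]
      exact mul_le_mul hyv k1' (abs_nonneg _) hB0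
    have b2 : |y v' * (M1 - Φ * m)| ≤ B * η := by
      rw [abs_mul]
      exact mul_le_mul hyv' k1 (abs_nonneg _) hB0
    have hεη : ε = (B + 1) ^ 2 * η := by
      rw [hη]; field_simp
    rw [hεη]
    obtain ⟨b0l, b0u⟩ := abs_le.mp b0
    obtain ⟨b1l, b1u⟩ := abs_le.mp b1
    obtain ⟨b2l, b2u⟩ := abs_le.mp b2
    obtain ⟨k2l, k2u⟩ := abs_le.mp k2
    rw [abs_le]
    constructor <;> nlinarith
  -- continuity of the limit
  have hGd : ContinuousOn (fun v => G v v) (Set.Icc 0 V) := by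
    have h1 : ContinuousOn (fun v => Φ * G v v) (Set.Icc 0 V) := by
      refine Fa3_cont (fX := fun X v => GX 1 X v v) ?_ fun ε hε => ?_
      · filter_upwards [eventually_gt_atTop 1] with X hX
        exact (hfix 1 one_pos X hX).1
      · filter_upwards [hunif 1 odd_one squarefree_one ε hε] with X hX v hv
        exact hX v hv v hv
    refine (continuousOn_const.mul h1).congr (g := fun v => G v v) (f := fun v => Φ⁻¹ * (Φ * G v v))
      fun v _ => ?_
    exact (inv_mul_cancel_left₀ hF0.ne' _).symm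
  have hGv : ∀ v ∈ Set.Icc 0 V, ContinuousOn (fun v' => G v v') (Set.Icc 0 V) := by
    intro v hv
    have h1 : ContinuousOn (fun v' => Φ * G v v') (Set.Icc 0 V) := by
      refine Fa3_cont (fX := fun X v' => GX 1 X v v') ?_ fun ε hε => ?_
      · filter_upwards [eventually_gt_atTop 1] with X hX
        exact (hfix 1 one_pos X hX).2.1 v
      · filter_upwards [hunif 1 odd_one squarefree_one ε hε] with X hX v' hv'
        exact hX v hv v' hv'
    refine (continuousOn_const.mul h1).congr (g := fun v' => G v v')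
      (f := fun v' => Φ⁻¹ * (Φ * G v v')) fun v' _ => ?_
    exact (inv_mul_cancel_left₀ hF0.ne' _).symm
  -- the inner integrals converge uniformly
  have hJu : ∀ r : ℕ, Odd r → Squarefree r → ∀ ε : ℝ, 0 < ε → ∀ᶠ X in atTop,
      ∀ v ∈ Set.Icc 0 V, |(∫ v' in (0 : ℝ)..V, GX r X v v') -
        Φ * ∫ v' in (0 : ℝ)..V, G v v'| ≤ ε := by
    intro r hr hrs ε hε
    filter_upwards [hunif r hr hrs (ε / V) (by positivity), eventually_gt_atTop 1] with X hX hX1 v hv
    rw [← intervalIntegral.integral_const_mul]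
    have h1 := Fa3_diff hV.le ((hfix r hr.pos X hX1).2.1 v)
      (continuousOn_const.mul (hGv v hv)) (ε := ε / V) (fun v' hv' => hX v hv v' hv')
    have e : V * (ε / V) = ε := by field_simp
    rw [e] at h1
    exact h1
  have hJc : ContinuousOn (fun v => ∫ v' in (0 : ℝ)..V, G v v') (Set.Icc 0 V) := by
    have h1 : ContinuousOn (fun v => Φ * ∫ v' in (0 : ℝ)..V, G v v') (Set.Icc 0 V) := by
      refine Fa3_cont (fX := fun X v => ∫ v' in (0 : ℝ)..V, GX 1 X v v') ?_ fun ε hε => ?_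
      · filter_upwards [eventually_gt_atTop 1] with X hX
        exact (hfix 1 one_pos X hX).2.2.1
      · exact hJu 1 odd_one squarefree_one ε hε
    refine (continuousOn_const.mul h1).congr (g := fun v => ∫ v' in (0 : ℝ)..V, G v v')
      (f := fun v => Φ⁻¹ * (Φ * ∫ v' in (0 : ℝ)..V, G v v')) fun v _ => ?_
    exact (inv_mul_cancel_left₀ hF0.ne' _).symm
  refine ⟨(∫ v in (0 : ℝ)..V, w v * G v v) +
    g₀ * ∫ v in (0 : ℝ)..V, ∫ v' in (0 : ℝ)..V, G v v', ?_, ?_⟩
  · -- the bound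
    set e : ℝ → ℝ := fun v => y v - m with he
    have hec : ContinuousOn e (Set.Icc 0 V) := hy.sub continuousOn_const
    have hGle : ∀ v ∈ Set.Icc 0 V, ∀ v' ∈ Set.Icc 0 V,
        G v v' ≤ e v * e v' + s * min (V - v) (V - v') := by
      intro v hv v' hv'
      have h1 := Fa3_CC hδ hρ hρn hρ1 hh hv hv'
      rw [hG, he]
      simp only
      nlinarith
    unfold qb
    refine add_le_add ?_ (mul_le_mul_of_nonneg_left ?_ hg.le)
    · refine intervalIntegral.integral_mono_on hV.le (Fa3_ii hV.le (hw.mul hGd))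
        (Fa3_ii hV.le (hw.mul ((continuousOn_const.mul
          (continuousOn_const.sub continuousOn_id)).add (hec.pow 2)))) fun v hv => ?_
      refine mul_le_mul_of_nonneg_left ?_ (hwp v hv).le
      have := hGle v hv v hv
      rw [min_self] at this
      nlinarith
    · have hpoly : Continuous fun v : ℝ => (V ^ 2 - v ^ 2) / 2 := by fun_prop
      have h1 : ∫ v in (0 : ℝ)..V, ∫ v' in (0 : ℝ)..V, G v v' ≤
          ∫ v in (0 : ℝ)..V, (e v * (∫ v' in (0 : ℝ)..V, e v') + s * ((V ^ 2 - v ^ 2) / 2)) := by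
        refine intervalIntegral.integral_mono_on hV.le (Fa3_ii hV.le hJc)
          (Fa3_ii hV.le ((hec.mul continuousOn_const).add
            (continuousOn_const.mul hpoly.continuousOn))) fun v hv => ?_
        have hmc : Continuous fun v' : ℝ => min (V - v) (V - v') := by fun_prop
        have h2 : ∫ v' in (0 : ℝ)..V, G v v' ≤
            ∫ v' in (0 : ℝ)..V, (e v * e v' + s * min (V - v) (V - v')) :=
          intervalIntegral.integral_mono_on hV.le (Fa3_ii hV.le (hGv v hv))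
            (Fa3_ii hV.le ((continuousOn_const.mul hec).add
              (continuousOn_const.mul hmc.continuousOn))) fun v' hv' => hGle v hv v' hv'
        have h4 : ∫ v' in (0 : ℝ)..V, (e v * e v' + s * min (V - v) (V - v')) =
            (∫ v' in (0 : ℝ)..V, e v * e v') + ∫ v' in (0 : ℝ)..V, s * min (V - v) (V - v') :=
          intervalIntegral.integral_add (Fa3_ii hV.le (continuousOn_const.mul hec))
            (Fa3_ii hV.le (continuousOn_const.mul hmc.continuousOn))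
        rw [h4, intervalIntegral.integral_const_mul, intervalIntegral.integral_const_mul,
          Fa3_min hv] at h2
        exact h2
      refine h1.trans (le_of_eq ?_)
      have h4 : ∫ v in (0 : ℝ)..V, (e v * (∫ v' in (0 : ℝ)..V, e v') + s * ((V ^ 2 - v ^ 2) / 2)) =
          (∫ v in (0 : ℝ)..V, e v * ∫ v' in (0 : ℝ)..V, e v') +
            ∫ v in (0 : ℝ)..V, s * ((V ^ 2 - v ^ 2) / 2) :=
        intervalIntegral.integral_add (Fa3_ii hV.le (hec.mul continuousOn_const))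
          (Fa3_ii hV.le (continuousOn_const.mul hpoly.continuousOn))
      rw [h4, intervalIntegral.integral_mul_const, intervalIntegral.integral_const_mul]
      have h3 : ∫ v in (0 : ℝ)..V, (V ^ 2 - v ^ 2) / 2 = V ^ 3 / 3 := by
        rw [intervalIntegral.integral_div, intervalIntegral.integral_sub (by simp) (by simp),
          intervalIntegral.integral_const, integral_pow, smul_eq_mul]
        ring
      rw [h3]
      ring
  · -- convergence
    intro r hr hrs
    rw [Metric.tendsto_atTop]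
    intro ε hε
    set η := ε / (2 * (V * W + g₀ * V + 1)) with hη
    have hden : 0 < V * W + g₀ * V + 1 := by positivity
    have hη0 : 0 < η := by positivity
    have hev := (hunif r hr hrs η hη0).and ((hJu r hr hrs η hη0).and (eventually_gt_atTop 1))
    obtain ⟨X0, hX0⟩ := Filter.eventually_atTop.mp hev
    refine ⟨X0, fun X hX => ?_⟩
    obtain ⟨k1, k2, k3⟩ := hX0 X hX
    obtain ⟨c1, c2, c3, c4⟩ := hfix r hr.pos X k3
    have e1 : (2 * r ^ 2 / X * ∑' d : ℕ, (if Odd d then F (d * r ^ 2 / X) *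
        qf w g₀ V (fun v => y v - ytil c σ ρ h X (r ^ 2 * d) (1 / 2 - v)) else 0)) =
        (∫ v in (0 : ℝ)..V, w v * GX r X v v) +
          g₀ * ∫ v in (0 : ℝ)..V, ∫ v' in (0 : ℝ)..V, GX r X v v' := c4
    rw [e1, Real.dist_eq]
    have d1 := Fa3_diff hV.le (hw.mul c1) (hw.mul (continuousOn_const.mul hGd)) (ε := W * η)
      (fun v hv => by
        have h1 := k1 v hv v hv
        have h2 := hW v hv
        rw [Real.norm_eq_abs] at h2
        show |w v * GX r X v v - w v * (Φ * G v v)| ≤ W * η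
        rw [← mul_sub, abs_mul]
        exact mul_le_mul h2 h1 (abs_nonneg _) hW0)
    have d2 := Fa3_diff hV.le c3 (continuousOn_const.mul hJc) (ε := η) (fun v hv => k2 v hv)
    have e2 : ∫ v in (0 : ℝ)..V, w v * (Φ * G v v) = Φ * ∫ v in (0 : ℝ)..V, w v * G v v := by
      rw [← intervalIntegral.integral_const_mul]
      congr 1
      funext v
      ring
    have e3 : ∫ v in (0 : ℝ)..V, Φ * (∫ v' in (0 : ℝ)..V, G v v') =
        Φ * ∫ v in (0 : ℝ)..V, ∫ v' in (0 : ℝ)..V, G v v' :=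
      intervalIntegral.integral_const_mul _ _
    have d1' : |(∫ v in (0 : ℝ)..V, w v * GX r X v v) -
        Φ * ∫ v in (0 : ℝ)..V, w v * G v v| ≤ V * (W * η) := by
      rw [← e2]; exact d1
    have d2' : |(∫ v in (0 : ℝ)..V, ∫ v' in (0 : ℝ)..V, GX r X v v') -
        Φ * ∫ v in (0 : ℝ)..V, ∫ v' in (0 : ℝ)..V, G v v'| ≤ V * η := by
      rw [← e3]; exact d2
    set A1 := ∫ v in (0 : ℝ)..V, w v * GX r X v v
    set A2 := ∫ v in (0 : ℝ)..V, ∫ v' in (0 : ℝ)..V, GX r X v v'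
    set B1 := ∫ v in (0 : ℝ)..V, w v * G v v
    set B2 := ∫ v in (0 : ℝ)..V, ∫ v' in (0 : ℝ)..V, G v v'
    have hfin : |A1 + g₀ * A2 - Φ * (B1 + g₀ * B2)| ≤ V * (W * η) + g₀ * (V * η) := by
      have e : A1 + g₀ * A2 - Φ * (B1 + g₀ * B2) = (A1 - Φ * B1) + g₀ * (A2 - Φ * B2) := by ring
      rw [e]
      refine (abs_add_le _ _).trans (add_le_add d1' ?_)
      rw [abs_mul, abs_of_pos hg]
      exact mul_le_mul_of_nonneg_left d2' hg.le
    refine lt_of_le_of_lt hfin ?_
    have hεη : ε = 2 * (V * W + g₀ * V + 1) * η := by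
      rw [hη]; field_simp
    rw [hεη]
    nlinarith [mul_nonneg (mul_nonneg hV.le hW0) hη0.le, mul_nonneg (mul_nonneg hg.le hV.le) hη0.le]

end Pool.Agent.MP0016c7.Rz
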