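import Mathlib
import Pool.Agent.Lib.MP_0016c7_nt.Theta
import Pool.Agent.Lib.MP_0016c7_nt.Rz.Defs
import Pool.Agent.Lib.MP_0016c7_nt.Rz.DefsC
import Pool.Agent.Lib.MP_0016c7_nt.Rz.DefsF
import Pool.Agent.Lib.MP_0016c7_nt.Rz.DefsE
import Pool.Agent.Lib.MP_0016c7_nt.Rz.Fa2
import Pool.Agent.Lib.MP_0016c7_nt.Rz.Fa3
import Pool.Agent.Lib.MP_0016c7_nt.Rz.Fa4
import Pool.Agent.Lib.MP_0016c7_nt.Rz.Fa5
import Pool.Agent.Lib.MP_0016c7_nt.Rz.Fa6
import Pool.Agent.Lib.MP_0016c7_nt.Rz.TestH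
import Pool.Agent.Lib.MP_0016c7_nt.Rz.TestR

set_option autoImplicit false

open Finset MeasureTheory Filter Topology
open scoped Real ContDiff

namespace Pool.Agent.MP0016c7.Rz

/-- The odd primes up to `z`. -/
private def SP (z : ℕ) : Finset ℕ := (range (z + 1)).filter (fun p => p.Prime ∧ Odd p)

private lemma SP_prime (z : ℕ) : ∀ p ∈ SP z, p.Prime ∧ Odd p := fun p hp =>
  (Finset.mem_filter.mp hp).2

private lemma prod_le_one' (z : ℕ) : ∏ p ∈ SP z, (1 - 1 / (p : ℝ) ^ 2) ≤ 1 := by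
  refine Finset.prod_le_one ?_ ?_
  · intro p hp
    have h1 : (1 : ℝ) ≤ p := by exact_mod_cast (SP_prime z p hp).1.one_lt.le
    have h2 : 1 / (p : ℝ) ^ 2 ≤ 1 := by
      rw [div_le_one (by positivity)]
      nlinarith
    linarith
  · intro p _
    have : 0 ≤ 1 / (p : ℝ) ^ 2 := by positivity
    linarith

private noncomputable def DF (X : ℝ) (Q : ℕ → Prop) : Finset ℕ := by
  classical
  exact (Icc 1 ⌊2 * X⌋₊).filter (fun d : ℕ => X < d ∧ Q d)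

private lemma mem_DF {X : ℝ} {Q : ℕ → Prop} {d : ℕ} (hX : 0 ≤ X) :
    d ∈ DF X Q ↔ X < d ∧ (d : ℝ) ≤ 2 * X ∧ Q d := by
  classical
  unfold DF
  rw [Finset.mem_filter, Finset.mem_Icc]
  constructor
  · rintro ⟨⟨_, h2⟩, h3, h4⟩
    exact ⟨h3, (Nat.le_floor_iff (by linarith)).mp h2, h4⟩
  · rintro ⟨h1, h2, h3⟩
    refine ⟨⟨?_, (Nat.le_floor_iff (by linarith)).mpr h2⟩, h1, h3⟩
    have : (0 : ℝ) < d := by linarith
    exact_mod_cast this

private lemma card_DF {X : ℝ} (hX : 0 ≤ X) (Q : ℕ → Prop) :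
    (Nat.card {d : ℕ | X < d ∧ (d : ℝ) ≤ 2 * X ∧ Q d} : ℝ) = ((DF X Q).card : ℝ) := by
  rw [Nat.card_coe_set_eq]
  have : {d : ℕ | X < d ∧ (d : ℝ) ≤ 2 * X ∧ Q d} = ((DF X Q : Finset ℕ) : Set ℕ) := by
    ext d
    rw [Finset.mem_coe, mem_DF hX]
    rfl
  rw [this, Set.ncard_coe_finset]

private lemma summable_F {F : ℝ → ℝ} {a b : ℝ} (hF : Bump F a b) {X : ℝ} (hX : 0 < X)
    (G : ℕ → ℝ) (Q : ℕ → Prop) [DecidablePred Q] :
    Summable (fun d : ℕ => if Q d then F (d / X) * G d else 0) := by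
  refine summable_of_finite_support ?_
  refine (Set.finite_Iic ⌊b * X⌋₊).subset ?_
  intro d hd
  rw [Function.mem_support] at hd
  have h1 : F (d / X) ≠ 0 := by
    intro h0
    apply hd
    simp [h0]
  have h2 := (hF.supp _ h1).2
  rw [div_lt_iff₀ hX] at h2
  exact Nat.le_floor h2.le

private lemma sf_free {z d : ℕ} (h : Squarefree d) : ∀ p ∈ SP z, ¬ p ^ 2 ∣ d := by
  intro p hp hd
  have h1 := (SP_prime z p hp).1
  rw [sq] at hd
  have h2 := h p hd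
  exact h1.not_isUnit h2

/-- upper bound of sums over a finite set of squarefree numbers -/
private lemma sum_upper {F : ℝ → ℝ} (hF : Bump F (1 / 2) 4) (hFn : ∀ t, 0 ≤ F t)
    (hF1 : ∀ t ∈ Set.Icc (1 : ℝ) 2, 1 ≤ F t) {X : ℝ} (hX : 0 < X) (z : ℕ) (G : ℕ → ℝ)
    (hG : ∀ d, 0 ≤ G d) (B : Finset ℕ) (hB : ∀ d ∈ B, X < d ∧ (d : ℝ) ≤ 2 * X ∧ Odd d ∧ Squarefree d) :
    ∑ d ∈ B, G d ≤ ∑' d : ℕ, (if Odd d ∧ ∀ p ∈ SP z, ¬ p ^ 2 ∣ d then F (d / X) * G d else 0) := by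
  classical
  have hs := summable_F hF hX G (fun d => Odd d ∧ ∀ p ∈ SP z, ¬ p ^ 2 ∣ d)
  refine le_trans ?_ (hs.sum_le_tsum B ?_)
  · refine Finset.sum_le_sum fun d hd => ?_
    obtain ⟨h1, h2, h3, h4⟩ := hB d hd
    rw [if_pos ⟨h3, sf_free h4⟩]
    have h5 : 1 ≤ F (d / X) := hF1 _ ⟨by rw [le_div_iff₀ hX]; linarith, by
      rw [div_le_iff₀ hX]; exact h2⟩
    nlinarith [hG d]
  · intro d _
    split_ifs
    · exact mul_nonneg (hFn _) (hG d)
    · exact le_rfl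

/-- lower bound for the number of sieved integers -/
private lemma count_lower {F : ℝ → ℝ} (hF : Bump F 1 2) (hFn : ∀ t, 0 ≤ F t)
    (hF1 : ∀ t, F t ≤ 1) {X : ℝ} (hX : 0 < X) (z : ℕ) :
    ∑' d : ℕ, (if Odd d ∧ ∀ p ∈ SP z, ¬ p ^ 2 ∣ d then F (d / X) * 1 else 0) ≤
      (((Icc 1 ⌊2 * X⌋₊).filter (fun d : ℕ => X < d ∧ Odd d ∧
      ∀ p ∈ (range (z + 1)).filter (fun p => p.Prime ∧ Odd p), ¬ p ^ 2 ∣ d)).card : ℝ) := by
  classical
  set T := (Icc 1 ⌊2 * X⌋₊).filter (fun d : ℕ => X < d ∧ Odd d ∧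
      ∀ p ∈ (range (z + 1)).filter (fun p => p.Prime ∧ Odd p), ¬ p ^ 2 ∣ d) with hT
  rw [tsum_eq_sum (s := T)]
  · rw [Finset.card_eq_sum_ones]
    push_cast
    refine Finset.sum_le_sum fun d _ => ?_
    split_ifs
    · rw [mul_one]; exact hF1 _
    · exact zero_le_one
  · intro d hd
    split_ifs with h
    · rw [mul_one]
      by_contra h0
      have h1 := hF.supp _ h0
      apply hd
      rw [hT, Finset.mem_filter, Finset.mem_Icc]
      have h2 : X < d := by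
        have := h1.1
        rw [lt_div_iff₀ hX] at this
        linarith
      have h3 : (d : ℝ) < 2 * X := by
        have := h1.2
        rwa [div_lt_iff₀ hX] at this
      refine ⟨⟨?_, Nat.le_floor h3.le⟩, h2, h.1, h.2⟩
      have : (0 : ℝ) < d := by linarith
      exact_mod_cast this
    · rfl

private lemma fin_alg {E E' η Pz N B X : ℝ} (hη : 0 < η) (hη1 : η ≤ 1 / 14)
    (hE : 0 ≤ E) (hη2 : η * (3 * E + 12 + 7 * E' + 1) ≤ E' - E)
    (hPz : 1 / 2 ≤ Pz) (hPz1 : Pz ≤ 1) (hX : 0 < X) (hE' : 0 < E')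
    (hN : X / 2 * ((1 - η) * Pz - 3 * η) ≤ N)
    (hB : B ≤ (1 + η) * (X / 2 * ((1 + η) * E * Pz + η)) + (1 + 1 / η) * (η ^ 2 * X)) :
    X / 8 ≤ N ∧ B ≤ E' * N := by
  constructor
  · refine le_trans ?_ hN
    have h1 : 1 / 4 ≤ (1 - η) * Pz - 3 * η := by nlinarith
    nlinarith
  · have h1 : (1 + 1 / η) * (η ^ 2 * X) = (η + η ^ 2) * X := by
      field_simp
      ring
    rw [h1] at hB
    have h2 : E' * (X / 2 * ((1 - η) * Pz - 3 * η)) ≤ E' * N := mul_le_mul_of_nonneg_left hN hE'.le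
    refine hB.trans (le_trans ?_ h2)
    have h3 : (1 + η) * ((1 + η) * E * Pz + η) + 2 * (η + η ^ 2) ≤ E' * ((1 - η) * Pz - 3 * η) := by
      have h4 : (1 + η) * ((1 + η) * E * Pz + η) + 2 * (η + η ^ 2) ≤ (1 + 3 * η) * E * Pz + 6 * η := by
        have h5 : 0 ≤ E * Pz := by nlinarith
        nlinarith [mul_nonneg h5 hη.le]
      have h6 : (1 + 3 * η) * E * Pz + 6 * η + 3 * η * E' ≤ E' * (1 - η) * Pz := by
        have h7 : 6 * η + 3 * η * E' ≤ (12 * η + 6 * η * E') * Pz := by nlinarith [mul_pos hη hE']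
        have h8 : (1 + 3 * η) * E + 12 * η + 6 * η * E' ≤ E' * (1 - η) := by nlinarith
        have h9 : ((1 + 3 * η) * E + 12 * η + 6 * η * E') * Pz ≤ E' * (1 - η) * Pz :=
          mul_le_mul_of_nonneg_right h8 (by linarith)
        nlinarith
      nlinarith
    calc (1 + η) * (X / 2 * ((1 + η) * E * Pz + η)) + (η + η ^ 2) * X
        = X / 2 * ((1 + η) * ((1 + η) * E * Pz + η) + 2 * (η + η ^ 2)) := by ring
      _ ≤ X / 2 * (E' * ((1 - η) * Pz - 3 * η)) := by gcongr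
      _ = E' * (X / 2 * ((1 - η) * Pz - 3 * η)) := by ring

private lemma qb_mono {w : ℝ → ℝ} {g₀ V s s' : ℝ} {e : ℝ → ℝ} (hV : 0 < V) (hg : 0 < g₀)
    (hw : ContinuousOn w (Set.Icc 0 V)) (hwp : ∀ v ∈ Set.Icc 0 V, 0 < w v) (he : Continuous e)
    (hs : s ≤ s') : qb w g₀ V s e ≤ qb w g₀ V s' e := by
  unfold qb
  have hi : ∀ t : ℝ, IntervalIntegrable (fun v => w v * (t * (V - v) + e v ^ 2)) volume 0 V := by
    intro t
    refine ContinuousOn.intervalIntegrable ?_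
    rw [Set.uIcc_of_le hV.le]
    exact hw.mul (by fun_prop)
  have h1 : ∫ v in (0 : ℝ)..V, w v * (s * (V - v) + e v ^ 2) ≤
      ∫ v in (0 : ℝ)..V, w v * (s' * (V - v) + e v ^ 2) := by
    refine intervalIntegral.integral_mono_on hV.le (hi s) (hi s') ?_
    intro v hv
    have h2 := hwp v hv
    have h3 : s * (V - v) ≤ s' * (V - v) := mul_le_mul_of_nonneg_right hs (by linarith [hv.2])
    have h4 : s * (V - v) + e v ^ 2 ≤ s' * (V - v) + e v ^ 2 := by linarith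
    exact mul_le_mul_of_nonneg_left h4 h2.le
  have h5 : s * V ^ 3 / 3 ≤ s' * V ^ 3 / 3 := by
    have : 0 < V ^ 3 := by positivity
    nlinarith
  have h6 : g₀ * (s * V ^ 3 / 3 + (∫ v in (0 : ℝ)..V, e v) ^ 2) ≤
      g₀ * (s' * V ^ 3 / 3 + (∫ v in (0 : ℝ)..V, e v) ^ 2) :=
    mul_le_mul_of_nonneg_left (by linarith) hg.le
  linarith

private lemma qb_nonneg {w : ℝ → ℝ} {g₀ V s : ℝ} {e : ℝ → ℝ} (hV : 0 < V) (hg : 0 < g₀)
    (hwp : ∀ v ∈ Set.Icc 0 V, 0 < w v) (hs : 0 ≤ s) : 0 ≤ qb w g₀ V s e := by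
  unfold qb
  have h1 : 0 ≤ ∫ v in (0 : ℝ)..V, w v * (s * (V - v) + e v ^ 2) := by
    refine intervalIntegral.integral_nonneg hV.le ?_
    intro v hv
    have h2 := hwp v hv
    have h3 : 0 ≤ s * (V - v) := mul_nonneg hs (by linarith [hv.2])
    positivity
  positivity

private lemma Hid_zero_pos' {θ₀ : ℝ} (h : 0 < θ₀) : 0 < Hid θ₀ 0 := by
  unfold Hid
  rw [if_neg (by linarith)]
  simp
  positivity

private lemma int_F_pos {F : ℝ → ℝ} {a b : ℝ} (hF : Bump F a b) (hFn : ∀ t, 0 ≤ F t)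
    (hF1 : ∀ t ∈ Set.Icc (1 : ℝ) 2, 1 ≤ F t) : 0 < ∫ t, F t := by
  have hi : Integrable F := by
    refine hF.smooth.continuous.integrable_of_hasCompactSupport ?_
    refine HasCompactSupport.of_support_subset_isCompact (isCompact_Icc (a := a) (b := b)) ?_
    intro t ht
    have := hF.supp t ht
    exact ⟨this.1.le, this.2.le⟩
  have h1 : ∫ t in Set.Icc (1 : ℝ) 2, (1 : ℝ) ≤ ∫ t in Set.Icc (1 : ℝ) 2, F t :=
    setIntegral_mono_on (by simp) hi.integrableOn measurableSet_Icc hF1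
  have h2 : ∫ t in Set.Icc (1 : ℝ) 2, F t ≤ ∫ t, F t :=
    setIntegral_le_integral hi (Eventually.of_forall hFn)
  have h3 : ∫ t in Set.Icc (1 : ℝ) 2, (1 : ℝ) = 1 := by
    simp
    norm_num
  linarith

/-- F7 -/
theorem dyadic_bound {θ₀ δ κ τ₀ γ₀ g₀ μ E : ℝ} (hC : Cert θ₀ δ κ τ₀ γ₀ g₀ μ E)
    (hE : ErrS (θ₀ + 3 * δ) δ) (E' : ℝ) (hE' : E < E') (σ : ℤ) (hσ : σ = 1 ∨ σ = -1) :
    ∃ X₀ : ℝ, ∀ X : ℝ, X₀ ≤ X → X / 8 ≤ (Nat.card {d : ℕ | X < d ∧ (d : ℝ) ≤ 2 * X ∧ Odd d ∧ Squarefree d} : ℝ) ∧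
      (Nat.card {d : ℕ | X < d ∧ (d : ℝ) ≤ 2 * X ∧ Odd d ∧ Squarefree d ∧ ¬ NoZero σ d} : ℝ) ≤
      E' * (Nat.card {d : ℕ | X < d ∧ (d : ℝ) ≤ 2 * X ∧ Odd d ∧ Squarefree d} : ℝ) := by
  classical
  have hC' := hC
  obtain ⟨hθ₀, hδ, hδ', hκ, hτ₀, hγ₀, hg₀, hμ, hlen, -, hen⟩ := hC
  obtain ⟨h, hh, hhn, hh0, hL2, hHle⟩ := exists_h θ₀ δ hθ₀ hδ
  obtain ⟨ρ, hρ, hρn, hρe, hρ1⟩ := exists_rho δ hδ
  set V : ℝ := 1 / 2 + δ with hV
  have hV0 : 0 < V := by positivity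
  set c : ℝ := if σ = 1 then 0 else 1 with hc
  have hc01 : c = 0 ∨ c = 1 := by
    rw [hc]; split_ifs
    · exact Or.inl rfl
    · exact Or.inr rfl
  have hhb : Bump h 0 (θ₀ + 3 * δ) :=
    ⟨hh.smooth, fun t ht => ⟨(by linarith [(hh.supp t ht).1]), (hh.supp t ht).2⟩⟩
  set w : ℝ → ℝ := ww γ₀ V τ₀ with hwdef
  have hden : ∀ v ∈ Set.Icc (0 : ℝ) V, 0 < V - v + τ₀ := fun v hv => by linarith [hv.2]
  have hw : ContinuousOn w (Set.Icc 0 V) := by
    rw [hwdef]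
    unfold ww
    refine ContinuousOn.div continuousOn_const (by fun_prop) ?_
    intro v hv
    exact (hden v hv).ne'
  have hwp : ∀ v ∈ Set.Icc (0 : ℝ) V, 0 < w v := fun v hv => div_pos hγ₀ (hden v hv)
  set y : ℝ → ℝ := y00 θ₀ κ V with hydef
  have hy : Continuous y := by
    rw [hydef]; unfold y00; fun_prop
  have hHpos : 0 < HH h 0 := by rw [hh0]; exact Hid_zero_pos' hθ₀
  -- energy
  set s2 : ℝ := ((θ₀ + 1 / 2) ^ 3 - 1 / 8) / 3 with hs2
  have hs2n : 0 ≤ s2 := by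
    rw [hs2]
    have : 0 ≤ (θ₀ + 1 / 2) ^ 3 - 1 / 8 := by nlinarith [sq_nonneg θ₀, pow_pos hθ₀ 3]
    positivity
  have heq : (fun v => y v - HH h 0) = fun v => Hid θ₀ 0 * κ * (V ^ 2 - v ^ 2) := by
    funext v
    rw [hydef, hh0]
    unfold y00
    ring
  have hec : Continuous (fun v : ℝ => Hid θ₀ 0 * κ * (V ^ 2 - v ^ 2)) := by fun_prop
  have hE0 : 0 ≤ E := (qb_nonneg hV0 hg₀ hwp hs2n).trans hen
  have hE'0 : 0 < E' := by linarith
  -- the parameter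
  set η : ℝ := min (1 / 14) ((E' - E) / (3 * E + 12 + 7 * E' + 1)) with hη
  have hDpos : 0 < 3 * E + 12 + 7 * E' + 1 := by positivity
  have hη0 : 0 < η := lt_min (by norm_num) (div_pos (by linarith) hDpos)
  have hη1 : η ≤ 1 / 14 := min_le_left _ _
  have hη2 : η * (3 * E + 12 + 7 * E' + 1) ≤ E' - E := by
    have := min_le_right (1 / 14) ((E' - E) / (3 * E + 12 + 7 * E' + 1))
    rw [← hη, le_div_iff₀ hDpos] at this
    exact this
  obtain ⟨F, hF, hFn, hF1, hFi⟩ := exists_F η hη0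
  obtain ⟨Fm, hFm, hFmn, hFm1, hFmi⟩ := exists_Fm η hη0
  have hFpos := int_F_pos hF hFn hF1
  obtain ⟨Es, hEs, hlim⟩ := avg_q (θ := θ₀ + 3 * δ) hδ (by linarith) (by linarith) (by linarith) hE
    (by norm_num) hF hFpos hFn σ hσ c hc01 hρ hρn hρ1 hh hhn hHpos hg₀ hw hwp hy.continuousOn
  have hEsE : Es ≤ E := by
    refine hEs.trans ?_
    rw [heq]
    exact (qb_mono hV0 hg₀ hw hwp hec hL2).trans hen
  -- the sieve
  obtain ⟨z, hz⟩ : ∃ z : ℕ, 4 / η ≤ z := ⟨⌈4 / η⌉₊, Nat.le_ceil _⟩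
  have hz2 : 2 ≤ z := by
    have h1 : (2 : ℝ) ≤ 4 / η := by rw [le_div_iff₀ hη0]; linarith
    exact_mod_cast h1.trans hz
  have hz0 : (0 : ℝ) < z := by positivity
  set Pz : ℝ := ∏ p ∈ SP z, (1 - 1 / (p : ℝ) ^ 2) with hPz
  have hPz1 : Pz ≤ 1 := prod_le_one' z
  have hPz2 : 1 / 2 ≤ Pz := prod_lower z
  have hs1 := sieve_avg (SP z) (SP_prime z) (by norm_num) hF
    (fun X d => qf w g₀ V (fun v => y v - ytil c σ ρ h X d (1 / 2 - v))) ((∫ t, F t) * Es) hlim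
  have hs0 := sieve_avg (SP z) (SP_prime z) (by norm_num) hFm (fun _ _ => 1) (∫ t, Fm t) (by
    intro r hr _
    rw [Metric.tendsto_atTop]
    intro ε hε
    obtain ⟨X₀, hX₀⟩ := zero_moment (by norm_num) hFm r hr (ε / 2) (by positivity)
    refine ⟨X₀, fun X hX => ?_⟩
    rw [Real.dist_eq]
    simp only [mul_one]
    linarith [hX₀ X hX])
  rw [← hPz] at hs1 hs0
  obtain ⟨X₁, hX₁⟩ := (Metric.tendsto_atTop.mp hs1) η hη0
  obtain ⟨X₂, hX₂⟩ := (Metric.tendsto_atTop.mp hs0) η hη0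
  obtain ⟨X₃, hX₃⟩ := avg_shift (θ := θ₀ + 3 * δ) hδ (by linarith) (by linarith) (by linarith) hE
    σ hσ c hc01 hρ hh hg₀ hw hwp (η ^ 2) (by positivity)
  obtain ⟨X₄, μ', hμ', hX₄⟩ := bad_large hC' hρ hρn hρe hρ1 hh hhn hHle σ hσ
  refine ⟨max (max X₁ X₂) (max (max X₃ X₄) (max 2 (16 / η ^ 2))), fun X hX => ?_⟩
  have g1 : X₁ ≤ X := (le_max_left _ _).trans ((le_max_left _ _).trans hX)
  have g2 : X₂ ≤ X := (le_max_right _ _).trans ((le_max_left _ _).trans hX)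
  have g3 : X₃ ≤ X := (le_max_left _ _).trans ((le_max_left _ _).trans ((le_max_right _ _).trans hX))
  have g4 : X₄ ≤ X := (le_max_right _ _).trans ((le_max_left _ _).trans ((le_max_right _ _).trans hX))
  have g5 : 2 ≤ X := (le_max_left _ _).trans ((le_max_right _ _).trans ((le_max_right _ _).trans hX))
  have g6 : 16 / η ^ 2 ≤ X :=
    (le_max_right _ _).trans ((le_max_right _ _).trans ((le_max_right _ _).trans hX))
  have hXp : 0 < X := by linarith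
  have e1 : (Nat.card {d : ℕ | X < d ∧ (d : ℝ) ≤ 2 * X ∧ Odd d ∧ Squarefree d} : ℝ) =
      ((DF X (fun d => Odd d ∧ Squarefree d)).card : ℝ) := card_DF hXp.le _
  have e2 : (Nat.card {d : ℕ | X < d ∧ (d : ℝ) ≤ 2 * X ∧ Odd d ∧ Squarefree d ∧ ¬ NoZero σ d} : ℝ) =
      ((DF X (fun d => Odd d ∧ Squarefree d ∧ ¬ NoZero σ d)).card : ℝ) := card_DF hXp.le _
  rw [e1, e2]
  set N : ℝ := ((DF X (fun d => Odd d ∧ Squarefree d)).card : ℝ) with hN
  set Bd : Finset ℕ := DF X (fun d => Odd d ∧ Squarefree d ∧ ¬ NoZero σ d) with hBd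
  -- lower bound for N
  have hNlow : X / 2 * ((1 - η) * Pz - 3 * η) ≤ N := by
    have h1 := hX₂ X g2
    rw [Real.dist_eq, abs_lt] at h1
    have h2 := count_lower hFm hFmn hFm1 hXp z
    have h3 := sqf_lower z hz2 X (by linarith)
    have h4 : (((Icc 1 ⌊2 * X⌋₊).filter (fun d : ℕ => X < d ∧ Odd d ∧ Squarefree d)).card : ℝ) = N := by
      rw [hN]
      congr 2
      unfold DF
      ext d
      simp only [Finset.mem_filter]
    rw [h4] at h3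
    set T := ∑' d : ℕ, (if Odd d ∧ ∀ p ∈ SP z, ¬ p ^ 2 ∣ d then Fm (d / X) * 1 else 0) with hT
    have h5 : X / 2 * ((1 - η) * Pz - η) ≤ T := by
      have h6 : (1 - η) * Pz ≤ (∫ t, Fm t) * Pz := mul_le_mul_of_nonneg_right hFmi (by linarith)
      have h7 : (1 - η) * Pz - η ≤ 2 / X * T := by linarith [h1.1]
      calc X / 2 * ((1 - η) * Pz - η) ≤ X / 2 * (2 / X * T) := by gcongr
        _ = T := by field_simp
    have h8 : 2 * X / z ≤ X / 2 * η := by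
      rw [div_le_iff₀ hz0]
      rw [div_le_iff₀ hη0] at hz
      nlinarith
    have h9 : 2 * √X ≤ X / 2 * η := by
      rw [div_le_iff₀ (by positivity)] at g6
      have h10 : 4 ≤ √X * η := by
        have h11 : (4 : ℝ) ^ 2 ≤ (√X * η) ^ 2 := by
          rw [mul_pow, Real.sq_sqrt hXp.le]
          linarith
        exact le_of_sq_le_sq h11 (by positivity)
      have h12 : √X * √X = X := Real.mul_self_sqrt hXp.le
      have h13 : 0 ≤ √X := Real.sqrt_nonneg X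
      nlinarith
    linarith
  -- upper bound for the number of bad discriminants
  have hcontY : ∀ d : ℕ, Continuous (fun Y : ℝ => ytil c σ ρ h X d Y) := by
    intro d
    rw [continuous_iff_continuousAt]
    intro Y
    exact (hasDerivAt_ytil hδ hρ hhb c hc01 σ X (by linarith) d Y).continuousAt
  have hf1 : ∀ d : ℕ, Continuous (fun v : ℝ => y v - ytil c σ ρ h X d (1 / 2 - v)) := fun d =>
    hy.sub ((hcontY d).comp (by fun_prop))
  have hf2 : ∀ d : ℕ, Continuous (fun v : ℝ => ytil c σ ρ h X d (1 / 2 - v) -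
      ytil c σ ρ h X d (Real.log (8 * d) / (2 * Real.log X) - v)) := fun d =>
    ((hcontY d).comp (by fun_prop)).sub ((hcontY d).comp (by fun_prop))
  have hqn : ∀ d : ℕ, 0 ≤ qf w g₀ V (fun v => y v - ytil c σ ρ h X d (1 / 2 - v)) := fun d =>
    (qf_add (η := 1) hV0 hg₀ one_pos hw hwp (hf1 d).continuousOn (hf1 d).continuousOn).1
  have hmemB : ∀ d ∈ Bd, X < d ∧ (d : ℝ) ≤ 2 * X ∧ Odd d ∧ Squarefree d ∧ ¬ NoZero σ d :=
    fun d hd => (mem_DF hXp.le).mp hd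
  have hB1 : ∀ d ∈ Bd, 1 ≤ (1 + η) * qf w g₀ V (fun v => y v - ytil c σ ρ h X d (1 / 2 - v)) +
      (1 + 1 / η) * qf w g₀ V (fun v => ytil c σ ρ h X d (1 / 2 - v) -
      ytil c σ ρ h X d (Real.log (8 * d) / (2 * Real.log X) - v)) := by
    intro d hd
    obtain ⟨k1, k2, k3, k4, k5⟩ := hmemB d hd
    have h1 := hX₄ X g4 d k1 k2 k3 k4 k5
    have h2 := (qf_add hV0 hg₀ hη0 hw hwp (hf1 d).continuousOn (hf2 d).continuousOn).2
    have h3 : (fun v => y v - ytil c σ ρ h X d (1 / 2 - v) + (ytil c σ ρ h X d (1 / 2 - v) -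
      ytil c σ ρ h X d (Real.log (8 * d) / (2 * Real.log X) - v))) =
      fun v => y v - ytil c σ ρ h X d (Real.log (8 * d) / (2 * Real.log X) - v) := by
      funext v
      ring
    rw [h3] at h2
    linarith
  have hB2 : (Bd.card : ℝ) ≤ (1 + η) * (X / 2 * ((1 + η) * E * Pz + η)) +
      (1 + 1 / η) * (η ^ 2 * X) := by
    have h1 : (Bd.card : ℝ) = ∑ d ∈ Bd, (1 : ℝ) := by simp
    have h2 := Finset.sum_le_sum hB1
    rw [← h1, Finset.sum_add_distrib, ← Finset.mul_sum, ← Finset.mul_sum] at h2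
    have h3 := sum_upper hF hFn hF1 hXp z
      (fun d => qf w g₀ V (fun v => y v - ytil c σ ρ h X d (1 / 2 - v))) hqn Bd
      (fun d hd => ⟨(hmemB d hd).1, (hmemB d hd).2.1, (hmemB d hd).2.2.1, (hmemB d hd).2.2.2.1⟩)
    have h4 := hX₃ X g3 Bd (fun d hd => ⟨(hmemB d hd).2.2.1, (hmemB d hd).1, (hmemB d hd).2.1⟩)
    have h5 := hX₁ X g1
    rw [Real.dist_eq, abs_lt] at h5
    set T := ∑' d : ℕ, (if Odd d ∧ ∀ p ∈ SP z, ¬ p ^ 2 ∣ d then
      F (d / X) * qf w g₀ V (fun v => y v - ytil c σ ρ h X d (1 / 2 - v)) else 0) with hT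
    have h6 : T ≤ X / 2 * ((1 + η) * E * Pz + η) := by
      have h7 : (∫ t, F t) * Es * Pz ≤ (1 + η) * E * Pz := by
        refine mul_le_mul_of_nonneg_right ?_ (by linarith)
        calc (∫ t, F t) * Es ≤ (∫ t, F t) * E := mul_le_mul_of_nonneg_left hEsE hFpos.le
          _ ≤ (1 + η) * E := mul_le_mul_of_nonneg_right hFi hE0
      have h8 : 2 / X * T ≤ (1 + η) * E * Pz + η := by linarith [h5.2]
      calc T = X / 2 * (2 / X * T) := by field_simp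
        _ ≤ X / 2 * ((1 + η) * E * Pz + η) := by gcongr
    have h9 : 0 < 1 + 1 / η := by positivity
    have h10 : 0 < 1 + η := by positivity
    calc (Bd.card : ℝ) ≤ _ := h2
      _ ≤ (1 + η) * T + (1 + 1 / η) * (η ^ 2 * X) := by gcongr
      _ ≤ _ := by gcongr
  exact fin_alg hη0 hη1 hE0 hη2 hPz2 hPz1 hXp hE'0 hNlow hB2

end Pool.Agent.MP0016c7.Rz
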