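import Mathlib
import Pool.Agent.Lib.MP_0016c7_nt.Theta
import Pool.Agent.Lib.MP_0016c7_nt.Rz.Defs
import Pool.Agent.Lib.MP_0016c7_nt.Rz.DefsC
import Pool.Agent.Lib.MP_0016c7_nt.Rz.DefsF
import Pool.Agent.Lib.MP_0016c7_nt.Rz.DefsE

set_option autoImplicit false

open Finset MeasureTheory Filter Topology
open scoped Real ContDiff

namespace Pool.Agent.MP0016c7.Rz

private lemma nc4_log : (4.6 : ℝ) ≤ Real.log (101.04) := by
  have h1 : (2 : ℝ) ^ 93 ≤ (101.04 : ℝ) ^ 14 := by norm_num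
  have h2 := Real.log_le_log (by positivity) h1
  rw [Real.log_pow, Real.log_pow] at h2
  have h3 := Real.log_two_gt_d9
  push_cast at h2
  linarith

private lemma nc4_int {V τ γ s A : ℝ} (hV : 0 < V) (hτ : 0 < τ) (hγ : 0 ≤ γ) :
    ∫ v in (0 : ℝ)..V, γ / (V - v + τ) * (s * (V - v) + (A * (V ^ 2 - v ^ 2)) ^ 2) ≤
      γ * s * (V - τ * Real.log ((V + τ) / τ)) + γ * A ^ 2 * (11 / 12 * V ^ 4) := by
  have hpos : ∀ v ∈ Set.Icc 0 V, 0 < V - v + τ := fun v hv => by linarith [hv.2]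
  have hc1 : ContinuousOn (fun v : ℝ => γ * s * (1 - τ / (V - v + τ)) +
      γ * A ^ 2 * ((V - v) * (V + v) ^ 2)) (Set.uIcc 0 V) := by
    rw [Set.uIcc_of_le hV.le]
    apply ContinuousOn.add
    · apply ContinuousOn.mul continuousOn_const
      apply ContinuousOn.sub continuousOn_const
      apply ContinuousOn.div continuousOn_const (by fun_prop)
      intro v hv
      exact (hpos v hv).ne'
    · fun_prop
  have hc2 : ContinuousOn (fun v : ℝ => γ / (V - v + τ) * (s * (V - v) + (A * (V ^ 2 - v ^ 2)) ^ 2))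
      (Set.uIcc 0 V) := by
    rw [Set.uIcc_of_le hV.le]
    apply ContinuousOn.mul
    · apply ContinuousOn.div continuousOn_const (by fun_prop)
      intro v hv
      exact (hpos v hv).ne'
    · fun_prop
  have h1 : ∫ v in (0 : ℝ)..V, γ / (V - v + τ) * (s * (V - v) + (A * (V ^ 2 - v ^ 2)) ^ 2) ≤
      ∫ v in (0 : ℝ)..V, (γ * s * (1 - τ / (V - v + τ)) + γ * A ^ 2 * ((V - v) * (V + v) ^ 2)) := by
    apply intervalIntegral.integral_mono_on hV.le hc2.intervalIntegrable hc1.intervalIntegrable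
    intro v hv
    have hp := hpos v hv
    have e1 : γ / (V - v + τ) * (s * (V - v) + (A * (V ^ 2 - v ^ 2)) ^ 2) =
        γ * s * (1 - τ / (V - v + τ)) + γ * A ^ 2 * (((V - v) * (V + v)) ^ 2 / (V - v + τ)) := by
      field_simp
      ring
    rw [e1]
    have h2 : ((V - v) * (V + v)) ^ 2 / (V - v + τ) ≤ (V - v) * (V + v) ^ 2 := by
      rw [div_le_iff₀ hp]
      have h3 : 0 ≤ (V - v) * (V + v) ^ 2 := mul_nonneg (by linarith [hv.2]) (sq_nonneg _)
      nlinarith
    have h4 : 0 ≤ γ * A ^ 2 := by positivity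
    have := mul_le_mul_of_nonneg_left h2 h4
    linarith
  refine h1.trans (le_of_eq ?_)
  rw [intervalIntegral.integral_eq_sub_of_hasDerivAt (f := fun v =>
    γ * s * (v + τ * Real.log (V - v + τ)) +
      γ * A ^ 2 * (V ^ 3 * v + V ^ 2 * v ^ 2 / 2 - V * v ^ 3 / 3 - v ^ 4 / 4)) _
    hc1.intervalIntegrable]
  · rw [Real.log_div (by positivity) (by positivity)]
    simp only [sub_self, zero_add, sub_zero]
    ring
  · intro v hv
    rw [Set.uIcc_of_le hV.le] at hv
    have hp := hpos v hv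
    have d1 : HasDerivAt (fun v : ℝ => V - v + τ) (-1) v := by
      simpa using ((hasDerivAt_id v).const_sub V).add_const τ
    have d2 := d1.log hp.ne'
    have d3 := (((hasDerivAt_id v).add (d2.const_mul τ)).const_mul (γ * s))
    have d4 : HasDerivAt (fun v : ℝ => V ^ 3 * v + V ^ 2 * v ^ 2 / 2 - V * v ^ 3 / 3 - v ^ 4 / 4)
        (V ^ 3 * 1 + V ^ 2 * (2 * v) / 2 - V * (3 * v ^ 2) / 3 - (4 * v ^ 3) / 4) v := by
      have p2 : HasDerivAt (fun v : ℝ => v ^ 2) (2 * v) v := by simpa using hasDerivAt_pow 2 v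
      have p3 : HasDerivAt (fun v : ℝ => v ^ 3) (3 * v ^ 2) v := by simpa using hasDerivAt_pow 3 v
      have p4 : HasDerivAt (fun v : ℝ => v ^ 4) (4 * v ^ 3) v := by simpa using hasDerivAt_pow 4 v
      exact (((hasDerivAt_id v).const_mul (V ^ 3)).add ((p2.const_mul (V ^ 2)).div_const 2)).sub
        ((p3.const_mul V).div_const 3) |>.sub (p4.div_const 4)
    have d5 := d3.add (d4.const_mul (γ * A ^ 2))
    refine d5.congr_deriv ?_
    field_simp
    ring

theorem cert_energy : qb (ww (3424 / 1000) (1 / 2 + 1 / 5000) (1 / 200)) (6848 / 100)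
    (1 / 2 + 1 / 5000) (((33 / 200 + 1 / 2) ^ 3 - 1 / 8) / 3)
    (fun v => Hid (33 / 200) 0 * (23 / 4) * ((1 / 2 + 1 / 5000) ^ 2 - v ^ 2)) ≤ 4590 / 10000 := by
  have hH : Hid (33 / 200) 0 = (33 / 200) / 2 + (33 / 200) ^ 2 / 2 := by
    unfold Hid
    rw [if_neg (by norm_num)]
    simp
  unfold qb ww
  rw [hH]
  have hI := nc4_int (V := 1 / 2 + 1 / 5000) (τ := 1 / 200) (γ := 3424 / 1000)
    (s := ((33 / 200 + 1 / 2) ^ 3 - 1 / 8) / 3) (A := ((33 / 200) / 2 + (33 / 200) ^ 2 / 2) * (23 / 4))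
    (by norm_num) (by norm_num) (by norm_num)
  have hE : ∫ v in (0 : ℝ)..(1 / 2 + 1 / 5000), (((33 : ℝ) / 200) / 2 + (33 / 200) ^ 2 / 2) * (23 / 4) *
      ((1 / 2 + 1 / 5000) ^ 2 - v ^ 2) = (((33 : ℝ) / 200) / 2 + (33 / 200) ^ 2 / 2) * (23 / 4) *
      (2 / 3 * (1 / 2 + 1 / 5000) ^ 3) := by
    rw [intervalIntegral.integral_const_mul, intervalIntegral.integral_sub
      intervalIntegrable_const ((continuous_pow 2).intervalIntegrable _ _),
      intervalIntegral.integral_const, integral_pow]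
    simp only [smul_eq_mul]
    norm_num
  rw [hE]
  have hlog := nc4_log
  have hl2 : (((1 : ℝ) / 2 + 1 / 5000 + 1 / 200) / (1 / 200)) = 101.04 := by norm_num
  rw [hl2] at hI
  norm_num at hI hlog ⊢
  linarith

end Pool.Agent.MP0016c7.Rz
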