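import Mathlib
import Pool.Agent.Lib.MP_0016c7_nt.Theta
import Pool.Agent.Lib.MP_0016c7_nt.Rz.Defs
import Pool.Agent.Lib.MP_0016c7_nt.Rz.DefsC
import Pool.Agent.Lib.MP_0016c7_nt.Rz.DefsF
import Pool.Agent.Lib.MP_0016c7_nt.Rz.DefsE
import Pool.Agent.Lib.MP_0016c7_nt.Rz.Nc1
import Pool.Agent.Lib.MP_0016c7_nt.Rz.Nc3
import Pool.Agent.Lib.MP_0016c7_nt.Rz.Nc4

set_option autoImplicit false

open Finset MeasureTheory Filter Topology
open scoped Real ContDiff

namespace Pool.Agent.MP0016c7.Rz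

/-- N1 -/
theorem cert_num : Cert (33 / 200) (1 / 5000) (23 / 4) (1 / 200) (3424 / 1000) (6848 / 100)
    (1 / 1000) (4590 / 10000) where
  hθ₀ := by norm_num
  hδ := by norm_num
  hδ' := by norm_num
  hκ := by norm_num
  hτ₀ := by norm_num
  hγ₀ := by norm_num
  hg₀ := by norm_num
  hμ := by norm_num
  hlen := by norm_num
  main := cert_of_coeff (by norm_num) (by norm_num) (by norm_num) (by norm_num) (by norm_num)
    (by norm_num) (by norm_num) cert_coeff
  en := cert_energy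

end Pool.Agent.MP0016c7.Rz
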