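import Mathlib
import Pool.Agent.Lib.MP_0016c7_nt.Rz.Nc5
import Pool.Agent.Lib.MP_0016c7_nt.Rz.ErrD8
import Pool.Agent.Lib.MP_0016c7_nt.Rz.Fa7
import Pool.Agent.Lib.MP_0016c7_nt.Rz.Fa8
import Pool.Agent.Lib.MP_0016c7_nt.Rz.Fa9

set_option autoImplicit false

open Finset MeasureTheory Filter Topology
open scoped Real ContDiff

namespace Pool.Agent.MP0016c7.Rz

theorem prop_general {θ₀ δ κ τ₀ γ₀ g₀ μ E E' : ℝ} (hC : Cert θ₀ δ κ τ₀ γ₀ g₀ μ E)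
    (hE : ErrS (θ₀ + 3 * δ) δ) (hE0 : 0 < E) (hEE : E < E') (hE1 : E' < 1) (σ : ℤ)
    (hσ : σ = 1 ∨ σ = -1) :
    ∃ X₀ : ℕ, ∀ X : ℕ, X₀ ≤ X →
      (1 - E') * (Nat.card {d : ℕ | d ≤ X ∧ Odd d ∧ Squarefree d} : ℝ) ≤
      (Nat.card {d : ℕ | d ≤ X ∧ Odd d ∧ Squarefree d ∧ NoZero σ d} : ℝ) := by
  refine total_bound (NoZero σ) ((E + E') / 2) E' (by linarith) (by linarith) hE1 ?_
  obtain ⟨X₀, h⟩ := dyadic_bound hC hE ((E + E') / 2) (by linarith) σ hσ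
  exact ⟨X₀, h⟩

private lemma card_mono' {X : ℕ} {P Q : ℕ → Prop} (h : ∀ d, P d → Q d) :
    (Nat.card {d : ℕ | d ≤ X ∧ Odd d ∧ Squarefree d ∧ P d} : ℝ) ≤
      (Nat.card {d : ℕ | d ≤ X ∧ Odd d ∧ Squarefree d ∧ Q d} : ℝ) := by
  rw [Nat.card_coe_set_eq, Nat.card_coe_set_eq]
  have hfin : {d : ℕ | d ≤ X ∧ Odd d ∧ Squarefree d ∧ Q d}.Finite := by
    refine (Set.finite_Iic X).subset ?_
    intro d hd
    exact hd.1
  have hsub : {d : ℕ | d ≤ X ∧ Odd d ∧ Squarefree d ∧ P d} ⊆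
      {d : ℕ | d ≤ X ∧ Odd d ∧ Squarefree d ∧ Q d} := by
    intro d hd
    exact ⟨hd.1, hd.2.1, hd.2.2.1, h d hd.2.2.2⟩
  exact_mod_cast Set.ncard_le_ncard hsub hfin

theorem main_even : ∃ X₀ : ℕ, ∀ X : ℕ, X₀ ≤ X →
    (54 / 100 : ℝ) * (Nat.card {d : ℕ | d ≤ X ∧ Odd d ∧ Squarefree d} : ℝ) ≤
    (Nat.card {d : ℕ | d ≤ X ∧ Odd d ∧ Squarefree d ∧
      ∀ (_ : NeZero (8 * d)) (χ : DirichletCharacter ℂ (8 * d)), χ.IsPrimitive → χ ^ 2 = 1 →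
        χ.Even → ∀ s : ℝ, 0 < s → s < 1 →
          (χ.LFunction s).im = 0 ∧ 0 < (χ.LFunction s).re} : ℝ) := by
  have hE : ErrS (33 / 200 + 3 * (1 / 5000)) (1 / 5000) :=
    errS_of_lt _ _ (by norm_num) (by norm_num) (by norm_num)
  obtain ⟨X₀, h⟩ := prop_general cert_num hE (E' := 46 / 100) (by norm_num) (by norm_num)
    (by norm_num) 1 (Or.inl rfl)
  refine ⟨X₀, fun X hX => ?_⟩
  have h1 := h X hX
  norm_num at h1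
  norm_num
  refine h1.trans (card_mono' fun d hd hn χ hp h2 he s hs0 hs1 => ?_)
  exact pos_of_noZero 1 d hd hn χ hp h2 (Or.inl ⟨rfl, he⟩) s hs0 hs1

theorem main_odd : ∃ X₀ : ℕ, ∀ X : ℕ, X₀ ≤ X →
    (54 / 100 : ℝ) * (Nat.card {d : ℕ | d ≤ X ∧ Odd d ∧ Squarefree d} : ℝ) ≤
    (Nat.card {d : ℕ | d ≤ X ∧ Odd d ∧ Squarefree d ∧
      ∀ (_ : NeZero (8 * d)) (χ : DirichletCharacter ℂ (8 * d)), χ.IsPrimitive → χ ^ 2 = 1 →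
        χ.Odd → ∀ s : ℝ, 0 < s → s < 1 →
          (χ.LFunction s).im = 0 ∧ 0 < (χ.LFunction s).re} : ℝ) := by
  have hE : ErrS (33 / 200 + 3 * (1 / 5000)) (1 / 5000) :=
    errS_of_lt _ _ (by norm_num) (by norm_num) (by norm_num)
  obtain ⟨X₀, h⟩ := prop_general cert_num hE (E' := 46 / 100) (by norm_num) (by norm_num)
    (by norm_num) (-1) (Or.inr rfl)
  refine ⟨X₀, fun X hX => ?_⟩
  have h1 := h X hX
  norm_num at h1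
  norm_num
  refine h1.trans (card_mono' fun d hd hn χ hp h2 he s hs0 hs1 => ?_)
  exact pos_of_noZero (-1) d hd hn χ hp h2 (Or.inr ⟨rfl, he⟩) s hs0 hs1

end Pool.Agent.MP0016c7.Rz
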