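import Mathlib
import Pool.Agent.Lib.MP_0016c7_nt.Rz.Main

set_option autoImplicit false

open Finset MeasureTheory Filter Topology
open scoped Real ContDiff

namespace Pool.Agent.MP0016c7.Rz

private lemma quad_val' {q : ℕ} {χ : DirichletCharacter ℂ q} (h2 : χ ^ 2 = 1) (x : ZMod q) :
    ∃ r : ℝ, χ x = r ∧ |r| ≤ 1 := by
  by_cases hx : IsUnit x
  · have h : (χ ^ 2) x = 1 := by rw [h2, MulChar.one_apply hx]
    rw [MulChar.pow_apply' χ two_ne_zero, sq] at h
    rcases mul_self_eq_one_iff.mp h with h | h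
    · exact ⟨1, by rw [h]; simp, by simp⟩
    · exact ⟨-1, by rw [h]; simp, by simp⟩
  · exact ⟨0, by rw [χ.map_nonunit hx]; simp, by simp⟩

/-- Positivity passes from the inducing primitive character to every induced character. -/
theorem pos_induced {N : ℕ} [NeZero N] (χ : DirichletCharacter ℂ N) (h2 : χ ^ 2 = 1)
    [NeZero χ.conductor] {s : ℝ} (hs0 : 0 < s) (hs1 : s < 1)
    (h : (χ.primitiveCharacter.LFunction s).im = 0 ∧ 0 < (χ.primitiveCharacter.LFunction s).re) :
    (χ.LFunction s).im = 0 ∧ 0 < (χ.LFunction s).re := by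
  have hp2 : χ.primitiveCharacter ^ 2 = 1 := by
    apply DirichletCharacter.changeLevel_injective (m := N) χ.conductor_dvd_level
    rw [map_pow, DirichletCharacter.changeLevel_primitiveCharacter, h2, map_one]
  have h1 := DirichletCharacter.LFunction_changeLevel χ.conductor_dvd_level χ.primitiveCharacter
    (s := (s : ℂ)) (Or.inr (by
      intro h0
      have : s = 1 := by exact_mod_cast h0
      linarith))
  rw [DirichletCharacter.changeLevel_primitiveCharacter] at h1
  have h3 : ∃ P : ℝ, 0 < P ∧ ∏ p ∈ N.primeFactors,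
      (1 - χ.primitiveCharacter p * (p : ℂ) ^ (-(s : ℂ))) = (P : ℂ) := by
    choose! r hr hr1 using fun p : ℕ => quad_val' hp2 (p : ZMod χ.conductor)
    refine ⟨∏ p ∈ N.primeFactors, (1 - r p * (p : ℝ) ^ (-s)), ?_, ?_⟩
    · refine Finset.prod_pos fun p hp => ?_
      have hp1 : (1 : ℝ) < p := by exact_mod_cast (Nat.prime_of_mem_primeFactors hp).one_lt
      have h4 : (p : ℝ) ^ (-s) < 1 := Real.rpow_lt_one_of_one_lt_of_neg hp1 (by linarith)
      have h5 : 0 < (p : ℝ) ^ (-s) := Real.rpow_pos_of_pos (by linarith) _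
      have h6 := (abs_le.mp (hr1 p)).2
      nlinarith
    · rw [Complex.ofReal_prod]
      refine Finset.prod_congr rfl fun p hp => ?_
      rw [hr p]
      have : ((p : ℂ)) ^ (-(s : ℂ)) = (((p : ℝ) ^ (-s) : ℝ) : ℂ) := by
        rw [Complex.ofReal_cpow (by positivity)]
        push_cast
        rfl
      rw [this]
      push_cast
      ring
  obtain ⟨P, hP, hPe⟩ := h3
  rw [hPe] at h1
  rw [h1, Complex.mul_im, Complex.mul_re, Complex.ofReal_im, Complex.ofReal_re, h.1]
  constructor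
  · ring
  · have := mul_pos h.2 hP
    linarith

private lemma prim_parity {N : ℕ} (χ : DirichletCharacter ℂ N) :
    χ.primitiveCharacter (-1) = χ (-1) := by
  have hc : IsCoprime (-1 : ℤ) (N : ℤ) := isCoprime_one_left.neg_left
  have h1 := χ.primitiveCharacter_apply_of_isCoprime hc
  push_cast at h1
  exact h1

private lemma prim_sq {N : ℕ} [NeZero N] (χ : DirichletCharacter ℂ N) (h2 : χ ^ 2 = 1) :
    χ.primitiveCharacter ^ 2 = 1 := by
  apply DirichletCharacter.changeLevel_injective (m := N) χ.conductor_dvd_level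
  rw [map_pow, DirichletCharacter.changeLevel_primitiveCharacter, h2, map_one]

theorem hand_of_prim (d : ℕ) (par : ∀ q : ℕ, DirichletCharacter ℂ q → Prop)
    (hpar : ∀ (q q' : ℕ) (χ : DirichletCharacter ℂ q) (χ' : DirichletCharacter ℂ q'),
      χ (-1) = χ' (-1) → par q χ → par q' χ')
    (h : ∀ (_ : NeZero (8 * d)) (χ : DirichletCharacter ℂ (8 * d)), χ.IsPrimitive → χ ^ 2 = 1 →
        par _ χ → ∀ s : ℝ, 0 < s → s < 1 →
          (χ.LFunction s).im = 0 ∧ 0 < (χ.LFunction s).re) :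
    ∀ (N : ℕ) (_ : NeZero N) (χ : DirichletCharacter ℂ N), χ ^ 2 = 1 → χ.conductor = 8 * d →
      par _ χ → ∀ s : ℝ, 0 < s → s < 1 → (χ.LFunction s).im = 0 ∧ 0 < (χ.LFunction s).re := by
  intro N hN χ h2 hcond hpχ s hs0 hs1
  have hc : NeZero χ.conductor := ⟨fun h0 => by
    have h1 := χ.conductor_dvd_level
    rw [h0, zero_dvd_iff] at h1
    exact NeZero.ne N h1⟩
  refine pos_induced χ h2 hs0 hs1 ?_
  have key : ∀ (q : ℕ) (hq : q = 8 * d) (_ : NeZero q) (ψ : DirichletCharacter ℂ q),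
      ψ.IsPrimitive → ψ ^ 2 = 1 → par _ ψ → (ψ.LFunction s).im = 0 ∧ 0 < (ψ.LFunction s).re := by
    intro q hq hq0 ψ p1 p2 p3
    subst hq
    exact h hq0 ψ p1 p2 p3 s hs0 hs1
  exact key _ hcond hc χ.primitiveCharacter χ.primitiveCharacter_isPrimitive (prim_sq χ h2)
    (hpar _ _ χ _ (prim_parity χ).symm hpχ)

end Pool.Agent.MP0016c7.Rz
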