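import Mathlib
import Pool.Agent.Lib.MP_0016c7_nt.Theta
import Pool.Agent.Lib.MP_0016c7_nt.Rz.Defs
import Pool.Agent.Lib.MP_0016c7_nt.Rz.DefsC
import Pool.Agent.Lib.MP_0016c7_nt.Rz.DefsF
import Pool.Agent.Lib.MP_0016c7_nt.Rz.DefsE
import Pool.Agent.Lib.MP_0016c7_nt.Rz.Lap
import Pool.Agent.Lib.MP_0016c7_nt.Rz.VHelp

set_option autoImplicit false

open Finset MeasureTheory Filter Topology
open scoped Real ContDiff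

namespace Pool.Agent.MP0016c7.Rz

open VH in
private lemma jjD_part {ρ h : ℝ → ℝ} {θ : ℝ} (hρ : Bump ρ (-(1 / 8)) (1 / 8)) (hh : Bump h 0 θ)
    (Y c : ℝ) (hc : 0 < c) (hY : Y ≤ 3 / 4) :
    1 / (2 * π) ^ 2 * ∫ x : ℝ, ∫ y : ℝ,
        rhat ρ (c + Complex.I * x) * Complex.exp ((c + Complex.I * x) * Y) *
        hhat h (3 + Complex.I * y) * (Complex.exp (-(c + Complex.I * x)) *
          (-1 / ((c + Complex.I * x) * ((3 + Complex.I * y) + (c + Complex.I * x))))) = 0 := by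
  have h1 := conv (al_int hρ hc (Y - 1)) (be_int hh 3)
    (p := fun x : ℝ => (c : ℂ) + Complex.I * x)
    (q := fun x : ℝ => ((3 : ℝ) : ℂ) + Complex.I * x) (by fun_prop) (by fun_prop) (p0 := c)
    (q0 := 3) (by intro x; simp) (by intro x; simp) (by linarith)
  simp only [al_tr hρ hc, be_tr hh] at h1
  have h0 : ∫ v in Set.Ioi (0 : ℝ), (RR ρ (Y - 1 - v) : ℂ) * (h v : ℂ) = 0 := by
    rw [← integral_zero ℝ ℂ (μ := volume.restrict (Set.Ioi 0))]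
    refine setIntegral_congr_fun measurableSet_Ioi fun v hv => ?_
    have hv0 : 0 < v := hv
    rw [RR_zero hρ (by linarith), Complex.ofReal_zero, zero_mul]
  rw [h0] at h1
  rw [← neg_zero, ← h1, ← integral_const_mul, ← integral_neg]
  refine integral_congr_ae (ae_of_all _ fun x₁ => ?_)
  simp only
  rw [← integral_const_mul, ← integral_neg]
  refine integral_congr_ae (ae_of_all _ fun x₂ => ?_)
  simp only [al, be]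
  have e : (3 + Complex.I * (x₂ : ℂ)) + (c + Complex.I * x₁) =
      (c + Complex.I * x₁) + (3 + Complex.I * x₂) := by ring
  have e' : (c + Complex.I * (x₁ : ℂ)) * ((Y : ℂ) - 1) =
      (c + Complex.I * x₁) * Y + -(c + Complex.I * x₁) := by ring
  push_cast
  rw [e, e', Complex.exp_add]
  simp only [div_eq_mul_inv, mul_inv]
  ring

open VH in
theorem JJ_D1 {ρ₁ ρ₂ h : ℝ → ℝ} {θ : ℝ} (hρ₁ : Bump ρ₁ (-(1 / 8)) (1 / 8))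
    (hρ₂ : Bump ρ₂ (-(1 / 8)) (1 / 8)) (hh : Bump h 0 θ) (Y₁ Y₂ : ℝ) (hY₁ : Y₁ ≤ 3 / 4) :
    JJ ρ₁ ρ₂ h Y₁ Y₂ (fun s₁ w₁ s₂ w₂ => Complex.exp (-s₁) *
      (-1 / (s₁ * s₂ * (w₂ - s₂) * (w₁ + s₁)))) = 0 := by
  rw [jj_12 ρ₁ ρ₂ h Y₁ Y₂ (fun s₁ w₁ => Complex.exp (-s₁) * (-1 / (s₁ * (w₁ + s₁))))
    (fun s₂ w₂ => 1 / (s₂ * (w₂ - s₂))) _ (fun s₁ w₁ s₂ w₂ => by simp only [div_eq_mul_inv, mul_inv]; ring)]
  have h1 := jjD_part hρ₁ hh Y₁ 2 (by norm_num) hY₁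
  push_cast at h1
  rw [h1, zero_mul]

open VH in
theorem JJ_D2 {ρ₁ ρ₂ h : ℝ → ℝ} {θ : ℝ} (hρ₁ : Bump ρ₁ (-(1 / 8)) (1 / 8))
    (hρ₂ : Bump ρ₂ (-(1 / 8)) (1 / 8)) (hh : Bump h 0 θ) (Y₁ Y₂ : ℝ) (hY₂ : Y₂ ≤ 3 / 4) :
    JJ ρ₁ ρ₂ h Y₁ Y₂ (fun s₁ w₁ s₂ w₂ => Complex.exp (-s₂) *
      (-1 / (s₁ * s₂ * (w₁ - s₁) * (w₂ + s₂)))) = 0 := by
  rw [jj_12 ρ₁ ρ₂ h Y₁ Y₂ (fun s₁ w₁ => 1 / (s₁ * (w₁ - s₁)))
    (fun s₂ w₂ => Complex.exp (-s₂) * (-1 / (s₂ * (w₂ + s₂)))) _ (fun s₁ w₁ s₂ w₂ => by simp only [div_eq_mul_inv, mul_inv]; ring)]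
  have h1 := jjD_part hρ₂ hh Y₂ (5 / 2) (by norm_num) hY₂
  push_cast at h1
  rw [h1, mul_zero]

end Pool.Agent.MP0016c7.Rz
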